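import Mathlib

set_option autoImplicit false

open Finset

namespace Pool.Agent.HLT

/-- average over a finite type -/
noncomputable def av {α : Type} [Fintype α] (f : α → ℝ) : ℝ := (∑ i, f i) / (Fintype.card α : ℝ)

/-- average over the cell of `d` of the partition given by `χ` -/
noncomputable def proj {V : Type} [Fintype V] {J : ℕ} (χ : V → Fin J) (u : V → ℝ) (d : V) : ℝ :=
  (∑ e ∈ univ.filter (fun e => χ e = χ d), u e) / ((univ.filter (fun e => χ e = χ d)).card : ℝ)

/-- Gram kernel -/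
noncomputable def gram {X V : Type} [Fintype X] (M : X → V → ℝ) (d d' : V) : ℝ :=
  av (fun n => M n d * M n d')

/-- correlation of a tuple -/
noncomputable def corr {X V : Type} [Fintype X] {r : ℕ} (M : X → V → ℝ) (e : Fin r → V) : ℝ :=
  av (fun n => ∏ i, M n (e i))

/-- hypotheses of the abstract structure theorem -/
structure PR {X V : Type} [Fintype X] [Fintype V] [DecidableEq V] (m : ℕ) (M ν : X → V → ℝ)
    (C B κp κ Λ : ℝ) : Prop where
  nonneg : ∀ n d, 0 ≤ M n d
  nu_nonneg : ∀ n d, 0 ≤ ν n d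
  le : ∀ n d, M n d ≤ C * ν n d
  diag : ∀ d, gram M d d ≤ Λ
  small : Λ / (Fintype.card V : ℝ) ≤ κ
  row : ∀ d, av (fun d' => if d' = d then 0 else max (gram M d d' - B) 0) ≤ κ
  nu_two : av (fun n => (av (fun d => ν n d)) ^ 2) ≤ 2
  nu_m : av (fun n => (av (fun d => ν n d)) ^ m) ≤ 2
  pseudo : ∀ a : (Fin m → V) → V → V → ℝ, (∀ e d' d'', |a e d' d''| ≤ 1) →
    av (fun d' => av (fun d'' => av (fun n => ν n d' * ν n d'' *
      (av (fun e : Fin m → V => a e d' d'' * ((∏ j, ν n (e j)) - 1))) ^ 2))) ≤ κp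

/-- the constant in the conclusion -/
noncomputable def c0 (m : ℕ) : ℝ :=
  (1 / (64 * (4 * (m:ℝ) + 1))) ^ (m + 1) /
    (16 * (3 * (m:ℝ) + 1) * ((4 * m + 1).choose (m + 1) : ℝ) * ((m+1).factorial : ℝ))

end Pool.Agent.HLT
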