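import Mathlib
import Pool.Agent.HLT.Defs
import Pool.Agent.HL26.Defs

set_option autoImplicit false

open Finset

namespace Pool.Agent.HLT

open Pool.Agent.HL26

/-- normalised tuple count -/
noncomputable def cx (k : ℕ) (x : ℝ) (e : Fin (k + 1) → ℕ) : ℝ :=
  (Real.log x) ^ (k + 1) / x * (tupleCount x (Finset.univ.image e) : ℝ)

/-- all tuples with entries at most `H` -/
def box (r H : ℕ) : Finset (Fin r → ℕ) := Fintype.piFinset (fun _ : Fin r => Finset.range (H + 1))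

/-- bounded, almost translation invariant functions of `(k+1)`-tuples -/
structure Soft (k H : ℕ) (Y κ : ℝ) (c : (Fin (k + 1) → ℕ) → ℝ) : Prop where
  nonneg : ∀ e, 0 ≤ c e
  le : ∀ e, c e ≤ Y
  shift : ∀ (e : Fin (k + 1) → ℕ) (t : ℕ), (∀ i, e i + t ≤ 6 * H) →
    |c (fun i => e i + t) - c e| ≤ κ

/-- `c` is close on `[0,6H]^(k+1)` to a function of the colours of the entries -/
def Model (k H : ℕ) (ε : ℝ) (J : ℕ) (c : (Fin (k + 1) → ℕ) → ℝ) : Prop :=
  ∃ (χ : ℕ → Fin J) (g : (Fin (k + 1) → Fin J) → ℝ),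
    ∑ e ∈ box (k + 1) (6 * H), |c e - g (fun i => χ (e i))| ≤ ε * ((6 * H : ℝ) + 1) ^ (k + 1)

/-- averaging over the shifts `τ ∈ ∏ P i` -/
noncomputable def shiftAv {G : Type} [AddCommMonoid G] [DecidableEq G] {k : ℕ} (P : Fin k → Finset G)
    (f : (Fin k → G) → ℝ) (d : Fin k → G) : ℝ :=
  (∑ τ ∈ Fintype.piFinset P, f (d + τ)) / ((Fintype.piFinset P).card : ℝ)

/-- a real trigonometric polynomial in `k` variables with frequencies in a list of length `J` -/
noncomputable def trig {k J : ℕ} (α : Fin J → ℝ) (a b : (Fin k → Fin J) → ℝ) (d : Fin k → ℕ) : ℝ :=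
  ∑ j : Fin k → Fin J, (a j * Real.cos (2 * Real.pi * ∑ i, α (j i) * (d i : ℝ)) +
    b j * Real.sin (2 * Real.pi * ∑ i, α (j i) * (d i : ℝ)))

end Pool.Agent.HLT
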