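import Mathlib
import Pool.Agent.HLT.APDefs
import Pool.Agent.HL26.SieveD
import Pool.Agent.HL26.Final

set_option autoImplicit false

open Finset Filter

namespace Pool.Agent.HLT

open Pool.Agent.HL26

namespace APMomentAux

lemma cx_nonneg (k : ℕ) (x : ℝ) (hx : 1 ≤ x) (e : Fin (k + 1) → ℕ) : 0 ≤ cx k x e := by
  unfold cx
  have := Real.log_nonneg hx
  positivity

/-- pointwise bound -/
lemma exists_pointwise (k : ℕ) : ∃ C : ℝ, 0 < C ∧ ∀ᶠ x : ℝ in atTop, ∀ e : Fin (k + 1) → ℕ,
    Function.Injective e →
      cx k x e ≤ C * singularSeries (Finset.univ.image e) + 1 := by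
  obtain ⟨C, hC, hsb⟩ := exists_sieve_bound (k + 1) (by omega)
  refine ⟨C, hC, ?_⟩
  have hlog : ∀ᶠ x : ℝ in atTop, (k + 1 : ℝ) * ((Real.log x) ^ (k + 1)) ≤ x := by
    have h := Real.isLittleO_pow_log_id_atTop (n := k + 1)
    have h2 := h.bound (c := 1 / (k + 1 : ℝ)) (by positivity)
    filter_upwards [h2, eventually_ge_atTop (1:ℝ)] with x hx hx1
    have hl := Real.log_nonneg hx1
    rw [Real.norm_of_nonneg (by positivity)] at hx
    simp only [id] at hx
    rw [Real.norm_of_nonneg (by linarith)] at hx
    have hk : (0:ℝ) < k + 1 := by positivity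
    calc (k + 1 : ℝ) * ((Real.log x) ^ (k + 1)) ≤ (k + 1 : ℝ) * (1 / (k + 1 : ℝ) * x) :=
          mul_le_mul_of_nonneg_left hx hk.le
      _ = x := by field_simp
  filter_upwards [hsb, hlog, eventually_ge_atTop (2:ℝ)] with x hsb hlog hx2 e he
  have hcard : (Finset.univ.image e).card = k + 1 := by
    rw [Finset.card_image_of_injective _ he, Finset.card_univ, Fintype.card_fin]
  have hx0 : 0 < x := by linarith
  have hlp : 0 < Real.log x := Real.log_pos (by linarith)
  have hS := singularSeries_nonneg (Finset.univ.image e)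
  rcases hS.eq_or_lt with h0 | hpos
  · have h1 := tupleCount_le_of_zero (Finset.univ.image e) h0.symm x
    rw [hcard] at h1
    have h2 : (tupleCount x (Finset.univ.image e) : ℝ) ≤ (k + 1 : ℝ) := by exact_mod_cast h1
    rw [← h0, mul_zero, zero_add]
    unfold cx
    rw [div_mul_eq_mul_div, div_le_one hx0]
    calc (Real.log x) ^ (k + 1) * (tupleCount x (Finset.univ.image e) : ℝ)
        ≤ (Real.log x) ^ (k + 1) * (k + 1 : ℝ) := mul_le_mul_of_nonneg_left h2 (by positivity)
      _ = (k + 1 : ℝ) * ((Real.log x) ^ (k + 1)) := by ring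
      _ ≤ x := hlog
  · have h1 := hsb (Finset.univ.image e) hcard (admissible_of_pos _ hpos)
    unfold cx
    calc (Real.log x) ^ (k + 1) / x * (tupleCount x (Finset.univ.image e) : ℝ)
        ≤ (Real.log x) ^ (k + 1) / x *
          (C * (singularSeries (Finset.univ.image e) * (x / (Real.log x) ^ (k + 1)))) :=
          mul_le_mul_of_nonneg_left h1 (by positivity)
      _ = C * singularSeries (Finset.univ.image e) := by field_simp
      _ ≤ _ := by linarith

/-- summing a nonnegative function of the image set over injective tuples -/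
lemma sum_image_le (r : ℕ) (A : Finset ℕ) (f : Finset ℕ → ℝ) (hf : ∀ E, 0 ≤ f E)
    (T : Finset (Fin r → ℕ)) (hT : ∀ e ∈ T, Function.Injective e ∧ ∀ i, e i ∈ A) :
    ∑ e ∈ T, f (Finset.univ.image e) ≤ (r : ℝ) ^ r * ∑ E ∈ A.powersetCard r, f E := by
  have hmaps : ∀ e ∈ T, Finset.univ.image e ∈ A.powersetCard r := by
    intro e he
    rw [Finset.mem_powersetCard]
    refine ⟨?_, ?_⟩
    · intro a ha
      rw [Finset.mem_image] at ha
      obtain ⟨i, -, rfl⟩ := ha
      exact (hT e he).2 i
    · rw [Finset.card_image_of_injective _ (hT e he).1, Finset.card_univ, Fintype.card_fin]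
  rw [← Finset.sum_fiberwise_of_maps_to hmaps, Finset.mul_sum]
  apply Finset.sum_le_sum
  intro E hE
  rw [Finset.mem_powersetCard] at hE
  have h1 : ∑ e ∈ T.filter (fun e => Finset.univ.image e = E), f (Finset.univ.image e) =
      ((T.filter (fun e => Finset.univ.image e = E)).card : ℝ) * f E := by
    rw [← nsmul_eq_mul, ← Finset.sum_const]
    apply Finset.sum_congr rfl
    intro e he
    rw [(Finset.mem_filter.1 he).2]
  rw [h1]
  apply mul_le_mul_of_nonneg_right _ (hf E)
  have h2 : T.filter (fun e => Finset.univ.image e = E) ⊆ Fintype.piFinset (fun _ : Fin r => E) := by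
    intro e he
    rw [Fintype.mem_piFinset]
    intro i
    rw [← (Finset.mem_filter.1 he).2]
    exact Finset.mem_image_of_mem _ (Finset.mem_univ i)
  have h3 := Finset.card_le_card h2
  rw [Fintype.card_piFinset, Finset.prod_const, Finset.card_univ, Fintype.card_fin, hE.2] at h3
  exact_mod_cast h3

/-- second moment of the singular series of `{0} ∪ D` -/
lemma sum_insert_sq (k : ℕ) (hk : 1 ≤ k) : ∃ C : ℝ, 0 < C ∧ ∀ H : ℕ, 1 ≤ H →
    ∑ D ∈ (Finset.Icc 1 H).powersetCard k, (singularSeries (insert 0 D)) ^ 2 ≤ C * (H : ℝ) ^ k := by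
  obtain ⟨C, hC, h⟩ := sum_S_sq (k + 1) (by omega)
  refine ⟨C * 2 ^ (k + 1) * 2 ^ k, by positivity, fun H hH => ?_⟩
  have key : ((H : ℝ) + 1) * ∑ D ∈ (Finset.Icc 1 H).powersetCard k, (singularSeries (insert 0 D)) ^ 2 ≤
      ∑ E ∈ (Finset.range (2 * H + 1)).powersetCard (k + 1), (singularSeries (translate0 E)) ^ 2 := by
    have h1 : ((H : ℝ) + 1) * ∑ D ∈ (Finset.Icc 1 H).powersetCard k, (singularSeries (insert 0 D)) ^ 2 =
        ∑ q ∈ Finset.range (H + 1) ×ˢ (Finset.Icc 1 H).powersetCard k,
          (singularSeries (translate0 ((insert 0 q.2).image (fun d => d + q.1)))) ^ 2 := by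
      rw [Finset.sum_product]
      simp only [translate0_insert_shift]
      rw [Finset.sum_const, Finset.card_range, nsmul_eq_mul]
      push_cast
      ring
    rw [h1]
    have h0 : ∀ q ∈ Finset.range (H + 1) ×ˢ (Finset.Icc 1 H).powersetCard k, 0 ∉ q.2 := by
      intro q hq h0
      rw [Finset.mem_product, Finset.mem_powersetCard] at hq
      have := hq.2.1 h0
      rw [Finset.mem_Icc] at this
      omega
    have hinj : Set.InjOn (fun q : ℕ × Finset ℕ => (insert 0 q.2).image (fun d => d + q.1))
        ((Finset.range (H + 1) ×ˢ (Finset.Icc 1 H).powersetCard k : Finset (ℕ × Finset ℕ)) : Set (ℕ × Finset ℕ)) := by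
      intro q hq q' hq' heq
      have e1 : translate0 ((insert 0 q.2).image (fun d => d + q.1)) =
          translate0 ((insert 0 q'.2).image (fun d => d + q'.1)) := by
        simp only at heq
        rw [heq]
      rw [translate0_insert_shift, translate0_insert_shift] at e1
      have e2 : q.2 = q'.2 := by
        have := congrArg (fun s => Finset.erase s 0) e1
        simpa [Finset.erase_insert (h0 q hq), Finset.erase_insert (h0 q' hq')] using this
      have e3 : q.1 = q'.1 := by
        simp only at heq
        have a1 : q.1 ∈ (insert 0 q'.2).image (fun d => d + q'.1) := by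
          rw [← heq, Finset.mem_image]
          exact ⟨0, Finset.mem_insert_self _ _, by simp⟩
        have a2 : q'.1 ∈ (insert 0 q.2).image (fun d => d + q.1) := by
          rw [heq, Finset.mem_image]
          exact ⟨0, Finset.mem_insert_self _ _, by simp⟩
        rw [Finset.mem_image] at a1 a2
        obtain ⟨d1, -, hd1⟩ := a1
        obtain ⟨d2, -, hd2⟩ := a2
        omega
      exact Prod.ext e3 e2
    rw [← Finset.sum_image (f := fun E => (singularSeries (translate0 E)) ^ 2)
      (g := fun q : ℕ × Finset ℕ => (insert 0 q.2).image (fun d => d + q.1)) hinj]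
    apply Finset.sum_le_sum_of_subset_of_nonneg
    · intro E hE
      rw [Finset.mem_image] at hE
      obtain ⟨q, hq, rfl⟩ := hE
      have h00 := h0 q hq
      rw [Finset.mem_product, Finset.mem_powersetCard, Finset.mem_range] at hq
      rw [Finset.mem_powersetCard]
      refine ⟨?_, ?_⟩
      · intro a ha
        rw [Finset.mem_image] at ha
        obtain ⟨d, hd, rfl⟩ := ha
        rw [Finset.mem_range]
        rw [Finset.mem_insert] at hd
        rcases hd with rfl | hd
        · omega
        · have := hq.2.1 hd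
          rw [Finset.mem_Icc] at this
          omega
      · rw [Finset.card_image_of_injective _ (fun a b hab => by simpa using hab),
          Finset.card_insert_of_notMem h00, hq.2.2]
    · intro E _ _
      positivity
  have h2 := h (2 * H)
  have hH0 : (0:ℝ) < (H:ℝ) + 1 := by positivity
  have hH1 : (1:ℝ) ≤ H := by exact_mod_cast hH
  have h3 : C * (((2 * H : ℕ) : ℝ) + 1) ^ (k + 1) ≤ ((H : ℝ) + 1) * (C * 2 ^ (k + 1) * 2 ^ k * (H : ℝ) ^ k) := by
    calc C * (((2 * H : ℕ) : ℝ) + 1) ^ (k + 1) ≤ C * (2 * ((H:ℝ) + 1)) ^ (k + 1) := by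
          apply mul_le_mul_of_nonneg_left _ hC.le
          apply pow_le_pow_left₀ (by positivity)
          push_cast
          linarith
      _ = ((H:ℝ) + 1) * (C * 2 ^ (k + 1) * ((H:ℝ) + 1) ^ k) := by rw [mul_pow]; ring
      _ ≤ ((H:ℝ) + 1) * (C * 2 ^ (k + 1) * (2 * (H:ℝ)) ^ k) := by
          apply mul_le_mul_of_nonneg_left _ hH0.le
          apply mul_le_mul_of_nonneg_left _ (by positivity)
          apply pow_le_pow_left₀ (by positivity)
          linarith
      _ = _ := by rw [mul_pow]; ring
  exact le_of_mul_le_mul_left ((key.trans h2).trans h3) hH0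

end APMomentAux

open Classical in
/-- G7: first and second moments of the normalised tuple counts (sieve upper bound and second moment
of the singular series). -/
theorem cx_moments (k : ℕ) (hk : 1 ≤ k) : ∃ C : ℝ, 0 < C ∧ ∃ X : ℝ, ∀ x : ℝ, X ≤ x →
    ∀ H : ℕ, 1 ≤ H →
      ∑ e ∈ (box (k + 1) H).filter (fun e => Function.Injective e), cx k x e ≤
        C * ((H:ℝ) + 1) ^ (k + 1) ∧
      ∑ d ∈ (Fintype.piFinset (fun _ : Fin k => Finset.Icc 1 H)).filter
          (fun d => Function.Injective d), (cx k x (Fin.cons 0 d)) ^ 2 ≤ C * (H:ℝ) ^ k := by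
  obtain ⟨C1, hC1, hp⟩ := APMomentAux.exists_pointwise k
  obtain ⟨C2, hC2, hsq⟩ := sum_singularSeries_sq_le (k + 1) (by omega)
  obtain ⟨C3, hC3, hins⟩ := APMomentAux.sum_insert_sq k hk
  obtain ⟨X, hX⟩ := Filter.eventually_atTop.1 (hp.and (eventually_ge_atTop (1:ℝ)))
  set R : ℝ := (((k + 1 : ℕ) : ℝ)) ^ (k + 1) with hR
  set R' : ℝ := ((k : ℕ) : ℝ) ^ k with hR'
  have hR0 : 0 < R := by positivity
  have hR0' : 0 ≤ R' := by positivity
  refine ⟨(C1 + 1 + C1 * (R * C2)) + (2 * C1 ^ 2 * (R' * C3) + 2), by positivity, X, ?_⟩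
  intro x hx H hH
  obtain ⟨hpx, hx1⟩ := hX x hx
  have hH1 : (1:ℝ) ≤ H := by exact_mod_cast hH
  constructor
  · have s1 : ∑ e ∈ (box (k + 1) H).filter (fun e => Function.Injective e), cx k x e ≤
        ∑ e ∈ (box (k + 1) H).filter (fun e => Function.Injective e),
          (C1 * (singularSeries (Finset.univ.image e)) ^ 2 + (C1 + 1)) := by
      apply Finset.sum_le_sum
      intro e he
      have h := hpx e (Finset.mem_filter.1 he).2
      have hS : singularSeries (Finset.univ.image e) ≤ (singularSeries (Finset.univ.image e)) ^ 2 + 1 := by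
        nlinarith [sq_nonneg (singularSeries (Finset.univ.image e) - 1)]
      have := mul_le_mul_of_nonneg_left hS hC1.le
      linarith
    rw [Finset.sum_add_distrib, ← Finset.mul_sum, Finset.sum_const, nsmul_eq_mul] at s1
    have s2 := APMomentAux.sum_image_le (k + 1) (Finset.range (H + 1)) (fun E => (singularSeries E) ^ 2)
      (fun E => by positivity) ((box (k + 1) H).filter (fun e => Function.Injective e)) (by
        intro e he
        rw [Finset.mem_filter] at he
        refine ⟨he.2, ?_⟩
        intro i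
        exact (Fintype.mem_piFinset.1 he.1) i)
    have s3 := hsq H
    have s4 : (((box (k + 1) H).filter (fun e => Function.Injective e)).card : ℝ) ≤ ((H:ℝ) + 1) ^ (k + 1) := by
      have := Finset.card_filter_le (box (k + 1) H) (fun e => Function.Injective e)
      have hb : (box (k + 1) H).card = (H + 1) ^ (k + 1) := by
        unfold box
        rw [Fintype.card_piFinset, Finset.prod_const, Finset.card_range, Finset.card_univ, Fintype.card_fin]
      rw [hb] at this
      exact_mod_cast this
    have hP : (0:ℝ) ≤ ((H:ℝ) + 1) ^ (k + 1) := by positivity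
    have s5 : ∑ e ∈ (box (k + 1) H).filter (fun e => Function.Injective e), cx k x e ≤
        C1 * (R * (C2 * ((H:ℝ) + 1) ^ (k + 1))) + ((H:ℝ) + 1) ^ (k + 1) * (C1 + 1) := by
      refine s1.trans ?_
      apply add_le_add
      · apply mul_le_mul_of_nonneg_left _ hC1.le
        refine s2.trans ?_
        apply mul_le_mul_of_nonneg_left s3 hR0.le
      · apply mul_le_mul_of_nonneg_right s4 (by linarith)
    refine s5.trans ?_
    have hQ : 0 ≤ (2 * C1 ^ 2 * (R' * C3) + 2) * ((H:ℝ) + 1) ^ (k + 1) := by positivity
    linarith [hQ]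
  · have himg : ∀ d : Fin k → ℕ, Finset.univ.image (Fin.cons 0 d : Fin (k + 1) → ℕ) =
        insert 0 (Finset.univ.image d) := by
      intro d
      ext a
      simp only [Finset.mem_image, Finset.mem_univ, true_and, Finset.mem_insert]
      constructor
      · rintro ⟨i, hi⟩
        rcases Fin.eq_zero_or_eq_succ i with rfl | ⟨j, rfl⟩
        · left
          simpa using hi.symm
        · right
          exact ⟨j, by simpa using hi⟩
      · rintro (rfl | ⟨j, hj⟩)
        · exact ⟨0, by simp⟩
        · exact ⟨j.succ, by simpa using hj⟩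
    have s1 : ∑ d ∈ (Fintype.piFinset (fun _ : Fin k => Finset.Icc 1 H)).filter
          (fun d => Function.Injective d), (cx k x (Fin.cons 0 d)) ^ 2 ≤
        ∑ d ∈ (Fintype.piFinset (fun _ : Fin k => Finset.Icc 1 H)).filter
          (fun d => Function.Injective d),
          (2 * C1 ^ 2 * (singularSeries (insert 0 (Finset.univ.image d))) ^ 2 + 2) := by
      apply Finset.sum_le_sum
      intro d hd
      rw [Finset.mem_filter, Fintype.mem_piFinset] at hd
      have hinj : Function.Injective (Fin.cons 0 d : Fin (k + 1) → ℕ) := by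
        rw [Fin.cons_injective_iff]
        refine ⟨?_, hd.2⟩
        rintro ⟨i, hi⟩
        have := hd.1 i
        rw [Finset.mem_Icc] at this
        omega
      have h := hpx _ hinj
      rw [himg] at h
      have h0 := APMomentAux.cx_nonneg k x hx1 (Fin.cons 0 d)
      have hS := singularSeries_nonneg (insert 0 (Finset.univ.image d))
      calc (cx k x (Fin.cons 0 d)) ^ 2 ≤ (C1 * singularSeries (insert 0 (Finset.univ.image d)) + 1) ^ 2 :=
            pow_le_pow_left₀ h0 h 2
        _ ≤ _ := by nlinarith [sq_nonneg (C1 * singularSeries (insert 0 (Finset.univ.image d)) - 1)]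
    rw [Finset.sum_add_distrib, ← Finset.mul_sum, Finset.sum_const, nsmul_eq_mul] at s1
    have s2 := APMomentAux.sum_image_le k (Finset.Icc 1 H) (fun E => (singularSeries (insert 0 E)) ^ 2)
      (fun E => by positivity) ((Fintype.piFinset (fun _ : Fin k => Finset.Icc 1 H)).filter
          (fun d => Function.Injective d)) (by
        intro e he
        rw [Finset.mem_filter] at he
        refine ⟨he.2, ?_⟩
        intro i
        exact (Fintype.mem_piFinset.1 he.1) i)
    have s3 := hins H hH
    have s4 : (((Fintype.piFinset (fun _ : Fin k => Finset.Icc 1 H)).filter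
          (fun d => Function.Injective d)).card : ℝ) ≤ (H:ℝ) ^ k := by
      have := Finset.card_filter_le (Fintype.piFinset (fun _ : Fin k => Finset.Icc 1 H))
        (fun d => Function.Injective d)
      have hb : (Fintype.piFinset (fun _ : Fin k => Finset.Icc 1 H)).card = H ^ k := by
        rw [Fintype.card_piFinset, Finset.prod_const, Finset.card_univ, Fintype.card_fin, Nat.card_Icc]
        simp
      rw [hb] at this
      exact_mod_cast this
    have s5 : ∑ d ∈ (Fintype.piFinset (fun _ : Fin k => Finset.Icc 1 H)).filter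
          (fun d => Function.Injective d), (cx k x (Fin.cons 0 d)) ^ 2 ≤
        2 * C1 ^ 2 * (R' * (C3 * (H:ℝ) ^ k)) + (H:ℝ) ^ k * 2 := by
      refine s1.trans ?_
      apply add_le_add
      · apply mul_le_mul_of_nonneg_left _ (by positivity)
        refine s2.trans ?_
        apply mul_le_mul_of_nonneg_left s3 hR0'
      · apply mul_le_mul_of_nonneg_right s4 (by norm_num)
    refine s5.trans ?_
    have hQ : 0 ≤ (C1 + 1 + C1 * (R * C2)) * (H:ℝ) ^ k := by positivity
    linarith [hQ]

end Pool.Agent.HLT
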