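import Mathlib
import Pool.Agent.HLT.Defs
import Pool.Agent.HL26.Defs
import Pool.Agent.HL26.Sing
import Pool.Agent.Lib.Maynard.Harm

set_option autoImplicit false

open Finset

namespace Pool.Agent.HLT

open Pool.Agent.HL26

/-- product of the primes up to `w` -/
def Wp (w : ℕ) : ℕ := ∏ p ∈ PPy w, p

/-- product of `p/(p-1)` over the primes `p > w` dividing `h` -/
noncomputable def pp (w h : ℕ) : ℝ :=
  ∏ p ∈ h.primeFactors.filter (fun p => w < p), ((p:ℝ) / ((p:ℝ) - 1))

/-- product of `1 - 1/p` over the primes in `(w, z]` -/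
noncomputable def th (w z : ℕ) : ℝ :=
  ∏ p ∈ (PPy z).filter (fun p => w < p), (1 - 1 / (p:ℝ))

/-- no prime factor up to `z` -/
def Rough (z n : ℕ) : Prop := ∀ p : ℕ, p.Prime → p ≤ z → ¬ p ∣ n

/-- the integers in `(N, 2N]` in a residue class mod `Wp w` -/
def XS (N w a : ℕ) : Finset ℕ := (Finset.Ioc N (2 * N)).filter (fun n => n ≡ a [MOD Wp w])

/-- the integers in `[0,H]` whose residue mod `Wp w` is in `ρ` -/
def VS (w H : ℕ) (ρ : Finset ℕ) : Finset ℕ :=
  (Finset.range (H + 1)).filter (fun d => d % Wp w ∈ ρ)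

/-- sifting level -/
noncomputable def zz (N : ℕ) (u : ℝ) : ℕ := ⌊(N:ℝ) ^ (1 / u)⌋₊

/-- normalised indicator of primes -/
noncomputable def MM (N w : ℕ) {S T : Finset ℕ} (n : S) (d : T) : ℝ :=
  if ((n:ℕ) + (d:ℕ)).Prime then Maynard.cW (Wp w) * Real.log N else 0

open Classical in
/-- normalised indicator of rough numbers -/
noncomputable def NN (w z : ℕ) {S T : Finset ℕ} (n : S) (d : T) : ℝ :=
  if Rough z ((n:ℕ) + (d:ℕ)) then (th w z)⁻¹ else 0

/-- product over pairs -/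
noncomputable def pairs {r : ℕ} {V : Type} (g : V → V → ℝ) (e : Fin r → V) : ℝ :=
  ∏ i, ∏ j ∈ univ.filter (fun j => i < j), g (e i) (e j)

end Pool.Agent.HLT
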