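import Mathlib
import Pool.Agent.HLT.NDefs

set_option autoImplicit false

open Finset

namespace Pool.Agent.HLT

open Pool.Agent.HL26

/-- the primes of `(w, R]` -/
def PwR (w R : ℕ) : Finset ℕ := (PPy R).filter (fun p => w < p)

/-- squarefree products of primes of `(w, R]` that are at most `R` -/
def Dv (w R : ℕ) : Finset ℕ := (∏ p ∈ PwR w R, p).divisors.filter (fun q => q ≤ R)

/-- Selberg's sum -/
noncomputable def SG (w R : ℕ) : ℝ := ∑ r ∈ Dv w R, 1 / (Nat.totient r : ℝ)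

/-- Selberg's weights -/
noncomputable def lamS (w R q : ℕ) : ℝ :=
  ((ArithmeticFunction.moebius q : ℤ) : ℝ) * q *
    (∑ r ∈ (Dv w R).filter (fun r => q ∣ r), 1 / (Nat.totient r : ℝ)) / SG w R

/-- Selberg's divisor sum -/
noncomputable def LamS (w R m : ℕ) : ℝ := ∑ q ∈ (Dv w R).filter (fun q => q ∣ m), lamS w R q

/-- the mean value of `LamS ^ 2` over the multiples of `s` -/
noncomputable def VV (w R s : ℕ) : ℝ := ∑ q1 ∈ Dv w R, ∑ q2 ∈ Dv w R,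
  lamS w R q1 * lamS w R q2 * ((Nat.gcd (Nat.lcm q1 q2) s : ℕ) : ℝ) / (Nat.lcm q1 q2 : ℝ)

/-- the mean value of `LamS (m) ^ 2 * LamS (m + h) ^ 2` -/
noncomputable def PM (w R h : ℕ) : ℝ := ∑ q1 ∈ Dv w R, ∑ q2 ∈ Dv w R, ∑ r1 ∈ Dv w R, ∑ r2 ∈ Dv w R,
  lamS w R q1 * lamS w R q2 * lamS w R r1 * lamS w R r2 *
    (if Nat.gcd (Nat.lcm q1 q2) (Nat.lcm r1 r2) ∣ h then
      ((Nat.gcd (Nat.lcm q1 q2) (Nat.lcm r1 r2) : ℕ) : ℝ) /
        ((Nat.lcm q1 q2 : ℝ) * (Nat.lcm r1 r2 : ℝ)) else 0)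

end Pool.Agent.HLT
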