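import Mathlib
import Pool.Agent.HLT.SelDefs

set_option autoImplicit false

open Finset

namespace Pool.Agent.HLT

open Pool.Agent.HL26 Pool.Agent.Maynard

namespace SelAAux

lemma mem_PPy {y p : ℕ} : p ∈ PPy y ↔ p.Prime ∧ p ≤ y := by
  unfold PPy
  simp only [Finset.mem_filter, Finset.mem_range]
  constructor
  · rintro ⟨h1, h2⟩; exact ⟨h2, by omega⟩
  · rintro ⟨h1, h2⟩; exact ⟨by omega, h1⟩

lemma mem_PwR {w R p : ℕ} : p ∈ PwR w R ↔ p.Prime ∧ w < p ∧ p ≤ R := by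
  unfold PwR
  rw [Finset.mem_filter, mem_PPy]
  tauto

lemma Wp_pos (w : ℕ) : 0 < Wp w := by
  unfold Wp
  exact Finset.prod_pos fun p hp => (mem_PPy.1 hp).1.pos

lemma coprime_Wp {w r : ℕ} : (Wp w).Coprime r ↔ ∀ p : ℕ, p.Prime → p ∣ r → w < p := by
  unfold Wp
  rw [Nat.coprime_prod_left_iff]
  constructor
  · intro h p hp hpr
    by_contra hw
    have h1 := h p (mem_PPy.2 ⟨hp, by omega⟩)
    rw [hp.coprime_iff_not_dvd] at h1
    exact h1 hpr
  · intro h p hp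
    rw [mem_PPy] at hp
    rw [hp.1.coprime_iff_not_dvd]
    intro h1
    have := h p hp.1 h1
    omega

lemma sqf_prod {s : Finset ℕ} (hs : ∀ p ∈ s, p.Prime) : Squarefree (∏ p ∈ s, p) := by
  refine Finset.squarefree_prod_of_pairwise_isCoprime ?_ fun p hp => (hs p hp).prime.squarefree
  intro p hp q hq hpq
  show IsRelPrime p q
  rw [← Nat.coprime_iff_isRelPrime]
  exact (Nat.coprime_primes (hs p hp) (hs q hq)).2 hpq

lemma mem_Dv {w R r : ℕ} : r ∈ Dv w R ↔ Squarefree r ∧ r ≤ R ∧ (Wp w).Coprime r := by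
  have hs : ∀ p ∈ PwR w R, p.Prime := fun p hp => (mem_PwR.1 hp).1
  have hne : (∏ p ∈ PwR w R, p) ≠ 0 :=
    (Finset.prod_pos fun p hp => (hs p hp).pos).ne'
  unfold Dv
  rw [Finset.mem_filter, Nat.mem_divisors, coprime_Wp]
  constructor
  · rintro ⟨⟨h1, -⟩, h2⟩
    refine ⟨(sqf_prod hs).squarefree_of_dvd h1, h2, ?_⟩
    intro p hp hpr
    have h3 : p ∈ (∏ p ∈ PwR w R, p).primeFactors :=
      Nat.mem_primeFactors.2 ⟨hp, hpr.trans h1, hne⟩
    rw [Nat.primeFactors_prod hs] at h3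
    exact (mem_PwR.1 h3).2.1
  · rintro ⟨h1, h2, h3⟩
    refine ⟨⟨?_, hne⟩, h2⟩
    rw [← Nat.prod_primeFactors_of_squarefree h1]
    refine Finset.prod_dvd_prod_of_subset _ _ _ ?_
    intro p hp
    rw [Nat.mem_primeFactors] at hp
    rw [mem_PwR]
    exact ⟨hp.1, h3 p hp.1 hp.2.1, (Nat.le_of_dvd (Nat.pos_of_ne_zero hp.2.2) hp.2.1).trans h2⟩

lemma Dv_pos {w R r : ℕ} (h : r ∈ Dv w R) : 0 < r := by
  rw [mem_Dv] at h
  exact Nat.pos_of_ne_zero h.1.ne_zero

lemma one_mem_Dv (w R : ℕ) (hR : 1 ≤ R) : 1 ∈ Dv w R := by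
  rw [mem_Dv]
  exact ⟨squarefree_one, hR, Nat.coprime_one_right _⟩

/-- reciprocal of the totient, as an arithmetic function -/
noncomputable def fφ : ArithmeticFunction ℝ :=
  ⟨fun n => 1 / (Nat.totient n : ℝ), by simp⟩

lemma fφ_apply (n : ℕ) : fφ n = 1 / (Nat.totient n : ℝ) := rfl

lemma fφ_mult : fφ.IsMultiplicative := by
  refine ⟨by simp [fφ_apply], ?_⟩
  intro m n h
  rw [fφ_apply, fφ_apply, fφ_apply, Nat.totient_mul h]
  push_cast
  rw [one_div_mul_one_div]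

/-- reciprocal of `n φ(n)`, as an arithmetic function -/
noncomputable def gφ : ArithmeticFunction ℝ :=
  ⟨fun n => 1 / ((n:ℝ) * (Nat.totient n : ℝ)), by simp⟩

lemma gφ_apply (n : ℕ) : gφ n = 1 / ((n:ℝ) * (Nat.totient n : ℝ)) := rfl

lemma gφ_mult : gφ.IsMultiplicative := by
  refine ⟨by simp [gφ_apply], ?_⟩
  intro m n h
  rw [gφ_apply, gφ_apply, gφ_apply, Nat.totient_mul h]
  push_cast
  rw [one_div_mul_one_div]
  congr 1
  ring

/-- `∑_{e ∣ r} 1/φ(e) = r/φ(r)` for squarefree `r` -/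
lemma sum_inv_totient {r : ℕ} (hr : Squarefree r) :
    ∑ e ∈ r.divisors, 1 / (Nat.totient e : ℝ) = (r:ℝ) / (Nat.totient r : ℝ) := by
  have h0 : 0 < r := Nat.pos_of_ne_zero hr.ne_zero
  have h1 := fφ_mult.prodPrimeFactors_one_add_of_squarefree hr
  have h2 : ∑ e ∈ r.divisors, 1 / (Nat.totient e : ℝ) = ∑ e ∈ r.divisors, fφ e := rfl
  rw [h2, ← h1]
  have h3 : (Nat.totient r : ℝ) = (r:ℝ) * ∏ p ∈ r.primeFactors, (1 - (p:ℝ)⁻¹) := by
    have := Nat.totient_eq_mul_prod_factors r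
    have h4 : ((Nat.totient r : ℚ) : ℝ) = (((r:ℚ) * ∏ p ∈ r.primeFactors, (1 - (p:ℚ)⁻¹) : ℚ) : ℝ) := by
      rw [this]
    push_cast at h4
    exact h4
  have h5 : ∀ p ∈ r.primeFactors, (1 + fφ p) = (1 - (p:ℝ)⁻¹)⁻¹ := by
    intro p hp
    have hp' := Nat.prime_of_mem_primeFactors hp
    have h2p : (2:ℝ) ≤ p := by exact_mod_cast hp'.two_le
    rw [fφ_apply, Nat.totient_prime hp', Nat.cast_sub hp'.one_le]
    push_cast
    have h6 : (p:ℝ) - 1 ≠ 0 := by linarith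
    have h7 : (p:ℝ) ≠ 0 := by linarith
    have h8 : 1 - (p:ℝ)⁻¹ = ((p:ℝ) - 1) / p := by field_simp
    rw [h8, inv_div]
    field_simp
    ring
  rw [Finset.prod_congr rfl h5, h3, Finset.prod_inv_distrib]
  have h9 : (r:ℝ) ≠ 0 := by positivity
  rw [← div_div, div_self h9, one_div]

lemma inv_totient_eq {r : ℕ} (hr : Squarefree r) :
    1 / (Nat.totient r : ℝ) = 1 / (r:ℝ) * ∏ p ∈ r.primeFactors, (1 - (p:ℝ)⁻¹)⁻¹ := by
  have h3 : (Nat.totient r : ℝ) = (r:ℝ) * ∏ p ∈ r.primeFactors, (1 - (p:ℝ)⁻¹) := by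
    have := Nat.totient_eq_mul_prod_factors r
    have h4 : ((Nat.totient r : ℚ) : ℝ) = (((r:ℚ) * ∏ p ∈ r.primeFactors, (1 - (p:ℚ)⁻¹) : ℚ) : ℝ) := by
      rw [this]
    push_cast at h4
    exact h4
  rw [h3, Finset.prod_inv_distrib, one_div, mul_inv, one_div]

/-- `n ↦ 1/n` as a homomorphism -/
noncomputable def invHom : ℕ →* ℝ where
  toFun n := 1 / (n:ℝ)
  map_one' := by simp
  map_mul' m n := by push_cast; rw [one_div_mul_one_div]

lemma smooth_sum_le (s : Finset ℕ) (hs : ∀ p ∈ s, p.Prime) (F : Finset ℕ)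
    (hF : ∀ m ∈ F, m ∈ Nat.factoredNumbers s) :
    ∑ m ∈ F, 1 / (m:ℝ) ≤ ∏ p ∈ s, (1 - (p:ℝ)⁻¹)⁻¹ := by
  have h0 : ∀ {p : ℕ}, Nat.Prime p → ‖invHom p‖ < 1 := by
    intro p hp
    show ‖1 / (p:ℝ)‖ < 1
    have h2p : (2:ℝ) ≤ p := by exact_mod_cast hp.two_le
    rw [Real.norm_of_nonneg (by positivity), div_lt_one (by linarith)]
    linarith
  obtain ⟨h1, h2⟩ := EulerProduct.summable_and_hasSum_factoredNumbers_prod_filter_prime_geometric
    h0 s
  have h3 : s.filter (fun p => Nat.Prime p) = s := Finset.filter_true_of_mem hs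
  rw [h3] at h2
  have h4 : ∏ p ∈ s, (1 - invHom p)⁻¹ = ∏ p ∈ s, (1 - (p:ℝ)⁻¹)⁻¹ := by
    refine Finset.prod_congr rfl fun p _ => ?_
    show (1 - 1 / (p:ℝ))⁻¹ = _
    rw [one_div]
  rw [← h4]
  have h5 : ∑ m ∈ F, 1 / (m:ℝ) =
      ∑ m ∈ F.attach.image (fun m => (⟨m.1, hF m.1 m.2⟩ : Nat.factoredNumbers s)),
        invHom (m : ℕ) := by
    rw [Finset.sum_image]
    · rw [← Finset.sum_attach]
      rfl
    · intro a _ b _ hab
      have := congrArg (fun x : Nat.factoredNumbers s => (x:ℕ)) hab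
      exact Subtype.ext this
  rw [h5]
  refine sum_le_hasSum _ ?_ h2
  intro m _
  show 0 ≤ 1 / ((m:ℕ):ℝ)
  positivity

end SelAAux

open SelAAux

/-- U1a -/
theorem SG_pos (w R : ℕ) (hR : 1 ≤ R) : 0 < SG w R := by
  unfold SG
  refine Finset.sum_pos ?_ ⟨1, one_mem_Dv w R hR⟩
  intro r hr
  have : 0 < Nat.totient r := Nat.totient_pos.2 (Dv_pos hr)
  positivity

theorem lamS_one (w R : ℕ) (hR : 1 ≤ R) : lamS w R 1 = 1 := by
  unfold lamS
  have h1 : (Dv w R).filter (fun r => 1 ∣ r) = Dv w R :=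
    Finset.filter_true_of_mem fun r _ => one_dvd r
  rw [h1]
  have h2 := SG_pos w R hR
  unfold SG at h2 ⊢
  simp only [ArithmeticFunction.moebius_apply_one, Int.cast_one, Nat.cast_one, one_mul]
  exact div_self h2.ne'

theorem abs_lamS_le (w R q : ℕ) (hR : 1 ≤ R) (hq : q ∈ Dv w R) : |lamS w R q| ≤ 1 := by
  have hG := SG_pos w R hR
  have hq0 := Dv_pos hq
  obtain ⟨hqs, hqR, hqW⟩ := mem_Dv.1 hq
  set S := ∑ r ∈ (Dv w R).filter (fun r => q ∣ r), 1 / (Nat.totient r : ℝ) with hS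
  have hS0 : 0 ≤ S := Finset.sum_nonneg fun r _ => by positivity
  have hmu : |((ArithmeticFunction.moebius q : ℤ) : ℝ)| = 1 := by
    rw [← Int.cast_abs, ArithmeticFunction.abs_moebius_eq_one_of_squarefree hqs]
    simp
  have h1 : |lamS w R q| = q * S / SG w R := by
    unfold lamS
    rw [← hS, abs_div, abs_mul, abs_mul, hmu, one_mul, abs_of_pos hG, abs_of_nonneg hS0,
      abs_of_nonneg (by positivity)]
  rw [h1, div_le_one hG]
  -- the set of cofactors
  set T := (Dv w (R / q)).filter (fun t => q.Coprime t) with hT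
  have h2 : S = 1 / (Nat.totient q : ℝ) * ∑ t ∈ T, 1 / (Nat.totient t : ℝ) := by
    rw [hS, Finset.mul_sum]
    symm
    refine Finset.sum_bij (fun t _ => q * t) ?_ ?_ ?_ ?_
    · intro t ht
      rw [hT, Finset.mem_filter, mem_Dv] at ht
      obtain ⟨⟨h3, h4, h5⟩, h6⟩ := ht
      rw [Finset.mem_filter, mem_Dv]
      refine ⟨⟨(Nat.squarefree_mul h6).2 ⟨hqs, h3⟩, ?_, Nat.Coprime.mul_right hqW h5⟩, dvd_mul_right _ _⟩
      rw [Nat.le_div_iff_mul_le hq0] at h4
      rw [mul_comm]; exact h4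
    · intro a _ b _ hab
      exact Nat.eq_of_mul_eq_mul_left hq0 hab
    · intro r hr
      rw [Finset.mem_filter, mem_Dv] at hr
      obtain ⟨⟨h3, h4, h5⟩, ⟨t, rfl⟩⟩ := hr
      have h6 : q.Coprime t := Nat.coprime_of_squarefree_mul h3
      refine ⟨t, ?_, rfl⟩
      rw [hT, Finset.mem_filter, mem_Dv]
      refine ⟨⟨((Nat.squarefree_mul h6).1 h3).2, ?_, ?_⟩, h6⟩
      · rw [Nat.le_div_iff_mul_le hq0, mul_comm]; exact h4
      · exact Nat.Coprime.coprime_mul_left_right h5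
    · intro t ht
      rw [hT, Finset.mem_filter] at ht
      rw [Nat.totient_mul ht.2]
      push_cast
      rw [one_div_mul_one_div]
  have h3 : (q:ℝ) * S = (∑ s ∈ q.divisors, 1 / (Nat.totient s : ℝ)) *
      ∑ t ∈ T, 1 / (Nat.totient t : ℝ) := by
    rw [h2, sum_inv_totient hqs]
    ring
  rw [h3, Finset.sum_mul_sum, ← Finset.sum_product']
  unfold SG
  have h4 : ∀ x ∈ q.divisors ×ˢ T, 1 / (Nat.totient x.1 : ℝ) * (1 / (Nat.totient x.2 : ℝ)) =
      1 / (Nat.totient (x.1 * x.2) : ℝ) := by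
    intro x hx
    rw [Finset.mem_product, Nat.mem_divisors, hT, Finset.mem_filter] at hx
    have h5 : x.1.Coprime x.2 := Nat.Coprime.coprime_dvd_left hx.1.1 hx.2.2
    rw [Nat.totient_mul h5]
    push_cast
    rw [one_div_mul_one_div]
  rw [Finset.sum_congr rfl h4]
  have hinj : Set.InjOn (fun x : ℕ × ℕ => x.1 * x.2) (q.divisors ×ˢ T : Finset (ℕ × ℕ)) := by
    intro x hx y hy hxy
    rw [Finset.mem_coe, Finset.mem_product, Nat.mem_divisors, hT, Finset.mem_filter, mem_Dv] at hx hy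
    have g1 : Nat.gcd (x.1 * x.2) q = x.1 := by
      rw [Nat.Coprime.gcd_mul_right_cancel x.1 hx.2.2.symm]
      exact Nat.gcd_eq_left hx.1.1
    have g2 : Nat.gcd (y.1 * y.2) q = y.1 := by
      rw [Nat.Coprime.gcd_mul_right_cancel y.1 hy.2.2.symm]
      exact Nat.gcd_eq_left hy.1.1
    have hxy' : x.1 * x.2 = y.1 * y.2 := hxy
    have g3 : x.1 = y.1 := by rw [← g1, ← g2, hxy']
    have g4 : 0 < x.1 := Nat.pos_of_dvd_of_pos hx.1.1 hq0
    rw [← g3] at hxy'
    exact Prod.ext g3 (Nat.eq_of_mul_eq_mul_left g4 hxy')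
  rw [← Finset.sum_image (f := fun r => 1 / (Nat.totient r : ℝ)) (g := fun x : ℕ × ℕ => x.1 * x.2) hinj]
  refine Finset.sum_le_sum_of_subset_of_nonneg ?_ fun r _ _ => by positivity
  intro r hr
  rw [Finset.mem_image] at hr
  obtain ⟨x, hx, rfl⟩ := hr
  rw [Finset.mem_product, Nat.mem_divisors, hT, Finset.mem_filter, mem_Dv] at hx
  obtain ⟨⟨h5, -⟩, ⟨h6, h7, h8⟩, h9⟩ := hx
  rw [mem_Dv]
  refine ⟨(Nat.squarefree_mul (Nat.Coprime.coprime_dvd_left h5 h9)).2
    ⟨hqs.squarefree_of_dvd h5, h6⟩, ?_, Nat.Coprime.mul_right (Nat.Coprime.coprime_dvd_right h5 hqW) h8⟩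
  rw [Nat.le_div_iff_mul_le hq0] at h7
  have h10 : x.1 ≤ q := Nat.le_of_dvd hq0 h5
  calc x.1 * x.2 ≤ q * x.2 := Nat.mul_le_mul_right _ h10
    _ = x.2 * q := mul_comm _ _
    _ ≤ R := h7

/-- the lower bound for Selberg's sum -/
theorem SG_ge (w R : ℕ) (hR : 1 ≤ R) :
    cW (Wp w) * Real.log R - KW (Wp w) ≤ SG w R := by
  refine (hw_lower (Wp_pos w) hR).trans ?_
  unfold hw SG
  have hmap : ∀ n ∈ (Finset.Icc 1 R).filter (fun s => (Wp w).Coprime s),
      (∏ p ∈ n.primeFactors, p) ∈ Dv w R := by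
    intro n hn
    rw [Finset.mem_filter, Finset.mem_Icc] at hn
    have h1 : (∏ p ∈ n.primeFactors, p) ∣ n := Nat.prod_primeFactors_dvd n
    rw [mem_Dv]
    exact ⟨sqf_prod fun p hp => Nat.prime_of_mem_primeFactors hp,
      (Nat.le_of_dvd (by omega) h1).trans hn.1.2, Nat.Coprime.coprime_dvd_right h1 hn.2⟩
  rw [← Finset.sum_fiberwise_of_maps_to hmap]
  refine Finset.sum_le_sum fun r hr => ?_
  have hr0 := Dv_pos hr
  obtain ⟨hrs, hrR, hrW⟩ := mem_Dv.1 hr
  rw [inv_totient_eq hrs]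
  have key : ∀ n ∈ (Finset.Icc 1 R).filter (fun s => (Wp w).Coprime s),
      (∏ p ∈ n.primeFactors, p) = r → n.primeFactors = r.primeFactors ∧ r ∣ n := by
    intro n hn hnr
    have h1 : (∏ p ∈ n.primeFactors, p) ∣ n := Nat.prod_primeFactors_dvd n
    rw [hnr] at h1
    refine ⟨?_, h1⟩
    rw [← hnr, Nat.primeFactors_prod fun p hp => Nat.prime_of_mem_primeFactors hp]
  have h1 : ∑ n ∈ ((Finset.Icc 1 R).filter (fun s => (Wp w).Coprime s)).filter
      (fun n => (∏ p ∈ n.primeFactors, p) = r), 1 / (n:ℝ) =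
      1 / (r:ℝ) * ∑ m ∈ (((Finset.Icc 1 R).filter (fun s => (Wp w).Coprime s)).filter
      (fun n => (∏ p ∈ n.primeFactors, p) = r)).image (fun n => n / r), 1 / (m:ℝ) := by
    rw [Finset.sum_image, Finset.mul_sum]
    · refine Finset.sum_congr rfl fun n hn => ?_
      rw [Finset.mem_filter] at hn
      obtain ⟨m, rfl⟩ := (key n hn.1 hn.2).2
      rw [Nat.mul_div_cancel_left m hr0]
      push_cast
      rw [one_div_mul_one_div]
    · intro a ha b hb hab
      rw [Finset.mem_coe, Finset.mem_filter] at ha hb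
      obtain ⟨m, hm⟩ := (key a ha.1 ha.2).2
      obtain ⟨m', hm'⟩ := (key b hb.1 hb.2).2
      simp only at hab
      rw [hm, hm', Nat.mul_div_cancel_left _ hr0, Nat.mul_div_cancel_left _ hr0] at hab
      rw [hm, hm', hab]
  rw [h1]
  refine mul_le_mul_of_nonneg_left ?_ (by positivity)
  refine smooth_sum_le _ (fun p hp => Nat.prime_of_mem_primeFactors hp) _ ?_
  intro m hm
  rw [Finset.mem_image] at hm
  obtain ⟨n, hn, rfl⟩ := hm
  rw [Finset.mem_filter] at hn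
  obtain ⟨h2, h3⟩ := key n hn.1 hn.2
  have hn0 : 0 < n := by
    have := hn.1
    rw [Finset.mem_filter, Finset.mem_Icc] at this
    omega
  rw [Nat.mem_factoredNumbers]
  obtain ⟨m, rfl⟩ := h3
  rw [Nat.mul_div_cancel_left m hr0]
  have hm0 : m ≠ 0 := by
    rintro rfl
    simp at hn0
  refine ⟨hm0, ?_⟩
  intro p hp
  rw [← h2]
  rw [Nat.mem_primeFactorsList hm0] at hp
  exact Nat.mem_primeFactors.2 ⟨hp.1, hp.2.trans (dvd_mul_left _ _), hn0.ne'⟩

namespace SelAAux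

lemma one_div_sub_one_div_eq_of_pos' {x : ℝ} (hx : 0 < x) :
    1 / ((x + 1) * x) = 1 / x - 1 / (x + 1) := by
  have h1 : x ≠ 0 := hx.ne'
  have h2 : x + 1 ≠ 0 := by positivity
  rw [div_sub_div _ _ h1 h2]
  congr 1
  · ring
  · ring

lemma tele (n : ℕ) : ∑ k ∈ Finset.Icc 2 n, 1 / ((k:ℝ) * ((k:ℝ) - 1)) ≤ 1 - (if n = 0 then 0 else 1 / (n:ℝ)) := by
  induction n with
  | zero => simp
  | succ n ih =>
    rcases Nat.eq_zero_or_pos n with h | h
    · subst h; simp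
    · rw [Finset.sum_Icc_succ_top (by omega)]
      rw [if_neg (by omega)] at ih
      rw [if_neg (by omega)]
      push_cast
      have h1 : (0:ℝ) < n := by exact_mod_cast h
      have h2 : 1 / (((n:ℝ) + 1) * ((n:ℝ) + 1 - 1)) = 1 / (n:ℝ) - 1 / ((n:ℝ) + 1) := by
        have h3 : (n:ℝ) + 1 - 1 = n := by ring
        rw [h3, one_div_sub_one_div_eq_of_pos' h1]
      rw [h2]
      linarith

lemma sum_g_le (w R : ℕ) : ∑ e ∈ Dv w R, 1 / ((e:ℝ) * (Nat.totient e : ℝ)) ≤ Real.exp 1 := by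
  have hs : ∀ p ∈ PwR w R, p.Prime := fun p hp => (mem_PwR.1 hp).1
  have h1 : ∑ e ∈ Dv w R, 1 / ((e:ℝ) * (Nat.totient e : ℝ)) ≤
      ∑ e ∈ (∏ p ∈ PwR w R, p).divisors, gφ e := by
    unfold Dv
    exact Finset.sum_le_sum_of_subset_of_nonneg (Finset.filter_subset _ _)
      fun e _ _ => by positivity
  refine h1.trans ?_
  rw [← gφ_mult.prodPrimeFactors_one_add_of_squarefree (sqf_prod hs), Nat.primeFactors_prod hs]
  have h2 : ∀ p ∈ PwR w R, 1 + gφ p ≤ Real.exp (1 / ((p:ℝ) * ((p:ℝ) - 1))) := by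
    intro p hp
    rw [gφ_apply, Nat.totient_prime (hs p hp), Nat.cast_sub (hs p hp).one_le, Nat.cast_one, add_comm]
    exact Real.add_one_le_exp _
  have h3 : ∏ p ∈ PwR w R, (1 + gφ p) ≤ ∏ p ∈ PwR w R, Real.exp (1 / ((p:ℝ) * ((p:ℝ) - 1))) := by
    refine Finset.prod_le_prod (fun p _ => ?_) h2
    rw [gφ_apply]; positivity
  refine h3.trans ?_
  rw [← Real.exp_sum]
  refine Real.exp_le_exp.2 ?_
  have h4 : PwR w R ⊆ Finset.Icc 2 R := by
    intro p hp
    have := mem_PwR.1 hp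
    rw [Finset.mem_Icc]
    exact ⟨this.1.two_le, this.2.2⟩
  refine (Finset.sum_le_sum_of_subset_of_nonneg h4 ?_).trans ((tele R).trans ?_)
  · intro k hk _
    rw [Finset.mem_Icc] at hk
    have : (2:ℝ) ≤ k := by exact_mod_cast hk.1
    have h5 : (0:ℝ) < (k:ℝ) - 1 := by linarith
    positivity
  · split_ifs
    · simp
    · have : (0:ℝ) ≤ 1 / (R:ℝ) := by positivity
      linarith

end SelAAux

/-- the short sum, from `Maynard.win_upper` -/
theorem short_sum : ∃ C : ℝ, 0 < C ∧ ∀ w R p : ℕ, 1 ≤ R → 1 ≤ p →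
    ∑ r ∈ (Dv w R).filter (fun r => R < p * r), 1 / (Nat.totient r : ℝ) ≤
      C * (cW (Wp w) * Real.log p + KV (Wp w)) := by
  refine ⟨Real.exp 1, Real.exp_pos 1, ?_⟩
  intro w R p hR hp
  set W := Wp w with hWd
  have hW : 0 < W := Wp_pos w
  set A := cW W * Real.log p + KV W with hA
  have hA0 : 0 ≤ A := by
    have h1 := cW_nonneg W
    have h2 := KV_pos hW
    have h3 : 0 ≤ Real.log p := Real.log_natCast_nonneg p
    positivity
  -- expand the reciprocal of the totient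
  have h1 : ∀ r ∈ (Dv w R).filter (fun r => R < p * r), 1 / (Nat.totient r : ℝ) =
      ∑ e ∈ Dv w R, if e ∣ r then 1 / (Nat.totient e : ℝ) * (1 / (r:ℝ)) else 0 := by
    intro r hr
    rw [Finset.mem_filter] at hr
    have hr0 := Dv_pos hr.1
    obtain ⟨hrs, hrR, hrW⟩ := mem_Dv.1 hr.1
    have h2 : ∑ e ∈ Dv w R, (if e ∣ r then 1 / (Nat.totient e : ℝ) * (1 / (r:ℝ)) else 0) =
        ∑ e ∈ r.divisors, 1 / (Nat.totient e : ℝ) * (1 / (r:ℝ)) := by
      rw [← Finset.sum_filter]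
      refine Finset.sum_congr ?_ fun _ _ => rfl
      ext e
      rw [Finset.mem_filter, Nat.mem_divisors, mem_Dv]
      constructor
      · rintro ⟨-, h⟩
        exact ⟨h, hr0.ne'⟩
      · rintro ⟨h, -⟩
        exact ⟨⟨hrs.squarefree_of_dvd h, (Nat.le_of_dvd hr0 h).trans hrR,
          Nat.Coprime.coprime_dvd_right h hrW⟩, h⟩
    rw [h2, ← Finset.sum_mul, sum_inv_totient hrs]
    have : (r:ℝ) ≠ 0 := by positivity
    field_simp
  rw [Finset.sum_congr rfl h1, Finset.sum_comm]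
  have h2 : ∀ e ∈ Dv w R, ∑ r ∈ (Dv w R).filter (fun r => R < p * r),
      (if e ∣ r then 1 / (Nat.totient e : ℝ) * (1 / (r:ℝ)) else 0) ≤
      1 / ((e:ℝ) * (Nat.totient e : ℝ)) * A := by
    intro e he
    have he0 := Dv_pos he
    have h3 : ∑ r ∈ (Dv w R).filter (fun r => R < p * r),
        (if e ∣ r then 1 / (Nat.totient e : ℝ) * (1 / (r:ℝ)) else 0) =
        1 / ((e:ℝ) * (Nat.totient e : ℝ)) *
          ∑ t ∈ (((Dv w R).filter (fun r => R < p * r)).filter (fun r => e ∣ r)).image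
            (fun r => r / e), 1 / (t:ℝ) := by
      rw [← Finset.sum_filter, Finset.sum_image, Finset.mul_sum]
      · refine Finset.sum_congr rfl fun r hr => ?_
        rw [Finset.mem_filter] at hr
        obtain ⟨t, rfl⟩ := hr.2
        rw [Nat.mul_div_cancel_left t he0]
        push_cast
        rw [one_div_mul_one_div, one_div_mul_one_div]
        congr 1
        ring
      · intro a ha b hb hab
        rw [Finset.mem_coe, Finset.mem_filter] at ha hb
        obtain ⟨m, hm⟩ := ha.2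
        obtain ⟨m', hm'⟩ := hb.2
        simp only at hab
        rw [hm, hm', Nat.mul_div_cancel_left _ he0, Nat.mul_div_cancel_left _ he0] at hab
        rw [hm, hm', hab]
    rw [h3]
    refine mul_le_mul_of_nonneg_left ?_ (by positivity)
    have hab : R / p + 1 ≤ R + 1 := by
      have := Nat.div_le_self R p
      omega
    have h4 := win_upper (W := W) (d := e) (a := R / p + 1) (b := R + 1) hW he0 (Nat.succ_pos _) hab
    have h5 : ∑ t ∈ (((Dv w R).filter (fun r => R < p * r)).filter (fun r => e ∣ r)).image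
            (fun r => r / e), 1 / (t:ℝ) ≤ win W e (R / p + 1) (R + 1) := by
      unfold win
      refine Finset.sum_le_sum_of_subset_of_nonneg ?_ fun t _ _ => by positivity
      intro t ht
      rw [Finset.mem_image] at ht
      obtain ⟨r, hr, rfl⟩ := ht
      rw [Finset.mem_filter, Finset.mem_filter, mem_Dv] at hr
      obtain ⟨⟨⟨h6, h7, h8⟩, h9⟩, ⟨t, rfl⟩⟩ := hr
      rw [Nat.mul_div_cancel_left t he0]
      rw [Finset.mem_filter, Finset.mem_range]
      have h10 : t ≤ e * t := Nat.le_mul_of_pos_left t he0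
      refine ⟨by omega, Nat.Coprime.coprime_mul_left_right h8, ?_, by omega⟩
      have h11 : R / p < e * t := by
        rw [Nat.div_lt_iff_lt_mul (by omega)]
        rw [mul_comm]; exact h9
      omega
    refine h5.trans (h4.trans ?_)
    have h6 : Real.log (((R + 1 : ℕ):ℝ) / ((R / p + 1 : ℕ):ℝ)) ≤ Real.log p := by
      have h7 : (0:ℝ) < ((R / p + 1 : ℕ):ℝ) := by positivity
      have h8 : (0:ℝ) < ((R + 1 : ℕ):ℝ) := by positivity
      refine Real.log_le_log (by positivity) ?_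
      rw [div_le_iff₀ h7]
      have h9 : R + 1 ≤ p * (R / p + 1) := by
        have := Nat.lt_mul_div_succ R (show 0 < p by omega)
        exact this
      exact_mod_cast h9
    have h7 := mul_le_mul_of_nonneg_left h6 (cW_nonneg W)
    rw [hA]
    linarith
  refine (Finset.sum_le_sum h2).trans ?_
  rw [← Finset.sum_mul]
  exact mul_le_mul_of_nonneg_right (sum_g_le w R) hA0

end Pool.Agent.HLT
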