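import Mathlib
import Pool.Agent.HLT.SelDefs
import Pool.Agent.HLT.SelA

set_option autoImplicit false

open Finset

namespace Pool.Agent.HLT

open Pool.Agent.HL26 Pool.Agent.Maynard

namespace SelDAux

lemma cnt_mod (N M c : ℕ) (hM : 0 < M) :
    |(((Ioc N (2 * N)).filter (fun n => n ≡ c [MOD M])).card : ℝ) - (N:ℝ) / M| ≤ 1 := by
  have h := Nat.Ioc_filter_modEq_card N (2 * N) hM c
  have hMq : (0:ℚ) < M := by exact_mod_cast hM
  set A : ℤ := ⌊((2 * N : ℕ) - c : ℚ) / (M : ℚ)⌋ with hA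
  set B : ℤ := ⌊((N:ℚ) - c) / (M : ℚ)⌋ with hB
  have hle : B ≤ A := by
    apply Int.floor_le_floor
    apply div_le_div_of_nonneg_right _ hMq.le
    push_cast
    have : (0:ℚ) ≤ N := by positivity
    linarith
  have h' : (((Ioc N (2 * N)).filter (fun n => n ≡ c [MOD M])).card : ℤ) = A - B := by
    rw [h, max_eq_left (by linarith)]
  have h1 : ((A:ℚ)) ≤ ((2 * N : ℕ) - c : ℚ) / (M : ℚ) := Int.floor_le _
  have h2 : ((2 * N : ℕ) - c : ℚ) / (M : ℚ) < A + 1 := Int.lt_floor_add_one _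
  have h3 : ((B:ℚ)) ≤ ((N:ℚ) - c) / (M : ℚ) := Int.floor_le _
  have h4 : ((N:ℚ) - c) / (M : ℚ) < B + 1 := Int.lt_floor_add_one _
  have h5 : ((2 * N : ℕ) - c : ℚ) / (M : ℚ) - ((N:ℚ) - c) / (M : ℚ) = (N:ℚ) / M := by
    push_cast
    ring
  have h6 : |(((Ioc N (2 * N)).filter (fun n => n ≡ c [MOD M])).card : ℚ) - (N:ℚ) / M| ≤ 1 := by
    have h7 : (((Ioc N (2 * N)).filter (fun n => n ≡ c [MOD M])).card : ℚ) = A - B := by
      exact_mod_cast h'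
    rw [h7, abs_le]
    constructor <;> linarith
  have h8 : ((|(((Ioc N (2 * N)).filter (fun n => n ≡ c [MOD M])).card : ℚ) - (N:ℚ) / M| : ℚ) : ℝ)
      ≤ ((1:ℚ):ℝ) := by exact_mod_cast h6
  push_cast at h8
  exact h8

lemma cnt_two (N W L a b : ℕ) (hW : 0 < W) (hL : 0 < L) (co : Nat.Coprime W L) :
    |(((Ioc N (2 * N)).filter (fun n => n ≡ a [MOD W] ∧ n ≡ b [MOD L])).card : ℝ) -
      (N:ℝ) / (W * L : ℕ)| ≤ 1 := by
  obtain ⟨c, hc1, hc2⟩ := Nat.chineseRemainder co a b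
  have h : (Ioc N (2 * N)).filter (fun n => n ≡ a [MOD W] ∧ n ≡ b [MOD L]) =
      (Ioc N (2 * N)).filter (fun n => n ≡ c [MOD W * L]) := by
    refine Finset.filter_congr fun n _ => ?_
    rw [← Nat.modEq_and_modEq_iff_modEq_mul co]
    constructor
    · rintro ⟨h1, h2⟩; exact ⟨h1.trans hc1.symm, h2.trans hc2.symm⟩
    · rintro ⟨h1, h2⟩; exact ⟨h1.trans hc1, h2.trans hc2⟩
  rw [h]
  exact cnt_mod N (W * L) c (Nat.mul_pos hW hL)

lemma dvd_iff_modEq (L d : ℕ) (hL : 0 < L) (n : ℕ) :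
    L ∣ n + d ↔ n ≡ (L - 1) * d [MOD L] := by
  have h0 : (L - 1) * d + d ≡ 0 [MOD L] := by
    have : (L - 1) * d + d = L * d := by
      obtain ⟨k, rfl⟩ : ∃ k, L = k + 1 := ⟨L - 1, by omega⟩
      simp; ring
    rw [this]
    exact (Nat.modEq_zero_iff_dvd).2 (dvd_mul_right _ _)
  rw [← Nat.modEq_zero_iff_dvd]
  constructor
  · intro h
    exact Nat.ModEq.add_right_cancel' d (h.trans h0.symm)
  · intro h
    exact (h.add_right d).trans h0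

lemma cnt_one (N W L a d : ℕ) (hW : 0 < W) (hL : 0 < L) (co : Nat.Coprime W L) :
    |(((Ioc N (2 * N)).filter (fun n => n ≡ a [MOD W] ∧ L ∣ n + d)).card : ℝ) -
      (N:ℝ) / (W * L : ℕ)| ≤ 1 := by
  have h := cnt_two N W L a ((L - 1) * d) hW hL co
  have h2 : (Ioc N (2 * N)).filter (fun n => n ≡ a [MOD W] ∧ L ∣ n + d) =
      (Ioc N (2 * N)).filter (fun n => n ≡ a [MOD W] ∧ n ≡ (L - 1) * d [MOD L]) := by
    refine Finset.filter_congr fun n _ => ?_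
    rw [dvd_iff_modEq L d hL n]
  rw [h2]
  exact h

lemma dvd_dist {g n d d' : ℕ} (h1 : g ∣ n + d) (h2 : g ∣ n + d') : g ∣ Nat.dist d d' := by
  rcases le_total d d' with h | h
  · rw [Nat.dist_eq_sub_of_le h]
    have := Nat.dvd_sub h2 h1
    rwa [show n + d' - (n + d) = d' - d by omega] at this
  · rw [Nat.dist_eq_sub_of_le_right h]
    have := Nat.dvd_sub h1 h2
    rwa [show n + d - (n + d') = d - d' by omega] at this

lemma modEq_of_dvd_dist {g d d' : ℕ} (h : g ∣ Nat.dist d d') : d ≡ d' [MOD g] := by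
  rcases le_total d d' with h1 | h1
  · rw [Nat.dist_eq_sub_of_le h1] at h
    exact (Nat.modEq_iff_dvd' h1).2 h
  · rw [Nat.dist_eq_sub_of_le_right h1] at h
    exact ((Nat.modEq_iff_dvd' h1).2 h).symm

lemma cnt_pair (N W L1 L2 a d d' : ℕ) (hW : 0 < W) (hL1 : 0 < L1) (hL2 : 0 < L2)
    (co1 : Nat.Coprime W L1) (co2 : Nat.Coprime W L2) :
    |(((Ioc N (2 * N)).filter (fun n => n ≡ a [MOD W] ∧ L1 ∣ n + d ∧ L2 ∣ n + d')).card : ℝ) -
      (if Nat.gcd L1 L2 ∣ Nat.dist d d' then (N:ℝ) / (W * Nat.lcm L1 L2 : ℕ) else 0)| ≤ 1 := by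
  split_ifs with hg
  · have hb : (L1 - 1) * d ≡ (L2 - 1) * d' [MOD Nat.gcd L1 L2] := by
      have h1 : (L1 - 1) * d + d ≡ 0 [MOD Nat.gcd L1 L2] := by
        have h := (dvd_iff_modEq L1 d hL1 ((L1 - 1) * d)).2 rfl
        exact Nat.modEq_zero_iff_dvd.2 ((Nat.gcd_dvd_left L1 L2).trans h)
      have h2 : (L2 - 1) * d' + d' ≡ 0 [MOD Nat.gcd L1 L2] := by
        have h := (dvd_iff_modEq L2 d' hL2 ((L2 - 1) * d')).2 rfl
        exact Nat.modEq_zero_iff_dvd.2 ((Nat.gcd_dvd_right L1 L2).trans h)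
      have h3 : d ≡ d' [MOD Nat.gcd L1 L2] := modEq_of_dvd_dist hg
      have h4 : (L1 - 1) * d + d ≡ (L2 - 1) * d' + d [MOD Nat.gcd L1 L2] :=
        (h1.trans h2.symm).trans (Nat.ModEq.add_left _ h3.symm)
      exact Nat.ModEq.add_right_cancel' d h4
    obtain ⟨c, hc1, hc2⟩ := Nat.chineseRemainder' hb
    have hl : 0 < Nat.lcm L1 L2 := Nat.lcm_pos hL1 hL2
    have hco : Nat.Coprime W (Nat.lcm L1 L2) :=
      Nat.Coprime.coprime_dvd_right (Nat.lcm_dvd_mul L1 L2) (Nat.Coprime.mul_right co1 co2)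
    have h := cnt_two N W (Nat.lcm L1 L2) a c hW hl hco
    have h2 : (Ioc N (2 * N)).filter (fun n => n ≡ a [MOD W] ∧ L1 ∣ n + d ∧ L2 ∣ n + d') =
        (Ioc N (2 * N)).filter (fun n => n ≡ a [MOD W] ∧ n ≡ c [MOD Nat.lcm L1 L2]) := by
      refine Finset.filter_congr fun n _ => ?_
      rw [dvd_iff_modEq L1 d hL1 n, dvd_iff_modEq L2 d' hL2 n]
      refine and_congr_right fun _ => ?_
      constructor
      · rintro ⟨h1, h2⟩
        have h3 : n ≡ c [MOD L1] := h1.trans hc1.symm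
        have h4 : n ≡ c [MOD L2] := h2.trans hc2.symm
        rw [Nat.modEq_iff_dvd] at h3 h4 ⊢
        have h5 : ((Nat.lcm L1 L2 : ℕ) : ℤ) = ((Int.lcm (L1:ℤ) (L2:ℤ) : ℕ) : ℤ) := by
          simp [Int.lcm]
        rw [h5]
        exact Int.coe_lcm_dvd h3 h4
      · intro h1
        exact ⟨(h1.of_dvd (Nat.dvd_lcm_left L1 L2)).trans hc1,
          (h1.of_dvd (Nat.dvd_lcm_right L1 L2)).trans hc2⟩
    rw [h2]
    exact h
  · have h2 : (Ioc N (2 * N)).filter (fun n => n ≡ a [MOD W] ∧ L1 ∣ n + d ∧ L2 ∣ n + d') = ∅ := by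
      refine Finset.filter_eq_empty_iff.2 fun n _ h => hg ?_
      exact dvd_dist ((Nat.gcd_dvd_left L1 L2).trans h.2.1) ((Nat.gcd_dvd_right L1 L2).trans h.2.2)
    rw [h2]
    simp

lemma Wp_pos (w : ℕ) : 0 < Wp w := Finset.prod_pos fun p hp => (PPy_prime w p hp).pos

lemma coprime_prod (w R : ℕ) : Nat.Coprime (Wp w) (∏ p ∈ PwR w R, p) := by
  unfold Wp
  refine Nat.Coprime.prod_left fun p hp => Nat.Coprime.prod_right fun q hq => ?_
  have h1 := PPy_prime w p hp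
  rw [PwR, Finset.mem_filter] at hq
  have h2 := PPy_prime R q hq.1
  refine (Nat.coprime_primes h1 h2).2 ?_
  have h3 : p ≤ w := by
    have := Finset.mem_filter.mp hp
    have := Finset.mem_range.mp this.1
    omega
  omega

lemma prodP_pos (w R : ℕ) : 0 < ∏ p ∈ PwR w R, p :=
  Finset.prod_pos fun p hp => (PPy_prime R p (Finset.mem_filter.mp hp).1).pos

lemma Dv_dvd {w R q : ℕ} (hq : q ∈ Dv w R) : q ∣ ∏ p ∈ PwR w R, p :=
  Nat.dvd_of_mem_divisors (Finset.mem_filter.mp hq).1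

lemma Dv_pos {w R q : ℕ} (hq : q ∈ Dv w R) : 0 < q :=
  Nat.pos_of_dvd_of_pos (Dv_dvd hq) (prodP_pos w R)

lemma card_Dv (w R : ℕ) : (Dv w R).card ≤ R := by
  have h : Dv w R ⊆ Finset.Icc 1 R := by
    intro q hq
    exact Finset.mem_Icc.2 ⟨Dv_pos hq, (Finset.mem_filter.mp hq).2⟩
  have := Finset.card_le_card h
  simpa using this

lemma LamS_sq (w R m : ℕ) : LamS w R m ^ 2 =
    ∑ q1 ∈ Dv w R, ∑ q2 ∈ Dv w R, lamS w R q1 * lamS w R q2 *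
      (if Nat.lcm q1 q2 ∣ m then 1 else 0) := by
  unfold LamS
  rw [pow_two, Finset.sum_mul_sum, Finset.sum_filter]
  refine Finset.sum_congr rfl fun q1 _ => ?_
  by_cases h1 : q1 ∣ m
  · rw [if_pos h1, Finset.sum_filter]
    refine Finset.sum_congr rfl fun q2 _ => ?_
    by_cases h2 : q2 ∣ m
    · rw [if_pos h2, if_pos (Nat.lcm_dvd h1 h2), mul_one]
    · rw [if_neg h2, if_neg (fun h => h2 ((Nat.dvd_lcm_right q1 q2).trans h)), mul_zero]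
  · rw [if_neg h1]
    symm
    refine Finset.sum_eq_zero fun q2 _ => ?_
    rw [if_neg (fun h => h1 ((Nat.dvd_lcm_left q1 q2).trans h)), mul_zero]

lemma abs_ll (w R : ℕ) (hR : 1 ≤ R) {q1 q2 : ℕ} (h1 : q1 ∈ Dv w R) (h2 : q2 ∈ Dv w R) :
    |lamS w R q1 * lamS w R q2| ≤ 1 := by
  rw [abs_mul]
  exact mul_le_one₀ (abs_lamS_le w R q1 hR h1) (abs_nonneg _) (abs_lamS_le w R q2 hR h2)

end SelDAux

open SelDAux

/-- U2: sums over a residue class -/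
theorem sel_single (w R N a d s : ℕ) (hR : 1 ≤ R) (hs : s ∣ ∏ p ∈ PwR w R, p) :
    |∑ n ∈ (XS N w a).filter (fun n => s ∣ n + d), LamS w R (n + d) ^ 2 -
      (N:ℝ) / (Wp w * s : ℕ) * VV w R s| ≤ (R:ℝ) ^ 2 := by
  have hs0 : 0 < s := Nat.pos_of_dvd_of_pos hs (prodP_pos w R)
  have hW := Wp_pos w
  -- left sum
  have h1 : ∑ n ∈ (XS N w a).filter (fun n => s ∣ n + d), LamS w R (n + d) ^ 2 =
      ∑ q1 ∈ Dv w R, ∑ q2 ∈ Dv w R, lamS w R q1 * lamS w R q2 *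
        (((Ioc N (2 * N)).filter (fun n => n ≡ a [MOD Wp w] ∧
          Nat.lcm (Nat.lcm q1 q2) s ∣ n + d)).card : ℝ) := by
    simp_rw [LamS_sq]
    rw [Finset.sum_comm]
    refine Finset.sum_congr rfl fun q1 _ => ?_
    rw [Finset.sum_comm]
    refine Finset.sum_congr rfl fun q2 _ => ?_
    rw [← Finset.mul_sum, Finset.sum_boole, XS, Finset.filter_filter, Finset.filter_filter]
    have e : (Ioc N (2 * N)).filter (fun n => n ≡ a [MOD Wp w] ∧ s ∣ n + d ∧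
        Nat.lcm q1 q2 ∣ n + d) = (Ioc N (2 * N)).filter (fun n => n ≡ a [MOD Wp w] ∧
          Nat.lcm (Nat.lcm q1 q2) s ∣ n + d) := by
      refine Finset.filter_congr fun n _ => ?_
      constructor
      · rintro ⟨h1, h2, h3⟩; exact ⟨h1, Nat.lcm_dvd h3 h2⟩
      · rintro ⟨h1, h2⟩
        exact ⟨h1, (Nat.dvd_lcm_right _ _).trans h2, (Nat.dvd_lcm_left _ _).trans h2⟩
    rw [← e]
  have h2 : (N:ℝ) / (Wp w * s : ℕ) * VV w R s =
      ∑ q1 ∈ Dv w R, ∑ q2 ∈ Dv w R, lamS w R q1 * lamS w R q2 *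
        ((N:ℝ) / (Wp w * Nat.lcm (Nat.lcm q1 q2) s : ℕ)) := by
    unfold VV
    rw [Finset.mul_sum]
    refine Finset.sum_congr rfl fun q1 hq1 => ?_
    rw [Finset.mul_sum]
    refine Finset.sum_congr rfl fun q2 hq2 => ?_
    have hQ : 0 < Nat.lcm q1 q2 := Nat.lcm_pos (Dv_pos hq1) (Dv_pos hq2)
    have hl : 0 < Nat.lcm (Nat.lcm q1 q2) s := Nat.lcm_pos hQ hs0
    have hgl : (Nat.gcd (Nat.lcm q1 q2) s : ℝ) * (Nat.lcm (Nat.lcm q1 q2) s : ℝ) =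
        (Nat.lcm q1 q2 : ℝ) * s := by exact_mod_cast Nat.gcd_mul_lcm (Nat.lcm q1 q2) s
    have hW' : ((Wp w : ℕ) : ℝ) ≠ 0 := by exact_mod_cast hW.ne'
    have hs' : ((s : ℕ) : ℝ) ≠ 0 := by exact_mod_cast hs0.ne'
    have hQ' : ((Nat.lcm q1 q2 : ℕ) : ℝ) ≠ 0 := by exact_mod_cast hQ.ne'
    have hl' : ((Nat.lcm (Nat.lcm q1 q2) s : ℕ) : ℝ) ≠ 0 := by exact_mod_cast hl.ne'
    push_cast
    have key : (N:ℝ) / (Wp w * s) * ((Nat.gcd (Nat.lcm q1 q2) s : ℝ) / (Nat.lcm q1 q2 : ℝ)) =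
        (N:ℝ) / (Wp w * (Nat.lcm (Nat.lcm q1 q2) s : ℝ)) := by
      rw [div_mul_div_comm, div_eq_div_iff (by positivity) (by positivity)]
      calc (N:ℝ) * (Nat.gcd (Nat.lcm q1 q2) s : ℝ) * (Wp w * (Nat.lcm (Nat.lcm q1 q2) s : ℝ))
          = N * Wp w * ((Nat.gcd (Nat.lcm q1 q2) s : ℝ) * (Nat.lcm (Nat.lcm q1 q2) s : ℝ)) := by ring
        _ = _ := by rw [hgl]; ring
    calc (N:ℝ) / (Wp w * s) * (lamS w R q1 * lamS w R q2 * (Nat.gcd (Nat.lcm q1 q2) s : ℝ) /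
          (Nat.lcm q1 q2 : ℝ)) = lamS w R q1 * lamS w R q2 * ((N:ℝ) / (Wp w * s) *
          ((Nat.gcd (Nat.lcm q1 q2) s : ℝ) / (Nat.lcm q1 q2 : ℝ))) := by ring
      _ = _ := by rw [key]
  rw [h1, h2, ← Finset.sum_sub_distrib]
  have h3 : ∀ q1 ∈ Dv w R, |∑ q2 ∈ Dv w R, lamS w R q1 * lamS w R q2 *
        (((Ioc N (2 * N)).filter (fun n => n ≡ a [MOD Wp w] ∧
          Nat.lcm (Nat.lcm q1 q2) s ∣ n + d)).card : ℝ) -
      ∑ q2 ∈ Dv w R, lamS w R q1 * lamS w R q2 *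
        ((N:ℝ) / (Wp w * Nat.lcm (Nat.lcm q1 q2) s : ℕ))| ≤ R := by
    intro q1 hq1
    rw [← Finset.sum_sub_distrib]
    refine (Finset.abs_sum_le_sum_abs _ _).trans ?_
    have h4 : ∀ q2 ∈ Dv w R, |lamS w R q1 * lamS w R q2 *
        (((Ioc N (2 * N)).filter (fun n => n ≡ a [MOD Wp w] ∧
          Nat.lcm (Nat.lcm q1 q2) s ∣ n + d)).card : ℝ) - lamS w R q1 * lamS w R q2 *
        ((N:ℝ) / (Wp w * Nat.lcm (Nat.lcm q1 q2) s : ℕ))| ≤ 1 := by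
      intro q2 hq2
      rw [← mul_sub, abs_mul]
      have hQ : 0 < Nat.lcm q1 q2 := Nat.lcm_pos (Dv_pos hq1) (Dv_pos hq2)
      have hl : 0 < Nat.lcm (Nat.lcm q1 q2) s := Nat.lcm_pos hQ hs0
      have hco : Nat.Coprime (Wp w) (Nat.lcm (Nat.lcm q1 q2) s) :=
        Nat.Coprime.coprime_dvd_right (Nat.lcm_dvd (Nat.lcm_dvd (Dv_dvd hq1) (Dv_dvd hq2)) hs)
          (coprime_prod w R)
      exact mul_le_one₀ (abs_ll w R hR hq1 hq2) (abs_nonneg _) (cnt_one N (Wp w) _ a d hW hl hco)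
    refine (Finset.sum_le_sum h4).trans ?_
    rw [Finset.sum_const, nsmul_eq_mul, mul_one]
    exact_mod_cast card_Dv w R
  refine (Finset.abs_sum_le_sum_abs _ _).trans ((Finset.sum_le_sum h3).trans ?_)
  rw [Finset.sum_const, nsmul_eq_mul, pow_two]
  exact mul_le_mul_of_nonneg_right (by exact_mod_cast card_Dv w R) (by positivity)

theorem sel_pair (w R N a d d' : ℕ) (hR : 1 ≤ R) (hd : d ≠ d') :
    |∑ n ∈ XS N w a, LamS w R (n + d) ^ 2 * LamS w R (n + d') ^ 2 -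
      (N:ℝ) / Wp w * PM w R (Nat.dist d d')| ≤ (R:ℝ) ^ 4 := by
  have hW := Wp_pos w
  have h1 : ∑ n ∈ XS N w a, LamS w R (n + d) ^ 2 * LamS w R (n + d') ^ 2 =
      ∑ q1 ∈ Dv w R, ∑ q2 ∈ Dv w R, ∑ r1 ∈ Dv w R, ∑ r2 ∈ Dv w R,
        lamS w R q1 * lamS w R q2 * (lamS w R r1 * lamS w R r2) *
        (((Ioc N (2 * N)).filter (fun n => n ≡ a [MOD Wp w] ∧
          Nat.lcm q1 q2 ∣ n + d ∧ Nat.lcm r1 r2 ∣ n + d')).card : ℝ) := by
    have e1 : ∀ n, LamS w R (n + d) ^ 2 * LamS w R (n + d') ^ 2 =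
        ∑ q1 ∈ Dv w R, ∑ q2 ∈ Dv w R, ∑ r1 ∈ Dv w R, ∑ r2 ∈ Dv w R,
          lamS w R q1 * lamS w R q2 * (lamS w R r1 * lamS w R r2) *
          (if Nat.lcm q1 q2 ∣ n + d ∧ Nat.lcm r1 r2 ∣ n + d' then 1 else 0) := by
      intro n
      rw [LamS_sq, LamS_sq, Finset.sum_mul]
      refine Finset.sum_congr rfl fun q1 _ => ?_
      rw [Finset.sum_mul]
      refine Finset.sum_congr rfl fun q2 _ => ?_
      rw [Finset.mul_sum]
      refine Finset.sum_congr rfl fun r1 _ => ?_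
      rw [Finset.mul_sum]
      refine Finset.sum_congr rfl fun r2 _ => ?_
      by_cases h1 : Nat.lcm q1 q2 ∣ n + d <;> by_cases h2 : Nat.lcm r1 r2 ∣ n + d' <;>
        simp [h1, h2]
    simp_rw [e1]
    rw [Finset.sum_comm]
    refine Finset.sum_congr rfl fun q1 _ => ?_
    rw [Finset.sum_comm]
    refine Finset.sum_congr rfl fun q2 _ => ?_
    rw [Finset.sum_comm]
    refine Finset.sum_congr rfl fun r1 _ => ?_
    rw [Finset.sum_comm]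
    refine Finset.sum_congr rfl fun r2 _ => ?_
    rw [← Finset.mul_sum, Finset.sum_boole, XS, Finset.filter_filter]
  have h2 : (N:ℝ) / Wp w * PM w R (Nat.dist d d') =
      ∑ q1 ∈ Dv w R, ∑ q2 ∈ Dv w R, ∑ r1 ∈ Dv w R, ∑ r2 ∈ Dv w R,
        lamS w R q1 * lamS w R q2 * (lamS w R r1 * lamS w R r2) *
        (if Nat.gcd (Nat.lcm q1 q2) (Nat.lcm r1 r2) ∣ Nat.dist d d' then
          (N:ℝ) / (Wp w * Nat.lcm (Nat.lcm q1 q2) (Nat.lcm r1 r2) : ℕ) else 0) := by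
    unfold PM
    rw [Finset.mul_sum]
    refine Finset.sum_congr rfl fun q1 hq1 => ?_
    rw [Finset.mul_sum]
    refine Finset.sum_congr rfl fun q2 hq2 => ?_
    rw [Finset.mul_sum]
    refine Finset.sum_congr rfl fun r1 hr1 => ?_
    rw [Finset.mul_sum]
    refine Finset.sum_congr rfl fun r2 hr2 => ?_
    have hQ : 0 < Nat.lcm q1 q2 := Nat.lcm_pos (Dv_pos hq1) (Dv_pos hq2)
    have hR' : 0 < Nat.lcm r1 r2 := Nat.lcm_pos (Dv_pos hr1) (Dv_pos hr2)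
    have hl : 0 < Nat.lcm (Nat.lcm q1 q2) (Nat.lcm r1 r2) := Nat.lcm_pos hQ hR'
    split_ifs with hg
    · have hgl : (Nat.gcd (Nat.lcm q1 q2) (Nat.lcm r1 r2) : ℝ) *
          (Nat.lcm (Nat.lcm q1 q2) (Nat.lcm r1 r2) : ℝ) =
          (Nat.lcm q1 q2 : ℝ) * (Nat.lcm r1 r2 : ℝ) := by
        exact_mod_cast Nat.gcd_mul_lcm (Nat.lcm q1 q2) (Nat.lcm r1 r2)
      have hW' : ((Wp w : ℕ) : ℝ) ≠ 0 := by exact_mod_cast hW.ne'
      have hQ' : ((Nat.lcm q1 q2 : ℕ) : ℝ) ≠ 0 := by exact_mod_cast hQ.ne'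
      have hR'' : ((Nat.lcm r1 r2 : ℕ) : ℝ) ≠ 0 := by exact_mod_cast hR'.ne'
      have hl' : ((Nat.lcm (Nat.lcm q1 q2) (Nat.lcm r1 r2) : ℕ) : ℝ) ≠ 0 := by exact_mod_cast hl.ne'
      push_cast
      have key : (N:ℝ) / (Wp w) * ((Nat.gcd (Nat.lcm q1 q2) (Nat.lcm r1 r2) : ℝ) /
          ((Nat.lcm q1 q2 : ℝ) * (Nat.lcm r1 r2 : ℝ))) =
          (N:ℝ) / (Wp w * (Nat.lcm (Nat.lcm q1 q2) (Nat.lcm r1 r2) : ℝ)) := by
        rw [div_mul_div_comm, div_eq_div_iff (by positivity) (by positivity)]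
        calc (N:ℝ) * (Nat.gcd (Nat.lcm q1 q2) (Nat.lcm r1 r2) : ℝ) *
              (Wp w * (Nat.lcm (Nat.lcm q1 q2) (Nat.lcm r1 r2) : ℝ))
            = N * Wp w * ((Nat.gcd (Nat.lcm q1 q2) (Nat.lcm r1 r2) : ℝ) *
              (Nat.lcm (Nat.lcm q1 q2) (Nat.lcm r1 r2) : ℝ)) := by ring
          _ = _ := by rw [hgl]; ring
      rw [← key]
      ring
    · simp
  rw [h1, h2, ← Finset.sum_sub_distrib]
  have hcard : ((Dv w R).card : ℝ) ≤ R := by exact_mod_cast card_Dv w R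
  have hR0 : (0:ℝ) ≤ R := by positivity
  have gen : ∀ (f : ℕ → ℝ) (C : ℝ), 0 ≤ C → (∀ q ∈ Dv w R, |f q| ≤ C) →
      |∑ q ∈ Dv w R, f q| ≤ R * C := by
    intro f C hC hf
    refine (Finset.abs_sum_le_sum_abs _ _).trans ((Finset.sum_le_sum hf).trans ?_)
    rw [Finset.sum_const, nsmul_eq_mul]
    exact mul_le_mul_of_nonneg_right hcard hC
  have e4 : (R:ℝ) ^ 4 = R * (R * (R * (R * 1))) := by ring
  rw [e4]
  refine gen _ _ (by positivity) fun q1 hq1 => ?_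
  rw [← Finset.sum_sub_distrib]
  refine gen _ _ (by positivity) fun q2 hq2 => ?_
  rw [← Finset.sum_sub_distrib]
  refine gen _ _ (by positivity) fun r1 hr1 => ?_
  rw [← Finset.sum_sub_distrib]
  refine gen _ _ (by positivity) fun r2 hr2 => ?_
  rw [← mul_sub, abs_mul]
  have hQ : 0 < Nat.lcm q1 q2 := Nat.lcm_pos (Dv_pos hq1) (Dv_pos hq2)
  have hR' : 0 < Nat.lcm r1 r2 := Nat.lcm_pos (Dv_pos hr1) (Dv_pos hr2)
  have hco1 : Nat.Coprime (Wp w) (Nat.lcm q1 q2) :=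
    Nat.Coprime.coprime_dvd_right (Nat.lcm_dvd (Dv_dvd hq1) (Dv_dvd hq2)) (coprime_prod w R)
  have hco2 : Nat.Coprime (Wp w) (Nat.lcm r1 r2) :=
    Nat.Coprime.coprime_dvd_right (Nat.lcm_dvd (Dv_dvd hr1) (Dv_dvd hr2)) (coprime_prod w R)
  refine mul_le_one₀ ?_ (abs_nonneg _) (cnt_pair N (Wp w) _ _ a d d' hW hQ hR' hco1 hco2)
  rw [abs_mul]
  exact mul_le_one₀ (abs_ll w R hR hq1 hq2) (abs_nonneg _) (abs_ll w R hR hr1 hr2)

end Pool.Agent.HLT
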