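import Mathlib
import Pool.Agent.HLT.SelDefs
import Pool.Agent.HLT.SelA

set_option autoImplicit false

open Finset

namespace Pool.Agent.HLT

open Pool.Agent.HL26 Pool.Agent.Maynard

namespace SelBAux

lemma PwR_prime {w R p : ℕ} (hp : p ∈ PwR w R) : p.Prime := by
  unfold PwR at hp
  exact PPy_prime R p (mem_of_mem_filter p hp)

lemma P_sqf (w R : ℕ) : Squarefree (∏ p ∈ PwR w R, p) :=
  Finset.squarefree_prod_of_pairwise_isCoprime (fun p hp q hq hpq => by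
      have := (Nat.coprime_primes (PwR_prime hp) (PwR_prime hq)).mpr hpq
      simpa [Nat.isCoprime_iff_coprime, Nat.coprime_iff_isRelPrime] using this)
    (fun p hp => (PwR_prime hp).squarefree)

lemma mem_Dv {w R q : ℕ} : q ∈ Dv w R ↔ q ∣ (∏ p ∈ PwR w R, p) ∧ q ≤ R := by
  unfold Dv
  rw [mem_filter, Nat.mem_divisors]
  exact ⟨fun h => ⟨h.1.1, h.2⟩, fun h => ⟨⟨h.1, (P_sqf w R).ne_zero⟩, h.2⟩⟩

lemma Dv_sqf {w R q : ℕ} (hq : q ∈ Dv w R) : Squarefree q :=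
  (P_sqf w R).squarefree_of_dvd (mem_Dv.mp hq).1

lemma Dv_of_dvd {w R q v : ℕ} (hv : v ∈ Dv w R) (h : q ∣ v) : q ∈ Dv w R := by
  rw [mem_Dv] at hv ⊢
  have hv0 : 0 < v := Nat.pos_of_ne_zero ((P_sqf w R).squarefree_of_dvd hv.1).ne_zero
  exact ⟨h.trans hv.1, (Nat.le_of_dvd hv0 h).trans hv.2⟩

/-- `∑_{d|n} μ(d) gcd(d,s)` -/
lemma sum_mu_gcd (n s : ℕ) (hn : Squarefree n) :
    ∑ d ∈ n.divisors, ((ArithmeticFunction.moebius d : ℤ) : ℝ) * ((Nat.gcd d s : ℕ) : ℝ) =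
      if n ∣ s then ((ArithmeticFunction.moebius n : ℤ) : ℝ) * (Nat.totient n : ℝ) else 0 := by
  let f : ArithmeticFunction ℝ := ⟨fun d => if d = 0 then 0 else ((Nat.gcd d s : ℕ) : ℝ), by simp⟩
  have hf : ∀ d : ℕ, d ≠ 0 → f d = ((Nat.gcd d s : ℕ) : ℝ) := by
    intro d hd
    show (if d = 0 then 0 else ((Nat.gcd d s : ℕ) : ℝ)) = _
    rw [if_neg hd]
  have hmult : f.IsMultiplicative := by
    rw [ArithmeticFunction.IsMultiplicative.iff_ne_zero]
    refine ⟨by rw [hf 1 one_ne_zero]; simp, fun {a b} ha hb hab => ?_⟩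
    rw [hf _ (mul_ne_zero ha hb), hf a ha, hf b hb, ← Nat.cast_mul]
    congr 1
    rw [Nat.gcd_comm (a * b) s, Nat.gcd_comm a s, Nat.gcd_comm b s]
    exact Nat.Coprime.gcd_mul s hab
  have h1 := ArithmeticFunction.IsMultiplicative.prodPrimeFactors_one_sub_of_squarefree f hmult hn
  have h2 : ∑ d ∈ n.divisors, ((ArithmeticFunction.moebius d : ℤ) : ℝ) * ((Nat.gcd d s : ℕ) : ℝ) =
      ∏ p ∈ n.primeFactors, (1 - f p) := by
    rw [h1]
    refine Finset.sum_congr rfl fun d hd => ?_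
    rw [hf d (Nat.pos_of_mem_divisors hd).ne']
  rw [h2]
  have hn0 : n ≠ 0 := hn.ne_zero
  split_ifs with hns
  · have h3 : ∀ p ∈ n.primeFactors, (1 - f p) = (-1) * (((p - 1 : ℕ) : ℕ) : ℝ) := by
      intro p hp
      have hpp := Nat.prime_of_mem_primeFactors hp
      rw [hf p hpp.ne_zero, Nat.gcd_eq_left ((Nat.dvd_of_mem_primeFactors hp).trans hns),
        Nat.cast_sub hpp.one_le]
      push_cast
      ring
    rw [Finset.prod_congr rfl h3, Finset.prod_mul_distrib, Finset.prod_const,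
      ArithmeticFunction.moebius_apply_of_squarefree hn]
    have h4 : n.primeFactors.card = ArithmeticFunction.cardFactors n := by
      rw [← ArithmeticFunction.cardDistinctFactors_eq_cardFactors_iff_squarefree hn0 |>.mpr hn]
      rfl
    have h5 : ∏ p ∈ n.primeFactors, (p - 1) = Nat.totient n := by
      have h6 := Nat.totient_mul_prod_primeFactors n
      rw [Nat.prod_primeFactors_of_squarefree hn, mul_comm] at h6
      exact (Nat.eq_of_mul_eq_mul_left (Nat.pos_of_ne_zero hn0) h6).symm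
    rw [h4, ← Nat.cast_prod, h5]
    push_cast
    ring
  · obtain ⟨p, hp, hps⟩ : ∃ p ∈ n.primeFactors, ¬ p ∣ s := by
      by_contra hcon
      push Not at hcon
      apply hns
      rw [← Nat.prod_primeFactors_of_squarefree hn]
      exact Finset.prod_primes_dvd s (fun p hp => (Nat.prime_of_mem_primeFactors hp).prime) hcon
    refine Finset.prod_eq_zero hp ?_
    have hpp := Nat.prime_of_mem_primeFactors hp
    rw [hf p hpp.ne_zero, (Nat.Prime.coprime_iff_not_dvd hpp).mpr hps]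
    simp

lemma sum_mu_gcd_filter (r n s : ℕ) (hrn : Squarefree (r * n)) (hrs : Nat.Coprime r s) :
    ∑ d ∈ (r * n).divisors.filter (fun q => r ∣ q),
      ((ArithmeticFunction.moebius d : ℤ) : ℝ) * ((Nat.gcd d s : ℕ) : ℝ) =
      ((ArithmeticFunction.moebius r : ℤ) : ℝ) *
        (if n ∣ s then ((ArithmeticFunction.moebius n : ℤ) : ℝ) * (Nat.totient n : ℝ) else 0) := by
  have hcop : Nat.Coprime r n := (Nat.squarefree_mul_iff.mp hrn).1
  have hr0 : r ≠ 0 := fun h => hrn.ne_zero (by rw [h, zero_mul])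
  have hn0 : n ≠ 0 := fun h => hrn.ne_zero (by rw [h, mul_zero])
  rw [← sum_mu_gcd n s (Nat.squarefree_mul_iff.mp hrn).2.2, Finset.mul_sum]
  symm
  refine Finset.sum_bij (fun d _ => r * d) ?_ ?_ ?_ ?_
  · intro d hd
    rw [mem_filter, Nat.mem_divisors]
    exact ⟨⟨Nat.mul_dvd_mul_left r (Nat.dvd_of_mem_divisors hd), hrn.ne_zero⟩, dvd_mul_right r d⟩
  · intro d _ d' _ h
    exact Nat.eq_of_mul_eq_mul_left (Nat.pos_of_ne_zero hr0) h
  · intro q hq
    rw [mem_filter, Nat.mem_divisors] at hq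
    obtain ⟨⟨h1, _⟩, d, rfl⟩ := hq
    exact ⟨d, Nat.mem_divisors.mpr ⟨Nat.dvd_of_mul_dvd_mul_left (Nat.pos_of_ne_zero hr0) h1, hn0⟩,
      rfl⟩
  · intro d hd
    have hrd : Nat.Coprime r d := Nat.Coprime.coprime_dvd_right (Nat.dvd_of_mem_divisors hd) hcop
    rw [ArithmeticFunction.isMultiplicative_moebius.map_mul_of_coprime hrd,
      Nat.Coprime.gcd_mul_left_cancel d hrs]
    push_cast
    ring

/-- the diagonal variables -/
lemma yr_eq (w R s r : ℕ) (hs : s ∣ ∏ p ∈ PwR w R, p) (hr : r ∈ Dv w R)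
    (hrs : Nat.Coprime r s) :
    ∑ q ∈ (Dv w R).filter (fun q => r ∣ q), lamS w R q * ((Nat.gcd q s : ℕ) : ℝ) / (q : ℝ) =
      ((ArithmeticFunction.moebius r : ℤ) : ℝ) / (SG w R * (Nat.totient r : ℝ)) *
        ∑ u ∈ s.divisors.filter (fun u => u * r ≤ R),
          ((ArithmeticFunction.moebius u : ℤ) : ℝ) := by
  have hr0 : r ≠ 0 := (Dv_sqf hr).ne_zero
  have hs0 : s ≠ 0 := ((P_sqf w R).squarefree_of_dvd hs).ne_zero
  have hφr : (Nat.totient r : ℝ) ≠ 0 := by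
    have := Nat.totient_pos.mpr (Nat.pos_of_ne_zero hr0)
    exact_mod_cast this.ne'
  -- step 1
  have h1 : ∑ q ∈ (Dv w R).filter (fun q => r ∣ q),
      lamS w R q * ((Nat.gcd q s : ℕ) : ℝ) / (q : ℝ) =
      (∑ q ∈ (Dv w R).filter (fun q => r ∣ q), ∑ v ∈ (Dv w R).filter (fun v => q ∣ v),
        (1 / (Nat.totient v : ℝ)) *
        (((ArithmeticFunction.moebius q : ℤ) : ℝ) * ((Nat.gcd q s : ℕ) : ℝ))) / SG w R := by
    rw [Finset.sum_div]
    refine Finset.sum_congr rfl fun q hq => ?_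
    have hq0 : (q:ℝ) ≠ 0 := by
      have := (Dv_sqf (mem_of_mem_filter q hq)).ne_zero
      exact_mod_cast this
    rw [← Finset.sum_mul, lamS]
    field_simp
  have h2 : ∑ q ∈ (Dv w R).filter (fun q => r ∣ q), ∑ v ∈ (Dv w R).filter (fun v => q ∣ v),
        (1 / (Nat.totient v : ℝ)) *
        (((ArithmeticFunction.moebius q : ℤ) : ℝ) * ((Nat.gcd q s : ℕ) : ℝ)) =
      ∑ v ∈ (Dv w R).filter (fun v => r ∣ v), ∑ q ∈ v.divisors.filter (fun q => r ∣ q),
        (1 / (Nat.totient v : ℝ)) *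
        (((ArithmeticFunction.moebius q : ℤ) : ℝ) * ((Nat.gcd q s : ℕ) : ℝ)) := by
    refine Finset.sum_comm' ?_
    intro q v
    rw [mem_filter, mem_filter, mem_filter, mem_filter, Nat.mem_divisors]
    constructor
    · rintro ⟨⟨h3, h4⟩, h5, h6⟩
      exact ⟨⟨⟨h6, (Dv_sqf h5).ne_zero⟩, h4⟩, h5, h4.trans h6⟩
    · rintro ⟨⟨⟨h3, h4⟩, h5⟩, h6, h7⟩
      exact ⟨⟨Dv_of_dvd h6 h3, h5⟩, h6, h3⟩
  have h3 : ∑ v ∈ (Dv w R).filter (fun v => r ∣ v), ∑ q ∈ v.divisors.filter (fun q => r ∣ q),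
        (1 / (Nat.totient v : ℝ)) *
        (((ArithmeticFunction.moebius q : ℤ) : ℝ) * ((Nat.gcd q s : ℕ) : ℝ)) =
      ∑ v ∈ ((Dv w R).filter (fun v => r ∣ v)).filter (fun v => v / r ∣ s),
        ((ArithmeticFunction.moebius r : ℤ) : ℝ) / (Nat.totient r : ℝ) *
          ((ArithmeticFunction.moebius (v / r) : ℤ) : ℝ) := by
    rw [Finset.sum_filter (fun v => v / r ∣ s)]
    refine Finset.sum_congr rfl fun v hv => ?_
    rw [mem_filter] at hv
    obtain ⟨hv1, n, rfl⟩ := hv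
    have hsq := Dv_sqf hv1
    have hcop : Nat.Coprime r n := (Nat.squarefree_mul_iff.mp hsq).1
    have hn0 : n ≠ 0 := fun h => hsq.ne_zero (by rw [h, mul_zero])
    have hφn : (Nat.totient n : ℝ) ≠ 0 := by
      have := Nat.totient_pos.mpr (Nat.pos_of_ne_zero hn0)
      exact_mod_cast this.ne'
    rw [← Finset.mul_sum, sum_mu_gcd_filter r n s hsq hrs,
      Nat.mul_div_cancel_left n (Nat.pos_of_ne_zero hr0), Nat.totient_mul hcop]
    split_ifs with h4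
    · push_cast
      field_simp
    · ring
  have h4 : ∑ v ∈ ((Dv w R).filter (fun v => r ∣ v)).filter (fun v => v / r ∣ s),
        ((ArithmeticFunction.moebius r : ℤ) : ℝ) / (Nat.totient r : ℝ) *
          ((ArithmeticFunction.moebius (v / r) : ℤ) : ℝ) =
      ∑ u ∈ s.divisors.filter (fun u => u * r ≤ R),
        ((ArithmeticFunction.moebius r : ℤ) : ℝ) / (Nat.totient r : ℝ) *
          ((ArithmeticFunction.moebius u : ℤ) : ℝ) := by
    symm
    refine Finset.sum_bij (fun u _ => r * u) ?_ ?_ ?_ ?_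
    · intro u hu
      rw [mem_filter, Nat.mem_divisors] at hu
      obtain ⟨⟨h5, _⟩, h6⟩ := hu
      rw [mem_filter, mem_filter, Nat.mul_div_cancel_left u (Nat.pos_of_ne_zero hr0), mem_Dv]
      refine ⟨⟨⟨?_, by rw [mul_comm]; exact h6⟩, dvd_mul_right r u⟩, h5⟩
      exact (Nat.Coprime.coprime_dvd_right h5 hrs).mul_dvd_of_dvd_of_dvd (mem_Dv.mp hr).1
        (h5.trans hs)
    · intro u _ u' _ h
      exact Nat.eq_of_mul_eq_mul_left (Nat.pos_of_ne_zero hr0) h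
    · intro v hv
      rw [mem_filter, mem_filter] at hv
      obtain ⟨⟨h5, n, rfl⟩, h6⟩ := hv
      rw [Nat.mul_div_cancel_left n (Nat.pos_of_ne_zero hr0)] at h6
      refine ⟨n, ?_, rfl⟩
      rw [mem_filter, Nat.mem_divisors]
      exact ⟨⟨h6, hs0⟩, by rw [mul_comm]; exact (mem_Dv.mp h5).2⟩
    · intro u _
      rw [Nat.mul_div_cancel_left u (Nat.pos_of_ne_zero hr0)]
  rw [h1, h2, h3, h4, ← Finset.mul_sum]
  field_simp

lemma coprime_div_gcd {q s : ℕ} (hq : Squarefree q) : Nat.Coprime (q / Nat.gcd q s) s := by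
  have hg : Nat.gcd q s ∣ q := Nat.gcd_dvd_left q s
  obtain ⟨a, ha⟩ := hg
  have hg0 : 0 < Nat.gcd q s := Nat.gcd_pos_of_pos_left s (Nat.pos_of_ne_zero hq.ne_zero)
  have h1 : q / Nat.gcd q s = a := Nat.div_eq_of_eq_mul_right hg0 ha
  rw [h1]
  have h2 : Nat.Coprime (Nat.gcd q s) a := by
    rw [ha] at hq
    exact (Nat.squarefree_mul_iff.mp hq).1
  have h3 : Nat.gcd a s ∣ Nat.gcd q s :=
    Nat.dvd_gcd ((Nat.gcd_dvd_left a s).trans ⟨Nat.gcd q s, by rw [mul_comm]; exact ha⟩)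
      (Nat.gcd_dvd_right a s)
  exact Nat.eq_one_of_dvd_coprimes h2 h3 (Nat.gcd_dvd_left a s)

/-- the kernel identity -/
lemma kernel_nat (q1 q2 s : ℕ) (h1 : Squarefree q1) (h2 : Squarefree q2)
    (hQ : Squarefree (Nat.lcm q1 q2)) :
    Nat.lcm q1 q2 / Nat.gcd (Nat.lcm q1 q2) s = Nat.lcm (q1 / Nat.gcd q1 s) (q2 / Nat.gcd q2 s) := by
  set Q := Nat.lcm q1 q2 with hQdef
  set A := Q / Nat.gcd Q s with hA
  set a1 := q1 / Nat.gcd q1 s with ha1
  set a2 := q2 / Nat.gcd q2 s with ha2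
  have hAs : Nat.Coprime A s := coprime_div_gcd hQ
  have ha1s : Nat.Coprime a1 s := coprime_div_gcd h1
  have ha2s : Nat.Coprime a2 s := coprime_div_gcd h2
  have hQe : A * Nat.gcd Q s = Q := Nat.div_mul_cancel (Nat.gcd_dvd_left Q s)
  have hq1e : a1 * Nat.gcd q1 s = q1 := Nat.div_mul_cancel (Nat.gcd_dvd_left q1 s)
  have hq2e : a2 * Nat.gcd q2 s = q2 := Nat.div_mul_cancel (Nat.gcd_dvd_left q2 s)
  apply Nat.dvd_antisymm
  · -- A ∣ lcm a1 a2
    have h3 : Q ∣ Nat.lcm a1 a2 * s := by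
      rw [hQdef]
      refine Nat.lcm_dvd ?_ ?_
      · conv_lhs => rw [← hq1e]
        exact mul_dvd_mul (Nat.dvd_lcm_left a1 a2) (Nat.gcd_dvd_right q1 s)
      · conv_lhs => rw [← hq2e]
        exact mul_dvd_mul (Nat.dvd_lcm_right a1 a2) (Nat.gcd_dvd_right q2 s)
    have h4 : A ∣ Nat.lcm a1 a2 * s := (Dvd.intro _ hQe).trans h3
    exact hAs.dvd_of_dvd_mul_right h4
  · refine Nat.lcm_dvd ?_ ?_
    · have h3 : a1 ∣ A * Nat.gcd Q s := by
        rw [hQe]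
        exact (Dvd.intro _ hq1e).trans (Nat.dvd_lcm_left q1 q2)
      exact (Nat.Coprime.coprime_dvd_right (Nat.gcd_dvd_right Q s) ha1s).dvd_of_dvd_mul_right h3
    · have h3 : a2 ∣ A * Nat.gcd Q s := by
        rw [hQe]
        exact (Dvd.intro _ hq2e).trans (Nat.dvd_lcm_right q1 q2)
      exact (Nat.Coprime.coprime_dvd_right (Nat.gcd_dvd_right Q s) ha2s).dvd_of_dvd_mul_right h3

lemma divisors_gcd_eq (w R s q1 q2 : ℕ) (h1 : q1 ∈ Dv w R) (h2 : q2 ∈ Dv w R) :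
    (Dv w R).filter (fun r => Nat.Coprime r s ∧ r ∣ q1 ∧ r ∣ q2) =
      (Nat.gcd (q1 / Nat.gcd q1 s) (q2 / Nat.gcd q2 s)).divisors := by
  have hsq1 := Dv_sqf h1
  have hsq2 := Dv_sqf h2
  have hq1e : q1 / Nat.gcd q1 s * Nat.gcd q1 s = q1 := Nat.div_mul_cancel (Nat.gcd_dvd_left q1 s)
  have hq2e : q2 / Nat.gcd q2 s * Nat.gcd q2 s = q2 := Nat.div_mul_cancel (Nat.gcd_dvd_left q2 s)
  have ha1 : q1 / Nat.gcd q1 s ∣ q1 := Dvd.intro _ hq1e
  have ha2 : q2 / Nat.gcd q2 s ∣ q2 := Dvd.intro _ hq2e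
  have hpos1 : q1 / Nat.gcd q1 s ≠ 0 := fun h => hsq1.ne_zero (by rw [← hq1e, h, zero_mul])
  ext r
  rw [mem_filter, Nat.mem_divisors]
  constructor
  · rintro ⟨_, hrs, hr1, hr2⟩
    refine ⟨Nat.dvd_gcd ?_ ?_, ?_⟩
    · rw [← hq1e] at hr1
      exact (Nat.Coprime.coprime_dvd_right (Nat.gcd_dvd_right q1 s) hrs).dvd_of_dvd_mul_right hr1
    · rw [← hq2e] at hr2
      exact (Nat.Coprime.coprime_dvd_right (Nat.gcd_dvd_right q2 s) hrs).dvd_of_dvd_mul_right hr2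
    · exact (Nat.gcd_pos_of_pos_left _ (Nat.pos_of_ne_zero hpos1)).ne'
  · rintro ⟨hr, _⟩
    have hr1 := hr.trans (Nat.gcd_dvd_left _ _)
    have hr2 := hr.trans (Nat.gcd_dvd_right _ _)
    refine ⟨Dv_of_dvd h1 (hr1.trans ha1), ?_, hr1.trans ha1, hr2.trans ha2⟩
    exact Nat.Coprime.coprime_dvd_left hr1 (coprime_div_gcd hsq1)

lemma kernel_eq (w R s q1 q2 : ℕ) (h1 : q1 ∈ Dv w R) (h2 : q2 ∈ Dv w R) :
    ((Nat.gcd (Nat.lcm q1 q2) s : ℕ) : ℝ) / (Nat.lcm q1 q2 : ℝ) =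
      ((Nat.gcd q1 s : ℕ) : ℝ) / (q1 : ℝ) * (((Nat.gcd q2 s : ℕ) : ℝ) / (q2 : ℝ)) *
      ∑ r ∈ (Dv w R).filter (fun r => Nat.Coprime r s ∧ r ∣ q1 ∧ r ∣ q2),
        (Nat.totient r : ℝ) := by
  have hsq1 := Dv_sqf h1
  have hsq2 := Dv_sqf h2
  have hQsq : Squarefree (Nat.lcm q1 q2) :=
    (P_sqf w R).squarefree_of_dvd (Nat.lcm_dvd (mem_Dv.mp h1).1 (mem_Dv.mp h2).1)
  rw [divisors_gcd_eq w R s q1 q2 h1 h2, ← Nat.cast_sum, Nat.sum_totient]
  set a1 := q1 / Nat.gcd q1 s with ha1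
  set a2 := q2 / Nat.gcd q2 s with ha2
  set Q := Nat.lcm q1 q2 with hQ
  have hker : Q / Nat.gcd Q s = Nat.lcm a1 a2 := kernel_nat q1 q2 s hsq1 hsq2 hQsq
  have hq1e : a1 * Nat.gcd q1 s = q1 := Nat.div_mul_cancel (Nat.gcd_dvd_left q1 s)
  have hq2e : a2 * Nat.gcd q2 s = q2 := Nat.div_mul_cancel (Nat.gcd_dvd_left q2 s)
  have hQe : Q / Nat.gcd Q s * Nat.gcd Q s = Q := Nat.div_mul_cancel (Nat.gcd_dvd_left Q s)
  rw [hker] at hQe
  have hlcm : Nat.gcd a1 a2 * Nat.lcm a1 a2 = a1 * a2 := Nat.gcd_mul_lcm a1 a2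
  have hq10 : (q1:ℝ) ≠ 0 := by exact_mod_cast hsq1.ne_zero
  have hq20 : (q2:ℝ) ≠ 0 := by exact_mod_cast hsq2.ne_zero
  have hQ0 : (Q:ℝ) ≠ 0 := by exact_mod_cast hQsq.ne_zero
  have e1 : (a1:ℝ) * (Nat.gcd q1 s : ℝ) = q1 := by exact_mod_cast hq1e
  have e2 : (a2:ℝ) * (Nat.gcd q2 s : ℝ) = q2 := by exact_mod_cast hq2e
  have e3 : ((Nat.lcm a1 a2 : ℕ) : ℝ) * (Nat.gcd Q s : ℝ) = Q := by exact_mod_cast hQe
  have e4 : ((Nat.gcd a1 a2 : ℕ) : ℝ) * ((Nat.lcm a1 a2 : ℕ) : ℝ) = a1 * a2 := by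
    exact_mod_cast hlcm
  have hl0 : ((Nat.lcm a1 a2 : ℕ) : ℝ) ≠ 0 := fun h => hQ0 (by rw [← e3, h, zero_mul])
  have hg0 : (Nat.gcd Q s : ℝ) ≠ 0 := fun h => hQ0 (by rw [← e3, h, mul_zero])
  have ha10 : (a1:ℝ) ≠ 0 := fun h => hq10 (by rw [← e1, h, zero_mul])
  have ha20 : (a2:ℝ) ≠ 0 := fun h => hq20 (by rw [← e2, h, zero_mul])
  have hg10 : (Nat.gcd q1 s : ℝ) ≠ 0 := fun h => hq10 (by rw [← e1, h, mul_zero])
  have hg20 : (Nat.gcd q2 s : ℝ) ≠ 0 := fun h => hq20 (by rw [← e2, h, mul_zero])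
  have f1 : ((Nat.gcd Q s : ℕ) : ℝ) / (Q : ℝ) = 1 / ((Nat.lcm a1 a2 : ℕ) : ℝ) := by
    rw [← e3]
    field_simp
  have f2 : ((Nat.gcd q1 s : ℕ) : ℝ) / (q1 : ℝ) = 1 / (a1:ℝ) := by
    rw [← e1]
    field_simp
  have f3 : ((Nat.gcd q2 s : ℕ) : ℝ) / (q2 : ℝ) = 1 / (a2:ℝ) := by
    rw [← e2]
    field_simp
  rw [f1, f2, f3]
  have f4 : ((Nat.gcd a1 a2 : ℕ) : ℝ) = a1 * a2 / ((Nat.lcm a1 a2 : ℕ) : ℝ) := by
    rw [eq_div_iff hl0, e4]
  rw [f4]
  field_simp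

lemma VV_diag (w R s : ℕ) :
    VV w R s = ∑ r ∈ (Dv w R).filter (fun r => Nat.Coprime r s), (Nat.totient r : ℝ) *
      (∑ q ∈ (Dv w R).filter (fun q => r ∣ q),
        lamS w R q * ((Nat.gcd q s : ℕ) : ℝ) / (q : ℝ)) ^ 2 := by
  have h1 : ∀ r, (Nat.totient r : ℝ) * (∑ q ∈ (Dv w R).filter (fun q => r ∣ q),
        lamS w R q * ((Nat.gcd q s : ℕ) : ℝ) / (q : ℝ)) ^ 2 =
      ∑ q1 ∈ Dv w R, ∑ q2 ∈ Dv w R, (if r ∣ q1 ∧ r ∣ q2 then (Nat.totient r : ℝ) else 0) *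
        ((lamS w R q1 * ((Nat.gcd q1 s : ℕ) : ℝ) / (q1 : ℝ)) *
        (lamS w R q2 * ((Nat.gcd q2 s : ℕ) : ℝ) / (q2 : ℝ))) := by
    intro r
    rw [pow_two, Finset.sum_filter, Finset.sum_mul_sum, Finset.mul_sum]
    refine Finset.sum_congr rfl fun q1 _ => ?_
    rw [Finset.mul_sum]
    refine Finset.sum_congr rfl fun q2 _ => ?_
    by_cases h1 : r ∣ q1 <;> by_cases h2 : r ∣ q2 <;> simp [h1, h2]
  simp only [h1]
  rw [Finset.sum_comm]
  unfold VV
  refine Finset.sum_congr rfl fun q1 hq1 => ?_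
  rw [Finset.sum_comm]
  refine Finset.sum_congr rfl fun q2 hq2 => ?_
  rw [← Finset.sum_mul, ← Finset.sum_filter, Finset.filter_filter]
  have h3 := kernel_eq w R s q1 q2 hq1 hq2
  rw [mul_div_assoc, h3]
  ring

end SelBAux

open SelBAux

/-- U1b: exact diagonalisation of the quadratic form over the multiples of `s`. -/
theorem VV_eq (w R s : ℕ) (hR : 1 ≤ R) (hs : s ∣ ∏ p ∈ PwR w R, p) :
    VV w R s = (1 / SG w R ^ 2) * ∑ r ∈ (Dv w R).filter (fun r => Nat.Coprime r s),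
      (1 / (Nat.totient r : ℝ)) *
        (∑ u ∈ s.divisors.filter (fun u => u * r ≤ R),
          ((ArithmeticFunction.moebius u : ℤ) : ℝ)) ^ 2 := by
  have hG := SG_pos w R hR
  rw [VV_diag, Finset.mul_sum]
  refine Finset.sum_congr rfl fun r hr => ?_
  rw [mem_filter] at hr
  have hr0 : r ≠ 0 := (Dv_sqf hr.1).ne_zero
  have hφr : (Nat.totient r : ℝ) ≠ 0 := by
    have := Nat.totient_pos.mpr (Nat.pos_of_ne_zero hr0)
    exact_mod_cast this.ne'
  rw [yr_eq w R s r hs hr.1 hr.2]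
  have hμ : ((ArithmeticFunction.moebius r : ℤ) : ℝ) ^ 2 = 1 := by
    have h1 : (ArithmeticFunction.moebius r) ^ 2 = 1 :=
      ArithmeticFunction.moebius_sq_eq_one_of_squarefree (Dv_sqf hr.1)
    exact_mod_cast h1
  rw [mul_pow, div_pow, hμ]
  field_simp

theorem VV_one (w R : ℕ) (hR : 1 ≤ R) : VV w R 1 = 1 / SG w R := by
  have hG := SG_pos w R hR
  rw [VV_eq w R 1 hR (one_dvd _)]
  have h1 : ∑ r ∈ (Dv w R).filter (fun r => Nat.Coprime r 1),
      (1 / (Nat.totient r : ℝ)) *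
        (∑ u ∈ (1:ℕ).divisors.filter (fun u => u * r ≤ R),
          ((ArithmeticFunction.moebius u : ℤ) : ℝ)) ^ 2 = SG w R := by
    unfold SG
    rw [Finset.filter_true_of_mem (fun r _ => Nat.coprime_one_right r)]
    refine Finset.sum_congr rfl fun r hr => ?_
    have h2 : (1:ℕ).divisors.filter (fun u => u * r ≤ R) = {1} := by
      rw [Nat.divisors_one, Finset.filter_singleton, if_pos]
      rw [one_mul]
      exact (mem_Dv.mp hr).2
    rw [h2]
    simp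
  rw [h1]
  field_simp

theorem VV_nonneg (w R s : ℕ) (hR : 1 ≤ R) (hs : s ∣ ∏ p ∈ PwR w R, p) : 0 ≤ VV w R s := by
  rw [VV_eq w R s hR hs]
  have hG := SG_pos w R hR
  exact mul_nonneg (by positivity) (Finset.sum_nonneg fun r _ => by positivity)

theorem VV_le (w R s : ℕ) (hR : 1 ≤ R) (hs : s ∣ ∏ p ∈ PwR w R, p) :
    VV w R s ≤ 4 ^ s.primeFactors.card / SG w R := by
  have hG := SG_pos w R hR
  have hsq : Squarefree s := (P_sqf w R).squarefree_of_dvd hs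
  have hcard : s.divisors.card = 2 ^ s.primeFactors.card := by
    rw [Nat.card_divisors hsq.ne_zero]
    rw [Finset.prod_congr rfl (fun p hp => ?_), Finset.prod_const]
    have h1 := hsq.natFactorization_le_one p
    have h2 : 0 < s.factorization p :=
      (Nat.prime_of_mem_primeFactors hp).factorization_pos_of_dvd hsq.ne_zero
        (Nat.dvd_of_mem_primeFactors hp)
    omega
  rw [VV_eq w R s hR hs]
  have h1 : ∑ r ∈ (Dv w R).filter (fun r => Nat.Coprime r s),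
      (1 / (Nat.totient r : ℝ)) *
        (∑ u ∈ s.divisors.filter (fun u => u * r ≤ R),
          ((ArithmeticFunction.moebius u : ℤ) : ℝ)) ^ 2 ≤
      4 ^ s.primeFactors.card * SG w R := by
    unfold SG
    rw [Finset.mul_sum]
    refine (Finset.sum_le_sum fun r _ => ?_).trans
      (Finset.sum_le_sum_of_subset_of_nonneg (Finset.filter_subset _ _) fun r _ _ => by positivity)
    rw [mul_comm]
    refine mul_le_mul_of_nonneg_right ?_ (by positivity)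
    have h2 : |∑ u ∈ s.divisors.filter (fun u => u * r ≤ R),
          ((ArithmeticFunction.moebius u : ℤ) : ℝ)| ≤ 2 ^ s.primeFactors.card := by
      refine (Finset.abs_sum_le_sum_abs _ _).trans ?_
      refine (Finset.sum_le_sum (g := fun _ => (1:ℝ)) fun u _ => ?_).trans ?_
      · have h3 : |ArithmeticFunction.moebius u| ≤ 1 := ArithmeticFunction.abs_moebius_le_one
        exact_mod_cast h3
      · rw [Finset.sum_const, nsmul_eq_mul, mul_one]
        have h4 : ((s.divisors.filter (fun u => u * r ≤ R)).card : ℝ) ≤ (s.divisors.card : ℝ) := by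
          exact_mod_cast Finset.card_le_card (Finset.filter_subset _ _)
        refine h4.trans (le_of_eq ?_)
        rw [hcard]
        push_cast
        ring
    calc (∑ u ∈ s.divisors.filter (fun u => u * r ≤ R),
          ((ArithmeticFunction.moebius u : ℤ) : ℝ)) ^ 2 =
          |∑ u ∈ s.divisors.filter (fun u => u * r ≤ R),
          ((ArithmeticFunction.moebius u : ℤ) : ℝ)| ^ 2 := (sq_abs _).symm
      _ ≤ (2 ^ s.primeFactors.card) ^ 2 := pow_le_pow_left₀ (abs_nonneg _) h2 2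
      _ = 4 ^ s.primeFactors.card := by
          rw [← pow_mul, mul_comm, pow_mul]
          norm_num
  calc 1 / SG w R ^ 2 * _ ≤ 1 / SG w R ^ 2 * (4 ^ s.primeFactors.card * SG w R) :=
        mul_le_mul_of_nonneg_left h1 (by positivity)
    _ = 4 ^ s.primeFactors.card / SG w R := by
        field_simp

theorem VV_prime (w R p : ℕ) (hR : 1 ≤ R) (hp : p ∈ PwR w R) :
    VV w R p ≤ (1 / SG w R ^ 2) *
      ∑ r ∈ (Dv w R).filter (fun r => R < p * r), 1 / (Nat.totient r : ℝ) := by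
  have hG := SG_pos w R hR
  have hpp := PwR_prime hp
  have hpd : p ∣ ∏ p ∈ PwR w R, p := Finset.dvd_prod_of_mem _ hp
  rw [VV_eq w R p hR hpd]
  refine mul_le_mul_of_nonneg_left ?_ (by positivity)
  rw [Finset.sum_filter (fun r => R < p * r)]
  refine (Finset.sum_le_sum (g := fun r => if R < p * r then 1 / (Nat.totient r : ℝ) else 0)
    fun r hr => ?_).trans
    (Finset.sum_le_sum_of_subset_of_nonneg (Finset.filter_subset _ _) fun r _ _ => by
      split_ifs <;> positivity)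
  rw [mem_filter] at hr
  have hrR : r ≤ R := (mem_Dv.mp hr.1).2
  rw [hpp.divisors, Finset.sum_filter]
  rw [Finset.sum_pair hpp.one_lt.ne]
  rw [ArithmeticFunction.moebius_apply_prime hpp]
  by_cases h : R < p * r
  · rw [if_pos (by rw [one_mul]; exact hrR), if_neg (not_le.mpr h), if_pos h]
    simp
  · rw [if_pos (by rw [one_mul]; exact hrR), if_pos (not_lt.mp h), if_neg h]
    simp

end Pool.Agent.HLT
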