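import Mathlib
import Pool.Agent.HLT.SelDefs
import Pool.Agent.HLT.SelA
import Pool.Agent.HLT.SelB

set_option autoImplicit false

open Finset

namespace Pool.Agent.HLT

open Pool.Agent.HL26 Pool.Agent.Maynard

namespace SelCAux

lemma sum_div_prod (f : ℕ → ℝ) {n : ℕ} (hn : Squarefree n) :
    ∑ e ∈ n.divisors, ∏ p ∈ e.primeFactors, f p = ∏ p ∈ n.primeFactors, (1 + f p) := by
  have h := (ArithmeticFunction.IsMultiplicative.prodPrimeFactors
    f).prodPrimeFactors_one_add_of_squarefree hn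
  have e1 : ∑ e ∈ n.divisors, ArithmeticFunction.prodPrimeFactors f e
      = ∑ e ∈ n.divisors, ∏ p ∈ e.primeFactors, f p := by
    apply Finset.sum_congr rfl
    intro e he
    exact ArithmeticFunction.prodPrimeFactors_apply (Nat.pos_of_mem_divisors he).ne'
  have e2 : ∏ p ∈ n.primeFactors, (1 + ArithmeticFunction.prodPrimeFactors f p)
      = ∏ p ∈ n.primeFactors, (1 + f p) := by
    apply Finset.prod_congr rfl
    intro p hp
    have hpp : p.Prime := Nat.prime_of_mem_primeFactors hp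
    rw [ArithmeticFunction.prodPrimeFactors_apply hpp.ne_zero, hpp.primeFactors]
    simp
  rw [← e1, ← e2, h]

/-- the multiplicative function of the pair form -/
noncomputable def psi (h e : ℕ) : ℝ := ∏ p ∈ e.primeFactors, ((if p ∣ h then (p:ℝ) else 0) - 1)

lemma gcd_ite (h : ℕ) {g : ℕ} (hg : Squarefree g) :
    (if g ∣ h then (g:ℝ) else 0) = ∑ e ∈ g.divisors, psi h e := by
  unfold psi
  rw [sum_div_prod _ hg]
  have e1 : ∏ p ∈ g.primeFactors, (1 + ((if p ∣ h then (p:ℝ) else 0) - 1))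
      = ∏ p ∈ g.primeFactors, (if p ∣ h then (p:ℝ) else 0) := by
    apply Finset.prod_congr rfl
    intro p _
    ring
  rw [e1]
  by_cases hgh : g ∣ h
  · rw [if_pos hgh]
    have e2 : ∏ p ∈ g.primeFactors, (if p ∣ h then (p:ℝ) else 0) = ∏ p ∈ g.primeFactors, (p:ℝ) := by
      apply Finset.prod_congr rfl
      intro p hp
      rw [if_pos ((Nat.dvd_of_mem_primeFactors hp).trans hgh)]
    rw [e2]
    conv_lhs => rw [← Nat.prod_primeFactors_of_squarefree hg]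
    push_cast
    rfl
  · rw [if_neg hgh]
    symm
    have : ∃ p ∈ g.primeFactors, ¬ p ∣ h := by
      by_contra hcon
      push Not at hcon
      apply hgh
      rw [← Nat.prod_primeFactors_of_squarefree hg]
      apply Finset.prod_primes_dvd
      · intro p hp
        exact (Nat.prime_of_mem_primeFactors hp).prime
      · exact hcon
    obtain ⟨p, hp, hph⟩ := this
    exact Finset.prod_eq_zero hp (if_neg hph)

lemma gauss_inv (Q : ℕ) (hQ : 0 < Q) (e : ℕ) (he : 0 < e) :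
    ∑ x ∈ e.divisorsAntidiagonal, (((ArithmeticFunction.moebius x.1 : ℤ) : ℝ)) *
      ((Nat.gcd Q x.2 : ℕ) : ℝ) = if e ∣ Q then ((Nat.totient e : ℕ) : ℝ) else 0 := by
  refine (ArithmeticFunction.sum_eq_iff_sum_mul_moebius_eq
    (f := fun e => if e ∣ Q then ((Nat.totient e : ℕ) : ℝ) else 0)
    (g := fun n => ((Nat.gcd Q n : ℕ) : ℝ))).mp ?_ e he
  intro n hn
  rw [← Finset.sum_filter]
  have hs : n.divisors.filter (fun i => i ∣ Q) = (Nat.gcd Q n).divisors := by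
    ext i
    simp only [Finset.mem_filter, Nat.mem_divisors]
    constructor
    · rintro ⟨⟨h1, _⟩, h3⟩
      exact ⟨Nat.dvd_gcd h3 h1, (Nat.gcd_pos_of_pos_right _ hn).ne'⟩
    · rintro ⟨h1, _⟩
      exact ⟨⟨h1.trans (Nat.gcd_dvd_right _ _), hn.ne'⟩, h1.trans (Nat.gcd_dvd_left _ _)⟩
  rw [hs, ← Nat.cast_sum, Nat.sum_totient]

/-- the sum `T_e` -/
noncomputable def TT (w R e : ℕ) : ℝ := ∑ q1 ∈ Dv w R, ∑ q2 ∈ Dv w R,
  if e ∣ Nat.lcm q1 q2 then lamS w R q1 * lamS w R q2 / (Nat.lcm q1 q2 : ℝ) else 0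

lemma PwR_prime (w R p : ℕ) (hp : p ∈ PwR w R) : p.Prime :=
  PPy_prime R p (Finset.mem_filter.mp hp).1

lemma PwR_gt (w R p : ℕ) (hp : p ∈ PwR w R) : w < p := (Finset.mem_filter.mp hp).2

lemma sqf_P (w R : ℕ) : Squarefree (∏ p ∈ PwR w R, p) := by
  apply Finset.squarefree_prod_of_pairwise_isCoprime
  · intro p hp q hq hpq
    show IsRelPrime p q
    rw [← Nat.coprime_iff_isRelPrime]
    exact (Nat.coprime_primes (PwR_prime w R p hp) (PwR_prime w R q hq)).mpr hpq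
  · intro p hp
    exact (PwR_prime w R p hp).prime.squarefree

lemma P_ne (w R : ℕ) : (∏ p ∈ PwR w R, p) ≠ 0 :=
  Finset.prod_ne_zero_iff.mpr (fun p hp => (PwR_prime w R p hp).ne_zero)

lemma pf_P (w R : ℕ) : (∏ p ∈ PwR w R, p).primeFactors = PwR w R :=
  Nat.primeFactors_prod (fun p hp => PwR_prime w R p hp)

lemma Dv_dvd {w R q : ℕ} (hq : q ∈ Dv w R) : q ∣ ∏ p ∈ PwR w R, p :=
  Nat.dvd_of_mem_divisors (Finset.mem_filter.mp hq).1

lemma Dv_pos {w R q : ℕ} (hq : q ∈ Dv w R) : 0 < q :=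
  Nat.pos_of_mem_divisors (Finset.mem_filter.mp hq).1

lemma TT_eq (w R e : ℕ) (he : 0 < e) :
    ((Nat.totient e : ℕ) : ℝ) * TT w R e =
      ∑ x ∈ e.divisorsAntidiagonal, (((ArithmeticFunction.moebius x.1 : ℤ) : ℝ)) * VV w R x.2 := by
  unfold TT VV
  simp only [Finset.mul_sum]
  rw [Finset.sum_comm (s := e.divisorsAntidiagonal)]
  apply Finset.sum_congr rfl
  intro q1 hq1
  rw [Finset.sum_comm (s := e.divisorsAntidiagonal)]
  apply Finset.sum_congr rfl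
  intro q2 hq2
  have hQ : 0 < Nat.lcm q1 q2 := Nat.lcm_pos (Dv_pos hq1) (Dv_pos hq2)
  have h := gauss_inv (Nat.lcm q1 q2) hQ e he
  have e1 : ∑ x ∈ e.divisorsAntidiagonal, (((ArithmeticFunction.moebius x.1 : ℤ) : ℝ)) *
      (lamS w R q1 * lamS w R q2 * ((Nat.gcd (Nat.lcm q1 q2) x.2 : ℕ) : ℝ) /
        (Nat.lcm q1 q2 : ℝ))
      = (lamS w R q1 * lamS w R q2 / (Nat.lcm q1 q2 : ℝ)) *
        ∑ x ∈ e.divisorsAntidiagonal, (((ArithmeticFunction.moebius x.1 : ℤ) : ℝ)) *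
          ((Nat.gcd (Nat.lcm q1 q2) x.2 : ℕ) : ℝ) := by
    rw [Finset.mul_sum]
    apply Finset.sum_congr rfl
    intro x _
    ring
  rw [e1, h]
  split_ifs
  · ring
  · ring

lemma PM_eq (w R h : ℕ) : PM w R h =
    ∑ e ∈ (∏ p ∈ PwR w R, p).divisors, psi h e * (TT w R e) ^ 2 := by
  set P := ∏ p ∈ PwR w R, p with hP
  have hPs : Squarefree P := sqf_P w R
  have key : ∀ q1 ∈ Dv w R, ∀ q2 ∈ Dv w R, ∀ r1 ∈ Dv w R, ∀ r2 ∈ Dv w R,
      lamS w R q1 * lamS w R q2 * lamS w R r1 * lamS w R r2 *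
      (if Nat.gcd (Nat.lcm q1 q2) (Nat.lcm r1 r2) ∣ h then
        ((Nat.gcd (Nat.lcm q1 q2) (Nat.lcm r1 r2) : ℕ) : ℝ) /
          ((Nat.lcm q1 q2 : ℝ) * (Nat.lcm r1 r2 : ℝ)) else 0)
      = ∑ e ∈ P.divisors, psi h e *
        ((if e ∣ Nat.lcm q1 q2 then lamS w R q1 * lamS w R q2 / (Nat.lcm q1 q2 : ℝ) else 0) *
        (if e ∣ Nat.lcm r1 r2 then lamS w R r1 * lamS w R r2 / (Nat.lcm r1 r2 : ℝ) else 0)) := by
    intro q1 hq1 q2 hq2 r1 hr1 r2 hr2
    set Q := Nat.lcm q1 q2 with hQ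
    set Q' := Nat.lcm r1 r2 with hQ'
    have hQP : Q ∣ P := Nat.lcm_dvd (Dv_dvd hq1) (Dv_dvd hq2)
    have hg : Squarefree (Nat.gcd Q Q') := hPs.squarefree_of_dvd ((Nat.gcd_dvd_left _ _).trans hQP)
    have hQ0 : 0 < Q := Nat.lcm_pos (Dv_pos hq1) (Dv_pos hq2)
    have hP0 : P ≠ 0 := P_ne w R
    have h1 := gcd_ite h hg
    have e1 : ∑ e ∈ P.divisors, psi h e *
        ((if e ∣ Q then lamS w R q1 * lamS w R q2 / (Q : ℝ) else 0) *
        (if e ∣ Q' then lamS w R r1 * lamS w R r2 / (Q' : ℝ) else 0))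
        = (lamS w R q1 * lamS w R q2 / (Q : ℝ)) * (lamS w R r1 * lamS w R r2 / (Q' : ℝ)) *
          ∑ e ∈ (Nat.gcd Q Q').divisors, psi h e := by
      have hsub : (Nat.gcd Q Q').divisors = P.divisors.filter (fun e => e ∣ Q ∧ e ∣ Q') := by
        ext e
        simp only [Finset.mem_filter, Nat.mem_divisors]
        constructor
        · rintro ⟨h1, h2⟩
          exact ⟨⟨(h1.trans (Nat.gcd_dvd_left _ _)).trans hQP, hP0⟩,
            h1.trans (Nat.gcd_dvd_left _ _), h1.trans (Nat.gcd_dvd_right _ _)⟩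
        · rintro ⟨_, h2, h3⟩
          exact ⟨Nat.dvd_gcd h2 h3, (Nat.gcd_pos_of_pos_left _ hQ0).ne'⟩
      rw [hsub, Finset.sum_filter, Finset.mul_sum]
      apply Finset.sum_congr rfl
      intro e _
      by_cases h1 : e ∣ Q <;> by_cases h2 : e ∣ Q' <;> simp [h1, h2]
      ring
    rw [e1, ← h1]
    split_ifs
    · ring
    · ring
  have e2 : PM w R h = ∑ q1 ∈ Dv w R, ∑ q2 ∈ Dv w R, ∑ r1 ∈ Dv w R, ∑ r2 ∈ Dv w R,
      ∑ e ∈ P.divisors, psi h e *
        ((if e ∣ Nat.lcm q1 q2 then lamS w R q1 * lamS w R q2 / (Nat.lcm q1 q2 : ℝ) else 0) *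
        (if e ∣ Nat.lcm r1 r2 then lamS w R r1 * lamS w R r2 / (Nat.lcm r1 r2 : ℝ) else 0)) := by
    unfold PM
    apply Finset.sum_congr rfl
    intro q1 hq1
    apply Finset.sum_congr rfl
    intro q2 hq2
    apply Finset.sum_congr rfl
    intro r1 hr1
    apply Finset.sum_congr rfl
    intro r2 hr2
    exact key q1 hq1 q2 hq2 r1 hr1 r2 hr2
  have e3 : ∀ e, (TT w R e) ^ 2 = ∑ q1 ∈ Dv w R, ∑ q2 ∈ Dv w R, ∑ r1 ∈ Dv w R, ∑ r2 ∈ Dv w R,
        ((if e ∣ Nat.lcm q1 q2 then lamS w R q1 * lamS w R q2 / (Nat.lcm q1 q2 : ℝ) else 0) *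
        (if e ∣ Nat.lcm r1 r2 then lamS w R r1 * lamS w R r2 / (Nat.lcm r1 r2 : ℝ) else 0)) := by
    intro e
    rw [sq]
    conv_lhs => rw [TT, Finset.sum_mul]
    apply Finset.sum_congr rfl
    intro q1 _
    rw [Finset.sum_mul]
    apply Finset.sum_congr rfl
    intro q2 _
    rw [Finset.mul_sum]
    apply Finset.sum_congr rfl
    intro r1 _
    rw [Finset.mul_sum]
  rw [e2]
  have e4 : ∀ e ∈ P.divisors, psi h e * (TT w R e) ^ 2 =
      ∑ q1 ∈ Dv w R, ∑ q2 ∈ Dv w R, ∑ r1 ∈ Dv w R, ∑ r2 ∈ Dv w R, psi h e *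
        ((if e ∣ Nat.lcm q1 q2 then lamS w R q1 * lamS w R q2 / (Nat.lcm q1 q2 : ℝ) else 0) *
        (if e ∣ Nat.lcm r1 r2 then lamS w R r1 * lamS w R r2 / (Nat.lcm r1 r2 : ℝ) else 0)) := by
    intro e _
    rw [e3 e]
    simp only [Finset.mul_sum]
  rw [Finset.sum_congr rfl e4]
  symm
  rw [Finset.sum_comm]
  apply Finset.sum_congr rfl
  intro q1 _
  rw [Finset.sum_comm]
  apply Finset.sum_congr rfl
  intro q2 _
  rw [Finset.sum_comm]
  apply Finset.sum_congr rfl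
  intro r1 _
  rw [Finset.sum_comm]

lemma abs_psi (h : ℕ) {e : ℕ} (he : e ≠ 0) :
    |psi h e| = ∏ p ∈ e.primeFactors, (if p ∣ h then (p:ℝ) - 1 else 1) := by
  unfold psi
  rw [Finset.abs_prod]
  apply Finset.prod_congr rfl
  intro p hp
  have hpp : (1:ℝ) < p := by exact_mod_cast (Nat.prime_of_mem_primeFactors hp).one_lt
  split_ifs
  · rw [abs_of_pos (by linarith)]
  · simp

lemma totient_sqf {e : ℕ} (he : Squarefree e) :
    ((Nat.totient e : ℕ) : ℝ) = ∏ p ∈ e.primeFactors, ((p:ℝ) - 1) := by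
  conv_lhs => rw [← Nat.prod_primeFactors_of_squarefree he]
  exact totient_prod _ (fun p hp => Nat.prime_of_mem_primeFactors hp)

lemma sum_four {e : ℕ} (he : Squarefree e) :
    ∑ s ∈ e.divisors, (4:ℝ) ^ s.primeFactors.card = 5 ^ e.primeFactors.card := by
  have h := sum_div_prod (fun _ => (4:ℝ)) he
  simp only [Finset.prod_const] at h
  rw [h]
  norm_num

lemma TT_bound (w R e : ℕ) (hR : 1 ≤ R) (he : e ∣ ∏ p ∈ PwR w R, p) :
    (TT w R e) ^ 2 ≤ (1 / SG w R ^ 2) * (25 ^ e.primeFactors.card / ((Nat.totient e : ℕ) : ℝ) ^ 2) := by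
  have hG := SG_pos w R hR
  have hes : Squarefree e := (sqf_P w R).squarefree_of_dvd he
  have he0 : 0 < e := Nat.pos_of_ne_zero hes.ne_zero
  have hphi : (0:ℝ) < ((Nat.totient e : ℕ) : ℝ) := by exact_mod_cast Nat.totient_pos.mpr he0
  have h1 := TT_eq w R e he0
  have h2 : |((Nat.totient e : ℕ) : ℝ) * TT w R e| ≤ 5 ^ e.primeFactors.card / SG w R := by
    rw [h1]
    refine (Finset.abs_sum_le_sum_abs _ _).trans ?_
    have h3 : ∀ x ∈ e.divisorsAntidiagonal,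
        |(((ArithmeticFunction.moebius x.1 : ℤ) : ℝ)) * VV w R x.2|
          ≤ 4 ^ x.2.primeFactors.card / SG w R := by
      intro x hx
      have hx2 : x.2 ∣ ∏ p ∈ PwR w R, p :=
        (Dvd.intro_left x.1 (Nat.mem_divisorsAntidiagonal.mp hx).1).trans he
      rw [abs_mul]
      have h4 : |(((ArithmeticFunction.moebius x.1 : ℤ) : ℝ))| ≤ 1 := by
        have := ArithmeticFunction.abs_moebius_le_one (n := x.1)
        exact_mod_cast this
      have h5 : |VV w R x.2| ≤ 4 ^ x.2.primeFactors.card / SG w R := by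
        rw [abs_of_nonneg (VV_nonneg w R x.2 hR hx2)]
        exact VV_le w R x.2 hR hx2
      calc _ ≤ 1 * |VV w R x.2| := mul_le_mul_of_nonneg_right h4 (abs_nonneg _)
        _ ≤ _ := by rw [one_mul]; exact h5
    refine (Finset.sum_le_sum h3).trans ?_
    rw [← Finset.sum_div, Nat.sum_divisorsAntidiagonal' (fun _ b => (4:ℝ) ^ b.primeFactors.card),
      sum_four hes]
  have h6 : (((Nat.totient e : ℕ) : ℝ) * TT w R e) ^ 2 ≤ (5 ^ e.primeFactors.card / SG w R) ^ 2 := by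
    rw [← sq_abs]
    exact pow_le_pow_left₀ (abs_nonneg _) h2 2
  have h7 : ((5:ℝ) ^ e.primeFactors.card) ^ 2 = 25 ^ e.primeFactors.card := by
    rw [← pow_mul, mul_comm, pow_mul]
    norm_num
  rw [mul_pow, div_pow, h7] at h6
  have h8 : (TT w R e) ^ 2 ≤ (25 ^ e.primeFactors.card / SG w R ^ 2) / ((Nat.totient e : ℕ) : ℝ) ^ 2 := by
    rw [le_div_iff₀ (by positivity)]
    linarith
  calc (TT w R e) ^ 2 ≤ _ := h8
    _ = _ := by
      field_simp

lemma tail_Ioc (w : ℕ) (hw : 2 ≤ w) (M : ℕ) (hM : w ≤ M) :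
    ∑ n ∈ Finset.Ioc w M, 1 / ((n:ℝ) - 1) ^ 2 ≤ 1 / ((w:ℝ) - 1) - 1 / ((M:ℝ) - 1) := by
  induction M, hM using Nat.le_induction with
  | base => simp
  | succ m hm ih =>
    rw [Finset.sum_Ioc_succ_top (by omega)]
    have hm2 : (2:ℝ) ≤ m := by exact_mod_cast hw.trans hm
    have h1 : 1 / (((m + 1 : ℕ) : ℝ) - 1) ^ 2 ≤ 1 / ((m:ℝ) - 1) - 1 / (((m + 1 : ℕ) : ℝ) - 1) := by
      push_cast
      have e : (m:ℝ) + 1 - 1 = m := by ring
      rw [e, div_sub_div _ _ (by linarith) (by linarith), div_le_div_iff₀ (by positivity)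
        (mul_pos (by linarith) (by linarith))]
      nlinarith
    linarith

lemma tail_sum (w : ℕ) (hw : 2 ≤ w) (S : Finset ℕ) (hS : ∀ n ∈ S, w < n) :
    ∑ n ∈ S, 1 / ((n:ℝ) - 1) ^ 2 ≤ 2 / (w:ℝ) := by
  have hw2 : (2:ℝ) ≤ w := by exact_mod_cast hw
  have hsub : S ⊆ Finset.Ioc w (max w (S.sup id)) := by
    intro n hn
    rw [Finset.mem_Ioc]
    exact ⟨hS n hn, le_max_of_le_right (Finset.le_sup (f := id) hn)⟩
  have hM : w ≤ max w (S.sup id) := le_max_left _ _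
  have h1 : ∑ n ∈ S, 1 / ((n:ℝ) - 1) ^ 2 ≤ ∑ n ∈ Finset.Ioc w (max w (S.sup id)),
      1 / ((n:ℝ) - 1) ^ 2 :=
    Finset.sum_le_sum_of_subset_of_nonneg hsub (fun i _ _ => by positivity)
  have h2 := tail_Ioc w hw _ hM
  have h3 : (0:ℝ) ≤ 1 / (((max w (S.sup id) : ℕ) : ℝ) - 1) := by
    have : (2:ℝ) ≤ ((max w (S.sup id) : ℕ) : ℝ) := by exact_mod_cast hw.trans hM
    apply div_nonneg zero_le_one
    linarith
  have h4 : 1 / ((w:ℝ) - 1) ≤ 2 / w := by
    rw [div_le_div_iff₀ (by linarith) (by linarith)]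
    linarith
  linarith

lemma prod_le_of_subset {S T : Finset ℕ} (f : ℕ → ℝ) (hST : S ⊆ T) (hf : ∀ i ∈ T, 1 ≤ f i) :
    ∏ i ∈ S, f i ≤ ∏ i ∈ T, f i := by
  classical
  rw [← Finset.prod_sdiff hST]
  have h1 : 1 ≤ ∏ i ∈ T \ S, f i := by
    calc (1:ℝ) = ∏ i ∈ T \ S, (1:ℝ) := by simp
      _ ≤ _ := Finset.prod_le_prod (fun _ _ => zero_le_one)
        (fun i hi => hf i (Finset.mem_sdiff.mp hi).1)
  have h2 : 0 ≤ ∏ i ∈ S, f i :=
    Finset.prod_nonneg (fun i hi => zero_le_one.trans (hf i (hST hi)))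
  nlinarith

end SelCAux

/-- U1c -/
theorem PM_le_prod (w R h : ℕ) (hR : 1 ≤ R) (hh : 1 ≤ h) :
    PM w R h ≤ (1 / SG w R ^ 2) * ∏ p ∈ PwR w R,
      (1 + 25 * (if p ∣ h then 1 / ((p:ℝ) - 1) else 1 / ((p:ℝ) - 1) ^ 2)) := by
  have _ := hh
  rw [SelCAux.PM_eq]
  have hG := SG_pos w R hR
  have hPs := SelCAux.sqf_P w R
  have h1 : ∀ e ∈ (∏ p ∈ PwR w R, p).divisors, SelCAux.psi h e * (SelCAux.TT w R e) ^ 2 ≤
      (1 / SG w R ^ 2) * ∏ p ∈ e.primeFactors,
        (25 * (if p ∣ h then 1 / ((p:ℝ) - 1) else 1 / ((p:ℝ) - 1) ^ 2)) := by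
    intro e he
    have hed := Nat.dvd_of_mem_divisors he
    have hes : Squarefree e := hPs.squarefree_of_dvd hed
    have hT := SelCAux.TT_bound w R e hR hed
    have h2 : SelCAux.psi h e * (SelCAux.TT w R e) ^ 2 ≤
        |SelCAux.psi h e| * ((1 / SG w R ^ 2) *
          (25 ^ e.primeFactors.card / ((Nat.totient e : ℕ) : ℝ) ^ 2)) := by
      calc _ ≤ |SelCAux.psi h e| * (SelCAux.TT w R e) ^ 2 :=
            mul_le_mul_of_nonneg_right (le_abs_self _) (sq_nonneg _)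
        _ ≤ _ := mul_le_mul_of_nonneg_left hT (abs_nonneg _)
    refine h2.trans (le_of_eq ?_)
    rw [SelCAux.abs_psi h hes.ne_zero, SelCAux.totient_sqf hes]
    have h3 : (25:ℝ) ^ e.primeFactors.card = ∏ p ∈ e.primeFactors, (25:ℝ) := by
      rw [Finset.prod_const]
    rw [h3, ← Finset.prod_pow, ← Finset.prod_div_distrib]
    rw [mul_left_comm, ← Finset.prod_mul_distrib]
    congr 1
    apply Finset.prod_congr rfl
    intro p hp
    have hpp : (1:ℝ) < p := by exact_mod_cast (Nat.prime_of_mem_primeFactors hp).one_lt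
    have hp1 : (p:ℝ) - 1 ≠ 0 := by linarith
    split_ifs
    · field_simp
    · field_simp
  refine (Finset.sum_le_sum h1).trans (le_of_eq ?_)
  rw [← Finset.mul_sum, SelCAux.sum_div_prod _ hPs, SelCAux.pf_P]

theorem PM_le : ∃ C : ℝ, 0 < C ∧ ∀ w R h : ℕ, 2 ≤ w → 1 ≤ R → 1 ≤ h →
    PM w R h ≤ (1 / SG w R ^ 2) * ((1 + C / w) * pp w h ^ 25) := by
  classical
  refine ⟨50 * Real.exp 25, by positivity, ?_⟩
  intro w R h hw hR hh
  have hG := SG_pos w R hR
  refine (PM_le_prod w R h hR hh).trans ?_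
  apply mul_le_mul_of_nonneg_left _ (by positivity)
  have hw2 : (2:ℝ) ≤ w := by exact_mod_cast hw
  have hgt : ∀ p ∈ PwR w R, (1:ℝ) < p := fun p hp => by
    exact_mod_cast (SelCAux.PwR_prime w R p hp).one_lt
  rw [← Finset.prod_filter_mul_prod_filter_not (PwR w R) (fun p => p ∣ h)]
  have h1 : ∏ p ∈ (PwR w R).filter (fun p => p ∣ h),
      (1 + 25 * (if p ∣ h then 1 / ((p:ℝ) - 1) else 1 / ((p:ℝ) - 1) ^ 2)) ≤ pp w h ^ 25 := by
    unfold pp
    rw [← Finset.prod_pow]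
    have e1 : ∏ p ∈ (PwR w R).filter (fun p => p ∣ h),
      (1 + 25 * (if p ∣ h then 1 / ((p:ℝ) - 1) else 1 / ((p:ℝ) - 1) ^ 2)) ≤
        ∏ p ∈ (PwR w R).filter (fun p => p ∣ h), ((p:ℝ) / ((p:ℝ) - 1)) ^ 25 := by
      apply Finset.prod_le_prod
      · intro p hp
        have hp1 := hgt p (Finset.mem_filter.mp hp).1
        rw [if_pos (Finset.mem_filter.mp hp).2]
        have : 0 < 1 / ((p:ℝ) - 1) := by
          apply div_pos one_pos
          linarith
        linarith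
      · intro p hp
        have hp1 := hgt p (Finset.mem_filter.mp hp).1
        rw [if_pos (Finset.mem_filter.mp hp).2]
        have hx : 0 < 1 / ((p:ℝ) - 1) := by
          apply div_pos one_pos
          linarith
        have e2 : (p:ℝ) / ((p:ℝ) - 1) = 1 + 1 / ((p:ℝ) - 1) := by
          have : (p:ℝ) - 1 ≠ 0 := by linarith
          field_simp
          ring
        rw [e2]
        have := one_add_mul_le_pow (a := 1 / ((p:ℝ) - 1)) (by linarith) 25
        norm_num at this ⊢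
        linarith
    refine e1.trans ?_
    apply SelCAux.prod_le_of_subset (fun p : ℕ => ((p:ℝ) / ((p:ℝ) - 1)) ^ 25)
    · intro p hp
      have hp' := Finset.mem_filter.mp hp
      rw [Finset.mem_filter, Nat.mem_primeFactors]
      exact ⟨⟨SelCAux.PwR_prime w R p hp'.1, hp'.2, by omega⟩, SelCAux.PwR_gt w R p hp'.1⟩
    · intro p hp
      have hpp := Nat.prime_of_mem_primeFactors (Finset.mem_filter.mp hp).1
      have hp1 : (1:ℝ) < p := by exact_mod_cast hpp.one_lt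
      apply one_le_pow₀
      rw [le_div_iff₀ (by linarith)]
      linarith
  have h2 : ∏ p ∈ (PwR w R).filter (fun p => ¬ p ∣ h),
      (1 + 25 * (if p ∣ h then 1 / ((p:ℝ) - 1) else 1 / ((p:ℝ) - 1) ^ 2)) ≤
        1 + 50 * Real.exp 25 / w := by
    have e1 : ∏ p ∈ (PwR w R).filter (fun p => ¬ p ∣ h),
      (1 + 25 * (if p ∣ h then 1 / ((p:ℝ) - 1) else 1 / ((p:ℝ) - 1) ^ 2)) ≤
        ∏ p ∈ (PwR w R).filter (fun p => ¬ p ∣ h), Real.exp (25 * (1 / ((p:ℝ) - 1) ^ 2)) := by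
      apply Finset.prod_le_prod
      · intro p hp
        rw [if_neg (Finset.mem_filter.mp hp).2]
        positivity
      · intro p hp
        rw [if_neg (Finset.mem_filter.mp hp).2, add_comm]
        exact Real.add_one_le_exp _
    refine e1.trans ?_
    rw [← Real.exp_sum, ← Finset.mul_sum]
    have h3 := SelCAux.tail_sum w hw ((PwR w R).filter (fun p => ¬ p ∣ h))
      (fun p hp => SelCAux.PwR_gt w R p (Finset.mem_filter.mp hp).1)
    have h4 : Real.exp (25 * ∑ p ∈ (PwR w R).filter (fun p => ¬ p ∣ h), 1 / ((p:ℝ) - 1) ^ 2)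
        ≤ Real.exp (50 / w) := by
      apply Real.exp_le_exp.mpr
      calc _ ≤ 25 * (2 / (w:ℝ)) := by linarith
        _ = 50 / w := by ring
    refine h4.trans ?_
    have hx0 : (0:ℝ) ≤ 50 / w := by positivity
    have hx25 : (50:ℝ) / w ≤ 25 := by
      rw [div_le_iff₀ (by linarith)]
      linarith
    have h5 : 1 - 50 / (w:ℝ) ≤ Real.exp (-(50 / (w:ℝ))) := by
      have := Real.add_one_le_exp (-(50 / (w:ℝ)))
      linarith
    have h6 : Real.exp (50 / (w:ℝ)) * (1 - 50 / (w:ℝ)) ≤ 1 := by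
      calc _ ≤ Real.exp (50 / (w:ℝ)) * Real.exp (-(50 / (w:ℝ))) :=
            mul_le_mul_of_nonneg_left h5 (Real.exp_pos _).le
        _ = 1 := by rw [← Real.exp_add]; simp
    have h7 : Real.exp (50 / (w:ℝ)) * (50 / (w:ℝ)) ≤ Real.exp 25 * (50 / (w:ℝ)) :=
      mul_le_mul_of_nonneg_right (Real.exp_le_exp.mpr hx25) hx0
    calc Real.exp (50 / (w:ℝ)) = Real.exp (50 / (w:ℝ)) * (1 - 50 / (w:ℝ))
          + Real.exp (50 / (w:ℝ)) * (50 / (w:ℝ)) := by ring
      _ ≤ 1 + Real.exp 25 * (50 / (w:ℝ)) := by linarith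
      _ = 1 + 50 * Real.exp 25 / w := by ring
  have h30 : 0 ≤ ∏ p ∈ (PwR w R).filter (fun p => ¬ p ∣ h),
      (1 + 25 * (if p ∣ h then 1 / ((p:ℝ) - 1) else 1 / ((p:ℝ) - 1) ^ 2)) := by
    apply Finset.prod_nonneg
    intro p hp
    rw [if_neg (Finset.mem_filter.mp hp).2]
    positivity
  have h40 : 0 ≤ pp w h ^ 25 := by
    apply pow_nonneg
    unfold pp
    apply Finset.prod_nonneg
    intro p hp
    have hpp := Nat.prime_of_mem_primeFactors (Finset.mem_filter.mp hp).1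
    have hp1 : (1:ℝ) < p := by exact_mod_cast hpp.one_lt
    apply div_nonneg <;> linarith
  calc _ ≤ pp w h ^ 25 * (1 + 50 * Real.exp 25 / w) := mul_le_mul h1 h2 h30 h40
    _ = _ := by ring

end Pool.Agent.HLT
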