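import Mathlib
import Pool.Agent.HLT.NDefs
import Pool.Agent.HL26.SieveA
import Pool.Agent.Lib.ANT.MertensE

set_option autoImplicit false

open Finset Filter

namespace Pool.Agent.HLT

open Pool.Agent.HL26 Pool.Agent.Maynard

namespace B1aux

lemma one_sub_inv_pos {p : ℕ} (hp : p.Prime) : (0:ℝ) < 1 - 1 / (p:ℝ) := by
  have h2 : (2:ℝ) ≤ p := by exact_mod_cast hp.two_le
  have : 1 / (p:ℝ) ≤ 1 / 2 := one_div_le_one_div_of_le (by norm_num) h2
  linarith

lemma one_sub_inv_le_one (p : ℕ) : 1 - 1 / (p:ℝ) ≤ 1 := by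
  have : (0:ℝ) ≤ 1 / (p:ℝ) := by positivity
  linarith

end B1aux

open B1aux

/-- B1d -/
theorem th_pos (w z : ℕ) : 0 < th w z := by
  unfold th
  exact Finset.prod_pos fun p hp =>
    one_sub_inv_pos (PPy_prime z p (Finset.mem_filter.mp hp).1)

/-- B1e -/
theorem th_le_one (w z : ℕ) : th w z ≤ 1 := by
  unfold th
  exact Finset.prod_le_one
    (fun p hp => (one_sub_inv_pos (PPy_prime z p (Finset.mem_filter.mp hp).1)).le)
    (fun p _ => one_sub_inv_le_one p)

namespace B1aux

lemma mem_PPy {y p : ℕ} : p ∈ PPy y ↔ p ≤ y ∧ p.Prime := by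
  unfold PPy
  rw [Finset.mem_filter, Finset.mem_range]
  constructor
  · rintro ⟨h1, h2⟩; exact ⟨by omega, h2⟩
  · rintro ⟨h1, h2⟩; exact ⟨by omega, h2⟩

lemma cW_Wp (w : ℕ) : cW (Wp w) = ∏ p ∈ PPy w, (1 - 1 / (p:ℝ)) := by
  have hpf : (Wp w).primeFactors = PPy w := by
    unfold Wp
    exact Nat.primeFactors_prod (PPy_prime w)
  have hpos : 0 < Wp w := by
    unfold Wp
    exact Finset.prod_pos fun p hp => (PPy_prime w p hp).pos
  have h2 := Nat.totient_eq_mul_prod_factors (Wp w)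
  have h3 : ((Wp w).totient : ℝ) = Wp w * ∏ p ∈ (Wp w).primeFactors, (1 - ((p:ℝ))⁻¹) := by
    have := congrArg (fun q : ℚ => (q:ℝ)) h2
    push_cast at this
    exact this
  have hWr : ((Wp w : ℕ):ℝ) ≠ 0 := by exact_mod_cast hpos.ne'
  unfold cW
  rw [h3, hpf, mul_comm, mul_div_assoc, div_self hWr, mul_one]
  exact Finset.prod_congr rfl fun p _ => by rw [one_div]

end B1aux

open B1aux

/-- B1a: `cW(W) log N * prod_{w < p <= z} (1-1/p) <= C u` for `z = N^(1/u)`. -/
theorem th_upper : ∃ C : ℝ, 1 ≤ C ∧ ∀ u : ℝ, 1 ≤ u → ∀ w : ℕ, 2 ≤ w → ∀ᶠ N : ℕ in atTop,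
    cW (Wp w) * Real.log N * th w (zz N u) ≤ C * u := by
  refine ⟨1, le_refl 1, fun u hu w _ => ?_⟩
  filter_upwards [eventually_ge_atTop 2] with N hN
  have hu0 : 0 < u := by linarith
  have hN1 : (1:ℝ) < N := by exact_mod_cast (by omega : 1 < N)
  have hlogN : 0 < Real.log N := Real.log_pos hN1
  set z := zz N u with hz
  have hprod : cW (Wp w) * th w z ≤ ∏ p ∈ PPy z, (1 - 1 / (p:ℝ)) := by
    rw [cW_Wp]
    unfold th
    have hsplit : ∏ p ∈ PPy z, (1 - 1 / (p:ℝ)) =
        (∏ p ∈ (PPy z).filter (fun p => ¬ w < p), (1 - 1 / (p:ℝ))) *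
          ∏ p ∈ (PPy z).filter (fun p => w < p), (1 - 1 / (p:ℝ)) := by
      rw [mul_comm]
      exact (Finset.prod_filter_mul_prod_filter_not _ _ _).symm
    rw [hsplit]
    refine mul_le_mul_of_nonneg_right ?_
      (Finset.prod_nonneg fun p hp =>
        (one_sub_inv_pos (PPy_prime z p (Finset.mem_filter.mp hp).1)).le)
    have hsub : (PPy z).filter (fun p => ¬ w < p) ⊆ PPy w := by
      intro p hp
      rw [Finset.mem_filter, mem_PPy] at hp
      rw [mem_PPy]
      exact ⟨by omega, hp.1.2⟩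
    exact Finset.prod_le_prod_of_subset_of_le_one hsub
      (fun p hp => (one_sub_inv_pos (PPy_prime w p hp)).le) (fun p _ _ => one_sub_inv_le_one p)
  have hge : Real.log N / u ≤ ∏ p ∈ PPy z, (1 - 1 / (p : ℝ))⁻¹ := by
    refine le_trans ?_ (log_le_prod z)
    have h1 : (N:ℝ) ^ (1 / u) ≤ (z:ℝ) + 1 := by
      rw [hz]; unfold zz
      exact (Nat.lt_floor_add_one _).le
    have h2 : Real.log ((N:ℝ) ^ (1 / u)) ≤ Real.log ((z:ℝ) + 1) :=
      Real.log_le_log (Real.rpow_pos_of_pos (by linarith) _) h1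
    rw [Real.log_rpow (by linarith)] at h2
    calc Real.log N / u = 1 / u * Real.log N := by ring
      _ ≤ _ := h2
  rw [Finset.prod_inv_distrib] at hge
  have hPpos : 0 < ∏ p ∈ PPy z, (1 - 1 / (p:ℝ)) :=
    Finset.prod_pos fun p hp => one_sub_inv_pos (PPy_prime z p hp)
  rw [one_mul]
  have h3 : Real.log N / u * ∏ p ∈ PPy z, (1 - 1 / (p:ℝ)) ≤ 1 := by
    have := mul_le_mul_of_nonneg_right hge hPpos.le
    rwa [inv_mul_cancel₀ hPpos.ne'] at this
  calc cW (Wp w) * Real.log N * th w z = Real.log N * (cW (Wp w) * th w z) := by ring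
    _ ≤ Real.log N * ∏ p ∈ PPy z, (1 - 1 / (p:ℝ)) := mul_le_mul_of_nonneg_left hprod hlogN.le
    _ = (Real.log N / u * ∏ p ∈ PPy z, (1 - 1 / (p:ℝ))) * u := by
        field_simp
    _ ≤ 1 * u := mul_le_mul_of_nonneg_right h3 hu0.le
    _ = u := one_mul u

namespace B1aux

/-- Mertens' second theorem, upper bound, by partial summation -/
lemma mertens_two_upper : ∃ C : ℝ, 0 < C ∧ ∀ y : ℕ, 2 ≤ y → ∀ z : ℕ, y ≤ z →
    ∑ n ∈ Finset.Ioc y z, ArithmeticFunction.vonMangoldt n / n / Real.log n ≤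
      Real.log (Real.log z / Real.log y) + C := by
  obtain ⟨C, hC, hM⟩ := Pool.Agent.ANTE.mertens_one
  have hl2 : (0:ℝ) < Real.log 2 := Real.log_pos (by norm_num)
  refine ⟨1 + 4 * C / Real.log 2, by positivity, fun y hy => ?_⟩
  set S : ℕ → ℝ := fun N => ∑ n ∈ Finset.Icc 1 N, ArithmeticFunction.vonMangoldt n / n with hS
  have hlogpos : ∀ n : ℕ, 2 ≤ n → Real.log 2 ≤ Real.log n := fun n hn =>
    Real.log_le_log (by norm_num) (by exact_mod_cast hn)
  have hly : 0 < Real.log y := hl2.trans_le (hlogpos y hy)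
  have hSd : ∀ z : ℕ, y ≤ z → S z - S y ≤ Real.log z - Real.log y + 2 * C := by
    intro z hz
    have h1 := abs_le.mp (hM z (by omega))
    have h2 := abs_le.mp (hM y (by omega))
    change S z - S y ≤ _
    have h3 : S z - Real.log z ≤ C := h1.2
    have h4 : -C ≤ S y - Real.log y := h2.1
    linarith
  have key : ∀ z : ℕ, y ≤ z →
      ∑ n ∈ Finset.Ioc y z, ArithmeticFunction.vonMangoldt n / n / Real.log n -
        (S z - S y) / Real.log z ≤
      (Real.log (Real.log z) - Real.log (Real.log y)) +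
        2 * C * (1 / Real.log y - 1 / Real.log z) := by
    intro z hz
    induction z, hz using Nat.le_induction with
    | base => simp
    | succ z hz ih =>
      have hz2 : 2 ≤ z := by omega
      have hlz : 0 < Real.log z := hl2.trans_le (hlogpos z hz2)
      have hlz1 : 0 < Real.log ((z + 1 : ℕ) : ℝ) := hl2.trans_le (hlogpos (z+1) (by omega))
      have hmono : Real.log z ≤ Real.log ((z + 1 : ℕ) : ℝ) :=
        Real.log_le_log (by exact_mod_cast (by omega : 0 < z)) (by push_cast; linarith)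
      have hstep : S (z + 1) = S z + ArithmeticFunction.vonMangoldt (z + 1) / ((z + 1 : ℕ) : ℝ) := by
        simp only [hS]
        rw [Finset.sum_Icc_succ_top (by omega)]
      rw [Finset.sum_Ioc_succ_top (by omega), hstep]
      have hinv : 1 / Real.log ((z + 1 : ℕ) : ℝ) ≤ 1 / Real.log z :=
        one_div_le_one_div_of_le hlz hmono
      have e1 : ∑ n ∈ Finset.Ioc y z, ArithmeticFunction.vonMangoldt n / n / Real.log n +
          ArithmeticFunction.vonMangoldt (z + 1) / ((z + 1 : ℕ) : ℝ) / Real.log ((z + 1 : ℕ) : ℝ) -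
          (S z + ArithmeticFunction.vonMangoldt (z + 1) / ((z + 1 : ℕ) : ℝ) - S y) /
            Real.log ((z + 1 : ℕ) : ℝ) =
          (∑ n ∈ Finset.Ioc y z, ArithmeticFunction.vonMangoldt n / n / Real.log n -
            (S z - S y) / Real.log z) +
          (S z - S y) * (1 / Real.log z - 1 / Real.log ((z + 1 : ℕ) : ℝ)) := by
        ring
      rw [e1]
      have hd : (S z - S y) * (1 / Real.log z - 1 / Real.log ((z + 1 : ℕ) : ℝ)) ≤
          (Real.log z + 2 * C) * (1 / Real.log z - 1 / Real.log ((z + 1 : ℕ) : ℝ)) := by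
        refine mul_le_mul_of_nonneg_right ?_ (by linarith)
        have := hSd z hz
        linarith
      have hll : Real.log z * (1 / Real.log z - 1 / Real.log ((z + 1 : ℕ) : ℝ)) ≤
          Real.log (Real.log ((z + 1 : ℕ) : ℝ)) - Real.log (Real.log z) := by
        have h1 : Real.log (Real.log z / Real.log ((z + 1 : ℕ) : ℝ)) ≤
            Real.log z / Real.log ((z + 1 : ℕ) : ℝ) - 1 :=
          Real.log_le_sub_one_of_pos (by positivity)
        rw [Real.log_div hlz.ne' hlz1.ne'] at h1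
        have h2 : Real.log z * (1 / Real.log z - 1 / Real.log ((z + 1 : ℕ) : ℝ)) =
            1 - Real.log z / Real.log ((z + 1 : ℕ) : ℝ) := by
          field_simp
        linarith
      nlinarith [ih, hd, hll]
  intro z hz
  have hlz : 0 < Real.log z := hl2.trans_le (hlogpos z (by omega))
  have h1 := key z hz
  have h2 : (S z - S y) / Real.log z ≤ 1 + 2 * C / Real.log z := by
    rw [div_le_iff₀ hlz]
    have := hSd z hz
    have e : (1 + 2 * C / Real.log z) * Real.log z = Real.log z + 2 * C := by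
      field_simp
    rw [e]
    linarith
  have h3 : 2 * C / Real.log z ≤ 2 * C / Real.log 2 :=
    div_le_div_of_nonneg_left (by positivity) hl2 (hlogpos z (by omega))
  have h4 : 2 * C * (1 / Real.log y - 1 / Real.log z) ≤ 2 * C / Real.log 2 := by
    have h5 : 1 / Real.log y ≤ 1 / Real.log 2 :=
      one_div_le_one_div_of_le hl2 (hlogpos y hy)
    have h6 : 0 ≤ 1 / Real.log z := by positivity
    calc 2 * C * (1 / Real.log y - 1 / Real.log z) ≤ 2 * C * (1 / Real.log 2) := by
          refine mul_le_mul_of_nonneg_left (by linarith) (by positivity)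
      _ = _ := by ring
  rw [Real.log_div hlz.ne' hly.ne']
  have h7 : 4 * C / Real.log 2 = 2 * C / Real.log 2 + 2 * C / Real.log 2 := by ring
  linarith

lemma sum_inv_mul_pred_le (y z : ℕ) (hy : 1 ≤ y) :
    ∑ n ∈ Finset.Ioc y z, (1:ℝ) / (n * (n - 1)) ≤ 1 := by
  rcases Nat.lt_or_ge z y with h | h
  · rw [Finset.Ioc_eq_empty (by omega)]; simp
  have hy' : (1:ℝ) ≤ y := by exact_mod_cast hy
  have : ∑ n ∈ Finset.Ioc y z, (1:ℝ) / (n * (n - 1)) = 1 / y - 1 / z := by
    induction z, h using Nat.le_induction with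
    | base => simp
    | succ z hz ih =>
      rw [Finset.sum_Ioc_succ_top (by omega), ih]
      have hz' : (1:ℝ) ≤ z := by exact_mod_cast (by omega : 1 ≤ z)
      push_cast
      have : (z:ℝ) ≠ 0 := by positivity
      have : (z:ℝ) + 1 ≠ 0 := by positivity
      have : (z:ℝ) + 1 - 1 = z := by ring
      rw [this]
      field_simp
      ring
  rw [this]
  have h1 : 1 / (y:ℝ) ≤ 1 := by
    rw [div_le_one (by linarith)]
    exact hy'
  have h2 : (0:ℝ) ≤ 1 / z := by positivity
  linarith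

end B1aux

open B1aux

/-- B1c: `prod_{y < p <= z} (1-1/p)^(-1) <= C log z / log y`. -/
theorem th_ratio : ∃ C : ℝ, 1 ≤ C ∧ ∀ y z : ℕ, 2 ≤ y → y ≤ z →
    (th y z)⁻¹ ≤ C * (Real.log z / Real.log y) := by
  obtain ⟨C, hC, hM⟩ := mertens_two_upper
  refine ⟨Real.exp (C + 1), Real.one_le_exp (by linarith), fun y z hy hyz => ?_⟩
  have hl2 : (0:ℝ) < Real.log 2 := Real.log_pos (by norm_num)
  have hlogpos : ∀ n : ℕ, 2 ≤ n → Real.log 2 ≤ Real.log n := fun n hn =>
    Real.log_le_log (by norm_num) (by exact_mod_cast hn)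
  have hly : 0 < Real.log y := hl2.trans_le (hlogpos y hy)
  have hlz : 0 < Real.log z := hl2.trans_le (hlogpos z (by omega))
  set T := (PPy z).filter (fun p => y < p) with hT
  have hTp : ∀ p ∈ T, p.Prime ∧ y < p ∧ p ≤ z := by
    intro p hp
    rw [hT, Finset.mem_filter, mem_PPy] at hp
    exact ⟨hp.1.2, hp.2, hp.1.1⟩
  have hsub : T ⊆ Finset.Ioc y z := by
    intro p hp
    rw [Finset.mem_Ioc]
    exact ⟨(hTp p hp).2.1, (hTp p hp).2.2⟩
  have h1 : (th y z)⁻¹ ≤ Real.exp (∑ p ∈ T, (1 / (p:ℝ) + 1 / (p * (p - 1)))) := by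
    rw [Real.exp_sum]
    unfold th
    rw [← Finset.prod_inv_distrib]
    refine Finset.prod_le_prod
      (fun p hp => (inv_pos.mpr (one_sub_inv_pos (hTp p hp).1)).le) (fun p hp => ?_)
    have h2 : (2:ℝ) ≤ p := by exact_mod_cast (hTp p hp).1.two_le
    have e : (1 - 1 / (p:ℝ))⁻¹ = (1 / (p:ℝ) + 1 / (p * (p - 1))) + 1 := by
      have a : (p:ℝ) ≠ 0 := by linarith
      have b : (p:ℝ) - 1 ≠ 0 := by linarith
      have c : 1 - 1 / (p:ℝ) = (p - 1) / p := by field_simp
      rw [c, inv_div]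
      field_simp
      ring
    rw [e]
    exact Real.add_one_le_exp _
  refine h1.trans ?_
  have h2 : ∑ p ∈ T, (1 / (p:ℝ) + 1 / (p * (p - 1))) ≤
      Real.log (Real.log z / Real.log y) + (C + 1) := by
    rw [Finset.sum_add_distrib]
    have a1 : ∑ p ∈ T, 1 / (p:ℝ) ≤ Real.log (Real.log z / Real.log y) + C := by
      refine le_trans ?_ (hM y hy z hyz)
      have : ∑ p ∈ T, 1 / (p:ℝ) =
          ∑ p ∈ T, ArithmeticFunction.vonMangoldt p / p / Real.log p := by
        refine Finset.sum_congr rfl fun p hp => ?_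
        rw [ArithmeticFunction.vonMangoldt_apply_prime (hTp p hp).1]
        have : Real.log p ≠ 0 := (hl2.trans_le (hlogpos p (hTp p hp).1.two_le)).ne'
        field_simp
      rw [this]
      refine Finset.sum_le_sum_of_subset_of_nonneg hsub fun n hn _ => ?_
      rw [Finset.mem_Ioc] at hn
      have : 0 < Real.log n := hl2.trans_le (hlogpos n (by omega))
      have h3 := @ArithmeticFunction.vonMangoldt_nonneg n
      positivity
    have a2 : ∑ p ∈ T, (1:ℝ) / (p * (p - 1)) ≤ 1 := by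
      refine le_trans ?_ (sum_inv_mul_pred_le y z (by omega))
      refine Finset.sum_le_sum_of_subset_of_nonneg hsub fun n hn _ => ?_
      rw [Finset.mem_Ioc] at hn
      have : (2:ℝ) ≤ n := by exact_mod_cast (by omega : 2 ≤ n)
      apply div_nonneg (by norm_num)
      apply mul_nonneg <;> linarith
    linarith
  refine (Real.exp_le_exp.mpr h2).trans ?_
  rw [Real.exp_add, Real.exp_log (by positivity), mul_comm]

/-- B1b: `prod_{w < p <= z} (1-1/p)^(-1) <= C log z`. -/
theorem th_lower : ∃ C : ℝ, 1 ≤ C ∧ ∀ w z : ℕ, 2 ≤ z → (th w z)⁻¹ ≤ C * Real.log z := by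
  obtain ⟨C, hC, hR⟩ := th_ratio
  have hl2 : (0:ℝ) < Real.log 2 := Real.log_pos (by norm_num)
  have hl2' : Real.log 2 ≤ 1 := by
    have := Real.log_le_sub_one_of_pos (by norm_num : (0:ℝ) < 2)
    linarith
  have hC2 : 1 ≤ 2 * (C / Real.log 2) := by
    have : 1 ≤ C / Real.log 2 := by
      rw [le_div_iff₀ hl2]
      linarith
    linarith
  refine ⟨2 * (C / Real.log 2), hC2, fun w z hz => ?_⟩
  have h1 : (th w z)⁻¹ ≤ ∏ p ∈ PPy z, (1 - 1 / (p:ℝ))⁻¹ := by
    unfold th
    rw [← Finset.prod_inv_distrib]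
    refine Finset.prod_le_prod_of_subset_of_one_le (Finset.filter_subset _ _) ?_ ?_
    · intro p hp
      exact (inv_pos.mpr (one_sub_inv_pos (PPy_prime z p (Finset.mem_filter.mp hp).1))).le
    · intro p hp _
      exact (one_le_inv₀ (one_sub_inv_pos (PPy_prime z p hp))).mpr (one_sub_inv_le_one p)
  refine h1.trans ?_
  have h2 : ∏ p ∈ PPy z, (1 - 1 / (p:ℝ))⁻¹ = 2 * (th 2 z)⁻¹ := by
    unfold th
    rw [← Finset.prod_inv_distrib, ← Finset.prod_filter_mul_prod_filter_not (PPy z) (fun p => 2 < p),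
      mul_comm]
    congr 1
    have : (PPy z).filter (fun p => ¬ 2 < p) = {2} := by
      ext p
      rw [Finset.mem_filter, mem_PPy, Finset.mem_singleton]
      constructor
      · rintro ⟨⟨_, hp⟩, h⟩
        have := hp.two_le
        omega
      · rintro rfl
        exact ⟨⟨hz, Nat.prime_two⟩, by omega⟩
    rw [this, Finset.prod_singleton]
    norm_num
  rw [h2]
  have h3 := hR 2 z le_rfl hz
  push_cast at h3
  calc 2 * (th 2 z)⁻¹ ≤ 2 * (C * (Real.log z / Real.log 2)) := by linarith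
    _ = 2 * (C / Real.log 2) * Real.log z := by ring

end Pool.Agent.HLT
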