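import Mathlib
import Pool.Agent.HLT.NDefs
import Pool.Agent.HL26.AP
import Pool.Agent.Lib.ANT.SW
import Pool.Agent.Lib.Maynard.Theta

set_option autoImplicit false

open Finset Filter

namespace Pool.Agent.HLT

open Pool.Agent.HL26 Pool.Agent.Maynard

namespace B5aux

lemma B5_Wp_pos (w : ℕ) : 0 < Wp w :=
  Finset.prod_pos fun p hp => (PPy_prime w p hp).pos

/-- the prime number theorem in a progression to a fixed modulus, for `θ` -/
lemma B5_thAP_bound (q : ℕ) (hq : 0 < q) : ∃ C : ℝ, 0 < C ∧ ∀ a y : ℕ, a.Coprime q → 3 ≤ y →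
    |thAP y q a - (y:ℝ) / q.totient| ≤ C * y / Real.log y ^ 2 := by
  obtain ⟨C, hC, h⟩ := Pool.Agent.ANT.theta_ap 2 (ε := 1) one_pos
  have : NeZero q := ⟨hq.ne'⟩
  refine ⟨C * q, by positivity, fun a y ha hy => ?_⟩
  have h1 := h q (a : ZMod q) ((ZMod.isUnit_iff_coprime a q).2 ha) y (by exact_mod_cast hy)
  rw [Nat.floor_natCast, Real.rpow_one] at h1
  have e : thAP y q a = ∑ p ∈ (Finset.Icc 1 y).filter (fun p : ℕ => p.Prime ∧ (p : ZMod q) = a),
      Real.log p := by
    unfold thAP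
    refine Finset.sum_congr ?_ fun _ _ => rfl
    refine Finset.filter_congr fun p _ => ?_
    rw [ZMod.natCast_eq_natCast_iff]
  rw [e]
  exact h1

end B5aux

open B5aux

/-- B5 -/
theorem primes_class (w : ℕ) (hw : 2 ≤ w) (κ : ℝ) (hκ : 0 < κ) (A : ℕ) : ∀ᶠ N : ℕ in atTop,
    ∀ a d : ℕ, (d : ℝ) ≤ (Real.log N) ^ A → (a + d).Coprime (Wp w) →
      |(((XS N w a).filter (fun n => (n + d).Prime)).card : ℝ) -
        ((N:ℝ) / Wp w) / (cW (Wp w) * Real.log N)| ≤
        κ * (((N:ℝ) / Wp w) / (cW (Wp w) * Real.log N)) := by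
  have hW := B5_Wp_pos w
  set W := Wp w with hWdef
  obtain ⟨C, hC, hth⟩ := B5_thAP_bound W hW
  have hφ : 0 < W.totient := Nat.totient_pos.2 hW
  have hφ' : (0:ℝ) < (W.totient : ℝ) := by exact_mod_cast hφ
  have hW' : (0:ℝ) < (W:ℝ) := by exact_mod_cast hW
  have hlogN : Tendsto (fun N : ℕ => Real.log (N:ℝ)) atTop atTop :=
    Real.tendsto_log_atTop.comp tendsto_natCast_atTop_atTop
  have hpowN : ∀ᶠ N : ℕ in atTop, (Real.log (N:ℝ)) ^ A ≤ 1 * (N:ℝ) :=
    tendsto_natCast_atTop_atTop.eventually (ev_pow_le A 1 one_pos)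
  filter_upwards [eventually_ge_atTop 3, hlogN.eventually_ge_atTop 1,
    hlogN.eventually_ge_atTop (12 * C * W.totient / κ), hlogN.eventually_ge_atTop (2 * Real.log 3 / κ),
    hpowN] with N hN3 hL1 hLC hL3 hNA
  intro a d hd hcop
  set L := Real.log (N:ℝ) with hL
  have hN0 : (0:ℝ) < (N:ℝ) := by
    have : 0 < N := by omega
    exact_mod_cast this
  have hdN : (d:ℝ) ≤ N := by linarith
  have hdN' : d ≤ N := by exact_mod_cast hdN
  have hlog3 : 0 < Real.log 3 := Real.log_pos (by norm_num)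
  have hL0 : 0 < L := by linarith
  -- the weighted sum
  have hS := sum_tht_eq N d W a
  have h1 := hth (a + d) (2 * N + d) hcop (by omega)
  have h2 := hth (a + d) (N + d) hcop (by omega)
  have hbd : ∀ y : ℕ, N ≤ y → (y:ℝ) ≤ 3 * N → C * y / Real.log y ^ 2 ≤ 3 * C * N / L ^ 2 := by
    intro y hy hy3
    have hlog : L ≤ Real.log y := Real.log_le_log hN0 (by exact_mod_cast hy)
    have hn : C * (y:ℝ) ≤ 3 * C * N := by nlinarith
    calc C * (y:ℝ) / Real.log y ^ 2 ≤ 3 * C * N / Real.log y ^ 2 := by gcongr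
      _ ≤ 3 * C * N / L ^ 2 := by gcongr
  have h1' := h1.trans (hbd (2 * N + d) (by omega) (by push_cast; linarith))
  have h2' := h2.trans (hbd (N + d) (by omega) (by push_cast; linarith))
  set S := ∑ n ∈ (Finset.Ioc N (2 * N)).filter (fun n => n ≡ a [MOD W]), tht (n + d) with hSdef
  set T := ((N:ℝ) / W) / (cW W * L) with hT
  have hT' : T = (N:ℝ) / W.totient / L := by
    rw [hT]; unfold cW; field_simp
  have hT0 : 0 < T := by rw [hT']; positivity
  have hSb : |S - (N:ℝ) / W.totient| ≤ 6 * C * N / L ^ 2 := by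
    have e : S - (N:ℝ) / W.totient =
        (thAP (2 * N + d) W (a + d) - ((2 * N + d : ℕ) : ℝ) / W.totient) -
          (thAP (N + d) W (a + d) - ((N + d : ℕ) : ℝ) / W.totient) := by
      rw [hS]; push_cast; ring
    rw [e]
    refine (abs_sub _ _).trans ((add_le_add h1' h2').trans (le_of_eq ?_))
    ring
  set P : ℝ := (((XS N w a).filter (fun n => (n + d).Prime)).card : ℝ) with hP
  have hP0 : 0 ≤ P := Nat.cast_nonneg _
  have hSP : S = ∑ n ∈ (XS N w a).filter (fun n => (n + d).Prime), Real.log ((n + d : ℕ) : ℝ) := by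
    rw [hSdef, Finset.sum_filter (s := XS N w a)]
    rfl
  have hup : S ≤ P * (L + Real.log 3) := by
    rw [hSP, hP, ← nsmul_eq_mul, ← Finset.sum_const]
    refine Finset.sum_le_sum fun n hn => ?_
    have hn2 := (Finset.mem_Ioc.1 (Finset.mem_filter.1 (Finset.mem_filter.1 hn).1).1)
    rw [hL, ← Real.log_mul hN0.ne' (by norm_num)]
    apply Real.log_le_log
    · have : 0 < n + d := by omega
      exact_mod_cast this
    · have : n + d ≤ N * 3 := by omega
      exact_mod_cast this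
  have hlo : P * L ≤ S := by
    rw [hSP, hP, ← nsmul_eq_mul, ← Finset.sum_const]
    refine Finset.sum_le_sum fun n hn => ?_
    have hn2 := (Finset.mem_Ioc.1 (Finset.mem_filter.1 (Finset.mem_filter.1 hn).1).1)
    apply Real.log_le_log hN0
    have : N ≤ n + d := by omega
    exact_mod_cast this
  -- conclusion
  have hδ : 6 * C * N / L ^ 2 ≤ (κ / 2) * (N / W.totient) := by
    have h3 : 12 * C * W.totient ≤ κ * L := by
      rw [div_le_iff₀ hκ] at hLC
      linarith
    rw [mul_div_assoc', div_le_div_iff₀ (by positivity) (by positivity)]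
    have h4 : L ≤ L ^ 2 := by nlinarith
    have h5 : 12 * C * W.totient ≤ κ * L ^ 2 := by nlinarith [mul_pos hκ hL0]
    have h6 := mul_le_mul_of_nonneg_right h5 hN0.le
    nlinarith [h6]
  have hTL : T * L = N / W.totient := by rw [hT']; field_simp
  rw [abs_le] at hSb ⊢
  constructor
  · have h3 : 2 * Real.log 3 ≤ κ * L := by
      rw [div_le_iff₀ hκ] at hL3
      linarith
    by_contra hcon
    push Not at hcon
    have h6 : P < (1 - κ) * T := by linarith
    have h7 : P * (L + Real.log 3) < (1 - κ) * T * (L + Real.log 3) :=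
      mul_lt_mul_of_pos_right h6 (by linarith)
    have h8 : (1 - κ / 2) * (T * L) ≤ S := by rw [hTL]; nlinarith [hSb.1]
    have h10 : T * ((1 - κ) * (L + Real.log 3)) ≤ T * ((1 - κ / 2) * L) := by
      apply mul_le_mul_of_nonneg_left _ hT0.le
      nlinarith [mul_pos hκ hlog3]
    nlinarith
  · by_contra hcon
    push Not at hcon
    have h6 : (1 + κ) * T < P := by linarith
    have h7 : (1 + κ) * T * L < P * L := mul_lt_mul_of_pos_right h6 hL0
    have h8 : S ≤ (1 + κ / 2) * (T * L) := by rw [hTL]; nlinarith [hSb.2]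
    nlinarith [mul_pos (mul_pos hκ hT0) hL0]

/-- size of the class -/
theorem card_XS (w N a : ℕ) : |((XS N w a).card : ℝ) - (N:ℝ) / Wp w| ≤ 1 := by
  have hW := B5_Wp_pos w
  have h := Nat.Ioc_filter_modEq_card N (2 * N) hW a
  have hWq : (0:ℚ) < (Wp w : ℚ) := by exact_mod_cast hW
  have e1 : ((XS N w a).card : ℤ) =
      max (⌊(((2 * N : ℕ) : ℚ) - a) / (Wp w : ℚ)⌋ - ⌊((N : ℚ) - a) / (Wp w : ℚ)⌋) 0 := h
  have e2 : (((2 * N : ℕ) : ℚ) - a) / (Wp w : ℚ) = ((N : ℚ) - a) / (Wp w : ℚ) + (N:ℚ) / Wp w := by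
    push_cast; field_simp; ring
  set u : ℚ := ((N : ℚ) - a) / (Wp w : ℚ) with hu
  set t : ℚ := (N:ℚ) / Wp w with ht
  have ht0 : 0 ≤ t := by positivity
  have h1 := Int.floor_le u
  have h2 := Int.lt_floor_add_one u
  have h3 := Int.floor_le (u + t)
  have h4 := Int.lt_floor_add_one (u + t)
  have h5 : ⌊u⌋ ≤ ⌊u + t⌋ := Int.floor_le_floor (by linarith)
  have e3 : ((XS N w a).card : ℤ) = ⌊u + t⌋ - ⌊u⌋ := by
    rw [e1, e2, max_eq_left (by omega)]
  have e4 : ((XS N w a).card : ℚ) = (⌊u + t⌋ : ℚ) - (⌊u⌋ : ℚ) := by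
    have := congrArg (fun z : ℤ => (z : ℚ)) e3
    push_cast at this
    exact this
  have h6 : |((XS N w a).card : ℚ) - t| ≤ 1 := by
    rw [e4, abs_le]
    constructor <;> linarith
  have h7 : (((|((XS N w a).card : ℚ) - t| : ℚ) : ℝ)) ≤ ((1 : ℚ) : ℝ) := by exact_mod_cast h6
  rw [ht] at h7
  push_cast at h7
  exact h7

end Pool.Agent.HLT
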