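import Mathlib
import Pool.Agent.HLT.NDefs
import Pool.Agent.Lib.ANT.DivBound

set_option autoImplicit false

open Finset Filter

namespace Pool.Agent.HLT

open Pool.Agent.HL26 Pool.Agent.Maynard

theorem one_le_pp (w h : ℕ) : 1 ≤ pp w h := by
  unfold pp
  refine Finset.one_le_prod fun p hp => ?_
  have hp' : p.Prime := Nat.prime_of_mem_primeFactors (Finset.mem_filter.mp hp).1
  have h2 : (2:ℝ) ≤ p := by exact_mod_cast hp'.two_le
  rw [le_div_iff₀ (by linarith)]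
  linarith

namespace B6aux

lemma Wp_pos (w : ℕ) : 0 < Wp w := Finset.prod_pos fun p hp => (PPy_prime w p hp).pos

/-- number of `d ≤ H` in a class -/
lemma card_class (H M a : ℕ) (hM : 0 < M) :
    ((H + 1) / M : ℕ) ≤ ((Finset.range (H + 1)).filter (fun d => d ≡ a [MOD M])).card ∧
    ((Finset.range (H + 1)).filter (fun d => d ≡ a [MOD M])).card ≤ H / M + 1 := by
  constructor
  · rw [← Nat.count_eq_card_filter_range, Nat.count_modEq_card _ hM]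
    exact Nat.le_add_right _ _
  · have : ((Finset.range (H + 1)).filter (fun d => d ≡ a [MOD M])).card ≤
        (Finset.range (H / M + 1)).card := by
      refine Finset.card_le_card_of_injOn (fun d => d / M) ?_ ?_
      · intro d hd
        have hd' := (Finset.mem_filter.mp (Finset.mem_coe.mp hd)).1
        rw [Finset.mem_range] at hd'
        simp only [Finset.coe_range, Set.mem_Iio]
        have : d / M ≤ H / M := Nat.div_le_div_right (by omega)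
        omega
      · intro d hd e he hde
        have hd' := (Finset.mem_filter.mp (Finset.mem_coe.mp hd)).2
        have he' := (Finset.mem_filter.mp (Finset.mem_coe.mp he)).2
        have h1 : d % M = e % M := (hd'.trans he'.symm)
        have h2 := Nat.div_add_mod d M
        have h3 := Nat.div_add_mod e M
        simp only at hde
        rw [← h2, ← h3, hde, h1]
    simpa using this

end B6aux

open B6aux in
/-- sizes -/
theorem card_VS (w H : ℕ) (ρ : Finset ℕ) (hρ : ∀ r ∈ ρ, r < Wp w) (hH : 2 * Wp w ≤ H) :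
    (ρ.card : ℝ) * ((H:ℝ) / (2 * Wp w)) ≤ ((VS w H ρ).card : ℝ) ∧
      ((VS w H ρ).card : ℝ) ≤ (ρ.card : ℝ) * (2 * (H:ℝ) / Wp w) := by
  have hW := Wp_pos w
  have hWR : (0:ℝ) < Wp w := by exact_mod_cast hW
  have hHR : 2 * (Wp w : ℝ) ≤ H := by exact_mod_cast hH
  have hmaps : Set.MapsTo (fun d => d % Wp w) (VS w H ρ : Set ℕ) (ρ : Set ℕ) := by
    intro d hd
    exact (Finset.mem_filter.mp (Finset.mem_coe.mp hd)).2
  have hcard := Finset.card_eq_sum_card_fiberwise hmaps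
  have hfib : ∀ r ∈ ρ, ((VS w H ρ).filter (fun d => d % Wp w = r)) =
      (Finset.range (H + 1)).filter (fun d => d ≡ r [MOD Wp w]) := by
    intro r hr
    have hrr : r % Wp w = r := Nat.mod_eq_of_lt (hρ r hr)
    ext d
    constructor
    · intro h
      have h1 := Finset.mem_filter.mp h
      have h2 := Finset.mem_filter.mp h1.1
      refine Finset.mem_filter.mpr ⟨h2.1, ?_⟩
      have h3 : d % Wp w = r := h1.2
      show d % Wp w = r % Wp w
      rw [hrr]; exact h3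
    · intro h
      have h1 := Finset.mem_filter.mp h
      have h3 : d % Wp w = r % Wp w := h1.2
      rw [hrr] at h3
      refine Finset.mem_filter.mpr ⟨Finset.mem_filter.mpr ⟨h1.1, ?_⟩, h3⟩
      rw [h3]; exact hr
  have hcardR : ((VS w H ρ).card : ℝ) = ∑ r ∈ ρ,
      (((Finset.range (H + 1)).filter (fun d => d ≡ r [MOD Wp w])).card : ℝ) := by
    rw [hcard]
    push_cast
    exact Finset.sum_congr rfl fun r hr => by rw [hfib r hr]
  rw [hcardR]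
  constructor
  · rw [← nsmul_eq_mul]
    refine Finset.card_nsmul_le_sum _ _ _ fun r _ => ?_
    refine le_trans ?_ (Nat.cast_le.mpr (card_class H (Wp w) r hW).1)
    have h1 : ((H + 1 : ℕ) : ℝ) < (Wp w : ℝ) * (((H + 1) / Wp w : ℕ) + 1) := by
      have := Nat.lt_mul_div_succ (H + 1) hW
      exact_mod_cast this
    push_cast at h1
    have h2 : (H:ℝ) / Wp w < (((H + 1) / Wp w : ℕ) : ℝ) + 1 := by
      rw [div_lt_iff₀ hWR]
      linarith
    have h3 : (H:ℝ) / (2 * Wp w) = (H:ℝ) / Wp w / 2 := by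
      field_simp
    have h4 : 2 ≤ (H:ℝ) / Wp w := by
      rw [le_div_iff₀ hWR]; exact hHR
    rw [h3]
    linarith
  · rw [← nsmul_eq_mul]
    refine Finset.sum_le_card_nsmul _ _ _ fun r _ => ?_
    refine le_trans (Nat.cast_le.mpr (card_class H (Wp w) r hW).2) ?_
    push_cast
    have h1 : ((H / Wp w : ℕ) : ℝ) ≤ (H:ℝ) / Wp w := Nat.cast_div_le
    have h4 : 2 ≤ (H:ℝ) / Wp w := by
      rw [le_div_iff₀ hWR]; exact hHR
    have h3 : 2 * (H:ℝ) / Wp w = 2 * ((H:ℝ) / Wp w) := by ring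
    rw [h3]
    linarith

namespace B6aux

/-- `(p/(p-1))^J - 1 ≤ 2^(J+1)/p` -/
lemma b_le (J p : ℕ) (hp : p.Prime) :
    0 ≤ ((p:ℝ) / ((p:ℝ) - 1)) ^ J - 1 ∧ ((p:ℝ) / ((p:ℝ) - 1)) ^ J - 1 ≤ (2:ℝ) ^ (J + 1) / p := by
  have h2 : (2:ℝ) ≤ p := by exact_mod_cast hp.two_le
  have hp1 : (0:ℝ) < (p:ℝ) - 1 := by linarith
  have hp0 : (0:ℝ) < p := by linarith
  have hr1 : 1 ≤ (p:ℝ) / ((p:ℝ) - 1) := by rw [le_div_iff₀ hp1]; linarith
  have hr2 : (p:ℝ) / ((p:ℝ) - 1) ≤ 2 := by rw [div_le_iff₀ hp1]; linarith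
  have hr3 : (p:ℝ) / ((p:ℝ) - 1) - 1 ≤ 2 / p := by
    rw [div_sub_one (by linarith), div_le_div_iff₀ hp1 hp0]
    nlinarith
  constructor
  · have := one_le_pow₀ (n := J) hr1
    linarith
  · have key : ∀ j : ℕ, ((p:ℝ) / ((p:ℝ) - 1)) ^ j - 1 ≤ ((2:ℝ) ^ j - 1) * (2 / p) := by
      intro j
      induction j with
      | zero => simp
      | succ j ih =>
        have e : ((p:ℝ) / ((p:ℝ) - 1)) ^ (j + 1) - 1 =
            (((p:ℝ) / ((p:ℝ) - 1)) ^ j - 1) * ((p:ℝ) / ((p:ℝ) - 1)) +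
              ((p:ℝ) / ((p:ℝ) - 1) - 1) := by ring
        rw [e]
        have h0 : 0 ≤ ((p:ℝ) / ((p:ℝ) - 1)) ^ j - 1 := by
          have := one_le_pow₀ (n := j) hr1
          linarith
        have h1 : (((p:ℝ) / ((p:ℝ) - 1)) ^ j - 1) * ((p:ℝ) / ((p:ℝ) - 1)) ≤
            (((p:ℝ) / ((p:ℝ) - 1)) ^ j - 1) * 2 := mul_le_mul_of_nonneg_left hr2 h0
        have h3 : ((2:ℝ) ^ (j + 1) - 1) * (2 / p) = ((2:ℝ) ^ j - 1) * (2 / p) * 2 + 2 / p := by
          rw [pow_succ]; ring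
        rw [h3]
        linarith
    refine (key J).trans ?_
    have : (0:ℝ) < 2 / p := by positivity
    have e2 : (2:ℝ) ^ (J + 1) / p = (2:ℝ) ^ J * (2 / p) := by rw [pow_succ]; ring
    rw [e2]
    nlinarith

/-- pointwise bound -/
lemma pp_pow_le (J : ℕ) {C : ℝ} (hC1 : 1 ≤ C)
    (hC : ∀ n : ℕ, n ≠ 0 → ((2:ℝ) ^ (J + 1)) ^ n.primeFactors.card ≤ C * (n:ℝ) ^ (1/4:ℝ))
    (w h H : ℕ) (hh : h ≠ 0) (hhH : h ≤ H) :
    pp w h ^ J - 1 ≤ ∑ q ∈ (Finset.range (H + 1)).filter (fun q => w < q ∧ q.Coprime (Wp w)),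
      (if q ∣ h then C * (q:ℝ) ^ (-(3/4):ℝ) else 0) := by
  classical
  set S := h.primeFactors.filter (fun p => w < p) with hS
  have hSp : ∀ p ∈ S, p.Prime := fun p hp =>
    Nat.prime_of_mem_primeFactors (Finset.mem_filter.mp hp).1
  have hSw : ∀ p ∈ S, w < p := fun p hp => (Finset.mem_filter.mp hp).2
  have e1 : pp w h ^ J = ∏ p ∈ S, (1 + (((p:ℝ) / ((p:ℝ) - 1)) ^ J - 1)) := by
    unfold pp
    rw [← Finset.prod_pow]
    refine Finset.prod_congr rfl fun p _ => by ring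
  rw [e1, Finset.prod_one_add]
  have e2 : ∑ t ∈ S.powerset, ∏ p ∈ t, (((p:ℝ) / ((p:ℝ) - 1)) ^ J - 1) - 1 =
      ∑ t ∈ S.powerset.erase ∅, ∏ p ∈ t, (((p:ℝ) / ((p:ℝ) - 1)) ^ J - 1) := by
    rw [← Finset.sum_erase_add _ _ (Finset.empty_mem_powerset S), Finset.prod_empty]
    ring
  rw [e2]
  have hterm : ∀ t ∈ S.powerset.erase ∅, ∏ p ∈ t, (((p:ℝ) / ((p:ℝ) - 1)) ^ J - 1) ≤
      C * (((∏ p ∈ t, p : ℕ)) : ℝ) ^ (-(3/4):ℝ) := by
    intro t ht
    have htS : t ⊆ S := Finset.mem_powerset.mp (Finset.mem_erase.mp ht).2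
    have htp : ∀ p ∈ t, p.Prime := fun p hp => hSp p (htS hp)
    have hq0 : (∏ p ∈ t, p : ℕ) ≠ 0 := (Finset.prod_pos fun p hp => (htp p hp).pos).ne'
    have hqR : (0:ℝ) < ((∏ p ∈ t, p : ℕ) : ℝ) := by
      exact_mod_cast Finset.prod_pos fun p hp => (htp p hp).pos
    calc ∏ p ∈ t, (((p:ℝ) / ((p:ℝ) - 1)) ^ J - 1) ≤ ∏ p ∈ t, ((2:ℝ) ^ (J + 1) / p) :=
          Finset.prod_le_prod (fun p hp => (b_le J p (htp p hp)).1)
            (fun p hp => (b_le J p (htp p hp)).2)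
      _ = ((2:ℝ) ^ (J + 1)) ^ t.card / ((∏ p ∈ t, p : ℕ) : ℝ) := by
          rw [Finset.prod_div_distrib, Finset.prod_const]
          push_cast
          rfl
      _ ≤ (C * ((∏ p ∈ t, p : ℕ) : ℝ) ^ (1/4:ℝ)) / ((∏ p ∈ t, p : ℕ) : ℝ) := by
          have := hC _ hq0
          rw [Nat.primeFactors_prod htp] at this
          exact div_le_div_of_nonneg_right this hqR.le
      _ = C * (((∏ p ∈ t, p : ℕ)) : ℝ) ^ (-(3/4):ℝ) := by
          have : (-(3/4):ℝ) = 1/4 - 1 := by norm_num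
          rw [this, Real.rpow_sub_one hqR.ne']
          ring
  refine (Finset.sum_le_sum hterm).trans ?_
  have hinj : Set.InjOn (fun t : Finset ℕ => (∏ p ∈ t, p : ℕ)) (S.powerset.erase ∅ : Set (Finset ℕ)) := by
    intro t ht s hs hts
    have htS : t ⊆ S := Finset.mem_powerset.mp (Finset.mem_erase.mp (Finset.mem_coe.mp ht)).2
    have hsS : s ⊆ S := Finset.mem_powerset.mp (Finset.mem_erase.mp (Finset.mem_coe.mp hs)).2
    have h1 := Nat.primeFactors_prod (fun p hp => hSp p (htS hp))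
    have h2 := Nat.primeFactors_prod (fun p hp => hSp p (hsS hp))
    simp only at hts
    rw [← h1, ← h2, hts]
  rw [← Finset.sum_image (f := fun q : ℕ => C * (q:ℝ) ^ (-(3/4):ℝ)) hinj]
  rw [← Finset.sum_filter]
  refine Finset.sum_le_sum_of_subset_of_nonneg ?_ (fun q _ _ => by positivity)
  intro q hq
  obtain ⟨t, ht, rfl⟩ := Finset.mem_image.mp hq
  have htS : t ⊆ S := Finset.mem_powerset.mp (Finset.mem_erase.mp ht).2
  have hne : t.Nonempty := Finset.nonempty_iff_ne_empty.mpr (Finset.mem_erase.mp ht).1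
  have htp : ∀ p ∈ t, p.Prime := fun p hp => hSp p (htS hp)
  have hdvd : (∏ p ∈ t, p) ∣ h := by
    refine dvd_trans ?_ (Nat.prod_primeFactors_dvd h)
    exact Finset.prod_dvd_prod_of_subset _ _ _ (htS.trans (Finset.filter_subset _ _))
  obtain ⟨p0, hp0⟩ := hne
  have hp0q : p0 ≤ ∏ p ∈ t, p :=
    Nat.le_of_dvd (Finset.prod_pos fun p hp => (htp p hp).pos) (Finset.dvd_prod_of_mem _ hp0)
  simp only [Finset.mem_filter, Finset.mem_range]
  refine ⟨⟨?_, ?_, ?_⟩, hdvd⟩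
  · have := Nat.le_of_dvd (Nat.pos_of_ne_zero hh) hdvd
    omega
  · exact lt_of_lt_of_le (hSw p0 (htS hp0)) hp0q
  · refine Nat.Coprime.prod_left fun p hp => ?_
    refine Nat.Coprime.prod_right fun r hr => ?_
    rw [Nat.coprime_primes (htp p hp) (PPy_prime w r hr)]
    have h1 := hSw p (htS hp)
    have h2 : r < w + 1 := Finset.mem_range.mp (Finset.mem_filter.mp hr).1
    omega

lemma dvd_dist_iff (q d d' : ℕ) : q ∣ Nat.dist d d' ↔ d' ≡ d [MOD q] := by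
  unfold Nat.dist
  rcases le_total d d' with h | h
  · rw [Nat.sub_eq_zero_of_le h, zero_add]
    rw [← Nat.modEq_iff_dvd' h]
    exact ⟨fun h => h.symm, fun h => h.symm⟩
  · rw [Nat.sub_eq_zero_of_le h, add_zero]
    rw [← Nat.modEq_iff_dvd' h]

/-- counting pairs -/
lemma count_le (w H q d : ℕ) (ρ : Finset ℕ) (hq : 0 < q) (hcop : q.Coprime (Wp w)) :
    (((VS w H ρ).filter (fun d' => q ∣ Nat.dist d d')).card : ℝ) ≤
      (ρ.card : ℝ) * ((H:ℝ) / ((Wp w : ℝ) * q) + 1) := by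
  have hW := Wp_pos w
  have hmaps : Set.MapsTo (fun d => d % Wp w)
      (((VS w H ρ).filter (fun d' => q ∣ Nat.dist d d') : Finset ℕ) : Set ℕ) (ρ : Set ℕ) := by
    intro d' hd
    exact (Finset.mem_filter.mp (Finset.mem_filter.mp (Finset.mem_coe.mp hd)).1).2
  have hcard := Finset.card_eq_sum_card_fiberwise hmaps
  rw [hcard]
  push_cast
  rw [← nsmul_eq_mul]
  refine Finset.sum_le_card_nsmul _ _ _ fun r _ => ?_
  obtain ⟨a, ha1, ha2⟩ := Nat.chineseRemainder hcop.symm r d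
  have hsub : ((VS w H ρ).filter (fun d' => q ∣ Nat.dist d d')).filter (fun d' => d' % Wp w = r) ⊆
      (Finset.range (H + 1)).filter (fun d' => d' ≡ a [MOD Wp w * q]) := by
    intro x hx
    simp only [VS, Finset.mem_filter] at hx
    simp only [Finset.mem_filter]
    refine ⟨hx.1.1.1, ?_⟩
    rw [← Nat.modEq_and_modEq_iff_modEq_mul hcop.symm]
    constructor
    · refine Nat.ModEq.trans ?_ ha1.symm
      unfold Nat.ModEq
      rw [hx.2, ← hx.2, Nat.mod_mod]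
    · exact ((dvd_dist_iff q d x).mp hx.1.2).trans ha2.symm
  have h1 := Finset.card_le_card hsub
  have h2 := (card_class H (Wp w * q) a (Nat.mul_pos hW hq)).2
  have h3 : ((H / (Wp w * q) : ℕ) : ℝ) ≤ (H:ℝ) / ((Wp w : ℝ) * q) := by
    have := @Nat.cast_div_le ℝ _ _ _ H (Wp w * q)
    push_cast at this
    exact this
  have h4 : ((((VS w H ρ).filter (fun d' => q ∣ Nat.dist d d')).filter
      (fun d' => d' % Wp w = r)).card : ℝ) ≤ ((H / (Wp w * q) : ℕ) : ℝ) + 1 := by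
    exact_mod_cast h1.trans h2
  linarith

end B6aux

open B6aux in
/-- B6 -/
theorem row_moment (J : ℕ) (κ : ℝ) (hκ : 0 < κ) : ∃ w0 : ℕ, ∀ w : ℕ, w0 ≤ w → ∃ H0 : ℕ,
    ∀ H : ℕ, H0 ≤ H → ∀ ρ : Finset ℕ, ρ.Nonempty → (∀ r ∈ ρ, r < Wp w) → ∀ d : ℕ, d ≤ H →
      ∑ d' ∈ VS w H ρ, (if d' = d then 0 else pp w (Nat.dist d d') ^ J - 1) ≤
        κ * ((VS w H ρ).card : ℝ) := by
  obtain ⟨C, hC1, hC⟩ := Pool.Agent.ANT.pow_omega_le (ε := 1/4) (by norm_num)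
    (c := (2:ℝ) ^ (J + 1)) (one_le_pow₀ (by norm_num))
  have hsum : Summable (fun n : ℕ => (n:ℝ) ^ (-(3/2):ℝ)) :=
    Real.summable_nat_rpow.mpr (by norm_num)
  set T : ℝ := ∑' n : ℕ, (n:ℝ) ^ (-(3/2):ℝ) with hT
  have hT0 : 0 ≤ T := tsum_nonneg fun n => by positivity
  have hTs : ∀ s : Finset ℕ, ∑ n ∈ s, (n:ℝ) ^ (-(3/2):ℝ) ≤ T := fun s =>
    hsum.sum_le_tsum s (fun n _ => by positivity)
  have htend : Tendsto (fun n : ℕ => (n:ℝ) ^ (1/4:ℝ)) atTop atTop :=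
    (tendsto_rpow_atTop (by norm_num)).comp tendsto_natCast_atTop_atTop
  obtain ⟨w0, hw0, hw01⟩ := ((htend.eventually_ge_atTop (4 * C * T / κ)).and
    (eventually_ge_atTop 1)).exists
  refine ⟨w0, fun w hw => ?_⟩
  have hW := Wp_pos w
  have hWR : (0:ℝ) < Wp w := by exact_mod_cast hW
  have hw1 : (1:ℝ) ≤ w := by exact_mod_cast hw01.trans hw
  have hwp : (0:ℝ) < w := by linarith
  have hw4 : 4 * C * T / κ ≤ (w:ℝ) ^ (1/4:ℝ) :=
    hw0.trans (Real.rpow_le_rpow (by positivity) (by exact_mod_cast hw) (by norm_num))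
  obtain ⟨H1, hH1⟩ := (htend.eventually_ge_atTop (4 * C * T * Wp w / κ)).exists_forall_of_atTop
  refine ⟨max H1 (max 1 (2 * Wp w)), fun H hH ρ hρ hρW d hd => ?_⟩
  have hHH1 : H1 ≤ H := le_trans (le_max_left _ _) hH
  have hH1' : 1 ≤ H := le_trans (le_trans (le_max_left _ _) (le_max_right _ _)) hH
  have hH2 : 2 * Wp w ≤ H := le_trans (le_trans (le_max_right _ _) (le_max_right _ _)) hH
  have hHR : (0:ℝ) < H := by exact_mod_cast (by omega : 0 < H)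
  have hH4 := hH1 H hHH1
  have hcard := (card_VS w H ρ hρW hH2).1
  set A := (Finset.range (H + 1)).filter (fun q => w < q ∧ q.Coprime (Wp w)) with hA
  have hAq : ∀ q ∈ A, q ≤ H ∧ w < q ∧ q.Coprime (Wp w) := by
    intro q hq
    simp only [hA, Finset.mem_filter, Finset.mem_range] at hq
    exact ⟨by omega, hq.2.1, hq.2.2⟩
  have step1 : ∑ d' ∈ VS w H ρ, (if d' = d then 0 else pp w (Nat.dist d d') ^ J - 1) ≤
      ∑ d' ∈ VS w H ρ, ∑ q ∈ A, (if q ∣ Nat.dist d d' then C * (q:ℝ) ^ (-(3/4):ℝ) else 0) := by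
    refine Finset.sum_le_sum fun d' hd' => ?_
    split_ifs with h
    · exact Finset.sum_nonneg fun q _ => by split_ifs <;> positivity
    · refine pp_pow_le J hC1 hC w (Nat.dist d d') H ?_ ?_
      · intro h0
        exact h (Nat.eq_of_dist_eq_zero h0).symm
      · have : d' < H + 1 := Finset.mem_range.mp (Finset.mem_filter.mp hd').1
        unfold Nat.dist
        omega
  have step2 : ∑ d' ∈ VS w H ρ, ∑ q ∈ A, (if q ∣ Nat.dist d d' then C * (q:ℝ) ^ (-(3/4):ℝ) else 0)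
      = ∑ q ∈ A, (C * (q:ℝ) ^ (-(3/4):ℝ)) *
        (((VS w H ρ).filter (fun d' => q ∣ Nat.dist d d')).card : ℝ) := by
    rw [Finset.sum_comm]
    refine Finset.sum_congr rfl fun q _ => ?_
    rw [← Finset.sum_filter, Finset.sum_const, nsmul_eq_mul, mul_comm]
  have step3 : ∀ q ∈ A, (C * (q:ℝ) ^ (-(3/4):ℝ)) *
        (((VS w H ρ).filter (fun d' => q ∣ Nat.dist d d')).card : ℝ) ≤
      (C * (ρ.card : ℝ) * ((H:ℝ) / Wp w) * (w:ℝ) ^ (-(1/4):ℝ) +
        C * (ρ.card : ℝ) * (H:ℝ) ^ (3/4:ℝ)) * (q:ℝ) ^ (-(3/2):ℝ) := by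
    intro q hq
    obtain ⟨hqH, hwq, hcop⟩ := hAq q hq
    have hq0 : 0 < q := by omega
    have hqR : (0:ℝ) < q := by exact_mod_cast hq0
    have hcnt := count_le w H q d ρ hq0 hcop
    have e34 : (q:ℝ) ^ (-(3/4):ℝ) / q ≤ (w:ℝ) ^ (-(1/4):ℝ) * (q:ℝ) ^ (-(3/2):ℝ) := by
      rw [← Real.rpow_sub_one hqR.ne']
      have : (q:ℝ) ^ (-(3/4) - 1:ℝ) = (q:ℝ) ^ (-(1/4):ℝ) * (q:ℝ) ^ (-(3/2):ℝ) := by
        rw [← Real.rpow_add hqR]; norm_num
      rw [this]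
      refine mul_le_mul_of_nonneg_right ?_ (by positivity)
      exact Real.rpow_le_rpow_of_nonpos hwp (by exact_mod_cast hwq.le) (by norm_num)
    have e32 : (q:ℝ) ^ (-(3/4):ℝ) ≤ (H:ℝ) ^ (3/4:ℝ) * (q:ℝ) ^ (-(3/2):ℝ) := by
      have : (q:ℝ) ^ (-(3/4):ℝ) = (q:ℝ) ^ (3/4:ℝ) * (q:ℝ) ^ (-(3/2):ℝ) := by
        rw [← Real.rpow_add hqR]; norm_num
      rw [this]
      refine mul_le_mul_of_nonneg_right ?_ (by positivity)
      exact Real.rpow_le_rpow hqR.le (by exact_mod_cast hqH) (by norm_num)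
    have hρ0 : (0:ℝ) ≤ ρ.card := Nat.cast_nonneg _
    calc (C * (q:ℝ) ^ (-(3/4):ℝ)) * (((VS w H ρ).filter (fun d' => q ∣ Nat.dist d d')).card : ℝ)
        ≤ (C * (q:ℝ) ^ (-(3/4):ℝ)) * ((ρ.card : ℝ) * ((H:ℝ) / ((Wp w : ℝ) * q) + 1)) := by
          refine mul_le_mul_of_nonneg_left hcnt ?_
          have : 0 ≤ C := by linarith
          positivity
      _ = C * (ρ.card : ℝ) * ((H:ℝ) / Wp w) * ((q:ℝ) ^ (-(3/4):ℝ) / q) +
            C * (ρ.card : ℝ) * (q:ℝ) ^ (-(3/4):ℝ) := by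
          field_simp
      _ ≤ C * (ρ.card : ℝ) * ((H:ℝ) / Wp w) * ((w:ℝ) ^ (-(1/4):ℝ) * (q:ℝ) ^ (-(3/2):ℝ)) +
            C * (ρ.card : ℝ) * ((H:ℝ) ^ (3/4:ℝ) * (q:ℝ) ^ (-(3/2):ℝ)) := by
          have hC0 : 0 ≤ C := by linarith
          refine add_le_add (mul_le_mul_of_nonneg_left e34 (by positivity))
            (mul_le_mul_of_nonneg_left e32 (by positivity))
      _ = _ := by ring
  refine step1.trans ?_
  rw [step2]
  refine (Finset.sum_le_sum step3).trans ?_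
  rw [← Finset.mul_sum]
  have hC0 : 0 ≤ C := by linarith
  have hρ0 : (0:ℝ) ≤ ρ.card := Nat.cast_nonneg _
  refine (mul_le_mul_of_nonneg_left (hTs A) (by positivity)).trans ?_
  refine le_trans ?_ (mul_le_mul_of_nonneg_left hcard hκ.le)
  have hwneg : C * T * (w:ℝ) ^ (-(1/4):ℝ) ≤ κ / 4 := by
    rw [Real.rpow_neg hwp.le, ← div_eq_mul_inv, div_le_iff₀ (by positivity)]
    rw [div_le_iff₀ hκ] at hw4
    linarith
  have hHneg : C * T * (H:ℝ) ^ (3/4:ℝ) ≤ κ / 4 * ((H:ℝ) / Wp w) := by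
    have e : (H:ℝ) = (H:ℝ) ^ (3/4:ℝ) * (H:ℝ) ^ (1/4:ℝ) := by
      rw [← Real.rpow_add hHR]; norm_num
    rw [div_le_iff₀ hκ] at hH4
    have h1 : C * T * Wp w ≤ κ / 4 * (H:ℝ) ^ (1/4:ℝ) := by linarith
    have h2 : 0 ≤ (H:ℝ) ^ (3/4:ℝ) := by positivity
    have h3 : C * T * (H:ℝ) ^ (3/4:ℝ) * Wp w ≤ κ / 4 * (H:ℝ) := by
      calc C * T * (H:ℝ) ^ (3/4:ℝ) * Wp w = (H:ℝ) ^ (3/4:ℝ) * (C * T * Wp w) := by ring
        _ ≤ (H:ℝ) ^ (3/4:ℝ) * (κ / 4 * (H:ℝ) ^ (1/4:ℝ)) := mul_le_mul_of_nonneg_left h1 h2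
        _ = κ / 4 * ((H:ℝ) ^ (3/4:ℝ) * (H:ℝ) ^ (1/4:ℝ)) := by ring
        _ = κ / 4 * (H:ℝ) := by rw [← e]
    rw [← mul_div_assoc, le_div_iff₀ hWR]
    exact h3
  have hHW : 0 ≤ (H:ℝ) / Wp w := by positivity
  calc (C * (ρ.card : ℝ) * ((H:ℝ) / Wp w) * (w:ℝ) ^ (-(1/4):ℝ) +
        C * (ρ.card : ℝ) * (H:ℝ) ^ (3/4:ℝ)) * T
      = (ρ.card : ℝ) * ((C * T * (w:ℝ) ^ (-(1/4):ℝ)) * ((H:ℝ) / Wp w) +
          C * T * (H:ℝ) ^ (3/4:ℝ)) := by ring
    _ ≤ (ρ.card : ℝ) * ((κ / 4) * ((H:ℝ) / Wp w) + κ / 4 * ((H:ℝ) / Wp w)) := by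
        refine mul_le_mul_of_nonneg_left ?_ hρ0
        exact add_le_add (mul_le_mul_of_nonneg_right hwneg hHW) hHneg
    _ = κ * ((ρ.card : ℝ) * ((H:ℝ) / (2 * Wp w))) := by
        field_simp
        ring

end Pool.Agent.HLT
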