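import Mathlib
import Pool.Agent.HLT.SelC
import Pool.Agent.HLT.SelD
import Pool.Agent.HLT.RowMoment
import Pool.Agent.HLT.PrimesClass
import Pool.Agent.HLT.Mertens

set_option autoImplicit false

open Finset Filter

namespace Pool.Agent.HLT

open Pool.Agent.HL26 Pool.Agent.Maynard

namespace U3aux

lemma mem_PwR {w R p : ℕ} : p ∈ PwR w R ↔ p ≤ R ∧ p.Prime ∧ w < p := by
  unfold PwR PPy
  rw [Finset.mem_filter, Finset.mem_filter, Finset.mem_range]
  constructor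
  · rintro ⟨⟨h1, h2⟩, h3⟩; exact ⟨by omega, h2, h3⟩
  · rintro ⟨h1, h2, h3⟩; exact ⟨⟨by omega, h2⟩, h3⟩

lemma PwR_prime {w R : ℕ} : ∀ p ∈ PwR w R, p.Prime := fun _ hp => (mem_PwR.mp hp).2.1

lemma prodP_pos (w R : ℕ) : 0 < ∏ p ∈ PwR w R, p := Finset.prod_pos fun p hp => (PwR_prime p hp).pos

lemma mem_Dv {w R q : ℕ} : q ∈ Dv w R ↔ q ∣ ∏ p ∈ PwR w R, p ∧ q ≤ R := by
  unfold Dv
  rw [Finset.mem_filter, Nat.mem_divisors]
  exact ⟨fun h => ⟨h.1.1, h.2⟩, fun h => ⟨⟨h.1, (prodP_pos w R).ne'⟩, h.2⟩⟩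

lemma prodP_sq (w R : ℕ) : Squarefree (∏ p ∈ PwR w R, p) := by
  refine Finset.squarefree_prod_of_pairwise_isCoprime (fun p hp q hq hpq => ?_)
    (fun p hp => (PwR_prime p hp).prime.squarefree)
  simp only [Function.onFun, ← Nat.coprime_iff_isRelPrime]
  exact (Nat.coprime_primes (PwR_prime p hp) (PwR_prime q hq)).mpr hpq

lemma Dv_sq {w R q : ℕ} (hq : q ∈ Dv w R) : Squarefree q :=
  (prodP_sq w R).squarefree_of_dvd (mem_Dv.mp hq).1

lemma one_mem_Dv {w R : ℕ} (hR : 1 ≤ R) : 1 ∈ Dv w R := mem_Dv.mpr ⟨one_dvd _, hR⟩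

/-- upper bound for Selberg's sum -/
lemma SG_le_th (w R : ℕ) : SG w R ≤ (th w R)⁻¹ := by
  have hpos : ∀ p ∈ PwR w R, (0:ℝ) < (p:ℝ) - 1 := fun p hp => by
    have : (2:ℝ) ≤ p := by exact_mod_cast (PwR_prime p hp).two_le
    linarith
  have e1 : (th w R)⁻¹ = ∏ p ∈ PwR w R, (1 + 1 / ((p:ℝ) - 1)) := by
    unfold th PwR
    rw [← Finset.prod_inv_distrib]
    refine Finset.prod_congr rfl fun p hp => ?_
    have h1 := hpos p hp
    have h2 : (0:ℝ) < p := by linarith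
    have h3 : (1:ℝ) - 1 / p = (p - 1) / p := by field_simp
    rw [h3, inv_div]
    field_simp
    ring
  rw [e1, Finset.prod_one_add]
  have hprim : ∀ q ∈ Dv w R, ∀ p ∈ q.primeFactors, p ∈ PwR w R := by
    intro q hq p hp
    have h1 := (Nat.dvd_of_mem_primeFactors hp).trans (mem_Dv.mp hq).1
    have hp' := Nat.prime_of_mem_primeFactors hp
    obtain ⟨r, hr, hpr⟩ := (hp'.prime.dvd_finsetProd_iff _).mp h1
    rwa [(Nat.prime_dvd_prime_iff_eq hp' (PwR_prime r hr)).mp hpr]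
  have hinj : Set.InjOn Nat.primeFactors (Dv w R : Set ℕ) := by
    intro q hq r hr hqr
    rw [← Nat.prod_primeFactors_of_squarefree (Dv_sq (Finset.mem_coe.mp hq)),
      ← Nat.prod_primeFactors_of_squarefree (Dv_sq (Finset.mem_coe.mp hr)), hqr]
  have e2 : SG w R = ∑ t ∈ (Dv w R).image Nat.primeFactors, ∏ p ∈ t, (1 / ((p:ℝ) - 1)) := by
    rw [Finset.sum_image (by intro a ha b hb h; exact hinj ha hb h)]
    unfold SG
    refine Finset.sum_congr rfl fun q hq => ?_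
    have h1 : Nat.totient q = ∏ p ∈ q.primeFactors, (p - 1) := by
      have h2 := Nat.totient_mul_prod_primeFactors q
      rw [Nat.prod_primeFactors_of_squarefree (Dv_sq hq), mul_comm] at h2
      exact Nat.eq_of_mul_eq_mul_left (Nat.pos_of_ne_zero (Dv_sq hq).ne_zero) h2
    rw [h1]
    push_cast
    rw [Finset.prod_div_distrib, Finset.prod_const_one]
    congr 1
    refine Finset.prod_congr rfl fun p hp => ?_
    rw [Nat.cast_sub (Nat.prime_of_mem_primeFactors hp).one_lt.le, Nat.cast_one]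
  rw [e2]
  refine Finset.sum_le_sum_of_subset_of_nonneg ?_ ?_
  · intro t ht
    obtain ⟨q, hq, rfl⟩ := Finset.mem_image.mp ht
    exact Finset.mem_powerset.mpr fun p hp => hprim q hq p hp
  · intro t ht _
    refine Finset.prod_nonneg fun p hp => ?_
    have := hpos p (Finset.mem_powerset.mp ht hp)
    positivity

/-- value at primes -/
lemma LamS_prime {w R m : ℕ} (hR : 1 ≤ R) (hm : m.Prime) (hRm : R < m) : LamS w R m = 1 := by
  unfold LamS
  have : (Dv w R).filter (fun q => q ∣ m) = {1} := by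
    ext q
    rw [Finset.mem_filter, Finset.mem_singleton]
    constructor
    · rintro ⟨h1, h2⟩
      rcases (Nat.dvd_prime hm).mp h2 with h | h
      · exact h
      · have := (mem_Dv.mp h1).2
        omega
    · rintro rfl
      exact ⟨one_mem_Dv hR, one_dvd _⟩
  rw [this, Finset.sum_singleton, lamS_one w R hR]

/-- size of the weights -/
lemma LamS_abs_le {w R m : ℕ} (hR : 1 ≤ R) (hm : m ≠ 0) :
    |LamS w R m| ≤ (2:ℝ) ^ m.primeFactors.card := by
  unfold LamS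
  refine (Finset.abs_sum_le_sum_abs _ _).trans ?_
  have h1 : ∑ q ∈ (Dv w R).filter (fun q => q ∣ m), |lamS w R q| ≤
      (((Dv w R).filter (fun q => q ∣ m)).card : ℝ) := by
    rw [← nsmul_one]
    exact Finset.sum_le_card_nsmul _ _ _ fun q hq => abs_lamS_le w R q hR (Finset.mem_filter.mp hq).1
  refine h1.trans ?_
  have h2 : ((Dv w R).filter (fun q => q ∣ m)).card ≤ m.primeFactors.powerset.card := by
    refine Finset.card_le_card_of_injOn Nat.primeFactors ?_ ?_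
    · intro q hq
      have hq' := Finset.mem_filter.mp (Finset.mem_coe.mp hq)
      exact Finset.mem_coe.mpr (Finset.mem_powerset.mpr (Nat.primeFactors_mono hq'.2 hm))
    · intro q hq r hr hqr
      have hq' := (Finset.mem_filter.mp (Finset.mem_coe.mp hq)).1
      have hr' := (Finset.mem_filter.mp (Finset.mem_coe.mp hr)).1
      rw [← Nat.prod_primeFactors_of_squarefree (Dv_sq hq'),
        ← Nat.prod_primeFactors_of_squarefree (Dv_sq hr'), hqr]
  rw [Finset.card_powerset] at h2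
  exact_mod_cast h2

/-- number of prime factors of rough numbers -/
lemma omega_le {N u z m : ℕ} (hu : 1 ≤ u) (hN : 2 ≤ N) (hz : (N:ℝ) ^ (1 / (u:ℝ)) ≤ (z:ℝ) + 1)
    (hm0 : m ≠ 0) (hmN : m ≤ N ^ 2) (hm : ∀ p : ℕ, p.Prime → p ∣ m → z < p) :
    m.primeFactors.card ≤ 2 * u := by
  have h1 : ((z + 1 : ℕ) : ℝ) ^ m.primeFactors.card ≤ (N:ℝ) ^ 2 := by
    have h2 : (z + 1) ^ m.primeFactors.card ≤ ∏ p ∈ m.primeFactors, p := by
      refine Finset.pow_card_le_prod _ _ _ fun p hp => ?_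
      exact hm p (Nat.prime_of_mem_primeFactors hp) (Nat.dvd_of_mem_primeFactors hp)
    have h3 : ∏ p ∈ m.primeFactors, p ≤ m :=
      Nat.le_of_dvd (Nat.pos_of_ne_zero hm0) (Nat.prod_primeFactors_dvd m)
    exact_mod_cast (h2.trans h3).trans hmN
  have hN1 : (1:ℝ) < N := by exact_mod_cast (by omega : 1 < N)
  have hN0 : (0:ℝ) < N := by linarith
  have hu0 : (0:ℝ) < u := by exact_mod_cast (by omega : 0 < u)
  have h4 : (N:ℝ) ^ ((m.primeFactors.card : ℝ) / u) ≤ (N:ℝ) ^ (2:ℝ) := by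
    have h5 : (N:ℝ) ^ ((m.primeFactors.card : ℝ) / u) =
        ((N:ℝ) ^ (1 / (u:ℝ))) ^ m.primeFactors.card := by
      rw [← Real.rpow_natCast, ← Real.rpow_mul hN0.le]
      congr 1
      ring
    rw [h5]
    refine (pow_le_pow_left₀ (by positivity) hz _).trans ?_
    rw [show ((2:ℝ)) = ((2:ℕ):ℝ) by norm_num, Real.rpow_natCast]
    push_cast at h1
    exact h1
  have h5 := (Real.rpow_le_rpow_left_iff hN1).mp h4
  rw [div_le_iff₀ hu0] at h5
  exact_mod_cast h5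

/-- the majorant -/
noncomputable def nuf (w z R m : ℕ) : ℝ :=
  if ∃ p ∈ PwR w z, p ∣ m then 0 else SG w R * LamS w R m ^ 2

lemma nuf_nonneg {w z R : ℕ} (hR : 1 ≤ R) (m : ℕ) : 0 ≤ nuf w z R m := by
  unfold nuf
  split_ifs
  · exact le_refl _
  · exact mul_nonneg (SG_pos w R hR).le (sq_nonneg _)

lemma nuf_le {w z R : ℕ} (hR : 1 ≤ R) (m : ℕ) : nuf w z R m ≤ SG w R * LamS w R m ^ 2 := by
  unfold nuf
  split_ifs
  · exact mul_nonneg (SG_pos w R hR).le (sq_nonneg _)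
  · exact le_refl _

lemma nuf_ge {w z R : ℕ} (hR : 1 ≤ R) (m : ℕ) :
    SG w R * LamS w R m ^ 2 - SG w R * ∑ p ∈ PwR w z, (if p ∣ m then LamS w R m ^ 2 else 0) ≤
      nuf w z R m := by
  have hG := (SG_pos w R hR).le
  have h0 : ∀ p ∈ PwR w z, (0:ℝ) ≤ (if p ∣ m then LamS w R m ^ 2 else 0) := by
    intro p _
    split_ifs
    · exact sq_nonneg _
    · exact le_refl _
  unfold nuf
  split_ifs with h
  · obtain ⟨p, hp, hpm⟩ := h
    have h1 := Finset.single_le_sum h0 hp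
    simp only [hpm, if_true] at h1
    have := mul_le_mul_of_nonneg_left h1 hG
    linarith
  · have := mul_nonneg hG (Finset.sum_nonneg h0)
    linarith

lemma PwR_sub {w z R p : ℕ} (hz : z ≤ R) (hp : p ∈ PwR w z) : p ∈ PwR w R := by
  rw [mem_PwR] at hp ⊢
  exact ⟨hp.1.trans hz, hp.2⟩

/-- lower bound for the mean -/
lemma sum_nuf_ge {w z R N a d : ℕ} (hR : 1 ≤ R) (hz : z ≤ R) :
    (N:ℝ) / Wp w - SG w R * (R:ℝ) ^ 2 * (1 + z) -
      SG w R * ((N:ℝ) / Wp w) * ∑ p ∈ PwR w z, VV w R p / p ≤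
      ∑ n ∈ XS N w a, nuf w z R (n + d) := by
  have hG := SG_pos w R hR
  have h1 : ∑ n ∈ XS N w a, (SG w R * LamS w R (n + d) ^ 2 -
      SG w R * ∑ p ∈ PwR w z, (if p ∣ n + d then LamS w R (n + d) ^ 2 else 0)) ≤
      ∑ n ∈ XS N w a, nuf w z R (n + d) := Finset.sum_le_sum fun n _ => nuf_ge hR (n + d)
  refine le_trans ?_ h1
  rw [Finset.sum_sub_distrib, ← Finset.mul_sum, ← Finset.mul_sum, Finset.sum_comm]
  have h2 := sel_single w R N a d 1 hR (one_dvd _)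
  rw [VV_one w R hR, mul_one] at h2
  have e1 : (XS N w a).filter (fun n => 1 ∣ n + d) = XS N w a :=
    Finset.filter_true_of_mem fun n _ => one_dvd _
  rw [e1] at h2
  have h3 : ∀ p ∈ PwR w z, ∑ n ∈ XS N w a, (if p ∣ n + d then LamS w R (n + d) ^ 2 else 0) ≤
      ((N:ℝ) / Wp w) * (VV w R p / p) + (R:ℝ) ^ 2 := by
    intro p hp
    rw [← Finset.sum_filter]
    have h4 := (abs_le.mp (sel_single w R N a d p hR
      (Finset.dvd_prod_of_mem _ (PwR_sub hz hp)))).2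
    have e2 : (N:ℝ) / (Wp w * p : ℕ) * VV w R p = ((N:ℝ) / Wp w) * (VV w R p / p) := by
      push_cast
      rw [div_mul_div_comm, div_mul_eq_mul_div]
    rw [e2] at h4
    linarith
  have h4 := Finset.sum_le_sum h3
  rw [Finset.sum_add_distrib, ← Finset.mul_sum, Finset.sum_const, nsmul_eq_mul] at h4
  have h5 : ((PwR w z).card : ℝ) ≤ z := by
    have : (PwR w z).card ≤ (Finset.Ioc 0 z).card := by
      refine Finset.card_le_card fun p hp => ?_
      rw [Finset.mem_Ioc]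
      exact ⟨(PwR_prime p hp).pos, (mem_PwR.mp hp).1⟩
    rw [Nat.card_Ioc] at this
    exact_mod_cast this
  have h6 : ((PwR w z).card : ℝ) * (R:ℝ) ^ 2 ≤ z * (R:ℝ) ^ 2 :=
    mul_le_mul_of_nonneg_right h5 (by positivity)
  have h7 := (abs_le.mp h2).1
  have h8 : (N:ℝ) / Wp w * (1 / SG w R) - (R:ℝ) ^ 2 ≤ ∑ n ∈ XS N w a, LamS w R (n + d) ^ 2 := by
    linarith
  have h9 := mul_le_mul_of_nonneg_left h8 hG.le
  have h10 := mul_le_mul_of_nonneg_left (h4.trans (add_le_add_right h6 _)) hG.le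
  have e3 : SG w R * ((N:ℝ) / Wp w * (1 / SG w R) - (R:ℝ) ^ 2) =
      (N:ℝ) / Wp w - SG w R * (R:ℝ) ^ 2 := by
    field_simp
  rw [e3] at h9
  linarith

/-- upper bound for the mean -/
lemma sum_nuf_le {w z R N a d : ℕ} (hR : 1 ≤ R) :
    ∑ n ∈ XS N w a, nuf w z R (n + d) ≤ (N:ℝ) / Wp w + SG w R * (R:ℝ) ^ 2 := by
  have hG := SG_pos w R hR
  have h1 : ∑ n ∈ XS N w a, nuf w z R (n + d) ≤ ∑ n ∈ XS N w a, SG w R * LamS w R (n + d) ^ 2 :=
    Finset.sum_le_sum fun n _ => nuf_le hR (n + d)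
  refine h1.trans ?_
  rw [← Finset.mul_sum]
  have h2 := sel_single w R N a d 1 hR (one_dvd _)
  rw [VV_one w R hR, mul_one] at h2
  have e1 : (XS N w a).filter (fun n => 1 ∣ n + d) = XS N w a :=
    Finset.filter_true_of_mem fun n _ => one_dvd _
  rw [e1] at h2
  have h8 : ∑ n ∈ XS N w a, LamS w R (n + d) ^ 2 ≤ (N:ℝ) / Wp w * (1 / SG w R) + (R:ℝ) ^ 2 := by
    have := (abs_le.mp h2).2
    linarith
  refine (mul_le_mul_of_nonneg_left h8 hG.le).trans (le_of_eq ?_)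
  field_simp

/-- upper bound for the pair correlations -/
lemma sum_pair_le {w z R N a d d' : ℕ} (hR : 1 ≤ R) (hd : d ≠ d') :
    ∑ n ∈ XS N w a, nuf w z R (n + d) * nuf w z R (n + d') ≤
      SG w R ^ 2 * ((N:ℝ) / Wp w * PM w R (Nat.dist d d') + (R:ℝ) ^ 4) := by
  have hG := SG_pos w R hR
  have h1 : ∑ n ∈ XS N w a, nuf w z R (n + d) * nuf w z R (n + d') ≤
      ∑ n ∈ XS N w a, SG w R ^ 2 * (LamS w R (n + d) ^ 2 * LamS w R (n + d') ^ 2) := by
    refine Finset.sum_le_sum fun n _ => ?_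
    refine (mul_le_mul (nuf_le hR (n + d)) (nuf_le hR (n + d')) (nuf_nonneg hR _)
      (mul_nonneg hG.le (sq_nonneg _))).trans (le_of_eq ?_)
    ring
  refine h1.trans ?_
  rw [← Finset.mul_sum]
  refine mul_le_mul_of_nonneg_left ?_ (sq_nonneg _)
  have := (abs_le.mp (sel_pair w R N a d d' hR hd)).2
  linarith

/-- sum over the small primes -/
lemma sum_primes_le {w z P0 : ℕ} {c k : ℝ} (hz : 1 ≤ z) (hc : 0 ≤ c) (hk : 0 ≤ k) (hP1 : 1 ≤ P0)
    (hP : k ≤ c * Real.log P0) :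
    ∑ p ∈ PwR w z, (c * Real.log p + k) / p ≤ 2 * c * (Real.log z + Real.log 4) + k * P0 := by
  have h1 : ∀ p ∈ PwR w z, (c * Real.log p + k) / p ≤
      2 * c * (Real.log p / p) + (if p ≤ P0 then k else 0) := by
    intro p hp
    have hp1 : (1:ℝ) ≤ p := by exact_mod_cast (PwR_prime p hp).one_lt.le
    have hp0 : (0:ℝ) < p := by linarith
    have hlp : 0 ≤ Real.log p := Real.log_nonneg hp1
    split_ifs with h
    · have h2 : k / p ≤ k := div_le_self hk hp1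
      have h3 : 0 ≤ c * (Real.log p / p) := by positivity
      have e : (c * Real.log p + k) / p = c * (Real.log p / p) + k / p := by
        rw [add_div, mul_div_assoc]
      rw [e]
      linarith
    · push Not at h
      have h2 : Real.log P0 ≤ Real.log p :=
        Real.log_le_log (by exact_mod_cast hP1) (by exact_mod_cast h.le)
      have h3 : k ≤ c * Real.log p := hP.trans (mul_le_mul_of_nonneg_left h2 hc)
      rw [add_zero, ← mul_div_assoc]
      refine div_le_div_of_nonneg_right ?_ hp0.le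
      linarith
  refine (Finset.sum_le_sum h1).trans ?_
  rw [Finset.sum_add_distrib, ← Finset.mul_sum]
  refine add_le_add ?_ ?_
  · refine mul_le_mul_of_nonneg_left ?_ (by positivity)
    refine le_trans ?_ (sum_log_div_le z hz)
    refine Finset.sum_le_sum_of_subset_of_nonneg (Finset.filter_subset _ _) fun p hp _ => ?_
    have hp1 : (1:ℝ) ≤ p := by exact_mod_cast (PPy_prime z p hp).one_lt.le
    have hlp : 0 ≤ Real.log p := Real.log_nonneg hp1
    positivity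
  · rw [← Finset.sum_filter, Finset.sum_const, nsmul_eq_mul, mul_comm]
    refine mul_le_mul_of_nonneg_left ?_ hk
    have : ((PwR w z).filter (fun p => p ≤ P0)).card ≤ (Finset.Ioc 0 P0).card := by
      refine Finset.card_le_card fun p hp => ?_
      have hp' := Finset.mem_filter.mp hp
      rw [Finset.mem_Ioc]
      exact ⟨(PwR_prime p hp'.1).pos, hp'.2⟩
    rw [Nat.card_Ioc] at this
    exact_mod_cast this

/-- the loss -/
lemma loss_le {w z R P0 : ℕ} {C : ℝ} (hR : 1 ≤ R) (hzR : z ≤ R) (hz : 1 ≤ z) (hC : 0 < C)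
    (hCs : ∀ w R p : ℕ, 1 ≤ R → 1 ≤ p →
      ∑ r ∈ (Dv w R).filter (fun r => R < p * r), 1 / (Nat.totient r : ℝ) ≤
        C * (cW (Wp w) * Real.log p + KV (Wp w)))
    (hP1 : 1 ≤ P0) (hP : KV (Wp w) ≤ cW (Wp w) * Real.log P0) :
    SG w R * ∑ p ∈ PwR w z, VV w R p / p ≤
      C / SG w R * (2 * cW (Wp w) * (Real.log z + Real.log 4) + KV (Wp w) * P0) := by
  have hG := SG_pos w R hR
  have hW : 0 < Wp w := B6aux.Wp_pos w
  have h1 : ∀ p ∈ PwR w z, SG w R * (VV w R p / p) ≤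
      C / SG w R * ((cW (Wp w) * Real.log p + KV (Wp w)) / p) := by
    intro p hp
    have hp0 : (0:ℝ) < p := by exact_mod_cast (PwR_prime p hp).pos
    have h2 := VV_prime w R p hR (PwR_sub hzR hp)
    have h3 := hCs w R p hR (PwR_prime p hp).one_lt.le
    have h4 : VV w R p ≤ (1 / SG w R ^ 2) * (C * (cW (Wp w) * Real.log p + KV (Wp w))) :=
      h2.trans (mul_le_mul_of_nonneg_left h3 (by positivity))
    have h5 : SG w R * (VV w R p / p) ≤
        SG w R * (((1 / SG w R ^ 2) * (C * (cW (Wp w) * Real.log p + KV (Wp w)))) / p) :=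
      mul_le_mul_of_nonneg_left (div_le_div_of_nonneg_right h4 hp0.le) hG.le
    refine h5.trans (le_of_eq ?_)
    field_simp
  rw [Finset.mul_sum]
  refine (Finset.sum_le_sum h1).trans ?_
  rw [← Finset.mul_sum]
  exact mul_le_mul_of_nonneg_left
    (sum_primes_le hz (cW_nonneg _) (KV_pos hW).le hP1 hP) (by positivity)

lemma one_le_SG {w R : ℕ} (hR : 1 ≤ R) : 1 ≤ SG w R := by
  unfold SG
  have h0 : ∀ r ∈ Dv w R, (0:ℝ) ≤ 1 / (Nat.totient r : ℝ) := fun r _ => by positivity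
  have := Finset.single_le_sum h0 (one_mem_Dv (w := w) hR)
  simpa using this

lemma rough_of_mem {w z N a d n H : ℕ} {ρ : Finset ℕ}
    (hρ : ∀ r ∈ ρ, r < Wp w ∧ (a + r).Coprime (Wp w)) (hn : n ∈ XS N w a) (hd : d ∈ VS w H ρ)
    (hno : ¬ ∃ p ∈ PwR w z, p ∣ n + d) : ∀ p : ℕ, p.Prime → p ∣ n + d → z < p := by
  intro p hp hpd
  by_contra hz
  push Not at hz
  rcases lt_or_ge w p with hw | hw
  · exact hno ⟨p, mem_PwR.mpr ⟨hz, hp, hw⟩, hpd⟩
  · have h1 : p ∣ Wp w := Finset.dvd_prod_of_mem (fun p => p)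
      (Finset.mem_filter.mpr ⟨Finset.mem_range.mpr (by omega), hp⟩)
    have h2 : n ≡ a [MOD Wp w] := (Finset.mem_filter.mp hn).2
    have h3 : d % Wp w ∈ ρ := (Finset.mem_filter.mp hd).2
    have h4 : n + d ≡ a + d % Wp w [MOD Wp w] := h2.add (Nat.mod_modEq _ _).symm
    have h5 := h4.gcd_eq
    have h6 : (a + d % Wp w).gcd (Wp w) = 1 := (hρ _ h3).2
    rw [h6] at h5
    have h7 := Nat.dvd_gcd hpd h1
    rw [h5] at h7
    exact hp.one_lt.ne' (Nat.dvd_one.mp h7)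

lemma nuf_bound {w z R N a d n H u : ℕ} {ρ : Finset ℕ} (hR : 1 ≤ R) (hN : 3 ≤ N) (hu : 1 ≤ u)
    (hz : (N:ℝ) ^ (1 / (u:ℝ)) ≤ (z:ℝ) + 1) (hHN : H ≤ N)
    (hρ : ∀ r ∈ ρ, r < Wp w ∧ (a + r).Coprime (Wp w)) (hn : n ∈ XS N w a) (hd : d ∈ VS w H ρ) :
    nuf w z R (n + d) ≤ 16 ^ u * SG w R := by
  have hG := SG_pos w R hR
  unfold nuf
  split_ifs with h
  · positivity
  · have h1 := Finset.mem_Ioc.mp (Finset.mem_filter.mp hn).1
    have h2 := Finset.mem_range.mp (Finset.mem_filter.mp hd).1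
    have hm0 : n + d ≠ 0 := by omega
    have hmN : n + d ≤ N ^ 2 := by nlinarith
    have hom := omega_le hu (by omega) hz hm0 hmN (rough_of_mem hρ hn hd h)
    have h3 := LamS_abs_le (w := w) hR hm0
    have h4 : |LamS w R (n + d)| ≤ (2:ℝ) ^ (2 * u) :=
      h3.trans (pow_le_pow_right₀ (by norm_num) hom)
    have h5 : LamS w R (n + d) ^ 2 ≤ ((2:ℝ) ^ (2 * u)) ^ 2 := by
      rw [← sq_abs]
      exact pow_le_pow_left₀ (abs_nonneg _) h4 2
    have h6 : ((2:ℝ) ^ (2 * u)) ^ 2 = 16 ^ u := by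
      rw [pow_mul, ← pow_mul, mul_comm u 2, pow_mul]
      norm_num
    rw [h6] at h5
    rw [mul_comm ((16:ℝ) ^ u)]
    exact mul_le_mul_of_nonneg_left h5 hG.le

/-- the deterministic part -/
lemma det {w z R N a u H : ℕ} {κ : ℝ} {ρ : Finset ℕ} (hκ : 0 < κ) (hκ1 : κ ≤ 1)
    (hR : 1 ≤ R) (hzR : z ≤ R) (hRN : R ≤ N) (hN : 3 ≤ N) (hu : 1 ≤ u)
    (hz : (N:ℝ) ^ (1 / (u:ℝ)) ≤ (z:ℝ) + 1)
    (hHN : H ≤ N)
    (hρ : ∀ r ∈ ρ, r < Wp w ∧ (a + r).Coprime (Wp w))
    (hG : cW (Wp w) * Real.log N ≤ (4 + κ) * SG w R)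
    (hX : 0 < (XS N w a).card)
    (hXl : (1 - κ / 4) * ((XS N w a).card : ℝ) ≤ (N:ℝ) / Wp w)
    (hXu : (N:ℝ) / Wp w ≤ (1 + κ / 8) * ((XS N w a).card : ℝ))
    (hE1 : SG w R * (R:ℝ) ^ 2 * (1 + z) ≤ κ / 4 * ((XS N w a).card : ℝ))
    (hE2 : SG w R ^ 2 * (R:ℝ) ^ 4 ≤ κ / 8 * ((XS N w a).card : ℝ))
    (hloss : SG w R * ∑ p ∈ PwR w z, VV w R p / p ≤ κ / 4)
    (hPM : ∀ h : ℕ, 1 ≤ h → PM w R h ≤ (1 / SG w R ^ 2) * ((1 + κ / 8) * pp w h ^ 25))
    (hrow : ∀ d : ℕ, d ≤ H →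
      ∑ d' ∈ VS w H ρ, (if d' = d then 0 else pp w (Nat.dist d d') ^ 25 - 1) ≤
        κ / 4 * ((VS w H ρ).card : ℝ))
    (hdiag : 16 ^ u * SG w R * 2 ≤ κ * ((VS w H ρ).card : ℝ)) :
    ∃ ν4 : XS N w a → VS w H ρ → ℝ, (∀ n d, 0 ≤ ν4 n d) ∧
        (∀ n d, MM N w n d ≤ (4 + κ) * ν4 n d) ∧
        (∀ d, 1 - κ ≤ av (fun n => ν4 n d)) ∧
        (∀ d, av (fun d' => if d' = d then 0 else max (gram ν4 d d' - 1) 0) ≤ κ) ∧
        (∀ d, gram ν4 d d ≤ κ * (Fintype.card (VS w H ρ) : ℝ)) := by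
  have hG0 := SG_pos w R hR
  have hXr : (0:ℝ) < ((XS N w a).card : ℝ) := by exact_mod_cast hX
  refine ⟨fun n d => nuf w z R ((n:ℕ) + (d:ℕ)), fun n d => nuf_nonneg hR _, ?_, ?_, ?_, ?_⟩
  · intro n d
    unfold MM
    split_ifs with hp
    · have h1 := Finset.mem_Ioc.mp (Finset.mem_filter.mp n.2).1
      have h2 : nuf w z R ((n:ℕ) + (d:ℕ)) = SG w R := by
        unfold nuf
        rw [if_neg, LamS_prime hR hp (by omega)]
        · ring
        · rintro ⟨p, hpm, hpd⟩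
          have h3 := mem_PwR.mp hpm
          have h4 := (Nat.prime_dvd_prime_iff_eq h3.2.1 hp).mp hpd
          omega
      show _ ≤ (4 + κ) * nuf w z R ((n:ℕ) + (d:ℕ))
      rw [h2]
      exact hG
    · exact mul_nonneg (by linarith) (nuf_nonneg hR _)
  · intro d
    unfold av
    rw [Fintype.card_coe, le_div_iff₀ hXr]
    rw [Finset.sum_coe_sort (XS N w a) (fun n => nuf w z R (n + (d:ℕ)))]
    have h1 := sum_nuf_ge (w := w) (z := z) (R := R) (N := N) (a := a) (d := (d:ℕ)) hR hzR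
    have h2 : SG w R * ((N:ℝ) / Wp w) * ∑ p ∈ PwR w z, VV w R p / p ≤ κ / 4 * ((N:ℝ) / Wp w) := by
      have h3 : (0:ℝ) ≤ (N:ℝ) / Wp w := by positivity
      calc SG w R * ((N:ℝ) / Wp w) * ∑ p ∈ PwR w z, VV w R p / p
          = (SG w R * ∑ p ∈ PwR w z, VV w R p / p) * ((N:ℝ) / Wp w) := by ring
        _ ≤ κ / 4 * ((N:ℝ) / Wp w) := mul_le_mul_of_nonneg_right hloss h3
    nlinarith
  · intro d
    unfold av
    rw [Fintype.card_coe]
    have hdH : (d:ℕ) ≤ H := by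
      have := Finset.mem_range.mp (Finset.mem_filter.mp d.2).1
      omega
    have hV : (0:ℝ) < ((VS w H ρ).card : ℝ) := by
      exact_mod_cast Finset.card_pos.mpr ⟨_, d.2⟩
    rw [div_le_iff₀ hV]
    have hpt : ∀ d' : VS w H ρ, (if d' = d then (0:ℝ) else
        max (gram (fun (n : XS N w a) (d : VS w H ρ) => nuf w z R ((n:ℕ) + (d:ℕ))) d d' - 1) 0) ≤
        4 / 3 * (if (d':ℕ) = (d:ℕ) then 0 else pp w (Nat.dist d d') ^ 25 - 1) + κ / 2 := by
      intro d'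
      by_cases h : d' = d
      · rw [if_pos h, if_pos (congrArg Subtype.val h)]
        linarith
      · have h' : (d':ℕ) ≠ (d:ℕ) := fun hh => h (Subtype.ext hh)
        rw [if_neg h, if_neg h']
        have hpp : 1 ≤ pp w (Nat.dist d d') ^ 25 := one_le_pow₀ (one_le_pp w _)
        refine max_le ?_ (by linarith)
        have h1 : gram (fun (n : XS N w a) (d : VS w H ρ) => nuf w z R ((n:ℕ) + (d:ℕ))) d d' ≤
            (1 + κ / 8) ^ 2 * pp w (Nat.dist d d') ^ 25 + κ / 8 := by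
          unfold gram av
          rw [Fintype.card_coe, div_le_iff₀ hXr]
          rw [Finset.sum_coe_sort (XS N w a)
            (fun n => nuf w z R (n + (d:ℕ)) * nuf w z R (n + (d':ℕ)))]
          refine (sum_pair_le hR (fun hh => h' hh.symm)).trans ?_
          have h2 := hPM (Nat.dist d d') (Nat.dist_pos_of_ne (fun hh => h' hh.symm))
          have h3 : SG w R ^ 2 * ((N:ℝ) / Wp w * PM w R (Nat.dist d d')) ≤
              (N:ℝ) / Wp w * ((1 + κ / 8) * pp w (Nat.dist d d') ^ 25) := by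
            have h4 : (0:ℝ) ≤ (N:ℝ) / Wp w := by positivity
            calc SG w R ^ 2 * ((N:ℝ) / Wp w * PM w R (Nat.dist d d'))
                ≤ SG w R ^ 2 * ((N:ℝ) / Wp w *
                  ((1 / SG w R ^ 2) * ((1 + κ / 8) * pp w (Nat.dist d d') ^ 25))) :=
                  mul_le_mul_of_nonneg_left (mul_le_mul_of_nonneg_left h2 h4) (sq_nonneg _)
              _ = (N:ℝ) / Wp w * ((1 + κ / 8) * pp w (Nat.dist d d') ^ 25) := by
                  field_simp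
          have h5 : (N:ℝ) / Wp w * ((1 + κ / 8) * pp w (Nat.dist d d') ^ 25) ≤
              (1 + κ / 8) * ((XS N w a).card : ℝ) *
                ((1 + κ / 8) * pp w (Nat.dist d d') ^ 25) :=
            mul_le_mul_of_nonneg_right hXu (by positivity)
          rw [mul_add]
          linarith
        have h6 : (1 + κ / 8) ^ 2 ≤ 1 + κ / 3 := by nlinarith
        have h7 : (1 + κ / 8) ^ 2 * pp w (Nat.dist d d') ^ 25 ≤
            (1 + κ / 3) * pp w (Nat.dist d d') ^ 25 := mul_le_mul_of_nonneg_right h6 (by linarith)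
        have h8 : (1 + κ / 3) * (pp w (Nat.dist d d') ^ 25 - 1) ≤
            4 / 3 * (pp w (Nat.dist d d') ^ 25 - 1) :=
          mul_le_mul_of_nonneg_right (by linarith) (by linarith)
        linarith
    refine (Finset.sum_le_sum fun d' _ => hpt d').trans ?_
    rw [Finset.sum_add_distrib, ← Finset.mul_sum, Finset.sum_const, nsmul_eq_mul, Finset.card_univ,
      Fintype.card_coe]
    rw [Finset.sum_coe_sort (VS w H ρ)
      (fun d' => if d' = (d:ℕ) then (0:ℝ) else pp w (Nat.dist d d') ^ 25 - 1)]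
    have h1 := hrow d hdH
    have h2 := mul_pos hκ hV
    linarith
  · intro d
    rw [Fintype.card_coe]
    refine le_trans ?_ hdiag
    unfold gram av
    rw [Fintype.card_coe, div_le_iff₀ hXr]
    rw [Finset.sum_coe_sort (XS N w a)
      (fun n => nuf w z R (n + (d:ℕ)) * nuf w z R (n + (d:ℕ)))]
    have h1 : ∑ n ∈ XS N w a, nuf w z R (n + (d:ℕ)) * nuf w z R (n + (d:ℕ)) ≤
        ∑ n ∈ XS N w a, 16 ^ u * SG w R * nuf w z R (n + (d:ℕ)) :=
      Finset.sum_le_sum fun n hn =>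
        mul_le_mul_of_nonneg_right (nuf_bound hR hN hu hz hHN hρ hn d.2) (nuf_nonneg hR _)
    refine h1.trans ?_
    rw [← Finset.mul_sum, mul_assoc (16 ^ u * SG w R)]
    refine mul_le_mul_of_nonneg_left ?_ (by positivity)
    have h2 := sum_nuf_le (w := w) (z := z) (R := R) (N := N) (a := a) (d := (d:ℕ)) hR
    have h3 : SG w R * (R:ℝ) ^ 2 ≤ SG w R * (R:ℝ) ^ 2 * (1 + z) := by
      refine le_mul_of_one_le_right (by positivity) ?_
      have : (0:ℝ) ≤ z := by positivity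
      linarith
    nlinarith

/-- the case `κ ≤ 1` -/
lemma maj_four_small (κ : ℝ) (hκ : 0 < κ) (hκ1 : κ ≤ 1) : ∃ w0 : ℕ, ∀ w : ℕ, w0 ≤ w →
    ∃ K : ℝ, ∀ A : ℕ, ∀ᶠ N : ℕ in atTop, ∀ H : ℕ, K * Real.log N ≤ H → (H:ℝ) ≤ (Real.log N) ^ A →
    ∀ (a : ℕ) (ρ : Finset ℕ), ρ.Nonempty → (∀ r ∈ ρ, r < Wp w ∧ (a + r).Coprime (Wp w)) →
      ∃ ν4 : XS N w a → VS w H ρ → ℝ, (∀ n d, 0 ≤ ν4 n d) ∧
        (∀ n d, MM N w n d ≤ (4 + κ) * ν4 n d) ∧
        (∀ d, 1 - κ ≤ av (fun n => ν4 n d)) ∧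
        (∀ d, av (fun d' => if d' = d then 0 else max (gram ν4 d d' - 1) 0) ≤ κ) ∧
        (∀ d, gram ν4 d d ≤ κ * (Fintype.card (VS w H ρ) : ℝ)) := by
  obtain ⟨Cs, hCs0, hCs⟩ := short_sum
  obtain ⟨CP, hCP0, hCP⟩ := PM_le
  obtain ⟨CM, hCM1, hCM⟩ := th_lower
  obtain ⟨w0, hw0⟩ := row_moment 25 (κ / 4) (by positivity)
  -- the exponents
  set α : ℝ := (1 + κ / 8) / (4 + κ) with hα
  have hα0 : 0 < α := by positivity
  have h4κ : 0 < 4 + κ := by linarith
  have hα4 : 4 * α < 1 := by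
    rw [hα, ← mul_div_assoc, div_lt_one h4κ]
    linarith
  have hα1 : α ≤ 1 := by linarith
  have hαe : (4 + κ) * α = 1 + κ / 8 := by
    rw [hα]; field_simp
  obtain ⟨u, hu⟩ := exists_nat_ge (max (max 1 (1 / α)) (32 * Cs * (4 + κ) / κ))
  have hu1 : (1:ℝ) ≤ u := (le_max_left _ _).trans ((le_max_left _ _).trans hu)
  have hu1' : 1 ≤ u := by exact_mod_cast hu1
  have hu0 : (0:ℝ) < u := by linarith
  have huα : 1 / (u:ℝ) ≤ α := by
    have h1 : 1 / α ≤ u := (le_max_right _ _).trans ((le_max_left _ _).trans hu)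
    rw [div_le_iff₀ hα0] at h1
    rw [div_le_iff₀ hu0]
    linarith
  have huC : 32 * Cs * (4 + κ) ≤ κ * u := by
    have h1 : 32 * Cs * (4 + κ) / κ ≤ u := (le_max_right _ _).trans hu
    rw [div_le_iff₀ hκ] at h1
    linarith
  obtain ⟨w1, hw1⟩ := exists_nat_ge (8 * CP / κ)
  refine ⟨max w0 (max w1 2), fun w hw => ?_⟩
  have hww0 : w0 ≤ w := (le_max_left _ _).trans hw
  have hww1 : w1 ≤ w := (le_max_left _ _).trans ((le_max_right _ _).trans hw)
  have hw2 : 2 ≤ w := (le_max_right _ _).trans ((le_max_right _ _).trans hw)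
  have hwR : (0:ℝ) < w := by exact_mod_cast (by omega : 0 < w)
  have hCPw : CP / w ≤ κ / 8 := by
    rw [div_le_iff₀ hwR]
    have h1 : 8 * CP / κ ≤ w := hw1.trans (by exact_mod_cast hww1)
    rw [div_le_iff₀ hκ] at h1
    linarith
  obtain ⟨H0, hH0⟩ := hw0 w hww0
  have hWpos : 0 < Wp w := B6aux.Wp_pos w
  have hWR : (0:ℝ) < Wp w := by exact_mod_cast hWpos
  have hcW : 0 < cW (Wp w) := cW_pos hWpos
  have hKV : 0 < KV (Wp w) := KV_pos hWpos
  have hKW : 0 < KW (Wp w) := KW_pos hWpos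
  have hlogt : Tendsto (fun n : ℕ => Real.log n) atTop atTop :=
    Real.tendsto_log_atTop.comp tendsto_natCast_atTop_atTop
  obtain ⟨P0, hP0, hP1⟩ := ((hlogt.eventually_ge_atTop (KV (Wp w) / cW (Wp w))).and
    (eventually_ge_atTop 1)).exists
  have hP : KV (Wp w) ≤ cW (Wp w) * Real.log P0 := by
    rw [div_le_iff₀ hcW] at hP0
    linarith
  have hCM0 : 0 < CM := by linarith
  set K : ℝ := 4 * Wp w * 16 ^ u * CM / κ with hK
  have hK0 : 0 < K := by positivity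
  refine ⟨K, fun A => ?_⟩
  -- asymptotic facts
  have hnat : Tendsto (fun n : ℕ => (n:ℝ)) atTop atTop := tendsto_natCast_atTop_atTop
  have ev1 : ∀ᶠ N : ℕ in atTop, (Real.log N) ^ A ≤ N := by
    have h := (Real.isLittleO_pow_log_id_atTop (n := A)).bound (c := 1) one_pos
    have h2 := hnat.eventually h
    filter_upwards [h2, eventually_ge_atTop 1] with N hN hN1
    have h3 : 0 ≤ Real.log N := Real.log_natCast_nonneg N
    simpa [abs_of_nonneg h3] using hN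
  have ev2 : ∀ᶠ N : ℕ in atTop, 2 ≤ (N:ℝ) ^ α :=
    ((tendsto_rpow_atTop hα0).comp hnat).eventually_ge_atTop 2
  have ev3 : ∀ᶠ N : ℕ in atTop,
      (4 + κ) * (cW (Wp w) * Real.log 2 + KW (Wp w)) ≤ κ / 8 * cW (Wp w) * Real.log N := by
    have := (hlogt.const_mul_atTop (by positivity : 0 < κ / 8 * cW (Wp w))).eventually_ge_atTop
      ((4 + κ) * (cW (Wp w) * Real.log 2 + KW (Wp w)))
    exact this
  have ev4 : ∀ᶠ N : ℕ in atTop, 8 / κ + 2 ≤ (N:ℝ) / Wp w :=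
    (hnat.atTop_div_const hWR).eventually_ge_atTop _
  have ev5 : ∀ᶠ N : ℕ in atTop, (Real.log N) ^ 2 ≤
      κ / (16 * Wp w * CM ^ 2) * (N:ℝ) ^ (1 - 4 * α) := by
    have h := (isLittleO_log_rpow_rpow_atTop (2:ℝ) (by linarith : 0 < 1 - 4 * α)).bound
      (c := κ / (16 * Wp w * CM ^ 2)) (by positivity)
    have h2 := hnat.eventually h
    filter_upwards [h2, eventually_ge_atTop 1] with N hN hN1
    have h3 : 0 ≤ Real.log N := Real.log_natCast_nonneg N
    have h4 : (0:ℝ) ≤ (N:ℝ) ^ (1 - 4 * α) := by positivity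
    rw [Real.norm_of_nonneg (by positivity), Real.norm_of_nonneg h4,
      show ((2:ℝ)) = ((2:ℕ):ℝ) by norm_num, Real.rpow_natCast] at hN
    exact hN
  have ev6 : ∀ᶠ N : ℕ in atTop,
      8 * Cs * (4 + κ) * (2 * cW (Wp w) * Real.log 4 + KV (Wp w) * P0) ≤
        κ * cW (Wp w) * Real.log N :=
    (hlogt.const_mul_atTop (by positivity : 0 < κ * cW (Wp w))).eventually_ge_atTop _
  have ev7 : ∀ᶠ N : ℕ in atTop, ((max H0 (2 * Wp w) : ℕ) : ℝ) ≤ K * Real.log N :=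
    (hlogt.const_mul_atTop hK0).eventually_ge_atTop _
  filter_upwards [ev1, ev2, ev3, ev4, ev5, ev6, ev7, eventually_ge_atTop 3] with
    N hN1 hN2 hN3 hN4 hN5 hN6 hN7 hN8 H hH1 hH2 a ρ hρne hρ
  have hNR : (3:ℝ) ≤ N := by exact_mod_cast hN8
  have hN0 : (0:ℝ) < N := by linarith
  have hN11 : (1:ℝ) ≤ N := by linarith
  set L : ℝ := Real.log N with hL
  have hL0 : 0 ≤ L := Real.log_natCast_nonneg N
  have hL1 : 0 < L := Real.log_pos (by linarith)
  obtain ⟨R, hRdef⟩ : ∃ R : ℕ, R = ⌊(N:ℝ) ^ α⌋₊ := ⟨_, rfl⟩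
  obtain ⟨z, hzdef⟩ : ∃ z : ℕ, z = ⌊(N:ℝ) ^ (1 / (u:ℝ))⌋₊ := ⟨_, rfl⟩
  have hR2 : 2 ≤ R := hRdef ▸ Nat.le_floor (by exact_mod_cast hN2)
  have hR1 : 1 ≤ R := by omega
  have hRR : (1:ℝ) ≤ R := by exact_mod_cast hR1
  have hRle : (R:ℝ) ≤ (N:ℝ) ^ α := hRdef ▸ Nat.floor_le (by positivity)
  have hRge : (N:ℝ) ^ α / 2 ≤ R := by
    have := Nat.lt_floor_add_one ((N:ℝ) ^ α)
    rw [← hRdef] at this
    linarith
  have hNα : (N:ℝ) ^ α ≤ N := by
    calc (N:ℝ) ^ α ≤ (N:ℝ) ^ (1:ℝ) := Real.rpow_le_rpow_of_exponent_le hN11 hα1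
      _ = N := Real.rpow_one _
  have hRN : R ≤ N := by
    have : (R:ℝ) ≤ N := hRle.trans hNα
    exact_mod_cast this
  have hzR : z ≤ R := by
    rw [hzdef, hRdef]
    exact Nat.floor_mono (Real.rpow_le_rpow_of_exponent_le hN11 huα)
  have hz1 : 1 ≤ z := hzdef ▸ Nat.le_floor (by
    rw [Nat.cast_one]
    exact Real.one_le_rpow hN11 (by positivity))
  have hzlt : (N:ℝ) ^ (1 / (u:ℝ)) ≤ (z:ℝ) + 1 := hzdef ▸ (Nat.lt_floor_add_one _).le
  have hzle : (z:ℝ) ≤ (N:ℝ) ^ (1 / (u:ℝ)) := hzdef ▸ Nat.floor_le (by positivity)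
  -- Selberg's sum
  have hG1 : 1 ≤ SG w R := one_le_SG hR1
  have hG0 : 0 < SG w R := by linarith
  have hGlow : cW (Wp w) * L ≤ (4 + κ) * SG w R := by
    have h1 := SG_ge w R hR1
    have h2 : α * L - Real.log 2 ≤ Real.log R := by
      have h3 := Real.log_le_log (by positivity) hRge
      rw [Real.log_div (by positivity) (by norm_num), Real.log_rpow hN0] at h3
      exact h3
    have h3 : cW (Wp w) * (α * L - Real.log 2) - KW (Wp w) ≤ SG w R :=
      le_trans (by have := mul_le_mul_of_nonneg_left h2 hcW.le; linarith) h1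
    have h4 := mul_le_mul_of_nonneg_left h3 h4κ.le
    have e : (4 + κ) * (cW (Wp w) * (α * L - Real.log 2) - KW (Wp w)) =
        (1 + κ / 8) * cW (Wp w) * L - (4 + κ) * (cW (Wp w) * Real.log 2 + KW (Wp w)) := by
      rw [← hαe]; ring
    rw [e] at h4
    linarith
  have hGup : SG w R ≤ CM * L := by
    refine (SG_le_th w R).trans ((hCM w R hR2).trans ?_)
    refine mul_le_mul_of_nonneg_left ?_ hCM0.le
    exact Real.log_le_log (by linarith) (by exact_mod_cast hRN)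
  -- size of the class
  have hXa := abs_le.mp (card_XS w N a)
  have hκi : 0 < 1 / κ := by positivity
  have e8 : 8 / κ * κ = 8 := by field_simp
  set X : ℝ := ((XS N w a).card : ℝ) with hX
  set t : ℝ := (N:ℝ) / Wp w with ht
  have ht1 : 8 + 2 * κ ≤ κ * t := by
    have := mul_le_mul_of_nonneg_left hN4 hκ.le
    have e : κ * (8 / κ + 2) = 8 + 2 * κ := by field_simp
    linarith
  have ht2 : 2 ≤ t := by
    have : 0 ≤ 8 / κ := by positivity
    linarith
  have hX0 : 0 < X := by linarith [hXa.1]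
  have hXt : t / 2 ≤ X := by linarith [hXa.1]
  have hXl : (1 - κ / 4) * X ≤ t := by
    have h1 : X ≤ t + 1 := by linarith [hXa.2]
    have h2 := mul_le_mul_of_nonneg_left h1 (by linarith : 0 ≤ 1 - κ / 4)
    linarith
  have hXu : t ≤ (1 + κ / 8) * X := by
    have h1 : t - 1 ≤ X := by linarith [hXa.1]
    have h2 := mul_le_mul_of_nonneg_left h1 (by linarith : 0 ≤ 1 + κ / 8)
    linarith
  -- the errors
  have hE2 : SG w R ^ 2 * (R:ℝ) ^ 4 ≤ κ / 8 * X := by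
    have h1 : SG w R ^ 2 ≤ CM ^ 2 * L ^ 2 := by
      rw [← mul_pow]
      exact pow_le_pow_left₀ hG0.le hGup 2
    have h2 : (R:ℝ) ^ 4 ≤ (N:ℝ) ^ (4 * α) := by
      have e : (N:ℝ) ^ (4 * α) = ((N:ℝ) ^ α) ^ 4 := by
        rw [← Real.rpow_natCast, ← Real.rpow_mul hN0.le]
        congr 1
        push_cast
        ring
      rw [e]
      exact pow_le_pow_left₀ (by linarith) hRle 4
    have h3 : SG w R ^ 2 * (R:ℝ) ^ 4 ≤ (CM ^ 2 * L ^ 2) * (N:ℝ) ^ (4 * α) :=
      mul_le_mul h1 h2 (by positivity) (by positivity)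
    refine h3.trans ?_
    have h4 : (CM ^ 2 * L ^ 2) * (N:ℝ) ^ (4 * α) ≤
        (CM ^ 2 * (κ / (16 * Wp w * CM ^ 2) * (N:ℝ) ^ (1 - 4 * α))) * (N:ℝ) ^ (4 * α) :=
      mul_le_mul_of_nonneg_right (mul_le_mul_of_nonneg_left hN5 (by positivity)) (by positivity)
    refine h4.trans ?_
    have h5 : (N:ℝ) ^ (1 - 4 * α) * (N:ℝ) ^ (4 * α) = N := by
      rw [← Real.rpow_add hN0]
      simp
    have e : (CM ^ 2 * (κ / (16 * Wp w * CM ^ 2) * (N:ℝ) ^ (1 - 4 * α))) * (N:ℝ) ^ (4 * α) =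
        κ / 8 * (t / 2) := by
      calc (CM ^ 2 * (κ / (16 * Wp w * CM ^ 2) * (N:ℝ) ^ (1 - 4 * α))) * (N:ℝ) ^ (4 * α)
          = CM ^ 2 * (κ / (16 * Wp w * CM ^ 2)) * ((N:ℝ) ^ (1 - 4 * α) * (N:ℝ) ^ (4 * α)) := by ring
        _ = κ / 8 * (t / 2) := by
            rw [h5, ht]
            field_simp
            ring
    rw [e]
    exact mul_le_mul_of_nonneg_left hXt (by positivity)
  have hE1 : SG w R * (R:ℝ) ^ 2 * (1 + z) ≤ κ / 4 * X := by
    have h1 : (1:ℝ) + z ≤ 2 * R := by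
      have : (z:ℝ) ≤ R := by exact_mod_cast hzR
      linarith
    have h2 : SG w R ≤ SG w R ^ 2 := by
      rw [sq]
      exact le_mul_of_one_le_left hG0.le hG1
    have h3 : (R:ℝ) ^ 3 ≤ (R:ℝ) ^ 4 := pow_le_pow_right₀ hRR (by norm_num)
    calc SG w R * (R:ℝ) ^ 2 * (1 + z) ≤ SG w R * (R:ℝ) ^ 2 * (2 * R) :=
          mul_le_mul_of_nonneg_left h1 (by positivity)
      _ = 2 * (SG w R * (R:ℝ) ^ 3) := by ring
      _ ≤ 2 * (SG w R ^ 2 * (R:ℝ) ^ 4) :=
          mul_le_mul_of_nonneg_left (mul_le_mul h2 h3 (by positivity) (by positivity)) (by norm_num)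
      _ ≤ κ / 4 * X := by linarith
  -- the loss
  have hloss : SG w R * ∑ p ∈ PwR w z, VV w R p / p ≤ κ / 4 := by
    refine (loss_le hR1 hzR hz1 hCs0 hCs hP1 hP).trans ?_
    rw [div_mul_eq_mul_div, div_le_iff₀ hG0]
    have h1 : Real.log z ≤ L / u := by
      have h2 := Real.log_le_log (by exact_mod_cast hz1) hzle
      rw [Real.log_rpow hN0] at h2
      refine h2.trans (le_of_eq ?_)
      ring
    have h2 : Cs * (2 * cW (Wp w) * (Real.log z + Real.log 4) + KV (Wp w) * P0) ≤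
        2 * Cs * cW (Wp w) * (L / u) + Cs * (2 * cW (Wp w) * Real.log 4 + KV (Wp w) * P0) := by
      have := mul_le_mul_of_nonneg_left h1 (by positivity : 0 ≤ 2 * Cs * cW (Wp w))
      linarith
    refine h2.trans ?_
    have h3 : (4 + κ) * (2 * Cs * cW (Wp w) * (L / u)) ≤ κ / 16 * (cW (Wp w) * L) := by
      have h4 : (4 + κ) * (2 * Cs * cW (Wp w) * (L / u)) =
          (32 * Cs * (4 + κ)) * (cW (Wp w) * L) / (16 * u) := by
        field_simp
        ring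
      rw [h4, div_le_iff₀ (by positivity)]
      have := mul_le_mul_of_nonneg_right huC (by positivity : 0 ≤ cW (Wp w) * L)
      linarith
    have h5 : (4 + κ) * (2 * Cs * cW (Wp w) * (L / u) +
        Cs * (2 * cW (Wp w) * Real.log 4 + KV (Wp w) * P0)) ≤ (4 + κ) * (κ / 4 * SG w R) := by
      have h6 : κ / 4 * (cW (Wp w) * L) ≤ κ / 4 * ((4 + κ) * SG w R) :=
        mul_le_mul_of_nonneg_left hGlow (by positivity)
      have h7 : 0 ≤ κ * (cW (Wp w) * L) := by positivity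
      linarith
    exact le_of_mul_le_mul_left h5 h4κ
  have hPM : ∀ h : ℕ, 1 ≤ h →
      PM w R h ≤ (1 / SG w R ^ 2) * ((1 + κ / 8) * pp w h ^ 25) := by
    intro h hh
    refine (hCP w R h hw2 hR1 hh).trans ?_
    refine mul_le_mul_of_nonneg_left ?_ (by positivity)
    refine mul_le_mul_of_nonneg_right (by linarith) ?_
    exact pow_nonneg (le_trans zero_le_one (one_le_pp w h)) _
  -- the window
  have hHge : max H0 (2 * Wp w) ≤ H := by exact_mod_cast hN7.trans hH1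
  have hHN : H ≤ N := by exact_mod_cast hH2.trans hN1
  have hρ1 : ∀ r ∈ ρ, r < Wp w := fun r hr => (hρ r hr).1
  have hrow := hH0 H ((le_max_left _ _).trans hHge) ρ hρne hρ1
  have hV := (card_VS w H ρ hρ1 ((le_max_right _ _).trans hHge)).1
  have hdiag : 16 ^ u * SG w R * 2 ≤ κ * ((VS w H ρ).card : ℝ) := by
    have h1 : (H:ℝ) / (2 * Wp w) ≤ ((VS w H ρ).card : ℝ) := by
      refine le_trans ?_ hV
      have h2 : (1:ℝ) ≤ ρ.card := by exact_mod_cast hρne.card_pos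
      exact le_mul_of_one_le_left (by positivity) h2
    have h2 : K * L / (2 * Wp w) ≤ (H:ℝ) / (2 * Wp w) :=
      div_le_div_of_nonneg_right hH1 (by positivity)
    have h3 : κ * (K * L / (2 * Wp w)) = 16 ^ u * (CM * L) * 2 := by
      rw [hK]
      field_simp
      ring
    calc 16 ^ u * SG w R * 2 ≤ 16 ^ u * (CM * L) * 2 := by
          refine mul_le_mul_of_nonneg_right (mul_le_mul_of_nonneg_left hGup (by positivity))
            (by norm_num)
      _ = κ * (K * L / (2 * Wp w)) := h3.symm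
      _ ≤ κ * ((VS w H ρ).card : ℝ) := mul_le_mul_of_nonneg_left (h2.trans h1) hκ.le
  exact det hκ hκ1 hR1 hzR hRN hN8 hu1' hzlt hHN hρ hGlow (by
    have : (0:ℝ) < ((XS N w a).card : ℝ) := hX0
    exact_mod_cast this) hXl hXu hE1 hE2 hloss hPM hrow hdiag

end U3aux

open U3aux

/-- U3: a majorant of the primes with constant 4 whose pair correlations are 1 on average. -/
theorem maj_four (κ : ℝ) (hκ : 0 < κ) : ∃ w0 : ℕ, ∀ w : ℕ, w0 ≤ w →
    ∃ K : ℝ, ∀ A : ℕ, ∀ᶠ N : ℕ in atTop, ∀ H : ℕ, K * Real.log N ≤ H → (H:ℝ) ≤ (Real.log N) ^ A →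
    ∀ (a : ℕ) (ρ : Finset ℕ), ρ.Nonempty → (∀ r ∈ ρ, r < Wp w ∧ (a + r).Coprime (Wp w)) →
      ∃ ν4 : XS N w a → VS w H ρ → ℝ, (∀ n d, 0 ≤ ν4 n d) ∧
        (∀ n d, MM N w n d ≤ (4 + κ) * ν4 n d) ∧
        (∀ d, 1 - κ ≤ av (fun n => ν4 n d)) ∧
        (∀ d, av (fun d' => if d' = d then 0 else max (gram ν4 d d' - 1) 0) ≤ κ) ∧
        (∀ d, gram ν4 d d ≤ κ * (Fintype.card (VS w H ρ) : ℝ)) := by
  obtain ⟨w0, h⟩ := maj_four_small (min κ 1) (lt_min hκ one_pos) (min_le_right _ _)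
  have hm : min κ 1 ≤ κ := min_le_left _ _
  refine ⟨w0, fun w hw => ?_⟩
  obtain ⟨K, hK⟩ := h w hw
  refine ⟨K, fun A => ?_⟩
  filter_upwards [hK A] with N hN H hH1 hH2 a ρ hρne hρ
  obtain ⟨ν4, h0, h1, h2, h3, h4⟩ := hN H hH1 hH2 a ρ hρne hρ
  refine ⟨ν4, h0, fun n d => (h1 n d).trans ?_, fun d => ?_, fun d => (h3 d).trans hm,
    fun d => (h4 d).trans ?_⟩
  · exact mul_le_mul_of_nonneg_right (by linarith) (h0 n d)
  · have := h2 d
    linarith
  · exact mul_le_mul_of_nonneg_right hm (Nat.cast_nonneg _)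

end Pool.Agent.HLT
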