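import Mathlib
import Pool.Agent.HLT.NDefs

set_option autoImplicit false

open Finset

namespace Pool.Agent.HLT

open Pool.Agent.HL26

/-- normalised number of `n ∈ (N, 2N]` with all `n + e i` prime -/
noncomputable def rr (N : ℕ) {r : ℕ} (e : Fin r → ℕ) : ℝ :=
  (((Finset.Ioc N (2 * N)).filter (fun n => ∀ i, (n + e i).Prime)).card : ℝ) *
    (Real.log N) ^ r / N

/-- real part of a trigonometric polynomial in `m` variables -/
noncomputable def trigp {R m : ℕ} (θ : Fin R → Fin m → ℝ) (b : Fin R → ℂ) (D : Fin m → ℕ) : ℝ :=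
  ∑ i, (b i * Complex.exp (((2 * Real.pi * ∑ j, θ i j * (D j : ℝ) : ℝ) : ℂ) * Complex.I)).re

/-- normalised Fourier coefficient on `ZMod Q` -/
noncomputable def fh {Q : ℕ} [NeZero Q] (f : ZMod Q → ℂ) (ξ : ZMod Q) : ℂ :=
  (∑ t, f t * ZMod.stdAddChar (-(ξ * t))) / (Q : ℂ)

/-- primes minus their model coprime to `Wp w` -/
noncomputable def fp (N w n : ℕ) : ℝ :=
  (if n.Prime then Real.log N else 0) - (if n.Coprime (Wp w) then 1 / Maynard.cW (Wp w) else 0)

/-- pair kernel of `fp` -/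
noncomputable def KK (N w s s' : ℕ) : ℝ :=
  (∑ n ∈ Finset.Ioc N (2 * N), fp N w (n + s) * fp N w (n + s')) / N

/-- circulant average of `KK` on `ZMod Q` -/
noncomputable def kt (N w Q : ℕ) [NeZero Q] (h : ZMod Q) : ℝ :=
  (∑ s : ZMod Q, KK N w s.val (s + h).val) / Q

end Pool.Agent.HLT
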