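import Mathlib
import Pool.Agent.HLT.ApDefs
import Pool.Agent.HL26.Final
import Pool.Agent.HL26.SieveD
import Pool.Agent.HL26.Degenerate

set_option autoImplicit false

open Finset Filter

namespace Pool.Agent.HLT

open Pool.Agent.HL26 Pool.Agent.Maynard

lemma ApS_card_shift1 (N t : ℕ) (P : ℕ → Prop) [DecidablePred P] :
    ((Finset.Ioc N (2 * N)).filter (fun n => P (n + t))).card ≤
      ((Finset.Ioc N (2 * N)).filter P).card + t := by
  have h1 : (((Finset.Ioc N (2 * N)).filter (fun n => P (n + t))).image (fun n => n + t)).card =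
      ((Finset.Ioc N (2 * N)).filter (fun n => P (n + t))).card :=
    Finset.card_image_of_injective _ (fun a b h => Nat.add_right_cancel h)
  rw [← h1]
  have h2 : ((Finset.Ioc N (2 * N)).filter (fun n => P (n + t))).image (fun n => n + t) ⊆
      (Finset.Ioc N (2 * N)).filter P ∪ Finset.Ioc (2 * N) (2 * N + t) := by
    intro m hm
    rw [Finset.mem_image] at hm
    obtain ⟨n, hn, rfl⟩ := hm
    rw [Finset.mem_filter, Finset.mem_Ioc] at hn
    rw [Finset.mem_union, Finset.mem_filter, Finset.mem_Ioc, Finset.mem_Ioc]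
    by_cases h : n + t ≤ 2 * N
    · exact Or.inl ⟨⟨by omega, h⟩, hn.2⟩
    · exact Or.inr ⟨by omega, by omega⟩
  refine (Finset.card_le_card h2).trans ((Finset.card_union_le _ _).trans ?_)
  simp

lemma ApS_card_shift2 (N t : ℕ) (P : ℕ → Prop) [DecidablePred P] :
    ((Finset.Ioc N (2 * N)).filter P).card ≤
      ((Finset.Ioc N (2 * N)).filter (fun n => P (n + t))).card + t := by
  have h1 : (((Finset.Ioc N (2 * N)).filter (fun n => P (n + t))).image (fun n => n + t)).card =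
      ((Finset.Ioc N (2 * N)).filter (fun n => P (n + t))).card :=
    Finset.card_image_of_injective _ (fun a b h => Nat.add_right_cancel h)
  rw [← h1]
  have h2 : (Finset.Ioc N (2 * N)).filter P ⊆
      ((Finset.Ioc N (2 * N)).filter (fun n => P (n + t))).image (fun n => n + t) ∪
        Finset.Ioc N (N + t) := by
    intro m hm
    rw [Finset.mem_filter, Finset.mem_Ioc] at hm
    rw [Finset.mem_union, Finset.mem_image, Finset.mem_Ioc]
    by_cases h : N + t < m
    · refine Or.inl ⟨m - t, ?_, by omega⟩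
      rw [Finset.mem_filter, Finset.mem_Ioc]
      refine ⟨⟨by omega, by omega⟩, ?_⟩
      have : m - t + t = m := by omega
      rw [this]; exact hm.2
    · exact Or.inr ⟨hm.1.1, by omega⟩
  refine (Finset.card_le_card h2).trans ((Finset.card_union_le _ _).trans ?_)
  simp

lemma ApS_log_pow_small (r : ℕ) (κ : ℝ) (hκ : 0 < κ) : ∀ᶠ x : ℝ in atTop,
    (Real.log x) ^ r / x ≤ κ := by
  filter_upwards [ev_pow_le r κ hκ, eventually_gt_atTop 0] with x hx h0
  rw [div_le_iff₀ h0]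
  exact hx

/-- F0a: shifting all points changes `rr` very little. -/
theorem rr_shift (r : ℕ) (A : ℕ) (κ : ℝ) (hκ : 0 < κ) : ∀ᶠ N : ℕ in atTop,
    ∀ (e : Fin r → ℕ) (t : ℕ), (t:ℝ) ≤ (Real.log N) ^ A →
      |rr N (fun i => e i + t) - rr N e| ≤ κ := by
  have h1 := tendsto_natCast_atTop_atTop.eventually (ApS_log_pow_small (A + r) κ hκ)
  filter_upwards [h1, eventually_ge_atTop 1] with N hN hN1 e t ht
  have hN0 : (0:ℝ) < N := by exact_mod_cast hN1
  have hlog : 0 ≤ Real.log (N:ℝ) := Real.log_nonneg (by exact_mod_cast hN1)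
  have hA := ApS_card_shift1 N t (fun n => ∀ i, (n + e i).Prime)
  have hB := ApS_card_shift2 N t (fun n => ∀ i, (n + e i).Prime)
  unfold rr
  have heq : (Finset.Ioc N (2 * N)).filter (fun n => ∀ i, (n + (fun i => e i + t) i).Prime) =
      (Finset.Ioc N (2 * N)).filter (fun n => ∀ i, (n + t + e i).Prime) := by
    apply Finset.filter_congr
    intro n _
    apply forall_congr'
    intro i
    have : n + (e i + t) = n + t + e i := by ring
    simp only [this]
  rw [heq]
  set a : ℕ := ((Finset.Ioc N (2 * N)).filter (fun n => ∀ i, (n + t + e i).Prime)).card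
  set b : ℕ := ((Finset.Ioc N (2 * N)).filter (fun n => ∀ i, (n + e i).Prime)).card
  have hab : |(a:ℝ) - b| ≤ t := by
    rw [abs_le]
    have h1 : (a:ℝ) ≤ b + t := by exact_mod_cast hA
    have h2 : (b:ℝ) ≤ a + t := by exact_mod_cast hB
    constructor <;> linarith
  have hre : (a:ℝ) * (Real.log N) ^ r / N - (b:ℝ) * (Real.log N) ^ r / N =
      ((a:ℝ) - b) * ((Real.log N) ^ r / N) := by ring
  rw [hre, abs_mul, abs_of_nonneg (by positivity : (0:ℝ) ≤ (Real.log N) ^ r / N)]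
  calc |(a:ℝ) - b| * ((Real.log N) ^ r / N) ≤ (Real.log N) ^ A * ((Real.log N) ^ r / N) :=
        mul_le_mul_of_nonneg_right (hab.trans ht) (by positivity)
    _ = (Real.log N) ^ (A + r) / N := by rw [pow_add]; ring
    _ ≤ κ := hN

/-- number of `m` in `[1, a]` with all `m + e i` prime -/
noncomputable def ApScnt {r : ℕ} (e : Fin r → ℕ) (a : ℕ) : ℕ :=
  ((Finset.Icc 1 a).filter (fun m => ∀ i, (m + e i).Prime)).card

lemma ApS_tupleCount {r : ℕ} (e : Fin r → ℕ) (x : ℝ) :
    tupleCount x (Finset.image e Finset.univ) = ApScnt e ⌊x⌋₊ := by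
  unfold tupleCount ApScnt
  congr 1
  apply Finset.filter_congr
  intro m _
  constructor
  · intro h i
    exact h (e i) (Finset.mem_image_of_mem e (Finset.mem_univ i))
  · intro h d hd
    obtain ⟨i, _, rfl⟩ := Finset.mem_image.1 hd
    exact h i

lemma ApS_step {r : ℕ} (e : Fin r → ℕ) (a N : ℕ) (h1 : 2 * N ≤ a) (h2 : a ≤ 2 * N + 1) :
    ApScnt e N + ((Finset.Ioc N (2 * N)).filter (fun n => ∀ i, (n + e i).Prime)).card ≤ ApScnt e a ∧
    ApScnt e a ≤
      ApScnt e N + ((Finset.Ioc N (2 * N)).filter (fun n => ∀ i, (n + e i).Prime)).card + 1 := by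
  unfold ApScnt
  constructor
  · have hdisj : Disjoint ((Finset.Icc 1 N).filter (fun m => ∀ i, (m + e i).Prime))
        ((Finset.Ioc N (2 * N)).filter (fun n => ∀ i, (n + e i).Prime)) := by
      rw [Finset.disjoint_left]
      intro m hm hm'
      rw [Finset.mem_filter, Finset.mem_Icc] at hm
      rw [Finset.mem_filter, Finset.mem_Ioc] at hm'
      omega
    rw [← Finset.card_union_of_disjoint hdisj]
    apply Finset.card_le_card
    intro m hm
    rw [Finset.mem_union, Finset.mem_filter, Finset.mem_filter, Finset.mem_Icc, Finset.mem_Ioc] at hm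
    rw [Finset.mem_filter, Finset.mem_Icc]
    rcases hm with hm | hm
    · exact ⟨⟨hm.1.1, by omega⟩, hm.2⟩
    · exact ⟨⟨by omega, by omega⟩, hm.2⟩
  · have hsub : (Finset.Icc 1 a).filter (fun m => ∀ i, (m + e i).Prime) ⊆
        ((Finset.Icc 1 N).filter (fun m => ∀ i, (m + e i).Prime) ∪
        (Finset.Ioc N (2 * N)).filter (fun n => ∀ i, (n + e i).Prime)) ∪ {2 * N + 1} := by
      intro m hm
      rw [Finset.mem_filter, Finset.mem_Icc] at hm
      rw [Finset.mem_union, Finset.mem_union, Finset.mem_filter, Finset.mem_filter,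
        Finset.mem_Icc, Finset.mem_Ioc, Finset.mem_singleton]
      by_cases h : m ≤ N
      · exact Or.inl (Or.inl ⟨⟨hm.1.1, h⟩, hm.2⟩)
      · by_cases h' : m ≤ 2 * N
        · exact Or.inl (Or.inr ⟨⟨by omega, h'⟩, hm.2⟩)
        · exact Or.inr (by omega)
    refine (Finset.card_le_card hsub).trans ((Finset.card_union_le _ _).trans ?_)
    rw [Finset.card_singleton]
    have := Finset.card_union_le ((Finset.Icc 1 N).filter (fun m => ∀ i, (m + e i).Prime))
      ((Finset.Ioc N (2 * N)).filter (fun n => ∀ i, (n + e i).Prime))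
    omega

lemma ApS_blocks {r : ℕ} (e : Fin r → ℕ) (y : ℕ) (I : ℕ) :
    ApScnt e (y / 2 ^ I) + ∑ i ∈ Finset.range I, ((Finset.Ioc (y / 2 ^ (i + 1))
      (2 * (y / 2 ^ (i + 1)))).filter (fun n => ∀ i, (n + e i).Prime)).card ≤ ApScnt e y ∧
    ApScnt e y ≤ ApScnt e (y / 2 ^ I) + ∑ i ∈ Finset.range I, ((Finset.Ioc (y / 2 ^ (i + 1))
      (2 * (y / 2 ^ (i + 1)))).filter (fun n => ∀ i, (n + e i).Prime)).card + I := by
  induction I with
  | zero => simp
  | succ I ih =>
    have hdiv : y / 2 ^ (I + 1) = y / 2 ^ I / 2 := by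
      rw [pow_succ, Nat.div_div_eq_div_mul]
    have h := ApS_step e (y / 2 ^ I) (y / 2 ^ (I + 1)) (by rw [hdiv]; omega) (by rw [hdiv]; omega)
    rw [Finset.sum_range_succ]
    omega

lemma ApS_le_tupleCount {r : ℕ} (e : Fin r → ℕ) (x : ℝ) (I : ℕ) :
    (ApScnt e (⌊x⌋₊ / 2 ^ I)) = tupleCount (x / 2 ^ I) (Finset.image e Finset.univ) := by
  rw [ApS_tupleCount]
  have : ⌊x / 2 ^ I⌋₊ = ⌊x⌋₊ / 2 ^ I := by
    have := Nat.floor_div_natCast x (2 ^ I)
    push_cast at this
    exact this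
  rw [this]

/-- F0b: decomposition of the tuple count into dyadic blocks. -/
theorem tupleCount_blocks (r : ℕ) (hr : 2 ≤ r) : ∃ C : ℝ, 0 < C ∧ ∀ (I0 : ℕ) (κ : ℝ), 0 < κ →
    ∀ᶠ x : ℝ in atTop, ∀ e : Fin r → ℕ, Function.Injective e →
      |(tupleCount x (Finset.image e Finset.univ) : ℝ) * (Real.log x) ^ r / x -
        ∑ i ∈ Finset.range I0, (((⌊x⌋₊ / 2 ^ (i + 1) : ℕ) : ℝ) / x *
          (Real.log x / Real.log ((⌊x⌋₊ / 2 ^ (i + 1) : ℕ) : ℝ)) ^ r) *
            rr (⌊x⌋₊ / 2 ^ (i + 1)) e| ≤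
        C * singularSeries (Finset.image e Finset.univ) / 2 ^ I0 + κ := by
  obtain ⟨C, hC, hsieve⟩ := exists_sieve_bound r (by omega)
  refine ⟨2 * C, by positivity, ?_⟩
  intro I0 κ hκ
  -- x / 2 ^ I0 tends to infinity
  have hlim : Tendsto (fun x : ℝ => x / 2 ^ I0) atTop atTop :=
    tendsto_id.atTop_div_const (by positivity)
  have hlim2 : Tendsto (fun x : ℝ => Real.log x / Real.log (x / 2 ^ I0)) atTop (nhds 1) := by
    have h1 : Tendsto (fun x : ℝ => 1 + (I0 * Real.log 2) / Real.log (x / 2 ^ I0)) atTop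
        (nhds (1 + 0)) := by
      apply Tendsto.add tendsto_const_nhds
      exact Tendsto.div_atTop tendsto_const_nhds (Real.tendsto_log_atTop.comp hlim)
    rw [add_zero] at h1
    refine h1.congr' ?_
    filter_upwards [eventually_gt_atTop 0, hlim.eventually (eventually_gt_atTop 1)] with x hx hx1
    have h2 : Real.log (x / 2 ^ I0) = Real.log x - I0 * Real.log 2 := by
      rw [Real.log_div hx.ne' (by positivity), Real.log_pow]
    have h3 : 0 < Real.log (x / 2 ^ I0) := Real.log_pos hx1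
    rw [h2] at h3 ⊢
    field_simp
    ring
  have hlim3 : ∀ᶠ x : ℝ in atTop, (Real.log x / Real.log (x / 2 ^ I0)) ^ r ≤ 2 := by
    have h4 : Tendsto (fun x : ℝ => (Real.log x / Real.log (x / 2 ^ I0)) ^ r) atTop (nhds (1 ^ r)) :=
      hlim2.pow r
    rw [one_pow] at h4
    filter_upwards [h4.eventually (Iic_mem_nhds (by norm_num : (1:ℝ) < 2))] with x hx
    exact hx
  have hsmall := ApS_log_pow_small r (κ / (2 * (I0 + r + 1))) (by positivity)
  filter_upwards [hlim.eventually hsieve, hlim3, hsmall, eventually_gt_atTop 1,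
    hlim.eventually (eventually_gt_atTop 2)] with x hx1 hx2 hx3 hx4 hx5 e he
  have hx0 : 0 < x := by linarith
  have hlogx : 0 < Real.log x := Real.log_pos hx4
  set E := Finset.image e Finset.univ with hE
  have hcard : E.card = r := by
    rw [hE, Finset.card_image_of_injective _ he, Finset.card_univ, Fintype.card_fin]
  have hS0 : 0 ≤ singularSeries E := singularSeries_nonneg E
  -- normalised blocks
  have hblk : ∀ i ∈ Finset.range I0, (((⌊x⌋₊ / 2 ^ (i + 1) : ℕ) : ℝ) / x *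
          (Real.log x / Real.log ((⌊x⌋₊ / 2 ^ (i + 1) : ℕ) : ℝ)) ^ r) *
            rr (⌊x⌋₊ / 2 ^ (i + 1)) e =
      (((Finset.Ioc (⌊x⌋₊ / 2 ^ (i + 1)) (2 * (⌊x⌋₊ / 2 ^ (i + 1)))).filter
        (fun n => ∀ i, (n + e i).Prime)).card : ℝ) * ((Real.log x) ^ r / x) := by
    intro i hi
    have hi' : i + 1 ≤ I0 := by
      have := Finset.mem_range.1 hi
      omega
    have hN2 : 2 ≤ ⌊x⌋₊ / 2 ^ (i + 1) := by
      have h1 : ⌊x / 2 ^ I0⌋₊ = ⌊x⌋₊ / 2 ^ I0 := by
        have := Nat.floor_div_natCast x (2 ^ I0)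
        push_cast at this
        exact this
      have h2 : 2 ≤ ⌊x / 2 ^ I0⌋₊ := Nat.le_floor (by push_cast; linarith)
      rw [h1] at h2
      refine h2.trans (Nat.div_le_div_left ?_ (by positivity))
      exact Nat.pow_le_pow_right (by norm_num) hi'
    have hN0 : (0:ℝ) < ((⌊x⌋₊ / 2 ^ (i + 1) : ℕ) : ℝ) := by
      exact_mod_cast (by omega : 0 < ⌊x⌋₊ / 2 ^ (i + 1))
    have hlogN : 0 < Real.log ((⌊x⌋₊ / 2 ^ (i + 1) : ℕ) : ℝ) := by
      apply Real.log_pos
      exact_mod_cast (by omega : 1 < ⌊x⌋₊ / 2 ^ (i + 1))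
    unfold rr
    rw [div_pow]
    field_simp
  rw [Finset.sum_congr rfl hblk, ← Finset.sum_mul]
  have hb := ApS_blocks e ⌊x⌋₊ I0
  rw [ApS_le_tupleCount, ← ApS_tupleCount] at hb
  rw [← hE] at hb
  set u : ℕ := tupleCount x E
  set v : ℕ := tupleCount (x / 2 ^ I0) E with hv
  have hsum : (∑ i ∈ Finset.range I0, (((Finset.Ioc (⌊x⌋₊ / 2 ^ (i + 1))
      (2 * (⌊x⌋₊ / 2 ^ (i + 1)))).filter (fun n => ∀ i, (n + e i).Prime)).card : ℝ)) =
      ((∑ i ∈ Finset.range I0, ((Finset.Ioc (⌊x⌋₊ / 2 ^ (i + 1))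
      (2 * (⌊x⌋₊ / 2 ^ (i + 1)))).filter (fun n => ∀ i, (n + e i).Prime)).card : ℕ) : ℝ) := by
    push_cast
    rfl
  rw [hsum]
  set s : ℕ := ∑ i ∈ Finset.range I0, ((Finset.Ioc (⌊x⌋₊ / 2 ^ (i + 1))
      (2 * (⌊x⌋₊ / 2 ^ (i + 1)))).filter (fun n => ∀ i, (n + e i).Prime)).card
  have hb1 : (v:ℝ) + s ≤ u := by exact_mod_cast hb.1
  have hb2 : (u:ℝ) ≤ v + s + I0 := by exact_mod_cast hb.2
  have hL0 : 0 < (Real.log x) ^ r / x := by positivity
  have hre : (u:ℝ) * (Real.log x) ^ r / x - s * ((Real.log x) ^ r / x) =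
      ((u:ℝ) - s) * ((Real.log x) ^ r / x) := by ring
  rw [hre, abs_mul, abs_of_pos hL0]
  have hus : |(u:ℝ) - s| ≤ v + I0 := by
    have hv0 : (0:ℝ) ≤ v := Nat.cast_nonneg _
    have hI0 : (0:ℝ) ≤ I0 := Nat.cast_nonneg _
    rw [abs_le]
    constructor <;> linarith
  refine (mul_le_mul_of_nonneg_right hus hL0.le).trans ?_
  rw [add_mul]
  have hIr : ((I0:ℝ) + r) * ((Real.log x) ^ r / x) ≤ κ := by
    have h1 : (0:ℝ) ≤ (I0:ℝ) + r := by positivity
    calc ((I0:ℝ) + r) * ((Real.log x) ^ r / x) ≤ ((I0:ℝ) + r) * (κ / (2 * (I0 + r + 1))) :=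
          mul_le_mul_of_nonneg_left hx3 h1
      _ = κ * (((I0:ℝ) + r) / (2 * (I0 + r + 1))) := by ring
      _ ≤ κ * 1 := by
          apply mul_le_mul_of_nonneg_left _ hκ.le
          rw [div_le_one (by positivity)]
          linarith
      _ = κ := mul_one _
  rcases hS0.lt_or_eq with hSpos | hSz
  · have h1 := hx1 E hcard (fun p hp => admissible_of_pos E hSpos p hp)
    have hlogy : 0 < Real.log (x / 2 ^ I0) := Real.log_pos (by linarith)
    have h2 : (v:ℝ) * ((Real.log x) ^ r / x) ≤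
        C * (singularSeries E * ((x / 2 ^ I0) / (Real.log (x / 2 ^ I0)) ^ r)) *
          ((Real.log x) ^ r / x) := mul_le_mul_of_nonneg_right h1 hL0.le
    have h3 : C * (singularSeries E * ((x / 2 ^ I0) / (Real.log (x / 2 ^ I0)) ^ r)) *
          ((Real.log x) ^ r / x) =
        C * singularSeries E / 2 ^ I0 * (Real.log x / Real.log (x / 2 ^ I0)) ^ r := by
      rw [div_pow]
      field_simp
    have h4 : C * singularSeries E / 2 ^ I0 * (Real.log x / Real.log (x / 2 ^ I0)) ^ r ≤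
        C * singularSeries E / 2 ^ I0 * 2 :=
      mul_le_mul_of_nonneg_left hx2 (by positivity)
    have h5 : (I0:ℝ) * ((Real.log x) ^ r / x) ≤ ((I0:ℝ) + r) * ((Real.log x) ^ r / x) := by
      apply mul_le_mul_of_nonneg_right _ hL0.le
      have : (0:ℝ) ≤ r := Nat.cast_nonneg _
      linarith
    have h6 : C * singularSeries E / 2 ^ I0 * 2 = 2 * C * singularSeries E / 2 ^ I0 := by ring
    linarith
  · have h1 : v ≤ E.card := tupleCount_le_of_zero E hSz.symm _
    rw [hcard] at h1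
    have h2 : (v:ℝ) ≤ r := by exact_mod_cast h1
    have h3 : (v:ℝ) * ((Real.log x) ^ r / x) ≤ r * ((Real.log x) ^ r / x) :=
      mul_le_mul_of_nonneg_right h2 hL0.le
    rw [← hSz]
    have h4 : ((I0:ℝ) + r) * ((Real.log x) ^ r / x) =
      I0 * ((Real.log x) ^ r / x) + r * ((Real.log x) ^ r / x) := by ring
    simp only [mul_zero, zero_div, zero_add]
    linarith

lemma ApS_pair_eq (a h : ℕ) :
    ({a, a + h} : Finset ℕ) = ({0, h} : Finset ℕ).image (fun x => x + a) := by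
  rw [Finset.image_insert, Finset.image_singleton]
  simp [add_comm]

lemma ApS_nu (a h p : ℕ) : nu {a, a + h} p = nu {0, h} p := by
  rw [ApS_pair_eq]
  unfold nu
  rw [Finset.image_image]
  have h1 : ({0, h} : Finset ℕ).image ((fun e : ℕ => (e : ZMod p)) ∘ fun x => x + a) =
      (({0, h} : Finset ℕ).image (fun e : ℕ => (e : ZMod p))).image
        (fun z => z + (a : ZMod p)) := by
    rw [Finset.image_image]
    refine Finset.image_congr fun e _ => ?_
    simp [Function.comp]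
  rw [h1, Finset.card_image_of_injective _ (add_left_injective _)]

lemma ApS_card (a h : ℕ) : ({a, a + h} : Finset ℕ).card = ({0, h} : Finset ℕ).card := by
  rw [ApS_pair_eq, Finset.card_image_of_injective _ (add_left_injective _)]

lemma ApS_S (a h : ℕ) : singularSeries {a, a + h} = singularSeries {0, h} := by
  unfold singularSeries
  simp only [ApS_nu, ApS_card]

/-- averaging over translates -/
lemma ApS_count (f : Finset ℕ → ℝ) (hf : ∀ E, 0 ≤ f E)
    (hinv : ∀ a h, f {a, a + h} = f {0, h}) (M : ℕ) :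
    ((M : ℝ) + 1) * ∑ h ∈ Finset.Icc 1 M, f {0, h} ≤
      ∑ E ∈ (Finset.range (2 * M + 1)).powersetCard 2, f E := by
  classical
  have h1 : ((M : ℝ) + 1) * ∑ h ∈ Finset.Icc 1 M, f {0, h} =
      ∑ q ∈ Finset.range (M + 1) ×ˢ Finset.Icc 1 M, f {q.1, q.1 + q.2} := by
    rw [Finset.sum_product]
    have h2 : ∀ x ∈ Finset.range (M + 1), ∑ y ∈ Finset.Icc 1 M, f {x, x + y} =
        ∑ y ∈ Finset.Icc 1 M, f {0, y} := fun x _ =>
      Finset.sum_congr rfl fun y _ => hinv x y
    rw [Finset.sum_congr rfl h2, Finset.sum_const, Finset.card_range, nsmul_eq_mul]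
    push_cast
    ring
  have hinj : Set.InjOn (fun q : ℕ × ℕ => ({q.1, q.1 + q.2} : Finset ℕ))
      (Finset.range (M + 1) ×ˢ Finset.Icc 1 M : Finset (ℕ × ℕ)) := by
    rintro ⟨a, h⟩ hq ⟨b, h'⟩ hq' he
    simp only [Finset.coe_product, Set.mem_prod, Finset.mem_coe, Finset.mem_range,
      Finset.mem_Icc] at hq hq'
    simp only at he
    have e1 : a ∈ ({b, b + h'} : Finset ℕ) := by rw [← he]; simp
    have e2 : a + h ∈ ({b, b + h'} : Finset ℕ) := by rw [← he]; simp
    have e3 : b ∈ ({a, a + h} : Finset ℕ) := by rw [he]; simp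
    simp only [Finset.mem_insert, Finset.mem_singleton] at e1 e2 e3
    have e4 : a = b := by omega
    have e5 : h = h' := by omega
    rw [e4, e5]
  rw [h1, ← Finset.sum_image (f := f) hinj]
  refine Finset.sum_le_sum_of_subset_of_nonneg ?_ fun E _ _ => hf E
  intro E hE
  rw [Finset.mem_image] at hE
  obtain ⟨⟨a, h⟩, hq, rfl⟩ := hE
  simp only [Finset.mem_product, Finset.mem_range, Finset.mem_Icc] at hq
  rw [Finset.mem_powersetCard]
  refine ⟨?_, ?_⟩
  · intro x hx
    simp only [Finset.mem_insert, Finset.mem_singleton] at hx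
    rw [Finset.mem_range]
    omega
  · exact Finset.card_pair (by omega)

/-- F0c: first and second moment of the singular series of pairs. -/
theorem sum_sing_pair : ∃ C : ℝ, 1 ≤ C ∧ ∀ H : ℕ, 1 ≤ H →
    ∑ d ∈ Finset.Icc 1 H, singularSeries {0, d} ≤ C * (H:ℝ) ∧
    ∑ d ∈ Finset.Icc 1 H, singularSeries {0, d} ^ 2 ≤ C * (H:ℝ) := by
  obtain ⟨C, hC, hsq⟩ := sum_singularSeries_sq_le 2 le_rfl
  refine ⟨1 + 8 * C, by linarith, ?_⟩
  intro H hH
  have hHr : (1:ℝ) ≤ H := by exact_mod_cast hH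
  have h1 := ApS_count (fun E => (singularSeries E) ^ 2) (fun E => sq_nonneg _)
    (fun a h => by simp only [ApS_S]) H
  have h2 := hsq (2 * H)
  have h3 : ((H:ℝ) + 1) * ∑ d ∈ Finset.Icc 1 H, singularSeries {0, d} ^ 2 ≤
      C * (((2 * H : ℕ) : ℝ) + 1) ^ 2 := h1.trans h2
  push_cast at h3
  have h4 : ∑ d ∈ Finset.Icc 1 H, singularSeries {0, d} ^ 2 ≤ 8 * C * (H:ℝ) := by
    have h5 : C * (2 * (H:ℝ) + 1) ^ 2 ≤ ((H:ℝ) + 1) * (8 * C * H) := by
      have : (2 * (H:ℝ) + 1) ^ 2 ≤ ((H:ℝ) + 1) * (8 * H) := by nlinarith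
      calc C * (2 * (H:ℝ) + 1) ^ 2 ≤ C * (((H:ℝ) + 1) * (8 * H)) :=
            mul_le_mul_of_nonneg_left this hC.le
        _ = _ := by ring
    exact le_of_mul_le_mul_left (h3.trans h5) (by linarith)
  have h6 : ∑ d ∈ Finset.Icc 1 H, singularSeries {0, d} ≤
      ∑ d ∈ Finset.Icc 1 H, (1 + singularSeries {0, d} ^ 2) := by
    apply Finset.sum_le_sum
    intro d _
    nlinarith [sq_nonneg (singularSeries {0, d} - 1)]
  rw [Finset.sum_add_distrib, Finset.sum_const, Nat.card_Icc, nsmul_eq_mul, mul_one] at h6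
  have h7 : ((H + 1 - 1 : ℕ) : ℝ) = H := by simp
  rw [h7] at h6
  constructor
  · linarith
  · linarith

end Pool.Agent.HLT
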