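import Mathlib
import Pool.Agent.HLT.Defs

set_option autoImplicit false

open Finset

namespace Pool.Agent.HLT

section av

variable {α β : Type} [Fintype α] [Fintype β]

lemma av_nonneg {f : α → ℝ} (h : ∀ i, 0 ≤ f i) : 0 ≤ av f :=
  div_nonneg (Finset.sum_nonneg fun i _ => h i) (Nat.cast_nonneg _)

lemma av_mono {f g : α → ℝ} (h : ∀ i, f i ≤ g i) : av f ≤ av g :=
  div_le_div_of_nonneg_right (Finset.sum_le_sum fun i _ => h i) (Nat.cast_nonneg _)

lemma av_add (f g : α → ℝ) : av (fun i => f i + g i) = av f + av g := by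
  unfold av; rw [Finset.sum_add_distrib, add_div]

lemma av_sub (f g : α → ℝ) : av (fun i => f i - g i) = av f - av g := by
  unfold av; rw [Finset.sum_sub_distrib, sub_div]

lemma av_mul_left (c : ℝ) (f : α → ℝ) : av (fun i => c * f i) = c * av f := by
  unfold av; rw [← Finset.mul_sum, mul_div_assoc]

lemma av_mul_right (c : ℝ) (f : α → ℝ) : av (fun i => f i * c) = av f * c := by
  unfold av; rw [← Finset.sum_mul, div_mul_eq_mul_div]

lemma av_const [Nonempty α] (c : ℝ) : av (fun _ : α => c) = c := by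
  unfold av
  rw [Finset.sum_const, Finset.card_univ, nsmul_eq_mul]
  have : (Fintype.card α : ℝ) ≠ 0 := by exact_mod_cast Fintype.card_ne_zero
  field_simp

lemma av_zero : av (fun _ : α => (0:ℝ)) = 0 := by
  unfold av; simp

lemma av_comm (f : α → β → ℝ) :
    av (fun i => av (fun j => f i j)) = av (fun j => av (fun i => f i j)) := by
  unfold av
  simp_rw [Finset.sum_div]
  rw [Finset.sum_comm]
  refine Finset.sum_congr rfl fun j _ => Finset.sum_congr rfl fun i _ => ?_
  rw [div_div, div_div, mul_comm]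

lemma av_sum {ι : Type*} (s : Finset ι) (f : ι → α → ℝ) :
    av (fun i => ∑ k ∈ s, f k i) = ∑ k ∈ s, av (f k) := by
  unfold av
  rw [Finset.sum_comm, Finset.sum_div]

lemma abs_av_le (f : α → ℝ) : |av f| ≤ av (fun i => |f i|) := by
  unfold av
  rw [abs_div, abs_of_nonneg (Nat.cast_nonneg (α := ℝ) (Fintype.card α))]
  exact div_le_div_of_nonneg_right (Finset.abs_sum_le_sum_abs _ _) (Nat.cast_nonneg _)

lemma av_cs_weight (w f : α → ℝ) (hw : ∀ i, 0 ≤ w i) :
    (av (fun i => w i * f i)) ^ 2 ≤ av w * av (fun i => w i * f i ^ 2) := by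
  unfold av
  rw [div_pow, div_mul_div_comm, ← pow_two]
  refine div_le_div_of_nonneg_right ?_ (by positivity)
  have h := Finset.sum_mul_sq_le_sq_mul_sq (univ : Finset α) (fun i => √(w i))
    (fun i => √(w i) * f i)
  have e1 : ∀ i, √(w i) * (√(w i) * f i) = w i * f i := fun i => by
    rw [← mul_assoc, Real.mul_self_sqrt (hw i)]
  have e2 : ∀ i, √(w i) ^ 2 = w i := fun i => Real.sq_sqrt (hw i)
  have e3 : ∀ i, (√(w i) * f i) ^ 2 = w i * f i ^ 2 := fun i => by rw [mul_pow, e2]
  simp only [e1, e2, e3] at h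
  exact h

lemma av_cs (f g : α → ℝ) :
    (av (fun i => f i * g i)) ^ 2 ≤ av (fun i => f i ^ 2) * av (fun i => g i ^ 2) := by
  unfold av
  rw [div_pow, div_mul_div_comm, ← pow_two]
  refine div_le_div_of_nonneg_right ?_ (by positivity)
  exact Finset.sum_mul_sq_le_sq_mul_sq _ _ _

lemma sq_av_le [Nonempty α] (f : α → ℝ) : (av f) ^ 2 ≤ av (fun i => f i ^ 2) := by
  have h := av_cs_weight (fun _ : α => (1:ℝ)) f (fun _ => zero_le_one)
  simp only [one_mul] at h
  rwa [av_const, one_mul] at h

lemma av_mul_av (f : α → ℝ) (g : β → ℝ) :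
    av f * av g = av (fun i => av (fun j => f i * g j)) := by
  have : ∀ i, av (fun j => f i * g j) = f i * av g := fun i => av_mul_left _ _
  simp_rw [this, av_mul_right]

lemma av_eq_zero_of {f : α → ℝ} (h : ∀ i, f i = 0) : av f = 0 := by
  have : f = fun _ => 0 := funext h
  rw [this, av_zero]

lemma av_nonneg_le_sum {f : α → ℝ} (h : ∀ i, 0 ≤ f i) (i : α) :
    f i / (Fintype.card α : ℝ) ≤ av f :=
  div_le_div_of_nonneg_right (Finset.single_le_sum (fun j _ => h j) (mem_univ i))
    (Nat.cast_nonneg _)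

/-- average over tuples of a product -/
lemma av_pi_prod {r : ℕ} (F : Fin r → α → ℝ) :
    av (fun e : Fin r → α => ∏ i, F i (e i)) = ∏ i, av (F i) := by
  classical
  unfold av
  rw [Finset.prod_div_distrib, Fintype.card_fun, Fintype.card_fin]
  have h : ∑ e : Fin r → α, ∏ i, F i (e i) = ∏ i, ∑ j, F i j := by
    rw [Finset.prod_univ_sum, Fintype.piFinset_univ]
  rw [h]
  congr 1
  rw [Finset.prod_const, Finset.card_univ, Fintype.card_fin]
  push_cast
  rfl

/-- Jensen for powers -/
lemma pow_av_le [Nonempty α] (f : α → ℝ) (hf : ∀ i, 0 ≤ f i) (r : ℕ) :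
    (av f) ^ r ≤ av (fun i => f i ^ r) := by
  rcases Nat.eq_zero_or_pos r with rfl | hr
  · simp [av_const]
  unfold av
  have hc : (0:ℝ) < Fintype.card α := by exact_mod_cast Fintype.card_pos
  have h := Real.pow_arith_mean_le_arith_mean_pow (univ : Finset α)
    (fun _ => 1 / (Fintype.card α : ℝ)) f (fun _ _ => by positivity)
    (by rw [Finset.sum_const, Finset.card_univ, nsmul_eq_mul]; field_simp) (fun i _ => hf i) r
  have e1 : ∀ g : α → ℝ, ∑ i, 1 / (Fintype.card α : ℝ) * g i = (∑ i, g i) / Fintype.card α := by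
    intro g
    rw [← Finset.mul_sum]; ring
  rw [e1, e1] at h
  exact h

end av

section proj

variable {V : Type} [Fintype V] {J J' : ℕ}

lemma cell_pos (χ : V → Fin J) (d : V) :
    (0:ℝ) < ((univ.filter (fun e => χ e = χ d)).card : ℝ) := by
  have : 0 < (univ.filter (fun e => χ e = χ d)).card :=
    Finset.card_pos.mpr ⟨d, by simp⟩
  exact_mod_cast this

lemma proj_congr (χ : V → Fin J) (u : V → ℝ) {d d' : V} (h : χ d = χ d') :
    proj χ u d = proj χ u d' := by
  unfold proj; rw [h]

lemma proj_nonneg (χ : V → Fin J) {u : V → ℝ} (h : ∀ d, 0 ≤ u d) (d : V) : 0 ≤ proj χ u d :=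
  div_nonneg (Finset.sum_nonneg fun i _ => h i) (Nat.cast_nonneg _)

lemma proj_mono (χ : V → Fin J) {u v : V → ℝ} (h : ∀ d, u d ≤ v d) (d : V) :
    proj χ u d ≤ proj χ v d :=
  div_le_div_of_nonneg_right (Finset.sum_le_sum fun i _ => h i) (Nat.cast_nonneg _)

lemma proj_const (χ : V → Fin J) (c : ℝ) (d : V) : proj χ (fun _ => c) d = c := by
  unfold proj
  rw [Finset.sum_const, nsmul_eq_mul]
  have := (cell_pos χ d).ne'
  field_simp

lemma proj_add (χ : V → Fin J) (u v : V → ℝ) (d : V) :
    proj χ (fun e => u e + v e) d = proj χ u d + proj χ v d := by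
  unfold proj; rw [Finset.sum_add_distrib, add_div]

lemma proj_sub (χ : V → Fin J) (u v : V → ℝ) (d : V) :
    proj χ (fun e => u e - v e) d = proj χ u d - proj χ v d := by
  unfold proj; rw [Finset.sum_sub_distrib, sub_div]

lemma proj_mul_left (χ : V → Fin J) (c : ℝ) (u : V → ℝ) (d : V) :
    proj χ (fun e => c * u e) d = c * proj χ u d := by
  unfold proj; rw [← Finset.mul_sum, mul_div_assoc]

lemma abs_proj_le (χ : V → Fin J) (u : V → ℝ) (d : V) :
    |proj χ u d| ≤ proj χ (fun e => |u e|) d := by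
  unfold proj
  rw [abs_div, abs_of_pos (cell_pos χ d)]
  exact div_le_div_of_nonneg_right (Finset.abs_sum_le_sum_abs _ _) (Nat.cast_nonneg _)

lemma proj_sq_le (χ : V → Fin J) (u : V → ℝ) (d : V) :
    (proj χ u d) ^ 2 ≤ proj χ (fun e => u e ^ 2) d := by
  unfold proj
  have hc := cell_pos χ d
  rw [div_pow, div_le_div_iff₀ (by positivity) hc]
  have h := sq_sum_le_card_mul_sum_sq (s := univ.filter (fun e => χ e = χ d)) (f := u)
  nlinarith [h, hc]

/-- sum of a projection against a function -/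
lemma sum_proj_mul (χ : V → Fin J) (u v : V → ℝ) :
    ∑ d, proj χ u d * v d = ∑ d, u d * proj χ v d := by
  classical
  have key : ∀ a b : V → ℝ, ∑ d, proj χ a d * b d =
      ∑ d, ∑ e, (if χ e = χ d then a e * b d / ((univ.filter (fun e' => χ e' = χ d)).card : ℝ)
        else 0) := by
    intro a b
    refine Finset.sum_congr rfl fun d _ => ?_
    unfold proj
    rw [← Finset.sum_filter, div_mul_eq_mul_div, Finset.sum_mul, Finset.sum_div]
  rw [key]
  have key2 : ∑ d, u d * proj χ v d = ∑ d, proj χ v d * u d :=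
    Finset.sum_congr rfl fun d _ => mul_comm _ _
  rw [key2, key, Finset.sum_comm]
  refine Finset.sum_congr rfl fun d _ => Finset.sum_congr rfl fun e _ => ?_
  by_cases h : χ d = χ e
  · rw [if_pos h, if_pos h.symm, h, mul_comm]
  · rw [if_neg h, if_neg (Ne.symm h)]

lemma av_proj_mul (χ : V → Fin J) (u v : V → ℝ) :
    av (fun d => proj χ u d * v d) = av (fun d => u d * proj χ v d) := by
  unfold av; rw [sum_proj_mul]

lemma av_proj (χ : V → Fin J) (u : V → ℝ) : av (fun d => proj χ u d) = av u := by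
  have h := av_proj_mul χ u (fun _ => 1)
  simpa [proj_const] using h

lemma proj_mul_of_meas (χ : V → Fin J) {v : V → ℝ} (h : ∀ d d', χ d = χ d' → v d = v d')
    (u : V → ℝ) (d : V) : proj χ (fun e => v e * u e) d = v d * proj χ u d := by
  unfold proj
  rw [← mul_div_assoc, Finset.mul_sum]
  congr 1
  refine Finset.sum_congr rfl fun e he => ?_
  simp only
  rw [h e d (Finset.mem_filter.mp he).2]

lemma proj_of_meas (χ : V → Fin J) {v : V → ℝ} (h : ∀ d d', χ d = χ d' → v d = v d') (d : V) :
    proj χ v d = v d := by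
  have := proj_mul_of_meas χ h (fun _ => 1) d
  simpa [proj_const] using this

lemma proj_proj (χ : V → Fin J) (u : V → ℝ) (d : V) :
    proj χ (fun e => proj χ u e) d = proj χ u d :=
  proj_of_meas χ (fun _ _ h => proj_congr χ u h) d

/-- tower property: `χ'` is finer than `χ` -/
lemma proj_proj_of_refine (χ : V → Fin J) (χ' : V → Fin J')
    (h : ∀ d d', χ' d = χ' d' → χ d = χ d') (u : V → ℝ) (d : V) :
    proj χ (fun e => proj χ' u e) d = proj χ u d := by
  classical
  unfold proj
  congr 1
  have h1 := sum_proj_mul χ' u (fun e => if χ e = χ d then 1 else 0)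
  have h2 : ∀ e, proj χ' (fun e' => if χ e' = χ d then (1:ℝ) else 0) e =
      if χ e = χ d then 1 else 0 := by
    intro e
    refine proj_of_meas χ' ?_ e
    intro a b hab
    rw [h a b hab]
  simp only [h2] at h1
  simp only [mul_ite, mul_one, mul_zero, ← Finset.sum_filter] at h1
  exact h1

end proj

end Pool.Agent.HLT
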