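import Mathlib
import Pool.Agent.HLT.Defs
import Pool.Agent.HLT.AvProj

set_option autoImplicit false

open Finset

namespace Pool.Agent.HLT

lemma E1_sum_emb {r K : ℕ} (G : (Fin r → Fin K) → ℝ) :
    ∑ φ ∈ (univ : Finset (Fin r → Fin K)).filter (fun φ => Function.Injective φ), G φ =
      ∑ I : Fin r ↪ Fin K, G I := by
  classical
  symm
  apply Finset.sum_bij (fun (I : Fin r ↪ Fin K) _ => (I : Fin r → Fin K))
  · intro I _
    simp only [mem_filter, mem_univ, true_and]
    exact I.injective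
  · intro I _ I' _ h
    exact DFunLike.coe_injective h
  · intro φ hφ
    simp only [mem_filter, mem_univ, true_and] at hφ
    exact ⟨⟨φ, hφ⟩, mem_univ _, rfl⟩
  · intro I _
    rfl

lemma E1_core (m K : ℕ) (hK : m + 1 ≤ K) {X : Type} [Fintype X] [Nonempty X] (F : Fin K → X → ℝ)
    (T0 : ℝ) (hF : ∀ i n, 0 ≤ F i n) (hFT : ∀ i n, F i n ≤ T0) (η : ℝ) (hη0 : 0 ≤ η) (hη1 : η ≤ 1)
    (hmean : (K:ℝ) * (1 - η) ≤ ∑ i, av (F i)) :
    (K:ℝ) ^ (m + 1) * (1 - (m + 1) * η) - (m:ℝ) * (m + 1) * (K:ℝ) ^ m * T0 ^ (m + 1) ≤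
      ∑ I : Fin (m + 1) ↪ Fin K, av (fun n => ∏ j, F (I j) n) := by
  classical
  have hK0 : 0 < K := by omega
  have hKr : (0:ℝ) < K := by exact_mod_cast hK0
  have : Nonempty (Fin K) := ⟨⟨0, hK0⟩⟩
  obtain ⟨n0⟩ := (inferInstance : Nonempty X)
  have hT0 : 0 ≤ T0 := (hF ⟨0, hK0⟩ n0).trans (hFT _ _)
  -- the power mean
  have h1 : av (fun n => av (fun i => F i n)) = (∑ i, av (F i)) / K := by
    rw [av_comm]
    show (∑ i, av (fun n => F i n)) / (Fintype.card (Fin K) : ℝ) = _
    rw [Fintype.card_fin]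
  have h2 : 1 - η ≤ av (fun n => av (fun i => F i n)) := by
    rw [h1, le_div_iff₀ hKr]
    linarith
  have h3 : 1 - (m + 1) * η ≤ av (fun n => (av (fun i => F i n)) ^ (m + 1)) := by
    have h4 := pow_av_le (fun n => av (fun i => F i n)) (fun n => av_nonneg fun i => hF i n) (m + 1)
    refine le_trans ?_ h4
    have h5 : (1 - η) ^ (m + 1) ≤ (av (fun n => av (fun i => F i n))) ^ (m + 1) :=
      pow_le_pow_left₀ (by linarith) h2 _
    refine le_trans ?_ h5
    have h6 := one_add_mul_le_pow (a := -η) (by linarith) (m + 1)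
    push_cast at h6
    have h7 : (1 + -η) = 1 - η := by ring
    rw [h7] at h6
    linarith
  have h4 : ∑ φ : Fin (m + 1) → Fin K, av (fun n => ∏ j, F (φ j) n) =
      (K:ℝ) ^ (m + 1) * av (fun n => (av (fun i => F i n)) ^ (m + 1)) := by
    have h5 : ∀ n, (av (fun i => F i n)) ^ (m + 1) =
        av (fun φ : Fin (m + 1) → Fin K => ∏ j, F (φ j) n) := by
      intro n
      rw [av_pi_prod (fun (_ : Fin (m + 1)) (i : Fin K) => F i n)]
      simp
    simp_rw [h5]
    rw [av_comm]
    have h6 : (K:ℝ) ^ (m + 1) * av (fun φ : Fin (m + 1) → Fin K => av (fun n => ∏ j, F (φ j) n)) =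
        ∑ φ : Fin (m + 1) → Fin K, av (fun n => ∏ j, F (φ j) n) := by
      unfold av
      rw [Fintype.card_fun, Fintype.card_fin, Fintype.card_fin]
      push_cast
      field_simp
    rw [h6]
  -- split into injective and non-injective
  have h5 := Finset.sum_filter_add_sum_filter_not (univ : Finset (Fin (m + 1) → Fin K))
    (fun φ => Function.Injective φ) (fun φ => av (fun n => ∏ j, F (φ j) n))
  rw [E1_sum_emb, h4] at h5
  have h6 : ∑ φ ∈ (univ : Finset (Fin (m + 1) → Fin K)).filter (fun φ => ¬ Function.Injective φ),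
      av (fun n => ∏ j, F (φ j) n) ≤
      (((univ : Finset (Fin (m + 1) → Fin K)).filter (fun φ => ¬ Function.Injective φ)).card : ℝ) *
        T0 ^ (m + 1) := by
    rw [← nsmul_eq_mul, ← Finset.sum_const]
    refine Finset.sum_le_sum fun φ _ => ?_
    have : av (fun n : X => ∏ j, F (φ j) n) ≤ av (fun _ : X => T0 ^ (m + 1)) := by
      refine av_mono fun n => ?_
      calc ∏ j, F (φ j) n ≤ ∏ _j : Fin (m + 1), T0 :=
            Finset.prod_le_prod (fun j _ => hF _ _) (fun j _ => hFT _ _)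
        _ = T0 ^ (m + 1) := by simp
    rwa [av_const] at this
  have h7 : (((univ : Finset (Fin (m + 1) → Fin K)).filter
      (fun φ => ¬ Function.Injective φ)).card : ℝ) ≤ (m:ℝ) * (m + 1) * (K:ℝ) ^ m := by
    have h8 := Finset.card_filter_add_card_filter_not (s := (univ : Finset (Fin (m + 1) → Fin K)))
      (fun φ => Function.Injective φ)
    have h9 : ((univ : Finset (Fin (m + 1) → Fin K)).filter
        (fun φ => Function.Injective φ)).card = K.descFactorial (m + 1) := by
      have h10 : ((univ : Finset (Fin (m + 1) → Fin K)).filter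
        (fun φ => Function.Injective φ)).card = Fintype.card (Fin (m + 1) ↪ Fin K) := by
        rw [← Fintype.card_subtype]
        exact Fintype.card_congr (Equiv.subtypeInjectiveEquivEmbedding _ _)
      rw [h10, Fintype.card_embedding_eq, Fintype.card_fin, Fintype.card_fin]
    rw [Finset.card_univ, Fintype.card_fun, Fintype.card_fin, Fintype.card_fin, h9] at h8
    have h10 : ((K + 1 - (m + 1)) ^ (m + 1) : ℕ) ≤ K.descFactorial (m + 1) :=
      Nat.pow_sub_le_descFactorial K (m + 1)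
    have h11 : ((K:ℝ) - m) ^ (m + 1) ≤ (K.descFactorial (m + 1) : ℝ) := by
      have h12 : (((K + 1 - (m + 1)) ^ (m + 1) : ℕ) : ℝ) = ((K:ℝ) - m) ^ (m + 1) := by
        push_cast [show K + 1 - (m + 1) = K - m by omega, Nat.cast_sub (show m ≤ K by omega)]
        rfl
      rw [← h12]
      exact_mod_cast h10
    have h12 : (K:ℝ) ^ (m + 1) - (m:ℝ) * (m + 1) * (K:ℝ) ^ m ≤ ((K:ℝ) - m) ^ (m + 1) := by
      have h13 := one_add_mul_le_pow (a := -((m:ℝ) / K)) (by
        have : (m:ℝ) / K ≤ 1 := by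
          rw [div_le_one hKr]
          exact_mod_cast (by omega : m ≤ K)
        linarith) (m + 1)
      have h14 : ((K:ℝ) - m) ^ (m + 1) = (K:ℝ) ^ (m + 1) * (1 + -((m:ℝ) / K)) ^ (m + 1) := by
        rw [← mul_pow]
        congr 1
        field_simp
        ring
      rw [h14]
      have h15 := mul_le_mul_of_nonneg_left h13 (by positivity : (0:ℝ) ≤ (K:ℝ) ^ (m + 1))
      refine le_trans (le_of_eq ?_) h15
      push_cast
      field_simp
      ring
    have h13 : ((K.descFactorial (m + 1) : ℕ) : ℝ) +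
        (((univ : Finset (Fin (m + 1) → Fin K)).filter
          (fun φ => ¬ Function.Injective φ)).card : ℝ) = (K:ℝ) ^ (m + 1) := by
      exact_mod_cast h8
    linarith
  have h8 : (K:ℝ) ^ (m + 1) * (1 - (m + 1) * η) ≤
      (K:ℝ) ^ (m + 1) * av (fun n => (av (fun i => F i n)) ^ (m + 1)) :=
    mul_le_mul_of_nonneg_left h3 (by positivity)
  have h9 : (((univ : Finset (Fin (m + 1) → Fin K)).filter
      (fun φ => ¬ Function.Injective φ)).card : ℝ) * T0 ^ (m + 1) ≤
      (m:ℝ) * (m + 1) * (K:ℝ) ^ m * T0 ^ (m + 1) :=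
    mul_le_mul_of_nonneg_right h7 (by positivity)
  linarith

/-- pointwise truncation inequality -/
lemma E1_min (y T0 : ℝ) (hy : 0 ≤ y) (hT : 0 < T0) : y - y ^ 2 / T0 ≤ min y T0 := by
  refine le_min ?_ ?_
  · have : 0 ≤ y ^ 2 / T0 := by positivity
    linarith
  · have h : y ^ 2 / T0 ≥ y - T0 := by
      rw [ge_iff_le, le_div_iff₀ hT]
      nlinarith [sq_nonneg (y - T0), sq_nonneg y, mul_nonneg hy hT.le]
    linarith

/-- sum over `t` of a weight on the sub-tuple -/
lemma E1_sum_marg {V T : Type} [Fintype V] [DecidableEq V] [Fintype T] {r : ℕ} (f : T → Fin r → V)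
    (g : (Fin r → V) → ℝ) (hg : ∀ v, 0 ≤ g v) (δ : ℝ)
    (h : ∀ v : Fin r → V, ((univ.filter (fun t : T => ∀ i, f t i = v i)).card : ℝ) ≤ δ) :
    ∑ t, g (f t) ≤ δ * ∑ v, g v := by
  classical
  have h1 : ∑ t, g (f t) = ∑ v, ∑ t, (if (∀ i, f t i = v i) then g v else 0) := by
    rw [Finset.sum_comm]
    refine Finset.sum_congr rfl fun t _ => ?_
    rw [Finset.sum_eq_single (f t)]
    · simp
    · intro v _ hv
      rw [if_neg]
      intro h
      exact hv (funext fun i => (h i).symm)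
    · intro h; exact absurd (mem_univ _) h
  rw [h1, Finset.mul_sum]
  refine Finset.sum_le_sum fun v _ => ?_
  rw [← Finset.sum_filter, Finset.sum_const, nsmul_eq_mul]
  exact mul_le_mul_of_nonneg_right (h v) (hg v)

/-- E1: from closeness in mean of the tuple correlations to those of a block function of bounded
energy: for almost all `t`, the AVERAGE of the correlations over the `(m+1)`-subtuples of the
`K`-tuple `e t` is at least `1 - ε`. `K1` and `κ` depend only on `m, C2, ε`. -/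
theorem avg_of_close (m : ℕ) (hm : 1 ≤ m) (C2 ε : ℝ) (hC2 : 1 ≤ C2) (hε : 0 < ε) (hε1 : ε ≤ 1) :
    ∃ K1 : ℕ, m + 1 ≤ K1 ∧ ∃ κ : ℝ, 0 < κ ∧ ∀ K : ℕ, K1 ≤ K → ∀ D : ℝ, 1 ≤ D →
    ∀ (X V : Type) [Fintype X] [Nonempty X] [Fintype V] [Nonempty V] [DecidableEq V]
      (M : X → V → ℝ) (J : ℕ) (χ : V → Fin J),
      (∀ n d, 0 ≤ M n d) → (∀ d, 1 - κ ≤ av (fun n => M n d)) →
      av (fun n => av (fun d => proj χ (M n) d ^ 2)) ≤ C2 →
      av (fun e : Fin (m + 1) → V => if Function.Injective e then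
        |corr M e - corr (fun n => proj χ (M n)) e| else 0) ≤ ε ^ 2 / (64 * D) →
      ∀ (T : Type) [Fintype T] (e : T → Fin K → V),
        (∀ t, Function.Injective (e t)) →
        (∀ (i : Fin K) (v : V), ((univ.filter (fun t : T => e t i = v)).card : ℝ) ≤
          2 * (Fintype.card T : ℝ) / (Fintype.card V : ℝ)) →
        (∀ (I : Fin (m + 1) ↪ Fin K) (v : Fin (m + 1) → V),
          ((univ.filter (fun t : T => ∀ i, e t (I i) = v i)).card : ℝ) ≤
            D * (Fintype.card T : ℝ) / (Fintype.card V : ℝ) ^ (m + 1)) →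
        ((univ.filter (fun t : T => ∑ I : Fin (m + 1) ↪ Fin K, corr M (fun i => e t (I i)) <
          (1 - ε) * (Fintype.card (Fin (m + 1) ↪ Fin K) : ℝ))).card : ℝ) ≤
          ε * (Fintype.card T : ℝ) := by
  classical
  have hm1 : (0:ℝ) < (m:ℝ) + 1 := by positivity
  have hm2 : (1:ℝ) ≤ (m:ℝ) + 1 := by linarith [(Nat.cast_nonneg m : (0:ℝ) ≤ m)]
  obtain ⟨S0, hS0⟩ : ∃ S0 : ℝ, S0 = 64 * C2 * (m + 1) / ε ^ 2 := ⟨_, rfl⟩
  obtain ⟨T0, hT0⟩ : ∃ T0 : ℝ, T0 = 16 * (m + 1) * S0 / ε := ⟨_, rfl⟩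
  have hS0p : 0 < S0 := by rw [hS0]; positivity
  have hT0p : 0 < T0 := by rw [hT0]; positivity
  refine ⟨m + 1 + ⌈8 * (m:ℝ) * (m + 1) * T0 ^ (m + 1) / ε⌉₊, by omega, ε / (16 * (m + 1)),
    by positivity, ?_⟩
  intro K hK D hD X V _ _ _ _ _ M J χ hM hmean hen hclose T _ e hinj hone hmulti
  have hKm : m + 1 ≤ K := by omega
  have hK0 : 0 < K := by omega
  have hKr : (0:ℝ) < K := by exact_mod_cast hK0
  have hKbig : 8 * (m:ℝ) * (m + 1) * T0 ^ (m + 1) / ε ≤ K := by
    refine (Nat.le_ceil _).trans ?_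
    exact_mod_cast (by omega : ⌈8 * (m:ℝ) * (m + 1) * T0 ^ (m + 1) / ε⌉₊ ≤ K)
  have hV : (0:ℝ) < Fintype.card V := by exact_mod_cast Fintype.card_pos
  set τ : ℝ := (Fintype.card T : ℝ) with hτ
  have hτ0 : 0 ≤ τ := Nat.cast_nonneg _
  set Mc : X → V → ℝ := fun n => proj χ (M n) with hMc
  have hMc0 : ∀ n d, 0 ≤ Mc n d := fun n d => proj_nonneg χ (hM n) d
  set s : V → ℝ := fun d => av (fun n => Mc n d ^ 2) with hs
  have hs0 : ∀ d, 0 ≤ s d := fun d => av_nonneg fun n => sq_nonneg _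
  have hsav : ∑ d, s d ≤ C2 * (Fintype.card V : ℝ) := by
    have h := hen
    rw [av_comm] at h
    have h1 : av s ≤ C2 := h
    unfold av at h1
    rwa [div_le_iff₀ hV] at h1
  set Bd : Finset V := univ.filter (fun d => S0 < s d) with hBd
  have hBdcard : (Bd.card : ℝ) * S0 ≤ C2 * (Fintype.card V : ℝ) := by
    calc (Bd.card : ℝ) * S0 = ∑ d ∈ Bd, S0 := by rw [Finset.sum_const, nsmul_eq_mul]
      _ ≤ ∑ d ∈ Bd, s d := Finset.sum_le_sum fun d hd => (by
          rw [hBd, mem_filter] at hd; exact hd.2.le)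
      _ ≤ ∑ d, s d := Finset.sum_le_sum_of_subset_of_nonneg (Finset.subset_univ _)
          (fun d _ _ => hs0 d)
      _ ≤ _ := hsav
  -- bad positions
  set nb : T → ℝ := fun t => ((univ.filter (fun i : Fin K => e t i ∈ Bd)).card : ℝ) with hnb
  have hnbsum : ∑ t, nb t ≤ (K:ℝ) * (2 * τ * (C2 / S0)) := by
    have h1 : ∀ t, nb t = ∑ i : Fin K, (if e t i ∈ Bd then (1:ℝ) else 0) := by
      intro t
      rw [hnb]
      simp only
      rw [Finset.card_filter]
      push_cast
      rfl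
    simp_rw [h1]
    rw [Finset.sum_comm]
    have h2 : ∀ i : Fin K, ∑ t, (if e t i ∈ Bd then (1:ℝ) else 0) ≤ 2 * τ * (C2 / S0) := by
      intro i
      have h3 : ∑ t, (if e t i ∈ Bd then (1:ℝ) else 0) =
          ∑ v ∈ Bd, ((univ.filter (fun t : T => e t i = v)).card : ℝ) := by
        have h4 : ∀ t, (if e t i ∈ Bd then (1:ℝ) else 0) = ∑ v ∈ Bd, if e t i = v then (1:ℝ) else 0 := by
          intro t
          rw [Finset.sum_ite_eq]
        simp_rw [h4]
        rw [Finset.sum_comm]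
        refine Finset.sum_congr rfl fun v _ => ?_
        rw [Finset.card_filter]
        push_cast
        rfl
      rw [h3]
      calc ∑ v ∈ Bd, ((univ.filter (fun t : T => e t i = v)).card : ℝ) ≤
          ∑ _v ∈ Bd, 2 * τ / (Fintype.card V : ℝ) := Finset.sum_le_sum fun v _ => hone i v
        _ = (Bd.card : ℝ) * (2 * τ / (Fintype.card V : ℝ)) := by
            rw [Finset.sum_const, nsmul_eq_mul]
        _ ≤ (C2 * (Fintype.card V : ℝ) / S0) * (2 * τ / (Fintype.card V : ℝ)) := by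
            refine mul_le_mul_of_nonneg_right ?_ (by positivity)
            rw [le_div_iff₀ hS0p]
            exact hBdcard
        _ = _ := by field_simp
    calc ∑ i : Fin K, ∑ t, (if e t i ∈ Bd then (1:ℝ) else 0) ≤ ∑ _i : Fin K, 2 * τ * (C2 / S0) :=
          Finset.sum_le_sum fun i _ => h2 i
      _ = _ := by rw [Finset.sum_const, Finset.card_univ, Fintype.card_fin, nsmul_eq_mul]
  set T1 : Finset T := univ.filter (fun t => (K:ℝ) * (ε / (8 * (m + 1))) < nb t) with hT1
  have hT1card : (T1.card : ℝ) ≤ ε / 4 * τ := by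
    have h1 : (T1.card : ℝ) * ((K:ℝ) * (ε / (8 * (m + 1)))) ≤ (K:ℝ) * (2 * τ * (C2 / S0)) := by
      calc (T1.card : ℝ) * ((K:ℝ) * (ε / (8 * (m + 1)))) =
          ∑ _t ∈ T1, (K:ℝ) * (ε / (8 * (m + 1))) := by rw [Finset.sum_const, nsmul_eq_mul]
        _ ≤ ∑ t ∈ T1, nb t := Finset.sum_le_sum fun t ht => (by
            rw [hT1, mem_filter] at ht; exact ht.2.le)
        _ ≤ ∑ t, nb t := Finset.sum_le_sum_of_subset_of_nonneg (Finset.subset_univ _)
            (fun t _ _ => Nat.cast_nonneg _)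
        _ ≤ _ := hnbsum
    have h2 : C2 / S0 = ε ^ 2 / (64 * (m + 1)) := by
      rw [hS0]; field_simp
    rw [h2] at h1
    have h3 : (T1.card : ℝ) * ((K:ℝ) * (ε / (8 * (m + 1)))) ≤
        (ε / 4 * τ) * ((K:ℝ) * (ε / (8 * (m + 1)))) := by
      refine h1.trans (le_of_eq ?_)
      field_simp
      ring
    exact le_of_mul_le_mul_right h3 (by positivity)
  -- error
  set g : (Fin (m + 1) → V) → ℝ := fun v => if Function.Injective v then
        |corr M v - corr Mc v| else 0 with hg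
  have hg0 : ∀ v, 0 ≤ g v := by
    intro v
    rw [hg]
    simp only
    split_ifs
    · exact abs_nonneg _
    · exact le_refl _
  set nI : ℝ := (Fintype.card (Fin (m + 1) ↪ Fin K) : ℝ) with hnI
  have hnIpos : 0 < nI := by
    rw [hnI, Fintype.card_embedding_eq, Fintype.card_fin, Fintype.card_fin]
    exact_mod_cast Nat.descFactorial_pos.mpr hKm
  have hnIle : nI ≤ (K:ℝ) ^ (m + 1) := by
    rw [hnI, Fintype.card_embedding_eq, Fintype.card_fin, Fintype.card_fin]
    exact_mod_cast Nat.descFactorial_le_pow K (m + 1)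
  set err : T → ℝ := fun t => ∑ I : Fin (m + 1) ↪ Fin K, g (fun i => e t (I i)) with herr
  have herr0 : ∀ t, 0 ≤ err t := fun t => Finset.sum_nonneg fun I _ => hg0 _
  have herrsum : ∑ t, err t ≤ nI * (τ * (ε ^ 2 / 64)) := by
    rw [herr]
    simp only
    rw [Finset.sum_comm]
    have h1 : ∀ I : Fin (m + 1) ↪ Fin K, ∑ t, g (fun i => e t (I i)) ≤ τ * (ε ^ 2 / 64) := by
      intro I
      have h2 := E1_sum_marg (fun t i => e t (I i)) g hg0 _ (hmulti I)
      refine h2.trans ?_
      have h3 : av g ≤ ε ^ 2 / (64 * D) := hclose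
      unfold av at h3
      rw [Fintype.card_fun, Fintype.card_fin] at h3
      push_cast at h3
      have h4 : D * τ / (Fintype.card V : ℝ) ^ (m + 1) * ∑ v, g v =
          D * τ * ((∑ v, g v) / (Fintype.card V : ℝ) ^ (m + 1)) := by ring
      rw [h4]
      have hD0 : 0 < D := by linarith
      calc D * τ * ((∑ v, g v) / (Fintype.card V : ℝ) ^ (m + 1)) ≤ D * τ * (ε ^ 2 / (64 * D)) :=
            mul_le_mul_of_nonneg_left h3 (by positivity)
        _ = _ := by field_simp
    calc ∑ I : Fin (m + 1) ↪ Fin K, ∑ t, g (fun i => e t (I i)) ≤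
        ∑ _I : Fin (m + 1) ↪ Fin K, τ * (ε ^ 2 / 64) := Finset.sum_le_sum fun I _ => h1 I
      _ = _ := by rw [Finset.sum_const, Finset.card_univ, nsmul_eq_mul]
  set T2 : Finset T := univ.filter (fun t => nI * (ε / 4) < err t) with hT2
  have hT2card : (T2.card : ℝ) ≤ ε / 16 * τ := by
    have h1 : (T2.card : ℝ) * (nI * (ε / 4)) ≤ nI * (τ * (ε ^ 2 / 64)) := by
      calc (T2.card : ℝ) * (nI * (ε / 4)) = ∑ _t ∈ T2, nI * (ε / 4) := by
            rw [Finset.sum_const, nsmul_eq_mul]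
        _ ≤ ∑ t ∈ T2, err t := Finset.sum_le_sum fun t ht => (by
            rw [hT2, mem_filter] at ht; exact ht.2.le)
        _ ≤ ∑ t, err t := Finset.sum_le_sum_of_subset_of_nonneg (Finset.subset_univ _)
            (fun t _ _ => herr0 t)
        _ ≤ _ := herrsum
    have h3 : (T2.card : ℝ) * (nI * (ε / 4)) ≤ (ε / 16 * τ) * (nI * (ε / 4)) := by
      refine h1.trans (le_of_eq ?_)
      ring
    exact le_of_mul_le_mul_right h3 (by positivity)
  -- main claim
  have hsub : univ.filter (fun t : T => ∑ I : Fin (m + 1) ↪ Fin K, corr M (fun i => e t (I i)) <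
      (1 - ε) * nI) ⊆ T1 ∪ T2 := by
    intro t ht
    rw [mem_filter] at ht
    by_contra hcon
    rw [mem_union, not_or] at hcon
    obtain ⟨hc1, hc2⟩ := hcon
    rw [hT1, mem_filter] at hc1
    rw [hT2, mem_filter] at hc2
    push Not at hc1 hc2
    have hc1' : nb t ≤ (K:ℝ) * (ε / (8 * (m + 1))) := hc1 (mem_univ _)
    have hc2' : err t ≤ nI * (ε / 4) := hc2 (mem_univ _)
    apply absurd ht.2
    push Not
    set F : Fin K → X → ℝ := fun i n => min (Mc n (e t i)) T0 with hF
    have hF0 : ∀ i n, 0 ≤ F i n := fun i n => le_min (hMc0 _ _) hT0p.le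
    have hFT : ∀ i n, F i n ≤ T0 := fun i n => min_le_right _ _
    have hmeanc : ∀ d, 1 - ε / (16 * (m + 1)) ≤ av (fun n => Mc n d) := by
      intro d
      have h1 : av (fun n => Mc n d) = proj χ (fun d' => av (fun n => M n d')) d := by
        rw [hMc]
        simp only
        unfold proj av
        simp_rw [Finset.sum_div]
        rw [Finset.sum_comm]
        refine Finset.sum_congr rfl fun d' _ => Finset.sum_congr rfl fun n _ => ?_
        rw [div_div, div_div, mul_comm]
      rw [h1]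
      calc 1 - ε / (16 * (m + 1)) = proj χ (fun _ => 1 - ε / (16 * (m + 1))) d :=
            (proj_const χ _ d).symm
        _ ≤ _ := proj_mono χ (fun d' => hmean d') d
    have hST : S0 / T0 = ε / (16 * (m + 1)) := by
      rw [hT0]; field_simp
    have hFi : ∀ i, 1 - ε / (8 * (m + 1)) - (if e t i ∈ Bd then (1:ℝ) else 0) ≤ av (F i) := by
      intro i
      by_cases hb : e t i ∈ Bd
      · rw [if_pos hb]
        have h1 : 0 ≤ av (F i) := av_nonneg fun n => hF0 i n
        have h2 : 0 ≤ ε / (8 * ((m:ℝ) + 1)) := by positivity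
        linarith
      · rw [if_neg hb]
        rw [hBd, mem_filter] at hb
        push Not at hb
        have hb' : s (e t i) ≤ S0 := hb (mem_univ _)
        have h1 : av (fun n => Mc n (e t i)) - s (e t i) / T0 ≤ av (F i) := by
          have h2 : av (fun n => Mc n (e t i) - Mc n (e t i) ^ 2 / T0) ≤ av (F i) :=
            av_mono fun n => E1_min _ _ (hMc0 _ _) hT0p
          rw [av_sub] at h2
          have h3 : av (fun n => Mc n (e t i) ^ 2 / T0) = s (e t i) / T0 := by
            simp_rw [div_eq_mul_inv]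
            rw [av_mul_right]
          rwa [h3] at h2
        have h2 : s (e t i) / T0 ≤ ε / (16 * (m + 1)) := by
          rw [← hST]
          exact div_le_div_of_nonneg_right hb' hT0p.le
        have h3 := hmeanc (e t i)
        have h4 : ε / (8 * ((m:ℝ) + 1)) = ε / (16 * (m + 1)) + ε / (16 * (m + 1)) := by
          field_simp; ring
        linarith
    have hsumF : (K:ℝ) * (1 - ε / (4 * (m + 1))) ≤ ∑ i, av (F i) := by
      have h1 : ∑ i : Fin K, (1 - ε / (8 * (m + 1)) - (if e t i ∈ Bd then (1:ℝ) else 0)) ≤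
          ∑ i, av (F i) := Finset.sum_le_sum fun i _ => hFi i
      rw [Finset.sum_sub_distrib, Finset.sum_const, Finset.card_univ, Fintype.card_fin,
        nsmul_eq_mul] at h1
      have h2 : ∑ i : Fin K, (if e t i ∈ Bd then (1:ℝ) else 0) = nb t := by
        rw [hnb]
        simp only
        rw [Finset.card_filter]
        push_cast
        rfl
      rw [h2] at h1
      have h4 : ε / (4 * ((m:ℝ) + 1)) = ε / (8 * (m + 1)) + ε / (8 * (m + 1)) := by
        field_simp; ring
      have h5 : (K:ℝ) * (1 - ε / (4 * (m + 1))) =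
          (K:ℝ) * (1 - ε / (8 * (m + 1))) - (K:ℝ) * (ε / (8 * (m + 1))) := by
        rw [h4]; ring
      rw [h5]
      linarith
    have hη1 : ε / (4 * ((m:ℝ) + 1)) ≤ 1 := by
      rw [div_le_one (by positivity)]
      linarith
    have hcore := E1_core m K hKm F T0 hF0 hFT (ε / (4 * (m + 1))) (by positivity) hη1 hsumF
    have h5 : (m + 1) * (ε / (4 * ((m:ℝ) + 1))) = ε / 4 := by field_simp
    rw [h5] at hcore
    have h6 : (m:ℝ) * (m + 1) * (K:ℝ) ^ m * T0 ^ (m + 1) ≤ (K:ℝ) ^ (m + 1) * (ε / 8) := by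
      rw [div_le_iff₀ hε] at hKbig
      have h7 : (m:ℝ) * (m + 1) * T0 ^ (m + 1) ≤ K * (ε / 8) := by linarith
      calc (m:ℝ) * (m + 1) * (K:ℝ) ^ m * T0 ^ (m + 1) =
          (K:ℝ) ^ m * ((m:ℝ) * (m + 1) * T0 ^ (m + 1)) := by ring
        _ ≤ (K:ℝ) ^ m * (K * (ε / 8)) := mul_le_mul_of_nonneg_left h7 (by positivity)
        _ = _ := by ring
    have h7 : (K:ℝ) ^ (m + 1) * (1 - 3 * ε / 8) ≤
        ∑ I : Fin (m + 1) ↪ Fin K, av (fun n => ∏ j, F (I j) n) := by
      refine le_trans (le_of_eq ?_) (le_trans (sub_le_sub_left h6 _) hcore)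
      ring
    have h8 : ∑ I : Fin (m + 1) ↪ Fin K, av (fun n => ∏ j, F (I j) n) ≤
        ∑ I : Fin (m + 1) ↪ Fin K, corr Mc (fun i => e t (I i)) := by
      refine Finset.sum_le_sum fun I _ => ?_
      unfold corr
      exact av_mono fun n => Finset.prod_le_prod (fun j _ => hF0 _ _) (fun j _ => min_le_left _ _)
    have h9 : ∑ I : Fin (m + 1) ↪ Fin K, corr Mc (fun i => e t (I i)) - err t ≤
        ∑ I : Fin (m + 1) ↪ Fin K, corr M (fun i => e t (I i)) := by
      rw [herr]
      simp only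
      rw [← Finset.sum_sub_distrib]
      refine Finset.sum_le_sum fun I _ => ?_
      have hI : Function.Injective (fun i => e t (I i)) := (hinj t).comp I.injective
      rw [hg]
      simp only
      rw [if_pos hI]
      have := neg_abs_le (corr M (fun i => e t (I i)) - corr Mc (fun i => e t (I i)))
      linarith
    have h10 : nI * (1 - 3 * ε / 8) ≤ (K:ℝ) ^ (m + 1) * (1 - 3 * ε / 8) :=
      mul_le_mul_of_nonneg_right hnIle (by linarith)
    have h11 : (1 - ε) * nI ≤ nI * (1 - 3 * ε / 8) - nI * (ε / 4) := by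
      have : 0 ≤ nI * ε := by positivity
      linarith
    linarith
  calc ((univ.filter (fun t : T => ∑ I : Fin (m + 1) ↪ Fin K, corr M (fun i => e t (I i)) <
          (1 - ε) * nI)).card : ℝ) ≤ ((T1 ∪ T2).card : ℝ) := by
        exact_mod_cast Finset.card_le_card hsub
    _ ≤ (T1.card : ℝ) + T2.card := by exact_mod_cast Finset.card_union_le _ _
    _ ≤ ε / 4 * τ + ε / 16 * τ := add_le_add hT1card hT2card
    _ ≤ ε * τ := by nlinarith [mul_nonneg hε.le hτ0]

end Pool.Agent.HLT
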