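import Mathlib
import Pool.Agent.HLT.Defs
import Pool.Agent.HLT.AvProj

set_option autoImplicit false

open Finset

namespace Pool.Agent.HLT

namespace A2aux

/-- the projection only depends on the partition -/
lemma proj_eq_of_iff {V : Type} [Fintype V] {J J' : ℕ} (χ : V → Fin J) (χ' : V → Fin J')
    (h : ∀ d d', χ' d = χ' d' ↔ χ d = χ d') (u : V → ℝ) (d : V) :
    proj χ' u d = proj χ u d := by
  unfold proj
  have : univ.filter (fun e => χ' e = χ' d) = univ.filter (fun e => χ e = χ d) := by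
    ext e
    simp [h]
  rw [this]

/-- combine two colourings -/
lemma exists_pair_colouring {V : Type} {a b : ℕ} (χ : V → Fin a) (l : V → Fin b) :
    ∃ χ' : V → Fin (a * b), ∀ d d', χ' d = χ' d' ↔ (χ d = χ d' ∧ l d = l d') := by
  refine ⟨fun d => finProdFinEquiv (χ d, l d), fun d d' => ?_⟩
  rw [finProdFinEquiv.apply_eq_iff_eq, Prod.mk.injEq]

/-- energy of a partition -/
noncomputable def regEn {X V : Type} [Fintype X] [Fintype V] {J : ℕ} (M : X → V → ℝ)
    (χ : V → Fin J) : ℝ := av (fun n => av (fun d => proj χ (M n) d ^ 2))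

lemma regEn_nonneg {X V : Type} [Fintype X] [Fintype V] {J : ℕ} (M : X → V → ℝ)
    (χ : V → Fin J) : 0 ≤ regEn M χ :=
  av_nonneg fun _ => av_nonneg fun _ => sq_nonneg _

/-- energy increment iteration -/
lemma exists_stable {X V : Type} [Fintype X] [Fintype V] (M : X → V → ℝ) (Q r0 : ℕ)
    (C δ : ℝ) (hr0 : C < ((r0:ℝ) + 1) * (δ / 4))
    (hE : ∀ χ : V → Fin (Q ^ (r0 + 1)), regEn M χ ≤ C) :
    ∃ r, r ≤ r0 ∧ ∃ χ : V → Fin (Q ^ r), ∀ χ' : V → Fin (Q ^ (r + 1)),
      regEn M χ' ≤ regEn M χ + δ / 4 := by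
  by_contra hcon
  push Not at hcon
  have key : ∀ r : ℕ, r ≤ r0 + 1 → ∃ χ : V → Fin (Q ^ r), (r:ℝ) * (δ / 4) ≤ regEn M χ := by
    intro r
    induction r with
    | zero =>
      intro _
      refine ⟨fun _ => ⟨0, by simp⟩, ?_⟩
      simpa using regEn_nonneg M _
    | succ r ih =>
      intro hr
      obtain ⟨χ, hχ⟩ := ih (by omega)
      obtain ⟨χ', hχ'⟩ := hcon r (by omega) χ
      refine ⟨χ', ?_⟩
      push_cast
      linarith
  obtain ⟨χ, hχ⟩ := key (r0 + 1) le_rfl
  have := hE χ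
  push_cast at hχ
  linarith

/-- rounding of a bounded function -/
lemma exists_round {V : Type} (q : ℕ) (hq : 0 < q) (v : V → ℝ) (hv : ∀ d, |v d| ≤ 1) :
    ∃ l : V → Fin (2 * q + 1), ∃ v' : V → ℝ, (∀ d d', l d = l d' → v' d = v' d') ∧
      (∀ d, |v' d| ≤ 1) ∧ (∀ d, |v d - v' d| ≤ 1 / q) := by
  have hq' : (0:ℝ) < q := by exact_mod_cast hq
  have h0 : ∀ d, 0 ≤ (v d + 1) * q := fun d =>
    mul_nonneg (by linarith [(abs_le.mp (hv d)).1]) hq'.le
  have h1 : ∀ d, (v d + 1) * q ≤ 2 * q := fun d =>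
    mul_le_mul_of_nonneg_right (by linarith [(abs_le.mp (hv d)).2]) hq'.le
  have hfl : ∀ d, ⌊(v d + 1) * q⌋₊ < 2 * q + 1 := by
    intro d
    have : ⌊(v d + 1) * q⌋₊ ≤ 2 * q := by
      have := Nat.floor_le_floor (h1 d)
      have h2 : ⌊(2 * q : ℝ)⌋₊ = 2 * q := by
        have : (2 * q : ℝ) = ((2 * q : ℕ) : ℝ) := by push_cast; ring
        rw [this, Nat.floor_natCast]
      omega
    omega
  have hA : ∀ d, ((⌊(v d + 1) * q⌋₊ : ℕ) : ℝ) ≤ (v d + 1) * q := fun d => Nat.floor_le (h0 d)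
  have hB : ∀ d, (v d + 1) * q < ((⌊(v d + 1) * q⌋₊ : ℕ) : ℝ) + 1 := fun d =>
    Nat.lt_floor_add_one _
  refine ⟨fun d => ⟨⌊(v d + 1) * q⌋₊, hfl d⟩, fun d => ((⌊(v d + 1) * q⌋₊ : ℕ) : ℝ) / q - 1,
    ?_, ?_, ?_⟩
  · intro d d' h
    simp only [Fin.mk.injEq] at h
    simp only
    rw [h]
  · intro d
    rw [abs_le]
    constructor
    · have : (0:ℝ) ≤ ((⌊(v d + 1) * q⌋₊ : ℕ) : ℝ) / q := by positivity
      linarith
    · have : ((⌊(v d + 1) * q⌋₊ : ℕ) : ℝ) / q ≤ 2 := by
        rw [div_le_iff₀ hq']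
        linarith [hA d, h1 d]
      linarith
  · intro d
    have e : v d - (((⌊(v d + 1) * q⌋₊ : ℕ) : ℝ) / q - 1) =
        ((v d + 1) * q - ((⌊(v d + 1) * q⌋₊ : ℕ) : ℝ)) / q := by
      field_simp
      ring
    rw [e, abs_of_nonneg (div_nonneg (by linarith [hA d]) hq'.le)]
    exact div_le_div_of_nonneg_right (by linarith [hB d]) hq'.le

/-- Pythagoras for a refinement -/
lemma av_sq_diff {V : Type} [Fintype V] {J J' : ℕ} (χ : V → Fin J) (χ' : V → Fin J')
    (h : ∀ d d', χ' d = χ' d' → χ d = χ d') (u : V → ℝ) :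
    av (fun d => (proj χ' u d - proj χ u d) ^ 2) =
      av (fun d => proj χ' u d ^ 2) - av (fun d => proj χ u d ^ 2) := by
  have h1 : av (fun d => proj χ u d * proj χ' u d) = av (fun d => proj χ u d ^ 2) := by
    have e1 := av_proj_mul χ (fun e => proj χ u e) (fun e => proj χ' u e)
    have e2 : ∀ d, proj χ (fun e => proj χ u e) d = proj χ u d := proj_proj χ u
    have e3 : ∀ d, proj χ (fun e => proj χ' u e) d = proj χ u d :=
      proj_proj_of_refine χ χ' h u
    simp only [e2, e3] at e1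
    rw [e1]
    exact congrArg av (funext fun d => (pow_two _).symm)
  have e : (fun d => (proj χ' u d - proj χ u d) ^ 2) =
      fun d => (proj χ' u d ^ 2 + proj χ u d ^ 2) - 2 * (proj χ u d * proj χ' u d) :=
    funext fun d => by ring
  rw [e, av_sub, av_add, av_mul_left, h1]
  ring

/-- the correlation with a measurable function is bounded by the energy increment -/
lemma av_meas_le {V : Type} [Fintype V] [Nonempty V] {J J' : ℕ} (χ : V → Fin J)
    (χ' : V → Fin J') (h : ∀ d d', χ' d = χ' d' → χ d = χ d') (u v' : V → ℝ)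
    (hm : ∀ d d', χ' d = χ' d' → v' d = v' d') (hv : ∀ d, |v' d| ≤ 1) :
    (av (fun d => v' d * (u d - proj χ u d))) ^ 2 ≤
      av (fun d => proj χ' u d ^ 2) - av (fun d => proj χ u d ^ 2) := by
  have e1 : av (fun d => v' d * (u d - proj χ u d)) =
      av (fun d => v' d * (proj χ' u d - proj χ u d)) := by
    have a1 := av_proj_mul χ' v' (fun d => u d - proj χ u d)
    have a2 : ∀ d, proj χ' v' d = v' d := proj_of_meas χ' hm
    have a3 : ∀ d, proj χ' (fun d => u d - proj χ u d) d = proj χ' u d - proj χ u d := by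
      intro d
      rw [proj_sub]
      congr 1
      exact proj_of_meas χ' (fun a b hab => proj_congr χ u (h a b hab)) d
    simp only [a2, a3] at a1
    exact a1
  rw [e1, ← av_sq_diff χ χ' h u]
  refine (sq_av_le _).trans (av_mono fun d => ?_)
  rw [mul_pow]
  have : v' d ^ 2 ≤ 1 := by
    rw [sq_le_one_iff_abs_le_one]
    exact hv d
  nlinarith [sq_nonneg (proj χ' u d - proj χ u d)]

end A2aux

open A2aux

/-- A2: regular partitions by energy increment. -/
theorem exists_regular (C δ : ℝ) (hC : 0 < C) (hδ : 0 < δ) : ∃ J : ℕ, 0 < J ∧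
    ∀ (X V : Type) [Fintype X] [Nonempty X] [Fintype V] [Nonempty V] (M : X → V → ℝ),
      (∀ n d, 0 ≤ M n d) →
      (∀ χ : V → Fin J, av (fun n => av (fun d => proj χ (M n) d ^ 2)) ≤ C) →
      ∃ χ : V → Fin J, ∀ v : V → ℝ, (∀ d, |v d| ≤ 1) →
        av (fun n => (av (fun d => v d * (M n d - proj χ (M n) d))) ^ 2) ≤ δ := by
  obtain ⟨q0, hq0⟩ := exists_nat_ge (16 * C / δ)
  set q : ℕ := q0 + 1 with hqdef
  have hq : 0 < q := by omega
  have hq' : (1:ℝ) ≤ q := by exact_mod_cast hq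
  have hqC : 16 * C / δ ≤ (q:ℝ) ^ 2 := by
    have h1 : (q0:ℝ) ≤ q := by exact_mod_cast (by omega : q0 ≤ q)
    nlinarith
  have hqC' : 16 * C ≤ (q:ℝ) ^ 2 * δ := by
    rwa [div_le_iff₀ hδ] at hqC
  obtain ⟨r0, hr0⟩ := exists_nat_ge (4 * C / δ)
  have hr0' : C < ((r0:ℝ) + 1) * (δ / 4) := by
    rw [div_le_iff₀ hδ] at hr0
    nlinarith
  have hJpos : 0 < (2 * q + 1) ^ (r0 + 1) := by positivity
  refine ⟨(2 * q + 1) ^ (r0 + 1), hJpos, ?_⟩
  intro X V _ _ _ _ M hM hE
  obtain ⟨r, hr, χ, hχ⟩ := exists_stable M (2 * q + 1) r0 C δ hr0' hE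
  have hle : (2 * q + 1) ^ r ≤ (2 * q + 1) ^ (r0 + 1) :=
    Nat.pow_le_pow_right (by omega) (by omega)
  have hiff : ∀ d d', (fun d => Fin.castLE hle (χ d)) d = (fun d => Fin.castLE hle (χ d)) d' ↔
      χ d = χ d' := by
    intro d d'
    simp only [Fin.castLE_inj]
  have hproj : ∀ (u : V → ℝ) (d : V), proj (fun d => Fin.castLE hle (χ d)) u d = proj χ u d :=
    proj_eq_of_iff χ _ hiff
  refine ⟨fun d => Fin.castLE hle (χ d), ?_⟩
  have hEχ : regEn M χ ≤ C := by
    have := hE (fun d => Fin.castLE hle (χ d))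
    simp only [hproj] at this
    exact this
  intro v hv
  simp only [hproj]
  obtain ⟨l, v', hv'm, hv'1, hv'2⟩ := exists_round q hq v hv
  obtain ⟨χ₁, hχ₁⟩ := exists_pair_colouring χ l
  -- cast to the right type
  have hcast : (2 * q + 1) ^ r * (2 * q + 1) = (2 * q + 1) ^ (r + 1) := (pow_succ _ _).symm
  have hiff2 : ∀ d d', (fun d => Fin.cast hcast (χ₁ d)) d = (fun d => Fin.cast hcast (χ₁ d)) d' ↔
      χ₁ d = χ₁ d' := by
    intro d d'
    simp only [Fin.cast_inj]
  have hinc : regEn M χ₁ ≤ regEn M χ + δ / 4 := by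
    have h1 := hχ (fun d => Fin.cast hcast (χ₁ d))
    have h2 : ∀ (u : V → ℝ) (d : V), proj (fun d => Fin.cast hcast (χ₁ d)) u d = proj χ₁ u d :=
      proj_eq_of_iff χ₁ _ hiff2
    unfold regEn at h1 ⊢
    simp only [h2] at h1
    exact h1
  have href : ∀ d d', χ₁ d = χ₁ d' → χ d = χ d' := fun d d' h => ((hχ₁ d d').mp h).1
  have hmeas : ∀ d d', χ₁ d = χ₁ d' → v' d = v' d' := fun d d' h =>
    hv'm d d' ((hχ₁ d d').mp h).2
  have hqpos : (0:ℝ) < q := by linarith
  -- pointwise bound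
  have hpt : ∀ n, (av (fun d => v d * (M n d - proj χ (M n) d))) ^ 2 ≤
      2 * (av (fun d => proj χ₁ (M n) d ^ 2) - av (fun d => proj χ (M n) d ^ 2)) +
        8 / (q:ℝ) ^ 2 * av (fun d => proj χ (M n) d ^ 2) := by
    intro n
    have hx := av_meas_le χ χ₁ href (M n) v' hmeas hv'1
    have hy : |av (fun d => (v d - v' d) * (M n d - proj χ (M n) d))| ≤
        2 / q * av (M n) := by
      refine (abs_av_le _).trans ?_
      have h1 : ∀ d, |(v d - v' d) * (M n d - proj χ (M n) d)| ≤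
          1 / q * (M n d + proj χ (M n) d) := by
        intro d
        rw [abs_mul]
        refine mul_le_mul (hv'2 d) ?_ (abs_nonneg _) (by positivity)
        have a := hM n d
        have b := proj_nonneg χ (hM n) d
        rw [abs_le]
        constructor <;> linarith
      refine (av_mono h1).trans ?_
      rw [av_mul_left, av_add, av_proj]
      apply le_of_eq
      ring
    have hM2 : (av (M n)) ^ 2 ≤ av (fun d => proj χ (M n) d ^ 2) := by
      rw [← av_proj χ (M n)]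
      exact sq_av_le _
    have hsum : av (fun d => v d * (M n d - proj χ (M n) d)) =
        av (fun d => v' d * (M n d - proj χ (M n) d)) +
          av (fun d => (v d - v' d) * (M n d - proj χ (M n) d)) := by
      rw [← av_add]
      exact congrArg av (funext fun d => by ring)
    rw [hsum]
    have hy2 : (av (fun d => (v d - v' d) * (M n d - proj χ (M n) d))) ^ 2 ≤
        4 / (q:ℝ) ^ 2 * av (fun d => proj χ (M n) d ^ 2) := by
      have h1 : (av (fun d => (v d - v' d) * (M n d - proj χ (M n) d))) ^ 2 ≤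
          (2 / q * av (M n)) ^ 2 := by
        rw [← sq_abs]
        exact pow_le_pow_left₀ (abs_nonneg _) hy 2
      refine h1.trans ?_
      rw [mul_pow, div_pow]
      have : (2:ℝ) ^ 2 = 4 := by norm_num
      rw [this]
      exact mul_le_mul_of_nonneg_left hM2 (by positivity)
    have h8 : 8 / (q:ℝ) ^ 2 * av (fun d => proj χ (M n) d ^ 2) =
        2 * (4 / (q:ℝ) ^ 2 * av (fun d => proj χ (M n) d ^ 2)) := by ring
    rw [h8]
    nlinarith [sq_nonneg (av (fun d => v' d * (M n d - proj χ (M n) d)) -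
      av (fun d => (v d - v' d) * (M n d - proj χ (M n) d)))]
  refine (av_mono hpt).trans ?_
  rw [av_add, av_mul_left, av_mul_left, av_sub]
  have hE0 : 0 ≤ regEn M χ := regEn_nonneg M χ
  change 2 * (regEn M χ₁ - regEn M χ) + 8 / (q:ℝ) ^ 2 * regEn M χ ≤ δ
  have h3 : 8 / (q:ℝ) ^ 2 * regEn M χ ≤ δ / 2 := by
    have : 8 / (q:ℝ) ^ 2 * C ≤ δ / 2 := by
      rw [div_mul_eq_mul_div, div_le_iff₀ (by positivity)]
      linarith
    exact (mul_le_mul_of_nonneg_left hEχ (by positivity)).trans this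
  linarith

end Pool.Agent.HLT
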