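import Mathlib
import Pool.Agent.HLT.Defs
import Pool.Agent.HLT.AvProj
import Pool.Agent.HLT.Regular

set_option autoImplicit false

open Finset

namespace Pool.Agent.HLT

namespace A3aux

lemma av_equiv {α β : Type} [Fintype α] [Fintype β] (E : α ≃ β) (f : β → ℝ) :
    av (fun a => f (E a)) = av f := by
  unfold av
  rw [Fintype.card_congr E, Equiv.sum_comp E f]

lemma av_prod_type {α β : Type} [Fintype α] [Fintype β] (f : α → β → ℝ) :
    av (fun p : α × β => f p.1 p.2) = av (fun i => av (fun j => f i j)) := by
  unfold av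
  rw [Fintype.sum_prod_type, Fintype.card_prod, ← Finset.sum_div, div_div]
  push_cast
  rw [mul_comm]

variable {X V : Type} [Fintype X] [Fintype V]

lemma av_insertNth {m : ℕ} (i : Fin (m+1)) (F : (Fin (m+1) → V) → ℝ) :
    av F = av (fun e' : Fin m → V => av (fun d : V => F (Fin.insertNth i d e'))) := by
  rw [av_comm, ← av_prod_type (fun (d : V) (e' : Fin m → V) => F (Fin.insertNth i d e'))]
  exact (av_equiv (Fin.insertNthEquiv (fun _ => V) i) F).symm

/-- multilinear functional -/
noncomputable def TT {r : ℕ} (b : (Fin r → V) → ℝ) (F : Fin r → X → V → ℝ) : ℝ :=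
  av (fun n : X => av (fun e : Fin r → V => b e * ∏ j, F j n (e j)))

/-- projection in the variable `j` -/
noncomputable def PP {r J : ℕ} (χ : V → Fin J) (j : Fin r) (b : (Fin r → V) → ℝ)
    (e : Fin r → V) : ℝ :=
  proj χ (fun d => b (Function.update e j d)) (e j)

lemma abs_PP_le {r J : ℕ} (χ : V → Fin J) (j : Fin r) {b : (Fin r → V) → ℝ}
    (hb : ∀ e, |b e| ≤ 1) (e : Fin r → V) : |PP χ j b e| ≤ 1 := by
  unfold PP
  refine (abs_proj_le χ _ _).trans ?_
  have h := proj_mono χ (u := fun d => |b (Function.update e j d)|) (v := fun _ => 1)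
    (fun d => hb _) (e j)
  rwa [proj_const] at h

lemma TT_move {m J : ℕ} (χ : V → Fin J) (i : Fin (m+1)) (b : (Fin (m+1) → V) → ℝ)
    (F : Fin (m+1) → X → V → ℝ) (G : X → V → ℝ)
    (hF : F i = fun n => proj χ (G n)) :
    TT b F = TT (PP χ i b) (Function.update F i G) := by
  unfold TT
  congr 1
  funext n
  rw [av_insertNth i, av_insertNth i]
  congr 1
  funext e'
  have h1 : ∀ d : V, b (Fin.insertNth i d e') * ∏ j, F j n ((Fin.insertNth i d e' : Fin (m+1) → V) j)
      = (b (Fin.insertNth i d e') * proj χ (G n) d) * ∏ j, F (i.succAbove j) n (e' j) := by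
    intro d
    rw [Fin.prod_univ_succAbove _ i]
    simp only [Fin.insertNth_apply_same, Fin.insertNth_apply_succAbove, hF]
    ring
  have h2 : ∀ d : V, PP χ i b (Fin.insertNth i d e') *
      ∏ j, (Function.update F i G) j n ((Fin.insertNth i d e' : Fin (m+1) → V) j)
      = (proj χ (fun d => b (Fin.insertNth i d e')) d * G n d) *
        ∏ j, F (i.succAbove j) n (e' j) := by
    intro d
    rw [Fin.prod_univ_succAbove _ i]
    simp only [Fin.insertNth_apply_same, Fin.insertNth_apply_succAbove, Function.update_self]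
    have h3 : ∀ j, Function.update F i G (i.succAbove j) = F (i.succAbove j) := fun j =>
      Function.update_of_ne (Fin.succAbove_ne i j) _ _
    simp only [h3]
    unfold PP
    simp only [Fin.insertNth_apply_same, Fin.update_insertNth]
    ring
  simp only [h1, h2]
  rw [av_mul_right, av_mul_right, av_proj_mul]

lemma TT_tele {m J : ℕ} (χ : V → Fin J) (b : (Fin (m+1) → V) → ℝ) (M : X → V → ℝ) :
    TT b (fun _ => M) - TT b (fun _ n => proj χ (M n)) =
      ∑ i : Fin (m+1), TT b (fun j n d => if j = i then M n d - proj χ (M n) d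
        else if j < i then proj χ (M n) d else M n d) := by
  have key : ∀ k : ℕ, k ≤ m + 1 → TT b (fun _ => M) -
      TT b (fun (j : Fin (m+1)) n d => if j.val < k then proj χ (M n) d else M n d) =
      ∑ i ∈ univ.filter (fun i : Fin (m+1) => i.val < k),
        TT b (fun j n d => if j = i then M n d - proj χ (M n) d
        else if j < i then proj χ (M n) d else M n d) := by
    intro k
    induction k with
    | zero =>
      intro _
      simp only [not_lt_zero, if_false, Finset.filter_false, Finset.sum_empty]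
      exact sub_self _
    | succ k ih =>
      intro hk
      have hk' : k < m + 1 := hk
      specialize ih hk'.le
      have hfil : univ.filter (fun i : Fin (m+1) => i.val < k + 1) =
          insert (⟨k, hk'⟩ : Fin (m+1)) (univ.filter (fun i : Fin (m+1) => i.val < k)) := by
        ext i
        simp only [Finset.mem_filter, Finset.mem_univ, true_and, Finset.mem_insert, Fin.ext_iff]
        omega
      rw [hfil, Finset.sum_insert (by simp), ← ih]
      have h4 : TT b (fun (j : Fin (m+1)) n d => if j.val < k then proj χ (M n) d else M n d) -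
          TT b (fun (j : Fin (m+1)) n d => if j.val < k + 1 then proj χ (M n) d else M n d) =
          TT b (fun j n d => if j = (⟨k, hk'⟩ : Fin (m+1)) then M n d - proj χ (M n) d
            else if j < (⟨k, hk'⟩ : Fin (m+1)) then proj χ (M n) d else M n d) := by
        unfold TT
        rw [← av_sub]
        congr 1
        funext n
        rw [← av_sub]
        congr 1
        funext e
        rw [← mul_sub]
        congr 1
        have hsp : ∀ f : Fin (m+1) → ℝ, ∏ j, f j = f ⟨k, hk'⟩ *
            ∏ j : Fin m, f (Fin.succAbove ⟨k, hk'⟩ j) := fun f => Fin.prod_univ_succAbove f _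
        rw [hsp, hsp, hsp]
        have h5 : ∀ j : Fin m, (if ((Fin.succAbove ⟨k, hk'⟩ j : Fin (m+1))).val < k + 1 then
            proj χ (M n) (e (Fin.succAbove ⟨k, hk'⟩ j)) else M n (e (Fin.succAbove ⟨k, hk'⟩ j))) =
            (if ((Fin.succAbove ⟨k, hk'⟩ j : Fin (m+1))).val < k then
            proj χ (M n) (e (Fin.succAbove ⟨k, hk'⟩ j)) else M n (e (Fin.succAbove ⟨k, hk'⟩ j))) := by
          intro j
          have hne : ((Fin.succAbove ⟨k, hk'⟩ j : Fin (m+1))).val ≠ k := by
            intro h
            exact Fin.succAbove_ne (⟨k, hk'⟩ : Fin (m+1)) j (Fin.ext h)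
          have hiff : ((Fin.succAbove ⟨k, hk'⟩ j : Fin (m+1))).val < k + 1 ↔
            ((Fin.succAbove ⟨k, hk'⟩ j : Fin (m+1))).val < k := by omega
          simp only [hiff]
        have h6 : ∀ j : Fin m, (if (Fin.succAbove ⟨k, hk'⟩ j : Fin (m+1)) = ⟨k, hk'⟩ then
            M n (e (Fin.succAbove ⟨k, hk'⟩ j)) - proj χ (M n) (e (Fin.succAbove ⟨k, hk'⟩ j))
            else if (Fin.succAbove ⟨k, hk'⟩ j : Fin (m+1)) < ⟨k, hk'⟩ then
            proj χ (M n) (e (Fin.succAbove ⟨k, hk'⟩ j)) else M n (e (Fin.succAbove ⟨k, hk'⟩ j))) =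
            (if ((Fin.succAbove ⟨k, hk'⟩ j : Fin (m+1))).val < k then
            proj χ (M n) (e (Fin.succAbove ⟨k, hk'⟩ j)) else M n (e (Fin.succAbove ⟨k, hk'⟩ j))) := by
          intro j
          rw [if_neg (Fin.succAbove_ne (⟨k, hk'⟩ : Fin (m+1)) j)]
          simp only [Fin.lt_def]
        simp only [h5, h6, if_true, lt_irrefl, if_false, Nat.lt_succ_self]
        ring
      rw [← h4]
      ring
  have h := key (m+1) le_rfl
  have hfil : univ.filter (fun i : Fin (m+1) => i.val < m + 1) = univ := by
    ext i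
    simp only [Finset.mem_filter, Finset.mem_univ, true_and, iff_true]
    exact i.isLt
  rw [hfil] at h
  rw [← h]
  congr 1
  unfold TT
  congr 1
  funext n
  congr 1
  funext e
  congr 1
  refine Finset.prod_congr rfl fun j _ => ?_
  exact (if_pos j.isLt).symm

/-- moving all the projections to `b` -/
lemma TT_bound {m J : ℕ} (χ : V → Fin J) (M : X → V → ℝ) (R : ℝ) (i : Fin (m+1))
    (hR : ∀ b : (Fin (m+1) → V) → ℝ, (∀ e, |b e| ≤ 1) →
      |TT b (fun j n d => if j = i then M n d - proj χ (M n) d else M n d)| ≤ R)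
    (S : Finset (Fin (m+1))) : i ∉ S → ∀ b : (Fin (m+1) → V) → ℝ, (∀ e, |b e| ≤ 1) →
      |TT b (fun j n d => if j = i then M n d - proj χ (M n) d
        else if j ∈ S then proj χ (M n) d else M n d)| ≤ R := by
  classical
  induction S using Finset.induction_on with
  | empty =>
    intro _ b hb
    have := hR b hb
    simpa using this
  | insert j0 S hj0 ih =>
    intro hi b hb
    have hi1 : i ≠ j0 := fun h => hi (by rw [h]; exact Finset.mem_insert_self _ _)
    have hi2 : i ∉ S := fun h => hi (Finset.mem_insert_of_mem h)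
    have h := TT_move χ j0 b (fun j n d => if j = i then M n d - proj χ (M n) d
        else if j ∈ insert j0 S then proj χ (M n) d else M n d) M (by
      funext n d
      rw [if_neg hi1.symm, if_pos (Finset.mem_insert_self _ _)])
    rw [h]
    have h2 : Function.update (fun (j : Fin (m+1)) (n : X) (d : V) =>
        if j = i then M n d - proj χ (M n) d
        else if j ∈ insert j0 S then proj χ (M n) d else M n d) j0 M =
        (fun j n d => if j = i then M n d - proj χ (M n) d
        else if j ∈ S then proj χ (M n) d else M n d) := by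
      funext j n d
      by_cases hj : j = j0
      · subst hj
        rw [Function.update_self, if_neg hi1.symm, if_neg hj0]
      · rw [Function.update_of_ne hj]
        by_cases hji : j = i
        · rw [if_pos hji, if_pos hji]
        · rw [if_neg hji, if_neg hji]
          simp only [Finset.mem_insert, hj, false_or]
    rw [h2]
    exact ih hi2 _ (abs_PP_le χ j0 hb)

lemma sum_inv_cell {J : ℕ} (χ : V → Fin J) :
    ∑ d, 1 / ((univ.filter (fun e => χ e = χ d)).card : ℝ) ≤ J := by
  classical
  have h1 : ∑ d, 1 / ((univ.filter (fun e => χ e = χ d)).card : ℝ) =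
      ∑ j : Fin J, ∑ d ∈ univ.filter (fun d => χ d = j),
        1 / ((univ.filter (fun e => χ e = χ d)).card : ℝ) :=
    (Finset.sum_fiberwise univ χ _).symm
  rw [h1]
  have h2 : ∀ j : Fin J, ∑ d ∈ univ.filter (fun d => χ d = j),
        1 / ((univ.filter (fun e => χ e = χ d)).card : ℝ) ≤ 1 := by
    intro j
    have h3 : ∑ d ∈ univ.filter (fun d => χ d = j),
        1 / ((univ.filter (fun e => χ e = χ d)).card : ℝ) =
        ∑ d ∈ univ.filter (fun d => χ d = j),
        1 / ((univ.filter (fun e => χ e = j)).card : ℝ) := by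
      refine Finset.sum_congr rfl fun d hd => ?_
      rw [(Finset.mem_filter.mp hd).2]
    rw [h3, Finset.sum_const, nsmul_eq_mul]
    rcases Nat.eq_zero_or_pos (univ.filter (fun e => χ e = j)).card with h0 | h0
    · rw [h0]; simp
    · have : ((univ.filter (fun e => χ e = j)).card : ℝ) ≠ 0 := by
        exact_mod_cast h0.ne'
      rw [mul_one_div_cancel this]
  calc _ ≤ ∑ _j : Fin J, (1:ℝ) := Finset.sum_le_sum fun j _ => h2 j
    _ = J := by simp

lemma energy_le [Nonempty X] [Nonempty V] [DecidableEq V] {J : ℕ} (χ : V → Fin J)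
    (M : X → V → ℝ) (B κ Λ : ℝ) (hB : 0 ≤ B) (hκ : 0 ≤ κ)
    (diag : ∀ d, gram M d d ≤ Λ) (hΛ : 0 ≤ Λ)
    (small : Λ / (Fintype.card V : ℝ) ≤ κ)
    (row : ∀ d, av (fun d' => if d' = d then 0 else max (gram M d d' - B) 0) ≤ κ) :
    av (fun n => av (fun d => proj χ (M n) d ^ 2)) ≤ B + 2 * J * κ := by
  classical
  have hV : (0:ℝ) < Fintype.card V := by exact_mod_cast Fintype.card_pos
  rw [av_comm]
  -- for each d
  have h1 : ∀ d : V, av (fun n => proj χ (M n) d ^ 2) ≤
      B + (κ * Fintype.card V + Λ) *
        (1 / ((univ.filter (fun e => χ e = χ d)).card : ℝ)) := by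
    intro d
    set c : ℝ := ((univ.filter (fun e => χ e = χ d)).card : ℝ) with hc
    have hcpos : 0 < c := cell_pos χ d
    have h2 : ∀ n, proj χ (M n) d ^ 2 = (1 / c ^ 2) *
        ∑ e ∈ univ.filter (fun e => χ e = χ d), ∑ e' ∈ univ.filter (fun e => χ e = χ d),
          M n e * M n e' := by
      intro n
      unfold proj
      rw [div_pow, pow_two (∑ e ∈ univ.filter (fun e => χ e = χ d), M n e),
        Finset.sum_mul_sum, ← hc]
      ring
    simp only [h2]
    rw [av_mul_left, av_sum]
    simp only [av_sum]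
    have h3 : ∀ e e', av (fun n => M n e * M n e') = gram M e e' := fun e e' => rfl
    simp only [h3]
    have h4 : ∀ e e', gram M e e' ≤ B + (if e' = e then 0 else max (gram M e e' - B) 0)
        + (if e' = e then Λ else 0) := by
      intro e e'
      by_cases h : e' = e
      · subst h
        simp only [if_true]
        linarith [diag e']
      · simp only [h, if_false]
        linarith [le_max_left (gram M e e' - B) 0]
    have h5 : ∀ e ∈ univ.filter (fun e => χ e = χ d),
        ∑ e' ∈ univ.filter (fun e => χ e = χ d), gram M e e' ≤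
          c * B + κ * Fintype.card V + Λ := by
      intro e he
      calc ∑ e' ∈ univ.filter (fun e => χ e = χ d), gram M e e' ≤
          ∑ e' ∈ univ.filter (fun e => χ e = χ d), (B +
            (if e' = e then 0 else max (gram M e e' - B) 0) + (if e' = e then Λ else 0)) :=
            Finset.sum_le_sum fun e' _ => h4 e e'
        _ = c * B + ∑ e' ∈ univ.filter (fun e => χ e = χ d),
            (if e' = e then 0 else max (gram M e e' - B) 0) +
            ∑ e' ∈ univ.filter (fun e => χ e = χ d), (if e' = e then Λ else 0) := by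
            rw [Finset.sum_add_distrib, Finset.sum_add_distrib, Finset.sum_const, nsmul_eq_mul]
        _ ≤ c * B + κ * Fintype.card V + Λ := by
            have h6 : ∑ e' ∈ univ.filter (fun e => χ e = χ d),
              (if e' = e then 0 else max (gram M e e' - B) 0) ≤ κ * Fintype.card V := by
              calc _ ≤ ∑ e' : V, (if e' = e then 0 else max (gram M e e' - B) 0) := by
                    refine Finset.sum_le_sum_of_subset_of_nonneg (Finset.filter_subset _ _) ?_
                    intro e' _ _
                    split_ifs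
                    · exact le_rfl
                    · exact le_max_right _ _
                _ ≤ κ * Fintype.card V := by
                    have := row e
                    unfold av at this
                    rwa [div_le_iff₀ hV] at this
            have h7 : ∑ e' ∈ univ.filter (fun e => χ e = χ d), (if e' = e then Λ else 0) ≤ Λ := by
              rw [Finset.sum_ite_eq', if_pos he]
            linarith
    have h8 : ∑ e ∈ univ.filter (fun e => χ e = χ d),
        ∑ e' ∈ univ.filter (fun e => χ e = χ d), gram M e e' ≤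
          c * (c * B + κ * Fintype.card V + Λ) := by
      calc _ ≤ ∑ e ∈ univ.filter (fun e => χ e = χ d), (c * B + κ * Fintype.card V + Λ) :=
            Finset.sum_le_sum h5
        _ = _ := by rw [Finset.sum_const, nsmul_eq_mul]
    calc 1 / c ^ 2 * ∑ e ∈ univ.filter (fun e => χ e = χ d),
        ∑ e' ∈ univ.filter (fun e => χ e = χ d), gram M e e'
        ≤ 1 / c ^ 2 * (c * (c * B + κ * Fintype.card V + Λ)) :=
          mul_le_mul_of_nonneg_left h8 (by positivity)
      _ = B + (κ * Fintype.card V + Λ) * (1 / c) := by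
          field_simp
          ring
  calc av (fun d => av (fun n => proj χ (M n) d ^ 2)) ≤
      av (fun d => B + (κ * Fintype.card V + Λ) *
        (1 / ((univ.filter (fun e => χ e = χ d)).card : ℝ))) := av_mono h1
    _ = B + (κ * Fintype.card V + Λ) *
        ((∑ d, 1 / ((univ.filter (fun e => χ e = χ d)).card : ℝ)) / Fintype.card V) := by
        rw [av_add, av_const, av_mul_left]
        rfl
    _ ≤ B + (κ * Fintype.card V + Λ) * (J / Fintype.card V) := by
        have h0 : 0 ≤ κ * Fintype.card V + Λ := by positivity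
        have := div_le_div_of_nonneg_right (sum_inv_cell χ) hV.le
        have := mul_le_mul_of_nonneg_left this h0
        linarith
    _ = B + J * (κ + Λ / Fintype.card V) := by
        field_simp
    _ ≤ B + 2 * J * κ := by
        have hJ : (0:ℝ) ≤ J := Nat.cast_nonneg _
        nlinarith [mul_le_mul_of_nonneg_left small hJ]

/-- the basic estimate -/
lemma TT_base [Nonempty X] [Nonempty V] [DecidableEq V] {m J : ℕ} (χ : V → Fin J)
    (M ν : X → V → ℝ) (C B κp κ Λ δ : ℝ) (hC : 1 ≤ C) (_hδ : 0 ≤ δ) (hκp : 0 ≤ κp)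
    (hPR : PR m M ν C B κp κ Λ)
    (hreg : ∀ v : V → ℝ, (∀ d, |v d| ≤ 1) →
        av (fun n => (av (fun d => v d * (M n d - proj χ (M n) d))) ^ 2) ≤ δ)
    (i : Fin (m+1)) (b : (Fin (m+1) → V) → ℝ) (hb : ∀ e, |b e| ≤ 1) :
    (TT b (fun j n d => if j = i then M n d - proj χ (M n) d else M n d)) ^ 2 ≤
      2 * C ^ (2 * m) * (δ + 8 * C ^ 2 * √κp) := by
  classical
  have hC0 : 0 ≤ C := by linarith
  set g : X → V → ℝ := fun n d => M n d - proj χ (M n) d with hg
  set w : (Fin m → V) × X → ℝ := fun p => ∏ j, M p.2 (p.1 j) with hw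
  set Φ : (Fin m → V) × X → ℝ := fun p => av (fun d => b (Fin.insertNth i d p.1) * g p.2 d)
    with hΦ
  have hw0 : ∀ p, 0 ≤ w p := fun p => Finset.prod_nonneg fun j _ => hPR.nonneg _ _
  -- rewrite
  have h1 : TT b (fun j n d => if j = i then M n d - proj χ (M n) d else M n d) =
      av (fun p => w p * Φ p) := by
    unfold TT
    rw [av_prod_type (fun (e' : Fin m → V) (n : X) => w (e', n) * Φ (e', n)), av_comm (fun (e' : Fin m → V) (n : X) => w (e', n) * Φ (e', n))]
    congr 1
    funext n
    rw [av_insertNth i]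
    congr 1
    funext e'
    rw [hΦ, ← av_mul_left]
    congr 1
    funext d
    rw [Fin.prod_univ_succAbove _ i]
    simp only [Fin.insertNth_apply_same, Fin.insertNth_apply_succAbove, if_true,
      Fin.succAbove_ne i, if_false, hw, hg]
    ring
  rw [h1]
  refine (av_cs_weight w Φ hw0).trans ?_
  -- first factor
  have hA : av w ≤ 2 * C ^ m := by
    have e1 : av w = av (fun n => (av (fun d => M n d)) ^ m) := by
      rw [hw]
      rw [av_prod_type (fun (e' : Fin m → V) (n : X) => ∏ j, M n (e' j)), av_comm]
      congr 1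
      funext n
      rw [av_pi_prod (fun _ : Fin m => M n)]
      simp
    rw [e1]
    calc av (fun n => (av (fun d => M n d)) ^ m) ≤
        av (fun n => C ^ m * (av (fun d => ν n d)) ^ m) := by
          refine av_mono fun n => ?_
          rw [← mul_pow, ← av_mul_left]
          exact pow_le_pow_left₀ (av_nonneg fun d => hPR.nonneg n d)
            (av_mono fun d => hPR.le n d) m
      _ = C ^ m * av (fun n => (av (fun d => ν n d)) ^ m) := av_mul_left _ _
      _ ≤ C ^ m * 2 := mul_le_mul_of_nonneg_left hPR.nu_m (by positivity)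
      _ = 2 * C ^ m := by ring
  -- second factor
  have hBd : av (fun p => w p * Φ p ^ 2) ≤ C ^ m * (δ + 8 * C ^ 2 * √κp) := by
    have e1 : ∀ p, w p * Φ p ^ 2 ≤
        C ^ m * (Φ p ^ 2 + (∏ j, ν p.2 (p.1 j) - 1) * Φ p ^ 2) := by
      intro p
      have : w p ≤ C ^ m * ∏ j, ν p.2 (p.1 j) := by
        rw [hw]
        calc ∏ j, M p.2 (p.1 j) ≤ ∏ j : Fin m, (C * ν p.2 (p.1 j)) :=
              Finset.prod_le_prod (fun j _ => hPR.nonneg _ _) (fun j _ => hPR.le _ _)
          _ = C ^ m * ∏ j, ν p.2 (p.1 j) := by
              rw [Finset.prod_mul_distrib, Finset.prod_const, Finset.card_univ,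
                Fintype.card_fin]
      have := mul_le_mul_of_nonneg_right this (sq_nonneg (Φ p))
      linarith
    have e2 : av (fun p => Φ p ^ 2) ≤ δ := by
      rw [av_prod_type (fun (e' : Fin m → V) (n : X) => Φ (e', n) ^ 2)]
      calc _ ≤ av (fun _ : Fin m → V => δ) := by
            refine av_mono fun e' => ?_
            exact hreg (fun d => b (Fin.insertNth i d e')) (fun d => hb _)
        _ = δ := av_const _
    have e3 : av (fun p : (Fin m → V) × X => (∏ j, ν p.2 (p.1 j) - 1) * Φ p ^ 2) ≤
        8 * C ^ 2 * √κp := by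
      set b' : V → (Fin m → V) → ℝ := fun d e' =>
        b (Fin.insertNth i d e') - proj χ (fun d => b (Fin.insertNth i d e')) d with hb'
      have hb'2 : ∀ d e', |b' d e'| ≤ 2 := by
        intro d e'
        rw [hb']
        have h2 : |proj χ (fun d => b (Fin.insertNth i d e')) d| ≤ 1 := by
          refine (abs_proj_le χ _ _).trans ?_
          have h := proj_mono χ (u := fun d => |b (Fin.insertNth i d e')|) (v := fun _ => 1)
            (fun d => hb _) d
          rwa [proj_const] at h
        have h3 := hb (Fin.insertNth i d e')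
        have := abs_sub (b (Fin.insertNth i d e')) (proj χ (fun d => b (Fin.insertNth i d e')) d)
        show |b (Fin.insertNth i d e') - proj χ (fun d => b (Fin.insertNth i d e')) d| ≤ 2
        linarith
      have hΦ2 : ∀ e' n, Φ (e', n) = av (fun d => b' d e' * M n d) := by
        intro e' n
        rw [hΦ, hb', hg]
        simp only [mul_sub, sub_mul]
        rw [av_sub, av_sub, av_proj_mul]
      have hΦ3 : ∀ e' n, Φ (e', n) ^ 2 = av (fun d' => av (fun d'' =>
          (b' d' e' * M n d') * (b' d'' e' * M n d''))) := by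
        intro e' n
        rw [pow_two, hΦ2, av_mul_av]
      set Ψ : X → V → V → ℝ := fun n d' d'' => av (fun e' : Fin m → V =>
        b' d' e' * b' d'' e' * (∏ j, ν n (e' j) - 1)) with hΨ
      have e4 : av (fun p : (Fin m → V) × X => (∏ j, ν p.2 (p.1 j) - 1) * Φ p ^ 2) =
          av (fun q : (V × V) × X => (M q.2 q.1.1 * M q.2 q.1.2) * Ψ q.2 q.1.1 q.1.2) := by
        rw [av_prod_type (fun (e' : Fin m → V) (n : X) => (∏ j, ν n (e' j) - 1) * Φ (e', n) ^ 2),
          av_prod_type (fun (q : V × V) (n : X) => (M n q.1 * M n q.2) * Ψ n q.1 q.2),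
          av_prod_type (fun (d' d'' : V) => av (fun n => (M n d' * M n d'') * Ψ n d' d''))]
        have e5 : ∀ d' d'' n, (M n d' * M n d'') * Ψ n d' d'' = av (fun e' : Fin m → V =>
            (∏ j, ν n (e' j) - 1) * ((b' d' e' * M n d') * (b' d'' e' * M n d''))) := by
          intro d' d'' n
          rw [hΨ, ← av_mul_left]
          congr 1
          funext e'
          ring
        simp only [e5, hΦ3]
        simp only [← av_mul_left]
        -- left: e', n, d', d'' ; right: d', d'', n, e'
        rw [av_comm (fun (e' : Fin m → V) (n : X) => av (fun d' => av (fun d'' =>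
          (∏ j, ν n (e' j) - 1) * ((b' d' e' * M n d') * (b' d'' e' * M n d'')))))]
        -- right: move n in front
        have e6 : ∀ d', av (fun d'' => av (fun n => av (fun e' : Fin m → V =>
            (∏ j, ν n (e' j) - 1) * ((b' d' e' * M n d') * (b' d'' e' * M n d''))))) =
            av (fun n => av (fun d'' => av (fun e' : Fin m → V =>
            (∏ j, ν n (e' j) - 1) * ((b' d' e' * M n d') * (b' d'' e' * M n d''))))) :=
          fun d' => av_comm _
        simp only [e6]
        rw [av_comm (fun (d' : V) (n : X) => av (fun d'' => av (fun e' : Fin m → V =>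
            (∏ j, ν n (e' j) - 1) * ((b' d' e' * M n d') * (b' d'' e' * M n d'')))))]
        congr 1
        funext n
        rw [av_comm]
        congr 1
        funext d'
        rw [av_comm]
      rw [e4]
      have hww : ∀ q : (V × V) × X, 0 ≤ M q.2 q.1.1 * M q.2 q.1.2 := fun q =>
        mul_nonneg (hPR.nonneg _ _) (hPR.nonneg _ _)
      have hcs := av_cs_weight (fun q : (V × V) × X => M q.2 q.1.1 * M q.2 q.1.2)
        (fun q : (V × V) × X => Ψ q.2 q.1.1 q.1.2) hww
      have hf1 : av (fun q : (V × V) × X => M q.2 q.1.1 * M q.2 q.1.2) ≤ 2 * C ^ 2 := by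
        rw [av_prod_type (fun (q : V × V) (n : X) => M n q.1 * M n q.2),
          av_prod_type (fun (d' d'' : V) => av (fun n => M n d' * M n d''))]
        have e6 : ∀ d', av (fun d'' => av (fun n => M n d' * M n d'')) =
          av (fun n => av (fun d'' => M n d' * M n d'')) := fun d' => av_comm _
        simp only [e6]
        rw [av_comm]
        calc av (fun n => av (fun d' => av (fun d'' => M n d' * M n d''))) =
            av (fun n => (av (fun d => M n d)) ^ 2) := by
              congr 1
              funext n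
              rw [pow_two, av_mul_av]
          _ ≤ av (fun n => C ^ 2 * (av (fun d => ν n d)) ^ 2) := by
              refine av_mono fun n => ?_
              rw [← mul_pow, ← av_mul_left]
              exact pow_le_pow_left₀ (av_nonneg fun d => hPR.nonneg n d)
                (av_mono fun d => hPR.le n d) 2
          _ = C ^ 2 * av (fun n => (av (fun d => ν n d)) ^ 2) := av_mul_left _ _
          _ ≤ C ^ 2 * 2 := mul_le_mul_of_nonneg_left hPR.nu_two (by positivity)
          _ = 2 * C ^ 2 := by ring
      have hf2 : av (fun q : (V × V) × X => M q.2 q.1.1 * M q.2 q.1.2 *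
          Ψ q.2 q.1.1 q.1.2 ^ 2) ≤ 16 * C ^ 2 * κp := by
        rw [av_prod_type (fun (q : V × V) (n : X) => M n q.1 * M n q.2 * Ψ n q.1 q.2 ^ 2),
          av_prod_type (fun (d' d'' : V) => av (fun n => M n d' * M n d'' * Ψ n d' d'' ^ 2))]
        have hps := hPR.pseudo (fun e d' d'' => b' d' e * b' d'' e / 4) (by
          intro e d' d''
          rw [abs_div, abs_mul]
          have h2 := hb'2 d' e
          have h3 := hb'2 d'' e
          have h4 : |b' d' e| * |b' d'' e| ≤ 2 * 2 :=
            mul_le_mul h2 h3 (abs_nonneg _) (by norm_num)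
          rw [abs_of_pos (by norm_num : (0:ℝ) < 4), div_le_one (by norm_num)]
          linarith)
        have e7 : ∀ n d' d'', Ψ n d' d'' = 4 * av (fun e' : Fin m → V =>
            b' d' e' * b' d'' e' / 4 * (∏ j, ν n (e' j) - 1)) := by
          intro n d' d''
          rw [← av_mul_left]
          show av (fun e' : Fin m → V => b' d' e' * b' d'' e' * (∏ j, ν n (e' j) - 1)) = _
          congr 1
          funext e'
          ring
        calc av (fun d' => av (fun d'' => av (fun n => M n d' * M n d'' * Ψ n d' d'' ^ 2))) ≤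
            av (fun d' => av (fun d'' => av (fun n => (16 * C ^ 2) * (ν n d' * ν n d'' *
              (av (fun e' : Fin m → V =>
                b' d' e' * b' d'' e' / 4 * (∏ j, ν n (e' j) - 1))) ^ 2)))) := by
              refine av_mono fun d' => av_mono fun d'' => av_mono fun n => ?_
              rw [e7]
              have h2 : M n d' * M n d'' ≤ (C * ν n d') * (C * ν n d'') :=
                mul_le_mul (hPR.le _ _) (hPR.le _ _) (hPR.nonneg _ _)
                  (mul_nonneg hC0 (hPR.nu_nonneg _ _))
              have h3 := mul_le_mul_of_nonneg_right h2 (sq_nonneg (4 * av (fun e' : Fin m → V =>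
                b' d' e' * b' d'' e' / 4 * (∏ j, ν n (e' j) - 1))))
              refine h3.trans (le_of_eq ?_)
              ring
          _ = 16 * C ^ 2 * av (fun d' => av (fun d'' => av (fun n => (ν n d' * ν n d'' *
              (av (fun e' : Fin m → V =>
                b' d' e' * b' d'' e' / 4 * (∏ j, ν n (e' j) - 1))) ^ 2)))) := by
              simp only [av_mul_left]
          _ ≤ 16 * C ^ 2 * κp := mul_le_mul_of_nonneg_left hps (by positivity)
      have hfin : (av (fun q : (V × V) × X => (M q.2 q.1.1 * M q.2 q.1.2) *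
          Ψ q.2 q.1.1 q.1.2)) ^ 2 ≤ (8 * C ^ 2 * √κp) ^ 2 := by
        refine hcs.trans ?_
        have h8 : 0 ≤ av (fun q : (V × V) × X => M q.2 q.1.1 * M q.2 q.1.2 *
          Ψ q.2 q.1.1 q.1.2 ^ 2) := av_nonneg fun q => mul_nonneg (hww q) (sq_nonneg _)
        calc _ ≤ (2 * C ^ 2) * (16 * C ^ 2 * κp) :=
              mul_le_mul hf1 hf2 h8 (by positivity)
          _ ≤ (8 * C ^ 2 * √κp) ^ 2 := by
              rw [mul_pow, Real.sq_sqrt hκp]
              have : 0 ≤ C ^ 2 * C ^ 2 * κp := by positivity
              nlinarith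
      exact (le_abs_self _).trans (abs_le_of_sq_le_sq hfin (by positivity))
    calc av (fun p => w p * Φ p ^ 2) ≤
        av (fun p => C ^ m * (Φ p ^ 2 + (∏ j, ν p.2 (p.1 j) - 1) * Φ p ^ 2)) := av_mono e1
      _ = C ^ m * (av (fun p => Φ p ^ 2) +
          av (fun p : (Fin m → V) × X => (∏ j, ν p.2 (p.1 j) - 1) * Φ p ^ 2)) := by
          rw [av_mul_left, av_add]
      _ ≤ C ^ m * (δ + 8 * C ^ 2 * √κp) :=
          mul_le_mul_of_nonneg_left (add_le_add e2 e3) (by positivity)
  have hnn : 0 ≤ av (fun p => w p * Φ p ^ 2) := av_nonneg fun p => mul_nonneg (hw0 p) (sq_nonneg _)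
  calc av w * av (fun p => w p * Φ p ^ 2) ≤ (2 * C ^ m) * (C ^ m * (δ + 8 * C ^ 2 * √κp)) :=
        mul_le_mul hA hBd hnn (by positivity)
    _ = 2 * C ^ (2 * m) * (δ + 8 * C ^ 2 * √κp) := by
        rw [two_mul m, pow_add]; ring

end A3aux

open A3aux

/-- A3: the structure theorem: tuple correlations are determined by the averages over the cells of a
bounded partition. -/
theorem close_tuples (m : ℕ) (hm : 1 ≤ m) (B ε : ℝ) (hB : 1 ≤ B) (hε : 0 < ε) : ∃ cp : ℝ, 0 < cp ∧
    ∀ C : ℝ, 1 ≤ C → ∃ κ : ℝ, 0 < κ ∧ ∃ J : ℕ, 0 < J ∧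
    ∀ (X V : Type) [Fintype X] [Nonempty X] [Fintype V] [Nonempty V] [DecidableEq V]
      (M ν : X → V → ℝ) (Λ : ℝ), PR m M ν C B (cp / C ^ (4 * m + 4)) κ Λ →
      ∃ χ : V → Fin J, av (fun e : Fin (m + 1) → V => if Function.Injective e then
        |corr M e - corr (fun n => proj χ (M n)) e| else 0) ≤ ε := by
  classical
  have hm1 : (0:ℝ) < (m:ℝ) + 1 := by positivity
  set η : ℝ := ε / ((m:ℝ) + 1) with hη
  have hη0 : 0 < η := by positivity
  refine ⟨(η / 8) ^ 4, by positivity, ?_⟩
  intro C hC
  have hC0 : 0 < C := by linarith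
  set δ : ℝ := (η / (4 * C ^ m)) ^ 2 with hδ
  have hδ0 : 0 < δ := by positivity
  obtain ⟨J, hJ, hex⟩ := exists_regular (B + 1) δ (by linarith) hδ0
  have hJ0 : (0:ℝ) < J := by exact_mod_cast hJ
  refine ⟨1 / (2 * J), by positivity, J, hJ, ?_⟩
  intro X V _ _ _ _ _ M ν Λ hPR
  have hΛ : 0 ≤ Λ := by
    obtain ⟨d⟩ := (inferInstance : Nonempty V)
    have h1 := hPR.diag d
    have h2 : 0 ≤ gram M d d := av_nonneg fun n => mul_nonneg (hPR.nonneg _ _) (hPR.nonneg _ _)
    linarith
  obtain ⟨χ, hχ⟩ := hex X V M hPR.nonneg (fun χ => by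
    refine (energy_le χ M B (1 / (2 * J)) Λ (by linarith) (by positivity) hPR.diag hΛ
      hPR.small hPR.row).trans (le_of_eq ?_)
    field_simp)
  refine ⟨χ, ?_⟩
  set κp : ℝ := (η / 8) ^ 4 / C ^ (4 * m + 4) with hκp
  have hκp0 : 0 ≤ κp := by positivity
  have hsq : √κp = (η / 8) ^ 2 / C ^ (2 * m + 2) := by
    have : κp = ((η / 8) ^ 2 / C ^ (2 * m + 2)) ^ 2 := by
      rw [hκp, div_pow ((η / 8) ^ 2), ← pow_mul, ← pow_mul]
      congr 2
      ring
    rw [this, Real.sqrt_sq (by positivity)]
  have hbase : ∀ (i : Fin (m+1)) (b : (Fin (m+1) → V) → ℝ), (∀ e, |b e| ≤ 1) →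
      |TT b (fun j n d => if j = i then M n d - proj χ (M n) d else M n d)| ≤ η := by
    intro i b hb
    have h := TT_base χ M ν C B κp (1 / (2 * J)) Λ δ hC hδ0.le hκp0 hPR hχ i b hb
    have h2 : 2 * C ^ (2 * m) * (δ + 8 * C ^ 2 * √κp) ≤ η ^ 2 := by
      rw [hsq, hδ]
      have h3 : 2 * C ^ (2 * m) * ((η / (4 * C ^ m)) ^ 2 + 8 * C ^ 2 *
          ((η / 8) ^ 2 / C ^ (2 * m + 2))) = 3 / 8 * η ^ 2 := by
        rw [div_pow, mul_pow, ← pow_mul, mul_comm m 2, pow_add C (2 * m) 2]
        field_simp
        ring
      rw [h3]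
      nlinarith [sq_nonneg η]
    exact abs_le_of_sq_le_sq (h.trans h2) hη0.le
  -- the sign function
  set b : (Fin (m+1) → V) → ℝ := fun e => if Function.Injective e then
    (if 0 ≤ corr M e - corr (fun n => proj χ (M n)) e then 1 else -1) else 0 with hb
  have hb1 : ∀ e, |b e| ≤ 1 := by
    intro e
    rw [hb]
    simp only
    split_ifs <;> simp
  have h1 : av (fun e : Fin (m + 1) → V => if Function.Injective e then
        |corr M e - corr (fun n => proj χ (M n)) e| else 0) =
      TT b (fun _ => M) - TT b (fun _ n => proj χ (M n)) := by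
    unfold TT
    rw [av_comm (fun (n : X) (e : Fin (m+1) → V) => b e * ∏ j, M n (e j)),
      av_comm (fun (n : X) (e : Fin (m+1) → V) => b e * ∏ j, proj χ (M n) (e j)), ← av_sub]
    congr 1
    funext e
    rw [av_mul_left, av_mul_left, ← mul_sub]
    show _ = b e * (corr M e - corr (fun n => proj χ (M n)) e)
    rw [hb]
    simp only
    split_ifs with h1 h2
    · rw [abs_of_nonneg h2, one_mul]
    · rw [abs_of_neg (not_le.mp h2)]; ring
    · ring
  rw [h1, TT_tele]
  have h2 : ∀ i : Fin (m+1), TT b (fun j n d => if j = i then M n d - proj χ (M n) d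
        else if j < i then proj χ (M n) d else M n d) ≤ η := by
    intro i
    have h3 := TT_bound χ M η i (hbase i) (univ.filter (fun j => j < i)) (by simp) b hb1
    simp only [Finset.mem_filter, Finset.mem_univ, true_and] at h3
    exact (abs_le.mp h3).2
  calc _ ≤ ∑ _i : Fin (m+1), η := Finset.sum_le_sum fun i _ => h2 i
    _ = ε := by
      rw [Finset.sum_const, Finset.card_univ, Fintype.card_fin, nsmul_eq_mul, hη]
      push_cast
      field_simp

end Pool.Agent.HLT
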