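import Mathlib
import Pool.Agent.HLT.Defs
import Pool.Agent.HLT.AvProj

set_option autoImplicit false

open Finset

namespace Pool.Agent.HLT

/-- A5: `4m+1` nonnegative functions of mean about 1 and second moment about 4: some `m+1` of them
have a product of mean at least `2 c0 m`. -/
theorem exists_subtuple (m : ℕ) (hm : 1 ≤ m) {X : Type} [Fintype X] [Nonempty X]
    (F : Fin (4 * m + 1) → X → ℝ) (hF : ∀ i n, 0 ≤ F i n)
    (h1 : ∀ i, 1 - 1 / (64 * (4 * (m:ℝ) + 1)) ≤ av (F i))
    (h2 : ∀ i, av (fun n => F i n ^ 2) ≤ 4 + 1 / (4 * (m:ℝ) + 1)) :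
    ∃ I : Fin (m + 1) ↪ Fin (4 * m + 1), 2 * c0 m ≤ av (fun n => ∏ j, F (I j) n) := by
  classical
  have hmR : (1:ℝ) ≤ m := by exact_mod_cast hm
  obtain ⟨u, hu⟩ : ∃ u : ℝ, u = 1 / (4 * (m:ℝ) + 1) := ⟨_, rfl⟩
  have hKpos : (0:ℝ) < 4 * (m:ℝ) + 1 := by positivity
  have hu0 : 0 < u := by rw [hu]; positivity
  have huK : u * (4 * (m:ℝ) + 1) = 1 := by rw [hu]; field_simp
  have hu1 : u ≤ 1 := by
    rw [hu, div_le_one hKpos]; linarith
  have hta : 1 / (64 * (4 * (m:ℝ) + 1)) = u / 64 := by rw [hu]; field_simp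
  obtain ⟨t, ht⟩ : ∃ t : ℝ, t = u / 64 := ⟨_, rfl⟩
  have ht0 : 0 < t := by rw [ht]; positivity
  -- indicators
  let g : Fin (4 * m + 1) → X → ℝ := fun i n => if t < F i n then 1 else 0
  have hP : ∀ i, 1 / 4 - u / 8 ≤ av (g i) := by
    intro i
    have e1 : av (F i) ≤ t + av (fun n => F i n * g i n) := by
      have h : av (F i) ≤ av (fun n => t + F i n * g i n) := by
        apply av_mono
        intro n
        by_cases hlt : t < F i n
        · have : g i n = 1 := if_pos hlt
          rw [this]; linarith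
        · have : g i n = 0 := if_neg hlt
          rw [this]; linarith [not_lt.mp hlt]
      rwa [av_add, av_const] at h
    have e2 : (av (fun n => F i n * g i n)) ^ 2 ≤
        av (fun n => F i n ^ 2) * av (fun n => g i n ^ 2) := av_cs _ _
    have e3 : av (fun n => g i n ^ 2) = av (g i) := by
      congr 1
      funext n
      by_cases hlt : t < F i n
      · have : g i n = 1 := if_pos hlt
        rw [this]; norm_num
      · have : g i n = 0 := if_neg hlt
        rw [this]; norm_num
    rw [e3] at e2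
    have e4 := h1 i
    rw [hta] at e4
    have e5 := h2 i
    rw [← hu] at e5
    have e6 : 1 - u / 32 ≤ av (fun n => F i n * g i n) := by
      rw [ht] at e1; linarith
    have e7 : (1 - u / 32) ^ 2 ≤ (av (fun n => F i n * g i n)) ^ 2 :=
      pow_le_pow_left₀ (by linarith) e6 2
    have e8 : 0 ≤ av (g i) := av_nonneg (fun n => by
      show 0 ≤ (if t < F i n then (1:ℝ) else 0)
      split_ifs <;> norm_num)
    have e9 : (1 - u / 32) ^ 2 ≤ (4 + u) * av (g i) :=
      e7.trans (e2.trans (mul_le_mul_of_nonneg_right e5 e8))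
    by_contra hcon
    push Not at hcon
    nlinarith [mul_lt_mul_of_pos_left hcon (by linarith : 0 < 4 + u)]
  -- the counting function
  let cnt : X → ℝ := fun n => ∑ i, g i n
  have hcnt : (m:ℝ) + 1 / 8 ≤ av cnt := by
    have : av cnt = ∑ i, av (g i) := av_sum univ g
    rw [this]
    have h : ∑ i : Fin (4 * m + 1), (1 / 4 - u / 8) ≤ ∑ i, av (g i) :=
      Finset.sum_le_sum fun i _ => hP i
    rw [Finset.sum_const, Finset.card_univ, Fintype.card_fin, nsmul_eq_mul] at h
    push_cast at h
    nlinarith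
  let ind : X → ℝ := fun n => if ∃ I : Fin (m + 1) ↪ Fin (4 * m + 1), ∀ j, t < F (I j) n
    then 1 else 0
  have hci : ∀ n, cnt n ≤ (m:ℝ) + (3 * m + 1) * ind n := by
    intro n
    have hcard : cnt n = ((univ.filter (fun i => t < F i n)).card : ℝ) := by
      show ∑ i, (if t < F i n then (1:ℝ) else 0) = _
      rw [Finset.sum_boole]
    by_cases hex : ∃ I : Fin (m + 1) ↪ Fin (4 * m + 1), ∀ j, t < F (I j) n
    · have : ind n = 1 := if_pos hex
      rw [this, hcard]
      have h3 : (univ.filter (fun i => t < F i n)).card ≤ 4 * m + 1 := by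
        have := Finset.card_le_univ (univ.filter (fun i => t < F i n))
        simpa using this
      have h4 : ((univ.filter (fun i => t < F i n)).card : ℝ) ≤ 4 * m + 1 := by exact_mod_cast h3
      linarith
    · have : ind n = 0 := if_neg hex
      rw [this, hcard]
      have h3 : (univ.filter (fun i => t < F i n)).card ≤ m := by
        by_contra hc
        push Not at hc
        apply hex
        obtain ⟨S, hS, hScard⟩ := Finset.exists_subset_card_eq (Nat.succ_le_of_lt hc)
        let e := S.orderEmbOfFin hScard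
        refine ⟨e.toEmbedding, fun j => ?_⟩
        have hmem := hS (S.orderEmbOfFin_mem hScard j)
        exact (Finset.mem_filter.mp hmem).2
      have h4 : ((univ.filter (fun i => t < F i n)).card : ℝ) ≤ m := by exact_mod_cast h3
      linarith
  have hind : 1 / (8 * (3 * (m:ℝ) + 1)) ≤ av ind := by
    have h : av cnt ≤ av (fun n => (m:ℝ) + (3 * m + 1) * ind n) := av_mono hci
    rw [av_add, av_const, av_mul_left] at h
    have h5 : 1 / 8 ≤ (3 * (m:ℝ) + 1) * av ind := by linarith
    rw [div_le_iff₀ (by positivity)]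
    nlinarith
  -- sum over embeddings
  let q : (Fin (m + 1) ↪ Fin (4 * m + 1)) → X → ℝ :=
    fun I n => if ∀ j, t < F (I j) n then 1 else 0
  have hq : ∀ n, ind n ≤ ∑ I, q I n := by
    intro n
    have hq0 : ∀ I, 0 ≤ q I n := fun I => by
      show 0 ≤ (if ∀ j, t < F (I j) n then (1:ℝ) else 0)
      split_ifs <;> norm_num
    by_cases hex : ∃ I : Fin (m + 1) ↪ Fin (4 * m + 1), ∀ j, t < F (I j) n
    · have h6 : ind n = 1 := if_pos hex
      obtain ⟨I, hI⟩ := hex
      have h7 : q I n = 1 := if_pos hI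
      rw [h6, ← h7]
      exact Finset.single_le_sum (fun I _ => hq0 I) (mem_univ I)
    · have h6 : ind n = 0 := if_neg hex
      rw [h6]
      exact Finset.sum_nonneg fun I _ => hq0 I
  have hsum : 1 / (8 * (3 * (m:ℝ) + 1)) ≤ ∑ I, av (q I) := by
    refine hind.trans ?_
    rw [← av_sum]
    exact av_mono hq
  have hcardE : Fintype.card (Fin (m + 1) ↪ Fin (4 * m + 1)) =
      (4 * m + 1).choose (m + 1) * (m + 1).factorial := by
    rw [Fintype.card_embedding_eq, Fintype.card_fin, Fintype.card_fin,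
      Nat.descFactorial_eq_factorial_mul_choose, mul_comm]
  obtain ⟨N, hN⟩ : ∃ N : ℝ, N = ((4 * m + 1).choose (m + 1) : ℝ) * ((m+1).factorial : ℝ) :=
    ⟨_, rfl⟩
  have hchoose : 0 < (4 * m + 1).choose (m + 1) := Nat.choose_pos (by omega)
  have hNpos : 0 < N := by
    rw [hN]
    have h8 : (0:ℝ) < ((4 * m + 1).choose (m + 1) : ℝ) := by exact_mod_cast hchoose
    have h9 : (0:ℝ) < ((m+1).factorial : ℝ) := by exact_mod_cast Nat.factorial_pos _
    positivity
  have hcardN : (Fintype.card (Fin (m + 1) ↪ Fin (4 * m + 1)) : ℝ) = N := by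
    rw [hcardE, hN]; push_cast; ring
  obtain ⟨I, hI⟩ : ∃ I : Fin (m + 1) ↪ Fin (4 * m + 1),
      1 / (8 * (3 * (m:ℝ) + 1)) / N ≤ av (q I) := by
    by_contra hcon
    push Not at hcon
    have hne : (univ : Finset (Fin (m + 1) ↪ Fin (4 * m + 1))).Nonempty := by
      rw [← Finset.card_pos, Finset.card_univ, hcardE]
      exact Nat.mul_pos hchoose (Nat.factorial_pos _)
    have h10 : ∑ I, av (q I) < ∑ _I : Fin (m + 1) ↪ Fin (4 * m + 1),
        1 / (8 * (3 * (m:ℝ) + 1)) / N :=
      Finset.sum_lt_sum_of_nonempty hne fun I _ => hcon I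
    rw [Finset.sum_const, Finset.card_univ, nsmul_eq_mul, hcardN, mul_div_cancel₀ _ hNpos.ne'] at h10
    linarith
  refine ⟨I, ?_⟩
  have hprod : ∀ n, t ^ (m + 1) * q I n ≤ ∏ j, F (I j) n := by
    intro n
    by_cases hall : ∀ j, t < F (I j) n
    · have h11 : q I n = 1 := if_pos hall
      rw [h11, mul_one]
      have h12 : ∏ _j : Fin (m + 1), t ≤ ∏ j, F (I j) n :=
        Finset.prod_le_prod (fun _ _ => ht0.le) (fun j _ => (hall j).le)
      rwa [Finset.prod_const, Finset.card_univ, Fintype.card_fin] at h12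
    · have h11 : q I n = 0 := if_neg hall
      rw [h11, mul_zero]
      exact Finset.prod_nonneg fun j _ => hF _ _
  have h13 : t ^ (m + 1) * av (q I) ≤ av (fun n => ∏ j, F (I j) n) := by
    rw [← av_mul_left]
    exact av_mono hprod
  have h14 : 2 * c0 m = t ^ (m + 1) * (1 / (8 * (3 * (m:ℝ) + 1)) / N) := by
    unfold c0
    rw [hta, ← ht, hN]
    have h8 : ((4 * m + 1).choose (m + 1) : ℝ) ≠ 0 := by exact_mod_cast hchoose.ne'
    have h9 : ((m+1).factorial : ℝ) ≠ 0 := by exact_mod_cast (Nat.factorial_pos _).ne'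
    have h15 : (3 * (m:ℝ) + 1) ≠ 0 := by positivity
    field_simp
    norm_num
  rw [h14]
  exact (mul_le_mul_of_nonneg_left hI (by positivity)).trans h13

end Pool.Agent.HLT
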