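import Mathlib
import Pool.Agent.HLT.Defs
import Pool.Agent.HLT.AvProj
import Pool.Agent.HLT.Tuples1

set_option autoImplicit false

open Finset

namespace Pool.Agent.HLT

lemma A6_c0_pos (m : ℕ) : 0 < c0 m := by
  unfold c0
  have h : 0 < (4 * m + 1).choose (m + 1) ∨ m = 0 := by
    left; exact Nat.choose_pos (by omega)
  have h' : (0:ℝ) < ((4 * m + 1).choose (m + 1) : ℝ) := by
    exact_mod_cast Nat.choose_pos (by omega)
  have h2 : (0:ℝ) < ((m+1).factorial : ℝ) := by exact_mod_cast Nat.factorial_pos _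
  positivity

lemma A6_second {X V : Type} [Fintype X] [Fintype V] [DecidableEq V] {J : ℕ}
    (M : X → V → ℝ) (χ : V → Fin J) {κ β Λ : ℝ} (hκ : 0 < κ) (hβ : 0 < β)
    (hdiag : ∀ d, gram M d d ≤ Λ) (hsmall : Λ / (Fintype.card V : ℝ) ≤ κ)
    (hrow : ∀ d, av (fun d' => if d' = d then 0 else max (gram M d d' - (4 + κ)) 0) ≤ κ)
    (d : V) (hcell : β * (Fintype.card V : ℝ) ≤
      ((univ.filter (fun e => χ e = χ d)).card : ℝ)) :
    av (fun n => proj χ (M n) d ^ 2) ≤ 4 + κ + 2 * κ / β := by
  set S := univ.filter (fun e => χ e = χ d) with hS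
  have hc : (0:ℝ) < (S.card : ℝ) := cell_pos χ d
  have hV : (0:ℝ) < (Fintype.card V : ℝ) := by
    have : 0 < Fintype.card V := Fintype.card_pos_iff.2 ⟨d⟩
    exact_mod_cast this
  have key : av (fun n => proj χ (M n) d ^ 2) =
      (∑ e ∈ S, ∑ e' ∈ S, gram M e e') * (1 / (S.card : ℝ) ^ 2) := by
    have h1 : (fun n => proj χ (M n) d ^ 2) =
        fun n => (∑ e ∈ S, ∑ e' ∈ S, M n e * M n e') * (1 / (S.card : ℝ) ^ 2) := by
      funext n
      unfold proj
      rw [← hS, div_pow, pow_two (∑ e ∈ S, M n e), Finset.sum_mul_sum]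
      ring
    rw [h1, av_mul_right, av_sum]
    congr 1
    refine Finset.sum_congr rfl fun e _ => ?_
    rw [av_sum]
    rfl
  have hrowS : ∀ e ∈ S, ∑ e' ∈ S, gram M e e' ≤
      Λ + (S.card : ℝ) * (4 + κ) + κ * (Fintype.card V : ℝ) := by
    intro e he
    have h1 : ∀ e' ∈ S, gram M e e' ≤ (if e' = e then Λ else 0) + (4 + κ) +
        (if e' = e then 0 else max (gram M e e' - (4 + κ)) 0) := by
      intro e' _
      by_cases h : e' = e
      · subst h
        simp only [if_true]
        have := hdiag e'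
        linarith
      · simp only [if_neg h]
        have := le_max_left (gram M e e' - (4 + κ)) 0
        linarith
    refine (Finset.sum_le_sum h1).trans ?_
    rw [Finset.sum_add_distrib, Finset.sum_add_distrib, Finset.sum_ite_eq' S e, if_pos he,
      Finset.sum_const, nsmul_eq_mul]
    have h2 : ∑ e' ∈ S, (if e' = e then 0 else max (gram M e e' - (4 + κ)) 0) ≤
        κ * (Fintype.card V : ℝ) := by
      have h3 := hrow e
      unfold av at h3
      rw [div_le_iff₀ hV] at h3
      refine le_trans ?_ h3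
      refine Finset.sum_le_sum_of_subset_of_nonneg (Finset.subset_univ _) ?_
      intro i _ _
      split_ifs
      · exact le_rfl
      · exact le_max_right _ _
    linarith
  rw [key]
  have h4 : ∑ e ∈ S, ∑ e' ∈ S, gram M e e' ≤
      (S.card : ℝ) * (Λ + (S.card : ℝ) * (4 + κ) + κ * (Fintype.card V : ℝ)) := by
    refine (Finset.sum_le_sum hrowS).trans ?_
    rw [Finset.sum_const, nsmul_eq_mul]
  have h5 : Λ ≤ κ * (Fintype.card V : ℝ) := by rwa [div_le_iff₀ hV] at hsmall
  calc (∑ e ∈ S, ∑ e' ∈ S, gram M e e') * (1 / (S.card : ℝ) ^ 2)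
      ≤ ((S.card : ℝ) * (κ * (Fintype.card V : ℝ) + (S.card : ℝ) * (4 + κ) +
        κ * (Fintype.card V : ℝ))) * (1 / (S.card : ℝ) ^ 2) := by
        refine mul_le_mul_of_nonneg_right (h4.trans ?_) (by positivity)
        refine mul_le_mul_of_nonneg_left ?_ hc.le
        linarith
    _ = 4 + κ + 2 * κ * (Fintype.card V : ℝ) / (S.card : ℝ) := by
        field_simp
        ring
    _ ≤ 4 + κ + 2 * κ / β := by
        have : 2 * κ * (Fintype.card V : ℝ) / (S.card : ℝ) ≤ 2 * κ / β := by
          rw [div_le_div_iff₀ hc hβ]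
          nlinarith
        linarith

lemma A6_sum {V T : Type} [Fintype V] [DecidableEq V] [Fintype T] {r : ℕ}
    (f : T → Fin r → V) {B : ℝ}
    (hB : ∀ v : Fin r → V, ((univ.filter (fun t : T => ∀ i, f t i = v i)).card : ℝ) ≤ B)
    (w : (Fin r → V) → ℝ) (hw : ∀ v, 0 ≤ w v) :
    ∑ t, w (f t) ≤ B * ∑ v, w v := by
  classical
  have h1 : ∑ t, w (f t) = ∑ v, ∑ t ∈ univ.filter (fun t : T => f t = v), w (f t) := by
    rw [Finset.sum_fiberwise]
  rw [h1, Finset.mul_sum]
  refine Finset.sum_le_sum fun v _ => ?_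
  have h2 : ∑ t ∈ univ.filter (fun t : T => f t = v), w (f t) =
      ((univ.filter (fun t : T => f t = v)).card : ℝ) * w v := by
    rw [← nsmul_eq_mul, ← Finset.sum_const]
    refine Finset.sum_congr rfl fun t ht => ?_
    rw [(Finset.mem_filter.1 ht).2]
  rw [h2]
  refine mul_le_mul_of_nonneg_right ?_ (hw v)
  refine le_trans ?_ (hB v)
  have h3 : (univ.filter (fun t : T => f t = v)).card ≤
      (univ.filter (fun t : T => ∀ i, f t i = v i)).card := by
    refine Finset.card_le_card ?_
    intro t ht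
    simp only [Finset.mem_filter, Finset.mem_univ, true_and] at ht ⊢
    intro i; rw [ht]
  exact_mod_cast h3

lemma A6_small {V : Type} [Fintype V] [Nonempty V] {J : ℕ} (χ : V → Fin J) {β : ℝ} (hβ : 0 < β) :
    av (fun d => if ((univ.filter (fun e => χ e = χ d)).card : ℝ) < β * (Fintype.card V : ℝ)
      then (1:ℝ) else 0) ≤ J * β := by
  classical
  have hV : (0:ℝ) < (Fintype.card V : ℝ) := by exact_mod_cast Fintype.card_pos
  unfold av
  rw [div_le_iff₀ hV]
  rw [← Finset.sum_fiberwise (s := univ) (g := χ)]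
  have h1 : ∀ j : Fin J, ∑ d ∈ univ.filter (fun d => χ d = j),
      (if ((univ.filter (fun e => χ e = χ d)).card : ℝ) < β * (Fintype.card V : ℝ)
      then (1:ℝ) else 0) ≤ β * (Fintype.card V : ℝ) := by
    intro j
    have h2 : ∀ d ∈ univ.filter (fun d => χ d = j),
        (if ((univ.filter (fun e => χ e = χ d)).card : ℝ) < β * (Fintype.card V : ℝ)
        then (1:ℝ) else 0) =
        (if ((univ.filter (fun e => χ e = j)).card : ℝ) < β * (Fintype.card V : ℝ)
        then (1:ℝ) else 0) := by
      intro d hd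
      rw [(Finset.mem_filter.1 hd).2]
    rw [Finset.sum_congr rfl h2, Finset.sum_const, nsmul_eq_mul]
    split_ifs with h
    · rw [mul_one]; exact h.le
    · rw [mul_zero]; positivity
  refine (Finset.sum_le_sum fun j _ => h1 j).trans ?_
  rw [Finset.sum_const, Finset.card_univ, Fintype.card_fin, nsmul_eq_mul]
  linarith

lemma A6_av0 {V : Type} [Fintype V] [Nonempty V] {m : ℕ} (g : V → ℝ) :
    av (fun v : Fin (m + 1) → V => g (v 0)) = av g := by
  have h := av_pi_prod (r := m + 1) (fun (i : Fin (m + 1)) (d : V) => if i = 0 then g d else 1)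
  have h1 : (fun e : Fin (m + 1) → V => ∏ i, (if i = 0 then g (e i) else 1)) =
      fun e => g (e 0) := by
    funext e
    rw [Finset.prod_ite_eq' univ (0 : Fin (m + 1)) (fun i => g (e i))]
    simp
  rw [h1] at h
  rw [h, Fin.prod_univ_succ]
  have h2 : ∀ i : Fin m, av (fun d : V => if i.succ = 0 then g d else 1) = 1 := by
    intro i
    simp only [Fin.succ_ne_zero, if_false]
    exact av_const 1
  simp only [if_true, h2, Finset.prod_const_one, mul_one]

/-- A6: the abstract conclusion. -/
theorem tuples_of_close (m : ℕ) (hm : 1 ≤ m) (D ε : ℝ) (hD : 0 < D) (hε : 0 < ε) :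
    ∃ ε1 : ℝ, 0 < ε1 ∧ ∀ J : ℕ, 0 < J → ∃ κ : ℝ, 0 < κ ∧
    ∀ (X V : Type) [Fintype X] [Nonempty X] [Fintype V] [Nonempty V] [DecidableEq V]
      (M : X → V → ℝ) (Λ : ℝ) (χ : V → Fin J),
      (∀ n d, 0 ≤ M n d) → (∀ d, 1 - κ ≤ av (fun n => M n d)) →
      (∀ d, gram M d d ≤ Λ) → Λ / (Fintype.card V : ℝ) ≤ κ →
      (∀ d, av (fun d' => if d' = d then 0 else max (gram M d d' - (4 + κ)) 0) ≤ κ) →
      av (fun e : Fin (m + 1) → V => if Function.Injective e then
        |corr M e - corr (fun n => proj χ (M n)) e| else 0) ≤ ε1 →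
      ∀ (T : Type) [Fintype T] (e : T → Fin (4 * m + 1) → V),
        (∀ t, Function.Injective (e t)) →
        (∀ (I : Fin (m + 1) ↪ Fin (4 * m + 1)) (v : Fin (m + 1) → V),
          ((univ.filter (fun t : T => ∀ i, e t (I i) = v i)).card : ℝ) ≤
            D * (Fintype.card T : ℝ) / (Fintype.card V : ℝ) ^ (m + 1)) →
        ((univ.filter (fun t : T => ∀ I : Fin (m + 1) ↪ Fin (4 * m + 1),
          corr M (fun i => e t (I i)) < c0 m)).card : ℝ) ≤ ε * (Fintype.card T : ℝ) := by
  classical
  have hc0 := A6_c0_pos m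
  set Nemb : ℝ := (Fintype.card (Fin (m + 1) ↪ Fin (4 * m + 1)) : ℝ) with hNemb
  let I0 : Fin (m + 1) ↪ Fin (4 * m + 1) := Fin.castLEEmb (by omega)
  have hNpos : 0 < Nemb := by
    have : 0 < Fintype.card (Fin (m + 1) ↪ Fin (4 * m + 1)) := Fintype.card_pos_iff.2 ⟨I0⟩
    rw [hNemb]; exact_mod_cast this
  refine ⟨ε * c0 m / (2 * D * Nemb), by positivity, ?_⟩
  intro J hJ
  have hJ' : (0:ℝ) < J := by exact_mod_cast hJ
  set K : ℝ := 4 * (m:ℝ) + 1 with hK
  have hKpos : 0 < K := by positivity
  have hK1 : 1 ≤ K := by rw [hK]; have : (0:ℝ) ≤ m := by positivity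
                         linarith
  set β : ℝ := ε / (4 * K * D * J) with hβ
  have hβpos : 0 < β := by positivity
  set κ : ℝ := 1 / (64 * K * (1 + 2 / β)) with hκ
  have hκpos : 0 < κ := by positivity
  have hκeq : κ * (1 + 2 / β) = 1 / (64 * K) := by
    rw [hκ]; field_simp
  refine ⟨κ, hκpos, ?_⟩
  intro X V _ _ _ _ _ M Λ χ hM hmean hdiag hsmall hrow hclose T _ e hinj hdens
  have hV : (0:ℝ) < (Fintype.card V : ℝ) := by exact_mod_cast Fintype.card_pos
  set B : ℝ := D * (Fintype.card T : ℝ) / (Fintype.card V : ℝ) ^ (m + 1) with hB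
  have hcardfun : ((Fintype.card (Fin (m + 1) → V) : ℕ) : ℝ) = (Fintype.card V : ℝ) ^ (m + 1) := by
    rw [Fintype.card_fun, Fintype.card_fin]; push_cast; rfl
  have hBav : ∀ w : (Fin (m + 1) → V) → ℝ, B * ∑ v, w v = D * (Fintype.card T : ℝ) * av w := by
    intro w
    unfold av
    rw [hcardfun, hB]
    ring
  -- weights
  let sm : V → ℝ := fun d => if ((univ.filter (fun e => χ e = χ d)).card : ℝ) <
    β * (Fintype.card V : ℝ) then (1:ℝ) else 0
  have hsm0 : ∀ d, 0 ≤ sm d := fun d => by
    show 0 ≤ (if _ then (1:ℝ) else 0)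
    split_ifs <;> norm_num
  let df : (Fin (m + 1) → V) → ℝ := fun v => if Function.Injective v then
    |corr M v - corr (fun n => proj χ (M n)) v| else 0
  have hdf0 : ∀ v, 0 ≤ df v := fun v => by
    show 0 ≤ (if _ then _ else (0:ℝ))
    split_ifs
    · exact abs_nonneg _
    · exact le_rfl
  -- main pointwise claim
  have hpt : ∀ t : T, (if (∀ I : Fin (m + 1) ↪ Fin (4 * m + 1),
      corr M (fun i => e t (I i)) < c0 m) then (1:ℝ) else 0) ≤
      ∑ i, sm (e t i) + ∑ I : Fin (m + 1) ↪ Fin (4 * m + 1), df (fun i => e t (I i)) / c0 m := by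
    intro t
    have hs1 : 0 ≤ ∑ i, sm (e t i) := Finset.sum_nonneg fun i _ => hsm0 _
    have hs2 : 0 ≤ ∑ I : Fin (m + 1) ↪ Fin (4 * m + 1), df (fun i => e t (I i)) / c0 m :=
      Finset.sum_nonneg fun I _ => div_nonneg (hdf0 _) hc0.le
    split_ifs with hbad
    swap
    · linarith
    by_cases hsmall' : ∃ i, sm (e t i) = 1
    · obtain ⟨i, hi⟩ := hsmall'
      have : sm (e t i) ≤ ∑ i, sm (e t i) :=
        Finset.single_le_sum (fun j _ => hsm0 (e t j)) (Finset.mem_univ i)
      linarith
    · push Not at hsmall'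
      have hbig : ∀ i, β * (Fintype.card V : ℝ) ≤
          ((univ.filter (fun e' => χ e' = χ (e t i))).card : ℝ) := by
        intro i
        by_contra hcon
        push Not at hcon
        apply hsmall' i
        show (if _ then (1:ℝ) else 0) = 1
        rw [if_pos hcon]
      obtain ⟨I, hI⟩ := exists_subtuple m hm (fun i n => proj χ (M n) (e t i))
        (fun i n => proj_nonneg χ (hM n) _)
        (by
          intro i
          have h1 : av (fun n => proj χ (M n) (e t i)) =
              proj χ (fun d => av (fun n => M n d)) (e t i) := by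
            unfold proj
            rw [show (fun n => (∑ e' ∈ univ.filter (fun e' => χ e' = χ (e t i)), M n e') /
              ((univ.filter (fun e' => χ e' = χ (e t i))).card : ℝ)) =
              fun n => (∑ e' ∈ univ.filter (fun e' => χ e' = χ (e t i)), M n e') *
              (1 / ((univ.filter (fun e' => χ e' = χ (e t i))).card : ℝ)) from by
                funext n; ring]
            rw [av_mul_right, av_sum]
            ring
          rw [h1]
          have h2 := proj_mono χ (u := fun _ => 1 - κ) (v := fun d => av (fun n => M n d))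
            hmean (e t i)
          rw [proj_const] at h2
          refine le_trans ?_ h2
          have h3 : κ ≤ 1 / (64 * K) := by
            rw [← hκeq]
            have : 0 ≤ κ * (2 / β) := by positivity
            linarith
          linarith)
        (by
          intro i
          refine (A6_second M χ hκpos hβpos hdiag hsmall hrow (e t i) (hbig i)).trans ?_
          have h3 : κ + 2 * κ / β = 1 / (64 * K) := by rw [← hκeq]; ring
          have h4 : 1 / (64 * K) ≤ 1 / K := by
            apply one_div_le_one_div_of_le hKpos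
            linarith
          linarith)
      have hI' : 2 * c0 m ≤ corr (fun n => proj χ (M n)) (fun i => e t (I i)) := hI
      have hb := hbad I
      have hinjI : Function.Injective (fun i => e t (I i)) := (hinj t).comp I.injective
      have hge : c0 m ≤ df (fun i => e t (I i)) := by
        show c0 m ≤ (if _ then _ else (0:ℝ))
        rw [if_pos hinjI]
        rw [abs_sub_comm]
        refine le_trans ?_ (le_abs_self _)
        linarith
      have h5 : 1 ≤ df (fun i => e t (I i)) / c0 m := by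
        rw [le_div_iff₀ hc0]; linarith
      have h6 : df (fun i => e t (I i)) / c0 m ≤
          ∑ I : Fin (m + 1) ↪ Fin (4 * m + 1), df (fun i => e t (I i)) / c0 m :=
        Finset.single_le_sum (f := fun I : Fin (m + 1) ↪ Fin (4 * m + 1) =>
          df (fun i => e t (I i)) / c0 m) (fun I _ => div_nonneg (hdf0 _) hc0.le)
          (Finset.mem_univ I)
      linarith
  have hcard : ((univ.filter (fun t : T => ∀ I : Fin (m + 1) ↪ Fin (4 * m + 1),
      corr M (fun i => e t (I i)) < c0 m)).card : ℝ) =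
      ∑ t : T, (if (∀ I : Fin (m + 1) ↪ Fin (4 * m + 1),
      corr M (fun i => e t (I i)) < c0 m) then (1:ℝ) else 0) := by
    rw [Finset.sum_boole]
  rw [hcard]
  refine (Finset.sum_le_sum fun t _ => hpt t).trans ?_
  rw [Finset.sum_add_distrib, Finset.sum_comm, Finset.sum_comm (s := (univ : Finset T))
    (t := (univ : Finset (Fin (m + 1) ↪ Fin (4 * m + 1))))]
  have hi : ∀ i : Fin (4 * m + 1), ∑ t, sm (e t i) ≤ D * (Fintype.card T : ℝ) * (J * β) := by
    intro i
    let I : Fin (m + 1) ↪ Fin (4 * m + 1) := I0.trans (Equiv.swap (I0 0) i).toEmbedding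
    have hI0 : I 0 = i := by
      show Equiv.swap (I0 0) i (I0 0) = i
      exact Equiv.swap_apply_left _ _
    have h1 := A6_sum (fun t i => e t (I i)) (hdens I) (fun v => sm (v 0)) (fun v => hsm0 _)
    rw [hBav, A6_av0] at h1
    have h2 : ∀ t, sm (e t i) = sm (e t (I 0)) := fun t => by rw [hI0]
    simp only [h2]
    refine h1.trans ?_
    refine mul_le_mul_of_nonneg_left (A6_small χ hβpos) (by positivity)
  have hii : ∀ I : Fin (m + 1) ↪ Fin (4 * m + 1),
      ∑ t, df (fun i => e t (I i)) / c0 m ≤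
      D * (Fintype.card T : ℝ) * ((ε * c0 m / (2 * D * Nemb)) / c0 m) := by
    intro I
    have h1 := A6_sum (fun t i => e t (I i)) (hdens I) (fun v => df v / c0 m)
      (fun v => div_nonneg (hdf0 _) hc0.le)
    rw [hBav] at h1
    refine h1.trans ?_
    refine mul_le_mul_of_nonneg_left ?_ (by positivity)
    have h2 : (fun v => df v / c0 m) = fun v => df v * (1 / c0 m) := by
      funext v; ring
    rw [h2, av_mul_right]
    have h3 : av df ≤ ε * c0 m / (2 * D * Nemb) := hclose
    calc av df * (1 / c0 m) ≤ (ε * c0 m / (2 * D * Nemb)) * (1 / c0 m) := by gcongr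
      _ = _ := by ring
  refine (add_le_add (Finset.sum_le_sum fun i _ => hi i)
    (Finset.sum_le_sum fun I _ => hii I)).trans ?_
  rw [Finset.sum_const, Finset.sum_const, nsmul_eq_mul, nsmul_eq_mul, Finset.card_univ,
    Finset.card_univ, Fintype.card_fin]
  have hT : (0:ℝ) ≤ (Fintype.card T : ℝ) := by positivity
  have e1 : ((4 * m + 1 : ℕ) : ℝ) * (D * (Fintype.card T : ℝ) * (J * β)) =
      ε / 4 * (Fintype.card T : ℝ) := by
    rw [hβ]
    have : ((4 * m + 1 : ℕ) : ℝ) = K := by rw [hK]; push_cast; ring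
    rw [this]
    field_simp
  have e2 : (Fintype.card (Fin (m + 1) ↪ Fin (4 * m + 1)) : ℝ) *
      (D * (Fintype.card T : ℝ) * ((ε * c0 m / (2 * D * Nemb)) / c0 m)) =
      ε / 2 * (Fintype.card T : ℝ) := by
    rw [← hNemb]
    field_simp
  rw [e1, e2]
  nlinarith

end Pool.Agent.HLT
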