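import Mathlib
import Pool.Agent.HLT.NDefs
import Pool.Agent.Lib.Sieve.Selberg
import Pool.Agent.StableX.Sieve
import Pool.Agent.HLM26.Err
import Pool.Agent.HL26.Engine

set_option autoImplicit false

open Finset Filter

namespace Pool.Agent.HLT

open Pool.Agent.HL26 Pool.Agent.Maynard

namespace B4aux

open Pool.Agent.StableX (PP mem_PP PQ primeFactors_PQ squarefree_PQ G G_ge G_pos totient_inv)
open Pool.Agent.Lib.Sieve ArithmeticFunction BoundingSieve
open scoped ArithmeticFunction.omega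

lemma Wp_pos (w : ℕ) : 0 < Wp w :=
  Finset.prod_pos fun p hp => (PPy_prime w p hp).pos

lemma dvd_Wp {w p : ℕ} (hp : p.Prime) (hw : p ≤ w) : p ∣ Wp w :=
  Finset.dvd_prod_of_mem (fun p => p) (Finset.mem_filter.2 ⟨Finset.mem_range.2 (by omega), hp⟩)

lemma le_of_dvd_Wp {w p : ℕ} (hp : p.Prime) (h : p ∣ Wp w) : p ≤ w := by
  unfold Wp at h
  rw [hp.prime.dvd_finsetProd_iff] at h
  obtain ⟨q, hq, hpq⟩ := h
  have h2 := (Nat.prime_dvd_prime_iff_eq hp (PPy_prime w q hq)).1 hpq
  have h3 := Finset.mem_range.1 (Finset.mem_filter.1 hq).1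
  omega

/-- sum over divisors of a product of primes as a sum over indicator functions -/
lemma sum_divisors_le {P : Finset ℕ} (hP : ∀ p ∈ P, p.Prime) (D : Finset ℕ)
    (hD : ∀ q ∈ D, Squarefree q ∧ ∀ p, p.Prime → p ∣ q → p ∈ P) (f : ℕ → ℝ) (hf : ∀ q, 0 ≤ f q) :
    ∑ q ∈ D, f q ≤ ∑ B : P → Bool, f (Maynard.val B) := by
  classical
  have h1 : ∀ q ∈ D, Maynard.val (P := P) (fun p => decide ((p:ℕ) ∣ q)) = q := by
    intro q hq
    obtain ⟨hsq, hpr⟩ := hD q hq
    unfold Maynard.val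
    rw [Finset.prod_coe_sort P (fun p => if (decide (p ∣ q)) = true then p else 1)]
    simp only [decide_eq_true_eq]
    rw [← Finset.prod_filter]
    conv_rhs => rw [← Nat.prod_primeFactors_of_squarefree hsq]
    refine Finset.prod_congr ?_ fun _ _ => rfl
    ext p
    rw [Finset.mem_filter, Nat.mem_primeFactors]
    constructor
    · rintro ⟨h1, h2⟩; exact ⟨hP p h1, h2, hsq.ne_zero⟩
    · rintro ⟨h1, h2, _⟩; exact ⟨hpr p h1 h2, h2⟩
  have h2 : ∑ q ∈ D, f q = ∑ B ∈ D.image (fun q => (fun p : P => decide ((p:ℕ) ∣ q))),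
      f (Maynard.val B) := by
    rw [Finset.sum_image]
    · exact Finset.sum_congr rfl fun q hq => by rw [h1 q hq]
    · intro q hq q' hq' h
      have e1 := h1 q hq
      have e2 := h1 q' hq'
      simp only at h
      rw [h] at e1
      rw [← e1, e2]
  rw [h2]
  exact Finset.sum_le_sum_of_subset_of_nonneg (Finset.subset_univ _) fun B _ _ => hf _

lemma pm_three {P : Finset ℕ} (hP : ∀ p ∈ P, p.Prime) (B : P → Bool) :
    (3:ℝ) ^ ω (Maynard.val B) ≤ pm (fun _ => (2 * ((1:ℕ):ℝ) + 1) ^ 2) B := by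
  classical
  have h0 : ω (Maynard.val B) = ∑ p : P, if B p then 1 else 0 := by
    rw [ArithmeticFunction.cardDistinctFactors_apply, ← List.card_toFinset]
    change (Maynard.val B).primeFactors.card = _
    have h1 : Maynard.val B = ∏ p ∈ (Finset.univ.filter (fun p : P => B p = true)).image (fun p : P => (p:ℕ)),
        p := by
      rw [Finset.prod_image (fun x _ y _ h => Subtype.ext h), Finset.prod_filter]
      rfl
    rw [h1, Nat.primeFactors_prod]
    · rw [Finset.card_image_of_injective _ Subtype.val_injective, Finset.card_filter]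
    · intro p hp
      obtain ⟨q, _, rfl⟩ := Finset.mem_image.1 hp
      exact hP q q.2
  rw [h0, ← Finset.prod_pow_eq_pow_sum]
  unfold pm
  refine Finset.prod_le_prod (fun p _ => by positivity) fun p _ => ?_
  split_ifs <;> norm_num

/-- the density ratio -/
lemma ratio_eq {w Δ : ℕ} (hΔ : Δ ≠ 0) :
    ((Wp w * Δ : ℕ) : ℝ) / (Nat.totient (Wp w * Δ) : ℝ) = (cW (Wp w))⁻¹ * pp w Δ := by
  classical
  have hW := Wp_pos w
  have h0 : Wp w * Δ ≠ 0 := mul_ne_zero hW.ne' hΔ
  rw [← totient_inv _ h0]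
  have h1 : (Wp w * Δ).primeFactors = (Wp w).primeFactors ∪ Δ.primeFactors.filter (fun p => w < p) := by
    ext p
    rw [Nat.mem_primeFactors, Finset.mem_union, Finset.mem_filter, Nat.mem_primeFactors,
      Nat.mem_primeFactors]
    constructor
    · rintro ⟨h1, h2, _⟩
      rcases h1.dvd_mul.1 h2 with h | h
      · exact Or.inl ⟨h1, h, hW.ne'⟩
      · by_cases hpw : p ≤ w
        · exact Or.inl ⟨h1, dvd_Wp h1 hpw, hW.ne'⟩
        · exact Or.inr ⟨⟨h1, h, hΔ⟩, by omega⟩
    · rintro (⟨h1, h2, _⟩ | ⟨⟨h1, h2, _⟩, _⟩)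
      · exact ⟨h1, h2.mul_right _, h0⟩
      · exact ⟨h1, h2.mul_left _, h0⟩
  have h2 : Disjoint (Wp w).primeFactors (Δ.primeFactors.filter (fun p => w < p)) := by
    rw [Finset.disjoint_left]
    intro p hp hp'
    have := le_of_dvd_Wp (Nat.prime_of_mem_primeFactors hp) (Nat.dvd_of_mem_primeFactors hp)
    have := (Finset.mem_filter.1 hp').2
    omega
  rw [h1, Finset.prod_union h2, totient_inv _ hW.ne']
  congr 1
  · unfold cW
    rw [inv_div]
  · unfold pp
    refine Finset.prod_congr rfl fun p hp => ?_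
    have hp1 : (1 : ℝ) < p := by
      exact_mod_cast (Nat.prime_of_mem_primeFactors (Finset.mem_filter.1 hp).1).one_lt
    have hp2 : (p : ℝ) - 1 ≠ 0 := by linarith
    have hp3 : (p : ℝ) ≠ 0 := by linarith
    have hp4 : 1 - (p : ℝ)⁻¹ = ((p:ℝ) - 1) / p := by field_simp
    rw [hp4, inv_div]

lemma one_le_pp (w h : ℕ) : 1 ≤ pp w h := by
  unfold pp
  calc (1:ℝ) = ∏ p ∈ h.primeFactors.filter (fun p => w < p), (1:ℝ) := by simp
    _ ≤ _ := by
      refine Finset.prod_le_prod (fun _ _ => zero_le_one) fun p hp => ?_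
      have hp1 : (1 : ℝ) < p := by
        exact_mod_cast (Nat.prime_of_mem_primeFactors (Finset.mem_filter.1 hp).1).one_lt
      rw [le_div_iff₀ (by linarith)]
      linarith

/-- sum of `log` over the primes `n + d` with `q ∣ n + d'` -/
lemma class_sum {N W a d d' q : ℕ} (hq : q ≠ 0) (hWq : W.Coprime q)
    (haW : (a + d).Coprime W) (hdq : (Nat.dist d d').Coprime q) :
    |(∑ n ∈ (Finset.Ioc N (2 * N)).filter (fun n => n ≡ a [MOD W] ∧ q ∣ n + d'), tht (n + d)) -
      (N:ℝ) / Nat.totient (W * q)| ≤ EE N d (W * q) := by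
  classical
  -- the combined class
  obtain ⟨m, hm⟩ : ∃ m : ℕ, q ∣ m + d' := by
    refine ⟨d' * (q - 1), ?_⟩
    have : d' * (q - 1) + d' = d' * q := by
      obtain ⟨t, rfl⟩ := Nat.exists_eq_succ_of_ne_zero hq
      simp only [Nat.succ_eq_add_one, Nat.add_sub_cancel]
      ring
    rw [this]
    exact Dvd.intro_left _ rfl
  set n0 : ℕ := (Nat.chineseRemainder hWq a m : ℕ) with hn0
  have h1 : n0 ≡ a [MOD W] := (Nat.chineseRemainder hWq a m).2.1
  have h2 : n0 ≡ m [MOD q] := (Nat.chineseRemainder hWq a m).2.2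
  have hset : (Finset.Ioc N (2 * N)).filter (fun n => n ≡ a [MOD W] ∧ q ∣ n + d') =
      (Finset.Ioc N (2 * N)).filter (fun n => n ≡ n0 [MOD (W * q)]) := by
    refine Finset.filter_congr fun n _ => ?_
    rw [← Nat.modEq_and_modEq_iff_modEq_mul hWq]
    constructor
    · rintro ⟨h3, h4⟩
      refine ⟨h3.trans h1.symm, ?_⟩
      have h5 : n + d' ≡ m + d' [MOD q] :=
        ((Nat.modEq_zero_iff_dvd.2 h4).trans (Nat.modEq_zero_iff_dvd.2 hm).symm)
      exact (Nat.ModEq.add_right_cancel' d' h5).trans h2.symm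
    · rintro ⟨h3, h4⟩
      refine ⟨h3.trans h1, ?_⟩
      have h5 : n + d' ≡ m + d' [MOD q] := (h4.trans h2).add_right d'
      exact Nat.modEq_zero_iff_dvd.1 (h5.trans (Nat.modEq_zero_iff_dvd.2 hm))
  rw [hset, sum_tht_eq]
  have hcop : (n0 + d).Coprime (W * q) := by
    refine Nat.Coprime.mul_right ?_ ?_
    · have h3 : n0 + d ≡ a + d [MOD W] := h1.add_right d
      have h4 := h3.gcd_eq
      change Nat.gcd (n0 + d) W = 1
      rw [h4]
      exact haW
    · have h3 : n0 + d' ≡ 0 [MOD q] :=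
        (h2.add_right d').trans (Nat.modEq_zero_iff_dvd.2 hm)
      have h4 : q ∣ n0 + d' := Nat.modEq_zero_iff_dvd.1 h3
      rw [Nat.Coprime]
      by_contra hg
      obtain ⟨p, hp, hpd⟩ := Nat.exists_prime_and_dvd hg
      have hp1 : p ∣ n0 + d := hpd.trans (Nat.gcd_dvd_left _ _)
      have hp2 : p ∣ q := hpd.trans (Nat.gcd_dvd_right _ _)
      have hp3 : p ∣ n0 + d' := hp2.trans h4
      have hp4 : p ∣ Nat.dist d d' := by
        rcases le_total d d' with h | h
        · rw [Nat.dist_eq_sub_of_le h]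
          have := Nat.dvd_sub hp3 hp1
          have e : n0 + d' - (n0 + d) = d' - d := by omega
          rwa [e] at this
        · rw [Nat.dist_comm, Nat.dist_eq_sub_of_le h]
          have := Nat.dvd_sub hp1 hp3
          have e : n0 + d - (n0 + d') = d - d' := by omega
          rwa [e] at this
      have := Nat.dvd_gcd hp4 hp2
      rw [hdq] at this
      exact hp.one_lt.ne' (Nat.dvd_one.1 this)
  exact fE_le N d hcop

/-- the sieve inequality with explicit parameters -/
theorem sieve_pair {N w a d d' R : ℕ} (hw : 2 ≤ w) (hR : 1 ≤ R) (hRN : R ≤ N)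
    (hdd : d ≠ d') (hcop : (a + d).Coprime (Wp w)) :
    ∑ n ∈ (XS N w a).filter (fun n => (n + d').Prime), tht (n + d) ≤
      (N:ℝ) / Nat.totient (Wp w) / G R (Wp w * Nat.dist d d') +
      ∑ B : (PP R (Wp w)) → Bool, FB (PP R (Wp w)) N d (Wp w) (R * R) B *
        pm (fun _ => (2 * ((1:ℕ):ℝ) + 1) ^ 2) B := by
  classical
  set W := Wp w with hWdef
  set Δ := Nat.dist d d' with hΔdef
  have hW : 0 < W := Wp_pos w
  have hΔ : Δ ≠ 0 := by
    intro h
    exact hdd (Nat.eq_of_dist_eq_zero h)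
  have hWΔ : W * Δ ≠ 0 := mul_ne_zero hW.ne' hΔ
  have hR1 : (1:ℝ) ≤ R := by exact_mod_cast hR
  have hPf := primeFactors_PQ R (W * Δ)
  have hsq := squarefree_PQ R (W * Δ)
  have hP0 : PQ R (W * Δ) ≠ 0 := hsq.ne_zero
  have hp3 : ∀ p : ℕ, p.Prime → p ∣ PQ R (W * Δ) → 3 ≤ p := by
    intro p hp hpd
    have hmem : p ∈ PP R (W * Δ) := by
      rw [← hPf]
      exact Nat.mem_primeFactors.2 ⟨hp, hpd, hP0⟩
    have h2 : ¬ p ∣ W * Δ := (mem_PP.1 hmem).2.2
    by_contra hlt
    have : p = 2 := by have := hp.two_le; omega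
    subst this
    exact h2 ((dvd_Wp Nat.prime_two hw).mul_right _)
  let nu : ArithmeticFunction ℝ := ArithmeticFunction.prodPrimeFactors (fun p => 1 / ((p:ℝ) - 1))
  have hnu : nu.IsMultiplicative := IsMultiplicative.prodPrimeFactors _
  have hnu_apply : ∀ d : ℕ, d ≠ 0 → nu d = ∏ p ∈ d.primeFactors, 1 / ((p:ℝ) - 1) := fun d hd =>
    ArithmeticFunction.prodPrimeFactors_apply hd
  have hnu_prime : ∀ p : ℕ, p.Prime → nu p = 1 / ((p:ℝ) - 1) := by
    intro p hp
    rw [hnu_apply p hp.ne_zero, hp.primeFactors, Finset.prod_singleton]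
  have hnu_sq : ∀ q : ℕ, Squarefree q → nu q = 1 / (Nat.totient q : ℝ) := by
    intro q hq
    rw [hnu_apply q hq.ne_zero, Finset.prod_div_distrib, Finset.prod_const_one]
    congr 1
    rw [← HL26.totient_prod q.primeFactors (fun p hp => Nat.prime_of_mem_primeFactors hp),
      Nat.prod_primeFactors_of_squarefree hq]
  have hinj : Set.InjOn (fun n : ℕ => n + d') (XS N w a : Set ℕ) := fun x _ y _ h => by
    simpa using h
  let s : BoundingSieve :=
    { support := (XS N w a).image (fun n => n + d')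
      prodPrimes := PQ R (W * Δ)
      prodPrimes_squarefree := hsq
      weights := fun m => tht (m - d' + d)
      weights_nonneg := fun m => tht_nonneg _
      totalMass := (N:ℝ) / Nat.totient W
      nu := nu
      nu_mult := hnu
      nu_pos_of_prime := fun p hp _ => by
        rw [hnu_prime p hp]
        have : (1:ℝ) < p := by exact_mod_cast hp.one_lt
        have : (0:ℝ) < (p:ℝ) - 1 := by linarith
        positivity
      nu_lt_one_of_prime := fun p hp hpd => by
        rw [hnu_prime p hp]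
        have : (3:ℝ) ≤ p := by exact_mod_cast hp3 p hp hpd
        rw [div_lt_one (by linarith)]
        linarith }
  have hy : (1 : ℝ) ≤ (R : ℝ) ^ 2 := one_le_pow₀ hR1
  have h1 := selberg_bound s ((R:ℝ) ^ 2) hy
  -- the sifted sum
  have h2 : ∑ n ∈ (XS N w a).filter (fun n => (n + d').Prime), tht (n + d) ≤
      siftedSum (s := s) := by
    unfold siftedSum
    change _ ≤ ∑ m ∈ (XS N w a).image (fun n => n + d'),
      if Nat.Coprime (PQ R (W * Δ)) m then tht (m - d' + d) else 0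
    rw [Finset.sum_image hinj, Finset.sum_filter]
    refine Finset.sum_le_sum fun n hn => ?_
    rw [Nat.add_sub_cancel]
    by_cases hpr : (n + d').Prime
    · rw [if_pos hpr, if_pos]
      rw [Nat.coprime_comm, Nat.Prime.coprime_iff_not_dvd hpr]
      intro hdvd
      have hmem : n + d' ∈ (PQ R (W * Δ)).primeFactors := Nat.mem_primeFactors.2 ⟨hpr, hdvd, hP0⟩
      rw [hPf, mem_PP] at hmem
      have h3 := (Finset.mem_Ioc.1 (Finset.mem_filter.1 hn).1).1
      omega
    · rw [if_neg hpr]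
      split_ifs
      · exact tht_nonneg _
      · exact le_rfl
  -- the bounding sum
  have h3 : G R (W * Δ) ≤ boundingG s ((R:ℝ) ^ 2) := by
    unfold boundingG G
    refine Finset.sum_le_sum fun l hl => ?_
    have hlP := (Nat.mem_divisors.1 hl).1
    split_ifs
    · rw [selbergTerms_apply]
      have h6 : s.nu l = ∏ p ∈ l.primeFactors, 1 / ((p:ℝ) - 1) :=
        hnu_apply l (ne_zero_of_dvd_ne_zero hP0 hlP)
      rw [h6, ← Finset.prod_mul_distrib]
      refine Finset.prod_le_prod (fun p hp => ?_) fun p hp => ?_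
      · have hp1 : (1:ℝ) < p := by exact_mod_cast (Nat.prime_of_mem_primeFactors hp).one_lt
        have : (0:ℝ) < (p:ℝ) - 1 := by linarith
        positivity
      · have hpp := Nat.prime_of_mem_primeFactors hp
        have hpd : p ∣ PQ R (W * Δ) := (Nat.dvd_of_mem_primeFactors hp).trans hlP
        have h7 : s.nu p = 1 / ((p:ℝ) - 1) := hnu_prime p hpp
        have hp1 : (3:ℝ) ≤ p := by exact_mod_cast hp3 p hpp hpd
        rw [h7]
        have e1 : (0:ℝ) < (p:ℝ) - 1 := by linarith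
        have e2 : (0:ℝ) < 1 - 1 / ((p:ℝ) - 1) := by
          rw [sub_pos, div_lt_one e1]
          linarith
        have e3 : (1:ℝ) ≤ (1 - 1 / ((p:ℝ) - 1))⁻¹ := by
          rw [one_le_inv₀ e2]
          have : (0:ℝ) < 1 / ((p:ℝ) - 1) := by positivity
          linarith
        have e4 : 0 < 1 / ((p:ℝ) - 1) := by positivity
        exact le_mul_of_one_le_right e4.le e3
    · exact le_rfl
  -- the remainders
  have h4 : ∀ q ∈ (PQ R (W * Δ)).divisors,
      |rem (s := s) q| ≤ EE N d (W * q) := by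
    intro q hq
    have hqP := (Nat.mem_divisors.1 hq).1
    have hqsq := hsq.squarefree_of_dvd hqP
    have hq0 : q ≠ 0 := hqsq.ne_zero
    have hqcop : (W * Δ).Coprime q := by
      rw [Nat.Coprime]
      by_contra hg
      obtain ⟨p, hp, hpd⟩ := Nat.exists_prime_and_dvd hg
      have hp1 : p ∣ W * Δ := hpd.trans (Nat.gcd_dvd_left _ _)
      have hp2 : p ∣ PQ R (W * Δ) := (hpd.trans (Nat.gcd_dvd_right _ _)).trans hqP
      have hmem : p ∈ PP R (W * Δ) := by
        rw [← hPf]
        exact Nat.mem_primeFactors.2 ⟨hp, hp2, hP0⟩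
      exact (mem_PP.1 hmem).2.2 hp1
    have hWq : W.Coprime q := Nat.Coprime.coprime_mul_right hqcop
    have hΔq : Δ.Coprime q := Nat.Coprime.coprime_mul_left hqcop
    have h5 := class_sum (N := N) hq0 hWq hcop hΔq
    unfold rem multSum
    change |(∑ m ∈ (XS N w a).image (fun n => n + d'), if q ∣ m then tht (m - d' + d) else 0) -
      nu q * ((N:ℝ) / Nat.totient W)| ≤ _
    rw [Finset.sum_image hinj]
    simp only [Nat.add_sub_cancel]
    rw [← Finset.sum_filter]
    have h6 : (XS N w a).filter (fun n => q ∣ n + d') =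
        (Finset.Ioc N (2 * N)).filter (fun n => n ≡ a [MOD W] ∧ q ∣ n + d') := by
      unfold XS
      rw [Finset.filter_filter]
    rw [h6, hnu_sq q hqsq]
    have h7 : 1 / (Nat.totient q : ℝ) * ((N:ℝ) / Nat.totient W) = (N:ℝ) / Nat.totient (W * q) := by
      rw [Nat.totient_mul hWq]
      push_cast
      have e1 : (Nat.totient q : ℝ) ≠ 0 := by
        exact_mod_cast (Nat.totient_pos.2 (Nat.pos_of_ne_zero hq0)).ne'
      have e2 : (Nat.totient W : ℝ) ≠ 0 := by
        exact_mod_cast (Nat.totient_pos.2 hW).ne'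
      field_simp
    rw [h7]
    exact h5
  -- conclusion
  have hG := G_pos R (W * Δ) hR hWΔ
  have hmass : (0:ℝ) ≤ (N:ℝ) / Nat.totient W := by positivity
  refine h2.trans (h1.trans (add_le_add ?_ ?_))
  · change (N:ℝ) / Nat.totient W / boundingG s ((R:ℝ) ^ 2) ≤ _
    exact div_le_div_of_nonneg_left hmass hG h3
  · change (∑ q ∈ (PQ R (W * Δ)).divisors, if (q : ℝ) ≤ (R:ℝ) ^ 2 then
      (3 : ℝ) ^ ω q * |rem (s := s) q| else 0) ≤ _
    have h5 : (∑ q ∈ (PQ R (W * Δ)).divisors, if (q : ℝ) ≤ (R:ℝ) ^ 2 then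
        (3 : ℝ) ^ ω q * |rem (s := s) q| else 0) ≤
        ∑ q ∈ (PQ R (W * Δ)).divisors, (3 : ℝ) ^ ω q *
          (if q ≤ R * R then EE N d (W * q) else 0) := by
      refine Finset.sum_le_sum fun q hq => ?_
      by_cases hqR : q ≤ R * R
      · rw [if_pos hqR]
        split_ifs
        · exact mul_le_mul_of_nonneg_left (h4 q hq) (by positivity)
        · have := EE_nonneg N d (W * q)
          positivity
      · rw [if_neg hqR, if_neg, mul_zero]
        intro h
        apply hqR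
        have : (q:ℝ) ≤ ((R * R : ℕ) : ℝ) := by push_cast; rw [← sq]; exact h
        exact_mod_cast this
    refine h5.trans ?_
    have h6 := sum_divisors_le (P := PP R W) (fun p hp => (mem_PP.1 hp).2.1)
      (PQ R (W * Δ)).divisors (fun q hq => by
        have hqP := (Nat.mem_divisors.1 hq).1
        refine ⟨hsq.squarefree_of_dvd hqP, fun p hp hpq => ?_⟩
        have hmem : p ∈ PP R (W * Δ) := by
          rw [← hPf]
          exact Nat.mem_primeFactors.2 ⟨hp, hpq.trans hqP, hP0⟩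
        obtain ⟨g1, g2, g3⟩ := mem_PP.1 hmem
        exact mem_PP.2 ⟨g1, g2, fun h => g3 (h.mul_right _)⟩)
      (fun q => (3 : ℝ) ^ ω q * (if q ≤ R * R then EE N d (W * q) else 0))
      (fun q => by
        have := EE_nonneg N d (W * q)
        split_ifs <;> positivity)
    refine h6.trans (Finset.sum_le_sum fun B _ => ?_)
    unfold FB
    rw [mul_comm]
    refine mul_le_mul_of_nonneg_left (pm_three (fun p hp => (mem_PP.1 hp).2.1) B) ?_
    have := EE_nonneg N d (W * Maynard.val B)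
    split_ifs <;> positivity

end B4aux

open B4aux in
/-- B4: Bombieri-Davenport constant 4, uniform in the shifts and in a residue class. -/
theorem pair_four (w : ℕ) (hw : 2 ≤ w) (κ : ℝ) (hκ : 0 < κ) (A : ℕ) : ∀ᶠ N : ℕ in atTop,
    ∀ a d d' : ℕ, d ≠ d' → (d : ℝ) ≤ (Real.log N) ^ A → (d' : ℝ) ≤ (Real.log N) ^ A →
      (a + d).Coprime (Wp w) → (a + d').Coprime (Wp w) →
      (((XS N w a).filter (fun n => (n + d).Prime ∧ (n + d').Prime)).card : ℝ) ≤
        (4 + κ) * ((N:ℝ) / Wp w) / (cW (Wp w) * Real.log N) ^ 2 * pp w (Nat.dist d d') := by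
  classical
  set W := Wp w with hWdef
  have hW : 0 < W := Wp_pos w
  have hWr : (0:ℝ) < W := by exact_mod_cast hW
  have hc := cW_pos hW
  set η : ℝ := κ / (4 * (8 + κ)) with hη
  have h8 : 0 < 8 + κ := by linarith
  have hη0 : 0 < η := by positivity
  have hη1 : 1 / 4 - η = 2 / (8 + κ) := by
    rw [hη]
    field_simp
    ring
  have hη2 : 0 < 1 / 4 - η := by rw [hη1]; positivity
  have hθ : 1 / 2 - η < 1 / 2 := by linarith
  have hθ0 : 0 < 1 / 2 - η := by linarith
  filter_upwards [HLM26.ev_err' (bvHyp hθ) 1 2, ev_log_pow_le (show (0:ℝ) < 1 by norm_num) A,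
    ev_log_ge (2 / κ * (W * cW W ^ 2)), ev_log_ge 1, eventually_ge_atTop 1,
    ev_rpow_ge hη0 W] with N herr hlogA hlog1 hlog2 hN1 hNη
  intro a d d' hdd hd hd' hca hca'
  set L := Real.log N with hL
  have hL0 : 0 < L := by linarith
  have hN0 : (0:ℝ) < N := by exact_mod_cast hN1
  have hNr : (1:ℝ) ≤ N := by exact_mod_cast hN1
  rw [Real.rpow_one] at hlogA
  have hdN : d ≤ N := by exact_mod_cast hd.trans hlogA
  set R : ℕ := ⌊(N:ℝ) ^ (1 / 4 - η)⌋₊ with hRdef
  have hRle : (R:ℝ) ≤ (N:ℝ) ^ (1 / 4 - η) := Nat.floor_le (by positivity)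
  have hRlt : (N:ℝ) ^ (1 / 4 - η) < R + 1 := Nat.lt_floor_add_one _
  have hR1 : 1 ≤ R := by
    rw [hRdef, Nat.one_le_floor_iff]
    exact Real.one_le_rpow hNr hη2.le
  have hRN : R ≤ N := by
    have h1 : (R:ℝ) ≤ N := hRle.trans (by
      calc (N:ℝ) ^ (1 / 4 - η) ≤ (N:ℝ) ^ (1:ℝ) := Real.rpow_le_rpow_of_exponent_le hNr (by linarith)
        _ = N := Real.rpow_one _)
    exact_mod_cast h1
  have hWRR : ((W * (R * R) : ℕ) : ℝ) ≤ (N:ℝ) ^ (1 / 2 - η) := by
    push_cast
    calc (W:ℝ) * (R * R) ≤ (N:ℝ) ^ η * ((N:ℝ) ^ (1 / 4 - η) * (N:ℝ) ^ (1 / 4 - η)) := by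
          gcongr
      _ = (N:ℝ) ^ (1 / 2 - η) := by
          rw [← Real.rpow_add hN0, ← Real.rpow_add hN0]
          congr 1
          ring
  have hWRN : W * (R * R) ≤ N := by
    have h1 : ((W * (R * R) : ℕ) : ℝ) ≤ N := hWRR.trans (by
      calc (N:ℝ) ^ (1 / 2 - η) ≤ (N:ℝ) ^ (1:ℝ) := Real.rpow_le_rpow_of_exponent_le hNr (by linarith)
        _ = N := Real.rpow_one _)
    exact_mod_cast h1
  have hWRθ : W * (R * R) ≤ ⌊((3 * N : ℕ):ℝ) ^ (1 / 2 - η)⌋₊ := by
    refine Nat.le_floor (hWRR.trans ?_)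
    refine Real.rpow_le_rpow hN0.le ?_ hθ0.le
    push_cast
    linarith
  have hS : Setting (Pool.Agent.StableX.PP R W) W 0 R :=
    { prime := fun p hp => (Pool.Agent.StableX.mem_PP.1 hp).2.1
      ndvd := fun p hp => (Pool.Agent.StableX.mem_PP.1 hp).2.2
      ge := fun p _ => Nat.zero_le p
      le := fun p hp => (Pool.Agent.StableX.mem_PP.1 hp).1
      mem := fun p h1 h2 h3 => Pool.Agent.StableX.mem_PP.2 ⟨h3, h1, h2⟩ }
  have hE := herr W d hW hdN _ _ _ hS hRN hWRN hWRθ
  have hL01 : 1 ≤ L0 (Pool.Agent.StableX.PP R W) 1 :=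
    L0_ge_one (fun p hp => (hS.prime p hp).two_le)
  have hsieve := sieve_pair (a := a) hw hR1 hRN hdd hca
  rw [← hWdef] at hsieve
  set E := ∑ B : (Pool.Agent.StableX.PP R W) → Bool, FB (Pool.Agent.StableX.PP R W) N d W (R * R) B *
        pm (fun _ => (2 * ((1:ℕ):ℝ) + 1) ^ 2) B with hEdef
  have hE0 : 0 ≤ E := Finset.sum_nonneg fun B _ => mul_nonneg (FB_nonneg _ _ _ _ B)
      (pm_nonneg (fun _ _ => by positivity) B)
  have hE1 : E ≤ N / L ^ 2 := by
    refine le_trans ?_ hE
    exact le_mul_of_one_le_left hE0 (one_le_pow₀ hL01)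
  -- lower bound for the weighted sum
  have hlow : (((XS N w a).filter (fun n => (n + d).Prime ∧ (n + d').Prime)).card : ℝ) * L ≤
      ∑ n ∈ (XS N w a).filter (fun n => (n + d').Prime), tht (n + d) := by
    calc (((XS N w a).filter (fun n => (n + d).Prime ∧ (n + d').Prime)).card : ℝ) * L
        = ∑ n ∈ (XS N w a).filter (fun n => (n + d).Prime ∧ (n + d').Prime), L := by
          rw [Finset.sum_const, nsmul_eq_mul]
      _ ≤ ∑ n ∈ (XS N w a).filter (fun n => (n + d).Prime ∧ (n + d').Prime), tht (n + d) := by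
          refine Finset.sum_le_sum fun n hn => ?_
          obtain ⟨h1, h2, h3⟩ := Finset.mem_filter.1 hn
          unfold tht
          rw [if_pos h2]
          have h4 := (Finset.mem_Ioc.1 (Finset.mem_filter.1 h1).1).1
          exact Real.log_le_log hN0 (by exact_mod_cast (by omega : N ≤ n + d))
      _ ≤ _ := by
          refine Finset.sum_le_sum_of_subset_of_nonneg ?_ fun n _ _ => tht_nonneg _
          intro n hn
          obtain ⟨h1, h2, h3⟩ := Finset.mem_filter.1 hn
          exact Finset.mem_filter.2 ⟨h1, h3⟩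
  -- the density
  set Δ := Nat.dist d d' with hΔdef
  have hΔ : Δ ≠ 0 := fun h => hdd (Nat.eq_of_dist_eq_zero h)
  have hG := Pool.Agent.StableX.G_ge R (W * Δ) (mul_ne_zero hW.ne' hΔ)
  have hGpos := Pool.Agent.StableX.G_pos R (W * Δ) hR1 (mul_ne_zero hW.ne' hΔ)
  rw [ratio_eq (w := w) hΔ] at hG
  have hlogR : (1 / 4 - η) * L ≤ Real.log (R + 1) := by
    rw [hL, ← Real.log_rpow hN0]
    exact Real.log_le_log (by positivity) hRlt.le
  have hlogR0 : 0 < (1 / 4 - η) * L := by positivity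
  have hpp := one_le_pp w Δ
  have hpp0 : 0 < pp w Δ := by linarith
  have hinvG : 1 / Pool.Agent.StableX.G R (W * Δ) ≤ (cW W)⁻¹ * pp w Δ / ((1 / 4 - η) * L) := by
    rw [div_le_div_iff₀ hGpos hlogR0, one_mul]
    exact hlogR.trans hG
  have hphi : (N:ℝ) / Nat.totient W = (N:ℝ) / W / cW W := by
    unfold cW
    have e1 : (Nat.totient W : ℝ) ≠ 0 := by exact_mod_cast (Nat.totient_pos.2 hW).ne'
    field_simp
  have hmain : (N:ℝ) / Nat.totient W / Pool.Agent.StableX.G R (W * Δ) ≤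
      (4 + κ / 2) * ((N:ℝ) / W) / (cW W ^ 2 * L) * pp w Δ := by
    rw [div_eq_mul_one_div ((N:ℝ) / Nat.totient W), hphi]
    refine (mul_le_mul_of_nonneg_left hinvG (by positivity)).trans (le_of_eq ?_)
    rw [hη1]
    field_simp
    ring
  have herr2 : (N:ℝ) / L ^ 2 ≤ κ / 2 * ((N:ℝ) / W) / (cW W ^ 2 * L) * pp w Δ := by
    have h1 : (N:ℝ) / L ^ 2 ≤ κ / 2 * ((N:ℝ) / W) / (cW W ^ 2 * L) := by
      rw [div_le_div_iff₀ (by positivity) (by positivity)]
      have h2 : W * cW W ^ 2 ≤ κ / 2 * L := by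
        have := mul_le_mul_of_nonneg_left hlog1 (show 0 ≤ κ / 2 by positivity)
        refine le_trans (le_of_eq ?_) this
        field_simp
      have h3 : (N:ℝ) * (cW W ^ 2 * L) = (N:ℝ) / W * L * (W * cW W ^ 2) := by
        field_simp
      rw [h3]
      calc (N:ℝ) / W * L * (W * cW W ^ 2) ≤ (N:ℝ) / W * L * (κ / 2 * L) := by gcongr
        _ = _ := by ring
    refine h1.trans ?_
    exact le_mul_of_one_le_right (by positivity) hpp
  have hfin : (((XS N w a).filter (fun n => (n + d).Prime ∧ (n + d').Prime)).card : ℝ) * L ≤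
      (4 + κ) * ((N:ℝ) / W) / (cW W ^ 2 * L) * pp w Δ := by
    refine hlow.trans (hsieve.trans ((add_le_add hmain (hE1.trans herr2)).trans (le_of_eq ?_)))
    field_simp
    ring
  have h9 : (4 + κ) * ((N:ℝ) / W) / (cW W * L) ^ 2 * pp w Δ =
      ((4 + κ) * ((N:ℝ) / W) / (cW W ^ 2 * L) * pp w Δ) / L := by
    field_simp
  rw [h9, le_div_iff₀ hL0]
  exact hfin

end Pool.Agent.HLT
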