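import Mathlib
import Pool.Agent.HLT.Defs
import Pool.Agent.HLT.AvProj

set_option autoImplicit false

open Finset

namespace Pool.Agent.HLT

namespace B7aux

section aux

variable {V X : Type} [Fintype V] [Fintype X]

lemma psA_prod_two {r : ℕ} (i j : Fin r) (hij : i ≠ j) (c : Fin r → ℝ) :
    ∏ k, c k = c i * c j * ∏ k ∈ (univ.erase i).erase j, c k := by
  rw [← Finset.mul_prod_erase univ c (mem_univ i),
    ← Finset.mul_prod_erase (univ.erase i) c (a := j) (by simp [hij.symm])]
  ring

lemma psA_card_two {r : ℕ} (i j : Fin r) (hij : i ≠ j) :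
    ((univ.erase i).erase j : Finset (Fin r)).card = r - 2 := by
  rw [Finset.card_erase_of_mem (by simp [hij.symm]), Finset.card_erase_of_mem (mem_univ i)]
  simp
  omega

/-- marginalisation of two coordinates -/
lemma psA_marg [Nonempty V] {r : ℕ} (i j : Fin r) (hij : i ≠ j) (F : V → V → ℝ) (G : V → ℝ) :
    av (fun e : Fin r → V => F (e i) (e j) * ∏ k ∈ (univ.erase i).erase j, G (e k)) =
      av (fun d => av (fun d' => F d d')) * (av G) ^ (r - 2) := by
  classical
  have h1 : ∀ e : Fin r → V, F (e i) (e j) * ∏ k ∈ (univ.erase i).erase j, G (e k) =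
      ∑ v, ∑ w, F v w * ∏ k, (if k = i then (if e k = v then 1 else 0) else
        if k = j then (if e k = w then 1 else 0) else G (e k)) := by
    intro e
    have h2 : ∀ v w, F v w * ∏ k, (if k = i then (if e k = v then 1 else 0) else
        if k = j then (if e k = w then 1 else 0) else G (e k)) =
        (if e i = v then (if e j = w then
          F v w * ∏ k ∈ (univ.erase i).erase j, G (e k) else 0) else 0) := by
      intro v w
      rw [psA_prod_two i j hij]
      have h3 : ∏ k ∈ (univ.erase i).erase j, (if k = i then (if e k = v then (1:ℝ) else 0) else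
        if k = j then (if e k = w then 1 else 0) else G (e k)) =
          ∏ k ∈ (univ.erase i).erase j, G (e k) := by
        refine Finset.prod_congr rfl fun k hk => ?_
        simp only [Finset.mem_erase, Finset.mem_univ, and_true] at hk
        rw [if_neg hk.2, if_neg hk.1]
      rw [h3, if_pos rfl, if_neg hij.symm, if_pos rfl]
      by_cases ha : e i = v
      · by_cases hb : e j = w
        · simp [ha, hb]
        · simp [hb]
      · simp [ha]
    simp_rw [h2]
    simp
  simp_rw [h1]
  rw [av_sum]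
  simp_rw [av_sum, av_mul_left]
  have h4 : ∀ v w, av (fun e : Fin r → V => ∏ k, (if k = i then (if e k = v then (1:ℝ) else 0) else
        if k = j then (if e k = w then 1 else 0) else G (e k))) =
        (1 / (Fintype.card V : ℝ)) * (1 / (Fintype.card V : ℝ)) * (av G) ^ (r - 2) := by
    intro v w
    have h5 := av_pi_prod (α := V) (fun (k : Fin r) (x : V) =>
      (if k = i then (if x = v then (1:ℝ) else 0) else
        if k = j then (if x = w then 1 else 0) else G x))
    rw [h5, psA_prod_two i j hij]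
    have h6 : ∏ k ∈ (univ.erase i).erase j, av (fun x : V =>
        (if k = i then (if x = v then (1:ℝ) else 0) else
        if k = j then (if x = w then 1 else 0) else G x)) = (av G) ^ (r - 2) := by
      rw [Finset.prod_congr rfl (g := fun _ => av G), Finset.prod_const, psA_card_two i j hij]
      intro k hk
      simp only [Finset.mem_erase, Finset.mem_univ, and_true] at hk
      simp [hk.1, hk.2]
    rw [h6]
    congr 1
    simp only [if_true, if_neg hij.symm]
    have h7 : ∀ v : V, av (fun x : V => if x = v then (1:ℝ) else 0) =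
        1 / (Fintype.card V : ℝ) := by
      intro v
      unfold av
      simp
    rw [h7, h7]
  simp_rw [h4]
  unfold av
  simp_rw [Finset.sum_div, Finset.sum_mul]
  refine Finset.sum_congr rfl fun v _ => Finset.sum_congr rfl fun w _ => ?_
  have : (Fintype.card V : ℝ) ≠ 0 := by exact_mod_cast Fintype.card_ne_zero
  field_simp

lemma psA_marg_one [Nonempty V] {r : ℕ} (i j : Fin r) (hij : i ≠ j) (F : V → V → ℝ) :
    av (fun e : Fin r → V => F (e i) (e j)) = av (fun d => av (fun d' => F d d')) := by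
  have h := psA_marg i j hij F (fun _ => (1:ℝ))
  simpa [av_const] using h

/-- coincidence of two coordinates -/
lemma psA_coin [Nonempty V] [DecidableEq V] {r : ℕ} (i j : Fin r) (hij : i ≠ j) (f : V → ℝ)
    (s : ℝ) (hf : ∀ d, f d = 0 ∨ f d = s) :
    av (fun e : Fin r → V => if e i = e j then ∏ k, f (e k) else 0) =
      s / (Fintype.card V : ℝ) * (av f) ^ (r - 1) := by
  have h := psA_marg i j hij (fun d d' => if d = d' then f d * f d' else 0) f
  have h1 : ∀ e : Fin r → V, (if e i = e j then ∏ k, f (e k) else 0) =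
      (if e i = e j then f (e i) * f (e j) else 0) * ∏ k ∈ (univ.erase i).erase j, f (e k) := by
    intro e
    rw [psA_prod_two i j hij]
    by_cases hc : e i = e j
    · simp [hc]
    · simp [hc]
  simp_rw [h1]
  rw [h]
  have h2 : av (fun d => av (fun d' => if d = d' then f d * f d' else 0)) =
      s / (Fintype.card V : ℝ) * av f := by
    unfold av
    have : ∀ d, ∑ d', (if d = d' then f d * f d' else 0) = s * f d := by
      intro d
      simp
      rcases hf d with h | h <;> simp [h]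
    simp_rw [this]
    rw [← Finset.sum_div, ← Finset.mul_sum]
    ring
  rw [h2, mul_assoc, ← pow_succ']
  congr 2
  have h3 : 2 ≤ r := by
    rcases r with _ | _ | r
    · exact i.elim0
    · exact absurd (Fin.ext (by omega)) hij
    · omega
  omega

lemma psA_cons {r : ℕ} (h : (Fin (r + 1) → V) → ℝ) :
    av h = av (fun d => av (fun e : Fin r → V => h (Fin.cons d e))) := by
  unfold av
  rw [← (Fin.consEquiv (fun _ : Fin (r + 1) => V)).sum_comp h, Fintype.sum_prod_type]
  simp_rw [← Finset.sum_div]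
  rw [div_div]
  congr 1
  rw [Fintype.card_fun, Fintype.card_fun, Fintype.card_fin, Fintype.card_fin]
  push_cast
  ring

lemma psA_append {a b : ℕ} (h : (Fin (a + b) → V) → ℝ) :
    av h = av (fun e : Fin a → V => av (fun e' : Fin b → V => h (Fin.append e e'))) := by
  unfold av
  rw [← (Fin.appendEquiv a b (α := V)).sum_comp h, Fintype.sum_prod_type]
  simp_rw [← Finset.sum_div]
  rw [div_div]
  congr 1
  rw [Fintype.card_fun, Fintype.card_fun, Fintype.card_fun, Fintype.card_fin, Fintype.card_fin,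
    Fintype.card_fin]
  push_cast
  ring

/-- the set of pairs -/
def psA_S (r : ℕ) : Finset (Σ _ : Fin r, Fin r) :=
  univ.sigma (fun i => univ.filter (fun j => i < j))

lemma psA_mem {r : ℕ} {p : Σ _ : Fin r, Fin r} (h : p ∈ psA_S r) : p.1 < p.2 := by
  unfold psA_S at h
  simpa using h

lemma psA_card (r : ℕ) : (psA_S r).card * 2 = r * (r - 1) := by
  unfold psA_S
  rw [Finset.card_sigma]
  have h1 : ∀ i : Fin r, (univ.filter (fun j => i < j)).card = r - 1 - (i : ℕ) := by
    intro i
    rw [Finset.filter_lt_eq_Ioi, Fin.card_Ioi]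
  simp_rw [h1]
  rw [Fin.sum_univ_eq_sum_range (fun i => r - 1 - i), Finset.sum_range_reflect (fun i => i) r,
    Finset.sum_range_id_mul_two]

lemma psA_card_le (m r : ℕ) (hr : r ≤ 2 * m + 2) : (psA_S r).card ≤ (m + 1) * (2 * m + 1) := by
  have h := psA_card r
  have h2 : r * (r - 1) ≤ (2 * m + 2) * (2 * m + 1) :=
    Nat.mul_le_mul hr (by omega)
  have h3 : (2 * m + 2) * (2 * m + 1) = ((m + 1) * (2 * m + 1)) * 2 := by ring
  omega

lemma psA_prod_le {ι : Type} (S : Finset ι) (x : ι → ℝ) (hx : ∀ i ∈ S, 1 ≤ x i) (P : ℕ)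
    (hP : S.card ≤ P) : ∏ i ∈ S, x i ≤ 1 + ∑ i ∈ S, (x i ^ P - 1) := by
  rcases S.eq_empty_or_nonempty with rfl | hS
  · simp
  obtain ⟨j, hj, hmax⟩ := Finset.exists_max_image S x hS
  have h1 : ∏ i ∈ S, x i ≤ x j ^ S.card := by
    rw [← Finset.prod_const]
    exact Finset.prod_le_prod (fun i hi => zero_le_one.trans (hx i hi)) hmax
  have h2 : x j ^ S.card ≤ x j ^ P := pow_le_pow_right₀ (hx j hj) hP
  have h3 : x j ^ P - 1 ≤ ∑ i ∈ S, (x i ^ P - 1) :=
    Finset.single_le_sum (f := fun i => x i ^ P - 1)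
      (fun i hi => by simpa using one_le_pow₀ (hx i hi) (n := P)) hj
  linarith

/-- the constants -/
def psA_K (P : ℝ) : ℕ → ℝ
  | 0 => 0
  | r + 1 => 2 * (1 + 2 * P + P * (1 + psA_K P r)) + ((r : ℝ) + 1)

lemma psA_K_nonneg {P : ℝ} (hP : 0 ≤ P) (r : ℕ) : 0 ≤ psA_K P r := by
  induction r with
  | zero => simp [psA_K]
  | succ r ih =>
    rw [psA_K]
    positivity

lemma psA_corr_av {r : ℕ} (ν : X → V → ℝ) :
    av (fun e : Fin r → V => corr ν e) = av (fun n => (av (fun d => ν n d)) ^ r) := by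
  unfold corr
  rw [av_comm]
  congr 1
  funext n
  rw [av_pi_prod (fun (_ : Fin r) (x : V) => ν n x)]
  simp

lemma psA_lower [Nonempty X] [Nonempty V] (ν : X → V → ℝ) (κ : ℝ) (hκ0 : 0 ≤ κ) (hκ1 : κ ≤ 1)
    (hν : ∀ n d, 0 ≤ ν n d) (hav : ∀ d, 1 - κ ≤ av (fun n => ν n d)) (r : ℕ) :
    1 - r * κ ≤ av (fun n => (av (fun d => ν n d)) ^ r) := by
  have h1 : 1 - κ ≤ av (fun n => av (fun d => ν n d)) := by
    rw [av_comm]
    calc 1 - κ = av (fun _ : V => 1 - κ) := (av_const _).symm
      _ ≤ _ := av_mono hav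
  have h2 := pow_av_le (fun n => av (fun d => ν n d)) (fun n => av_nonneg (hν n)) r
  have h3 : (1 - κ) ^ r ≤ (av (fun n => av (fun d => ν n d))) ^ r :=
    pow_le_pow_left₀ (by linarith) h1 r
  have h4 := one_add_mul_le_pow (a := -κ) (by linarith) r
  have h5 : 1 + (r : ℝ) * -κ = 1 - r * κ := by ring
  have h6 : (1 + -κ) = 1 - κ := by ring
  rw [h5, h6] at h4
  linarith

lemma psA_point [Nonempty X] [DecidableEq V] (m : ℕ) (ν : X → V → ℝ) (κ : ℝ) (g : V → V → ℝ)
    (hκ0 : 0 ≤ κ) (hν : ∀ n d, 0 ≤ ν n d) (hg : ∀ d d', 1 ≤ g d d')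
    (r : ℕ) (hr2 : r ≤ 2 * m + 2) (e : Fin r → V)
    (hc : Function.Injective e →
        corr ν e ≤ (1 + κ) * ∏ i, ∏ j ∈ univ.filter (fun j => i < j), g (e i) (e j)) :
    max (corr ν e - 1) 0 ≤ κ + ((1 + κ) * ∑ p ∈ psA_S r,
        (if e p.2 = e p.1 then 0 else g (e p.1) (e p.2) ^ ((m + 1) * (2 * m + 1)) - 1) +
      ∑ p ∈ psA_S r, (if e p.1 = e p.2 then corr ν e else 0)) := by
  have hcn : 0 ≤ corr ν e := av_nonneg fun n => Finset.prod_nonneg fun i _ => hν n _
  have hg1 : ∀ d d', (0:ℝ) ≤ g d d' ^ ((m + 1) * (2 * m + 1)) - 1 := fun d d' => by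
    simpa using one_le_pow₀ (hg d d') (n := (m + 1) * (2 * m + 1))
  have h1 : 0 ≤ ∑ p ∈ psA_S r,
        (if e p.2 = e p.1 then 0 else g (e p.1) (e p.2) ^ ((m + 1) * (2 * m + 1)) - 1) := by
    refine Finset.sum_nonneg fun p _ => ?_
    split_ifs
    · exact le_rfl
    · exact hg1 _ _
  have h2 : 0 ≤ ∑ p ∈ psA_S r, (if e p.1 = e p.2 then corr ν e else 0) := by
    refine Finset.sum_nonneg fun p _ => ?_
    split_ifs
    · exact hcn
    · exact le_rfl
  have h3 : 0 ≤ (1 + κ) * ∑ p ∈ psA_S r,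
        (if e p.2 = e p.1 then 0 else g (e p.1) (e p.2) ^ ((m + 1) * (2 * m + 1)) - 1) :=
    mul_nonneg (by linarith) h1
  refine max_le ?_ (by linarith)
  by_cases hinj : Function.Injective e
  · have h4 := hc hinj
    have h5 : ∏ i, ∏ j ∈ univ.filter (fun j => i < j), g (e i) (e j) =
        ∏ p ∈ psA_S r, g (e p.1) (e p.2) := by
      unfold psA_S
      rw [Finset.prod_sigma]
    rw [h5] at h4
    have h6 := psA_prod_le (psA_S r) (fun p => g (e p.1) (e p.2)) (fun p _ => hg _ _)
      ((m + 1) * (2 * m + 1)) (psA_card_le m r hr2)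
    have h7 : ∑ p ∈ psA_S r, (g (e p.1) (e p.2) ^ ((m + 1) * (2 * m + 1)) - 1) =
        ∑ p ∈ psA_S r,
        (if e p.2 = e p.1 then 0 else g (e p.1) (e p.2) ^ ((m + 1) * (2 * m + 1)) - 1) := by
      refine Finset.sum_congr rfl fun p hp => ?_
      rw [if_neg]
      intro hh
      exact (psA_mem hp).ne' (hinj hh)
    rw [h7] at h6
    have h8 := mul_le_mul_of_nonneg_left h6 (by linarith : 0 ≤ 1 + κ)
    linarith
  · have h4 : ∃ i j, i < j ∧ e i = e j := by
      unfold Function.Injective at hinj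
      push Not at hinj
      obtain ⟨i, j, hij, hne⟩ := hinj
      rcases lt_or_gt_of_ne hne with h | h
      · exact ⟨i, j, h, hij⟩
      · exact ⟨j, i, h, hij.symm⟩
    obtain ⟨i, j, hij, hee⟩ := h4
    have h5 : corr ν e ≤ ∑ p ∈ psA_S r, (if e p.1 = e p.2 then corr ν e else 0) := by
      have h6 := Finset.single_le_sum (s := psA_S r)
        (f := fun p => if e p.1 = e p.2 then corr ν e else 0) (a := ⟨i, j⟩)
        (fun p _ => by
          split_ifs
          · exact hcn
          · exact le_rfl)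
        (by unfold psA_S; simpa using hij)
      simp only [hee, if_true] at h6
      exact h6
    linarith

lemma psA_main [Nonempty X] [Nonempty V] [DecidableEq V] (m : ℕ) (ν : X → V → ℝ) (s κ : ℝ)
    (g : V → V → ℝ)
    (hκ0 : 0 ≤ κ) (hκ1 : κ ≤ 1) (hs : 0 ≤ s) (hν : ∀ n d, ν n d = 0 ∨ ν n d = s)
    (hsV : s / (Fintype.card V : ℝ) ≤ κ)
    (hg : ∀ d d', 1 ≤ g d d')
    (hc : ∀ r : ℕ, 1 ≤ r → r ≤ 2 * m + 2 → ∀ e : Fin r → V, Function.Injective e →
        corr ν e ≤ (1 + κ) * ∏ i, ∏ j ∈ univ.filter (fun j => i < j), g (e i) (e j))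
    (hav : ∀ d, 1 - κ ≤ av (fun n => ν n d))
    (hrow : ∀ d, av (fun d' => if d' = d then 0 else g d d' ^ ((m + 1) * (2 * m + 1)) - 1) ≤ κ) :
    ∀ r : ℕ, r ≤ 2 * m + 2 → av (fun e : Fin r → V => |corr ν e - 1|) ≤
      psA_K ((((m + 1) * (2 * m + 1) : ℕ)) : ℝ) r * κ := by
  have hνn : ∀ n d, 0 ≤ ν n d := fun n d => by
    rcases hν n d with h | h <;> rw [h]
    exact hs
  set P : ℝ := (((m + 1) * (2 * m + 1) : ℕ) : ℝ) with hPdef
  have hP : 0 ≤ P := Nat.cast_nonneg _
  intro r
  induction r with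
  | zero =>
    intro _
    have : ∀ e : Fin 0 → V, |corr ν e - 1| = 0 := by
      intro e
      unfold corr
      simp [av_const]
    rw [av_eq_zero_of this]
    simp [psA_K]
  | succ r ih =>
    intro hr
    have ih' := ih (by omega)
    -- moment bound
    have hmom : av (fun n => (av (fun d => ν n d)) ^ r) ≤ 1 + psA_K P r := by
      rw [← psA_corr_av]
      have h1 : av (fun e : Fin r → V => corr ν e) ≤
          av (fun e : Fin r → V => 1 + |corr ν e - 1|) :=
        av_mono fun e => by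
          have := le_abs_self (corr ν e - 1)
          linarith
      rw [av_add, av_const] at h1
      have h2 : psA_K P r * κ ≤ psA_K P r := by
        have := psA_K_nonneg hP r
        nlinarith
      linarith
    have hmomn : 0 ≤ av (fun n => (av (fun d => ν n d)) ^ r) :=
      av_nonneg fun n => pow_nonneg (av_nonneg (hνn n)) r
    have h1 : av (fun e : Fin (r + 1) → V => max (corr ν e - 1) 0) ≤
        κ + ((1 + κ) * (P * κ) + P * (κ * (1 + psA_K P r))) := by
      refine (av_mono fun e => psA_point m ν κ g hκ0 hνn hg (r + 1) hr e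
        (hc (r + 1) (by omega) hr e)).trans ?_
      rw [av_add, av_const, av_add, av_mul_left, av_sum, av_sum]
      have hcard : ((psA_S (r + 1)).card : ℝ) ≤ P := by
        rw [hPdef]
        exact_mod_cast psA_card_le m (r + 1) hr
      have h2 : ∑ p ∈ psA_S (r + 1), av (fun e : Fin (r + 1) → V =>
          (if e p.2 = e p.1 then 0 else g (e p.1) (e p.2) ^ ((m + 1) * (2 * m + 1)) - 1)) ≤
          P * κ := by
        calc _ ≤ ∑ p ∈ psA_S (r + 1), κ := by
              refine Finset.sum_le_sum fun p hp => ?_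
              rw [psA_marg_one p.1 p.2 (psA_mem hp).ne (fun d d' =>
                (if d' = d then 0 else g d d' ^ ((m + 1) * (2 * m + 1)) - 1))]
              calc _ ≤ av (fun _ : V => κ) := av_mono hrow
                _ = κ := av_const κ
          _ = ((psA_S (r + 1)).card : ℝ) * κ := by rw [Finset.sum_const, nsmul_eq_mul]
          _ ≤ P * κ := mul_le_mul_of_nonneg_right hcard hκ0
      have h3 : ∑ p ∈ psA_S (r + 1), av (fun e : Fin (r + 1) → V =>
          (if e p.1 = e p.2 then corr ν e else 0)) ≤ P * (κ * (1 + psA_K P r)) := by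
        have h4 : ∀ p ∈ psA_S (r + 1), av (fun e : Fin (r + 1) → V =>
          (if e p.1 = e p.2 then corr ν e else 0)) ≤ κ * (1 + psA_K P r) := by
          intro p hp
          have h5 : ∀ e : Fin (r + 1) → V, (if e p.1 = e p.2 then corr ν e else 0) =
              av (fun n => if e p.1 = e p.2 then ∏ k, ν n (e k) else 0) := by
            intro e
            unfold corr
            by_cases hh : e p.1 = e p.2
            · simp [hh]
            · simp [hh, av_zero]
          simp_rw [h5]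
          rw [av_comm]
          have h6 : ∀ n, av (fun e : Fin (r + 1) → V =>
              if e p.1 = e p.2 then ∏ k, ν n (e k) else 0) =
              s / (Fintype.card V : ℝ) * (av (fun d => ν n d)) ^ r := by
            intro n
            exact psA_coin p.1 p.2 (psA_mem hp).ne (fun d => ν n d) s (hν n)
          simp_rw [h6]
          rw [av_mul_left]
          exact mul_le_mul hsV hmom hmomn hκ0
        calc _ ≤ ∑ p ∈ psA_S (r + 1), κ * (1 + psA_K P r) := Finset.sum_le_sum h4
          _ = ((psA_S (r + 1)).card : ℝ) * (κ * (1 + psA_K P r)) := by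
            rw [Finset.sum_const, nsmul_eq_mul]
          _ ≤ P * (κ * (1 + psA_K P r)) :=
            mul_le_mul_of_nonneg_right hcard
              (mul_nonneg hκ0 (by linarith [psA_K_nonneg hP r]))
      have h7 := mul_le_mul_of_nonneg_left h2 (by linarith : 0 ≤ 1 + κ)
      linarith
    have h2 := psA_lower ν κ hκ0 hκ1 hνn hav (r + 1)
    rw [← psA_corr_av] at h2
    have h3 : av (fun e : Fin (r + 1) → V => |corr ν e - 1|) =
        2 * av (fun e : Fin (r + 1) → V => max (corr ν e - 1) 0) -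
          (av (fun e : Fin (r + 1) → V => corr ν e) - 1) := by
      rw [← av_mul_left]
      have h4 : av (fun e : Fin (r + 1) → V => corr ν e) - 1 =
          av (fun e : Fin (r + 1) → V => corr ν e - 1) := by
        rw [av_sub, av_const]
      rw [h4, ← av_sub]
      congr 1
      funext e
      rcases le_total (corr ν e - 1) 0 with h | h
      · rw [abs_of_nonpos h, max_eq_right h]; ring
      · rw [abs_of_nonneg h, max_eq_left h]; ring
    rw [h3, psA_K]
    push_cast at h2
    have h5 : (1 + κ) * (P * κ) ≤ 2 * (P * κ) :=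
      mul_le_mul_of_nonneg_right (by linarith) (mul_nonneg hP hκ0)
    nlinarith

lemma psA_corr_cons2 {r : ℕ} (ν : X → V → ℝ) (d' d'' : V) (e : Fin r → V) :
    corr ν (Fin.cons d' (Fin.cons d'' e : Fin (r + 1) → V) : Fin (r + 1 + 1) → V) =
      av (fun n => ν n d' * ν n d'' * ∏ j, ν n (e j)) := by
  unfold corr
  congr 1
  funext n
  rw [Fin.prod_univ_succ, Fin.prod_univ_succ]
  simp [mul_assoc]

lemma psA_prod_append {a b : ℕ} (ν : V → ℝ) (e : Fin a → V) (e' : Fin b → V) :
    ∏ j, ν (Fin.append e e' j) = (∏ j, ν (e j)) * ∏ j, ν (e' j) := by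
  rw [Fin.prod_univ_add]
  simp

lemma psA_sq_point [Nonempty X] [Nonempty V] {m : ℕ} (ν : X → V → ℝ) (d' d'' : V)
    (a : (Fin m → V) → ℝ) (ha : ∀ e, |a e| ≤ 1) :
    av (fun n => ν n d' * ν n d'' *
          (av (fun e : Fin m → V => a e * ((∏ j, ν n (e j)) - 1))) ^ 2) ≤
      av (fun e : Fin m → V => av (fun e' : Fin m → V =>
        |corr ν (Fin.cons d' (Fin.cons d'' (Fin.append e e') : Fin (m + m + 1) → V) :
            Fin (m + m + 1 + 1) → V) - 1|)) +
      2 * av (fun e : Fin m → V =>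
        |corr ν (Fin.cons d' (Fin.cons d'' e : Fin (m + 1) → V) : Fin (m + 1 + 1) → V) - 1|) +
      av (fun e : Fin 0 → V =>
        |corr ν (Fin.cons d' (Fin.cons d'' e : Fin (0 + 1) → V) : Fin (0 + 1 + 1) → V) - 1|) := by
  simp_rw [psA_corr_cons2, psA_prod_append]
  have h0 : (fun n => ν n d' * ν n d'' *
          (av (fun e : Fin m → V => a e * ((∏ j, ν n (e j)) - 1))) ^ 2) =
      (fun n => av (fun e : Fin m → V => av (fun e' : Fin m → V =>
        ν n d' * ν n d'' * ((a e * ((∏ j, ν n (e j)) - 1)) *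
          (a e' * ((∏ j, ν n (e' j)) - 1)))))) := by
    funext n
    rw [pow_two, av_mul_av, ← av_mul_left]
    congr 1
    funext e
    rw [← av_mul_left]
  rw [h0, av_comm]
  have h1 : ∀ e : Fin m → V, av (fun n => av (fun e' : Fin m → V =>
        ν n d' * ν n d'' * ((a e * ((∏ j, ν n (e j)) - 1)) *
          (a e' * ((∏ j, ν n (e' j)) - 1))))) =
      av (fun e' : Fin m → V => av (fun n =>
        ν n d' * ν n d'' * ((a e * ((∏ j, ν n (e j)) - 1)) *
          (a e' * ((∏ j, ν n (e' j)) - 1))))) := fun e => av_comm _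
  simp_rw [h1]
  have h2 : ∀ e e' : Fin m → V, av (fun n =>
        ν n d' * ν n d'' * ((a e * ((∏ j, ν n (e j)) - 1)) *
          (a e' * ((∏ j, ν n (e' j)) - 1)))) ≤
      |av (fun n => ν n d' * ν n d'' * ((∏ j, ν n (e j)) * ∏ j, ν n (e' j))) - 1| +
      |av (fun n => ν n d' * ν n d'' * ∏ j, ν n (e j)) - 1| +
      |av (fun n => ν n d' * ν n d'' * ∏ j, ν n (e' j)) - 1| +
      |av (fun n => ν n d' * ν n d'' * ∏ j : Fin 0, ν n (Fin.elim0 j)) - 1| := by
    intro e e'
    have h3 : av (fun n =>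
        ν n d' * ν n d'' * ((a e * ((∏ j, ν n (e j)) - 1)) *
          (a e' * ((∏ j, ν n (e' j)) - 1)))) = (a e * a e') *
        ((av (fun n => ν n d' * ν n d'' * ((∏ j, ν n (e j)) * ∏ j, ν n (e' j)))) -
          av (fun n => ν n d' * ν n d'' * ∏ j, ν n (e j)) -
          av (fun n => ν n d' * ν n d'' * ∏ j, ν n (e' j)) +
          av (fun n => ν n d' * ν n d'' * ∏ j : Fin 0, ν n (Fin.elim0 j))) := by
      rw [← av_sub, ← av_sub, ← av_add, ← av_mul_left]
      congr 1
      funext n
      simp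
      ring
    rw [h3]
    set A := av (fun n => ν n d' * ν n d'' * ((∏ j, ν n (e j)) * ∏ j, ν n (e' j)))
    set B := av (fun n => ν n d' * ν n d'' * ∏ j, ν n (e j))
    set C := av (fun n => ν n d' * ν n d'' * ∏ j, ν n (e' j))
    set D := av (fun n => ν n d' * ν n d'' * ∏ j : Fin 0, ν n (Fin.elim0 j))
    have h4 : |a e * a e'| ≤ 1 := by
      rw [abs_mul]
      exact mul_le_one₀ (ha e) (abs_nonneg _) (ha e')
    calc (a e * a e') * (A - B - C + D) ≤ |(a e * a e') * (A - B - C + D)| := le_abs_self _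
      _ = |a e * a e'| * |A - B - C + D| := abs_mul _ _
      _ ≤ 1 * |A - B - C + D| := mul_le_mul_of_nonneg_right h4 (abs_nonneg _)
      _ = |(A - 1) - (B - 1) - (C - 1) + (D - 1)| := by rw [one_mul]; congr 1; ring
      _ ≤ |(A - 1) - (B - 1) - (C - 1)| + |D - 1| := abs_add_le _ _
      _ ≤ |A - 1| + |B - 1| + |C - 1| + |D - 1| := by
        have h5 := abs_sub (A - 1 - (B - 1)) (C - 1)
        have h6 := abs_sub (A - 1) (B - 1)
        linarith
  refine (av_mono fun e => av_mono fun e' => h2 e e').trans ?_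
  simp_rw [av_add, av_const]
  have h7 : ∀ (e : Fin 0 → V), |av (fun n => ν n d' * ν n d'' * ∏ j, ν n (e j)) - 1| =
      |av (fun n => ν n d' * ν n d'' * ∏ j : Fin 0, ν n (Fin.elim0 j)) - 1| := by
    intro e
    simp
  simp_rw [h7, av_const]
  linarith

end aux

end B7aux

open B7aux

theorem pseudo_of_corr (m : ℕ) (hm : 1 ≤ m) : ∃ K : ℝ, 1 ≤ K ∧
    ∀ (X V : Type) [Fintype X] [Nonempty X] [Fintype V] [Nonempty V] [DecidableEq V]
      (ν : X → V → ℝ) (s κ : ℝ) (g : V → V → ℝ), 0 ≤ κ → κ ≤ 1 → 0 ≤ s →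
      (∀ n d, ν n d = 0 ∨ ν n d = s) → s / (Fintype.card V : ℝ) ≤ κ →
      (∀ d d', 1 ≤ g d d') → (∀ d d', g d d' = g d' d) →
      (∀ r : ℕ, 1 ≤ r → r ≤ 2 * m + 2 → ∀ e : Fin r → V, Function.Injective e →
        corr ν e ≤ (1 + κ) * ∏ i, ∏ j ∈ univ.filter (fun j => i < j), g (e i) (e j)) →
      (∀ d, 1 - κ ≤ av (fun n => ν n d)) →
      (∀ d, av (fun d' => if d' = d then 0 else g d d' ^ ((m + 1) * (2 * m + 1)) - 1) ≤ κ) →
      (∀ r : ℕ, 1 ≤ r → r ≤ 2 * m + 2 → av (fun n => (av (fun d => ν n d)) ^ r) ≤ 1 + K * κ) ∧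
      ∀ a : (Fin m → V) → V → V → ℝ, (∀ e d' d'', |a e d' d''| ≤ 1) →
        av (fun d' => av (fun d'' => av (fun n => ν n d' * ν n d'' *
          (av (fun e : Fin m → V => a e d' d'' * ((∏ j, ν n (e j)) - 1))) ^ 2))) ≤ K * κ := by
  have hP : (0:ℝ) ≤ (((m + 1) * (2 * m + 1) : ℕ) : ℝ) := Nat.cast_nonneg _
  set P : ℝ := (((m + 1) * (2 * m + 1) : ℕ) : ℝ) with hPdef
  set S : ℝ := ∑ r ∈ Finset.range (2 * m + 3), psA_K P r with hS
  have hSle : ∀ r, r ≤ 2 * m + 2 → psA_K P r ≤ S := fun r hr =>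
    Finset.single_le_sum (f := fun r => psA_K P r) (fun i _ => psA_K_nonneg hP i)
      (Finset.mem_range.mpr (by omega))
  have hS0 : 0 ≤ S := (psA_K_nonneg hP 0).trans (hSle 0 (by omega))
  refine ⟨1 + 4 * S, by linarith, ?_⟩
  intro X V _ _ _ _ _ ν s κ g hκ0 hκ1 hs hν hsV hg _ hc hav hrow
  have main := psA_main m ν s κ g hκ0 hκ1 hs hν hsV hg hc hav hrow
  have main2 : ∀ r : ℕ, r ≤ 2 * m + 2 →
      av (fun e : Fin r → V => |corr ν e - 1|) ≤ S * κ := fun r hr =>
    (main r hr).trans (mul_le_mul_of_nonneg_right (hSle r hr) hκ0)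
  refine ⟨?_, ?_⟩
  · intro r _ hr
    rw [← psA_corr_av]
    have h1 : av (fun e : Fin r → V => corr ν e) ≤
        av (fun e : Fin r → V => 1 + |corr ν e - 1|) :=
      av_mono fun e => by
        have := le_abs_self (corr ν e - 1)
        linarith
    rw [av_add, av_const] at h1
    have h2 := main2 r hr
    nlinarith [mul_nonneg hS0 hκ0]
  · intro a ha
    refine (av_mono fun d' => av_mono fun d'' => psA_sq_point ν d' d''
      (fun e => a e d' d'') (fun e => ha e d' d'')).trans ?_
    simp_rw [av_add, av_mul_left]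
    have h1 := main2 (m + m + 1 + 1) (by omega)
    have h2 := main2 (m + 1 + 1) (by omega)
    have h3 := main2 (0 + 1 + 1) (by omega)
    rw [psA_cons] at h1 h2 h3
    have h4 : ∀ (r : ℕ) (h : (Fin (r + 1 + 1) → V) → ℝ),
        av (fun d => av (fun e : Fin (r + 1) → V => h (Fin.cons d e))) =
        av (fun d => av (fun d'' => av (fun e : Fin r → V =>
          h (Fin.cons d (Fin.cons d'' e : Fin (r + 1) → V))))) := by
      intro r h
      congr 1
      funext d
      rw [psA_cons]
    rw [h4 (m + m) (fun e => |corr ν e - 1|)] at h1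
    rw [h4 m (fun e => |corr ν e - 1|)] at h2
    rw [h4 0 (fun e => |corr ν e - 1|)] at h3
    simp_rw [psA_append] at h1
    nlinarith [mul_nonneg hS0 hκ0]

end Pool.Agent.HLT
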