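import Mathlib
import Pool.Agent.HLT.NDefs
import Pool.Agent.Lib.Sieve.Selberg
import Pool.Agent.Lib.Sieve.Residue
import Pool.Agent.HL26.SieveD

set_option autoImplicit false

open Finset Filter

namespace Pool.Agent.HLT

open Pool.Agent.HL26 Pool.Agent.Maynard

namespace B2gaux

open Classical in
lemma card_Omega {P a p : ℕ} (hp : p.Prime) (hpP : ¬ p ∣ P) (E : Finset ℕ) :
    ((Finset.range p).filter (fun b => ∃ e ∈ E, p ∣ P * b + a + e)).card = nu E p := by
  have : Fact p.Prime := ⟨hp⟩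
  have : NeZero p := ⟨hp.ne_zero⟩
  have hPu : (P : ZMod p) ≠ 0 := by
    rwa [Ne, ZMod.natCast_eq_zero_iff]
  unfold nu
  symm
  apply Finset.card_bij (fun (z : ZMod p) _ => ((-z - a) * (P : ZMod p)⁻¹).val)
  · intro z hz
    rw [Finset.mem_image] at hz
    obtain ⟨e, he, rfl⟩ := hz
    rw [Finset.mem_filter, Finset.mem_range]
    refine ⟨ZMod.val_lt _, e, he, ?_⟩
    rw [← ZMod.natCast_eq_zero_iff]
    push_cast
    rw [ZMod.natCast_zmod_val]
    field_simp
    ring
  · intro x _ z _ hxz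
    have h1 := ZMod.val_injective p hxz
    have h2 := mul_right_cancel₀ (inv_ne_zero hPu) h1
    have h3 : -x = -z := sub_left_injective h2
    exact neg_injective h3
  · intro b hb
    rw [Finset.mem_filter, Finset.mem_range] at hb
    obtain ⟨hlt, e, he, hdvd⟩ := hb
    refine ⟨(e : ZMod p), Finset.mem_image.2 ⟨e, he, rfl⟩, ?_⟩
    rw [← ZMod.natCast_eq_zero_iff] at hdvd
    push_cast at hdvd
    have h1 : (-(e : ZMod p) - a) * (P : ZMod p)⁻¹ = (b : ZMod p) := by
      have h2 : -(e : ZMod p) - a = P * b := by linear_combination -hdvd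
      rw [h2]
      field_simp
    rw [h1, ZMod.val_natCast, Nat.mod_eq_of_lt hlt]

lemma squarefree_prod_set (T : Finset ℕ) (hT : ∀ p ∈ T, p.Prime) : Squarefree (∏ p ∈ T, p) :=
  Finset.squarefree_prod_of_pairwise_isCoprime (fun p hp q hq hpq => by
      have := (Nat.coprime_primes (hT p hp) (hT q hq)).mpr hpq
      simpa [Nat.isCoprime_iff_coprime, Nat.coprime_iff_isRelPrime] using this)
    (fun p hp => (hT p hp).squarefree)

/-- divisor sums over a product of a set of primes -/
lemma sum_divisors_prod_set (T : Finset ℕ) (hT : ∀ p ∈ T, p.Prime) (g : ℕ → ℝ) :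
    ∑ l ∈ (∏ p ∈ T, p).divisors, ∏ p ∈ l.primeFactors, g p = ∏ p ∈ T, (1 + g p) := by
  classical
  set P := ∏ p ∈ T, p with hP
  have hsq : Squarefree P := squarefree_prod_set T hT
  have hpf : P.primeFactors = T := Nat.primeFactors_prod hT
  have hm : (ArithmeticFunction.prodPrimeFactors g).IsMultiplicative :=
    ArithmeticFunction.IsMultiplicative.prodPrimeFactors g
  have h := hm.prodPrimeFactors_one_add_of_squarefree hsq
  have h1 : ∑ l ∈ P.divisors, ∏ p ∈ l.primeFactors, g p =
      ∑ d ∈ P.divisors, (ArithmeticFunction.prodPrimeFactors g) d := by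
    apply Finset.sum_congr rfl
    intro d hd
    rw [ArithmeticFunction.prodPrimeFactors_apply (Nat.pos_of_mem_divisors hd).ne']
  rw [h1, ← h, hpf]
  apply Finset.prod_congr rfl
  intro p hp
  have hpp := hT p hp
  rw [ArithmeticFunction.prodPrimeFactors_apply hpp.ne_zero, hpp.primeFactors, Finset.prod_singleton]

/-- Rankin's trick with an explicit tail -/
lemma rankin2 (z : ℕ) (hz : 2 ≤ z) (r : ℕ) (T : Finset ℕ) (hTz : T ⊆ PPy z) (nf : ℕ → ℝ)
    (h0 : ∀ p ∈ T, 0 ≤ nf p) (h1 : ∀ p ∈ T, nf p < p) (h2 : ∀ p ∈ T, nf p ≤ r)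
    (D : ℝ) (hD : 1 ≤ D) :
    (1 - Real.exp (6 * r) * Real.exp (-(Real.log D / (2 * Real.log z)))) *
        ∏ p ∈ T, (1 + nf p / (p - nf p)) ≤
      ∑ l ∈ (∏ p ∈ T, p).divisors,
        if (l : ℝ) ^ 2 ≤ D then ∏ p ∈ l.primeFactors, nf p / (p - nf p) else 0 := by
  classical
  set P := ∏ p ∈ T, p with hP
  set g : ℕ → ℝ := fun p => nf p / (p - nf p) with hg
  have hTp : ∀ p ∈ T, p.Prime := fun p hp => PPy_prime z p (hTz hp)
  have hPpos : 0 < P := Finset.prod_pos (fun p hp => (hTp p hp).pos)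
  have hsq : Squarefree P := squarefree_prod_set T hTp
  have hpf : P.primeFactors = T := Nat.primeFactors_prod hTp
  have hz2 : (2:ℝ) ≤ z := by exact_mod_cast hz
  have hlogz : 0 < Real.log z := Real.log_pos (by linarith)
  have hg0 : ∀ p ∈ T, 0 ≤ g p := fun p hp =>
    div_nonneg (h0 p hp) (by have := h1 p hp; linarith)
  set t : ℕ → ℝ := fun p => Real.exp (Real.log p / Real.log z) with ht
  have hsubset : ∀ l ∈ P.divisors, l.primeFactors ⊆ T := by
    intro l hl
    rw [← hpf]
    exact Nat.primeFactors_mono (Nat.dvd_of_mem_divisors hl) hPpos.ne'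
  set β := Real.log D / (2 * Real.log z) with hβ
  have hterm : ∀ l ∈ P.divisors, (∏ p ∈ l.primeFactors, g p) -
      Real.exp (-β) * ∏ p ∈ l.primeFactors, (g p * t p) ≤
      if (l : ℝ) ^ 2 ≤ D then ∏ p ∈ l.primeFactors, g p else 0 := by
    intro l hl
    have hgl : 0 ≤ ∏ p ∈ l.primeFactors, g p :=
      Finset.prod_nonneg (fun p hp => hg0 p (hsubset l hl hp))
    rw [Finset.prod_mul_distrib]
    have htl : ∏ p ∈ l.primeFactors, t p = Real.exp (Real.log l / Real.log z) := by
      rw [ht, ← Real.exp_sum, ← Finset.sum_div]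
      congr 2
      have hlsq : Squarefree l := hsq.squarefree_of_dvd (Nat.dvd_of_mem_divisors hl)
      rw [← Real.log_prod (fun p hp => by exact_mod_cast (Nat.prime_of_mem_primeFactors hp).ne_zero)]
      rw [← Nat.cast_prod, Nat.prod_primeFactors_of_squarefree hlsq]
    split_ifs with hc
    · have : 0 ≤ Real.exp (-β) * ((∏ p ∈ l.primeFactors, g p) * ∏ p ∈ l.primeFactors, t p) := by
        rw [htl]
        positivity
      linarith
    · push Not at hc
      have hl0 : (0:ℝ) < l := by exact_mod_cast Nat.pos_of_mem_divisors hl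
      have h3 := Real.log_lt_log (by positivity) hc
      rw [Real.log_pow] at h3
      have h4 : β ≤ Real.log l / Real.log z := by
        rw [hβ, div_le_div_iff₀ (by positivity) hlogz]
        push_cast at h3
        nlinarith
      have h5 : 1 ≤ Real.exp (-β) * ∏ p ∈ l.primeFactors, t p := by
        rw [htl, ← Real.exp_add]
        apply Real.one_le_exp
        linarith
      nlinarith
  have hsum := Finset.sum_le_sum hterm
  refine le_trans ?_ hsum
  rw [Finset.sum_sub_distrib, ← Finset.mul_sum, hP, sum_divisors_prod_set T hTp g,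
    sum_divisors_prod_set T hTp (fun p => g p * t p)]
  have hZ : 0 ≤ ∏ p ∈ T, (1 + g p) := Finset.prod_nonneg (fun p hp => by
    have := hg0 p hp; linarith)
  have hcmp : ∏ p ∈ T, (1 + g p * t p) ≤ (∏ p ∈ T, (1 + g p)) * Real.exp (6 * r) := by
    have hfac : ∀ p ∈ T, 1 + g p * t p ≤ (1 + g p) * Real.exp (2 * r * (Real.log p / p) / Real.log z) := by
      intro p hp
      have hpp := hTp p hp
      have hp0 : (0:ℝ) < p := by exact_mod_cast hpp.pos
      have hp1 : (1:ℝ) ≤ p := by exact_mod_cast hpp.one_lt.le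
      have hpw : (p : ℝ) ≤ z := by
        have : p < z + 1 := Finset.mem_range.mp (Finset.mem_filter.mp (hTz hp)).1
        exact_mod_cast (by omega : p ≤ z)
      have hlp : 0 ≤ Real.log p := Real.log_nonneg hp1
      have hlpw : Real.log p ≤ Real.log z := Real.log_le_log hp0 hpw
      have htp : t p ≤ 1 + 2 * (Real.log p / Real.log z) :=
        exp_le_one_add_two _ (by positivity) ((div_le_one hlogz).mpr hlpw)
      have hn1 := h1 p hp
      have hn0 := h0 p hp
      have hn2 := h2 p hp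
      have hd : (p : ℝ) - nf p ≠ 0 := by linarith
      have e1 : 1 + g p * t p = (1 + g p) * (1 + nf p / p * (t p - 1)) := by
        simp only [hg]
        field_simp
        ring
      rw [e1]
      apply mul_le_mul_of_nonneg_left _ (by have := hg0 p hp; linarith)
      refine le_trans (by rw [add_comm]) ((Real.add_one_le_exp _).trans (Real.exp_le_exp.mpr ?_))
      calc nf p / p * (t p - 1) ≤ nf p / p * (2 * (Real.log p / Real.log z)) :=
            mul_le_mul_of_nonneg_left (by linarith) (by positivity)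
        _ ≤ r / p * (2 * (Real.log p / Real.log z)) := by
            apply mul_le_mul_of_nonneg_right _ (by positivity)
            exact div_le_div_of_nonneg_right hn2 hp0.le
        _ = _ := by ring
    refine (Finset.prod_le_prod (fun p hp => ?_) hfac).trans ?_
    · have := hg0 p hp
      have : 0 < t p := Real.exp_pos _
      positivity
    · rw [Finset.prod_mul_distrib, ← Real.exp_sum]
      apply mul_le_mul_of_nonneg_left _ hZ
      apply Real.exp_le_exp.mpr
      rw [← Finset.sum_div, ← Finset.mul_sum, div_le_iff₀ hlogz]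
      have h3 : ∑ p ∈ T, Real.log p / p ≤ Real.log z + Real.log 4 := by
        refine le_trans ?_ (sum_log_div_le z (by omega))
        refine Finset.sum_le_sum_of_subset_of_nonneg hTz fun p hp _ => ?_
        have := (PPy_prime z p hp).one_lt.le
        have h5 : (1:ℝ) ≤ p := by exact_mod_cast this
        exact div_nonneg (Real.log_nonneg h5) (by linarith)
      have h4 : Real.log 4 ≤ 2 * Real.log z := by
        have h5 : Real.log 4 = 2 * Real.log 2 := by
          rw [show (4:ℝ) = 2 ^ 2 by norm_num, Real.log_pow]; norm_num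
        rw [h5]
        have := Real.log_le_log (by norm_num) hz2
        linarith
      calc 2 * (r:ℝ) * ∑ p ∈ T, Real.log p / p ≤ 2 * r * (Real.log z + Real.log 4) :=
            mul_le_mul_of_nonneg_left h3 (by positivity)
        _ ≤ 2 * r * (Real.log z + 2 * Real.log z) := mul_le_mul_of_nonneg_left (by linarith) (by positivity)
        _ = _ := by ring
  have h6 : Real.exp (-β) * ∏ p ∈ T, (1 + g p * t p) ≤
      (Real.exp (6 * r) * Real.exp (-β)) * ∏ p ∈ T, (1 + g p) := by
    calc _ ≤ Real.exp (-β) * ((∏ p ∈ T, (1 + g p)) * Real.exp (6 * r)) :=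
          mul_le_mul_of_nonneg_left hcmp (Real.exp_pos _).le
      _ = _ := by ring
  have h7 : (1 - Real.exp (6 * r) * Real.exp (-β)) * ∏ p ∈ T, (1 + g p) =
      (∏ p ∈ T, (1 + g p)) - (Real.exp (6 * r) * Real.exp (-β)) * ∏ p ∈ T, (1 + g p) := by ring
  rw [h7]
  linarith

lemma one_le_prod_real {ι : Type*} (s : Finset ι) (f : ι → ℝ) (h : ∀ i ∈ s, 1 ≤ f i) :
    1 ≤ ∏ i ∈ s, f i := by
  calc (1:ℝ) = ∏ i ∈ s, 1 := by simp
    _ ≤ _ := Finset.prod_le_prod (fun _ _ => zero_le_one) h

lemma single_le_prod_real {ι : Type*} (s : Finset ι) (f : ι → ℝ) (h : ∀ i ∈ s, 1 ≤ f i)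
    (a : ι) (ha : a ∈ s) : f a ≤ ∏ i ∈ s, f i := by
  classical
  rw [← Finset.mul_prod_erase s f ha]
  have h1 := one_le_prod_real (s.erase a) f (fun i hi => h i (Finset.mem_of_mem_erase hi))
  have h2 := h a ha
  nlinarith

lemma subset_prod_real {ι : Type*} (s t : Finset ι) (hst : s ⊆ t) (f : ι → ℝ) (h : ∀ i ∈ t, 1 ≤ f i) :
    ∏ i ∈ s, f i ≤ ∏ i ∈ t, f i := by
  classical
  rw [← Finset.prod_sdiff hst]
  have h1 := one_le_prod_real (t \ s) f (fun i hi => h i (Finset.mem_sdiff.mp hi).1)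
  have h2 := one_le_prod_real s f (fun i hi => h i (hst hi))
  nlinarith

lemma one_le_ratio {p : ℕ} (hp : p.Prime) : 1 ≤ (p:ℝ) / ((p:ℝ) - 1) := by
  have h2 : (1:ℝ) < p := by exact_mod_cast hp.one_lt
  rw [le_div_iff₀ (by linarith)]
  linarith

lemma pp_ge (w h : ℕ) (hh : h ≠ 0) (T : Finset ℕ) (hT : ∀ p ∈ T, p.Prime) (hTw : ∀ p ∈ T, w < p) :
    ∏ p ∈ T, (if p ∣ h then (p:ℝ) / ((p:ℝ) - 1) else 1) ≤ pp w h := by
  classical
  rw [← Finset.prod_filter]
  unfold pp
  refine subset_prod_real _ _ ?_ _ ?_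
  · intro p hp
    rw [Finset.mem_filter] at hp
    rw [Finset.mem_filter, Nat.mem_primeFactors]
    exact ⟨⟨hT p hp.1, hp.2, hh⟩, hTw p hp.1⟩
  · intro p hp
    rw [Finset.mem_filter, Nat.mem_primeFactors] at hp
    exact one_le_ratio hp.1.1

/-- local comparison of the sieve density with the product over pairs -/
lemma prod_local_le (r : ℕ) (w z : ℕ) (e : Fin r → ℕ) (he : Function.Injective e) :
    ∏ p ∈ (PPy z).filter (fun p => w < p), (1 - (nu (univ.image e) p : ℝ) / p) ≤
      th w z ^ r * pairs (fun x y : ℕ => pp w (Nat.dist x y) ^ r) e := by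
  classical
  set T := (PPy z).filter (fun p => w < p) with hT
  have hTp : ∀ p ∈ T, p.Prime := fun p hp => PPy_prime z p (Finset.mem_filter.mp hp).1
  have hTw : ∀ p ∈ T, w < p := fun p hp => (Finset.mem_filter.mp hp).2
  set φ : ℕ → Fin r → Fin r → ℝ := fun p i j =>
    if p ∣ Nat.dist (e i) (e j) then (p:ℝ) / ((p:ℝ) - 1) else 1 with hφ
  have hφ1 : ∀ p ∈ T, ∀ i j, 1 ≤ φ p i j := by
    intro p hp i j
    simp only [hφ]
    split_ifs
    · exact one_le_ratio (hTp p hp)
    · exact le_refl _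
  have hφr : ∀ p ∈ T, ∀ i j, 1 ≤ (φ p i j) ^ r := fun p hp i j => one_le_pow₀ (hφ1 p hp i j)
  have hpairs : ∏ p ∈ T, ∏ i, ∏ j ∈ univ.filter (fun j => i < j), (φ p i j) ^ r ≤
      pairs (fun x y : ℕ => pp w (Nat.dist x y) ^ r) e := by
    rw [Finset.prod_comm]
    unfold pairs
    refine Finset.prod_le_prod (fun i _ => ?_) (fun i _ => ?_)
    · refine Finset.prod_nonneg fun p hp => Finset.prod_nonneg fun j _ => ?_
      have := hφr p hp i j
      linarith
    · rw [Finset.prod_comm]
      refine Finset.prod_le_prod (fun j _ => ?_) (fun j hj => ?_)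
      · refine Finset.prod_nonneg fun p hp => ?_
        have := hφr p hp i j
        linarith
      · rw [Finset.prod_pow]
        refine pow_le_pow_left₀ ?_ (pp_ge w _ ?_ T hTp hTw) r
        · refine Finset.prod_nonneg fun p hp => ?_
          have := hφ1 p hp i j
          linarith
        · rw [Finset.mem_filter] at hj
          intro h0
          have h1 := Nat.eq_of_dist_eq_zero h0
          have h2 := he h1
          have h3 := hj.2
          rw [h2] at h3
          exact lt_irrefl _ h3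
  have hloc : ∀ p ∈ T, 1 - (nu (univ.image e) p : ℝ) / p ≤
      (1 - 1 / (p:ℝ)) ^ r * ∏ i, ∏ j ∈ univ.filter (fun j => i < j), (φ p i j) ^ r := by
    intro p hp
    have hpp := hTp p hp
    have hp1 : (1:ℝ) < p := by exact_mod_cast hpp.one_lt
    have hp0 : (0:ℝ) < p := by linarith
    have hq0 : 0 ≤ 1 - 1 / (p:ℝ) := by
      rw [sub_nonneg, div_le_one hp0]
      exact hp1.le
    have hin1 : ∀ i : Fin r, 1 ≤ ∏ j ∈ univ.filter (fun j => i < j), (φ p i j) ^ r := fun i =>
      one_le_prod_real _ _ fun j _ => hφr p hp i j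
    by_cases hinj : nu (univ.image e) p = r
    · rw [hinj]
      have hB : 1 ≤ ∏ i, ∏ j ∈ univ.filter (fun j => i < j), (φ p i j) ^ r :=
        one_le_prod_real _ _ fun i _ => hin1 i
      have hbern : 1 - (r:ℝ) / p ≤ (1 - 1 / (p:ℝ)) ^ r := by
        have h1 := one_add_mul_le_pow (a := -(1 / (p:ℝ))) (by
          have : 1 / (p:ℝ) ≤ 1 := by rw [div_le_one hp0]; exact hp1.le
          linarith) r
        calc 1 - (r:ℝ) / p = 1 + r * -(1 / (p:ℝ)) := by ring
          _ ≤ (1 + -(1 / (p:ℝ))) ^ r := h1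
          _ = _ := by ring_nf
      calc _ ≤ (1 - 1 / (p:ℝ)) ^ r := hbern
        _ = (1 - 1 / (p:ℝ)) ^ r * 1 := by ring
        _ ≤ _ := mul_le_mul_of_nonneg_left hB (by positivity)
    · obtain ⟨i, j, hij, hdvd⟩ : ∃ i j : Fin r, i < j ∧ p ∣ Nat.dist (e i) (e j) := by
        by_contra hcon
        push Not at hcon
        apply hinj
        unfold nu
        rw [Finset.image_image, Finset.card_image_of_injective _ ?_, Finset.card_univ, Fintype.card_fin]
        intro i j hij
        by_contra hne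
        have key : ∀ i j : Fin r, ((e i : ℕ) : ZMod p) = ((e j : ℕ) : ZMod p) → p ∣ Nat.dist (e i) (e j) := by
          intro i j h
          rw [ZMod.natCast_eq_natCast_iff] at h
          unfold Nat.dist
          rcases le_total (e i) (e j) with h1 | h1
          · rw [Nat.sub_eq_zero_of_le h1, zero_add]
            exact (Nat.modEq_iff_dvd' h1).mp h
          · rw [Nat.sub_eq_zero_of_le h1, add_zero]
            exact (Nat.modEq_iff_dvd' h1).mp h.symm
        rcases lt_or_gt_of_ne hne with h1 | h1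
        · exact hcon i j h1 (key i j hij)
        · exact hcon j i h1 (key j i hij.symm)
      have hB : ((p:ℝ) / ((p:ℝ) - 1)) ^ r ≤ ∏ i, ∏ j ∈ univ.filter (fun j => i < j), (φ p i j) ^ r := by
        have h1 := single_le_prod_real univ (fun i => ∏ j ∈ univ.filter (fun j => i < j), (φ p i j) ^ r)
          (fun i _ => hin1 i) i (Finset.mem_univ i)
        have h2 := single_le_prod_real (univ.filter (fun j => i < j)) (fun j => (φ p i j) ^ r)
          (fun j _ => hφr p hp i j) j (Finset.mem_filter.mpr ⟨Finset.mem_univ j, hij⟩)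
        have h3 : φ p i j = (p:ℝ) / ((p:ℝ) - 1) := by
          simp only [hφ, if_pos hdvd]
        simp only [h3] at h2
        exact h2.trans h1
      have h4 : (1 - 1 / (p:ℝ)) ^ r * ((p:ℝ) / ((p:ℝ) - 1)) ^ r = 1 := by
        rw [← mul_pow]
        have h5 : (p:ℝ) - 1 ≠ 0 := by linarith
        have h6 : (1 - 1 / (p:ℝ)) * ((p:ℝ) / ((p:ℝ) - 1)) = 1 := by
          field_simp
        rw [h6, one_pow]
      calc 1 - (nu (univ.image e) p : ℝ) / p ≤ 1 := by
            have : 0 ≤ (nu (univ.image e) p : ℝ) / p := by positivity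
            linarith
        _ = (1 - 1 / (p:ℝ)) ^ r * ((p:ℝ) / ((p:ℝ) - 1)) ^ r := h4.symm
        _ ≤ _ := mul_le_mul_of_nonneg_left hB (by positivity)
  have hneg : ∀ p ∈ T, 0 ≤ 1 - (nu (univ.image e) p : ℝ) / p := by
    intro p hp
    have hpp := hTp p hp
    have : Fact p.Prime := ⟨hpp⟩
    have hp0 : (0:ℝ) < p := by exact_mod_cast hpp.pos
    rw [sub_nonneg, div_le_one hp0]
    have h1 : nu (univ.image e) p ≤ p := by
      unfold nu
      have h2 := Finset.card_le_univ ((univ.image e).image (fun e : ℕ => (e : ZMod p)))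
      rwa [ZMod.card] at h2
    exact_mod_cast h1
  calc ∏ p ∈ T, (1 - (nu (univ.image e) p : ℝ) / p)
      ≤ ∏ p ∈ T, ((1 - 1 / (p:ℝ)) ^ r * ∏ i, ∏ j ∈ univ.filter (fun j => i < j), (φ p i j) ^ r) :=
        Finset.prod_le_prod hneg hloc
    _ = (∏ p ∈ T, (1 - 1 / (p:ℝ))) ^ r * ∏ p ∈ T, ∏ i, ∏ j ∈ univ.filter (fun j => i < j), (φ p i j) ^ r := by
        rw [Finset.prod_mul_distrib, Finset.prod_pow]
    _ ≤ _ := by
        apply mul_le_mul_of_nonneg_left hpairs
        apply pow_nonneg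
        refine Finset.prod_nonneg fun p hp => ?_
        have hp1 : (1:ℝ) < p := by exact_mod_cast (hTp p hp).one_lt
        rw [sub_nonneg, div_le_one (by linarith)]
        exact hp1.le

lemma inv_bound (τ Z Y G : ℝ) (h0 : 0 < τ) (h1 : τ ≤ 1 / 2) (hZ : 1 ≤ Z) (hZY : Z * Y = 1)
    (hG : (1 - τ) * Z ≤ G) : 1 / G ≤ (1 + 2 * τ) * Y := by
  have hZ0 : 0 < Z := by linarith
  have hGpos : 0 < G := lt_of_lt_of_le (mul_pos (by linarith) hZ0) hG
  have hY0 : 0 < Y := by
    by_contra hcon
    push Not at hcon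
    have := mul_nonpos_of_nonneg_of_nonpos hZ0.le hcon
    linarith
  rw [div_le_iff₀ hGpos]
  calc (1:ℝ) ≤ ((1 + 2 * τ) * (1 - τ)) * (Z * Y) := by
        rw [hZY]
        nlinarith
    _ = (1 + 2 * τ) * Y * ((1 - τ) * Z) := by ring
    _ ≤ (1 + 2 * τ) * Y * G := mul_le_mul_of_nonneg_left hG (by positivity)

lemma sum_pow_Ioc_le (k n : ℕ) (hk : 2 ≤ k) (hn : 2 ≤ n) (D : ℝ) (hD : (n:ℝ) ≤ D) :
    ∑ d ∈ Finset.Ioc 0 n, (d:ℝ) ^ k ≤ D ^ (k + 1) - 2 := by
  have h1 : Finset.Ioc 0 n = insert 1 (Finset.Ioc 1 n) := by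
    ext x
    simp only [Finset.mem_Ioc, Finset.mem_insert]
    omega
  have hn2 : (2:ℝ) ≤ n := by exact_mod_cast hn
  rw [h1, Finset.sum_insert (by simp)]
  have h2 : ∑ d ∈ Finset.Ioc 1 n, (d:ℝ) ^ k ≤ ((n:ℝ) - 1) * (n:ℝ) ^ k := by
    calc ∑ d ∈ Finset.Ioc 1 n, (d:ℝ) ^ k ≤ ∑ d ∈ Finset.Ioc 1 n, (n:ℝ) ^ k := by
          refine Finset.sum_le_sum fun d hd => ?_
          rw [Finset.mem_Ioc] at hd
          exact pow_le_pow_left₀ (by positivity) (by exact_mod_cast hd.2) k
      _ = _ := by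
          rw [Finset.sum_const, Nat.card_Ioc, nsmul_eq_mul, Nat.cast_sub (by omega)]
          simp
  have h3 : (4:ℝ) ≤ (n:ℝ) ^ k := by
    calc (4:ℝ) = 2 ^ 2 := by norm_num
      _ ≤ (2:ℝ) ^ k := pow_le_pow_right₀ (by norm_num) hk
      _ ≤ (n:ℝ) ^ k := pow_le_pow_left₀ (by norm_num) hn2 k
  have h4 : (n:ℝ) ^ (k + 1) ≤ D ^ (k + 1) := pow_le_pow_left₀ (by positivity) hD _
  have h5 : (n:ℝ) ^ (k + 1) = n * (n:ℝ) ^ k := by ring
  rw [h5] at h4
  have h6 : ((1:ℕ):ℝ) ^ k = 1 := by simp
  rw [h6]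
  nlinarith

/-- the explicit bound with explicit constants -/
theorem selberg_explicit_aux (r : ℕ) (hr : 1 ≤ r) (w z m N a : ℕ) (D : ℝ) (e : Fin r → ℕ)
    (hrw : r < w) (hz : 2 ≤ z) (hm : 1 ≤ m) (hD1 : 1 ≤ D)
    (hTm : ∀ p ∈ (PPy z).filter (fun p => w < p), ¬ p ∣ m) (he : Function.Injective e)
    (ht0 : (12 * (r:ℝ) + 2) * Real.log z ≤ Real.log D) :
      (((Finset.Ioc N (2 * N)).filter (fun n => n ≡ a [MOD m] ∧
          ∀ i, ∀ p ∈ (PPy z).filter (fun p => w < p), ¬ p ∣ n + e i)).card : ℝ) ≤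
        (1 + (2 * Real.exp (6 * r)) * Real.exp (-((1/2) * (Real.log D / Real.log z)))) * ((N:ℝ) / m) *
          th w z ^ r * pairs (fun x y : ℕ => pp w (Nat.dist x y) ^ r) e + D ^ (2 * r + 1) := by
  have hz2 : (2:ℝ) ≤ z := by exact_mod_cast hz
  have hlogz : 0 < Real.log z := Real.log_pos (by linarith)
  have hmr : (0:ℝ) < m := by exact_mod_cast hm
  set E : Finset ℕ := univ.image e with hE
  have hEcard : E.card = r := by
    rw [hE, Finset.card_image_of_injective _ he, Finset.card_univ, Fintype.card_fin]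
  have hEne : E.Nonempty := by rw [← Finset.card_pos]; omega
  set T := (PPy z).filter (fun p => w < p) with hT
  have hTPP : T ⊆ PPy z := Finset.filter_subset _ _
  have hTp : ∀ p ∈ T, p.Prime := fun p hp => PPy_prime z p (hTPP hp)
  have hTw : ∀ p ∈ T, w < p := fun p hp => (Finset.mem_filter.mp hp).2
  set S := ∏ p ∈ T, p with hS
  have hSpos : 0 < S := Finset.prod_pos (fun p hp => (hTp p hp).pos)
  have hsq : Squarefree S := squarefree_prod_set T hTp
  have hpf : S.primeFactors = T := Nat.primeFactors_prod hTp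
  set a0 := a % m with ha0
  set Ω : ℕ → Finset ℕ := fun p => (Finset.range p).filter (fun b => ∃ x ∈ E, p ∣ m * b + a0 + x) with hΩ
  have hΩcard : ∀ p ∈ T, (Ω p).card = nu E p := fun p hp =>
    card_Omega (hTp p hp) (hTm p hp) E
  have hΩsub : ∀ p ∈ S.primeFactors, Ω p ⊆ Finset.range p := fun p _ => Finset.filter_subset _ _
  have hΩ0 : ∀ p ∈ S.primeFactors, 0 < (Ω p).card := by
    intro p hp
    rw [hpf] at hp
    rw [hΩcard p hp]
    exact nu_pos E hEne p
  have hnlt : ∀ p ∈ T, nu E p < p := by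
    intro p hp
    have h1 := nu_le_card E p
    have h2 := hTw p hp
    omega
  have hΩ1 : ∀ p ∈ S.primeFactors, (Ω p).card < p := by
    intro p hp
    rw [hpf] at hp
    rw [hΩcard p hp]
    exact hnlt p hp
  set X : ℕ := 2 * N / m + 1 - N / m with hX
  have hsel := Pool.Agent.Lib.Sieve.selberg_residue S hsq Ω hΩsub hΩ0 hΩ1 (N / m) X D hD1
  set G := ∑ l ∈ S.divisors, if (l : ℝ) ^ 2 ≤ D then
    ∏ p ∈ l.primeFactors, ((Ω p).card : ℝ) / (p - (Ω p).card) else 0 with hGdef
  set τ := Real.exp (6 * r) * Real.exp (-(Real.log D / (2 * Real.log z))) with hτ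
  have hG : (1 - τ) * ∏ p ∈ T, (1 + (nu E p : ℝ) / (p - nu E p)) ≤ G := by
    have h := rankin2 z hz r T hTPP (fun p => (nu E p : ℝ)) (fun p _ => by positivity)
      (fun p hp => by exact_mod_cast hnlt p hp)
      (fun p hp => by
        have := (nu_le_card E p).trans hEcard.le
        exact_mod_cast this) D hD1
    refine h.trans (le_of_eq ?_)
    rw [hGdef]
    refine Finset.sum_congr rfl fun l hl => ?_
    have h2 : ∏ p ∈ l.primeFactors, ((Ω p).card : ℝ) / (p - (Ω p).card) =
        ∏ p ∈ l.primeFactors, (nu E p : ℝ) / (p - nu E p) := by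
      refine Finset.prod_congr rfl fun p hp => ?_
      rw [hΩcard p]
      rw [← hpf]
      exact Nat.primeFactors_mono (Nat.dvd_of_mem_divisors hl) hSpos.ne' hp
    rw [h2]
  have hτ0 : 0 < τ := by positivity
  have hquot : 12 * (r:ℝ) + 2 ≤ Real.log D / Real.log z := (le_div_iff₀ hlogz).mpr ht0
  have hτ1 : τ ≤ 1 / 2 := by
    rw [hτ, ← Real.exp_add]
    have h3 : 6 * (r:ℝ) + -(Real.log D / (2 * Real.log z)) ≤ -1 := by
      have : Real.log D / (2 * Real.log z) = (Real.log D / Real.log z) / 2 := by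
        field_simp
      rw [this]
      linarith
    refine (Real.exp_le_exp.mpr h3).trans ?_
    rw [Real.exp_neg, inv_eq_one_div]
    apply one_div_le_one_div_of_le (by norm_num)
    have := Real.add_one_le_exp (1:ℝ)
    linarith
  set Z := ∏ p ∈ T, (1 + (nu E p : ℝ) / (p - nu E p)) with hZ
  have hZ1 : 1 ≤ Z := by
    refine one_le_prod_real _ _ fun p hp => ?_
    have h2 : (nu E p : ℝ) < p := by exact_mod_cast hnlt p hp
    have h3 : 0 < (p : ℝ) - nu E p := by linarith
    have : 0 ≤ (nu E p : ℝ) / (p - nu E p) := by positivity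
    linarith
  have hZinv : Z * ∏ p ∈ T, (1 - (nu E p : ℝ) / p) = 1 := by
    rw [hZ, ← Finset.prod_mul_distrib]
    refine Finset.prod_eq_one fun p hp => ?_
    have hp0 : (0:ℝ) < p := by exact_mod_cast (hTp p hp).pos
    have h2 : (nu E p : ℝ) < p := by exact_mod_cast hnlt p hp
    have h3 : (p : ℝ) - nu E p ≠ 0 := by linarith
    field_simp
    ring
  have hGlow : (1 - τ) * Z ≤ G := hG
  have hGZ : 1 / G ≤ (1 + 2 * τ) * ∏ p ∈ T, (1 - (nu E p : ℝ) / p) :=
    inv_bound τ Z _ G hτ0 hτ1 hZ1 hZinv hGlow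
  have hG1 : 1 ≤ G := by
    rw [hGdef]
    have h1 : (if ((1:ℕ) : ℝ) ^ 2 ≤ D then
        ∏ p ∈ (1:ℕ).primeFactors, ((Ω p).card : ℝ) / (p - (Ω p).card) else 0) = 1 := by
      rw [if_pos (by simpa using hD1)]
      simp
    calc (1:ℝ) = _ := h1.symm
      _ ≤ _ := by
        refine Finset.single_le_sum (f := fun l : ℕ => if (l : ℝ) ^ 2 ≤ D then
          ∏ p ∈ l.primeFactors, ((Ω p).card : ℝ) / (p - (Ω p).card) else 0) ?_
          (Nat.one_mem_divisors.mpr hSpos.ne')
        intro l hl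
        split_ifs
        · refine Finset.prod_nonneg fun p hp => ?_
          have hp' : p ∈ S.primeFactors := Nat.primeFactors_mono (Nat.dvd_of_mem_divisors hl) hSpos.ne' hp
          have h2 := hΩ1 p hp'
          have h3 : ((Ω p).card : ℝ) < p := by exact_mod_cast h2
          apply div_nonneg (by positivity)
          linarith
        · exact le_refl _
  have hXle : (X : ℝ) ≤ (N:ℝ) / m + 2 := by
    have h1 : ((2 * N / m : ℕ) : ℝ) ≤ ((2 * N : ℕ) : ℝ) / m := Nat.cast_div_le
    have h2 : (N:ℝ) / m ≤ ((N / m : ℕ) : ℝ) + 1 := by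
      have := Nat.lt_floor_add_one ((N:ℝ) / m)
      rw [Nat.floor_div_natCast, Nat.floor_natCast] at this
      exact this.le
    have h3 : X + N / m ≤ 2 * N / m + 1 := by
      have : N / m ≤ 2 * N / m := Nat.div_le_div_right (by omega)
      omega
    have h4 : (X:ℝ) + ((N / m : ℕ) : ℝ) ≤ ((2 * N / m : ℕ) : ℝ) + 1 := by exact_mod_cast h3
    push_cast at h1
    have h5 : 2 * (N:ℝ) / m = (N:ℝ) / m + (N:ℝ) / m := by ring
    linarith
  have hloc := prod_local_le r w z e he
  have hmain : (X : ℝ) / G ≤ (1 + 2 * τ) * ((N:ℝ) / m) * (th w z ^ r *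
      pairs (fun x y : ℕ => pp w (Nat.dist x y) ^ r) e) + 2 := by
    have hGpos : 0 < G := by linarith
    have h1 : (2:ℝ) / G ≤ 2 := by
      rw [div_le_iff₀ hGpos]
      linarith
    have hN0 : 0 ≤ (N:ℝ) / m := by positivity
    calc (X : ℝ) / G ≤ ((N:ℝ) / m + 2) / G := div_le_div_of_nonneg_right hXle hGpos.le
      _ = (N:ℝ) / m * (1 / G) + 2 / G := by ring
      _ ≤ (N:ℝ) / m * ((1 + 2 * τ) * ∏ p ∈ T, (1 - (nu E p : ℝ) / p)) + 2 :=
          add_le_add (mul_le_mul_of_nonneg_left hGZ hN0) h1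
      _ ≤ (N:ℝ) / m * ((1 + 2 * τ) * (th w z ^ r *
            pairs (fun x y : ℕ => pp w (Nat.dist x y) ^ r) e)) + 2 := by
          have : (1 + 2 * τ) * ∏ p ∈ T, (1 - (nu E p : ℝ) / p) ≤ (1 + 2 * τ) * (th w z ^ r *
              pairs (fun x y : ℕ => pp w (Nat.dist x y) ^ r) e) :=
            mul_le_mul_of_nonneg_left hloc (by linarith)
          have := mul_le_mul_of_nonneg_left this hN0
          linarith
      _ = _ := by ring
  -- the error term
  have hD2 : (2:ℝ) ≤ D := by
    have h1 : Real.log 2 ≤ Real.log D := by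
      have h2 := Real.log_le_log (by norm_num) hz2
      have h3 : Real.log z ≤ (12 * (r:ℝ) + 2) * Real.log z := by
        have : (0:ℝ) ≤ r := Nat.cast_nonneg r
        nlinarith
      linarith
    exact (Real.log_le_log_iff (by norm_num) (by linarith)).mp h1
  have herr : ∑ d ∈ S.divisors, (if (d : ℝ) ≤ D then
      (3 : ℝ) ^ (ArithmeticFunction.cardDistinctFactors d) * ∏ p ∈ d.primeFactors, ((Ω p).card : ℝ) else 0) ≤
      D ^ (2 * r + 1) - 2 := by
    have hterm : ∀ d ∈ S.divisors, (if (d : ℝ) ≤ D then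
      (3 : ℝ) ^ (ArithmeticFunction.cardDistinctFactors d) * ∏ p ∈ d.primeFactors, ((Ω p).card : ℝ) else 0) ≤
      if (d : ℝ) ≤ D then (d:ℝ) ^ (2 * r) else 0 := by
      intro d hd
      split_ifs with hc
      · have hd0 : d ≠ 0 := (Nat.pos_of_mem_divisors hd).ne'
        have h1 : ArithmeticFunction.cardDistinctFactors d = d.primeFactors.card := by
          rw [ArithmeticFunction.cardDistinctFactors_apply]; rfl
        rw [h1]
        have h2 : ∏ p ∈ d.primeFactors, ((Ω p).card : ℝ) ≤ (r:ℝ) ^ d.primeFactors.card := by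
          rw [← Finset.prod_const]
          apply Finset.prod_le_prod (fun p _ => by positivity)
          intro p hp
          have hp' : p ∈ T := by
            rw [← hpf]
            exact Nat.primeFactors_mono (Nat.dvd_of_mem_divisors hd) hSpos.ne' hp
          rw [hΩcard p hp']
          exact_mod_cast (nu_le_card E p).trans hEcard.le
        calc (3 : ℝ) ^ d.primeFactors.card * ∏ p ∈ d.primeFactors, ((Ω p).card : ℝ)
            ≤ (3 : ℝ) ^ d.primeFactors.card * (r:ℝ) ^ d.primeFactors.card :=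
              mul_le_mul_of_nonneg_left h2 (by positivity)
          _ = (3 * r : ℝ) ^ d.primeFactors.card := by rw [mul_pow]
          _ ≤ (d : ℝ) ^ (2 * r) := pow_omega_le' r d hr hd0
      · exact le_refl _
    refine (Finset.sum_le_sum hterm).trans ?_
    rw [← Finset.sum_filter]
    have hsub : S.divisors.filter (fun d : ℕ => (d:ℝ) ≤ D) ⊆ Finset.Ioc 0 ⌊D⌋₊ := by
      intro d hd
      rw [Finset.mem_filter] at hd
      rw [Finset.mem_Ioc]
      exact ⟨Nat.pos_of_mem_divisors hd.1, Nat.le_floor hd.2⟩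
    refine (Finset.sum_le_sum_of_subset_of_nonneg hsub fun _ _ _ => by positivity).trans ?_
    refine sum_pow_Ioc_le (2 * r) ⌊D⌋₊ (by omega) (Nat.le_floor (by exact_mod_cast hD2)) D
      (Nat.floor_le (by linarith))
  -- the counts
  have hcount : ((Finset.Ioc N (2 * N)).filter (fun n => n ≡ a [MOD m] ∧
      ∀ i, ∀ p ∈ T, ¬ p ∣ n + e i)).card ≤
      ((Finset.Ico (N / m) (N / m + X)).filter
      (fun n => ∀ p ∈ S.primeFactors, n % p ∉ Ω p)).card := by
    refine Finset.card_le_card_of_injOn (fun n => n / m) (fun n hn => ?_) (fun n hn n' hn' hnn' => ?_)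
    · rw [Finset.mem_coe, Finset.mem_filter, Finset.mem_Ioc] at hn
      obtain ⟨⟨hn1, hn2⟩, hn3, hn4⟩ := hn
      rw [Finset.mem_coe, Finset.mem_filter, Finset.mem_Ico]
      have hX2 : N / m + X = 2 * N / m + 1 := by
        have : N / m ≤ 2 * N / m := Nat.div_le_div_right (by omega)
        omega
      refine ⟨⟨Nat.div_le_div_right hn1.le, ?_⟩, fun p hp hcon => ?_⟩
      · rw [hX2]
        exact Nat.lt_succ_of_le (Nat.div_le_div_right hn2)
      · rw [hpf] at hp
        rw [hΩ, Finset.mem_filter] at hcon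
        obtain ⟨_, x, hx, hdvd⟩ := hcon
        rw [hE, Finset.mem_image] at hx
        obtain ⟨i, _, rfl⟩ := hx
        have hna : n = m * (n / m) + a0 := by
          have h1 := Nat.div_add_mod n m
          have h2 : n % m = a0 := hn3
          omega
        have hdvd2 : p ∣ n + e i := by
          have h1 : n + e i = (m * (n / m % p) + a0 + e i) + p * (m * (n / m / p)) := by
            have h2 := Nat.mod_add_div (n / m) p
            calc n + e i = m * (n / m) + a0 + e i := by rw [← hna]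
              _ = m * (n / m % p + p * (n / m / p)) + a0 + e i := by rw [h2]
              _ = _ := by ring
          rw [h1]
          exact dvd_add hdvd (dvd_mul_right _ _)
        exact hn4 i p hp hdvd2
    · rw [Finset.mem_coe, Finset.mem_filter] at hn hn'
      have h1 : n % m = n' % m := (hn.2.1).trans (hn'.2.1).symm
      have h2 := Nat.div_add_mod n m
      have h3 := Nat.div_add_mod n' m
      simp only at hnn'
      rw [hnn', h1] at h2
      omega
  have hcount' : ((((Finset.Ioc N (2 * N)).filter (fun n => n ≡ a [MOD m] ∧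
      ∀ i, ∀ p ∈ T, ¬ p ∣ n + e i)).card : ℕ) : ℝ) ≤
      (((Finset.Ico (N / m) (N / m + X)).filter
      (fun n => ∀ p ∈ S.primeFactors, n % p ∉ Ω p)).card : ℝ) := by exact_mod_cast hcount
  have hτeq : 2 * τ = (2 * Real.exp (6 * r)) * Real.exp (-((1/2) * (Real.log D / Real.log z))) := by
    rw [hτ]
    have : Real.log D / (2 * Real.log z) = (1/2) * (Real.log D / Real.log z) := by
      field_simp
    rw [this]
    ring
  rw [← hτeq]
  have hfin := hcount'.trans (hsel.trans (add_le_add hmain herr))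
  refine hfin.trans (le_of_eq ?_)
  ring

end B2gaux

open B2gaux

/-- B2g: Selberg's upper bound with the factor of the fundamental lemma, explicit form, for integers
of `(N, 2N]` in a residue class mod `m`, sifted by the primes in `(w, z]` (not dividing `m`). -/
theorem selberg_explicit (r : ℕ) (hr : 1 ≤ r) : ∃ C c t0 : ℝ, 0 < C ∧ 0 < c ∧ 1 ≤ t0 ∧
    ∀ (w z m N a : ℕ) (D : ℝ) (e : Fin r → ℕ), r < w → 2 ≤ z → 1 ≤ m → 1 ≤ D →
      (∀ p ∈ (PPy z).filter (fun p => w < p), ¬ p ∣ m) → Function.Injective e →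
      t0 * Real.log z ≤ Real.log D →
      (((Finset.Ioc N (2 * N)).filter (fun n => n ≡ a [MOD m] ∧
          ∀ i, ∀ p ∈ (PPy z).filter (fun p => w < p), ¬ p ∣ n + e i)).card : ℝ) ≤
        (1 + C * Real.exp (-(c * (Real.log D / Real.log z)))) * ((N:ℝ) / m) * th w z ^ r *
          pairs (fun x y : ℕ => pp w (Nat.dist x y) ^ r) e + D ^ (2 * r + 1) := by
  refine ⟨2 * Real.exp (6 * r), 1 / 2, 12 * r + 2, by positivity, by norm_num, by
    have : (0:ℝ) ≤ r := Nat.cast_nonneg r
    linarith, ?_⟩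
  intro w z m N a D e hrw hz hm hD hT he ht
  exact selberg_explicit_aux r hr w z m N a D e hrw hz hm hD hT he ht

end Pool.Agent.HLT
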