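import Mathlib
import Pool.Agent.HLT.NDefs
import Pool.Agent.HLT.Mertens
import Pool.Agent.HLT.SelbergExplicit

set_option autoImplicit false

open Finset Filter

namespace Pool.Agent.HLT

open Pool.Agent.HL26 Pool.Agent.Maynard

namespace B2aux

lemma B2_one_le_prod {ι : Type} (s : Finset ι) (f : ι → ℝ) (h : ∀ i ∈ s, 1 ≤ f i) :
    1 ≤ ∏ i ∈ s, f i :=
  Finset.prod_induction f (fun x => 1 ≤ x)
    (fun _ _ ha hb => one_le_mul_of_one_le_of_one_le ha hb) le_rfl h

lemma B2_one_le_pp (w h : ℕ) : 1 ≤ pp w h := by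
  unfold pp
  apply B2_one_le_prod
  intro p hp
  have hp1 : p.Prime := Nat.prime_of_mem_primeFactors (Finset.mem_filter.mp hp).1
  have h2 : (2:ℝ) ≤ p := by exact_mod_cast hp1.two_le
  rw [le_div_iff₀ (by linarith)]
  linarith

lemma B2_one_le_pairs (w r : ℕ) (e : Fin r → ℕ) :
    1 ≤ pairs (fun x y : ℕ => pp w (Nat.dist x y) ^ r) e := by
  unfold pairs
  apply B2_one_le_prod
  intro i _
  apply B2_one_le_prod
  intro j _
  exact one_le_pow₀ (B2_one_le_pp w _)

lemma B2_Wp_pos (w : ℕ) : 0 < Wp w :=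
  Finset.prod_pos (fun p hp => (PPy_prime w p hp).pos)

lemma B2_not_dvd (w z p : ℕ) (hp : p ∈ (PPy z).filter (fun p => w < p)) : ¬ p ∣ Wp w := by
  intro hd
  have hp1 := PPy_prime z p (Finset.mem_filter.mp hp).1
  have hp2 := (Finset.mem_filter.mp hp).2
  unfold Wp at hd
  obtain ⟨q, hq, hpq⟩ := (Prime.dvd_finsetProd_iff hp1.prime _).mp hd
  have hq1 := PPy_prime w q hq
  have heq := (Nat.prime_dvd_prime_iff_eq hp1 hq1).mp hpq
  have hq2 : q < w + 1 := Finset.mem_range.mp (Finset.mem_filter.mp hq).1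
  omega

/-- the error term is small -/
lemma B2_err (r : ℕ) (W κ C : ℝ) (hW : 0 < W) (hκ : 0 < κ) (hC : 1 ≤ C) :
    ∀ᶠ N : ℕ in atTop, (N:ℝ) ^ (1 / 4 : ℝ) ≤ κ * ((N:ℝ) / W) * ((C * Real.log N)⁻¹) ^ r := by
  have h1 := isLittleO_log_rpow_rpow_atTop (s := (3 / 4 : ℝ)) (r : ℝ) (by norm_num)
  have hc : 0 < κ / (W * C ^ r) := by positivity
  have h2 := (h1.def hc)
  have h3 := tendsto_natCast_atTop_atTop (R := ℝ) |>.eventually h2
  filter_upwards [h3, eventually_ge_atTop 3] with N hN hN3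
  have hNpos : (0:ℝ) < N := by
    have : (3:ℝ) ≤ N := by exact_mod_cast hN3
    linarith
  have hlog : 0 < Real.log N := by
    apply Real.log_pos
    have : (3:ℝ) ≤ N := by exact_mod_cast hN3
    linarith
  rw [Real.norm_of_nonneg (by positivity), Real.norm_of_nonneg (by positivity),
    Real.rpow_natCast] at hN
  have hsplit : (N:ℝ) = (N:ℝ) ^ (1/4 : ℝ) * (N:ℝ) ^ (3/4 : ℝ) := by
    rw [← Real.rpow_add hNpos]
    norm_num
  have hq : 0 < (N:ℝ) ^ (1/4 : ℝ) := by positivity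
  have hCL : 0 < C * Real.log N := by positivity
  have hCLr : 0 < (C * Real.log N) ^ r := by positivity
  have key : (C * Real.log N) ^ r ≤ κ / W * (N:ℝ) ^ (3/4 : ℝ) := by
    rw [mul_pow]
    calc C ^ r * Real.log N ^ r ≤ C ^ r * (κ / (W * C ^ r) * (N:ℝ) ^ (3/4 : ℝ)) :=
          mul_le_mul_of_nonneg_left hN (by positivity)
      _ = κ / W * (N:ℝ) ^ (3/4 : ℝ) := by
          field_simp
  rw [inv_pow]
  calc (N:ℝ) ^ (1 / 4 : ℝ) = (N:ℝ) ^ (1 / 4 : ℝ) * (C * Real.log N) ^ r * ((C * Real.log N) ^ r)⁻¹ := by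
        field_simp
    _ ≤ (N:ℝ) ^ (1 / 4 : ℝ) * (κ / W * (N:ℝ) ^ (3/4 : ℝ)) * ((C * Real.log N) ^ r)⁻¹ := by
        apply mul_le_mul_of_nonneg_right _ (by positivity)
        exact mul_le_mul_of_nonneg_left key hq.le
    _ = κ * (((N:ℝ) ^ (1 / 4 : ℝ) * (N:ℝ) ^ (3/4 : ℝ)) / W) * ((C * Real.log N) ^ r)⁻¹ := by
        ring
    _ = κ * ((N:ℝ) / W) * ((C * Real.log N) ^ r)⁻¹ := by
        rw [← hsplit]

/-- the sifting level is at least 2 -/
lemma B2_zz_ge (u : ℝ) (hu : 0 < u) : ∀ᶠ N : ℕ in atTop, 2 ≤ zz N u := by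
  have h1 : Tendsto (fun x : ℝ => x ^ (1 / u)) atTop atTop := tendsto_rpow_atTop (by positivity)
  have h2 := h1.comp (tendsto_natCast_atTop_atTop (R := ℝ))
  filter_upwards [h2.eventually (eventually_ge_atTop (2:ℝ))] with N hN
  unfold zz
  apply Nat.le_floor
  exact_mod_cast hN

lemma B2_log_zz_le (u : ℝ) (_hu : 0 < u) (N : ℕ) (hN : 1 ≤ N) (hz : 1 ≤ zz N u) :
    Real.log (zz N u) ≤ Real.log N / u := by
  have hNpos : (0:ℝ) < N := by exact_mod_cast hN
  have h1 : ((zz N u : ℕ) : ℝ) ≤ (N:ℝ) ^ (1 / u) := Nat.floor_le (by positivity)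
  have h2 : (0:ℝ) < (zz N u : ℕ) := by exact_mod_cast hz
  calc Real.log (zz N u) ≤ Real.log ((N:ℝ) ^ (1 / u)) := Real.log_le_log h2 h1
    _ = Real.log N / u := by
        rw [Real.log_rpow hNpos]
        ring

end B2aux

open B2aux

open Classical in
/-- B2 -/
theorem rough_upper (r : ℕ) (hr : 1 ≤ r) : ∃ C c u0 : ℝ, 0 < C ∧ 0 < c ∧ 4 ≤ u0 ∧
    ∀ u : ℝ, u0 ≤ u → ∀ w : ℕ, r < w → ∀ κ : ℝ, 0 < κ → ∀ A : ℕ, ∀ᶠ N : ℕ in atTop,
    ∀ a : ℕ, ∀ e : Fin r → ℕ, Function.Injective e → (∀ i, (e i : ℝ) ≤ (Real.log N) ^ A) →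
      (∀ i, (a + e i).Coprime (Wp w)) →
      (((XS N w a).filter (fun n => ∀ i, Rough (zz N u) (n + e i))).card : ℝ) ≤
        (1 + C * Real.exp (-(c * u)) + κ) * ((N:ℝ) / Wp w) * th w (zz N u) ^ r *
          pairs (fun x y : ℕ => pp w (Nat.dist x y) ^ r) e := by
  obtain ⟨C, c, t0, hC, hc, ht0, hmain⟩ := selberg_explicit r hr
  obtain ⟨CM, hCM, hth⟩ := th_lower
  set s : ℝ := 4 * (2 * (r:ℝ) + 1) with hs
  have hspos : 0 < s := by positivity
  refine ⟨C, c / s, max 4 (s * t0), hC, by positivity, le_max_left _ _, ?_⟩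
  intro u hu w hrw κ hκ A
  have hu4 : 4 ≤ u := le_trans (le_max_left _ _) hu
  have hus : s * t0 ≤ u := le_trans (le_max_right _ _) hu
  have hupos : 0 < u := by linarith
  have hWpos : (0:ℝ) < (Wp w : ℕ) := by exact_mod_cast B2_Wp_pos w
  filter_upwards [B2_zz_ge u hupos, B2_err r (Wp w : ℕ) κ CM hWpos hκ hCM,
    eventually_ge_atTop 3] with N hz herr hN3 a e he _ _
  have hN1 : (3:ℝ) ≤ N := by exact_mod_cast hN3
  have hNpos : (0:ℝ) < N := by linarith
  have hlog : 0 < Real.log N := Real.log_pos (by linarith)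
  set z := zz N u with hzdef
  have hlz : Real.log z ≤ Real.log N / u := B2_log_zz_le u hupos N (by omega) (by omega)
  have hz2 : (2:ℝ) ≤ z := by exact_mod_cast hz
  have hlzpos : 0 < Real.log z := Real.log_pos (by linarith)
  set D : ℝ := (N:ℝ) ^ (1 / s) with hD
  have hD1 : 1 ≤ D := Real.one_le_rpow (by linarith) (by positivity)
  have hlogD : Real.log D = Real.log N / s := by
    rw [hD, Real.log_rpow hNpos]
    ring
  have ht0D : t0 * Real.log z ≤ Real.log D := by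
    rw [hlogD]
    calc t0 * Real.log z ≤ t0 * (Real.log N / u) :=
          mul_le_mul_of_nonneg_left hlz (by linarith)
      _ ≤ Real.log N / s := by
          rw [mul_div_assoc', div_le_div_iff₀ hupos hspos]
          nlinarith [mul_le_mul_of_nonneg_left hus hlog.le]
  have hD4 : D ^ (2 * r + 1) = (N:ℝ) ^ (1 / 4 : ℝ) := by
    rw [hD, ← Real.rpow_natCast, ← Real.rpow_mul hNpos.le]
    congr 1
    rw [hs]
    push_cast
    field_simp
  have hsel := hmain w z (Wp w) N a D e hrw hz (B2_Wp_pos w) hD1 (fun p hp => B2_not_dvd w z p hp)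
    he ht0D
  have hsub : ((XS N w a).filter (fun n => ∀ i, Rough z (n + e i))).card ≤
      ((Finset.Ioc N (2 * N)).filter (fun n => n ≡ a [MOD (Wp w)] ∧
          ∀ i, ∀ p ∈ (PPy z).filter (fun p => w < p), ¬ p ∣ n + e i)).card := by
    apply Finset.card_le_card
    intro n hn
    obtain ⟨hn1, hn2⟩ := Finset.mem_filter.mp hn
    obtain ⟨hn3, hn4⟩ := Finset.mem_filter.mp hn1
    refine Finset.mem_filter.mpr ⟨hn3, hn4, ?_⟩
    intro i p hp
    have hp1 := (Finset.mem_filter.mp hp).1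
    have hp2 : p < z + 1 := Finset.mem_range.mp (Finset.mem_filter.mp hp1).1
    exact hn2 i p (PPy_prime z p hp1) (by omega)
  have hsub' : (((XS N w a).filter (fun n => ∀ i, Rough z (n + e i))).card : ℝ) ≤
      (((Finset.Ioc N (2 * N)).filter (fun n => n ≡ a [MOD (Wp w)] ∧
          ∀ i, ∀ p ∈ (PPy z).filter (fun p => w < p), ¬ p ∣ n + e i)).card : ℝ) := by
    exact_mod_cast hsub
  have hthpos : 0 < th w z := th_pos w z
  have hpairs := B2_one_le_pairs w r e
  set P := pairs (fun x y : ℕ => pp w (Nat.dist x y) ^ r) e with hP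
  have hCLpos : 0 < CM * Real.log N := by positivity
  have hth2 : (CM * Real.log N)⁻¹ ≤ th w z := by
    rw [inv_le_comm₀ hCLpos hthpos]
    calc (th w z)⁻¹ ≤ CM * Real.log z := hth w z hz
      _ ≤ CM * Real.log N := by
          apply mul_le_mul_of_nonneg_left _ (by linarith)
          calc Real.log z ≤ Real.log N / u := hlz
            _ ≤ Real.log N := div_le_self hlog.le (by linarith)
  have herr2 : D ^ (2 * r + 1) ≤ κ * ((N:ℝ) / (Wp w : ℕ)) * th w z ^ r * P := by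
    rw [hD4]
    calc (N:ℝ) ^ (1 / 4 : ℝ) ≤ κ * ((N:ℝ) / (Wp w : ℕ)) * ((CM * Real.log N)⁻¹) ^ r := herr
      _ ≤ κ * ((N:ℝ) / (Wp w : ℕ)) * th w z ^ r := by
          apply mul_le_mul_of_nonneg_left _ (by positivity)
          exact pow_le_pow_left₀ (by positivity) hth2 r
      _ ≤ κ * ((N:ℝ) / (Wp w : ℕ)) * th w z ^ r * P :=
          le_mul_of_one_le_right (by positivity) hpairs
  have hexp : Real.exp (-(c * (Real.log D / Real.log z))) ≤ Real.exp (-(c / s * u)) := by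
    apply Real.exp_le_exp.mpr
    apply neg_le_neg
    have : u / s ≤ Real.log D / Real.log z := by
      rw [hlogD, div_le_div_iff₀ hspos hlzpos]
      have h3 : u * Real.log z ≤ Real.log N := by
        have := mul_le_mul_of_nonneg_left hlz hupos.le
        rwa [mul_div_cancel₀ _ hupos.ne'] at this
      calc u * Real.log z ≤ Real.log N := h3
        _ = Real.log N / s * s := by field_simp
    calc c / s * u = c * (u / s) := by ring
      _ ≤ c * (Real.log D / Real.log z) := mul_le_mul_of_nonneg_left this hc.le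
  have hB : 0 ≤ ((N:ℝ) / (Wp w : ℕ)) * th w z ^ r * P := by
    have : 0 ≤ P := by linarith
    positivity
  have hfirst : (1 + C * Real.exp (-(c * (Real.log D / Real.log z)))) * ((N:ℝ) / (Wp w : ℕ)) *
      th w z ^ r * P ≤ (1 + C * Real.exp (-(c / s * u))) * ((N:ℝ) / (Wp w : ℕ)) *
      th w z ^ r * P := by
    have h4 : 1 + C * Real.exp (-(c * (Real.log D / Real.log z))) ≤
        1 + C * Real.exp (-(c / s * u)) := by
      have := mul_le_mul_of_nonneg_left hexp hC.le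
      linarith
    calc (1 + C * Real.exp (-(c * (Real.log D / Real.log z)))) * ((N:ℝ) / (Wp w : ℕ)) *
          th w z ^ r * P = (1 + C * Real.exp (-(c * (Real.log D / Real.log z)))) *
            (((N:ℝ) / (Wp w : ℕ)) * th w z ^ r * P) := by ring
      _ ≤ (1 + C * Real.exp (-(c / s * u))) * (((N:ℝ) / (Wp w : ℕ)) * th w z ^ r * P) :=
          mul_le_mul_of_nonneg_right h4 hB
      _ = (1 + C * Real.exp (-(c / s * u))) * ((N:ℝ) / (Wp w : ℕ)) * th w z ^ r * P := by ring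
  calc (((XS N w a).filter (fun n => ∀ i, Rough z (n + e i))).card : ℝ)
      ≤ _ := hsub'
    _ ≤ _ := hsel
    _ ≤ (1 + C * Real.exp (-(c / s * u))) * ((N:ℝ) / (Wp w : ℕ)) * th w z ^ r * P +
        κ * ((N:ℝ) / (Wp w : ℕ)) * th w z ^ r * P := add_le_add hfirst herr2
    _ = (1 + C * Real.exp (-(c / s * u)) + κ) * ((N:ℝ) / (Wp w : ℕ)) * th w z ^ r * P := by ring

end Pool.Agent.HLT
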