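import Mathlib
import Pool.Agent.HLT.NDefs
import Pool.Agent.HLT.Mertens
import Pool.Agent.HLT.RoughUpper
import Pool.Agent.HL26.SieveA
import Pool.Agent.Lib.Maynard.Count

set_option autoImplicit false

open Finset Filter

namespace Pool.Agent.HLT

open Pool.Agent.HL26 Pool.Agent.Maynard

namespace RL

lemma mem_PP {w z p : ℕ} : p ∈ (PPy z).filter (fun p => w < p) ↔ (p ≤ z ∧ p.Prime) ∧ w < p := by
  unfold PPy
  simp only [Finset.mem_filter, Finset.mem_range]
  constructor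
  · rintro ⟨⟨h1, h2⟩, h3⟩; exact ⟨⟨by omega, h2⟩, h3⟩
  · rintro ⟨⟨h1, h2⟩, h3⟩; exact ⟨⟨by omega, h2⟩, h3⟩

lemma filter_succ_prime {w z : ℕ} (hp : (z + 1).Prime) (hw : w < z + 1) :
    (PPy (z + 1)).filter (fun p => w < p) = insert (z + 1) ((PPy z).filter (fun p => w < p)) := by
  ext p
  rw [mem_PP, Finset.mem_insert, mem_PP]
  constructor
  · rintro ⟨⟨h1, h2⟩, h3⟩
    rcases Nat.lt_or_ge z p with h | h
    · left; omega
    · right; exact ⟨⟨h, h2⟩, h3⟩
  · rintro (h | ⟨⟨h1, h2⟩, h3⟩)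
    · subst h; exact ⟨⟨le_rfl, hp⟩, hw⟩
    · exact ⟨⟨by omega, h2⟩, h3⟩

lemma filter_succ_not {w z : ℕ} (h : ¬ ((z + 1).Prime ∧ w < z + 1)) :
    (PPy (z + 1)).filter (fun p => w < p) = (PPy z).filter (fun p => w < p) := by
  ext p
  rw [mem_PP, mem_PP]
  constructor
  · rintro ⟨⟨h1, h2⟩, h3⟩
    refine ⟨⟨?_, h2⟩, h3⟩
    by_contra hc
    have : p = z + 1 := by omega
    subst this
    exact h ⟨h2, h3⟩
  · rintro ⟨⟨h1, h2⟩, h3⟩
    exact ⟨⟨by omega, h2⟩, h3⟩

lemma telescope (w z : ℕ) :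
    ∑ p ∈ (PPy z).filter (fun p => w < p), 1 / (p:ℝ) * th w (p - 1) = 1 - th w z := by
  induction z with
  | zero =>
    have : (PPy 0).filter (fun p => w < p) = ∅ := by
      ext p; rw [mem_PP]; constructor
      · rintro ⟨⟨h1, h2⟩, h3⟩; have := h2.pos; omega
      · intro h; simp at h
    unfold th
    rw [this]; simp
  | succ z ih =>
    by_cases h : (z + 1).Prime ∧ w < z + 1
    · have e := filter_succ_prime h.1 h.2
      have hn : z + 1 ∉ (PPy z).filter (fun p => w < p) := by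
        rw [mem_PP]; rintro ⟨⟨h1, _⟩, _⟩; omega
      rw [e, Finset.sum_insert hn, ih]
      have e2 : th w (z + 1) = (1 - 1 / ((z + 1 : ℕ):ℝ)) * th w z := by
        unfold th; rw [e, Finset.prod_insert hn]
      rw [e2, Nat.add_sub_cancel]
      ring
    · have e := filter_succ_not h
      have e2 : th w (z + 1) = th w z := by unfold th; rw [e]
      rw [e, ih, e2]

lemma th_split {w y z : ℕ} (h1 : w ≤ y) (h2 : y ≤ z) : th w z = th w y * th y z := by
  unfold th
  rw [← Finset.prod_union]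
  · refine Finset.prod_congr ?_ fun _ _ => rfl
    ext p
    rw [Finset.mem_union, mem_PP, mem_PP, mem_PP]
    constructor
    · rintro ⟨⟨a, b⟩, c⟩
      rcases Nat.lt_or_ge y p with h | h
      · right; exact ⟨⟨a, b⟩, h⟩
      · left; exact ⟨⟨h, b⟩, c⟩
    · rintro (⟨⟨a, b⟩, c⟩ | ⟨⟨a, b⟩, c⟩)
      · exact ⟨⟨by omega, b⟩, c⟩
      · exact ⟨⟨a, b⟩, by omega⟩
  · rw [Finset.disjoint_left]
    intro p hp hq
    rw [mem_PP] at hp hq
    omega

lemma dvd_Wp {w p : ℕ} (hp : p.Prime) (h : p ≤ w) : p ∣ Wp w := by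
  unfold Wp
  apply Finset.dvd_prod_of_mem
  unfold PPy
  simp only [Finset.mem_filter, Finset.mem_range]
  exact ⟨by omega, hp⟩

lemma le_of_dvd_Wp {w p : ℕ} (hp : p.Prime) (h : p ∣ Wp w) : p ≤ w := by
  unfold Wp at h
  rw [hp.prime.dvd_finsetProd_iff] at h
  obtain ⟨q, hq, hpq⟩ := h
  unfold PPy at hq
  simp only [Finset.mem_filter, Finset.mem_range] at hq
  have : p = q := (Nat.prime_dvd_prime_iff_eq hp hq.2).mp hpq
  omega

lemma Wp_pos (w : ℕ) : 0 < Wp w := by
  unfold Wp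
  exact Finset.prod_pos fun p hp => (PPy_prime w p hp).pos


/-- sifted part with smallest prime factor `p` -/
lemma Sp_bound {C c t0 : ℝ} (hC : 0 < C) (hc : 0 < c)
    (hsel : ∀ (w z m N a : ℕ) (D : ℝ) (e : Fin 1 → ℕ), 1 < w → 2 ≤ z → 1 ≤ m → 1 ≤ D →
      (∀ p ∈ (PPy z).filter (fun p => w < p), ¬ p ∣ m) → Function.Injective e →
      t0 * Real.log z ≤ Real.log D →
      (((Finset.Ioc N (2 * N)).filter (fun n => n ≡ a [MOD m] ∧
          ∀ i, ∀ p ∈ (PPy z).filter (fun p => w < p), ¬ p ∣ n + e i)).card : ℝ) ≤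
        (1 + C * Real.exp (-(c * (Real.log D / Real.log z)))) * ((N:ℝ) / m) * th w z ^ 1 *
          pairs (fun x y : ℕ => pp w (Nat.dist x y) ^ 1) e + D ^ (2 * 1 + 1))
    {w N a d p : ℕ} (hw : 2 ≤ w) (hp : p.Prime) (hwp : w < p) {D : ℝ} (hD : 1 ≤ D)
    (ht : t0 * Real.log (p - 1 : ℕ) ≤ Real.log D) :
    (((XS N w a).filter (fun n => p ∣ n + d ∧
      ∀ q ∈ (PPy (p - 1)).filter (fun q => w < q), ¬ q ∣ n + d)).card : ℝ) ≤
      (1 + C * Real.exp (-(c * (Real.log D / Real.log (p - 1 : ℕ))))) * ((N:ℝ) / Wp w) *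
        (1 / (p:ℝ) * th w (p - 1)) + D ^ 3 := by
  have hcop : (Wp w).Coprime p := by
    rw [Nat.coprime_comm, hp.coprime_iff_not_dvd]
    intro h
    have := le_of_dvd_Wp hp h
    omega
  obtain ⟨r, hr⟩ : ∃ r : ℕ, (r + d) % p = 0 := by
    refine ⟨(p - d % p) % p, ?_⟩
    have h1 : d % p < p := Nat.mod_lt _ hp.pos
    have h2 : ((p - d % p) % p + d) % p = (p - d % p + d % p) % p := by
      rw [Nat.add_mod, Nat.mod_mod, ← Nat.add_mod]
      conv_rhs => rw [Nat.add_mod, Nat.mod_mod, ← Nat.add_mod]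
    rw [h2, Nat.sub_add_cancel h1.le, Nat.mod_self]
  obtain ⟨a', ha1, ha2⟩ := Nat.chineseRemainder hcop a r
  have h := hsel w (p - 1) (Wp w * p) N a' D (fun _ => d) (by omega) (by omega)
    (Nat.mul_pos (Wp_pos w) hp.pos) hD (by
      intro q hq hqd
      rw [mem_PP] at hq
      rcases (Nat.Prime.dvd_mul hq.1.2).mp hqd with h | h
      · have := le_of_dvd_Wp hq.1.2 h
        omega
      · have := (Nat.prime_dvd_prime_iff_eq hq.1.2 hp).mp h
        omega) (fun i j _ => Subsingleton.elim i j) ht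
  have hsub : (XS N w a).filter (fun n => p ∣ n + d ∧
      ∀ q ∈ (PPy (p - 1)).filter (fun q => w < q), ¬ q ∣ n + d) ⊆
      (Finset.Ioc N (2 * N)).filter (fun n => n ≡ a' [MOD (Wp w * p)] ∧
          ∀ i : Fin 1, ∀ q ∈ (PPy (p - 1)).filter (fun q => w < q),
            ¬ q ∣ n + (fun _ : Fin 1 => d) i) := by
    intro n hn
    rw [Finset.mem_filter] at hn
    obtain ⟨hn1, hn2, hn3⟩ := hn
    unfold XS at hn1
    rw [Finset.mem_filter] at hn1
    rw [Finset.mem_filter]
    refine ⟨hn1.1, ?_, fun _ => hn3⟩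
    rw [← Nat.modEq_and_modEq_iff_modEq_mul hcop]
    refine ⟨hn1.2.trans ha1.symm, ?_⟩
    refine Nat.ModEq.trans ?_ ha2.symm
    have e1 : n + d ≡ r + d [MOD p] := by
      unfold Nat.ModEq
      rw [hr, Nat.mod_eq_zero_of_dvd hn2]
    exact Nat.ModEq.add_right_cancel' d e1
  refine (Nat.cast_le.mpr (Finset.card_le_card hsub)).trans (h.trans (le_of_eq ?_))
  have e2 : pairs (fun x y : ℕ => pp w (Nat.dist x y) ^ 1) (fun _ : Fin 1 => d) = 1 := by
    unfold pairs
    refine Finset.prod_eq_one fun i _ => Finset.prod_eq_one fun j hj => ?_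
    have h1 := (Finset.mem_filter.mp hj).2
    have h2 : i = j := Subsingleton.elim i j
    exact absurd h1 (by rw [h2]; exact lt_irrefl _)
  rw [e2]
  have hp0 : (p:ℝ) ≠ 0 := by exact_mod_cast hp.ne_zero
  have hW0 : (Wp w : ℝ) ≠ 0 := by exact_mod_cast (Wp_pos w).ne'
  push_cast
  field_simp

open Classical in
lemma cover {N w a d z : ℕ} (hcop : (a + d).Coprime (Wp w)) :
    ((XS N w a).card : ℝ) ≤ (((XS N w a).filter (fun n => Rough z (n + d))).card : ℝ) +
      ∑ p ∈ (PPy z).filter (fun p => w < p),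
        (((XS N w a).filter (fun n => p ∣ n + d ∧
          ∀ q ∈ (PPy (p - 1)).filter (fun q => w < q), ¬ q ∣ n + d)).card : ℝ) := by
  have hsub : XS N w a ⊆ (XS N w a).filter (fun n => Rough z (n + d)) ∪
      ((PPy z).filter (fun p => w < p)).biUnion (fun p => (XS N w a).filter (fun n => p ∣ n + d ∧
          ∀ q ∈ (PPy (p - 1)).filter (fun q => w < q), ¬ q ∣ n + d)) := by
    intro n hn
    rw [Finset.mem_union, Finset.mem_filter, Finset.mem_biUnion]
    by_cases hR : Rough z (n + d)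
    · left; exact ⟨hn, hR⟩
    · right
      unfold Rough at hR
      push Not at hR
      have hex : ∃ p : ℕ, p.Prime ∧ p ≤ z ∧ p ∣ n + d := hR
      classical
      set p := Nat.find hex with hpdef
      obtain ⟨h1, h2, h3⟩ := Nat.find_spec hex
      have hwp : w < p := by
        by_contra hle
        push Not at hle
        have hdW : p ∣ Wp w := dvd_Wp h1 hle
        have hn' : n ≡ a [MOD Wp w] := (Finset.mem_filter.mp hn).2
        have : a + d ≡ n + d [MOD p] := ((hn'.symm).add_right d).of_dvd hdW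
        have hd : p ∣ a + d := (this.dvd_iff dvd_rfl).mpr h3
        have := Nat.dvd_gcd hd hdW
        rw [hcop] at this
        exact h1.one_lt.ne' (Nat.dvd_one.mp this)
      refine ⟨p, mem_PP.mpr ⟨⟨h2, h1⟩, hwp⟩, Finset.mem_filter.mpr ⟨hn, h3, ?_⟩⟩
      intro q hq hqd
      rw [mem_PP] at hq
      have := Nat.find_min' hex ⟨hq.1.2, by omega, hqd⟩
      omega
  have h1 := (Finset.card_le_card hsub).trans (Finset.card_union_le _ _)
  have h2 := Finset.card_biUnion_le (s := (PPy z).filter (fun p => w < p))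
    (t := fun p => (XS N w a).filter (fun n => p ∣ n + d ∧
          ∀ q ∈ (PPy (p - 1)).filter (fun q => w < q), ¬ q ∣ n + d))
  have h3 := h1.trans (Nat.add_le_add_left h2 _)
  exact_mod_cast h3

lemma t_exp_le {α t : ℝ} (hα : 4 ≤ α) (ht : 1 ≤ t) :
    t * Real.exp (-(α * t)) ≤ 1 / t * Real.exp (-(α / 2)) := by
  have ht0 : 0 < t := by linarith
  -- t^2 exp(-α t) ≤ exp(-α/2) since t^2 ≤ exp(α t/2)
  have h1 : t ^ 2 ≤ Real.exp (α * t / 2) := by
    have h2 : t ≤ Real.exp t := (Real.add_one_le_exp t).trans' (by linarith)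
    calc t ^ 2 ≤ Real.exp t ^ 2 := by gcongr
      _ = Real.exp (2 * t) := by rw [← Real.exp_nat_mul]; norm_num
      _ ≤ Real.exp (α * t / 2) := by
          apply Real.exp_le_exp.mpr
          nlinarith
  have h3 : t ^ 2 * Real.exp (-(α * t)) ≤ Real.exp (-(α / 2)) := by
    calc t ^ 2 * Real.exp (-(α * t)) ≤ Real.exp (α * t / 2) * Real.exp (-(α * t)) := by
          gcongr
      _ = Real.exp (-(α * t / 2)) := by rw [← Real.exp_add]; ring_nf
      _ ≤ Real.exp (-(α / 2)) := by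
          apply Real.exp_le_exp.mpr
          nlinarith
  rw [one_div, inv_mul_eq_div, le_div_iff₀ ht0]
  nlinarith [h3]


end RL

open RL

open Classical in
/-- B3 -/
theorem rough_lower : ∃ C c u0 : ℝ, 0 < C ∧ 0 < c ∧ 4 ≤ u0 ∧
    ∀ u : ℝ, u0 ≤ u → ∀ w : ℕ, 2 ≤ w → ∀ κ : ℝ, 0 < κ → ∀ A : ℕ, ∀ᶠ N : ℕ in atTop,
    ∀ a d : ℕ, (d : ℝ) ≤ (Real.log N) ^ A → (a + d).Coprime (Wp w) →
      (1 - C * Real.exp (-(c * u)) - κ) * ((N:ℝ) / Wp w) * th w (zz N u) ≤
      (((XS N w a).filter (fun n => Rough (zz N u) (n + d))).card : ℝ) := by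
  obtain ⟨C, c, t0, hC, hc, ht0, hsel⟩ := selberg_explicit 1 le_rfl
  obtain ⟨C1, hC1, hratio⟩ := th_ratio
  obtain ⟨C2, hC2, hlow⟩ := th_lower
  refine ⟨6 * C * C1, c / 24, max 4 (max (12 * t0) (48 / c)), by positivity, by positivity,
    le_max_left _ _, ?_⟩
  intro u hu w hw κ hκ A
  have hu4 : 4 ≤ u := (le_max_left _ _).trans hu
  have hut : 12 * t0 ≤ u := ((le_max_left _ _).trans (le_max_right _ _)).trans hu
  have huc : 48 / c ≤ u := ((le_max_right _ _).trans (le_max_right _ _)).trans hu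
  have hu0 : 0 < u := by linarith
  set α : ℝ := c * u / 12 with hα
  have hα4 : 4 ≤ α := by
    rw [div_le_iff₀ hc] at huc
    rw [hα]; linarith
  have hW0 : (0:ℝ) < Wp w := by exact_mod_cast Wp_pos w
  -- eventual facts
  have ev1 : ∀ᶠ N : ℕ in atTop, w + 3 ≤ zz N u := by
    have h1 : Tendsto (fun N : ℕ => ((N:ℝ)) ^ (1 / u)) atTop atTop :=
      (tendsto_rpow_atTop (by positivity)).comp tendsto_natCast_atTop_atTop
    have h2 := h1.eventually_ge_atTop ((w + 3 : ℕ) : ℝ)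
    filter_upwards [h2] with N hN
    exact Nat.le_floor hN
  have ev2 : ∀ᶠ N : ℕ in atTop, 1 + (N:ℝ) ^ (1/2 : ℝ) ≤
      κ * ((N:ℝ) / Wp w) * (1 / (C2 * Real.log N)) := by
    have h1 : ∀ᶠ x : ℝ in atTop, Real.log x ≤ x ^ (1/4 : ℝ) := by
      have := (isLittleO_log_rpow_atTop (r := 1/4) (by norm_num)).bound (c := 1) one_pos
      filter_upwards [this, eventually_ge_atTop 1] with x hx hx1
      rw [one_mul, Real.norm_of_nonneg (Real.log_nonneg hx1),
        Real.norm_of_nonneg (by positivity)] at hx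
      exact hx
    have h2 : ∀ᶠ x : ℝ in atTop, 2 * Wp w * C2 / κ ≤ x ^ (1/4 : ℝ) :=
      (tendsto_rpow_atTop (by norm_num)).eventually_ge_atTop _
    filter_upwards [tendsto_natCast_atTop_atTop.eventually h1,
      tendsto_natCast_atTop_atTop.eventually h2, eventually_ge_atTop 3] with N e1 e2 hN3
    have hN0 : (0:ℝ) < N := by positivity
    have hN1 : (1:ℝ) ≤ N := by exact_mod_cast (by omega : 1 ≤ N)
    have hL : 0 < Real.log N := Real.log_pos (by exact_mod_cast (by omega : 1 < N))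
    have hC2' : 0 < C2 := by linarith
    have h3 : (1:ℝ) ≤ (N:ℝ) ^ (1/2 : ℝ) := Real.one_le_rpow hN1 (by norm_num)
    have h4 : (N:ℝ) ^ (1/2 : ℝ) * (N:ℝ) ^ (1/4 : ℝ) * (N:ℝ) ^ (1/4 : ℝ) = N := by
      rw [← Real.rpow_add hN0, ← Real.rpow_add hN0]; norm_num
    have h5 : 2 * (Wp w : ℝ) * C2 ≤ κ * (N:ℝ) ^ (1/4 : ℝ) := by
      rw [div_le_iff₀ hκ] at e2; linarith
    calc 1 + (N:ℝ) ^ (1/2 : ℝ) ≤ 2 * (N:ℝ) ^ (1/2 : ℝ) := by linarith
      _ ≤ κ * ((N:ℝ) / Wp w) * (1 / (C2 * Real.log N)) := by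
        rw [mul_one_div, le_div_iff₀ (by positivity), mul_div_assoc', le_div_iff₀ hW0]
        calc 2 * (N:ℝ) ^ (1/2 : ℝ) * (C2 * Real.log N) * Wp w
            = (N:ℝ) ^ (1/2 : ℝ) * (2 * Wp w * C2) * Real.log N := by ring
          _ ≤ (N:ℝ) ^ (1/2 : ℝ) * (κ * (N:ℝ) ^ (1/4 : ℝ)) * (N:ℝ) ^ (1/4 : ℝ) := by
            gcongr
          _ = κ * ((N:ℝ) ^ (1/2 : ℝ) * (N:ℝ) ^ (1/4 : ℝ) * (N:ℝ) ^ (1/4 : ℝ)) := by ring
          _ = κ * N := by rw [h4]
  filter_upwards [ev1, ev2, eventually_ge_atTop 3] with N hz hbig hN3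
  intro a d hd hcop
  set z := zz N u with hzdef
  set L := Real.log N with hL
  have hN0 : (0:ℝ) < N := by positivity
  have hN1 : (1:ℝ) ≤ N := by exact_mod_cast (by omega : 1 ≤ N)
  have hzle : (z:ℝ) ≤ (N:ℝ) ^ (1/u) := Nat.floor_le (by positivity)
  have hz0 : (0:ℝ) < z := by exact_mod_cast (by omega : 0 < z)
  have hlogz : u * Real.log z ≤ L := by
    have h1 := Real.log_le_log hz0 hzle
    rw [Real.log_rpow hN0] at h1
    have h2 : u * (1 / u * L) = L := by field_simp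
    nlinarith [mul_le_mul_of_nonneg_left h1 hu0.le]
  have hlogz0 : 0 < Real.log z := Real.log_pos (by exact_mod_cast (by omega : 1 < z))
  set D : ℝ := (N:ℝ) ^ (1/12 : ℝ) with hD
  have hD1 : 1 ≤ D := Real.one_le_rpow hN1 (by norm_num)
  have hlogD : Real.log D = L / 12 := by rw [hD, Real.log_rpow hN0]; ring
  have hD3 : D ^ 3 = (N:ℝ) ^ (1/4 : ℝ) := by
    rw [hD, ← Real.rpow_natCast, ← Real.rpow_mul hN0.le]; norm_num
  have hcov := cover (N := N) (z := z) hcop
  have hX : (N:ℝ) / Wp w - 1 ≤ ((XS N w a).card : ℝ) := by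
    have := count_class N (Wp_pos w) a
    have := abs_le.mp this
    unfold XS
    linarith [this.1]
  -- bound for each p
  set P := (PPy z).filter (fun p => w < p) with hP
  have hthz := th_pos w z
  have hterm : ∀ p ∈ P, (((XS N w a).filter (fun n => p ∣ n + d ∧
          ∀ q ∈ (PPy (p - 1)).filter (fun q => w < q), ¬ q ∣ n + d)).card : ℝ) ≤
      (N:ℝ) / Wp w * (1 / (p:ℝ) * th w (p - 1)) +
        (N:ℝ) / Wp w * (2 * C * C1 * th w z * Real.exp (-(α / 2)) / Real.log z) *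
          (Real.log p / p) + (N:ℝ) ^ (1/4 : ℝ) := by
    intro p hp
    rw [hP, mem_PP] at hp
    obtain ⟨⟨hpz, hpp⟩, hwp⟩ := hp
    have hp3 : 3 ≤ p := by omega
    have hp1 : (0:ℝ) < ((p - 1 : ℕ):ℝ) := by exact_mod_cast (by omega : 0 < p - 1)
    have hp0 : (0:ℝ) < p := by exact_mod_cast hpp.pos
    have hlogp1 : 0 < Real.log (p - 1 : ℕ) := Real.log_pos (by exact_mod_cast (by omega : 1 < p - 1))
    have hlogp : 0 < Real.log p := Real.log_pos (by exact_mod_cast (by omega : 1 < p))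
    have hlogle : Real.log (p - 1 : ℕ) ≤ Real.log p :=
      Real.log_le_log hp1 (by exact_mod_cast Nat.sub_le p 1)
    have hlogpz : Real.log p ≤ Real.log z := Real.log_le_log hp0 (by exact_mod_cast hpz)
    have hb := Sp_bound hC hc hsel hw hpp hwp (N := N) (a := a) (d := d) hD1 (by
      rw [hlogD]
      have : t0 * Real.log (p - 1 : ℕ) ≤ t0 * Real.log z := by
        apply mul_le_mul_of_nonneg_left (hlogle.trans hlogpz); linarith
      nlinarith)
    refine hb.trans ?_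
    rw [hD3]
    -- exponential
    set t := Real.log z / Real.log p with ht
    have ht1 : 1 ≤ t := by rw [ht, le_div_iff₀ hlogp]; linarith
    have hexp : Real.exp (-(c * (Real.log D / Real.log (p - 1 : ℕ)))) ≤ Real.exp (-(α * t)) := by
      apply Real.exp_le_exp.mpr
      apply neg_le_neg
      have h1 : u / 12 * t ≤ Real.log D / Real.log (p - 1 : ℕ) := by
        rw [hlogD, ht, le_div_iff₀ hlogp1]
        calc u / 12 * (Real.log z / Real.log p) * Real.log (p - 1 : ℕ)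
            ≤ u / 12 * (Real.log z / Real.log p) * Real.log p := by
              gcongr
          _ = u * Real.log z / 12 := by field_simp
          _ ≤ L / 12 := by linarith
      calc α * t = c * (u / 12 * t) := by rw [hα]; ring
        _ ≤ _ := by gcongr
    have hth1 : th w (p - 1) ≤ th w z * (2 * C1 * t) := by
      have h1 := th_split (w := w) (y := p - 1) (z := z) (by omega) (by omega)
      have h2 := hratio (p - 1) z (by omega) (by omega)
      have h3 := th_pos (p - 1) z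
      have h4 : th w (p - 1) = th w z * (th (p - 1) z)⁻¹ := by
        rw [h1]; field_simp
      rw [h4]
      apply mul_le_mul_of_nonneg_left _ hthz.le
      refine h2.trans ?_
      have h5 : Real.log p ≤ 2 * Real.log (p - 1 : ℕ) := by
        have : (p:ℝ) ≤ ((p - 1 : ℕ):ℝ) ^ 2 := by
          have : p ≤ (p - 1) ^ 2 := by
            obtain ⟨k, rfl⟩ : ∃ k, p = k + 3 := ⟨p - 3, by omega⟩
            simp only [Nat.add_sub_cancel, show k + 3 - 1 = k + 2 by omega]
            nlinarith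
          exact_mod_cast this
        have h6 := Real.log_le_log hp0 this
        rwa [Real.log_pow] at h6
      rw [ht, mul_comm 2 C1, mul_assoc]
      apply mul_le_mul_of_nonneg_left _ (by linarith)
      rw [div_le_iff₀ hlogp1]
      have h7 : 2 * (Real.log z / Real.log p) * Real.log (p - 1 : ℕ) =
          Real.log z * (2 * Real.log (p - 1 : ℕ) / Real.log p) := by ring
      rw [h7]
      have h8 : 1 ≤ 2 * Real.log (p - 1 : ℕ) / Real.log p := by
        rw [le_div_iff₀ hlogp]; linarith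
      nlinarith
    have hthp := th_pos w (p - 1)
    have hkey : C * Real.exp (-(α * t)) * (1 / (p:ℝ) * th w (p - 1)) ≤
        2 * C * C1 * th w z * Real.exp (-(α / 2)) / Real.log z * (Real.log p / p) := by
      have h1 := t_exp_le hα4 ht1
      have ht0' : 0 < t := by linarith
      calc C * Real.exp (-(α * t)) * (1 / (p:ℝ) * th w (p - 1))
          ≤ C * Real.exp (-(α * t)) * (1 / (p:ℝ) * (th w z * (2 * C1 * t))) := by gcongr
        _ = 2 * C * C1 * th w z / p * (t * Real.exp (-(α * t))) := by ring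
        _ ≤ 2 * C * C1 * th w z / p * (1 / t * Real.exp (-(α / 2))) := by
            gcongr
        _ = 2 * C * C1 * th w z * Real.exp (-(α / 2)) / Real.log z * (Real.log p / p) := by
            rw [ht]; field_simp
    have hNW : 0 ≤ (N:ℝ) / Wp w := by positivity
    have e1 : (1 + C * Real.exp (-(c * (Real.log D / Real.log (p - 1 : ℕ))))) * ((N:ℝ) / Wp w) *
        (1 / (p:ℝ) * th w (p - 1)) ≤ (1 + C * Real.exp (-(α * t))) * ((N:ℝ) / Wp w) *
        (1 / (p:ℝ) * th w (p - 1)) := by gcongr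
    have e2 : (1 + C * Real.exp (-(α * t))) * ((N:ℝ) / Wp w) * (1 / (p:ℝ) * th w (p - 1)) =
        (N:ℝ) / Wp w * (1 / (p:ℝ) * th w (p - 1)) + (N:ℝ) / Wp w *
          (C * Real.exp (-(α * t)) * (1 / (p:ℝ) * th w (p - 1))) := by ring
    have e3 := mul_le_mul_of_nonneg_left hkey hNW
    have e4 : (N:ℝ) / Wp w * (2 * C * C1 * th w z * Real.exp (-(α / 2)) / Real.log z *
        (Real.log p / p)) = (N:ℝ) / Wp w * (2 * C * C1 * th w z * Real.exp (-(α / 2)) /
        Real.log z) * (Real.log p / p) := by ring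
    linarith
  have hsum := Finset.sum_le_sum hterm
  rw [Finset.sum_add_distrib, Finset.sum_add_distrib, ← Finset.mul_sum, ← Finset.mul_sum,
    telescope, Finset.sum_const, nsmul_eq_mul] at hsum
  -- Mertens sum
  have hmert : ∑ p ∈ P, Real.log p / p ≤ 3 * Real.log z := by
    have h1 := sum_log_div_le z (by omega)
    have h2 : ∑ p ∈ P, Real.log p / p ≤ ∑ p ∈ PPy z, Real.log p / p := by
      apply Finset.sum_le_sum_of_subset_of_nonneg (Finset.filter_subset _ _)
      intro p hp _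
      have := (PPy_prime z p hp).one_lt
      have : (0:ℝ) ≤ Real.log p := Real.log_nonneg (by exact_mod_cast this.le)
      positivity
    have h3 : Real.log 4 ≤ 2 * Real.log z := by
      have h4 : (4:ℝ) = 2 ^ 2 := by norm_num
      rw [h4, Real.log_pow]
      have : Real.log 2 ≤ Real.log z := Real.log_le_log (by norm_num)
        (by exact_mod_cast (by omega : 2 ≤ z))
      push_cast
      linarith
    linarith
  have hPcard : (P.card : ℝ) ≤ (N:ℝ) ^ (1/4 : ℝ) := by
    have h1 : P.card ≤ z := by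
      have : P ⊆ Finset.Ioc 0 z := by
        intro p hp
        rw [hP, mem_PP] at hp
        rw [Finset.mem_Ioc]
        exact ⟨hp.1.2.pos, hp.1.1⟩
      have := Finset.card_le_card this
      rwa [Nat.card_Ioc, Nat.sub_zero] at this
    calc (P.card:ℝ) ≤ z := by exact_mod_cast h1
      _ ≤ (N:ℝ) ^ (1/u) := hzle
      _ ≤ (N:ℝ) ^ (1/4 : ℝ) := by
          apply Real.rpow_le_rpow_of_exponent_le hN1
          apply one_div_le_one_div_of_le (by norm_num) hu4
  have hE1 : (N:ℝ) / Wp w * (2 * C * C1 * th w z * Real.exp (-(α / 2)) / Real.log z) *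
      ∑ p ∈ P, Real.log p / p ≤ (N:ℝ) / Wp w * th w z * (6 * C * C1 * Real.exp (-(c / 24 * u))) := by
    have h1 : (N:ℝ) / Wp w * (2 * C * C1 * th w z * Real.exp (-(α / 2)) / Real.log z) *
      ∑ p ∈ P, Real.log p / p ≤ (N:ℝ) / Wp w * (2 * C * C1 * th w z * Real.exp (-(α / 2)) /
        Real.log z) * (3 * Real.log z) := by
      apply mul_le_mul_of_nonneg_left hmert; positivity
    refine h1.trans (le_of_eq ?_)
    have h2 : α / 2 = c / 24 * u := by rw [hα]; ring
    rw [h2]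
    field_simp
    ring
  have hE2 : (P.card:ℝ) * (N:ℝ) ^ (1/4 : ℝ) ≤ (N:ℝ) ^ (1/2 : ℝ) := by
    calc (P.card:ℝ) * (N:ℝ) ^ (1/4 : ℝ) ≤ (N:ℝ) ^ (1/4 : ℝ) * (N:ℝ) ^ (1/4 : ℝ) := by gcongr
      _ = (N:ℝ) ^ (1/2 : ℝ) := by rw [← Real.rpow_add hN0]; norm_num
  have hlowz : 1 / (C2 * L) ≤ th w z := by
    have h1 := hlow w z (by omega)
    have h2 : Real.log z ≤ L := by nlinarith
    have h3 : (th w z)⁻¹ ≤ C2 * L := h1.trans (by gcongr)
    rw [one_div]
    exact inv_le_of_inv_le₀ hthz h3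
  have hκb : κ * ((N:ℝ) / Wp w) * (1 / (C2 * L)) ≤ κ * ((N:ℝ) / Wp w) * th w z := by gcongr
  have hfin : (1 - 6 * C * C1 * Real.exp (-(c / 24 * u)) - κ) * ((N:ℝ) / Wp w) * th w z =
      (N:ℝ) / Wp w * th w z - (N:ℝ) / Wp w * th w z * (6 * C * C1 * Real.exp (-(c / 24 * u))) -
        κ * ((N:ℝ) / Wp w) * th w z := by ring
  rw [hfin]
  have hsplit : (N:ℝ) / Wp w * (1 - th w z) = (N:ℝ) / Wp w - (N:ℝ) / Wp w * th w z := by ring
  rw [hsplit] at hsum
  linarith

end Pool.Agent.HLT
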