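import Mathlib
import Pool.Agent.HLT.Close
import Pool.Agent.HLT.Tuples
import Pool.Agent.HLT.Verify

set_option autoImplicit false

open Finset Filter

namespace Pool.Agent.HLT

open Pool.Agent.HL26 Pool.Agent.Maynard

lemma PR.weaken {X V : Type} [Fintype X] [Fintype V] [DecidableEq V] {m : ℕ} {M ν : X → V → ℝ}
    {C B κp κ κ' Λ : ℝ} (h : PR m M ν C B κp κ Λ) (hκ : κ ≤ κ') : PR m M ν C B κp κ' Λ :=
  { h with
    small := h.small.trans hκ
    row := fun d => (h.row d).trans hκ }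

lemma corr_MM_eq {N w : ℕ} {S T : Finset ℕ} {r : ℕ} (e : Fin r → T) :
    corr (MM N w (S := S) (T := T)) e =
      ((S.filter (fun n => ∀ i, (n + (e i : ℕ)).Prime)).card : ℝ) *
        (cW (Wp w) * Real.log N) ^ r / (S.card : ℝ) := by
  unfold corr av
  rw [Fintype.card_coe]
  congr 1
  have h1 : ∀ n : S, ∏ i, MM N w n (e i) =
      if (∀ i, ((n : ℕ) + (e i : ℕ)).Prime) then (cW (Wp w) * Real.log N) ^ r else 0 := by
    intro n
    unfold MM
    by_cases h : ∀ i, ((n : ℕ) + (e i : ℕ)).Prime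
    · rw [if_pos h]
      rw [Finset.prod_congr rfl (fun i _ => if_pos (h i))]
      simp
    · rw [if_neg h]
      push Not at h
      obtain ⟨i, hi⟩ := h
      exact Finset.prod_eq_zero (mem_univ i) (if_neg hi)
  rw [Finset.sum_congr rfl (fun n _ => h1 n)]
  have h2 : ∑ n : S, (if (∀ i, ((n : ℕ) + (e i : ℕ)).Prime) then
      (cW (Wp w) * Real.log N) ^ r else 0) =
      ∑ n ∈ S, (if (∀ i, (n + (e i : ℕ)).Prime) then
      (cW (Wp w) * Real.log N) ^ r else 0) :=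
    Finset.sum_coe_sort S (fun n => if (∀ i, (n + (e i : ℕ)).Prime) then
      (cW (Wp w) * Real.log N) ^ r else 0)
  rw [h2, ← Finset.sum_filter, Finset.sum_const, nsmul_eq_mul]

/-- C0: the per-class theorem. -/
theorem class_tuples (m : ℕ) (hm : 1 ≤ m) (D ε : ℝ) (hD : 0 < D) (hε : 0 < ε) :
    ∃ w0 : ℕ, ∀ w : ℕ, w0 ≤ w → ∃ K : ℝ, ∀ A : ℕ, ∀ᶠ N : ℕ in atTop, ∀ H : ℕ,
    K * Real.log N ≤ H → (H:ℝ) ≤ (Real.log N) ^ A →
    ∀ (a : ℕ) (ρ : Finset ℕ), ρ.Nonempty → (∀ r ∈ ρ, r < Wp w ∧ (a + r).Coprime (Wp w)) →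
    ∀ (T : Type) [Fintype T] (e : T → Fin (4 * m + 1) → ℕ),
      (∀ t i, e t i ∈ VS w H ρ) → (∀ t, Function.Injective (e t)) →
      (∀ (I : Fin (m + 1) ↪ Fin (4 * m + 1)) (v : Fin (m + 1) → ℕ),
        ((univ.filter (fun t : T => ∀ i, e t (I i) = v i)).card : ℝ) ≤
          D * (Fintype.card T : ℝ) / ((VS w H ρ).card : ℝ) ^ (m + 1)) →
      ((univ.filter (fun t : T => ∀ I : Fin (m + 1) ↪ Fin (4 * m + 1),
        (((XS N w a).filter (fun n => ∀ i, (n + e t (I i)).Prime)).card : ℝ) <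
          c0 m * ((XS N w a).card : ℝ) / (cW (Wp w) * Real.log N) ^ (m + 1))).card : ℝ) ≤
        ε * (Fintype.card T : ℝ) := by
  obtain ⟨ε1, hε1, hA6⟩ := tuples_of_close m hm D ε hD hε
  obtain ⟨cp, hcp, hA3⟩ := close_tuples m hm 10 ε1 (by norm_num) hε1
  obtain ⟨C, hC, hB9⟩ := nt_PR m hm cp hcp
  obtain ⟨κ, hκ, J, hJ, hclose⟩ := hA3 C hC
  obtain ⟨κ', hκ', htup⟩ := hA6 J hJ
  obtain ⟨w0, hw0⟩ := hB9 (min κ κ') (lt_min hκ hκ')
  refine ⟨w0, fun w hw => ?_⟩
  obtain ⟨K, hK⟩ := hw0 w hw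
  refine ⟨K, fun A => ?_⟩
  filter_upwards [hK A, eventually_ge_atTop 2] with N hN hN2 H h1 h2 a ρ hρ hρ' T _ e heV hinj hdens
  obtain ⟨hXne, hVne, ⟨ν, hPR⟩, hmean, hrow⟩ := hN H h1 h2 a ρ hρ hρ'
  have : Nonempty (XS N w a) := hXne.to_subtype
  have : Nonempty (VS w H ρ) := hVne.to_subtype
  obtain ⟨χ, hχ⟩ := hclose (XS N w a) (VS w H ρ) (MM N w) ν _ (hPR.weaken (min_le_left _ _))
  have hκκ : min κ κ' ≤ κ' := min_le_right _ _
  have hmain := htup (XS N w a) (VS w H ρ) (MM N w) _ χ hPR.nonneg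
    (fun d => (by linarith : 1 - κ' ≤ 1 - min κ κ').trans (hmean d)) hPR.diag
    (hPR.small.trans hκκ)
    (fun d => ((av_mono fun d' => by
      by_cases h : d' = d
      · rw [if_pos h, if_pos h]
      · rw [if_neg h, if_neg h]
        exact max_le_max (by linarith) le_rfl).trans (hrow d)).trans hκκ) hχ
    T (fun t i => ⟨e t i, heV t i⟩)
    (fun t i j hij => hinj t (by simpa using hij))
    (fun I v => by
      rw [Fintype.card_coe]
      refine le_trans (le_of_eq ?_) (hdens I (fun i => (v i : ℕ)))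
      congr 2
      ext t
      simp only [mem_filter, mem_univ, true_and]
      exact forall_congr' fun i => by rw [Subtype.ext_iff])
  refine le_trans ?_ hmain
  refine Nat.cast_le.mpr (Finset.card_le_card ?_)
  intro t ht
  rw [mem_filter] at ht ⊢
  refine ⟨mem_univ _, fun I => ?_⟩
  have h3 := ht.2 I
  rw [corr_MM_eq]
  have hW : 0 < Wp w := Finset.prod_pos fun p hp => by
    have : p.Prime := by
      unfold PPy at hp
      simp only [mem_filter] at hp
      exact hp.2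
    exact this.pos
  have hlog : 0 < Real.log N := Real.log_pos (by exact_mod_cast (by omega : 1 < N))
  have hpos : 0 < (cW (Wp w) * Real.log N) ^ (m + 1) := pow_pos (mul_pos (cW_pos hW) hlog) _
  have hX : (0:ℝ) < (XS N w a).card := by exact_mod_cast hXne.card_pos
  rw [div_lt_iff₀ hX]
  rw [lt_div_iff₀ hpos] at h3
  exact h3

end Pool.Agent.HLT
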