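import Mathlib
import Pool.Agent.HLT.Close
import Pool.Agent.HLT.AvgClose
import Pool.Agent.HLT.Verify
import Pool.Agent.HLT.ClassTuples

set_option autoImplicit false

open Finset Filter

namespace Pool.Agent.HLT

open Pool.Agent.HL26 Pool.Agent.Maynard

/-- E2: the per-class average theorem (`K1` depends only on `m, ε`; `w0` does not depend on `K`). -/
theorem class_average (m : ℕ) (hm : 1 ≤ m) (ε : ℝ) (hε : 0 < ε) (hε1 : ε ≤ 1) :
    ∃ K1 : ℕ, m + 1 ≤ K1 ∧ ∀ D : ℝ, 1 ≤ D →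
    ∃ w0 : ℕ, ∀ w : ℕ, w0 ≤ w → ∃ K0 : ℝ, ∀ A : ℕ, ∀ᶠ N : ℕ in atTop, ∀ H : ℕ,
    K0 * Real.log N ≤ H → (H:ℝ) ≤ (Real.log N) ^ A →
    ∀ (a : ℕ) (ρ : Finset ℕ), ρ.Nonempty → (∀ r ∈ ρ, r < Wp w ∧ (a + r).Coprime (Wp w)) →
    ∀ K : ℕ, K1 ≤ K → ∀ (T : Type) [Fintype T] (e : T → Fin K → ℕ),
      (∀ t i, e t i ∈ VS w H ρ) → (∀ t, Function.Injective (e t)) →
      (∀ (i : Fin K) (v : ℕ), ((univ.filter (fun t : T => e t i = v)).card : ℝ) ≤
          2 * (Fintype.card T : ℝ) / ((VS w H ρ).card : ℝ)) →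
      (∀ (I : Fin (m + 1) ↪ Fin K) (v : Fin (m + 1) → ℕ),
        ((univ.filter (fun t : T => ∀ i, e t (I i) = v i)).card : ℝ) ≤
          D * (Fintype.card T : ℝ) / ((VS w H ρ).card : ℝ) ^ (m + 1)) →
      ((univ.filter (fun t : T => ∑ I : Fin (m + 1) ↪ Fin K,
        (((XS N w a).filter (fun n => ∀ i, (n + e t (I i)).Prime)).card : ℝ) <
          (1 - ε) * (Fintype.card (Fin (m + 1) ↪ Fin K) : ℝ) * ((XS N w a).card : ℝ) /
            (cW (Wp w) * Real.log N) ^ (m + 1))).card : ℝ) ≤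
        ε * (Fintype.card T : ℝ) := by
  obtain ⟨K1, hK1, κ1, hκ1, hE1⟩ := avg_of_close m hm 11 ε (by norm_num) hε hε1
  refine ⟨K1, hK1, fun D hD => ?_⟩
  have hD0 : 0 < D := by linarith
  obtain ⟨cp, hcp, hA3⟩ := close_tuples m hm 10 (ε ^ 2 / (64 * D)) (by norm_num) (by positivity)
  obtain ⟨C, hC, hB9⟩ := nt_PR m hm cp hcp
  obtain ⟨κ, hκ, J, hJ, hclose⟩ := hA3 C hC
  have hJ0 : (0:ℝ) < J := by exact_mod_cast hJ
  have hJ1 : (0:ℝ) < 1 / (2 * J) := by positivity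
  obtain ⟨w0, hw0⟩ := hB9 (min κ (min κ1 (1 / (2 * J)))) (lt_min hκ (lt_min hκ1 hJ1))
  refine ⟨w0, fun w hw => ?_⟩
  obtain ⟨K0, hK0⟩ := hw0 w hw
  refine ⟨K0, fun A => ?_⟩
  filter_upwards [hK0 A, eventually_ge_atTop 2] with N hN hN2 H h1 h2 a ρ hρ hρ' K hK T _ e heV
    hinj hdens1 hdens
  obtain ⟨hXne, hVne, ⟨ν, hPR⟩, hmean, hrow⟩ := hN H h1 h2 a ρ hρ hρ'
  have : Nonempty (XS N w a) := hXne.to_subtype
  have : Nonempty (VS w H ρ) := hVne.to_subtype
  obtain ⟨χ, hχ⟩ := hclose (XS N w a) (VS w H ρ) (MM N w) ν _ (hPR.weaken (min_le_left _ _))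
  have hκκ1 : min κ (min κ1 (1 / (2 * (J:ℝ)))) ≤ κ1 := (min_le_right _ _).trans (min_le_left _ _)
  have hκJ : min κ (min κ1 (1 / (2 * (J:ℝ)))) ≤ 1 / (2 * J) :=
    (min_le_right _ _).trans (min_le_right _ _)
  have hW : 0 < Wp w := Finset.prod_pos fun p hp => by
    have : p.Prime := by
      unfold PPy at hp
      simp only [mem_filter] at hp
      exact hp.2
    exact this.pos
  have hlog : 0 < Real.log N := Real.log_pos (by exact_mod_cast (by omega : 1 < N))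
  have hpos1 : 0 < cW (Wp w) * Real.log N := mul_pos (cW_pos hW) hlog
  have hpos : 0 < (cW (Wp w) * Real.log N) ^ (m + 1) := pow_pos hpos1 _
  have hX : (0:ℝ) < (XS N w a).card := by exact_mod_cast hXne.card_pos
  have hPJ := hPR.weaken hκJ
  have henergy : av (fun n => av (fun d => proj χ (MM N w (S := XS N w a) (T := VS w H ρ) n) d ^ 2))
      ≤ 11 := by
    refine (A3aux.energy_le χ (MM N w) 10 (1 / (2 * J)) _ (by norm_num) hJ1.le hPJ.diag
      (by positivity) hPJ.small hPJ.row).trans (le_of_eq ?_)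
    field_simp
    norm_num
  have hmain := hE1 K hK D hD (XS N w a) (VS w H ρ) (MM N w) J χ hPR.nonneg
    (fun d => (by linarith : 1 - κ1 ≤ 1 - min κ (min κ1 (1 / (2 * (J:ℝ))))).trans (hmean d))
    henergy hχ T (fun t i => ⟨e t i, heV t i⟩)
    (fun t i j hij => hinj t (by simpa using hij))
    (fun i v => by
      rw [Fintype.card_coe]
      refine le_trans (le_of_eq ?_) (hdens1 i (v : ℕ))
      congr 2
      ext t
      simp only [mem_filter, mem_univ, true_and]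
      rw [Subtype.ext_iff])
    (fun I v => by
      rw [Fintype.card_coe]
      refine le_trans (le_of_eq ?_) (hdens I (fun i => (v i : ℕ)))
      congr 2
      ext t
      simp only [mem_filter, mem_univ, true_and]
      exact forall_congr' fun i => by rw [Subtype.ext_iff])
  refine le_trans ?_ hmain
  refine Nat.cast_le.mpr (Finset.card_le_card ?_)
  intro t ht
  rw [mem_filter] at ht ⊢
  refine ⟨mem_univ _, ?_⟩
  have h3 := ht.2
  rw [Finset.sum_congr rfl (fun I _ => corr_MM_eq (N := N) (w := w)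
    (fun i => (⟨e t (I i), heV t (I i)⟩ : VS w H ρ))), ← Finset.sum_div, ← Finset.sum_mul,
    div_lt_iff₀ hX]
  rw [lt_div_iff₀ hpos] at h3
  exact h3

end Pool.Agent.HLT
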