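import Mathlib
import Pool.Agent.HLT.ClassAvg

set_option autoImplicit false

open Finset Filter

namespace Pool.Agent.HLT

open Pool.Agent.HL26 Pool.Agent.Maynard

theorem ClassAvgSets_fiber {α : Type} [Fintype α] [DecidableEq α] (r : ℕ) (E : Finset α)
    (hE : E.card = r) :
    (univ.filter (fun f : Fin r ↪ α => univ.map f = E)).card = r.factorial := by
  classical
  have hmem : ∀ (f : Fin r ↪ α), univ.map f = E → ∀ i, f i ∈ E := by
    intro f hf i
    rw [← hf]
    exact Finset.mem_map_of_mem f (Finset.mem_univ i)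
  let e : {f : Fin r ↪ α // univ.map f = E} ≃ (Fin r ≃ E) :=
    { toFun := fun f => Equiv.ofBijective (fun i => (⟨f.1 i, hmem f.1 f.2 i⟩ : E)) (by
        constructor
        · intro i j hij
          exact f.1.injective (congrArg Subtype.val hij)
        · intro y
          have hy : (y : α) ∈ univ.map f.1 := by rw [f.2]; exact y.2
          obtain ⟨i, -, hi⟩ := Finset.mem_map.mp hy
          exact ⟨i, Subtype.ext hi⟩)
      invFun := fun g => ⟨⟨fun i => (g i : α), fun i j hij => g.injective (Subtype.ext hij)⟩, by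
        ext y
        simp only [Finset.mem_map, Finset.mem_univ, true_and, Function.Embedding.coeFn_mk]
        constructor
        · rintro ⟨i, rfl⟩
          exact (g i).2
        · intro hy
          exact ⟨g.symm ⟨y, hy⟩, by simp⟩⟩
      left_inv := by
        intro f
        apply Subtype.ext
        ext i
        rfl
      right_inv := by
        intro g
        ext i
        rfl }
  have h1 : Fintype.card {f : Fin r ↪ α // univ.map f = E} =
      (univ.filter (fun f : Fin r ↪ α => univ.map f = E)).card := Fintype.card_subtype _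
  rw [← h1, Fintype.card_congr e]
  have e0 : Fin r ≃ E := (Finset.equivFinOfCardEq hE).symm
  rw [Fintype.card_equiv e0, Fintype.card_fin]

theorem ClassAvgSets_sum {α : Type} [Fintype α] [DecidableEq α] (r : ℕ) (g : Finset α → ℝ) :
    ∑ f : Fin r ↪ α, g (univ.map f) =
      (r.factorial : ℝ) * ∑ E ∈ powersetCard r (univ : Finset α), g E := by
  classical
  rw [← Finset.sum_fiberwise_of_maps_to (s := (univ : Finset (Fin r ↪ α)))
    (t := powersetCard r (univ : Finset α)) (g := fun f => univ.map f)
    (by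
      intro f _
      rw [Finset.mem_powersetCard]
      exact ⟨Finset.subset_univ _, by simp⟩), Finset.mul_sum]
  apply Finset.sum_congr rfl
  intro E hE
  rw [Finset.sum_congr rfl (fun f hf => by rw [(Finset.mem_filter.mp hf).2] :
    ∀ f ∈ univ.filter (fun f : Fin r ↪ α => univ.map f = E), g (univ.map f) = g E),
    Finset.sum_const, nsmul_eq_mul, ClassAvgSets_fiber r E (Finset.mem_powersetCard.mp hE).2]

theorem ClassAvgSets_count {β : Type} [Fintype β] [DecidableEq β] (s r : ℕ) (I : Fin r ↪ Fin s)
    (u : Fin r ↪ β) :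
    (univ.filter (fun t : Fin s ↪ β => ∀ i, t (I i) = u i)).card * (Fintype.card β).descFactorial r
      = Fintype.card (Fin s ↪ β) := by
  classical
  have hcst : ∀ u' : Fin r ↪ β,
      (univ.filter (fun t : Fin s ↪ β => ∀ i, t (I i) = u' i)).card =
      (univ.filter (fun t : Fin s ↪ β => ∀ i, t (I i) = u i)).card := by
    intro u'
    obtain ⟨σ, hσ⟩ : ∃ σ : Equiv.Perm β, ∀ i, σ (u' i) = u i := by
      have := Equiv.Perm.isMultiplyPretransitive β r
      obtain ⟨σ, hσ⟩ := MulAction.exists_smul_eq (Equiv.Perm β) u' u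
      exact ⟨σ, fun i => by rw [← hσ]; rfl⟩
    apply Finset.card_bij (fun t _ => t.trans σ.toEmbedding)
    · intro t ht
      simp only [Finset.mem_filter, Finset.mem_univ, true_and] at ht ⊢
      intro i
      simp [ht i, hσ i]
    · intro t _ t' _ h
      ext i
      have := congrArg (fun f : Fin s ↪ β => f i) h
      simpa using this
    · intro t ht
      refine ⟨t.trans σ.symm.toEmbedding, ?_, ?_⟩
      · simp only [Finset.mem_filter, Finset.mem_univ, true_and] at ht ⊢
        intro i
        simp [ht i, ← hσ i]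
      · ext i
        simp
  have hpart : Fintype.card (Fin s ↪ β) =
      ∑ u' : Fin r ↪ β, (univ.filter (fun t : Fin s ↪ β => ∀ i, t (I i) = u' i)).card := by
    rw [← Finset.card_univ, Finset.card_eq_sum_card_fiberwise
      (f := fun t : Fin s ↪ β => I.trans t) (t := (univ : Finset (Fin r ↪ β)))
      (fun _ _ => Finset.mem_coe.mpr (Finset.mem_univ _))]
    apply Finset.sum_congr rfl
    intro u' _
    congr 1
    ext t
    simp only [Finset.mem_filter, Finset.mem_univ, true_and]
    constructor
    · rintro rfl i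
      rfl
    · intro h
      exact Function.Embedding.ext (fun i => h i)
  rw [hpart, Finset.sum_congr rfl (fun u' _ => hcst u'), Finset.sum_const, smul_eq_mul,
    Finset.card_univ, Fintype.card_embedding_eq, Fintype.card_fin, mul_comm]

theorem ClassAvgSets_pow {v r : ℕ} (hr : r ≤ v) :
    (v : ℝ) ^ r ≤ (r : ℝ) ^ r * (v.descFactorial r : ℝ) := by
  have h : ∀ j : ℕ, j ≤ r → (v : ℝ) ^ j ≤ (r : ℝ) ^ j * (v.descFactorial j : ℝ) := by
    intro j
    induction j with
    | zero => intro _; simp
    | succ j ih =>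
      intro hj
      have h1 := ih (by omega)
      have h2 : (v : ℝ) ≤ (r : ℝ) * ((v - j : ℕ) : ℝ) := by
        have h3 : v ≤ r * (v - j) := by
          obtain ⟨c, rfl⟩ := Nat.exists_eq_add_of_le hr
          obtain ⟨d, rfl⟩ := Nat.exists_eq_add_of_le hj
          have : j + 1 + d + c - j = 1 + d + c := by omega
          rw [this]
          nlinarith
        exact_mod_cast h3
      rw [Nat.descFactorial_succ, pow_succ, pow_succ]
      push_cast
      calc (v : ℝ) ^ j * v ≤ ((r : ℝ) ^ j * (v.descFactorial j : ℝ)) * ((r : ℝ) * ((v - j : ℕ) : ℝ)) :=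
            mul_le_mul h1 h2 (by positivity) (by positivity)
        _ = (r : ℝ) ^ j * r * (((v - j : ℕ) : ℝ) * (v.descFactorial j : ℝ)) := by ring
  exact h r le_rfl

/-- E3: `class_average` for the `s`-subsets of the class set (`T` = injections `Fin s → VS w H ρ`). -/
theorem class_average_sets (m : ℕ) (hm : 1 ≤ m) (ε : ℝ) (hε : 0 < ε) (hε1 : ε ≤ 1) :
    ∃ K1 : ℕ, m + 1 ≤ K1 ∧ ∃ w0 : ℕ, ∀ w : ℕ, w0 ≤ w → ∃ K0 : ℝ, ∀ A : ℕ, ∀ᶠ N : ℕ in atTop,
    ∀ H : ℕ, K0 * Real.log N ≤ H → (H:ℝ) ≤ (Real.log N) ^ A →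
    ∀ (a : ℕ) (ρ : Finset ℕ), ρ.Nonempty → (∀ r ∈ ρ, r < Wp w ∧ (a + r).Coprime (Wp w)) →
    ∀ s : ℕ, K1 ≤ s →
      ((((VS w H ρ).powersetCard s).filter (fun F =>
        ∑ E ∈ F.powersetCard (m + 1),
          (((XS N w a).filter (fun n => ∀ e ∈ E, (n + e).Prime)).card : ℝ) <
          (1 - ε) * (s.choose (m + 1) : ℝ) * ((XS N w a).card : ℝ) /
            (cW (Wp w) * Real.log N) ^ (m + 1))).card : ℝ) ≤
        ε * ((VS w H ρ).card.choose s : ℝ) := by
  classical
  obtain ⟨K1, hK1, hD⟩ := class_average m hm ε hε hε1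
  refine ⟨K1, hK1, ?_⟩
  obtain ⟨w0, hw0⟩ := hD (((m + 1 : ℕ) : ℝ) ^ (m + 1)) (one_le_pow₀ (by exact_mod_cast Nat.le_add_left 1 m))
  refine ⟨w0, fun w hw => ?_⟩
  obtain ⟨K0, hK0⟩ := hw0 w hw
  refine ⟨K0, fun A => ?_⟩
  filter_upwards [hK0 A] with N hN H hH1 hH2 a ρ hρ hρ2 s hs
  have hms : m + 1 ≤ s := hK1.trans hs
  set V := VS w H ρ with hV
  by_cases hsV : V.card < s
  · rw [Finset.powersetCard_eq_empty.mpr hsV, Finset.filter_empty, Finset.card_empty,
      Nat.choose_eq_zero_of_lt hsV]
    simp
  push_neg at hsV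
  have hVpos : 0 < V.card := by omega
  have hcardV : Fintype.card V = V.card := Fintype.card_coe V
  have hcardT : Fintype.card (Fin s ↪ V) = V.card.descFactorial s := by
    rw [Fintype.card_embedding_eq, Fintype.card_fin, hcardV]
  have hcount := fun (r : ℕ) (I : Fin r ↪ Fin s) (u : Fin r ↪ V) => ClassAvgSets_count s r I u
  have key := hN H hH1 hH2 a ρ hρ hρ2 s hs (Fin s ↪ V) (fun t i => ((t i : V) : ℕ))
    (fun t i => (t i).2) (fun t i j hij => t.injective (Subtype.ext hij)) (by
      intro i v
      have hVr : (0 : ℝ) < (V.card : ℝ) := by exact_mod_cast hVpos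
      rw [← hV, le_div_iff₀ hVr]
      by_cases hv : v ∈ V
      · let I : Fin 1 ↪ Fin s := ⟨fun _ => i, fun x y _ => Subsingleton.elim x y⟩
        let u : Fin 1 ↪ V := ⟨fun _ => ⟨v, hv⟩, fun x y _ => Subsingleton.elim x y⟩
        have h := hcount 1 I u
        rw [hcardV, Nat.descFactorial_one] at h
        have h2 : univ.filter (fun t : Fin s ↪ V => ((t i : V) : ℕ) = v) =
            univ.filter (fun t : Fin s ↪ V => ∀ j, t (I j) = u j) := by
          ext t
          simp only [Finset.mem_filter, Finset.mem_univ, true_and]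
          constructor
          · intro h j
            exact Subtype.ext h
          · intro h
            exact congrArg Subtype.val (h 0)
        rw [h2]
        have h3 : (((univ.filter (fun t : Fin s ↪ V => ∀ j, t (I j) = u j)).card : ℕ) : ℝ) * (V.card : ℝ) =
            (Fintype.card (Fin s ↪ V) : ℝ) := by exact_mod_cast h
        rw [h3]
        have : (0 : ℝ) ≤ (Fintype.card (Fin s ↪ V) : ℝ) := by positivity
        linarith
      · have h2 : univ.filter (fun t : Fin s ↪ V => ((t i : V) : ℕ) = v) = ∅ := by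
          apply Finset.filter_eq_empty_iff.mpr
          intro t _ h
          exact hv (h ▸ (t i).2)
        rw [h2]
        simp) (by
      intro I v
      have hVr : (0 : ℝ) < (V.card : ℝ) ^ (m + 1) := by
        have : (0 : ℝ) < (V.card : ℝ) := by exact_mod_cast hVpos
        positivity
      rw [← hV, le_div_iff₀ hVr]
      by_cases hv : (∀ i, v i ∈ V) ∧ Function.Injective v
      · let u : Fin (m + 1) ↪ V := ⟨fun i => ⟨v i, hv.1 i⟩, fun x y hxy => hv.2 (congrArg Subtype.val hxy)⟩
        have h := hcount (m + 1) I u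
        rw [hcardV] at h
        have h2 : univ.filter (fun t : Fin s ↪ V => ∀ i, ((t (I i) : V) : ℕ) = v i) =
            univ.filter (fun t : Fin s ↪ V => ∀ j, t (I j) = u j) := by
          ext t
          simp only [Finset.mem_filter, Finset.mem_univ, true_and]
          constructor
          · intro h j
            exact Subtype.ext (h j)
          · intro h j
            exact congrArg Subtype.val (h j)
        rw [h2]
        have h3 : (((univ.filter (fun t : Fin s ↪ V => ∀ j, t (I j) = u j)).card : ℕ) : ℝ) *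
            (V.card.descFactorial (m + 1) : ℝ) = (Fintype.card (Fin s ↪ V) : ℝ) := by exact_mod_cast h
        have h4 := ClassAvgSets_pow (v := V.card) (r := m + 1) (hms.trans hsV)
        rw [← h3]
        have h5 : (0 : ℝ) ≤ (((univ.filter (fun t : Fin s ↪ V => ∀ j, t (I j) = u j)).card : ℕ) : ℝ) := by
          positivity
        calc (((univ.filter (fun t : Fin s ↪ V => ∀ j, t (I j) = u j)).card : ℕ) : ℝ) *
              (V.card : ℝ) ^ (m + 1) ≤
              (((univ.filter (fun t : Fin s ↪ V => ∀ j, t (I j) = u j)).card : ℕ) : ℝ) *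
              ((((m + 1 : ℕ) : ℝ)) ^ (m + 1) * (V.card.descFactorial (m + 1) : ℝ)) :=
              mul_le_mul_of_nonneg_left h4 h5
          _ = _ := by ring
      · have h2 : univ.filter (fun t : Fin s ↪ V => ∀ i, ((t (I i) : V) : ℕ) = v i) = ∅ := by
          apply Finset.filter_eq_empty_iff.mpr
          intro t _ h
          apply hv
          refine ⟨fun i => h i ▸ (t (I i)).2, fun i j hij => ?_⟩
          have h3 : t (I i) = t (I j) := Subtype.ext (by rw [h i, h j, hij])
          exact I.injective (t.injective h3)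
        rw [h2]
        simp only [Finset.card_empty, Nat.cast_zero, zero_mul]
        positivity)
  set cnt : Finset ℕ → ℝ := fun E =>
    (((XS N w a).filter (fun n => ∀ e ∈ E, (n + e).Prime)).card : ℝ) with hcnt
  set Z : ℝ := ((XS N w a).card : ℝ) / (cW (Wp w) * Real.log N) ^ (m + 1) with hZ
  have hfac : (0 : ℝ) < ((m + 1).factorial : ℝ) := by exact_mod_cast Nat.factorial_pos _
  have hsfac : (0 : ℝ) < (s.factorial : ℝ) := by exact_mod_cast Nat.factorial_pos _
  let sub : V ↪ ℕ := Function.Embedding.subtype _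
  -- the sum over `I`
  have hsum : ∀ t : Fin s ↪ V, ∑ I : Fin (m + 1) ↪ Fin s,
      (((XS N w a).filter (fun n => ∀ i, (n + ((t (I i) : V) : ℕ)).Prime)).card : ℝ) =
      ((m + 1).factorial : ℝ) * ∑ E ∈ ((univ.map t).map sub).powersetCard (m + 1), cnt E := by
    intro t
    rw [Finset.map_map, Finset.powersetCard_map, Finset.sum_map]
    refine Eq.trans ?_ (ClassAvgSets_sum (m + 1) (fun E => cnt (E.map (t.trans sub))))
    apply Finset.sum_congr rfl
    intro I _
    simp only [hcnt]
    congr 2
    ext n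
    simp [sub]
  have hcardI : (Fintype.card (Fin (m + 1) ↪ Fin s) : ℝ) =
      ((m + 1).factorial : ℝ) * (s.choose (m + 1) : ℝ) := by
    rw [Fintype.card_embedding_eq, Fintype.card_fin, Fintype.card_fin,
      Nat.descFactorial_eq_factorial_mul_choose]
    push_cast
    ring
  have hiff : ∀ t : Fin s ↪ V, (∑ I : Fin (m + 1) ↪ Fin s,
      (((XS N w a).filter (fun n => ∀ i, (n + ((t (I i) : V) : ℕ)).Prime)).card : ℝ) <
        (1 - ε) * (Fintype.card (Fin (m + 1) ↪ Fin s) : ℝ) * ((XS N w a).card : ℝ) /
            (cW (Wp w) * Real.log N) ^ (m + 1)) ↔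
      (∑ E ∈ ((univ.map t).map sub).powersetCard (m + 1), cnt E <
        (1 - ε) * (s.choose (m + 1) : ℝ) * ((XS N w a).card : ℝ) /
            (cW (Wp w) * Real.log N) ^ (m + 1)) := by
    intro t
    rw [hsum t, hcardI]
    have h1 : (1 - ε) * (((m + 1).factorial : ℝ) * (s.choose (m + 1) : ℝ)) * ((XS N w a).card : ℝ) /
            (cW (Wp w) * Real.log N) ^ (m + 1) =
        ((m + 1).factorial : ℝ) * ((1 - ε) * (s.choose (m + 1) : ℝ) * ((XS N w a).card : ℝ) /
            (cW (Wp w) * Real.log N) ^ (m + 1)) := by ring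
    rw [h1]
    exact mul_lt_mul_iff_right₀ hfac
  have hbad : ((univ.filter (fun t : Fin s ↪ V => ∑ I : Fin (m + 1) ↪ Fin s,
      (((XS N w a).filter (fun n => ∀ i, (n + ((t (I i) : V) : ℕ)).Prime)).card : ℝ) <
        (1 - ε) * (Fintype.card (Fin (m + 1) ↪ Fin s) : ℝ) * ((XS N w a).card : ℝ) /
            (cW (Wp w) * Real.log N) ^ (m + 1))).card : ℝ) =
      (s.factorial : ℝ) * (((V.powersetCard s).filter (fun F =>
        ∑ E ∈ F.powersetCard (m + 1), cnt E <
          (1 - ε) * (s.choose (m + 1) : ℝ) * ((XS N w a).card : ℝ) /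
            (cW (Wp w) * Real.log N) ^ (m + 1))).card : ℝ) := by
    rw [Finset.filter_congr (fun t _ => hiff t)]
    have h1 : ((univ.filter (fun t : Fin s ↪ V =>
        (∑ E ∈ ((univ.map t).map sub).powersetCard (m + 1), cnt E <
        (1 - ε) * (s.choose (m + 1) : ℝ) * ((XS N w a).card : ℝ) /
            (cW (Wp w) * Real.log N) ^ (m + 1)))).card : ℝ) =
        ∑ t : Fin s ↪ V, (fun E : Finset V => if (∑ E' ∈ (E.map sub).powersetCard (m + 1), cnt E' <
        (1 - ε) * (s.choose (m + 1) : ℝ) * ((XS N w a).card : ℝ) /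
            (cW (Wp w) * Real.log N) ^ (m + 1)) then (1 : ℝ) else 0) (univ.map t) := by
      rw [Finset.sum_boole]
    rw [h1]
    refine (ClassAvgSets_sum s (fun E : Finset V => if (∑ E' ∈ (E.map sub).powersetCard (m + 1), cnt E' <
        (1 - ε) * (s.choose (m + 1) : ℝ) * ((XS N w a).card : ℝ) /
            (cW (Wp w) * Real.log N) ^ (m + 1)) then (1 : ℝ) else 0)).trans ?_
    rw [Finset.sum_boole]
    congr 2
    have hVmap : V = (univ : Finset V).map sub := by
      ext x
      simp [sub]
    conv_rhs => rw [hVmap]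
    rw [Finset.powersetCard_map, Finset.filter_map, Finset.card_map]
    rfl
  rw [hbad, hcardT, Nat.descFactorial_eq_factorial_mul_choose] at key
  push_cast at key
  have h3 : (s.factorial : ℝ) * (((V.powersetCard s).filter (fun F =>
        ∑ E ∈ F.powersetCard (m + 1), cnt E <
          (1 - ε) * (s.choose (m + 1) : ℝ) * ((XS N w a).card : ℝ) /
            (cW (Wp w) * Real.log N) ^ (m + 1))).card : ℝ) ≤
      (s.factorial : ℝ) * (ε * (V.card.choose s : ℝ)) := by
    calc _ ≤ _ := key
      _ = _ := by ring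
  exact le_of_mul_le_mul_left h3 hsfac

end Pool.Agent.HLT
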