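import Mathlib

set_option autoImplicit false

open Finset

namespace Pool.Agent.HLT

namespace E4aux

/-- number of `K`-subsets of `R` with prescribed trace `F` on `V`. -/
theorem card_trace (R V F : Finset ℕ) (hV : V ⊆ R) (hF : F ⊆ V) (K : ℕ) (hK : F.card ≤ K) :
    ((R.powersetCard K).filter (fun E => E ∩ V = F)).card =
      (R.card - V.card).choose (K - F.card) := by
  classical
  have hcard : (R \ V).card = R.card - V.card := Finset.card_sdiff_of_subset hV
  rw [← hcard, ← Finset.card_powersetCard]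
  refine Finset.card_bij (fun E _ => E \ V) ?_ ?_ ?_
  · intro E hE
    rw [Finset.mem_filter, Finset.mem_powersetCard] at hE
    obtain ⟨⟨hER, hEK⟩, hEV⟩ := hE
    rw [Finset.mem_powersetCard]
    refine ⟨Finset.sdiff_subset_sdiff hER (le_refl V), ?_⟩
    have h1 := Finset.card_sdiff_add_card_inter E V
    rw [hEV] at h1
    omega
  · intro E1 h1 E2 h2 h12
    rw [Finset.mem_filter] at h1 h2
    have e1 : E1 = (E1 \ V) ∪ (E1 ∩ V) := (Finset.sdiff_union_inter E1 V).symm
    have e2 : E2 = (E2 \ V) ∪ (E2 ∩ V) := (Finset.sdiff_union_inter E2 V).symm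
    have h12' : E1 \ V = E2 \ V := h12
    rw [e1, e2, h1.2, h2.2, h12']
  · intro G hG
    rw [Finset.mem_powersetCard] at hG
    obtain ⟨hGR, hGc⟩ := hG
    have hdisj : Disjoint G V := by
      rw [Finset.disjoint_left]
      intro a ha
      exact (Finset.mem_sdiff.mp (hGR ha)).2
    have hGF : Disjoint G F := hdisj.mono_right hF
    refine ⟨G ∪ F, ?_, ?_⟩
    · rw [Finset.mem_filter, Finset.mem_powersetCard]
      refine ⟨⟨?_, ?_⟩, ?_⟩
      · exact Finset.union_subset (hGR.trans Finset.sdiff_subset) (hF.trans hV)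
      · rw [Finset.card_union_of_disjoint hGF, hGc]
        omega
      · rw [Finset.union_inter_distrib_right, Finset.disjoint_iff_inter_eq_empty.mp hdisj,
          Finset.empty_union, Finset.inter_eq_left.mpr hF]
    · show (G ∪ F) \ V = G
      rw [Finset.union_sdiff_distrib, Finset.sdiff_eq_self_of_disjoint hdisj,
        Finset.sdiff_eq_empty_iff_subset.mpr hF, Finset.union_empty]

/-- number of `K`-subsets of `R` containing a given `r`-subset. -/
theorem card_super (R E' : Finset ℕ) (hE : E' ⊆ R) (K : ℕ) (hK : E'.card ≤ K) :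
    ((R.powersetCard K).filter (fun E => E' ⊆ E)).card =
      (R.card - E'.card).choose (K - E'.card) := by
  classical
  rw [← card_trace R E' E' hE (le_refl _) K hK]
  congr 1
  apply Finset.filter_congr
  intro E _
  rw [Finset.inter_eq_right]

end E4aux

/-- E4b: double counting of pairs `E' ⊆ E`. -/
theorem sum_sum_subsets (R : Finset ℕ) (K r : ℕ) (hrK : r ≤ K) (f : Finset ℕ → ℝ) :
    (R.card.choose r : ℝ) * ∑ E ∈ R.powersetCard K, ∑ E' ∈ E.powersetCard r, f E' =
      (R.card.choose K : ℝ) * (K.choose r : ℝ) * ∑ E' ∈ R.powersetCard r, f E' := by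
  classical
  have h1 : ∑ E ∈ R.powersetCard K, ∑ E' ∈ E.powersetCard r, f E' =
      ∑ E' ∈ R.powersetCard r, ∑ E ∈ (R.powersetCard K).filter (fun E => E' ⊆ E), f E' := by
    refine Finset.sum_comm' ?_
    intro E E'
    rw [Finset.mem_filter, Finset.mem_powersetCard, Finset.mem_powersetCard,
      Finset.mem_powersetCard]
    constructor
    · rintro ⟨⟨h1, h2⟩, h3, h4⟩
      exact ⟨⟨⟨h1, h2⟩, h3⟩, h3.trans h1, h4⟩
    · rintro ⟨⟨⟨h1, h2⟩, h3⟩, h4, h5⟩
      exact ⟨⟨h1, h2⟩, h3, h5⟩
  rw [h1]
  have h2 : ∀ E' ∈ R.powersetCard r,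
      ∑ E ∈ (R.powersetCard K).filter (fun E => E' ⊆ E), f E' =
        ((R.card - r).choose (K - r) : ℝ) * f E' := by
    intro E' hE'
    rw [Finset.mem_powersetCard] at hE'
    rw [Finset.sum_const, nsmul_eq_mul, E4aux.card_super R E' hE'.1 K (by omega), hE'.2]
  rw [Finset.sum_congr rfl h2, ← Finset.mul_sum, ← mul_assoc]
  by_cases hKR : K ≤ R.card
  · have h3 : R.card.choose K * K.choose r = R.card.choose r * (R.card - r).choose (K - r) :=
      Nat.choose_mul hrK
    have h4 : ((R.card.choose K : ℕ) : ℝ) * ((K.choose r : ℕ) : ℝ) =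
        ((R.card.choose r : ℕ) : ℝ) * (((R.card - r).choose (K - r) : ℕ) : ℝ) := by
      exact_mod_cast h3
    rw [h4]
  · have h5 : R.card.choose K = 0 := Nat.choose_eq_zero_of_lt (by omega)
    rw [h5]
    by_cases hrR : r ≤ R.card
    · have h6 : (R.card - r).choose (K - r) = 0 := Nat.choose_eq_zero_of_lt (by omega)
      rw [h6]
      simp
    · have h7 : R.card.choose r = 0 := Nat.choose_eq_zero_of_lt (by omega)
      rw [h7]
      simp

namespace E4aux

theorem desc_le (v n r : ℕ) (hv : v ≤ n) :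
    v.descFactorial r * n ^ r ≤ v ^ r * n.descFactorial r := by
  induction r with
  | zero => simp
  | succ k ih =>
    rw [Nat.descFactorial_succ, Nat.descFactorial_succ, pow_succ, pow_succ]
    have h1 : (v - k) * n ≤ v * (n - k) := by
      rcases le_or_gt v k with h | h
      · rw [Nat.sub_eq_zero_of_le h]; simp
      · have e1 : (v - k) * n = v * n - k * n := Nat.sub_mul v k n
        have e2 : v * (n - k) = v * n - v * k := Nat.mul_sub v n k
        rw [e1, e2]
        have : v * k ≤ k * n := by rw [mul_comm v k]; exact Nat.mul_le_mul_left k hv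
        omega
    calc (v - k) * v.descFactorial k * (n ^ k * n)
        = (v.descFactorial k * n ^ k) * ((v - k) * n) := by ring
      _ ≤ (v ^ k * n.descFactorial k) * (v * (n - k)) := Nat.mul_le_mul ih h1
      _ = v ^ k * v * ((n - k) * n.descFactorial k) := by ring

theorem choose_le (v n r : ℕ) (hv : v ≤ n) (hn : 0 < n) :
    ((v.choose r : ℕ) : ℝ) ≤ ((v : ℝ) / (n : ℝ)) ^ r * ((n.choose r : ℕ) : ℝ) := by
  have h := desc_le v n r hv
  rw [Nat.descFactorial_eq_factorial_mul_choose, Nat.descFactorial_eq_factorial_mul_choose] at h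
  have hf : 0 < r.factorial := Nat.factorial_pos r
  have h2 : v.choose r * n ^ r ≤ v ^ r * n.choose r := by
    have h3 : r.factorial * (v.choose r * n ^ r) ≤ r.factorial * (v ^ r * n.choose r) := by
      calc r.factorial * (v.choose r * n ^ r) = r.factorial * v.choose r * n ^ r := by ring
        _ ≤ v ^ r * (r.factorial * n.choose r) := h
        _ = r.factorial * (v ^ r * n.choose r) := by ring
    exact Nat.le_of_mul_le_mul_left h3 hf
  have h4 : ((v.choose r : ℕ) : ℝ) * (n : ℝ) ^ r ≤ (v : ℝ) ^ r * ((n.choose r : ℕ) : ℝ) := by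
    exact_mod_cast h2
  have hn' : (0 : ℝ) < (n : ℝ) ^ r := by positivity
  rw [div_pow, div_mul_eq_mul_div, le_div_iff₀ hn']
  exact h4

open Classical in
/-- regrouping of a sum over `E` of a function of `E ∩ V`. -/
theorem sum_trace (R V : Finset ℕ) (hV : V ⊆ R) (K : ℕ) (g : Finset ℕ → ℝ) :
    ∑ E ∈ R.powersetCard K, g (E ∩ V) =
      ∑ s ∈ Finset.range (K + 1), ((R.card - V.card).choose (K - s) : ℝ) *
        ∑ F ∈ V.powersetCard s, g F := by
  have h1 : ∀ E ∈ R.powersetCard K, (E ∩ V) ∈
      (Finset.range (K + 1)).biUnion (fun s => V.powersetCard s) := by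
    intro E hE
    rw [Finset.mem_powersetCard] at hE
    rw [Finset.mem_biUnion]
    refine ⟨(E ∩ V).card, ?_, ?_⟩
    · rw [Finset.mem_range]
      have := Finset.card_le_card (Finset.inter_subset_left : E ∩ V ⊆ E)
      omega
    · rw [Finset.mem_powersetCard]
      exact ⟨Finset.inter_subset_right, rfl⟩
  rw [← Finset.sum_fiberwise_of_maps_to h1]
  rw [Finset.sum_biUnion]
  · apply Finset.sum_congr rfl
    intro s hs
    rw [Finset.mul_sum]
    apply Finset.sum_congr rfl
    intro F hF
    rw [Finset.mem_powersetCard] at hF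
    rw [Finset.mem_range] at hs
    have h2 : ∑ E ∈ (R.powersetCard K).filter (fun E => E ∩ V = F), g (E ∩ V) =
        ∑ E ∈ (R.powersetCard K).filter (fun E => E ∩ V = F), g F := by
      apply Finset.sum_congr rfl
      intro E hE
      rw [(Finset.mem_filter.mp hE).2]
    rw [h2, Finset.sum_const, nsmul_eq_mul,
      E4aux.card_trace R V F hV hF.1 K (by omega), hF.2]
  · intro s _ t _ hst
    exact Finset.pairwise_disjoint_powersetCard V hst

end E4aux

open Classical in
/-- E4: given `|E ∩ V| = s`, the set `E ∩ V` is uniform among the `s`-subsets of `V`. -/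
theorem cond_bad (R V : Finset ℕ) (hV : V ⊆ R) (hR : 0 < R.card) (K r K1 : ℕ) (hrK : r ≤ K) (ε : ℝ)
    (hε : 0 ≤ ε) (Bad : Finset ℕ → Prop)
    (h : ∀ s : ℕ, K1 ≤ s → (((V.powersetCard s).filter Bad).card : ℝ) ≤ ε * (V.card.choose s : ℝ)) :
    ∑ E ∈ R.powersetCard K,
      (if K1 ≤ (E ∩ V).card ∧ Bad (E ∩ V) then ((E ∩ V).card.choose r : ℝ) else 0) ≤
      ε * ((V.card : ℝ) / (R.card : ℝ)) ^ r * (R.card.choose K : ℝ) * (K.choose r : ℝ) := by
  -- comparison with the sum over all sets
  have step1 : ∑ E ∈ R.powersetCard K,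
      (if K1 ≤ (E ∩ V).card ∧ Bad (E ∩ V) then ((E ∩ V).card.choose r : ℝ) else 0) ≤
      ε * ∑ E ∈ R.powersetCard K, ((E ∩ V).card.choose r : ℝ) := by
    rw [E4aux.sum_trace R V hV K (fun F => if K1 ≤ F.card ∧ Bad F then (F.card.choose r : ℝ) else 0),
      E4aux.sum_trace R V hV K (fun F => (F.card.choose r : ℝ)), Finset.mul_sum]
    apply Finset.sum_le_sum
    intro s _
    have hs : ∑ F ∈ V.powersetCard s,
        (if K1 ≤ F.card ∧ Bad F then (F.card.choose r : ℝ) else 0) ≤
        ε * ∑ F ∈ V.powersetCard s, (F.card.choose r : ℝ) := by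
      have e1 : ∑ F ∈ V.powersetCard s, (F.card.choose r : ℝ) =
          (V.card.choose s : ℝ) * (s.choose r : ℝ) := by
        rw [Finset.sum_congr rfl (g := fun _ => (s.choose r : ℝ))]
        · rw [Finset.sum_const, Finset.card_powersetCard, nsmul_eq_mul]
        · intro F hF
          rw [(Finset.mem_powersetCard.mp hF).2]
      rw [e1]
      by_cases hK1 : K1 ≤ s
      · have e2 : ∑ F ∈ V.powersetCard s,
            (if K1 ≤ F.card ∧ Bad F then (F.card.choose r : ℝ) else 0) =
            (((V.powersetCard s).filter Bad).card : ℝ) * (s.choose r : ℝ) := by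
          rw [← nsmul_eq_mul, ← Finset.sum_const, Finset.sum_filter]
          apply Finset.sum_congr rfl
          intro F hF
          rw [(Finset.mem_powersetCard.mp hF).2]
          by_cases hB : Bad F
          · rw [if_pos ⟨hK1, hB⟩, if_pos hB]
          · rw [if_neg (fun hh => hB hh.2), if_neg hB]
        rw [e2, ← mul_assoc]
        exact mul_le_mul_of_nonneg_right (h s hK1) (Nat.cast_nonneg _)
      · have e3 : ∑ F ∈ V.powersetCard s,
            (if K1 ≤ F.card ∧ Bad F then (F.card.choose r : ℝ) else 0) = 0 := by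
          apply Finset.sum_eq_zero
          intro F hF
          rw [(Finset.mem_powersetCard.mp hF).2, if_neg (fun hh => hK1 hh.1)]
        rw [e3]
        positivity
    calc ((R.card - V.card).choose (K - s) : ℝ) * ∑ F ∈ V.powersetCard s,
          (if K1 ≤ F.card ∧ Bad F then (F.card.choose r : ℝ) else 0)
        ≤ ((R.card - V.card).choose (K - s) : ℝ) *
          (ε * ∑ F ∈ V.powersetCard s, (F.card.choose r : ℝ)) :=
          mul_le_mul_of_nonneg_left hs (Nat.cast_nonneg _)
      _ = ε * (((R.card - V.card).choose (K - s) : ℝ) *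
          ∑ F ∈ V.powersetCard s, (F.card.choose r : ℝ)) := by ring
  -- the full sum
  have step2 : (R.card.choose r : ℝ) * ∑ E ∈ R.powersetCard K, ((E ∩ V).card.choose r : ℝ) =
      (R.card.choose K : ℝ) * (K.choose r : ℝ) * (V.card.choose r : ℝ) := by
    have := sum_sum_subsets R K r hrK (fun E' => if E' ⊆ V then (1 : ℝ) else 0)
    have e4 : ∀ E : Finset ℕ, ∑ E' ∈ E.powersetCard r, (if E' ⊆ V then (1 : ℝ) else 0) =
        ((E ∩ V).card.choose r : ℝ) := by
      intro E
      rw [← Finset.sum_filter, Finset.sum_const, nsmul_eq_mul, mul_one, ← Finset.card_powersetCard]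
      congr 2
      ext E'
      rw [Finset.mem_filter, Finset.mem_powersetCard, Finset.mem_powersetCard,
        Finset.subset_inter_iff]
      tauto
    simp only [e4] at this
    rw [this, Finset.inter_eq_right.mpr hV]
  by_cases hrR : r ≤ R.card
  · have hpos : (0 : ℝ) < (R.card.choose r : ℝ) := by
      exact_mod_cast Nat.choose_pos hrR
    have hVR : V.card ≤ R.card := Finset.card_le_card hV
    have h5 := E4aux.choose_le V.card R.card r hVR hR
    have h6 : ∑ E ∈ R.powersetCard K, ((E ∩ V).card.choose r : ℝ) ≤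
        ((V.card : ℝ) / (R.card : ℝ)) ^ r * ((R.card.choose K : ℝ) * (K.choose r : ℝ)) := by
      refine le_of_mul_le_mul_left ?_ hpos
      rw [step2]
      calc (R.card.choose K : ℝ) * (K.choose r : ℝ) * (V.card.choose r : ℝ)
          ≤ (R.card.choose K : ℝ) * (K.choose r : ℝ) *
            (((V.card : ℝ) / (R.card : ℝ)) ^ r * (R.card.choose r : ℝ)) :=
            mul_le_mul_of_nonneg_left h5 (by positivity)
        _ = (R.card.choose r : ℝ) * (((V.card : ℝ) / (R.card : ℝ)) ^ r *
            ((R.card.choose K : ℝ) * (K.choose r : ℝ))) := by ring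
    calc ∑ E ∈ R.powersetCard K,
          (if K1 ≤ (E ∩ V).card ∧ Bad (E ∩ V) then ((E ∩ V).card.choose r : ℝ) else 0)
        ≤ ε * ∑ E ∈ R.powersetCard K, ((E ∩ V).card.choose r : ℝ) := step1
      _ ≤ ε * (((V.card : ℝ) / (R.card : ℝ)) ^ r *
            ((R.card.choose K : ℝ) * (K.choose r : ℝ))) := mul_le_mul_of_nonneg_left h6 hε
      _ = ε * ((V.card : ℝ) / (R.card : ℝ)) ^ r * (R.card.choose K : ℝ) * (K.choose r : ℝ) := by
            ring
  · have hKR : R.card < K := by omega
    rw [Finset.powersetCard_eq_empty.mpr hKR, Finset.sum_empty]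
    positivity

end Pool.Agent.HLT
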