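import Mathlib
import Pool.Agent.HLT.ClassAvgSets
import Pool.Agent.HLT.CondCount
import Pool.Agent.HLT.RowMoment
import Pool.Agent.HLT.PrimesClass
import Pool.Agent.HL26.Assemble

set_option autoImplicit false

open Finset Filter

namespace Pool.Agent.HLT

open Pool.Agent.HL26 Pool.Agent.Maynard

namespace E6aux

lemma Wp_pos (w : ℕ) : 0 < Wp w := Finset.prod_pos fun p hp => (PPy_prime w p hp).pos

instance Wp_neZero (w : ℕ) : NeZero (Wp w) := ⟨(Wp_pos w).ne'⟩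

lemma cW_pos' (w : ℕ) : 0 < cW (Wp w) := by
  unfold cW
  have h1 : (0:ℝ) < Wp w := by exact_mod_cast Wp_pos w
  have h2 : (0:ℝ) < ((Wp w).totient : ℝ) := by exact_mod_cast Nat.totient_pos.2 (Wp_pos w)
  positivity

/-- residues `r < W` with `a + r` coprime to `W` -/
def rho (w a : ℕ) : Finset ℕ := (Finset.range (Wp w)).filter (fun r => (a + r).Coprime (Wp w))

lemma rho_card (w a : ℕ) : (rho w a).card = (Wp w).totient := by
  rw [← Nat.filter_coprime_Ico_eq_totient (Wp w) a]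
  unfold rho
  refine Finset.card_bij (fun r _ => a + r) ?_ ?_ ?_
  · intro r hr
    rw [Finset.mem_filter, Finset.mem_range] at hr
    rw [Finset.mem_filter, Finset.mem_Ico]
    exact ⟨⟨by omega, by omega⟩, hr.2.symm⟩
  · intro r _ s _ h
    omega
  · intro n hn
    rw [Finset.mem_filter, Finset.mem_Ico] at hn
    refine ⟨n - a, ?_, by omega⟩
    rw [Finset.mem_filter, Finset.mem_range]
    refine ⟨by omega, ?_⟩
    rw [Nat.add_sub_cancel' hn.1.1]
    exact hn.2.symm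

lemma rho_nonempty (w a : ℕ) : (rho w a).Nonempty := by
  rw [← Finset.card_pos, rho_card]
  exact Nat.totient_pos.2 (Wp_pos w)

lemma rho_mem (w a : ℕ) : ∀ r ∈ rho w a, r < Wp w ∧ (a + r).Coprime (Wp w) := by
  intro r hr
  rw [rho, Finset.mem_filter, Finset.mem_range] at hr
  exact hr

open Classical in
lemma inter_VS (w H : ℕ) (c : ZMod (Wp w)) (E : Finset ℕ) (hE : E ⊆ Finset.range (H + 1)) :
    E ∩ VS w H (rho w c.val) = E.filter (fun b : ℕ => IsUnit (c + (b : ZMod (Wp w)))) := by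
  ext d
  rw [Finset.mem_inter, Finset.mem_filter, VS, Finset.mem_filter, rho, Finset.mem_filter,
    Finset.mem_range]
  have h1 : ((c.val + d % Wp w : ℕ) : ZMod (Wp w)) = c + (d : ZMod (Wp w)) := by
    push_cast
    rw [ZMod.natCast_zmod_val, ZMod.natCast_mod]
  rw [← ZMod.isUnit_iff_coprime, h1]
  constructor
  · rintro ⟨h1, -, -, h3⟩
    exact ⟨h1, h3⟩
  · rintro ⟨h1, h3⟩
    exact ⟨h1, Finset.mem_range.1 (hE h1), Finset.mem_range.2 (Nat.mod_lt _ (Wp_pos w)), h3⟩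

lemma card_units_eq' (PP : Finset ℕ) (hPP : ∀ p ∈ PP, p.Prime) (P : ℕ) (hP : P = ∏ p ∈ PP, p) [NeZero P]
    (E : Finset ℕ) [DecidablePred fun c : ZMod P => ∀ e ∈ E, IsUnit (c + (e : ZMod P))] :
    (Finset.univ.filter (fun c : ZMod P => ∀ e ∈ E, IsUnit (c + (e : ZMod P)))).card
      = ∏ p ∈ PP, (p - nu E p) := by
  subst hP
  exact card_units_eq PP hPP E

lemma SP_eq' (PP : Finset ℕ) (hPP : ∀ p ∈ PP, p.Prime) (P : ℕ) (hP : P = ∏ p ∈ PP, p) (E : Finset ℕ) :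
    ((∏ p ∈ PP, (p - nu E p) : ℕ) : ℝ) = (P:ℝ) * cW P ^ E.card * SP PP E := by
  have hW : (0:ℝ) < P := by
    rw [hP]
    exact_mod_cast Finset.prod_pos fun p hp => (hPP p hp).pos
  have hφ : (0:ℝ) < (P.totient : ℝ) := by
    rw [hP]
    exact_mod_cast Nat.totient_pos.2 (Finset.prod_pos fun p hp => (hPP p hp).pos)
  rw [SP_eq PP hPP E, ← hP]
  unfold cW
  rw [div_pow, div_pow]
  field_simp

open Classical in
lemma Q_eq' (PP : Finset ℕ) (hPP : ∀ p ∈ PP, p.Prime) (P : ℕ) (hP : P = ∏ p ∈ PP, p) [NeZero P] (r : ℕ)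
    (E : Finset ℕ) :
    ∑ c : ZMod P, (((E.filter (fun b : ℕ => IsUnit (c + (b : ZMod P)))).card.choose r : ℕ) : ℝ) =
      (P : ℝ) * cW P ^ r * ∑ E' ∈ E.powersetCard r, SP PP E' := by
  have h1 := sum_choose_eq (Finset.univ : Finset (ZMod P)) E
    (fun c b => IsUnit (c + (b : ZMod P))) r
  rw [← Nat.cast_sum, h1, Nat.cast_sum, Finset.mul_sum]
  refine Finset.sum_congr rfl fun E' hE' => ?_
  rw [card_units_eq' PP hPP P hP E', SP_eq' PP hPP P hP E', (Finset.mem_powersetCard.mp hE').2]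

open Classical in
lemma Q_eq (w r : ℕ) (E : Finset ℕ) :
    ∑ c : ZMod (Wp w), (((E.filter (fun b : ℕ => IsUnit (c + (b : ZMod (Wp w))))).card.choose r : ℕ) : ℝ) =
      (Wp w : ℝ) * cW (Wp w) ^ r * ∑ E' ∈ E.powersetCard r, SP (PPy w) E' :=
  Q_eq' (PPy w) (PPy_prime w) (Wp w) rfl r E

/-- splitting of `(N, 2N]` into classes -/
lemma sum_classes (N w : ℕ) (E' : Finset ℕ) :
    ∑ c : ZMod (Wp w), (((XS N w c.val).filter (fun n => ∀ e ∈ E', (n + e).Prime)).card : ℝ) =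
      (((Finset.Ioc N (2 * N)).filter (fun n => ∀ e ∈ E', (n + e).Prime)).card : ℝ) := by
  classical
  rw [Finset.card_eq_sum_card_fiberwise (f := fun n : ℕ => (n : ZMod (Wp w))) (t := Finset.univ)
    (fun _ _ => Finset.mem_coe.2 (Finset.mem_univ _)), Nat.cast_sum]
  refine Finset.sum_congr rfl fun c _ => ?_
  congr 2
  ext n
  simp only [XS, Finset.mem_filter]
  have h : n ≡ c.val [MOD Wp w] ↔ ((n : ℕ) : ZMod (Wp w)) = c := by
    rw [← ZMod.natCast_eq_natCast_iff, ZMod.natCast_zmod_val]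
  rw [h]
  tauto

/-- the bad sets of one class -/
def Bad (N w r : ℕ) (L ε2 : ℝ) (a : ℕ) (F : Finset ℕ) : Prop :=
  ∑ E' ∈ F.powersetCard r, (((XS N w a).filter (fun n => ∀ e ∈ E', (n + e).Prime)).card : ℝ) <
    (1 - ε2) * (F.card.choose r : ℝ) * ((XS N w a).card : ℝ) / (cW (Wp w) * L) ^ r

open Classical in
lemma det (N w H r K1 K : ℕ) (L ε2 ε3 : ℝ) (hL : 0 < L) (h2' : ε2 ≤ 1) (h3 : 0 < ε3)
    (E : Finset ℕ) (hE : E ⊆ Finset.range (H + 1))
    (hX : ∀ a, (1 - ε2) * ((N:ℝ) / Wp w) ≤ ((XS N w a).card : ℝ))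
    (hSP : (1/2) * (K.choose r : ℝ) ≤ ∑ E' ∈ E.powersetCard r, SP (PPy w) E')
    (hK1 : (K1.choose r : ℝ) ≤ ε3 * ((1/2) * cW (Wp w) ^ r * (K.choose r : ℝ)))
    (hlost : ∑ c : ZMod (Wp w), (if K1 ≤ (E ∩ VS w H (rho w c.val)).card ∧
        Bad N w r L ε2 c.val (E ∩ VS w H (rho w c.val))
        then ((E ∩ VS w H (rho w c.val)).card.choose r : ℝ) else 0) ≤
      ε3 * ((Wp w : ℝ) * ((1/2) * cW (Wp w) ^ r * (K.choose r : ℝ)))) :
    (1 - ε2) ^ 2 * (1 - 2 * ε3) * ((N:ℝ) / L ^ r) * ∑ E' ∈ E.powersetCard r, SP (PPy w) E' ≤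
      ∑ E' ∈ E.powersetCard r,
        (((Finset.Ioc N (2 * N)).filter (fun n => ∀ e ∈ E', (n + e).Prime)).card : ℝ) := by
  set W := Wp w with hW
  have hWpos : (0:ℝ) < (W:ℝ) := by exact_mod_cast Wp_pos w
  have hφ : 0 < cW W := cW_pos' w
  set V : ZMod W → Finset ℕ := fun c => VS w H (rho w c.val) with hV
  set Q : ℝ := ∑ c : ZMod W, ((E ∩ V c).card.choose r : ℝ) with hQ
  set S : ℝ := ∑ E' ∈ E.powersetCard r, SP (PPy w) E' with hS
  have hQeq : Q = (W:ℝ) * cW W ^ r * S := by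
    rw [hQ, hS, ← Q_eq w r E]
    refine Finset.sum_congr rfl fun c _ => ?_
    rw [hV]
    simp only
    rw [inter_VS w H c E hE]
  have hQlow : (W:ℝ) * ((1/2) * cW W ^ r * (K.choose r : ℝ)) ≤ Q := by
    rw [hQeq]
    have : (W:ℝ) * cW W ^ r * ((1/2) * (K.choose r : ℝ)) ≤ (W:ℝ) * cW W ^ r * S :=
      mul_le_mul_of_nonneg_left hSP (by positivity)
    linarith
  have hS0 : 0 ≤ S := le_trans (by positivity) hSP
  -- termwise lower bound
  set X : ℝ := ((N:ℝ) / W) / (cW W * L) ^ r with hXdef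
  have hX0 : 0 ≤ X := by positivity
  have hterm : ∀ c : ZMod W, (1 - ε2) ^ 2 * X * (((E ∩ V c).card.choose r : ℝ) -
      (if K1 ≤ (E ∩ V c).card ∧ Bad N w r L ε2 c.val (E ∩ V c) then ((E ∩ V c).card.choose r : ℝ) else 0)
      - (K1.choose r : ℝ)) ≤
      ∑ E' ∈ E.powersetCard r, (((XS N w c.val).filter (fun n => ∀ e ∈ E', (n + e).Prime)).card : ℝ) := by
    intro c
    have hnn : 0 ≤ ∑ E' ∈ E.powersetCard r,
        (((XS N w c.val).filter (fun n => ∀ e ∈ E', (n + e).Prime)).card : ℝ) :=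
      Finset.sum_nonneg fun _ _ => Nat.cast_nonneg _
    have hK0 : (0:ℝ) ≤ (K1.choose r : ℝ) := Nat.cast_nonneg _
    have hc0 : 0 ≤ (1 - ε2) ^ 2 * X := by positivity
    by_cases hb : K1 ≤ (E ∩ V c).card ∧ Bad N w r L ε2 c.val (E ∩ V c)
    · rw [if_pos hb]
      refine le_trans (mul_nonpos_of_nonneg_of_nonpos hc0 (by linarith)) hnn
    · rw [if_neg hb]
      by_cases hk : K1 ≤ (E ∩ V c).card
      · have hnb : ¬ Bad N w r L ε2 c.val (E ∩ V c) := fun h => hb ⟨hk, h⟩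
        unfold Bad at hnb
        push Not at hnb
        have h5 : ∑ E' ∈ (E ∩ V c).powersetCard r,
            (((XS N w c.val).filter (fun n => ∀ e ∈ E', (n + e).Prime)).card : ℝ) ≤
            ∑ E' ∈ E.powersetCard r,
            (((XS N w c.val).filter (fun n => ∀ e ∈ E', (n + e).Prime)).card : ℝ) :=
          Finset.sum_le_sum_of_subset_of_nonneg (Finset.powersetCard_mono Finset.inter_subset_left)
            fun _ _ _ => Nat.cast_nonneg _
        refine le_trans ?_ (hnb.trans h5)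
        have h6 := hX c.val
        have h7 : (0:ℝ) ≤ ((E ∩ V c).card.choose r : ℝ) := Nat.cast_nonneg _
        calc (1 - ε2) ^ 2 * X * (((E ∩ V c).card.choose r : ℝ) - 0 - (K1.choose r : ℝ))
            ≤ (1 - ε2) ^ 2 * X * ((E ∩ V c).card.choose r : ℝ) :=
              mul_le_mul_of_nonneg_left (by linarith) hc0
          _ = (1 - ε2) * ((E ∩ V c).card.choose r : ℝ) * ((1 - ε2) * ((N:ℝ) / W)) / (cW W * L) ^ r := by
              rw [hXdef]; ring
          _ ≤ _ := by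
              have : 0 ≤ (1 - ε2) * ((E ∩ V c).card.choose r : ℝ) := mul_nonneg (by linarith) h7
              gcongr
      · have : (E ∩ V c).card.choose r ≤ K1.choose r := Nat.choose_le_choose r (by omega)
        have h8 : ((E ∩ V c).card.choose r : ℝ) ≤ (K1.choose r : ℝ) := by exact_mod_cast this
        refine le_trans (mul_nonpos_of_nonneg_of_nonpos hc0 (by linarith)) hnn
  have hsum := Finset.sum_le_sum fun c (_ : c ∈ (Finset.univ : Finset (ZMod W))) => hterm c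
  rw [Finset.sum_comm, Finset.sum_congr rfl (fun E' _ => sum_classes N w E')] at hsum
  refine le_trans ?_ hsum
  rw [← Finset.mul_sum, Finset.sum_sub_distrib, Finset.sum_sub_distrib, Finset.sum_const,
    Finset.card_univ, ZMod.card, nsmul_eq_mul, ← hQ]
  have hcomb : (1 - 2 * ε3) * Q ≤ Q - (∑ c : ZMod W, (if K1 ≤ (E ∩ V c).card ∧
      Bad N w r L ε2 c.val (E ∩ V c) then ((E ∩ V c).card.choose r : ℝ) else 0)) -
      (W:ℝ) * (K1.choose r : ℝ) := by
    have h9 : (W:ℝ) * (K1.choose r : ℝ) ≤ ε3 * Q := by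
      calc (W:ℝ) * (K1.choose r : ℝ) ≤ (W:ℝ) * (ε3 * ((1/2) * cW W ^ r * (K.choose r : ℝ))) :=
            mul_le_mul_of_nonneg_left hK1 hWpos.le
        _ = ε3 * ((W:ℝ) * ((1/2) * cW W ^ r * (K.choose r : ℝ))) := by ring
        _ ≤ ε3 * Q := mul_le_mul_of_nonneg_left hQlow h3.le
    have h10 := hlost.trans (mul_le_mul_of_nonneg_left hQlow h3.le)
    linarith
  calc (1 - ε2) ^ 2 * (1 - 2 * ε3) * ((N:ℝ) / L ^ r) * S
      = (1 - ε2) ^ 2 * X * ((1 - 2 * ε3) * Q) := by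
        rw [hXdef, hQeq, mul_pow]
        have : cW W ^ r ≠ 0 := (pow_pos hφ r).ne'
        field_simp
    _ ≤ _ := mul_le_mul_of_nonneg_left hcomb (by positivity)


open Classical in
/-- Markov step: the exceptional sets of all classes together -/
lemma markov (m w H K K1 : ℕ) (N : ℕ) (L ε2 ε3 : ℝ) (h3 : 0 < ε3) (h2 : 0 ≤ ε2)
    (hH : 2 * Wp w ≤ H) (hmK : m + 1 ≤ K)
    (hcls : ∀ a s : ℕ, K1 ≤ s → ((((VS w H (rho w a)).powersetCard s).filter
      (fun F => Bad N w (m + 1) L ε2 a F)).card : ℝ) ≤ ε2 * ((VS w H (rho w a)).card.choose s : ℝ)) :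
    ((((Finset.range (H + 1)).powersetCard K).filter (fun E =>
      ε3 * ((Wp w : ℝ) * ((1/2) * cW (Wp w) ^ (m + 1) * (K.choose (m + 1) : ℝ))) <
      ∑ c : ZMod (Wp w), (if K1 ≤ (E ∩ VS w H (rho w c.val)).card ∧
        Bad N w (m + 1) L ε2 c.val (E ∩ VS w H (rho w c.val))
        then ((E ∩ VS w H (rho w c.val)).card.choose (m + 1) : ℝ) else 0))).card : ℝ) ≤
      (2 ^ (m + 2) * ε2 / ε3) * ((H + 1).choose K : ℝ) := by
  set W := Wp w with hW
  have hWpos : (0:ℝ) < (W:ℝ) := by exact_mod_cast Wp_pos w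
  have hφ : 0 < cW W := cW_pos' w
  have hKc : (0:ℝ) < (K.choose (m + 1) : ℝ) := by exact_mod_cast Nat.choose_pos hmK
  set t : ℝ := ε3 * ((W : ℝ) * ((1/2) * cW W ^ (m + 1) * (K.choose (m + 1) : ℝ))) with ht
  have ht0 : 0 < t := by positivity
  set f : Finset ℕ → ℝ := fun E => ∑ c : ZMod W, (if K1 ≤ (E ∩ VS w H (rho w c.val)).card ∧
        Bad N w (m + 1) L ε2 c.val (E ∩ VS w H (rho w c.val))
        then ((E ∩ VS w H (rho w c.val)).card.choose (m + 1) : ℝ) else 0) with hf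
  have hf0 : ∀ E, 0 ≤ f E := by
    intro E
    refine Finset.sum_nonneg fun c _ => ?_
    split_ifs
    · exact Nat.cast_nonneg _
    · exact le_rfl
  have hRc : (Finset.range (H + 1)).card = H + 1 := Finset.card_range _
  have hHR : (0:ℝ) < (H:ℝ) + 1 := by positivity
  have htot : ∑ E ∈ (Finset.range (H + 1)).powersetCard K, f E ≤
      (W:ℝ) * (ε2 * (2 * cW W) ^ (m + 1) * ((H + 1).choose K : ℝ) * (K.choose (m + 1) : ℝ)) := by
    rw [hf, Finset.sum_comm]
    have hone : ∀ c : ZMod W, ∑ E ∈ (Finset.range (H + 1)).powersetCard K,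
        (if K1 ≤ (E ∩ VS w H (rho w c.val)).card ∧
        Bad N w (m + 1) L ε2 c.val (E ∩ VS w H (rho w c.val))
        then ((E ∩ VS w H (rho w c.val)).card.choose (m + 1) : ℝ) else 0) ≤
        ε2 * (2 * cW W) ^ (m + 1) * ((H + 1).choose K : ℝ) * (K.choose (m + 1) : ℝ) := by
      intro c
      have h := cond_bad (Finset.range (H + 1)) (VS w H (rho w c.val)) (Finset.filter_subset _ _)
        (by rw [hRc]; omega) K (m + 1) K1 hmK ε2 h2 (Bad N w (m + 1) L ε2 c.val) (hcls c.val)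
      refine h.trans ?_
      rw [hRc]
      have hV := (card_VS w H (rho w c.val) (fun r hr => (rho_mem w c.val r hr).1) hH).2
      rw [rho_card] at hV
      have h5 : ((VS w H (rho w c.val)).card : ℝ) / ((H + 1 : ℕ) : ℝ) ≤ 2 * cW W := by
        push_cast
        rw [div_le_iff₀ hHR]
        calc ((VS w H (rho w c.val)).card : ℝ) ≤ ((Wp w).totient : ℝ) * (2 * (H:ℝ) / Wp w) := hV
          _ = 2 * cW W * H := by unfold cW; rw [← hW]; ring
          _ ≤ 2 * cW W * ((H:ℝ) + 1) := by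
              apply mul_le_mul_of_nonneg_left _ (by positivity)
              linarith
      have h6 : (0:ℝ) ≤ ((VS w H (rho w c.val)).card : ℝ) / ((H + 1 : ℕ) : ℝ) := by positivity
      gcongr
    refine (Finset.sum_le_sum fun c _ => hone c).trans (le_of_eq ?_)
    rw [Finset.sum_const, Finset.card_univ, ZMod.card, nsmul_eq_mul]
  have hmark : t * ((((Finset.range (H + 1)).powersetCard K).filter (fun E => t < f E)).card : ℝ) ≤
      ∑ E ∈ (Finset.range (H + 1)).powersetCard K, f E := by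
    calc t * ((((Finset.range (H + 1)).powersetCard K).filter (fun E => t < f E)).card : ℝ)
        = ∑ E ∈ ((Finset.range (H + 1)).powersetCard K).filter (fun E => t < f E), t := by
          rw [Finset.sum_const, nsmul_eq_mul]; ring
      _ ≤ ∑ E ∈ ((Finset.range (H + 1)).powersetCard K).filter (fun E => t < f E), f E :=
          Finset.sum_le_sum fun E hE => (Finset.mem_filter.1 hE).2.le
      _ ≤ _ := Finset.sum_le_sum_of_subset_of_nonneg (Finset.filter_subset _ _) fun E _ _ => hf0 E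
  have h7 := hmark.trans htot
  have h8 : ((((Finset.range (H + 1)).powersetCard K).filter (fun E => t < f E)).card : ℝ) ≤
      ((W:ℝ) * (ε2 * (2 * cW W) ^ (m + 1) * ((H + 1).choose K : ℝ) * (K.choose (m + 1) : ℝ))) / t := by
    rw [le_div_iff₀ ht0, mul_comm]
    exact h7
  refine h8.trans (le_of_eq ?_)
  rw [ht, mul_pow]
  have : cW W ^ (m + 1) ≠ 0 := (pow_pos hφ _).ne'
  field_simp
  ring

end E6aux

open E6aux


/-- E6: one dyadic block. -/
theorem block_lower (m : ℕ) (hm : 1 ≤ m) (ε : ℝ) (hε : 0 < ε) (hε1 : ε ≤ 1) :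
    ∃ w1 : ℕ, ∀ w : ℕ, w1 ≤ w → ∃ K2 : ℕ, m + 1 ≤ K2 ∧ ∀ K : ℕ, K2 ≤ K → ∃ K0 : ℝ, ∀ A : ℕ,
    ∀ᶠ N : ℕ in atTop, ∀ H : ℕ, K0 * Real.log N ≤ H → (H:ℝ) ≤ (Real.log N) ^ A →
      ((((Finset.range (H + 1)).powersetCard K).filter (fun E =>
        ∑ E' ∈ E.powersetCard (m + 1),
          (((Finset.Ioc N (2 * N)).filter (fun n => ∀ e ∈ E', (n + e).Prime)).card : ℝ) <
        (1 - ε) * ((N:ℝ) / (Real.log N) ^ (m + 1)) *
          ∑ E' ∈ E.powersetCard (m + 1), SP (PPy w) E')).card : ℝ) ≤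
        ε * ((H + 1).choose K : ℝ) := by
  classical
  set ε3 : ℝ := ε / 8 with hε3
  set ε2 : ℝ := ε * ε3 / 2 ^ (m + 4) with hε2
  have h3 : 0 < ε3 := by positivity
  have h2 : 0 < ε2 := by positivity
  have hpow : (16:ℝ) ≤ 2 ^ (m + 4) := by
    calc (16:ℝ) = 2 ^ 4 := by norm_num
      _ ≤ 2 ^ (m + 4) := pow_le_pow_right₀ (by norm_num) (by omega)
  have h2s : ε2 ≤ ε / 128 := by
    rw [hε2, hε3, div_le_iff₀ (by positivity)]
    nlinarith
  have h2' : ε2 ≤ 1 := by linarith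
  obtain ⟨K1, hK1m, w0, hw0⟩ := class_average_sets m hm ε2 h2 h2'
  refine ⟨w0, fun w hw => ?_⟩
  obtain ⟨K0, hK0⟩ := hw0 w hw
  set W := Wp w with hW
  have hWn := Wp_pos w
  have hWpos : (0:ℝ) < (W:ℝ) := by exact_mod_cast hWn
  have hφ : 0 < cW W := cW_pos' w
  -- choice of `K2`
  have hchoose : Tendsto (fun K : ℕ => ((K.choose (m + 1) : ℕ) : ℝ)) atTop atTop := by
    have h5 : Tendsto (fun K : ℕ => (((K + 1 - (m + 1) : ℕ) : ℝ) ^ (m + 1)) / ((m + 1).factorial : ℝ))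
        atTop atTop := by
      refine Tendsto.atTop_div_const (by positivity) ?_
      refine (tendsto_pow_atTop (by omega)).comp ?_
      refine tendsto_natCast_atTop_atTop.comp ?_
      exact (tendsto_sub_atTop_nat (m + 1)).comp (tendsto_add_atTop_nat 1)
    refine tendsto_atTop_mono (fun K => ?_) h5
    exact Nat.pow_le_choose (m + 1) K
  have hev : ∀ᶠ K : ℕ in atTop, m + 1 ≤ K ∧ 2 * ((m + 1 : ℝ) * m) ≤ K * cW W ∧
      (K1.choose (m + 1) : ℝ) ≤ ε3 * ((1/2) * cW W ^ (m + 1) * (K.choose (m + 1) : ℝ)) := by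
    have e1 : ∀ᶠ K : ℕ in atTop, 2 * ((m + 1 : ℝ) * m) / cW W ≤ (K:ℝ) :=
      tendsto_natCast_atTop_atTop.eventually_ge_atTop _
    have e2 := hchoose.eventually_ge_atTop ((K1.choose (m + 1) : ℝ) / (ε3 * ((1/2) * cW W ^ (m + 1))))
    filter_upwards [eventually_ge_atTop (m + 1), e1, e2] with K a1 a2 a3
    refine ⟨a1, ?_, ?_⟩
    · rwa [div_le_iff₀ hφ] at a2
    · rw [div_le_iff₀ (by positivity)] at a3
      linarith
  obtain ⟨K2, hK2⟩ := Filter.eventually_atTop.1 hev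
  refine ⟨max K2 (m + 1), le_max_right _ _, fun K hK => ?_⟩
  obtain ⟨hmK, hKφ, hKK1⟩ := hK2 K ((le_max_left _ _).trans hK)
  refine ⟨max K0 1, fun A => ?_⟩
  have hlogN : Tendsto (fun N : ℕ => Real.log (N:ℝ)) atTop atTop :=
    Real.tendsto_log_atTop.comp tendsto_natCast_atTop_atTop
  have hNN : ∀ᶠ N : ℕ in atTop, (W:ℝ) / ε2 ≤ (N:ℝ) :=
    tendsto_natCast_atTop_atTop.eventually_ge_atTop _
  filter_upwards [hK0 A, hlogN.eventually_ge_atTop 1, hlogN.eventually_ge_atTop (2 * (W:ℝ)), hNN] with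
    N hN hL1 hLW hNW
  intro H hH1 hH2
  set L := Real.log (N:ℝ) with hL
  have hL0 : 0 < L := by linarith
  have hHK0 : K0 * L ≤ H := (mul_le_mul_of_nonneg_right (le_max_left _ _) hL0.le).trans hH1
  have hHL : L ≤ H := by
    have := (mul_le_mul_of_nonneg_right (le_max_right K0 1) hL0.le).trans hH1
    linarith
  have hHW : 2 * Wp w ≤ H := by
    have : 2 * (W:ℝ) ≤ H := hLW.trans hHL
    exact_mod_cast this
  have hcls : ∀ a s : ℕ, K1 ≤ s → ((((VS w H (rho w a)).powersetCard s).filter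
      (fun F => Bad N w (m + 1) L ε2 a F)).card : ℝ) ≤ ε2 * ((VS w H (rho w a)).card.choose s : ℝ) := by
    intro a s hs
    refine le_trans ?_ (hN H hHK0 hH2 a (rho w a) (rho_nonempty w a) (rho_mem w a) s hs)
    rw [Nat.cast_le]
    refine Finset.card_le_card fun F hF => ?_
    rw [Finset.mem_filter] at hF ⊢
    refine ⟨hF.1, ?_⟩
    have := hF.2
    unfold Bad at this
    rwa [(Finset.mem_powersetCard.1 hF.1).2] at this
  have hX : ∀ a, (1 - ε2) * ((N:ℝ) / Wp w) ≤ ((XS N w a).card : ℝ) := by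
    intro a
    have h5 : -1 ≤ ((XS N w a).card : ℝ) - (N:ℝ) / (W:ℝ) := (abs_le.1 (card_XS w N a)).1
    have h6 : 1 ≤ ε2 * ((N:ℝ) / (W:ℝ)) := by
      rw [mul_div_assoc', le_div_iff₀ hWpos]
      rw [div_le_iff₀ h2] at hNW
      linarith
    change (1 - ε2) * ((N:ℝ) / (W:ℝ)) ≤ ((XS N w a).card : ℝ)
    linarith
  have hmk := markov m w H K K1 N L ε2 ε3 h3 h2.le hHW hmK hcls
  have hfin : (2 ^ (m + 2) * ε2 / ε3) ≤ ε := by
    rw [hε2, div_le_iff₀ h3]
    have : (2:ℝ) ^ (m + 4) = 2 ^ (m + 2) * 4 := by rw [show m + 4 = (m + 2) + 2 by ring, pow_add]; norm_num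
    rw [this]
    have h5 : (0:ℝ) < 2 ^ (m + 2) := by positivity
    have h6 : 2 ^ (m + 2) * (ε * ε3 / (2 ^ (m + 2) * 4)) = ε * ε3 / 4 := by field_simp
    rw [h6]
    nlinarith [mul_pos hε h3]
  refine le_trans ?_ (hmk.trans (mul_le_mul_of_nonneg_right hfin (Nat.cast_nonneg _)))
  rw [Nat.cast_le]
  refine Finset.card_le_card fun E hE => ?_
  rw [Finset.mem_filter] at hE ⊢
  refine ⟨hE.1, ?_⟩
  by_contra hcon
  push Not at hcon
  obtain ⟨hE1, hE2⟩ := Finset.mem_powersetCard.1 hE.1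
  have hSP : (1/2) * (K.choose (m + 1) : ℝ) ≤ ∑ E' ∈ E.powersetCard (m + 1), SP (PPy w) E' := by
    have h5 := sum_SP_ge (PPy w) (PPy_prime w) E m ((K:ℝ) * cW W) (by
      have : (0:ℝ) < K := by exact_mod_cast (show 0 < K by omega)
      positivity) (by rw [hE2]; unfold cW; rw [hW]; unfold Wp; ring)
    refine le_trans ?_ h5
    rw [hE2]
    apply mul_le_mul_of_nonneg_right _ (Nat.cast_nonneg _)
    have h6 : (0:ℝ) < (K:ℝ) * cW W := by
      have : (0:ℝ) < K := by exact_mod_cast (show 0 < K by omega)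
      positivity
    have h7 : ((m:ℝ) + 1) * m / ((K:ℝ) * cW W) ≤ 1 / 2 := by
      rw [div_le_iff₀ h6]
      linarith
    linarith
  have hd := det N w H (m + 1) K1 K L ε2 ε3 hL0 h2' h3 E hE1 hX hSP hKK1 hcon
  have hc : (1 - ε) ≤ (1 - ε2) ^ 2 * (1 - 2 * ε3) := by
    have a1 : 1 - ε / 64 ≤ (1 - ε2) ^ 2 := by nlinarith [sq_nonneg ε2]
    have a2 : 0 ≤ 1 - 2 * ε3 := by rw [hε3]; linarith
    calc 1 - ε ≤ (1 - ε / 64) * (1 - 2 * ε3) := by rw [hε3]; nlinarith [mul_pos hε hε]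
      _ ≤ _ := mul_le_mul_of_nonneg_right a1 a2
  have hS0 : 0 ≤ ∑ E' ∈ E.powersetCard (m + 1), SP (PPy w) E' := le_trans (by positivity) hSP
  have h9 : (1 - ε) * ((N:ℝ) / L ^ (m + 1)) * ∑ E' ∈ E.powersetCard (m + 1), SP (PPy w) E' ≤
      (1 - ε2) ^ 2 * (1 - 2 * ε3) * ((N:ℝ) / L ^ (m + 1)) *
        ∑ E' ∈ E.powersetCard (m + 1), SP (PPy w) E' := by
    gcongr
  exact absurd (h9.trans hd) (not_le.2 hE.2)

end Pool.Agent.HLT
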