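import Mathlib
import Pool.Agent.HLT.NDefs

set_option autoImplicit false

open Finset Filter

namespace Pool.Agent.HLT

open Pool.Agent.HL26 Pool.Agent.Maynard

lemma prod_biUnion_le {ι κ : Type} [DecidableEq ι] [DecidableEq κ] (Q : Finset ι)
    (S : ι → Finset κ) (f : κ → ℝ) (hf : ∀ q ∈ Q, ∀ p ∈ S q, 1 ≤ f p) :
    ∏ p ∈ Q.biUnion S, f p ≤ ∏ q ∈ Q, ∏ p ∈ S q, f p := by
  induction Q using Finset.induction_on with
  | empty => simp
  | insert a s ha ih =>
    rw [Finset.biUnion_insert, Finset.prod_insert ha]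
    have ih' := ih (fun q hq p hp => hf q (Finset.mem_insert_of_mem hq) p hp)
    have h1 := Finset.prod_union_inter (s₁ := S a) (s₂ := s.biUnion S) (f := f)
    have hfa : ∀ p ∈ S a, 1 ≤ f p := hf a (Finset.mem_insert_self _ _)
    have h2 : 1 ≤ ∏ p ∈ S a ∩ s.biUnion S, f p :=
      Finset.one_le_prod fun p hp => hfa p (Finset.mem_inter.1 hp).1
    have h3 : 1 ≤ ∏ p ∈ S a, f p := Finset.one_le_prod hfa
    have h4 : 1 ≤ ∏ p ∈ S a ∪ s.biUnion S, f p := by
      refine Finset.one_le_prod fun p hp => ?_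
      rcases Finset.mem_union.1 hp with h | h
      · exact hfa p h
      · obtain ⟨q, hq, hpq⟩ := Finset.mem_biUnion.1 h
        exact hf q (Finset.mem_insert_of_mem hq) p hpq
    calc ∏ p ∈ S a ∪ s.biUnion S, f p ≤ (∏ p ∈ S a ∪ s.biUnion S, f p) * ∏ p ∈ S a ∩ s.biUnion S, f p :=
          le_mul_of_one_le_right (by linarith) h2
      _ = (∏ p ∈ S a, f p) * ∏ p ∈ s.biUnion S, f p := h1
      _ ≤ _ := mul_le_mul_of_nonneg_left ih' (by linarith)

lemma inv_one_sub_eq (p : ℕ) (hp : p.Prime) : (1 - 1 / (p:ℝ))⁻¹ = (p:ℝ) / ((p:ℝ) - 1) := by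
  have h1 : (1:ℝ) < p := by exact_mod_cast hp.one_lt
  have h2 : (p:ℝ) - 1 ≠ 0 := by linarith
  have h3 : (p:ℝ) ≠ 0 := by linarith
  field_simp

lemma one_le_ratio (p : ℕ) (hp : p.Prime) : 1 ≤ (p:ℝ) / ((p:ℝ) - 1) := by
  have h1 : (1:ℝ) < p := by exact_mod_cast hp.one_lt
  rw [le_div_iff₀ (by linarith)]
  linarith

lemma Wp_pos (w : ℕ) : 0 < Wp w := Finset.prod_pos fun p hp => (PPy_prime w p hp).pos

lemma inv_cW_eq (w : ℕ) : 1 / cW (Wp w) = ∏ p ∈ PPy w, (1 - 1 / (p:ℝ))⁻¹ := by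
  unfold cW Wp
  rw [totient_prod (PPy w) (PPy_prime w), one_div, inv_div]
  push_cast
  rw [← Finset.prod_div_distrib]
  refine Finset.prod_congr rfl fun p hp => ?_
  rw [inv_one_sub_eq p (PPy_prime w p hp)]

/-- the tail of the singular series is at most the product over the pairs -/
lemma tail_le_pairs (w r : ℕ) (hr : 1 ≤ r) (e : Fin r → ℕ) (he : Function.Injective e)
    (T : Finset ℕ) (hT : ∀ p ∈ T, w < p) (hTp : ∀ p ∈ T, p.Prime) :
    ∏ p ∈ T, loc (Finset.image e Finset.univ) p ≤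
      pairs (fun x y : ℕ => pp w (Nat.dist x y) ^ r) e := by
  classical
  set E := Finset.image e Finset.univ with hE
  have hcard : E.card = r := by
    rw [hE, Finset.card_image_of_injective _ he, Finset.card_univ, Fintype.card_fin]
  have hne : E.Nonempty := by
    rw [← Finset.card_pos, hcard]; omega
  set Tb := T.filter (fun p => nu E p < E.card) with hTb
  have hTbp : ∀ p ∈ Tb, p.Prime := fun p hp => hTp p (Finset.mem_filter.1 hp).1
  have h1 : ∏ p ∈ T, loc E p ≤ ∏ p ∈ Tb, ((p:ℝ) / ((p:ℝ) - 1)) ^ r := by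
    have h2 : ∏ p ∈ T, loc E p ≤ ∏ p ∈ T, (if nu E p < E.card then ((p:ℝ) / ((p:ℝ) - 1)) ^ r else 1) := by
      refine Finset.prod_le_prod (fun p hp => loc_nonneg E p (hTp p hp)) fun p hp => ?_
      split_ifs with h
      · refine (loc_le E hne p (hTp p hp)).trans ?_
        rw [inv_one_sub_eq p (hTp p hp), hcard]
        exact pow_le_pow_right₀ (one_le_ratio p (hTp p hp)) (Nat.sub_le _ _)
      · refine loc_le_one E p (hTp p hp) ?_
        have := nu_le_card E p
        omega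
    refine h2.trans (le_of_eq ?_)
    rw [Finset.prod_ite, Finset.prod_const_one, mul_one]
  refine h1.trans ?_
  -- covering
  set S : ℕ × ℕ → Finset ℕ := fun q => (Nat.dist q.1 q.2).primeFactors.filter (fun p => w < p) with hS
  set Q : Finset ((_ : Fin r) × Fin r) := Finset.univ.sigma (fun i => univ.filter (fun j => i < j)) with hQ
  have hpairs : pairs (fun x y : ℕ => pp w (Nat.dist x y) ^ r) e =
      ∏ q ∈ Q, ∏ p ∈ S (e q.1, e q.2), ((p:ℝ) / ((p:ℝ) - 1)) ^ r := by
    unfold pairs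
    rw [hQ, Finset.prod_sigma]
    refine Finset.prod_congr rfl fun i _ => Finset.prod_congr rfl fun j _ => ?_
    simp only [hS, pp]
    rw [Finset.prod_pow]
  rw [hpairs]
  have hprime : ∀ q : (_ : Fin r) × Fin r, ∀ p ∈ S (e q.1, e q.2), p.Prime := by
    intro q p hp
    simp only [hS, Finset.mem_filter] at hp
    exact Nat.prime_of_mem_primeFactors hp.1
  refine le_trans ?_ (prod_biUnion_le Q (fun q => S (e q.1, e q.2))
    (fun p : ℕ => ((p:ℝ) / ((p:ℝ) - 1)) ^ r) (fun q _ p hp => one_le_pow₀ (one_le_ratio p (hprime q p hp))))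
  have hsub : Tb ⊆ Q.biUnion (fun q => S (e q.1, e q.2)) := by
    intro p hp
    obtain ⟨hp1, hp2⟩ := Finset.mem_filter.1 hp
    obtain ⟨a, ha, b, hb, hlt, hdvd⟩ := exists_dvd_of_nu_lt E p hp2
    obtain ⟨i, _, rfl⟩ := Finset.mem_image.1 ha
    obtain ⟨j, _, rfl⟩ := Finset.mem_image.1 hb
    have hij : i ≠ j := by rintro rfl; exact lt_irrefl _ hlt
    have hd : Nat.dist (e i) (e j) = e j - e i := Nat.dist_eq_sub_of_le hlt.le
    have hd2 : Nat.dist (e j) (e i) = e j - e i := by rw [Nat.dist_comm, hd]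
    have hmem : p ∈ (e j - e i).primeFactors.filter (fun p => w < p) := by
      rw [Finset.mem_filter, Nat.mem_primeFactors]
      exact ⟨⟨hTp p hp1, hdvd, by omega⟩, hT p hp1⟩
    rw [Finset.mem_biUnion]
    rcases lt_or_gt_of_ne hij with h | h
    · refine ⟨⟨i, j⟩, ?_, ?_⟩
      · rw [hQ, Finset.mem_sigma]
        exact ⟨Finset.mem_univ _, Finset.mem_filter.2 ⟨Finset.mem_univ _, h⟩⟩
      · simp only [hS]
        rw [hd]
        exact hmem
    · refine ⟨⟨j, i⟩, ?_, ?_⟩
      · rw [hQ, Finset.mem_sigma]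
        exact ⟨Finset.mem_univ _, Finset.mem_filter.2 ⟨Finset.mem_univ _, h⟩⟩
      · simp only [hS]
        rw [hd2]
        exact hmem
  refine Finset.prod_le_prod_of_subset_of_one_le hsub (fun p hp => ?_) fun p hp _ => ?_
  · exact (zero_le_one.trans (one_le_pow₀ (one_le_ratio p (hTbp p hp))))
  · obtain ⟨q, _, hpq⟩ := Finset.mem_biUnion.1 hp
    exact one_le_pow₀ (one_le_ratio p (hprime q p hpq))

/-- B10a -/
theorem singularSeries_le_pairs (w r : ℕ) (hw : 1 ≤ w) (hr : 1 ≤ r) (e : Fin r → ℕ)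
    (he : Function.Injective e) :
    singularSeries (Finset.image e Finset.univ) ≤
      (1 / cW (Wp w)) ^ r * pairs (fun x y : ℕ => pp w (Nat.dist x y) ^ r) e := by
  classical
  set E := Finset.image e Finset.univ with hE
  have hcard : E.card = r := by
    rw [hE, Finset.card_image_of_injective _ he, Finset.card_univ, Fintype.card_fin]
  have h := (multipliable_loc E).hasProd
  rw [← singularSeries_eq] at h
  unfold HasProd at h
  refine le_of_tendsto h ?_
  rw [SummationFilter.unconditional_filter]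
  filter_upwards [Filter.eventually_ge_atTop ((PPy w).preimage (fun p : Nat.Primes => (p : ℕ)) (fun a _ b _ hab => Subtype.ext hab))] with s hs
  obtain ⟨T, hT, hTp, heq⟩ := exists_tail E w s hs
  rw [heq]
  have h1 : SP (PPy w) E ≤ (1 / cW (Wp w)) ^ r := by
    rw [inv_cW_eq, ← Finset.prod_pow, SP_eq_prod_loc]
    refine Finset.prod_le_prod (fun p hp => loc_nonneg E p (PPy_prime w p hp)) fun p hp => ?_
    unfold loc
    rw [hcard]
    have h2 := one_sub_inv_pos p (PPy_prime w p hp)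
    refine mul_le_of_le_one_right (by positivity) ?_
    have h3 : (0:ℝ) ≤ (nu E p : ℝ) / (p:ℝ) := by positivity
    linarith
  have h2 := tail_le_pairs w r hr e he T hT hTp
  have h3 : 0 ≤ SP (PPy w) E := SP_nonneg _ (PPy_prime w) E
  have h4 : 0 ≤ ∏ p ∈ T, loc E p := Finset.prod_nonneg fun p hp => loc_nonneg E p (hTp p hp)
  exact mul_le_mul h1 h2 h4 (h3.trans h1)

/-- lower bound for truncated singular series of admissible sets -/
lemma SP_ge (K : ℕ) (hK : 1 ≤ K) : ∃ c : ℝ, 0 < c ∧ ∀ w : ℕ, ∀ E : Finset ℕ, E.card = K →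
    (∀ p : ℕ, p.Prime → nu E p < p) → c ≤ SP (PPy w) E := by
  classical
  set Y := 2 * K ^ 2 with hY
  have hY1 : 1 ≤ Y := by
    have : 1 ≤ K ^ 2 := Nat.one_le_pow _ _ hK
    omega
  refine ⟨(∏ p ∈ PPy Y, (1 / (p:ℝ))) * (1 / 2), ?_, ?_⟩
  · refine mul_pos (Finset.prod_pos fun p hp => ?_) (by norm_num)
    have : (0:ℝ) < p := by exact_mod_cast (PPy_prime Y p hp).pos
    positivity
  intro w E hE hadm
  rw [SP_eq_prod_loc, ← Finset.prod_filter_mul_prod_filter_not (PPy w) (fun p => p ≤ Y)]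
  have hA : ∏ p ∈ PPy Y, (1 / (p:ℝ)) ≤ ∏ p ∈ (PPy w).filter (fun p => p ≤ Y), loc E p := by
    have h1 : ∏ p ∈ PPy Y, (1 / (p:ℝ)) ≤ ∏ p ∈ (PPy w).filter (fun p => p ≤ Y), (1 / (p:ℝ)) := by
      have hsub : (PPy w).filter (fun p => p ≤ Y) ⊆ PPy Y := by
        intro p hp
        obtain ⟨h1, h2⟩ := Finset.mem_filter.1 hp
        unfold PPy
        rw [Finset.mem_filter, Finset.mem_range]
        exact ⟨by omega, PPy_prime w p h1⟩
      rw [← Finset.prod_sdiff hsub]
      refine mul_le_of_le_one_left (Finset.prod_nonneg fun p _ => by positivity) ?_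
      refine Finset.prod_le_one (fun p _ => by positivity) fun p hp => ?_
      have hpp := PPy_prime Y p (Finset.mem_sdiff.1 hp).1
      have : (1:ℝ) ≤ p := by exact_mod_cast hpp.one_lt.le
      rw [div_le_one (by linarith)]
      exact this
    refine h1.trans (Finset.prod_le_prod (fun p _ => by positivity) fun p hp => ?_)
    have hpp := PPy_prime w p (Finset.mem_filter.1 hp).1
    have hp0 : (0:ℝ) < p := by exact_mod_cast hpp.pos
    unfold loc
    have h2 : (1:ℝ) ≤ ((1 - 1 / (p:ℝ))⁻¹) ^ E.card := by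
      rw [inv_one_sub_eq p hpp]
      exact one_le_pow₀ (one_le_ratio p hpp)
    have h3 : 1 / (p:ℝ) ≤ 1 - (nu E p : ℝ) / p := by
      have h4 : (nu E p : ℝ) + 1 ≤ p := by exact_mod_cast hadm p hpp
      have h5 : (nu E p : ℝ) / p + 1 / p ≤ 1 := by
        rw [← add_div, div_le_one hp0]
        exact h4
      linarith
    calc 1 / (p:ℝ) = 1 * (1 / (p:ℝ)) := (one_mul _).symm
      _ ≤ _ := mul_le_mul h2 h3 (by positivity) (by linarith)
  have hB : (1:ℝ) / 2 ≤ ∏ p ∈ (PPy w).filter (fun p => ¬ p ≤ Y), loc E p := by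
    have h1 := prod_tail_ge E Y hY1 ((PPy w).filter (fun p => ¬ p ≤ Y))
      (fun p hp => by have := (Finset.mem_filter.1 hp).2; omega)
      (fun p hp => PPy_prime w p (Finset.mem_filter.1 hp).1)
    refine le_trans ?_ h1
    rw [hE, hY]
    have hK0 : (0:ℝ) < K := by exact_mod_cast hK
    push_cast
    have : (K:ℝ) ^ 2 / (2 * (K:ℝ) ^ 2) = 1 / 2 := by field_simp
    rw [this]
    norm_num
  refine mul_le_mul hA hB (by norm_num) ?_
  exact (Finset.prod_nonneg fun p _ => by positivity).trans hA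

/-- B10b: number of residue classes in which an admissible set is alive -/
theorem alive_count (K : ℕ) (hK : 1 ≤ K) : ∃ c : ℝ, 0 < c ∧ ∀ w : ℕ, ∀ E : Finset ℕ, E.card = K →
    (∀ p : ℕ, p.Prime → nu E p < p) →
    c * (Wp w : ℝ) * cW (Wp w) ^ K ≤
      (((Finset.range (Wp w)).filter (fun a => ∀ e ∈ E, (a + e).Coprime (Wp w))).card : ℝ) := by
  classical
  obtain ⟨c, hc, hcE⟩ := SP_ge K hK
  refine ⟨c, hc, fun w E hE hadm => ?_⟩
  have h1 := hcE w E hE hadm
  rw [SP_eq _ (PPy_prime w), hE] at h1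
  have hne : NeZero (∏ p ∈ PPy w, p) := ⟨(Wp_pos w).ne'⟩
  have h2 := card_units_eq (PPy w) (PPy_prime w) E
  have h3 : ((Finset.range (Wp w)).filter (fun a => ∀ e ∈ E, (a + e).Coprime (Wp w))).card =
      ∏ p ∈ PPy w, (p - nu E p) := by
    rw [← h2]
    refine Finset.card_bij' (fun a _ => ((a : ℕ) : ZMod (∏ p ∈ PPy w, p))) (fun z _ => z.val) ?_ ?_ ?_ ?_
    · intro a ha
      rw [Finset.mem_filter] at ha ⊢
      refine ⟨Finset.mem_univ _, fun e he => ?_⟩
      have := ha.2 e he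
      have h4 : ((a:ℕ) : ZMod (∏ p ∈ PPy w, p)) + ((e:ℕ) : ZMod (∏ p ∈ PPy w, p)) = ((a + e : ℕ) : ZMod (∏ p ∈ PPy w, p)) := by
        push_cast; rfl
      rw [h4, ZMod.isUnit_iff_coprime]
      exact this
    · intro z hz
      rw [Finset.mem_filter] at hz ⊢
      refine ⟨Finset.mem_range.2 (ZMod.val_lt z), fun e he => ?_⟩
      have := hz.2 e he
      have h4 : ((z.val + e : ℕ) : ZMod (∏ p ∈ PPy w, p)) = z + (e : ZMod (∏ p ∈ PPy w, p)) := by
        push_cast
        rw [ZMod.natCast_zmod_val]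
      rw [← h4, ZMod.isUnit_iff_coprime] at this
      exact this
    · intro a ha
      have := Finset.mem_range.1 (Finset.mem_filter.1 ha).1
      exact ZMod.val_cast_of_lt this
    · intro z _
      exact ZMod.natCast_zmod_val z
  rw [h3]
  have hW0 : (0:ℝ) < (Wp w : ℝ) := by exact_mod_cast Wp_pos w
  have hphi : (0:ℝ) < (Nat.totient (Wp w) : ℝ) := by exact_mod_cast Nat.totient_pos.2 (Wp_pos w)
  have h5 : c ≤ ((Wp w : ℝ) / (Nat.totient (Wp w) : ℝ)) ^ K * (((∏ p ∈ PPy w, (p - nu E p) : ℕ) : ℝ) / (Wp w : ℝ)) := h1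
  have h6 : c * (Wp w : ℝ) * cW (Wp w) ^ K ≤ (((Wp w : ℝ) / (Nat.totient (Wp w) : ℝ)) ^ K * (((∏ p ∈ PPy w, (p - nu E p) : ℕ) : ℝ) / (Wp w : ℝ))) * (Wp w : ℝ) * cW (Wp w) ^ K := by
    have : 0 ≤ cW (Wp w) ^ K := pow_nonneg (cW_nonneg _) _
    exact mul_le_mul_of_nonneg_right (mul_le_mul_of_nonneg_right h5 hW0.le) this
  refine h6.trans (le_of_eq ?_)
  unfold cW
  rw [div_pow, div_pow]
  field_simp

/-- B10c: translation invariance -/
theorem singularSeries_translate0 (E : Finset ℕ) (hE : E.Nonempty) :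
    singularSeries (translate0 E) = singularSeries E := by
  classical
  have hmin : ∀ e ∈ E, sInf (E : Set ℕ) ≤ e := fun e he => Nat.sInf_le he
  have hcard : (translate0 E).card = E.card := by
    unfold translate0
    refine Finset.card_image_of_injOn fun a ha b hb hab => ?_
    have h1 := hmin a ha
    have h2 := hmin b hb
    have h3 : a - sInf (E : Set ℕ) = b - sInf (E : Set ℕ) := hab
    omega
  have hnu : ∀ p, nu (translate0 E) p = nu E p := by
    intro p
    unfold nu translate0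
    rw [Finset.image_image]
    have h1 : E.image (fun e : ℕ => (e : ZMod p)) =
        (E.image ((fun e : ℕ => (e : ZMod p)) ∘ fun e => e - sInf (E : Set ℕ))).image
          (fun z => z + ((sInf (E : Set ℕ) : ℕ) : ZMod p)) := by
      rw [Finset.image_image]
      refine Finset.image_congr fun e he => ?_
      simp only [Function.comp]
      rw [Nat.cast_sub (hmin e he)]
      ring
    rw [h1, Finset.card_image_of_injective _ (add_left_injective _)]
  unfold singularSeries
  rw [hcard]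
  simp only [hnu]

/-- B10d -/
theorem tupleCount_ge (N w a : ℕ) (x : ℝ) (H : ℕ) (hx : ((2 * N + H : ℕ) : ℝ) ≤ x) (E : Finset ℕ)
    (hE : E.Nonempty) (hEH : ∀ e ∈ E, e ≤ H) :
    (((XS N w a).filter (fun n => ∀ e ∈ E, (n + e).Prime)).card : ℝ) ≤
      (tupleCount x (translate0 E) : ℝ) := by
  classical
  have hmin : ∀ e ∈ E, sInf (E : Set ℕ) ≤ e := fun e he => Nat.sInf_le he
  have hmem : sInf (E : Set ℕ) ∈ E := Nat.sInf_mem (s := (E : Set ℕ)) hE
  have hH : sInf (E : Set ℕ) ≤ H := hEH _ hmem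
  unfold tupleCount
  refine Nat.cast_le.2 (Finset.card_le_card_of_injOn (fun n => n + sInf (E : Set ℕ)) ?_ ?_)
  · intro n hn
    rw [Finset.mem_coe, Finset.mem_filter] at hn
    obtain ⟨hn1, hn2⟩ := hn
    unfold XS at hn1
    rw [Finset.mem_filter, Finset.mem_Ioc] at hn1
    rw [Finset.mem_coe, Finset.mem_filter, Finset.mem_Icc]
    refine ⟨⟨(by omega : 1 ≤ n + sInf (E : Set ℕ)), ?_⟩, ?_⟩
    · refine Nat.le_floor (le_trans ?_ hx)
      exact_mod_cast (by omega : n + sInf (E : Set ℕ) ≤ 2 * N + H)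
    · intro e he
      unfold translate0 at he
      obtain ⟨f, hf, rfl⟩ := Finset.mem_image.1 he
      have h1 := hmin f hf
      have h2 : n + sInf (E : Set ℕ) + (f - sInf (E : Set ℕ)) = n + f := by omega
      rw [h2]
      exact hn2 f hf
  · intro n _ n' _ h
    have h1 : n + sInf (E : Set ℕ) = n' + sInf (E : Set ℕ) := h
    omega

end Pool.Agent.HLT
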