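import Mathlib
import Pool.Agent.HLT.Sing2
import Pool.Agent.HLT.RowMoment
import Pool.Agent.HL26.Second

set_option autoImplicit false

open Finset Filter

namespace Pool.Agent.HLT

open Pool.Agent.HL26 Pool.Agent.Maynard

/-- E5a -/
theorem singularSeries_le_SP_pairs (w r : ℕ) (hw : 1 ≤ w) (hr : 1 ≤ r) (e : Fin r → ℕ)
    (he : Function.Injective e) :
    singularSeries (Finset.image e Finset.univ) ≤
      SP (PPy w) (Finset.image e Finset.univ) *
        pairs (fun x y : ℕ => pp w (Nat.dist x y) ^ r) e := by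
  classical
  set E := Finset.image e Finset.univ with hE
  have h := (multipliable_loc E).hasProd
  rw [← singularSeries_eq] at h
  unfold HasProd at h
  refine le_of_tendsto h ?_
  rw [SummationFilter.unconditional_filter]
  filter_upwards [Filter.eventually_ge_atTop ((PPy w).preimage (fun p : Nat.Primes => (p : ℕ)) (fun a _ b _ hab => Subtype.ext hab))] with s hs
  obtain ⟨T, hT, hTp, heq⟩ := exists_tail E w s hs
  rw [heq]
  exact mul_le_mul_of_nonneg_left (tail_le_pairs w r hr e he T hT hTp)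
    (SP_nonneg _ (PPy_prime w) E)

lemma SingAvg_prod_sub_one_le {ι : Type*} (T : Finset ι) (f : ι → ℝ) (hf : ∀ i ∈ T, 1 ≤ f i)
    (n : ℕ) (hn : T.card ≤ n) : ∏ i ∈ T, f i - 1 ≤ ∑ i ∈ T, ((f i) ^ n - 1) := by
  rcases T.eq_empty_or_nonempty with rfl | hT
  · simp
  obtain ⟨j, hj, hmax⟩ := Finset.exists_max_image T f hT
  have h1 : ∏ i ∈ T, f i ≤ (f j) ^ n :=
    calc ∏ i ∈ T, f i ≤ ∏ i ∈ T, f j :=
          Finset.prod_le_prod (fun i hi => by have := hf i hi; linarith) hmax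
      _ = (f j) ^ T.card := by rw [Finset.prod_const]
      _ ≤ (f j) ^ n := pow_le_pow_right₀ (hf j hj) hn
  have h2 : (f j) ^ n - 1 ≤ ∑ i ∈ T, ((f i) ^ n - 1) :=
    Finset.single_le_sum (f := fun i => (f i) ^ n - 1) (fun i hi => by
      have := one_le_pow₀ (hf i hi) (n := n)
      linarith) hj
  linarith

/-- the pairs of a set -/
def SingAvg_prs (E : Finset ℕ) : Finset (ℕ × ℕ) := (E ×ˢ E).filter (fun q => q.1 < q.2)

/-- the bound for a single set -/
lemma SingAvg_single (w r : ℕ) (hw : 1 ≤ w) (hr : 1 ≤ r) (E : Finset ℕ) (hE : E.card = r) :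
    ∃ g : ℝ, 1 ≤ g ∧ singularSeries E ≤ SP (PPy w) E * g ∧
      (g - 1) ^ 2 ≤ ∑ q ∈ SingAvg_prs E, (pp w (Nat.dist q.1 q.2) ^ (2 * r * r ^ 2) - 1) := by
  classical
  set e : Fin r → ℕ := fun i => E.orderEmbOfFin hE i with he
  have hinj : Function.Injective e := (E.orderEmbOfFin hE).injective
  have hmono : StrictMono e := (E.orderEmbOfFin hE).strictMono
  have himg : Finset.image e Finset.univ = E := by
    ext x
    rw [Finset.mem_image]
    constructor
    · rintro ⟨i, _, rfl⟩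
      exact Finset.orderEmbOfFin_mem E hE i
    · intro hx
      have h1 : x ∈ Set.range (E.orderEmbOfFin hE) := by
        rw [Finset.range_orderEmbOfFin]; exact hx
      obtain ⟨i, hi⟩ := h1
      exact ⟨i, Finset.mem_univ _, hi⟩
  have h1 := singularSeries_le_SP_pairs w r hw hr e hinj
  rw [himg] at h1
  set Q : Finset ((_ : Fin r) × Fin r) := Finset.univ.sigma (fun i => univ.filter (fun j => i < j))
    with hQ
  set G : ((_ : Fin r) × Fin r) → ℝ := fun q => pp w (Nat.dist (e q.1) (e q.2)) with hG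
  have hG1 : ∀ q, 1 ≤ G q := fun q => one_le_pp w _
  have hpairs : pairs (fun x y : ℕ => pp w (Nat.dist x y) ^ r) e = ∏ q ∈ Q, G q ^ r := by
    unfold pairs
    rw [hQ, Finset.prod_sigma]
  have hg1 : 1 ≤ ∏ q ∈ Q, G q ^ r := Finset.one_le_prod fun q _ => one_le_pow₀ (hG1 q)
  refine ⟨∏ q ∈ Q, G q ^ r, hg1, by rw [← hpairs]; exact h1, ?_⟩
  have h2 : (∏ q ∈ Q, G q ^ r - 1) ^ 2 ≤ ∏ q ∈ Q, G q ^ (2 * r) - 1 := by
    have e1 : ∏ q ∈ Q, G q ^ (2 * r) = (∏ q ∈ Q, G q ^ r) ^ 2 := by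
      rw [← Finset.prod_pow]
      refine Finset.prod_congr rfl fun q _ => ?_
      rw [← pow_mul, mul_comm]
    rw [e1]
    nlinarith
  have hcard : Q.card ≤ r ^ 2 := by
    rw [hQ, Finset.card_sigma]
    calc ∑ i : Fin r, (univ.filter (fun j => i < j)).card ≤ ∑ i : Fin r, r := by
          refine Finset.sum_le_sum fun i _ => ?_
          refine (Finset.card_filter_le _ _).trans ?_
          rw [Finset.card_univ, Fintype.card_fin]
      _ = r ^ 2 := by rw [Finset.sum_const, Finset.card_univ, Fintype.card_fin, smul_eq_mul, sq]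
  have h3 := SingAvg_prod_sub_one_le Q (fun q => G q ^ (2 * r))
    (fun q _ => one_le_pow₀ (hG1 q)) (r ^ 2) hcard
  refine h2.trans (h3.trans ?_)
  have h4 : ∑ q ∈ Q, ((G q ^ (2 * r)) ^ (r ^ 2) - 1) =
      ∑ q ∈ Q.image (fun q => (e q.1, e q.2)), (pp w (Nat.dist q.1 q.2) ^ (2 * r * r ^ 2) - 1) := by
    rw [Finset.sum_image]
    · refine Finset.sum_congr rfl fun q _ => ?_
      rw [← pow_mul]
    · rintro ⟨a, b⟩ _ ⟨c, d⟩ _ h
      simp only [Prod.mk.injEq] at h
      have h5 := hinj h.1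
      have h6 := hinj h.2
      subst h5 h6
      rfl
  rw [h4]
  refine Finset.sum_le_sum_of_subset_of_nonneg ?_ fun q _ _ => ?_
  · intro q hq
    rw [Finset.mem_image] at hq
    obtain ⟨⟨a, b⟩, hab, rfl⟩ := hq
    rw [hQ, Finset.mem_sigma, Finset.mem_filter] at hab
    unfold SingAvg_prs
    rw [Finset.mem_filter, Finset.mem_product]
    exact ⟨⟨Finset.orderEmbOfFin_mem E hE a, Finset.orderEmbOfFin_mem E hE b⟩, hmono hab.2.2⟩
  · have := one_le_pow₀ (one_le_pp w (Nat.dist q.1 q.2)) (n := 2 * r * r ^ 2)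
    linarith

/-- double counting -/
lemma SingAvg_count (r : ℕ) (hr : 2 ≤ r) (H : ℕ) (f : ℕ × ℕ → ℝ) (hf0 : ∀ q, 0 ≤ f q) :
    ∑ E ∈ (Finset.range (H + 1)).powersetCard r, ∑ q ∈ SingAvg_prs E, f q ≤
      ((H:ℝ) + 1) ^ (r - 2) * ∑ q ∈ SingAvg_prs (Finset.range (H + 1)), f q := by
  classical
  set R := Finset.range (H + 1) with hR
  have h2 : ∑ E ∈ R.powersetCard r, ∑ q ∈ SingAvg_prs E, f q =
      ∑ q ∈ SingAvg_prs R, ∑ E ∈ R.powersetCard r, if q.1 ∈ E ∧ q.2 ∈ E then f q else 0 := by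
    rw [Finset.sum_comm]
    apply Finset.sum_congr rfl
    intro E hE
    rw [Finset.mem_powersetCard] at hE
    rw [← Finset.sum_filter]
    apply Finset.sum_congr _ (fun _ _ => rfl)
    ext q
    unfold SingAvg_prs
    simp only [Finset.mem_filter, Finset.mem_product]
    constructor
    · rintro ⟨⟨h1, h2⟩, h3⟩
      exact ⟨⟨⟨hE.1 h1, hE.1 h2⟩, h3⟩, h1, h2⟩
    · rintro ⟨⟨_, h3⟩, h1, h2⟩
      exact ⟨⟨h1, h2⟩, h3⟩
  have h3 : ∀ q ∈ SingAvg_prs R, (∑ E ∈ R.powersetCard r, if q.1 ∈ E ∧ q.2 ∈ E then f q else 0) ≤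
      ((H:ℝ) + 1) ^ (r - 2) * f q := by
    intro q hq
    unfold SingAvg_prs at hq
    rw [Finset.mem_filter, Finset.mem_product] at hq
    rw [← Finset.sum_filter, Finset.sum_const, nsmul_eq_mul]
    apply mul_le_mul_of_nonneg_right _ (hf0 q)
    have h4 : ((R.powersetCard r).filter (fun E => q.1 ∈ E ∧ q.2 ∈ E)).card ≤ (R.powersetCard (r - 2)).card := by
      apply Finset.card_le_card_of_injOn (fun E => (E.erase q.1).erase q.2)
      · intro E hE
        rw [Finset.mem_coe, Finset.mem_filter, Finset.mem_powersetCard] at hE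
        simp only
        rw [Finset.mem_coe, Finset.mem_powersetCard]
        refine ⟨(Finset.erase_subset _ _).trans ((Finset.erase_subset _ _).trans hE.1.1), ?_⟩
        rw [Finset.card_erase_of_mem, Finset.card_erase_of_mem hE.2.1, hE.1.2]
        · omega
        · rw [Finset.mem_erase]
          exact ⟨by omega, hE.2.2⟩
      · intro E hE E' hE' hEE
        rw [Finset.mem_coe, Finset.mem_filter] at hE hE'
        simp only at hEE
        have e1 : ∀ F : Finset ℕ, q.1 ∈ F → q.2 ∈ F → insert q.1 (insert q.2 ((F.erase q.1).erase q.2)) = F := by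
          intro F h1 h2
          rw [Finset.insert_erase (Finset.mem_erase.mpr ⟨by omega, h2⟩), Finset.insert_erase h1]
        rw [← e1 E hE.2.1 hE.2.2, hEE, e1 E' hE'.2.1 hE'.2.2]
    have h5 : (R.powersetCard (r - 2)).card ≤ (H + 1) ^ (r - 2) := by
      rw [Finset.card_powersetCard, hR, Finset.card_range]
      exact Nat.choose_le_pow _ _
    have h6 : ((((R.powersetCard r).filter (fun E => q.1 ∈ E ∧ q.2 ∈ E)).card : ℕ) : ℝ) ≤
        (((H + 1) ^ (r - 2) : ℕ) : ℝ) := by exact_mod_cast h4.trans h5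
    push_cast at h6
    exact h6
  rw [h2, Finset.mul_sum]
  exact Finset.sum_le_sum h3

lemma SingAvg_VS (w H : ℕ) : VS w H (Finset.range (Wp w)) = Finset.range (H + 1) := by
  unfold VS
  rw [Finset.filter_true_of_mem]
  intro d _
  rw [Finset.mem_range]
  exact Nat.mod_lt _ (Wp_pos w)

/-- E5b: the singular series is not much larger than its truncation, on average. -/
theorem sing_upper_avg (r : ℕ) (hr : 2 ≤ r) (η : ℝ) (hη : 0 < η) : ∃ w0 : ℕ, ∀ w : ℕ, w0 ≤ w →
    ∃ H0 : ℕ, ∀ H : ℕ, H0 ≤ H →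
      ∑ E ∈ (Finset.range (H + 1)).powersetCard r, max (singularSeries E - SP (PPy w) E) 0 ≤
        η * (H:ℝ) ^ r := by
  classical
  obtain ⟨C, hC, hsq⟩ := sum_singularSeries_sq_le r hr
  set κ : ℝ := η ^ 2 / (4 * C * 4 ^ r) with hκ
  have hκ0 : 0 < κ := by positivity
  obtain ⟨w1, hrow⟩ := row_moment (2 * r * r ^ 2) κ hκ0
  refine ⟨max w1 (2 * r ^ 2), fun w hw => ?_⟩
  have hw1 : w1 ≤ w := (le_max_left _ _).trans hw
  have hw2 : 2 * r ^ 2 ≤ w := (le_max_right _ _).trans hw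
  have hr2 : 1 ≤ r ^ 2 := Nat.one_le_pow _ _ (by omega)
  have hwpos : 1 ≤ w := by omega
  obtain ⟨H1, hH1⟩ := hrow w hw1
  refine ⟨max H1 1, fun H hH => ?_⟩
  have hHH1 : H1 ≤ H := (le_max_left _ _).trans hH
  have hH1' : 1 ≤ H := (le_max_right _ _).trans hH
  have hHr : (1:ℝ) ≤ H := by exact_mod_cast hH1'
  set R := Finset.range (H + 1) with hR
  -- choose the functions g
  have hchoose : ∀ E : Finset ℕ, ∃ g : ℝ, E ∈ R.powersetCard r → (1 ≤ g ∧ singularSeries E ≤ SP (PPy w) E * g ∧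
      (g - 1) ^ 2 ≤ ∑ q ∈ SingAvg_prs E, (pp w (Nat.dist q.1 q.2) ^ (2 * r * r ^ 2) - 1)) := by
    intro E
    by_cases hE : E ∈ R.powersetCard r
    · obtain ⟨g, hg⟩ := SingAvg_single w r hwpos (by omega) E (Finset.mem_powersetCard.1 hE).2
      exact ⟨g, fun _ => hg⟩
    · exact ⟨0, fun h => absurd h hE⟩
  choose g hg using hchoose
  have hSP0 : ∀ E, 0 ≤ SP (PPy w) E := fun E => SP_nonneg _ (PPy_prime w) E
  have h1 : ∑ E ∈ R.powersetCard r, max (singularSeries E - SP (PPy w) E) 0 ≤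
      ∑ E ∈ R.powersetCard r, SP (PPy w) E * (g E - 1) := by
    refine Finset.sum_le_sum fun E hE => ?_
    obtain ⟨g1, g2, _⟩ := hg E hE
    refine max_le (by linarith) ?_
    exact mul_nonneg (hSP0 E) (by linarith)
  -- the second moment of SP
  have h2 : ∑ E ∈ R.powersetCard r, (SP (PPy w) E) ^ 2 ≤ 4 * (C * ((H:ℝ) + 1) ^ r) := by
    have h3 : ∀ E ∈ R.powersetCard r, (SP (PPy w) E) ^ 2 ≤ 4 * (singularSeries E) ^ 2 := by
      intro E hE
      have hcard := (Finset.mem_powersetCard.1 hE).2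
      have h4 := singularSeries_ge E w hwpos
      rw [hcard] at h4
      have h5 : (r:ℝ) ^ 2 / w ≤ 1 / 2 := by
        have hw0 : (0:ℝ) < w := by exact_mod_cast hwpos
        rw [div_le_div_iff₀ hw0 (by norm_num)]
        have : (2:ℝ) * (r:ℝ) ^ 2 ≤ w := by exact_mod_cast hw2
        linarith
      have h6 : SP (PPy w) E ≤ 2 * singularSeries E := by
        have h7 : (1 / 2) * SP (PPy w) E ≤ (1 - (r:ℝ) ^ 2 / w) * SP (PPy w) E :=
          mul_le_mul_of_nonneg_right (by linarith) (hSP0 E)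
        linarith
      calc (SP (PPy w) E) ^ 2 ≤ (2 * singularSeries E) ^ 2 := pow_le_pow_left₀ (hSP0 E) h6 2
        _ = 4 * (singularSeries E) ^ 2 := by ring
    refine (Finset.sum_le_sum h3).trans ?_
    rw [← Finset.mul_sum]
    exact mul_le_mul_of_nonneg_left (hsq H) (by norm_num)
  -- the second moment of g - 1
  have h3 : ∑ E ∈ R.powersetCard r, (g E - 1) ^ 2 ≤ κ * ((H:ℝ) + 1) ^ r := by
    set f : ℕ × ℕ → ℝ := fun q => pp w (Nat.dist q.1 q.2) ^ (2 * r * r ^ 2) - 1 with hf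
    have hf0 : ∀ q, 0 ≤ f q := by
      intro q
      have := one_le_pow₀ (one_le_pp w (Nat.dist q.1 q.2)) (n := 2 * r * r ^ 2)
      simp only [hf]
      linarith
    have h4 : ∑ E ∈ R.powersetCard r, (g E - 1) ^ 2 ≤
        ∑ E ∈ R.powersetCard r, ∑ q ∈ SingAvg_prs E, f q :=
      Finset.sum_le_sum fun E hE => (hg E hE).2.2
    have h5 := SingAvg_count r hr H f hf0
    have h6 : ∑ q ∈ SingAvg_prs R, f q ≤ κ * ((H:ℝ) + 1) ^ 2 := by
      have h7 : ∑ q ∈ SingAvg_prs R, f q ≤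
          ∑ d ∈ R, ∑ d' ∈ R, (if d' = d then 0 else pp w (Nat.dist d d') ^ (2 * r * r ^ 2) - 1) := by
        rw [← Finset.sum_product']
        have h8 : ∑ q ∈ SingAvg_prs R, f q = ∑ q ∈ SingAvg_prs R,
            (if q.2 = q.1 then 0 else pp w (Nat.dist q.1 q.2) ^ (2 * r * r ^ 2) - 1) := by
          refine Finset.sum_congr rfl fun q hq => ?_
          unfold SingAvg_prs at hq
          rw [Finset.mem_filter] at hq
          rw [if_neg (by omega)]
        rw [h8]
        refine Finset.sum_le_sum_of_subset_of_nonneg (Finset.filter_subset _ _) fun q _ _ => ?_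
        split_ifs
        · exact le_rfl
        · exact hf0 q
      refine h7.trans ?_
      have h9 : ∀ d ∈ R, ∑ d' ∈ R, (if d' = d then 0 else pp w (Nat.dist d d') ^ (2 * r * r ^ 2) - 1) ≤
          κ * ((H:ℝ) + 1) := by
        intro d hd
        have hdH : d ≤ H := by
          rw [hR, Finset.mem_range] at hd; omega
        have h10 := hH1 H hHH1 (Finset.range (Wp w)) ⟨0, Finset.mem_range.2 (Wp_pos w)⟩
          (fun r hr => Finset.mem_range.1 hr) d hdH
        rw [SingAvg_VS, ← hR] at h10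
        have h11 : ((R.card : ℕ) : ℝ) = (H:ℝ) + 1 := by
          rw [hR, Finset.card_range]; push_cast; ring
        rw [h11] at h10
        exact h10
      refine (Finset.sum_le_sum h9).trans (le_of_eq ?_)
      rw [Finset.sum_const, hR, Finset.card_range, nsmul_eq_mul]
      push_cast
      ring
    calc ∑ E ∈ R.powersetCard r, (g E - 1) ^ 2 ≤ _ := h4
      _ ≤ ((H:ℝ) + 1) ^ (r - 2) * ∑ q ∈ SingAvg_prs R, f q := h5
      _ ≤ ((H:ℝ) + 1) ^ (r - 2) * (κ * ((H:ℝ) + 1) ^ 2) := by gcongr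
      _ = κ * (((H:ℝ) + 1) ^ (r - 2) * ((H:ℝ) + 1) ^ 2) := by ring
      _ = κ * ((H:ℝ) + 1) ^ r := by rw [← pow_add]; congr 2; omega
  -- Cauchy-Schwarz
  refine h1.trans ?_
  set S := ∑ E ∈ R.powersetCard r, SP (PPy w) E * (g E - 1) with hS
  have hcs : S ^ 2 ≤ (∑ E ∈ R.powersetCard r, (SP (PPy w) E) ^ 2) *
      ∑ E ∈ R.powersetCard r, (g E - 1) ^ 2 := Finset.sum_mul_sq_le_sq_mul_sq _ _ _
  have h4 : S ^ 2 ≤ (η * (H:ℝ) ^ r) ^ 2 := by
    have hH2 : ((H:ℝ) + 1) ^ r ≤ 2 ^ r * (H:ℝ) ^ r := by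
      rw [← mul_pow]
      exact pow_le_pow_left₀ (by positivity) (by linarith) r
    calc S ^ 2 ≤ (4 * (C * ((H:ℝ) + 1) ^ r)) * (κ * ((H:ℝ) + 1) ^ r) := by
          refine hcs.trans ?_
          have e1 : 0 ≤ ∑ E ∈ R.powersetCard r, (g E - 1) ^ 2 :=
            Finset.sum_nonneg fun E _ => sq_nonneg _
          exact mul_le_mul h2 h3 e1 (by positivity)
      _ = 4 * C * κ * (((H:ℝ) + 1) ^ r) ^ 2 := by ring
      _ ≤ 4 * C * κ * (2 ^ r * (H:ℝ) ^ r) ^ 2 := by gcongr
      _ = 4 * C * 4 ^ r * κ * ((H:ℝ) ^ r) ^ 2 := by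
          have : (4:ℝ) ^ r = (2 ^ r) ^ 2 := by
            rw [← pow_mul, mul_comm, pow_mul]; norm_num
          rw [this]
          ring
      _ = (η * (H:ℝ) ^ r) ^ 2 := by
          rw [hκ]
          field_simp
  exact abs_le_of_sq_le_sq' h4 (by positivity) |>.2

end Pool.Agent.HLT
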