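import Mathlib
import Pool.Agent.HLT.BlockLower
import Pool.Agent.HLT.SingAvg

set_option autoImplicit false

open Finset Filter

namespace Pool.Agent.HLT

open Pool.Agent.HL26 Pool.Agent.Maynard

namespace E7aux


lemma choose_le_pow (H K : ℕ) (hH : 1 ≤ H) (hK : 2 ≤ K) :
    ((H + 1).choose K : ℝ) ≤ (H:ℝ) ^ K := by
  have h1 : K.factorial * (H + 1).choose K = (H + 1).descFactorial K :=
    (Nat.descFactorial_eq_factorial_mul_choose _ _).symm
  obtain ⟨k, rfl⟩ : ∃ k, K = k + 1 := ⟨K - 1, by omega⟩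
  have h2 : (H + 1).descFactorial (k + 1) = (H + 1) * H.descFactorial k :=
    Nat.succ_descFactorial_succ H k
  have h3 : H.descFactorial k ≤ H ^ k := Nat.descFactorial_le_pow H k
  have h4 : 2 ≤ (k + 1).factorial := by
    calc 2 = Nat.factorial 2 := rfl
      _ ≤ (k + 1).factorial := Nat.factorial_le hK
  have h5 : 2 * (H + 1).choose (k + 1) ≤ 2 * H ^ (k + 1) := by
    calc 2 * (H + 1).choose (k + 1) ≤ (k + 1).factorial * (H + 1).choose (k + 1) :=
          Nat.mul_le_mul_right _ h4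
      _ = (H + 1) * H.descFactorial k := by rw [h1, h2]
      _ ≤ (2 * H) * H ^ k := Nat.mul_le_mul (by omega) h3
      _ = 2 * H ^ (k + 1) := by ring
  have h6 : (H + 1).choose (k + 1) ≤ H ^ (k + 1) := by omega
  exact_mod_cast h6

lemma choose_ge (H r : ℕ) (h : 2 * r ≤ H) :
    (H:ℝ) ^ r ≤ 2 ^ r * (r.factorial : ℝ) * ((H + 1).choose r : ℝ) := by
  have h1 := Nat.pow_le_choose (α := ℝ) r (H + 1)
  rw [div_le_iff₀ (by positivity)] at h1
  have h2 : (H:ℝ) ≤ 2 * ((H + 1 + 1 - r : ℕ) : ℝ) := by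
    have : H ≤ 2 * (H + 1 + 1 - r) := by omega
    exact_mod_cast this
  calc (H:ℝ) ^ r ≤ (2 * ((H + 1 + 1 - r : ℕ) : ℝ)) ^ r := pow_le_pow_left₀ (by positivity) h2 r
    _ = 2 ^ r * (((H + 1 + 1 - r : ℕ) : ℝ) ^ r) := by rw [mul_pow]
    _ ≤ 2 ^ r * (((H + 1).choose r : ℝ) * (r.factorial : ℝ)) := by
        apply mul_le_mul_of_nonneg_left _ (by positivity)
        exact_mod_cast h1
    _ = _ := by ring

/-- disjoint dyadic blocks -/
lemma blocks (P : ℕ → Prop) [DecidablePred P] (M : ℕ) : ∀ I : ℕ,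
    ∑ i ∈ Finset.range I, ((Finset.Ioc (M / 2 ^ (i + 1)) (2 * (M / 2 ^ (i + 1)))).filter P).card +
      ((Finset.Icc 1 (M / 2 ^ I)).filter P).card ≤ ((Finset.Icc 1 M).filter P).card := by
  intro I
  induction I with
  | zero => simp
  | succ I ih =>
    rw [Finset.sum_range_succ]
    have h1 : M / 2 ^ (I + 1) = (M / 2 ^ I) / 2 := by
      rw [pow_succ, Nat.div_div_eq_div_mul]
    set a := M / 2 ^ I with ha
    set b := M / 2 ^ (I + 1) with hb
    have h2 : 2 * b ≤ a := by omega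
    have h3 : ((Finset.Ioc b (2 * b)).filter P).card + ((Finset.Icc 1 b).filter P).card ≤
        ((Finset.Icc 1 a).filter P).card := by
      rw [← Finset.card_union_of_disjoint]
      · apply Finset.card_le_card
        intro n hn
        rw [Finset.mem_union, Finset.mem_filter, Finset.mem_filter, Finset.mem_Ioc,
          Finset.mem_Icc] at hn
        rw [Finset.mem_filter, Finset.mem_Icc]
        rcases hn with hn | hn
        · exact ⟨⟨by omega, by omega⟩, hn.2⟩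
        · exact ⟨⟨by omega, by omega⟩, hn.2⟩
      · rw [Finset.disjoint_left]
        intro n hn hn'
        rw [Finset.mem_filter, Finset.mem_Ioc] at hn
        rw [Finset.mem_filter, Finset.mem_Icc] at hn'
        omega
    omega

lemma sum_blocks (M : ℕ) : ∀ I : ℕ,
    (1 - 1 / 2 ^ I) * (M:ℝ) - I ≤ ∑ i ∈ Finset.range I, ((M / 2 ^ (i + 1) : ℕ) : ℝ) := by
  intro I
  induction I with
  | zero => simp
  | succ I ih =>
    rw [Finset.sum_range_succ]
    have h1 : (M:ℝ) / 2 ^ (I + 1) - 1 ≤ ((M / 2 ^ (I + 1) : ℕ) : ℝ) := by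
      have h := Nat.lt_div_mul_add (a := M) (b := 2 ^ (I + 1)) (by positivity)
      have h' : (M:ℝ) < ((M / 2 ^ (I + 1) : ℕ) : ℝ) * 2 ^ (I + 1) + 2 ^ (I + 1) := by
        exact_mod_cast h
      have hp : (0:ℝ) < 2 ^ (I + 1) := by positivity
      rw [sub_le_iff_le_add, div_le_iff₀ hp]
      linarith
    have h2 : (1:ℝ) - 1 / 2 ^ (I + 1) = (1 - 1 / 2 ^ I) + 1 / 2 ^ (I + 1) := by
      rw [pow_succ]
      field_simp
      ring
    rw [h2]
    push_cast
    have h3 : ((1:ℝ) - 1 / 2 ^ I + 1 / 2 ^ (I + 1)) * M =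
      (1 - 1 / 2 ^ I) * M + M / 2 ^ (I + 1) := by ring
    rw [h3]
    linarith

lemma markov {α : Type} (S : Finset α) (f : α → ℝ) (hf : ∀ a ∈ S, 0 ≤ f a) (t : ℝ) (ht : 0 < t)
    (B : ℝ) (hB : ∑ a ∈ S, f a ≤ B * t) (p : α → Prop) [DecidablePred p]
    (hp : ∀ a ∈ S, p a → t ≤ f a) : ((S.filter p).card : ℝ) ≤ B := by
  have h1 : ((S.filter p).card : ℝ) * t ≤ ∑ a ∈ S, f a := by
    calc ((S.filter p).card : ℝ) * t = ∑ _a ∈ S.filter p, t := by
          rw [Finset.sum_const, nsmul_eq_mul]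
      _ ≤ ∑ a ∈ S.filter p, f a := by
          apply Finset.sum_le_sum
          intro a ha
          exact hp a (Finset.mem_filter.mp ha).1 (Finset.mem_filter.mp ha).2
      _ ≤ ∑ a ∈ S, f a := by
          apply Finset.sum_le_sum_of_subset_of_nonneg (Finset.filter_subset _ _)
          intro a ha _
          exact hf a ha
  have h2 := h1.trans hB
  exact le_of_mul_le_mul_right h2 ht

/-- lower bound for the prime tuples of one set -/
lemma pi_lower (m : ℕ) (E : Finset ℕ) (H I M w : ℕ) (x δ : ℝ) (hE : ∀ e ∈ E, e ≤ H)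
    (hM : M + H ≤ ⌊x⌋₊) (hx : 0 ≤ x) (hδ : δ ≤ 1) (hN : ∀ i < I, 2 ≤ M / 2 ^ (i + 1))
    (hblk : ∀ i < I, (1 - δ) * (((M / 2 ^ (i + 1) : ℕ) : ℝ) /
        (Real.log ((M / 2 ^ (i + 1) : ℕ) : ℝ)) ^ (m + 1)) *
          ∑ E' ∈ E.powersetCard (m + 1), SP (PPy w) E' ≤
        ∑ E' ∈ E.powersetCard (m + 1),
          (((Finset.Ioc (M / 2 ^ (i + 1)) (2 * (M / 2 ^ (i + 1)))).filter
            (fun n => ∀ e ∈ E', (n + e).Prime)).card : ℝ)) :
    (1 - δ) * ((∑ i ∈ Finset.range I, ((M / 2 ^ (i + 1) : ℕ) : ℝ)) / (Real.log x) ^ (m + 1)) *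
          ∑ E' ∈ E.powersetCard (m + 1), SP (PPy w) E' ≤
      ∑ E' ∈ E.powersetCard (m + 1), (tupleCount x (translate0 E') : ℝ) := by
  set A := ∑ E' ∈ E.powersetCard (m + 1), SP (PPy w) E' with hA
  have hA0 : 0 ≤ A := Finset.sum_nonneg (fun E _ => SP_nonneg _ (PPy_prime w) E)
  have hMx : (M:ℝ) ≤ x := by
    have h1 : ((M + H : ℕ) : ℝ) ≤ ((⌊x⌋₊ : ℕ) : ℝ) := by exact_mod_cast hM
    have h2 := Nat.floor_le hx
    push_cast at h1
    have h3 : (0:ℝ) ≤ (H:ℝ) := by positivity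
    linarith
  have h1 : ∀ i ∈ Finset.range I, (1 - δ) * (((M / 2 ^ (i + 1) : ℕ) : ℝ) /
        (Real.log x) ^ (m + 1)) * A ≤
        ∑ E' ∈ E.powersetCard (m + 1),
          (((Finset.Ioc (M / 2 ^ (i + 1)) (2 * (M / 2 ^ (i + 1)))).filter
            (fun n => ∀ e ∈ E', (n + e).Prime)).card : ℝ) := by
    intro i hi
    have hi' := Finset.mem_range.mp hi
    refine le_trans ?_ (hblk i hi')
    apply mul_le_mul_of_nonneg_right _ hA0
    apply mul_le_mul_of_nonneg_left _ (by linarith)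
    have h2 : (2:ℝ) ≤ ((M / 2 ^ (i + 1) : ℕ) : ℝ) := by exact_mod_cast hN i hi'
    have h3 : ((M / 2 ^ (i + 1) : ℕ) : ℝ) ≤ x := by
      refine le_trans ?_ hMx
      exact_mod_cast Nat.div_le_self _ _
    have h4 : 0 < Real.log ((M / 2 ^ (i + 1) : ℕ) : ℝ) := Real.log_pos (by linarith)
    have h5 : Real.log ((M / 2 ^ (i + 1) : ℕ) : ℝ) ≤ Real.log x :=
      Real.log_le_log (by linarith) h3
    apply div_le_div_of_nonneg_left (by linarith) (by positivity)
    exact pow_le_pow_left₀ h4.le h5 _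
  have h2 := Finset.sum_le_sum h1
  rw [Finset.sum_comm] at h2
  have h3 : ∑ i ∈ Finset.range I, (1 - δ) * (((M / 2 ^ (i + 1) : ℕ) : ℝ) /
        (Real.log x) ^ (m + 1)) * A =
      (1 - δ) * ((∑ i ∈ Finset.range I, ((M / 2 ^ (i + 1) : ℕ) : ℝ)) / (Real.log x) ^ (m + 1)) *
          A := by
    rw [← Finset.sum_mul, ← Finset.mul_sum, Finset.sum_div]
  rw [h3] at h2
  refine h2.trans ?_
  apply Finset.sum_le_sum
  intro E' hE'
  obtain ⟨hE1, hE2⟩ := Finset.mem_powersetCard.mp hE'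
  have hne : E'.Nonempty := by
    rw [← Finset.card_pos]
    omega
  have h4 := count_le_tupleCount E' H M x hne (fun e he => hE e (hE1 he)) hM
  have h5 := blocks (fun n => ∀ e ∈ E', (n + e).Prime) M I
  have h6 : ∑ i ∈ Finset.range I, ((Finset.Ioc (M / 2 ^ (i + 1)) (2 * (M / 2 ^ (i + 1)))).filter
      (fun n => ∀ e ∈ E', (n + e).Prime)).card ≤ tupleCount x (translate0 E') := by
    omega
  exact_mod_cast h6

lemma asym (A I : ℕ) (ε : ℝ) (hε : 0 < ε) (hε1 : ε ≤ 1) (hI : (1:ℝ) / 2 ^ I ≤ ε / 16) (N0 : ℕ)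
    (Y : ℝ) : ∃ X : ℝ, ∀ x : ℝ, X ≤ x → Y ≤ Real.log x ∧ 1 < x ∧ ∀ H : ℕ, (H:ℝ) ≤ (Real.log x) ^ A →
      H ≤ ⌊x⌋₊ ∧ (∀ i < I, N0 ≤ (⌊x⌋₊ - H) / 2 ^ (i + 1) ∧ 2 ≤ (⌊x⌋₊ - H) / 2 ^ (i + 1) ∧
        (H:ℝ) ≤ (Real.log (((⌊x⌋₊ - H) / 2 ^ (i + 1) : ℕ) : ℝ)) ^ (A + 1)) ∧
      (1 - ε / 8) * x ≤ ∑ i ∈ Finset.range I, (((⌊x⌋₊ - H) / 2 ^ (i + 1) : ℕ) : ℝ) := by
  have e1 : ∀ᶠ x : ℝ in atTop, (Real.log x) ^ A ≤ ε / 64 * x := by
    have h := (Real.isLittleO_pow_log_id_atTop (n := A)).def (c := ε / 64) (by positivity)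
    filter_upwards [h, eventually_ge_atTop (1:ℝ)] with x hx hx1
    rw [Real.norm_of_nonneg (pow_nonneg (Real.log_nonneg hx1) _), id,
      Real.norm_of_nonneg (by linarith)] at hx
    exact hx
  have e2 : ∀ᶠ x : ℝ in atTop, 64 * ((I:ℝ) + 1) / ε ≤ x := eventually_ge_atTop _
  have e3 : ∀ᶠ x : ℝ in atTop, Y ≤ Real.log x := Real.tendsto_log_atTop.eventually_ge_atTop _
  have e4 : ∀ᶠ x : ℝ in atTop, (2:ℝ) ^ (A + 1) ≤ Real.log x :=
    Real.tendsto_log_atTop.eventually_ge_atTop _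
  have e5 : ∀ᶠ x : ℝ in atTop, max ((2:ℝ) ^ (I + 2)) ((N0:ℝ) + 2) ≤ Real.sqrt x :=
    Real.tendsto_sqrt_atTop.eventually_ge_atTop _
  obtain ⟨X, hX⟩ := eventually_atTop.mp (e1.and (e2.and (e3.and (e4.and (e5.and
    (eventually_ge_atTop (64:ℝ)))))))
  refine ⟨X, fun x hx => ?_⟩
  obtain ⟨h1, h2, h3, h4, h5, h64⟩ := hX x hx
  refine ⟨h3, by linarith, fun H hH => ?_⟩
  have hx0 : 0 ≤ x := by linarith
  have hHx : (H:ℝ) ≤ ε / 64 * x := hH.trans h1
  have hex : ε / 64 * x ≤ x / 64 := by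
    have : ε * x ≤ 1 * x := mul_le_mul_of_nonneg_right hε1 hx0
    linarith
  have hfl : x - 1 < (⌊x⌋₊ : ℝ) := by
    have := Nat.lt_floor_add_one x
    linarith
  have hHf : H ≤ ⌊x⌋₊ := by
    have : (H:ℝ) ≤ (⌊x⌋₊ : ℝ) := by linarith
    exact_mod_cast this
  have hMr : ((⌊x⌋₊ - H : ℕ) : ℝ) = (⌊x⌋₊ : ℝ) - H := Nat.cast_sub hHf
  set M := ⌊x⌋₊ - H with hM
  have hMge : x - 1 - ε / 64 * x ≤ (M:ℝ) := by
    rw [hMr]
    linarith
  have hMhalf : x / 2 ≤ (M:ℝ) := by linarith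
  have hs1 : (2:ℝ) ^ (I + 2) ≤ Real.sqrt x := (le_max_left _ _).trans h5
  have hs2 : (N0:ℝ) + 2 ≤ Real.sqrt x := (le_max_right _ _).trans h5
  have hss : Real.sqrt x * Real.sqrt x = x := Real.mul_self_sqrt hx0
  have hNi : ∀ i < I, Real.sqrt x ≤ ((M / 2 ^ (i + 1) : ℕ) : ℝ) := by
    intro i hi
    have h6 := Nat.lt_div_mul_add (a := M) (b := 2 ^ I) (by positivity)
    have h6' : (M:ℝ) < ((M / 2 ^ I : ℕ) : ℝ) * 2 ^ I + 2 ^ I := by
      exact_mod_cast h6
    have h7 : M / 2 ^ I ≤ M / 2 ^ (i + 1) :=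
      Nat.div_le_div_left (Nat.pow_le_pow_right (by norm_num) (by omega)) (by positivity)
    have h7' : ((M / 2 ^ I : ℕ) : ℝ) ≤ ((M / 2 ^ (i + 1) : ℕ) : ℝ) := by exact_mod_cast h7
    refine le_trans ?_ h7'
    have hp : (0:ℝ) < 2 ^ I := by positivity
    have h8 : (2:ℝ) ^ (I + 2) = 4 * 2 ^ I := by ring
    have hs3 : (1:ℝ) ≤ Real.sqrt x := by
      have : (0:ℝ) ≤ N0 := by positivity
      linarith
    have h9 : (Real.sqrt x + 1) * 2 ^ I ≤ x / 2 := by
      have h10 : (Real.sqrt x + 1) * 2 ^ I ≤ (2 * Real.sqrt x) * 2 ^ I :=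
        mul_le_mul_of_nonneg_right (by linarith) hp.le
      have h11 : (4 * 2 ^ I) * Real.sqrt x ≤ Real.sqrt x * Real.sqrt x := by
        apply mul_le_mul_of_nonneg_right _ (Real.sqrt_nonneg _)
        rw [← h8]
        exact hs1
      rw [hss] at h11
      linarith
    have h12 : (Real.sqrt x + 1) * 2 ^ I < (((M / 2 ^ I : ℕ) : ℝ) + 1) * 2 ^ I := by
      linarith
    have h13 := lt_of_mul_lt_mul_right h12 hp.le
    linarith
  refine ⟨hHf, ?_, ?_⟩
  · intro i hi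
    have h14 := hNi i hi
    have h15 : (N0:ℝ) ≤ ((M / 2 ^ (i + 1) : ℕ) : ℝ) := by linarith
    have h16 : (2:ℝ) ≤ ((M / 2 ^ (i + 1) : ℕ) : ℝ) := by
      have : (0:ℝ) ≤ N0 := by positivity
      linarith
    refine ⟨by exact_mod_cast h15, by exact_mod_cast h16, ?_⟩
    have hlx : 0 < Real.log x := by
      have : (0:ℝ) < 2 ^ (A + 1) := by positivity
      linarith
    have h17 : Real.log x / 2 ≤ Real.log ((M / 2 ^ (i + 1) : ℕ) : ℝ) := by
      rw [← Real.log_sqrt hx0]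
      exact Real.log_le_log (Real.sqrt_pos.mpr (by linarith)) h14
    calc (H:ℝ) ≤ (Real.log x) ^ A := hH
      _ = (Real.log x) ^ A * 1 := by ring
      _ ≤ (Real.log x) ^ A * (Real.log x / 2 ^ (A + 1)) := by
          apply mul_le_mul_of_nonneg_left _ (by positivity)
          rw [le_div_iff₀ (by positivity)]
          linarith
      _ = (Real.log x / 2) ^ (A + 1) := by
          rw [div_pow]
          ring
      _ ≤ (Real.log ((M / 2 ^ (i + 1) : ℕ) : ℝ)) ^ (A + 1) :=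
          pow_le_pow_left₀ (by positivity) h17 _
  · refine le_trans ?_ (sum_blocks M I)
    have hM0 : (0:ℝ) ≤ M := by positivity
    have hMx : (M:ℝ) ≤ x := by
      rw [hMr]
      have := Nat.floor_le hx0
      have h18 : (0:ℝ) ≤ H := by positivity
      linarith
    have h19 : (1:ℝ) / 2 ^ I * M ≤ ε / 16 * x := by
      calc (1:ℝ) / 2 ^ I * M ≤ ε / 16 * M := mul_le_mul_of_nonneg_right hI hM0
        _ ≤ ε / 16 * x := mul_le_mul_of_nonneg_left hMx (by positivity)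
    have h20 : (I:ℝ) + 1 ≤ ε / 64 * x := by
      rw [div_le_iff₀ hε] at h2
      linarith
    have h21 : 0 ≤ ε * x := by positivity
    calc (1 - ε / 8) * x = x - ε * x / 8 := by ring
      _ ≤ x - 1 - ε / 64 * x - ε / 16 * x - I := by linarith
      _ ≤ (1 - 1 / 2 ^ I) * (M:ℝ) - I := by
          have : (1 - 1 / 2 ^ I) * (M:ℝ) = M - 1 / 2 ^ I * M := by ring
          rw [this]
          linarith


/-- the deduction for one set -/
lemma one_set (m K w : ℕ) (hw : 1 ≤ w) (E : Finset ℕ) (hEK : E.card = K) (ε δ x Tp L S : ℝ)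
    (hε : 0 < ε) (hε1 : ε ≤ 1) (hδ : δ ≤ ε / 8) (hL : 0 < L) (hx : 0 < x)
    (hwε : ((m:ℝ) + 1) ^ 2 / w ≤ ε / 8)
    (hKε : ((m:ℝ) + 1) * m / ((K:ℝ) * (Nat.totient (∏ p ∈ PPy w, p) : ℝ) /
      ((∏ p ∈ PPy w, p : ℕ) : ℝ)) ≤ ε / 8)
    (hK0 : 0 < K)
    (hS : (1 - ε / 8) * x ≤ S)
    (hSing : ∑ E' ∈ E.powersetCard (m + 1), max (singularSeries E' - SP (PPy w) E') 0 ≤
      ε / 8 * (K.choose (m + 1) : ℝ))
    (hpi : (1 - δ) * (S / L) * ∑ E' ∈ E.powersetCard (m + 1), SP (PPy w) E' ≤ Tp) :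
    (1 - ε) * (x / L) * ∑ E' ∈ E.powersetCard (m + 1), singularSeries E' ≤ Tp ∧
      (1 - ε) * (K.choose (m + 1) : ℝ) ≤ ∑ E' ∈ E.powersetCard (m + 1), singularSeries E' := by
  set A := ∑ E' ∈ E.powersetCard (m + 1), SP (PPy w) E' with hA
  set T := ∑ E' ∈ E.powersetCard (m + 1), singularSeries E' with hT
  set C : ℝ := (K.choose (m + 1) : ℝ) with hC
  have hC0 : 0 ≤ C := by positivity
  have hA0 : 0 ≤ A := Finset.sum_nonneg (fun E _ => SP_nonneg _ (PPy_prime w) E)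
  have hPpos : (0:ℝ) < ((∏ p ∈ PPy w, p : ℕ) : ℝ) := by
    exact_mod_cast Finset.prod_pos (fun p hp => (PPy_prime w p hp).pos)
  have hφpos : (0:ℝ) < (Nat.totient (∏ p ∈ PPy w, p) : ℝ) := by
    exact_mod_cast Nat.totient_pos.mpr (Finset.prod_pos (fun p hp => (PPy_prime w p hp).pos))
  have hKpos : (0:ℝ) < K := by exact_mod_cast hK0
  have h1 : (1 - ε / 8) * C ≤ A := by
    have h := sum_SP_ge (PPy w) (PPy_prime w) E m ((K:ℝ) * (Nat.totient (∏ p ∈ PPy w, p) : ℝ) /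
      ((∏ p ∈ PPy w, p : ℕ) : ℝ)) (by positivity) (by rw [hEK])
    rw [hEK] at h
    refine le_trans ?_ h
    apply mul_le_mul_of_nonneg_right _ hC0
    linarith
  have h2 : T ≤ A + ε / 8 * C := by
    have : T ≤ A + ∑ E' ∈ E.powersetCard (m + 1), max (singularSeries E' - SP (PPy w) E') 0 := by
      rw [hA, hT, ← Finset.sum_add_distrib]
      apply Finset.sum_le_sum
      intro E' _
      have := le_max_left (singularSeries E' - SP (PPy w) E') 0
      linarith
    linarith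
  have h3 : (1 - ε / 8) * A ≤ T := by
    rw [hA, hT, Finset.mul_sum]
    apply Finset.sum_le_sum
    intro E' hE'
    have h4 := singularSeries_ge E' w hw
    rw [(Finset.mem_powersetCard.mp hE').2] at h4
    refine le_trans ?_ h4
    apply mul_le_mul_of_nonneg_right _ (SP_nonneg _ (PPy_prime w) E')
    push_cast
    linarith
  have h5 : ε / 8 * C ≤ ε / 7 * A := by
    have h6 : (7 / 8) * C ≤ A := by
      refine le_trans ?_ h1
      apply mul_le_mul_of_nonneg_right _ hC0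
      linarith
    have h7 : ε / 7 * ((7 / 8) * C) ≤ ε / 7 * A := mul_le_mul_of_nonneg_left h6 (by positivity)
    linarith
  constructor
  · refine le_trans ?_ hpi
    have h8 : T ≤ (1 + ε / 7) * A := by linarith
    have h9 : 0 < x / L := by positivity
    have h10 : (1 - ε) * (1 + ε / 7) ≤ (1 - δ) * (1 - ε / 8) := by nlinarith
    have h11 : (1 - δ) * ((1 - ε / 8) * x / L) ≤ (1 - δ) * (S / L) := by
      apply mul_le_mul_of_nonneg_left _ (by linarith)
      exact div_le_div_of_nonneg_right hS hL.le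
    calc (1 - ε) * (x / L) * T ≤ (1 - ε) * (x / L) * ((1 + ε / 7) * A) := by
          apply mul_le_mul_of_nonneg_left h8
          apply mul_nonneg (by linarith) h9.le
      _ = ((1 - ε) * (1 + ε / 7)) * (x / L) * A := by ring
      _ ≤ ((1 - δ) * (1 - ε / 8)) * (x / L) * A := by
          apply mul_le_mul_of_nonneg_right _ hA0
          exact mul_le_mul_of_nonneg_right h10 h9.le
      _ = (1 - δ) * ((1 - ε / 8) * x / L) * A := by ring
      _ ≤ (1 - δ) * (S / L) * A := mul_le_mul_of_nonneg_right h11 hA0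
  · refine le_trans ?_ h3
    have h12 : (1 - ε / 8) * ((1 - ε / 8) * C) ≤ (1 - ε / 8) * A :=
      mul_le_mul_of_nonneg_left h1 (by linarith)
    refine le_trans ?_ h12
    have h13 : (1 - ε) ≤ (1 - ε / 8) * (1 - ε / 8) := by nlinarith
    calc (1 - ε) * C ≤ ((1 - ε / 8) * (1 - ε / 8)) * C := mul_le_mul_of_nonneg_right h13 hC0
      _ = _ := by ring

lemma bad_sing (m K w H : ℕ) (ε η : ℝ) (hε : 0 < ε) (hmK : m + 1 ≤ K)
    (hη : η * (2 ^ (m + 1) * ((m + 1).factorial : ℝ)) = ε ^ 2 / 64)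
    (hη0 : 0 ≤ η)
    (hH : 2 * (m + 1) ≤ H)
    (hs : ∑ E ∈ (Finset.range (H + 1)).powersetCard (m + 1),
      max (singularSeries E - SP (PPy w) E) 0 ≤ η * (H:ℝ) ^ (m + 1))
    (p : Finset ℕ → Prop) [DecidablePred p]
    (hp : ∀ E, p E → ε / 8 * (K.choose (m + 1) : ℝ) ≤
      ∑ E' ∈ E.powersetCard (m + 1), max (singularSeries E' - SP (PPy w) E') 0) :
    ((((Finset.range (H + 1)).powersetCard K).filter p).card : ℝ) ≤
      ε / 8 * ((H + 1).choose K : ℝ) := by
  have hCK : (0:ℝ) < (K.choose (m + 1) : ℝ) := by exact_mod_cast Nat.choose_pos hmK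
  have hCH : (0:ℝ) < ((H + 1).choose (m + 1) : ℝ) := by
    exact_mod_cast Nat.choose_pos (by omega)
  refine markov _ (fun E => ∑ E' ∈ E.powersetCard (m + 1),
    max (singularSeries E' - SP (PPy w) E') 0) ?_ (ε / 8 * (K.choose (m + 1) : ℝ)) (by positivity)
    _ ?_ p ?_
  · intro E _
    exact Finset.sum_nonneg (fun _ _ => le_max_right _ _)
  · have h1 := sum_sum_subsets (Finset.range (H + 1)) K (m + 1) hmK
      (fun E' => max (singularSeries E' - SP (PPy w) E') 0)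
    rw [Finset.card_range] at h1
    have h2 := choose_ge H (m + 1) hH
    have h3 : ((H + 1).choose (m + 1) : ℝ) * ∑ E ∈ (Finset.range (H + 1)).powersetCard K,
        ∑ E' ∈ E.powersetCard (m + 1), max (singularSeries E' - SP (PPy w) E') 0 ≤
        ((H + 1).choose (m + 1) : ℝ) * (ε / 8 * ((H + 1).choose K : ℝ) *
          (ε / 8 * (K.choose (m + 1) : ℝ))) := by
      rw [h1]
      calc ((H + 1).choose K : ℝ) * (K.choose (m + 1) : ℝ) *
            ∑ E' ∈ (Finset.range (H + 1)).powersetCard (m + 1),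
              max (singularSeries E' - SP (PPy w) E') 0
          ≤ ((H + 1).choose K : ℝ) * (K.choose (m + 1) : ℝ) * (η * (H:ℝ) ^ (m + 1)) :=
            mul_le_mul_of_nonneg_left hs (by positivity)
        _ ≤ ((H + 1).choose K : ℝ) * (K.choose (m + 1) : ℝ) *
            (η * (2 ^ (m + 1) * ((m + 1).factorial : ℝ) * ((H + 1).choose (m + 1) : ℝ))) := by
            apply mul_le_mul_of_nonneg_left _ (by positivity)
            exact mul_le_mul_of_nonneg_left h2 hη0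
        _ = ((H + 1).choose K : ℝ) * (K.choose (m + 1) : ℝ) *
            ((η * (2 ^ (m + 1) * ((m + 1).factorial : ℝ))) * ((H + 1).choose (m + 1) : ℝ)) := by
            ring
        _ = _ := by
            rw [hη]
            ring
    exact le_of_mul_le_mul_left h3 hCH
  · intro E _ hE
    exact hp E hE

end E7aux

open E7aux

open Classical in
/-- E7: the lower half of the Hardy-Littlewood asymptotic, with the sharp constant, holds on average
over the `(m+1)`-subsets of almost every set of bounded size. -/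
theorem bounded_sets (m : ℕ) (hm : 1 ≤ m) (ε : ℝ) (hε : 0 < ε) : ∃ K1 : ℕ, m + 1 ≤ K1 ∧
    ∀ K : ℕ, K1 ≤ K → ∃ K0 : ℝ, ∀ A : ℕ, ∃ X : ℝ, ∀ x : ℝ, X ≤ x → ∀ H : ℕ,
    K0 * Real.log x ≤ H → (H:ℝ) ≤ (Real.log x) ^ A →
    ((((Finset.range (H + 1)).powersetCard K).filter (fun E =>
        ¬ ((1 - ε) * (x / (Real.log x) ^ (m + 1)) *
              ∑ E' ∈ E.powersetCard (m + 1), singularSeries (translate0 E') ≤
            ∑ E' ∈ E.powersetCard (m + 1), (tupleCount x (translate0 E') : ℝ) ∧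
          (1 - ε) * (K.choose (m + 1) : ℝ) ≤
            ∑ E' ∈ E.powersetCard (m + 1), singularSeries (translate0 E')))).card : ℝ) ≤
      ε * ((H + 1).choose K : ℝ) := by
  -- reduction to ε ≤ 1
  suffices main : ∀ ε : ℝ, 0 < ε → ε ≤ 1 → ∃ K1 : ℕ, m + 1 ≤ K1 ∧
    ∀ K : ℕ, K1 ≤ K → ∃ K0 : ℝ, ∀ A : ℕ, ∃ X : ℝ, ∀ x : ℝ, X ≤ x → ∀ H : ℕ,
    K0 * Real.log x ≤ H → (H:ℝ) ≤ (Real.log x) ^ A →
    1 < x ∧ ((((Finset.range (H + 1)).powersetCard K).filter (fun E =>
        ¬ ((1 - ε) * (x / (Real.log x) ^ (m + 1)) *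
              ∑ E' ∈ E.powersetCard (m + 1), singularSeries E' ≤
            ∑ E' ∈ E.powersetCard (m + 1), (tupleCount x (translate0 E') : ℝ) ∧
          (1 - ε) * (K.choose (m + 1) : ℝ) ≤
            ∑ E' ∈ E.powersetCard (m + 1), singularSeries E'))).card : ℝ) ≤
      ε * ((H + 1).choose K : ℝ) by
    obtain ⟨K1, hK1, h1⟩ := main (min ε 1) (lt_min hε one_pos) (min_le_right _ _)
    refine ⟨K1, hK1, fun K hK => ?_⟩
    obtain ⟨K0, h2⟩ := h1 K hK
    refine ⟨K0, fun A => ?_⟩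
    obtain ⟨X, h3⟩ := h2 A
    refine ⟨X, fun x hx H hH1 hH2 => ?_⟩
    obtain ⟨hx1, h4⟩ := h3 x hx H hH1 hH2
    have h5 : min ε 1 ≤ ε := min_le_left _ _
    calc _ ≤ _ := ?_
      _ ≤ _ := h4
      _ ≤ ε * ((H + 1).choose K : ℝ) := mul_le_mul_of_nonneg_right h5 (by positivity)
    have h6 : ∀ E ∈ (Finset.range (H + 1)).powersetCard K,
        (¬ ((1 - ε) * (x / (Real.log x) ^ (m + 1)) *
              ∑ E' ∈ E.powersetCard (m + 1), singularSeries (translate0 E') ≤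
            ∑ E' ∈ E.powersetCard (m + 1), (tupleCount x (translate0 E') : ℝ) ∧
          (1 - ε) * (K.choose (m + 1) : ℝ) ≤
            ∑ E' ∈ E.powersetCard (m + 1), singularSeries (translate0 E'))) →
        (¬ ((1 - min ε 1) * (x / (Real.log x) ^ (m + 1)) *
              ∑ E' ∈ E.powersetCard (m + 1), singularSeries E' ≤
            ∑ E' ∈ E.powersetCard (m + 1), (tupleCount x (translate0 E') : ℝ) ∧
          (1 - min ε 1) * (K.choose (m + 1) : ℝ) ≤
            ∑ E' ∈ E.powersetCard (m + 1), singularSeries E')) := by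
      intro E _ hn hc
      apply hn
      simp only [Pool.Agent.HL26.singularSeries_translate0]
      have hlx : 0 < Real.log x := Real.log_pos hx1
      have hs0 : 0 ≤ ∑ E' ∈ E.powersetCard (m + 1), singularSeries E' :=
        Finset.sum_nonneg (fun E' _ => singularSeries_nonneg E')
      have h7 : 1 - ε ≤ 1 - min ε 1 := by linarith
      constructor
      · refine le_trans ?_ hc.1
        apply mul_le_mul_of_nonneg_right _ hs0
        apply mul_le_mul_of_nonneg_right h7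
        positivity
      · refine le_trans ?_ hc.2
        exact mul_le_mul_of_nonneg_right h7 (by positivity)
    have h8 : (((Finset.range (H + 1)).powersetCard K).filter (fun E =>
        ¬ ((1 - ε) * (x / (Real.log x) ^ (m + 1)) *
              ∑ E' ∈ E.powersetCard (m + 1), singularSeries (translate0 E') ≤
            ∑ E' ∈ E.powersetCard (m + 1), (tupleCount x (translate0 E') : ℝ) ∧
          (1 - ε) * (K.choose (m + 1) : ℝ) ≤
            ∑ E' ∈ E.powersetCard (m + 1), singularSeries (translate0 E')))).card ≤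
        (((Finset.range (H + 1)).powersetCard K).filter (fun E =>
        ¬ ((1 - min ε 1) * (x / (Real.log x) ^ (m + 1)) *
              ∑ E' ∈ E.powersetCard (m + 1), singularSeries E' ≤
            ∑ E' ∈ E.powersetCard (m + 1), (tupleCount x (translate0 E') : ℝ) ∧
          (1 - min ε 1) * (K.choose (m + 1) : ℝ) ≤
            ∑ E' ∈ E.powersetCard (m + 1), singularSeries E'))).card := by
      apply Finset.card_le_card
      intro E hE
      rw [Finset.mem_filter] at hE ⊢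
      exact ⟨hE.1, h6 E hE.1 hE.2⟩
    exact_mod_cast h8
  clear hε ε
  intro ε hε hε1
  obtain ⟨I, hI⟩ := exists_pow_lt_of_lt_one (show (0:ℝ) < ε / 16 by positivity)
    (show (1/2:ℝ) < 1 by norm_num)
  have hI' : (1:ℝ) / 2 ^ I ≤ ε / 16 := by
    rw [← one_div_pow]
    exact hI.le
  set δ : ℝ := ε / (8 * ((I:ℝ) + 1)) with hδ
  have hδpos : 0 < δ := by positivity
  have hδ8 : δ ≤ ε / 8 := by
    rw [hδ]
    apply div_le_div_of_nonneg_left hε.le (by norm_num)
    have : (0:ℝ) ≤ I := by positivity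
    linarith
  have hδ1 : δ ≤ 1 := by linarith
  obtain ⟨w1, hw1⟩ := block_lower m hm δ hδpos hδ1
  set η : ℝ := ε ^ 2 / (64 * (2 ^ (m + 1) * ((m + 1).factorial : ℝ))) with hη
  have hηpos : 0 < η := by positivity
  have hηeq : η * (2 ^ (m + 1) * ((m + 1).factorial : ℝ)) = ε ^ 2 / 64 := by
    rw [hη]
    field_simp
  obtain ⟨w0, hw0⟩ := sing_upper_avg (m + 1) (by omega) η hηpos
  set w : ℕ := max (max w1 w0) ⌈8 * ((m:ℝ) + 1) ^ 2 / ε⌉₊ + 1 with hw
  have hww1 : w1 ≤ w := by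
    have := le_max_left w1 w0
    have := le_max_left (max w1 w0) ⌈8 * ((m:ℝ) + 1) ^ 2 / ε⌉₊
    omega
  have hww0 : w0 ≤ w := by
    have := le_max_right w1 w0
    have := le_max_left (max w1 w0) ⌈8 * ((m:ℝ) + 1) ^ 2 / ε⌉₊
    omega
  have hw1' : 1 ≤ w := by omega
  have hwε : ((m:ℝ) + 1) ^ 2 / w ≤ ε / 8 := by
    have h1 : 8 * ((m:ℝ) + 1) ^ 2 / ε ≤ w := by
      refine (Nat.le_ceil _).trans ?_
      have h2 : ⌈8 * ((m:ℝ) + 1) ^ 2 / ε⌉₊ ≤ w := by
        have := le_max_right (max w1 w0) ⌈8 * ((m:ℝ) + 1) ^ 2 / ε⌉₊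
        omega
      exact_mod_cast h2
    have hwpos : (0:ℝ) < w := by exact_mod_cast hw1'
    rw [div_le_iff₀ hε] at h1
    rw [div_le_iff₀ hwpos]
    linarith
  obtain ⟨K2, hK2m, hK2⟩ := hw1 w hww1
  obtain ⟨H0, hH0⟩ := hw0 w hww0
  set P : ℝ := ((∏ p ∈ PPy w, p : ℕ) : ℝ) with hP
  set φ : ℝ := (Nat.totient (∏ p ∈ PPy w, p) : ℝ) with hφ
  have hPpos : 0 < P := by
    rw [hP]
    exact_mod_cast Finset.prod_pos (fun p hp => (PPy_prime w p hp).pos)
  have hφpos : 0 < φ := by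
    rw [hφ]
    exact_mod_cast Nat.totient_pos.mpr (Finset.prod_pos (fun p hp => (PPy_prime w p hp).pos))
  refine ⟨max K2 ⌈8 * (((m:ℝ) + 1) * m) * P / (ε * φ)⌉₊, le_trans hK2m (le_max_left _ _),
    fun K hK => ?_⟩
  have hKK2 : K2 ≤ K := le_trans (le_max_left _ _) hK
  have hmK : m + 1 ≤ K := le_trans hK2m hKK2
  have hKpos : (0:ℝ) < K := by
    have : 0 < K := by omega
    exact_mod_cast this
  have hKε : ((m:ℝ) + 1) * m / ((K:ℝ) * φ / P) ≤ ε / 8 := by
    have h1 : 8 * (((m:ℝ) + 1) * m) * P / (ε * φ) ≤ K := by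
      refine (Nat.le_ceil _).trans ?_
      exact_mod_cast le_trans (le_max_right _ _) hK
    rw [div_le_iff₀ (by positivity)] at h1
    rw [div_le_iff₀ (by positivity), ← mul_div_assoc, le_div_iff₀ hPpos]
    linarith
  obtain ⟨K0, hK0⟩ := hK2 K hKK2
  refine ⟨|K0| + 1, fun A => ?_⟩
  obtain ⟨N0, hN0⟩ := eventually_atTop.mp (hK0 (A + 1))
  obtain ⟨X, hX⟩ := asym A I ε hε hε1 hI' N0 (max (H0:ℝ) (2 * ((m:ℝ) + 1)))
  refine ⟨X, fun x hx H hH1 hH2 => ?_⟩
  obtain ⟨hY, hx1, hrest⟩ := hX x hx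
  obtain ⟨hHf, hblk, hsum⟩ := hrest H hH2
  refine ⟨hx1, ?_⟩
  have hlx : 0 < Real.log x := Real.log_pos hx1
  have hHlog : Real.log x ≤ H := by
    refine le_trans ?_ hH1
    have : 0 ≤ |K0| * Real.log x := by positivity
    linarith
  have hHH0 : H0 ≤ H := by
    have : (H0:ℝ) ≤ H := (le_max_left _ _).trans (hY.trans hHlog)
    exact_mod_cast this
  have hHm : 2 * (m + 1) ≤ H := by
    have : (2 * ((m:ℝ) + 1)) ≤ H := (le_max_right _ _).trans (hY.trans hHlog)
    exact_mod_cast this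
  set M := ⌊x⌋₊ - H with hM
  set F := (Finset.range (H + 1)).powersetCard K with hF
  let bad : ℕ → Finset ℕ → Prop := fun i E =>
    ∑ E' ∈ E.powersetCard (m + 1),
          (((Finset.Ioc (M / 2 ^ (i + 1)) (2 * (M / 2 ^ (i + 1)))).filter
            (fun n => ∀ e ∈ E', (n + e).Prime)).card : ℝ) <
        (1 - δ) * (((M / 2 ^ (i + 1) : ℕ):ℝ) / (Real.log ((M / 2 ^ (i + 1) : ℕ) : ℝ)) ^ (m + 1)) *
          ∑ E' ∈ E.powersetCard (m + 1), SP (PPy w) E'
  let badS : Finset ℕ → Prop := fun E => ε / 8 * (K.choose (m + 1) : ℝ) ≤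
      ∑ E' ∈ E.powersetCard (m + 1), max (singularSeries E' - SP (PPy w) E') 0
  have hbad : ∀ i ∈ Finset.range I, ((F.filter (bad i)).card : ℝ) ≤
      δ * ((H + 1).choose K : ℝ) := by
    intro i hi
    obtain ⟨g1, g2, g3⟩ := hblk i (Finset.mem_range.mp hi)
    have h := hN0 (M / 2 ^ (i + 1)) g1 H ?_ g3
    · refine le_trans ?_ h
      apply Nat.cast_le.mpr
      apply Finset.card_le_card
      intro E hE
      rw [Finset.mem_filter] at hE ⊢
      exact hE
    · have g2' : (2:ℝ) ≤ ((M / 2 ^ (i + 1) : ℕ) : ℝ) := by exact_mod_cast g2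
      have g4 : ((M / 2 ^ (i + 1) : ℕ) : ℝ) ≤ x := by
        calc ((M / 2 ^ (i + 1) : ℕ) : ℝ) ≤ (⌊x⌋₊ : ℝ) := by
              exact_mod_cast (Nat.div_le_self _ _).trans (Nat.sub_le _ _)
          _ ≤ x := Nat.floor_le (by linarith)
      have g5 : Real.log ((M / 2 ^ (i + 1) : ℕ) : ℝ) ≤ Real.log x :=
        Real.log_le_log (by linarith) g4
      have g6 : 0 ≤ Real.log ((M / 2 ^ (i + 1) : ℕ) : ℝ) := Real.log_nonneg (by linarith)
      calc K0 * Real.log ((M / 2 ^ (i + 1) : ℕ) : ℝ) ≤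
            |K0| * Real.log ((M / 2 ^ (i + 1) : ℕ) : ℝ) :=
            mul_le_mul_of_nonneg_right (le_abs_self _) g6
        _ ≤ |K0| * Real.log x := mul_le_mul_of_nonneg_left g5 (abs_nonneg _)
        _ ≤ (|K0| + 1) * Real.log x := mul_le_mul_of_nonneg_right (by linarith) hlx.le
        _ ≤ H := hH1
  have hbadS : ((F.filter badS).card : ℝ) ≤ ε / 8 * ((H + 1).choose K : ℝ) :=
    bad_sing m K w H ε η hε hmK hηeq hηpos.le hHm (hH0 H hHH0) badS (fun E hE => hE)
  have hgood : ∀ E ∈ F, (∀ i < I, ¬ bad i E) → ¬ badS E →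
      ((1 - ε) * (x / (Real.log x) ^ (m + 1)) *
              ∑ E' ∈ E.powersetCard (m + 1), singularSeries E' ≤
            ∑ E' ∈ E.powersetCard (m + 1), (tupleCount x (translate0 E') : ℝ) ∧
          (1 - ε) * (K.choose (m + 1) : ℝ) ≤
            ∑ E' ∈ E.powersetCard (m + 1), singularSeries E') := by
    intro E hE h1 h2
    obtain ⟨hE1, hE2⟩ := Finset.mem_powersetCard.mp hE
    have hEH : ∀ e ∈ E, e ≤ H := by
      intro e he
      have := Finset.mem_range.mp (hE1 he)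
      omega
    have hpi := pi_lower m E H I M w x δ hEH (by omega) (by linarith) hδ1
      (fun i hi => (hblk i hi).2.1) (fun i hi => not_lt.mp (h1 i hi))
    exact one_set m K w hw1' E hE2 ε δ x _ ((Real.log x) ^ (m + 1)) _ hε hε1 hδ8 (by positivity)
      (by linarith) hwε hKε (by omega) hsum (not_le.mp h2).le hpi
  have hsub : F.filter (fun E =>
        ¬ ((1 - ε) * (x / (Real.log x) ^ (m + 1)) *
              ∑ E' ∈ E.powersetCard (m + 1), singularSeries E' ≤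
            ∑ E' ∈ E.powersetCard (m + 1), (tupleCount x (translate0 E') : ℝ) ∧
          (1 - ε) * (K.choose (m + 1) : ℝ) ≤
            ∑ E' ∈ E.powersetCard (m + 1), singularSeries E')) ⊆
      ((Finset.range I).biUnion (fun i => F.filter (bad i))) ∪ F.filter badS := by
    intro E hE
    obtain ⟨hE1, hE2⟩ := Finset.mem_filter.mp hE
    by_contra hcon
    apply hE2
    apply hgood E hE1
    · intro i hi hb
      apply hcon
      apply Finset.mem_union_left
      rw [Finset.mem_biUnion]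
      exact ⟨i, Finset.mem_range.mpr hi, Finset.mem_filter.mpr ⟨hE1, hb⟩⟩
    · intro hb
      apply hcon
      exact Finset.mem_union_right _ (Finset.mem_filter.mpr ⟨hE1, hb⟩)
  have hcard : ((F.filter (fun E =>
        ¬ ((1 - ε) * (x / (Real.log x) ^ (m + 1)) *
              ∑ E' ∈ E.powersetCard (m + 1), singularSeries E' ≤
            ∑ E' ∈ E.powersetCard (m + 1), (tupleCount x (translate0 E') : ℝ) ∧
          (1 - ε) * (K.choose (m + 1) : ℝ) ≤
            ∑ E' ∈ E.powersetCard (m + 1), singularSeries E'))).card : ℝ) ≤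
      ∑ i ∈ Finset.range I, ((F.filter (bad i)).card : ℝ) + ((F.filter badS).card : ℝ) := by
    have h1 := (Finset.card_le_card hsub).trans (Finset.card_union_le _ _)
    have h2 : ((Finset.range I).biUnion (fun i => F.filter (bad i))).card ≤
        ∑ i ∈ Finset.range I, (F.filter (bad i)).card := Finset.card_biUnion_le
    have h3 := h1.trans (Nat.add_le_add_right h2 _)
    exact_mod_cast h3
  have hC0 : (0:ℝ) ≤ ((H + 1).choose K : ℝ) := by positivity
  have hI0 : (0:ℝ) ≤ I := by positivity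
  calc _ ≤ ∑ i ∈ Finset.range I, ((F.filter (bad i)).card : ℝ) + ((F.filter badS).card : ℝ) := hcard
    _ ≤ ∑ _i ∈ Finset.range I, δ * ((H + 1).choose K : ℝ) + ε / 8 * ((H + 1).choose K : ℝ) :=
        add_le_add (Finset.sum_le_sum hbad) hbadS
    _ = (I * δ) * ((H + 1).choose K : ℝ) + ε / 8 * ((H + 1).choose K : ℝ) := by
        rw [Finset.sum_const, Finset.card_range, nsmul_eq_mul]
        ring
    _ ≤ ε * ((H + 1).choose K : ℝ) := by
        have h1 : (I:ℝ) * δ ≤ ε / 8 := by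
          rw [hδ, mul_div_assoc', div_le_iff₀ (by positivity)]
          nlinarith
        have h2 : (I * δ) * ((H + 1).choose K : ℝ) ≤ ε / 8 * ((H + 1).choose K : ℝ) :=
          mul_le_mul_of_nonneg_right h1 hC0
        have h3 : 0 ≤ ε * ((H + 1).choose K : ℝ) := by positivity
        linarith

end Pool.Agent.HLT
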