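import Mathlib
import Pool.Agent.HLT.APDefs
import Pool.Agent.HLT.NDefs
import Pool.Agent.HLT.Close
import Pool.Agent.HLT.Verify

set_option autoImplicit false

open Finset Filter

namespace Pool.Agent.HLT

open Pool.Agent.HL26 Pool.Agent.Maynard

namespace G1aux

lemma Wp_pos (w : ℕ) : 0 < Wp w := Finset.prod_pos fun p hp => (PPy_prime w p hp).pos

lemma cWW_pos (w : ℕ) : 0 < cW (Wp w) := cW_pos (Wp_pos w)

/-- residues `r < W` with `a + r` coprime to `W` -/
def rho (w a : ℕ) : Finset ℕ := (Finset.range (Wp w)).filter (fun r => (a + r).Coprime (Wp w))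

lemma rho_card (w a : ℕ) : (rho w a).card = (Wp w).totient := by
  rw [← Nat.filter_coprime_Ico_eq_totient (Wp w) a]
  unfold rho
  refine Finset.card_bij (fun r _ => a + r) ?_ ?_ ?_
  · intro r hr
    rw [Finset.mem_filter, Finset.mem_range] at hr
    rw [Finset.mem_filter, Finset.mem_Ico]
    exact ⟨⟨by omega, by omega⟩, hr.2.symm⟩
  · intro r _ s _ h
    omega
  · intro n hn
    rw [Finset.mem_filter, Finset.mem_Ico] at hn
    refine ⟨n - a, ?_, by omega⟩
    rw [Finset.mem_filter, Finset.mem_range]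
    refine ⟨by omega, ?_⟩
    rw [Nat.add_sub_cancel' hn.1.1]
    exact hn.2.symm

lemma rho_card' (w a : ℕ) : ((rho w a).card : ℝ) = cW (Wp w) * Wp w := by
  rw [rho_card]
  unfold cW
  have h : (Wp w : ℝ) ≠ 0 := by exact_mod_cast (Wp_pos w).ne'
  field_simp

lemma rho_nonempty (w a : ℕ) : (rho w a).Nonempty := by
  rw [← Finset.card_pos, rho_card]
  exact Nat.totient_pos.2 (Wp_pos w)

lemma rho_mem (w a : ℕ) : ∀ r ∈ rho w a, r < Wp w ∧ (a + r).Coprime (Wp w) := by
  intro r hr
  rw [rho, Finset.mem_filter, Finset.mem_range] at hr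
  exact hr

lemma coprime_mod (w a e : ℕ) : (a + e % Wp w).Coprime (Wp w) ↔ (a + e).Coprime (Wp w) := by
  unfold Nat.Coprime
  rw [Nat.ModEq.gcd_eq (Nat.ModEq.add_left a (Nat.mod_modEq e (Wp w)))]

lemma mem_VS_iff (w H a e : ℕ) : e ∈ VS w H (rho w a) ↔ e ≤ H ∧ (a + e).Coprime (Wp w) := by
  unfold VS rho
  rw [Finset.mem_filter, Finset.mem_filter, Finset.mem_range, Finset.mem_range, coprime_mod]
  constructor
  · rintro ⟨h1, -, h3⟩
    exact ⟨by omega, h3⟩
  · rintro ⟨h1, h3⟩
    exact ⟨by omega, Nat.mod_lt _ (Wp_pos w), h3⟩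

lemma coprime_of_prime {w N n a e : ℕ} (hN : Wp w ≤ N) (hn : N < n) (hna : n ≡ a [MOD Wp w])
    (hp : (n + e).Prime) : (a + e).Coprime (Wp w) := by
  have h1 : (n + e).Coprime (Wp w) := by
    rw [Nat.Prime.coprime_iff_not_dvd hp]
    intro h
    have := Nat.le_of_dvd (Wp_pos w) h
    omega
  unfold Nat.Coprime at h1 ⊢
  rw [← h1]
  exact (Nat.ModEq.gcd_eq (Nat.ModEq.add_right e hna)).symm

lemma corr_eq {N w : ℕ} {S T : Finset ℕ} {r : ℕ} (e : Fin r → T) :
    corr (MM N w (S := S) (T := T)) e =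
      ((S.filter (fun n => ∀ i, (n + (e i : ℕ)).Prime)).card : ℝ) *
        (cW (Wp w) * Real.log N) ^ r / (S.card : ℝ) := by
  unfold corr av
  rw [Fintype.card_coe]
  congr 1
  have h1 : ∀ n : S, ∏ i, MM N w n (e i) =
      if (∀ i, ((n : ℕ) + (e i : ℕ)).Prime) then (cW (Wp w) * Real.log N) ^ r else 0 := by
    intro n
    unfold MM
    by_cases h : ∀ i, ((n : ℕ) + (e i : ℕ)).Prime
    · rw [if_pos h]
      rw [Finset.prod_congr rfl (fun i _ => if_pos (h i))]
      simp
    · rw [if_neg h]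
      push Not at h
      obtain ⟨i, hi⟩ := h
      exact Finset.prod_eq_zero (mem_univ i) (if_neg hi)
  rw [Finset.sum_congr rfl (fun n _ => h1 n)]
  have h2 : ∑ n : S, (if (∀ i, ((n : ℕ) + (e i : ℕ)).Prime) then
      (cW (Wp w) * Real.log N) ^ r else 0) =
      ∑ n ∈ S, (if (∀ i, (n + (e i : ℕ)).Prime) then
      (cW (Wp w) * Real.log N) ^ r else 0) :=
    Finset.sum_coe_sort S (fun n => if (∀ i, (n + (e i : ℕ)).Prime) then
      (cW (Wp w) * Real.log N) ^ r else 0)
  rw [h2, ← Finset.sum_filter, Finset.sum_const, nsmul_eq_mul]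

/-- splitting of `(N, 2N]` into classes -/
lemma split_classes (N w : ℕ) (P : ℕ → Prop) [DecidablePred P] :
    (((Finset.Ioc N (2 * N)).filter P).card : ℝ) =
      ∑ a : Fin (Wp w), (((XS N w (a : ℕ)).filter P).card : ℝ) := by
  have hmaps : Set.MapsTo (fun n => n % Wp w) ((Finset.Ioc N (2 * N)).filter P : Set ℕ)
      (Finset.range (Wp w) : Set ℕ) := by
    intro n _
    simp only [Finset.coe_range, Set.mem_Iio]
    exact Nat.mod_lt _ (Wp_pos w)
  rw [Finset.card_eq_sum_card_fiberwise hmaps, Nat.cast_sum,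
    ← Fin.sum_univ_eq_sum_range (fun a => ((((Finset.Ioc N (2 * N)).filter P).filter
      (fun n => n % Wp w = a)).card : ℝ)) (Wp w)]
  refine Finset.sum_congr rfl fun a _ => ?_
  congr 2
  ext n
  unfold XS
  simp only [Finset.mem_filter]
  have ha : (a : ℕ) % Wp w = a := Nat.mod_eq_of_lt a.2
  constructor
  · rintro ⟨⟨h1, h2⟩, h3⟩
    exact ⟨⟨h1, by unfold Nat.ModEq; rw [h3, ha]⟩, h2⟩
  · rintro ⟨⟨h1, h3⟩, h2⟩
    refine ⟨⟨h1, h2⟩, ?_⟩
    unfold Nat.ModEq at h3
    rw [h3, ha]

lemma sum_XS (N w : ℕ) : ∑ a : Fin (Wp w), ((XS N w (a : ℕ)).card : ℝ) = N := by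
  have h := split_classes N w (fun _ => True)
  simp only [Finset.filter_true, Nat.card_Ioc] at h
  rw [← h]
  have : 2 * N - N = N := by omega
  rw [this]

/-- average over a cell -/
noncomputable def cellAv {X V : Type} [Fintype V] {J : ℕ} (M : X → V → ℝ) (χ : V → Fin J) (n : X)
    (c : Fin J) : ℝ :=
  (∑ e ∈ univ.filter (fun e => χ e = c), M n e) / ((univ.filter (fun e => χ e = c)).card : ℝ)

/-- correlation of colours -/
noncomputable def corrC {X V : Type} [Fintype X] [Fintype V] {J r : ℕ} (M : X → V → ℝ)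
    (χ : V → Fin J) (c : Fin r → Fin J) : ℝ :=
  av (fun n => ∏ i, cellAv M χ n (c i))

lemma corr_proj {X V : Type} [Fintype X] [Fintype V] {J r : ℕ} (M : X → V → ℝ)
    (χ : V → Fin J) (e : Fin r → V) :
    corr (fun n => proj χ (M n)) e = corrC M χ (fun i => χ (e i)) := rfl

lemma corrC_nonneg {X V : Type} [Fintype X] [Fintype V] {J r : ℕ} (M : X → V → ℝ)
    (hM : ∀ n d, 0 ≤ M n d) (χ : V → Fin J) (c : Fin r → Fin J) : 0 ≤ corrC M χ c := by
  refine av_nonneg fun n => Finset.prod_nonneg fun i _ => ?_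
  exact div_nonneg (Finset.sum_nonneg fun e _ => hM _ _) (Nat.cast_nonneg _)

lemma MM_nonneg {N w : ℕ} (hN : 1 ≤ N) {S T : Finset ℕ} (n : S) (d : T) : 0 ≤ MM N w n d := by
  unfold MM
  split_ifs
  · exact mul_nonneg (cW_nonneg _) (Real.log_nonneg (by exact_mod_cast hN))
  · exact le_rfl

open Classical in
/-- extension by zero of a function of tuples in `V` -/
noncomputable def ext0 {r : ℕ} (V : Finset ℕ) (D : (Fin r → V) → ℝ) (e : Fin r → ℕ) : ℝ :=
  if h : ∀ i, e i ∈ V then D (fun i => ⟨e i, h i⟩) else 0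

lemma sum_ext0_le {r : ℕ} (V : Finset ℕ) (D : (Fin r → V) → ℝ) (hD : ∀ e, 0 ≤ D e)
    (S : Finset (Fin r → ℕ)) : ∑ e ∈ S, ext0 V D e ≤ ∑ e, D e := by
  classical
  let ι : (Fin r → V) → (Fin r → ℕ) := fun e i => (e i : ℕ)
  have hι : Function.Injective ι := by
    intro e e' h
    funext i
    exact Subtype.ext (congrFun h i)
  have h0 : ∀ e, 0 ≤ ext0 V D e := by
    intro e
    unfold ext0
    split_ifs
    · exact hD _
    · exact le_rfl
  have h1 : ∑ e, D e = ∑ e ∈ univ.image ι, ext0 V D e := by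
    rw [Finset.sum_image fun e _ e' _ h => hι h]
    refine Finset.sum_congr rfl fun e _ => ?_
    unfold ext0
    rw [dif_pos (fun i => (e i).2)]
  rw [h1]
  have h2 : ∑ e ∈ S, ext0 V D e = ∑ e ∈ S.filter (fun e => ∀ i, e i ∈ V), ext0 V D e := by
    rw [Finset.sum_filter]
    refine Finset.sum_congr rfl fun e _ => ?_
    split_ifs with h
    · rfl
    · unfold ext0
      rw [dif_neg h]
  rw [h2]
  refine Finset.sum_le_sum_of_subset_of_nonneg ?_ fun e _ _ => h0 e
  intro e he
  rw [Finset.mem_filter] at he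
  rw [Finset.mem_image]
  exact ⟨fun i => ⟨e i, he.2 i⟩, mem_univ _, rfl⟩

end G1aux

open G1aux

open Classical in
/-- G1: for primes in `(N, 2N]` the tuple counts are close, on average over all tuples, to a function
of the colours of the entries, for a colouring of `[0,H]` with a bounded number of colours. -/
theorem tuple_model_block (k : ℕ) (hk : 1 ≤ k) (ε : ℝ) (hε : 0 < ε) : ∃ (J : ℕ) (K : ℝ), ∀ A : ℕ,
    ∀ᶠ N : ℕ in atTop, ∀ H : ℕ, K * Real.log N ≤ H → (H:ℝ) ≤ (Real.log N) ^ A →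
    ∃ (χ : ℕ → Fin J) (g : (Fin (k + 1) → Fin J) → ℝ), (∀ i, 0 ≤ g i) ∧
      ∑ e ∈ (box (k + 1) H).filter (fun e => Function.Injective e),
        |(Real.log N) ^ (k + 1) / N *
            (((Finset.Ioc N (2 * N)).filter (fun n => ∀ i, (n + e i).Prime)).card : ℝ)
          - g (fun i => χ (e i))| ≤ ε * ((H:ℝ) + 1) ^ (k + 1) := by
  set ε1 : ℝ := ε / 2 ^ (k + 1) with hε1
  have hε10 : 0 < ε1 := by positivity
  obtain ⟨cp, hcp, hA3⟩ := close_tuples k hk 10 ε1 (by norm_num) hε10
  obtain ⟨C, hC, hB9⟩ := nt_PR k hk cp hcp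
  obtain ⟨κ, hκ, J1, hJ1, hclose⟩ := hA3 C hC
  obtain ⟨w, hw⟩ := hB9 κ hκ
  obtain ⟨K, hK⟩ := hw w le_rfl
  have hW : 0 < Wp w := G1aux.Wp_pos w
  have hWR : (0:ℝ) < Wp w := by exact_mod_cast hW
  have hφ : 0 < cW (Wp w) := cWW_pos w
  refine ⟨Fintype.card (Fin (Wp w) × (Fin (Wp w) → Fin J1)), max K 1, fun A => ?_⟩
  have hlogev : ∀ᶠ N : ℕ in atTop, (2 * Wp w : ℝ) ≤ Real.log N :=
    (Real.tendsto_log_atTop.comp tendsto_natCast_atTop_atTop).eventually_ge_atTop _
  filter_upwards [hK A, eventually_ge_atTop 2, eventually_ge_atTop (Wp w), hlogev]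
    with N hN hN2 hNW hlog H h1 h2
  have hL : 0 < Real.log N := by linarith
  have hNR : (0:ℝ) < N := by positivity
  have h1K : K * Real.log N ≤ H := (mul_le_mul_of_nonneg_right (le_max_left _ _) hL.le).trans h1
  have h11 : Real.log N ≤ H := by
    have := (mul_le_mul_of_nonneg_right (le_max_right K 1) hL.le).trans h1
    linarith
  have hHW : 2 * Wp w ≤ H := by
    have : (2 * Wp w : ℝ) ≤ H := hlog.trans h11
    exact_mod_cast this
  -- the colourings
  have hcol : ∀ a : ℕ, ∃ χ : VS w H (rho w a) → Fin J1, av (fun e : Fin (k + 1) → VS w H (rho w a) =>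
      if Function.Injective e then
        |corr (MM N w (S := XS N w a)) e - corr (fun n => proj χ (MM N w (S := XS N w a) n)) e|
      else 0) ≤ ε1 := by
    intro a
    obtain ⟨hXne, hVne, ⟨ν, hPR⟩, -, -⟩ := hN H h1K h2 a (rho w a) (rho_nonempty w a) (rho_mem w a)
    have : Nonempty (XS N w a) := hXne.to_subtype
    have : Nonempty (VS w H (rho w a)) := hVne.to_subtype
    obtain ⟨χ, hχ⟩ := hclose (XS N w a) (VS w H (rho w a)) (MM N w) ν _ hPR
    refine ⟨χ, le_trans (le_of_eq ?_) hχ⟩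
    congr 1
  choose χa hχa using hcol
  have hXne : ∀ a : ℕ, (XS N w a).Nonempty := fun a =>
    (hN H h1K h2 a (rho w a) (rho_nonempty w a) (rho_mem w a)).1
  have hVne : ∀ a : ℕ, (VS w H (rho w a)).Nonempty := fun a =>
    (hN H h1K h2 a (rho w a) (rho_nonempty w a) (rho_mem w a)).2.1
  set W1 : ℝ := (cW (Wp w) ^ (k + 1))⁻¹ with hW1
  have hW10 : 0 < W1 := by positivity
  let E : (Fin (Wp w) × (Fin (Wp w) → Fin J1)) ≃
    Fin (Fintype.card (Fin (Wp w) × (Fin (Wp w) → Fin J1))) := Fintype.equivFin _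
  let col : ℕ → (Fin (Wp w) × (Fin (Wp w) → Fin J1)) := fun e => (⟨e % Wp w, Nat.mod_lt _ hW⟩,
    fun a => if h : e ∈ VS w H (rho w a) then χa a ⟨e, h⟩ else ⟨0, hJ1⟩)
  let G : (Fin (k + 1) → (Fin (Wp w) × (Fin (Wp w) → Fin J1))) → ℝ := fun c => ∑ a : Fin (Wp w),
    if ∀ i, ((a:ℕ) + ((c i).1 : ℕ)).Coprime (Wp w) then
      W1 * (((XS N w (a:ℕ)).card : ℝ) / N) *
        corrC (MM N w (S := XS N w (a:ℕ))) (χa a) (fun i => (c i).2 a)
    else 0
  let DD : (a : ℕ) → (Fin (k + 1) → VS w H (rho w a)) → ℝ := fun a e =>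
      if Function.Injective e then
        |corr (MM N w (S := XS N w a)) e - corr (fun n => proj (χa a) (MM N w (S := XS N w a) n)) e|
      else 0
  have hDD0 : ∀ a e, 0 ≤ DD a e := by
    intro a e
    simp only [DD]
    split_ifs
    · exact abs_nonneg _
    · exact le_rfl
  refine ⟨fun e => E (col e), fun c => G (fun i => E.symm (c i)), ?_, ?_⟩
  · intro c
    refine Finset.sum_nonneg fun a _ => ?_
    split_ifs
    · exact mul_nonneg (by positivity) (corrC_nonneg _ (fun n d => MM_nonneg (by omega) n d) _ _)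
    · exact le_rfl
  simp only [Equiv.symm_apply_apply]
  -- pointwise bound
  have hpt : ∀ e ∈ (box (k + 1) H).filter (fun e => Function.Injective e),
      |(Real.log N) ^ (k + 1) / N *
            (((Finset.Ioc N (2 * N)).filter (fun n => ∀ i, (n + e i).Prime)).card : ℝ)
          - G (fun i => col (e i))| ≤
        ∑ a : Fin (Wp w), W1 * (((XS N w (a:ℕ)).card : ℝ) / N) *
          ext0 (VS w H (rho w a)) (DD a) e := by
    intro e he
    rw [Finset.mem_filter] at he
    have heH : ∀ i, e i ≤ H := by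
      intro i
      have h3 := he.1
      unfold box at h3
      rw [Fintype.mem_piFinset] at h3
      have h4 := h3 i
      rw [Finset.mem_range] at h4
      omega
    rw [split_classes N w, Finset.mul_sum]
    simp only [G]
    rw [← Finset.sum_sub_distrib]
    refine (Finset.abs_sum_le_sum_abs _ _).trans (Finset.sum_le_sum fun a _ => ?_)
    have hcond : (∀ i, ((a:ℕ) + ((col (e i)).1 : ℕ)).Coprime (Wp w)) ↔
        (∀ i, ((a:ℕ) + e i).Coprime (Wp w)) :=
      forall_congr' fun i => coprime_mod w a (e i)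
    by_cases halive : ∀ i, ((a:ℕ) + e i).Coprime (Wp w)
    · rw [if_pos (hcond.mpr halive)]
      have hV : ∀ i, e i ∈ VS w H (rho w a) :=
        fun i => (mem_VS_iff w H a (e i)).mpr ⟨heH i, halive i⟩
      have hc : (fun i => (col (e i)).2 a) = fun i => χa a ⟨e i, hV i⟩ := by
        funext i
        simp only [col]
        rw [dif_pos (hV i)]
      rw [hc]
      have hinj : Function.Injective (fun i => (⟨e i, hV i⟩ : VS w H (rho w a))) := by
        intro i j hij
        exact he.2 (congrArg Subtype.val hij)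
      have hX : (0:ℝ) < (XS N w (a:ℕ)).card := by exact_mod_cast (hXne a).card_pos
      have hcorr := corr_eq (N := N) (w := w) (S := XS N w (a:ℕ))
        (fun i => (⟨e i, hV i⟩ : VS w H (rho w a)))
      simp only at hcorr
      have e1 : (Real.log N) ^ (k + 1) / N *
          (((XS N w (a:ℕ)).filter (fun n => ∀ i, (n + e i).Prime)).card : ℝ) =
          W1 * (((XS N w (a:ℕ)).card : ℝ) / N) *
            corr (MM N w (S := XS N w (a:ℕ))) (fun i => (⟨e i, hV i⟩ : VS w H (rho w a))) := by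
        rw [hcorr, hW1, mul_pow]
        field_simp
      rw [e1, ← mul_sub, abs_mul, abs_of_nonneg (by positivity :
        0 ≤ W1 * (((XS N w (a:ℕ)).card : ℝ) / N))]
      refine mul_le_mul_of_nonneg_left (le_of_eq ?_) (by positivity)
      unfold ext0
      rw [dif_pos hV]
      simp only [DD]
      rw [if_pos hinj]
      rfl
    · rw [if_neg (fun h => halive (hcond.mp h))]
      have hzero : ((XS N w (a:ℕ)).filter (fun n => ∀ i, (n + e i).Prime)) = ∅ := by
        rw [Finset.filter_eq_empty_iff]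
        intro n hn hall
        apply halive
        intro i
        unfold XS at hn
        rw [Finset.mem_filter, Finset.mem_Ioc] at hn
        exact coprime_of_prime hNW hn.1.1 hn.2 (hall i)
      rw [hzero]
      simp only [Finset.card_empty, Nat.cast_zero, mul_zero, sub_zero, abs_zero]
      refine mul_nonneg (by positivity) ?_
      unfold ext0
      split_ifs
      · exact hDD0 _ _
      · exact le_rfl
  refine (Finset.sum_le_sum hpt).trans ?_
  rw [Finset.sum_comm]
  have hcls : ∀ a : Fin (Wp w), ∑ e ∈ (box (k + 1) H).filter (fun e => Function.Injective e),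
      W1 * (((XS N w (a:ℕ)).card : ℝ) / N) * ext0 (VS w H (rho w a)) (DD a) e ≤
      (((XS N w (a:ℕ)).card : ℝ) / N) * (ε * (H:ℝ) ^ (k + 1)) := by
    intro a
    rw [← Finset.mul_sum]
    have h3 := sum_ext0_le (VS w H (rho w a)) (DD a) (hDD0 a)
      ((box (k + 1) H).filter (fun e => Function.Injective e))
    have h4 : ∑ e, DD a e ≤ ε1 * ((VS w H (rho w a)).card : ℝ) ^ (k + 1) := by
      have h5 := hχa a
      unfold av at h5
      rw [Fintype.card_fun, Fintype.card_coe, Fintype.card_fin, Nat.cast_pow] at h5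
      have hVpos : (0:ℝ) < (VS w H (rho w a)).card := by exact_mod_cast (hVne a).card_pos
      rw [div_le_iff₀ (by positivity)] at h5
      exact h5
    have h6 : ((VS w H (rho w a)).card : ℝ) ≤ 2 * cW (Wp w) * H := by
      refine ((card_VS w H (rho w a) (fun r hr => (rho_mem w a r hr).1) hHW).2).trans (le_of_eq ?_)
      rw [rho_card']
      field_simp
    have h7 : ((VS w H (rho w a)).card : ℝ) ^ (k + 1) ≤ (2 * cW (Wp w) * H) ^ (k + 1) :=
      pow_le_pow_left₀ (Nat.cast_nonneg _) h6 _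
    calc W1 * (((XS N w (a:ℕ)).card : ℝ) / N) *
          ∑ e ∈ (box (k + 1) H).filter (fun e => Function.Injective e),
            ext0 (VS w H (rho w a)) (DD a) e
        ≤ W1 * (((XS N w (a:ℕ)).card : ℝ) / N) * (ε1 * (2 * cW (Wp w) * H) ^ (k + 1)) := by
          refine mul_le_mul_of_nonneg_left ?_ (by positivity)
          exact h3.trans (h4.trans (mul_le_mul_of_nonneg_left h7 hε10.le))
      _ = (((XS N w (a:ℕ)).card : ℝ) / N) * (ε * (H:ℝ) ^ (k + 1)) := by
          rw [hW1, hε1, mul_pow, mul_pow]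
          field_simp
  refine (Finset.sum_le_sum fun a _ => hcls a).trans ?_
  rw [← Finset.sum_mul, ← Finset.sum_div, sum_XS, div_self hNR.ne', one_mul]
  refine mul_le_mul_of_nonneg_left ?_ hε.le
  exact pow_le_pow_left₀ (Nat.cast_nonneg _) (by linarith) _

end Pool.Agent.HLT
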