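import Mathlib
import Pool.Agent.HLT.Defs
import Pool.Agent.HLT.AvProj

set_option autoImplicit false

open Finset

namespace Pool.Agent.HLT

namespace CellUp7

section basic

variable {V : Type} [Fintype V] [Nonempty V] {J : ℕ}

/-- the cell of `d` -/
noncomputable def cellc (χ : V → Fin J) (d : V) : ℝ :=
  ((univ.filter (fun e => χ e = χ d)).card : ℝ)

lemma proj_le_av (χ : V → Fin J) (β : ℝ) (hβ : 0 < β) (d : V)
    (hd : β * (Fintype.card V : ℝ) ≤ cellc χ d) (f : V → ℝ) (hf : ∀ x, 0 ≤ f x) :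
    proj χ f d ≤ 1 / β * av f := by
  unfold proj av
  have hV : (0:ℝ) < Fintype.card V := by exact_mod_cast Fintype.card_pos
  have h1 : ∑ e ∈ univ.filter (fun e => χ e = χ d), f e ≤ ∑ e, f e :=
    Finset.sum_le_sum_of_subset_of_nonneg (Finset.filter_subset _ _) (fun _ _ _ => hf _)
  have h0 : 0 ≤ ∑ e, f e := Finset.sum_nonneg (fun _ _ => hf _)
  have h2 : (0:ℝ) < β * (Fintype.card V : ℝ) := by positivity
  calc (∑ e ∈ univ.filter (fun e => χ e = χ d), f e) /
        ((univ.filter (fun e => χ e = χ d)).card : ℝ)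
      ≤ (∑ e, f e) / (β * (Fintype.card V : ℝ)) := by
        apply div_le_div₀ h0 h1 h2 hd
    _ = 1 / β * ((∑ e, f e) / (Fintype.card V : ℝ)) := by
        field_simp

lemma av_proj_swap {X : Type} [Fintype X] (χ : V → Fin J) (F : X → V → ℝ) (d : V) :
    av (fun n => proj χ (F n) d) = proj χ (fun d' => av (fun n => F n d')) d := by
  unfold proj av
  rw [← Finset.sum_div, div_div, Finset.sum_comm, ← Finset.sum_div, div_div]
  congr 1
  ring

lemma av_diag [DecidableEq V] (c : ℝ) (d : V) :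
    av (fun d' : V => if d' = d then c else 0) = c / (Fintype.card V : ℝ) := by
  unfold av
  rw [Finset.sum_ite_eq' univ d (fun _ => c)]
  simp

lemma small_measure (χ : V → Fin J) (β : ℝ) (hβ : 0 < β) :
    av (fun d : V => if cellc χ d < β * (Fintype.card V : ℝ) then (1:ℝ) else 0) ≤ J * β := by
  classical
  have hV : (0:ℝ) < Fintype.card V := by exact_mod_cast Fintype.card_pos
  unfold av
  rw [div_le_iff₀ hV]
  set S := univ.filter (fun d : V => cellc χ d < β * (Fintype.card V : ℝ)) with hS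
  have h1 : ∑ d : V, (if cellc χ d < β * (Fintype.card V : ℝ) then (1:ℝ) else 0) = (S.card : ℝ) := by
    rw [← Finset.sum_filter, Finset.sum_const, nsmul_eq_mul, mul_one]
  rw [h1]
  have h2 : S.card = ∑ c : Fin J, (S.filter (fun d => χ d = c)).card :=
    Finset.card_eq_sum_card_fiberwise (fun _ _ => by simp)
  rw [h2]
  push_cast
  have h3 : ∀ c : Fin J, ((S.filter (fun d => χ d = c)).card : ℝ) ≤ β * (Fintype.card V : ℝ) := by
    intro c
    rcases (S.filter (fun d => χ d = c)).eq_empty_or_nonempty with h | ⟨d, hd⟩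
    · rw [h]; simp; positivity
    · have hd1 := (Finset.mem_filter.mp hd).1
      have hd2 := (Finset.mem_filter.mp hd).2
      have hd3 := (Finset.mem_filter.mp hd1).2
      have hsub : S.filter (fun d => χ d = c) ⊆ univ.filter (fun e => χ e = χ d) := by
        intro y hy
        rw [Finset.mem_filter] at hy ⊢
        exact ⟨Finset.mem_univ _, by rw [hy.2, hd2]⟩
      have h4 : ((S.filter (fun d => χ d = c)).card : ℝ) ≤ cellc χ d := by
        unfold cellc
        exact_mod_cast Finset.card_le_card hsub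
      linarith
  calc ∑ c : Fin J, ((S.filter (fun d => χ d = c)).card : ℝ)
      ≤ ∑ _c : Fin J, β * (Fintype.card V : ℝ) := Finset.sum_le_sum (fun c _ => h3 c)
    _ = J * β * (Fintype.card V : ℝ) := by
        rw [Finset.sum_const, Finset.card_univ, Fintype.card_fin, nsmul_eq_mul]; ring

end basic

section second

variable {X V : Type} [Fintype X] [Nonempty X] [Fintype V] [Nonempty V] [DecidableEq V] {J : ℕ}

/-- second moment of a cell average of the majorant -/
lemma second_moment (ν4 : X → V → ℝ) (κ β : ℝ) (hβ : 0 < β)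
    (hmean : ∀ d, 1 - κ ≤ av (fun n => ν4 n d))
    (hrow : ∀ d, av (fun d' => if d' = d then 0 else max (gram ν4 d d' - 1) 0) ≤ κ)
    (hdiag : ∀ d, gram ν4 d d ≤ κ * (Fintype.card V : ℝ))
    (χ : V → Fin J) (d : V) (hd : β * (Fintype.card V : ℝ) ≤ cellc χ d) :
    av (fun n => (proj χ (ν4 n) d - 1) ^ 2) ≤ 2 * κ / β + 2 * κ := by
  have hV : (0:ℝ) < Fintype.card V := by exact_mod_cast Fintype.card_pos
  -- mean
  have h1 : 1 - κ ≤ av (fun n => proj χ (ν4 n) d) := by
    rw [av_proj_swap]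
    have := proj_mono χ hmean d
    rwa [proj_const] at this
  -- second moment
  have h2 : av (fun n => (proj χ (ν4 n) d) ^ 2) =
      proj χ (fun d1 => proj χ (fun d2 => gram ν4 d1 d2) d) d := by
    have e1 : ∀ n, (proj χ (ν4 n) d) ^ 2 =
        proj χ (fun d1 => proj χ (fun d2 => ν4 n d1 * ν4 n d2) d) d := by
      intro n
      have e2 : ∀ d1, proj χ (fun d2 => ν4 n d1 * ν4 n d2) d = ν4 n d1 * proj χ (ν4 n) d :=
        fun d1 => proj_mul_left χ _ _ d
      simp_rw [e2]
      rw [pow_two]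
      unfold proj
      rw [← Finset.sum_mul]
      ring
    simp_rw [e1]
    rw [av_proj_swap]
    congr 1
    funext d1
    rw [av_proj_swap]
    rfl
  have h3 : ∀ d1, proj χ (fun d2 => gram ν4 d1 d2) d ≤ 1 + 2 * κ / β := by
    intro d1
    have hle : ∀ d2, gram ν4 d1 d2 ≤ 1 + ((if d2 = d1 then 0 else max (gram ν4 d1 d2 - 1) 0) +
        (if d2 = d1 then |gram ν4 d1 d1| else 0)) := by
      intro d2
      by_cases h : d2 = d1
      · subst h
        simp only [if_true]
        have := le_abs_self (gram ν4 d2 d2)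
        linarith
      · simp only [if_neg h]
        have := le_max_left (gram ν4 d1 d2 - 1) 0
        linarith
    refine (proj_mono χ hle d).trans ?_
    rw [proj_add, proj_const]
    have h4 := proj_le_av χ β hβ d hd (fun d2 => (if d2 = d1 then 0 else max (gram ν4 d1 d2 - 1) 0) +
        (if d2 = d1 then |gram ν4 d1 d1| else 0)) (by
          intro x
          by_cases h : x = d1
          · simp only [h, if_true]; positivity
          · simp only [if_neg h]
            have := le_max_right (gram ν4 d1 x - 1) 0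
            linarith)
    rw [av_add, av_diag] at h4
    have h5 := hrow d1
    have hg0 : 0 ≤ gram ν4 d1 d1 := by
      unfold gram
      apply av_nonneg
      intro n
      exact mul_self_nonneg _
    have h6 : |gram ν4 d1 d1| / (Fintype.card V : ℝ) ≤ κ := by
      rw [abs_of_nonneg hg0, div_le_iff₀ hV]
      exact hdiag d1
    have h7 : 1 / β * (av (fun d2 => if d2 = d1 then 0 else max (gram ν4 d1 d2 - 1) 0) +
        |gram ν4 d1 d1| / (Fintype.card V : ℝ)) ≤ 1 / β * (κ + κ) := by
      apply mul_le_mul_of_nonneg_left _ (by positivity)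
      linarith
    have h8 : 1 / β * (κ + κ) = 2 * κ / β := by ring
    linarith
  have h4 : av (fun n => (proj χ (ν4 n) d) ^ 2) ≤ 1 + 2 * κ / β := by
    rw [h2]
    refine (proj_mono χ h3 d).trans ?_
    rw [proj_const]
  have h5 : av (fun n => (proj χ (ν4 n) d - 1) ^ 2) =
      av (fun n => (proj χ (ν4 n) d) ^ 2) - 2 * av (fun n => proj χ (ν4 n) d) + 1 := by
    have e1 : ∀ n, (proj χ (ν4 n) d - 1) ^ 2 =
        ((proj χ (ν4 n) d) ^ 2 - 2 * proj χ (ν4 n) d) + 1 := fun n => by ring
    simp_rw [e1]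
    rw [av_add, av_sub, av_mul_left, av_const]
  rw [h5]
  linarith

/-- big cells -/
lemma big_tuple (k : ℕ) (M ν ν4 : X → V → ℝ) (C κ β η T : ℝ) (hC : 1 ≤ C) (hκ : 0 ≤ κ)
    (hβ : 0 < β) (hη : 0 < η) (hT : 0 ≤ T)
    (hM0 : ∀ n d, 0 ≤ M n d) (hν0 : ∀ n d, 0 ≤ ν n d) (hMν : ∀ n d, M n d ≤ C * ν n d)
    (hmom : av (fun n => (av (fun d => ν n d)) ^ (2 * k + 2)) ≤ 2)
    (hM1 : ∀ d, av (fun n => M n d) ≤ 1 + κ)
    (hν4 : ∀ n d, 0 ≤ ν4 n d) (hMν4 : ∀ n d, M n d ≤ (4 + κ) * ν4 n d)
    (hmean : ∀ d, 1 - κ ≤ av (fun n => ν4 n d))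
    (hrow : ∀ d, av (fun d' => if d' = d then 0 else max (gram ν4 d d' - 1) 0) ≤ κ)
    (hdiag : ∀ d, gram ν4 d d ≤ κ * (Fintype.card V : ℝ))
    (hT2 : ((k + 1 : ℝ) * ((2 * κ / β + 2 * κ) / η ^ 2)) * (2 * ((C / β) ^ (k + 1)) ^ 2) ≤ T ^ 2)
    (χ : V → Fin J) (e : Fin (k + 1) → V)
    (he : ∀ i, β * (Fintype.card V : ℝ) ≤ cellc χ (e i)) :
    corr (fun n => proj χ (M n)) e ≤ ((4 + κ) * (1 + η)) ^ k * (1 + κ) + T := by
  classical
  set N : Fin (k + 1) → X → ℝ := fun i n => proj χ (M n) (e i) with hN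
  set Y : Fin (k + 1) → X → ℝ := fun i n => proj χ (ν4 n) (e i) with hY
  have hN0 : ∀ i n, 0 ≤ N i n := fun i n => proj_nonneg χ (hM0 n) _
  have hY0 : ∀ i n, 0 ≤ Y i n := fun i n => proj_nonneg χ (hν4 n) _
  have hNY : ∀ i n, N i n ≤ (4 + κ) * Y i n := by
    intro i n
    have h1 := proj_mono χ (hMν4 n) (e i)
    rw [proj_mul_left] at h1
    exact h1
  have hNν : ∀ i n, N i n ≤ C / β * av (fun d => ν n d) := by
    intro i n
    have h1 := proj_mono χ (hMν n) (e i)
    have h2 := proj_le_av χ β hβ (e i) (he i) (fun d => C * ν n d)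
      (fun d => mul_nonneg (by linarith) (hν0 n d))
    rw [av_mul_left] at h2
    calc N i n ≤ proj χ (fun d => C * ν n d) (e i) := h1
      _ ≤ 1 / β * (C * av (fun d => ν n d)) := h2
      _ = C / β * av (fun d => ν n d) := by ring
  set bad : X → ℝ := fun n => if ∃ i, 1 + η < Y i n then 1 else 0 with hbad
  set s : X → ℝ := fun n => (av (fun d => ν n d)) with hs
  have hs0 : ∀ n, 0 ≤ s n := fun n => av_nonneg (hν0 n)
  have hCβ : 0 ≤ C / β := by positivity
  have hq : 0 ≤ (4 + κ) * (1 + η) := by positivity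
  have hpt : ∀ n, ∏ i, N i n ≤ ((4 + κ) * (1 + η)) ^ k * N 0 n +
      (C / β) ^ (k + 1) * (bad n * s n ^ (k + 1)) := by
    intro n
    by_cases hb : ∃ i, 1 + η < Y i n
    · have h1 : ∏ i, N i n ≤ ∏ _i : Fin (k + 1), (C / β * s n) :=
        Finset.prod_le_prod (fun i _ => hN0 i n) (fun i _ => hNν i n)
      rw [Finset.prod_const, Finset.card_univ, Fintype.card_fin, mul_pow] at h1
      have h2 : 0 ≤ ((4 + κ) * (1 + η)) ^ k * N 0 n := mul_nonneg (pow_nonneg hq _) (hN0 0 n)
      simp only [hbad, if_pos hb, one_mul]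
      linarith
    · push Not at hb
      have h1 : ∏ j : Fin k, N j.succ n ≤ ∏ _j : Fin k, ((4 + κ) * (1 + η)) := by
        apply Finset.prod_le_prod (fun i _ => hN0 _ n)
        intro i _
        refine (hNY _ n).trans ?_
        exact mul_le_mul_of_nonneg_left (hb _) (by linarith)
      rw [Finset.prod_const, Finset.card_univ, Fintype.card_fin] at h1
      rw [Fin.prod_univ_succ]
      have h2 : N 0 n * ∏ j : Fin k, N j.succ n ≤ N 0 n * ((4 + κ) * (1 + η)) ^ k :=
        mul_le_mul_of_nonneg_left h1 (hN0 0 n)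
      have h3 : 0 ≤ (C / β) ^ (k + 1) * (bad n * s n ^ (k + 1)) := by
        have : 0 ≤ bad n := by simp only [hbad]; split_ifs <;> norm_num
        have h4 := hs0 n
        positivity
      linarith
  have hav : corr (fun n => proj χ (M n)) e ≤ ((4 + κ) * (1 + η)) ^ k * av (fun n => N 0 n) +
      (C / β) ^ (k + 1) * av (fun n => bad n * s n ^ (k + 1)) := by
    unfold corr
    refine (av_mono hpt).trans ?_
    rw [av_add, av_mul_left, av_mul_left]
  have hN0av : av (fun n => N 0 n) ≤ 1 + κ := by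
    simp only [hN]
    rw [av_proj_swap]
    have h1 := proj_mono χ hM1 (e 0)
    rwa [proj_const] at h1
  have hbadav : av bad ≤ (k + 1 : ℝ) * ((2 * κ / β + 2 * κ) / η ^ 2) := by
    have h1 : ∀ n, bad n ≤ ∑ i : Fin (k + 1), (Y i n - 1) ^ 2 / η ^ 2 := by
      intro n
      have hnn : ∀ i ∈ (univ : Finset (Fin (k + 1))), 0 ≤ (Y i n - 1) ^ 2 / η ^ 2 := by
        intro i _; positivity
      by_cases hb : ∃ i, 1 + η < Y i n
      · obtain ⟨i, hi⟩ := hb
        have h2 : (1:ℝ) ≤ (Y i n - 1) ^ 2 / η ^ 2 := by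
          rw [le_div_iff₀ (by positivity), one_mul]
          apply pow_le_pow_left₀ hη.le
          linarith
        have h3 := Finset.single_le_sum hnn (Finset.mem_univ i)
        have h4 : bad n ≤ 1 := by simp only [hbad]; split_ifs <;> norm_num
        linarith
      · simp only [hbad, if_neg hb]
        exact Finset.sum_nonneg hnn
    refine (av_mono h1).trans ?_
    rw [av_sum]
    have h2 : ∀ i : Fin (k + 1), av (fun n => (Y i n - 1) ^ 2 / η ^ 2) ≤
        (2 * κ / β + 2 * κ) / η ^ 2 := by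
      intro i
      have h3 := second_moment ν4 κ β hβ hmean hrow hdiag χ (e i) (he i)
      have h4 : av (fun n => (Y i n - 1) ^ 2 / η ^ 2) = av (fun n => (Y i n - 1) ^ 2) * (η ^ 2)⁻¹ := by
        rw [← av_mul_right]
        rfl
      rw [h4, div_eq_mul_inv]
      exact mul_le_mul_of_nonneg_right h3 (by positivity)
    refine (Finset.sum_le_sum (fun i _ => h2 i)).trans ?_
    rw [Finset.sum_const, Finset.card_univ, Fintype.card_fin, nsmul_eq_mul]
    push_cast
    exact le_refl _
  have hbs : (C / β) ^ (k + 1) * av (fun n => bad n * s n ^ (k + 1)) ≤ T := by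
    apply le_of_sq_le_sq _ hT
    have h1 := av_cs bad (fun n => s n ^ (k + 1))
    have h2 : av (fun n => bad n ^ 2) = av bad := by
      congr 1
      funext n
      simp only [hbad]
      split_ifs <;> norm_num
    have h3 : av (fun n => (s n ^ (k + 1)) ^ 2) ≤ 2 := by
      have : (fun n => (s n ^ (k + 1)) ^ 2) = (fun n => s n ^ (2 * k + 2)) := by
        funext n
        rw [← pow_mul]
        congr 1
        ring
      rw [this]
      exact hmom
    rw [h2] at h1
    have hb0 : 0 ≤ av bad := av_nonneg (fun n => by simp only [hbad]; split_ifs <;> norm_num)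
    have h4 : av bad * av (fun n => (s n ^ (k + 1)) ^ 2) ≤
        ((k + 1 : ℝ) * ((2 * κ / β + 2 * κ) / η ^ 2)) * 2 := by
      apply mul_le_mul hbadav h3
      · exact av_nonneg (fun n => by positivity)
      · exact hb0.trans hbadav
    rw [mul_pow]
    calc ((C / β) ^ (k + 1)) ^ 2 * (av (fun n => bad n * s n ^ (k + 1))) ^ 2
        ≤ ((C / β) ^ (k + 1)) ^ 2 * (((k + 1 : ℝ) * ((2 * κ / β + 2 * κ) / η ^ 2)) * 2) := by
          apply mul_le_mul_of_nonneg_left (h1.trans h4) (by positivity)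
      _ = ((k + 1 : ℝ) * ((2 * κ / β + 2 * κ) / η ^ 2)) * (2 * ((C / β) ^ (k + 1)) ^ 2) := by ring
      _ ≤ T ^ 2 := hT2
  have h9 : ((4 + κ) * (1 + η)) ^ k * av (fun n => N 0 n) ≤ ((4 + κ) * (1 + η)) ^ k * (1 + κ) :=
    mul_le_mul_of_nonneg_left hN0av (pow_nonneg hq _)
  linarith

/-- second moment of the average over the small cells -/
lemma small_second (M : X → V → ℝ) (κ Λ μ : ℝ)
    (hM0 : ∀ n d, 0 ≤ M n d) (hdiag : ∀ d, gram M d d ≤ Λ)
    (hsmall : Λ / (Fintype.card V : ℝ) ≤ κ)
    (hrow : ∀ d, av (fun d' => if d' = d then 0 else max (gram M d d' - 10) 0) ≤ κ)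
    (s : V → ℝ) (hs0 : ∀ d, 0 ≤ s d) (hs1 : ∀ d, s d ≤ 1) (hμ : av s ≤ μ) :
    av (fun n => (av (fun d => s d * M n d)) ^ 2) ≤ 10 * μ ^ 2 + 2 * κ := by
  have hV : (0:ℝ) < Fintype.card V := by exact_mod_cast Fintype.card_pos
  have hg0 : ∀ d d', 0 ≤ gram M d d' := by
    intro d d'
    unfold gram
    exact av_nonneg (fun n => mul_nonneg (hM0 _ _) (hM0 _ _))
  have h1 : av (fun n => (av (fun d => s d * M n d)) ^ 2) =
      av (fun d => av (fun d' => s d * s d' * gram M d d')) := by
    have e1 : ∀ n, (av (fun d => s d * M n d)) ^ 2 =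
        av (fun d => av (fun d' => (s d * M n d) * (s d' * M n d'))) := by
      intro n
      rw [pow_two, av_mul_av]
    simp_rw [e1]
    rw [av_comm]
    congr 1
    funext d
    rw [av_comm]
    congr 1
    funext d'
    unfold gram
    rw [← av_mul_left]
    congr 1
    funext n
    ring
  rw [h1]
  have h2 : ∀ d, av (fun d' => s d * s d' * gram M d d') ≤ 10 * (s d * av s) + 2 * κ := by
    intro d
    have hle : ∀ d', s d * s d' * gram M d d' ≤ 10 * s d * s d' +
        ((if d' = d then 0 else max (gram M d d' - 10) 0) + (if d' = d then Λ else 0)) := by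
      intro d'
      have hss : 0 ≤ s d * s d' := mul_nonneg (hs0 _) (hs0 _)
      have hss1 : s d * s d' ≤ 1 := by
        calc s d * s d' ≤ 1 * 1 := mul_le_mul (hs1 _) (hs1 _) (hs0 _) (by norm_num)
          _ = 1 := by norm_num
      by_cases h : d' = d
      · subst h
        simp only [if_true]
        have h3 : s d' * s d' * gram M d' d' ≤ 1 * gram M d' d' :=
          mul_le_mul_of_nonneg_right hss1 (hg0 _ _)
        have h4 := hdiag d'
        nlinarith
      · simp only [if_neg h]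
        have h3 : gram M d d' ≤ 10 + max (gram M d d' - 10) 0 := by
          have := le_max_left (gram M d d' - 10) 0
          linarith
        have h4 : 0 ≤ max (gram M d d' - 10) 0 := le_max_right _ _
        calc s d * s d' * gram M d d' ≤ s d * s d' * (10 + max (gram M d d' - 10) 0) :=
              mul_le_mul_of_nonneg_left h3 hss
          _ = 10 * s d * s d' + (s d * s d') * max (gram M d d' - 10) 0 := by ring
          _ ≤ 10 * s d * s d' + 1 * max (gram M d d' - 10) 0 := by
              have := mul_le_mul_of_nonneg_right hss1 h4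
              linarith
          _ = 10 * s d * s d' + (max (gram M d d' - 10) 0 + 0) := by ring
    refine (av_mono hle).trans ?_
    rw [av_add, av_add, av_diag, av_mul_left]
    have h3 := hrow d
    have h4 : 10 * s d * av s = 10 * (s d * av s) := by ring
    linarith
  refine (av_mono h2).trans ?_
  rw [av_add, av_const, av_mul_left, av_mul_right]
  have h3 : 0 ≤ av s := av_nonneg hs0
  have h4 : av s * av s ≤ μ ^ 2 := by
    rw [pow_two]
    exact mul_le_mul hμ hμ h3 (h3.trans hμ)
  linarith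

/-- tuples with an entry in a small cell -/
lemma small_tuple (k : ℕ) (hk : 1 ≤ k) (M ν : X → V → ℝ) (C κ Λ μ δ : ℝ) (hC : 1 ≤ C)
    (hδ : 0 ≤ δ)
    (hM0 : ∀ n d, 0 ≤ M n d) (hMν : ∀ n d, M n d ≤ C * ν n d)
    (hmom : av (fun n => (av (fun d => ν n d)) ^ (2 * k)) ≤ 2)
    (hdiag : ∀ d, gram M d d ≤ Λ)
    (hsmall : Λ / (Fintype.card V : ℝ) ≤ κ)
    (hrow : ∀ d, av (fun d' => if d' = d then 0 else max (gram M d d' - 10) 0) ≤ κ)
    (s : V → ℝ) (hs0 : ∀ d, 0 ≤ s d) (hs1 : ∀ d, s d ≤ 1) (hμ : av s ≤ μ)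
    (hδ2 : (10 * μ ^ 2 + 2 * κ) * (C ^ (2 * k) * 2) ≤ δ ^ 2) (i : Fin (k + 1)) :
    av (fun e : Fin (k + 1) → V => s (e i) * corr M e) ≤ δ := by
  have h1 : av (fun e : Fin (k + 1) → V => s (e i) * corr M e) =
      av (fun n => av (fun d => s d * M n d) * (av (fun d => M n d)) ^ k) := by
    have e1 : ∀ e : Fin (k + 1) → V, s (e i) * corr M e =
        av (fun n => ∏ j, (if j = i then s (e j) * M n (e j) else M n (e j))) := by
      intro e
      unfold corr
      rw [← av_mul_left]
      congr 1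
      funext n
      rw [← Finset.mul_prod_erase univ (fun j => (if j = i then s (e j) * M n (e j) else M n (e j)))
        (Finset.mem_univ i), ← Finset.mul_prod_erase univ (fun j => M n (e j)) (Finset.mem_univ i)]
      rw [if_pos rfl]
      have : ∏ j ∈ univ.erase i, (if j = i then s (e j) * M n (e j) else M n (e j)) =
          ∏ j ∈ univ.erase i, M n (e j) := by
        apply Finset.prod_congr rfl
        intro j hj
        rw [if_neg (Finset.ne_of_mem_erase hj)]
      rw [this]
      ring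
    simp_rw [e1]
    rw [av_comm]
    congr 1
    funext n
    have e2 := av_pi_prod (fun (j : Fin (k + 1)) (d : V) => if j = i then s d * M n d else M n d)
    rw [e2]
    rw [← Finset.mul_prod_erase univ _ (Finset.mem_univ i)]
    simp only [if_true]
    congr 1
    have e3 : ∏ j ∈ univ.erase i, av (fun d => if j = i then s d * M n d else M n d) =
        ∏ _j ∈ univ.erase i, av (fun d => M n d) := by
      apply Finset.prod_congr rfl
      intro j hj
      simp only [if_neg (Finset.ne_of_mem_erase hj)]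
    rw [e3, Finset.prod_const, Finset.card_erase_of_mem (Finset.mem_univ i), Finset.card_univ,
      Fintype.card_fin]
    simp
  rw [h1]
  apply le_of_sq_le_sq _ hδ
  refine (av_cs _ _).trans ?_
  have h2 := small_second M κ Λ μ hM0 hdiag hsmall hrow s hs0 hs1 hμ
  have h3 : av (fun n => ((av (fun d => M n d)) ^ k) ^ 2) ≤ C ^ (2 * k) * 2 := by
    have h4 : ∀ n, ((av (fun d => M n d)) ^ k) ^ 2 ≤ C ^ (2 * k) * (av (fun d => ν n d)) ^ (2 * k) := by
      intro n
      rw [← pow_mul, mul_comm k 2, ← mul_pow]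
      apply pow_le_pow_left₀ (av_nonneg (hM0 n))
      rw [← av_mul_left]
      exact av_mono (hMν n)
    refine (av_mono h4).trans ?_
    rw [av_mul_left]
    exact mul_le_mul_of_nonneg_left hmom (by positivity)
  refine le_trans ?_ hδ2
  apply mul_le_mul h2 h3
  · exact av_nonneg (fun n => by positivity)
  · have : 0 ≤ av (fun n => (av (fun d => s d * M n d)) ^ 2) := av_nonneg (fun n => by positivity)
    linarith

end second

end CellUp7

/-- U5: upper bound for almost all tuples from closeness to a cell model and a majorant of density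
`1/4`. -/
theorem upper_of_close (k : ℕ) (hk : 1 ≤ k) (ε : ℝ) (hε : 0 < ε) : ∃ ε1 : ℝ, 0 < ε1 ∧
    ∀ (C : ℝ) (J : ℕ), 1 ≤ C → ∃ κ : ℝ, 0 < κ ∧
    ∀ (X V : Type) [Fintype X] [Nonempty X] [Fintype V] [Nonempty V] [DecidableEq V]
      (M ν ν4 : X → V → ℝ) (κp Λ : ℝ), PR k M ν C 10 κp κ Λ →
      (∀ r : ℕ, 1 ≤ r → r ≤ 2 * k + 2 → av (fun n => (av (fun d => ν n d)) ^ r) ≤ 2) →
      (∀ d, av (fun n => M n d) ≤ 1 + κ) →
      (∀ n d, 0 ≤ ν4 n d) → (∀ n d, M n d ≤ (4 + κ) * ν4 n d) →
      (∀ d, 1 - κ ≤ av (fun n => ν4 n d)) →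
      (∀ d, av (fun d' => if d' = d then 0 else max (gram ν4 d d' - 1) 0) ≤ κ) →
      (∀ d, gram ν4 d d ≤ κ * (Fintype.card V : ℝ)) →
      ∀ χ : V → Fin J, av (fun e : Fin (k + 1) → V => if Function.Injective e then
        |corr M e - corr (fun n => proj χ (M n)) e| else 0) ≤ ε1 →
      av (fun e : Fin (k + 1) → V => if Function.Injective e then
        max (corr M e - 4 ^ k) 0 else 0) ≤ ε := by
  refine ⟨ε / 2, by positivity, ?_⟩
  intro C J hC
  have hC0 : 0 < C := by linarith
  -- η
  obtain ⟨t, ht, hpoly⟩ : ∃ t : ℝ, 0 < t ∧ ((4 + t) * (1 + t)) ^ k * (1 + t) ≤ 4 ^ k + ε / 8 := by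
    have hcont : ContinuousAt (fun t : ℝ => ((4 + t) * (1 + t)) ^ k * (1 + t)) 0 := by
      apply Continuous.continuousAt
      fun_prop
    have hev : Filter.Tendsto (fun t : ℝ => ((4 + t) * (1 + t)) ^ k * (1 + t)) (nhds 0)
        (nhds ((4 : ℝ) ^ k)) := by
      have h1 := hcont.tendsto
      have hval : ((4 + (0 : ℝ)) * (1 + 0)) ^ k * (1 + 0) = 4 ^ k := by norm_num
      have h1' : Filter.Tendsto (fun t : ℝ => ((4 + t) * (1 + t)) ^ k * (1 + t)) (nhds 0)
        (nhds (((4 + (0 : ℝ)) * (1 + 0)) ^ k * (1 + 0))) := h1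
      rwa [hval] at h1'
    have h2 := hev.eventually (gt_mem_nhds (show (4:ℝ) ^ k < 4 ^ k + ε / 8 by linarith))
    rw [Metric.eventually_nhds_iff] at h2
    obtain ⟨r, hr, h3⟩ := h2
    refine ⟨r / 2, by positivity, ?_⟩
    have h4 := @h3 (r / 2) (by rw [Real.dist_eq, sub_zero, abs_of_pos (by positivity)]; linarith)
    exact h4.le
  set δ : ℝ := ε / (4 * (k + 1)) with hδ
  have hδ0 : 0 < δ := by positivity
  set β : ℝ := δ / (10 * (J + 1) * C ^ k) with hβ
  have hβ0 : 0 < β := by positivity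
  set Q : ℝ := ((k + 1 : ℝ) * ((2 / β + 2) / t ^ 2)) * (2 * ((C / β) ^ (k + 1)) ^ 2) with hQ
  have hQ0 : 0 < Q := by positivity
  set κ : ℝ := min t (min (δ ^ 2 / (8 * C ^ (2 * k))) ((ε / 8) ^ 2 / Q)) with hκ
  have hκ0 : 0 < κ := by
    rw [hκ]
    apply lt_min ht
    apply lt_min <;> positivity
  have hκt : κ ≤ t := min_le_left _ _
  have hκ1 : κ ≤ δ ^ 2 / (8 * C ^ (2 * k)) := (min_le_right _ _).trans (min_le_left _ _)
  have hκ2 : κ ≤ (ε / 8) ^ 2 / Q := (min_le_right _ _).trans (min_le_right _ _)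
  refine ⟨κ, hκ0, ?_⟩
  intro X V _ _ _ _ _ M ν ν4 κp Λ hPR hmom hM1 hν4 hMν4 hmean hrow4 hdiag4 χ hclose
  classical
  -- big tuples
  have hbig : ∀ e : Fin (k + 1) → V, (∀ i, β * (Fintype.card V : ℝ) ≤ CellUp7.cellc χ (e i)) →
      corr (fun n => proj χ (M n)) e ≤ 4 ^ k + ε / 4 := by
    intro e he
    have h1 := CellUp7.big_tuple k M ν ν4 C κ β t (ε / 8) hC hκ0.le hβ0 ht (by positivity)
      hPR.nonneg hPR.nu_nonneg hPR.le (hmom (2 * k + 2) (by omega) le_rfl) hM1 hν4 hMν4 hmean
      hrow4 hdiag4 (by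
        have h2 : ((k + 1 : ℝ) * ((2 * κ / β + 2 * κ) / t ^ 2)) * (2 * ((C / β) ^ (k + 1)) ^ 2)
            = κ * Q := by
          rw [hQ]; ring
        rw [h2]
        rw [le_div_iff₀ hQ0] at hκ2
        exact hκ2) χ e he
    have h3 : ((4 + κ) * (1 + t)) ^ k * (1 + κ) ≤ ((4 + t) * (1 + t)) ^ k * (1 + t) := by
      apply mul_le_mul _ (by linarith) (by linarith) (by positivity)
      apply pow_le_pow_left₀ (by positivity)
      apply mul_le_mul_of_nonneg_right (by linarith) (by linarith)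
    linarith
  -- small tuples
  set s : V → ℝ := fun d => if CellUp7.cellc χ d < β * (Fintype.card V : ℝ) then (1:ℝ) else 0 with hs
  have hs0 : ∀ d, 0 ≤ s d := fun d => by simp only [hs]; split_ifs <;> norm_num
  have hs1 : ∀ d, s d ≤ 1 := fun d => by simp only [hs]; split_ifs <;> norm_num
  have hsm : av s ≤ J * β := CellUp7.small_measure χ β hβ0
  have hsmall : ∀ i : Fin (k + 1), av (fun e : Fin (k + 1) → V => s (e i) * corr M e) ≤ δ := by
    intro i
    apply CellUp7.small_tuple k hk M ν C κ Λ (J * β) δ hC hδ0.le hPR.nonneg hPR.le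
      (hmom (2 * k) (by omega) (by omega)) hPR.diag hPR.small hPR.row s hs0 hs1 hsm _ i
    have hCk : 0 < C ^ k := by positivity
    have h1 : (J * β) * C ^ k ≤ δ / 10 := by
      rw [hβ]
      have : (J:ℝ) * (δ / (10 * (J + 1) * C ^ k)) * C ^ k = δ / 10 * (J / (J + 1)) := by
        field_simp
      rw [this]
      have h2 : (J:ℝ) / (J + 1) ≤ 1 := by
        rw [div_le_one (by positivity)]
        linarith
      have h3 : 0 ≤ δ / 10 := by positivity
      nlinarith
    have h2 : ((J * β) * C ^ k) ^ 2 ≤ (δ / 10) ^ 2 := pow_le_pow_left₀ (by positivity) h1 2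
    have h3 : κ * (8 * C ^ (2 * k)) ≤ δ ^ 2 := by
      rwa [le_div_iff₀ (by positivity)] at hκ1
    have h4 : (10 * (J * β) ^ 2 + 2 * κ) * (C ^ (2 * k) * 2) =
        20 * ((J * β) * C ^ k) ^ 2 + κ * (8 * C ^ (2 * k)) / 2 := by
      have : C ^ (2 * k) = (C ^ k) ^ 2 := by rw [← pow_mul, mul_comm]
      rw [this]; ring
    rw [h4]
    nlinarith
  -- corr M ≥ 0
  have hcorr0 : ∀ e : Fin (k + 1) → V, 0 ≤ corr M e := fun e =>
    av_nonneg (fun n => Finset.prod_nonneg (fun i _ => hPR.nonneg _ _))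
  have hpt : ∀ e : Fin (k + 1) → V,
      (if Function.Injective e then max (corr M e - 4 ^ k) 0 else 0) ≤
        (if Function.Injective e then |corr M e - corr (fun n => proj χ (M n)) e| else 0) +
          ε / 4 + ∑ i : Fin (k + 1), s (e i) * corr M e := by
    intro e
    have hsum0 : 0 ≤ ∑ i : Fin (k + 1), s (e i) * corr M e :=
      Finset.sum_nonneg (fun i _ => mul_nonneg (hs0 _) (hcorr0 e))
    by_cases hinj : Function.Injective e
    · simp only [if_pos hinj]
      by_cases hb : ∀ i, β * (Fintype.card V : ℝ) ≤ CellUp7.cellc χ (e i)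
      · have h1 := hbig e hb
        have h2 := le_abs_self (corr M e - corr (fun n => proj χ (M n)) e)
        have h3 := abs_nonneg (corr M e - corr (fun n => proj χ (M n)) e)
        apply max_le
        · linarith
        · linarith
      · push Not at hb
        obtain ⟨i, hi⟩ := hb
        have h1 : s (e i) = 1 := by simp only [hs, if_pos hi]
        have h2 : s (e i) * corr M e ≤ ∑ i : Fin (k + 1), s (e i) * corr M e :=
          Finset.single_le_sum (f := fun i => s (e i) * corr M e)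
            (fun i _ => mul_nonneg (hs0 _) (hcorr0 e)) (Finset.mem_univ i)
        rw [h1, one_mul] at h2
        have h3 := abs_nonneg (corr M e - corr (fun n => proj χ (M n)) e)
        have h4 : (0:ℝ) < 4 ^ k := by positivity
        apply max_le
        · linarith
        · have := hcorr0 e
          linarith
    · simp only [if_neg hinj]
      linarith
  refine (av_mono hpt).trans ?_
  rw [av_add, av_add, av_const, av_sum]
  have h1 : ∑ i : Fin (k + 1), av (fun e : Fin (k + 1) → V => s (e i) * corr M e) ≤ ε / 4 := by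
    refine (Finset.sum_le_sum (fun i _ => hsmall i)).trans ?_
    rw [Finset.sum_const, Finset.card_univ, Fintype.card_fin, nsmul_eq_mul, hδ]
    push_cast
    have : ((k:ℝ) + 1) * (ε / (4 * (k + 1))) = ε / 4 := by field_simp
    rw [this]
  have h2 : av (fun e : Fin (k + 1) → V => if Function.Injective e then
        |corr M e - corr (fun n => proj χ (M n)) e| else 0) ≤ ε / 2 := by
    exact hclose
  linarith

end Pool.Agent.HLT
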