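import Mathlib
import Pool.Agent.HLT.APDefs
import Pool.Agent.HLT.NDefs
import Pool.Agent.HLT.Close
import Pool.Agent.HLT.VerifyU
import Pool.Agent.HLT.Maj4
import Pool.Agent.HLT.CellUpper
import Pool.Agent.HLT.APBlock
import Pool.Agent.HL26.Sing
import Pool.Agent.HL26.Assemble

set_option autoImplicit false

open Finset Filter

namespace Pool.Agent.HLT

open Pool.Agent.HL26 Pool.Agent.Maynard

namespace U7aux

open G1aux

lemma PR_mono {X V : Type} [Fintype X] [Fintype V] [DecidableEq V] {m : ℕ} {M ν : X → V → ℝ}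
    {C B κp κ κ' Λ : ℝ} (h : PR m M ν C B κp κ Λ) (hκ : κ ≤ κ') : PR m M ν C B κp κ' Λ :=
  ⟨h.nonneg, h.nu_nonneg, h.le, h.diag, h.small.trans hκ, fun d => (h.row d).trans hκ, h.nu_two,
    h.nu_m, h.pseudo⟩

lemma card_units_eq' (PP : Finset ℕ) (hPP : ∀ p ∈ PP, p.Prime) (P : ℕ) (hP : P = ∏ p ∈ PP, p) [NeZero P]
    (E : Finset ℕ) [DecidablePred fun c : ZMod P => ∀ e ∈ E, IsUnit (c + (e : ZMod P))] :
    (Finset.univ.filter (fun c : ZMod P => ∀ e ∈ E, IsUnit (c + (e : ZMod P)))).card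
      = ∏ p ∈ PP, (p - nu E p) := by
  subst hP
  exact card_units_eq PP hPP E

lemma SP_eq' (PP : Finset ℕ) (hPP : ∀ p ∈ PP, p.Prime) (P : ℕ) (hP : P = ∏ p ∈ PP, p) (E : Finset ℕ) :
    ((∏ p ∈ PP, (p - nu E p) : ℕ) : ℝ) = (P:ℝ) * cW P ^ E.card * SP PP E := by
  have hW : (0:ℝ) < P := by
    rw [hP]
    exact_mod_cast Finset.prod_pos fun p hp => (hPP p hp).pos
  have hφ : (0:ℝ) < (P.totient : ℝ) := by
    rw [hP]
    exact_mod_cast Nat.totient_pos.2 (Finset.prod_pos fun p hp => (hPP p hp).pos)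
  rw [SP_eq PP hPP E, ← hP]
  unfold cW
  rw [div_pow, div_pow]
  field_simp

open Classical in
/-- the number of classes in which all the `a + e i` are coprime to `W` -/
lemma card_alive (w r : ℕ) (e : Fin r → ℕ) (he : Function.Injective e) :
    ∑ a : Fin (Wp w), (if ∀ i, ((a:ℕ) + e i).Coprime (Wp w) then (1:ℝ) else 0) =
      (Wp w : ℝ) * cW (Wp w) ^ r * SP (PPy w) (Finset.univ.image e) := by
  have : NeZero (Wp w) := ⟨(Wp_pos w).ne'⟩
  have hcard : (Finset.univ.image e).card = r := by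
    rw [Finset.card_image_of_injective _ he, Finset.card_univ, Fintype.card_fin]
  have h1 := card_units_eq' (PPy w) (PPy_prime w) (Wp w) rfl (Finset.univ.image e)
  have h2 := SP_eq' (PPy w) (PPy_prime w) (Wp w) rfl (Finset.univ.image e)
  rw [hcard] at h2
  rw [← h2, ← h1, Finset.sum_boole]
  norm_cast
  refine Finset.card_bij (fun a _ => ((a:ℕ) : ZMod (Wp w))) ?_ ?_ ?_
  · intro a ha
    rw [Finset.mem_filter] at ha ⊢
    refine ⟨mem_univ _, ?_⟩
    intro x hx
    rw [Finset.mem_image] at hx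
    obtain ⟨i, -, rfl⟩ := hx
    have h3 := ha.2 i
    rw [← ZMod.isUnit_iff_coprime] at h3
    push_cast at h3
    exact h3
  · intro a _ b _ hab
    apply Fin.ext
    rw [ZMod.natCast_eq_natCast_iff] at hab
    exact Nat.ModEq.eq_of_lt_of_lt hab a.2 b.2
  · intro c hc
    rw [Finset.mem_filter] at hc
    refine ⟨⟨c.val, ZMod.val_lt c⟩, ?_, by simp⟩
    rw [Finset.mem_filter]
    refine ⟨mem_univ _, fun i => ?_⟩
    rw [← ZMod.isUnit_iff_coprime]
    push_cast
    rw [ZMod.natCast_zmod_val]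
    exact hc.2 _ (Finset.mem_image_of_mem _ (mem_univ i))

end U7aux

open G1aux U7aux

open Classical in
/-- U7: the excess over `4^k` times the Hardy-Littlewood prediction, one block. -/
theorem upper_block (k : ℕ) (hk : 1 ≤ k) (ε : ℝ) (hε : 0 < ε) : ∃ K : ℝ, ∀ A : ℕ,
    ∀ᶠ N : ℕ in atTop, ∀ H : ℕ, K * Real.log N ≤ H → (H:ℝ) ≤ (Real.log N) ^ A →
      ∑ e ∈ (box (k + 1) H).filter (fun e => Function.Injective e ∧
          ∀ p : ℕ, p.Prime → nu (Finset.univ.image e) p < p),
        max ((Real.log N) ^ (k + 1) / N *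
            (((Finset.Ioc N (2 * N)).filter (fun n => ∀ i, (n + e i).Prime)).card : ℝ)
          - (4 ^ k + ε) * singularSeries (Finset.univ.image e)) 0 ≤ ε * ((H:ℝ) + 1) ^ (k + 1) := by
  set ε2 : ℝ := ε / 2 ^ (k + 1) with hε2
  have hε20 : 0 < ε2 := by positivity
  obtain ⟨ε1, hε10, hU⟩ := upper_of_close k hk ε2 hε20
  obtain ⟨cp, hcp, hA3⟩ := close_tuples k hk 10 ε1 (by norm_num) hε10
  obtain ⟨C, hC, hB9⟩ := nt_PR_u k hk cp hcp
  obtain ⟨κ1, hκ1, J1, hJ1, hclose⟩ := hA3 C hC
  obtain ⟨κ2, hκ2, hU2⟩ := hU C J1 hC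
  set κ : ℝ := min κ1 κ2 with hκdef
  have hκ : 0 < κ := lt_min hκ1 hκ2
  obtain ⟨w1, hw1⟩ := hB9 κ hκ
  obtain ⟨w2, hw2⟩ := maj_four κ hκ
  -- choice of `w`
  set w3 : ℕ := ⌈2 * ((4:ℝ) ^ k + ε) * ((k:ℝ) + 1) ^ 2 / ε⌉₊ + 1 with hw3
  set w : ℕ := max (max w1 w2) w3 with hw
  have hw1' : w1 ≤ w := (le_max_left _ _).trans (le_max_left _ _)
  have hw2' : w2 ≤ w := (le_max_right _ _).trans (le_max_left _ _)
  have hw3' : w3 ≤ w := le_max_right _ _
  obtain ⟨K1, hK1⟩ := hw1 w hw1'
  obtain ⟨K2, hK2⟩ := hw2 w hw2'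
  have hW : 0 < Wp w := G1aux.Wp_pos w
  have hWR : (0:ℝ) < Wp w := by exact_mod_cast hW
  have hφ : 0 < cW (Wp w) := cWW_pos w
  have hw0 : 1 ≤ w := by omega
  have hwR : (0:ℝ) < w := by exact_mod_cast hw0
  have hwbig : ((4:ℝ) ^ k + ε) * ((k:ℝ) + 1) ^ 2 / w ≤ ε / 2 := by
    have h3 : 2 * ((4:ℝ) ^ k + ε) * ((k:ℝ) + 1) ^ 2 / ε ≤ w := by
      have h4 : 2 * ((4:ℝ) ^ k + ε) * ((k:ℝ) + 1) ^ 2 / ε ≤ (w3 : ℝ) := by
        rw [hw3]; push_cast
        have := Nat.le_ceil (2 * ((4:ℝ) ^ k + ε) * ((k:ℝ) + 1) ^ 2 / ε)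
        linarith
      exact h4.trans (by exact_mod_cast hw3')
    rw [div_le_iff₀ hε] at h3
    rw [div_le_iff₀ hwR]
    linarith
  refine ⟨max (max K1 K2) 1, fun A => ?_⟩
  have hlogev : ∀ᶠ N : ℕ in atTop, (2 * Wp w : ℝ) ≤ Real.log N :=
    (Real.tendsto_log_atTop.comp tendsto_natCast_atTop_atTop).eventually_ge_atTop _
  have hNev : ∀ᶠ N : ℕ in atTop, 2 * (4:ℝ) ^ k * Wp w / ε ≤ (N:ℝ) :=
    tendsto_natCast_atTop_atTop.eventually_ge_atTop _
  filter_upwards [hK1 A, hK2 A, eventually_ge_atTop 2, eventually_ge_atTop (Wp w), hlogev, hNev]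
    with N hN hN' hN2 hNW hlog hNbig H h1 h2
  have hL : 0 < Real.log N := by linarith
  have hNR : (0:ℝ) < N := by positivity
  have hKmax : max K1 K2 * Real.log N ≤ H :=
    (mul_le_mul_of_nonneg_right (le_max_left _ _) hL.le).trans h1
  have h1K : K1 * Real.log N ≤ H :=
    (mul_le_mul_of_nonneg_right (le_max_left _ _) hL.le).trans hKmax
  have h1K2 : K2 * Real.log N ≤ H :=
    (mul_le_mul_of_nonneg_right (le_max_right _ _) hL.le).trans hKmax
  have h11 : Real.log N ≤ H := by
    have := (mul_le_mul_of_nonneg_right (le_max_right (max K1 K2) 1) hL.le).trans h1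
    linarith
  have hHW : 2 * Wp w ≤ H := by
    have : (2 * Wp w : ℝ) ≤ H := hlog.trans h11
    exact_mod_cast this
  -- the bound in one class
  let DD : (a : ℕ) → (Fin (k + 1) → VS w H (rho w a)) → ℝ := fun a e =>
      if Function.Injective e then max (corr (MM N w (S := XS N w a)) e - 4 ^ k) 0 else 0
  have hcls0 : ∀ a : ℕ, av (DD a) ≤ ε2 := by
    intro a
    obtain ⟨hXne, hVne, ⟨ν, hPR, hmom⟩, -, hup⟩ :=
      hN H h1K h2 a (rho w a) (rho_nonempty w a) (rho_mem w a)
    obtain ⟨ν4, h40, h4le, h4mean, h4row, h4diag⟩ :=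
      hN' H h1K2 h2 a (rho w a) (rho_nonempty w a) (rho_mem w a)
    have : Nonempty (XS N w a) := hXne.to_subtype
    have : Nonempty (VS w H (rho w a)) := hVne.to_subtype
    obtain ⟨χ, hχ⟩ := hclose (XS N w a) (VS w H (rho w a)) (MM N w) ν _
      (PR_mono hPR (min_le_left _ _))
    have hκ2' : κ ≤ κ2 := min_le_right _ _
    have h5 := hU2 (XS N w a) (VS w H (rho w a)) (MM N w) ν ν4 _ _
      (PR_mono hPR hκ2') hmom (fun d => (hup d).trans (by linarith)) h40
      (fun n d => (h4le n d).trans (mul_le_mul_of_nonneg_right (by linarith) (h40 n d)))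
      (fun d => le_trans (by linarith) (h4mean d))
      (fun d => (h4row d).trans hκ2')
      (fun d => (h4diag d).trans (mul_le_mul_of_nonneg_right hκ2' (Nat.cast_nonneg _)))
      χ (le_trans (le_of_eq (by congr 1)) hχ)
    refine le_trans (le_of_eq ?_) h5
    simp only [DD]
  have hXne : ∀ a : ℕ, (XS N w a).Nonempty := fun a =>
    (hN H h1K h2 a (rho w a) (rho_nonempty w a) (rho_mem w a)).1
  have hVne : ∀ a : ℕ, (VS w H (rho w a)).Nonempty := fun a =>
    (hN H h1K h2 a (rho w a) (rho_nonempty w a) (rho_mem w a)).2.1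
  set W1 : ℝ := (cW (Wp w) ^ (k + 1))⁻¹ with hW1
  have hW10 : 0 < W1 := by positivity
  have hDD0 : ∀ a e, 0 ≤ DD a e := by
    intro a e
    simp only [DD]
    split_ifs
    · exact le_max_right _ _
    · exact le_rfl
  have hext0 : ∀ (a : ℕ) (e : Fin (k + 1) → ℕ), 0 ≤ ext0 (VS w H (rho w a)) (DD a) e := by
    intro a e
    unfold ext0
    split_ifs
    · exact hDD0 _ _
    · exact le_rfl
  -- pointwise bound
  have hpt : ∀ e ∈ (box (k + 1) H).filter (fun e => Function.Injective e ∧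
          ∀ p : ℕ, p.Prime → nu (Finset.univ.image e) p < p),
      max ((Real.log N) ^ (k + 1) / N *
            (((Finset.Ioc N (2 * N)).filter (fun n => ∀ i, (n + e i).Prime)).card : ℝ)
          - (4 ^ k + ε) * singularSeries (Finset.univ.image e)) 0 ≤
        ∑ a : Fin (Wp w), W1 * (((XS N w (a:ℕ)).card : ℝ) / N) *
          ext0 (VS w H (rho w a)) (DD a) e := by
    intro e he
    rw [Finset.mem_filter] at he
    obtain ⟨he1, hinje, -⟩ := he
    have heH : ∀ i, e i ≤ H := by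
      intro i
      have h3 := he1
      unfold box at h3
      rw [Fintype.mem_piFinset] at h3
      have h4 := h3 i
      rw [Finset.mem_range] at h4
      omega
    apply max_le
    swap
    · exact Finset.sum_nonneg fun a _ => mul_nonneg (by positivity) (hext0 _ _)
    have hcard : (Finset.univ.image e).card = k + 1 := by
      rw [Finset.card_image_of_injective _ hinje, Finset.card_univ, Fintype.card_fin]
    -- class by class
    have hone : ∀ a : Fin (Wp w), (Real.log N) ^ (k + 1) / N *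
        (((XS N w (a:ℕ)).filter (fun n => ∀ i, (n + e i).Prime)).card : ℝ) ≤
        W1 * (((XS N w (a:ℕ)).card : ℝ) / N) * ext0 (VS w H (rho w a)) (DD a) e +
          (4 ^ k * (W1 * (1 / (Wp w : ℝ) + 1 / N))) *
            (if ∀ i, ((a:ℕ) + e i).Coprime (Wp w) then (1:ℝ) else 0) := by
      intro a
      by_cases halive : ∀ i, ((a:ℕ) + e i).Coprime (Wp w)
      · rw [if_pos halive, mul_one]
        have hV : ∀ i, e i ∈ VS w H (rho w a) :=
          fun i => (mem_VS_iff w H a (e i)).mpr ⟨heH i, halive i⟩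
        have hinj : Function.Injective (fun i => (⟨e i, hV i⟩ : VS w H (rho w a))) := by
          intro i j hij
          exact hinje (congrArg Subtype.val hij)
        have hX : (0:ℝ) < (XS N w (a:ℕ)).card := by exact_mod_cast (hXne a).card_pos
        have hcorr := corr_eq (N := N) (w := w) (S := XS N w (a:ℕ))
          (fun i => (⟨e i, hV i⟩ : VS w H (rho w a)))
        simp only at hcorr
        have e1 : (Real.log N) ^ (k + 1) / N *
            (((XS N w (a:ℕ)).filter (fun n => ∀ i, (n + e i).Prime)).card : ℝ) =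
            W1 * (((XS N w (a:ℕ)).card : ℝ) / N) *
              corr (MM N w (S := XS N w (a:ℕ))) (fun i => (⟨e i, hV i⟩ : VS w H (rho w a))) := by
          rw [hcorr, hW1, mul_pow]
          field_simp
        have e2 : ext0 (VS w H (rho w a)) (DD a) e =
            max (corr (MM N w (S := XS N w (a:ℕ)))
              (fun i => (⟨e i, hV i⟩ : VS w H (rho w a))) - 4 ^ k) 0 := by
          unfold ext0
          rw [dif_pos hV]
          simp only [DD]
          rw [if_pos hinj]
        rw [e1, e2]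
        set q := corr (MM N w (S := XS N w (a:ℕ)))
          (fun i => (⟨e i, hV i⟩ : VS w H (rho w a))) with hq
        have h5 : q ≤ max (q - 4 ^ k) 0 + 4 ^ k := by
          have := le_max_left (q - 4 ^ k) 0
          linarith
        have h6 : ((XS N w (a:ℕ)).card : ℝ) / N ≤ 1 / (Wp w : ℝ) + 1 / N := by
          have h7 := (abs_le.1 (card_XS w N a)).2
          rw [div_le_iff₀ hNR]
          have h8 : (1 / (Wp w : ℝ) + 1 / N) * N = N / Wp w + 1 := by field_simp
          rw [h8]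
          linarith
        have h7 : 0 ≤ W1 * (((XS N w (a:ℕ)).card : ℝ) / N) := by positivity
        calc W1 * (((XS N w (a:ℕ)).card : ℝ) / N) * q
            ≤ W1 * (((XS N w (a:ℕ)).card : ℝ) / N) * (max (q - 4 ^ k) 0 + 4 ^ k) :=
              mul_le_mul_of_nonneg_left h5 h7
          _ = W1 * (((XS N w (a:ℕ)).card : ℝ) / N) * max (q - 4 ^ k) 0 +
              4 ^ k * (W1 * (((XS N w (a:ℕ)).card : ℝ) / N)) := by ring
          _ ≤ W1 * (((XS N w (a:ℕ)).card : ℝ) / N) * max (q - 4 ^ k) 0 +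
              4 ^ k * (W1 * (1 / (Wp w : ℝ) + 1 / N)) := by
              gcongr
      · rw [if_neg halive, mul_zero, add_zero]
        have hzero : ((XS N w (a:ℕ)).filter (fun n => ∀ i, (n + e i).Prime)) = ∅ := by
          rw [Finset.filter_eq_empty_iff]
          intro n hn hall
          apply halive
          intro i
          unfold XS at hn
          rw [Finset.mem_filter, Finset.mem_Ioc] at hn
          exact coprime_of_prime hNW hn.1.1 hn.2 (hall i)
        rw [hzero]
        simp only [Finset.card_empty, Nat.cast_zero, mul_zero]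
        exact mul_nonneg (by positivity) (hext0 _ _)
    rw [split_classes N w, Finset.mul_sum]
    have hsum := Finset.sum_le_sum fun (a : Fin (Wp w)) (_ : a ∈ univ) => hone a
    rw [Finset.sum_add_distrib, ← Finset.mul_sum (f := fun a : Fin (Wp w) =>
      if ∀ i, ((a:ℕ) + e i).Coprime (Wp w) then (1:ℝ) else 0),
      card_alive w (k + 1) e hinje] at hsum
    set S1 := SP (PPy w) (Finset.univ.image e) with hS1
    have hS10 : 0 ≤ S1 := SP_nonneg _ (PPy_prime w) _
    have hsing := singularSeries_ge (Finset.univ.image e) w hw0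
    rw [hcard] at hsing
    push_cast at hsing
    have h8 : 4 ^ k * (W1 * (1 / (Wp w : ℝ) + 1 / N)) * ((Wp w : ℝ) * cW (Wp w) ^ (k + 1) * S1) =
        4 ^ k * (1 + Wp w / N) * S1 := by
      rw [hW1]; field_simp
    rw [h8] at hsum
    have h9 : (4:ℝ) ^ k * (Wp w / N) ≤ ε / 2 := by
      rw [div_le_iff₀ hε] at hNbig
      rw [mul_div_assoc', div_le_iff₀ hNR]
      linarith
    have h10 : 4 ^ k * (1 + Wp w / N) * S1 ≤ (4 ^ k + ε) * singularSeries (Finset.univ.image e) := by
      calc 4 ^ k * (1 + Wp w / N) * S1 ≤ (4 ^ k + ε / 2) * S1 := by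
            apply mul_le_mul_of_nonneg_right _ hS10
            linarith
        _ ≤ ((4 ^ k + ε) * (1 - ((k:ℝ) + 1) ^ 2 / w)) * S1 := by
            apply mul_le_mul_of_nonneg_right _ hS10
            have : (4 ^ k + ε) * (1 - ((k:ℝ) + 1) ^ 2 / w) =
              (4 ^ k + ε) - ((4:ℝ) ^ k + ε) * ((k:ℝ) + 1) ^ 2 / w := by ring
            rw [this]
            linarith
        _ = (4 ^ k + ε) * ((1 - ((k:ℝ) + 1) ^ 2 / w) * S1) := by ring
        _ ≤ (4 ^ k + ε) * singularSeries (Finset.univ.image e) :=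
            mul_le_mul_of_nonneg_left hsing (by positivity)
    linarith
  refine (Finset.sum_le_sum hpt).trans ?_
  rw [Finset.sum_comm]
  have hcls : ∀ a : Fin (Wp w), ∑ e ∈ (box (k + 1) H).filter (fun e => Function.Injective e ∧
          ∀ p : ℕ, p.Prime → nu (Finset.univ.image e) p < p),
      W1 * (((XS N w (a:ℕ)).card : ℝ) / N) * ext0 (VS w H (rho w a)) (DD a) e ≤
      (((XS N w (a:ℕ)).card : ℝ) / N) * (ε * (H:ℝ) ^ (k + 1)) := by
    intro a
    rw [← Finset.mul_sum]
    have h3 := sum_ext0_le (VS w H (rho w a)) (DD a) (hDD0 a)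
      ((box (k + 1) H).filter (fun e => Function.Injective e ∧
          ∀ p : ℕ, p.Prime → nu (Finset.univ.image e) p < p))
    have h4 : ∑ e, DD a e ≤ ε2 * ((VS w H (rho w a)).card : ℝ) ^ (k + 1) := by
      have h5 := hcls0 a
      unfold av at h5
      rw [Fintype.card_fun, Fintype.card_coe, Fintype.card_fin, Nat.cast_pow] at h5
      have hVpos : (0:ℝ) < (VS w H (rho w a)).card := by exact_mod_cast (hVne a).card_pos
      rw [div_le_iff₀ (by positivity)] at h5
      exact h5
    have h6 : ((VS w H (rho w a)).card : ℝ) ≤ 2 * cW (Wp w) * H := by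
      refine ((card_VS w H (rho w a) (fun r hr => (rho_mem w a r hr).1) hHW).2).trans (le_of_eq ?_)
      rw [rho_card']
      field_simp
    have h7 : ((VS w H (rho w a)).card : ℝ) ^ (k + 1) ≤ (2 * cW (Wp w) * H) ^ (k + 1) :=
      pow_le_pow_left₀ (Nat.cast_nonneg _) h6 _
    calc W1 * (((XS N w (a:ℕ)).card : ℝ) / N) *
          ∑ e ∈ (box (k + 1) H).filter (fun e => Function.Injective e ∧
            ∀ p : ℕ, p.Prime → nu (Finset.univ.image e) p < p),
            ext0 (VS w H (rho w a)) (DD a) e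
        ≤ W1 * (((XS N w (a:ℕ)).card : ℝ) / N) * (ε2 * (2 * cW (Wp w) * H) ^ (k + 1)) := by
          refine mul_le_mul_of_nonneg_left ?_ (by positivity)
          exact h3.trans (h4.trans (mul_le_mul_of_nonneg_left h7 hε20.le))
      _ = (((XS N w (a:ℕ)).card : ℝ) / N) * (ε * (H:ℝ) ^ (k + 1)) := by
          rw [hW1, hε2, mul_pow, mul_pow]
          field_simp
  refine (Finset.sum_le_sum fun a _ => hcls a).trans ?_
  rw [← Finset.sum_mul, ← Finset.sum_div, sum_XS, div_self hNR.ne', one_mul]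
  refine mul_le_mul_of_nonneg_left ?_ hε.le
  exact pow_le_pow_left₀ (Nat.cast_nonneg _) (by linarith) _

end Pool.Agent.HLT
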