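import Mathlib
import Pool.Agent.HLT.APDefs
import Pool.Agent.HLT.APMoment
import Pool.Agent.HLT.UpperBlock
import Pool.Agent.HL26.SieveC

set_option autoImplicit false

open Finset Filter

namespace Pool.Agent.HLT

open Pool.Agent.HL26

namespace F6U

/-- counting function -/
def cnt (k : ℕ) (e : Fin (k + 1) → ℕ) (M : ℕ) : ℕ :=
  ((Finset.Icc 1 M).filter (fun m => ∀ i, (m + e i).Prime)).card

/-- block count -/
def blk (k : ℕ) (e : Fin (k + 1) → ℕ) (N : ℕ) : ℕ :=
  ((Finset.Ioc N (2 * N)).filter (fun n => ∀ i, (n + e i).Prime)).card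

theorem tupleCount_eq (k : ℕ) (x : ℝ) (e : Fin (k + 1) → ℕ) :
    tupleCount x (Finset.univ.image e) = cnt k e ⌊x⌋₊ := by
  unfold tupleCount cnt
  congr 1
  apply Finset.filter_congr
  intro m _
  simp

theorem cnt_step (k : ℕ) (e : Fin (k + 1) → ℕ) (M : ℕ) :
    cnt k e (M / 2) + blk k e (M / 2) ≤ cnt k e M ∧
    cnt k e M ≤ cnt k e (M / 2) + blk k e (M / 2) + 1 := by
  unfold cnt blk
  have h1 : M = 2 * (M / 2) ∨ M = 2 * (M / 2) + 1 := by omega
  set N := M / 2 with hN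
  have hsplit : ((Finset.Icc 1 (2 * N)).filter (fun m => ∀ i, (m + e i).Prime)).card =
      ((Finset.Icc 1 N).filter (fun m => ∀ i, (m + e i).Prime)).card +
      ((Finset.Ioc N (2 * N)).filter (fun n => ∀ i, (n + e i).Prime)).card := by
    rw [← Finset.card_union_of_disjoint]
    · congr 1
      ext m
      simp only [Finset.mem_filter, Finset.mem_union, Finset.mem_Icc, Finset.mem_Ioc]
      constructor
      · rintro ⟨⟨h, h'⟩, h''⟩
        by_cases hm : m ≤ N
        · exact Or.inl ⟨⟨h, hm⟩, h''⟩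
        · exact Or.inr ⟨⟨by omega, h'⟩, h''⟩
      · rintro (⟨⟨h, h'⟩, h''⟩ | ⟨⟨h, h'⟩, h''⟩)
        · exact ⟨⟨h, by omega⟩, h''⟩
        · exact ⟨⟨by omega, h'⟩, h''⟩
    · rw [Finset.disjoint_left]
      intro m hm hm'
      simp only [Finset.mem_filter, Finset.mem_Icc, Finset.mem_Ioc] at hm hm'
      omega
  have hle : ((Finset.Icc 1 (2 * N)).filter (fun m => ∀ i, (m + e i).Prime)).card ≤
      ((Finset.Icc 1 M).filter (fun m => ∀ i, (m + e i).Prime)).card := by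
    apply Finset.card_le_card
    apply Finset.filter_subset_filter
    apply Finset.Icc_subset_Icc_right
    omega
  have hle2 : ((Finset.Icc 1 M).filter (fun m => ∀ i, (m + e i).Prime)).card ≤
      ((Finset.Icc 1 (2 * N)).filter (fun m => ∀ i, (m + e i).Prime)).card + 1 := by
    have hsub : (Finset.Icc 1 M).filter (fun m => ∀ i, (m + e i).Prime) ⊆
        insert M ((Finset.Icc 1 (2 * N)).filter (fun m => ∀ i, (m + e i).Prime)) := by
      intro m hm
      simp only [Finset.mem_filter, Finset.mem_Icc, Finset.mem_insert] at hm ⊢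
      by_cases hmM : m = M
      · exact Or.inl hmM
      · exact Or.inr ⟨⟨hm.1.1, by omega⟩, hm.2⟩
    exact (Finset.card_le_card hsub).trans (Finset.card_insert_le _ _)
  omega

theorem cnt_iter (k : ℕ) (e : Fin (k + 1) → ℕ) (M : ℕ) (I : ℕ) :
    cnt k e (M / 2 ^ I) + ∑ i ∈ Finset.range I, blk k e (M / 2 ^ (i + 1)) ≤ cnt k e M ∧
    cnt k e M ≤ cnt k e (M / 2 ^ I) + ∑ i ∈ Finset.range I, blk k e (M / 2 ^ (i + 1)) + I := by
  induction I with
  | zero => simp
  | succ I ih =>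
    rw [Finset.sum_range_succ]
    have h := cnt_step k e (M / 2 ^ I)
    have h2 : M / 2 ^ I / 2 = M / 2 ^ (I + 1) := by
      rw [Nat.div_div_eq_div_mul, pow_succ]
    rw [h2] at h
    omega

theorem card_box (r H : ℕ) : (box r H).card = (H + 1) ^ r := by
  unfold box
  simp

/-- Bernoulli -/
theorem bern (m : ℕ) (L c θ : ℝ) (hL : 0 < L) (hθ : 0 < θ) (hθ1 : θ ≤ 1) (hcL : c ≤ L)
    (h : 2 * m * c ≤ θ * L) :
    L ^ m ≤ (1 + θ) * (L - c) ^ m := by
  have h1 : (1 + (m:ℝ) * (-(c / L))) ≤ (1 + (-(c / L))) ^ m := by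
    apply one_add_mul_le_pow
    have : c / L ≤ 1 := by rw [div_le_one hL]; exact hcL
    linarith
  have h2 : (m:ℝ) * (c / L) ≤ θ / 2 := by
    rw [mul_div_assoc', div_le_div_iff₀ hL (by norm_num)]
    linarith
  have h3 : 1 - θ / 2 ≤ (1 + (-(c / L))) ^ m := by linarith
  have h4 : (L - c) ^ m = L ^ m * (1 + (-(c / L))) ^ m := by
    rw [← mul_pow]
    congr 1
    field_simp
    ring
  rw [h4]
  have h5 : 0 ≤ L ^ m := by positivity
  have h6 : 1 ≤ (1 + θ) * (1 - θ / 2) := by nlinarith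
  have h7 : 1 ≤ (1 + θ) * (1 + (-(c / L))) ^ m :=
    h6.trans (mul_le_mul_of_nonneg_left h3 (by linarith))
  calc L ^ m = L ^ m * 1 := (mul_one _).symm
    _ ≤ L ^ m * ((1 + θ) * (1 + (-(c / L))) ^ m) := mul_le_mul_of_nonneg_left h7 h5
    _ = _ := by ring

/-- everything we need about large `x` -/
theorem large (k A I : ℕ) (δ X₀ θ : ℝ) (hδ : 0 < δ) (hθ : 0 < θ) (hθ1 : θ ≤ 1) :
    ∀ᶠ x : ℝ in atTop,
    1 ≤ x ∧ 1 ≤ Real.log x ∧ (Real.log x) ^ (k + 1) / x * I ≤ δ ∧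
    (Real.log x) ^ (k + 1) / x * (Real.log x) ^ A ≤ δ ∧
    ∀ i ≤ I, X₀ ≤ ((⌊x⌋₊ / 2 ^ i : ℕ) : ℝ) ∧ 1 ≤ ((⌊x⌋₊ / 2 ^ i : ℕ) : ℝ) ∧
      ((⌊x⌋₊ / 2 ^ i : ℕ) : ℝ) ≤ x / 2 ^ i ∧
      0 < Real.log ((⌊x⌋₊ / 2 ^ i : ℕ) : ℝ) ∧
      Real.log ((⌊x⌋₊ / 2 ^ i : ℕ) : ℝ) ≤ Real.log x ∧
      (Real.log x) ^ (k + 1) ≤ (1 + θ) * (Real.log ((⌊x⌋₊ / 2 ^ i : ℕ) : ℝ)) ^ (k + 1) ∧
      2 * (Real.log x) ^ A ≤ (Real.log ((⌊x⌋₊ / 2 ^ i : ℕ) : ℝ)) ^ (A + 1) := by
  set c : ℝ := (I + 1 : ℝ) * Real.log 2 with hcdef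
  have hlog2 : 0 < Real.log 2 := Real.log_pos (by norm_num)
  have hc : 0 ≤ c := by positivity
  have e1 : ∀ᶠ x : ℝ in atTop, (Real.log x) ^ (k + 1) / x * I ≤ δ := by
    have h := Real.isLittleO_pow_log_id_atTop (n := k + 1)
    have h2 := h.def (show (0:ℝ) < δ / (I + 1) by positivity)
    filter_upwards [h2, eventually_ge_atTop (1:ℝ)] with x hx hx1
    have hx0 : 0 < x := by linarith
    simp only [id, Real.norm_eq_abs] at hx
    rw [abs_of_pos hx0] at hx
    have h3 : (Real.log x) ^ (k + 1) ≤ δ / (I + 1) * x := (le_abs_self _).trans hx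
    have h4 : (Real.log x) ^ (k + 1) / x ≤ δ / (I + 1) := by
      rw [div_le_iff₀ hx0]; exact h3
    have h5 : (0:ℝ) ≤ I := by positivity
    calc (Real.log x) ^ (k + 1) / x * I ≤ δ / (I + 1) * I := by gcongr
      _ ≤ δ / (I + 1) * (I + 1) := by gcongr; linarith
      _ = δ := by field_simp
  have e1' : ∀ᶠ x : ℝ in atTop, (Real.log x) ^ (k + 1) / x * (Real.log x) ^ A ≤ δ := by
    have h := Real.isLittleO_pow_log_id_atTop (n := k + 1 + A)
    have h2 := h.def hδ
    filter_upwards [h2, eventually_ge_atTop (1:ℝ)] with x hx hx1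
    have hx0 : 0 < x := by linarith
    simp only [id, Real.norm_eq_abs] at hx
    rw [abs_of_pos hx0] at hx
    have h3 : (Real.log x) ^ (k + 1 + A) ≤ δ * x := (le_abs_self _).trans hx
    have h4 : (Real.log x) ^ (k + 1) / x * (Real.log x) ^ A = (Real.log x) ^ (k + 1 + A) / x := by
      rw [pow_add]; ring
    rw [h4, div_le_iff₀ hx0]
    exact h3
  have e2 : ∀ᶠ x : ℝ in atTop, max (max (2 * ((k + 1 : ℕ) : ℝ) * c / θ) (2 * (A : ℝ) * c)) (c + 4)
      ≤ Real.log x := Real.tendsto_log_atTop.eventually_ge_atTop _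
  filter_upwards [e1, e1', e2, eventually_ge_atTop (1:ℝ), eventually_ge_atTop ((2:ℝ) + 2 ^ (I + 1)),
    eventually_ge_atTop ((2:ℝ) ^ (I + 1) * X₀), eventually_ge_atTop ((2:ℝ) ^ (I + 1))]
    with x hx1 hx1' hx2 hx3 hx4 hx5 hx6
  have hL1' : 2 * ((k + 1 : ℕ) : ℝ) * c / θ ≤ Real.log x :=
    le_trans (le_trans (le_max_left _ _) (le_max_left _ _)) hx2
  have hL1 : 2 * ((k + 1 : ℕ) : ℝ) * c ≤ θ * Real.log x := by
    rw [div_le_iff₀ hθ] at hL1'
    linarith
  have hL2 : 2 * (A : ℝ) * c ≤ Real.log x := le_trans (le_trans (le_max_right _ _) (le_max_left _ _)) hx2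
  have hL3 : c + 4 ≤ Real.log x := le_trans (le_max_right _ _) hx2
  have hx0 : 0 < x := by linarith
  refine ⟨hx3, by linarith, hx1, hx1', ?_⟩
  intro i hi
  have hpow : (2:ℝ) ^ i ≤ 2 ^ I := pow_le_pow_right₀ (by norm_num) hi
  have hpi : (0:ℝ) < 2 ^ i := by positivity
  have hpI : (0:ℝ) < 2 ^ I := by positivity
  -- lower bound
  have hfl : (⌊x⌋₊ : ℝ) ≤ x := Nat.floor_le hx0.le
  have hfl2 : x < (⌊x⌋₊ : ℝ) + 1 := Nat.lt_floor_add_one x
  have hlow : x / 2 ^ (I + 1) ≤ ((⌊x⌋₊ / 2 ^ i : ℕ) : ℝ) := by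
    have h1 : ((⌊x⌋₊ : ℕ) : ℝ) < ((2 ^ i : ℕ) : ℝ) * (((⌊x⌋₊ / 2 ^ i : ℕ) : ℝ) + 1) := by
      have := Nat.lt_mul_div_succ ⌊x⌋₊ (show 0 < 2 ^ i by positivity)
      exact_mod_cast this
    push_cast at h1
    have h2 : (⌊x⌋₊ : ℝ) / 2 ^ i < (((⌊x⌋₊ / 2 ^ i : ℕ) : ℝ) + 1) := by
      rw [div_lt_iff₀ hpi]
      linarith
    have h3 : (⌊x⌋₊ : ℝ) / 2 ^ I ≤ (⌊x⌋₊ : ℝ) / 2 ^ i := by
      apply div_le_div_of_nonneg_left (Nat.cast_nonneg _) hpi hpow
    have h4 : (x - 1) / 2 ^ I ≤ (⌊x⌋₊ : ℝ) / 2 ^ I := by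
      gcongr
      linarith
    have h5 : x / 2 ^ (I + 1) + 1 ≤ (x - 1) / 2 ^ I := by
      rw [pow_succ, ← div_div, le_div_iff₀ hpI]
      have : (x / 2 ^ I / 2 + 1) * 2 ^ I = x / 2 + 2 ^ I := by field_simp
      rw [this]
      rw [pow_succ] at hx4
      linarith
    linarith
  have hup : ((⌊x⌋₊ / 2 ^ i : ℕ) : ℝ) ≤ x / 2 ^ i := by
    have h1 : ((⌊x⌋₊ / 2 ^ i : ℕ) : ℝ) ≤ (⌊x⌋₊ : ℝ) / ((2 ^ i : ℕ) : ℝ) := Nat.cast_div_le
    push_cast at h1
    refine h1.trans ?_
    gcongr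
  have hpI1 : (0:ℝ) < 2 ^ (I + 1) := by positivity
  have hge1 : 1 ≤ ((⌊x⌋₊ / 2 ^ i : ℕ) : ℝ) := by
    refine le_trans ?_ hlow
    rw [le_div_iff₀ hpI1]
    linarith
  have hX : X₀ ≤ ((⌊x⌋₊ / 2 ^ i : ℕ) : ℝ) := by
    refine le_trans ?_ hlow
    rw [le_div_iff₀ hpI1]
    linarith
  have hloglow : Real.log x - c ≤ Real.log ((⌊x⌋₊ / 2 ^ i : ℕ) : ℝ) := by
    have h1 : Real.log (x / 2 ^ (I + 1)) ≤ Real.log ((⌊x⌋₊ / 2 ^ i : ℕ) : ℝ) :=
      Real.log_le_log (by positivity) hlow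
    rw [Real.log_div hx0.ne' hpI1.ne', Real.log_pow] at h1
    push_cast at h1
    exact h1
  have hlogup : Real.log ((⌊x⌋₊ / 2 ^ i : ℕ) : ℝ) ≤ Real.log x := by
    apply Real.log_le_log (by linarith)
    refine hup.trans ?_
    apply div_le_self hx0.le
    exact one_le_pow₀ (by norm_num)
  have hLpos : 0 < Real.log x := by linarith
  have hlc : 4 ≤ Real.log x - c := by linarith
  refine ⟨hX, hge1, hup, by linarith, hlogup, ?_, ?_⟩
  · have h1 := bern (k + 1) (Real.log x) c θ hLpos hθ hθ1 (by linarith) hL1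
    refine h1.trans ?_
    have h2 : (Real.log x - c) ^ (k + 1) ≤ (Real.log ((⌊x⌋₊ / 2 ^ i : ℕ) : ℝ)) ^ (k + 1) :=
      pow_le_pow_left₀ (by linarith) hloglow _
    exact mul_le_mul_of_nonneg_left h2 (by linarith)
  · have h1 := bern A (Real.log x) c 1 hLpos one_pos le_rfl (by linarith) (by linarith)
    have h2 : (Real.log x - c) ^ (A + 1) ≤ (Real.log ((⌊x⌋₊ / 2 ^ i : ℕ) : ℝ)) ^ (A + 1) :=
      pow_le_pow_left₀ (by linarith) hloglow _
    have h3 : 0 ≤ (Real.log x - c) ^ A := by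
      apply pow_nonneg; linarith
    calc 2 * Real.log x ^ A ≤ 2 * ((1 + 1) * (Real.log x - c) ^ A) := by linarith
      _ = 4 * (Real.log x - c) ^ A := by ring
      _ ≤ (Real.log x - c) * (Real.log x - c) ^ A := mul_le_mul_of_nonneg_right hlc h3
      _ = (Real.log x - c) ^ (A + 1) := by rw [pow_succ, mul_comm]
      _ ≤ _ := h2

/-- sum of the dyadic weights -/
theorem geom_le (I : ℕ) : ∑ i : Fin I, (1:ℝ) / 2 ^ ((i : ℕ) + 1) ≤ 1 := by
  rw [← Finset.sum_range (fun i => (1:ℝ) / 2 ^ (i + 1))]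
  have h : ∑ i ∈ Finset.range I, (1:ℝ) / 2 ^ (i + 1) = 1 - 1 / 2 ^ I := by
    induction I with
    | zero => simp
    | succ I ih =>
      rw [Finset.sum_range_succ, ih, pow_succ]
      field_simp
      ring
  rw [h]
  have : (0:ℝ) < 1 / 2 ^ I := by positivity
  linarith

theorem nu_shift (E : Finset ℕ) (t p : ℕ) : nu (E.image (fun d => t + d)) p = nu E p := by
  unfold nu
  have h : (E.image (fun d => t + d)).image (fun e : ℕ => (e : ZMod p)) =
      (E.image (fun e : ℕ => (e : ZMod p))).image (fun z => (t : ZMod p) + z) := by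
    rw [Finset.image_image, Finset.image_image]
    apply Finset.image_congr
    intro d _
    simp
  rw [h, Finset.card_image_of_injective _ (add_right_injective _)]

theorem card_shift (E : Finset ℕ) (t : ℕ) : (E.image (fun d => t + d)).card = E.card :=
  Finset.card_image_of_injective _ (add_right_injective _)

theorem singularSeries_shift (E : Finset ℕ) (t : ℕ) :
    singularSeries (E.image (fun d => t + d)) = singularSeries E := by
  unfold singularSeries
  simp_rw [nu_shift, card_shift]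

theorem tupleCount_shift (x : ℝ) (E : Finset ℕ) (t : ℕ) :
    tupleCount x E ≤ tupleCount x (E.image (fun d => t + d)) + t := by
  unfold tupleCount
  have hsub : (Finset.Icc 1 ⌊x⌋₊).filter (fun m => ∀ e ∈ E, Nat.Prime (m + e)) ⊆
      ((Finset.Icc 1 ⌊x⌋₊).filter (fun m => ∀ e ∈ E.image (fun d => t + d), Nat.Prime (m + e))).image
        (fun m => m + t) ∪ Finset.Icc 1 t := by
    intro m hm
    simp only [Finset.mem_filter, Finset.mem_Icc, Finset.mem_union, Finset.mem_image] at hm ⊢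
    by_cases hmt : m ≤ t
    · exact Or.inr ⟨hm.1.1, hmt⟩
    · left
      refine ⟨m - t, ⟨⟨by omega, by omega⟩, ?_⟩, by omega⟩
      rintro e ⟨d, hd, rfl⟩
      have : m - t + (t + d) = m + d := by omega
      rw [this]
      exact hm.2 d hd
  refine (Finset.card_le_card hsub).trans ((Finset.card_union_le _ _).trans ?_)
  have h1 := Finset.card_image_le (s := (Finset.Icc 1 ⌊x⌋₊).filter
    (fun m => ∀ e ∈ E.image (fun d => t + d), Nat.Prime (m + e))) (f := fun m => m + t)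
  have h2 : (Finset.Icc 1 t).card = t := by simp
  omega

/-- the tuple attached to a set `D` and a shift `t` -/
noncomputable def tup (k : ℕ) (D : Finset ℕ) (hD : D.card = k) (t : ℕ) : Fin (k + 1) → ℕ :=
  Fin.cons t (fun i => t + D.orderEmbOfFin hD i)

theorem tup_image (k : ℕ) (D : Finset ℕ) (hD : D.card = k) (t : ℕ) :
    Finset.univ.image (tup k D hD t) = (insert 0 D).image (fun d => t + d) := by
  ext m
  simp only [Finset.mem_image, Finset.mem_univ, true_and, Finset.mem_insert]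
  constructor
  · rintro ⟨i, rfl⟩
    refine Fin.cases ?_ (fun i => ?_) i
    · exact ⟨0, Or.inl rfl, by simp [tup]⟩
    · exact ⟨D.orderEmbOfFin hD i, Or.inr (Finset.orderEmbOfFin_mem D hD i), by simp [tup]⟩
  · rintro ⟨d, hd, rfl⟩
    rcases hd with rfl | hd
    · exact ⟨0, by simp [tup]⟩
    · have : d ∈ Set.range (D.orderEmbOfFin hD) := by
        rw [Finset.range_orderEmbOfFin]; exact hd
      obtain ⟨i, hi⟩ := this
      exact ⟨i.succ, by simp [tup, hi]⟩

theorem tup_injective (k : ℕ) (D : Finset ℕ) (hD : D.card = k) (t : ℕ) (h0 : 0 ∉ D) :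
    Function.Injective (tup k D hD t) := by
  rw [← Set.injOn_univ, ← Finset.coe_univ, ← Finset.card_image_iff, tup_image, card_shift,
    Finset.card_insert_of_notMem h0, hD]
  simp

open Classical in
/-- the tuple attached to a set `D` and a shift `t`, total version -/
noncomputable def tup' (k : ℕ) (q : Finset ℕ × ℕ) : Fin (k + 1) → ℕ :=
  if h : q.1.card = k then tup k q.1 h q.2 else fun _ => 0

theorem tup'_eq (k : ℕ) (D : Finset ℕ) (hD : D.card = k) (t : ℕ) :
    tup' k (D, t) = tup k D hD t := by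
  unfold tup'
  simp [hD]

theorem tup'_inj (k : ℕ) (D D' : Finset ℕ) (t t' : ℕ) (hD : D.card = k) (hD' : D'.card = k)
    (h0 : 0 ∉ D) (h0' : 0 ∉ D') (h : tup' k (D, t) = tup' k (D', t')) : (D, t) = (D', t') := by
  rw [tup'_eq k D hD, tup'_eq k D' hD'] at h
  have ht : t = t' := by
    have := congrFun h 0
    simpa [tup] using this
  subst ht
  have h1 : (insert 0 D).image (fun d => t + d) = (insert 0 D').image (fun d => t + d) := by
    rw [← tup_image k D hD t, ← tup_image k D' hD' t, h]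
  have h2 : insert 0 D = insert 0 D' := Finset.image_injective (add_right_injective t) h1
  have h3 : D = D' := by
    have := congrArg (fun s => Finset.erase s 0) h2
    simpa [h0, h0'] using this
  rw [h3]

end F6U

open Classical in
/-- U8: for almost all sets the upper bound `4^k` times the Hardy-Littlewood prediction. -/
theorem upper_almost_all (k : ℕ) (hk : 1 ≤ k) (ε : ℝ) (hε : 0 < ε) : ∃ K : ℝ, ∀ A : ℕ,
    ∃ X : ℝ, ∀ x : ℝ, X ≤ x → ∀ H : ℕ, K * Real.log x ≤ H → (H:ℝ) ≤ (Real.log x) ^ A →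
      ((((Finset.Icc 1 H).powersetCard k).filter (fun D =>
        (∀ p : ℕ, p.Prime → nu (insert 0 D) p < p) ∧
        (4 ^ k + ε) * (singularSeries (insert 0 D) * (x / (Real.log x) ^ (k + 1))) <
          (tupleCount x (insert 0 D) : ℝ))).card : ℝ) ≤ ε * (H:ℝ) ^ k := by
  obtain ⟨c0, hc0, hlow⟩ := exists_singularSeries_lower (k + 1)
  obtain ⟨C, hC, X₇, hmom⟩ := cx_moments k hk
  -- the constants
  set g : ℝ := ε / 4 * c0 with hg
  have hgpos : 0 < g := by positivity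
  set η : ℝ := g * ε / (2 * 3 ^ k) with hη
  have hηpos : 0 < η := by positivity
  set ε₁ : ℝ := min (ε / 4) (η / 8) with hε₁
  have hε₁pos : 0 < ε₁ := lt_min (by positivity) (by positivity)
  have hε₁a : ε₁ ≤ ε / 4 := min_le_left _ _
  have hε₁b : ε₁ ≤ η / 8 := min_le_right _ _
  set θ : ℝ := min 1 (ε / 4 / (4 ^ k + ε₁)) with hθdef
  have h4k : (0:ℝ) < 4 ^ k + ε₁ := by positivity
  have hθ : 0 < θ := lt_min one_pos (by positivity)
  have hθ1 : θ ≤ 1 := min_le_left _ _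
  have hθ2 : θ * (4 ^ k + ε₁) ≤ ε / 4 := by
    have h1 : θ ≤ ε / 4 / (4 ^ k + ε₁) := min_le_right _ _
    rwa [le_div_iff₀ h4k] at h1
  set δ : ℝ := min (η / 4) g with hδdef
  have hδ : 0 < δ := lt_min (by positivity) hgpos
  have hδa : δ ≤ η / 4 := min_le_left _ _
  have hδb : δ ≤ g := min_le_right _ _
  obtain ⟨I, hI⟩ : ∃ I : ℕ, 2 * (1 / 2 : ℝ) ^ I * C ≤ η / 4 := by
    obtain ⟨I, hI⟩ := exists_pow_lt_of_lt_one (show (0:ℝ) < η / (8 * C) by positivity)
      (show (1 / 2 : ℝ) < 1 by norm_num)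
    refine ⟨I, ?_⟩
    have h2 : (1 / 2 : ℝ) ^ I * (8 * C) < η := by
      rwa [lt_div_iff₀ (by positivity)] at hI
    linarith
  obtain ⟨K₁, hblk⟩ := upper_block k hk ε₁ hε₁pos
  refine ⟨max K₁ 1, ?_⟩
  intro A
  obtain ⟨N₀, hN₀⟩ := eventually_atTop.1 (hblk (A + 1))
  obtain ⟨X, hX⟩ := eventually_atTop.1
    (F6U.large k A I δ (max X₇ N₀) θ hδ hθ hθ1)
  refine ⟨X, ?_⟩
  intro x hx H hH1 hH2
  obtain ⟨hx1, hL1, hbd, hbd2, hall⟩ := hX x hx
  have hx0 : 0 < x := by linarith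
  set L := Real.log x with hLdef
  have hLpos : 0 < L := by linarith
  have hHR : (1:ℝ) ≤ H := by
    have h1 : (1:ℝ) ≤ max K₁ 1 := le_max_right _ _
    have h2 : (1:ℝ) * 1 ≤ max K₁ 1 * L := mul_le_mul h1 hL1 (by norm_num) (by linarith)
    linarith
  have hH : 1 ≤ H := by exact_mod_cast hHR
  have h2H : 1 ≤ 2 * H := by omega
  -- the blocks
  set N : ℕ → ℕ := fun i => ⌊x⌋₊ / 2 ^ i with hN
  set S := (box (k + 1) (2 * H)).filter (fun e => Function.Injective e ∧
          ∀ p : ℕ, p.Prime → nu (Finset.univ.image e) p < p) with hS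
  have hex : ∀ i : Fin I, ∑ e ∈ S,
        max ((Real.log (N (i + 1))) ^ (k + 1) / (N (i + 1) : ℕ) * (F6U.blk k e (N (i + 1)) : ℝ)
          - (4 ^ k + ε₁) * singularSeries (Finset.univ.image e)) 0 ≤
        ε₁ * (((2 * H : ℕ):ℝ) + 1) ^ (k + 1) := by
    intro i
    obtain ⟨h1, h2, h3, h4, h5, h6, h7⟩ := hall (i + 1) i.2
    apply hN₀
    · have : (N₀ : ℝ) ≤ (N (i + 1) : ℕ) := le_trans (le_max_right _ _) h1
      exact_mod_cast this
    · have hK : K₁ ≤ max K₁ 1 := le_max_left _ _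
      have hK0 : (0:ℝ) ≤ max K₁ 1 := le_trans (by norm_num) (le_max_right _ _)
      calc K₁ * Real.log (N (i + 1) : ℕ) ≤ max K₁ 1 * Real.log (N (i + 1) : ℕ) := by
            apply mul_le_mul_of_nonneg_right hK h4.le
        _ ≤ max K₁ 1 * L := mul_le_mul_of_nonneg_left h5 hK0
        _ ≤ H := hH1
        _ ≤ ((2 * H : ℕ) : ℝ) := by push_cast; linarith
    · refine le_trans ?_ h7
      push_cast
      linarith
  have hS0 : ∀ e ∈ S, c0 ≤ singularSeries (Finset.univ.image e) := by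
    intro e he
    obtain ⟨_, hinj, hadm⟩ := Finset.mem_filter.mp he
    apply hlow _ _ hadm
    rw [Finset.card_image_of_injective _ hinj]
    simp
  have hScard : (S.card : ℝ) ≤ (((2 * H : ℕ):ℝ) + 1) ^ (k + 1) := by
    have h1 : S.card ≤ (2 * H + 1) ^ (k + 1) := by
      refine (Finset.card_filter_le _ _).trans ?_
      rw [F6U.card_box]
    exact_mod_cast h1
  set wt : Fin I → ℝ := fun i => (L / Real.log (N (i + 1) : ℕ)) ^ (k + 1) * ((N (i + 1) : ℕ) / x) with hwt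
  have hwt0 : ∀ i, 0 ≤ wt i := by
    intro i
    obtain ⟨h1, h2, h3, h4, h5, h6, h7⟩ := hall (i + 1) i.2
    simp only [hwt]
    have : 0 ≤ L / Real.log (N (i + 1) : ℕ) := div_nonneg (by linarith) h4.le
    positivity
  have hratio : ∀ i ≤ I, (L / Real.log (N i : ℕ)) ^ (k + 1) ≤ 1 + θ := by
    intro i hi
    obtain ⟨h1, h2, h3, h4, h5, h6, h7⟩ := hall i hi
    rw [div_pow, div_le_iff₀ (pow_pos h4 _)]
    exact h6
  have hwtle : ∀ i, wt i ≤ (1 + θ) * (1 / 2 ^ ((i : ℕ) + 1)) := by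
    intro i
    obtain ⟨h1, h2, h3, h4, h5, h6, h7⟩ := hall (i + 1) i.2
    have h8 := hratio (i + 1) i.2
    have h9 : ((N (i + 1) : ℕ) : ℝ) / x ≤ 1 / 2 ^ ((i : ℕ) + 1) := by
      rw [div_le_iff₀ hx0]
      refine h3.trans (le_of_eq ?_)
      ring
    have h10 : 0 ≤ ((N (i + 1) : ℕ) : ℝ) / x := by positivity
    simp only [hwt]
    exact mul_le_mul h8 h9 h10 (by linarith)
  have hwtsum : ∑ i : Fin I, wt i ≤ 1 + θ := by
    calc ∑ i : Fin I, wt i ≤ ∑ i : Fin I, (1 + θ) * (1 / 2 ^ ((i : ℕ) + 1)) :=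
          Finset.sum_le_sum (fun i _ => hwtle i)
      _ = (1 + θ) * ∑ i : Fin I, (1:ℝ) / 2 ^ ((i : ℕ) + 1) := by rw [Finset.mul_sum]
      _ ≤ (1 + θ) * 1 := mul_le_mul_of_nonneg_left (F6U.geom_le I) (by linarith)
      _ = 1 + θ := mul_one _
  have hNI := hall I le_rfl
  obtain ⟨hI1, hI2, hI3, hI4, hI5, hI6, hI7⟩ := hNI
  -- pointwise estimate
  have hpt : ∀ e ∈ S,
      max (cx k x e - (4 ^ k + ε / 2) * singularSeries (Finset.univ.image e)) 0 ≤
        ∑ i : Fin I, wt i * max ((Real.log (N (i + 1))) ^ (k + 1) / (N (i + 1) : ℕ) *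
            (F6U.blk k e (N (i + 1)) : ℝ)
            - (4 ^ k + ε₁) * singularSeries (Finset.univ.image e)) 0 +
          δ + 2 * (1 / 2 : ℝ) ^ I * cx k ((N I : ℕ) : ℝ) e := by
    intro e he
    have hSe := hS0 e he
    have hSe0 : 0 ≤ singularSeries (Finset.univ.image e) := hc0.le.trans hSe
    have hit := F6U.cnt_iter k e ⌊x⌋₊ I
    have hcx : cx k x e = L ^ (k + 1) / x * (F6U.cnt k e ⌊x⌋₊ : ℝ) := by
      unfold cx
      rw [F6U.tupleCount_eq]
    have hcxI : cx k ((N I : ℕ) : ℝ) e =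
        (Real.log (N I : ℕ)) ^ (k + 1) / (N I : ℕ) * (F6U.cnt k e (N I) : ℝ) := by
      unfold cx
      rw [F6U.tupleCount_eq, Nat.floor_natCast]
    have hcq0 : 0 ≤ L ^ (k + 1) / x := by positivity
    have hr : (F6U.cnt k e ⌊x⌋₊ : ℝ) ≤
        (F6U.cnt k e (N I) : ℝ) + ∑ i : Fin I, (F6U.blk k e (N (i + 1)) : ℝ) + I := by
      have h1 : (F6U.cnt k e ⌊x⌋₊ : ℝ) ≤
          ((F6U.cnt k e (N I) + ∑ i ∈ Finset.range I, F6U.blk k e (N (i + 1)) + I : ℕ) : ℝ) := by
        exact_mod_cast hit.2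
      rw [Finset.sum_range] at h1
      push_cast at h1
      linarith
    have hterm : ∀ i : Fin I, L ^ (k + 1) / x * (F6U.blk k e (N (i + 1)) : ℝ) =
        wt i * ((Real.log (N (i + 1))) ^ (k + 1) / (N (i + 1) : ℕ) *
            (F6U.blk k e (N (i + 1)) : ℝ)) := by
      intro i
      obtain ⟨h1, h2, h3, h4, h5, h6, h7⟩ := hall (i + 1) i.2
      have h2' : ((N (i + 1) : ℕ) : ℝ) ≠ 0 := by
        have : (0:ℝ) < ((N (i + 1) : ℕ) : ℝ) := by
          refine lt_of_lt_of_le one_pos h2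
        exact this.ne'
      have h4' : Real.log ((N (i + 1) : ℕ) : ℝ) ≠ 0 := h4.ne'
      simp only [hwt]
      rw [div_pow]
      field_simp
    have hNpos : (0:ℝ) < ((N I : ℕ) : ℝ) := lt_of_lt_of_le one_pos hI2
    have hcx0 : 0 ≤ cx k ((N I : ℕ) : ℝ) e := by
      rw [hcxI]
      have := hI4.le
      positivity
    have hb3 : L ^ (k + 1) / x * (F6U.cnt k e (N I) : ℝ) ≤
        2 * (1 / 2 : ℝ) ^ I * cx k ((N I : ℕ) : ℝ) e := by
      have heq : L ^ (k + 1) / x * (F6U.cnt k e (N I) : ℝ) =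
          (L / Real.log (N I : ℕ)) ^ (k + 1) * ((N I : ℕ) / x) * cx k ((N I : ℕ) : ℝ) e := by
        rw [hcxI, div_pow]
        have h4' : Real.log ((N I : ℕ) : ℝ) ≠ 0 := hI4.ne'
        have h2' := hNpos.ne'
        field_simp
      rw [heq]
      have h1 : ((N I : ℕ) : ℝ) / x ≤ (1 / 2 : ℝ) ^ I := by
        rw [div_le_iff₀ hx0, one_div, inv_pow]
        calc ((N I : ℕ) : ℝ) ≤ x / 2 ^ I := hI3
          _ = (2 ^ I)⁻¹ * x := by rw [div_eq_mul_inv, mul_comm]
      have h2 : (L / Real.log (N I : ℕ)) ^ (k + 1) ≤ 2 := (hratio I le_rfl).trans (by linarith)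
      have h3 : (0:ℝ) ≤ ((N I : ℕ) : ℝ) / x := by positivity
      apply mul_le_mul_of_nonneg_right _ hcx0
      exact mul_le_mul h2 h1 h3 (by norm_num)
    have hsum0 : 0 ≤ ∑ i : Fin I, wt i * max ((Real.log (N (i + 1))) ^ (k + 1) / (N (i + 1) : ℕ) *
            (F6U.blk k e (N (i + 1)) : ℝ)
            - (4 ^ k + ε₁) * singularSeries (Finset.univ.image e)) 0 :=
      Finset.sum_nonneg (fun i _ => mul_nonneg (hwt0 i) (le_max_right _ _))
    apply max_le
    · have h1 : cx k x e ≤ ∑ i : Fin I, wt i * ((Real.log (N (i + 1))) ^ (k + 1) / (N (i + 1) : ℕ) *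
            (F6U.blk k e (N (i + 1)) : ℝ)) + δ + 2 * (1 / 2 : ℝ) ^ I * cx k ((N I : ℕ) : ℝ) e := by
        rw [hcx]
        calc L ^ (k + 1) / x * (F6U.cnt k e ⌊x⌋₊ : ℝ)
            ≤ L ^ (k + 1) / x * ((F6U.cnt k e (N I) : ℝ) +
                ∑ i : Fin I, (F6U.blk k e (N (i + 1)) : ℝ) + I) := mul_le_mul_of_nonneg_left hr hcq0
          _ = ∑ i : Fin I, L ^ (k + 1) / x * (F6U.blk k e (N (i + 1)) : ℝ) + L ^ (k + 1) / x * I +
                L ^ (k + 1) / x * (F6U.cnt k e (N I) : ℝ) := by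
                rw [mul_add, mul_add, Finset.mul_sum]; ring
          _ ≤ _ := by
                rw [Finset.sum_congr rfl (fun i _ => hterm i)]
                linarith
      have h2 : ∑ i : Fin I, wt i * ((Real.log (N (i + 1))) ^ (k + 1) / (N (i + 1) : ℕ) *
            (F6U.blk k e (N (i + 1)) : ℝ)) ≤
          ∑ i : Fin I, wt i * max ((Real.log (N (i + 1))) ^ (k + 1) / (N (i + 1) : ℕ) *
            (F6U.blk k e (N (i + 1)) : ℝ)
            - (4 ^ k + ε₁) * singularSeries (Finset.univ.image e)) 0 +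
          (∑ i : Fin I, wt i) * ((4 ^ k + ε₁) * singularSeries (Finset.univ.image e)) := by
        rw [Finset.sum_mul, ← Finset.sum_add_distrib]
        apply Finset.sum_le_sum
        intro i _
        rw [← mul_add]
        apply mul_le_mul_of_nonneg_left _ (hwt0 i)
        have := le_max_left ((Real.log (N (i + 1))) ^ (k + 1) / (N (i + 1) : ℕ) *
            (F6U.blk k e (N (i + 1)) : ℝ)
            - (4 ^ k + ε₁) * singularSeries (Finset.univ.image e)) 0
        linarith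
      have h3 : (∑ i : Fin I, wt i) * ((4 ^ k + ε₁) * singularSeries (Finset.univ.image e)) ≤
          (4 ^ k + ε / 2) * singularSeries (Finset.univ.image e) := by
        calc _ ≤ (1 + θ) * ((4 ^ k + ε₁) * singularSeries (Finset.univ.image e)) :=
              mul_le_mul_of_nonneg_right hwtsum (by positivity)
          _ = ((4 ^ k + ε₁) + θ * (4 ^ k + ε₁)) * singularSeries (Finset.univ.image e) := by ring
          _ ≤ _ := mul_le_mul_of_nonneg_right (by linarith) hSe0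
      linarith
    · have h5 : 0 ≤ 2 * (1 / 2 : ℝ) ^ I * cx k ((N I : ℕ) : ℝ) e := by positivity
      linarith
  -- the total excess
  have htot : ∑ e ∈ S, max (cx k x e - (4 ^ k + ε / 2) * singularSeries (Finset.univ.image e)) 0 ≤
      η * (((2 * H : ℕ):ℝ) + 1) ^ (k + 1) := by
    have hP : (0:ℝ) ≤ (((2 * H : ℕ):ℝ) + 1) ^ (k + 1) := by positivity
    have hsum1 : ∑ e ∈ S, (∑ i : Fin I, wt i * max ((Real.log (N (i + 1))) ^ (k + 1) /
          (N (i + 1) : ℕ) * (F6U.blk k e (N (i + 1)) : ℝ)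
            - (4 ^ k + ε₁) * singularSeries (Finset.univ.image e)) 0) ≤
        η / 4 * (((2 * H : ℕ):ℝ) + 1) ^ (k + 1) := by
      rw [Finset.sum_comm]
      have h1 : ∀ i : Fin I, ∑ e ∈ S, wt i * max ((Real.log (N (i + 1))) ^ (k + 1) /
          (N (i + 1) : ℕ) * (F6U.blk k e (N (i + 1)) : ℝ)
            - (4 ^ k + ε₁) * singularSeries (Finset.univ.image e)) 0 ≤
          wt i * (ε₁ * (((2 * H : ℕ):ℝ) + 1) ^ (k + 1)) := by
        intro i
        rw [← Finset.mul_sum]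
        exact mul_le_mul_of_nonneg_left (hex i) (hwt0 i)
      refine (Finset.sum_le_sum (fun i _ => h1 i)).trans ?_
      rw [← Finset.sum_mul]
      calc (∑ i : Fin I, wt i) * (ε₁ * (((2 * H : ℕ):ℝ) + 1) ^ (k + 1))
          ≤ 2 * (ε₁ * (((2 * H : ℕ):ℝ) + 1) ^ (k + 1)) :=
            mul_le_mul_of_nonneg_right (hwtsum.trans (by linarith)) (by positivity)
        _ = (2 * ε₁) * (((2 * H : ℕ):ℝ) + 1) ^ (k + 1) := by ring
        _ ≤ η / 4 * (((2 * H : ℕ):ℝ) + 1) ^ (k + 1) := mul_le_mul_of_nonneg_right (by linarith) hP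
    have hsum2 : ∑ e ∈ S, δ ≤ η / 4 * (((2 * H : ℕ):ℝ) + 1) ^ (k + 1) := by
      rw [Finset.sum_const, nsmul_eq_mul]
      calc (S.card : ℝ) * δ ≤ (((2 * H : ℕ):ℝ) + 1) ^ (k + 1) * (η / 4) :=
            mul_le_mul hScard hδa hδ.le hP
        _ = _ := mul_comm _ _
    have hsum3 : ∑ e ∈ S, (2 * (1 / 2 : ℝ) ^ I * cx k ((N I : ℕ) : ℝ) e) ≤
        η / 4 * (((2 * H : ℕ):ℝ) + 1) ^ (k + 1) := by
      rw [← Finset.mul_sum]
      have h1 := (hmom ((N I : ℕ) : ℝ) (le_trans (le_max_left _ _) hI1) (2 * H) h2H).1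
      have hsub : ∑ e ∈ S, cx k ((N I : ℕ) : ℝ) e ≤
          ∑ e ∈ (box (k + 1) (2 * H)).filter (fun e => Function.Injective e),
            cx k ((N I : ℕ) : ℝ) e := by
        apply Finset.sum_le_sum_of_subset_of_nonneg
        · intro e he
          rw [hS, Finset.mem_filter] at he
          rw [Finset.mem_filter]
          exact ⟨he.1, he.2.1⟩
        · intro e _ _
          unfold cx
          have := hI4.le
          positivity
      calc 2 * (1 / 2 : ℝ) ^ I * ∑ e ∈ S, cx k ((N I : ℕ) : ℝ) e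
          ≤ 2 * (1 / 2 : ℝ) ^ I * (C * (((2 * H : ℕ):ℝ) + 1) ^ (k + 1)) :=
            mul_le_mul_of_nonneg_left (hsub.trans h1) (by positivity)
        _ = (2 * (1 / 2 : ℝ) ^ I * C) * (((2 * H : ℕ):ℝ) + 1) ^ (k + 1) := by ring
        _ ≤ η / 4 * (((2 * H : ℕ):ℝ) + 1) ^ (k + 1) := mul_le_mul_of_nonneg_right hI hP
    refine (Finset.sum_le_sum hpt).trans ?_
    rw [Finset.sum_add_distrib, Finset.sum_add_distrib]
    have hηP : 0 ≤ η / 4 * (((2 * H : ℕ):ℝ) + 1) ^ (k + 1) := by positivity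
    linarith
  -- the violating sets
  set V := ((Finset.Icc 1 H).powersetCard k).filter (fun D =>
        (∀ p : ℕ, p.Prime → nu (insert 0 D) p < p) ∧
        (4 ^ k + ε) * (singularSeries (insert 0 D) * (x / L ^ (k + 1))) <
          (tupleCount x (insert 0 D) : ℝ)) with hV
  have hVmem : ∀ D ∈ V, D.card = k ∧ 0 ∉ D ∧ (∀ d ∈ D, d ≤ H) := by
    intro D hD
    rw [hV, Finset.mem_filter, Finset.mem_powersetCard] at hD
    obtain ⟨⟨hsub, hcard⟩, _⟩ := hD
    refine ⟨hcard, ?_, ?_⟩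
    · intro h
      have := Finset.mem_Icc.mp (hsub h)
      omega
    · intro d hd
      exact (Finset.mem_Icc.mp (hsub hd)).2
  have hmaps : ∀ q ∈ V ×ˢ Finset.range (H + 1), F6U.tup' k q ∈ S := by
    rintro ⟨D, t⟩ hq
    rw [Finset.mem_product] at hq
    obtain ⟨hD, ht⟩ := hq
    obtain ⟨hcard, h0, hle⟩ := hVmem D hD
    have htH : t ≤ H := by
      have := Finset.mem_range.mp ht
      omega
    simp only at hD
    rw [F6U.tup'_eq k D hcard]
    have himg := F6U.tup_image k D hcard t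
    rw [hS, Finset.mem_filter]
    refine ⟨?_, F6U.tup_injective k D hcard t h0, ?_⟩
    · unfold box
      rw [Fintype.mem_piFinset]
      intro i
      have hi : F6U.tup k D hcard t i ∈ Finset.univ.image (F6U.tup k D hcard t) :=
        Finset.mem_image_of_mem _ (Finset.mem_univ i)
      rw [himg, Finset.mem_image] at hi
      obtain ⟨d, hd, hdi⟩ := hi
      rw [← hdi, Finset.mem_range]
      rcases Finset.mem_insert.mp hd with rfl | hd
      · omega
      · have := hle d hd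
        omega
    · intro p hp
      rw [himg, F6U.nu_shift]
      rw [hV, Finset.mem_filter] at hD
      exact hD.2.1 p hp
  have hinj : Set.InjOn (F6U.tup' k) ((V ×ˢ Finset.range (H + 1) : Finset (Finset ℕ × ℕ)) :
      Set (Finset ℕ × ℕ)) := by
    rintro ⟨D, t⟩ hq ⟨D', t'⟩ hq' h
    rw [Finset.mem_coe, Finset.mem_product] at hq hq'
    obtain ⟨hcard, h0, _⟩ := hVmem D hq.1
    obtain ⟨hcard', h0', _⟩ := hVmem D' hq'.1
    exact F6U.tup'_inj k D D' t t' hcard hcard' h0 h0' h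
  have hexc : ∀ q ∈ V ×ˢ Finset.range (H + 1), g ≤
      max (cx k x (F6U.tup' k q) -
        (4 ^ k + ε / 2) * singularSeries (Finset.univ.image (F6U.tup' k q))) 0 := by
    intro q hq
    have hqS := hS0 _ (hmaps q hq)
    obtain ⟨D, t⟩ := q
    rw [Finset.mem_product] at hq
    obtain ⟨hD, ht⟩ := hq
    obtain ⟨hcard, h0, hle⟩ := hVmem D hD
    have htH : t ≤ H := by
      have := Finset.mem_range.mp ht
      simp only at this
      omega
    rw [F6U.tup'_eq k D hcard] at hqS ⊢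
    have himg := F6U.tup_image k D hcard t
    refine le_trans ?_ (le_max_left _ _)
    unfold cx
    rw [himg, F6U.singularSeries_shift] at hqS
    rw [himg, F6U.singularSeries_shift]
    have hsh : (tupleCount x (insert 0 D) : ℝ) ≤
        (tupleCount x ((insert 0 D).image (fun d => t + d)) : ℝ) + t := by
      exact_mod_cast F6U.tupleCount_shift x (insert 0 D) t
    have hviol : (4 ^ k + ε) * (singularSeries (insert 0 D) * (x / L ^ (k + 1))) <
          (tupleCount x (insert 0 D) : ℝ) := by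
      rw [hV, Finset.mem_filter] at hD
      exact hD.2.2
    have hcq0 : 0 < L ^ (k + 1) / x := by positivity
    have h1 : (4 ^ k + ε) * singularSeries (insert 0 D) ≤
        L ^ (k + 1) / x * (tupleCount x (insert 0 D) : ℝ) := by
      have h2 := mul_le_mul_of_nonneg_left hviol.le hcq0.le
      have h3 : L ^ (k + 1) / x * ((4 ^ k + ε) * (singularSeries (insert 0 D) * (x / L ^ (k + 1)))) =
          (4 ^ k + ε) * singularSeries (insert 0 D) := by
        have hL0 : L ≠ 0 := hLpos.ne'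
        have hx0' : x ≠ 0 := hx0.ne'
        field_simp
      rwa [h3] at h2
    have h4 : L ^ (k + 1) / x * (t : ℝ) ≤ g := by
      have h5 : (t : ℝ) ≤ L ^ A := le_trans (by exact_mod_cast htH) hH2
      exact (mul_le_mul_of_nonneg_left h5 hcq0.le).trans (hbd2.trans hδb)
    have h6 : L ^ (k + 1) / x * (tupleCount x (insert 0 D) : ℝ) ≤
        L ^ (k + 1) / x * (tupleCount x ((insert 0 D).image (fun d => t + d)) : ℝ) +
          L ^ (k + 1) / x * (t : ℝ) := by
      rw [← mul_add]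
      exact mul_le_mul_of_nonneg_left hsh hcq0.le
    have h7 : 2 * g ≤ ε / 2 * singularSeries (insert 0 D) := by
      have : 2 * g = ε / 2 * c0 := by rw [hg]; ring
      rw [this]
      exact mul_le_mul_of_nonneg_left hqS (by positivity)
    linarith
  have hfin : (V.card : ℝ) * ((H:ℝ) + 1) * g ≤ η * (((2 * H : ℕ):ℝ) + 1) ^ (k + 1) := by
    calc (V.card : ℝ) * ((H:ℝ) + 1) * g = ∑ q ∈ V ×ˢ Finset.range (H + 1), g := by
          rw [Finset.sum_const, Finset.card_product, Finset.card_range, nsmul_eq_mul]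
          push_cast
          ring
      _ ≤ ∑ q ∈ V ×ˢ Finset.range (H + 1), max (cx k x (F6U.tup' k q) -
        (4 ^ k + ε / 2) * singularSeries (Finset.univ.image (F6U.tup' k q))) 0 :=
          Finset.sum_le_sum hexc
      _ = ∑ e ∈ (V ×ˢ Finset.range (H + 1)).image (F6U.tup' k), max (cx k x e -
        (4 ^ k + ε / 2) * singularSeries (Finset.univ.image e)) 0 := by
          rw [Finset.sum_image hinj]
      _ ≤ ∑ e ∈ S, max (cx k x e -
        (4 ^ k + ε / 2) * singularSeries (Finset.univ.image e)) 0 := by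
          apply Finset.sum_le_sum_of_subset_of_nonneg
          · intro e he
            obtain ⟨q, hq, rfl⟩ := Finset.mem_image.mp he
            exact hmaps q hq
          · intro e _ _
            exact le_max_right _ _
      _ ≤ _ := htot
  have hpow : η * (((2 * H : ℕ):ℝ) + 1) ^ (k + 1) ≤ (ε * (H:ℝ) ^ k) * ((H:ℝ) + 1) * g := by
    have h1 : (((2 * H : ℕ):ℝ) + 1) ^ k ≤ (3 * (H:ℝ)) ^ k := by
      apply pow_le_pow_left₀ (by positivity)
      push_cast
      linarith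
    have h2 : (((2 * H : ℕ):ℝ) + 1) ≤ 2 * ((H:ℝ) + 1) := by push_cast; linarith
    calc η * (((2 * H : ℕ):ℝ) + 1) ^ (k + 1)
        = η * ((((2 * H : ℕ):ℝ) + 1) ^ k * (((2 * H : ℕ):ℝ) + 1)) := by rw [pow_succ]
      _ ≤ η * ((3 * (H:ℝ)) ^ k * (2 * ((H:ℝ) + 1))) := by
          apply mul_le_mul_of_nonneg_left _ hηpos.le
          exact mul_le_mul h1 h2 (by positivity) (by positivity)
      _ = _ := by
          rw [hη, mul_pow]
          have h3 : (3:ℝ) ^ k ≠ 0 := by positivity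
          field_simp
  have hlast : (V.card : ℝ) * (((H:ℝ) + 1) * g) ≤ (ε * (H:ℝ) ^ k) * (((H:ℝ) + 1) * g) := by
    have := hfin.trans hpow
    rwa [mul_assoc, mul_assoc] at this
  exact le_of_mul_le_mul_right hlast (by positivity)

end Pool.Agent.HLT
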