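import Mathlib
import Pool.Agent.HLT.ClassTuples
import Pool.Agent.HLT.Sing2
import Pool.Agent.HLT.RowMoment

set_option autoImplicit false

open Finset Filter

namespace Pool.Agent.HLT

open Pool.Agent.HL26 Pool.Agent.Maynard

lemma f1_card_superset_le (V S : Finset ℕ) (k : ℕ) :
    ((V.powersetCard k).filter (fun E => S ⊆ E)).card ≤ V.card ^ (k - S.card) := by
  calc _ ≤ (V.powersetCard (k - S.card)).card := by
        apply Finset.card_le_card_of_injOn (fun E => E \ S)
        · intro E hE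
          rw [Finset.mem_coe, Finset.mem_filter, Finset.mem_powersetCard] at hE
          rw [Finset.mem_coe, Finset.mem_powersetCard]
          refine ⟨Finset.sdiff_subset.trans hE.1.1, ?_⟩
          rw [Finset.card_sdiff_of_subset hE.2, hE.1.2]
        · intro E hE E' hE' h
          rw [Finset.mem_coe, Finset.mem_filter] at hE hE'
          simp only at h
          rw [← Finset.sdiff_union_of_subset hE.2, ← Finset.sdiff_union_of_subset hE'.2, h]
    _ = V.card.choose (k - S.card) := Finset.card_powersetCard _ _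
    _ ≤ V.card ^ (k - S.card) := Nat.choose_le_pow _ _

lemma f1_Wp_pos (w : ℕ) : 0 < Wp w := Finset.prod_pos (fun p hp => (PPy_prime w p hp).pos)

lemma f1_cW_pos (w : ℕ) : 0 < cW (Wp w) := cW_pos (f1_Wp_pos w)

/-- the residues that are alive together with `a` -/
def f1_rho (w a : ℕ) : Finset ℕ := (Finset.range (Wp w)).filter (fun r => (a + r).Coprime (Wp w))

lemma f1_rho_card (w a : ℕ) : ((f1_rho w a).card : ℝ) = cW (Wp w) * Wp w := by
  have h1 : (f1_rho w a).card = Nat.totient (Wp w) := by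
    rw [← Nat.filter_coprime_Ico_eq_totient (Wp w) a]
    unfold f1_rho
    apply Finset.card_bij (fun r _ => a + r)
    · intro r hr
      rw [Finset.mem_filter, Finset.mem_range] at hr
      rw [Finset.mem_filter, Finset.mem_Ico]
      exact ⟨⟨by omega, by omega⟩, hr.2.symm⟩
    · intro r _ r' _ h
      omega
    · intro b hb
      rw [Finset.mem_filter, Finset.mem_Ico] at hb
      refine ⟨b - a, ?_, by omega⟩
      rw [Finset.mem_filter, Finset.mem_range]
      refine ⟨by omega, ?_⟩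
      rw [Nat.add_sub_cancel' hb.1.1]
      exact hb.2.symm
  rw [h1]
  unfold cW
  have : (0:ℝ) < Wp w := by exact_mod_cast f1_Wp_pos w
  field_simp

lemma f1_rho_nonempty (w a : ℕ) : (f1_rho w a).Nonempty := by
  rw [← Finset.card_pos]
  have h := f1_rho_card w a
  have h2 : 0 < cW (Wp w) * (Wp w : ℝ) := mul_pos (f1_cW_pos w) (by exact_mod_cast f1_Wp_pos w)
  rw [← h] at h2
  exact_mod_cast h2

lemma f1_VS_full (w H : ℕ) : VS w H (Finset.range (Wp w)) = Finset.range (H + 1) := by
  unfold VS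
  rw [Finset.filter_true_of_mem]
  intro d _
  rw [Finset.mem_range]
  exact Nat.mod_lt _ (f1_Wp_pos w)

open Classical in
lemma f1_irregular (w H k : ℕ) (κ : ℝ) (hk : 2 ≤ k)
    (h : ∀ d : ℕ, d ≤ H → ∑ d' ∈ VS w H (Finset.range (Wp w)),
      (if d' = d then 0 else pp w (Nat.dist d d') ^ 1 - 1) ≤
        κ * ((VS w H (Finset.range (Wp w))).card : ℝ)) :
    ((((Finset.range (H + 1)).powersetCard k).filter (fun E => ∃ d ∈ E, ∃ d' ∈ E, d' ≠ d ∧
      2 < pp w (Nat.dist d d'))).card : ℝ) ≤ κ * ((H:ℝ) + 1) ^ k := by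
  rw [f1_VS_full, Finset.card_range] at h
  set R := Finset.range (H + 1) with hR
  set B : ℕ → Finset ℕ := fun d => R.filter (fun d' => d' ≠ d ∧ 2 < pp w (Nat.dist d d')) with hB
  have hBc : ∀ d ∈ R, ((B d).card : ℝ) ≤ κ * ((H:ℝ) + 1) := by
    intro d hd
    have h1 := h d (by rw [hR, Finset.mem_range] at hd; omega)
    push_cast at h1
    refine le_trans ?_ h1
    rw [Finset.card_eq_sum_ones]
    push_cast
    rw [hB]
    simp only
    rw [Finset.sum_filter]
    apply Finset.sum_le_sum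
    intro d' _
    have hge := one_le_pp w (Nat.dist d d')
    by_cases hdd : d' = d
    · rw [if_neg (by simp [hdd]), if_pos hdd]
    · rw [if_neg hdd]
      split_ifs with hc
      · rw [pow_one]; linarith [hc.2]
      · rw [pow_one]; linarith
  have hsub : ((R.powersetCard k).filter (fun E => ∃ d ∈ E, ∃ d' ∈ E, d' ≠ d ∧
      2 < pp w (Nat.dist d d'))) ⊆
      R.biUnion (fun d => (B d).biUnion (fun d' =>
        (R.powersetCard k).filter (fun E => ({d, d'} : Finset ℕ) ⊆ E))) := by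
    intro E hE
    rw [Finset.mem_filter] at hE
    obtain ⟨hE1, d, hd, d', hd', hne, hpp⟩ := hE
    have hER := (Finset.mem_powersetCard.mp hE1).1
    rw [Finset.mem_biUnion]
    refine ⟨d, hER hd, ?_⟩
    rw [Finset.mem_biUnion]
    refine ⟨d', ?_, ?_⟩
    · rw [hB]
      simp only [Finset.mem_filter]
      exact ⟨hER hd', hne, hpp⟩
    · rw [Finset.mem_filter]
      refine ⟨hE1, ?_⟩
      intro y hy
      rw [Finset.mem_insert, Finset.mem_singleton] at hy
      rcases hy with rfl | rfl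
      · exact hd
      · exact hd'
  have hcard : (((R.powersetCard k).filter (fun E => ∃ d ∈ E, ∃ d' ∈ E, d' ≠ d ∧
      2 < pp w (Nat.dist d d'))).card : ℝ) ≤ ∑ d ∈ R, ∑ d' ∈ B d, ((H:ℝ) + 1) ^ (k - 2) := by
    have h1 := (Finset.card_le_card hsub).trans (Finset.card_biUnion_le)
    have h2 : ∀ d ∈ R, ((B d).biUnion (fun d' =>
        (R.powersetCard k).filter (fun E => ({d, d'} : Finset ℕ) ⊆ E))).card ≤
        ∑ d' ∈ B d, (H + 1) ^ (k - 2) := by
      intro d _
      refine Finset.card_biUnion_le.trans ?_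
      apply Finset.sum_le_sum
      intro d' hd'
      rw [hB] at hd'
      simp only [Finset.mem_filter] at hd'
      have h3 := f1_card_superset_le R {d, d'} k
      rw [Finset.card_pair (Ne.symm hd'.2.1), hR, Finset.card_range] at h3
      exact h3
    have h3 := h1.trans (Finset.sum_le_sum h2)
    have h4 : (((R.powersetCard k).filter (fun E => ∃ d ∈ E, ∃ d' ∈ E, d' ≠ d ∧
      2 < pp w (Nat.dist d d'))).card : ℝ) ≤ ((∑ d ∈ R, ∑ d' ∈ B d, (H + 1) ^ (k - 2) : ℕ) : ℝ) := by
      exact_mod_cast h3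
    push_cast at h4
    exact h4
  refine hcard.trans ?_
  have h5 : ∀ d ∈ R, ∑ d' ∈ B d, ((H:ℝ) + 1) ^ (k - 2) ≤ κ * ((H:ℝ) + 1) * ((H:ℝ) + 1) ^ (k - 2) := by
    intro d hd
    rw [Finset.sum_const, nsmul_eq_mul]
    exact mul_le_mul_of_nonneg_right (hBc d hd) (by positivity)
  refine (Finset.sum_le_sum h5).trans ?_
  rw [Finset.sum_const, nsmul_eq_mul, hR, Finset.card_range]
  push_cast
  have h6 : ((H:ℝ) + 1) ^ k = ((H:ℝ) + 1) ^ 2 * ((H:ℝ) + 1) ^ (k - 2) := by
    rw [← pow_add]; congr 1; omega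
  rw [h6]
  apply le_of_eq
  ring

lemma f1_density (k r : ℕ) (hr : r ≤ k) (V : Finset ℕ) (hV : 2 * k ≤ V.card) (hV0 : 0 < V.card)
    (I : Fin r ↪ Fin k) (v : Fin r → ℕ) :
    ((univ.filter (fun t : {E // E ∈ V.powersetCard k} => ∀ i,
      t.1.orderEmbOfFin (Finset.mem_powersetCard.mp t.2).2 (I i) = v i)).card : ℝ) ≤
      (2 ^ k * k.factorial : ℝ) * (Fintype.card {E // E ∈ V.powersetCard k} : ℝ) /
        (V.card : ℝ) ^ r := by
  have hVp : (0:ℝ) < V.card := by exact_mod_cast hV0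
  set F := (univ.filter (fun t : {E // E ∈ V.powersetCard k} => ∀ i,
      t.1.orderEmbOfFin (Finset.mem_powersetCard.mp t.2).2 (I i) = v i)) with hF
  have hcardT : Fintype.card {E // E ∈ V.powersetCard k} = V.card.choose k := by
    rw [Fintype.card_coe, Finset.card_powersetCard]
  have h1 : (V.card) ^ k ≤ 2 ^ k * (k.factorial * V.card.choose k) := by
    calc V.card ^ k ≤ (2 * (V.card + 1 - k)) ^ k := Nat.pow_le_pow_left (by omega) k
      _ = 2 ^ k * (V.card + 1 - k) ^ k := by rw [mul_pow]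
      _ ≤ 2 ^ k * V.card.descFactorial k := Nat.mul_le_mul_left _ (Nat.pow_sub_le_descFactorial _ _)
      _ = _ := by rw [Nat.descFactorial_eq_factorial_mul_choose]
  have h1' : (V.card : ℝ) ^ k ≤ 2 ^ k * ((k.factorial : ℝ) * (V.card.choose k : ℝ)) := by
    exact_mod_cast h1
  rw [hcardT, le_div_iff₀ (by positivity)]
  rcases Finset.eq_empty_or_nonempty F with h0 | ⟨t0, ht0⟩
  · rw [h0]
    simp only [Finset.card_empty, Nat.cast_zero, zero_mul]
    positivity
  · rw [hF, Finset.mem_filter] at ht0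
    have hvinj : Function.Injective v := by
      intro i j hij
      rw [← ht0.2 i, ← ht0.2 j] at hij
      exact I.injective ((t0.1.orderEmbOfFin (Finset.mem_powersetCard.mp t0.2).2).injective hij)
    set S := Finset.image v univ with hS
    have hScard : S.card = r := by
      rw [hS, Finset.card_image_of_injective _ hvinj, Finset.card_univ, Fintype.card_fin]
    have h2 : F.card ≤ ((V.powersetCard k).filter (fun E => S ⊆ E)).card := by
      apply Finset.card_le_card_of_injOn (fun t => t.1)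
      · intro t ht
        rw [Finset.mem_coe, hF, Finset.mem_filter] at ht
        rw [Finset.mem_coe, Finset.mem_filter]
        refine ⟨t.2, ?_⟩
        intro y hy
        rw [hS, Finset.mem_image] at hy
        obtain ⟨i, _, rfl⟩ := hy
        rw [← ht.2 i]
        exact Finset.orderEmbOfFin_mem _ _ _
      · intro t _ t' _ h
        exact Subtype.ext h
    have h3 := h2.trans (f1_card_superset_le V S k)
    rw [hScard] at h3
    have h3' : (F.card : ℝ) ≤ (V.card : ℝ) ^ (k - r) := by exact_mod_cast h3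
    calc (F.card : ℝ) * (V.card : ℝ) ^ r ≤ (V.card : ℝ) ^ (k - r) * (V.card : ℝ) ^ r :=
          mul_le_mul_of_nonneg_right h3' (by positivity)
      _ = (V.card : ℝ) ^ k := by rw [← pow_add]; congr 1; omega
      _ ≤ _ := h1'
      _ = _ := by ring

lemma f1_pairs_le (w r : ℕ) (e : Fin r → ℕ)
    (h : ∀ i j, i ≠ j → pp w (Nat.dist (e i) (e j)) ≤ 2) :
    pairs (fun x y : ℕ => pp w (Nat.dist x y) ^ r) e ≤ 2 ^ (r * r * r) := by
  unfold pairs
  have h1 : ∀ i : Fin r, ∏ j ∈ univ.filter (fun j => i < j), pp w (Nat.dist (e i) (e j)) ^ r ≤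
      (2:ℝ) ^ (r * r) := by
    intro i
    have h0 : ∀ j, 0 ≤ pp w (Nat.dist (e i) (e j)) := fun j => by
      have := one_le_pp w (Nat.dist (e i) (e j)); linarith
    calc ∏ j ∈ univ.filter (fun j => i < j), pp w (Nat.dist (e i) (e j)) ^ r ≤
        ∏ j ∈ univ.filter (fun j => i < j), (2:ℝ) ^ r := by
          apply Finset.prod_le_prod
          · intro j _
            exact pow_nonneg (h0 j) _
          · intro j hj
            rw [Finset.mem_filter] at hj
            exact pow_le_pow_left₀ (h0 j) (h i j hj.2.ne) _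
      _ = ((2:ℝ) ^ r) ^ (univ.filter (fun j : Fin r => i < j)).card := by rw [Finset.prod_const]
      _ ≤ ((2:ℝ) ^ r) ^ r := by
          apply pow_le_pow_right₀
          · exact one_le_pow₀ (by norm_num)
          · exact (Finset.card_le_univ _).trans (by rw [Fintype.card_fin])
      _ = _ := by rw [← pow_mul]
  calc _ ≤ ∏ i : Fin r, (2:ℝ) ^ (r * r) := by
        apply Finset.prod_le_prod
        · intro i _
          apply Finset.prod_nonneg
          intro j _
          have := one_le_pp w (Nat.dist (e i) (e j))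
          exact pow_nonneg (by linarith) _
        · intro i _
          exact h1 i
    _ = _ := by
        rw [Finset.prod_const, Finset.card_univ, Fintype.card_fin, ← pow_mul]


lemma f1_eventually (A : ℕ) (K0 H0 W : ℝ) (hK0 : 0 < K0) (hW : 0 < W) (P : ℕ → Prop)
    (hP : ∀ᶠ N : ℕ in atTop, P N) : ∃ X : ℝ, ∀ x : ℝ, X ≤ x →
      P ⌊x / 3⌋₊ ∧ 0 < Real.log (⌊x / 3⌋₊ : ℝ) ∧ Real.log (⌊x / 3⌋₊ : ℝ) ≤ Real.log x ∧
      (Real.log x) ^ A ≤ (Real.log (⌊x / 3⌋₊ : ℝ)) ^ (A + 1) ∧ (Real.log x) ^ A ≤ x / 3 ∧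
      x / (8 * W) ≤ (⌊x / 3⌋₊ : ℝ) / W - 1 ∧ H0 ≤ K0 * Real.log x ∧ 0 < x := by
  have hfl : Tendsto (fun x : ℝ => ⌊x / 3⌋₊) atTop atTop :=
    tendsto_nat_floor_atTop.comp (tendsto_id.atTop_div_const (by norm_num))
  have e1 := hfl.eventually hP
  have hlog := Real.tendsto_log_atTop
  have e2 : ∀ᶠ x : ℝ in atTop, 2 * Real.log 4 + 2 ^ (A + 1) + 2 ≤ Real.log x :=
    hlog.eventually_ge_atTop _
  have e3 : ∀ᶠ x : ℝ in atTop, H0 / K0 ≤ Real.log x := hlog.eventually_ge_atTop _
  have e4 : ∀ᶠ x : ℝ in atTop, (24 / 5) * (1 + W) + 12 ≤ x := eventually_ge_atTop _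
  have e5 : ∀ᶠ x : ℝ in atTop, ‖(Real.log x) ^ A‖ ≤ (1 / 3) * ‖x‖ := by
    have h := (Real.isLittleO_pow_log_id_atTop (n := A)).def (show (0:ℝ) < 1 / 3 by norm_num)
    simpa using h
  obtain ⟨X, hX⟩ := eventually_atTop.mp (e1.and (e2.and (e3.and (e4.and e5))))
  refine ⟨X, fun x hx => ?_⟩
  obtain ⟨h1, h2, h3, h4, h5⟩ := hX x hx
  have hx12 : 12 ≤ x := by linarith
  have hxpos : 0 < x := by linarith
  have hNlow : x / 3 - 1 ≤ (⌊x / 3⌋₊ : ℝ) := (Nat.sub_one_lt_floor _).le
  have hNup : (⌊x / 3⌋₊ : ℝ) ≤ x / 3 := Nat.floor_le (by positivity)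
  have hN4 : x / 4 ≤ (⌊x / 3⌋₊ : ℝ) := by linarith
  have hNpos : (0:ℝ) < (⌊x / 3⌋₊ : ℝ) := by linarith
  have hlogN : Real.log x - Real.log 4 ≤ Real.log (⌊x / 3⌋₊ : ℝ) := by
    rw [← Real.log_div (by positivity) (by norm_num)]
    exact Real.log_le_log (by positivity) hN4
  have h4' : 0 < Real.log 4 := Real.log_pos (by norm_num)
  have hp2 : (0:ℝ) < 2 ^ (A + 1) := by positivity
  have hhalf : Real.log x ≤ 2 * Real.log (⌊x / 3⌋₊ : ℝ) := by linarith
  have hbig : (2:ℝ) ^ A ≤ Real.log (⌊x / 3⌋₊ : ℝ) := by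
    have : (2:ℝ) ^ (A + 1) = 2 * 2 ^ A := by ring
    rw [this] at h2
    linarith
  have hlogpos : 0 < Real.log x := by linarith
  refine ⟨h1, by linarith, Real.log_le_log hNpos (by linarith), ?_, ?_, ?_, ?_, hxpos⟩
  · calc (Real.log x) ^ A ≤ (2 * Real.log (⌊x / 3⌋₊ : ℝ)) ^ A := pow_le_pow_left₀ hlogpos.le hhalf A
      _ = 2 ^ A * (Real.log (⌊x / 3⌋₊ : ℝ)) ^ A := by rw [mul_pow]
      _ ≤ Real.log (⌊x / 3⌋₊ : ℝ) * (Real.log (⌊x / 3⌋₊ : ℝ)) ^ A :=
        mul_le_mul_of_nonneg_right hbig (pow_nonneg (by linarith) _)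
      _ = _ := by ring
  · rw [Real.norm_eq_abs, Real.norm_eq_abs, abs_of_pos (pow_pos hlogpos _), abs_of_pos hxpos] at h5
    linarith
  · have h6 : x / (8 * W) = (x / 8) / W := by field_simp
    rw [h6, le_sub_iff_add_le, div_add_one hW.ne']
    apply div_le_div_of_nonneg_right _ hW.le
    linarith
  · rw [div_le_iff₀ hK0] at h3
    linarith


lemma f1_cardT (V : Finset ℕ) (k : ℕ) :
    (Fintype.card {E // E ∈ V.powersetCard k} : ℝ) ≤ (V.card : ℝ) ^ k := by
  rw [Fintype.card_coe, Finset.card_powersetCard]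
  exact_mod_cast Nat.choose_le_pow _ _

lemma f1_class_bound (m w H N a : ℕ) (ε' : ℝ) (hε' : 0 ≤ ε')
    (hV : 2 * (4 * m + 1) ≤ (VS w H (f1_rho w a)).card)
    (hct : ∀ (T : Type) [Fintype T] (e : T → Fin (4 * m + 1) → ℕ),
      (∀ t i, e t i ∈ VS w H (f1_rho w a)) → (∀ t, Function.Injective (e t)) →
      (∀ (I : Fin (m + 1) ↪ Fin (4 * m + 1)) (v : Fin (m + 1) → ℕ),
        ((univ.filter (fun t : T => ∀ i, e t (I i) = v i)).card : ℝ) ≤
          (2 ^ (4 * m + 1) * (4 * m + 1).factorial : ℝ) * (Fintype.card T : ℝ) /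
            ((VS w H (f1_rho w a)).card : ℝ) ^ (m + 1)) →
      ((univ.filter (fun t : T => ∀ I : Fin (m + 1) ↪ Fin (4 * m + 1),
        (((XS N w a).filter (fun n => ∀ i, (n + e t (I i)).Prime)).card : ℝ) <
          c0 m * ((XS N w a).card : ℝ) / (cW (Wp w) * Real.log N) ^ (m + 1))).card : ℝ) ≤
        ε' * (Fintype.card T : ℝ))
    (S : Finset (Finset ℕ))
    (hS : ∀ E ∈ S, E ∈ (VS w H (f1_rho w a)).powersetCard (4 * m + 1) ∧
      ∀ E' ∈ E.powersetCard (m + 1),
        (((XS N w a).filter (fun n => ∀ e ∈ E', (n + e).Prime)).card : ℝ) <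
          c0 m * ((XS N w a).card : ℝ) / (cW (Wp w) * Real.log N) ^ (m + 1)) :
    (S.card : ℝ) ≤ ε' * ((VS w H (f1_rho w a)).card : ℝ) ^ (4 * m + 1) := by
  set V := VS w H (f1_rho w a) with hVdef
  have h1 := hct {E // E ∈ V.powersetCard (4 * m + 1)}
    (fun t i => t.1.orderEmbOfFin (Finset.mem_powersetCard.mp t.2).2 i)
    (fun t i => (Finset.mem_powersetCard.mp t.2).1 (Finset.orderEmbOfFin_mem _ _ _))
    (fun t => (t.1.orderEmbOfFin (Finset.mem_powersetCard.mp t.2).2).injective)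
    (fun I v => by
      have := f1_density (4 * m + 1) (m + 1) (by omega) V hV (by omega) I v
      exact this)
  set F := (univ.filter (fun t : {E // E ∈ V.powersetCard (4 * m + 1)} =>
      ∀ I : Fin (m + 1) ↪ Fin (4 * m + 1),
        (((XS N w a).filter (fun n => ∀ i, (n + (t.1.orderEmbOfFin
          (Finset.mem_powersetCard.mp t.2).2) (I i)).Prime)).card : ℝ) <
          c0 m * ((XS N w a).card : ℝ) / (cW (Wp w) * Real.log N) ^ (m + 1))) with hF
  have hsub : S ⊆ F.image (fun t => t.1) := by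
    intro E hE
    obtain ⟨hE1, hE2⟩ := hS E hE
    rw [Finset.mem_image]
    refine ⟨⟨E, hE1⟩, ?_, rfl⟩
    rw [hF, Finset.mem_filter]
    refine ⟨Finset.mem_univ _, fun I => ?_⟩
    have hcardE := (Finset.mem_powersetCard.mp hE1).2
    have h2 := hE2 (Finset.image (fun i => E.orderEmbOfFin hcardE (I i)) univ) (by
      rw [Finset.mem_powersetCard]
      constructor
      · intro y hy
        rw [Finset.mem_image] at hy
        obtain ⟨i, _, rfl⟩ := hy
        exact Finset.orderEmbOfFin_mem _ _ _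
      · rw [Finset.card_image_of_injective, Finset.card_univ, Fintype.card_fin]
        exact (E.orderEmbOfFin hcardE).injective.comp I.injective)
    refine lt_of_le_of_lt ?_ h2
    norm_cast
    apply Finset.card_le_card
    intro n hn
    rw [Finset.mem_filter] at hn ⊢
    refine ⟨hn.1, ?_⟩
    intro y hy
    rw [Finset.mem_image] at hy
    obtain ⟨i, _, rfl⟩ := hy
    exact hn.2 i
  have h3 : (S.card : ℝ) ≤ (F.card : ℝ) := by
    exact_mod_cast (Finset.card_le_card hsub).trans Finset.card_image_le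
  have h4 := f1_cardT V (4 * m + 1)
  calc (S.card : ℝ) ≤ (F.card : ℝ) := h3
    _ ≤ _ := h1
    _ ≤ _ := mul_le_mul_of_nonneg_left h4 hε'

lemma f1_mem_VS (w H a : ℕ) (e : ℕ) (he : e ≤ H) (h : (a + e).Coprime (Wp w)) :
    e ∈ VS w H (f1_rho w a) := by
  unfold VS f1_rho
  rw [Finset.mem_filter, Finset.mem_range, Finset.mem_filter, Finset.mem_range]
  refine ⟨by omega, Nat.mod_lt _ (f1_Wp_pos w), ?_⟩
  have h1 : a + e % Wp w ≡ a + e [MOD Wp w] := Nat.ModEq.add_left a (Nat.mod_modEq e (Wp w))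
  unfold Nat.Coprime at h ⊢
  rw [← h]
  exact Nat.ModEq.gcd_eq h1

lemma f1_mem_filter {α : Type} (p : α → Prop) (inst : DecidablePred p) (s : Finset α) (a : α)
    (h : a ∈ @Finset.filter α p inst s) : a ∈ s ∧ p a := Finset.mem_filter.mp h

lemma f1_c0_pos (m : ℕ) : 0 < c0 m := by
  unfold c0
  have h2 : 0 < (4 * m + 1).choose (m + 1) := by
    apply Nat.choose_pos
    omega
  have h3 : (0:ℝ) < ((4 * m + 1).choose (m + 1) : ℝ) := by exact_mod_cast h2
  have h4 : (0:ℝ) < ((m + 1).factorial : ℝ) := by exact_mod_cast Nat.factorial_pos _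
  positivity

open Classical in
/-- C1: almost all admissible `(4m+1)`-sets contain an `(m+1)`-subset with a Hardy-Littlewood lower
bound. -/
theorem almost_all_tuples (m : ℕ) (hm : 1 ≤ m) (ε : ℝ) (hε : 0 < ε) : ∃ c K : ℝ, 0 < c ∧
    ∀ A : ℕ, ∃ X : ℝ, ∀ x : ℝ, X ≤ x → ∀ H : ℕ,
    K * Real.log x ≤ H → (H:ℝ) ≤ (Real.log x) ^ A →
    ((((Finset.range (H + 1)).powersetCard (4 * m + 1)).filter (fun E =>
        (∀ p : ℕ, p.Prime → nu E p < p) ∧
        ∀ E' ∈ E.powersetCard (m + 1),
          (tupleCount x (translate0 E') : ℝ) <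
            c * (singularSeries (translate0 E') * (x / (Real.log x) ^ (m + 1))))).card : ℝ) ≤
      ε * (H:ℝ) ^ (4 * m + 1) := by
  obtain ⟨c1, hc1, halive⟩ := alive_count (4 * m + 1) (by omega)
  obtain ⟨w0, hw0⟩ := class_tuples m hm (2 ^ (4 * m + 1) * (4 * m + 1).factorial : ℝ)
    (ε * c1 / (2 * 2 ^ (4 * m + 1))) (by positivity) (by positivity)
  obtain ⟨w1, hw1⟩ := row_moment 1 (ε / (2 * 2 ^ (4 * m + 1))) (by positivity)
  set w := max (max w0 w1) 1 with hw
  have hw0w : w0 ≤ w := (le_max_left _ _).trans (le_max_left _ _)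
  have hw1w : w1 ≤ w := (le_max_right _ _).trans (le_max_left _ _)
  have hw1' : 1 ≤ w := le_max_right _ _
  obtain ⟨K1, hK1⟩ := hw0 w hw0w
  obtain ⟨H0, hH0⟩ := hw1 w hw1w
  have hWpos : (0:ℝ) < (Wp w : ℝ) := by exact_mod_cast f1_Wp_pos w
  have hφpos := f1_cW_pos w
  have hc0 := f1_c0_pos m
  set r := m + 1 with hr
  refine ⟨c0 m / (8 * Wp w * 2 ^ (r * r * r)), max K1 1, by positivity, fun A => ?_⟩
  have hKpos : (0:ℝ) < max K1 1 := lt_max_of_lt_right one_pos
  obtain ⟨X, hX⟩ := f1_eventually A (max K1 1)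
    ((H0:ℝ) + 2 * Wp w + 4 * (4 * m + 1) * Wp w + 1) (Wp w) hKpos hWpos _ (hK1 (A + 1))
  refine ⟨X, fun x hx H hHlow hHup => ?_⟩
  obtain ⟨hP, hlogN, hlogle, hAle, hAx, hXS8, hHbig, hxpos⟩ := hX x hx
  set N := ⌊x / 3⌋₊ with hN
  have hHreal : (H0:ℝ) + 2 * Wp w + 4 * (4 * m + 1) * Wp w + 1 ≤ H := hHbig.trans hHlow
  have hmnn : (0:ℝ) ≤ (m:ℝ) := by positivity
  have hlogx : 0 < Real.log x := lt_of_lt_of_le hlogN hlogle
  have hH0le : H0 ≤ H := by
    have : (H0:ℝ) ≤ H := by nlinarith [mul_nonneg hmnn hWpos.le]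
    exact_mod_cast this
  have hH2W : 2 * Wp w ≤ H := by
    have h0 : (0:ℝ) ≤ (H0:ℝ) := by positivity
    have : ((2 * Wp w : ℕ) : ℝ) ≤ H := by
      push_cast
      nlinarith [mul_nonneg hmnn hWpos.le]
    exact_mod_cast this
  have hH1 : (1:ℝ) ≤ H := by
    have h0 : (0:ℝ) ≤ (H0:ℝ) := by positivity
    nlinarith [mul_nonneg hmnn hWpos.le]
  -- the class theorem applies
  have hP' := hP H (by
    calc K1 * Real.log N ≤ max K1 1 * Real.log N :=
          mul_le_mul_of_nonneg_right (le_max_left _ _) hlogN.le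
      _ ≤ max K1 1 * Real.log x := mul_le_mul_of_nonneg_left hlogle hKpos.le
      _ ≤ H := hHlow) (hHup.trans hAle)
  -- sizes of the classes
  have hVup : ∀ a : ℕ, ((VS w H (f1_rho w a)).card : ℝ) ≤ 2 * cW (Wp w) * H := by
    intro a
    have h := (card_VS w H (f1_rho w a) (fun r hr => by
      unfold f1_rho at hr
      rw [Finset.mem_filter, Finset.mem_range] at hr
      exact hr.1) hH2W).2
    rw [f1_rho_card] at h
    refine h.trans (le_of_eq ?_)
    field_simp
  have hVlow : ∀ a : ℕ, 2 * (4 * m + 1) ≤ (VS w H (f1_rho w a)).card := by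
    intro a
    have h := (card_VS w H (f1_rho w a) (fun r hr => by
      unfold f1_rho at hr
      rw [Finset.mem_filter, Finset.mem_range] at hr
      exact hr.1) hH2W).1
    have h1 : (1:ℝ) ≤ ((f1_rho w a).card : ℝ) := by
      exact_mod_cast Finset.card_pos.mpr (f1_rho_nonempty w a)
    have h2 : (H:ℝ) / (2 * Wp w) ≤ ((VS w H (f1_rho w a)).card : ℝ) := by
      refine le_trans ?_ h
      exact le_mul_of_one_le_left (by positivity) h1
    have h3 : (2:ℝ) * (4 * m + 1) ≤ (H:ℝ) / (2 * Wp w) := by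
      rw [le_div_iff₀ (by positivity)]
      have h0 : (0:ℝ) ≤ (H0:ℝ) := by positivity
      nlinarith
    exact_mod_cast h3.trans h2
  -- the bound for XS
  have hXS : ∀ a : ℕ, x / (8 * Wp w) ≤ ((XS N w a).card : ℝ) := by
    intro a
    have h := Pool.Agent.HLT.card_XS w N a
    have h1 := (abs_le.mp h).1
    linarith
  set Q := (Finset.range (H + 1)).powersetCard (4 * m + 1) with hQ
  set Irr := Q.filter (fun E => ∃ d ∈ E, ∃ d' ∈ E, d' ≠ d ∧ 2 < pp w (Nat.dist d d')) with hIrr
  set Reg := Q.filter (fun E => ((∀ p : ℕ, p.Prime → nu E p < p) ∧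
        ∀ E' ∈ E.powersetCard r,
          (tupleCount x (translate0 E') : ℝ) <
            c0 m / (8 * Wp w * 2 ^ (r * r * r)) *
              (singularSeries (translate0 E') * (x / (Real.log x) ^ r))) ∧
        ∀ d ∈ E, ∀ d' ∈ E, d' ≠ d → pp w (Nat.dist d d') ≤ 2) with hReg
  have hdec : ∀ S : Finset (Finset ℕ), (∀ E ∈ S, E ∈ Q ∧ ((∀ p : ℕ, p.Prime → nu E p < p) ∧
        ∀ E' ∈ E.powersetCard r,
          (tupleCount x (translate0 E') : ℝ) <
            c0 m / (8 * Wp w * 2 ^ (r * r * r)) *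
              (singularSeries (translate0 E') * (x / (Real.log x) ^ r)))) → S ⊆ Irr ∪ Reg := by
    intro S hS E hE'
    have hE := hS E hE'
    rw [Finset.mem_union]
    by_cases hc : ∃ d ∈ E, ∃ d' ∈ E, d' ≠ d ∧ 2 < pp w (Nat.dist d d')
    · left
      rw [hIrr, Finset.mem_filter]
      exact ⟨hE.1, hc⟩
    · right
      rw [hReg, Finset.mem_filter]
      push Not at hc
      exact ⟨hE.1, hE.2, hc⟩
  have hIrrcard : (Irr.card : ℝ) ≤ ε / 2 * (H:ℝ) ^ (4 * m + 1) := by
    have h := f1_irregular w H (4 * m + 1) (ε / (2 * 2 ^ (4 * m + 1))) (by omega) (fun d hd =>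
      hH0 H hH0le (Finset.range (Wp w)) ⟨0, Finset.mem_range.mpr (f1_Wp_pos w)⟩
        (fun r hr => Finset.mem_range.mp hr) d hd)
    refine h.trans ?_
    have h2 : ((H:ℝ) + 1) ^ (4 * m + 1) ≤ (2 * (H:ℝ)) ^ (4 * m + 1) :=
      pow_le_pow_left₀ (by positivity) (by linarith) _
    calc ε / (2 * 2 ^ (4 * m + 1)) * ((H:ℝ) + 1) ^ (4 * m + 1) ≤
          ε / (2 * 2 ^ (4 * m + 1)) * (2 * (H:ℝ)) ^ (4 * m + 1) :=
          mul_le_mul_of_nonneg_left h2 (by positivity)
      _ = _ := by
          rw [mul_pow]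
          field_simp
  -- violators in a class
  have hclass : ∀ a ∈ Finset.range (Wp w),
      ((Reg.filter (fun E => ∀ e ∈ E, (a + e).Coprime (Wp w))).card : ℝ) ≤
        (ε * c1 / (2 * 2 ^ (4 * m + 1))) * (2 * cW (Wp w) * H) ^ (4 * m + 1) := by
    intro a _
    have hb := f1_class_bound m w H N a (ε * c1 / (2 * 2 ^ (4 * m + 1))) (by positivity) (hVlow a)
      (hP' a (f1_rho w a) (f1_rho_nonempty w a) (fun r hr => by
        unfold f1_rho at hr
        rw [Finset.mem_filter, Finset.mem_range] at hr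
        exact hr)) (Reg.filter (fun E => ∀ e ∈ E, (a + e).Coprime (Wp w))) (by
        intro E hE
        rw [Finset.mem_filter, hReg, Finset.mem_filter] at hE
        obtain ⟨⟨hEQ, ⟨_, hEviol⟩, hEreg⟩, hEal⟩ := hE
        rw [hQ, Finset.mem_powersetCard] at hEQ
        have hEH : ∀ e ∈ E, e ≤ H := fun e he => by
          have := hEQ.1 he
          rw [Finset.mem_range] at this
          omega
        refine ⟨?_, ?_⟩
        · rw [Finset.mem_powersetCard]
          exact ⟨fun e he => f1_mem_VS w H a e (hEH e he) (hEal e he), hEQ.2⟩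
        · intro E' hE'
          have hE'2 := Finset.mem_powersetCard.mp hE'
          have hE'ne : E'.Nonempty := by
            rw [← Finset.card_pos, hE'2.2]
            omega
          have h1 := tupleCount_ge N w a x H (by
            have h2 : (N:ℝ) ≤ x / 3 := Nat.floor_le (by positivity)
            push_cast
            linarith) E' hE'ne (fun e he => hEH e (hE'2.1 he))
          have h2 := hEviol E' hE'
          rw [singularSeries_translate0 E' hE'ne] at h2
          -- singular series bound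
          have h3 : singularSeries E' ≤ (1 / cW (Wp w)) ^ r * 2 ^ (r * r * r) := by
            have h4 := singularSeries_le_pairs w r hw1' (by omega)
              (E'.orderEmbOfFin hE'2.2) (E'.orderEmbOfFin hE'2.2).injective
            have h5 : Finset.image (E'.orderEmbOfFin hE'2.2) univ = E' := by
              exact Finset.image_orderEmbOfFin_univ _ _
            rw [h5] at h4
            refine h4.trans ?_
            apply mul_le_mul_of_nonneg_left _ (by positivity)
            apply f1_pairs_le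
            intro i j hij
            exact hEreg _ (hE'2.1 (Finset.orderEmbOfFin_mem _ _ _)) _
              (hE'2.1 (Finset.orderEmbOfFin_mem _ _ _))
              (fun hh => hij ((E'.orderEmbOfFin hE'2.2).injective hh).symm)
          refine lt_of_le_of_lt h1 (lt_of_lt_of_le h2 ?_)
          have h6 : (Real.log N) ^ r ≤ (Real.log x) ^ r := pow_le_pow_left₀ hlogN.le hlogle _
          calc c0 m / (8 * Wp w * 2 ^ (r * r * r)) * (singularSeries E' * (x / (Real.log x) ^ r)) ≤
                c0 m / (8 * Wp w * 2 ^ (r * r * r)) *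
                  (((1 / cW (Wp w)) ^ r * 2 ^ (r * r * r)) * (x / (Real.log N) ^ r)) := by
                apply mul_le_mul_of_nonneg_left _ (by positivity)
                apply mul_le_mul h3 _ (by positivity) (by positivity)
                exact div_le_div_of_nonneg_left hxpos.le (by positivity) h6
            _ = c0 m * (x / (8 * Wp w)) / (cW (Wp w) * Real.log N) ^ r := by
                rw [mul_pow, one_div, inv_pow]
                field_simp
            _ ≤ c0 m * ((XS N w a).card : ℝ) / (cW (Wp w) * Real.log N) ^ r := by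
                apply div_le_div_of_nonneg_right _ (by positivity)
                exact mul_le_mul_of_nonneg_left (hXS a) hc0.le)
    refine hb.trans ?_
    apply mul_le_mul_of_nonneg_left _ (by positivity)
    exact pow_le_pow_left₀ (by positivity) (hVup a) _
  -- double counting
  have hRegcard : (Reg.card : ℝ) ≤ ε / 2 * (H:ℝ) ^ (4 * m + 1) := by
    have h1 := Finset.sum_card_bipartiteAbove_eq_sum_card_bipartiteBelow
      (s := Reg) (t := Finset.range (Wp w))
      (fun (E : Finset ℕ) (a : ℕ) => ∀ e ∈ E, (a + e).Coprime (Wp w))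
    unfold Finset.bipartiteAbove Finset.bipartiteBelow at h1
    have h2 : ∑ E ∈ Reg, (c1 * (Wp w : ℝ) * cW (Wp w) ^ (4 * m + 1)) ≤
        ∑ E ∈ Reg, (((Finset.range (Wp w)).filter
          (fun a => ∀ e ∈ E, (a + e).Coprime (Wp w))).card : ℝ) := by
      apply Finset.sum_le_sum
      intro E hE
      rw [hReg, Finset.mem_filter] at hE
      obtain ⟨hEQ, ⟨hadm, _⟩, _⟩ := hE
      rw [hQ, Finset.mem_powersetCard] at hEQ
      exact halive w E hEQ.2 hadm
    have h3 : ∑ E ∈ Reg, (((Finset.range (Wp w)).filter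
          (fun a => ∀ e ∈ E, (a + e).Coprime (Wp w))).card : ℝ) =
        ∑ a ∈ Finset.range (Wp w),
          ((Reg.filter (fun E => ∀ e ∈ E, (a + e).Coprime (Wp w))).card : ℝ) := by
      exact_mod_cast h1
    have h4 := Finset.sum_le_sum hclass
    rw [Finset.sum_const, Finset.card_range, nsmul_eq_mul] at h4
    rw [Finset.sum_const, nsmul_eq_mul] at h2
    have h5 := (h2.trans (le_of_eq h3)).trans h4
    have h6 : (0:ℝ) < c1 * (Wp w : ℝ) * cW (Wp w) ^ (4 * m + 1) := by positivity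
    have h7 : (Wp w : ℝ) * (ε * c1 / (2 * 2 ^ (4 * m + 1)) * (2 * cW (Wp w) * H) ^ (4 * m + 1)) =
        (ε / 2 * (H:ℝ) ^ (4 * m + 1)) * (c1 * (Wp w : ℝ) * cW (Wp w) ^ (4 * m + 1)) := by
      rw [mul_pow, mul_pow]
      field_simp
    rw [h7] at h5
    exact le_of_mul_le_mul_right h5 h6
  have hfin : ∀ S : Finset (Finset ℕ), (∀ E ∈ S, E ∈ Q ∧ ((∀ p : ℕ, p.Prime → nu E p < p) ∧
        ∀ E' ∈ E.powersetCard r,
          (tupleCount x (translate0 E') : ℝ) <
            c0 m / (8 * Wp w * 2 ^ (r * r * r)) *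
              (singularSeries (translate0 E') * (x / (Real.log x) ^ r)))) →
      (S.card : ℝ) ≤ ε * (H:ℝ) ^ (4 * m + 1) := by
    intro S hS
    have h1 := (Finset.card_le_card (hdec S hS)).trans (Finset.card_union_le _ _)
    have h2 : (S.card : ℝ) ≤ (Irr.card : ℝ) + (Reg.card : ℝ) := by exact_mod_cast h1
    refine h2.trans ?_
    linarith
  refine hfin _ (fun E hE => ?_)
  exact f1_mem_filter _ _ _ _ hE

end Pool.Agent.HLT
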