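import Mathlib
import Pool.Agent.HLT.APDefs
import Pool.Agent.HLT.APBlock
import Pool.Agent.HLT.APMoment

set_option autoImplicit false

open Finset Filter

namespace Pool.Agent.HLT

open Pool.Agent.HL26

namespace APDy7

/-- counting function -/
def cnt (k : ℕ) (e : Fin (k + 1) → ℕ) (M : ℕ) : ℕ :=
  ((Finset.Icc 1 M).filter (fun m => ∀ i, (m + e i).Prime)).card

/-- block count -/
def blk (k : ℕ) (e : Fin (k + 1) → ℕ) (N : ℕ) : ℕ :=
  ((Finset.Ioc N (2 * N)).filter (fun n => ∀ i, (n + e i).Prime)).card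

theorem tupleCount_eq (k : ℕ) (x : ℝ) (e : Fin (k + 1) → ℕ) :
    tupleCount x (Finset.univ.image e) = cnt k e ⌊x⌋₊ := by
  unfold tupleCount cnt
  congr 1
  apply Finset.filter_congr
  intro m _
  simp

theorem cnt_step (k : ℕ) (e : Fin (k + 1) → ℕ) (M : ℕ) :
    cnt k e (M / 2) + blk k e (M / 2) ≤ cnt k e M ∧
    cnt k e M ≤ cnt k e (M / 2) + blk k e (M / 2) + 1 := by
  unfold cnt blk
  have h1 : M = 2 * (M / 2) ∨ M = 2 * (M / 2) + 1 := by omega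
  set N := M / 2 with hN
  have hsplit : ((Finset.Icc 1 (2 * N)).filter (fun m => ∀ i, (m + e i).Prime)).card =
      ((Finset.Icc 1 N).filter (fun m => ∀ i, (m + e i).Prime)).card +
      ((Finset.Ioc N (2 * N)).filter (fun n => ∀ i, (n + e i).Prime)).card := by
    rw [← Finset.card_union_of_disjoint]
    · congr 1
      ext m
      simp only [Finset.mem_filter, Finset.mem_union, Finset.mem_Icc, Finset.mem_Ioc]
      constructor
      · rintro ⟨⟨h, h'⟩, h''⟩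
        by_cases hm : m ≤ N
        · exact Or.inl ⟨⟨h, hm⟩, h''⟩
        · exact Or.inr ⟨⟨by omega, h'⟩, h''⟩
      · rintro (⟨⟨h, h'⟩, h''⟩ | ⟨⟨h, h'⟩, h''⟩)
        · exact ⟨⟨h, by omega⟩, h''⟩
        · exact ⟨⟨by omega, h'⟩, h''⟩
    · rw [Finset.disjoint_left]
      intro m hm hm'
      simp only [Finset.mem_filter, Finset.mem_Icc, Finset.mem_Ioc] at hm hm'
      omega
  have hle : ((Finset.Icc 1 (2 * N)).filter (fun m => ∀ i, (m + e i).Prime)).card ≤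
      ((Finset.Icc 1 M).filter (fun m => ∀ i, (m + e i).Prime)).card := by
    apply Finset.card_le_card
    apply Finset.filter_subset_filter
    apply Finset.Icc_subset_Icc_right
    omega
  have hle2 : ((Finset.Icc 1 M).filter (fun m => ∀ i, (m + e i).Prime)).card ≤
      ((Finset.Icc 1 (2 * N)).filter (fun m => ∀ i, (m + e i).Prime)).card + 1 := by
    have hsub : (Finset.Icc 1 M).filter (fun m => ∀ i, (m + e i).Prime) ⊆
        insert M ((Finset.Icc 1 (2 * N)).filter (fun m => ∀ i, (m + e i).Prime)) := by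
      intro m hm
      simp only [Finset.mem_filter, Finset.mem_Icc, Finset.mem_insert] at hm ⊢
      by_cases hmM : m = M
      · exact Or.inl hmM
      · exact Or.inr ⟨⟨hm.1.1, by omega⟩, hm.2⟩
    exact (Finset.card_le_card hsub).trans (Finset.card_insert_le _ _)
  omega

theorem cnt_iter (k : ℕ) (e : Fin (k + 1) → ℕ) (M : ℕ) (I : ℕ) :
    cnt k e (M / 2 ^ I) + ∑ i ∈ Finset.range I, blk k e (M / 2 ^ (i + 1)) ≤ cnt k e M ∧
    cnt k e M ≤ cnt k e (M / 2 ^ I) + ∑ i ∈ Finset.range I, blk k e (M / 2 ^ (i + 1)) + I := by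
  induction I with
  | zero => simp
  | succ I ih =>
    rw [Finset.sum_range_succ]
    have h := cnt_step k e (M / 2 ^ I)
    have h2 : M / 2 ^ I / 2 = M / 2 ^ (I + 1) := by
      rw [Nat.div_div_eq_div_mul, pow_succ]
    rw [h2] at h
    omega

theorem card_box (r H : ℕ) : (box r H).card = (H + 1) ^ r := by
  unfold box
  simp

theorem bern (m : ℕ) (L c : ℝ) (hL : 0 < L) (hcL : c ≤ L) (h : 2 * m * c ≤ L) :
    L ^ m ≤ 2 * (L - c) ^ m := by
  have h1 : (1 + (m:ℝ) * (-(c / L))) ≤ (1 + (-(c / L))) ^ m := by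
    apply one_add_mul_le_pow
    have : c / L ≤ 1 := by rw [div_le_one hL]; exact hcL
    linarith
  have h2 : (m:ℝ) * (c / L) ≤ 1 / 2 := by
    rw [mul_div_assoc', div_le_div_iff₀ hL (by norm_num)]
    linarith
  have h3 : (1:ℝ) / 2 ≤ (1 + (-(c / L))) ^ m := by linarith
  have h4 : (L - c) ^ m = L ^ m * (1 + (-(c / L))) ^ m := by
    rw [← mul_pow]
    congr 1
    field_simp
    ring
  rw [h4]
  have h5 : 0 ≤ L ^ m := by positivity
  nlinarith

/-- everything we need about large `x` -/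
theorem large (k A I : ℕ) (δ X₀ : ℝ) (hδ : 0 < δ) : ∀ᶠ x : ℝ in atTop,
    1 ≤ x ∧ 1 ≤ Real.log x ∧ (Real.log x) ^ (k + 1) / x * I ≤ δ ∧
    ∀ i ≤ I, X₀ ≤ ((⌊x⌋₊ / 2 ^ i : ℕ) : ℝ) ∧ 1 ≤ ((⌊x⌋₊ / 2 ^ i : ℕ) : ℝ) ∧
      ((⌊x⌋₊ / 2 ^ i : ℕ) : ℝ) ≤ x / 2 ^ i ∧
      0 < Real.log ((⌊x⌋₊ / 2 ^ i : ℕ) : ℝ) ∧
      Real.log ((⌊x⌋₊ / 2 ^ i : ℕ) : ℝ) ≤ Real.log x ∧
      (Real.log x) ^ (k + 1) ≤ 2 * (Real.log ((⌊x⌋₊ / 2 ^ i : ℕ) : ℝ)) ^ (k + 1) ∧
      (Real.log x) ^ A ≤ (Real.log ((⌊x⌋₊ / 2 ^ i : ℕ) : ℝ)) ^ (A + 1) := by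
  set c : ℝ := (I + 1 : ℝ) * Real.log 2 with hcdef
  have hlog2 : 0 < Real.log 2 := Real.log_pos (by norm_num)
  have hc : 0 ≤ c := by positivity
  have e1 : ∀ᶠ x : ℝ in atTop, (Real.log x) ^ (k + 1) / x * I ≤ δ := by
    have h := Real.isLittleO_pow_log_id_atTop (n := k + 1)
    have h2 := h.def (show (0:ℝ) < δ / (I + 1) by positivity)
    filter_upwards [h2, eventually_ge_atTop (1:ℝ)] with x hx hx1
    have hx0 : 0 < x := by linarith
    simp only [id, Real.norm_eq_abs] at hx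
    rw [abs_of_pos hx0] at hx
    have h3 : (Real.log x) ^ (k + 1) ≤ δ / (I + 1) * x := (le_abs_self _).trans hx
    have h4 : (Real.log x) ^ (k + 1) / x ≤ δ / (I + 1) := by
      rw [div_le_iff₀ hx0]; exact h3
    have h5 : (0:ℝ) ≤ I := by positivity
    calc (Real.log x) ^ (k + 1) / x * I ≤ δ / (I + 1) * I := by gcongr
      _ ≤ δ / (I + 1) * (I + 1) := by gcongr; linarith
      _ = δ := by field_simp
  have e2 : ∀ᶠ x : ℝ in atTop, max (max (2 * ((k + 1 : ℕ) : ℝ) * c) (2 * (A : ℝ) * c)) (c + 2)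
      ≤ Real.log x := Real.tendsto_log_atTop.eventually_ge_atTop _
  filter_upwards [e1, e2, eventually_ge_atTop (1:ℝ), eventually_ge_atTop ((2:ℝ) + 2 ^ (I + 1)),
    eventually_ge_atTop ((2:ℝ) ^ (I + 1) * X₀), eventually_ge_atTop ((2:ℝ) ^ (I + 1))]
    with x hx1 hx2 hx3 hx4 hx5 hx6
  have hL1 : 2 * ((k + 1 : ℕ) : ℝ) * c ≤ Real.log x := le_trans (le_trans (le_max_left _ _) (le_max_left _ _)) hx2
  have hL2 : 2 * (A : ℝ) * c ≤ Real.log x := le_trans (le_trans (le_max_right _ _) (le_max_left _ _)) hx2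
  have hL3 : c + 2 ≤ Real.log x := le_trans (le_max_right _ _) hx2
  have hx0 : 0 < x := by linarith
  refine ⟨hx3, by linarith, hx1, ?_⟩
  intro i hi
  have hpow : (2:ℝ) ^ i ≤ 2 ^ I := pow_le_pow_right₀ (by norm_num) hi
  have hpi : (0:ℝ) < 2 ^ i := by positivity
  have hpI : (0:ℝ) < 2 ^ I := by positivity
  -- lower bound
  have hfl : (⌊x⌋₊ : ℝ) ≤ x := Nat.floor_le hx0.le
  have hfl2 : x < (⌊x⌋₊ : ℝ) + 1 := Nat.lt_floor_add_one x
  have hlow : x / 2 ^ (I + 1) ≤ ((⌊x⌋₊ / 2 ^ i : ℕ) : ℝ) := by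
    have h1 : ((⌊x⌋₊ : ℕ) : ℝ) < ((2 ^ i : ℕ) : ℝ) * (((⌊x⌋₊ / 2 ^ i : ℕ) : ℝ) + 1) := by
      have := Nat.lt_mul_div_succ ⌊x⌋₊ (show 0 < 2 ^ i by positivity)
      exact_mod_cast this
    push_cast at h1
    have h2 : (⌊x⌋₊ : ℝ) / 2 ^ i < (((⌊x⌋₊ / 2 ^ i : ℕ) : ℝ) + 1) := by
      rw [div_lt_iff₀ hpi]
      linarith
    have h3 : (⌊x⌋₊ : ℝ) / 2 ^ I ≤ (⌊x⌋₊ : ℝ) / 2 ^ i := by
      apply div_le_div_of_nonneg_left (Nat.cast_nonneg _) hpi hpow
    have h4 : (x - 1) / 2 ^ I ≤ (⌊x⌋₊ : ℝ) / 2 ^ I := by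
      gcongr
      linarith
    have h5 : x / 2 ^ (I + 1) + 1 ≤ (x - 1) / 2 ^ I := by
      rw [pow_succ, ← div_div, le_div_iff₀ hpI]
      have : (x / 2 ^ I / 2 + 1) * 2 ^ I = x / 2 + 2 ^ I := by field_simp
      rw [this]
      rw [pow_succ] at hx4
      linarith
    linarith
  have hup : ((⌊x⌋₊ / 2 ^ i : ℕ) : ℝ) ≤ x / 2 ^ i := by
    have h1 : ((⌊x⌋₊ / 2 ^ i : ℕ) : ℝ) ≤ (⌊x⌋₊ : ℝ) / ((2 ^ i : ℕ) : ℝ) := Nat.cast_div_le
    push_cast at h1
    refine h1.trans ?_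
    gcongr
  have hpI1 : (0:ℝ) < 2 ^ (I + 1) := by positivity
  have hge1 : 1 ≤ ((⌊x⌋₊ / 2 ^ i : ℕ) : ℝ) := by
    refine le_trans ?_ hlow
    rw [le_div_iff₀ hpI1]
    linarith
  have hX : X₀ ≤ ((⌊x⌋₊ / 2 ^ i : ℕ) : ℝ) := by
    refine le_trans ?_ hlow
    rw [le_div_iff₀ hpI1]
    linarith
  have hloglow : Real.log x - c ≤ Real.log ((⌊x⌋₊ / 2 ^ i : ℕ) : ℝ) := by
    have h1 : Real.log (x / 2 ^ (I + 1)) ≤ Real.log ((⌊x⌋₊ / 2 ^ i : ℕ) : ℝ) :=
      Real.log_le_log (by positivity) hlow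
    rw [Real.log_div hx0.ne' hpI1.ne', Real.log_pow] at h1
    push_cast at h1
    exact h1
  have hlogup : Real.log ((⌊x⌋₊ / 2 ^ i : ℕ) : ℝ) ≤ Real.log x := by
    apply Real.log_le_log (by linarith)
    refine hup.trans ?_
    apply div_le_self hx0.le
    exact one_le_pow₀ (by norm_num)
  have hLpos : 0 < Real.log x := by linarith
  have hlc : 2 ≤ Real.log x - c := by linarith
  refine ⟨hX, hge1, hup, by linarith, hlogup, ?_, ?_⟩
  · have h1 := bern (k + 1) (Real.log x) c hLpos (by linarith) hL1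
    refine h1.trans ?_
    have h2 : (Real.log x - c) ^ (k + 1) ≤ (Real.log ((⌊x⌋₊ / 2 ^ i : ℕ) : ℝ)) ^ (k + 1) :=
      pow_le_pow_left₀ (by linarith) hloglow _
    linarith
  · have h1 := bern A (Real.log x) c hLpos (by linarith) hL2
    have h2 : (Real.log x - c) ^ (A + 1) ≤ (Real.log ((⌊x⌋₊ / 2 ^ i : ℕ) : ℝ)) ^ (A + 1) :=
      pow_le_pow_left₀ (by linarith) hloglow _
    refine h1.trans (le_trans ?_ h2)
    rw [pow_succ, mul_comm]
    have h3 : 0 ≤ (Real.log x - c) ^ A := by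
      apply pow_nonneg; linarith
    nlinarith

end APDy7

open Classical in
/-- G2: the same for the full counts up to `x`. -/
theorem tuple_model (k : ℕ) (hk : 1 ≤ k) (ε : ℝ) (hε : 0 < ε) : ∃ (J : ℕ) (K : ℝ), ∀ A : ℕ,
    ∃ X : ℝ, ∀ x : ℝ, X ≤ x → ∀ H : ℕ, K * Real.log x ≤ H → (H:ℝ) ≤ (Real.log x) ^ A →
    ∃ (χ : ℕ → Fin J) (g : (Fin (k + 1) → Fin J) → ℝ), (∀ i, 0 ≤ g i) ∧
      ∑ e ∈ (box (k + 1) H).filter (fun e => Function.Injective e),
        |cx k x e - g (fun i => χ (e i))| ≤ ε * ((H:ℝ) + 1) ^ (k + 1) := by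
  obtain ⟨C, hC, X₇, hmom⟩ := cx_moments k hk
  obtain ⟨I, hI⟩ : ∃ I : ℕ, 2 * (1 / 2 : ℝ) ^ I * C ≤ ε / 4 := by
    obtain ⟨I, hI⟩ := exists_pow_lt_of_lt_one (show (0:ℝ) < ε / (8 * C) by positivity)
      (show (1 / 2 : ℝ) < 1 by norm_num)
    refine ⟨I, ?_⟩
    have h2 : (1 / 2 : ℝ) ^ I * (8 * C) < ε := by
      rwa [lt_div_iff₀ (by positivity)] at hI
    linarith
  set ε₁ : ℝ := ε / (8 * (I + 1)) with hε₁
  have hε₁pos : 0 < ε₁ := by positivity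
  obtain ⟨J₁, K₁, hblk⟩ := tuple_model_block k hk ε₁ hε₁pos
  refine ⟨J₁ ^ I, max K₁ 1, ?_⟩
  intro A
  obtain ⟨N₀, hN₀⟩ := eventually_atTop.1 (hblk (A + 1))
  obtain ⟨X, hX⟩ := eventually_atTop.1
    (APDy7.large k A I (ε / 4) (max X₇ N₀) (by positivity))
  refine ⟨X, ?_⟩
  intro x hx H hH1 hH2
  obtain ⟨hx1, hL1, hbd, hall⟩ := hX x hx
  have hx0 : 0 < x := by linarith
  set L := Real.log x with hLdef
  have hHR : (1:ℝ) ≤ H := by
    have h1 : (1:ℝ) ≤ max K₁ 1 := le_max_right _ _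
    have h2 : (1:ℝ) * 1 ≤ max K₁ 1 * L := mul_le_mul h1 hL1 (by norm_num) (by linarith)
    linarith
  have hH : 1 ≤ H := by exact_mod_cast hHR
  -- the blocks
  set N : ℕ → ℕ := fun i => ⌊x⌋₊ / 2 ^ i with hN
  have hex : ∀ i : Fin I, ∃ (χ : ℕ → Fin J₁) (g : (Fin (k + 1) → Fin J₁) → ℝ), (∀ i, 0 ≤ g i) ∧
      ∑ e ∈ (box (k + 1) H).filter (fun e => Function.Injective e),
        |(Real.log (N (i + 1))) ^ (k + 1) / (N (i + 1) : ℕ) *
            (((Finset.Ioc (N (i + 1)) (2 * (N (i + 1)))).filter (fun n => ∀ i, (n + e i).Prime)).card : ℝ)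
          - g (fun i => χ (e i))| ≤ ε₁ * ((H:ℝ) + 1) ^ (k + 1) := by
    intro i
    obtain ⟨h1, h2, h3, h4, h5, h6, h7⟩ := hall (i + 1) i.2
    apply hN₀
    · have : (N₀ : ℝ) ≤ (N (i + 1) : ℕ) := le_trans (le_max_right _ _) h1
      exact_mod_cast this
    · have hK : K₁ ≤ max K₁ 1 := le_max_left _ _
      have hK0 : (0:ℝ) ≤ max K₁ 1 := le_trans (by norm_num) (le_max_right _ _)
      calc K₁ * Real.log (N (i + 1) : ℕ) ≤ max K₁ 1 * Real.log (N (i + 1) : ℕ) := by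
            apply mul_le_mul_of_nonneg_right hK h4.le
        _ ≤ max K₁ 1 * L := mul_le_mul_of_nonneg_left h5 hK0
        _ ≤ H := hH1
    · exact hH2.trans h7
  choose χ g hg0 hg using hex
  have hbox : (((box (k + 1) H).filter (fun e => Function.Injective e)).card : ℝ) ≤
      ((H:ℝ) + 1) ^ (k + 1) := by
    have h1 : ((box (k + 1) H).filter (fun e => Function.Injective e)).card ≤ (H + 1) ^ (k + 1) := by
      refine (Finset.card_filter_le _ _).trans ?_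
      rw [APDy7.card_box]
    exact_mod_cast h1
  set S := (box (k + 1) H).filter (fun e => Function.Injective e) with hS
  set wt : Fin I → ℝ := fun i => (L / Real.log (N (i + 1) : ℕ)) ^ (k + 1) * ((N (i + 1) : ℕ) / x) with hwt
  have hwt0 : ∀ i, 0 ≤ wt i := by
    intro i
    obtain ⟨h1, h2, h3, h4, h5, h6, h7⟩ := hall (i + 1) i.2
    simp only [hwt]
    have : 0 ≤ L / Real.log (N (i + 1) : ℕ) := div_nonneg (by linarith) h4.le
    positivity
  have hratio : ∀ i ≤ I, (L / Real.log (N i : ℕ)) ^ (k + 1) ≤ 2 := by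
    intro i hi
    obtain ⟨h1, h2, h3, h4, h5, h6, h7⟩ := hall i hi
    rw [div_pow, div_le_iff₀ (pow_pos h4 _)]
    exact h6
  have hwt2 : ∀ i, wt i ≤ 2 := by
    intro i
    obtain ⟨h1, h2, h3, h4, h5, h6, h7⟩ := hall (i + 1) i.2
    have h8 := hratio (i + 1) i.2
    have h9 : ((N (i + 1) : ℕ) : ℝ) / x ≤ 1 := by
      rw [div_le_one hx0]
      refine h3.trans (div_le_self hx0.le (one_le_pow₀ (by norm_num)))
    have h10 : 0 ≤ ((N (i + 1) : ℕ) : ℝ) / x := by positivity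
    calc wt i ≤ 2 * 1 := by
          simp only [hwt]
          exact mul_le_mul h8 h9 h10 (by norm_num)
      _ = 2 := by norm_num
  refine ⟨fun n => finFunctionFinEquiv (fun i => χ i n),
    fun f => ∑ i : Fin I, wt i * g i (fun j => (finFunctionFinEquiv.symm (f j)) i), ?_, ?_⟩
  · intro f
    exact Finset.sum_nonneg (fun i _ => mul_nonneg (hwt0 i) (hg0 i _))
  -- pointwise estimate
  have hNI := hall I le_rfl
  obtain ⟨hI1, hI2, hI3, hI4, hI5, hI6, hI7⟩ := hNI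
  have hpt : ∀ e : Fin (k + 1) → ℕ,
      |cx k x e - ∑ i : Fin I, wt i * g i (fun j => (finFunctionFinEquiv.symm
          (finFunctionFinEquiv (fun i => χ i (e j)))) i)| ≤
        ∑ i : Fin I, 2 * |(Real.log (N (i + 1))) ^ (k + 1) / (N (i + 1) : ℕ) *
            (APDy7.blk k e (N (i + 1)) : ℝ) - g i (fun j => χ i (e j))| +
          ε / 4 + 2 * (1 / 2 : ℝ) ^ I * cx k ((N I : ℕ) : ℝ) e := by
    intro e
    have hit := APDy7.cnt_iter k e ⌊x⌋₊ I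
    have hcx : cx k x e = L ^ (k + 1) / x * (APDy7.cnt k e ⌊x⌋₊ : ℝ) := by
      unfold cx
      rw [APDy7.tupleCount_eq]
    have hcxI : cx k ((N I : ℕ) : ℝ) e =
        (Real.log (N I : ℕ)) ^ (k + 1) / (N I : ℕ) * (APDy7.cnt k e (N I) : ℝ) := by
      unfold cx
      rw [APDy7.tupleCount_eq, Nat.floor_natCast]
    have hc0 : 0 ≤ L ^ (k + 1) / x := by positivity
    have hsumR : ∃ r : ℝ, 0 ≤ r ∧ r ≤ I ∧ (APDy7.cnt k e ⌊x⌋₊ : ℝ) =
        (APDy7.cnt k e (N I) : ℝ) + ∑ i : Fin I, (APDy7.blk k e (N (i + 1)) : ℝ) + r := by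
      refine ⟨(APDy7.cnt k e ⌊x⌋₊ : ℝ) - ((APDy7.cnt k e (N I) : ℝ) +
        ∑ i : Fin I, (APDy7.blk k e (N (i + 1)) : ℝ)), ?_, ?_, by ring⟩
      · have h1 : ((APDy7.cnt k e (N I) + ∑ i ∈ Finset.range I, APDy7.blk k e (N (i + 1)) : ℕ) : ℝ)
            ≤ (APDy7.cnt k e ⌊x⌋₊ : ℝ) := by exact_mod_cast hit.1
        rw [Finset.sum_range] at h1
        push_cast at h1
        linarith
      · have h1 : (APDy7.cnt k e ⌊x⌋₊ : ℝ) ≤
            ((APDy7.cnt k e (N I) + ∑ i ∈ Finset.range I, APDy7.blk k e (N (i + 1)) + I : ℕ) : ℝ) := by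
          exact_mod_cast hit.2
        rw [Finset.sum_range] at h1
        push_cast at h1
        linarith
    obtain ⟨r, hr0, hrI, hr⟩ := hsumR
    have hterm : ∀ i : Fin I, L ^ (k + 1) / x * (APDy7.blk k e (N (i + 1)) : ℝ) =
        wt i * ((Real.log (N (i + 1))) ^ (k + 1) / (N (i + 1) : ℕ) *
            (APDy7.blk k e (N (i + 1)) : ℝ)) := by
      intro i
      obtain ⟨h1, h2, h3, h4, h5, h6, h7⟩ := hall (i + 1) i.2
      have h2' : ((N (i + 1) : ℕ) : ℝ) ≠ 0 := by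
        have : (0:ℝ) < ((N (i + 1) : ℕ) : ℝ) := by
          refine lt_of_lt_of_le one_pos h2
        exact this.ne'
      have h4' : Real.log ((N (i + 1) : ℕ) : ℝ) ≠ 0 := h4.ne'
      simp only [hwt]
      rw [div_pow]
      field_simp
    have hdecomp : cx k x e - ∑ i : Fin I, wt i * g i (fun j => χ i (e j)) =
        ∑ i : Fin I, wt i * ((Real.log (N (i + 1))) ^ (k + 1) / (N (i + 1) : ℕ) *
            (APDy7.blk k e (N (i + 1)) : ℝ) - g i (fun j => χ i (e j))) +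
          L ^ (k + 1) / x * r + L ^ (k + 1) / x * (APDy7.cnt k e (N I) : ℝ) := by
      rw [hcx, hr]
      simp only [mul_sub, Finset.sum_sub_distrib]
      rw [mul_add, mul_add, Finset.mul_sum]
      rw [Finset.sum_congr rfl (fun i _ => hterm i)]
      ring
    have hsimp : ∀ i : Fin I, (fun j => (finFunctionFinEquiv.symm
          (finFunctionFinEquiv (fun i => χ i (e j)))) i) = (fun j => χ i (e j)) := by
      intro i
      funext j
      rw [Equiv.symm_apply_apply]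
    simp only [hsimp]
    rw [hdecomp]
    have hb1 : |∑ i : Fin I, wt i * ((Real.log (N (i + 1))) ^ (k + 1) / (N (i + 1) : ℕ) *
            (APDy7.blk k e (N (i + 1)) : ℝ) - g i (fun j => χ i (e j)))| ≤
        ∑ i : Fin I, 2 * |(Real.log (N (i + 1))) ^ (k + 1) / (N (i + 1) : ℕ) *
            (APDy7.blk k e (N (i + 1)) : ℝ) - g i (fun j => χ i (e j))| := by
      refine (Finset.abs_sum_le_sum_abs _ _).trans ?_
      apply Finset.sum_le_sum
      intro i _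
      rw [abs_mul, abs_of_nonneg (hwt0 i)]
      exact mul_le_mul_of_nonneg_right (hwt2 i) (abs_nonneg _)
    have hb2 : |L ^ (k + 1) / x * r| ≤ ε / 4 := by
      rw [abs_of_nonneg (mul_nonneg hc0 hr0)]
      refine le_trans ?_ hbd
      exact mul_le_mul_of_nonneg_left hrI hc0
    have hb3 : |L ^ (k + 1) / x * (APDy7.cnt k e (N I) : ℝ)| ≤
        2 * (1 / 2 : ℝ) ^ I * cx k ((N I : ℕ) : ℝ) e := by
      have hNpos : (0:ℝ) < ((N I : ℕ) : ℝ) := lt_of_lt_of_le one_pos hI2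
      rw [abs_of_nonneg (mul_nonneg hc0 (Nat.cast_nonneg _))]
      have heq : L ^ (k + 1) / x * (APDy7.cnt k e (N I) : ℝ) =
          (L / Real.log (N I : ℕ)) ^ (k + 1) * ((N I : ℕ) / x) * cx k ((N I : ℕ) : ℝ) e := by
        rw [hcxI, div_pow]
        have h4' : Real.log ((N I : ℕ) : ℝ) ≠ 0 := hI4.ne'
        have h2' := hNpos.ne'
        field_simp
      rw [heq]
      have hcx0 : 0 ≤ cx k ((N I : ℕ) : ℝ) e := by
        rw [hcxI]
        have := hI4.le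
        positivity
      have h1 : ((N I : ℕ) : ℝ) / x ≤ (1 / 2 : ℝ) ^ I := by
        rw [div_le_iff₀ hx0, one_div, inv_pow]
        calc ((N I : ℕ) : ℝ) ≤ x / 2 ^ I := hI3
          _ = (2 ^ I)⁻¹ * x := by rw [div_eq_mul_inv, mul_comm]
      have h2 := hratio I le_rfl
      have h3 : (0:ℝ) ≤ ((N I : ℕ) : ℝ) / x := by positivity
      apply mul_le_mul_of_nonneg_right _ hcx0
      exact mul_le_mul h2 h1 h3 (by norm_num)
    calc _ ≤ |∑ i : Fin I, wt i * ((Real.log (N (i + 1))) ^ (k + 1) / (N (i + 1) : ℕ) *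
            (APDy7.blk k e (N (i + 1)) : ℝ) - g i (fun j => χ i (e j)))| +
          |L ^ (k + 1) / x * r| + |L ^ (k + 1) / x * (APDy7.cnt k e (N I) : ℝ)| :=
          abs_add_three _ _ _
      _ ≤ _ := by linarith
  -- sum over e
  have hsum1 : ∑ e ∈ S, (∑ i : Fin I, 2 * |(Real.log (N (i + 1))) ^ (k + 1) / (N (i + 1) : ℕ) *
            (APDy7.blk k e (N (i + 1)) : ℝ) - g i (fun j => χ i (e j))|) ≤
      ε / 4 * ((H:ℝ) + 1) ^ (k + 1) := by
    rw [Finset.sum_comm]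
    have h1 : ∀ i : Fin I, ∑ e ∈ S, 2 * |(Real.log (N (i + 1))) ^ (k + 1) / (N (i + 1) : ℕ) *
            (APDy7.blk k e (N (i + 1)) : ℝ) - g i (fun j => χ i (e j))| ≤
        2 * (ε₁ * ((H:ℝ) + 1) ^ (k + 1)) := by
      intro i
      rw [← Finset.mul_sum]
      apply mul_le_mul_of_nonneg_left _ (by norm_num)
      exact hg i
    refine (Finset.sum_le_sum (fun i _ => h1 i)).trans ?_
    rw [Finset.sum_const, Finset.card_univ, Fintype.card_fin, nsmul_eq_mul]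
    have hP : (0:ℝ) ≤ ((H:ℝ) + 1) ^ (k + 1) := by positivity
    have hI' : (I:ℝ) * (2 * ε₁) ≤ ε / 4 := by
      rw [hε₁]
      have : (I:ℝ) * (2 * (ε / (8 * (I + 1)))) = ε / 4 * (I / (I + 1)) := by
        field_simp
        ring
      rw [this]
      have h2 : (I:ℝ) / (I + 1) ≤ 1 := by
        rw [div_le_one (by positivity)]
        linarith
      have h3 : (0:ℝ) ≤ ε / 4 := by positivity
      nlinarith
    calc (I:ℝ) * (2 * (ε₁ * ((H:ℝ) + 1) ^ (k + 1))) = (I:ℝ) * (2 * ε₁) * ((H:ℝ) + 1) ^ (k + 1) := by ring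
      _ ≤ ε / 4 * ((H:ℝ) + 1) ^ (k + 1) := mul_le_mul_of_nonneg_right hI' hP
  have hsum2 : ∑ e ∈ S, (ε / 4) ≤ ε / 4 * ((H:ℝ) + 1) ^ (k + 1) := by
    rw [Finset.sum_const, nsmul_eq_mul, mul_comm]
    exact mul_le_mul_of_nonneg_left hbox (by positivity)
  have hsum3 : ∑ e ∈ S, (2 * (1 / 2 : ℝ) ^ I * cx k ((N I : ℕ) : ℝ) e) ≤
      ε / 4 * ((H:ℝ) + 1) ^ (k + 1) := by
    rw [← Finset.mul_sum]
    have h1 := (hmom ((N I : ℕ) : ℝ) (le_trans (le_max_left _ _) hI1) H hH).1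
    have hP : (0:ℝ) ≤ ((H:ℝ) + 1) ^ (k + 1) := by positivity
    calc 2 * (1 / 2 : ℝ) ^ I * ∑ e ∈ S, cx k ((N I : ℕ) : ℝ) e
        ≤ 2 * (1 / 2 : ℝ) ^ I * (C * ((H:ℝ) + 1) ^ (k + 1)) :=
          mul_le_mul_of_nonneg_left h1 (by positivity)
      _ = (2 * (1 / 2 : ℝ) ^ I * C) * ((H:ℝ) + 1) ^ (k + 1) := by ring
      _ ≤ ε / 4 * ((H:ℝ) + 1) ^ (k + 1) := mul_le_mul_of_nonneg_right hI hP
  calc _ ≤ ∑ e ∈ S, (∑ i : Fin I, 2 * |(Real.log (N (i + 1))) ^ (k + 1) / (N (i + 1) : ℕ) *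
            (APDy7.blk k e (N (i + 1)) : ℝ) - g i (fun j => χ i (e j))| +
          ε / 4 + 2 * (1 / 2 : ℝ) ^ I * cx k ((N I : ℕ) : ℝ) e) :=
        Finset.sum_le_sum (fun e _ => hpt e)
    _ = ∑ e ∈ S, (∑ i : Fin I, 2 * |(Real.log (N (i + 1))) ^ (k + 1) / (N (i + 1) : ℕ) *
            (APDy7.blk k e (N (i + 1)) : ℝ) - g i (fun j => χ i (e j))|) + ∑ e ∈ S, (ε / 4) +
          ∑ e ∈ S, (2 * (1 / 2 : ℝ) ^ I * cx k ((N I : ℕ) : ℝ) e) := by
        rw [Finset.sum_add_distrib, Finset.sum_add_distrib]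
    _ ≤ ε / 4 * ((H:ℝ) + 1) ^ (k + 1) + ε / 4 * ((H:ℝ) + 1) ^ (k + 1) +
          ε / 4 * ((H:ℝ) + 1) ^ (k + 1) := by linarith
    _ ≤ ε * ((H:ℝ) + 1) ^ (k + 1) := by
        have hP : (0:ℝ) ≤ ((H:ℝ) + 1) ^ (k + 1) := by positivity
        nlinarith

end Pool.Agent.HLT
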