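import Mathlib
import Pool.Agent.HLT.APDefs

set_option autoImplicit false

open Finset

namespace Pool.Agent.HLT

namespace APF

variable {Q : ℕ} [NeZero Q] {k : ℕ}

noncomputable def chi (ξ d : Fin k → ZMod Q) : ℂ := ∏ i, (ZMod.stdAddChar (ξ i * d i) : ℂ)

theorem chi_comm (ξ d : Fin k → ZMod Q) : chi ξ d = chi d ξ := by
  unfold chi
  exact Finset.prod_congr rfl (fun i _ => by rw [mul_comm])

theorem chi_add (ξ d e : Fin k → ZMod Q) : chi ξ (d + e) = chi ξ d * chi ξ e := by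
  unfold chi
  rw [← Finset.prod_mul_distrib]
  exact Finset.prod_congr rfl (fun i _ => by rw [Pi.add_apply, mul_add, AddChar.map_add_eq_mul])

theorem norm_std (x : ZMod Q) : ‖(ZMod.stdAddChar x : ℂ)‖ = 1 := by
  rw [ZMod.stdAddChar_apply]; exact Circle.norm_coe _

theorem chi_norm (ξ d : Fin k → ZMod Q) : ‖chi ξ d‖ = 1 := by
  unfold chi
  rw [norm_prod]
  exact Finset.prod_eq_one (fun i _ => norm_std _)

theorem chi_neg (ξ d : Fin k → ZMod Q) : chi ξ (-d) = (starRingEnd ℂ) (chi ξ d) := by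
  unfold chi
  rw [map_prod]
  exact Finset.prod_congr rfl (fun i _ => by
    rw [Pi.neg_apply, mul_neg, AddChar.map_neg_eq_conj])

theorem chi_orth (d : Fin k → ZMod Q) :
    ∑ ξ : Fin k → ZMod Q, chi ξ d = if d = 0 then (Q : ℂ) ^ k else 0 := by
  have h1 : ∑ ξ : Fin k → ZMod Q, chi ξ d =
      ∏ i, ∑ x : ZMod Q, (ZMod.stdAddChar (x * d i) : ℂ) := by
    unfold chi
    rw [Finset.prod_univ_sum, Fintype.piFinset_univ]
  rw [h1]
  have h2 : ∀ i, ∑ x : ZMod Q, (ZMod.stdAddChar (x * d i) : ℂ) = if d i = 0 then (Q : ℂ) else 0 := by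
    intro i
    rw [AddChar.sum_mulShift _ (ZMod.isPrimitive_stdAddChar Q)]
    simp [ZMod.card]
  simp only [h2]
  by_cases hd : d = 0
  · subst hd; simp
  · rw [if_neg hd]
    obtain ⟨i, hi⟩ : ∃ i, d i ≠ 0 := by
      by_contra h; push Not at h; exact hd (funext h)
    exact Finset.prod_eq_zero (Finset.mem_univ i) (if_neg hi)

theorem parseval (B : (Fin k → ZMod Q) → ℂ) :
    ∑ d : Fin k → ZMod Q, ‖∑ ξ, B ξ * chi ξ d‖ ^ 2 = (Q : ℝ) ^ k * ∑ ξ, ‖B ξ‖ ^ 2 := by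
  have key : (((∑ d : Fin k → ZMod Q, ‖∑ ξ, B ξ * chi ξ d‖ ^ 2 : ℝ)) : ℂ) =
      (((Q : ℝ) ^ k * ∑ ξ, ‖B ξ‖ ^ 2 : ℝ) : ℂ) := by
    push_cast
    have e1 : ∀ z : ℂ, ((‖z‖ : ℂ)) ^ 2 = z * (starRingEnd ℂ) z := by
      intro z
      rw [Complex.mul_conj, Complex.normSq_eq_norm_sq]; push_cast; rfl
    simp only [e1, map_sum, map_mul, Finset.sum_mul_sum]
    rw [Finset.sum_comm]
    rw [Finset.mul_sum]
    refine Finset.sum_congr rfl (fun ξ _ => ?_)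
    rw [Finset.sum_comm]
    rw [Finset.sum_eq_single ξ]
    · have : ∀ d : Fin k → ZMod Q, B ξ * chi ξ d * ((starRingEnd ℂ) (B ξ) * (starRingEnd ℂ) (chi ξ d)) =
          B ξ * (starRingEnd ℂ) (B ξ) := by
        intro d
        have h := e1 (chi ξ d)
        rw [chi_norm] at h
        calc _ = B ξ * (starRingEnd ℂ) (B ξ) * (chi ξ d * (starRingEnd ℂ) (chi ξ d)) := by ring
          _ = _ := by rw [← h]; simp
      simp only [this, Finset.sum_const, Finset.card_univ, nsmul_eq_mul]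
      congr 1
      rw [Fintype.card_fun, ZMod.card, Fintype.card_fin]
      push_cast; rfl
    · intro η _ hη
      have : ∀ d : Fin k → ZMod Q, B ξ * chi ξ d * ((starRingEnd ℂ) (B η) * (starRingEnd ℂ) (chi η d)) =
          B ξ * (starRingEnd ℂ) (B η) * chi d (ξ + (-η)) := by
        intro d
        rw [chi_add, chi_comm d ξ, chi_neg, chi_comm d η]; ring
      simp only [this, ← Finset.mul_sum]
      rw [chi_orth, if_neg, mul_zero]
      intro h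
      exact hη (by rw [← sub_eq_add_neg, sub_eq_zero] at h; exact h.symm)
    · intro h; exact absurd (Finset.mem_univ _) h
  exact_mod_cast key

/-- Fourier coefficients -/
noncomputable def hat (f : (Fin k → ZMod Q) → ℝ) (ξ : Fin k → ZMod Q) : ℂ :=
  (∑ d, (f d : ℂ) * chi ξ (-d)) / (Q : ℂ) ^ k

theorem inversion (f : (Fin k → ZMod Q) → ℝ) (d : Fin k → ZMod Q) :
    ((f d : ℝ) : ℂ) = ∑ ξ, hat f ξ * chi ξ d := by
  have hQ : ((Q : ℂ) ^ k) ≠ 0 := pow_ne_zero _ (Nat.cast_ne_zero.mpr (NeZero.ne Q))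
  have e1 : ∀ ξ, hat f ξ * chi ξ d = (∑ e, (f e : ℂ) * chi ξ (d + (-e))) / (Q : ℂ) ^ k := by
    intro ξ
    unfold hat
    rw [div_mul_eq_mul_div, Finset.sum_mul]
    congr 1
    refine Finset.sum_congr rfl (fun e _ => ?_)
    rw [chi_add]; ring
  simp only [e1]
  rw [← Finset.sum_div, Finset.sum_comm]
  simp only [← Finset.mul_sum, chi_orth]
  rw [Finset.sum_eq_single d]
  · simp [hQ]
  · intro e _ he
    rw [if_neg, mul_zero]
    intro h
    exact he (by rw [← sub_eq_add_neg, sub_eq_zero] at h; exact h.symm)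
  · intro h; exact absurd (Finset.mem_univ _) h

theorem hat_norm_le (f : (Fin k → ZMod Q) → ℝ) (Y : ℝ) (hf : ∀ d, |f d| ≤ Y)
    (ξ : Fin k → ZMod Q) : ‖hat f ξ‖ ≤ Y := by
  have hQ : (0:ℝ) < (Q : ℝ) ^ k := pow_pos (Nat.cast_pos.mpr (NeZero.pos Q)) _
  unfold hat
  rw [norm_div, norm_pow, Complex.norm_natCast, div_le_iff₀ hQ]
  calc ‖∑ d, (f d : ℂ) * chi ξ (-d)‖ ≤ ∑ d, ‖(f d : ℂ) * chi ξ (-d)‖ := norm_sum_le _ _
    _ ≤ ∑ _d : Fin k → ZMod Q, Y := Finset.sum_le_sum (fun d _ => by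
        rw [norm_mul, chi_norm, mul_one, Complex.norm_real]; exact hf d)
    _ = Y * (Q : ℝ) ^ k := by
        rw [Finset.sum_const, Finset.card_univ, Fintype.card_fun, ZMod.card, Fintype.card_fin, nsmul_eq_mul]
        push_cast; ring

theorem hat_sq (f : (Fin k → ZMod Q) → ℝ) (Y : ℝ) (hf : ∀ d, |f d| ≤ Y) :
    ∑ ξ, ‖hat f ξ‖ ^ 2 ≤ Y ^ 2 := by
  have hQ : (0:ℝ) < (Q : ℝ) ^ k := pow_pos (Nat.cast_pos.mpr (NeZero.pos Q)) _
  have h := parseval (hat f)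
  simp only [← inversion] at h
  have h2 : ∑ d : Fin k → ZMod Q, ‖((f d : ℝ) : ℂ)‖ ^ 2 ≤ (Q : ℝ) ^ k * Y ^ 2 := by
    calc _ ≤ ∑ _d : Fin k → ZMod Q, Y ^ 2 := Finset.sum_le_sum (fun d _ => by
          rw [Complex.norm_real]
          exact pow_le_pow_left₀ (norm_nonneg _) (hf d) 2)
      _ = _ := by
        rw [Finset.sum_const, Finset.card_univ, Fintype.card_fun, ZMod.card, Fintype.card_fin, nsmul_eq_mul]
        push_cast; ring
  rw [h] at h2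
  exact le_of_mul_le_mul_left h2 hQ

/-- one dimensional multiplier -/
noncomputable def mu (P : Finset (ZMod Q)) (x : ZMod Q) : ℂ :=
  (∑ τ ∈ P, (ZMod.stdAddChar (x * τ) : ℂ)) / (P.card : ℂ)

theorem mu_norm_le (P : Finset (ZMod Q)) (x : ZMod Q) : ‖mu P x‖ ≤ 1 := by
  unfold mu
  rw [norm_div, Complex.norm_natCast]
  apply div_le_one_of_le₀ _ (Nat.cast_nonneg _)
  calc ‖∑ τ ∈ P, (ZMod.stdAddChar (x * τ) : ℂ)‖ ≤ ∑ τ ∈ P, ‖(ZMod.stdAddChar (x * τ) : ℂ)‖ := norm_sum_le _ _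
    _ = P.card := by simp

theorem mu_sq (P : Finset (ZMod Q)) (hP : 0 < P.card) :
    ∑ x : ZMod Q, ‖mu P x‖ ^ 2 = (Q : ℝ) / (P.card : ℝ) := by
  have hP' : ((P.card : ℝ)) ≠ 0 := by positivity
  -- use the case k = 1 of Parseval
  have h := parseval (Q := Q) (k := 1) (fun ξ => if ξ 0 ∈ P then (1:ℂ) else 0)
  have e1 : ∀ d : Fin 1 → ZMod Q, (∑ ξ : Fin 1 → ZMod Q, (if ξ 0 ∈ P then (1:ℂ) else 0) * chi ξ d) =
      (P.card : ℂ) * mu P (d 0) := by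
    intro d
    unfold mu
    rw [mul_div_cancel₀]
    · rw [← (Equiv.funUnique (Fin 1) (ZMod Q)).symm.sum_comp]
      simp only [ite_mul, one_mul, zero_mul]
      rw [← Finset.sum_filter]
      apply Finset.sum_congr
      · ext x; simp
      · intro x _
        simp [chi, mul_comm]
    · exact_mod_cast hP'
  simp only [e1] at h
  rw [← (Equiv.funUnique (Fin 1) (ZMod Q)).symm.sum_comp, ← (Equiv.funUnique (Fin 1) (ZMod Q)).symm.sum_comp] at h
  simp only [Equiv.funUnique_symm_apply, uniqueElim_const, norm_mul, Complex.norm_natCast, mul_pow] at h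
  rw [← Finset.mul_sum] at h
  have e2 : ∑ x : ZMod Q, ‖(if x ∈ P then (1:ℂ) else 0)‖ ^ 2 = (P.card : ℝ) := by
    have : ∀ x : ZMod Q, ‖(if x ∈ P then (1:ℂ) else 0)‖ ^ 2 = if x ∈ P then (1:ℝ) else 0 := by
      intro x; split_ifs <;> simp
    simp only [this]
    simp
  have h3 : (P.card : ℝ) ^ 2 * ∑ x : ZMod Q, ‖mu P x‖ ^ 2 = (Q : ℝ) * P.card := by
    have := h
    simp only [pow_one] at this
    rw [e2] at this
    exact this
  rw [eq_div_iff hP']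
  have : (P.card : ℝ) * ((∑ x : ZMod Q, ‖mu P x‖ ^ 2) * P.card) = P.card * Q := by
    linarith [h3, mul_comm (Q:ℝ) (P.card:ℝ), (by ring : (P.card : ℝ) * ((∑ x : ZMod Q, ‖mu P x‖ ^ 2) * P.card) = (P.card : ℝ)^2 * ∑ x : ZMod Q, ‖mu P x‖ ^ 2)]
  exact mul_left_cancel₀ hP' this

/-- multiplier -/
noncomputable def lam (P : Fin k → Finset (ZMod Q)) (ξ : Fin k → ZMod Q) : ℂ := ∏ i, mu (P i) (ξ i)

theorem lam_eq (P : Fin k → Finset (ZMod Q)) (ξ : Fin k → ZMod Q) :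
    (∑ τ ∈ Fintype.piFinset P, chi ξ τ) / ((Fintype.piFinset P).card : ℂ) = lam P ξ := by
  unfold lam mu
  rw [Finset.prod_div_distrib, Finset.prod_univ_sum, Fintype.card_piFinset]
  push_cast
  rfl

theorem shiftAv_four (P : Fin k → Finset (ZMod Q)) (h : (Fin k → ZMod Q) → ℝ)
    (B : (Fin k → ZMod Q) → ℂ) (hB : ∀ d, ((h d : ℝ) : ℂ) = ∑ ξ, B ξ * chi ξ d) (d : Fin k → ZMod Q) :
    ((shiftAv P h d : ℝ) : ℂ) = ∑ ξ, B ξ * lam P ξ * chi ξ d := by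
  unfold shiftAv
  push_cast
  simp only [hB, chi_add]
  rw [Finset.sum_comm, Finset.sum_div]
  refine Finset.sum_congr rfl (fun ξ _ => ?_)
  rw [← lam_eq]
  rw [← Finset.mul_sum, ← Finset.mul_sum]
  ring

theorem shiftAv_iter (P : Fin k → Finset (ZMod Q)) (f : (Fin k → ZMod Q) → ℝ) (r : ℕ) (d : Fin k → ZMod Q) :
    (((shiftAv P)^[r] f d : ℝ) : ℂ) = ∑ ξ, hat f ξ * lam P ξ ^ r * chi ξ d := by
  induction r generalizing d with
  | zero => simpa using inversion f d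
  | succ r ih =>
    rw [Function.iterate_succ_apply', shiftAv_four P _ _ ih]
    refine Finset.sum_congr rfl (fun ξ _ => ?_)
    ring

theorem lam_norm_le (P : Fin k → Finset (ZMod Q)) (ξ : Fin k → ZMod Q) : ‖lam P ξ‖ ≤ 1 := by
  unfold lam
  rw [norm_prod]
  exact Finset.prod_le_one (fun i _ => norm_nonneg _) (fun i _ => mu_norm_le _ _)

theorem lam_norm_le_mu (P : Fin k → Finset (ZMod Q)) (ξ : Fin k → ZMod Q) (i : Fin k) :
    ‖lam P ξ‖ ≤ ‖mu (P i) (ξ i)‖ := by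
  unfold lam
  rw [norm_prod, ← Finset.mul_prod_erase _ _ (Finset.mem_univ i)]
  exact mul_le_of_le_one_right (norm_nonneg _)
    (Finset.prod_le_one (fun i _ => norm_nonneg _) (fun i _ => mu_norm_le _ _))

/-- large spectrum -/
noncomputable def big (P : Finset (ZMod Q)) : Finset (ZMod Q) :=
  Finset.univ.filter (fun x => (1:ℝ) / 2 ≤ ‖mu P x‖)

theorem big_card (P : Finset (ZMod Q)) (σ : ℝ) (hσ : 0 < σ) (hP : σ * (Q:ℝ) ≤ (P.card : ℝ)) :
    ((big P).card : ℝ) ≤ 4 / σ := by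
  have hQ : (0:ℝ) < (Q : ℝ) := Nat.cast_pos.mpr (NeZero.pos Q)
  have hP0 : (0:ℝ) < (P.card : ℝ) := lt_of_lt_of_le (by positivity) hP
  have h1 := mu_sq P (by exact_mod_cast hP0)
  have h2 : ((big P).card : ℝ) * (1 / 4) ≤ ∑ x : ZMod Q, ‖mu P x‖ ^ 2 := by
    calc ((big P).card : ℝ) * (1 / 4) = ∑ _x ∈ big P, (1/4 : ℝ) := by
          rw [Finset.sum_const, nsmul_eq_mul]
      _ ≤ ∑ x ∈ big P, ‖mu P x‖ ^ 2 := Finset.sum_le_sum (fun x hx => by
          have := (Finset.mem_filter.mp hx).2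
          nlinarith)
      _ ≤ ∑ x : ZMod Q, ‖mu P x‖ ^ 2 := Finset.sum_le_sum_of_subset_of_nonneg (Finset.subset_univ _)
          (fun x _ _ => by positivity)
  rw [h1] at h2
  have h3 : (Q : ℝ) / (P.card : ℝ) ≤ 1 / σ := by
    rw [div_le_div_iff₀ hP0 hσ]; linarith
  have h4 : (4:ℝ) / σ = 4 * (1 / σ) := by ring
  rw [h4]; linarith

end APF

open APF

theorem fourier_soft (k : ℕ) (σ : ℝ) (hσ : 0 < σ) : ∃ J : ℕ, ∀ (Q : ℕ) [NeZero Q]
    (P : Fin k → Finset (ZMod Q)), (∀ i, σ * (Q:ℝ) ≤ ((P i).card : ℝ)) →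
    ∀ (r : ℕ) (Y : ℝ) (f : (Fin k → ZMod Q) → ℝ), (∀ d, |f d| ≤ Y) →
    ∃ (S : Finset (ZMod Q)) (a : (Fin k → ZMod Q) → ℂ), S.card ≤ J ∧ (∀ ξ, ‖a ξ‖ ≤ Y) ∧
      ∑ d : Fin k → ZMod Q, ‖(((shiftAv P)^[r] f d : ℝ) : ℂ) -
          ∑ ξ ∈ Fintype.piFinset (fun _ : Fin k => S),
            a ξ * ∏ i, (ZMod.stdAddChar (ξ i * d i) : ℂ)‖ ≤ (1 / 2) ^ r * Y * (Q:ℝ) ^ k := by
  classical
  refine ⟨k * ⌈4 / σ⌉₊, fun Q _ P hP r Y f hf => ?_⟩
  have hY : 0 ≤ Y := le_trans (abs_nonneg _) (hf 0)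
  refine ⟨Finset.univ.biUnion (fun i => big (P i)), fun ξ => hat f ξ * lam P ξ ^ r, ?_, ?_, ?_⟩
  · refine Finset.card_biUnion_le.trans ?_
    calc ∑ i, (big (P i)).card ≤ ∑ _i : Fin k, ⌈4 / σ⌉₊ := Finset.sum_le_sum (fun i _ => by
          have := big_card (P i) σ hσ (hP i)
          exact_mod_cast this.trans (Nat.le_ceil _))
      _ = k * ⌈4 / σ⌉₊ := by simp
  · intro ξ
    rw [norm_mul, norm_pow]
    have h1 := hat_norm_le f Y hf ξ
    have h2 : ‖lam P ξ‖ ^ r ≤ 1 := pow_le_one₀ (norm_nonneg _) (lam_norm_le P ξ)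
    calc _ ≤ Y * 1 := mul_le_mul h1 h2 (by positivity) hY
      _ = Y := mul_one _
  · set S := Finset.univ.biUnion (fun i => big (P i)) with hS
    set T := Fintype.piFinset (fun _ : Fin k => S) with hT
    set B : (Fin k → ZMod Q) → ℂ := fun ξ => if ξ ∈ T then 0 else hat f ξ * lam P ξ ^ r with hB
    have e1 : ∀ d : Fin k → ZMod Q, (((shiftAv P)^[r] f d : ℝ) : ℂ) -
          ∑ ξ ∈ T, (hat f ξ * lam P ξ ^ r) * ∏ i, (ZMod.stdAddChar (ξ i * d i) : ℂ) =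
          ∑ ξ, B ξ * chi ξ d := by
      intro d
      rw [shiftAv_iter]
      rw [sub_eq_iff_eq_add]
      have : ∑ ξ ∈ T, (hat f ξ * lam P ξ ^ r) * ∏ i, (ZMod.stdAddChar (ξ i * d i) : ℂ) =
          ∑ ξ, (if ξ ∈ T then hat f ξ * lam P ξ ^ r * chi ξ d else 0) := by
        rw [Finset.sum_ite_mem, Finset.univ_inter]; rfl
      rw [this, ← Finset.sum_add_distrib]
      refine Finset.sum_congr rfl (fun ξ _ => ?_)
      by_cases h : ξ ∈ T
      · simp [hB, h]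
      · simp [hB, h]
    simp only [e1]
    have e2 : ∀ ξ, ‖B ξ‖ ^ 2 ≤ ((1/2 : ℝ) ^ r) ^ 2 * ‖hat f ξ‖ ^ 2 := by
      intro ξ
      by_cases h : ξ ∈ T
      · simp only [hB, if_pos h, norm_zero]
        rw [zero_pow two_ne_zero]
        positivity
      · simp only [hB, if_neg h]
        rw [norm_mul, norm_pow, mul_pow, mul_comm]
        refine mul_le_mul_of_nonneg_right ?_ (by positivity)
        refine pow_le_pow_left₀ (by positivity) ?_ 2
        refine pow_le_pow_left₀ (norm_nonneg _) ?_ r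
        obtain ⟨i, hi⟩ : ∃ i, ξ i ∉ S := by
          by_contra hc; push Not at hc
          exact h (Fintype.mem_piFinset.mpr hc)
        have hi' : ξ i ∉ big (P i) := fun hx => hi (Finset.mem_biUnion.mpr ⟨i, Finset.mem_univ _, hx⟩)
        have : ‖mu (P i) (ξ i)‖ < 1 / 2 := by
          by_contra hc; push Not at hc
          exact hi' (Finset.mem_filter.mpr ⟨Finset.mem_univ _, hc⟩)
        exact (lam_norm_le_mu P ξ i).trans this.le
    have e3 : ∑ d : Fin k → ZMod Q, ‖∑ ξ, B ξ * chi ξ d‖ ^ 2 ≤ (Q:ℝ) ^ k * (((1/2 : ℝ) ^ r) ^ 2 * Y ^ 2) := by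
      rw [parseval]
      refine mul_le_mul_of_nonneg_left ?_ (by positivity)
      calc ∑ ξ, ‖B ξ‖ ^ 2 ≤ ∑ ξ, ((1/2 : ℝ) ^ r) ^ 2 * ‖hat f ξ‖ ^ 2 := Finset.sum_le_sum (fun ξ _ => e2 ξ)
        _ = ((1/2 : ℝ) ^ r) ^ 2 * ∑ ξ, ‖hat f ξ‖ ^ 2 := by rw [Finset.mul_sum]
        _ ≤ _ := mul_le_mul_of_nonneg_left (hat_sq f Y hf) (by positivity)
    have e4 : (∑ d : Fin k → ZMod Q, ‖∑ ξ, B ξ * chi ξ d‖) ^ 2 ≤
        (Q:ℝ) ^ k * ∑ d : Fin k → ZMod Q, ‖∑ ξ, B ξ * chi ξ d‖ ^ 2 := by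
      have := sq_sum_le_card_mul_sum_sq (s := (Finset.univ : Finset (Fin k → ZMod Q)))
        (f := fun d => ‖∑ ξ, B ξ * chi ξ d‖)
      rw [Finset.card_univ, Fintype.card_fun, ZMod.card, Fintype.card_fin] at this
      push_cast at this
      exact this
    have e5 : (∑ d : Fin k → ZMod Q, ‖∑ ξ, B ξ * chi ξ d‖) ^ 2 ≤ ((1 / 2) ^ r * Y * (Q:ℝ) ^ k) ^ 2 := by
      calc _ ≤ (Q:ℝ) ^ k * ((Q:ℝ) ^ k * (((1/2 : ℝ) ^ r) ^ 2 * Y ^ 2)) :=
            e4.trans (mul_le_mul_of_nonneg_left e3 (by positivity))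
        _ = _ := by ring
    exact (sq_le_sq₀ (Finset.sum_nonneg (fun d _ => norm_nonneg _)) (by positivity)).mp e5

end Pool.Agent.HLT
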