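import Mathlib
import Pool.Agent.HLT.APDefs

set_option autoImplicit false

open Finset

namespace Pool.Agent.HLT

namespace G4Periods

/-- the part of the sum over the box where the coordinate `i` is `y` -/
noncomputable def slab {r : ℕ} (f : (Fin r → ℕ) → ℝ) (H : ℕ) (i : Fin r) (y : ℕ) : ℝ :=
  ∑ e ∈ (box r (6 * H)).filter (fun e => e i = y), f e

theorem slab_nonneg {r : ℕ} (f : (Fin r → ℕ) → ℝ) (hf : ∀ e, 0 ≤ f e) (H : ℕ) (i : Fin r) (y : ℕ) :
    0 ≤ slab f H i y := Finset.sum_nonneg fun e _ => hf e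

theorem sum_slab {r : ℕ} (f : (Fin r → ℕ) → ℝ) (H : ℕ) (i : Fin r) :
    ∑ y ∈ Finset.range (6 * H + 1), slab f H i y = ∑ e ∈ box r (6 * H), f e := by
  unfold slab
  apply Finset.sum_fiberwise_of_maps_to
  intro e he
  have := Fintype.mem_piFinset.1 he i
  exact this

theorem bad_count {r : ℕ} (f : (Fin r → ℕ) → ℝ) (hf : ∀ e, 0 ≤ f e) (H : ℕ) (i : Fin r) (T B : ℝ)
    (hB : ∑ e ∈ box r (6 * H), f e ≤ B) :
    (((Finset.range (6 * H + 1)).filter (fun y => T < slab f H i y)).card : ℝ) * T ≤ B := by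
  rw [← nsmul_eq_mul, ← Finset.sum_const]
  calc ∑ _y ∈ (Finset.range (6 * H + 1)).filter (fun y => T < slab f H i y), T
      ≤ ∑ y ∈ (Finset.range (6 * H + 1)).filter (fun y => T < slab f H i y), slab f H i y :=
        Finset.sum_le_sum fun y hy => (Finset.mem_filter.1 hy).2.le
    _ ≤ ∑ y ∈ Finset.range (6 * H + 1), slab f H i y :=
        Finset.sum_le_sum_of_subset_of_nonneg (Finset.filter_subset _ _)
          fun y _ _ => slab_nonneg f hf H i y
    _ = ∑ e ∈ box r (6 * H), f e := sum_slab f H i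
    _ ≤ B := hB

/-- the shifted tuple -/
def sh {k : ℕ} (i : Fin k) (y τ : ℕ) (d : Fin k → ℕ) : Fin (k + 1) → ℕ :=
  fun j => (Fin.cons 0 (Function.update d i (d i + τ)) : Fin (k + 1) → ℕ) j + (y - d i)

theorem sh_zero {k : ℕ} (i : Fin k) (y τ : ℕ) (d : Fin k → ℕ) : sh i y τ d 0 = y - d i := by
  simp [sh]

theorem sh_succ {k : ℕ} (i : Fin k) (y τ : ℕ) (d : Fin k → ℕ) (hd : d i ≤ y) :
    sh i y τ d i.succ = y + τ := by
  simp only [sh, Fin.cons_succ, Function.update_self]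
  omega

theorem sh_succ_ne {k : ℕ} (i : Fin k) (y τ : ℕ) (d : Fin k → ℕ) (j : Fin k) (hj : j ≠ i) :
    sh i y τ d j.succ = d j + (y - d i) := by
  simp [sh, Function.update_of_ne hj]

theorem sh_injOn {k : ℕ} (i : Fin k) (y τ H : ℕ) (hy : 2 * H ≤ y) :
    Set.InjOn (sh i y τ) (Fintype.piFinset (fun _ : Fin k => Finset.range (2 * H)) :
      Finset (Fin k → ℕ)) := by
  intro d hd d' hd' hdd
  have h1 : ∀ j, d j < 2 * H := fun j => Finset.mem_range.1 (Fintype.mem_piFinset.1 hd j)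
  have h2 : ∀ j, d' j < 2 * H := fun j => Finset.mem_range.1 (Fintype.mem_piFinset.1 hd' j)
  have h0 := congrFun hdd 0
  rw [sh_zero, sh_zero] at h0
  have hi : d i = d' i := by
    have := h1 i
    have := h2 i
    omega
  funext j
  by_cases hj : j = i
  · rw [hj, hi]
  · have := congrFun hdd j.succ
    rw [sh_succ_ne i y τ d j hj, sh_succ_ne i y τ d' j hj, hi] at this
    omega

theorem sum_sh_le {k : ℕ} (f : (Fin (k + 1) → ℕ) → ℝ) (hf : ∀ e, 0 ≤ f e) (i : Fin k) (y τ H : ℕ)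
    (hy : 2 * H ≤ y) (hy2 : y + τ < 3 * H) :
    ∑ d ∈ Fintype.piFinset (fun _ : Fin k => Finset.range (2 * H)), f (sh i y τ d) ≤
      slab f H i.succ (y + τ) := by
  rw [← Finset.sum_image (g := sh i y τ) (f := f) (sh_injOn i y τ H hy)]
  apply Finset.sum_le_sum_of_subset_of_nonneg _ fun e _ _ => hf e
  intro e he
  obtain ⟨d, hd, rfl⟩ := Finset.mem_image.1 he
  have h1 : ∀ j, d j < 2 * H := fun j => Finset.mem_range.1 (Fintype.mem_piFinset.1 hd j)
  rw [Finset.mem_filter]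
  refine ⟨?_, sh_succ i y τ d (by have := h1 i; omega)⟩
  refine Fintype.mem_piFinset.2 fun j => Finset.mem_range.2 ?_
  refine Fin.cases ?_ (fun j => ?_) j
  · rw [sh_zero]
    omega
  · by_cases hj : j = i
    · rw [hj, sh_succ i y τ d (by have := h1 i; omega)]
      omega
    · rw [sh_succ_ne i y τ d j hj]
      have := h1 j
      have := h1 i
      omega

theorem key {k J H : ℕ} {Y κ : ℝ} {c : (Fin (k + 1) → ℕ) → ℝ} (hs : Soft k H Y κ c)
    (χ : ℕ → Fin J) (g : (Fin (k + 1) → Fin J) → ℝ) (i : Fin k) (y τ : ℕ)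
    (hy : 2 * H ≤ y) (hy2 : y + τ < 3 * H) (hχ : χ (y + τ) = χ y) (d : Fin k → ℕ)
    (hd : ∀ j, d j < 2 * H) :
    |c (Fin.cons 0 (Function.update d i (d i + τ))) - c (Fin.cons 0 d)| ≤
      2 * κ + |c (sh i y 0 d) - g (fun j => χ (sh i y 0 d j))| +
        |c (sh i y τ d) - g (fun j => χ (sh i y τ d j))| := by
  have hi := hd i
  have h1 := hs.shift (Fin.cons 0 (Function.update d i (d i + τ))) (y - d i) (by
    intro j
    refine Fin.cases ?_ (fun j => ?_) j
    · simp only [Fin.cons_zero]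
      omega
    · simp only [Fin.cons_succ]
      by_cases hj : j = i
      · rw [hj, Function.update_self]
        omega
      · rw [Function.update_of_ne hj]
        have := hd j
        omega)
  have h2 := hs.shift (Fin.cons 0 (Function.update d i (d i + 0))) (y - d i) (by
    intro j
    refine Fin.cases ?_ (fun j => ?_) j
    · simp only [Fin.cons_zero]
      omega
    · simp only [Fin.cons_succ]
      by_cases hj : j = i
      · rw [hj, Function.update_self]
        omega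
      · rw [Function.update_of_ne hj]
        have := hd j
        omega)
  change |c (sh i y τ d) - _| ≤ κ at h1
  change |c (sh i y 0 d) - _| ≤ κ at h2
  rw [Nat.add_zero (d i), Function.update_eq_self] at h2
  have h3 : (fun j => χ (sh i y τ d j)) = fun j => χ (sh i y 0 d j) := by
    funext j
    refine Fin.cases ?_ (fun j => ?_) j
    · rw [sh_zero, sh_zero]
    · by_cases hj : j = i
      · rw [hj, sh_succ i y τ d (by omega), sh_succ i y 0 d (by omega), hχ, Nat.add_zero]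
      · rw [sh_succ_ne i y τ d j hj, sh_succ_ne i y 0 d j hj]
  rw [h3]
  rw [abs_le] at h1 h2
  have h4 := abs_le.1 (le_refl |c (sh i y 0 d) - g (fun j => χ (sh i y 0 d j))|)
  have h5 := abs_le.1 (le_refl |c (sh i y τ d) - g (fun j => χ (sh i y 0 d j))|)
  rw [abs_le]
  constructor <;> linarith [h1.1, h1.2, h2.1, h2.2, h4.1, h4.2, h5.1, h5.2]

theorem sum_key {k J H : ℕ} {Y κ : ℝ} {c : (Fin (k + 1) → ℕ) → ℝ} (hs : Soft k H Y κ c)
    (χ : ℕ → Fin J) (g : (Fin (k + 1) → Fin J) → ℝ) (i : Fin k) (y τ : ℕ)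
    (hy : 2 * H ≤ y) (hy2 : y + τ < 3 * H) (hχ : χ (y + τ) = χ y) :
    ∑ d ∈ Fintype.piFinset (fun _ : Fin k => Finset.range (2 * H)),
      |c (Fin.cons 0 (Function.update d i (d i + τ))) - c (Fin.cons 0 d)| ≤
      2 * κ * (2 * (H:ℝ)) ^ k + slab (fun e => |c e - g (fun j => χ (e j))|) H i.succ y +
        slab (fun e => |c e - g (fun j => χ (e j))|) H i.succ (y + τ) := by
  have h1 := sum_sh_le (fun e => |c e - g (fun j => χ (e j))|) (fun e => abs_nonneg _) i y 0 H hy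
    (by omega)
  have h2 := sum_sh_le (fun e => |c e - g (fun j => χ (e j))|) (fun e => abs_nonneg _) i y τ H hy
    (by omega)
  rw [Nat.add_zero y] at h1
  have h3 : ∑ d ∈ Fintype.piFinset (fun _ : Fin k => Finset.range (2 * H)),
      |c (Fin.cons 0 (Function.update d i (d i + τ))) - c (Fin.cons 0 d)| ≤
      ∑ d ∈ Fintype.piFinset (fun _ : Fin k => Finset.range (2 * H)),
        (2 * κ + |c (sh i y 0 d) - g (fun j => χ (sh i y 0 d j))| +
        |c (sh i y τ d) - g (fun j => χ (sh i y τ d j))|) := by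
    apply Finset.sum_le_sum
    intro d hd
    exact key hs χ g i y τ hy hy2 hχ d
      fun j => Finset.mem_range.1 (Fintype.mem_piFinset.1 hd j)
  rw [Finset.sum_add_distrib, Finset.sum_add_distrib, Finset.sum_const, Fintype.card_piFinset_const,
    Finset.card_range, nsmul_eq_mul] at h3
  push_cast at h3
  have h4 : (2 * (H:ℝ)) ^ k * (2 * κ) = 2 * κ * (2 * (H:ℝ)) ^ k := mul_comm _ _
  rw [h4] at h3
  linarith

/-- the combinatorial choice of the periods -/
theorem choose {J : ℕ} (θ : ℝ) (hθ : 0 < θ) (hθ1 : θ ≤ 1) (H : ℕ) (hH : 2 ≤ θ * H)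
    (χ : ℕ → Fin J) (Gd : Finset ℕ) (hG : ∀ y ∈ Gd, 2 * H ≤ y ∧ y < 3 * H)
    (hc : (H:ℝ) / 2 ≤ (Gd.card : ℝ)) :
    ∃ y ∈ Gd, ∃ P : Finset ℕ, 1 / (2 * (2 / θ + 1) * (J + 1)) * (H:ℝ) ≤ (P.card : ℝ) ∧
      ∀ τ ∈ P, (τ:ℝ) ≤ θ * H ∧ y + τ ∈ Gd ∧ χ (y + τ) = χ y := by
  classical
  have hHpos : (0:ℝ) < H := by
    rcases Nat.eq_zero_or_pos H with h | h
    · subst h; simp at hH; linarith
    · exact_mod_cast h
  obtain ⟨l, hl⟩ : ∃ l : ℕ, l = ⌊θ * H⌋₊ := ⟨_, rfl⟩
  have hl1 : (l:ℝ) ≤ θ * H := by rw [hl]; exact Nat.floor_le (by positivity)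
  have hl2 : θ * H - 1 < l := by rw [hl]; exact Nat.sub_one_lt_floor _
  have hl3 : θ * H / 2 ≤ l := by linarith
  have hl4 : 0 < l := by
    have : (0:ℝ) < l := by linarith
    exact_mod_cast this
  have hJ : 0 < J := lt_of_le_of_lt (Nat.zero_le _) (χ 0).2
  -- classes
  let F : ℕ → ℕ × Fin J := fun y => ((y - 2 * H) / l, χ y)
  let T : Finset (ℕ × Fin J) := Finset.range (H / l + 1) ×ˢ Finset.univ
  have hF : ∀ y ∈ Gd, F y ∈ T := by
    intro y hy
    have := hG y hy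
    simp only [F, T, Finset.mem_product, Finset.mem_range, Finset.mem_univ, and_true]
    exact Nat.lt_succ_of_le (Nat.div_le_div_right (by omega))
  have hT : (T.card : ℝ) ≤ (2 / θ + 1) * (J + 1) := by
    simp only [T, Finset.card_product, Finset.card_range, Finset.card_univ, Fintype.card_fin]
    push_cast
    have h1 : ((H / l : ℕ) : ℝ) ≤ 2 / θ := by
      calc ((H / l : ℕ) : ℝ) ≤ (H:ℝ) / l := Nat.cast_div_le
        _ ≤ (H:ℝ) / (θ * H / 2) := by
            apply div_le_div_of_nonneg_left hHpos.le (by positivity) hl3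
        _ = 2 / θ := by field_simp
    apply mul_le_mul (by linarith) (by linarith) (by positivity) (by positivity)
  have hTpos : 0 < T.card := by
    rw [Finset.card_pos]
    exact ⟨(0, χ 0), by simp [T]⟩
  have hne : T.Nonempty := Finset.card_pos.1 hTpos
  obtain ⟨t, ht, htc⟩ := Finset.exists_le_card_fiber_of_nsmul_le_card_of_maps_to (s := Gd) (t := T)
    (f := F) (b := 1 / (2 * (2 / θ + 1) * (J + 1)) * (H:ℝ)) hF hne (by
      rw [nsmul_eq_mul]
      refine le_trans ?_ hc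
      calc (T.card : ℝ) * (1 / (2 * (2 / θ + 1) * (J + 1)) * (H:ℝ))
          ≤ ((2 / θ + 1) * (J + 1)) * (1 / (2 * (2 / θ + 1) * (J + 1)) * (H:ℝ)) := by
            apply mul_le_mul_of_nonneg_right hT
            positivity
        _ = (H:ℝ) / 2 := by field_simp)
  set Q := Gd.filter (fun y => F y = t) with hQ
  have hQc : (0:ℝ) < (Q.card : ℝ) := lt_of_lt_of_le (by positivity) htc
  have hQne : Q.Nonempty := Finset.card_pos.1 (by exact_mod_cast hQc)
  obtain ⟨y, hyQ, hymin⟩ : ∃ y ∈ Q, ∀ z ∈ Q, y ≤ z := by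
    exact ⟨Q.min' hQne, Finset.min'_mem _ _, fun z hz => Finset.min'_le _ _ hz⟩
  refine ⟨y, (Finset.mem_filter.1 hyQ).1, Q.image (fun z => z - y), ?_, ?_⟩
  · rw [Finset.card_image_of_injOn]
    · exact htc
    · intro a ha b hb hab
      have h1 := hymin a ha
      have h2 := hymin b hb
      simp only at hab
      omega
  · intro τ hτ
    obtain ⟨z, hz, rfl⟩ := Finset.mem_image.1 hτ
    have h1 := hymin z hz
    have h2 := (Finset.mem_filter.1 hz).2
    have h3 := (Finset.mem_filter.1 hyQ).2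
    have h4 : F z = F y := h2.trans h3.symm
    have h5 : (z - 2 * H) / l = (y - 2 * H) / l := congrArg Prod.fst h4
    have h6 : χ z = χ y := congrArg Prod.snd h4
    have h7 : y + (z - y) = z := by omega
    have hzG := (Finset.mem_filter.1 hz).1
    have hyG := (Finset.mem_filter.1 hyQ).1
    have hz1 := hG z hzG
    have hy1 := hG y hyG
    refine ⟨?_, by rw [h7]; exact hzG, by rw [h7]; exact h6⟩
    refine le_trans ?_ hl1
    have h8 : z - y ≤ l := by
      have h9 := Nat.div_add_mod (z - 2 * H) l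
      have h10 := Nat.div_add_mod (y - 2 * H) l
      have h11 := Nat.mod_lt (z - 2 * H) hl4
      rw [h5] at h9
      omega
    exact_mod_cast h8

end G4Periods

open G4Periods in
/-- G4: a translation invariant function that is close to a function of colours has a dense set of
almost periods in each direction. -/
theorem exists_periods (k : ℕ) (hk : 1 ≤ k) (δ θ : ℝ) (hδ : 0 < δ) (hθ : 0 < θ) (hθ1 : θ ≤ 1) :
    ∃ ε1 : ℝ, 0 < ε1 ∧ ∃ κ : ℝ, 0 < κ ∧ ∀ J : ℕ, ∃ σ : ℝ, 0 < σ ∧ ∃ H0 : ℕ, ∀ H : ℕ, H0 ≤ H →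
      ∀ (Y : ℝ) (c : (Fin (k + 1) → ℕ) → ℝ), Soft k H Y κ c → Model k H ε1 J c →
      ∀ i : Fin k, ∃ P : Finset ℕ, σ * (H:ℝ) ≤ (P.card : ℝ) ∧ (∀ τ ∈ P, (τ:ℝ) ≤ θ * H) ∧
        ∀ τ ∈ P, ∑ d ∈ Fintype.piFinset (fun _ : Fin k => Finset.range (2 * H)),
          |c (Fin.cons 0 (Function.update d i (d i + τ))) - c (Fin.cons 0 d)| ≤ δ * (H:ℝ) ^ k := by
  refine ⟨δ / (16 * 7 ^ (k + 1)), by positivity, δ / (4 * 2 ^ k), by positivity, fun J =>
    ⟨1 / (2 * (2 / θ + 1) * (J + 1)), by positivity, ⌈2 / θ⌉₊, fun H hH Y c hs hm i => ?_⟩⟩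
  obtain ⟨χ, g, hg⟩ := hm
  have hH1 : 2 / θ ≤ (H:ℝ) := le_trans (Nat.le_ceil _) (by exact_mod_cast hH)
  have hH2 : 2 ≤ θ * H := by
    rw [div_le_iff₀ hθ] at hH1
    linarith
  have hH3 : (2:ℝ) ≤ H := by nlinarith
  set f : (Fin (k + 1) → ℕ) → ℝ := fun e => |c e - g (fun j => χ (e j))| with hf
  have hf0 : ∀ e, 0 ≤ f e := fun e => abs_nonneg _
  have hbad := bad_count f hf0 H i.succ (δ / 8 * (H:ℝ) ^ k) _ hg
  have hpow : ((6 * H : ℝ) + 1) ^ (k + 1) ≤ 7 ^ (k + 1) * (H:ℝ) ^ (k + 1) := by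
    rw [← mul_pow]
    apply pow_le_pow_left₀ (by positivity)
    linarith
  have hbad2 : (((Finset.range (6 * H + 1)).filter
      (fun y => δ / 8 * (H:ℝ) ^ k < slab f H i.succ y)).card : ℝ) ≤ H / 2 := by
    have h1 : (((Finset.range (6 * H + 1)).filter
      (fun y => δ / 8 * (H:ℝ) ^ k < slab f H i.succ y)).card : ℝ) * (δ / 8 * (H:ℝ) ^ k) ≤
        (H / 2) * (δ / 8 * (H:ℝ) ^ k) := by
      refine hbad.trans ?_
      calc δ / (16 * 7 ^ (k + 1)) * ((6 * H : ℝ) + 1) ^ (k + 1)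
          ≤ δ / (16 * 7 ^ (k + 1)) * (7 ^ (k + 1) * (H:ℝ) ^ (k + 1)) := by
            apply mul_le_mul_of_nonneg_left hpow (by positivity)
        _ = (H / 2) * (δ / 8 * (H:ℝ) ^ k) := by
            field_simp
            ring
    exact le_of_mul_le_mul_right h1 (by positivity)
  obtain ⟨y, hyG, P, hP1, hP2⟩ := choose θ hθ hθ1 H hH2 χ
    ((Finset.Ico (2 * H) (3 * H)).filter (fun y => ¬ δ / 8 * (H:ℝ) ^ k < slab f H i.succ y))
    (fun y hy => Finset.mem_Ico.1 (Finset.mem_filter.1 hy).1) (by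
      have h1 := Finset.card_filter_add_card_filter_not (s := Finset.Ico (2 * H) (3 * H))
        (fun y => δ / 8 * (H:ℝ) ^ k < slab f H i.succ y)
      have h2 : ((Finset.Ico (2 * H) (3 * H)).filter
          (fun y => δ / 8 * (H:ℝ) ^ k < slab f H i.succ y)).card ≤
          ((Finset.range (6 * H + 1)).filter
          (fun y => δ / 8 * (H:ℝ) ^ k < slab f H i.succ y)).card := by
        apply Finset.card_le_card
        apply Finset.filter_subset_filter
        intro z hz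
        have := Finset.mem_Ico.1 hz
        exact Finset.mem_range.2 (by omega)
      rw [Nat.card_Ico] at h1
      have h3 : 3 * H - 2 * H = H := by omega
      rw [h3] at h1
      have h4 : (((Finset.Ico (2 * H) (3 * H)).filter
          (fun y => δ / 8 * (H:ℝ) ^ k < slab f H i.succ y)).card : ℝ) ≤ H / 2 :=
        le_trans (by exact_mod_cast h2) hbad2
      have h5 : (((Finset.Ico (2 * H) (3 * H)).filter
          (fun y => δ / 8 * (H:ℝ) ^ k < slab f H i.succ y)).card : ℝ) +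
          (((Finset.Ico (2 * H) (3 * H)).filter
          (fun y => ¬ δ / 8 * (H:ℝ) ^ k < slab f H i.succ y)).card : ℝ) = H := by
        exact_mod_cast h1
      linarith)
  refine ⟨P, hP1, fun τ hτ => (hP2 τ hτ).1, fun τ hτ => ?_⟩
  obtain ⟨-, h2, h3⟩ := hP2 τ hτ
  have hy1 := Finset.mem_Ico.1 (Finset.mem_filter.1 hyG).1
  have hy2 := (Finset.mem_filter.1 hyG).2
  have hz1 := Finset.mem_Ico.1 (Finset.mem_filter.1 h2).1
  have hz2 := (Finset.mem_filter.1 h2).2
  push Not at hy2 hz2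
  have hsum := sum_key hs χ g i y τ hy1.1 hz1.2 h3
  have h4 : 2 * (δ / (4 * 2 ^ k)) * (2 * (H:ℝ)) ^ k = δ / 2 * (H:ℝ) ^ k := by
    rw [mul_pow]
    field_simp
    ring
  rw [h4] at hsum
  have h5 : 0 ≤ δ * (H:ℝ) ^ k := by positivity
  calc _ ≤ _ := hsum
    _ ≤ δ / 2 * (H:ℝ) ^ k + δ / 8 * (H:ℝ) ^ k + δ / 8 * (H:ℝ) ^ k := by linarith
    _ ≤ δ * (H:ℝ) ^ k := by linarith

end Pool.Agent.HLT
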