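import Mathlib
import Pool.Agent.HLT.APDefs
import Pool.Agent.HLT.APFourier
import Pool.Agent.HLT.APPeriods

set_option autoImplicit false

open Finset

namespace Pool.Agent.HLT

namespace APSoftAux

/-- natural box -/
abbrev BB (k n : ℕ) : Finset (Fin k → ℕ) := Fintype.piFinset (fun _ : Fin k => Finset.range n)

lemma mem_BB {k n : ℕ} {d : Fin k → ℕ} : d ∈ BB k n ↔ ∀ i, d i < n := by
  simp [BB, Fintype.mem_piFinset]

lemma sum_shift_le {k n m : ℕ} (F : (Fin k → ℕ) → ℝ) (hF : ∀ d, 0 ≤ F d) (τ : Fin k → ℕ)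
    (hτ : ∀ i, τ i ≤ m) : ∑ d ∈ BB k n, F (d + τ) ≤ ∑ d ∈ BB k (n + m), F d := by
  classical
  have h1 : ∑ d ∈ (BB k n).image (fun d => d + τ), F d = ∑ d ∈ BB k n, F (d + τ) :=
    Finset.sum_image (fun a _ b _ h => add_right_cancel h)
  rw [← h1]
  refine Finset.sum_le_sum_of_subset_of_nonneg ?_ (fun d _ _ => hF d)
  intro d hd
  rw [Finset.mem_image] at hd
  obtain ⟨d', hd', rfl⟩ := hd
  rw [mem_BB] at hd' ⊢
  intro i
  have := hd' i
  have := hτ i
  show d' i + τ i < n + m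
  omega

lemma tele {k n m H2 : ℕ} (c' : (Fin k → ℕ) → ℝ) (R : ℝ) (τ : Fin k → ℕ) (hτ : ∀ i, τ i ≤ m)
    (hn : n + m ≤ H2)
    (h : ∀ i, ∑ d ∈ BB k H2, |c' (Function.update d i (d i + τ i)) - c' d| ≤ R)
    (S : Finset (Fin k)) :
    ∑ d ∈ BB k n, |c' (fun i => if i ∈ S then d i + τ i else d i) - c' d| ≤ S.card * R := by
  classical
  induction S using Finset.induction_on with
  | empty => simp
  | insert j S hj ih =>
    rw [Finset.card_insert_of_notMem hj]
    push_cast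
    have h1 : ∑ d ∈ BB k n, |c' (fun i => if i ∈ insert j S then d i + τ i else d i) -
        c' (fun i => if i ∈ S then d i + τ i else d i)| ≤ R := by
      refine le_trans ?_ (h j)
      have hu : Function.Injective
          (fun (d : Fin k → ℕ) (i : Fin k) => if i ∈ S then d i + τ i else d i) := by
        intro d d' hd
        funext i
        have := congrFun hd i
        simp only at this
        split_ifs at this <;> omega
      have h2 : ∑ d ∈ BB k n, |c' (fun i => if i ∈ insert j S then d i + τ i else d i) -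
          c' (fun i => if i ∈ S then d i + τ i else d i)| =
          ∑ d ∈ (BB k n).image
            (fun (d : Fin k → ℕ) (i : Fin k) => if i ∈ S then d i + τ i else d i),
            |c' (Function.update d j (d j + τ j)) - c' d| := by
        rw [Finset.sum_image (fun _ _ _ _ h => hu h)]
        refine Finset.sum_congr rfl fun d _ => ?_
        congr 3
        funext i
        by_cases hij : i = j
        · subst hij
          simp [hj]
        · rw [Function.update_of_ne hij]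
          simp [hij]
      rw [h2]
      refine Finset.sum_le_sum_of_subset_of_nonneg ?_ (fun d _ _ => abs_nonneg _)
      intro d hd
      rw [Finset.mem_image] at hd
      obtain ⟨d', hd', rfl⟩ := hd
      rw [mem_BB] at hd' ⊢
      intro i
      have := hd' i
      have := hτ i
      split_ifs <;> omega
    calc ∑ d ∈ BB k n, |c' (fun i => if i ∈ insert j S then d i + τ i else d i) - c' d| ≤
        ∑ d ∈ BB k n, (|c' (fun i => if i ∈ insert j S then d i + τ i else d i) -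
        c' (fun i => if i ∈ S then d i + τ i else d i)| +
        |c' (fun i => if i ∈ S then d i + τ i else d i) - c' d|) :=
          Finset.sum_le_sum fun d _ => abs_sub_le _ _ _
      _ ≤ (S.card + 1) * R := by
          rw [Finset.sum_add_distrib]
          linarith

lemma step {k n m : ℕ} (𝒯 : Finset (Fin k → ℕ)) (h𝒯 : 𝒯.Nonempty)
    (hτ : ∀ τ ∈ 𝒯, ∀ i, τ i ≤ m)
    (c' g : (Fin k → ℕ) → ℝ) (R1 R2 : ℝ)
    (h1 : ∑ d ∈ BB k (n + m), |g d - c' d| ≤ R1)
    (h2 : ∀ τ ∈ 𝒯, ∑ d ∈ BB k n, |c' (d + τ) - c' d| ≤ R2) :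
    ∑ d ∈ BB k n, |(∑ τ ∈ 𝒯, g (d + τ)) / (𝒯.card : ℝ) - c' d| ≤ R1 + R2 := by
  have hc : (0:ℝ) < 𝒯.card := by exact_mod_cast h𝒯.card_pos
  calc ∑ d ∈ BB k n, |(∑ τ ∈ 𝒯, g (d + τ)) / (𝒯.card : ℝ) - c' d| ≤
      ∑ d ∈ BB k n, (∑ τ ∈ 𝒯, (|g (d + τ) - c' (d + τ)| + |c' (d+τ) - c' d|)) /
        (𝒯.card : ℝ) := by
        refine Finset.sum_le_sum fun d _ => ?_
        have : (∑ τ ∈ 𝒯, g (d + τ)) / (𝒯.card : ℝ) - c' d =
            (∑ τ ∈ 𝒯, (g (d + τ) - c' d)) / (𝒯.card : ℝ) := by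
          rw [Finset.sum_sub_distrib, Finset.sum_const, nsmul_eq_mul, sub_div,
            mul_div_cancel_left₀ _ hc.ne']
        rw [this, abs_div, abs_of_pos hc]
        refine div_le_div_of_nonneg_right ?_ hc.le
        exact (Finset.abs_sum_le_sum_abs _ _).trans
          (Finset.sum_le_sum fun τ _ => abs_sub_le _ _ _)
    _ = (∑ τ ∈ 𝒯, (∑ d ∈ BB k n, |g (d + τ) - c' (d + τ)| +
          ∑ d ∈ BB k n, |c' (d+τ) - c' d|)) / (𝒯.card : ℝ) := by
        rw [← Finset.sum_div, Finset.sum_comm]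
        simp only [Finset.sum_add_distrib]
    _ ≤ (∑ τ ∈ 𝒯, (R1 + R2)) / (𝒯.card : ℝ) := by
        refine div_le_div_of_nonneg_right ?_ hc.le
        refine Finset.sum_le_sum fun τ hτ' => add_le_add ?_ (h2 τ hτ')
        exact (sum_shift_le (fun d => |g d - c' d|) (fun d => abs_nonneg _) τ (hτ τ hτ')).trans h1
    _ = R1 + R2 := by
        rw [Finset.sum_const, nsmul_eq_mul, mul_div_cancel_left₀ _ hc.ne']

lemma shiftAv_cast {k Q : ℕ} (P : Fin k → Finset ℕ) (hP : ∀ i, ∀ τ ∈ P i, τ < Q)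
    (f : (Fin k → ZMod Q) → ℝ) (d : Fin k → ℕ) :
    shiftAv (fun i => (P i).image (fun τ : ℕ => (τ : ZMod Q))) f (fun i => (d i : ZMod Q)) =
      (∑ τ ∈ Fintype.piFinset P, f (fun i => ((d + τ) i : ℕ))) /
        ((Fintype.piFinset P).card : ℝ) := by
  classical
  unfold shiftAv
  have h1 : Fintype.piFinset (fun i => (P i).image (fun τ : ℕ => (τ : ZMod Q))) =
      (Fintype.piFinset P).image (fun (τ : Fin k → ℕ) (i : Fin k) => (τ i : ZMod Q)) :=
    Fintype.piFinset_image _ _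
  have hinj : Set.InjOn (fun (τ : Fin k → ℕ) (i : Fin k) => (τ i : ZMod Q))
      (Fintype.piFinset P : Finset (Fin k → ℕ)) := by
    intro τ hτ τ' hτ' h
    rw [Finset.mem_coe, Fintype.mem_piFinset] at hτ hτ'
    funext i
    have h2 := congrFun h i
    simp only at h2
    have h3 := hP i _ (hτ i)
    have h4 := hP i _ (hτ' i)
    have h5 := congrArg ZMod.val h2
    rwa [ZMod.val_natCast, ZMod.val_natCast, Nat.mod_eq_of_lt h3, Nat.mod_eq_of_lt h4] at h5
  rw [h1, Finset.card_image_of_injOn hinj, Finset.sum_image hinj]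
  congr 1
  refine Finset.sum_congr rfl fun τ _ => ?_
  congr 1
  funext i
  simp

lemma iter {k Q m : ℕ} (P : Fin k → Finset ℕ) (hP : ∀ i, ∀ τ ∈ P i, τ < Q)
    (hPm : ∀ i, ∀ τ ∈ P i, τ ≤ m) (hPne : ∀ i, (P i).Nonempty) (c' : (Fin k → ℕ) → ℝ) (R : ℝ)
    (h : ∀ i, ∀ τ ∈ P i, ∑ d ∈ BB k Q, |c' (Function.update d i (d i + τ)) - c' d| ≤ R) (s : ℕ) :
    ∀ n : ℕ, n + s * m ≤ Q →
      ∑ d ∈ BB k n, |(shiftAv (fun i => (P i).image (fun τ : ℕ => (τ : ZMod Q))))^[s]
        (fun z : Fin k → ZMod Q => c' (fun i => (z i).val)) (fun i => (d i : ZMod Q)) - c' d| ≤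
        s * (k * R) := by
  classical
  induction s with
  | zero =>
    intro n hn
    simp only [Function.iterate_zero, id_eq, Nat.cast_zero, zero_mul]
    refine le_of_eq (Finset.sum_eq_zero fun d hd => ?_)
    rw [mem_BB] at hd
    have : (fun i => ((d i : ZMod Q)).val) = d := by
      funext i
      rw [ZMod.val_natCast, Nat.mod_eq_of_lt (by have := hd i; omega)]
    rw [this]
    simp
  | succ s ih =>
    intro n hn
    have hn' : (n + m) + s * m ≤ Q := by
      have : (s + 1) * m = s * m + m := by ring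
      omega
    have h1 := ih (n + m) hn'
    have h𝒯 : (Fintype.piFinset P).Nonempty := Fintype.piFinset_nonempty.mpr hPne
    have h2 := step (k := k) (n := n) (m := m) (Fintype.piFinset P) h𝒯
      (fun τ hτ i => hPm i _ (Fintype.mem_piFinset.mp hτ i)) c'
      (fun d => (shiftAv (fun i => (P i).image (fun τ : ℕ => (τ : ZMod Q))))^[s]
        (fun z : Fin k → ZMod Q => c' (fun i => (z i).val)) (fun i => (d i : ZMod Q)))
      (s * (k * R)) (k * R) h1 (fun τ hτ => by
        have h3 := tele (k := k) (n := n) (m := m) (H2 := Q) c' R τ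
          (fun i => hPm i _ (Fintype.mem_piFinset.mp hτ i)) (by
            have : 0 ≤ s * m := Nat.zero_le _
            omega) (fun i => h i _ (Fintype.mem_piFinset.mp hτ i)) Finset.univ
        simpa [Pi.add_def] using h3)
    have h4 : ((s : ℝ) * (k * R) + k * R) = ((s + 1 : ℕ) : ℝ) * (k * R) := by
      push_cast
      ring
    rw [← h4]
    refine le_trans (le_of_eq ?_) h2
    refine Finset.sum_congr rfl fun d _ => ?_
    rw [Function.iterate_succ_apply', shiftAv_cast P hP]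

lemma char_eq {k Q : ℕ} [NeZero Q] (ξ : Fin k → ZMod Q) (d : Fin k → ℕ) :
    ∏ i, (ZMod.stdAddChar (ξ i * (d i : ZMod Q)) : ℂ) =
      Complex.exp (((2 * Real.pi * ∑ i, ((ξ i).val : ℝ) / Q * (d i : ℝ) : ℝ) : ℂ) * Complex.I) := by
  have h1 : ∀ i, (ZMod.stdAddChar (ξ i * (d i : ZMod Q)) : ℂ) =
      Complex.exp ((2 * Real.pi * (((ξ i).val : ℝ) / Q * (d i : ℝ)) : ℝ) * Complex.I) := by
    intro i
    have h2 : ξ i * (d i : ZMod Q) = (((((ξ i).val * d i : ℕ) : ℤ)) : ZMod Q) := by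
      push_cast
      rw [ZMod.natCast_zmod_val]
    rw [h2, ZMod.stdAddChar_coe]
    congr 1
    push_cast
    ring
  simp only [h1]
  rw [← Complex.exp_sum]
  congr 1
  rw [Finset.mul_sum]
  push_cast
  rw [Finset.sum_mul]

lemma re_mul_exp (a : ℂ) (θ : ℝ) : (a * Complex.exp ((θ : ℂ) * Complex.I)).re =
    a.re * Real.cos θ + (-a.im) * Real.sin θ := by
  rw [Complex.mul_re, Complex.exp_ofReal_mul_I_re, Complex.exp_ofReal_mul_I_im]
  ring

/-- real trigonometric polynomial from the complex one -/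
lemma exists_trig {k Q J : ℕ} [NeZero Q] (S : Finset (ZMod Q)) (hS : S.card ≤ J) (Y : ℝ)
    (hY : 0 ≤ Y) (a : (Fin k → ZMod Q) → ℂ) (ha : ∀ ξ, ‖a ξ‖ ≤ Y) :
    ∃ (α : Fin J → ℝ) (a' b' : (Fin k → Fin J) → ℝ), (∀ j, |a' j| ≤ Y ∧ |b' j| ≤ Y) ∧
      ∀ d : Fin k → ℕ, trig α a' b' d = (∑ ξ ∈ Fintype.piFinset (fun _ : Fin k => S),
            a ξ * ∏ i, (ZMod.stdAddChar (ξ i * (d i : ZMod Q)) : ℂ)).re := by
  classical
  obtain ⟨e⟩ : Nonempty (S ↪ Fin J) := by
    refine Function.Embedding.nonempty_of_card_le ?_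
    rw [Fintype.card_coe, Fintype.card_fin]
    exact hS
  set E : (Fin k → S) → (Fin k → Fin J) := fun ξ i => e (ξ i) with hE
  have hEinj : Function.Injective E := by
    intro ξ ξ' h
    funext i
    exact e.injective (congrFun h i)
  refine ⟨Function.extend e (fun ξ : S => ((ξ : ZMod Q).val : ℝ) / Q) 0,
    Function.extend E (fun ξ => (a (fun i => (ξ i : ZMod Q))).re) 0,
    Function.extend E (fun ξ => -(a (fun i => (ξ i : ZMod Q))).im) 0, ?_, ?_⟩
  · intro j
    by_cases hj : ∃ ξ, E ξ = j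
    · obtain ⟨ξ, rfl⟩ := hj
      rw [hEinj.extend_apply, hEinj.extend_apply, abs_neg]
      exact ⟨(Complex.abs_re_le_norm _).trans (ha _), (Complex.abs_im_le_norm _).trans (ha _)⟩
    · rw [Function.extend_apply' _ _ _ hj, Function.extend_apply' _ _ _ hj]
      simp [hY]
  · intro d
    unfold trig
    rw [Complex.re_sum]
    have h1 : ∑ ξ : Fin k → S, (a (fun i => (ξ i : ZMod Q)) *
        ∏ i, (ZMod.stdAddChar ((ξ i : ZMod Q) * (d i : ZMod Q)) : ℂ)).re =
        ∑ ξ ∈ Fintype.piFinset (fun _ : Fin k => S),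
          (a ξ * ∏ i, (ZMod.stdAddChar (ξ i * (d i : ZMod Q)) : ℂ)).re := by
      refine Finset.sum_bij (fun (ξ : Fin k → S) _ => fun i => (ξ i : ZMod Q)) ?_ ?_ ?_ ?_
      · intro ξ _
        rw [Fintype.mem_piFinset]
        exact fun i => (ξ i).2
      · intro ξ _ ξ' _ h
        funext i
        exact Subtype.ext (congrFun h i)
      · intro ξ hξ
        rw [Fintype.mem_piFinset] at hξ
        exact ⟨fun i => ⟨ξ i, hξ i⟩, mem_univ _, rfl⟩
      · intro ξ _
        rfl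
    rw [← h1]
    symm
    refine Fintype.sum_of_injective E hEinj _ _ ?_ ?_
    · intro j hj
      have hj' : ¬ ∃ ξ, E ξ = j := hj
      rw [Function.extend_apply' _ _ _ hj', Function.extend_apply' _ _ _ hj']
      simp
    · intro ξ
      rw [char_eq, re_mul_exp, hEinj.extend_apply, hEinj.extend_apply]
      have h2 : ∀ i, Function.extend e (fun ξ : S => ((ξ : ZMod Q).val : ℝ) / Q) 0 (E ξ i) =
          ((ξ i : ZMod Q).val : ℝ) / Q := by
        intro i
        exact e.injective.extend_apply _ _ _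
      simp only [h2]

end APSoftAux

open APSoftAux

/-- G5: bounded, almost translation invariant functions of tuples that are close to a function of the
colours are close to trigonometric polynomials with boundedly many terms. -/
theorem soft_ap (k : ℕ) (hk : 1 ≤ k) (Y ε : ℝ) (hY : 0 < Y) (hε : 0 < ε) :
    ∃ ε1 : ℝ, 0 < ε1 ∧ ∃ κ : ℝ, 0 < κ ∧ ∀ J0 : ℕ, ∃ (J H0 : ℕ), Y ≤ J ∧ ∀ H : ℕ, H0 ≤ H →
      ∀ c : (Fin (k + 1) → ℕ) → ℝ, Soft k H Y κ c → Model k H ε1 J0 c →
      ∃ (α : Fin J → ℝ) (a b : (Fin k → Fin J) → ℝ), (∀ j, |a j| ≤ Y ∧ |b j| ≤ Y) ∧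
        ∑ d ∈ Fintype.piFinset (fun _ : Fin k => Finset.Icc 1 H),
          |c (Fin.cons 0 d) - trig α a b d| ≤ ε * (H:ℝ) ^ k := by
  classical
  obtain ⟨r, hr⟩ : ∃ r : ℕ, (1 / 2 : ℝ) ^ r * Y * 2 ^ k ≤ ε / 2 := by
    obtain ⟨r, hr⟩ := exists_pow_lt_of_lt_one (show (0:ℝ) < ε / 2 / (Y * 2 ^ k) by positivity)
      (show (1 / 2 : ℝ) < 1 by norm_num)
    refine ⟨r, ?_⟩
    rw [lt_div_iff₀ (by positivity)] at hr
    linarith
  have hk0 : (0:ℝ) < k := by exact_mod_cast hk
  have hr0 : (0:ℝ) ≤ r := Nat.cast_nonneg _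
  set δ : ℝ := ε / (2 * k * (r + 1)) with hδ
  have hδ0 : 0 < δ := by positivity
  set θ : ℝ := 1 / (2 * ((r:ℝ) + 1)) with hθ
  have hθ0 : 0 < θ := by positivity
  have hθ1 : θ ≤ 1 := by
    rw [hθ, div_le_one (by positivity)]
    linarith
  obtain ⟨ε1, hε1, κ, hκ, hG4⟩ := exists_periods k hk δ θ hδ0 hθ0 hθ1
  refine ⟨ε1, hε1, κ, hκ, fun J0 => ?_⟩
  obtain ⟨σ, hσ, H0, hG4'⟩ := hG4 J0
  obtain ⟨JF, hG3⟩ := fourier_soft k (σ / 2) (by positivity)
  refine ⟨max JF ⌈Y⌉₊, max H0 2, ?_, ?_⟩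
  · exact (Nat.le_ceil Y).trans (by exact_mod_cast le_max_right _ _)
  intro H hH c hc hM
  have hH0 : H0 ≤ H := (le_max_left _ _).trans hH
  have hH2 : 2 ≤ H := (le_max_right _ _).trans hH
  have hHpos : (0:ℝ) < H := by
    have : 0 < H := by omega
    exact_mod_cast this
  have hper := hG4' H hH0 Y c hc hM
  choose P hPcard hPle hPsum using hper
  have hne : NeZero (2 * H) := ⟨by omega⟩
  set m : ℕ := ⌊θ * H⌋₊ with hm
  have hPm : ∀ i, ∀ τ ∈ P i, τ ≤ m := by
    intro i τ hτ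
    exact Nat.le_floor (hPle i τ hτ)
  have hmr : 2 * (r + 1) * m ≤ H := by
    have h1 : (m:ℝ) ≤ θ * H := Nat.floor_le (by positivity)
    have h2 : (2 * ((r:ℝ) + 1)) * m ≤ H := by
      calc (2 * ((r:ℝ) + 1)) * m ≤ (2 * ((r:ℝ) + 1)) * (θ * H) :=
            mul_le_mul_of_nonneg_left h1 (by positivity)
        _ = H := by
            rw [hθ]
            field_simp
    exact_mod_cast h2
  have hbd : (H + 1) + r * m ≤ 2 * H := by
    have h3 : 2 * (r + 1) * m = 2 * (r * m) + 2 * m := by ring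
    omega
  have hPQ : ∀ i, ∀ τ ∈ P i, τ < 2 * H := by
    intro i τ hτ
    have h1 := hPm i τ hτ
    have h3 : 2 * (r + 1) * m = 2 * (r * m) + 2 * m := by ring
    have h4 : 0 ≤ r * m := Nat.zero_le _
    omega
  have hPne : ∀ i, (P i).Nonempty := by
    intro i
    rw [← Finset.card_pos]
    have h1 := hPcard i
    have h2 : 0 < σ * H := by positivity
    have h3 : (0:ℝ) < (P i).card := lt_of_lt_of_le h2 h1
    exact_mod_cast h3
  set c' : (Fin k → ℕ) → ℝ := fun d => c (Fin.cons 0 d) with hc'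
  have hiter := iter (k := k) (Q := 2 * H) (m := m) P hPQ hPm hPne c' (δ * (H:ℝ) ^ k)
    (fun i τ hτ => hPsum i τ hτ) r (H + 1) hbd
  set P' : Fin k → Finset (ZMod (2 * H)) :=
    fun i => (P i).image (fun τ : ℕ => (τ : ZMod (2 * H))) with hP'
  set f : (Fin k → ZMod (2 * H)) → ℝ := fun z => c' (fun i => (z i).val) with hf
  have hP'card : ∀ i, (σ / 2) * ((2 * H : ℕ) : ℝ) ≤ ((P' i).card : ℝ) := by
    intro i
    have h1 : (P' i).card = (P i).card := by
      refine Finset.card_image_of_injOn ?_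
      intro τ hτ τ' hτ' h
      have h3 := hPQ i _ hτ
      have h4 := hPQ i _ hτ'
      have h5 := congrArg ZMod.val h
      simp only at h5
      rwa [ZMod.val_natCast, ZMod.val_natCast, Nat.mod_eq_of_lt h3, Nat.mod_eq_of_lt h4] at h5
    rw [h1]
    refine le_trans (le_of_eq ?_) (hPcard i)
    push_cast
    ring
  have hfY : ∀ d, |f d| ≤ Y := by
    intro d
    rw [abs_of_nonneg (hc.nonneg _)]
    exact hc.le _
  obtain ⟨S, a, hScard, ha, hsum⟩ := hG3 (2 * H) P' hP'card r Y f hfY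
  obtain ⟨α, a', b', hab, htrig⟩ := exists_trig (k := k) (Q := 2 * H) (J := max JF ⌈Y⌉₊) S
    (hScard.trans (le_max_left _ _)) Y hY.le a ha
  refine ⟨α, a', b', hab, ?_⟩
  have hsub : Fintype.piFinset (fun _ : Fin k => Finset.Icc 1 H) ⊆ BB k (H + 1) := by
    intro d hd
    rw [mem_BB]
    rw [Fintype.mem_piFinset] at hd
    intro i
    have := Finset.mem_Icc.mp (hd i)
    omega
  have hA : ∑ d ∈ Fintype.piFinset (fun _ : Fin k => Finset.Icc 1 H),
      |(shiftAv P')^[r] f (fun i => (d i : ZMod (2 * H))) - c' d| ≤ ε / 2 * (H:ℝ) ^ k := by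
    refine (Finset.sum_le_sum_of_subset_of_nonneg hsub (fun d _ _ => abs_nonneg _)).trans
      (hiter.trans ?_)
    have h1 : (r:ℝ) * (k * (δ * (H:ℝ) ^ k)) = (r / (r + 1)) * (ε / 2 * (H:ℝ) ^ k) := by
      rw [hδ]
      field_simp
    rw [h1]
    refine mul_le_of_le_one_left (by positivity) ?_
    rw [div_le_one (by positivity)]
    linarith
  have hB : ∑ d ∈ Fintype.piFinset (fun _ : Fin k => Finset.Icc 1 H),
      |(shiftAv P')^[r] f (fun i => (d i : ZMod (2 * H))) - trig α a' b' d| ≤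
      ε / 2 * (H:ℝ) ^ k := by
    have hinj : Set.InjOn (fun (d : Fin k → ℕ) (i : Fin k) => (d i : ZMod (2 * H)))
        (Fintype.piFinset (fun _ : Fin k => Finset.Icc 1 H) : Finset (Fin k → ℕ)) := by
      intro d hd d' hd' h
      have h1 := mem_BB.mp (hsub hd)
      have h2 := mem_BB.mp (hsub hd')
      funext i
      have h3 := h1 i
      have h4 := h2 i
      have h5 := congrArg ZMod.val (congrFun h i)
      simp only at h5
      rwa [ZMod.val_natCast, ZMod.val_natCast, Nat.mod_eq_of_lt (by omega),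
        Nat.mod_eq_of_lt (by omega)] at h5
    calc ∑ d ∈ Fintype.piFinset (fun _ : Fin k => Finset.Icc 1 H),
        |(shiftAv P')^[r] f (fun i => (d i : ZMod (2 * H))) - trig α a' b' d| ≤
        ∑ d ∈ Fintype.piFinset (fun _ : Fin k => Finset.Icc 1 H),
          ‖(((shiftAv P')^[r] f (fun i => (d i : ZMod (2 * H))) : ℝ) : ℂ) -
          ∑ ξ ∈ Fintype.piFinset (fun _ : Fin k => S),
            a ξ * ∏ i, (ZMod.stdAddChar (ξ i * (d i : ZMod (2 * H))) : ℂ)‖ := by
          refine Finset.sum_le_sum fun d _ => ?_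
          rw [htrig d]
          refine le_trans (le_of_eq ?_) (Complex.abs_re_le_norm _)
          rw [Complex.sub_re, Complex.ofReal_re]
      _ = ∑ z ∈ (Fintype.piFinset (fun _ : Fin k => Finset.Icc 1 H)).image
            (fun (d : Fin k → ℕ) (i : Fin k) => (d i : ZMod (2 * H))),
          ‖(((shiftAv P')^[r] f z : ℝ) : ℂ) -
          ∑ ξ ∈ Fintype.piFinset (fun _ : Fin k => S),
            a ξ * ∏ i, (ZMod.stdAddChar (ξ i * z i) : ℂ)‖ := by
          rw [Finset.sum_image hinj]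
      _ ≤ ∑ z : Fin k → ZMod (2 * H),
          ‖(((shiftAv P')^[r] f z : ℝ) : ℂ) -
          ∑ ξ ∈ Fintype.piFinset (fun _ : Fin k => S),
            a ξ * ∏ i, (ZMod.stdAddChar (ξ i * z i) : ℂ)‖ :=
          Finset.sum_le_sum_of_subset_of_nonneg (Finset.subset_univ _)
            (fun _ _ _ => norm_nonneg _)
      _ ≤ (1 / 2) ^ r * Y * ((2 * H : ℕ) : ℝ) ^ k := hsum
      _ = ((1 / 2) ^ r * Y * 2 ^ k) * (H:ℝ) ^ k := by
          push_cast
          rw [mul_pow]
          ring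
      _ ≤ ε / 2 * (H:ℝ) ^ k := mul_le_mul_of_nonneg_right hr (by positivity)
  calc ∑ d ∈ Fintype.piFinset (fun _ : Fin k => Finset.Icc 1 H),
        |c (Fin.cons 0 d) - trig α a' b' d| ≤
      ∑ d ∈ Fintype.piFinset (fun _ : Fin k => Finset.Icc 1 H),
        (|(shiftAv P')^[r] f (fun i => (d i : ZMod (2 * H))) - c' d| +
        |(shiftAv P')^[r] f (fun i => (d i : ZMod (2 * H))) - trig α a' b' d|) := by
        refine Finset.sum_le_sum fun d _ => ?_
        rw [abs_sub_comm ((shiftAv P')^[r] f (fun i => (d i : ZMod (2 * H)))) (c' d)]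
        exact abs_sub_le _ _ _
    _ ≤ ε / 2 * (H:ℝ) ^ k + ε / 2 * (H:ℝ) ^ k := by
        rw [Finset.sum_add_distrib]
        exact add_le_add hA hB
    _ = ε * (H:ℝ) ^ k := by ring

end Pool.Agent.HLT
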