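import Mathlib
import Pool.Agent.HLT.ApDefs

set_option autoImplicit false

open Finset

namespace Pool.Agent.HLT

private lemma stdAddChar_sum {Q : ℕ} [NeZero Q] (a : ZMod Q) :
    ∑ ξ : ZMod Q, ZMod.stdAddChar (ξ * a) = if a = 0 then (Q : ℂ) else 0 := by
  have h := AddChar.sum_mulShift a (ZMod.isPrimitive_stdAddChar Q)
  rw [h]
  simp [ZMod.card]

/-- inversion for `fh` -/
theorem fh_inv {Q : ℕ} [NeZero Q] (f : ZMod Q → ℂ) (t : ZMod Q) :
    f t = ∑ ξ, fh f ξ * ZMod.stdAddChar (ξ * t) := by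
  have hQ : (Q : ℂ) ≠ 0 := Nat.cast_ne_zero.mpr (NeZero.ne Q)
  have h1 : ∀ ξ : ZMod Q, fh f ξ * ZMod.stdAddChar (ξ * t) =
      (∑ s, f s * ZMod.stdAddChar (ξ * (t - s))) / (Q : ℂ) := by
    intro ξ
    unfold fh
    rw [div_mul_eq_mul_div, Finset.sum_mul]
    congr 1
    refine Finset.sum_congr rfl fun s _ => ?_
    rw [mul_assoc, ← AddChar.map_add_eq_mul]
    congr 2
    ring
  rw [Finset.sum_congr rfl fun ξ _ => h1 ξ, ← Finset.sum_div, Finset.sum_comm]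
  have h2 : ∀ s : ZMod Q, ∑ ξ : ZMod Q, f s * ZMod.stdAddChar (ξ * (t - s)) =
      f s * if t - s = 0 then (Q : ℂ) else 0 := by
    intro s
    rw [← Finset.mul_sum, stdAddChar_sum]
  rw [Finset.sum_congr rfl fun s _ => h2 s]
  rw [Finset.sum_eq_single t]
  · rw [sub_self, if_pos rfl]
    field_simp
  · intro s _ hs
    rw [if_neg (sub_ne_zero.mpr hs.symm), mul_zero]
  · intro h
    exact absurd (Finset.mem_univ t) h

private lemma conj_stdAddChar {Q : ℕ} [NeZero Q] (a : ZMod Q) :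
    (starRingEnd ℂ) (ZMod.stdAddChar a) = ZMod.stdAddChar (-a) := by
  rw [AddChar.map_neg_eq_conj]

/-- Parseval for `fh` -/
theorem fh_parseval {Q : ℕ} [NeZero Q] (f : ZMod Q → ℂ) :
    ∑ ξ, ‖fh f ξ‖ ^ 2 = (∑ t, ‖f t‖ ^ 2) / Q := by
  have hQ : (Q : ℂ) ≠ 0 := Nat.cast_ne_zero.mpr (NeZero.ne Q)
  have key : ((∑ ξ, ‖fh f ξ‖ ^ 2 : ℝ) : ℂ) = (((∑ t, ‖f t‖ ^ 2) / Q : ℝ) : ℂ) := by
    have h1 : ((∑ ξ, ‖fh f ξ‖ ^ 2 : ℝ) : ℂ) = ∑ ξ, fh f ξ * (starRingEnd ℂ) (fh f ξ) := by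
      push_cast
      refine Finset.sum_congr rfl fun ξ _ => ?_
      rw [Complex.mul_conj, Complex.normSq_eq_norm_sq]
      push_cast
      rfl
    have h2 : ∀ ξ : ZMod Q, (starRingEnd ℂ) (fh f ξ) =
        (∑ t, (starRingEnd ℂ) (f t) * ZMod.stdAddChar (ξ * t)) / (Q : ℂ) := by
      intro ξ
      unfold fh
      rw [map_div₀, map_sum]
      have h3 : (starRingEnd ℂ) (Q : ℂ) = (Q : ℂ) := Complex.conj_natCast Q
      rw [h3]
      congr 1
      refine Finset.sum_congr rfl fun t _ => ?_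
      rw [map_mul, conj_stdAddChar, neg_neg]
    have h4 : ∀ ξ : ZMod Q, fh f ξ * (starRingEnd ℂ) (fh f ξ) =
        (∑ t, (starRingEnd ℂ) (f t) * (fh f ξ * ZMod.stdAddChar (ξ * t))) / (Q : ℂ) := by
      intro ξ
      rw [h2 ξ, mul_div_assoc', Finset.mul_sum]
      congr 1
      refine Finset.sum_congr rfl fun t _ => ?_
      ring
    rw [h1, Finset.sum_congr rfl fun ξ _ => h4 ξ, ← Finset.sum_div, Finset.sum_comm]
    have h5 : ∀ t : ZMod Q, ∑ ξ : ZMod Q, (starRingEnd ℂ) (f t) *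
        (fh f ξ * ZMod.stdAddChar (ξ * t)) = ((‖f t‖ ^ 2 : ℝ) : ℂ) := by
      intro t
      rw [← Finset.mul_sum, ← fh_inv, mul_comm, Complex.mul_conj, Complex.normSq_eq_norm_sq]
    rw [Finset.sum_congr rfl fun t _ => h5 t]
    push_cast
    rfl
  exact_mod_cast key

end Pool.Agent.HLT
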