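import Mathlib
import Pool.Agent.HLT.ApDefs
import Pool.Agent.HLT.ApTrunc

set_option autoImplicit false

open Finset

namespace Pool.Agent.HLT

namespace ApBohrAux

variable {Q : ℕ} [NeZero Q]

lemma norm_e (x : ZMod Q) : ‖(ZMod.stdAddChar x : ℂ)‖ = 1 := AddChar.norm_apply _ _

lemma conj_e (x : ZMod Q) : (starRingEnd ℂ) (ZMod.stdAddChar x : ℂ) = ZMod.stdAddChar (-x) :=
  (AddChar.map_neg_eq_conj _ _).symm

lemma orth (a : ZMod Q) : ∑ h, (ZMod.stdAddChar (a * h) : ℂ) = if a = 0 then (Q : ℂ) else 0 := by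
  have h := AddChar.sum_mulShift (R := ZMod Q) (R' := ℂ) (ψ := ZMod.stdAddChar) a
    (ZMod.isPrimitive_stdAddChar Q)
  rw [ZMod.card, Nat.cast_ite, Nat.cast_zero] at h
  rw [← h]
  exact Finset.sum_congr rfl fun x _ => by rw [mul_comm]

lemma planch (a : ZMod Q → ℂ) :
    ∑ h, ‖∑ ξ, a ξ * ZMod.stdAddChar (ξ * h)‖ ^ 2 = Q * ∑ ξ, ‖a ξ‖ ^ 2 := by
  have key : ((∑ h, ‖∑ ξ, a ξ * ZMod.stdAddChar (ξ * h)‖ ^ 2 : ℝ) : ℂ) =
      ((Q * ∑ ξ, ‖a ξ‖ ^ 2 : ℝ) : ℂ) := by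
    push_cast
    have h1 : ∀ h : ZMod Q, ((‖∑ ξ, a ξ * ZMod.stdAddChar (ξ * h)‖ : ℂ)) ^ 2 =
        ∑ ξ, ∑ ξ', a ξ * (starRingEnd ℂ) (a ξ') * ZMod.stdAddChar ((ξ - ξ') * h) := by
      intro h
      rw [← Complex.mul_conj', map_sum, Finset.sum_mul_sum]
      refine Finset.sum_congr rfl fun ξ _ => Finset.sum_congr rfl fun ξ' _ => ?_
      rw [map_mul (starRingEnd ℂ), conj_e, sub_mul, sub_eq_add_neg, AddChar.map_add_eq_mul]
      ring
    calc ∑ h, ((‖∑ ξ, a ξ * ZMod.stdAddChar (ξ * h)‖ : ℂ)) ^ 2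
        = ∑ h, ∑ ξ, ∑ ξ', a ξ * (starRingEnd ℂ) (a ξ') * ZMod.stdAddChar ((ξ - ξ') * h) :=
          Finset.sum_congr rfl fun h _ => h1 h
      _ = ∑ ξ, ∑ ξ', ∑ h, a ξ * (starRingEnd ℂ) (a ξ') * ZMod.stdAddChar ((ξ - ξ') * h) := by
          rw [Finset.sum_comm]
          exact Finset.sum_congr rfl fun ξ _ => Finset.sum_comm
      _ = ∑ ξ, ∑ ξ', a ξ * (starRingEnd ℂ) (a ξ') * (if ξ - ξ' = 0 then (Q : ℂ) else 0) := by
          refine Finset.sum_congr rfl fun ξ _ => Finset.sum_congr rfl fun ξ' _ => ?_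
          rw [← Finset.mul_sum, orth]
      _ = (Q : ℂ) * ∑ ξ, (‖a ξ‖ : ℂ) ^ 2 := by
          rw [Finset.mul_sum]
          refine Finset.sum_congr rfl fun ξ _ => ?_
          rw [Finset.sum_eq_single ξ]
          · rw [sub_self, if_pos rfl, Complex.mul_conj']; ring
          · intro b _ hb
            rw [if_neg (sub_ne_zero.2 hb.symm), mul_zero]
          · simp
  exact_mod_cast key

/-- exponential sum over `Λ` -/
noncomputable def AA (Λ : Finset (ZMod Q)) (ξ : ZMod Q) : ℂ := ∑ x ∈ Λ, ZMod.stdAddChar (ξ * x)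

/-- multiplier -/
noncomputable def bet (Λ : Finset (ZMod Q)) (ξ : ZMod Q) : ℝ := ‖AA Λ ξ‖ ^ 2 / (Λ.card : ℝ) ^ 2

lemma bet_nonneg (Λ : Finset (ZMod Q)) (ξ : ZMod Q) : 0 ≤ bet Λ ξ := by unfold bet; positivity

lemma norm_AA_le (Λ : Finset (ZMod Q)) (ξ : ZMod Q) : ‖AA Λ ξ‖ ≤ Λ.card := by
  unfold AA
  refine (norm_sum_le _ _).trans ?_
  simp [norm_e]

lemma bet_le_one (Λ : Finset (ZMod Q)) (hΛ : Λ.Nonempty) (ξ : ZMod Q) : bet Λ ξ ≤ 1 := by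
  unfold bet
  have hc : (0 : ℝ) < Λ.card := by exact_mod_cast hΛ.card_pos
  rw [div_le_one (by positivity)]
  exact pow_le_pow_left₀ (norm_nonneg _) (norm_AA_le Λ ξ) 2

lemma sum_bet (Λ : Finset (ZMod Q)) (hΛ : Λ.Nonempty) : ∑ ξ, bet Λ ξ = Q / Λ.card := by
  have hc : (0 : ℝ) < Λ.card := by exact_mod_cast hΛ.card_pos
  have h := planch (Q := Q) (fun x => if x ∈ Λ then (1 : ℂ) else 0)
  have h1 : ∀ ξ : ZMod Q, ∑ x, (if x ∈ Λ then (1 : ℂ) else 0) * ZMod.stdAddChar (x * ξ) =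
      AA Λ ξ := by
    intro ξ
    unfold AA
    simp only [ite_mul, one_mul, zero_mul]
    rw [Finset.sum_ite_mem, Finset.univ_inter]
    exact Finset.sum_congr rfl fun x _ => by rw [mul_comm]
  simp only [h1] at h
  have h2 : ∑ ξ : ZMod Q, ‖(if ξ ∈ Λ then (1 : ℂ) else 0)‖ ^ 2 = (Λ.card : ℝ) := by
    have : ∀ ξ : ZMod Q, ‖(if ξ ∈ Λ then (1 : ℂ) else 0)‖ ^ 2 = if ξ ∈ Λ then (1 : ℝ) else 0 := by
      intro ξ; split_ifs <;> simp
    simp only [this]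
    rw [Finset.sum_ite_mem, Finset.univ_inter]; simp
  rw [h2] at h
  unfold bet
  rw [← Finset.sum_div, h]
  field_simp

lemma one_sub_bet_le (Λ : Finset (ZMod Q)) (hΛ : Λ.Nonempty) (ξ : ZMod Q) (ρ : ℝ) (hρ : ρ ≤ 1)
    (h : ∀ x ∈ Λ, ‖(ZMod.stdAddChar (ξ * x) : ℂ) - 1‖ ≤ ρ) : 1 - bet Λ ξ ≤ 2 * ρ := by
  have hc : (0 : ℝ) < Λ.card := by exact_mod_cast hΛ.card_pos
  have h1 : ‖AA Λ ξ - Λ.card‖ ≤ Λ.card * ρ := by
    have : AA Λ ξ - Λ.card = ∑ x ∈ Λ, ((ZMod.stdAddChar (ξ * x) : ℂ) - 1) := by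
      unfold AA; rw [Finset.sum_sub_distrib]; simp
    rw [this]
    refine (norm_sum_le _ _).trans ?_
    refine (Finset.sum_le_sum h).trans ?_
    simp
  have h2 : (Λ.card : ℝ) * (1 - ρ) ≤ ‖AA Λ ξ‖ := by
    have h3 : ‖(Λ.card : ℂ)‖ ≤ ‖AA Λ ξ‖ + ‖AA Λ ξ - Λ.card‖ := by
      have h4 : (Λ.card : ℂ) = AA Λ ξ - (AA Λ ξ - Λ.card) := by ring
      calc ‖(Λ.card : ℂ)‖ = ‖AA Λ ξ - (AA Λ ξ - Λ.card)‖ := by rw [← h4]
        _ ≤ _ := norm_sub_le _ _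
    have h5 : ‖(Λ.card : ℂ)‖ = (Λ.card : ℝ) := by simp
    rw [h5] at h3
    linarith
  have h3 : (1 - ρ) ^ 2 ≤ bet Λ ξ := by
    unfold bet
    rw [le_div_iff₀ (by positivity), ← mul_pow]
    refine pow_le_pow_left₀ (mul_nonneg (by linarith) hc.le) ?_ 2
    linarith
  nlinarith [sq_nonneg ρ]

/-- average of translates -/
noncomputable def TT (Λ : Finset (ZMod Q)) (f : ZMod Q → ℂ) (h : ZMod Q) : ℂ :=
  (∑ x ∈ Λ, ∑ y ∈ Λ, f (h + x - y)) / (Λ.card : ℂ) ^ 2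

lemma TT_char (Λ : Finset (ZMod Q)) (ξ h : ZMod Q) :
    TT Λ (fun h => ZMod.stdAddChar (ξ * h)) h = bet Λ ξ * ZMod.stdAddChar (ξ * h) := by
  unfold TT bet
  push_cast
  rw [← Complex.mul_conj']
  have h1 : ∑ x ∈ Λ, ∑ y ∈ Λ, (ZMod.stdAddChar (ξ * (h + x - y)) : ℂ) =
      AA Λ ξ * (starRingEnd ℂ) (AA Λ ξ) * ZMod.stdAddChar (ξ * h) := by
    unfold AA
    rw [map_sum, Finset.sum_mul_sum, Finset.sum_mul]
    refine Finset.sum_congr rfl fun x _ => ?_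
    rw [Finset.sum_mul]
    refine Finset.sum_congr rfl fun y _ => ?_
    rw [conj_e]
    have : ξ * (h + x - y) = ξ * x + (-(ξ * y)) + ξ * h := by ring
    rw [this, AddChar.map_add_eq_mul, AddChar.map_add_eq_mul]
  rw [h1]; ring

omit [NeZero Q] in
lemma TT_sum {ι : Type} (s : Finset ι) (Λ : Finset (ZMod Q)) (b : ι → ℂ) (f : ι → ZMod Q → ℂ)
    (h : ZMod Q) :
    TT Λ (fun h => ∑ i ∈ s, b i * f i h) h = ∑ i ∈ s, b i * TT Λ (f i) h := by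
  unfold TT
  have h1 : ∑ x ∈ Λ, ∑ y ∈ Λ, ∑ i ∈ s, b i * f i (h + x - y) =
      ∑ i ∈ s, b i * ∑ x ∈ Λ, ∑ y ∈ Λ, f i (h + x - y) := by
    calc ∑ x ∈ Λ, ∑ y ∈ Λ, ∑ i ∈ s, b i * f i (h + x - y)
        = ∑ x ∈ Λ, ∑ i ∈ s, ∑ y ∈ Λ, b i * f i (h + x - y) :=
          Finset.sum_congr rfl fun x _ => Finset.sum_comm
      _ = ∑ i ∈ s, ∑ x ∈ Λ, ∑ y ∈ Λ, b i * f i (h + x - y) := Finset.sum_comm
      _ = _ := by
          refine Finset.sum_congr rfl fun i _ => ?_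
          rw [Finset.mul_sum]
          exact Finset.sum_congr rfl fun x _ => by rw [Finset.mul_sum]
  rw [h1, Finset.sum_div]
  exact Finset.sum_congr rfl fun i _ => by ring

omit [NeZero Q] in
lemma TT_sub (Λ : Finset (ZMod Q)) (f g : ZMod Q → ℂ) (h : ZMod Q) :
    TT Λ (fun h => f h - g h) h = TT Λ f h - TT Λ g h := by
  unfold TT
  rw [← sub_div]
  congr 1
  rw [← Finset.sum_sub_distrib]
  exact Finset.sum_congr rfl fun x _ => by rw [← Finset.sum_sub_distrib]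

lemma TT_L1 (Λ : Finset (ZMod Q)) (hΛ : Λ.Nonempty) (f : ZMod Q → ℂ) :
    ∑ h, ‖TT Λ f h‖ ≤ ∑ h, ‖f h‖ := by
  have hc : (0 : ℝ) < Λ.card := by exact_mod_cast hΛ.card_pos
  have h1 : ∀ h, ‖TT Λ f h‖ ≤ (∑ x ∈ Λ, ∑ y ∈ Λ, ‖f (h + x - y)‖) / (Λ.card : ℝ) ^ 2 := by
    intro h
    unfold TT
    rw [norm_div, norm_pow, Complex.norm_natCast]
    refine div_le_div_of_nonneg_right ?_ (by positivity)
    refine (norm_sum_le _ _).trans ?_
    exact Finset.sum_le_sum fun x _ => norm_sum_le _ _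
  refine (Finset.sum_le_sum fun h _ => h1 h).trans ?_
  rw [← Finset.sum_div, div_le_iff₀ (by positivity)]
  have h2 : ∑ h, ∑ x ∈ Λ, ∑ y ∈ Λ, ‖f (h + x - y)‖ = ∑ x ∈ Λ, ∑ y ∈ Λ, ∑ h, ‖f (h + x - y)‖ := by
    rw [Finset.sum_comm]
    exact Finset.sum_congr rfl fun x _ => Finset.sum_comm
  rw [h2]
  have h3 : ∀ x y : ZMod Q, ∑ h, ‖f (h + x - y)‖ = ∑ h, ‖f h‖ := by
    intro x y
    have : ∀ h : ZMod Q, h + x - y = (Equiv.addRight (x - y)) h := by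
      intro h; simp [add_sub_assoc]
    simp only [this]
    exact Equiv.sum_comp (Equiv.addRight (x - y)) (fun h => ‖f h‖)
  simp only [h3]
  simp
  nlinarith

/-- pigeonhole -/
lemma exists_bohr (R : ℕ) (ρ : ℝ) (hρ : 0 < ρ) : ∃ N : ℕ, 1 ≤ N ∧ ∀ (Q : ℕ) [NeZero Q]
    (ξ : Fin R → ZMod Q), ∃ Λ : Finset (ZMod Q), Λ.Nonempty ∧ (Q : ℝ) ≤ N * Λ.card ∧
      ∀ x ∈ Λ, ∀ i, ‖(ZMod.stdAddChar (ξ i * x) : ℂ) - 1‖ ≤ ρ := by
  classical
  obtain ⟨t, -, htf, ht⟩ := (isCompact_sphere (0 : ℂ) 1).finite_cover_balls (half_pos hρ)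
  have hc : ∀ z : ℂ, ‖z‖ = 1 → ∃ y ∈ t, dist z y < ρ / 2 := by
    intro z hz
    have := ht (by simpa using hz : z ∈ Metric.sphere (0 : ℂ) 1)
    simpa using this
  have : Fintype t := htf.fintype
  have hne : Nonempty t := by
    obtain ⟨y, hy, -⟩ := hc 1 (by simp)
    exact ⟨⟨y, hy⟩⟩
  have hc' : ∀ z : ℂ, ∃ y : t, ‖z‖ = 1 → dist z y < ρ / 2 := by
    intro z
    by_cases hz : ‖z‖ = 1
    · obtain ⟨y, hy, h⟩ := hc z hz
      exact ⟨⟨y, hy⟩, fun _ => h⟩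
    · exact ⟨hne.some, fun h => absurd h hz⟩
  choose c hc2 using hc'
  refine ⟨Fintype.card (Fin R → t), Fintype.card_pos, ?_⟩
  intro Q _ ξ
  let F : ZMod Q → (Fin R → t) := fun h i => c (ZMod.stdAddChar (ξ i * h))
  obtain ⟨v, -, hv⟩ := Finset.exists_le_card_fiber_of_nsmul_le_card_of_maps_to
    (s := (Finset.univ : Finset (ZMod Q))) (t := (Finset.univ : Finset (Fin R → t))) (f := F)
    (b := (Q : ℝ) / Fintype.card (Fin R → t)) (fun _ _ => Finset.mem_univ _)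
    Finset.univ_nonempty (by
      rw [Finset.card_univ, Finset.card_univ, ZMod.card, nsmul_eq_mul]
      have : (0 : ℝ) < Fintype.card (Fin R → t) := by exact_mod_cast Fintype.card_pos
      field_simp; exact le_rfl)
  set S := Finset.univ.filter (fun x : ZMod Q => F x = v) with hS
  have hNpos : (0 : ℝ) < Fintype.card (Fin R → t) := by exact_mod_cast Fintype.card_pos
  have hQpos : (0 : ℝ) < Q := by exact_mod_cast Nat.pos_of_ne_zero (NeZero.ne Q)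
  have hSpos : (0 : ℝ) < S.card := lt_of_lt_of_le (by positivity) hv
  have hSne : S.Nonempty := by
    rw [← Finset.card_pos]; exact_mod_cast hSpos
  obtain ⟨x0, hx0⟩ := hSne
  refine ⟨S.image (fun x => x - x0), ⟨x0 - x0, Finset.mem_image_of_mem _ hx0⟩, ?_, ?_⟩
  · rw [Finset.card_image_of_injective _ (fun a b h => by simpa using h)]
    rw [div_le_iff₀ hNpos] at hv
    linarith
  · intro x hx i
    obtain ⟨y, hy, rfl⟩ := Finset.mem_image.1 hx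
    have hy2 : F y = v := (Finset.mem_filter.1 hy).2
    have hx2 : F x0 = v := (Finset.mem_filter.1 hx0).2
    have h1 : c (ZMod.stdAddChar (ξ i * y)) = c (ZMod.stdAddChar (ξ i * x0)) := by
      have := congrFun (hy2.trans hx2.symm) i
      exact this
    have h2 := hc2 (ZMod.stdAddChar (ξ i * y)) (norm_e _)
    have h3 := hc2 (ZMod.stdAddChar (ξ i * x0)) (norm_e _)
    rw [h1] at h2
    have h4 : dist (ZMod.stdAddChar (ξ i * y) : ℂ) (ZMod.stdAddChar (ξ i * x0)) ≤ ρ := by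
      have := dist_triangle_right (ZMod.stdAddChar (ξ i * y) : ℂ) (ZMod.stdAddChar (ξ i * x0))
        (c (ZMod.stdAddChar (ξ i * x0)))
      linarith
    have h5 : (ZMod.stdAddChar (ξ i * (y - x0)) : ℂ) - 1 =
        ((ZMod.stdAddChar (ξ i * y) : ℂ) - ZMod.stdAddChar (ξ i * x0)) *
          ZMod.stdAddChar (-(ξ i * x0)) := by
      rw [sub_mul, ← AddChar.map_add_eq_mul, ← AddChar.map_add_eq_mul, add_neg_cancel,
        AddChar.map_zero_eq_one]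
      congr 3
      ring
    rw [h5, norm_mul, norm_e, mul_one, ← dist_eq_norm]
    exact h4

lemma pad {R' : ℕ} (K : Finset (ZMod Q)) (hK : K.card ≤ R') (m : ZMod Q → ℝ) (C : ℝ)
    (hC : 0 ≤ C) (hm : ∀ ξ, 0 ≤ m ξ ∧ m ξ ≤ C) :
    ∃ (η : Fin R' → ZMod Q) (μ : Fin R' → ℝ), (∀ i, 0 ≤ μ i ∧ μ i ≤ C) ∧
      ∀ h, ∑ i, (μ i : ℂ) * ZMod.stdAddChar (η i * h) =
        ∑ ξ ∈ K, (m ξ : ℂ) * ZMod.stdAddChar (ξ * h) := by
  classical
  obtain ⟨emb⟩ : Nonempty (K ↪ Fin R') := Function.Embedding.nonempty_of_card_le (by simpa using hK)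
  refine ⟨Function.extend emb (fun x => x.1) (fun _ => 0),
    Function.extend emb (fun x => m x.1) (fun _ => 0), ?_, ?_⟩
  · intro i
    by_cases hi : ∃ x, emb x = i
    · obtain ⟨x, rfl⟩ := hi
      rw [emb.injective.extend_apply]; exact hm _
    · rw [Function.extend_apply' _ _ _ hi]; exact ⟨le_rfl, hC⟩
  · intro h
    rw [← Finset.sum_coe_sort K (fun ξ => (m ξ : ℂ) * ZMod.stdAddChar (ξ * h))]
    refine (Fintype.sum_of_injective emb emb.injective _ _ ?_ ?_).symm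
    · intro i hi
      rw [Function.extend_apply' _ _ i (by simpa using hi)]
      simp
    · intro x
      rw [emb.injective.extend_apply, emb.injective.extend_apply]

lemma norm_fh_le (f : ZMod Q → ℂ) (ξ : ZMod Q) (C : ℝ) (h : ∑ t, ‖f t‖ ≤ C * Q) :
    ‖fh f ξ‖ ≤ C := by
  have hQpos : (0 : ℝ) < Q := by exact_mod_cast Nat.pos_of_ne_zero (NeZero.ne Q)
  unfold fh
  rw [norm_div, Complex.norm_natCast, div_le_iff₀ hQpos]
  refine (norm_sum_le _ _).trans ?_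
  simpa [norm_e] using h

end ApBohrAux

open ApBohrAux in
/-- F6: a positive definite function which is close in mean to a bounded trigonometric polynomial is
close in mean to one with nonnegative coefficients. -/
theorem bohr_smooth (R : ℕ) (C ε : ℝ) (hC : 1 ≤ C) (hε : 0 < ε) : ∃ R' : ℕ, ∀ (Q : ℕ) [NeZero Q]
    (k : ZMod Q → ℝ),
    (∀ ξ, (fh (fun h => (k h : ℂ)) ξ).im = 0 ∧ 0 ≤ (fh (fun h => (k h : ℂ)) ξ).re) →
    ∑ h, |k h| ≤ C * Q →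
    ∀ (ξ : Fin R → ZMod Q) (b : Fin R → ℂ), (∀ i, ‖b i‖ ≤ R) →
    ∑ h, ‖(k h : ℂ) - ∑ i, b i * ZMod.stdAddChar (ξ i * h)‖ ≤ ε * Q →
    ∃ (η : Fin R' → ZMod Q) (μ : Fin R' → ℝ), (∀ i, 0 ≤ μ i ∧ μ i ≤ C) ∧
      ∑ h, ‖(k h : ℂ) - ∑ i, (μ i : ℂ) * ZMod.stdAddChar (η i * h)‖ ≤ 4 * ε * Q := by
  classical
  set ρ : ℝ := min 1 (ε / (2 * R ^ 2 + 1)) with hρdef
  have hρ : 0 < ρ := lt_min one_pos (by positivity)
  have hρ1 : ρ ≤ 1 := min_le_left _ _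
  have hρ2 : 2 * (R : ℝ) ^ 2 * ρ ≤ ε := by
    have h1 : ρ ≤ ε / (2 * R ^ 2 + 1) := min_le_right _ _
    rw [le_div_iff₀ (by positivity)] at h1
    nlinarith
  obtain ⟨N, hN1, hN⟩ := exists_bohr R ρ hρ
  have hNpos : (0 : ℝ) < N := by exact_mod_cast hN1
  set δ : ℝ := ε ^ 2 / (C ^ 2 * N) with hδdef
  have hδ : 0 < δ := by positivity
  refine ⟨⌈N / δ⌉₊, ?_⟩
  intro Q _ k hk hk1 ξ b hb hP
  have hQpos : (0 : ℝ) < Q := by exact_mod_cast Nat.pos_of_ne_zero (NeZero.ne Q)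
  obtain ⟨Λ, hΛ, hΛc, hΛρ⟩ := hN Q ξ
  have hcpos : (0 : ℝ) < Λ.card := by exact_mod_cast hΛ.card_pos
  set kc : ZMod Q → ℂ := fun h => (k h : ℂ) with hkc
  set P : ZMod Q → ℂ := fun h => ∑ i, b i * ZMod.stdAddChar (ξ i * h) with hPdef
  set β : ZMod Q → ℝ := bet Λ with hβ
  have hβsum : ∑ ζ, β ζ ≤ N := by
    rw [hβ, sum_bet Λ hΛ, div_le_iff₀ hcpos]; exact hΛc
  have hβ0 : ∀ ζ, 0 ≤ β ζ := bet_nonneg Λ
  have hβ1 : ∀ ζ, β ζ ≤ 1 := bet_le_one Λ hΛ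
  set m : ZMod Q → ℝ := fun ζ => β ζ * (fh kc ζ).re with hm
  have hre : ∀ ζ, (fh kc ζ) = ((fh kc ζ).re : ℂ) := by
    intro ζ
    apply Complex.ext
    · simp
    · simpa using (hk ζ).1
  have hreC : ∀ ζ, (fh kc ζ).re ≤ C := by
    intro ζ
    refine (Complex.re_le_norm _).trans (norm_fh_le kc ζ C ?_)
    simpa [hkc] using hk1
  have hm0 : ∀ ζ, 0 ≤ m ζ ∧ m ζ ≤ C := by
    intro ζ
    refine ⟨mul_nonneg (hβ0 ζ) (hk ζ).2, ?_⟩
    calc m ζ ≤ 1 * (fh kc ζ).re := mul_le_mul_of_nonneg_right (hβ1 ζ) (hk ζ).2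
      _ ≤ C := by rw [one_mul]; exact hreC ζ
  -- the smoothed function
  have hT : ∀ h, TT Λ kc h = ∑ ζ, (m ζ : ℂ) * ZMod.stdAddChar (ζ * h) := by
    intro h
    have h1 : kc = fun h => ∑ ζ, fh kc ζ * ZMod.stdAddChar (ζ * h) := by
      funext t; exact fh_inv kc t
    conv_lhs => rw [h1]
    rw [TT_sum]
    refine Finset.sum_congr rfl fun ζ _ => ?_
    rw [TT_char, hm]
    simp only
    push_cast
    rw [← hre ζ]; ring
  set K : Finset (ZMod Q) := Finset.univ.filter (fun ζ => δ ≤ β ζ) with hKdef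
  have hKcard : K.card ≤ ⌈N / δ⌉₊ := by
    have h1 : (K.card : ℝ) * δ ≤ N := by
      calc (K.card : ℝ) * δ = ∑ _ζ ∈ K, δ := by simp
        _ ≤ ∑ ζ ∈ K, β ζ := Finset.sum_le_sum fun ζ hζ => (Finset.mem_filter.1 hζ).2
        _ ≤ ∑ ζ, β ζ := Finset.sum_le_sum_of_subset_of_nonneg (Finset.subset_univ _)
            fun ζ _ _ => hβ0 ζ
        _ ≤ N := hβsum
    rw [← le_div_iff₀ hδ] at h1
    exact_mod_cast h1.trans (Nat.le_ceil _)
  obtain ⟨η, μ, hμ, hsum⟩ := pad K hKcard m C (by linarith) hm0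
  refine ⟨η, μ, hμ, ?_⟩
  -- error terms
  set E : ZMod Q → ℂ := fun h => ∑ ζ, (if ζ ∈ K then (0 : ℂ) else (m ζ : ℂ)) *
    ZMod.stdAddChar (ζ * h) with hE
  have hTE : ∀ h, TT Λ kc h = (∑ i, (μ i : ℂ) * ZMod.stdAddChar (η i * h)) + E h := by
    intro h
    rw [hT, hsum, hE]
    simp only
    have h1 : ∑ ζ ∈ K, (m ζ : ℂ) * ZMod.stdAddChar (ζ * h) =
        ∑ ζ, (if ζ ∈ K then (m ζ : ℂ) * ZMod.stdAddChar (ζ * h) else 0) := by
      rw [Finset.sum_ite_mem, Finset.univ_inter]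
    rw [h1, ← Finset.sum_add_distrib]
    refine Finset.sum_congr rfl fun ζ _ => ?_
    split_ifs <;> simp
  have hE2 : ∑ h, ‖E h‖ ^ 2 ≤ Q * ε ^ 2 := by
    rw [hE]
    simp only
    rw [planch]
    refine mul_le_mul_of_nonneg_left ?_ hQpos.le
    have h1 : ∀ ζ : ZMod Q, ‖(if ζ ∈ K then (0 : ℂ) else (m ζ : ℂ))‖ ^ 2 ≤ C ^ 2 * δ * β ζ := by
      intro ζ
      split_ifs with h
      · simp; exact mul_nonneg (by positivity) (hβ0 ζ)
      · have h2 : β ζ < δ := by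
          by_contra h3
          exact h (Finset.mem_filter.2 ⟨Finset.mem_univ _, not_lt.1 h3⟩)
        rw [Complex.norm_real, Real.norm_eq_abs, sq_abs, hm]
        simp only
        rw [mul_pow]
        have h3 : (fh kc ζ).re ^ 2 ≤ C ^ 2 := pow_le_pow_left₀ (hk ζ).2 (hreC ζ) 2
        have h4 : β ζ ^ 2 ≤ δ * β ζ := by
          rw [pow_two]; exact mul_le_mul_of_nonneg_right h2.le (hβ0 ζ)
        calc β ζ ^ 2 * (fh kc ζ).re ^ 2 ≤ (δ * β ζ) * C ^ 2 :=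
              mul_le_mul h4 h3 (sq_nonneg _) (mul_nonneg hδ.le (hβ0 ζ))
          _ = C ^ 2 * δ * β ζ := by ring
    refine (Finset.sum_le_sum fun ζ _ => h1 ζ).trans ?_
    rw [← Finset.mul_sum]
    calc C ^ 2 * δ * ∑ ζ, β ζ ≤ C ^ 2 * δ * N := mul_le_mul_of_nonneg_left hβsum (by positivity)
      _ = ε ^ 2 := by rw [hδdef]; field_simp
      _ ≤ ε ^ 2 := le_rfl
  have hE1 : ∑ h, ‖E h‖ ≤ ε * Q := by
    have h1 : (∑ h, ‖E h‖) ^ 2 ≤ (Finset.univ : Finset (ZMod Q)).card * ∑ h, ‖E h‖ ^ 2 :=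
      sq_sum_le_card_mul_sum_sq
    rw [Finset.card_univ, ZMod.card] at h1
    have h2 : (∑ h, ‖E h‖) ^ 2 ≤ (ε * Q) ^ 2 := by
      calc (∑ h, ‖E h‖) ^ 2 ≤ Q * (Q * ε ^ 2) :=
            h1.trans (mul_le_mul_of_nonneg_left hE2 hQpos.le)
        _ = (ε * Q) ^ 2 := by ring
    exact abs_le_of_sq_le_sq' h2 (by positivity) |>.2
  have hPT : ∑ h, ‖P h - TT Λ P h‖ ≤ ε * Q := by
    have h1 : ∀ h, ‖P h - TT Λ P h‖ ≤ ε := by
      intro h
      have h2 : P h - TT Λ P h = ∑ i, b i * ((1 - β (ξ i) : ℝ) : ℂ) * ZMod.stdAddChar (ξ i * h) := by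
        rw [hPdef, TT_sum]
        simp only
        rw [← Finset.sum_sub_distrib]
        refine Finset.sum_congr rfl fun i _ => ?_
        rw [TT_char]
        push_cast; ring
      rw [h2]
      refine (norm_sum_le _ _).trans ?_
      calc ∑ i, ‖b i * ((1 - β (ξ i) : ℝ) : ℂ) * ZMod.stdAddChar (ξ i * h)‖
          ≤ ∑ _i : Fin R, (R : ℝ) * (2 * ρ) := by
            refine Finset.sum_le_sum fun i _ => ?_
            rw [norm_mul, norm_mul, norm_e, mul_one, Complex.norm_real, Real.norm_eq_abs,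
              abs_of_nonneg (by linarith [hβ1 (ξ i)])]
            exact mul_le_mul (hb i) (one_sub_bet_le Λ hΛ (ξ i) ρ hρ1 fun x hx => hΛρ x hx i)
              (by linarith [hβ1 (ξ i)]) (Nat.cast_nonneg _)
        _ = 2 * (R : ℝ) ^ 2 * ρ := by simp; ring
        _ ≤ ε := hρ2
    calc ∑ h, ‖P h - TT Λ P h‖ ≤ ∑ _h : ZMod Q, ε := Finset.sum_le_sum fun h _ => h1 h
      _ = ε * Q := by simp [ZMod.card, mul_comm]
  have hTkP : ∑ h, ‖TT Λ (fun h => kc h - P h) h‖ ≤ ε * Q := (TT_L1 Λ hΛ _).trans hP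
  calc ∑ h, ‖(k h : ℂ) - ∑ i, (μ i : ℂ) * ZMod.stdAddChar (η i * h)‖
      ≤ ∑ h, (‖kc h - P h‖ + ‖P h - TT Λ P h‖ + ‖TT Λ (fun h => kc h - P h) h‖ + ‖E h‖) := by
        refine Finset.sum_le_sum fun h _ => ?_
        have h1 : (k h : ℂ) - ∑ i, (μ i : ℂ) * ZMod.stdAddChar (η i * h) =
            (kc h - P h) + (P h - TT Λ P h) + (-(TT Λ (fun h => kc h - P h) h)) + E h := by
          rw [TT_sub, hTE]; simp only [hkc]; ring
        rw [h1]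
        refine (norm_add_le _ _).trans ?_
        refine add_le_add ((norm_add_le _ _).trans ?_) le_rfl
        rw [norm_neg]
        exact add_le_add (norm_add_le _ _) le_rfl
    _ = ∑ h, ‖kc h - P h‖ + ∑ h, ‖P h - TT Λ P h‖ + ∑ h, ‖TT Λ (fun h => kc h - P h) h‖ +
        ∑ h, ‖E h‖ := by
        rw [Finset.sum_add_distrib, Finset.sum_add_distrib, Finset.sum_add_distrib]
    _ ≤ ε * Q + ε * Q + ε * Q + ε * Q := by
        have h0 : ∑ h, ‖kc h - P h‖ ≤ ε * Q := hP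
        linarith
    _ = 4 * ε * Q := by ring

end Pool.Agent.HLT
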