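import Mathlib
import Pool.Agent.HLT.ApDefs
import Pool.Agent.HLT.PrimesClass
import Pool.Agent.HLT.Sing2
import Pool.Agent.HLT.ApShift
import Pool.Agent.HL26.Assemble
import Pool.Agent.HL26.SieveD
import Pool.Agent.HL26.Second

set_option autoImplicit false

open Finset Filter

namespace Pool.Agent.HLT

open Pool.Agent.HL26 Pool.Agent.Maynard

namespace ApKaux

/-- residues `a` with `a + s` and `a + s'` coprime to `Wp w` -/
def RR (w s s' : ℕ) : Finset ℕ :=
  (Finset.range (Wp w)).filter (fun a => (a + s).Coprime (Wp w) ∧ (a + s').Coprime (Wp w))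

lemma alive_eq (w : ℕ) (E : Finset ℕ) :
    (((Finset.range (Wp w)).filter (fun a => ∀ e ∈ E, (a + e).Coprime (Wp w))).card : ℝ) =
      (Wp w : ℝ) * cW (Wp w) ^ E.card * SP (PPy w) E := by
  classical
  have h1 := SP_eq (PPy w) (PPy_prime w) E
  have hne : NeZero (∏ p ∈ PPy w, p) := ⟨(Wp_pos w).ne'⟩
  have h2 := card_units_eq (PPy w) (PPy_prime w) E
  have h3 : ((Finset.range (Wp w)).filter (fun a => ∀ e ∈ E, (a + e).Coprime (Wp w))).card =
      ∏ p ∈ PPy w, (p - nu E p) := by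
    rw [← h2]
    refine Finset.card_bij' (fun a _ => ((a : ℕ) : ZMod (∏ p ∈ PPy w, p))) (fun z _ => z.val) ?_ ?_ ?_ ?_
    · intro a ha
      rw [Finset.mem_filter] at ha ⊢
      refine ⟨Finset.mem_univ _, fun e he => ?_⟩
      have := ha.2 e he
      have h4 : ((a:ℕ) : ZMod (∏ p ∈ PPy w, p)) + ((e:ℕ) : ZMod (∏ p ∈ PPy w, p)) = ((a + e : ℕ) : ZMod (∏ p ∈ PPy w, p)) := by
        push_cast; rfl
      rw [h4, ZMod.isUnit_iff_coprime]
      exact this
    · intro z hz
      rw [Finset.mem_filter] at hz ⊢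
      refine ⟨Finset.mem_range.2 (ZMod.val_lt z), fun e he => ?_⟩
      have := hz.2 e he
      have h4 : ((z.val + e : ℕ) : ZMod (∏ p ∈ PPy w, p)) = z + (e : ZMod (∏ p ∈ PPy w, p)) := by
        push_cast
        rw [ZMod.natCast_zmod_val]
      rw [← h4, ZMod.isUnit_iff_coprime] at this
      exact this
    · intro a ha
      have := Finset.mem_range.1 (Finset.mem_filter.1 ha).1
      exact ZMod.val_cast_of_lt this
    · intro z _
      exact ZMod.natCast_zmod_val z
  have hW0 : (0:ℝ) < (Wp w : ℝ) := by exact_mod_cast Wp_pos w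
  have hphi : (0:ℝ) < (Nat.totient (Wp w) : ℝ) := by exact_mod_cast Nat.totient_pos.2 (Wp_pos w)
  have h5 : SP (PPy w) E = ((Wp w : ℝ) / (Nat.totient (Wp w) : ℝ)) ^ E.card *
      (((∏ p ∈ PPy w, (p - nu E p) : ℕ) : ℝ) / (Wp w : ℝ)) := h1
  rw [h3, h5]
  unfold cW
  rw [div_pow, div_pow]
  field_simp

lemma card_RR (w s s' : ℕ) (h : s ≠ s') :
    ((RR w s s').card : ℝ) = (Wp w : ℝ) * cW (Wp w) ^ 2 * SP (PPy w) {s, s'} := by
  have h1 := alive_eq w {s, s'}
  rw [Finset.card_pair h] at h1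
  rw [← h1]
  congr 2
  unfold RR
  refine Finset.filter_congr fun a _ => ?_
  simp

lemma card_RR_self (w s : ℕ) :
    ((RR w s s).card : ℝ) = (Nat.totient (Wp w) : ℝ) := by
  have h1 := alive_eq w {s}
  rw [Finset.card_singleton, pow_one] at h1
  have h2 : RR w s s = (Finset.range (Wp w)).filter (fun a => ∀ e ∈ ({s} : Finset ℕ), (a + e).Coprime (Wp w)) := by
    unfold RR
    refine Finset.filter_congr fun a _ => ?_
    simp
  rw [h2, h1]
  have h3 : SP (PPy w) {s} = 1 := by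
    unfold SP
    refine Finset.prod_eq_one fun p hp => ?_
    have hpp := PPy_prime w p hp
    have hnu : nu {s} p = 1 := by unfold nu; simp
    have hp1 : (1:ℝ) < p := by exact_mod_cast hpp.one_lt
    rw [hnu, Finset.card_singleton, pow_one, Nat.cast_one]
    exact inv_mul_cancel₀ (one_sub_inv_pos p hpp).ne'
  have hW0 : (0:ℝ) < (Wp w : ℝ) := by exact_mod_cast Wp_pos w
  rw [h3, mul_one]
  unfold cW
  field_simp

lemma card_RR_le (w s s' : ℕ) : ((RR w s s').card : ℝ) ≤ (Wp w : ℝ) := by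
  have : (RR w s s').card ≤ (Finset.range (Wp w)).card := Finset.card_filter_le _ _
  rw [Finset.card_range] at this
  exact_mod_cast this

lemma prime_coprime (w q : ℕ) (hq : q.Prime) (hwq : w < q) : q.Coprime (Wp w) := by
  rw [Nat.Prime.coprime_iff_not_dvd hq]
  intro h
  obtain ⟨p, hp, hdvd⟩ := (hq.prime.dvd_finsetProd_iff _).1 h
  have h1 := PPy_prime w p hp
  have h2 : q = p := (Nat.prime_dvd_prime_iff_eq hq h1).1 hdvd
  have h3 : p < w + 1 := by
    unfold PPy at hp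
    exact Finset.mem_range.1 (Finset.mem_filter.1 hp).1
  omega

lemma sum_classes (N w : ℕ) (f : ℕ → ℝ) :
    ∑ n ∈ Finset.Ioc N (2 * N), f n = ∑ a ∈ Finset.range (Wp w), ∑ n ∈ XS N w a, f n := by
  have hW := Wp_pos w
  rw [← Finset.sum_fiberwise_of_maps_to (s := Finset.Ioc N (2 * N)) (t := Finset.range (Wp w))
    (g := fun n => n % Wp w) (fun n _ => Finset.mem_range.2 (Nat.mod_lt _ hW))]
  refine Finset.sum_congr rfl fun a ha => ?_
  have ha' := Finset.mem_range.1 ha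
  refine Finset.sum_congr ?_ fun _ _ => rfl
  unfold XS
  refine Finset.filter_congr fun n _ => ?_
  unfold Nat.ModEq
  rw [Nat.mod_eq_of_lt ha']

lemma cop_iff (N w a n s : ℕ) (hn : n ∈ XS N w a) :
    (n + s).Coprime (Wp w) ↔ (a + s).Coprime (Wp w) := by
  unfold XS at hn
  have h1 : n ≡ a [MOD Wp w] := (Finset.mem_filter.1 hn).2
  have h2 : n + s ≡ a + s [MOD Wp w] := h1.add_right s
  unfold Nat.Coprime
  rw [h2.gcd_eq]

/-- number of `n` with `n + s` prime and `n + s'` coprime to `Wp w` -/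
noncomputable def XX (N w s s' : ℕ) : ℝ :=
  (((Finset.Ioc N (2 * N)).filter (fun n => (n + s).Prime ∧ (n + s').Coprime (Wp w))).card : ℝ)

/-- number of `n` with both coprime to `Wp w` -/
noncomputable def YY (N w s s' : ℕ) : ℝ :=
  (((Finset.Ioc N (2 * N)).filter (fun n => (n + s).Coprime (Wp w) ∧ (n + s').Coprime (Wp w))).card : ℝ)

lemma XX_eq (N w s s' : ℕ) (hN : w ≤ N) : XX N w s s' =
    ∑ a ∈ RR w s s', (((XS N w a).filter (fun n => (n + s).Prime)).card : ℝ) := by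
  unfold XX
  rw [← Finset.sum_boole, sum_classes N w]
  unfold RR
  rw [Finset.sum_filter]
  refine Finset.sum_congr rfl fun a _ => ?_
  rw [← Finset.sum_boole]
  split_ifs with h
  · refine Finset.sum_congr rfl fun n hn => ?_
    have h1 := (cop_iff N w a n s' hn).2 h.2
    by_cases hP : (n + s).Prime
    · rw [if_pos ⟨hP, h1⟩, if_pos hP]
    · rw [if_neg (fun h => hP h.1), if_neg hP]
  · refine Finset.sum_eq_zero fun n hn => ?_
    rw [if_neg]
    rintro ⟨h1, h2⟩
    have hn2 := (Finset.mem_Ioc.1 (Finset.mem_filter.1 hn).1)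
    have h3 := prime_coprime w (n + s) h1 (by omega)
    exact h ⟨(cop_iff N w a n s hn).1 h3, (cop_iff N w a n s' hn).1 h2⟩

lemma YY_eq (N w s s' : ℕ) : YY N w s s' = ∑ a ∈ RR w s s', ((XS N w a).card : ℝ) := by
  unfold YY
  rw [← Finset.sum_boole, sum_classes N w]
  unfold RR
  rw [Finset.sum_filter]
  refine Finset.sum_congr rfl fun a _ => ?_
  have h0 : ((XS N w a).card : ℝ) = ∑ n ∈ XS N w a, (1:ℝ) := by simp
  rw [h0]
  split_ifs with h
  · refine Finset.sum_congr rfl fun n hn => ?_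
    have h1 := (cop_iff N w a n s' hn).2 h.2
    have h2 := (cop_iff N w a n s hn).2 h.1
    rw [if_pos ⟨h2, h1⟩]
  · refine Finset.sum_eq_zero fun n hn => ?_
    rw [if_neg]
    rintro ⟨h1, h2⟩
    exact h ⟨(cop_iff N w a n s hn).1 h1, (cop_iff N w a n s' hn).1 h2⟩

lemma XX_approx (w : ℕ) (hw : 2 ≤ w) (κ : ℝ) (hκ : 0 < κ) (A : ℕ) : ∀ᶠ N : ℕ in atTop,
    ∀ s s' : ℕ, (s:ℝ) ≤ (Real.log N) ^ A →
      |XX N w s s' - (RR w s s').card * (((N:ℝ) / Wp w) / (cW (Wp w) * Real.log N))| ≤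
        κ * ((RR w s s').card * (((N:ℝ) / Wp w) / (cW (Wp w) * Real.log N))) := by
  filter_upwards [primes_class w hw κ hκ A, eventually_ge_atTop w] with N h1 hN
  intro s s' hs
  set T := ((N:ℝ) / Wp w) / (cW (Wp w) * Real.log N) with hT
  rw [XX_eq N w s s' hN]
  have e1 : ((RR w s s').card : ℝ) * T = ∑ a ∈ RR w s s', T := by
    rw [Finset.sum_const, nsmul_eq_mul]
  rw [e1, ← Finset.sum_sub_distrib, Finset.mul_sum]
  refine (Finset.abs_sum_le_sum_abs _ _).trans (Finset.sum_le_sum fun a ha => ?_)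
  have ha2 := (Finset.mem_filter.1 ha).2
  exact h1 a s hs ha2.1

lemma YY_approx (w N s s' : ℕ) :
    |YY N w s s' - (RR w s s').card * ((N:ℝ) / Wp w)| ≤ Wp w := by
  rw [YY_eq]
  have e1 : ((RR w s s').card : ℝ) * ((N:ℝ) / Wp w) = ∑ a ∈ RR w s s', ((N:ℝ) / Wp w) := by
    rw [Finset.sum_const, nsmul_eq_mul]
  rw [e1, ← Finset.sum_sub_distrib]
  refine (Finset.abs_sum_le_sum_abs _ _).trans ?_
  refine le_trans (Finset.sum_le_sum fun a _ => card_XS w N a) ?_
  rw [Finset.sum_const, nsmul_eq_mul, mul_one]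
  exact card_RR_le w s s'

/-- algebraic expansion of the kernel -/
lemma KK_expand (N w s s' : ℕ) : KK N w s s' = rr N ![s, s'] -
    Real.log N / cW (Wp w) * XX N w s s' / N - Real.log N / cW (Wp w) * XX N w s' s / N +
    1 / cW (Wp w) ^ 2 * YY N w s s' / N := by
  set L := Real.log (N:ℝ) with hL
  set c := cW (Wp w) with hc
  have hW := Wp_pos w
  have hc0 : c ≠ 0 := (cW_pos hW).ne'
  have hpt : ∀ n : ℕ, fp N w (n + s) * fp N w (n + s') =
      L ^ 2 * (if (n + s).Prime ∧ (n + s').Prime then 1 else 0) -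
      L / c * (if (n + s).Prime ∧ (n + s').Coprime (Wp w) then 1 else 0) -
      L / c * (if (n + s').Prime ∧ (n + s).Coprime (Wp w) then 1 else 0) +
      1 / c ^ 2 * (if (n + s).Coprime (Wp w) ∧ (n + s').Coprime (Wp w) then 1 else 0) := by
    intro n
    unfold fp
    rw [← hL, ← hc]
    have hand : ∀ (P Q : Prop) [Decidable P] [Decidable Q], (if P ∧ Q then (1:ℝ) else 0) =
        (if P then 1 else 0) * (if Q then 1 else 0) := by
      intro P Q _ _
      by_cases hP : P <;> by_cases hQ : Q <;> simp [hP, hQ]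
    have hone : ∀ (P : Prop) [Decidable P] (x : ℝ), (if P then x else 0) =
        x * (if P then 1 else 0) := by
      intro P _ x
      by_cases hP : P <;> simp [hP]
    rw [hone ((n + s).Prime) L, hone ((n + s').Prime) L, hone ((n + s).Coprime (Wp w)) (1 / c),
      hone ((n + s').Coprime (Wp w)) (1 / c), hand, hand, hand, hand]
    ring
  have hrr : rr N ![s, s'] = L ^ 2 *
      (((Finset.Ioc N (2 * N)).filter (fun n => (n + s).Prime ∧ (n + s').Prime)).card : ℝ) / N := by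
    unfold rr
    have e1 : (Finset.Ioc N (2 * N)).filter (fun n => ∀ i : Fin 2, (n + ![s, s'] i).Prime) =
        (Finset.Ioc N (2 * N)).filter (fun n => (n + s).Prime ∧ (n + s').Prime) := by
      refine Finset.filter_congr fun n _ => ?_
      rw [Fin.forall_fin_two]
      simp
    rw [e1]
    ring
  unfold KK
  rw [Finset.sum_congr rfl fun n _ => hpt n]
  rw [Finset.sum_add_distrib, Finset.sum_sub_distrib, Finset.sum_sub_distrib, ← Finset.mul_sum,
    ← Finset.mul_sum, ← Finset.mul_sum, ← Finset.mul_sum, Finset.sum_boole, Finset.sum_boole,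
    Finset.sum_boole, Finset.sum_boole, hrr]
  unfold XX YY
  ring

lemma translate0_pair (s s' : ℕ) (h : s ≠ s') :
    translate0 ({s, s'} : Finset ℕ) = {0, Nat.dist s s'} := by
  have hinf : sInf ((({s, s'} : Finset ℕ)) : Set ℕ) = min s s' := by
    rw [Finset.coe_pair]
    exact csInf_pair s s'
  unfold translate0
  rw [hinf, Finset.image_insert, Finset.image_singleton]
  rcases lt_or_gt_of_ne h with h1 | h1
  · rw [min_eq_left h1.le, Nat.sub_self, Nat.dist_eq_sub_of_le h1.le]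
  · rw [min_eq_right h1.le, Nat.sub_self, Nat.dist_eq_sub_of_le_right h1.le, Finset.pair_comm]

lemma SP_pair (w s s' : ℕ) (h : s ≠ s') :
    SP (PPy w) {s, s'} = SP (PPy w) {0, Nat.dist s s'} := by
  rw [← translate0_pair s s' h]
  unfold SP
  simp only [Pool.Agent.HL26.card_translate0, Pool.Agent.HL26.nu_translate0]

lemma sing_pair (s s' : ℕ) (h : s ≠ s') :
    singularSeries {s, s'} = singularSeries {0, Nat.dist s s'} := by
  rw [← translate0_pair s s' h]
  exact (Pool.Agent.HL26.singularSeries_translate0 _).symm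

lemma rr_symm (N s s' : ℕ) : rr N ![s, s'] = rr N ![s', s] := by
  unfold rr
  have e1 : (Finset.Ioc N (2 * N)).filter (fun n => ∀ i : Fin 2, (n + ![s, s'] i).Prime) =
      (Finset.Ioc N (2 * N)).filter (fun n => ∀ i : Fin 2, (n + ![s', s] i).Prime) := by
    refine Finset.filter_congr fun n _ => ?_
    rw [Fin.forall_fin_two, Fin.forall_fin_two]
    simp only [Matrix.cons_val_zero, Matrix.cons_val_one]
    exact and_comm
  rw [e1]

lemma rr_near (A : ℕ) (κ : ℝ) (hκ : 0 < κ) : ∀ᶠ N : ℕ in atTop,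
    ∀ s s' : ℕ, (s:ℝ) ≤ (Real.log N) ^ A → (s':ℝ) ≤ (Real.log N) ^ A →
      |rr N ![s, s'] - rr N ![0, Nat.dist s s']| ≤ κ := by
  filter_upwards [rr_shift 2 A κ hκ] with N hN
  have key : ∀ s s' : ℕ, s ≤ s' → (s:ℝ) ≤ (Real.log N) ^ A →
      |rr N ![s, s'] - rr N ![0, Nat.dist s s']| ≤ κ := by
    intro s s' h hs
    have h1 := hN ![0, Nat.dist s s'] s hs
    have h2 : (fun i => (![0, Nat.dist s s'] : Fin 2 → ℕ) i + s) = ![s, s'] := by
      funext i
      fin_cases i
      · simp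
      · simp only [Fin.mk_one, Matrix.cons_val_one, Matrix.cons_val_fin_one]
        rw [Nat.dist_eq_sub_of_le h]
        omega
    rw [h2] at h1
    exact h1
  intro s s' hs hs'
  rcases le_total s s' with h | h
  · exact key s s' h hs
  · rw [rr_symm, Nat.dist_comm]
    exact key s' s h hs'

lemma SP_le_inv (w s s' : ℕ) (h : s ≠ s') :
    SP (PPy w) {s, s'} ≤ 1 / cW (Wp w) ^ 2 := by
  have hW := Wp_pos w
  have hc := cW_pos hW
  have hW' : (0:ℝ) < (Wp w : ℝ) := by exact_mod_cast hW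
  have h1 := card_RR w s s' h
  have h2 := card_RR_le w s s'
  rw [h1] at h2
  rw [le_div_iff₀ (by positivity)]
  have h3 : (Wp w : ℝ) * (SP (PPy w) {s, s'} * cW (Wp w) ^ 2) ≤ (Wp w : ℝ) * 1 := by
    nlinarith
  exact le_of_mul_le_mul_left h3 hW'

end ApKaux

open ApKaux

/-- F5b: off the diagonal the kernel is the pair correlation minus the truncated singular series. -/
theorem KK_approx (w : ℕ) (hw : 2 ≤ w) (κ : ℝ) (hκ : 0 < κ) (A : ℕ) : ∀ᶠ N : ℕ in atTop,
    ∀ s s' : ℕ, s ≠ s' → (s:ℝ) ≤ (Real.log N) ^ A → (s':ℝ) ≤ (Real.log N) ^ A →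
      |KK N w s s' - (rr N ![0, Nat.dist s s'] - SP (PPy w) {0, Nat.dist s s'})| ≤ κ := by
  have hW := Wp_pos w
  have hW' : (0:ℝ) < (Wp w : ℝ) := by exact_mod_cast hW
  set c := cW (Wp w) with hc
  have hc0 : 0 < c := cW_pos hW
  have hlogN : Tendsto (fun N : ℕ => Real.log (N:ℝ)) atTop atTop :=
    Real.tendsto_log_atTop.comp tendsto_natCast_atTop_atTop
  filter_upwards [XX_approx w hw (κ * c ^ 2 / 8) (by positivity) A, rr_near A (κ / 2) (by positivity),
    hlogN.eventually_ge_atTop 1, eventually_ge_atTop 1,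
    (tendsto_natCast_atTop_atTop (R := ℝ)).eventually_ge_atTop (4 * Wp w / (κ * c ^ 2))]
    with N hX hR hL hN1 hNW
  intro s s' hne hs hs'
  have hN0 : (0:ℝ) < N := by exact_mod_cast hN1
  set L := Real.log (N:ℝ) with hLdef
  have hL0 : 0 < L := by linarith
  rw [KK_expand, ← SP_pair w s s' hne, ← hLdef, ← hc]
  set σ := SP (PPy w) {s, s'} with hσ
  have hσ0 : 0 ≤ σ := SP_nonneg _ (PPy_prime w) _
  have hσ1 : σ ≤ 1 / c ^ 2 := SP_le_inv w s s' hne
  have hRc : ((RR w s s').card : ℝ) = (Wp w : ℝ) * c ^ 2 * σ := card_RR w s s' hne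
  have hRc' : ((RR w s' s).card : ℝ) = (Wp w : ℝ) * c ^ 2 * σ := by
    rw [card_RR w s' s (Ne.symm hne), Finset.pair_comm]
  have hTval : (Wp w : ℝ) * c ^ 2 * σ * (((N:ℝ) / Wp w) / (c * L)) = c * σ * N / L := by
    field_simp
  have x1 := hX s s' hs
  have x2 := hX s' s hs'
  rw [hRc, hTval] at x1
  rw [hRc', hTval] at x2
  have y1 := YY_approx w N s s'
  rw [hRc] at y1
  have e1 : |L / c * XX N w s s' / N - σ| ≤ κ / 8 := by
    have h1 : L / c * XX N w s s' / N - σ = L / (c * N) * (XX N w s s' - c * σ * N / L) := by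
      field_simp
    rw [h1, abs_mul, abs_of_nonneg (by positivity : (0:ℝ) ≤ L / (c * N))]
    calc L / (c * N) * |XX N w s s' - c * σ * N / L|
        ≤ L / (c * N) * (κ * c ^ 2 / 8 * (c * σ * N / L)) := mul_le_mul_of_nonneg_left x1 (by positivity)
      _ = κ * c ^ 2 / 8 * σ := by field_simp
      _ ≤ κ * c ^ 2 / 8 * (1 / c ^ 2) := mul_le_mul_of_nonneg_left hσ1 (by positivity)
      _ = κ / 8 := by field_simp
  have e2 : |L / c * XX N w s' s / N - σ| ≤ κ / 8 := by
    have h1 : L / c * XX N w s' s / N - σ = L / (c * N) * (XX N w s' s - c * σ * N / L) := by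
      field_simp
    rw [h1, abs_mul, abs_of_nonneg (by positivity : (0:ℝ) ≤ L / (c * N))]
    calc L / (c * N) * |XX N w s' s - c * σ * N / L|
        ≤ L / (c * N) * (κ * c ^ 2 / 8 * (c * σ * N / L)) := mul_le_mul_of_nonneg_left x2 (by positivity)
      _ = κ * c ^ 2 / 8 * σ := by field_simp
      _ ≤ κ * c ^ 2 / 8 * (1 / c ^ 2) := mul_le_mul_of_nonneg_left hσ1 (by positivity)
      _ = κ / 8 := by field_simp
  have e3 : |1 / c ^ 2 * YY N w s s' / N - σ| ≤ κ / 4 := by
    have h1 : 1 / c ^ 2 * YY N w s s' / N - σ =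
        1 / (c ^ 2 * N) * (YY N w s s' - (Wp w : ℝ) * c ^ 2 * σ * ((N:ℝ) / Wp w)) := by
      field_simp
    rw [h1, abs_mul, abs_of_nonneg (by positivity : (0:ℝ) ≤ 1 / (c ^ 2 * N))]
    calc 1 / (c ^ 2 * N) * |YY N w s s' - (Wp w : ℝ) * c ^ 2 * σ * ((N:ℝ) / Wp w)|
        ≤ 1 / (c ^ 2 * N) * Wp w := mul_le_mul_of_nonneg_left y1 (by positivity)
      _ ≤ κ / 4 := by
        rw [div_le_iff₀ (by positivity)] at hNW
        rw [one_div, inv_mul_le_iff₀ (by positivity)]
        nlinarith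
  have e4 := hR s s' hs hs'
  have a1 := abs_le.1 e1
  have a2 := abs_le.1 e2
  have a3 := abs_le.1 e3
  have a4 := abs_le.1 e4
  rw [abs_le]
  constructor <;> linarith [a1.1, a1.2, a2.1, a2.2, a3.1, a3.2, a4.1, a4.2]

/-- the diagonal -/
theorem KK_diag (w : ℕ) (hw : 2 ≤ w) (A : ℕ) : ∀ᶠ N : ℕ in atTop,
    ∀ s : ℕ, (s:ℝ) ≤ (Real.log N) ^ A → |KK N w s s| ≤ 3 * Real.log N := by
  have hW := Wp_pos w
  have hW' : (0:ℝ) < (Wp w : ℝ) := by exact_mod_cast hW
  set c := cW (Wp w) with hc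
  have hc0 : 0 < c := cW_pos hW
  have hc1 : c ≤ 1 := cW_le_one _
  have hlogN : Tendsto (fun N : ℕ => Real.log (N:ℝ)) atTop atTop :=
    Real.tendsto_log_atTop.comp tendsto_natCast_atTop_atTop
  filter_upwards [XX_approx w hw (1 / 2) (by positivity) A, hlogN.eventually_ge_atTop (1 / c ^ 2),
    eventually_ge_atTop w] with N hX hL hNw
  intro s hs
  have hN1 : 1 ≤ N := by omega
  have hN0 : (0:ℝ) < N := by exact_mod_cast hN1
  set L := Real.log (N:ℝ) with hLdef
  have hic : 1 / c ≤ 1 / c ^ 2 := by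
    apply one_div_le_one_div_of_le (by positivity)
    nlinarith
  have hic1 : 1 ≤ 1 / c := by
    rw [le_div_iff₀ hc0]; linarith
  have hL0 : 0 < L := by linarith
  have x1 := hX s s hs
  have hRc : ((RR w s s).card : ℝ) = (Wp w : ℝ) * c := by
    rw [card_RR_self, hc]
    unfold cW
    field_simp
  have hTval : (Wp w : ℝ) * c * (((N:ℝ) / Wp w) / (c * L)) = N / L := by
    field_simp
  rw [hRc, hTval] at x1
  have x2 := (abs_le.1 x1)
  have hXu : XX N w s s ≤ 3 / 2 * (N / L) := by linarith [x2.2]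
  have hX0 : 0 ≤ XX N w s s := Nat.cast_nonneg _
  have hrr : rr N ![s, s] = L ^ 2 * XX N w s s / N := by
    unfold rr XX
    have e1 : (Finset.Ioc N (2 * N)).filter (fun n => ∀ i : Fin 2, (n + ![s, s] i).Prime) =
        (Finset.Ioc N (2 * N)).filter (fun n => (n + s).Prime ∧ (n + s).Coprime (Wp w)) := by
      refine Finset.filter_congr fun n hn => ?_
      rw [Fin.forall_fin_two]
      simp only [Matrix.cons_val_zero, Matrix.cons_val_one]
      constructor
      · rintro ⟨h1, _⟩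
        have hn2 := (Finset.mem_Ioc.1 hn)
        exact ⟨h1, prime_coprime w _ h1 (by omega)⟩
      · rintro ⟨h1, _⟩
        exact ⟨h1, h1⟩
    rw [e1]
    ring
  have hY : YY N w s s ≤ N := by
    unfold YY
    have h1 : ((Finset.Ioc N (2 * N)).filter
        (fun n => (n + s).Coprime (Wp w) ∧ (n + s).Coprime (Wp w))).card ≤ N := by
      refine (Finset.card_filter_le _ _).trans ?_
      rw [Nat.card_Ioc]
      omega
    exact_mod_cast h1
  have hY0 : 0 ≤ YY N w s s := Nat.cast_nonneg _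
  rw [KK_expand, hrr, ← hLdef, ← hc]
  have b1 : L ^ 2 * XX N w s s / N ≤ 3 / 2 * L := by
    rw [div_le_iff₀ hN0]
    calc L ^ 2 * XX N w s s ≤ L ^ 2 * (3 / 2 * (N / L)) := mul_le_mul_of_nonneg_left hXu (by positivity)
      _ = 3 / 2 * L * N := by field_simp
  have b2 : L / c * XX N w s s / N ≤ 3 / 2 * (1 / c) := by
    rw [div_le_iff₀ hN0]
    calc L / c * XX N w s s ≤ L / c * (3 / 2 * (N / L)) := mul_le_mul_of_nonneg_left hXu (by positivity)
      _ = 3 / 2 * (1 / c) * N := by field_simp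
  have b3 : 1 / c ^ 2 * YY N w s s / N ≤ 1 / c ^ 2 := by
    rw [div_le_iff₀ hN0]
    exact mul_le_mul_of_nonneg_left hY (by positivity)
  have b4 : 0 ≤ L ^ 2 * XX N w s s / N := by positivity
  have b5 : 0 ≤ L / c * XX N w s s / N := by positivity
  have b6 : 0 ≤ 1 / c ^ 2 * YY N w s s / N := by positivity
  rw [abs_le]
  constructor <;> linarith

namespace ApKaux

lemma sum_sing_sq : ∃ C : ℝ, 0 < C ∧ ∀ Q : ℕ,
    ∑ h ∈ Finset.Icc 1 Q, (singularSeries {0, h}) ^ 2 ≤ C * ((Q:ℝ) + 1) := by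
  classical
  obtain ⟨C, hC, hsq⟩ := sum_singularSeries_sq_le 2 le_rfl
  refine ⟨4 * C, by positivity, fun Q => ?_⟩
  have h1 := hsq (2 * Q)
  have hQ0 : (0:ℝ) < (Q:ℝ) + 1 := by positivity
  have h2 : ((Q:ℝ) + 1) * ∑ h ∈ Finset.Icc 1 Q, (singularSeries {0, h}) ^ 2 ≤
      ∑ E ∈ (Finset.range (2 * Q + 1)).powersetCard 2, (singularSeries E) ^ 2 := by
    have e1 : ((Q:ℝ) + 1) * ∑ h ∈ Finset.Icc 1 Q, (singularSeries {0, h}) ^ 2 =
        ∑ q ∈ (Finset.Icc 1 Q) ×ˢ (Finset.range (Q + 1)), (singularSeries {q.2, q.2 + q.1}) ^ 2 := by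
      rw [Finset.sum_product, Finset.mul_sum]
      refine Finset.sum_congr rfl fun h hh => ?_
      have hh1 := (Finset.mem_Icc.1 hh).1
      have e2 : ∀ t ∈ Finset.range (Q + 1), (singularSeries {t, t + h}) ^ 2 =
          (singularSeries {0, h}) ^ 2 := by
        intro t _
        have hd : Nat.dist t (t + h) = h := by
          rw [Nat.dist_eq_sub_of_le (by omega)]; omega
        rw [sing_pair t (t + h) (by omega), hd]
      rw [Finset.sum_congr rfl e2, Finset.sum_const, Finset.card_range, nsmul_eq_mul]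
      push_cast
      ring
    rw [e1]
    have hinj : Set.InjOn (fun q : ℕ × ℕ => ({q.2, q.2 + q.1} : Finset ℕ))
        ((Finset.Icc 1 Q) ×ˢ (Finset.range (Q + 1)) : Finset (ℕ × ℕ)) := by
      rintro ⟨h, t⟩ hq ⟨h', t'⟩ hq' heq
      rw [Finset.mem_coe, Finset.mem_product, Finset.mem_Icc] at hq hq'
      simp only at heq hq hq'
      have m1 : t ∈ ({t', t' + h'} : Finset ℕ) := by rw [← heq]; simp
      have m2 : t' ∈ ({t, t + h} : Finset ℕ) := by rw [heq]; simp
      have m3 : t + h ∈ ({t', t' + h'} : Finset ℕ) := by rw [← heq]; simp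
      rw [Finset.mem_insert, Finset.mem_singleton] at m1 m2 m3
      have ht : t = t' := by omega
      have hh : h = h' := by omega
      rw [ht, hh]
    have e3 : ∑ q ∈ (Finset.Icc 1 Q) ×ˢ (Finset.range (Q + 1)), (singularSeries {q.2, q.2 + q.1}) ^ 2 =
        ∑ E ∈ ((Finset.Icc 1 Q) ×ˢ (Finset.range (Q + 1))).image
          (fun q : ℕ × ℕ => ({q.2, q.2 + q.1} : Finset ℕ)), (singularSeries E) ^ 2 := by
      rw [Finset.sum_image hinj]
    rw [e3]
    refine Finset.sum_le_sum_of_subset_of_nonneg ?_ fun E _ _ => sq_nonneg _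
    intro E hE
    rw [Finset.mem_image] at hE
    obtain ⟨⟨h, t⟩, hq, rfl⟩ := hE
    rw [Finset.mem_product, Finset.mem_Icc, Finset.mem_range] at hq
    simp only at hq
    rw [Finset.mem_powersetCard]
    refine ⟨?_, Finset.card_pair (by simp only; omega)⟩
    intro x hx
    simp only [Finset.mem_insert, Finset.mem_singleton] at hx
    rw [Finset.mem_range]
    omega
  have h3 : ((Q:ℝ) + 1) * ∑ h ∈ Finset.Icc 1 Q, (singularSeries {0, h}) ^ 2 ≤
      ((Q:ℝ) + 1) * (4 * C * ((Q:ℝ) + 1)) := by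
    refine h2.trans (h1.trans ?_)
    push_cast
    have hQ : (0:ℝ) ≤ Q := Nat.cast_nonneg _
    nlinarith [mul_nonneg hC.le hQ, mul_nonneg (mul_nonneg hC.le hQ) hQ]
  exact le_of_mul_le_mul_left h3 hQ0

lemma SP_le_sing (w h : ℕ) (hw : 2 ≤ w) (hh : 1 ≤ h) :
    SP (PPy w) {0, h} ≤ 2 * singularSeries {0, h} + 4 ^ 8 := by
  have hcard : ({0, h} : Finset ℕ).card = 2 := Finset.card_pair (by omega)
  have hS := singularSeries_nonneg ({0, h} : Finset ℕ)
  rcases lt_or_ge w 8 with h8 | h8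
  · have h1 : SP (PPy w) {0, h} ≤ 4 ^ (PPy w).card := by
      rw [SP_eq_prod_loc, ← Finset.prod_const]
      refine Finset.prod_le_prod (fun p hp => loc_nonneg _ p (PPy_prime w p hp)) fun p hp => ?_
      have hpp := PPy_prime w p hp
      unfold loc
      rw [hcard]
      have hp2 : (2:ℝ) ≤ p := by exact_mod_cast hpp.two_le
      have h2 : (1 - 1 / (p:ℝ))⁻¹ ≤ 2 := by
        rw [inv_one_sub_eq p hpp, div_le_iff₀ (by linarith)]
        linarith
      have h3 : 0 ≤ (1 - 1 / (p:ℝ))⁻¹ := (inv_pos.2 (one_sub_inv_pos p hpp)).le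
      have h4 : (0:ℝ) ≤ (nu {0, h} p : ℝ) / (p:ℝ) := by positivity
      have h5 : ((1 - 1 / (p:ℝ))⁻¹) ^ 2 ≤ 4 := by nlinarith
      calc ((1 - 1 / (p:ℝ))⁻¹) ^ 2 * (1 - (nu {0, h} p : ℝ) / p) ≤
          ((1 - 1 / (p:ℝ))⁻¹) ^ 2 * 1 := mul_le_mul_of_nonneg_left (by linarith) (by positivity)
        _ ≤ 4 := by linarith
    have h2 : (PPy w).card ≤ 8 := by
      unfold PPy
      refine (Finset.card_filter_le _ _).trans ?_
      rw [Finset.card_range]
      omega
    have h3 : (4:ℝ) ^ (PPy w).card ≤ 4 ^ 8 := pow_le_pow_right₀ (by norm_num) h2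
    linarith
  · have h1 := singularSeries_ge ({0, h} : Finset ℕ) w (by omega)
    rw [hcard] at h1
    have hw8 : (8:ℝ) ≤ w := by exact_mod_cast h8
    have hSP := SP_nonneg (PPy w) (PPy_prime w) ({0, h} : Finset ℕ)
    have h2 : ((2:ℕ):ℝ) ^ 2 / w ≤ 1 / 2 := by
      rw [div_le_iff₀ (by linarith)]
      push_cast
      linarith
    have h3 : (1 / 2) * SP (PPy w) {0, h} ≤ singularSeries {0, h} := by
      refine le_trans ?_ h1
      exact mul_le_mul_of_nonneg_right (by linarith) hSP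
    have h4 : (0:ℝ) ≤ 4 ^ 8 := by positivity
    linarith

lemma rr_le_sing : ∃ C : ℝ, 0 < C ∧ ∀ᶠ N : ℕ in atTop, ∀ h : ℕ, 1 ≤ h →
    rr N ![0, h] ≤ C * singularSeries {0, h} + 1 := by
  obtain ⟨C, hC, hsv⟩ := exists_sieve_bound 2 (by norm_num)
  refine ⟨2 * C, by positivity, ?_⟩
  have h2N : Tendsto (fun N : ℕ => ((2 * N : ℕ) : ℝ)) atTop atTop :=
    tendsto_natCast_atTop_atTop.comp (tendsto_atTop_mono (fun n => by simp only [id]; omega) tendsto_id)
  have hlogN : Tendsto (fun N : ℕ => Real.log (N:ℝ)) atTop atTop :=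
    Real.tendsto_log_atTop.comp tendsto_natCast_atTop_atTop
  filter_upwards [h2N.eventually hsv, hlogN.eventually_ge_atTop 1, eventually_ge_atTop 1,
    tendsto_natCast_atTop_atTop.eventually (ev_pow_le 2 (1 / 2) (by norm_num))] with N h1 hL hN1 hsm
  intro h hh
  have hN0 : (0:ℝ) < N := by exact_mod_cast hN1
  set L := Real.log (N:ℝ) with hLdef
  have hL0 : 0 < L := by linarith
  have hcard : ({0, h} : Finset ℕ).card = 2 := Finset.card_pair (by omega)
  have hcnt : (((Finset.Ioc N (2 * N)).filter (fun n => ∀ i : Fin 2, (n + ![0, h] i).Prime)).card : ℝ) ≤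
      (tupleCount ((2 * N : ℕ) : ℝ) {0, h} : ℝ) := by
    unfold tupleCount
    rw [Nat.floor_natCast]
    refine Nat.cast_le.2 (Finset.card_le_card ?_)
    intro n hn
    rw [Finset.mem_filter, Finset.mem_Ioc] at hn
    rw [Finset.mem_filter, Finset.mem_Icc]
    refine ⟨⟨by omega, hn.1.2⟩, ?_⟩
    have h2 := hn.2
    rw [Fin.forall_fin_two] at h2
    intro e he
    rw [Finset.mem_insert, Finset.mem_singleton] at he
    rcases he with rfl | rfl
    · exact h2.1
    · exact h2.2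
  have hS := singularSeries_nonneg ({0, h} : Finset ℕ)
  unfold rr
  by_cases hadm : ∀ p : ℕ, p.Prime → nu {0, h} p < p
  · have h3 := h1 {0, h} hcard hadm
    have h4 := hcnt.trans h3
    have hlog : L ≤ Real.log ((2 * N : ℕ) : ℝ) := by
      apply Real.log_le_log hN0
      push_cast
      linarith
    have h5 : C * (singularSeries {0, h} * (((2 * N : ℕ) : ℝ) / (Real.log ((2 * N : ℕ) : ℝ)) ^ 2)) ≤
        C * (singularSeries {0, h} * (((2 * N : ℕ) : ℝ) / L ^ 2)) := by
      gcongr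
    have h6 := h4.trans h5
    calc _ ≤ (C * (singularSeries {0, h} * (((2 * N : ℕ) : ℝ) / L ^ 2))) * L ^ 2 / N := by
          gcongr
      _ = 2 * C * singularSeries {0, h} := by
          push_cast
          field_simp
      _ ≤ _ := by linarith
  · push Not at hadm
    obtain ⟨p, hp, hpn⟩ := hadm
    have : NeZero p := ⟨hp.ne_zero⟩
    have hnu : nu {0, h} p = p := le_antisymm (nu_le _ p) hpn
    have hzero := singularSeries_eq_zero_of {0, h} p hp hnu
    have h3 := tupleCount_le_of_zero {0, h} hzero ((2 * N : ℕ) : ℝ)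
    rw [hcard] at h3
    have h4 : (tupleCount ((2 * N : ℕ) : ℝ) {0, h} : ℝ) ≤ 2 := by exact_mod_cast h3
    have h5 := hcnt.trans h4
    rw [hzero, mul_zero, zero_add, div_le_one hN0]
    calc _ ≤ 2 * L ^ 2 := by gcongr
      _ ≤ 2 * (1 / 2 * N) := by gcongr
      _ = N := by ring

end ApKaux

/-- second moment of the off-diagonal kernel -/
theorem KK_sq : ∃ C : ℝ, 1 ≤ C ∧ ∀ w : ℕ, 2 ≤ w → ∀ A : ℕ, ∀ᶠ N : ℕ in atTop, ∀ Q : ℕ,
    (Q:ℝ) ≤ (Real.log N) ^ A →
      ∑ h ∈ Finset.Icc 1 Q, (rr N ![0, h] - SP (PPy w) {0, h}) ^ 2 ≤ C * ((Q:ℝ) + 1) := by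
  obtain ⟨C1, hC1, hr⟩ := rr_le_sing
  obtain ⟨C2, hC2, hs⟩ := sum_sing_sq
  set a : ℝ := C1 + 2 with ha
  set b : ℝ := 4 ^ 8 + 1 with hb
  refine ⟨2 * a ^ 2 * C2 + 2 * b ^ 2, ?_, ?_⟩
  · have h1 : (1:ℝ) ≤ b := by rw [hb]; norm_num
    nlinarith [mul_nonneg (mul_nonneg (by norm_num : (0:ℝ) ≤ 2) (sq_nonneg a)) hC2.le]
  · intro w hw A
    filter_upwards [hr] with N hN
    intro Q _
    have hpt : ∀ h ∈ Finset.Icc 1 Q, (rr N ![0, h] - SP (PPy w) {0, h}) ^ 2 ≤
        2 * a ^ 2 * (singularSeries {0, h}) ^ 2 + 2 * b ^ 2 := by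
      intro h hh
      have hh1 := (Finset.mem_Icc.1 hh).1
      have h1 := hN h hh1
      have h2 := SP_le_sing w h hw hh1
      have h3 : 0 ≤ rr N ![0, h] := by unfold rr; positivity
      have h4 := SP_nonneg (PPy w) (PPy_prime w) ({0, h} : Finset ℕ)
      have h5 := singularSeries_nonneg ({0, h} : Finset ℕ)
      have hab : |rr N ![0, h] - SP (PPy w) {0, h}| ≤ a * singularSeries {0, h} + b := by
        have h48 : (0:ℝ) ≤ 4 ^ 8 := by positivity
        have hCS : 0 ≤ C1 * singularSeries {0, h} := by positivity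
        rw [abs_le, ha, hb]
        constructor <;> nlinarith
      calc (rr N ![0, h] - SP (PPy w) {0, h}) ^ 2 = |rr N ![0, h] - SP (PPy w) {0, h}| ^ 2 :=
            (sq_abs _).symm
        _ ≤ (a * singularSeries {0, h} + b) ^ 2 := pow_le_pow_left₀ (abs_nonneg _) hab 2
        _ ≤ _ := by nlinarith [sq_nonneg (a * singularSeries {0, h} - b)]
    refine (Finset.sum_le_sum hpt).trans ?_
    rw [Finset.sum_add_distrib, ← Finset.mul_sum, Finset.sum_const, Nat.card_Icc, nsmul_eq_mul]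
    have h6 := hs Q
    have h7 : 2 * a ^ 2 * ∑ h ∈ Finset.Icc 1 Q, (singularSeries {0, h}) ^ 2 ≤
        2 * a ^ 2 * (C2 * ((Q:ℝ) + 1)) := mul_le_mul_of_nonneg_left h6 (by positivity)
    have h8 : ((Q + 1 - 1 : ℕ) : ℝ) = Q := by simp
    rw [h8]
    nlinarith [sq_nonneg b]

end Pool.Agent.HLT
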