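import Mathlib
import Pool.Agent.HLT.ApKernel
import Pool.Agent.HLT.SingAvg

set_option autoImplicit false

open Finset Filter

namespace Pool.Agent.HLT

open Pool.Agent.HL26 Pool.Agent.Maynard

lemma ApNear_pair_eq (a h : ℕ) :
    ({a, a + h} : Finset ℕ) = ({0, h} : Finset ℕ).image (fun x => x + a) := by
  rw [Finset.image_insert, Finset.image_singleton]
  simp [add_comm]

lemma ApNear_nu (a h p : ℕ) : nu {a, a + h} p = nu {0, h} p := by
  rw [ApNear_pair_eq]
  unfold nu
  rw [Finset.image_image]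
  have h1 : ({0, h} : Finset ℕ).image ((fun e : ℕ => (e : ZMod p)) ∘ fun x => x + a) =
      (({0, h} : Finset ℕ).image (fun e : ℕ => (e : ZMod p))).image
        (fun z => z + (a : ZMod p)) := by
    rw [Finset.image_image]
    refine Finset.image_congr fun e _ => ?_
    simp [Function.comp]
  rw [h1, Finset.card_image_of_injective _ (add_left_injective _)]

lemma ApNear_card (a h : ℕ) : ({a, a + h} : Finset ℕ).card = ({0, h} : Finset ℕ).card := by
  rw [ApNear_pair_eq, Finset.card_image_of_injective _ (add_left_injective _)]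

lemma ApNear_S (a h : ℕ) : singularSeries {a, a + h} = singularSeries {0, h} := by
  unfold singularSeries
  simp only [ApNear_nu, ApNear_card]

lemma ApNear_SP (PP : Finset ℕ) (a h : ℕ) : SP PP {a, a + h} = SP PP {0, h} := by
  unfold SP
  simp only [ApNear_nu, ApNear_card]

/-- averaging over translates -/
lemma ApNear_count (f : Finset ℕ → ℝ) (hf : ∀ E, 0 ≤ f E)
    (hinv : ∀ a h, f {a, a + h} = f {0, h}) (M : ℕ) :
    ((M : ℝ) + 1) * ∑ h ∈ Finset.Icc 1 M, f {0, h} ≤
      ∑ E ∈ (Finset.range (2 * M + 1)).powersetCard 2, f E := by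
  classical
  have h1 : ((M : ℝ) + 1) * ∑ h ∈ Finset.Icc 1 M, f {0, h} =
      ∑ q ∈ Finset.range (M + 1) ×ˢ Finset.Icc 1 M, f {q.1, q.1 + q.2} := by
    rw [Finset.sum_product]
    have h2 : ∀ x ∈ Finset.range (M + 1), ∑ y ∈ Finset.Icc 1 M, f {x, x + y} =
        ∑ y ∈ Finset.Icc 1 M, f {0, y} := fun x _ =>
      Finset.sum_congr rfl fun y _ => hinv x y
    rw [Finset.sum_congr rfl h2, Finset.sum_const, Finset.card_range, nsmul_eq_mul]
    push_cast
    ring
  have hinj : Set.InjOn (fun q : ℕ × ℕ => ({q.1, q.1 + q.2} : Finset ℕ))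
      (Finset.range (M + 1) ×ˢ Finset.Icc 1 M : Finset (ℕ × ℕ)) := by
    rintro ⟨a, h⟩ hq ⟨b, h'⟩ hq' he
    simp only [Finset.coe_product, Set.mem_prod, Finset.mem_coe, Finset.mem_range,
      Finset.mem_Icc] at hq hq'
    simp only at he
    have e1 : a ∈ ({b, b + h'} : Finset ℕ) := by rw [← he]; simp
    have e2 : a + h ∈ ({b, b + h'} : Finset ℕ) := by rw [← he]; simp
    have e3 : b ∈ ({a, a + h} : Finset ℕ) := by rw [he]; simp
    simp only [Finset.mem_insert, Finset.mem_singleton] at e1 e2 e3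
    have e4 : a = b := by omega
    have e5 : h = h' := by omega
    rw [e4, e5]
  rw [h1, ← Finset.sum_image (f := f) hinj]
  refine Finset.sum_le_sum_of_subset_of_nonneg ?_ fun E _ _ => hf E
  intro E hE
  rw [Finset.mem_image] at hE
  obtain ⟨⟨a, h⟩, hq, rfl⟩ := hE
  simp only [Finset.mem_product, Finset.mem_range, Finset.mem_Icc] at hq
  rw [Finset.mem_powersetCard]
  refine ⟨?_, ?_⟩
  · intro x hx
    simp only [Finset.mem_insert, Finset.mem_singleton] at hx
    rw [Finset.mem_range]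
    omega
  · exact Finset.card_pair (by omega)

/-- the truncated singular series is close to the singular series on average over pairs -/
lemma ApNear_sing (ε : ℝ) (hε : 0 < ε) : ∃ w0 : ℕ, ∀ w : ℕ, w0 ≤ w → ∃ M0 : ℕ, ∀ M : ℕ,
    M0 ≤ M → ∑ h ∈ Finset.Icc 1 M, |SP (PPy w) {0, h} - singularSeries {0, h}| ≤ ε * M := by
  classical
  obtain ⟨C, hC, hsq⟩ := sum_singularSeries_sq_le 2 le_rfl
  obtain ⟨w1, hw1⟩ := sing_upper_avg 2 le_rfl (ε / 8) (by positivity)
  refine ⟨max (max w1 8) ⌈128 * (1 + C) / ε⌉₊, fun w hw => ?_⟩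
  have hww1 : w1 ≤ w := (le_max_left _ _).trans ((le_max_left _ _).trans hw)
  have hw8 : 8 ≤ w := (le_max_right _ _).trans ((le_max_left _ _).trans hw)
  have hwc : 128 * (1 + C) / ε ≤ w := by
    have h1 : (⌈128 * (1 + C) / ε⌉₊ : ℝ) ≤ w := by exact_mod_cast (le_max_right _ _).trans hw
    exact (Nat.le_ceil _).trans h1
  obtain ⟨H0, hH0⟩ := hw1 w hww1
  refine ⟨max H0 1, fun M hM => ?_⟩
  have hMH : H0 ≤ M := (le_max_left _ _).trans hM
  have hM1 : 1 ≤ M := (le_max_right _ _).trans hM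
  have hMr : (1:ℝ) ≤ M := by exact_mod_cast hM1
  have hw0 : (0:ℝ) < w := by
    have : (8:ℝ) ≤ w := by exact_mod_cast hw8
    linarith
  have hw8r : (8:ℝ) ≤ w := by exact_mod_cast hw8
  -- pointwise
  have hpt : ∀ h ∈ Finset.Icc 1 M, |SP (PPy w) {0, h} - singularSeries {0, h}| ≤
      max (singularSeries {0, h} - SP (PPy w) {0, h}) 0 +
        (8 / w) * (1 + (singularSeries {0, h}) ^ 2) := by
    intro h hh
    rw [Finset.mem_Icc] at hh
    have hcard : ({0, h} : Finset ℕ).card = 2 := Finset.card_pair (by omega)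
    have h1 := singularSeries_ge {0, h} w (by omega)
    rw [hcard] at h1
    have h2 : 0 ≤ SP (PPy w) {0, h} := SP_nonneg _ (PPy_prime w) _
    set S := singularSeries {0, h} with hS
    set T := SP (PPy w) {0, h} with hT
    have h3 : (((2:ℕ):ℝ)) ^ 2 / w = 4 / w := by norm_num
    rw [h3] at h1
    have h4 : (4:ℝ) / w ≤ 1 / 2 := by
      rw [div_le_div_iff₀ hw0 (by norm_num)]
      linarith
    have h5 : T ≤ 2 * S := by nlinarith
    have h6 : T - S ≤ (4 / w) * T := by nlinarith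
    have h7 : (0:ℝ) ≤ 4 / w := by positivity
    have h8 : T - S ≤ (8 / w) * S := by
      calc T - S ≤ (4 / w) * T := h6
        _ ≤ (4 / w) * (2 * S) := mul_le_mul_of_nonneg_left h5 h7
        _ = (8 / w) * S := by ring
    have h9 : S ≤ 1 + S ^ 2 := by nlinarith [sq_nonneg (S - 1), sq_nonneg S]
    have h10 : (0:ℝ) ≤ 8 / w := by positivity
    have h11 : (8 / w) * S ≤ (8 / w) * (1 + S ^ 2) := mul_le_mul_of_nonneg_left h9 h10
    have h12 : 0 ≤ (8 / (w:ℝ)) * (1 + S ^ 2) := by positivity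
    rw [abs_le]
    constructor
    · have := le_max_left (S - T) 0
      linarith
    · have := le_max_right (S - T) 0
      linarith
  -- first sum
  have hA : ∑ h ∈ Finset.Icc 1 M, max (singularSeries {0, h} - SP (PPy w) {0, h}) 0 ≤
      (ε / 2) * M := by
    have h1 := ApNear_count (fun E => max (singularSeries E - SP (PPy w) E) 0)
      (fun E => le_max_right _ _) (fun a h => by simp only [ApNear_S, ApNear_SP]) M
    have h2 := hH0 (2 * M) (by omega)
    have h3 := h1.trans h2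
    push_cast at h3
    set X := ∑ h ∈ Finset.Icc 1 M, max (singularSeries {0, h} - SP (PPy w) {0, h}) 0 with hX
    have h4 : ((M:ℝ) + 1) * X ≤ ((M:ℝ) + 1) * ((ε / 2) * M) := by
      refine h3.trans ?_
      nlinarith
    exact le_of_mul_le_mul_left h4 (by positivity)
  -- second sum
  have hB : ∑ h ∈ Finset.Icc 1 M, (1 + (singularSeries {0, h}) ^ 2) ≤ 8 * (1 + C) * M := by
    have h1 := ApNear_count (fun E => 1 + (singularSeries E) ^ 2)
      (fun E => by positivity) (fun a h => by simp only [ApNear_S]) M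
    have h2 : ∑ E ∈ (Finset.range (2 * M + 1)).powersetCard 2, (1 + (singularSeries E) ^ 2) ≤
        (1 + C) * (2 * (M:ℝ) + 1) ^ 2 := by
      rw [Finset.sum_add_distrib]
      have h3 := hsq (2 * M)
      have h4 : ∑ E ∈ (Finset.range (2 * M + 1)).powersetCard 2, (1:ℝ) ≤
          (2 * (M:ℝ) + 1) ^ 2 := by
        rw [Finset.sum_const, nsmul_eq_mul, mul_one, Finset.card_powersetCard, Finset.card_range]
        have h5 : ((2 * M + 1).choose 2 : ℝ) ≤ (((2 * M + 1) ^ 2 : ℕ) : ℝ) := by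
          exact_mod_cast Nat.choose_le_pow _ _
        push_cast at h5
        exact h5
      push_cast at h3
      linarith
    have h3 := h1.trans h2
    set X := ∑ h ∈ Finset.Icc 1 M, (1 + (singularSeries {0, h}) ^ 2) with hX
    have h4 : ((M:ℝ) + 1) * X ≤ ((M:ℝ) + 1) * (8 * (1 + C) * M) := by
      refine h3.trans ?_
      have h5 : (2 * (M:ℝ) + 1) ^ 2 ≤ ((M:ℝ) + 1) * (8 * M) := by nlinarith
      calc (1 + C) * (2 * (M:ℝ) + 1) ^ 2 ≤ (1 + C) * (((M:ℝ) + 1) * (8 * M)) :=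
            mul_le_mul_of_nonneg_left h5 (by linarith)
        _ = ((M:ℝ) + 1) * (8 * (1 + C) * M) := by ring
    exact le_of_mul_le_mul_left h4 (by positivity)
  calc ∑ h ∈ Finset.Icc 1 M, |SP (PPy w) {0, h} - singularSeries {0, h}| ≤ _ :=
        Finset.sum_le_sum hpt
    _ = ∑ h ∈ Finset.Icc 1 M, max (singularSeries {0, h} - SP (PPy w) {0, h}) 0 +
        (8 / w) * ∑ h ∈ Finset.Icc 1 M, (1 + (singularSeries {0, h}) ^ 2) := by
        rw [Finset.sum_add_distrib, Finset.mul_sum]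
    _ ≤ (ε / 2) * M + (8 / w) * (8 * (1 + C) * M) :=
        add_le_add hA (mul_le_mul_of_nonneg_left hB (by positivity))
    _ ≤ (ε / 2) * M + (ε / 2) * M := by
        have h1 : (8 / (w:ℝ)) * (8 * (1 + C) * M) = (64 * (1 + C) / w) * M := by ring
        have h2 : 64 * (1 + C) / (w:ℝ) ≤ ε / 2 := by
          rw [div_le_div_iff₀ hw0 (by norm_num)]
          rw [div_le_iff₀ hε] at hwc
          linarith
        rw [h1]
        have := mul_le_mul_of_nonneg_right h2 (show (0:ℝ) ≤ M by linarith)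
        linarith
    _ = ε * M := by ring

/-- the circulant kernel at a small shift -/
lemma ApNear_kt (w N Q A : ℕ) [NeZero Q] (κ : ℝ)
    (hQA : (Q:ℝ) ≤ (Real.log N) ^ A)
    (happ : ∀ s s' : ℕ, s ≠ s' → (s:ℝ) ≤ (Real.log N) ^ A → (s':ℝ) ≤ (Real.log N) ^ A →
      |KK N w s s' - (rr N ![0, Nat.dist s s'] - SP (PPy w) {0, Nat.dist s s'})| ≤ κ)
    (k : ℕ → ℝ) (hk : ∀ h, k h = rr N ![0, h] - SP (PPy w) {0, h})
    (h : ℕ) (h1 : 1 ≤ h) (h2 : h < Q) :
    |kt N w Q (h : ZMod Q) - k h| ≤ κ + ((h:ℝ) / Q) * (|k h| + |k (Q - h)|) := by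
  classical
  have hQ0 : (0:ℝ) < Q := by
    have : 0 < Q := by omega
    exact_mod_cast this
  have hval : ∀ s : ZMod Q, (s + (h : ZMod Q)).val = (s.val + h) % Q := by
    intro s
    rw [ZMod.val_add, ZMod.val_natCast, Nat.mod_eq_of_lt h2]
  have hpt : ∀ s : ZMod Q, |KK N w s.val (s + (h : ZMod Q)).val - k h| ≤
      κ + (if Q - h ≤ s.val then |k h| + |k (Q - h)| else 0) := by
    intro s
    have hs : s.val < Q := ZMod.val_lt s
    rw [hval s]
    by_cases hc : Q - h ≤ s.val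
    · rw [if_pos hc]
      have e1 : (s.val + h) % Q = s.val + h - Q := by
        rw [Nat.mod_eq_sub_mod (by omega), Nat.mod_eq_of_lt (by omega)]
      rw [e1]
      have e2 : Nat.dist s.val (s.val + h - Q) = Q - h := by
        unfold Nat.dist
        omega
      have e3 := happ s.val (s.val + h - Q) (by omega)
        (le_trans (by exact_mod_cast hs.le) hQA)
        (le_trans (by
          have : s.val + h - Q ≤ Q := by omega
          exact_mod_cast this) hQA)
      rw [e2, ← hk] at e3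
      have e4 : KK N w s.val (s.val + h - Q) - k h =
          (KK N w s.val (s.val + h - Q) - k (Q - h)) + k (Q - h) + (- k h) := by ring
      rw [e4]
      have e5 := abs_add_three (KK N w s.val (s.val + h - Q) - k (Q - h)) (k (Q - h)) (- k h)
      rw [abs_neg] at e5
      linarith
    · rw [if_neg hc, add_zero]
      have e1 : (s.val + h) % Q = s.val + h := Nat.mod_eq_of_lt (by omega)
      rw [e1]
      have e2 : Nat.dist s.val (s.val + h) = h := by
        unfold Nat.dist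
        omega
      have e3 := happ s.val (s.val + h) (by omega)
        (le_trans (by exact_mod_cast hs.le) hQA)
        (le_trans (by
          have : s.val + h ≤ Q := by omega
          exact_mod_cast this) hQA)
      rw [e2, ← hk] at e3
      exact e3
  have hcard : (((Finset.univ : Finset (ZMod Q)).filter (fun s => Q - h ≤ s.val)).card : ℝ) ≤ h := by
    have h3 : ((Finset.univ : Finset (ZMod Q)).filter (fun s => Q - h ≤ s.val)).card ≤
        (Finset.Ico (Q - h) Q).card := by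
      apply Finset.card_le_card_of_injOn (fun s => s.val)
      · intro s hs
        rw [Finset.mem_coe, Finset.mem_filter] at hs
        rw [Finset.mem_coe, Finset.mem_Ico]
        exact ⟨hs.2, ZMod.val_lt s⟩
      · intro a _ b _ hab
        exact ZMod.val_injective Q hab
    rw [Nat.card_Ico] at h3
    have h4 : ((Finset.univ : Finset (ZMod Q)).filter (fun s => Q - h ≤ s.val)).card ≤ h := by
      omega
    exact_mod_cast h4
  have hnn : 0 ≤ |k h| + |k (Q - h)| := by positivity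
  have hsum : |∑ s : ZMod Q, (KK N w s.val (s + (h : ZMod Q)).val - k h)| ≤
      Q * κ + h * (|k h| + |k (Q - h)|) := by
    refine (Finset.abs_sum_le_sum_abs _ _).trans ((Finset.sum_le_sum fun s _ => hpt s).trans ?_)
    rw [Finset.sum_add_distrib, Finset.sum_const, Finset.card_univ, ZMod.card, nsmul_eq_mul,
      ← Finset.sum_filter, Finset.sum_const, nsmul_eq_mul]
    have := mul_le_mul_of_nonneg_right hcard hnn
    linarith
  have heq : kt N w Q (h : ZMod Q) - k h =
      (∑ s : ZMod Q, (KK N w s.val (s + (h : ZMod Q)).val - k h)) / Q := by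
    unfold kt
    rw [Finset.sum_sub_distrib, Finset.sum_const, Finset.card_univ, ZMod.card, nsmul_eq_mul,
      sub_div, mul_div_cancel_left₀ _ hQ0.ne']
  rw [heq, abs_div, abs_of_pos hQ0, div_le_iff₀ hQ0]
  refine hsum.trans (le_of_eq ?_)
  field_simp

/-- F5c: near 0 the circulant kernel is the pair correlation minus the singular series. -/
theorem kt_near (ε : ℝ) (hε : 0 < ε) : ∃ η : ℝ, 0 < η ∧ η ≤ 1 / 2 ∧ ∃ w0 : ℕ, ∀ w : ℕ, w0 ≤ w →
    ∃ K0 : ℝ, ∀ A : ℕ, ∀ᶠ N : ℕ in atTop, ∀ (Q : ℕ) [NeZero Q], K0 * Real.log N ≤ Q →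
    (Q:ℝ) ≤ (Real.log N) ^ A →
      ∑ h ∈ Finset.Icc 1 ⌊η * Q⌋₊, |kt N w Q (h : ZMod Q) -
        (rr N ![0, h] - singularSeries {0, h})| ≤ ε * (η * Q) := by
  classical
  obtain ⟨C, hC1, hKsq⟩ := KK_sq
  have hC0 : 0 < C := by linarith
  obtain ⟨w1, hw1⟩ := ApNear_sing (ε / 2) (by positivity)
  set η : ℝ := min (1 / 2) (ε ^ 2 / (128 * C)) with hη
  have hη0 : 0 < η := lt_min (by norm_num) (by positivity)
  have hη2 : η ≤ 1 / 2 := min_le_left _ _
  have hη3 : η ≤ ε ^ 2 / (128 * C) := min_le_right _ _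
  refine ⟨η, hη0, hη2, max w1 2, fun w hw => ?_⟩
  have hww1 : w1 ≤ w := (le_max_left _ _).trans hw
  have hw2 : 2 ≤ w := (le_max_right _ _).trans hw
  obtain ⟨M0, hM0⟩ := hw1 w hww1
  refine ⟨1, fun A => ?_⟩
  have hlog : ∀ᶠ N : ℕ in atTop, ((M0:ℝ) + 1) / η ≤ Real.log N :=
    (Real.tendsto_log_atTop.comp tendsto_natCast_atTop_atTop).eventually_ge_atTop _
  filter_upwards [KK_approx w hw2 (ε / 4) (by positivity) A, hKsq w hw2 A, hlog] with N happ hsq hlogN
  intro Q _ hQ1 hQA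
  rw [one_mul] at hQ1
  have hQpos : (0:ℝ) < Q := by
    have : 0 < ((M0:ℝ) + 1) / η := by positivity
    linarith
  have hQpos' : 0 < Q := by exact_mod_cast hQpos
  have hQone : (1:ℝ) ≤ Q := by exact_mod_cast hQpos'
  set M := ⌊η * Q⌋₊ with hM
  have hMle : (M:ℝ) ≤ η * Q := Nat.floor_le (by positivity)
  have hMM0 : M0 ≤ M := by
    apply Nat.le_floor
    have h1 : ((M0:ℝ) + 1) / η ≤ Q := hlogN.trans hQ1
    rw [div_le_iff₀ hη0] at h1
    linarith
  have hMQ : 2 * M ≤ Q := by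
    have : (2:ℝ) * M ≤ Q := by nlinarith
    exact_mod_cast this
  set k : ℕ → ℝ := fun h => rr N ![0, h] - SP (PPy w) {0, h} with hk
  have hsq' : ∑ h ∈ Finset.Icc 1 Q, (k h) ^ 2 ≤ C * ((Q:ℝ) + 1) := hsq Q hQA
  -- the two Cauchy-Schwarz bounds
  have hbd : ∀ f : ℕ → ℝ, ∑ h ∈ Finset.Icc 1 M, (f h) ^ 2 ≤ C * ((Q:ℝ) + 1) →
      ∑ h ∈ Finset.Icc 1 M, |f h| ≤ (ε / 8) * Q := by
    intro f hf
    have h1 : (∑ h ∈ Finset.Icc 1 M, |f h|) ^ 2 ≤ (M:ℝ) * ∑ h ∈ Finset.Icc 1 M, (f h) ^ 2 := by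
      have h2 := sq_sum_le_card_mul_sum_sq (s := Finset.Icc 1 M) (f := fun h => |f h|)
      rw [Nat.card_Icc] at h2
      simp only [sq_abs] at h2
      simpa using h2
    have h3 : (M:ℝ) * ∑ h ∈ Finset.Icc 1 M, (f h) ^ 2 ≤ (η * Q) * (C * (2 * Q)) := by
      refine mul_le_mul hMle (hf.trans ?_) (Finset.sum_nonneg fun h _ => sq_nonneg _)
        (by positivity)
      exact mul_le_mul_of_nonneg_left (by linarith) hC0.le
    have h4 : (η * Q) * (C * (2 * Q)) ≤ ((ε / 8) * Q) ^ 2 := by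
      have h5 : η * (128 * C) ≤ ε ^ 2 := by
        rwa [le_div_iff₀ (by positivity)] at hη3
      have h6 : (η * (128 * C)) * ((Q:ℝ) ^ 2 / 64) ≤ ε ^ 2 * ((Q:ℝ) ^ 2 / 64) :=
        mul_le_mul_of_nonneg_right h5 (by positivity)
      calc (η * Q) * (C * (2 * Q)) = (η * (128 * C)) * ((Q:ℝ) ^ 2 / 64) := by ring
        _ ≤ ε ^ 2 * ((Q:ℝ) ^ 2 / 64) := h6
        _ = ((ε / 8) * Q) ^ 2 := by ring
    exact abs_le_of_sq_le_sq' (h1.trans (h3.trans h4)) (by positivity) |>.2
  have hT1 : ∑ h ∈ Finset.Icc 1 M, |k h| ≤ (ε / 8) * Q := by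
    refine hbd k (le_trans ?_ hsq')
    refine Finset.sum_le_sum_of_subset_of_nonneg ?_ fun _ _ _ => sq_nonneg _
    exact Finset.Icc_subset_Icc le_rfl (by omega)
  have hT2 : ∑ h ∈ Finset.Icc 1 M, |k (Q - h)| ≤ (ε / 8) * Q := by
    refine hbd (fun h => k (Q - h)) (le_trans ?_ hsq')
    have hinj : Set.InjOn (fun h : ℕ => Q - h) (Finset.Icc 1 M : Finset ℕ) := by
      intro a ha b hb hab
      rw [Finset.mem_coe, Finset.mem_Icc] at ha hb
      simp only at hab
      omega
    have h1 : ∑ h ∈ Finset.Icc 1 M, (k (Q - h)) ^ 2 =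
        ∑ h ∈ (Finset.Icc 1 M).image (fun h : ℕ => Q - h), (k h) ^ 2 := by
      rw [Finset.sum_image hinj]
    rw [h1]
    refine Finset.sum_le_sum_of_subset_of_nonneg ?_ fun _ _ _ => sq_nonneg _
    intro x hx
    rw [Finset.mem_image] at hx
    obtain ⟨h, hh, rfl⟩ := hx
    rw [Finset.mem_Icc] at hh ⊢
    omega
  have hstep : ∀ h ∈ Finset.Icc 1 M, |kt N w Q (h : ZMod Q) -
      (rr N ![0, h] - singularSeries {0, h})| ≤
      (ε / 4 + η * (|k h| + |k (Q - h)|)) + |SP (PPy w) {0, h} - singularSeries {0, h}| := by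
    intro h hh
    rw [Finset.mem_Icc] at hh
    have h1 := ApNear_kt w N Q A (ε / 4) hQA happ k (fun _ => rfl) h hh.1
      (by omega)
    have h2 : (h:ℝ) / Q ≤ η := by
      rw [div_le_iff₀ hQpos]
      have : (h:ℝ) ≤ M := by exact_mod_cast hh.2
      linarith
    have h3 : ((h:ℝ) / Q) * (|k h| + |k (Q - h)|) ≤ η * (|k h| + |k (Q - h)|) :=
      mul_le_mul_of_nonneg_right h2 (by positivity)
    have h4 : kt N w Q (h : ZMod Q) - (rr N ![0, h] - singularSeries {0, h}) =
        (kt N w Q (h : ZMod Q) - k h) - (SP (PPy w) {0, h} - singularSeries {0, h}) := by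
      simp only [hk]
      ring
    rw [h4]
    have h5 := abs_sub (kt N w Q (h : ZMod Q) - k h) (SP (PPy w) {0, h} - singularSeries {0, h})
    linarith
  refine (Finset.sum_le_sum hstep).trans ?_
  rw [Finset.sum_add_distrib, Finset.sum_add_distrib, Finset.sum_const, Nat.card_Icc,
    nsmul_eq_mul, ← Finset.mul_sum, Finset.sum_add_distrib]
  have hs := hM0 M hMM0
  have h6 : ((M + 1 - 1 : ℕ) : ℝ) = M := by norm_num
  rw [h6]
  have h7 : (M:ℝ) * (ε / 4) ≤ (η * Q) * (ε / 4) :=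
    mul_le_mul_of_nonneg_right hMle (by positivity)
  have h8 : η * (∑ h ∈ Finset.Icc 1 M, |k h| + ∑ h ∈ Finset.Icc 1 M, |k (Q - h)|) ≤
      η * ((ε / 8) * Q + (ε / 8) * Q) :=
    mul_le_mul_of_nonneg_left (add_le_add hT1 hT2) hη0.le
  have h9 : (ε / 2) * (M:ℝ) ≤ (ε / 2) * (η * Q) :=
    mul_le_mul_of_nonneg_left hMle (by positivity)
  nlinarith

end Pool.Agent.HLT
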