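import Mathlib
import Pool.Agent.HLT.APBlock
import Pool.Agent.HLT.ApTrunc
import Pool.Agent.HLT.ApKernel
import Pool.Agent.HLT.ApShift

set_option autoImplicit false

open Finset Filter

namespace Pool.Agent.HLT

open Pool.Agent.HL26 Pool.Agent.Maynard

namespace F5dH16

/-! ### Fourier part -/

section Fourier

variable {Q : ℕ} [NeZero Q]


lemma sum_char (b : ZMod Q) : ∑ x : ZMod Q, ZMod.stdAddChar (x * b) = if b = 0 then (Q : ℂ) else 0 := by
  have h := AddChar.sum_mulShift b (ZMod.isPrimitive_stdAddChar Q)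
  rw [h]
  simp [ZMod.card]

lemma fh_synth (a : ZMod Q → ℂ) (η : ZMod Q) : fh (fun h => ∑ ξ, a ξ * ZMod.stdAddChar (ξ * h)) η = a η := by
  have hQ : (Q : ℂ) ≠ 0 := by exact_mod_cast NeZero.ne Q
  unfold fh
  rw [div_eq_iff hQ]
  calc ∑ t, (∑ ξ, a ξ * ZMod.stdAddChar (ξ * t)) * ZMod.stdAddChar (-(η * t))
      = ∑ t, ∑ ξ, a ξ * ZMod.stdAddChar (t * (ξ - η)) := by
        refine Finset.sum_congr rfl fun t _ => ?_
        rw [Finset.sum_mul]
        refine Finset.sum_congr rfl fun ξ _ => ?_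
        rw [mul_assoc, ← AddChar.map_add_eq_mul]
        congr 2; ring
    _ = ∑ ξ, a ξ * ∑ t, ZMod.stdAddChar (t * (ξ - η)) := by
        rw [Finset.sum_comm]
        refine Finset.sum_congr rfl fun ξ _ => ?_
        rw [Finset.mul_sum]
    _ = a η * Q := by
        rw [Finset.sum_eq_single η]
        · rw [sum_char, sub_self, if_pos rfl]
        · intro ξ _ hξ
          rw [sum_char, if_neg (sub_ne_zero.mpr hξ), mul_zero]
        · simp

lemma synth_sq (a : ZMod Q → ℂ) :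
    ∑ h, ‖∑ ξ, a ξ * ZMod.stdAddChar (ξ * h)‖ ^ 2 = Q * ∑ ξ, ‖a ξ‖ ^ 2 := by
  have hQ : (Q : ℝ) ≠ 0 := by exact_mod_cast NeZero.ne Q
  have h := fh_parseval (fun h => ∑ ξ, a ξ * ZMod.stdAddChar (ξ * h))
  simp only [fh_synth] at h
  rw [h]; field_simp

lemma synth_l1 (a : ZMod Q → ℂ) (δ : ℝ) (hδ : 0 ≤ δ) (ha : ∑ ξ, ‖a ξ‖ ^ 2 ≤ δ ^ 2) :
    ∑ h, ‖∑ ξ, a ξ * ZMod.stdAddChar (ξ * h)‖ ≤ δ * Q := by
  have hQ : (0 : ℝ) ≤ Q := Nat.cast_nonneg _
  have h1 := sq_sum_le_card_mul_sum_sq (s := (univ : Finset (ZMod Q)))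
    (f := fun h => ‖∑ ξ, a ξ * ZMod.stdAddChar (ξ * h)‖)
  rw [synth_sq, Finset.card_univ, ZMod.card] at h1
  have h2 : (∑ h, ‖∑ ξ, a ξ * ZMod.stdAddChar (ξ * h)‖) ^ 2 ≤ (δ * Q) ^ 2 := by
    refine h1.trans ?_
    have : (Q:ℝ) * (Q * ∑ ξ, ‖a ξ‖ ^ 2) ≤ Q * (Q * δ ^ 2) :=
      mul_le_mul_of_nonneg_left (mul_le_mul_of_nonneg_left ha hQ) hQ
    refine this.trans (le_of_eq ?_)
    ring
  exact (sq_le_sq₀ (Finset.sum_nonneg fun _ _ => norm_nonneg _) (by positivity)).mp h2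

lemma corr_fourier (u v : ZMod Q → ℂ) (h : ZMod Q) :
    (∑ s, u s * v (s + h)) / (Q:ℂ) = ∑ ξ, fh u (-ξ) * fh v ξ * ZMod.stdAddChar (ξ * h) := by
  have hQ : (Q : ℂ) ≠ 0 := by exact_mod_cast NeZero.ne Q
  rw [div_eq_iff hQ]
  calc ∑ s, u s * v (s + h)
      = ∑ s, ∑ ξ, fh v ξ * ZMod.stdAddChar (ξ * h) * (u s * ZMod.stdAddChar (ξ * s)) := by
        refine Finset.sum_congr rfl fun s _ => ?_
        rw [fh_inv v (s + h), Finset.mul_sum]
        refine Finset.sum_congr rfl fun ξ _ => ?_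
        rw [mul_add, AddChar.map_add_eq_mul]; ring
    _ = ∑ ξ, fh v ξ * ZMod.stdAddChar (ξ * h) * ∑ s, u s * ZMod.stdAddChar (ξ * s) := by
        rw [Finset.sum_comm]
        refine Finset.sum_congr rfl fun ξ _ => ?_
        rw [Finset.mul_sum]
    _ = (∑ ξ, fh u (-ξ) * fh v ξ * ZMod.stdAddChar (ξ * h)) * Q := by
        rw [Finset.sum_mul]
        refine Finset.sum_congr rfl fun ξ _ => ?_
        have h1 : ∑ s, u s * ZMod.stdAddChar (ξ * s) = fh u (-ξ) * Q := by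
          unfold fh
          rw [div_mul_cancel₀ _ hQ]
          refine Finset.sum_congr rfl fun s _ => ?_
          congr 2; ring
        rw [h1]; ring

lemma fh_sq_le (u : ZMod Q → ℂ) (hu : ∀ t, ‖u t‖ ≤ 1) : ∑ ξ, ‖fh u ξ‖ ^ 2 ≤ 1 := by
  have hQ : (0 : ℝ) < Q := by exact_mod_cast (NeZero.pos Q)
  rw [fh_parseval, div_le_one hQ]
  calc ∑ t, ‖u t‖ ^ 2 ≤ ∑ _t : ZMod Q, (1:ℝ) :=
        Finset.sum_le_sum fun t _ => pow_le_one₀ (norm_nonneg _) (hu t)
    _ = Q := by simp [ZMod.card]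

lemma fh_le (u : ZMod Q → ℂ) (hu : ∀ t, ‖u t‖ ≤ 1) (ξ : ZMod Q) : ‖fh u ξ‖ ≤ 1 := by
  have h1 : ‖fh u ξ‖ ^ 2 ≤ 1 := (Finset.single_le_sum (f := fun ξ => ‖fh u ξ‖ ^ 2)
    (fun i _ => sq_nonneg _) (mem_univ ξ)).trans (fh_sq_le u hu)
  exact (sq_le_one_iff₀ (norm_nonneg _)).mp h1

lemma card_large (u : ZMod Q → ℂ) (hu : ∀ t, ‖u t‖ ≤ 1) (δ : ℝ) (hδ : 0 < δ) :
    (((univ : Finset (ZMod Q)).filter (fun ξ => δ ≤ ‖fh u ξ‖)).card : ℝ) ≤ 1 / δ ^ 2 := by
  rw [le_div_iff₀ (by positivity)]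
  calc (((univ : Finset (ZMod Q)).filter (fun ξ => δ ≤ ‖fh u ξ‖)).card : ℝ) * δ ^ 2
      = ∑ _ξ ∈ (univ : Finset (ZMod Q)).filter (fun ξ => δ ≤ ‖fh u ξ‖), δ ^ 2 := by
        rw [Finset.sum_const, nsmul_eq_mul]
    _ ≤ ∑ ξ ∈ (univ : Finset (ZMod Q)).filter (fun ξ => δ ≤ ‖fh u ξ‖), ‖fh u ξ‖ ^ 2 :=
        Finset.sum_le_sum fun ξ hξ => pow_le_pow_left₀ hδ.le (Finset.mem_filter.mp hξ).2 2
    _ ≤ ∑ ξ, ‖fh u ξ‖ ^ 2 := Finset.sum_le_sum_of_subset_of_nonneg (Finset.filter_subset _ _)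
        fun _ _ _ => sq_nonneg _
    _ ≤ 1 := fh_sq_le u hu

theorem colour_trig {C : Type} [Fintype C] [DecidableEq C] (γ : ZMod Q → C) (G : C → C → ℝ)
    (B : ℝ) (hG : ∀ c c', |G c c'| ≤ B) (δ : ℝ) (hδ : 0 < δ) :
    ∃ (S : Finset (ZMod Q)) (b : ZMod Q → ℂ), (S.card : ℝ) ≤ Fintype.card C / δ ^ 2 ∧
      (∀ ξ, ‖b ξ‖ ≤ (Fintype.card C : ℝ) ^ 2 * B) ∧
      ∑ h : ZMod Q, ‖(((∑ s, G (γ s) (γ (s + h))) / Q : ℝ) : ℂ) - ∑ ξ ∈ S, b ξ * ZMod.stdAddChar (ξ * h)‖ ≤
        (Fintype.card C : ℝ) ^ 2 * B * δ * Q := by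
  classical
  have hQ : (0 : ℝ) < Q := by exact_mod_cast (NeZero.pos Q)
  let u : C → ZMod Q → ℂ := fun c s => if γ s = c then 1 else 0
  have hu : ∀ c t, ‖u c t‖ ≤ 1 := by
    intro c t; simp only [u]; split_ifs <;> simp
  let S : Finset (ZMod Q) := univ.biUnion
    (fun c => (univ : Finset (ZMod Q)).filter (fun ξ => δ ≤ ‖fh (u c) ξ‖))
  have hS : ∀ ξ, ξ ∉ S → ∀ c, ‖fh (u c) ξ‖ ≤ δ := by
    intro ξ hξ c
    by_contra hcon
    push Not at hcon
    exact hξ (Finset.mem_biUnion.mpr ⟨c, mem_univ _, Finset.mem_filter.mpr ⟨mem_univ _, hcon.le⟩⟩)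
  let b : ZMod Q → ℂ := fun ξ => ∑ c, ∑ c', (G c c' : ℂ) * (fh (u c) (-ξ) * fh (u c') ξ)
  refine ⟨S, b, ?_, ?_, ?_⟩
  · calc (S.card : ℝ) ≤ ((∑ c : C, ((univ : Finset (ZMod Q)).filter
            (fun ξ => δ ≤ ‖fh (u c) ξ‖)).card : ℕ) : ℝ) := by
          exact_mod_cast Finset.card_biUnion_le
      _ = ∑ c : C, (((univ : Finset (ZMod Q)).filter (fun ξ => δ ≤ ‖fh (u c) ξ‖)).card : ℝ) := by
          push_cast; rfl
      _ ≤ ∑ _c : C, 1 / δ ^ 2 := Finset.sum_le_sum fun c _ => card_large (u c) (hu c) δ hδ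
      _ = Fintype.card C / δ ^ 2 := by
          rw [Finset.sum_const, nsmul_eq_mul, Finset.card_univ]; ring
  · intro ξ
    have h1 : ∀ c c', ‖(G c c' : ℂ) * (fh (u c) (-ξ) * fh (u c') ξ)‖ ≤ B := by
      intro c c'
      rw [norm_mul, norm_mul, Complex.norm_real, Real.norm_eq_abs]
      have h2 : ‖fh (u c) (-ξ)‖ * ‖fh (u c') ξ‖ ≤ 1 :=
        mul_le_one₀ (fh_le _ (hu c) _) (norm_nonneg _) (fh_le _ (hu c') _)
      calc |G c c'| * (‖fh (u c) (-ξ)‖ * ‖fh (u c') ξ‖) ≤ |G c c'| * 1 :=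
            mul_le_mul_of_nonneg_left h2 (abs_nonneg _)
        _ ≤ B := by rw [mul_one]; exact hG c c'
    calc ‖b ξ‖ ≤ ∑ c, ‖∑ c', (G c c' : ℂ) * (fh (u c) (-ξ) * fh (u c') ξ)‖ := norm_sum_le _ _
      _ ≤ ∑ c, ∑ c', ‖(G c c' : ℂ) * (fh (u c) (-ξ) * fh (u c') ξ)‖ :=
          Finset.sum_le_sum fun c _ => norm_sum_le _ _
      _ ≤ ∑ _c : C, ∑ _c' : C, B := Finset.sum_le_sum fun c _ => Finset.sum_le_sum fun c' _ => h1 c c'
      _ = (Fintype.card C : ℝ) ^ 2 * B := by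
          simp only [Finset.sum_const, nsmul_eq_mul, Finset.card_univ]; ring
  · -- the error
    have hB0 : ∀ c c' : C, 0 ≤ B := fun c c' => (abs_nonneg _).trans (hG c c')
    let D : C → C → ZMod Q → ℂ := fun c c' h =>
      ∑ ξ, (if ξ ∈ S then 0 else fh (u c) (-ξ) * fh (u c') ξ) * ZMod.stdAddChar (ξ * h)
    have hD : ∀ c c', ∑ h, ‖D c c' h‖ ≤ δ * Q := by
      intro c c'
      refine synth_l1 _ δ hδ.le ?_
      calc ∑ ξ, ‖(if ξ ∈ S then 0 else fh (u c) (-ξ) * fh (u c') ξ)‖ ^ 2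
          ≤ ∑ ξ, ‖fh (u c) (-ξ)‖ ^ 2 * δ ^ 2 := by
            refine Finset.sum_le_sum fun ξ _ => ?_
            split_ifs with hξ
            · rw [norm_zero, zero_pow two_ne_zero]; positivity
            · rw [norm_mul, mul_pow]
              exact mul_le_mul_of_nonneg_left
                (pow_le_pow_left₀ (norm_nonneg _) (hS ξ hξ c') 2) (sq_nonneg _)
        _ = (∑ ξ, ‖fh (u c) (-ξ)‖ ^ 2) * δ ^ 2 := by rw [Finset.sum_mul]
        _ = (∑ ξ, ‖fh (u c) ξ‖ ^ 2) * δ ^ 2 := by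
            congr 1
            exact Equiv.sum_comp (Equiv.neg (ZMod Q)) (fun ξ => ‖fh (u c) ξ‖ ^ 2)
        _ ≤ 1 * δ ^ 2 := mul_le_mul_of_nonneg_right (fh_sq_le _ (hu c)) (sq_nonneg _)
        _ = δ ^ 2 := one_mul _
    have hkey : ∀ h : ZMod Q, (((∑ s, G (γ s) (γ (s + h))) / Q : ℝ) : ℂ) - ∑ ξ ∈ S, b ξ * ZMod.stdAddChar (ξ * h) =
        ∑ c, ∑ c', (G c c' : ℂ) * D c c' h := by
      intro h
      have e1 : ∀ s s' : ZMod Q, ((G (γ s) (γ s') : ℝ) : ℂ) =
          ∑ c, ∑ c', (G c c' : ℂ) * (u c s * u c' s') := by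
        intro s s'
        rw [Finset.sum_eq_single (γ s)]
        · rw [Finset.sum_eq_single (γ s')]
          · simp [u]
          · intro c' _ hc'
            simp [u, Ne.symm hc']
          · simp
        · intro c _ hc
          refine Finset.sum_eq_zero fun c' _ => ?_
          simp [u, Ne.symm hc]
        · simp
      have e2 : (((∑ s, G (γ s) (γ (s + h))) / Q : ℝ) : ℂ) =
          ∑ c, ∑ c', (G c c' : ℂ) * ∑ ξ, fh (u c) (-ξ) * fh (u c') ξ * ZMod.stdAddChar (ξ * h) := by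
        push_cast
        calc (∑ s, (G (γ s) (γ (s + h)) : ℂ)) / (Q:ℂ)
            = (∑ s, ∑ c, ∑ c', (G c c' : ℂ) * (u c s * u c' (s + h))) / (Q:ℂ) := by
              congr 1
              exact Finset.sum_congr rfl fun s _ => e1 s (s + h)
          _ = ∑ c, ∑ c', (G c c' : ℂ) * ((∑ s, u c s * u c' (s + h)) / (Q:ℂ)) := by
              rw [Finset.sum_comm, Finset.sum_div]
              refine Finset.sum_congr rfl fun c _ => ?_
              rw [Finset.sum_comm, Finset.sum_div]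
              refine Finset.sum_congr rfl fun c' _ => ?_
              rw [← Finset.mul_sum, mul_div_assoc]
          _ = _ := by
              refine Finset.sum_congr rfl fun c _ => Finset.sum_congr rfl fun c' _ => ?_
              rw [corr_fourier]
      have e3 : ∑ ξ ∈ S, b ξ * ZMod.stdAddChar (ξ * h) =
          ∑ c, ∑ c', (G c c' : ℂ) * ∑ ξ ∈ S, fh (u c) (-ξ) * fh (u c') ξ * ZMod.stdAddChar (ξ * h) := by
        calc ∑ ξ ∈ S, b ξ * ZMod.stdAddChar (ξ * h)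
            = ∑ ξ ∈ S, ∑ c, ∑ c', (G c c' : ℂ) * (fh (u c) (-ξ) * fh (u c') ξ * ZMod.stdAddChar (ξ * h)) := by
              refine Finset.sum_congr rfl fun ξ _ => ?_
              simp only [b]
              rw [Finset.sum_mul]
              refine Finset.sum_congr rfl fun c _ => ?_
              rw [Finset.sum_mul]
              refine Finset.sum_congr rfl fun c' _ => ?_
              ring
          _ = _ := by
              rw [Finset.sum_comm]
              refine Finset.sum_congr rfl fun c _ => ?_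
              rw [Finset.sum_comm]
              refine Finset.sum_congr rfl fun c' _ => ?_
              rw [← Finset.mul_sum]
      rw [e2, e3, ← Finset.sum_sub_distrib]
      refine Finset.sum_congr rfl fun c _ => ?_
      rw [← Finset.sum_sub_distrib]
      refine Finset.sum_congr rfl fun c' _ => ?_
      rw [← mul_sub]
      congr 1
      simp only [D]
      have e4 : ∑ ξ ∈ S, fh (u c) (-ξ) * fh (u c') ξ * ZMod.stdAddChar (ξ * h) =
          ∑ ξ, (if ξ ∈ S then fh (u c) (-ξ) * fh (u c') ξ * ZMod.stdAddChar (ξ * h) else 0) := by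
        rw [← Finset.sum_filter]
        congr 1
        ext ξ; simp
      rw [e4, ← Finset.sum_sub_distrib]
      refine Finset.sum_congr rfl fun ξ _ => ?_
      split_ifs <;> ring
    calc ∑ h : ZMod Q, ‖(((∑ s, G (γ s) (γ (s + h))) / Q : ℝ) : ℂ) - ∑ ξ ∈ S, b ξ * ZMod.stdAddChar (ξ * h)‖
        ≤ ∑ h : ZMod Q, ∑ c, ∑ c', B * ‖D c c' h‖ := by
          refine Finset.sum_le_sum fun h _ => ?_
          rw [hkey h]
          refine (norm_sum_le _ _).trans (Finset.sum_le_sum fun c _ => ?_)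
          refine (norm_sum_le _ _).trans (Finset.sum_le_sum fun c' _ => ?_)
          rw [norm_mul, Complex.norm_real, Real.norm_eq_abs]
          exact mul_le_mul_of_nonneg_right (hG c c') (norm_nonneg _)
      _ = ∑ c, ∑ c', B * ∑ h : ZMod Q, ‖D c c' h‖ := by
          rw [Finset.sum_comm]
          refine Finset.sum_congr rfl fun c _ => ?_
          rw [Finset.sum_comm]
          refine Finset.sum_congr rfl fun c' _ => ?_
          rw [Finset.mul_sum]
      _ ≤ ∑ _c : C, ∑ _c' : C, B * (δ * Q) := Finset.sum_le_sum fun c _ => Finset.sum_le_sum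
          fun c' _ => mul_le_mul_of_nonneg_left (hD c c') (hB0 c c')
      _ = (Fintype.card C : ℝ) ^ 2 * B * δ * Q := by
          simp only [Finset.sum_const, nsmul_eq_mul, Finset.card_univ]; ring

end Fourier

/-! ### Padding -/

lemma sum_fin_pad {R n : ℕ} (hn : n ≤ R) (f : Fin n → ℂ) :
    ∑ i : Fin R, (if h : i.1 < n then f ⟨i.1, h⟩ else 0) = ∑ i : Fin n, f i := by
  let F : ℕ → ℂ := fun i => if h : i < n then f ⟨i, h⟩ else 0
  have h1 : ∑ i : Fin R, (if h : i.1 < n then f ⟨i.1, h⟩ else 0) = ∑ i ∈ Finset.range R, F i :=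
    Fin.sum_univ_eq_sum_range F R
  have h2 : ∑ i : Fin n, f i = ∑ i ∈ Finset.range n, F i := by
    rw [← Fin.sum_univ_eq_sum_range F n]
    refine Finset.sum_congr rfl fun i _ => ?_
    simp only [F]
    rw [dif_pos i.2]
  rw [h1, h2]
  symm
  refine Finset.sum_subset (Finset.range_mono hn) ?_
  intro i _ hi
  rw [Finset.mem_range] at hi
  simp only [F]
  rw [dif_neg hi]

lemma pad {Q : ℕ} [NeZero Q] (S : Finset (ZMod Q)) (b : ZMod Q → ℂ) (R : ℕ) (hR : S.card ≤ R)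
    (M : ℝ) (hM : 0 ≤ M) (hb : ∀ ξ, ‖b ξ‖ ≤ M) :
    ∃ (ξ : Fin R → ZMod Q) (b' : Fin R → ℂ), (∀ i, ‖b' i‖ ≤ M) ∧
      ∀ h : ZMod Q, ∑ i, b' i * ZMod.stdAddChar (ξ i * h) =
        ∑ x ∈ S, b x * ZMod.stdAddChar (x * h) := by
  let E := S.equivFin
  refine ⟨fun i => if h : i.1 < S.card then (E.symm ⟨i.1, h⟩ : ZMod Q) else 0,
    fun i => if h : i.1 < S.card then b (E.symm ⟨i.1, h⟩ : ZMod Q) else 0, ?_, ?_⟩
  · intro i
    dsimp only
    split_ifs with h
    · exact hb _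
    · rw [norm_zero]; exact hM
  · intro h
    have h1 : ∑ i : Fin R, (if h : i.1 < S.card then b (E.symm ⟨i.1, h⟩ : ZMod Q) else 0) *
        ZMod.stdAddChar ((if h : i.1 < S.card then (E.symm ⟨i.1, h⟩ : ZMod Q) else 0) * h) =
        ∑ i : Fin R, (if h' : i.1 < S.card then
          (fun j : Fin S.card => b (E.symm j : ZMod Q) * ZMod.stdAddChar ((E.symm j : ZMod Q) * h))
            ⟨i.1, h'⟩ else 0) := by
      refine Finset.sum_congr rfl fun i _ => ?_
      split_ifs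
      · rfl
      · rw [zero_mul]
    rw [h1]
    refine (sum_fin_pad hR (fun j : Fin S.card =>
      b (E.symm j : ZMod Q) * ZMod.stdAddChar ((E.symm j : ZMod Q) * h))).trans ?_
    rw [Equiv.sum_comp E.symm (fun x : S => b (x : ZMod Q) * ZMod.stdAddChar ((x : ZMod Q) * h))]
    exact Finset.sum_coe_sort S (fun x => b x * ZMod.stdAddChar (x * h))

/-! ### Sums over pairs -/

lemma sum_zmod {Q : ℕ} [NeZero Q] {M : Type} [AddCommMonoid M] (f : ℕ → M) :
    ∑ s : ZMod Q, f s.val = ∑ i ∈ Finset.range Q, f i := by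
  refine Finset.sum_bij (fun s _ => s.val) ?_ ?_ ?_ ?_
  · intro s _
    exact Finset.mem_range.mpr (ZMod.val_lt s)
  · intro s _ t _ h
    exact ZMod.val_injective Q h
  · intro i hi
    exact ⟨(i : ZMod Q), mem_univ _, ZMod.val_cast_of_lt (Finset.mem_range.mp hi)⟩
  · intro s _
    rfl

lemma sum_pairs {Q : ℕ} [NeZero Q] (F : ℕ → ℕ → ℝ) :
    ∑ h : ZMod Q, ∑ s : ZMod Q, F s.val (s + h).val =
      ∑ i ∈ Finset.range Q, F i i + ∑ p ∈ (Finset.range Q).offDiag, F p.1 p.2 := by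
  have h1 : ∑ h : ZMod Q, ∑ s : ZMod Q, F s.val (s + h).val =
      ∑ i ∈ Finset.range Q, ∑ j ∈ Finset.range Q, F i j := by
    rw [Finset.sum_comm]
    have h2 : ∀ s : ZMod Q, ∑ h : ZMod Q, F s.val (s + h).val = ∑ j ∈ Finset.range Q, F s.val j := by
      intro s
      rw [← sum_zmod (Q := Q) (fun j => F s.val j)]
      exact Equiv.sum_comp (Equiv.addLeft s) (fun s' : ZMod Q => F s.val s'.val)
    rw [Finset.sum_congr rfl fun s _ => h2 s]
    exact sum_zmod (Q := Q) (fun i => ∑ j ∈ Finset.range Q, F i j)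
  rw [h1, ← Finset.sum_product' (Finset.range Q) (Finset.range Q) (fun i j => F i j),
    ← Finset.diag_union_offDiag, Finset.sum_union (Finset.disjoint_diag_offDiag _)]
  congr 1
  rw [Finset.sum_diag]

lemma sum_dist (Q : ℕ) (k : ℕ → ℝ) (hk : ∀ h, 0 ≤ k h) :
    ∑ p ∈ (Finset.range Q).offDiag, k (Nat.dist p.1 p.2) ≤
      2 * Q * ∑ h ∈ Finset.Icc 1 Q, k h := by
  have key : ∀ i ∈ Finset.range Q, ∑ j ∈ (Finset.range Q).filter (fun j => i ≠ j),
      k (Nat.dist i j) ≤ 2 * ∑ h ∈ Finset.Icc 1 Q, k h := by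
    intro i hi
    rw [Finset.mem_range] at hi
    have h1 : (Finset.range Q).filter (fun j => i ≠ j) =
        (Finset.range Q).filter (fun j => j < i) ∪ (Finset.range Q).filter (fun j => i < j) := by
      ext j
      simp only [Finset.mem_filter, Finset.mem_union, Finset.mem_range]
      omega
    have h2 : Disjoint ((Finset.range Q).filter (fun j => j < i))
        ((Finset.range Q).filter (fun j => i < j)) := by
      rw [Finset.disjoint_filter]
      intro j _ h3 h4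
      omega
    rw [h1, Finset.sum_union h2, two_mul]
    refine add_le_add ?_ ?_
    · have h3 : ∑ j ∈ (Finset.range Q).filter (fun j => j < i), k (Nat.dist i j) =
          ∑ h ∈ ((Finset.range Q).filter (fun j => j < i)).image (fun j => i - j), k h := by
        rw [Finset.sum_image]
        · refine Finset.sum_congr rfl fun j hj => ?_
          have := (Finset.mem_filter.mp hj).2
          rw [Nat.dist_eq_sub_of_le_right this.le]
        · intro j hj j' hj' h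
          have h4 := (Finset.mem_filter.mp hj).2
          have h5 := (Finset.mem_filter.mp hj').2
          simp only at h
          omega
      rw [h3]
      refine Finset.sum_le_sum_of_subset_of_nonneg ?_ fun _ _ _ => hk _
      intro h hh
      obtain ⟨j, hj, rfl⟩ := Finset.mem_image.mp hh
      have h4 := (Finset.mem_filter.mp hj).2
      rw [Finset.mem_Icc]
      omega
    · have h3 : ∑ j ∈ (Finset.range Q).filter (fun j => i < j), k (Nat.dist i j) =
          ∑ h ∈ ((Finset.range Q).filter (fun j => i < j)).image (fun j => j - i), k h := by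
        rw [Finset.sum_image]
        · refine Finset.sum_congr rfl fun j hj => ?_
          have := (Finset.mem_filter.mp hj).2
          rw [Nat.dist_eq_sub_of_le this.le]
        · intro j hj j' hj' h
          have h4 := (Finset.mem_filter.mp hj).2
          have h5 := (Finset.mem_filter.mp hj').2
          simp only at h
          omega
      rw [h3]
      refine Finset.sum_le_sum_of_subset_of_nonneg ?_ fun _ _ _ => hk _
      intro h hh
      obtain ⟨j, hj, rfl⟩ := Finset.mem_image.mp hh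
      have h4 := (Finset.mem_filter.mp hj)
      rw [Finset.mem_range] at h4
      rw [Finset.mem_Icc]
      omega
  have h1 : ∑ p ∈ (Finset.range Q).offDiag, k (Nat.dist p.1 p.2) =
      ∑ i ∈ Finset.range Q, ∑ j ∈ (Finset.range Q).filter (fun j => i ≠ j), k (Nat.dist i j) := by
    have h2 : (Finset.range Q).offDiag = ((Finset.range Q) ×ˢ (Finset.range Q)).filter
        (fun p => p.1 ≠ p.2) := by
      ext p; simp [Finset.mem_offDiag, and_assoc]
    rw [h2, Finset.sum_filter, Finset.sum_product]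
    refine Finset.sum_congr rfl fun i _ => ?_
    rw [Finset.sum_filter]
  rw [h1]
  calc _ ≤ ∑ _i ∈ Finset.range Q, 2 * ∑ h ∈ Finset.Icc 1 Q, k h := Finset.sum_le_sum key
    _ = 2 * Q * ∑ h ∈ Finset.Icc 1 Q, k h := by
        rw [Finset.sum_const, Finset.card_range, nsmul_eq_mul]; ring

lemma card_offDiag_le (Q : ℕ) : (((Finset.range Q).offDiag).card : ℝ) ≤ (Q:ℝ) ^ 2 := by
  rw [Finset.offDiag_card, Finset.card_range]
  have : ((Q * Q - Q : ℕ) : ℝ) ≤ ((Q * Q : ℕ) : ℝ) := by exact_mod_cast Nat.sub_le _ _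
  refine this.trans (le_of_eq ?_)
  push_cast; ring

lemma sum_inj_box {Q : ℕ} (hQ : 1 ≤ Q) (F : (Fin 2 → ℕ) → ℝ) (hF : ∀ e, 0 ≤ F e)
    [DecidablePred (fun e : Fin 2 → ℕ => Function.Injective e)] :
    ∑ p ∈ (Finset.range Q).offDiag, F ![p.1, p.2] ≤
      ∑ e ∈ (box 2 (Q - 1)).filter (fun e => Function.Injective e), F e := by
  have h1 : ∑ p ∈ (Finset.range Q).offDiag, F ![p.1, p.2] =
      ∑ e ∈ ((Finset.range Q).offDiag).image (fun p : ℕ × ℕ => ![p.1, p.2]), F e := by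
    rw [Finset.sum_image]
    intro p _ q _ h
    simp only at h
    have h0 := congrFun h 0
    have h1 := congrFun h 1
    simp at h0 h1
    exact Prod.ext h0 h1
  rw [h1]
  refine Finset.sum_le_sum_of_subset_of_nonneg ?_ fun _ _ _ => hF _
  intro e he
  obtain ⟨p, hp, rfl⟩ := Finset.mem_image.mp he
  rw [Finset.mem_offDiag, Finset.mem_range, Finset.mem_range] at hp
  obtain ⟨h2, h3, h4⟩ := hp
  rw [Finset.mem_filter]
  constructor
  · unfold box
    rw [Fintype.mem_piFinset]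
    intro i
    rw [Finset.mem_range]
    fin_cases i <;> simp <;> omega
  · intro i j hij
    fin_cases i <;> fin_cases j <;> simp at hij ⊢ <;> omega

/-! ### The truncated singular series of pairs -/

/-- bound for the truncated singular series of pairs -/
noncomputable def Smax (w : ℕ) : ℝ := ∏ p ∈ PPy w, ((1 - 1 / (p : ℝ))⁻¹) ^ 2

lemma Smax_nonneg (w : ℕ) : 0 ≤ Smax w := Finset.prod_nonneg fun _ _ => sq_nonneg _

lemma nu_pair (d p : ℕ) : nu {0, d} p = if p ∣ d then 1 else 2 := by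
  unfold nu
  rw [Finset.image_insert, Finset.image_singleton, Nat.cast_zero]
  by_cases h : p ∣ d
  · rw [if_pos h, (ZMod.natCast_eq_zero_iff d p).mpr h]
    simp
  · rw [if_neg h, Finset.card_pair]
    intro h0
    exact h ((ZMod.natCast_eq_zero_iff d p).mp h0.symm)

lemma SP_pair_congr (w d d' : ℕ) (hd : 1 ≤ d) (hd' : 1 ≤ d') (h : ∀ p ∈ PPy w, (p ∣ d ↔ p ∣ d')) :
    SP (PPy w) {0, d} = SP (PPy w) {0, d'} := by
  unfold SP
  refine Finset.prod_congr rfl fun p hp => ?_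
  rw [nu_pair, nu_pair, Finset.card_pair (by omega), Finset.card_pair (by omega)]
  simp only [h p hp]

lemma SP_pair_le (w d : ℕ) (hd : 1 ≤ d) : |SP (PPy w) {0, d}| ≤ Smax w := by
  rw [abs_of_nonneg (SP_nonneg _ (PPy_prime w) _)]
  unfold SP Smax
  refine Finset.prod_le_prod ?_ ?_
  · intro p hp
    have hpp := PPy_prime w p hp
    have hp0 : (0:ℝ) < p := by exact_mod_cast hpp.pos
    have : NeZero p := ⟨hpp.ne_zero⟩
    have h1 : (nu {0, d} p : ℝ) / p ≤ 1 := by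
      rw [div_le_one hp0]
      exact_mod_cast nu_le _ p
    rw [Finset.card_pair (by omega)]
    exact mul_nonneg (sq_nonneg _) (by linarith)
  · intro p hp
    have hpp := PPy_prime w p hp
    have hp0 : (0:ℝ) < p := by exact_mod_cast hpp.pos
    rw [Finset.card_pair (by omega)]
    have h1 : 0 ≤ (nu {0, d} p : ℝ) / p := by positivity
    calc ((1 - 1 / (p : ℝ))⁻¹) ^ 2 * (1 - (nu {0, d} p : ℝ) / (p : ℝ))
        ≤ ((1 - 1 / (p : ℝ))⁻¹) ^ 2 * 1 := mul_le_mul_of_nonneg_left (by linarith) (sq_nonneg _)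
      _ = _ := mul_one _

lemma Wp_pos' (w : ℕ) : 0 < Wp w := Finset.prod_pos fun p hp => (PPy_prime w p hp).pos

/-- the truncated singular series as a function of residues -/
noncomputable def SV (w a b : ℕ) : ℝ := SP (PPy w) {0, Wp w + a - b}

lemma SV_le (w a b : ℕ) (hb : b < Wp w) : |SV w a b| ≤ Smax w :=
  SP_pair_le w _ (by omega)

lemma SV_eq (w i j : ℕ) (hij : i ≠ j) :
    SV w (i % Wp w) (j % Wp w) = SP (PPy w) {0, Nat.dist i j} := by
  have hW := Wp_pos' w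
  have hj := Nat.mod_lt j hW
  unfold SV
  refine SP_pair_congr w _ _ (by omega) (Nat.dist_pos_of_ne hij) ?_
  intro p hp
  have hpW : p ∣ Wp w := Finset.dvd_prod_of_mem _ hp
  have e1 : p ∣ Nat.dist i j ↔ (p : ℤ) ∣ (i : ℤ) - j := by
    rcases le_total i j with h | h
    · rw [Nat.dist_eq_sub_of_le h, ← Int.natCast_dvd_natCast, Nat.cast_sub h,
        ← dvd_neg, neg_sub]
    · rw [Nat.dist_eq_sub_of_le_right h, ← Int.natCast_dvd_natCast, Nat.cast_sub h]
  have hpW' : (p : ℤ) ∣ (Wp w : ℤ) := Int.natCast_dvd_natCast.mpr hpW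
  have e2 : p ∣ Wp w + i % Wp w - j % Wp w ↔ (p : ℤ) ∣ (i : ℤ) - j := by
    rw [← Int.natCast_dvd_natCast, Nat.cast_sub (by omega)]
    push_cast
    have h1 : ((i : ℤ) % (Wp w : ℤ)) = i - Wp w * (i / Wp w) := by
      rw [Int.emod_def]
    have h2 : ((j : ℤ) % (Wp w : ℤ)) = j - Wp w * (j / Wp w) := by
      rw [Int.emod_def]
    rw [h1, h2]
    have h3 : (Wp w : ℤ) + ((i:ℤ) - Wp w * (i / Wp w)) - (j - Wp w * (j / Wp w)) =
        (i - j) + Wp w * (1 - i / Wp w + j / Wp w) := by ring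
    rw [h3]
    exact (Int.dvd_add_left (Dvd.dvd.mul_right hpW' _))
  rw [e1, e2]

/-! ### Pair counts -/

lemma rr_swap (N i j : ℕ) : rr N ![i, j] = rr N ![j, i] := by
  unfold rr
  have h : (Finset.Ioc N (2 * N)).filter (fun n => ∀ x : Fin 2, (n + ![i, j] x).Prime) =
      (Finset.Ioc N (2 * N)).filter (fun n => ∀ x : Fin 2, (n + ![j, i] x).Prime) := by
    refine Finset.filter_congr fun n _ => ?_
    simp [Fin.forall_fin_two, and_comm]
  rw [h]

lemma rr_nonneg (N : ℕ) (_hN : 0 ≤ Real.log N) {r : ℕ} (e : Fin r → ℕ) : 0 ≤ rr N e := by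
  unfold rr; positivity

lemma rr_pair_shift {N : ℕ} {T κ : ℝ}
    (h : ∀ (e : Fin 2 → ℕ) (t : ℕ), (t:ℝ) ≤ T → |rr N (fun i => e i + t) - rr N e| ≤ κ)
    (i j : ℕ) (hi : (i:ℝ) ≤ T) (hj : (j:ℝ) ≤ T) :
    |rr N ![i, j] - rr N ![0, Nat.dist i j]| ≤ κ := by
  have key : ∀ i j : ℕ, (i:ℝ) ≤ T → i ≤ j → |rr N ![i, j] - rr N ![0, Nat.dist i j]| ≤ κ := by
    intro i j hi hij
    have h1 := h ![0, Nat.dist i j] i hi
    have h2 : (fun x : Fin 2 => (![0, Nat.dist i j] : Fin 2 → ℕ) x + i) = ![i, j] := by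
      funext x
      fin_cases x
      · simp
      · simp [Nat.dist_eq_sub_of_le hij, Nat.sub_add_cancel hij]
    rwa [h2] at h1
  rcases le_total i j with h1 | h1
  · exact key i j hi h1
  · rw [rr_swap, Nat.dist_comm]
    exact key j i hj h1

lemma trunc_le {r g Y : ℝ} (hr : 0 ≤ r) (hY : 0 < Y) : |r - min g Y| ≤ r ^ 2 / Y + |r - g| := by
  have h1 : |r - min r Y| ≤ r ^ 2 / Y := by
    rcases le_total r Y with h | h
    · rw [min_eq_left h, sub_self, abs_zero]; positivity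
    · rw [min_eq_right h, abs_of_nonneg (by linarith), le_div_iff₀ hY]
      nlinarith
  have h2 : |min r Y - min g Y| ≤ |r - g| := abs_inf_sub_inf_le_abs _ _ _
  calc |r - min g Y| = |(r - min r Y) + (min r Y - min g Y)| := by ring_nf
    _ ≤ _ := (abs_add_le _ _).trans (add_le_add h1 h2)

/-- from a bound for the sums over pairs to the circulant average -/
lemma circ_le {Q : ℕ} [NeZero Q] (F : ℕ → ℕ → ℝ) (D T : ℝ)
    (hD : ∀ i ∈ Finset.range Q, |F i i| ≤ D)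
    (hT : ∑ p ∈ (Finset.range Q).offDiag, |F p.1 p.2| ≤ T * (Q:ℝ) ^ 2) :
    ∑ h : ZMod Q, |(∑ s : ZMod Q, F s.val (s + h).val) / Q| ≤ D + T * Q := by
  have hQ : (0 : ℝ) < Q := by exact_mod_cast (NeZero.pos Q)
  calc ∑ h : ZMod Q, |(∑ s : ZMod Q, F s.val (s + h).val) / Q|
      ≤ ∑ h : ZMod Q, (∑ s : ZMod Q, |F s.val (s + h).val|) / Q := by
        refine Finset.sum_le_sum fun h _ => ?_
        rw [abs_div, abs_of_pos hQ]
        exact div_le_div_of_nonneg_right (Finset.abs_sum_le_sum_abs _ _) hQ.le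
    _ = (∑ h : ZMod Q, ∑ s : ZMod Q, |F s.val (s + h).val|) / Q := by rw [Finset.sum_div]
    _ = (∑ i ∈ Finset.range Q, |F i i| + ∑ p ∈ (Finset.range Q).offDiag, |F p.1 p.2|) / Q := by
        rw [sum_pairs (fun i j => |F i j|)]
    _ ≤ (∑ _i ∈ Finset.range Q, D + T * (Q:ℝ) ^ 2) / Q :=
        div_le_div_of_nonneg_right (add_le_add (Finset.sum_le_sum hD) hT) hQ.le
    _ = D + T * Q := by
        rw [Finset.sum_const, Finset.card_range, nsmul_eq_mul]; field_simp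

end F5dH16

open F5dH16

/-- F5d: the circulant kernel is bounded in mean and close in mean to a trigonometric polynomial with
boundedly many terms. -/
theorem kt_trig (w : ℕ) (hw : 2 ≤ w) : ∃ C : ℝ, 1 ≤ C ∧ ∀ ε : ℝ, 0 < ε →
    ∃ K0 : ℝ, ∃ R : ℕ, ∀ A : ℕ, ∀ᶠ N : ℕ in atTop, ∀ (Q : ℕ) [NeZero Q], K0 * Real.log N ≤ Q →
    (Q:ℝ) ≤ (Real.log N) ^ A →
      ∑ h : ZMod Q, |kt N w Q h| ≤ C * Q ∧
      ∃ (ξ : Fin R → ZMod Q) (b : Fin R → ℂ), (∀ i, ‖b i‖ ≤ R) ∧
        ∑ h : ZMod Q, ‖(kt N w Q h : ℂ) - ∑ i, b i * ZMod.stdAddChar (ξ i * h)‖ ≤ ε * Q := by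
  classical
  obtain ⟨C1, hC1, hsq⟩ := KK_sq
  refine ⟨3 + 4 * C1, by linarith, fun ε hε => ?_⟩
  have hSm := Smax_nonneg w
  obtain ⟨C2, hC2⟩ : ∃ C2 : ℝ, C2 = 12 * C1 + 3 * (Smax w) ^ 2 + 3 := ⟨_, rfl⟩
  have hC20 : 0 < C2 := by rw [hC2]; positivity
  obtain ⟨Y, hYdef⟩ : ∃ Y : ℝ, Y = 8 * C2 / ε := ⟨_, rfl⟩
  have hY : 0 < Y := by rw [hYdef]; positivity
  have hC2Y : C2 / Y = ε / 8 := by rw [hYdef]; field_simp
  obtain ⟨J, K, hblock⟩ := tuple_model_block 1 le_rfl (ε / 8) (by positivity)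
  obtain ⟨B, hBdef⟩ : ∃ B : ℝ, B = Y + Smax w := ⟨_, rfl⟩
  have hB : 0 < B := by rw [hBdef]; positivity
  obtain ⟨n, hn⟩ : ∃ n : ℝ, n = (Fintype.card (Fin J × Fin (Wp w)) : ℝ) := ⟨_, rfl⟩
  have hn0 : 0 ≤ n := by rw [hn]; positivity
  obtain ⟨δ, hδdef⟩ : ∃ δ : ℝ, δ = ε / (8 * (n ^ 2 * B + 1)) := ⟨_, rfl⟩
  have hδ : 0 < δ := by rw [hδdef]; positivity
  have hnδ : n ^ 2 * B * δ ≤ ε / 8 := by
    rw [hδdef, ← mul_div_assoc, div_le_div_iff₀ (by positivity) (by positivity)]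
    have e1 : ε * (8 * (n ^ 2 * B + 1)) = n ^ 2 * B * ε * 8 + 8 * ε := by ring
    linarith
  obtain ⟨κ, hκdef⟩ : ∃ κ : ℝ, κ = min 1 (ε / 16) := ⟨_, rfl⟩
  have hκ : 0 < κ := by rw [hκdef]; positivity
  have hκ1 : κ ≤ 1 := by rw [hκdef]; exact min_le_left _ _
  have hκ2 : κ ≤ ε / 16 := by rw [hκdef]; exact min_le_right _ _
  refine ⟨max (max (K + 1) 3) ((3 + B) * 8 / ε), max ⌈n / δ ^ 2⌉₊ ⌈n ^ 2 * B⌉₊, fun A => ?_⟩
  have hlogev : ∀ᶠ N : ℕ in atTop, (1 : ℝ) ≤ Real.log N :=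
    (Real.tendsto_log_atTop.comp tendsto_natCast_atTop_atTop).eventually_ge_atTop _
  filter_upwards [hblock A, hsq w hw A, KK_approx w hw κ hκ A, KK_diag w hw A,
    rr_shift 2 A κ hκ, hlogev] with N hN1 hN2 hN3 hN4 hN5 hL Q _ hKQ hQA
  have hQ0 : (0 : ℝ) < Q := by exact_mod_cast (NeZero.pos Q)
  have hL0 : 0 ≤ Real.log N := by linarith
  have hQ3 : 3 * Real.log N ≤ Q := le_trans (mul_le_mul_of_nonneg_right
    ((le_max_right _ _).trans (le_max_left _ _)) hL0) hKQ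
  have hQK : (K + 1) * Real.log N ≤ Q := le_trans (mul_le_mul_of_nonneg_right
    ((le_max_left _ _).trans (le_max_left _ _)) hL0) hKQ
  have hQB : (3 + B) * 8 / ε * Real.log N ≤ Q := le_trans (mul_le_mul_of_nonneg_right
    (le_max_right _ _) hL0) hKQ
  have hQ1 : 1 ≤ Q := NeZero.one_le
  have hQ1R : (1:ℝ) ≤ Q := by exact_mod_cast hQ1
  -- entries are small
  have hsmall : ∀ i, i < Q → (i:ℝ) ≤ (Real.log N) ^ A := fun i hi =>
    le_trans (by exact_mod_cast hi.le) hQA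
  let k : ℕ → ℝ := fun h => |rr N ![0, h] - SP (PPy w) {0, h}|
  have hk0 : ∀ h, 0 ≤ k h := fun h => abs_nonneg _
  have hksum : ∑ h ∈ Finset.Icc 1 Q, (k h) ^ 2 ≤ 2 * C1 * Q := by
    have h1 := hN2 Q hQA
    simp only [k, sq_abs]
    refine h1.trans ?_
    have e1 := mul_le_mul_of_nonneg_left hQ1R (by linarith : (0:ℝ) ≤ C1)
    linarith
  have hkdist : ∑ p ∈ (Finset.range Q).offDiag, (k (Nat.dist p.1 p.2)) ^ 2 ≤
      4 * C1 * (Q:ℝ) ^ 2 := by
    refine (sum_dist Q (fun h => (k h) ^ 2) (fun h => sq_nonneg _)).trans ?_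
    have := mul_le_mul_of_nonneg_left hksum (by positivity : (0:ℝ) ≤ 2 * Q)
    refine this.trans (le_of_eq ?_)
    ring
  have hcard := card_offDiag_le Q
  -- off-diagonal values
  have hoff : ∀ p ∈ (Finset.range Q).offDiag,
      |KK N w p.1 p.2 - (rr N ![0, Nat.dist p.1 p.2] - SP (PPy w) {0, Nat.dist p.1 p.2})| ≤ κ ∧
      |rr N ![p.1, p.2] - rr N ![0, Nat.dist p.1 p.2]| ≤ κ := by
    intro p hp
    rw [Finset.mem_offDiag, Finset.mem_range, Finset.mem_range] at hp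
    obtain ⟨h1, h2, h3⟩ := hp
    exact ⟨hN3 p.1 p.2 h3 (hsmall _ h1) (hsmall _ h2),
      rr_pair_shift (hN5) p.1 p.2 (hsmall _ h1) (hsmall _ h2)⟩
  constructor
  · -- L1 bound
    have h1 : ∑ p ∈ (Finset.range Q).offDiag, |KK N w p.1 p.2| ≤ (2 + 4 * C1) * (Q:ℝ) ^ 2 := by
      calc ∑ p ∈ (Finset.range Q).offDiag, |KK N w p.1 p.2|
          ≤ ∑ p ∈ (Finset.range Q).offDiag, (2 + (k (Nat.dist p.1 p.2)) ^ 2) := by
            refine Finset.sum_le_sum fun p hp => ?_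
            have h2 := (hoff p hp).1
            have h3 : |KK N w p.1 p.2| ≤ κ + k (Nat.dist p.1 p.2) := by
              have := abs_add_le (KK N w p.1 p.2 - (rr N ![0, Nat.dist p.1 p.2] -
                SP (PPy w) {0, Nat.dist p.1 p.2})) (rr N ![0, Nat.dist p.1 p.2] -
                SP (PPy w) {0, Nat.dist p.1 p.2})
              rw [sub_add_cancel] at this
              exact this.trans (add_le_add h2 le_rfl)
            linarith [sq_nonneg (k (Nat.dist p.1 p.2) - 1), hk0 (Nat.dist p.1 p.2)]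
        _ = ((Finset.range Q).offDiag.card : ℝ) * 2 +
            ∑ p ∈ (Finset.range Q).offDiag, (k (Nat.dist p.1 p.2)) ^ 2 := by
            rw [Finset.sum_add_distrib, Finset.sum_const, nsmul_eq_mul]
        _ ≤ (2 + 4 * C1) * (Q:ℝ) ^ 2 := by linarith
    have h2 := circ_le (Q := Q) (fun i j => KK N w i j) (3 * Real.log N) (2 + 4 * C1)
      (fun i hi => hN4 i (hsmall i (Finset.mem_range.mp hi))) h1
    calc ∑ h : ZMod Q, |kt N w Q h| ≤ 3 * Real.log N + (2 + 4 * C1) * Q := h2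
      _ ≤ (3 + 4 * C1) * Q := by linarith
  -- the model
  have hKQ1 : K * Real.log N ≤ ((Q - 1 : ℕ) : ℝ) := by
    rw [Nat.cast_sub hQ1, Nat.cast_one]
    linarith
  have hQA1 : ((Q - 1 : ℕ) : ℝ) ≤ (Real.log N) ^ A := by
    refine le_trans ?_ hQA
    exact_mod_cast Nat.sub_le _ _
  obtain ⟨χ, g, hg0, hg⟩ := hN1 (Q - 1) hKQ1 hQA1
  have hWp := Wp_pos' w
  let γ : ℕ → Fin J × Fin (Wp w) := fun i => (χ i, ⟨i % Wp w, Nat.mod_lt i hWp⟩)
  let G : Fin J × Fin (Wp w) → Fin J × Fin (Wp w) → ℝ := fun c c' =>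
    min (g ![c.1, c'.1]) Y - SV w c.2 c'.2
  have hG : ∀ c c', |G c c'| ≤ B := by
    intro c c'
    have h1 : |min (g ![c.1, c'.1]) Y| ≤ Y := by
      rw [abs_of_nonneg (le_min (hg0 _) hY.le)]
      exact min_le_right _ _
    have h2 := SV_le w c.2 c'.2 c'.2.2
    rw [hBdef]
    exact (abs_sub _ _).trans (add_le_add h1 h2)
  have hgsum : ∑ p ∈ (Finset.range Q).offDiag, |rr N ![p.1, p.2] - g ![χ p.1, χ p.2]| ≤
      ε / 8 * (Q:ℝ) ^ 2 := by
    have h1 := sum_inj_box hQ1 (fun e => |rr N e - g (fun i => χ (e i))|) (fun e => abs_nonneg _)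
    have h2 : ∀ p : ℕ × ℕ, (fun i => χ ((![p.1, p.2] : Fin 2 → ℕ) i)) = ![χ p.1, χ p.2] := by
      intro p
      funext i
      fin_cases i <;> rfl
    simp only [h2] at h1
    refine h1.trans ?_
    have h3 : ((Q - 1 : ℕ) : ℝ) + 1 = Q := by
      rw [Nat.cast_sub hQ1, Nat.cast_one]; ring
    rw [h3] at hg
    refine le_trans (le_of_eq ?_) hg
    refine Finset.sum_congr (by congr) fun e _ => ?_
    unfold rr
    congr 2
    ring
  have hrr : ∑ p ∈ (Finset.range Q).offDiag, (rr N ![p.1, p.2]) ^ 2 ≤ C2 * (Q:ℝ) ^ 2 := by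
    calc ∑ p ∈ (Finset.range Q).offDiag, (rr N ![p.1, p.2]) ^ 2
        ≤ ∑ p ∈ (Finset.range Q).offDiag,
          (3 * (k (Nat.dist p.1 p.2)) ^ 2 + (3 * (Smax w) ^ 2 + 3)) := by
          refine Finset.sum_le_sum fun p hp => ?_
          have h1 := (hoff p hp).2
          have hpne : p.1 ≠ p.2 := (Finset.mem_offDiag.mp hp).2.2
          have h2 := SP_pair_le w (Nat.dist p.1 p.2) (Nat.dist_pos_of_ne hpne)
          have h3 : |rr N ![p.1, p.2]| ≤ k (Nat.dist p.1 p.2) + Smax w + 1 := by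
            have e1 : rr N ![p.1, p.2] = (rr N ![p.1, p.2] - rr N ![0, Nat.dist p.1 p.2]) +
              ((rr N ![0, Nat.dist p.1 p.2] - SP (PPy w) {0, Nat.dist p.1 p.2}) +
                SP (PPy w) {0, Nat.dist p.1 p.2}) := by ring
            rw [e1]
            refine (abs_add_le _ _).trans ?_
            have h4 := abs_add_le (rr N ![0, Nat.dist p.1 p.2] -
              SP (PPy w) {0, Nat.dist p.1 p.2}) (SP (PPy w) {0, Nat.dist p.1 p.2})
            have h5 : |rr N ![0, Nat.dist p.1 p.2] - SP (PPy w) {0, Nat.dist p.1 p.2}| =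
              k (Nat.dist p.1 p.2) := rfl
            rw [h5] at h4
            linarith
          have h6 := hk0 (Nat.dist p.1 p.2)
          have h7 : (rr N ![p.1, p.2]) ^ 2 ≤ (k (Nat.dist p.1 p.2) + Smax w + 1) ^ 2 := by
            rw [← sq_abs]
            exact pow_le_pow_left₀ (abs_nonneg _) h3 2
          linarith [sq_nonneg (k (Nat.dist p.1 p.2) - Smax w), sq_nonneg (Smax w - 1),
            sq_nonneg (k (Nat.dist p.1 p.2) - 1)]
      _ = 3 * ∑ p ∈ (Finset.range Q).offDiag, (k (Nat.dist p.1 p.2)) ^ 2 +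
          ((Finset.range Q).offDiag.card : ℝ) * (3 * (Smax w) ^ 2 + 3) := by
          rw [Finset.sum_add_distrib, Finset.sum_const, nsmul_eq_mul, Finset.mul_sum]
      _ ≤ C2 * (Q:ℝ) ^ 2 := by
          rw [hC2]
          have : ((Finset.range Q).offDiag.card : ℝ) * (3 * (Smax w) ^ 2 + 3) ≤
            (Q:ℝ) ^ 2 * (3 * (Smax w) ^ 2 + 3) :=
            mul_le_mul_of_nonneg_right hcard (by positivity)
          linarith
  have hdiff : ∑ p ∈ (Finset.range Q).offDiag, |KK N w p.1 p.2 - G (γ p.1) (γ p.2)| ≤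
      (3 * ε / 8) * (Q:ℝ) ^ 2 := by
    calc ∑ p ∈ (Finset.range Q).offDiag, |KK N w p.1 p.2 - G (γ p.1) (γ p.2)|
        ≤ ∑ p ∈ (Finset.range Q).offDiag, (2 * κ + ((rr N ![p.1, p.2]) ^ 2 / Y +
          |rr N ![p.1, p.2] - g ![χ p.1, χ p.2]|)) := by
          refine Finset.sum_le_sum fun p hp => ?_
          obtain ⟨h1, h2⟩ := hoff p hp
          have hpne : p.1 ≠ p.2 := (Finset.mem_offDiag.mp hp).2.2
          have h3 := trunc_le (g := g ![χ p.1, χ p.2]) (rr_nonneg N hL0 ![p.1, p.2]) hY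
          have h4 := SV_eq w p.1 p.2 hpne
          have h5 : G (γ p.1) (γ p.2) = min (g ![χ p.1, χ p.2]) Y -
              SP (PPy w) {0, Nat.dist p.1 p.2} := by
            simp only [G, γ]
            rw [h4]
          rw [h5]
          have e1 : KK N w p.1 p.2 - (min (g ![χ p.1, χ p.2]) Y - SP (PPy w) {0, Nat.dist p.1 p.2}) =
              (KK N w p.1 p.2 - (rr N ![0, Nat.dist p.1 p.2] -
                SP (PPy w) {0, Nat.dist p.1 p.2})) -
              (rr N ![p.1, p.2] - rr N ![0, Nat.dist p.1 p.2]) +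
              (rr N ![p.1, p.2] - min (g ![χ p.1, χ p.2]) Y) := by ring
          rw [e1]
          refine (abs_add_le _ _).trans ?_
          have h6 := abs_sub (KK N w p.1 p.2 - (rr N ![0, Nat.dist p.1 p.2] -
                SP (PPy w) {0, Nat.dist p.1 p.2})) (rr N ![p.1, p.2] - rr N ![0, Nat.dist p.1 p.2])
          linarith
      _ = ((Finset.range Q).offDiag.card : ℝ) * (2 * κ) +
          ((∑ p ∈ (Finset.range Q).offDiag, (rr N ![p.1, p.2]) ^ 2) / Y +
          ∑ p ∈ (Finset.range Q).offDiag, |rr N ![p.1, p.2] - g ![χ p.1, χ p.2]|) := by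
          rw [Finset.sum_add_distrib, Finset.sum_const, nsmul_eq_mul, Finset.sum_add_distrib,
            Finset.sum_div]
      _ ≤ (3 * ε / 8) * (Q:ℝ) ^ 2 := by
          have h1 : ((Finset.range Q).offDiag.card : ℝ) * (2 * κ) ≤ (Q:ℝ) ^ 2 * (ε / 8) :=
            mul_le_mul hcard (by linarith) (by positivity) (by positivity)
          have h2 : (∑ p ∈ (Finset.range Q).offDiag, (rr N ![p.1, p.2]) ^ 2) / Y ≤
              ε / 8 * (Q:ℝ) ^ 2 := by
            rw [← hC2Y]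
            refine (div_le_div_of_nonneg_right hrr hY.le).trans (le_of_eq ?_)
            ring
          linarith
  have hdiag : ∀ i ∈ Finset.range Q, |KK N w i i - G (γ i) (γ i)| ≤ ε / 8 * Q := by
    intro i hi
    have h1 := hN4 i (hsmall i (Finset.mem_range.mp hi))
    have h2 := hG (γ i) (γ i)
    refine (abs_sub _ _).trans ((add_le_add h1 h2).trans ?_)
    have h3 : (3 + B) * Real.log N ≤ ε / 8 * Q := by
      have h4 := mul_le_mul_of_nonneg_left hQB (by positivity : 0 ≤ ε / 8)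
      refine le_trans (le_of_eq ?_) h4
      field_simp
    have h5 := mul_le_mul_of_nonneg_left hL hB.le
    linarith
  obtain ⟨S, b, hS, hb, hSb⟩ := colour_trig (Q := Q) (fun s => γ s.val) G B hG δ hδ
  rw [← hn] at hS hb hSb
  have hSR : S.card ≤ max ⌈n / δ ^ 2⌉₊ ⌈n ^ 2 * B⌉₊ := by
    have h1 : (S.card : ℝ) ≤ (⌈n / δ ^ 2⌉₊ : ℝ) := hS.trans (Nat.le_ceil _)
    exact le_trans (by exact_mod_cast h1) (le_max_left _ _)
  have hbR : ∀ ξ, ‖b ξ‖ ≤ ((max ⌈n / δ ^ 2⌉₊ ⌈n ^ 2 * B⌉₊ : ℕ) : ℝ) := by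
    intro ξ
    refine (hb ξ).trans ((Nat.le_ceil _).trans ?_)
    exact_mod_cast le_max_right _ _
  obtain ⟨ξ, b', hb', hpad⟩ := pad S b _ hSR _ (Nat.cast_nonneg _) hbR
  refine ⟨ξ, b', hb', ?_⟩
  have hE := circ_le (Q := Q) (fun i j => KK N w i j - G (γ i) (γ j)) (ε / 8 * Q) (3 * ε / 8)
    hdiag hdiff
  calc ∑ h : ZMod Q, ‖(kt N w Q h : ℂ) - ∑ i, b' i * ZMod.stdAddChar (ξ i * h)‖
      ≤ ∑ h : ZMod Q, (|(∑ s : ZMod Q, (KK N w s.val (s + h).val -
          G (γ s.val) (γ (s + h).val))) / Q| +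
        ‖(((∑ s : ZMod Q, G (γ s.val) (γ (s + h).val)) / Q : ℝ) : ℂ) -
          ∑ x ∈ S, b x * ZMod.stdAddChar (x * h)‖) := by
        refine Finset.sum_le_sum fun h _ => ?_
        rw [hpad h]
        have e1 : kt N w Q h = (∑ s : ZMod Q, (KK N w s.val (s + h).val -
          G (γ s.val) (γ (s + h).val))) / Q + (∑ s : ZMod Q, G (γ s.val) (γ (s + h).val)) / Q := by
          unfold kt
          rw [Finset.sum_sub_distrib]; ring
        rw [e1, Complex.ofReal_add, add_sub_assoc]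
        refine (norm_add_le _ _).trans ?_
        rw [Complex.norm_real, Real.norm_eq_abs]
    _ = (∑ h : ZMod Q, |(∑ s : ZMod Q, (KK N w s.val (s + h).val -
          G (γ s.val) (γ (s + h).val))) / Q|) +
        ∑ h : ZMod Q, ‖(((∑ s : ZMod Q, G (γ s.val) (γ (s + h).val)) / Q : ℝ) : ℂ) -
          ∑ x ∈ S, b x * ZMod.stdAddChar (x * h)‖ := Finset.sum_add_distrib
    _ ≤ (ε / 8 * Q + 3 * ε / 8 * Q) + n ^ 2 * B * δ * Q := add_le_add hE hSb
    _ ≤ ε * Q := by
        have h1 := mul_le_mul_of_nonneg_right hnδ hQ0.le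
        have h2 := mul_pos hε hQ0
        linarith

end Pool.Agent.HLT
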