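import Mathlib
import Pool.Agent.HLT.ApDefs

set_option autoImplicit false

open Finset

namespace Pool.Agent.HLT

theorem conj_stdAddChar_ap {Q : ℕ} [NeZero Q] (x : ZMod Q) :
    (starRingEnd ℂ) (ZMod.stdAddChar x) = ZMod.stdAddChar (-x) := by
  rw [AddChar.map_neg_eq_conj]

/-- F5a: the circulant kernel is positive definite. -/
theorem kt_psd (N w Q : ℕ) [NeZero Q] (ξ : ZMod Q) :
    fh (fun h => (kt N w Q h : ℂ)) ξ =
      (((∑ n ∈ Finset.Ioc N (2 * N),
        ‖∑ s : ZMod Q, (fp N w (n + s.val) : ℂ) * ZMod.stdAddChar (-(ξ * s))‖ ^ 2) /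
          ((N:ℝ) * (Q:ℝ) ^ 2) : ℝ) : ℂ) := by
  have h1 : ∀ n : ℕ, (((‖∑ s : ZMod Q, (fp N w (n + s.val) : ℂ) *
      ZMod.stdAddChar (-(ξ * s))‖ ^ 2 : ℝ)) : ℂ) =
      ∑ h : ZMod Q, ∑ s : ZMod Q, (fp N w (n + s.val) : ℂ) * (fp N w (n + (s + h).val) : ℂ) *
        ZMod.stdAddChar (-(ξ * h)) := by
    intro n
    rw [Complex.ofReal_pow, ← Complex.conj_mul', map_sum, Finset.sum_mul_sum,
      Finset.sum_comm (s := (Finset.univ : Finset (ZMod Q))) (t := Finset.univ)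
        (f := fun h s => (fp N w (n + s.val) : ℂ) * (fp N w (n + (s + h).val) : ℂ) *
        ZMod.stdAddChar (-(ξ * h)))]
    refine Finset.sum_congr rfl fun s _ => ?_
    rw [← Equiv.sum_comp (Equiv.addLeft s)]
    refine Finset.sum_congr rfl fun h _ => ?_
    simp only [Equiv.coe_addLeft, map_mul, Complex.conj_ofReal, conj_stdAddChar_ap, neg_neg]
    have : ZMod.stdAddChar (ξ * s) * ZMod.stdAddChar (-(ξ * (s + h))) =
        ZMod.stdAddChar (-(ξ * h)) := by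
      rw [← AddChar.map_add_eq_mul]
      congr 1
      ring
    rw [← this]
    ring
  have h2 : fh (fun h => (kt N w Q h : ℂ)) ξ =
      (∑ n ∈ Finset.Ioc N (2 * N), ∑ h : ZMod Q, ∑ s : ZMod Q, (fp N w (n + s.val) : ℂ) *
        (fp N w (n + (s + h).val) : ℂ) * ZMod.stdAddChar (-(ξ * h))) /
        ((N:ℂ) * (Q:ℂ) ^ 2) := by
    rw [Finset.sum_comm]
    unfold fh kt KK
    have hQ : (Q:ℂ) ≠ 0 := Nat.cast_ne_zero.2 (NeZero.ne Q)
    rcases Nat.eq_zero_or_pos N with hN | hN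
    · subst hN
      simp
    have hN' : (N:ℂ) ≠ 0 := Nat.cast_ne_zero.2 hN.ne'
    rw [div_eq_div_iff hQ (mul_ne_zero hN' (pow_ne_zero 2 hQ)), Finset.sum_mul, Finset.sum_mul]
    refine Finset.sum_congr rfl fun h _ => ?_
    rw [Finset.sum_comm]
    push_cast
    have e1 : ∀ s : ZMod Q, (∑ n ∈ Finset.Ioc N (2 * N), (fp N w (n + s.val) : ℂ) *
        (fp N w (n + (s + h).val) : ℂ) * ZMod.stdAddChar (-(ξ * h))) =
        (∑ n ∈ Finset.Ioc N (2 * N), (fp N w (n + s.val) : ℂ) *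
        (fp N w (n + (s + h).val) : ℂ)) * ZMod.stdAddChar (-(ξ * h)) :=
      fun s => (Finset.sum_mul _ _ _).symm
    rw [Finset.sum_congr rfl fun s _ => e1 s, ← Finset.sum_mul, ← Finset.sum_div]
    field_simp
  rw [h2, Complex.ofReal_div]
  congr 1
  · push_cast
    refine Finset.sum_congr rfl fun n _ => ?_
    rw [← h1 n]
    push_cast
    rfl
  · push_cast
    rfl

end Pool.Agent.HLT
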