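import Mathlib
import Pool.Agent.HLT.ApPsd
import Pool.Agent.HLT.ApNear
import Pool.Agent.HLT.ApPair
import Pool.Agent.HLT.ApBohr
import Pool.Agent.HL26.Final
import Pool.Agent.HLT.ApShift

set_option autoImplicit false

open Finset Filter Topology

namespace Pool.Agent.HLT

open Pool.Agent.HL26 Pool.Agent.Maynard

namespace F7aux

lemma nat_eq (x : ℝ) (i : ℕ) : (⌊x⌋₊ / 2 ^ (i + 1) : ℕ) = ⌊(1 / 2 ^ (i + 1) : ℝ) * x⌋₊ := by
  have h := Nat.floor_div_natCast x (2 ^ (i + 1))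
  rw [← h]
  congr 1
  push_cast
  ring

lemma tendsto_nat (i : ℕ) : Tendsto (fun x : ℝ => (⌊x⌋₊ / 2 ^ (i + 1) : ℕ)) atTop atTop := by
  simp_rw [nat_eq]
  exact tendsto_nat_floor_atTop.comp (tendsto_id.const_mul_atTop (by positivity))

lemma tendsto_ratio (i : ℕ) : Tendsto (fun x : ℝ => ((⌊x⌋₊ / 2 ^ (i + 1) : ℕ) : ℝ) / x) atTop
    (𝓝 (1 / 2 ^ (i + 1))) := by
  simp_rw [nat_eq]
  exact tendsto_nat_floor_mul_div_atTop (by positivity)

lemma tendsto_logratio (i : ℕ) : Tendsto (fun x : ℝ => Real.log x /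
    Real.log ((⌊x⌋₊ / 2 ^ (i + 1) : ℕ) : ℝ)) atTop (𝓝 1) := by
  have h1 : Tendsto (fun x : ℝ => Real.log (((⌊x⌋₊ / 2 ^ (i + 1) : ℕ) : ℝ) / x)) atTop
      (𝓝 (Real.log (1 / 2 ^ (i + 1)))) :=
    (Real.continuousAt_log (by positivity)).tendsto.comp (tendsto_ratio i)
  have h2 : Tendsto (fun x : ℝ => Real.log (((⌊x⌋₊ / 2 ^ (i + 1) : ℕ) : ℝ) / x) / Real.log x) atTop
      (𝓝 0) := h1.div_atTop Real.tendsto_log_atTop
  have h3 : Tendsto (fun x : ℝ => (1 + Real.log (((⌊x⌋₊ / 2 ^ (i + 1) : ℕ) : ℝ) / x) /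
      Real.log x)⁻¹) atTop (𝓝 ((1 + 0)⁻¹)) :=
    (tendsto_const_nhds.add h2).inv₀ (by norm_num)
  have h4 : ((1:ℝ) + 0)⁻¹ = 1 := by norm_num
  rw [h4] at h3
  refine h3.congr' ?_
  filter_upwards [eventually_gt_atTop 1, (tendsto_nat i).eventually_ge_atTop 2] with x hx hN
  have hx0 : 0 < x := by linarith
  have hlog : 0 < Real.log x := Real.log_pos hx
  have hNr : (0:ℝ) < ((⌊x⌋₊ / 2 ^ (i + 1) : ℕ) : ℝ) := by
    exact_mod_cast (by omega : 0 < ⌊x⌋₊ / 2 ^ (i + 1))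
  rw [Real.log_div hNr.ne' hx0.ne']
  have h5 : 1 + (Real.log ((⌊x⌋₊ / 2 ^ (i + 1) : ℕ) : ℝ) - Real.log x) / Real.log x =
      Real.log ((⌊x⌋₊ / 2 ^ (i + 1) : ℕ) : ℝ) / Real.log x := by
    field_simp
    ring
  rw [h5, inv_div]

/-- the weights of the blocks -/
noncomputable def wt (x : ℝ) (i : ℕ) : ℝ := ((⌊x⌋₊ / 2 ^ (i + 1) : ℕ) : ℝ) / x *
          (Real.log x / Real.log ((⌊x⌋₊ / 2 ^ (i + 1) : ℕ) : ℝ)) ^ 2

lemma tendsto_wt (i : ℕ) : Tendsto (fun x => wt x i) atTop (𝓝 (1 / 2 ^ (i + 1))) := by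
  unfold wt
  have h := (tendsto_ratio i).mul ((tendsto_logratio i).pow 2)
  simpa using h

lemma ev_wt (I0 : ℕ) : ∀ᶠ x : ℝ in atTop, (∀ i ∈ Finset.range I0, 0 ≤ wt x i ∧ wt x i ≤ 1) ∧
    |∑ i ∈ Finset.range I0, wt x i - 1| ≤ 2 / 2 ^ I0 ∧ ∑ i ∈ Finset.range I0, wt x i ≤ 2 := by
  have hsum : ∀ I : ℕ, ∑ i ∈ Finset.range I, (1:ℝ) / 2 ^ (i + 1) = 1 - 1 / 2 ^ I := by
    intro I
    induction I with
    | zero => simp
    | succ I ih =>
      rw [Finset.sum_range_succ, ih, pow_succ]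
      field_simp
      ring
  have h1 : Tendsto (fun x => ∑ i ∈ Finset.range I0, wt x i) atTop (𝓝 (1 - 1 / 2 ^ I0)) := by
    rw [← hsum I0]
    exact tendsto_finset_sum _ fun i _ => tendsto_wt i
  have h2 : ∀ᶠ x in atTop, |∑ i ∈ Finset.range I0, wt x i - (1 - 1 / 2 ^ I0)| ≤ 1 / 2 ^ I0 := by
    have h3 := (tendsto_iff_norm_sub_tendsto_zero.mp h1)
    have h4 : (0:ℝ) < 1 / 2 ^ I0 := by positivity
    filter_upwards [h3.eventually_le_const h4] with x hx
    exact hx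
  have h5 : ∀ᶠ x : ℝ in atTop, ∀ i ∈ Finset.range I0, 0 ≤ wt x i ∧ wt x i ≤ 1 := by
    rw [Filter.eventually_all_finset]
    intro i _
    have h6 : (1:ℝ) / 2 ^ (i + 1) < 1 := by
      rw [div_lt_one (by positivity)]
      exact one_lt_pow₀ (by norm_num) (by omega)
    filter_upwards [(tendsto_wt i).eventually_le_const h6, eventually_ge_atTop 0] with x hx hx0
    refine ⟨?_, hx⟩
    unfold wt
    positivity
  filter_upwards [h2, h5] with x hx hx2
  refine ⟨hx2, ?_, ?_⟩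
  · have h7 : ∑ i ∈ Finset.range I0, wt x i - 1 =
        (∑ i ∈ Finset.range I0, wt x i - (1 - 1 / 2 ^ I0)) + (-(1 / 2 ^ I0)) := by ring
    rw [h7]
    refine (abs_add_le _ _).trans ?_
    rw [abs_neg, abs_of_pos (by positivity : (0:ℝ) < 1 / 2 ^ I0)]
    calc _ ≤ (1:ℝ) / 2 ^ I0 + 1 / 2 ^ I0 := by linarith
      _ = 2 / 2 ^ I0 := by ring
  · have h8 := (abs_le.mp hx).2
    have h9 : (0:ℝ) < 1 / 2 ^ I0 := by positivity
    linarith

lemma re_char (Q : ℕ) [NeZero Q] (ξ : ZMod Q) (h : ℕ) :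
    (ZMod.stdAddChar (ξ * (h : ZMod Q)) : ℂ).re =
      Real.cos (2 * Real.pi * ((ξ.val : ℝ) / Q) * h) := by
  have h1 : ξ * (h : ZMod Q) = (((ξ.val * h : ℕ) : ℤ) : ZMod Q) := by
    push_cast
    rw [ZMod.natCast_zmod_val]
  rw [h1, ZMod.stdAddChar_coe]
  have h2 : (2 * (Real.pi : ℂ) * Complex.I * (((ξ.val * h : ℕ) : ℤ) : ℂ) / (Q : ℂ)) =
      ((2 * Real.pi * ((ξ.val : ℝ) / Q) * h : ℝ) : ℂ) * Complex.I := by
    push_cast
    ring
  rw [h2, Complex.exp_ofReal_mul_I_re]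

lemma image_pair (d : ℕ) : Finset.image (![0, d] : Fin 2 → ℕ) Finset.univ = {0, d} := by
  ext a
  simp only [Finset.mem_image, Finset.mem_univ, true_and, Fin.exists_fin_two, Matrix.cons_val_zero,
    Matrix.cons_val_one, Finset.mem_insert, Finset.mem_singleton]
  constructor
  · rintro (h | h)
    · exact Or.inl h.symm
    · exact Or.inr h.symm
  · rintro (h | h)
    · exact Or.inl h.symm
    · exact Or.inr h.symm

end F7aux

open F7aux

open Classical in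
/-- F7: for almost all `d` the normalised number of prime pairs is the singular series plus a bounded
number of nonnegative resonances. -/
theorem pair_formula (ε : ℝ) (hε : 0 < ε) : ∃ R : ℕ, ∃ K0 : ℝ, ∀ A : ℕ, ∃ X : ℝ, ∀ x : ℝ, X ≤ x →
    ∀ H : ℕ, K0 * Real.log x ≤ H → (H:ℝ) ≤ (Real.log x) ^ A →
    ∃ (θ μ : Fin R → ℝ), (∀ i, 0 ≤ μ i ∧ μ i ≤ R) ∧
      (((Finset.Icc 1 H).filter (fun d : ℕ =>
        ε < |(tupleCount x {0, d} : ℝ) * (Real.log x) ^ 2 / x - singularSeries {0, d} -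
          ∑ i, μ i * Real.cos (2 * Real.pi * θ i * d)|)).card : ℝ) ≤ ε * (H:ℝ) := by
  obtain ⟨C1, hC1, hblocks⟩ := tupleCount_blocks 2 le_rfl
  obtain ⟨C2, hC2, hsing⟩ := sum_sing_pair
  -- number of blocks
  obtain ⟨I0, hI0⟩ : ∃ I0 : ℕ, (2 * C2 + C1 * C2) / 2 ^ I0 ≤ ε ^ 2 / 4 := by
    have h1 : Tendsto (fun n : ℕ => (2 * C2 + C1 * C2) * (1 / 2 : ℝ) ^ n) atTop
        (𝓝 ((2 * C2 + C1 * C2) * 0)) :=
      (tendsto_pow_atTop_nhds_zero_of_lt_one (by norm_num) (by norm_num)).const_mul _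
    rw [mul_zero] at h1
    have h2 : (0:ℝ) < ε ^ 2 / 4 := by positivity
    obtain ⟨n, hn⟩ := (h1.eventually_le_const h2).exists
    refine ⟨n, le_trans (le_of_eq ?_) hn⟩
    rw [one_div, inv_pow, div_eq_mul_inv]
  obtain ⟨η, hη, hη2, w0, hnear⟩ := kt_near (ε ^ 2 / 32) (by positivity)
  set w : ℕ := max w0 2 with hw
  obtain ⟨K0a, hnear⟩ := hnear w (le_max_left _ _)
  obtain ⟨C, hC, htrig⟩ := kt_trig w (le_max_right _ _)
  obtain ⟨K0b, R1, htrig⟩ := htrig (η * ε ^ 2 / 128) (by positivity)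
  obtain ⟨R2, hbohr⟩ := bohr_smooth R1 C (η * ε ^ 2 / 128) hC (by positivity)
  refine ⟨I0 * R2 + ⌈C⌉₊, max (max K0a K0b) 1, fun A => ?_⟩
  -- eventual conditions
  have hev : ∀ᶠ x : ℝ in atTop,
      (∀ e : Fin 2 → ℕ, Function.Injective e →
        |(tupleCount x (Finset.image e Finset.univ) : ℝ) * (Real.log x) ^ 2 / x -
          ∑ i ∈ Finset.range I0, wt x i * rr (⌊x⌋₊ / 2 ^ (i + 1)) e| ≤
          C1 * singularSeries (Finset.image e Finset.univ) / 2 ^ I0 + ε ^ 2 / 4) ∧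
      (∀ i ∈ Finset.range I0, ∀ (Q : ℕ) [NeZero Q],
        K0a * Real.log ((⌊x⌋₊ / 2 ^ (i + 1) : ℕ) : ℝ) ≤ Q →
        (Q:ℝ) ≤ (Real.log ((⌊x⌋₊ / 2 ^ (i + 1) : ℕ) : ℝ)) ^ (A + 1) →
        ∑ h ∈ Finset.Icc 1 ⌊η * Q⌋₊, |kt (⌊x⌋₊ / 2 ^ (i + 1)) w Q (h : ZMod Q) -
          (rr (⌊x⌋₊ / 2 ^ (i + 1)) ![0, h] - singularSeries {0, h})| ≤ ε ^ 2 / 32 * (η * Q)) ∧
      (∀ i ∈ Finset.range I0, ∀ (Q : ℕ) [NeZero Q],
        K0b * Real.log ((⌊x⌋₊ / 2 ^ (i + 1) : ℕ) : ℝ) ≤ Q →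
        (Q:ℝ) ≤ (Real.log ((⌊x⌋₊ / 2 ^ (i + 1) : ℕ) : ℝ)) ^ (A + 1) →
        ∑ h : ZMod Q, |kt (⌊x⌋₊ / 2 ^ (i + 1)) w Q h| ≤ C * Q ∧
        ∃ (ξ : Fin R1 → ZMod Q) (b : Fin R1 → ℂ), (∀ i, ‖b i‖ ≤ R1) ∧
          ∑ h : ZMod Q, ‖(kt (⌊x⌋₊ / 2 ^ (i + 1)) w Q h : ℂ) -
            ∑ i, b i * ZMod.stdAddChar (ξ i * h)‖ ≤ η * ε ^ 2 / 128 * Q) ∧
      ((∀ i ∈ Finset.range I0, 0 ≤ wt x i ∧ wt x i ≤ 1) ∧
        |∑ i ∈ Finset.range I0, wt x i - 1| ≤ 2 / 2 ^ I0 ∧ ∑ i ∈ Finset.range I0, wt x i ≤ 2) ∧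
      (∀ i ∈ Finset.range I0, 2 ≤ ⌊x⌋₊ / 2 ^ (i + 1) ∧
        Real.log x / Real.log ((⌊x⌋₊ / 2 ^ (i + 1) : ℕ) : ℝ) ≤ 2) ∧
      3 ≤ x ∧ 1 ≤ Real.log x ∧ (2 / η) * 2 ^ (A + 1) ≤ Real.log x := by
    refine (hblocks I0 (ε ^ 2 / 4) (by positivity)).and (Eventually.and ?_ (Eventually.and ?_
      ((ev_wt I0).and (Eventually.and ?_ ((eventually_ge_atTop 3).and
        ((Real.tendsto_log_atTop.eventually_ge_atTop _).and
          (Real.tendsto_log_atTop.eventually_ge_atTop _)))))))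
    · rw [Filter.eventually_all_finset]
      intro i _
      exact (tendsto_nat i).eventually (hnear (A + 1))
    · rw [Filter.eventually_all_finset]
      intro i _
      exact (tendsto_nat i).eventually (htrig (A + 1))
    · rw [Filter.eventually_all_finset]
      intro i _
      exact ((tendsto_nat i).eventually_ge_atTop 2).and
        ((tendsto_logratio i).eventually_le_const (by norm_num))
  obtain ⟨X, hX⟩ := eventually_atTop.mp hev
  refine ⟨X, fun x hx H hH1 hH2 => ?_⟩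
  obtain ⟨e1, e2, e3, ⟨e4, e5, e5'⟩, e6, e7, e8, e9⟩ := hX x hx
  have hx0 : 0 < x := by linarith
  have hlog0 : 0 < Real.log x := by linarith
  have hHr : (1:ℝ) ≤ H := by
    refine le_trans ?_ hH1
    nlinarith [le_max_right (max K0a K0b) (1:ℝ)]
  have hHpos : 1 ≤ H := by exact_mod_cast hHr
  -- the modulus
  set Q : ℕ := ⌈(H:ℝ) / η⌉₊ with hQ
  have hQge : (H:ℝ) / η ≤ Q := Nat.le_ceil _
  have hHQ : (H:ℝ) ≤ η * Q := by
    rw [div_le_iff₀ hη] at hQge
    linarith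
  have hQle : (Q:ℝ) ≤ 2 * H / η := by
    have h1 : (Q:ℝ) < (H:ℝ) / η + 1 := Nat.ceil_lt_add_one (by positivity)
    have h2 : (1:ℝ) ≤ (H:ℝ) / η := by
      rw [le_div_iff₀ hη]
      linarith
    have h3 : 2 * (H:ℝ) / η = (H:ℝ) / η + (H:ℝ) / η := by ring
    linarith
  have hQH : (H:ℝ) ≤ Q := by
    refine hHQ.trans ?_
    have : (0:ℝ) ≤ Q := Nat.cast_nonneg _
    nlinarith
  have hQpos : 0 < Q := by
    have : (0:ℝ) < Q := by linarith
    exact_mod_cast this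
  haveI : NeZero Q := ⟨hQpos.ne'⟩
  -- per-block data
  have hblock : ∀ i ∈ Finset.range I0, ∃ (θ μ : Fin R2 → ℝ), (∀ j, 0 ≤ μ j ∧ μ j ≤ C) ∧
      ∑ d ∈ Finset.Icc 1 H, |rr (⌊x⌋₊ / 2 ^ (i + 1)) ![0, d] - singularSeries {0, d} -
        ∑ j, μ j * Real.cos (2 * Real.pi * θ j * d)| ≤ ε ^ 2 / 8 * H := by
    intro i hi
    set N : ℕ := ⌊x⌋₊ / 2 ^ (i + 1) with hN
    obtain ⟨hN2, hlr⟩ := e6 i hi
    have hNr : (2:ℝ) ≤ N := by exact_mod_cast hN2
    have hlogN : 0 < Real.log N := Real.log_pos (by linarith)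
    have hNx : (N:ℝ) ≤ x := by
      have h1 : N ≤ ⌊x⌋₊ := Nat.div_le_self _ _
      calc (N:ℝ) ≤ (⌊x⌋₊ : ℝ) := by exact_mod_cast h1
        _ ≤ x := Nat.floor_le hx0.le
    have hlogNx : Real.log N ≤ Real.log x := Real.log_le_log (by linarith) hNx
    have hlogxN : Real.log x ≤ 2 * Real.log N := by
      rw [div_le_iff₀ hlogN] at hlr
      exact hlr
    have hK : ∀ K' : ℝ, K' ≤ max K0a K0b → K' * Real.log N ≤ Q := by
      intro K' hK'
      have h1 : K' ≤ max (max K0a K0b) 1 := hK'.trans (le_max_left _ _)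
      calc K' * Real.log N ≤ max (max K0a K0b) 1 * Real.log N :=
            mul_le_mul_of_nonneg_right h1 hlogN.le
        _ ≤ max (max K0a K0b) 1 * Real.log x :=
            mul_le_mul_of_nonneg_left hlogNx (le_trans zero_le_one (le_max_right _ _))
        _ ≤ H := hH1
        _ ≤ Q := hQH
    have hQA : (Q:ℝ) ≤ (Real.log N) ^ (A + 1) := by
      calc (Q:ℝ) ≤ 2 * H / η := hQle
        _ ≤ 2 * (Real.log x) ^ A / η := by gcongr
        _ = (2 / η) * (Real.log x) ^ A := by ring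
        _ ≤ (Real.log x / 2 ^ (A + 1)) * (Real.log x) ^ A := by
            refine mul_le_mul_of_nonneg_right ?_ (by positivity)
            rw [le_div_iff₀ (by positivity)]
            exact e9
        _ = (Real.log x / 2) ^ (A + 1) := by
            rw [div_pow, pow_succ (Real.log x)]
            ring
        _ ≤ (Real.log N) ^ (A + 1) := by
            refine pow_le_pow_left₀ (by positivity) ?_ _
            linarith
    have f2 := e2 i hi Q (hK K0a (le_max_left _ _)) hQA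
    obtain ⟨f3, ξ, b, f4, f5⟩ := e3 i hi Q (hK K0b (le_max_right _ _)) hQA
    have hpsd : ∀ ζ, (fh (fun h => (kt N w Q h : ℂ)) ζ).im = 0 ∧
        0 ≤ (fh (fun h => (kt N w Q h : ℂ)) ζ).re := by
      intro ζ
      rw [kt_psd]
      refine ⟨Complex.ofReal_im _, ?_⟩
      rw [Complex.ofReal_re]
      positivity
    obtain ⟨ζ, μ, g1, g2⟩ := hbohr Q (kt N w Q) hpsd f3 ξ b f4 f5
    refine ⟨fun j => ((ζ j).val : ℝ) / Q, μ, g1, ?_⟩
    have hfl : H ≤ ⌊η * Q⌋₊ := Nat.le_floor hHQ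
    have hHltQ : H < Q := by
      have h1 : (H:ℝ) < Q := by
        have h2 : (0:ℝ) < Q := by exact_mod_cast hQpos
        nlinarith
      exact_mod_cast h1
    have h1 : ∑ d ∈ Finset.Icc 1 H, |kt N w Q (d : ZMod Q) -
          (rr N ![0, d] - singularSeries {0, d})| ≤ ε ^ 2 / 32 * (η * Q) :=
      le_trans (Finset.sum_le_sum_of_subset_of_nonneg (Finset.Icc_subset_Icc le_rfl hfl)
        (fun _ _ _ => abs_nonneg _)) f2
    have h2 : ∑ d ∈ Finset.Icc 1 H, ‖(kt N w Q (d : ZMod Q) : ℂ) -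
        ∑ j, (μ j : ℂ) * ZMod.stdAddChar (ζ j * (d : ZMod Q))‖ ≤ 4 * (η * ε ^ 2 / 128) * Q := by
      refine le_trans ?_ g2
      have h3 : ∑ d ∈ Finset.Icc 1 H, ‖(kt N w Q (d : ZMod Q) : ℂ) -
          ∑ j, (μ j : ℂ) * ZMod.stdAddChar (ζ j * (d : ZMod Q))‖ =
          ∑ h ∈ (Finset.Icc 1 H).image (fun d : ℕ => (d : ZMod Q)), ‖(kt N w Q h : ℂ) -
          ∑ j, (μ j : ℂ) * ZMod.stdAddChar (ζ j * h)‖ := by
        rw [Finset.sum_image]
        intro a ha b hb hab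
        rw [Finset.coe_Icc, Set.mem_Icc] at ha hb
        have h4 := congrArg ZMod.val hab
        simp only at h4
        rwa [ZMod.val_natCast_of_lt (by omega), ZMod.val_natCast_of_lt (by omega)] at h4
      rw [h3]
      exact Finset.sum_le_sum_of_subset_of_nonneg (Finset.subset_univ _)
        (fun _ _ _ => norm_nonneg _)
    have h3 : ∀ d : ℕ, |rr N ![0, d] - singularSeries {0, d} -
        ∑ j, μ j * Real.cos (2 * Real.pi * (((ζ j).val : ℝ) / Q) * d)| ≤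
        |kt N w Q (d : ZMod Q) - (rr N ![0, d] - singularSeries {0, d})| +
        ‖(kt N w Q (d : ZMod Q) : ℂ) -
          ∑ j, (μ j : ℂ) * ZMod.stdAddChar (ζ j * (d : ZMod Q))‖ := by
      intro d
      have h4 : ((kt N w Q (d : ZMod Q) : ℂ) -
          ∑ j, (μ j : ℂ) * ZMod.stdAddChar (ζ j * (d : ZMod Q))).re =
          kt N w Q (d : ZMod Q) -
            ∑ j, μ j * Real.cos (2 * Real.pi * (((ζ j).val : ℝ) / Q) * d) := by
        rw [Complex.sub_re, Complex.ofReal_re, Complex.re_sum]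
        congr 1
        refine Finset.sum_congr rfl fun j _ => ?_
        rw [Complex.re_ofReal_mul, re_char]
      have h5 := Complex.abs_re_le_norm ((kt N w Q (d : ZMod Q) : ℂ) -
          ∑ j, (μ j : ℂ) * ZMod.stdAddChar (ζ j * (d : ZMod Q)))
      rw [h4] at h5
      have h6 : rr N ![0, d] - singularSeries {0, d} -
          ∑ j, μ j * Real.cos (2 * Real.pi * (((ζ j).val : ℝ) / Q) * d) =
          -(kt N w Q (d : ZMod Q) - (rr N ![0, d] - singularSeries {0, d})) +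
          (kt N w Q (d : ZMod Q) -
            ∑ j, μ j * Real.cos (2 * Real.pi * (((ζ j).val : ℝ) / Q) * d)) := by ring
      rw [h6]
      refine (abs_add_le _ _).trans ?_
      rw [abs_neg]
      linarith
    calc ∑ d ∈ Finset.Icc 1 H, |rr N ![0, d] - singularSeries {0, d} -
        ∑ j, μ j * Real.cos (2 * Real.pi * (((ζ j).val : ℝ) / Q) * d)| ≤
        ∑ d ∈ Finset.Icc 1 H, (|kt N w Q (d : ZMod Q) - (rr N ![0, d] - singularSeries {0, d})| +
        ‖(kt N w Q (d : ZMod Q) : ℂ) -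
          ∑ j, (μ j : ℂ) * ZMod.stdAddChar (ζ j * (d : ZMod Q))‖) :=
          Finset.sum_le_sum fun d _ => h3 d
      _ ≤ ε ^ 2 / 32 * (η * Q) + 4 * (η * ε ^ 2 / 128) * Q := by
          rw [Finset.sum_add_distrib]
          exact add_le_add h1 h2
      _ = ε ^ 2 / 16 * (η * Q) := by ring
      _ ≤ ε ^ 2 / 16 * (2 * H) := by
          refine mul_le_mul_of_nonneg_left ?_ (by positivity)
          have h7 : η * Q ≤ η * (2 * H / η) := mul_le_mul_of_nonneg_left hQle hη.le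
          have h8 : η * (2 * H / η) = 2 * H := by field_simp
          linarith
      _ = ε ^ 2 / 8 * H := by ring
  choose! θ μ hμ hsum using hblock
  -- assemble the resonances
  set w' : Fin (I0 * R2) → ℝ := fun q => wt x (finProdFinEquiv.symm q).1 *
    μ (finProdFinEquiv.symm q).1 (finProdFinEquiv.symm q).2 with hw'
  set t' : Fin (I0 * R2) → ℝ := fun q => θ (finProdFinEquiv.symm q).1 (finProdFinEquiv.symm q).2
    with ht'
  refine ⟨Fin.append t' (fun _ => 0), Fin.append w' (fun _ => 0), ?_, ?_⟩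
  · have hCR : C ≤ ((I0 * R2 + ⌈C⌉₊ : ℕ) : ℝ) := by
      refine (Nat.le_ceil C).trans ?_
      exact_mod_cast Nat.le_add_left _ _
    have hw1 : ∀ q, 0 ≤ w' q ∧ w' q ≤ C := by
      intro q
      have hq : ((finProdFinEquiv.symm q).1 : ℕ) ∈ Finset.range I0 :=
        Finset.mem_range.mpr (finProdFinEquiv.symm q).1.2
      have h1 := e4 _ hq
      have h2 := hμ _ hq (finProdFinEquiv.symm q).2
      refine ⟨mul_nonneg h1.1 h2.1, ?_⟩
      calc w' q ≤ 1 * C := mul_le_mul h1.2 h2.2 h2.1 zero_le_one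
        _ = C := one_mul C
    intro i
    refine Fin.addCases (fun q => ?_) (fun q => ?_) i
    · rw [Fin.append_left]
      exact ⟨(hw1 q).1, (hw1 q).2.trans hCR⟩
    · rw [Fin.append_right]
      exact ⟨le_rfl, Nat.cast_nonneg _⟩
  · have hres : ∀ d : ℕ, ∑ i, Fin.append w' (fun _ : Fin ⌈C⌉₊ => (0:ℝ)) i *
        Real.cos (2 * Real.pi * Fin.append t' (fun _ : Fin ⌈C⌉₊ => (0:ℝ)) i * d) =
        ∑ i ∈ Finset.range I0, wt x i * ∑ j, μ i j * Real.cos (2 * Real.pi * θ i j * d) := by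
      intro d
      rw [Fin.sum_univ_add]
      have h1 : ∑ q : Fin ⌈C⌉₊, Fin.append w' (fun _ : Fin ⌈C⌉₊ => (0:ℝ)) (Fin.natAdd (I0 * R2) q) *
        Real.cos (2 * Real.pi * Fin.append t' (fun _ : Fin ⌈C⌉₊ => (0:ℝ))
          (Fin.natAdd (I0 * R2) q) * d) = 0 := by
        refine Finset.sum_eq_zero fun q _ => ?_
        rw [Fin.append_right, zero_mul]
      rw [h1, add_zero]
      have h2 : ∀ q : Fin (I0 * R2), Fin.append w' (fun _ : Fin ⌈C⌉₊ => (0:ℝ))
          (Fin.castAdd ⌈C⌉₊ q) *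
        Real.cos (2 * Real.pi * Fin.append t' (fun _ : Fin ⌈C⌉₊ => (0:ℝ))
          (Fin.castAdd ⌈C⌉₊ q) * d) = w' q * Real.cos (2 * Real.pi * t' q * d) := by
        intro q
        rw [Fin.append_left, Fin.append_left]
      simp_rw [h2]
      rw [← Equiv.sum_comp finProdFinEquiv, Fintype.sum_prod_type, Finset.sum_range]
      refine Finset.sum_congr rfl fun i _ => ?_
      rw [Finset.mul_sum]
      refine Finset.sum_congr rfl fun j _ => ?_
      rw [hw', ht']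
      simp only [Equiv.symm_apply_apply]
      ring
    simp_rw [hres]
    -- the total error
    obtain ⟨hs1, _⟩ := hsing H hHpos
    have hS0 : ∀ d : ℕ, 0 ≤ singularSeries {0, d} := fun d => singularSeries_nonneg _
    have htot : ∑ d ∈ Finset.Icc 1 H, |(tupleCount x {0, d} : ℝ) * (Real.log x) ^ 2 / x -
        singularSeries {0, d} - ∑ i ∈ Finset.range I0, wt x i *
          ∑ j, μ i j * Real.cos (2 * Real.pi * θ i j * d)| ≤ ε ^ 2 * H := by
      have hpt : ∀ d ∈ Finset.Icc 1 H, |(tupleCount x {0, d} : ℝ) * (Real.log x) ^ 2 / x -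
        singularSeries {0, d} - ∑ i ∈ Finset.range I0, wt x i *
          ∑ j, μ i j * Real.cos (2 * Real.pi * θ i j * d)| ≤
          (C1 * singularSeries {0, d} / 2 ^ I0 + ε ^ 2 / 4) +
          2 / 2 ^ I0 * singularSeries {0, d} +
          ∑ i ∈ Finset.range I0, wt x i * |rr (⌊x⌋₊ / 2 ^ (i + 1)) ![0, d] -
            singularSeries {0, d} - ∑ j, μ i j * Real.cos (2 * Real.pi * θ i j * d)| := by
        intro d hd
        rw [Finset.mem_Icc] at hd
        have hinj : Function.Injective (![0, d] : Fin 2 → ℕ) := by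
          intro a b hab
          fin_cases a <;> fin_cases b <;> simp at hab <;> first | rfl | omega
        have h1 := e1 ![0, d] hinj
        rw [image_pair] at h1
        have h2 : (tupleCount x {0, d} : ℝ) * (Real.log x) ^ 2 / x -
            singularSeries {0, d} - ∑ i ∈ Finset.range I0, wt x i *
              ∑ j, μ i j * Real.cos (2 * Real.pi * θ i j * d) =
            ((tupleCount x {0, d} : ℝ) * (Real.log x) ^ 2 / x -
              ∑ i ∈ Finset.range I0, wt x i * rr (⌊x⌋₊ / 2 ^ (i + 1)) ![0, d]) +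
            (∑ i ∈ Finset.range I0, wt x i - 1) * singularSeries {0, d} +
            ∑ i ∈ Finset.range I0, wt x i * (rr (⌊x⌋₊ / 2 ^ (i + 1)) ![0, d] -
              singularSeries {0, d} - ∑ j, μ i j * Real.cos (2 * Real.pi * θ i j * d)) := by
          simp only [mul_sub, Finset.sum_sub_distrib]
          rw [← Finset.sum_mul]
          ring
        rw [h2]
        refine (abs_add_le _ _).trans (add_le_add ((abs_add_le _ _).trans (add_le_add h1 ?_)) ?_)
        · rw [abs_mul, abs_of_nonneg (hS0 d)]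
          exact mul_le_mul_of_nonneg_right e5 (hS0 d)
        · refine (Finset.abs_sum_le_sum_abs _ _).trans (Finset.sum_le_sum fun i hi => ?_)
          rw [abs_mul, abs_of_nonneg (e4 i hi).1]
      refine (Finset.sum_le_sum hpt).trans ?_
      rw [Finset.sum_add_distrib, Finset.sum_add_distrib, Finset.sum_add_distrib]
      have h1 : ∑ d ∈ Finset.Icc 1 H, C1 * singularSeries {0, d} / 2 ^ I0 ≤ C1 * C2 / 2 ^ I0 * H := by
        have h2 : ∑ d ∈ Finset.Icc 1 H, C1 * singularSeries {0, d} / 2 ^ I0 =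
            C1 / 2 ^ I0 * ∑ d ∈ Finset.Icc 1 H, singularSeries {0, d} := by
          rw [Finset.mul_sum]
          refine Finset.sum_congr rfl fun d _ => ?_
          ring
        rw [h2]
        calc _ ≤ C1 / 2 ^ I0 * (C2 * H) := mul_le_mul_of_nonneg_left hs1 (by positivity)
          _ = _ := by ring
      have h2 : ∑ d ∈ Finset.Icc 1 H, ε ^ 2 / 4 = ε ^ 2 / 4 * H := by
        rw [Finset.sum_const, Nat.card_Icc, nsmul_eq_mul]
        push_cast [Nat.add_sub_cancel]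
        ring
      have h3 : ∑ d ∈ Finset.Icc 1 H, 2 / 2 ^ I0 * singularSeries {0, d} ≤ 2 * C2 / 2 ^ I0 * H := by
        rw [← Finset.mul_sum]
        calc _ ≤ 2 / 2 ^ I0 * (C2 * H) := mul_le_mul_of_nonneg_left hs1 (by positivity)
          _ = _ := by ring
      have h4 : ∑ d ∈ Finset.Icc 1 H, ∑ i ∈ Finset.range I0, wt x i *
          |rr (⌊x⌋₊ / 2 ^ (i + 1)) ![0, d] - singularSeries {0, d} -
            ∑ j, μ i j * Real.cos (2 * Real.pi * θ i j * d)| ≤ 2 * (ε ^ 2 / 8 * H) := by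
        rw [Finset.sum_comm]
        calc _ ≤ ∑ i ∈ Finset.range I0, wt x i * (ε ^ 2 / 8 * H) := by
              refine Finset.sum_le_sum fun i hi => ?_
              rw [← Finset.mul_sum]
              exact mul_le_mul_of_nonneg_left (hsum i hi) (e4 i hi).1
          _ = (∑ i ∈ Finset.range I0, wt x i) * (ε ^ 2 / 8 * H) := by rw [Finset.sum_mul]
          _ ≤ _ := mul_le_mul_of_nonneg_right e5' (by positivity)
      have h5 : C1 * C2 / 2 ^ I0 * (H:ℝ) + 2 * C2 / 2 ^ I0 * H ≤ ε ^ 2 / 4 * H := by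
        have h6 : C1 * C2 / 2 ^ I0 * (H:ℝ) + 2 * C2 / 2 ^ I0 * H =
            (2 * C2 + C1 * C2) / 2 ^ I0 * H := by ring
        rw [h6]
        exact mul_le_mul_of_nonneg_right hI0 (by positivity)
      have h7 : 0 ≤ ε ^ 2 * (H:ℝ) := by positivity
      linarith
    -- Markov
    have hmk : ε * (((Finset.Icc 1 H).filter (fun d : ℕ =>
        ε < |(tupleCount x {0, d} : ℝ) * (Real.log x) ^ 2 / x - singularSeries {0, d} -
          ∑ i ∈ Finset.range I0, wt x i *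
            ∑ j, μ i j * Real.cos (2 * Real.pi * θ i j * d)|)).card : ℝ) ≤ ε ^ 2 * H := by
      refine le_trans ?_ htot
      rw [mul_comm, ← nsmul_eq_mul, ← Finset.sum_const]
      refine le_trans (Finset.sum_le_sum fun d hd => ?_)
        (Finset.sum_le_sum_of_subset_of_nonneg (Finset.filter_subset _ _)
          (fun _ _ _ => abs_nonneg _))
      rw [Finset.mem_filter] at hd
      exact hd.2.le
    have h8 : ε ^ 2 * (H:ℝ) = ε * (ε * H) := by ring
    rw [h8] at hmk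
    exact le_of_mul_le_mul_left hmk hε

end Pool.Agent.HLT
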