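import Mathlib
import Pool.Agent.HLT.ClassTuples
import Pool.Agent.HLT.Sing2
import Pool.Agent.HLT.RowMoment

set_option autoImplicit false

open Finset Filter

namespace Pool.Agent.HLT

open Pool.Agent.HL26 Pool.Agent.Maynard

namespace C2aux

theorem Wp_pos (w : ℕ) : 0 < Wp w := by
  unfold Wp
  apply Finset.prod_pos
  intro p hp
  have := (Finset.mem_filter.mp hp).2
  exact this.pos

theorem cW_pos (w : ℕ) : 0 < cW (Wp w) := by
  unfold cW
  have h := Wp_pos w
  have h2 : 0 < Nat.totient (Wp w) := Nat.totient_pos.mpr h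
  positivity

theorem exists_t0 (b : Fin 5 → ℕ) (w d0 : ℕ) (h30 : 30 ∣ d0) :
    ∃ t0 : ℕ, ∀ i, (t0 + b i * d0).Coprime (Wp w) := by
  classical
  have hc : ∀ p : ℕ, p.Prime → ∃ c : ℕ, ∀ i, ¬ p ∣ c + b i * d0 := by
    intro p hp
    by_cases hd : p ∣ d0
    · refine ⟨1, fun i h => ?_⟩
      have h2 : p ∣ b i * d0 := Dvd.dvd.mul_left hd _
      have h3 : p ∣ 1 := (Nat.dvd_add_left h2).mp h
      exact hp.one_lt.ne' (Nat.dvd_one.mp h3)
    · have : Fact p.Prime := ⟨hp⟩
      have h7 : 5 < p := by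
        by_contra hlt
        push Not at hlt
        have : p ∣ 30 := by
          interval_cases p <;> first | (exfalso; revert hp; decide) | decide
        exact hd (this.trans h30)
      have hcard : ((Finset.univ : Finset (Fin 5)).image
          (fun i => (-(b i * d0 : ℕ) : ZMod p))).card < Fintype.card (ZMod p) := by
        refine lt_of_le_of_lt Finset.card_image_le ?_
        rw [ZMod.card]
        simpa using h7
      have : ∃ c : ZMod p, c ∉ ((Finset.univ : Finset (Fin 5)).image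
          (fun i => (-(b i * d0 : ℕ) : ZMod p))) := by
        by_contra hcon
        push Not at hcon
        have h1 : (Finset.univ : Finset (ZMod p)) ⊆ ((Finset.univ : Finset (Fin 5)).image
          (fun i => (-(b i * d0 : ℕ) : ZMod p))) := fun c _ => hcon c
        have h2 := Finset.card_le_card h1
        rw [Finset.card_univ] at h2
        omega
      obtain ⟨c, hc⟩ := this
      refine ⟨c.val, fun i h => hc ?_⟩
      rw [Finset.mem_image]
      refine ⟨i, Finset.mem_univ _, ?_⟩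
      have h2 : ((c.val + b i * d0 : ℕ) : ZMod p) = 0 := (ZMod.natCast_eq_zero_iff _ _).mpr h
      rw [Nat.cast_add, ZMod.natCast_zmod_val] at h2
      exact (neg_eq_of_add_eq_zero_left h2)
  choose! c hc using hc
  have hpair : Set.Pairwise ((PPy w : Finset ℕ) : Set ℕ) (Function.onFun Nat.Coprime (fun p : ℕ => p)) := by
    intro p hp q hq hpq
    have h1 := (Finset.mem_filter.mp (Finset.mem_coe.mp hp)).2
    have h2 := (Finset.mem_filter.mp (Finset.mem_coe.mp hq)).2
    exact (Nat.coprime_primes h1 h2).mpr hpq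
  have hne : ∀ p ∈ PPy w, (fun p : ℕ => p) p ≠ 0 := by
    intro p hp
    exact (Finset.mem_filter.mp hp).2.ne_zero
  obtain ⟨k, hk⟩ := Nat.chineseRemainderOfFinset c (fun p : ℕ => p) (PPy w) hne hpair
  refine ⟨k, fun i => ?_⟩
  unfold Wp
  apply Nat.Coprime.prod_right
  intro p hp
  have hpp := (Finset.mem_filter.mp hp).2
  rw [Nat.coprime_comm, Nat.Prime.coprime_iff_not_dvd hpp]
  intro hdvd
  apply hc p hpp i
  have h1 : k + b i * d0 ≡ c p + b i * d0 [MOD p] := Nat.ModEq.add_right _ (hk p hp)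
  exact (h1.dvd_iff (dvd_refl p)).mp hdvd

theorem translate0_pair {u v : ℕ} (h : u < v) : translate0 {u, v} = {0, v - u} := by
  have hs : sInf ((({u, v} : Finset ℕ)) : Set ℕ) = u := by
    apply IsLeast.csInf_eq
    constructor
    · simp
    · intro x hx
      simp at hx
      rcases hx with rfl | rfl
      · exact le_rfl
      · exact h.le
  unfold translate0
  rw [hs]
  simp [Finset.image_insert]

theorem sing_pair (w h : ℕ) (hw : 1 ≤ w) (hh : 0 < h) (hpp : pp w h ≤ 2) :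
    singularSeries {0, h} ≤ (1 / cW (Wp w)) ^ 2 * 4 := by
  have hinj : Function.Injective (![0, h] : Fin 2 → ℕ) := by
    intro i j hij
    fin_cases i <;> fin_cases j <;> simp at hij ⊢ <;> omega
  have h1 := singularSeries_le_pairs w 2 hw (by norm_num) ![0, h] hinj
  have himg : Finset.image (![0, h] : Fin 2 → ℕ) Finset.univ = {0, h} := by
    ext x
    simp [Fin.exists_fin_two, eq_comm]
  rw [himg] at h1
  have hpairs : pairs (fun x y : ℕ => pp w (Nat.dist x y) ^ 2) (![0, h] : Fin 2 → ℕ) = pp w h ^ 2 := by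
    unfold pairs
    rw [Fin.prod_univ_two]
    have e0 : (Finset.univ.filter (fun j : Fin 2 => (0 : Fin 2) < j)) = {1} := by decide
    have e1 : (Finset.univ.filter (fun j : Fin 2 => (1 : Fin 2) < j)) = ∅ := by decide
    rw [e0, e1]
    simp [Nat.dist]
  rw [hpairs] at h1
  refine h1.trans ?_
  have hpp1 := one_le_pp w h
  have : pp w h ^ 2 ≤ 4 := by nlinarith
  have hpos : 0 ≤ (1 / cW (Wp w)) ^ 2 := by positivity
  exact mul_le_mul_of_nonneg_left this hpos

theorem card_XS_lower (N w : ℕ) (hN : 2 * Wp w ≤ N) :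
    (N : ℝ) / (2 * Wp w) ≤ ((XS N w 0).card : ℝ) := by
  have hW := Wp_pos w
  unfold XS
  have h := Nat.Ioc_filter_modEq_card (r := Wp w) N (2 * N) hW 0
  have h1 : ((((Finset.Ioc N (2 * N)).filter (fun n => n ≡ 0 [MOD Wp w])).card : ℤ) : ℝ) ≥
      (N : ℝ) / (2 * Wp w) := by
    rw [h]
    have hWr : (0 : ℝ) < (Wp w : ℝ) := by exact_mod_cast hW
    have hNr : 2 * (Wp w : ℝ) ≤ N := by exact_mod_cast hN
    have a1 : ((⌊(((2 * N : ℕ) : ℚ) - (0 : ℕ)) / (Wp w : ℚ)⌋ : ℤ) : ℝ) ≥ 2 * N / Wp w - 1 := by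
      have := Int.sub_one_lt_floor ((((2 * N : ℕ) : ℚ) - (0 : ℕ)) / (Wp w : ℚ))
      have h2 : (((((2 * N : ℕ) : ℚ) - (0 : ℕ)) / (Wp w : ℚ) - 1 : ℚ) : ℝ) <
        ((⌊(((2 * N : ℕ) : ℚ) - (0 : ℕ)) / (Wp w : ℚ)⌋ : ℚ) : ℝ) := by exact_mod_cast this
      push_cast at h2
      push_cast
      simp only [sub_zero] at h2 ⊢
      linarith
    have a2 : ((⌊(((N : ℕ) : ℚ) - (0 : ℕ)) / (Wp w : ℚ)⌋ : ℤ) : ℝ) ≤ N / Wp w := by
      have := Int.floor_le ((((N : ℕ) : ℚ) - (0 : ℕ)) / (Wp w : ℚ))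
      have h2 : ((⌊(((N : ℕ) : ℚ) - (0 : ℕ)) / (Wp w : ℚ)⌋ : ℚ) : ℝ) ≤
        (((((N : ℕ) : ℚ) - (0 : ℕ)) / (Wp w : ℚ) : ℚ) : ℝ) := by exact_mod_cast this
      push_cast at h2
      push_cast
      simp only [sub_zero] at h2 ⊢
      linarith
    have a3 : (N : ℝ) / Wp w ≥ 2 := by
      rw [ge_iff_le, le_div_iff₀ hWr]; linarith
    have a4 : (N : ℝ) / (2 * Wp w) = (N / Wp w) / 2 := by
      field_simp
    rw [a4]
    have a5 : (2 * (N:ℝ) / Wp w) = 2 * (N / Wp w) := by ring
    rw [a5] at a1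
    have : ((max (⌊(((2 * N : ℕ) : ℚ) - (0 : ℕ)) / (Wp w : ℚ)⌋ -
        ⌊(((N : ℕ) : ℚ) - (0 : ℕ)) / (Wp w : ℚ)⌋) 0 : ℤ) : ℝ) ≥
        ((⌊(((2 * N : ℕ) : ℚ) - (0 : ℕ)) / (Wp w : ℚ)⌋ -
        ⌊(((N : ℕ) : ℚ) - (0 : ℕ)) / (Wp w : ℚ)⌋ : ℤ) : ℝ) := by
      exact_mod_cast le_max_left _ _
    push_cast at this a1 a2 ⊢
    linarith
  exact_mod_cast h1

open Classical in
theorem exc_bound (w H H' s d0 : ℕ) (κ : ℝ) (hs : 0 < s) (hsH : ∀ d, d ≤ H → s * d ≤ H')
    (hκ : 0 < κ) (hH' : 2 * Wp w ≤ H')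
    (hrow : ∀ ρ : Finset ℕ, ρ.Nonempty → (∀ r ∈ ρ, r < Wp w) →
      ∑ d' ∈ VS w H' ρ, (if d' = 0 then 0 else pp w (Nat.dist 0 d') ^ 1 - 1) ≤
        κ * ((VS w H' ρ).card : ℝ)) :
    (((Finset.Icc 1 H).filter (fun d => d % Wp w = d0 ∧ ¬ pp w (s * d) ≤ 2)).card : ℝ) ≤
      κ * (2 * (H':ℝ) / Wp w) := by
  have hW := Wp_pos w
  set ρ : Finset ℕ := {(s * d0) % Wp w} with hρ
  have hρ1 : ∀ r ∈ ρ, r < Wp w := by
    intro r hr
    rw [hρ, Finset.mem_singleton] at hr
    rw [hr]; exact Nat.mod_lt _ hW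
  have h1 := hrow ρ ⟨_, Finset.mem_singleton_self _⟩ hρ1
  have h2 := (card_VS w H' ρ hρ1 hH').2
  have hρc : (ρ.card : ℝ) = 1 := by rw [hρ, Finset.card_singleton]; norm_num
  rw [hρc, one_mul] at h2
  set Ex := (Finset.Icc 1 H).filter (fun d => d % Wp w = d0 ∧ ¬ pp w (s * d) ≤ 2) with hEx
  have hcard : (Ex.image (fun d => s * d)).card = Ex.card := by
    apply Finset.card_image_of_injective
    intro a c hac
    exact Nat.eq_of_mul_eq_mul_left hs hac
  have hsub : Ex.image (fun d => s * d) ⊆ VS w H' ρ := by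
    intro y hy
    rw [Finset.mem_image] at hy
    obtain ⟨d, hd, rfl⟩ := hy
    rw [hEx, Finset.mem_filter, Finset.mem_Icc] at hd
    unfold VS
    rw [Finset.mem_filter, Finset.mem_range]
    refine ⟨Nat.lt_succ_of_le (hsH d hd.1.2), ?_⟩
    rw [hρ, Finset.mem_singleton, ← hd.2.1, Nat.mul_mod_mod]
  have h3 : (Ex.card : ℝ) ≤ ∑ y ∈ Ex.image (fun d => s * d),
      (if y = 0 then 0 else pp w (Nat.dist 0 y) ^ 1 - 1) := by
    have := Finset.card_nsmul_le_sum (Ex.image (fun d => s * d))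
      (fun y => (if y = 0 then (0:ℝ) else pp w (Nat.dist 0 y) ^ 1 - 1)) 1 ?_
    · rw [hcard] at this
      simpa using this
    · intro y hy
      rw [Finset.mem_image] at hy
      obtain ⟨d, hd, rfl⟩ := hy
      rw [hEx, Finset.mem_filter, Finset.mem_Icc] at hd
      have hne : s * d ≠ 0 := Nat.mul_ne_zero hs.ne' (by omega)
      rw [if_neg hne]
      have hdist : Nat.dist 0 (s * d) = s * d := by simp [Nat.dist]
      rw [hdist, pow_one]
      have := hd.2.2
      push Not at this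
      linarith
  have h4 : ∑ y ∈ Ex.image (fun d => s * d),
      (if y = 0 then (0:ℝ) else pp w (Nat.dist 0 y) ^ 1 - 1) ≤
      ∑ d' ∈ VS w H' ρ, (if d' = 0 then (0:ℝ) else pp w (Nat.dist 0 d') ^ 1 - 1) := by
    apply Finset.sum_le_sum_of_subset_of_nonneg hsub
    intro y _ _
    split_ifs with h
    · exact le_rfl
    · have := one_le_pp w (Nat.dist 0 y)
      rw [pow_one]; linarith
  calc (Ex.card : ℝ) ≤ _ := h3
    _ ≤ _ := h4
    _ ≤ _ := h1
    _ ≤ _ := mul_le_mul_of_nonneg_left h2 hκ.le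

open Classical in
theorem class_bound (b : Fin 5 → ℕ) (hb : Function.Injective b) (Bm : ℕ) (hB : ∀ i, b i ≤ Bm)
    (w : ℕ) (hw : 5 ≤ w) (κ ε' : ℝ) (hκ : 0 < κ) (hε' : 0 < ε')
    (N H : ℕ) (x : ℝ)
    (hH : 4 * Wp w ≤ H)
    (hN : 2 * Wp w ≤ N) (hx6 : x ≤ 6 * N) (hNx : ((2 * N + (1 + Bm) * H : ℕ) : ℝ) ≤ x)
    (hlogN : 0 < Real.log N) (hlog : Real.log N ≤ Real.log x)
    (hrow : ∀ ρ : Finset ℕ, ρ.Nonempty → (∀ r ∈ ρ, r < Wp w) →
        ∑ d' ∈ VS w ((1+Bm)*H) ρ, (if d' = 0 then 0 else pp w (Nat.dist 0 d') ^ 1 - 1) ≤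
          κ * ((VS w ((1+Bm)*H) ρ).card : ℝ))
    (hcl : ∀ ρ : Finset ℕ, ρ.Nonempty → (∀ r ∈ ρ, r < Wp w ∧ (0 + r).Coprime (Wp w)) →
      ∀ (T : Type) [Fintype T] (e : T → Fin (4 * 1 + 1) → ℕ),
        (∀ t i, e t i ∈ VS w ((1+Bm)*H) ρ) → (∀ t, Function.Injective (e t)) →
        (∀ (I : Fin (1 + 1) ↪ Fin (4 * 1 + 1)) (v : Fin (1 + 1) → ℕ),
          ((univ.filter (fun t : T => ∀ i, e t (I i) = v i)).card : ℝ) ≤
            (800 * (1 + (Bm:ℝ))^2) * (Fintype.card T : ℝ) /
              ((VS w ((1+Bm)*H) ρ).card : ℝ) ^ (1 + 1)) →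
        ((univ.filter (fun t : T => ∀ I : Fin (1 + 1) ↪ Fin (4 * 1 + 1),
          (((XS N w 0).filter (fun n => ∀ i, (n + e t (I i)).Prime)).card : ℝ) <
            c0 1 * ((XS N w 0).card : ℝ) / (cW (Wp w) * Real.log N) ^ (1 + 1))).card : ℝ) ≤
          ε' * (Fintype.card T : ℝ))
    (d0 : ℕ) (hd0 : d0 < Wp w) (h30 : 30 ∣ d0) :
    (((Finset.Icc 1 H).filter (fun d => d % Wp w = d0 ∧ ∀ i j : Fin 5, b i < b j →
        (tupleCount x {0, (b j - b i) * d} : ℝ) <
          c0 1 / (48 * Wp w) *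
            (singularSeries {0, (b j - b i) * d} * (x / (Real.log x) ^ 2)))).card : ℝ) ≤
      (2 * ε' + 50 * κ * (1 + Bm)) * (H:ℝ) / Wp w := by
  obtain ⟨t0, ht0⟩ := exists_t0 b w d0 h30
  have hW := Wp_pos w
  have hWr : (0:ℝ) < (Wp w : ℝ) := by exact_mod_cast hW
  have hHr : 4 * (Wp w : ℝ) ≤ H := by exact_mod_cast hH
  have hBr : (0:ℝ) ≤ (Bm:ℝ) := Nat.cast_nonneg _
  have hcW := cW_pos w
  set H' := (1 + Bm) * H with hH'
  have hHH' : H ≤ H' := by rw [hH']; exact Nat.le_mul_of_pos_left H (by omega)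
  have hH'r : (H' : ℝ) = (1 + Bm) * H := by rw [hH']; push_cast; ring
  have hsH : ∀ (i : Fin 5) (t d : ℕ), t ≤ H → d ≤ H → t + b i * d ≤ H' := by
    intro i t d ht hd
    calc t + b i * d ≤ H + Bm * H := Nat.add_le_add ht (Nat.mul_le_mul (hB i) hd)
      _ = H' := by rw [hH']; ring
  set ρ : Finset ℕ := Finset.univ.image (fun i => (t0 + b i * d0) % Wp w) with hρ
  have hρne : ρ.Nonempty := ⟨_, Finset.mem_image_of_mem _ (Finset.mem_univ 0)⟩
  have hρ1 : ∀ r ∈ ρ, r < Wp w ∧ (0 + r).Coprime (Wp w) := by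
    intro r hr
    rw [hρ, Finset.mem_image] at hr
    obtain ⟨i, _, rfl⟩ := hr
    refine ⟨Nat.mod_lt _ hW, ?_⟩
    have h := ht0 i
    rw [zero_add]
    unfold Nat.Coprime at *
    rw [← Nat.gcd_rec, Nat.gcd_comm]; exact h
  have hρcard : (ρ.card : ℝ) ≤ 5 := by
    have : ρ.card ≤ 5 := Finset.card_image_le.trans (by simp)
    exact_mod_cast this
  set T1 := VS w H {t0 % Wp w} with hT1
  set D0 := VS w H {d0} with hD0
  set D1 := D0.filter (fun d => 0 < d) with hD1
  have hT1card := card_VS w H {t0 % Wp w} (by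
    intro r hr; rw [Finset.mem_singleton] at hr; rw [hr]; exact Nat.mod_lt _ hW) (by omega)
  have hD0card := card_VS w H {d0} (by
    intro r hr; rw [Finset.mem_singleton] at hr; rw [hr]; exact hd0) (by omega)
  have hVcard := (card_VS w H' ρ (fun r hr => (hρ1 r hr).1) (by omega)).2
  rw [Finset.card_singleton, Nat.cast_one, one_mul, one_mul, ← hT1] at hT1card
  rw [Finset.card_singleton, Nat.cast_one, one_mul, one_mul, ← hD0] at hD0card
  have hq : (4:ℝ) ≤ (H:ℝ) / Wp w := by rw [le_div_iff₀ hWr]; linarith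
  set q : ℝ := (H:ℝ) / Wp w with hqdef
  have e1 : (H:ℝ) / (2 * Wp w) = q / 2 := by rw [hqdef]; field_simp
  have e2 : 2 * (H:ℝ) / Wp w = 2 * q := by rw [hqdef]; ring
  have e3 : 2 * (H':ℝ) / Wp w = 2 * (1 + Bm) * q := by rw [hqdef, hH'r]; ring
  rw [e1, e2] at hT1card hD0card
  rw [e3] at hVcard
  have hD1card : (D0.card : ℝ) ≤ D1.card + 1 := by
    have hsub : D0 ⊆ insert 0 D1 := by
      intro d hd
      rw [Finset.mem_insert, hD1, Finset.mem_filter]
      rcases Nat.eq_zero_or_pos d with h | h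
      · exact Or.inl h
      · exact Or.inr ⟨hd, h⟩
    have := (Finset.card_le_card hsub).trans (Finset.card_insert_le _ _)
    exact_mod_cast this
  have hD1le : (D1.card : ℝ) ≤ D0.card := by
    have := Finset.card_le_card (Finset.filter_subset (fun d => 0 < d) D0)
    exact_mod_cast this
  have hD1low : q / 4 ≤ D1.card := by linarith [hD0card.1]
  have hmemT : ∀ t ∈ T1, t ≤ H ∧ t % Wp w = t0 % Wp w := by
    intro t ht
    rw [hT1] at ht
    unfold VS at ht
    rw [Finset.mem_filter, Finset.mem_range, Finset.mem_singleton] at ht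
    exact ⟨by omega, ht.2⟩
  have hmemD : ∀ d ∈ D1, d ≤ H ∧ d % Wp w = d0 ∧ 0 < d := by
    intro d hd
    rw [hD1, Finset.mem_filter, hD0] at hd
    unfold VS at hd
    rw [Finset.mem_filter, Finset.mem_range, Finset.mem_singleton] at hd
    exact ⟨by omega, hd.1.2, hd.2⟩
  have hcardT : (Fintype.card ↥(T1 ×ˢ D1) : ℝ) = T1.card * D1.card := by
    rw [Fintype.card_coe, Finset.card_product]; push_cast; ring
  have hVpos : (0:ℝ) < ((VS w H' ρ).card : ℝ) := by
    have h1 := (card_VS w H' ρ (fun r hr => (hρ1 r hr).1) (by omega)).1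
    have h2 : (1:ℝ) ≤ ρ.card := by exact_mod_cast hρne.card_pos
    have h3 : (0:ℝ) < (H':ℝ) / (2 * Wp w) := by
      have : (0:ℝ) < H' := by rw [hH'r]; nlinarith
      positivity
    nlinarith
  have hbad := hcl ρ hρne hρ1 ↥(T1 ×ˢ D1) (fun q i => q.1.1 + b i * q.1.2) (by
      rintro ⟨⟨t, d⟩, htd⟩ i
      rw [Finset.mem_product] at htd
      obtain ⟨ht1, ht2⟩ := hmemT t htd.1
      obtain ⟨hd1, hd2, hd3⟩ := hmemD d htd.2
      unfold VS
      rw [Finset.mem_filter, Finset.mem_range]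
      refine ⟨Nat.lt_succ_of_le (hsH i t d ht1 hd1), ?_⟩
      rw [hρ, Finset.mem_image]
      refine ⟨i, Finset.mem_univ _, ?_⟩
      show (t0 + b i * d0) % Wp w = (t + b i * d) % Wp w
      have h1 : t ≡ t0 [MOD Wp w] := ht2
      have h2 : d ≡ d0 [MOD Wp w] := by
        unfold Nat.ModEq; rw [hd2, Nat.mod_eq_of_lt hd0]
      exact (Nat.ModEq.add h1 (Nat.ModEq.mul_left _ h2)).symm) (by
      rintro ⟨⟨t, d⟩, htd⟩ i j hij
      rw [Finset.mem_product] at htd
      obtain ⟨hd1, hd2, hd3⟩ := hmemD d htd.2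
      have h1 : t + b i * d = t + b j * d := hij
      have h2 : b i * d = b j * d := Nat.add_left_cancel h1
      exact hb (Nat.eq_of_mul_eq_mul_right hd3 h2)) (by
      intro I v
      have hone : ((univ.filter (fun t : ↥(T1 ×ˢ D1) => ∀ i, t.1.1 + b (I i) * t.1.2 = v i)).card : ℝ)
          ≤ 1 := by
        have : (univ.filter (fun t : ↥(T1 ×ˢ D1) =>
            ∀ i, t.1.1 + b (I i) * t.1.2 = v i)).card ≤ 1 := by
          rw [Finset.card_le_one]
          rintro ⟨⟨t, d⟩, htd⟩ h1 ⟨⟨t', d'⟩, htd'⟩ h2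
          rw [Finset.mem_filter] at h1 h2
          have a0 : t + b (I 0) * d = v 0 := h1.2 0
          have a1 : t + b (I 1) * d = v 1 := h1.2 1
          have c0 : t' + b (I 0) * d' = v 0 := h2.2 0
          have c1 : t' + b (I 1) * d' = v 1 := h2.2 1
          have hne : b (I 0) ≠ b (I 1) := by
            intro h
            have := I.injective (hb h)
            exact absurd this (by decide)
          have hdd : d = d' := by
            have z : ((b (I 0) : ℤ) - b (I 1)) * ((d:ℤ) - d') = 0 := by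
              have a0' : (t:ℤ) + b (I 0) * d = v 0 := by exact_mod_cast a0
              have a1' : (t:ℤ) + b (I 1) * d = v 1 := by exact_mod_cast a1
              have c0' : (t':ℤ) + b (I 0) * d' = v 0 := by exact_mod_cast c0
              have c1' : (t':ℤ) + b (I 1) * d' = v 1 := by exact_mod_cast c1
              linear_combination a0' - a1' - c0' + c1'
            rcases mul_eq_zero.mp z with h | h
            · exact absurd (by exact_mod_cast sub_eq_zero.mp h) hne
            · exact_mod_cast sub_eq_zero.mp h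
          subst hdd
          have htt : t = t' := by omega
          subst htt
          rfl
        exact_mod_cast this
      refine hone.trans ?_
      rw [le_div_iff₀ (by positivity), one_mul, hcardT]
      have h1 : ((VS w H' ρ).card : ℝ) ≤ 5 * (2 * (1 + Bm) * q) :=
        hVcard.trans (mul_le_mul_of_nonneg_right hρcard (by positivity))
      have h2 : ((VS w H' ρ).card : ℝ) ^ (1 + 1) ≤ (5 * (2 * (1 + Bm) * q)) ^ 2 :=
        pow_le_pow_left₀ hVpos.le h1 2
      have h3 : (q / 2) * (q / 4) ≤ T1.card * D1.card :=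
        mul_le_mul hT1card.1 hD1low (by positivity) (Nat.cast_nonneg _)
      have h4 : (5 * (2 * (1 + (Bm:ℝ)) * q)) ^ 2 = (800 * (1 + (Bm:ℝ)) ^ 2) * ((q / 2) * (q / 4)) := by
        ring
      rw [h4] at h2
      exact h2.trans (mul_le_mul_of_nonneg_left h3 (by positivity)))
  -- the good violators
  set Viol : ℕ → Prop := fun d => ∀ i j : Fin 5, b i < b j →
        (tupleCount x {0, (b j - b i) * d} : ℝ) <
          c0 1 / (48 * Wp w) *
            (singularSeries {0, (b j - b i) * d} * (x / (Real.log x) ^ 2)) with hViol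
  set V := (Finset.Icc 1 H).filter (fun d => (d % Wp w = d0 ∧ Viol d) ∧
      ∀ i j : Fin 5, b i < b j → pp w ((b j - b i) * d) ≤ 2) with hV
  set Bad := (univ.filter (fun t : ↥(T1 ×ˢ D1) => ∀ I : Fin (1 + 1) ↪ Fin (4 * 1 + 1),
          (((XS N w 0).filter (fun n => ∀ i, (n + (t.1.1 + b (I i) * t.1.2)).Prime)).card : ℝ) <
            c0 1 * ((XS N w 0).card : ℝ) / (cW (Wp w) * Real.log N) ^ (1 + 1))) with hBad
  have hNr : 2 * (Wp w : ℝ) ≤ N := by exact_mod_cast hN
  have hNpos : (0:ℝ) < N := by linarith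
  have hc0 : 0 < c0 1 := by
    unfold c0
    have h1 : (0:ℝ) < ((4 * 1 + 1).choose (1 + 1) : ℝ) := by
      have : 0 < (4 * 1 + 1).choose (1 + 1) := by decide
      exact_mod_cast this
    have h2 : (0:ℝ) < ((1 + 1).factorial : ℝ) := by
      have : 0 < (1 + 1).factorial := Nat.factorial_pos _
      exact_mod_cast this
    positivity
  have hlogx : 0 < Real.log x := lt_of_lt_of_le hlogN hlog
  have hx0 : 0 < x := by
    have h1 : (0:ℝ) ≤ ((2 * N + (1 + Bm) * H : ℕ) : ℝ) := Nat.cast_nonneg _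
    have h2 : ((2 * N : ℕ) : ℝ) ≤ ((2 * N + (1 + Bm) * H : ℕ) : ℝ) := by
      exact_mod_cast Nat.le_add_right _ _
    push_cast at h2 hNx
    nlinarith
  have hXS := card_XS_lower N w hN
  have key : ∀ d ∈ V, ∀ t ∈ T1, ∀ i j : Fin 5, b i < b j →
      ∀ S : Finset ℕ, (∀ n ∈ S, n ∈ XS N w 0 ∧ (n + (t + b i * d)).Prime ∧ (n + (t + b j * d)).Prime) →
      (S.card : ℝ) < c0 1 * ((XS N w 0).card : ℝ) / (cW (Wp w) * Real.log N) ^ (1 + 1) := by
    intro d hd t ht i j hij S hS
    rw [hV, Finset.mem_filter, Finset.mem_Icc] at hd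
    obtain ⟨⟨hd1, hdH⟩, ⟨hdm, hdv⟩, hdp⟩ := hd
    obtain ⟨htH, htm⟩ := hmemT t ht
    have hlt : t + b i * d < t + b j * d := by
      have : b i * d < b j * d := Nat.mul_lt_mul_of_pos_right hij (by omega)
      omega
    have hdiff : t + b j * d - (t + b i * d) = (b j - b i) * d := by
      rw [Nat.sub_mul]; omega
    have hge := tupleCount_ge N w 0 x H' hNx {t + b i * d, t + b j * d}
      ⟨_, Finset.mem_insert_self _ _⟩ (by
        intro e he
        rw [Finset.mem_insert, Finset.mem_singleton] at he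
        rcases he with rfl | rfl
        · exact hsH i t d htH hdH
        · exact hsH j t d htH hdH)
    rw [translate0_pair hlt, hdiff] at hge
    have hsub : S ⊆ (XS N w 0).filter
        (fun n => ∀ e ∈ ({t + b i * d, t + b j * d} : Finset ℕ), (n + e).Prime) := by
      intro n hn
      rw [Finset.mem_filter]
      refine ⟨(hS n hn).1, ?_⟩
      intro e he
      rw [Finset.mem_insert, Finset.mem_singleton] at he
      rcases he with rfl | rfl
      · exact (hS n hn).2.1
      · exact (hS n hn).2.2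
    have h1 : (S.card : ℝ) ≤ (tupleCount x {0, (b j - b i) * d} : ℝ) := by
      refine le_trans ?_ hge
      exact_mod_cast Finset.card_le_card hsub
    have h2 := hdv i j hij
    have h3 := sing_pair w ((b j - b i) * d) (by omega)
      (Nat.mul_pos (by omega) (by omega)) (hdp i j hij)
    refine lt_of_le_of_lt h1 (lt_of_lt_of_le h2 ?_)
    have hxl : 0 ≤ x / (Real.log x) ^ 2 := by positivity
    calc c0 1 / (48 * Wp w) * (singularSeries {0, (b j - b i) * d} * (x / (Real.log x) ^ 2))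
        ≤ c0 1 / (48 * Wp w) * (((1 / cW (Wp w)) ^ 2 * 4) * (x / (Real.log x) ^ 2)) :=
          mul_le_mul_of_nonneg_left (mul_le_mul_of_nonneg_right h3 hxl) (by positivity)
      _ = c0 1 * (x / (12 * Wp w)) / (cW (Wp w) * Real.log x) ^ 2 := by
          field_simp
          ring
      _ ≤ c0 1 * (x / (12 * Wp w)) / (cW (Wp w) * Real.log N) ^ 2 := by
          apply div_le_div_of_nonneg_left (by positivity) (by positivity)
          apply pow_le_pow_left₀ (by positivity)
          exact mul_le_mul_of_nonneg_left hlog hcW.le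
      _ ≤ c0 1 * ((XS N w 0).card : ℝ) / (cW (Wp w) * Real.log N) ^ (1 + 1) := by
          apply div_le_div_of_nonneg_right _ (by positivity)
          apply mul_le_mul_of_nonneg_left _ hc0.le
          refine le_trans ?_ hXS
          rw [div_le_div_iff₀ (by positivity) (by positivity)]
          nlinarith
  have hVD : ∀ d ∈ V, d ∈ D1 := by
    intro d hd
    rw [hV, Finset.mem_filter, Finset.mem_Icc] at hd
    rw [hD1, Finset.mem_filter, hD0]
    unfold VS
    rw [Finset.mem_filter, Finset.mem_range, Finset.mem_singleton]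
    exact ⟨⟨by omega, hd.2.1.1⟩, by omega⟩
  have himg : T1 ×ˢ V ⊆ Bad.image (fun t => t.1) := by
    rintro ⟨t, d⟩ htd
    rw [Finset.mem_product] at htd
    rw [Finset.mem_image]
    refine ⟨⟨(t, d), Finset.mem_product.mpr ⟨htd.1, hVD d htd.2⟩⟩, ?_, rfl⟩
    rw [hBad, Finset.mem_filter]
    refine ⟨Finset.mem_univ _, ?_⟩
    intro I
    have hne : b (I 0) ≠ b (I 1) := by
      intro h
      have := I.injective (hb h)
      exact absurd this (by decide)
    rcases lt_or_gt_of_ne hne with h | h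
    · apply key d htd.2 t htd.1 (I 0) (I 1) h
      intro n hn
      rw [Finset.mem_filter] at hn
      exact ⟨hn.1, hn.2 0, hn.2 1⟩
    · apply key d htd.2 t htd.1 (I 1) (I 0) h
      intro n hn
      rw [Finset.mem_filter] at hn
      exact ⟨hn.1, hn.2 1, hn.2 0⟩
  have hTV : (T1.card : ℝ) * V.card ≤ ε' * (T1.card * D1.card) := by
    have h1 := (Finset.card_le_card himg).trans Finset.card_image_le
    rw [Finset.card_product] at h1
    have h2 : (T1.card : ℝ) * V.card ≤ (Bad.card : ℝ) := by exact_mod_cast h1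
    refine h2.trans ?_
    rw [← hcardT]
    exact hbad
  have hT1pos : (0:ℝ) < T1.card := by linarith [hT1card.1]
  have hVle : (V.card : ℝ) ≤ ε' * (2 * q) := by
    have h1 : (V.card : ℝ) ≤ ε' * D1.card := by
      have h2 : (T1.card : ℝ) * V.card ≤ T1.card * (ε' * D1.card) := by
        calc _ ≤ _ := hTV
          _ = _ := by ring
      exact le_of_mul_le_mul_left h2 hT1pos
    refine h1.trans (mul_le_mul_of_nonneg_left ?_ hε'.le)
    exact hD1le.trans hD0card.2
  -- exceptional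
  set Ex : Fin 5 × Fin 5 → Finset ℕ := fun ij =>
    if b ij.1 < b ij.2 then
      (Finset.Icc 1 H).filter (fun d => d % Wp w = d0 ∧ ¬ pp w ((b ij.2 - b ij.1) * d) ≤ 2) else ∅
    with hEx
  have hExcard : ∀ ij, ((Ex ij).card : ℝ) ≤ κ * (2 * (1 + Bm) * q) := by
    intro ij
    rw [hEx]
    dsimp only
    split_ifs with h
    · have := exc_bound w H H' (b ij.2 - b ij.1) d0 κ (by omega) (by
        intro d hd
        calc (b ij.2 - b ij.1) * d ≤ Bm * H :=
              Nat.mul_le_mul ((Nat.sub_le _ _).trans (hB _)) hd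
          _ ≤ H' := by rw [hH']; exact Nat.mul_le_mul_right _ (by omega)) hκ (by omega) hrow
      rw [e3] at this
      exact this
    · rw [Finset.card_empty, Nat.cast_zero]
      positivity
  have hcover : (Finset.Icc 1 H).filter (fun d => d % Wp w = d0 ∧ Viol d) ⊆
      V ∪ (Finset.univ : Finset (Fin 5 × Fin 5)).biUnion Ex := by
    intro d hd
    rw [Finset.mem_filter] at hd
    rw [Finset.mem_union]
    by_cases h : ∀ i j : Fin 5, b i < b j → pp w ((b j - b i) * d) ≤ 2
    · left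
      rw [hV, Finset.mem_filter]
      exact ⟨hd.1, hd.2, h⟩
    · right
      push Not at h
      obtain ⟨i, j, hij, hp⟩ := h
      rw [Finset.mem_biUnion]
      refine ⟨(i, j), Finset.mem_univ _, ?_⟩
      rw [hEx]
      dsimp only
      rw [if_pos hij, Finset.mem_filter]
      exact ⟨hd.1, hd.2.1, not_le.mpr hp⟩
  have hfin : (((Finset.Icc 1 H).filter (fun d => d % Wp w = d0 ∧ Viol d)).card : ℝ) ≤
      ε' * (2 * q) + 25 * (κ * (2 * (1 + Bm) * q)) := by
    have h1 := (Finset.card_le_card hcover).trans (Finset.card_union_le _ _)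
    have h2 : (((Finset.univ : Finset (Fin 5 × Fin 5)).biUnion Ex).card : ℝ) ≤
        25 * (κ * (2 * (1 + Bm) * q)) := by
      have h3 : (((Finset.univ : Finset (Fin 5 × Fin 5)).biUnion Ex).card : ℝ) ≤
          ∑ ij : Fin 5 × Fin 5, ((Ex ij).card : ℝ) := by
        exact_mod_cast (Finset.card_biUnion_le (s := (Finset.univ : Finset (Fin 5 × Fin 5))) (t := Ex))
      refine h3.trans ?_
      refine (Finset.sum_le_sum (fun ij _ => hExcard ij)).trans ?_
      rw [Finset.sum_const, nsmul_eq_mul]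
      simp
    have h4 : (((Finset.Icc 1 H).filter (fun d => d % Wp w = d0 ∧ Viol d)).card : ℝ) ≤
        V.card + ((Finset.univ : Finset (Fin 5 × Fin 5)).biUnion Ex).card := by exact_mod_cast h1
    linarith
  refine hfin.trans (le_of_eq ?_)
  rw [hqdef]
  ring

theorem thirty_dvd (w : ℕ) (hw : 5 ≤ w) : 30 ∣ Wp w := by
  have hsub : ({2, 3, 5} : Finset ℕ) ⊆ PPy w := by
    intro p hp
    rw [Finset.mem_insert, Finset.mem_insert, Finset.mem_singleton] at hp
    unfold PPy
    rw [Finset.mem_filter, Finset.mem_range]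
    rcases hp with rfl | rfl | rfl
    · exact ⟨by omega, by norm_num⟩
    · exact ⟨by omega, by norm_num⟩
    · exact ⟨by omega, by norm_num⟩
  have h := Finset.prod_dvd_prod_of_subset _ _ (fun p : ℕ => p) hsub
  have h2 : ∏ p ∈ ({2, 3, 5} : Finset ℕ), p = 30 := by decide
  rw [h2] at h
  exact h

end C2aux



open Classical in
/-- C2: for almost all multiples `d` of 30, one of the differences `(b_j - b_i) d` satisfies the
Hardy-Littlewood lower bound. -/
theorem five_multiples (b : Fin 5 → ℕ) (hb : Function.Injective b) (ε : ℝ) (hε : 0 < ε) :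
    ∃ c K : ℝ, 0 < c ∧ ∀ A : ℕ, ∃ X : ℝ, ∀ x : ℝ, X ≤ x → ∀ H : ℕ,
    K * Real.log x ≤ H → (H:ℝ) ≤ (Real.log x) ^ A →
    (((Finset.Icc 1 H).filter (fun d => 30 ∣ d ∧ ∀ i j : Fin 5, b i < b j →
        (tupleCount x {0, (b j - b i) * d} : ℝ) <
          c * (singularSeries {0, (b j - b i) * d} * (x / (Real.log x) ^ 2)))).card : ℝ) ≤
      ε * (H:ℝ) := by
  set Bm := Finset.univ.sup b with hBm
  have hB : ∀ i, b i ≤ Bm := fun i => Finset.le_sup (Finset.mem_univ i)
  have hBr : (0:ℝ) ≤ (Bm:ℝ) := Nat.cast_nonneg _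
  set κ : ℝ := ε / (200 * (1 + Bm)) with hκdef
  have hκ : 0 < κ := by positivity
  set ε' : ℝ := ε / 4 with hε'def
  have hε' : 0 < ε' := by positivity
  obtain ⟨w1, hw1⟩ := class_tuples 1 le_rfl (800 * (1 + (Bm:ℝ)) ^ 2) ε' (by positivity) hε'
  obtain ⟨w2, hw2⟩ := row_moment 1 κ hκ
  set w := max (max w1 w2) 5 with hw
  have hw5 : 5 ≤ w := le_max_right _ _
  obtain ⟨K', hK'⟩ := hw1 w ((le_max_left _ _).trans (le_max_left _ _))
  obtain ⟨H0, hH0⟩ := hw2 w ((le_max_right _ _).trans (le_max_left _ _))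
  have hW := C2aux.Wp_pos w
  have hWr : (0:ℝ) < (Wp w : ℝ) := by exact_mod_cast hW
  have hc0 : 0 < c0 1 := by
    unfold c0
    have h1 : (0:ℝ) < ((4 * 1 + 1).choose (1 + 1) : ℝ) := by
      have : 0 < (4 * 1 + 1).choose (1 + 1) := by decide
      exact_mod_cast this
    have h2 : (0:ℝ) < ((1 + 1).factorial : ℝ) := by
      have : 0 < (1 + 1).factorial := Nat.factorial_pos _
      exact_mod_cast this
    positivity
  refine ⟨c0 1 / (48 * Wp w), max K' 1, by positivity, ?_⟩
  intro A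
  obtain ⟨N0, hN0⟩ := eventually_atTop.mp (hK' (A + 1))
  have ev1 : ∀ᶠ x : ℝ in atTop, (3 * (N0:ℝ) + 3 ≤ x ∧ 6 * (Wp w:ℝ) + 3 ≤ x) ∧ 36 ≤ x :=
    ((eventually_ge_atTop _).and (eventually_ge_atTop _)).and (eventually_ge_atTop _)
  have ev2 : ∀ᶠ x : ℝ in atTop, (4 * (Wp w:ℝ) ≤ Real.log x ∧ (H0:ℝ) ≤ Real.log x) ∧
      (1 + (Bm:ℝ)) * 2 ^ (A + 1) ≤ Real.log x :=
    ((Real.tendsto_log_atTop.eventually_ge_atTop _).and
      (Real.tendsto_log_atTop.eventually_ge_atTop _)).and
      (Real.tendsto_log_atTop.eventually_ge_atTop _)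
  have ev3 : ∀ᶠ x : ℝ in atTop, (1 + (Bm:ℝ)) * (Real.log x) ^ A ≤ x / 3 := by
    have h := (Real.isLittleO_pow_log_id_atTop (n := A)).bound
      (show (0:ℝ) < 1 / (3 * (1 + (Bm:ℝ))) by positivity)
    filter_upwards [h, eventually_ge_atTop (1:ℝ)] with x hx hx1
    have hl : 0 ≤ Real.log x := Real.log_nonneg hx1
    rw [Real.norm_of_nonneg (pow_nonneg hl A), id, Real.norm_of_nonneg (by linarith)] at hx
    calc (1 + (Bm:ℝ)) * (Real.log x) ^ A ≤ (1 + (Bm:ℝ)) * (1 / (3 * (1 + (Bm:ℝ))) * x) :=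
          mul_le_mul_of_nonneg_left hx (by positivity)
      _ = x / 3 := by field_simp
  obtain ⟨X, hX⟩ := eventually_atTop.mp (ev1.and (ev2.and ev3))
  refine ⟨X, fun x hx H hHl hHu => ?_⟩
  obtain ⟨⟨⟨hx1, hx2⟩, hx36⟩, ⟨⟨hl1, hl2⟩, hl3⟩, hx3⟩ := hX x hx
  set N := ⌊x / 3⌋₊ with hNdef
  have hNle : (N:ℝ) ≤ x / 3 := Nat.floor_le (by linarith)
  have hNlt : x / 3 < (N:ℝ) + 1 := Nat.lt_floor_add_one _
  have hNN0 : N0 ≤ N := by
    apply Nat.le_floor; linarith
  have hNW : 2 * Wp w ≤ N := by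
    apply Nat.le_floor; push_cast; linarith
  have hx6 : x ≤ 6 * N := by
    have : (1:ℝ) ≤ N := by
      have : (1:ℕ) ≤ N := by omega
      exact_mod_cast this
    linarith
  have hNpos : (0:ℝ) < N := by linarith
  have hxpos : (0:ℝ) < x := by linarith
  have hlogx : 0 < Real.log x := by linarith
  have hlog : Real.log N ≤ Real.log x := Real.log_le_log hNpos (by linarith)
  have hlogN2 : Real.log x / 2 ≤ Real.log N := by
    rw [← Real.log_sqrt hxpos.le]
    apply Real.log_le_log (Real.sqrt_pos.mpr hxpos)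
    have h6 : 6 ≤ Real.sqrt x := by
      rw [show (6:ℝ) = Real.sqrt 36 by
        rw [show (36:ℝ) = 6 ^ 2 by norm_num, Real.sqrt_sq (by norm_num)]]
      exact Real.sqrt_le_sqrt hx36
    have hsq := Real.mul_self_sqrt hxpos.le
    nlinarith
  have hlogN : 0 < Real.log N := by linarith
  have hHr : Real.log x ≤ H := by
    have : (1:ℝ) * Real.log x ≤ max K' 1 * Real.log x :=
      mul_le_mul_of_nonneg_right (le_max_right _ _) hlogx.le
    linarith
  have hH4 : 4 * Wp w ≤ H := by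
    have : (4:ℝ) * Wp w ≤ H := by linarith
    exact_mod_cast this
  have hH00 : H0 ≤ H := by
    have : (H0:ℝ) ≤ H := by linarith
    exact_mod_cast this
  have hHH' : H ≤ (1 + Bm) * H := Nat.le_mul_of_pos_left H (by omega)
  have hHH'r : (H:ℝ) ≤ (((1 + Bm) * H : ℕ) : ℝ) := by exact_mod_cast hHH'
  have hNx : ((2 * N + (1 + Bm) * H : ℕ) : ℝ) ≤ x := by
    push_cast
    have h1 : (1 + (Bm:ℝ)) * H ≤ (1 + (Bm:ℝ)) * (Real.log x) ^ A :=
      mul_le_mul_of_nonneg_left hHu (by positivity)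
    linarith
  have hKH : K' * Real.log N ≤ (((1 + Bm) * H : ℕ) : ℝ) := by
    calc K' * Real.log N ≤ max K' 1 * Real.log N :=
          mul_le_mul_of_nonneg_right (le_max_left _ _) hlogN.le
      _ ≤ max K' 1 * Real.log x :=
          mul_le_mul_of_nonneg_left hlog (le_trans zero_le_one (le_max_right _ _))
      _ ≤ H := hHl
      _ ≤ _ := hHH'r
  have hHA : (((1 + Bm) * H : ℕ) : ℝ) ≤ (Real.log N) ^ (A + 1) := by
    push_cast
    calc (1 + (Bm:ℝ)) * H ≤ (1 + (Bm:ℝ)) * (Real.log x) ^ A :=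
          mul_le_mul_of_nonneg_left hHu (by positivity)
      _ = ((1 + (Bm:ℝ)) * 2 ^ (A + 1)) * (Real.log x) ^ A / 2 ^ (A + 1) := by
          field_simp
      _ ≤ Real.log x * (Real.log x) ^ A / 2 ^ (A + 1) := by
          apply div_le_div_of_nonneg_right _ (by positivity)
          exact mul_le_mul_of_nonneg_right hl3 (by positivity)
      _ = (Real.log x / 2) ^ (A + 1) := by
          rw [div_pow, pow_succ (Real.log x) A]; ring
      _ ≤ (Real.log N) ^ (A + 1) := pow_le_pow_left₀ (by positivity) hlogN2 _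
  have hrow := fun (ρ : Finset ℕ) (h1 : ρ.Nonempty) (h2 : ∀ r ∈ ρ, r < Wp w) =>
    hH0 ((1 + Bm) * H) (hH00.trans hHH') ρ h1 h2 0 (Nat.zero_le _)
  have hcl := hN0 N hNN0 ((1 + Bm) * H) hKH hHA 0
  have hclass : ∀ d0 ∈ Finset.range (Wp w),
      ((((Finset.Icc 1 H).filter (fun d => 30 ∣ d ∧ ∀ i j : Fin 5, b i < b j →
        (tupleCount x {0, (b j - b i) * d} : ℝ) <
          c0 1 / (48 * Wp w) *
            (singularSeries {0, (b j - b i) * d} * (x / (Real.log x) ^ 2)))).filter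
              (fun d => d % Wp w = d0)).card : ℝ) ≤
      (2 * ε' + 50 * κ * (1 + Bm)) * (H:ℝ) / Wp w := by
    intro d0 hd0
    rw [Finset.mem_range] at hd0
    by_cases h30 : 30 ∣ d0
    · refine le_trans ?_ (C2aux.class_bound b hb Bm hB w hw5 κ ε' hκ hε' N H x hH4 hNW hx6 hNx hlogN hlog
        hrow hcl d0 hd0 h30)
      have hsub : (((Finset.Icc 1 H).filter (fun d => 30 ∣ d ∧ ∀ i j : Fin 5, b i < b j →
        (tupleCount x {0, (b j - b i) * d} : ℝ) <
          c0 1 / (48 * Wp w) *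
            (singularSeries {0, (b j - b i) * d} * (x / (Real.log x) ^ 2)))).filter
              (fun d => d % Wp w = d0)) ⊆
          ((Finset.Icc 1 H).filter (fun d => d % Wp w = d0 ∧ ∀ i j : Fin 5, b i < b j →
        (tupleCount x {0, (b j - b i) * d} : ℝ) <
          c0 1 / (48 * Wp w) *
            (singularSeries {0, (b j - b i) * d} * (x / (Real.log x) ^ 2)))) := by
        intro d hd
        rw [Finset.mem_filter, Finset.mem_filter] at hd
        rw [Finset.mem_filter]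
        exact ⟨hd.1.1, hd.2, hd.1.2.2⟩
      exact_mod_cast Finset.card_le_card hsub
    · have hempty : (((Finset.Icc 1 H).filter (fun d => 30 ∣ d ∧ ∀ i j : Fin 5, b i < b j →
        (tupleCount x {0, (b j - b i) * d} : ℝ) <
          c0 1 / (48 * Wp w) *
            (singularSeries {0, (b j - b i) * d} * (x / (Real.log x) ^ 2)))).filter
              (fun d => d % Wp w = d0)) = ∅ := by
        rw [Finset.eq_empty_iff_forall_notMem]
        intro d hd
        rw [Finset.mem_filter, Finset.mem_filter] at hd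
        apply h30
        rw [← hd.2]
        exact (Nat.dvd_mod_iff (C2aux.thirty_dvd w hw5)).mpr hd.1.2.1
      rw [hempty, Finset.card_empty, Nat.cast_zero]
      positivity
  rw [Finset.card_eq_sum_card_fiberwise (f := fun d => d % Wp w) (t := Finset.range (Wp w))
    (fun d _ => Finset.mem_coe.mpr (Finset.mem_range.mpr (Nat.mod_lt _ hW)))]
  push_cast
  refine (Finset.sum_le_sum hclass).trans ?_
  rw [Finset.sum_const, Finset.card_range, nsmul_eq_mul]
  have e1 : (Wp w : ℝ) * ((2 * ε' + 50 * κ * (1 + Bm)) * (H:ℝ) / Wp w) =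
      (2 * ε' + 50 * κ * (1 + Bm)) * H := by field_simp
  rw [e1]
  apply mul_le_mul_of_nonneg_right _ (Nat.cast_nonneg _)
  have e2 : 50 * κ * (1 + (Bm:ℝ)) = ε / 4 := by rw [hκdef]; field_simp; ring
  rw [e2, hε'def]
  linarith

end Pool.Agent.HLT
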