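import Mathlib
import Pool.Agent.HLT.ClassAvg
import Pool.Agent.HLT.SingAvg
import Pool.Agent.HLT.PrimesClass
import Pool.Agent.HLT.Mertens
import Pool.Agent.HL26.Assemble

set_option autoImplicit false

open Finset Filter

namespace Pool.Agent.HLT

open Pool.Agent.HL26 Pool.Agent.Maynard

namespace F4

theorem Wp_pos (w : ℕ) : 0 < Wp w := by
  unfold Wp
  apply Finset.prod_pos
  intro p hp
  have := (Finset.mem_filter.mp hp).2
  exact this.pos

theorem cW_pos (w : ℕ) : 0 < cW (Wp w) := by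
  unfold cW
  have h := Wp_pos w
  have h2 : 0 < Nat.totient (Wp w) := Nat.totient_pos.mpr h
  positivity

theorem translate0_pair {u v : ℕ} (h : u < v) : translate0 {u, v} = {0, v - u} := by
  have hs : sInf ((({u, v} : Finset ℕ)) : Set ℕ) = u := by
    apply IsLeast.csInf_eq
    constructor
    · simp
    · intro x hx
      simp at hx
      rcases hx with rfl | rfl
      · exact le_rfl
      · exact h.le
  unfold translate0
  rw [hs]
  simp [Finset.image_insert]

theorem prime_dvd_Wp {w p : ℕ} (hp : p.Prime) (h : p ≤ w) : p ∣ Wp w := by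
  unfold Wp
  apply Finset.dvd_prod_of_mem (fun p : ℕ => p)
  unfold PPy
  simp only [Finset.mem_filter, Finset.mem_range]
  exact ⟨by omega, hp⟩

theorem le_of_dvd_Wp {w p : ℕ} (hp : p.Prime) (h : p ∣ Wp w) : p ≤ w := by
  unfold Wp at h
  rw [hp.prime.dvd_finsetProd_iff] at h
  obtain ⟨q, hq, hpq⟩ := h
  unfold PPy at hq
  simp only [Finset.mem_filter, Finset.mem_range] at hq
  have : p = q := (Nat.prime_dvd_prime_iff_eq hp hq.2).mp hpq
  omega

theorem pp_mul_small (w j d : ℕ) (hj : ∀ p : ℕ, p.Prime → p ∣ j → p ≤ w) (hj0 : j ≠ 0)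
    (hd : d ≠ 0) : pp w (j * d) = pp w d := by
  unfold pp
  apply Finset.prod_congr _ (fun _ _ => rfl)
  ext p
  rw [Finset.mem_filter, Finset.mem_filter, Nat.primeFactors_mul hj0 hd, Finset.mem_union]
  constructor
  · rintro ⟨h1 | h1, h2⟩
    · have := hj p (Nat.prime_of_mem_primeFactors h1) (Nat.dvd_of_mem_primeFactors h1)
      omega
    · exact ⟨h1, h2⟩
  · rintro ⟨h1, h2⟩
    exact ⟨Or.inr h1, h2⟩

theorem SP_pair (w h : ℕ) (hh : 0 < h) (hW : Wp w ∣ h) :
    SP (PPy w) {0, h} = 1 / cW (Wp w) := by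
  rw [B1aux.cW_Wp, one_div, ← Finset.prod_inv_distrib]
  unfold SP
  apply Finset.prod_congr rfl
  intro p hp
  have hpp : p.Prime := PPy_prime w p hp
  have hpw : p ∣ h := (prime_dvd_Wp hpp (B1aux.mem_PPy.mp hp).1).trans hW
  have hcard : ({0, h} : Finset ℕ).card = 2 := Finset.card_pair hh.ne
  have hnu : nu {0, h} p = 1 := by
    unfold nu
    rw [Finset.image_insert, Finset.image_singleton]
    have : ((h : ℕ) : ZMod p) = 0 := (ZMod.natCast_eq_zero_iff _ _).mpr hpw
    rw [this]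
    simp
  rw [hcard, hnu]
  have h1 : (0:ℝ) < 1 - 1 / (p:ℝ) := B1aux.one_sub_inv_pos hpp
  push_cast
  field_simp

theorem sing_pair (w h : ℕ) (hw : 1 ≤ w) (hh : 0 < h) (hW : Wp w ∣ h) :
    singularSeries {0, h} ≤ 1 / cW (Wp w) * pp w h ^ 2 := by
  have hinj : Function.Injective (![0, h] : Fin 2 → ℕ) := by
    intro i j hij
    fin_cases i <;> fin_cases j <;> simp at hij ⊢ <;> omega
  have h1 := singularSeries_le_SP_pairs w 2 hw (by norm_num) ![0, h] hinj
  have himg : Finset.image (![0, h] : Fin 2 → ℕ) Finset.univ = {0, h} := by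
    ext x
    simp [Fin.exists_fin_two, eq_comm]
  rw [himg] at h1
  have hpairs : pairs (fun x y : ℕ => pp w (Nat.dist x y) ^ 2) (![0, h] : Fin 2 → ℕ) = pp w h ^ 2 := by
    unfold pairs
    rw [Fin.prod_univ_two]
    have e0 : (Finset.univ.filter (fun j : Fin 2 => (0 : Fin 2) < j)) = {1} := by decide
    have e1 : (Finset.univ.filter (fun j : Fin 2 => (1 : Fin 2) < j)) = ∅ := by decide
    rw [e0, e1]
    simp [Nat.dist]
  rw [hpairs, SP_pair w h hh hW] at h1
  exact h1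

/-- abstract double counting -/
theorem counting {T1 D B : Type} [Fintype T1] [Fintype D] (Bs : Finset B) (ω : B → ℝ)
    (hω : ∀ b ∈ Bs, 0 ≤ ω b) (bad : B → T1 × D → Prop) [∀ b, DecidablePred (bad b)] (ε2 ε3 : ℝ)
    (h3 : 0 < ε3) (hΩ : 0 < ∑ b ∈ Bs, ω b) (hT1 : 0 < Fintype.card T1)
    (hbad : ∀ b ∈ Bs, ((univ.filter (bad b)).card : ℝ) ≤ ε2 * (Fintype.card (T1 × D) : ℝ))
    (Vi : Finset D)
    (hVi : ∀ d ∈ Vi, ∀ t, ε3 * ∑ b ∈ Bs, ω b ≤ ∑ b ∈ Bs, if bad b (t, d) then ω b else 0) :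
    (Vi.card : ℝ) ≤ (ε2 / ε3) * (Fintype.card D : ℝ) := by
  set Ω := ∑ b ∈ Bs, ω b with hΩdef
  have hT1r : (0:ℝ) < Fintype.card T1 := by exact_mod_cast hT1
  have h1 : (Vi.card : ℝ) * ((Fintype.card T1 : ℝ) * (ε3 * Ω)) ≤
      ∑ d ∈ Vi, ∑ t : T1, ∑ b ∈ Bs, (if bad b (t, d) then ω b else 0) := by
    have := Finset.card_nsmul_le_sum Vi
      (fun d => ∑ t : T1, ∑ b ∈ Bs, (if bad b (t, d) then ω b else 0))
      ((Fintype.card T1 : ℝ) * (ε3 * Ω)) ?_
    · rw [nsmul_eq_mul] at this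
      exact this
    · intro d hd
      have := Finset.card_nsmul_le_sum (Finset.univ : Finset T1)
        (fun t => ∑ b ∈ Bs, (if bad b (t, d) then ω b else 0)) (ε3 * Ω) (fun t _ => hVi d hd t)
      rw [nsmul_eq_mul, Finset.card_univ] at this
      exact this
  have h2 : ∑ d ∈ Vi, ∑ t : T1, ∑ b ∈ Bs, (if bad b (t, d) then ω b else 0) ≤
      ∑ d : D, ∑ t : T1, ∑ b ∈ Bs, (if bad b (t, d) then ω b else 0) := by
    apply Finset.sum_le_sum_of_subset_of_nonneg (Finset.subset_univ _)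
    intro d _ _
    apply Finset.sum_nonneg
    intro t _
    apply Finset.sum_nonneg
    intro b hb
    split_ifs
    · exact hω b hb
    · exact le_rfl
  have h3' : ∑ d : D, ∑ t : T1, ∑ b ∈ Bs, (if bad b (t, d) then ω b else 0) =
      ∑ b ∈ Bs, ω b * ((univ.filter (bad b)).card : ℝ) := by
    rw [Finset.sum_comm]
    have e1 : ∑ t : T1, ∑ d : D, ∑ b ∈ Bs, (if bad b (t, d) then ω b else 0) =
        ∑ q : T1 × D, ∑ b ∈ Bs, (if bad b q then ω b else 0) := by
      rw [Fintype.sum_prod_type]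
    rw [e1, Finset.sum_comm]
    apply Finset.sum_congr rfl
    intro b _
    rw [← Finset.sum_filter, Finset.sum_const, nsmul_eq_mul, mul_comm]
  have h4 : ∑ b ∈ Bs, ω b * ((univ.filter (bad b)).card : ℝ) ≤
      Ω * (ε2 * ((Fintype.card T1 : ℝ) * (Fintype.card D : ℝ))) := by
    rw [hΩdef, Finset.sum_mul]
    apply Finset.sum_le_sum
    intro b hb
    apply mul_le_mul_of_nonneg_left _ (hω b hb)
    have := hbad b hb
    rw [Fintype.card_prod] at this
    push_cast at this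
    exact this
  have h5 := h1.trans (h2.trans (h3'.le.trans h4))
  have h6 : (Vi.card : ℝ) * ε3 ≤ ε2 * (Fintype.card D : ℝ) := by
    have h7 : ((Vi.card : ℝ) * ε3) * ((Fintype.card T1 : ℝ) * Ω) ≤
        (ε2 * (Fintype.card D : ℝ)) * ((Fintype.card T1 : ℝ) * Ω) := by
      calc _ = (Vi.card : ℝ) * ((Fintype.card T1 : ℝ) * (ε3 * Ω)) := by ring
        _ ≤ _ := h5
        _ = _ := by ring
    exact le_of_mul_le_mul_right h7 (by positivity)
  rw [div_mul_eq_mul_div, le_div_iff₀ h3]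
  exact h6

/-- the blocks -/
def NB (Y j : ℕ) : ℕ := Y / 2 ^ (j + 1)

theorem NB_lt {Y j j' : ℕ} (h : j < j') : 2 * NB Y j' ≤ NB Y j := by
  unfold NB
  obtain ⟨k, rfl⟩ : ∃ k, j' = j + 1 + k := ⟨j' - (j + 1), by omega⟩
  have e : 2 ^ (j + 1 + k + 1) = 2 ^ (j + 1) * (2 ^ k * 2) := by ring
  rw [e, ← Nat.div_div_eq_div_mul, ← Nat.div_div_eq_div_mul]
  have h1 := Nat.mul_div_le (Y / 2 ^ (j + 1) / 2 ^ k) 2
  have h2 := Nat.div_le_self (Y / 2 ^ (j + 1)) (2 ^ k)
  omega

theorem NB_le (Y j : ℕ) : 2 * NB Y j ≤ Y := by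
  unfold NB
  have e : 2 ^ (j + 1) = 2 ^ j * 2 := by ring
  rw [e, ← Nat.div_div_eq_div_mul]
  have h1 := Nat.mul_div_le (Y / 2 ^ j) 2
  have h2 := Nat.div_le_self Y (2 ^ j)
  omega

theorem NB_ge (Y j : ℕ) : (Y:ℝ) / 2 ^ (j + 1) - 1 ≤ (NB Y j : ℝ) := by
  unfold NB
  have h1 : Y < 2 ^ (j + 1) * (Y / 2 ^ (j + 1) + 1) := by
    have := Nat.div_add_mod Y (2 ^ (j + 1))
    have h2 := Nat.mod_lt Y (show 0 < 2 ^ (j + 1) by positivity)
    rw [mul_add, mul_one]
    omega
  have h2 : (Y:ℝ) ≤ 2 ^ (j + 1) * (((Y / 2 ^ (j + 1) : ℕ) : ℝ) + 1) := by exact_mod_cast h1.le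
  rw [sub_le_iff_le_add, div_le_iff₀ (by positivity)]
  linarith

theorem sum_NB_ge (Y R : ℕ) : (Y:ℝ) * (1 - (1 / 2) ^ R) - R ≤ ∑ j ∈ Finset.range R, (NB Y j : ℝ) := by
  induction R with
  | zero => simp
  | succ R ih =>
    rw [Finset.sum_range_succ]
    have h := NB_ge Y R
    push_cast
    have e : (Y:ℝ) * (1 - (1 / 2) ^ (R + 1)) = Y * (1 - (1/2) ^ R) + Y / 2 ^ (R + 1) := by
      rw [one_div_pow, one_div_pow]
      field_simp
      ring
    linarith

/-- alive classes -/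
def AC (w : ℕ) : Finset ℕ := (Finset.range (Wp w)).filter (fun a => a.Coprime (Wp w))

theorem AC_card (w : ℕ) : ((AC w).card : ℝ) = cW (Wp w) * Wp w := by
  have h1 : (AC w).card = Nat.totient (Wp w) := by
    unfold AC Nat.totient
    congr 1
    apply Finset.filter_congr
    intro a _
    exact Nat.coprime_comm
  rw [h1]
  unfold cW
  have : (0:ℝ) < Wp w := by exact_mod_cast Wp_pos w
  field_simp

/-- total weight -/
theorem weight_ge (w Y R : ℕ) : cW (Wp w) * ((Y:ℝ) * (1 - (1 / 2) ^ R) - R - R * Wp w) ≤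
    ∑ b ∈ (Finset.range R) ×ˢ (AC w), ((XS (NB Y b.1) w b.2).card : ℝ) := by
  rw [Finset.sum_product]
  have hW : (0:ℝ) < Wp w := by exact_mod_cast Wp_pos w
  have h1 : ∀ j ∈ Finset.range R, cW (Wp w) * ((NB Y j : ℝ) - Wp w) ≤
      ∑ a ∈ AC w, ((XS (NB Y j) w a).card : ℝ) := by
    intro j _
    have := Finset.card_nsmul_le_sum (AC w) (fun a => ((XS (NB Y j) w a).card : ℝ))
      ((NB Y j : ℝ) / Wp w - 1) (fun a _ => by
        have := (abs_le.mp (card_XS w (NB Y j) a)).1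
        linarith)
    rw [nsmul_eq_mul, AC_card] at this
    refine le_trans (le_of_eq ?_) this
    field_simp
  refine le_trans ?_ (Finset.sum_le_sum h1)
  rw [← Finset.mul_sum, Finset.sum_sub_distrib, Finset.sum_const, Finset.card_range, nsmul_eq_mul]
  apply mul_le_mul_of_nonneg_left _ (cW_pos w).le
  have := sum_NB_ge Y R
  linarith

/-- the classes and blocks are disjoint -/
theorem sum_le_tuple (w Y R H' : ℕ) (x : ℝ) (hY : Y + H' ≤ ⌊x⌋₊) (u v : ℕ) (huv : u < v)
    (hv : v ≤ H') :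
    ∑ b ∈ (Finset.range R) ×ˢ (AC w),
      (((XS (NB Y b.1) w b.2).filter (fun n => (n + u).Prime ∧ (n + v).Prime)).card : ℝ) ≤
      (tupleCount x {0, v - u} : ℝ) := by
  classical
  have h1 := count_le_tupleCount {u, v} H' Y x ⟨u, Finset.mem_insert_self _ _⟩ (by
    intro e he
    rw [Finset.mem_insert, Finset.mem_singleton] at he
    rcases he with rfl | rfl
    · omega
    · exact hv) hY
  rw [translate0_pair huv] at h1
  have hdisj : Set.PairwiseDisjoint (((Finset.range R) ×ˢ (AC w) : Finset (ℕ × ℕ)) : Set (ℕ × ℕ))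
      (fun b => (XS (NB Y b.1) w b.2).filter (fun n => (n + u).Prime ∧ (n + v).Prime)) := by
    rintro ⟨j, a⟩ hb ⟨j', a'⟩ hb' hne
    rw [Finset.mem_coe, Finset.mem_product] at hb hb'
    change Disjoint _ _
    rw [Finset.disjoint_left]
    intro n hn hn'
    simp only at hn hn'
    rw [Finset.mem_filter] at hn hn'
    have g1 := hn.1
    have g2 := hn'.1
    unfold XS at g1 g2
    rw [Finset.mem_filter, Finset.mem_Ioc] at g1 g2
    have ha : a < Wp w := Finset.mem_range.mp (Finset.mem_filter.mp hb.2).1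
    have ha' : a' < Wp w := Finset.mem_range.mp (Finset.mem_filter.mp hb'.2).1
    have haa : a = a' := by
      have h3 : a ≡ a' [MOD Wp w] := g1.2.symm.trans g2.2
      unfold Nat.ModEq at h3
      rw [Nat.mod_eq_of_lt ha, Nat.mod_eq_of_lt ha'] at h3
      exact h3
    apply hne
    rw [haa]
    rcases lt_trichotomy j j' with h | h | h
    · have := NB_lt (Y := Y) h
      omega
    · rw [h]
    · have := NB_lt (Y := Y) h
      omega
  have h2 : (((Finset.range R) ×ˢ (AC w)).biUnion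
      (fun b => (XS (NB Y b.1) w b.2).filter (fun n => (n + u).Prime ∧ (n + v).Prime))) ⊆
      (Finset.Icc 1 Y).filter (fun n => ∀ e ∈ ({u, v} : Finset ℕ), Nat.Prime (n + e)) := by
    intro n hn
    rw [Finset.mem_biUnion] at hn
    obtain ⟨b, _, hn⟩ := hn
    rw [Finset.mem_filter] at hn
    have g1 := hn.1
    unfold XS at g1
    rw [Finset.mem_filter, Finset.mem_Ioc] at g1
    have := NB_le Y b.1
    rw [Finset.mem_filter, Finset.mem_Icc]
    refine ⟨⟨by omega, by omega⟩, ?_⟩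
    intro e he
    rw [Finset.mem_insert, Finset.mem_singleton] at he
    rcases he with rfl | rfl
    · exact hn.2.1
    · exact hn.2.2
  have h3 := Finset.card_le_card h2
  rw [Finset.card_biUnion hdisj] at h3
  exact_mod_cast h3.trans h1

/-- the affine families -/
def ee (w K H : ℕ) (t : Fin (2 * K * H) × Fin H) (i : Fin K) : ℕ :=
  Wp w * ((t.1 : ℕ) + (i : ℕ) * ((t.2 : ℕ) + 1))

theorem ee_le (w K H : ℕ) (t : Fin (2 * K * H) × Fin H) (i : Fin K) :
    ee w K H t i ≤ 3 * Wp w * K * H := by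
  unfold ee
  have h1 : (t.1 : ℕ) ≤ 2 * K * H := t.1.2.le
  have h2 : (i : ℕ) * ((t.2 : ℕ) + 1) ≤ K * H := Nat.mul_le_mul i.2.le t.2.2
  calc Wp w * ((t.1 : ℕ) + (i : ℕ) * ((t.2 : ℕ) + 1)) ≤ Wp w * (2 * K * H + K * H) :=
        Nat.mul_le_mul_left _ (Nat.add_le_add h1 h2)
    _ = 3 * Wp w * K * H := by ring

theorem ee_mem (w K H : ℕ) (t : Fin (2 * K * H) × Fin H) (i : Fin K) :
    ee w K H t i ∈ VS w (3 * Wp w * K * H) {0} := by
  unfold VS
  rw [Finset.mem_filter, Finset.mem_range, Finset.mem_singleton]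
  refine ⟨Nat.lt_succ_of_le (ee_le w K H t i), ?_⟩
  unfold ee
  exact Nat.mul_mod_right _ _

theorem ee_inj (w K H : ℕ) (t : Fin (2 * K * H) × Fin H) : Function.Injective (ee w K H t) := by
  intro i j hij
  unfold ee at hij
  have h1 := Nat.eq_of_mul_eq_mul_left (Wp_pos w) hij
  have h2 : (i : ℕ) * ((t.2 : ℕ) + 1) = (j : ℕ) * ((t.2 : ℕ) + 1) := Nat.add_left_cancel h1
  exact Fin.ext (Nat.eq_of_mul_eq_mul_right (Nat.succ_pos _) h2)

theorem VS_card_le (w K H : ℕ) (hK : 1 ≤ K) (hH : 1 ≤ H) :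
    (VS w (3 * Wp w * K * H) {0}).card ≤ 4 * K * H := by
  have hsub : VS w (3 * Wp w * K * H) {0} ⊆
      (Finset.range (3 * K * H + 1)).image (fun k => Wp w * k) := by
    intro d hd
    unfold VS at hd
    rw [Finset.mem_filter, Finset.mem_range, Finset.mem_singleton] at hd
    obtain ⟨k, rfl⟩ := Nat.dvd_of_mod_eq_zero hd.2
    rw [Finset.mem_image]
    refine ⟨k, ?_, rfl⟩
    rw [Finset.mem_range]
    have h1 : Wp w * k ≤ Wp w * (3 * K * H) := by
      have : Wp w * (3 * K * H) = 3 * Wp w * K * H := by ring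
      omega
    exact Nat.lt_succ_of_le (Nat.le_of_mul_le_mul_left h1 (Wp_pos w))
  have h := (Finset.card_le_card hsub).trans Finset.card_image_le
  rw [Finset.card_range] at h
  have h2 : 1 ≤ K * H := Nat.one_le_iff_ne_zero.mpr (Nat.mul_ne_zero (by omega) (by omega))
  calc _ ≤ 3 * K * H + 1 := h
    _ ≤ 3 * K * H + K * H := by omega
    _ = 4 * K * H := by ring

theorem VS_card_pos (w K H : ℕ) : 0 < (VS w (3 * Wp w * K * H) {0}).card := by
  rw [Finset.card_pos]
  refine ⟨0, ?_⟩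
  unfold VS
  rw [Finset.mem_filter, Finset.mem_range, Finset.mem_singleton]
  exact ⟨by omega, Nat.zero_mod _⟩

theorem one_point (w K H : ℕ) (hK : 1 ≤ K) (hH : 1 ≤ H) (i : Fin K) (v : ℕ) :
    ((univ.filter (fun t : Fin (2 * K * H) × Fin H => ee w K H t i = v)).card : ℝ) ≤
      2 * (Fintype.card (Fin (2 * K * H) × Fin H) : ℝ) /
        ((VS w (3 * Wp w * K * H) {0}).card : ℝ) := by
  have h1 : (univ.filter (fun t : Fin (2 * K * H) × Fin H => ee w K H t i = v)).card ≤ H := by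
    have := Finset.card_le_card_of_injOn (s := univ.filter
      (fun t : Fin (2 * K * H) × Fin H => ee w K H t i = v)) (t := (univ : Finset (Fin H)))
      (fun t => t.2) (fun t _ => Finset.mem_coe.mpr (Finset.mem_univ _)) (by
        rintro ⟨t, d⟩ ht ⟨t', d'⟩ ht' hdd
        rw [Finset.mem_coe, Finset.mem_filter] at ht ht'
        simp only at hdd
        subst hdd
        have h2 := ht.2.trans ht'.2.symm
        unfold ee at h2
        have h3 := Nat.eq_of_mul_eq_mul_left (Wp_pos w) h2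
        have h4 : (t : ℕ) = t' := Nat.add_right_cancel h3
        rw [Fin.ext h4])
    simpa using this
  have hV := VS_card_le w K H hK hH
  have hVp := VS_card_pos w K H
  have hVr : (0:ℝ) < ((VS w (3 * Wp w * K * H) {0}).card : ℝ) := by exact_mod_cast hVp
  rw [le_div_iff₀ hVr]
  rw [Fintype.card_prod, Fintype.card_fin, Fintype.card_fin]
  have h1r : ((univ.filter (fun t : Fin (2 * K * H) × Fin H => ee w K H t i = v)).card : ℝ) ≤ H := by
    exact_mod_cast h1
  have hV' : ((VS w (3 * Wp w * K * H) {0}).card : ℝ) ≤ 4 * K * H := by exact_mod_cast hV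
  push_cast
  calc _ ≤ (H:ℝ) * (4 * K * H) := mul_le_mul h1r hV' hVr.le (Nat.cast_nonneg _)
    _ = 2 * (2 * K * H * H) := by ring

theorem two_point (w K H : ℕ) (hK : 1 ≤ K) (hH : 1 ≤ H) (I : Fin (1 + 1) ↪ Fin K)
    (v : Fin (1 + 1) → ℕ) :
    ((univ.filter (fun t : Fin (2 * K * H) × Fin H => ∀ i, ee w K H t (I i) = v i)).card : ℝ) ≤
      (16 * (K:ℝ)) * (Fintype.card (Fin (2 * K * H) × Fin H) : ℝ) /
        ((VS w (3 * Wp w * K * H) {0}).card : ℝ) ^ (1 + 1) := by
  have hone : (univ.filter (fun t : Fin (2 * K * H) × Fin H =>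
      ∀ i, ee w K H t (I i) = v i)).card ≤ 1 := by
    rw [Finset.card_le_one]
    rintro ⟨t, d⟩ h1 ⟨t', d'⟩ h2
    rw [Finset.mem_filter] at h1 h2
    have a0 := (h1.2 0).trans (h2.2 0).symm
    have a1 := (h1.2 1).trans (h2.2 1).symm
    unfold ee at a0 a1
    have b0 := Nat.eq_of_mul_eq_mul_left (Wp_pos w) a0
    have b1 := Nat.eq_of_mul_eq_mul_left (Wp_pos w) a1
    simp only at b0 b1
    have hne : ((I 0 : Fin K) : ℕ) ≠ ((I 1 : Fin K) : ℕ) := by
      intro h
      have := I.injective (Fin.ext h)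
      exact absurd this (by decide)
    have b0' : ((t:ℕ):ℤ) + ((I 0 : Fin K) : ℕ) * (((d:ℕ):ℤ) + 1) =
        ((t':ℕ):ℤ) + ((I 0 : Fin K) : ℕ) * (((d':ℕ):ℤ) + 1) := by exact_mod_cast b0
    have b1' : ((t:ℕ):ℤ) + ((I 1 : Fin K) : ℕ) * (((d:ℕ):ℤ) + 1) =
        ((t':ℕ):ℤ) + ((I 1 : Fin K) : ℕ) * (((d':ℕ):ℤ) + 1) := by exact_mod_cast b1
    have hd : ((d:ℕ):ℤ) = ((d':ℕ):ℤ) := by
      have h3 : ((((I 0 : Fin K) : ℕ) : ℤ) - (((I 1 : Fin K) : ℕ) : ℤ)) *
          (((d:ℕ):ℤ) - ((d':ℕ):ℤ)) = 0 := by linear_combination b0' - b1'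
      rcases mul_eq_zero.mp h3 with h | h
      · exact absurd (by omega) hne
      · omega
    have hdd : d = d' := Fin.ext (by exact_mod_cast hd)
    subst hdd
    have htt : t = t' := Fin.ext (Nat.add_right_cancel b0)
    rw [htt]
  have hV := VS_card_le w K H hK hH
  have hVp := VS_card_pos w K H
  have hVr : (0:ℝ) < ((VS w (3 * Wp w * K * H) {0}).card : ℝ) := by exact_mod_cast hVp
  have hV' : ((VS w (3 * Wp w * K * H) {0}).card : ℝ) ≤ 4 * K * H := by exact_mod_cast hV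
  have h1r : ((univ.filter (fun t : Fin (2 * K * H) × Fin H =>
      ∀ i, ee w K H t (I i) = v i)).card : ℝ) ≤ 1 := by exact_mod_cast hone
  rw [le_div_iff₀ (by positivity)]
  rw [Fintype.card_prod, Fintype.card_fin, Fintype.card_fin]
  push_cast
  have h2 : ((VS w (3 * Wp w * K * H) {0}).card : ℝ) ^ (1 + 1) ≤ (4 * K * H) ^ (1 + 1) :=
    pow_le_pow_left₀ hVr.le hV' _
  calc _ ≤ 1 * (4 * (K:ℝ) * H) ^ (1 + 1) := mul_le_mul h1r h2 (by positivity) zero_le_one
    _ = 16 * ((K:ℝ) ^ 2 * H ^ 2) := by ring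
    _ ≤ 32 * ((K:ℝ) ^ 2 * H ^ 2) := by
        apply mul_le_mul_of_nonneg_right (by norm_num) (by positivity)
    _ = _ := by ring

/-- the bound for one pair -/
theorem pair_bound (ε : ℝ) (hε : 0 < ε) (hε1 : ε < 1) (w K R Y D t H' : ℕ) (x : ℝ) (hw : 2 ≤ w)
    (hKw : K ≤ w) (hx : 0 < x) (hlx : 0 < Real.log x)
    (hY : Y + H' ≤ ⌊x⌋₊) (hD : 1 ≤ D) (hpp : pp w D ^ 2 ≤ 1 + ε / 4)
    (hV2 : ∀ j : ℕ, 1 ≤ j → j ≤ Wp w * K → 2 ∣ j * D →
      (tupleCount x {0, j * D} : ℝ) <
        (1 - ε) * (singularSeries {0, j * D} * (x / (Real.log x) ^ 2)))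
    (i0 i1 : ℕ) (hi : i0 < i1) (hi1 : i1 < K) (hH' : Wp w * (t + i1 * D) ≤ H') :
    ∑ b ∈ (Finset.range R) ×ˢ (AC w),
      (((XS (NB Y b.1) w b.2).filter (fun n => (n + Wp w * (t + i0 * D)).Prime ∧
        (n + Wp w * (t + i1 * D)).Prime)).card : ℝ) ≤
      (1 - ε) * (1 + ε / 4) * (1 / cW (Wp w) * (x / (Real.log x) ^ 2)) := by
  have hWp := Wp_pos w
  have hlt : Wp w * (t + i0 * D) < Wp w * (t + i1 * D) := by
    apply Nat.mul_lt_mul_of_pos_left _ hWp
    have : i0 * D < i1 * D := Nat.mul_lt_mul_of_pos_right hi (by omega)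
    omega
  have h1 := sum_le_tuple w Y R H' x hY _ _ hlt hH'
  have hdiff : Wp w * (t + i1 * D) - Wp w * (t + i0 * D) = (Wp w * (i1 - i0)) * D := by
    rw [← Nat.mul_sub, Nat.add_sub_add_left, ← Nat.sub_mul, Nat.mul_assoc]
  rw [hdiff] at h1
  set j := Wp w * (i1 - i0) with hj
  have hj1 : 1 ≤ j := Nat.one_le_iff_ne_zero.mpr (Nat.mul_ne_zero hWp.ne' (by omega))
  have hjK : j ≤ Wp w * K := Nat.mul_le_mul_left _ (by omega)
  have h2W : 2 ∣ Wp w := prime_dvd_Wp Nat.prime_two hw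
  have hWj : Wp w ∣ j := Dvd.intro _ rfl
  have h2 := hV2 j hj1 hjK ((h2W.trans hWj).trans (Dvd.intro _ rfl))
  have h3 := sing_pair w (j * D) (by omega) (Nat.mul_pos (by omega) (by omega))
    (hWj.trans (Dvd.intro _ rfl))
  have h4 : pp w (j * D) = pp w D := by
    apply pp_mul_small w j D _ (by omega) (by omega)
    intro p hp hpj
    rcases (Nat.Prime.dvd_mul hp).mp hpj with h | h
    · exact le_of_dvd_Wp hp h
    · have := Nat.le_of_dvd (by omega) h
      omega
  rw [h4] at h3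
  have hcW := cW_pos w
  have hxl : 0 ≤ x / (Real.log x) ^ 2 := by positivity
  calc _ ≤ (tupleCount x {0, j * D} : ℝ) := h1
    _ ≤ _ := h2.le
    _ ≤ (1 - ε) * ((1 / cW (Wp w) * (1 + ε / 4)) * (x / (Real.log x) ^ 2)) := by
        apply mul_le_mul_of_nonneg_left _ (by linarith)
        apply mul_le_mul_of_nonneg_right _ hxl
        exact h3.trans (mul_le_mul_of_nonneg_left hpp (by positivity))
    _ = _ := by ring

/-- the main counting step -/
theorem main_count (ε : ℝ) (hε : 0 < ε) (hε1 : ε < 1) (w K R H Y : ℕ) (x : ℝ) (hw : 2 ≤ w)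
    (hK : 2 ≤ K) (hKw : K ≤ w) (hH : 1 ≤ H) (hx : 0 < x) (hlx : 0 < Real.log x)
    (hY : Y + 3 * Wp w * K * H ≤ ⌊x⌋₊)
    (hlog : ∀ j < R, 0 < Real.log (NB Y j) ∧ Real.log (NB Y j) ≤ Real.log x)
    (hΩ : (1 - ε / 8) * (cW (Wp w) * x) ≤
      ∑ b ∈ (Finset.range R) ×ˢ (AC w), ((XS (NB Y b.1) w b.2).card : ℝ))
    (hcl : ∀ j < R, ∀ a ∈ AC w,
      ((univ.filter (fun t : Fin (2 * K * H) × Fin H => ∑ I : Fin (1 + 1) ↪ Fin K,
        (((XS (NB Y j) w a).filter (fun n => ∀ i, (n + ee w K H t (I i)).Prime)).card : ℝ) <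
          (1 - ε ^ 2 / 32) * (Fintype.card (Fin (1 + 1) ↪ Fin K) : ℝ) *
            ((XS (NB Y j) w a).card : ℝ) /
            (cW (Wp w) * Real.log (NB Y j)) ^ (1 + 1))).card : ℝ) ≤
        ε ^ 2 / 32 * (Fintype.card (Fin (2 * K * H) × Fin H) : ℝ))
    (hrow : ∑ d' ∈ Finset.range (H + 1), (if d' = 0 then 0 else pp w (Nat.dist 0 d') ^ 2 - 1) ≤
      ε ^ 2 / 64 * (((H + 1 : ℕ)) : ℝ))
    (Viol : Finset ℕ) (hV1 : ∀ d ∈ Viol, 1 ≤ d ∧ d ≤ H)
    (hV2 : ∀ d ∈ Viol, ∀ j : ℕ, 1 ≤ j → j ≤ Wp w * K → 2 ∣ j * d →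
      (tupleCount x {0, j * d} : ℝ) <
        (1 - ε) * (singularSeries {0, j * d} * (x / (Real.log x) ^ 2))) :
    (Viol.card : ℝ) ≤ ε * H := by
  classical
  have hcW := cW_pos w
  have hWp := Wp_pos w
  -- exceptional
  set Ex : Finset ℕ := Viol.filter (fun d => ¬ pp w d ^ 2 ≤ 1 + ε / 4) with hEx
  have hExcard : (Ex.card : ℝ) ≤ ε / 4 * H := by
    have h1 : (Ex.card : ℝ) * (ε / 4) ≤ ∑ d' ∈ Ex,
        (if d' = 0 then (0:ℝ) else pp w (Nat.dist 0 d') ^ 2 - 1) := by
      have := Finset.card_nsmul_le_sum Ex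
        (fun d' => if d' = 0 then (0:ℝ) else pp w (Nat.dist 0 d') ^ 2 - 1) (ε / 4) ?_
      · rw [nsmul_eq_mul] at this
        exact this
      · intro d hd
        rw [hEx, Finset.mem_filter] at hd
        have hd1 := (hV1 d hd.1).1
        rw [if_neg (by omega)]
        have hdist : Nat.dist 0 d = d := by simp [Nat.dist]
        rw [hdist]
        have := hd.2
        push Not at this
        linarith
    have h2 : ∑ d' ∈ Ex, (if d' = 0 then (0:ℝ) else pp w (Nat.dist 0 d') ^ 2 - 1) ≤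
        ∑ d' ∈ Finset.range (H + 1),
          (if d' = 0 then (0:ℝ) else pp w (Nat.dist 0 d') ^ 2 - 1) := by
      apply Finset.sum_le_sum_of_subset_of_nonneg
      · intro d hd
        rw [hEx, Finset.mem_filter] at hd
        rw [Finset.mem_range]
        have := (hV1 d hd.1).2
        omega
      · intro d _ _
        split_ifs
        · exact le_rfl
        · have := one_le_pp w (Nat.dist 0 d)
          nlinarith
    have h3 : ε ^ 2 / 64 * (((H + 1 : ℕ)) : ℝ) ≤ ε ^ 2 / 32 * H := by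
      have : (1:ℝ) ≤ H := by exact_mod_cast hH
      push_cast
      nlinarith [sq_nonneg ε]
    have h4 : (Ex.card : ℝ) * (ε / 4) ≤ ε ^ 2 / 32 * H := h1.trans (h2.trans (hrow.trans h3))
    have h5 : (Ex.card : ℝ) * (ε / 4) ≤ (ε / 8 * H) * (ε / 4) := by
      calc _ ≤ _ := h4
        _ = _ := by ring
    have h6 := le_of_mul_le_mul_right h5 (by positivity)
    have : (0:ℝ) ≤ ε * H := by positivity
    linarith
  set Vi : Finset (Fin H) := univ.filter
    (fun d => ((d : ℕ) + 1) ∈ Viol ∧ pp w ((d : ℕ) + 1) ^ 2 ≤ 1 + ε / 4) with hVi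
  have hsplit : (Viol.card : ℝ) ≤ Vi.card + Ex.card := by
    have hsub : Viol ⊆ Vi.image (fun d : Fin H => (d : ℕ) + 1) ∪ Ex := by
      intro d hd
      rw [Finset.mem_union]
      by_cases h : pp w d ^ 2 ≤ 1 + ε / 4
      · left
        have hd1 := hV1 d hd
        rw [Finset.mem_image]
        refine ⟨⟨d - 1, by omega⟩, ?_, ?_⟩
        · rw [hVi, Finset.mem_filter]
          have e : d - 1 + 1 = d := by omega
          refine ⟨Finset.mem_univ _, ?_⟩
          simp only [e]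
          exact ⟨hd, h⟩
        · simp only
          omega
      · right
        rw [hEx, Finset.mem_filter]
        exact ⟨hd, h⟩
    have h1 := (Finset.card_le_card hsub).trans (Finset.card_union_le _ _)
    have h2 : (Vi.image (fun d : Fin H => (d : ℕ) + 1)).card ≤ Vi.card := Finset.card_image_le
    have h3 : Viol.card ≤ Vi.card + Ex.card := by omega
    exact_mod_cast h3
  -- the weights
  set Bs := (Finset.range R) ×ˢ (AC w) with hBs
  set ω : ℕ × ℕ → ℝ := fun b => ((XS (NB Y b.1) w b.2).card : ℝ) with hω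
  set P : ℝ := (Fintype.card (Fin (1 + 1) ↪ Fin K) : ℝ) with hP
  have hPpos : 0 < P := by
    have : 0 < Fintype.card (Fin (1 + 1) ↪ Fin K) :=
      Fintype.card_pos_iff.2 ⟨Fin.castLEEmb (by omega)⟩
    rw [hP]; exact_mod_cast this
  set cnt : ℕ × ℕ → (Fin (1 + 1) ↪ Fin K) → Fin (2 * K * H) × Fin H → ℝ := fun b I t =>
    (((XS (NB Y b.1) w b.2).filter (fun n => ∀ i, (n + ee w K H t (I i)).Prime)).card : ℝ)
    with hcnt
  set bad : ℕ × ℕ → Fin (2 * K * H) × Fin H → Prop := fun b t =>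
    ∑ I : Fin (1 + 1) ↪ Fin K, cnt b I t <
      (1 - ε ^ 2 / 32) * P * ω b / (cW (Wp w) * Real.log (NB Y b.1)) ^ (1 + 1) with hbad
  set Ω := ∑ b ∈ Bs, ω b with hΩdef
  have hω0 : ∀ b ∈ Bs, 0 ≤ ω b := fun b _ => Nat.cast_nonneg _
  have hΩpos : 0 < Ω := by
    refine lt_of_lt_of_le ?_ hΩ
    have : 0 < 1 - ε / 8 := by linarith
    positivity
  have hmain : (Vi.card : ℝ) ≤ (ε ^ 2 / 32) / (ε / 8) * (Fintype.card (Fin H) : ℝ) := by
    refine counting Bs ω hω0 bad (ε ^ 2 / 32) (ε / 8) (by positivity) hΩpos ?_ ?_ Vi ?_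
    · rw [Fintype.card_fin]
      have : 0 < K * H := Nat.mul_pos (by omega) (by omega)
      calc 0 < 2 * (K * H) := by omega
        _ = 2 * K * H := by ring
    · rintro ⟨j, a⟩ hb
      rw [hBs, Finset.mem_product] at hb
      have := hcl j (Finset.mem_range.mp hb.1) a hb.2
      refine le_trans (le_of_eq ?_) this
      congr 2
    · intro d hd t
      rw [hVi, Finset.mem_filter] at hd
      obtain ⟨-, hdV, hdp⟩ := hd
      by_contra hcon
      push Not at hcon
      -- upper bound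
      have hup : ∑ b ∈ Bs, ∑ I : Fin (1 + 1) ↪ Fin K, cnt b I (t, d) ≤
          P * ((1 - ε) * (1 + ε / 4) * (1 / cW (Wp w) * (x / (Real.log x) ^ 2))) := by
        rw [Finset.sum_comm]
        have hI : ∀ I ∈ (Finset.univ : Finset (Fin (1 + 1) ↪ Fin K)),
            ∑ b ∈ Bs, cnt b I (t, d) ≤
              (1 - ε) * (1 + ε / 4) * (1 / cW (Wp w) * (x / (Real.log x) ^ 2)) := by
          intro I _
          have hne : ((I 0 : Fin K) : ℕ) ≠ ((I 1 : Fin K) : ℕ) := by
            intro h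
            have := I.injective (Fin.ext h)
            exact absurd this (by decide)
          rcases lt_or_gt_of_ne hne with h | h
          · have := pair_bound ε hε hε1 w K R Y ((d : ℕ) + 1) t (3 * Wp w * K * H) x hw hKw hx hlx
              hY (by omega) hdp (hV2 _ hdV) _ _ h (I 1).2 (ee_le w K H (t, d) (I 1))
            refine le_trans (Finset.sum_le_sum ?_) this
            intro b _
            rw [hcnt]
            dsimp only
            refine Nat.cast_le.mpr (Finset.card_le_card ?_)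
            intro n hn
            rw [Finset.mem_filter] at hn ⊢
            exact ⟨hn.1, hn.2 0, hn.2 1⟩
          · have := pair_bound ε hε hε1 w K R Y ((d : ℕ) + 1) t (3 * Wp w * K * H) x hw hKw hx hlx
              hY (by omega) hdp (hV2 _ hdV) _ _ h (I 0).2 (ee_le w K H (t, d) (I 0))
            refine le_trans (Finset.sum_le_sum ?_) this
            intro b _
            rw [hcnt]
            dsimp only
            refine Nat.cast_le.mpr (Finset.card_le_card ?_)
            intro n hn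
            rw [Finset.mem_filter] at hn ⊢
            exact ⟨hn.1, hn.2 1, hn.2 0⟩
        have := Finset.sum_le_sum hI
        rw [Finset.sum_const, nsmul_eq_mul, Finset.card_univ] at this
        exact this
      -- lower bound
      have hlow : (1 - ε ^ 2 / 32) * P / (cW (Wp w) * Real.log x) ^ 2 *
          ((1 - ε / 8) * Ω) ≤ ∑ b ∈ Bs, ∑ I : Fin (1 + 1) ↪ Fin K, cnt b I (t, d) := by
        have hgood : (1 - ε / 8) * Ω ≤ ∑ b ∈ Bs, if bad b (t, d) then 0 else ω b := by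
          have e1 : Ω = (∑ b ∈ Bs, if bad b (t, d) then ω b else 0) +
              ∑ b ∈ Bs, if bad b (t, d) then 0 else ω b := by
            rw [hΩdef, ← Finset.sum_add_distrib]
            apply Finset.sum_congr rfl
            intro b _
            split_ifs <;> ring
          linarith
        have hε2 : ε ^ 2 / 32 ≤ 1 := by nlinarith
        have hcoef : 0 ≤ (1 - ε ^ 2 / 32) * P / (cW (Wp w) * Real.log x) ^ 2 := by
          apply div_nonneg _ (by positivity)
          exact mul_nonneg (by linarith) hPpos.le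
        refine (mul_le_mul_of_nonneg_left hgood hcoef).trans ?_
        rw [Finset.mul_sum]
        apply Finset.sum_le_sum
        rintro ⟨j, a⟩ hb
        rw [hBs, Finset.mem_product] at hb
        have hl := hlog j (Finset.mem_range.mp hb.1)
        split_ifs with hB
        · rw [mul_zero]
          apply Finset.sum_nonneg
          intro I _
          exact Nat.cast_nonneg _
        · rw [hbad] at hB
          dsimp only at hB
          push Not at hB
          refine le_trans ?_ hB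
          have hω0' : 0 ≤ ω (j, a) := Nat.cast_nonneg _
          rw [div_mul_eq_mul_div]
          apply div_le_div_of_nonneg_left
          · exact mul_nonneg (mul_nonneg (by linarith) hPpos.le) hω0'
          · have := hl.1
            positivity
          · have h7 : cW (Wp w) * Real.log (NB Y j) ≤ cW (Wp w) * Real.log x :=
              mul_le_mul_of_nonneg_left hl.2 hcW.le
            exact pow_le_pow_left₀ (mul_nonneg hcW.le hl.1.le) h7 2
      -- contradiction
      have h8 : (1 - ε ^ 2 / 32) * P / (cW (Wp w) * Real.log x) ^ 2 *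
          ((1 - ε / 8) * ((1 - ε / 8) * (cW (Wp w) * x))) ≤
          P * ((1 - ε) * (1 + ε / 4) * (1 / cW (Wp w) * (x / (Real.log x) ^ 2))) := by
        refine le_trans ?_ (hlow.trans hup)
        have hε2 : ε ^ 2 / 32 ≤ 1 := by nlinarith
        apply mul_le_mul_of_nonneg_left
        · exact mul_le_mul_of_nonneg_left hΩ (by linarith)
        · apply div_nonneg _ (by positivity)
          exact mul_nonneg (by linarith) hPpos.le
      set Q : ℝ := P * (1 / cW (Wp w) * (x / (Real.log x) ^ 2)) with hQ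
      have hQpos : 0 < Q := by positivity
      have e1 : (1 - ε ^ 2 / 32) * P / (cW (Wp w) * Real.log x) ^ 2 *
          ((1 - ε / 8) * ((1 - ε / 8) * (cW (Wp w) * x))) =
          ((1 - ε ^ 2 / 32) * (1 - ε / 8) ^ 2) * Q := by
        rw [hQ]
        field_simp
      have e2 : P * ((1 - ε) * (1 + ε / 4) * (1 / cW (Wp w) * (x / (Real.log x) ^ 2))) =
          ((1 - ε) * (1 + ε / 4)) * Q := by
        rw [hQ]; ring
      rw [e1, e2] at h8
      have h9 := le_of_mul_le_mul_right h8 hQpos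
      nlinarith [mul_pos hε hε, mul_pos (mul_pos hε hε) hε, mul_nonneg (mul_pos hε hε).le (sub_pos.mpr hε1).le]
  rw [Fintype.card_fin] at hmain
  have e : (ε ^ 2 / 32) / (ε / 8) = ε / 4 := by
    field_simp
    ring
  rw [e] at hmain
  have : (0:ℝ) ≤ ε * H := by positivity
  linarith

end F4

open F4

open Classical in
/-- E8: almost every difference has a bounded multiple for which the lower half of the
Hardy-Littlewood asymptotic holds with the sharp constant. -/
theorem bounded_multiples (ε : ℝ) (hε : 0 < ε) : ∃ J : ℕ, ∃ K0 : ℝ, ∀ A : ℕ, ∃ X : ℝ,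
    ∀ x : ℝ, X ≤ x → ∀ H : ℕ, K0 * Real.log x ≤ H → (H:ℝ) ≤ (Real.log x) ^ A →
    (((Finset.Icc 1 H).filter (fun d => ∀ j : ℕ, 1 ≤ j → j ≤ J → 2 ∣ j * d →
        (tupleCount x {0, j * d} : ℝ) <
          (1 - ε) * (singularSeries {0, j * d} * (x / (Real.log x) ^ 2)))).card : ℝ) ≤
      ε * (H:ℝ) := by
  rcases le_or_gt 1 ε with hε1 | hε1
  · refine ⟨0, 0, fun A => ⟨0, fun x _ H _ _ => ?_⟩⟩
    have h1 := Finset.card_le_card (Finset.filter_subset (fun d => ∀ j : ℕ, 1 ≤ j → j ≤ 0 →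
      2 ∣ j * d → (tupleCount x {0, j * d} : ℝ) <
          (1 - ε) * (singularSeries {0, j * d} * (x / (Real.log x) ^ 2))) (Finset.Icc 1 H))
    rw [Nat.card_Icc] at h1
    have h2 : (((Finset.Icc 1 H).filter (fun d => ∀ j : ℕ, 1 ≤ j → j ≤ 0 → 2 ∣ j * d →
        (tupleCount x {0, j * d} : ℝ) <
          (1 - ε) * (singularSeries {0, j * d} * (x / (Real.log x) ^ 2)))).card : ℝ) ≤ H := by
      have : H + 1 - 1 = H := by omega
      rw [this] at h1
      exact_mod_cast h1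
    refine h2.trans ?_
    have : (0:ℝ) ≤ H := Nat.cast_nonneg _
    nlinarith
  have hε2 : 0 < ε ^ 2 / 32 := by positivity
  have hε2' : ε ^ 2 / 32 ≤ 1 := by nlinarith
  obtain ⟨K, hK2, hKD⟩ := class_average 1 le_rfl (ε ^ 2 / 32) hε2 hε2'
  have hKr : (2:ℝ) ≤ K := by exact_mod_cast hK2
  obtain ⟨w1, hw1⟩ := hKD (16 * (K:ℝ)) (by linarith)
  obtain ⟨w2, hw2⟩ := row_moment 2 (ε ^ 2 / 64) (by positivity)
  obtain ⟨R, hR⟩ := exists_pow_lt_of_lt_one (show (0:ℝ) < ε / 32 by positivity)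
    (show (1 / 2 : ℝ) < 1 by norm_num)
  set w := max (max w1 w2) (max K 2) with hw
  have hwK : K ≤ w := (le_max_left _ _).trans (le_max_right _ _)
  have hw22 : 2 ≤ w := (le_max_right _ _).trans (le_max_right _ _)
  obtain ⟨K0, hK0⟩ := hw1 w ((le_max_left _ _).trans (le_max_left _ _))
  obtain ⟨H0, hH0⟩ := hw2 w ((le_max_right _ _).trans (le_max_left _ _))
  have hWp := Wp_pos w
  have hWr : (1:ℝ) ≤ (Wp w : ℝ) := by exact_mod_cast hWp
  refine ⟨Wp w * K, max K0 1, ?_⟩
  intro A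
  obtain ⟨N0, hN0⟩ := eventually_atTop.mp (hK0 (A + 1))
  set C : ℝ := 3 * (Wp w : ℝ) * K with hC
  have hCpos : 1 ≤ C := by rw [hC]; nlinarith
  set δ : ℝ := ε / 64 with hδ
  have hδpos : 0 < δ := by positivity
  have ev1 : ∀ᶠ x : ℝ in atTop, (((2:ℝ) ^ (R + 2) * N0 ≤ x ∧ ((2:ℝ) ^ (R + 2)) ^ 2 ≤ x) ∧ 36 ≤ x) ∧
      64 * (1 + (R:ℝ) + R * Wp w) / ε ≤ x :=
    (((eventually_ge_atTop _).and (eventually_ge_atTop _)).and (eventually_ge_atTop _)).and
      (eventually_ge_atTop _)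
  have ev2 : ∀ᶠ x : ℝ in atTop, (1 ≤ Real.log x ∧ (H0:ℝ) ≤ Real.log x) ∧
      C * 2 ^ (A + 1) ≤ Real.log x :=
    ((Real.tendsto_log_atTop.eventually_ge_atTop _).and
      (Real.tendsto_log_atTop.eventually_ge_atTop _)).and
      (Real.tendsto_log_atTop.eventually_ge_atTop _)
  have ev3 : ∀ᶠ x : ℝ in atTop, C * (Real.log x) ^ A ≤ δ * x := by
    have h := (Real.isLittleO_pow_log_id_atTop (n := A)).bound
      (show (0:ℝ) < δ / C by positivity)
    filter_upwards [h, eventually_ge_atTop (1:ℝ)] with x hx hx1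
    have hl : 0 ≤ Real.log x := Real.log_nonneg hx1
    rw [Real.norm_of_nonneg (pow_nonneg hl A), id, Real.norm_of_nonneg (by linarith)] at hx
    calc C * (Real.log x) ^ A ≤ C * (δ / C * x) :=
          mul_le_mul_of_nonneg_left hx (by positivity)
      _ = δ * x := by field_simp
  obtain ⟨X, hX⟩ := eventually_atTop.mp (ev1.and (ev2.and ev3))
  refine ⟨X, fun x hx H hHl hHu => ?_⟩
  obtain ⟨⟨⟨⟨hx1, hx2⟩, hx36⟩, hx4⟩, ⟨⟨hl1, hl2⟩, hl3⟩, hx3⟩ := hX x hx
  have hxpos : (0:ℝ) < x := by linarith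
  have hlogx : 0 < Real.log x := by linarith
  have hHr : Real.log x ≤ H := by
    have : (1:ℝ) * Real.log x ≤ max K0 1 * Real.log x :=
      mul_le_mul_of_nonneg_right (le_max_right _ _) hlogx.le
    linarith
  have hH1 : 1 ≤ H := by
    have : (1:ℝ) ≤ H := by linarith
    exact_mod_cast this
  have hH00 : H0 ≤ H := by
    have : (H0:ℝ) ≤ H := by linarith
    exact_mod_cast this
  set H' := 3 * Wp w * K * H with hH'
  have hH'r : (H' : ℝ) = C * H := by rw [hH', hC]; push_cast; ring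
  have hH'C : (H' : ℝ) ≤ C * (Real.log x) ^ A := by
    rw [hH'r]; exact mul_le_mul_of_nonneg_left hHu (by positivity)
  have hH'x : (H' : ℝ) ≤ δ * x := hH'C.trans hx3
  have hδ4 : δ ≤ 1 / 4 := by rw [hδ]; linarith
  have hH'fl : H' ≤ ⌊x⌋₊ := by
    apply Nat.le_floor
    nlinarith
  set Y := ⌊x⌋₊ - H' with hY
  have hYH : Y + H' ≤ ⌊x⌋₊ := by omega
  have hYr : x - 1 - δ * x ≤ (Y:ℝ) := by
    rw [hY, Nat.cast_sub hH'fl]
    have := (Nat.sub_one_lt_floor x).le
    linarith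
  have hYle : (Y:ℝ) ≤ x := by
    have h1 : Y ≤ ⌊x⌋₊ := by omega
    exact (Nat.cast_le.mpr h1).trans (Nat.floor_le hxpos.le)
  have hYhalf : x / 2 ≤ (Y:ℝ) := by nlinarith
  have hNge : ∀ j < R, x / 2 ^ (R + 2) ≤ (NB Y j : ℝ) := by
    intro j hj
    refine le_trans ?_ (NB_ge Y j)
    have h1 : (2:ℝ) ^ (j + 1) ≤ 2 ^ R := pow_le_pow_right₀ (by norm_num) (by omega)
    have h2 : (Y:ℝ) / 2 ^ R ≤ (Y:ℝ) / 2 ^ (j + 1) :=
      div_le_div_of_nonneg_left (Nat.cast_nonneg _) (by positivity) h1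
    have h3 : x / 2 ^ (R + 1) ≤ (Y:ℝ) / 2 ^ R := by
      have : x / 2 ^ (R + 1) = (x / 2) / 2 ^ R := by
        rw [pow_succ]; field_simp
      rw [this]
      exact div_le_div_of_nonneg_right hYhalf (by positivity)
    have h4 : x / 2 ^ (R + 1) = x / 2 ^ (R + 2) + x / 2 ^ (R + 2) := by
      rw [pow_succ (2:ℝ) (R + 1)]; field_simp; ring
    have h5 : 1 ≤ x / 2 ^ (R + 2) := by
      rw [le_div_iff₀ (by positivity), one_mul]
      refine le_trans ?_ hx2
      have : (1:ℝ) ≤ 2 ^ (R + 2) := one_le_pow₀ (by norm_num)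
      nlinarith
    linarith
  have hNle : ∀ j, (NB Y j : ℝ) ≤ x := by
    intro j
    have := NB_le Y j
    have h1 : NB Y j ≤ Y := by omega
    exact (Nat.cast_le.mpr h1).trans hYle
  have hNsq : ∀ j < R, Real.sqrt x ≤ (NB Y j : ℝ) := by
    intro j hj
    refine le_trans ?_ (hNge j hj)
    rw [le_div_iff₀ (by positivity)]
    have h1 : (2:ℝ) ^ (R + 2) ≤ Real.sqrt x := by
      apply Real.le_sqrt_of_sq_le
      exact hx2
    have h2 := Real.mul_self_sqrt hxpos.le
    have h3 := Real.sqrt_nonneg x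
    nlinarith
  have hlogN2 : ∀ j < R, Real.log x / 2 ≤ Real.log (NB Y j) := by
    intro j hj
    rw [← Real.log_sqrt hxpos.le]
    exact Real.log_le_log (Real.sqrt_pos.mpr hxpos) (hNsq j hj)
  have hlogN : ∀ j < R, 0 < Real.log (NB Y j) ∧ Real.log (NB Y j) ≤ Real.log x := by
    intro j hj
    have h1 := hlogN2 j hj
    have h2 : (0:ℝ) < NB Y j := lt_of_lt_of_le (Real.sqrt_pos.mpr hxpos) (hNsq j hj)
    exact ⟨by linarith, Real.log_le_log h2 (hNle j)⟩
  have hNN0 : ∀ j < R, N0 ≤ NB Y j := by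
    intro j hj
    have h1 := hNge j hj
    have h2 : (N0:ℝ) ≤ x / 2 ^ (R + 2) := by
      rw [le_div_iff₀ (by positivity)]
      linarith
    exact_mod_cast h2.trans h1
  have hKpos : 0 < K := by omega
  have hHH' : H ≤ H' := by
    rw [hH']
    exact Nat.le_mul_of_pos_left H (by positivity)
  have hHH'r : (H:ℝ) ≤ (H' : ℝ) := by exact_mod_cast hHH'
  have hHA : ∀ j < R, (H' : ℝ) ≤ (Real.log (NB Y j)) ^ (A + 1) := by
    intro j hj
    calc (H' : ℝ) ≤ C * (Real.log x) ^ A := hH'C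
      _ = (C * 2 ^ (A + 1)) * (Real.log x) ^ A / 2 ^ (A + 1) := by
          field_simp
      _ ≤ Real.log x * (Real.log x) ^ A / 2 ^ (A + 1) := by
          apply div_le_div_of_nonneg_right _ (by positivity)
          exact mul_le_mul_of_nonneg_right hl3 (by positivity)
      _ = (Real.log x / 2) ^ (A + 1) := by
          rw [div_pow, pow_succ (Real.log x) A]; ring
      _ ≤ (Real.log (NB Y j)) ^ (A + 1) := pow_le_pow_left₀ (by positivity) (hlogN2 j hj) _
  have hKH : ∀ j < R, K0 * Real.log (NB Y j) ≤ (H' : ℝ) := by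
    intro j hj
    have hl := hlogN j hj
    calc K0 * Real.log (NB Y j) ≤ max K0 1 * Real.log (NB Y j) :=
          mul_le_mul_of_nonneg_right (le_max_left _ _) hl.1.le
      _ ≤ max K0 1 * Real.log x :=
          mul_le_mul_of_nonneg_left hl.2 (le_trans zero_le_one (le_max_right _ _))
      _ ≤ H := hHl
      _ ≤ _ := hHH'r
  refine main_count ε hε hε1 w K R H Y x hw22 hK2 hwK hH1 hxpos hlogx hYH hlogN ?_ ?_ ?_ _ ?_ ?_
  · refine le_trans ?_ (weight_ge w Y R)
    rw [show (1 - ε / 8) * (cW (Wp w) * x) = cW (Wp w) * ((1 - ε / 8) * x) by ring]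
    apply mul_le_mul_of_nonneg_left _ (F4.cW_pos w).le
    have h1 : 64 * (1 + (R:ℝ) + R * Wp w) ≤ x * ε := by
      rw [div_le_iff₀ hε] at hx4
      exact hx4
    have h2 : (Y:ℝ) * (1 - ε / 32) ≤ (Y:ℝ) * (1 - (1 / 2) ^ R) :=
      mul_le_mul_of_nonneg_left (by linarith) (Nat.cast_nonneg _)
    have h3 : (x - 1 - δ * x) * (1 - ε / 32) ≤ (Y:ℝ) * (1 - ε / 32) :=
      mul_le_mul_of_nonneg_right hYr (by linarith)
    have h4 : (1 - ε / 8) * x ≤ (x - 1 - δ * x) * (1 - ε / 32) - R - R * Wp w := by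
      rw [hδ]
      have h5 : 0 ≤ ε * ε * x := by positivity
      have h6 : 0 ≤ (R:ℝ) + R * Wp w := by positivity
      nlinarith
    linarith
  · intro j hj a ha
    unfold AC at ha
    rw [Finset.mem_filter, Finset.mem_range] at ha
    exact hN0 (NB Y j) (hNN0 j hj) H' (hKH j hj) (hHA j hj) a {0} ⟨0, Finset.mem_singleton_self _⟩
      (by
        intro r hr
        rw [Finset.mem_singleton] at hr
        subst hr
        exact ⟨hWp, by rw [add_zero]; exact ha.2⟩) K le_rfl (Fin (2 * K * H) × Fin H) (ee w K H)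
      (fun t i => ee_mem w K H t i) (fun t => ee_inj w K H t)
      (fun i v => one_point w K H (by omega) hH1 i v)
      (fun I v => two_point w K H (by omega) hH1 I v)
  · have h1 := hH0 H hH00 (Finset.range (Wp w)) ⟨0, Finset.mem_range.mpr hWp⟩
      (fun r hr => Finset.mem_range.mp hr) 0 (Nat.zero_le _)
    have hVS : VS w H (Finset.range (Wp w)) = Finset.range (H + 1) := by
      unfold VS
      rw [Finset.filter_true_of_mem]
      intro d _
      exact Finset.mem_range.mpr (Nat.mod_lt _ hWp)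
    rw [hVS, Finset.card_range] at h1
    exact h1
  · intro d hd
    rw [Finset.mem_filter, Finset.mem_Icc] at hd
    exact hd.1
  · intro d hd
    rw [Finset.mem_filter] at hd
    exact hd.2

end Pool.Agent.HLT
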