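import Mathlib
import Pool.Agent.HLT.APDyadic
import Pool.Agent.HLT.APMoment
import Pool.Agent.HLT.APSoft

set_option autoImplicit false

open Finset Filter

namespace Pool.Agent.HLT

open Pool.Agent.HL26

namespace G6H16

theorem image_cons {k : ℕ} (d : Fin k → ℕ) :
    Finset.univ.image (Fin.cons 0 d : Fin (k + 1) → ℕ) = insert 0 (Finset.univ.image d) := by
  ext y
  simp [Fin.exists_fin_succ, eq_comm]

theorem cx_cons {k : ℕ} (x : ℝ) (d : Fin k → ℕ) :
    cx k x (Fin.cons 0 d) = (Real.log x) ^ (k + 1) / x *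
      (tupleCount x (insert 0 (Finset.univ.image d)) : ℝ) := by
  rw [cx, image_cons]

theorem tupleCount_shift (x : ℝ) (E : Finset ℕ) (t : ℕ) :
    |(tupleCount x (E.image (fun e => e + t)) : ℝ) - (tupleCount x E : ℝ)| ≤ t := by
  unfold tupleCount
  set N := ⌊x⌋₊
  set P : ℕ → Prop := fun m => ∀ e ∈ E, Nat.Prime (m + e) with hP
  have e1 : ((Finset.Icc 1 N).filter
      (fun m => ∀ e ∈ E.image (fun e => e + t), Nat.Prime (m + e))).card =
      ((Finset.Icc (1 + t) (N + t)).filter P).card := by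
    rw [← Finset.card_image_of_injective ((Finset.Icc 1 N).filter
      (fun m => ∀ e ∈ E.image (fun e => e + t), Nat.Prime (m + e))) (add_left_injective t)]
    congr 1
    ext m
    simp only [Finset.mem_image, Finset.mem_filter, Finset.mem_Icc, forall_exists_index, and_imp,
      forall_apply_eq_imp_iff₂, hP]
    constructor
    · rintro ⟨a, ⟨⟨h1, h2⟩, h3⟩, rfl⟩
      refine ⟨⟨by omega, by omega⟩, fun e he => ?_⟩
      have := h3 e he
      rwa [show a + (e + t) = a + t + e by ring] at this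
    · rintro ⟨⟨h1, h2⟩, h3⟩
      refine ⟨m - t, ⟨⟨by omega, by omega⟩, fun e he => ?_⟩, by omega⟩
      have := h3 e he
      rwa [show m - t + (e + t) = m + e by omega]
  rw [e1]
  have h1 : ((Finset.Icc (1 + t) (N + t)).filter P).card ≤
      ((Finset.Icc 1 N).filter P).card + t := by
    have : (Finset.Icc (1 + t) (N + t)).filter P ⊆
        (Finset.Icc 1 N).filter P ∪ Finset.Icc (N + 1) (N + t) := by
      intro m
      simp only [Finset.mem_union, Finset.mem_filter, Finset.mem_Icc]
      rintro ⟨⟨h1, h2⟩, h3⟩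
      by_cases h : m ≤ N
      · left; exact ⟨⟨by omega, h⟩, h3⟩
      · right; omega
    refine (Finset.card_le_card this).trans ((Finset.card_union_le _ _).trans ?_)
    simp
  have h2 : ((Finset.Icc 1 N).filter P).card ≤
      ((Finset.Icc (1 + t) (N + t)).filter P).card + t := by
    have : (Finset.Icc 1 N).filter P ⊆
        (Finset.Icc (1 + t) (N + t)).filter P ∪ Finset.Icc 1 t := by
      intro m
      simp only [Finset.mem_union, Finset.mem_filter, Finset.mem_Icc]
      rintro ⟨⟨h1, h2⟩, h3⟩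
      by_cases h : m ≤ t
      · right; omega
      · left; exact ⟨⟨by omega, by omega⟩, h3⟩
    refine (Finset.card_le_card this).trans ((Finset.card_union_le _ _).trans ?_)
    simp
  have h1' : (((Finset.Icc (1 + t) (N + t)).filter P).card : ℝ) ≤
      (((Finset.Icc 1 N).filter P).card : ℝ) + t := by exact_mod_cast h1
  have h2' : (((Finset.Icc 1 N).filter P).card : ℝ) ≤
      (((Finset.Icc (1 + t) (N + t)).filter P).card : ℝ) + t := by exact_mod_cast h2
  rw [abs_le]
  constructor <;> linarith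

theorem cx_shift (k : ℕ) {x : ℝ} (hx : 0 < x) (hl : 0 ≤ Real.log x) (e : Fin (k + 1) → ℕ) (t : ℕ) :
    |cx k x (fun i => e i + t) - cx k x e| ≤ (Real.log x) ^ (k + 1) / x * t := by
  have him : Finset.univ.image (fun i => e i + t) =
      (Finset.univ.image e).image (fun e => e + t) := by
    rw [Finset.image_image]; rfl
  rw [cx, cx, him, ← mul_sub, abs_mul, abs_of_nonneg (by positivity)]
  exact mul_le_mul_of_nonneg_left (tupleCount_shift x _ t) (by positivity)

theorem card_box (r M : ℕ) : (box r M).card = (M + 1) ^ r := by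
  simp [box]

theorem mem_box {r M : ℕ} {e : Fin r → ℕ} : e ∈ box r M ↔ ∀ i, e i ≤ M := by
  simp [box]

theorem card_eq_le (k M : ℕ) (i j : Fin (k + 1)) (hij : i ≠ j) :
    ((box (k + 1) M).filter (fun e => e i = e j)).card ≤ (M + 1) ^ k := by
  rw [← card_box k M]
  refine Finset.card_le_card_of_injOn (fun e => fun l => e (i.succAbove l)) ?_ ?_
  · intro e he
    have he := (Finset.mem_filter.mp he).1
    rw [mem_box] at he
    exact Finset.mem_coe.mpr (mem_box.mpr fun l => he _)
  · intro e he e' he' h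
    have h1 := (Finset.mem_filter.mp he).2
    have h2 := (Finset.mem_filter.mp he').2
    have hs : ∀ l, e (i.succAbove l) = e' (i.succAbove l) := fun l => congrFun h l
    funext m
    by_cases hm : m = i
    · subst hm
      rw [h1, h2]
      obtain ⟨l, hl⟩ := Fin.exists_succAbove_eq hij.symm
      rw [← hl]; exact hs l
    · obtain ⟨l, hl⟩ := Fin.exists_succAbove_eq hm
      rw [← hl]; exact hs l

open Classical in
theorem card_noninj (k M : ℕ) :
    ((box (k + 1) M).filter (fun e => ¬ Function.Injective e)).card ≤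
      (k + 1) ^ 2 * (M + 1) ^ k := by
  have hsub : (box (k + 1) M).filter (fun e => ¬ Function.Injective e) ⊆
      ((Finset.univ : Finset (Fin (k + 1) × Fin (k + 1))).filter (fun p => p.1 ≠ p.2)).biUnion
        (fun p => (box (k + 1) M).filter (fun e => e p.1 = e p.2)) := by
    intro e he
    rw [Finset.mem_filter] at he
    obtain ⟨h1, h2⟩ := he
    simp only [Function.Injective, not_forall] at h2
    obtain ⟨a, b, hab, hne⟩ := h2
    rw [Finset.mem_biUnion]
    exact ⟨(a, b), by simpa using hne, Finset.mem_filter.mpr ⟨h1, hab⟩⟩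
  refine (Finset.card_le_card hsub).trans (Finset.card_biUnion_le.trans ?_)
  calc ∑ p ∈ (Finset.univ : Finset (Fin (k + 1) × Fin (k + 1))).filter (fun p => p.1 ≠ p.2),
        ((box (k + 1) M).filter (fun e => e p.1 = e p.2)).card
      ≤ ∑ _p ∈ (Finset.univ : Finset (Fin (k + 1) × Fin (k + 1))).filter (fun p => p.1 ≠ p.2),
        (M + 1) ^ k := Finset.sum_le_sum fun p hp =>
          card_eq_le k M p.1 p.2 (Finset.mem_filter.mp hp).2
    _ = ((Finset.univ : Finset (Fin (k + 1) × Fin (k + 1))).filter (fun p => p.1 ≠ p.2)).card *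
        (M + 1) ^ k := by rw [Finset.sum_const, smul_eq_mul]
    _ ≤ (k + 1) ^ 2 * (M + 1) ^ k := by
        refine Nat.mul_le_mul_right _ ((Finset.card_filter_le _ _).trans ?_)
        simp [sq]

theorem cons_injective {k H : ℕ} {d : Fin k → ℕ}
    (hd : d ∈ Fintype.piFinset (fun _ : Fin k => Finset.Icc 1 H)) (hi : Function.Injective d) :
    Function.Injective (Fin.cons 0 d : Fin (k + 1) → ℕ) := by
  rw [Fin.cons_injective_iff]
  refine ⟨?_, hi⟩
  rintro ⟨i, h⟩
  have := Fintype.mem_piFinset.mp hd i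
  rw [h] at this
  simp at this

theorem sub_min_le {c Y : ℝ} (hc : 0 ≤ c) (hY : 0 < Y) : |c - min c Y| ≤ c ^ 2 / Y := by
  rcases le_total c Y with h | h
  · rw [min_eq_left h, sub_self, abs_zero]; positivity
  · rw [min_eq_right h, abs_of_nonneg (by linarith), le_div_iff₀ hY]
    nlinarith

theorem cx_nonneg (k : ℕ) {x : ℝ} (hx : 0 < x) (hl : 0 ≤ Real.log x) (e : Fin (k + 1) → ℕ) :
    0 ≤ cx k x e := by
  unfold cx; positivity

end G6H16

open G6H16

open Classical in
/-- G6: almost periodicity of the prime tuple counts. -/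
theorem almost_periodic (k : ℕ) (hk : 1 ≤ k) (ε : ℝ) (hε : 0 < ε) : ∃ (J : ℕ) (K : ℝ), ∀ A : ℕ,
    ∃ X : ℝ, ∀ x : ℝ, X ≤ x → ∀ H : ℕ, K * Real.log x ≤ H → (H:ℝ) ≤ (Real.log x) ^ A →
    ∃ (α : Fin J → ℝ) (a b : (Fin k → Fin J) → ℝ), (∀ j, |a j| ≤ J ∧ |b j| ≤ J) ∧
      ∑ d ∈ (Fintype.piFinset (fun _ : Fin k => Finset.Icc 1 H)).filter
          (fun d => Function.Injective d),
        |(Real.log x) ^ (k + 1) / x * (tupleCount x (insert 0 (Finset.univ.image d)) : ℝ) -
          trig α a b d| ≤ ε * (H:ℝ) ^ k := by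
  obtain ⟨C, hC, X1, hmom⟩ := cx_moments k hk
  obtain ⟨Y, hYdef⟩ : ∃ Y : ℝ, Y = 4 * C / ε := ⟨_, rfl⟩
  have hY : 0 < Y := by rw [hYdef]; positivity
  obtain ⟨ε1, hε1, κ, hκ, hsoft⟩ := soft_ap k hk Y (ε / 2) hY (by positivity)
  obtain ⟨J0, K0, htm⟩ := tuple_model k hk (ε1 / 2) (by positivity)
  obtain ⟨J, H0, hYJ, hsoft⟩ := hsoft J0
  refine ⟨J, max K0 1, fun A => ?_⟩
  obtain ⟨X2, htm⟩ := htm (A + 1)
  have hev : ∀ᶠ x : ℝ in atTop, X1 ≤ x ∧ X2 ≤ x ∧ 1 ≤ x ∧ 6 ≤ Real.log x ∧
      (H0:ℝ) ≤ Real.log x ∧ 2 * ((k:ℝ) + 1) ^ 2 * Y / ε1 ≤ Real.log x ∧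
      (Real.log x) ^ (k + 1 + A) * 6 ≤ κ * x := by
    have hlog := Real.tendsto_log_atTop
    refine (eventually_ge_atTop X1).and ((eventually_ge_atTop X2).and
      ((eventually_ge_atTop 1).and ((hlog.eventually_ge_atTop 6).and
      ((hlog.eventually_ge_atTop _).and ((hlog.eventually_ge_atTop _).and ?_)))))
    have h := (Real.isLittleO_pow_log_id_atTop (n := k + 1 + A)).def (show 0 < κ / 6 by positivity)
    filter_upwards [h, eventually_ge_atTop 1] with x hx hx1
    have h2 : (0:ℝ) ≤ Real.log x := Real.log_nonneg hx1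
    rw [Real.norm_of_nonneg (by positivity), id, Real.norm_of_nonneg (by linarith)] at hx
    linarith
  obtain ⟨X, hX⟩ := Filter.eventually_atTop.mp hev
  refine ⟨X, fun x hx H hKH hHA => ?_⟩
  obtain ⟨hx1, hx2, hx3, hl6, hlH0, hlk, hlκ⟩ := hX x hx
  have hx0 : 0 < x := by linarith
  have hl0 : 0 ≤ Real.log x := by linarith
  have hHlog : Real.log x ≤ H := by
    refine le_trans ?_ hKH
    nlinarith [le_max_right K0 1]
  have hHpos : 0 < (H:ℝ) := by linarith
  have hH1 : 1 ≤ H := by
    have : (0:ℝ) < H := hHpos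
    exact_mod_cast this
  have hHH0 : H0 ≤ H := by
    have : (H0:ℝ) ≤ H := hlH0.trans hHlog
    exact_mod_cast this
  -- the model at `6H`
  have hK6 : K0 * Real.log x ≤ ((6 * H : ℕ) : ℝ) := by
    have : K0 * Real.log x ≤ H := le_trans (by nlinarith [le_max_left K0 1]) hKH
    push_cast; linarith
  have hA6 : ((6 * H : ℕ) : ℝ) ≤ (Real.log x) ^ (A + 1) := by
    push_cast
    rw [pow_succ]
    nlinarith [pow_nonneg hl0 A]
  obtain ⟨χ, g, hg0, hg⟩ := htm x hx2 (6 * H) hK6 hA6
  -- truncated function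
  let c : (Fin (k + 1) → ℕ) → ℝ := fun e => if Function.Injective e then min (cx k x e) Y else 0
  have hc : ∀ e, Function.Injective e → c e = min (cx k x e) Y := fun e he => if_pos he
  have hc' : ∀ e, ¬ Function.Injective e → c e = 0 := fun e he => if_neg he
  have hS : Soft k H Y κ c := by
    refine ⟨fun e => ?_, fun e => ?_, fun e t ht => ?_⟩
    · by_cases he : Function.Injective e
      · rw [hc e he]; exact le_min (cx_nonneg k hx0 hl0 e) hY.le
      · rw [hc' e he]
    · by_cases he : Function.Injective e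
      · rw [hc e he]; exact min_le_right _ _
      · rw [hc' e he]; exact hY.le
    · have hinj : Function.Injective (fun i => e i + t) ↔ Function.Injective e := by
        constructor
        · intro h a b hab
          exact h (by simp [hab])
        · intro h a b hab
          exact h (by simpa using hab)
      by_cases he : Function.Injective e
      · rw [hc e he, hc _ (hinj.mpr he)]
        refine (abs_inf_sub_inf_le_abs _ _ _).trans ((cx_shift k hx0 hl0 e t).trans ?_)
        have ht6 : (t:ℝ) ≤ 6 * (Real.log x) ^ A := by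
          have h1 : t ≤ 6 * H := le_trans (Nat.le_add_left _ _) (ht 0)
          have h2 : (t:ℝ) ≤ 6 * H := by exact_mod_cast h1
          linarith
        calc (Real.log x) ^ (k + 1) / x * t
            ≤ (Real.log x) ^ (k + 1) / x * (6 * (Real.log x) ^ A) :=
              mul_le_mul_of_nonneg_left ht6 (by positivity)
          _ = ((Real.log x) ^ (k + 1 + A) * 6) / x := by rw [pow_add (Real.log x) (k + 1) A]; ring
          _ ≤ κ := by rw [div_le_iff₀ hx0]; exact hlκ
      · rw [hc' e he, hc' _ (fun h => he (hinj.mp h))]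
        simpa using hκ.le
  have hM : Model k H ε1 J0 c := by
    refine ⟨χ, fun i => min (g i) Y, ?_⟩
    rw [← Finset.sum_filter_add_sum_filter_not (box (k + 1) (6 * H))
      (fun e => Function.Injective e)]
    have hcast : ((6 * H : ℕ) : ℝ) + 1 = 6 * H + 1 := by push_cast; ring
    have hA1 : ∑ e ∈ (box (k + 1) (6 * H)).filter (fun e => Function.Injective e),
        |c e - min (g (fun i => χ (e i))) Y| ≤ ε1 / 2 * (6 * (H:ℝ) + 1) ^ (k + 1) := by
      rw [← hcast]
      refine le_trans (Finset.sum_le_sum fun e he => ?_) hg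
      rw [hc e (Finset.mem_filter.mp he).2]
      exact abs_inf_sub_inf_le_abs _ _ _
    have hA2 : ∑ e ∈ (box (k + 1) (6 * H)).filter (fun e => ¬ Function.Injective e),
        |c e - min (g (fun i => χ (e i))) Y| ≤ ε1 / 2 * (6 * (H:ℝ) + 1) ^ (k + 1) := by
      have h1 : ∀ e ∈ (box (k + 1) (6 * H)).filter (fun e => ¬ Function.Injective e),
          |c e - min (g (fun i => χ (e i))) Y| ≤ Y := by
        intro e he
        rw [hc' e (Finset.mem_filter.mp he).2, zero_sub, abs_neg,
          abs_of_nonneg (le_min (hg0 _) hY.le)]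
        exact min_le_right _ _
      refine (Finset.sum_le_card_nsmul _ _ _ h1).trans ?_
      rw [nsmul_eq_mul]
      have h2 : (((box (k + 1) (6 * H)).filter (fun e => ¬ Function.Injective e)).card : ℝ) ≤
          ((k:ℝ) + 1) ^ 2 * (6 * (H:ℝ) + 1) ^ k := by
        have := card_noninj k (6 * H)
        exact_mod_cast this
      calc (((box (k + 1) (6 * H)).filter (fun e => ¬ Function.Injective e)).card : ℝ) * Y
          ≤ ((k:ℝ) + 1) ^ 2 * (6 * (H:ℝ) + 1) ^ k * Y := mul_le_mul_of_nonneg_right h2 hY.le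
        _ = (6 * (H:ℝ) + 1) ^ k * (((k:ℝ) + 1) ^ 2 * Y) := by ring
        _ ≤ (6 * (H:ℝ) + 1) ^ k * (ε1 / 2 * (6 * (H:ℝ) + 1)) := by
            refine mul_le_mul_of_nonneg_left ?_ (by positivity)
            have h3 := hlk.trans hHlog
            rw [div_le_iff₀ hε1] at h3
            nlinarith
        _ = ε1 / 2 * (6 * (H:ℝ) + 1) ^ (k + 1) := by rw [pow_succ]; ring
    calc _ ≤ ε1 / 2 * (6 * (H:ℝ) + 1) ^ (k + 1) + ε1 / 2 * (6 * (H:ℝ) + 1) ^ (k + 1) :=
          add_le_add hA1 hA2
      _ = ε1 * ((6 * H : ℝ) + 1) ^ (k + 1) := by ring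
  obtain ⟨α, a, b, hab, hsum⟩ := hsoft H hHH0 c hS hM
  refine ⟨α, a, b, fun j => ⟨(hab j).1.trans hYJ, (hab j).2.trans hYJ⟩, ?_⟩
  have hmom2 := (hmom x hx1 H hH1).2
  calc ∑ d ∈ (Fintype.piFinset (fun _ : Fin k => Finset.Icc 1 H)).filter
          (fun d => Function.Injective d),
        |(Real.log x) ^ (k + 1) / x * (tupleCount x (insert 0 (Finset.univ.image d)) : ℝ) -
          trig α a b d|
      ≤ ∑ d ∈ (Fintype.piFinset (fun _ : Fin k => Finset.Icc 1 H)).filter
          (fun d => Function.Injective d),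
        ((cx k x (Fin.cons 0 d)) ^ 2 / Y + |c (Fin.cons 0 d) - trig α a b d|) := by
        refine Finset.sum_le_sum fun d hd => ?_
        obtain ⟨hd1, hd2⟩ := Finset.mem_filter.mp hd
        have hi := cons_injective hd1 hd2
        rw [← cx_cons, hc _ hi]
        have h1 := sub_min_le (cx_nonneg k hx0 hl0 (Fin.cons 0 d)) hY
        calc |cx k x (Fin.cons 0 d) - trig α a b d|
            = |(cx k x (Fin.cons 0 d) - min (cx k x (Fin.cons 0 d)) Y) +
              (min (cx k x (Fin.cons 0 d)) Y - trig α a b d)| := by ring_nf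
          _ ≤ _ := (abs_add_le _ _).trans (add_le_add h1 le_rfl)
    _ = (∑ d ∈ (Fintype.piFinset (fun _ : Fin k => Finset.Icc 1 H)).filter
          (fun d => Function.Injective d), (cx k x (Fin.cons 0 d)) ^ 2) / Y +
        ∑ d ∈ (Fintype.piFinset (fun _ : Fin k => Finset.Icc 1 H)).filter
          (fun d => Function.Injective d), |c (Fin.cons 0 d) - trig α a b d| := by
        rw [Finset.sum_add_distrib, Finset.sum_div]
    _ ≤ C * (H:ℝ) ^ k / Y + ε / 2 * (H:ℝ) ^ k := by
        refine add_le_add (div_le_div_of_nonneg_right hmom2 hY.le) ?_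
        refine le_trans (Finset.sum_le_sum_of_subset_of_nonneg (Finset.filter_subset _ _)
          fun _ _ _ => abs_nonneg _) hsum
    _ ≤ ε * (H:ℝ) ^ k := by
        have h1 : C * (H:ℝ) ^ k / Y = ε / 4 * (H:ℝ) ^ k := by
          rw [hYdef]; field_simp
        rw [h1]
        have : 0 ≤ (H:ℝ) ^ k := by positivity
        nlinarith

end Pool.Agent.HLT
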