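import Mathlib
import Pool.Agent.HLT.NDefs
import Pool.Agent.HLT.ApDefs

set_option autoImplicit false

open Finset

namespace Pool.Agent.HLT

/-- `log N` at the primes `n + s`, as a function of `s` on `ZMod Q` -/
noncomputable def lam (N Q n : ℕ) (s : ZMod Q) : ℝ :=
  if (n + s.val).Prime then Real.log N else 0

/-- average of `u` over `s + P - P` -/
noncomputable def tav {Q : ℕ} (P : Finset (ZMod Q)) (u : ZMod Q → ℝ) (s : ZMod Q) : ℝ :=
  (∑ τ ∈ P, ∑ τ' ∈ P, u (s + τ - τ')) / (P.card : ℝ) ^ 2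

/-- the pair correlations of the primes in `(N, 2N]` on `ZMod Q` -/
noncomputable def gl (N Q : ℕ) (s s' : ZMod Q) : ℝ :=
  (∑ n ∈ Finset.Ioc N (2 * N), lam N Q n s * lam N Q n s') / N

/-- `τ` is a `δ`-almost period of the pair correlations -/
def IsPer (N Q : ℕ) [NeZero Q] (δ : ℝ) (τ : ZMod Q) : Prop :=
  ∑ s : ZMod Q, ∑ s' : ZMod Q, |gl N Q (s + τ) s' - gl N Q s s'| ≤ δ * (Q:ℝ) ^ 2

/-- nonnegative part of a trigonometric polynomial on `ZMod Q` -/
noncomputable def tpz {Q R : ℕ} [NeZero Q] (ξ : Fin R → ZMod Q) (b : Fin R → ℂ) (s : ZMod Q) : ℝ :=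
  max 0 ((∑ l, b l * ZMod.stdAddChar (ξ l * s)).re)

/-- the structured function on `ZMod Q`: supported on the `s` with `a + s` coprime to `Wp w` -/
noncomputable def gz {Q R : ℕ} [NeZero Q] (w a : ℕ) (ξ : Fin R → ZMod Q) (b : Fin R → ℂ)
    (s : ZMod Q) : ℝ :=
  if (a + s.val).Coprime (Wp w) then tpz ξ b s else 0

/-- nonnegative part of a real trigonometric polynomial -/
noncomputable def tp {R : ℕ} (θ α β : Fin R → ℝ) (m : ℕ) : ℝ :=
  max 0 (∑ l, (α l * Real.cos (2 * Real.pi * θ l * m) + β l * Real.sin (2 * Real.pi * θ l * m)))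

/-- `W/φ(W)` times the indicator of `(m, W) = 1` times `tp`, for `W = Wp w` -/
noncomputable def gw {R : ℕ} (w : ℕ) (θ α β : Fin R → ℝ) (m : ℕ) : ℝ :=
  if m.Coprime (Wp w) then ((Wp w : ℝ) / ((Wp w).totient : ℝ)) * tp θ α β m else 0

end Pool.Agent.HLT
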