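import Mathlib
import Pool.Agent.HLT.Close
import Pool.Agent.HLT.StDefs

set_option autoImplicit false

open Finset

namespace Pool.Agent.HLT

namespace StCloseAux

open A3aux (av_prod_type av_insertNth TT)

variable {X V : Type} [Fintype X] [Fintype V]

/-- projection in the variable `j` -/
noncomputable def PP {r : ℕ} (T : (V → ℝ) → V → ℝ) (j : Fin r) (b : (Fin r → V) → ℝ)
    (e : Fin r → V) : ℝ :=
  T (fun d => b (Function.update e j d)) (e j)

lemma abs_PP_le {r : ℕ} (T : (V → ℝ) → V → ℝ)
    (hT2 : ∀ u : V → ℝ, (∀ d, |u d| ≤ 1) → ∀ d, |T u d| ≤ 1) (j : Fin r) {b : (Fin r → V) → ℝ}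
    (hb : ∀ e, |b e| ≤ 1) (e : Fin r → V) : |PP T j b e| ≤ 1 := by
  unfold PP
  exact hT2 _ (fun d => hb _) _

lemma TT_move {m : ℕ} (T : (V → ℝ) → V → ℝ)
    (hT1 : ∀ u v : V → ℝ, av (fun d => u d * T v d) = av (fun d => T u d * v d)) (i : Fin (m+1)) (b : (Fin (m+1) → V) → ℝ)
    (F : Fin (m+1) → X → V → ℝ) (G : X → V → ℝ)
    (hF : F i = fun n => T (G n)) :
    TT b F = TT (PP T i b) (Function.update F i G) := by
  unfold TT
  congr 1
  funext n
  rw [av_insertNth i, av_insertNth i]
  congr 1
  funext e'
  have h1 : ∀ d : V, b (Fin.insertNth i d e') * ∏ j, F j n ((Fin.insertNth i d e' : Fin (m+1) → V) j)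
      = (b (Fin.insertNth i d e') * T (G n) d) * ∏ j, F (i.succAbove j) n (e' j) := by
    intro d
    rw [Fin.prod_univ_succAbove _ i]
    simp only [Fin.insertNth_apply_same, Fin.insertNth_apply_succAbove, hF]
    ring
  have h2 : ∀ d : V, PP T i b (Fin.insertNth i d e') *
      ∏ j, (Function.update F i G) j n ((Fin.insertNth i d e' : Fin (m+1) → V) j)
      = (T (fun d => b (Fin.insertNth i d e')) d * G n d) *
        ∏ j, F (i.succAbove j) n (e' j) := by
    intro d
    rw [Fin.prod_univ_succAbove _ i]
    simp only [Fin.insertNth_apply_same, Fin.insertNth_apply_succAbove, Function.update_self]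
    have h3 : ∀ j, Function.update F i G (i.succAbove j) = F (i.succAbove j) := fun j =>
      Function.update_of_ne (Fin.succAbove_ne i j) _ _
    simp only [h3]
    unfold PP
    simp only [Fin.insertNth_apply_same, Fin.update_insertNth]
    ring
  simp only [h1, h2]
  rw [av_mul_right, av_mul_right, hT1]

lemma TT_tele {m : ℕ} (T : (V → ℝ) → V → ℝ) (b : (Fin (m+1) → V) → ℝ) (M : X → V → ℝ) :
    TT b (fun _ => M) - TT b (fun _ n => T (M n)) =
      ∑ i : Fin (m+1), TT b (fun j n d => if j = i then M n d - T (M n) d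
        else if j < i then T (M n) d else M n d) := by
  have key : ∀ k : ℕ, k ≤ m + 1 → TT b (fun _ => M) -
      TT b (fun (j : Fin (m+1)) n d => if j.val < k then T (M n) d else M n d) =
      ∑ i ∈ univ.filter (fun i : Fin (m+1) => i.val < k),
        TT b (fun j n d => if j = i then M n d - T (M n) d
        else if j < i then T (M n) d else M n d) := by
    intro k
    induction k with
    | zero =>
      intro _
      simp only [not_lt_zero, if_false, Finset.filter_false, Finset.sum_empty]
      exact sub_self _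
    | succ k ih =>
      intro hk
      have hk' : k < m + 1 := hk
      specialize ih hk'.le
      have hfil : univ.filter (fun i : Fin (m+1) => i.val < k + 1) =
          insert (⟨k, hk'⟩ : Fin (m+1)) (univ.filter (fun i : Fin (m+1) => i.val < k)) := by
        ext i
        simp only [Finset.mem_filter, Finset.mem_univ, true_and, Finset.mem_insert, Fin.ext_iff]
        omega
      rw [hfil, Finset.sum_insert (by simp), ← ih]
      have h4 : TT b (fun (j : Fin (m+1)) n d => if j.val < k then T (M n) d else M n d) -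
          TT b (fun (j : Fin (m+1)) n d => if j.val < k + 1 then T (M n) d else M n d) =
          TT b (fun j n d => if j = (⟨k, hk'⟩ : Fin (m+1)) then M n d - T (M n) d
            else if j < (⟨k, hk'⟩ : Fin (m+1)) then T (M n) d else M n d) := by
        unfold TT
        rw [← av_sub]
        congr 1
        funext n
        rw [← av_sub]
        congr 1
        funext e
        rw [← mul_sub]
        congr 1
        have hsp : ∀ f : Fin (m+1) → ℝ, ∏ j, f j = f ⟨k, hk'⟩ *
            ∏ j : Fin m, f (Fin.succAbove ⟨k, hk'⟩ j) := fun f => Fin.prod_univ_succAbove f _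
        rw [hsp, hsp, hsp]
        have h5 : ∀ j : Fin m, (if ((Fin.succAbove ⟨k, hk'⟩ j : Fin (m+1))).val < k + 1 then
            T (M n) (e (Fin.succAbove ⟨k, hk'⟩ j)) else M n (e (Fin.succAbove ⟨k, hk'⟩ j))) =
            (if ((Fin.succAbove ⟨k, hk'⟩ j : Fin (m+1))).val < k then
            T (M n) (e (Fin.succAbove ⟨k, hk'⟩ j)) else M n (e (Fin.succAbove ⟨k, hk'⟩ j))) := by
          intro j
          have hne : ((Fin.succAbove ⟨k, hk'⟩ j : Fin (m+1))).val ≠ k := by
            intro h
            exact Fin.succAbove_ne (⟨k, hk'⟩ : Fin (m+1)) j (Fin.ext h)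
          have hiff : ((Fin.succAbove ⟨k, hk'⟩ j : Fin (m+1))).val < k + 1 ↔
            ((Fin.succAbove ⟨k, hk'⟩ j : Fin (m+1))).val < k := by omega
          simp only [hiff]
        have h6 : ∀ j : Fin m, (if (Fin.succAbove ⟨k, hk'⟩ j : Fin (m+1)) = ⟨k, hk'⟩ then
            M n (e (Fin.succAbove ⟨k, hk'⟩ j)) - T (M n) (e (Fin.succAbove ⟨k, hk'⟩ j))
            else if (Fin.succAbove ⟨k, hk'⟩ j : Fin (m+1)) < ⟨k, hk'⟩ then
            T (M n) (e (Fin.succAbove ⟨k, hk'⟩ j)) else M n (e (Fin.succAbove ⟨k, hk'⟩ j))) =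
            (if ((Fin.succAbove ⟨k, hk'⟩ j : Fin (m+1))).val < k then
            T (M n) (e (Fin.succAbove ⟨k, hk'⟩ j)) else M n (e (Fin.succAbove ⟨k, hk'⟩ j))) := by
          intro j
          rw [if_neg (Fin.succAbove_ne (⟨k, hk'⟩ : Fin (m+1)) j)]
          simp only [Fin.lt_def]
        simp only [h5, h6, if_true, lt_irrefl, if_false, Nat.lt_succ_self]
        ring
      rw [← h4]
      ring
  have h := key (m+1) le_rfl
  have hfil : univ.filter (fun i : Fin (m+1) => i.val < m + 1) = univ := by
    ext i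
    simp only [Finset.mem_filter, Finset.mem_univ, true_and, iff_true]
    exact i.isLt
  rw [hfil] at h
  rw [← h]
  congr 1
  unfold TT
  congr 1
  funext n
  congr 1
  funext e
  congr 1
  refine Finset.prod_congr rfl fun j _ => ?_
  exact (if_pos j.isLt).symm

/-- moving all the projections to `b` -/
lemma TT_bound {m : ℕ} (T : (V → ℝ) → V → ℝ)
    (hT1 : ∀ u v : V → ℝ, av (fun d => u d * T v d) = av (fun d => T u d * v d))
    (hT2 : ∀ u : V → ℝ, (∀ d, |u d| ≤ 1) → ∀ d, |T u d| ≤ 1) (M : X → V → ℝ) (R : ℝ) (i : Fin (m+1))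
    (hR : ∀ b : (Fin (m+1) → V) → ℝ, (∀ e, |b e| ≤ 1) →
      |TT b (fun j n d => if j = i then M n d - T (M n) d else M n d)| ≤ R)
    (S : Finset (Fin (m+1))) : i ∉ S → ∀ b : (Fin (m+1) → V) → ℝ, (∀ e, |b e| ≤ 1) →
      |TT b (fun j n d => if j = i then M n d - T (M n) d
        else if j ∈ S then T (M n) d else M n d)| ≤ R := by
  classical
  induction S using Finset.induction_on with
  | empty =>
    intro _ b hb
    have := hR b hb
    simpa using this
  | insert j0 S hj0 ih =>
    intro hi b hb
    have hi1 : i ≠ j0 := fun h => hi (by rw [h]; exact Finset.mem_insert_self _ _)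
    have hi2 : i ∉ S := fun h => hi (Finset.mem_insert_of_mem h)
    have h := TT_move T hT1 j0 b (fun j n d => if j = i then M n d - T (M n) d
        else if j ∈ insert j0 S then T (M n) d else M n d) M (by
      funext n d
      rw [if_neg hi1.symm, if_pos (Finset.mem_insert_self _ _)])
    rw [h]
    have h2 : Function.update (fun (j : Fin (m+1)) (n : X) (d : V) =>
        if j = i then M n d - T (M n) d
        else if j ∈ insert j0 S then T (M n) d else M n d) j0 M =
        (fun j n d => if j = i then M n d - T (M n) d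
        else if j ∈ S then T (M n) d else M n d) := by
      funext j n d
      by_cases hj : j = j0
      · subst hj
        rw [Function.update_self, if_neg hi1.symm, if_neg hj0]
      · rw [Function.update_of_ne hj]
        by_cases hji : j = i
        · rw [if_pos hji, if_pos hji]
        · rw [if_neg hji, if_neg hji]
          simp only [Finset.mem_insert, hj, false_or]
    rw [h2]
    exact ih hi2 _ (abs_PP_le T hT2 j0 hb)

/-- the basic estimate -/
lemma TT_base [Nonempty X] [Nonempty V] [DecidableEq V] {m : ℕ} (T : (V → ℝ) → V → ℝ)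
    (hT1 : ∀ u v : V → ℝ, av (fun d => u d * T v d) = av (fun d => T u d * v d))
    (hT2 : ∀ u : V → ℝ, (∀ d, |u d| ≤ 1) → ∀ d, |T u d| ≤ 1)
    (M ν : X → V → ℝ) (C B κp κ Λ δ : ℝ) (hC : 1 ≤ C) (_hδ : 0 ≤ δ) (hκp : 0 ≤ κp)
    (hPR : PR m M ν C B κp κ Λ)
    (hreg : ∀ v : V → ℝ, (∀ d, |v d| ≤ 1) →
        av (fun n => (av (fun d => v d * (M n d - T (M n) d))) ^ 2) ≤ δ)
    (i : Fin (m+1)) (b : (Fin (m+1) → V) → ℝ) (hb : ∀ e, |b e| ≤ 1) :
    (TT b (fun j n d => if j = i then M n d - T (M n) d else M n d)) ^ 2 ≤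
      2 * C ^ (2 * m) * (δ + 8 * C ^ 2 * √κp) := by
  classical
  have hC0 : 0 ≤ C := by linarith
  set g : X → V → ℝ := fun n d => M n d - T (M n) d with hg
  set w : (Fin m → V) × X → ℝ := fun p => ∏ j, M p.2 (p.1 j) with hw
  set Φ : (Fin m → V) × X → ℝ := fun p => av (fun d => b (Fin.insertNth i d p.1) * g p.2 d)
    with hΦ
  have hw0 : ∀ p, 0 ≤ w p := fun p => Finset.prod_nonneg fun j _ => hPR.nonneg _ _
  -- rewrite
  have h1 : TT b (fun j n d => if j = i then M n d - T (M n) d else M n d) =
      av (fun p => w p * Φ p) := by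
    unfold TT
    rw [av_prod_type (fun (e' : Fin m → V) (n : X) => w (e', n) * Φ (e', n)), av_comm (fun (e' : Fin m → V) (n : X) => w (e', n) * Φ (e', n))]
    congr 1
    funext n
    rw [av_insertNth i]
    congr 1
    funext e'
    rw [hΦ, ← av_mul_left]
    congr 1
    funext d
    rw [Fin.prod_univ_succAbove _ i]
    simp only [Fin.insertNth_apply_same, Fin.insertNth_apply_succAbove, if_true,
      Fin.succAbove_ne i, if_false, hw, hg]
    ring
  rw [h1]
  refine (av_cs_weight w Φ hw0).trans ?_
  -- first factor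
  have hA : av w ≤ 2 * C ^ m := by
    have e1 : av w = av (fun n => (av (fun d => M n d)) ^ m) := by
      rw [hw]
      rw [av_prod_type (fun (e' : Fin m → V) (n : X) => ∏ j, M n (e' j)), av_comm]
      congr 1
      funext n
      rw [av_pi_prod (fun _ : Fin m => M n)]
      simp
    rw [e1]
    calc av (fun n => (av (fun d => M n d)) ^ m) ≤
        av (fun n => C ^ m * (av (fun d => ν n d)) ^ m) := by
          refine av_mono fun n => ?_
          rw [← mul_pow, ← av_mul_left]
          exact pow_le_pow_left₀ (av_nonneg fun d => hPR.nonneg n d)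
            (av_mono fun d => hPR.le n d) m
      _ = C ^ m * av (fun n => (av (fun d => ν n d)) ^ m) := av_mul_left _ _
      _ ≤ C ^ m * 2 := mul_le_mul_of_nonneg_left hPR.nu_m (by positivity)
      _ = 2 * C ^ m := by ring
  -- second factor
  have hBd : av (fun p => w p * Φ p ^ 2) ≤ C ^ m * (δ + 8 * C ^ 2 * √κp) := by
    have e1 : ∀ p, w p * Φ p ^ 2 ≤
        C ^ m * (Φ p ^ 2 + (∏ j, ν p.2 (p.1 j) - 1) * Φ p ^ 2) := by
      intro p
      have : w p ≤ C ^ m * ∏ j, ν p.2 (p.1 j) := by
        rw [hw]
        calc ∏ j, M p.2 (p.1 j) ≤ ∏ j : Fin m, (C * ν p.2 (p.1 j)) :=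
              Finset.prod_le_prod (fun j _ => hPR.nonneg _ _) (fun j _ => hPR.le _ _)
          _ = C ^ m * ∏ j, ν p.2 (p.1 j) := by
              rw [Finset.prod_mul_distrib, Finset.prod_const, Finset.card_univ,
                Fintype.card_fin]
      have := mul_le_mul_of_nonneg_right this (sq_nonneg (Φ p))
      linarith
    have e2 : av (fun p => Φ p ^ 2) ≤ δ := by
      rw [av_prod_type (fun (e' : Fin m → V) (n : X) => Φ (e', n) ^ 2)]
      calc _ ≤ av (fun _ : Fin m → V => δ) := by
            refine av_mono fun e' => ?_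
            exact hreg (fun d => b (Fin.insertNth i d e')) (fun d => hb _)
        _ = δ := av_const _
    have e3 : av (fun p : (Fin m → V) × X => (∏ j, ν p.2 (p.1 j) - 1) * Φ p ^ 2) ≤
        8 * C ^ 2 * √κp := by
      set b' : V → (Fin m → V) → ℝ := fun d e' =>
        b (Fin.insertNth i d e') - T (fun d => b (Fin.insertNth i d e')) d with hb'
      have hb'2 : ∀ d e', |b' d e'| ≤ 2 := by
        intro d e'
        rw [hb']
        have h2 : |T (fun d => b (Fin.insertNth i d e')) d| ≤ 1 := hT2 _ (fun d => hb _) d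
        have h3 := hb (Fin.insertNth i d e')
        have := abs_sub (b (Fin.insertNth i d e')) (T (fun d => b (Fin.insertNth i d e')) d)
        show |b (Fin.insertNth i d e') - T (fun d => b (Fin.insertNth i d e')) d| ≤ 2
        linarith
      have hΦ2 : ∀ e' n, Φ (e', n) = av (fun d => b' d e' * M n d) := by
        intro e' n
        rw [hΦ, hb', hg]
        simp only [mul_sub, sub_mul]
        rw [av_sub, av_sub, hT1]
      have hΦ3 : ∀ e' n, Φ (e', n) ^ 2 = av (fun d' => av (fun d'' =>
          (b' d' e' * M n d') * (b' d'' e' * M n d''))) := by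
        intro e' n
        rw [pow_two, hΦ2, av_mul_av]
      set Ψ : X → V → V → ℝ := fun n d' d'' => av (fun e' : Fin m → V =>
        b' d' e' * b' d'' e' * (∏ j, ν n (e' j) - 1)) with hΨ
      have e4 : av (fun p : (Fin m → V) × X => (∏ j, ν p.2 (p.1 j) - 1) * Φ p ^ 2) =
          av (fun q : (V × V) × X => (M q.2 q.1.1 * M q.2 q.1.2) * Ψ q.2 q.1.1 q.1.2) := by
        rw [av_prod_type (fun (e' : Fin m → V) (n : X) => (∏ j, ν n (e' j) - 1) * Φ (e', n) ^ 2),
          av_prod_type (fun (q : V × V) (n : X) => (M n q.1 * M n q.2) * Ψ n q.1 q.2),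
          av_prod_type (fun (d' d'' : V) => av (fun n => (M n d' * M n d'') * Ψ n d' d''))]
        have e5 : ∀ d' d'' n, (M n d' * M n d'') * Ψ n d' d'' = av (fun e' : Fin m → V =>
            (∏ j, ν n (e' j) - 1) * ((b' d' e' * M n d') * (b' d'' e' * M n d''))) := by
          intro d' d'' n
          rw [hΨ, ← av_mul_left]
          congr 1
          funext e'
          ring
        simp only [e5, hΦ3]
        simp only [← av_mul_left]
        -- left: e', n, d', d'' ; right: d', d'', n, e'
        rw [av_comm (fun (e' : Fin m → V) (n : X) => av (fun d' => av (fun d'' =>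
          (∏ j, ν n (e' j) - 1) * ((b' d' e' * M n d') * (b' d'' e' * M n d'')))))]
        -- right: move n in front
        have e6 : ∀ d', av (fun d'' => av (fun n => av (fun e' : Fin m → V =>
            (∏ j, ν n (e' j) - 1) * ((b' d' e' * M n d') * (b' d'' e' * M n d''))))) =
            av (fun n => av (fun d'' => av (fun e' : Fin m → V =>
            (∏ j, ν n (e' j) - 1) * ((b' d' e' * M n d') * (b' d'' e' * M n d''))))) :=
          fun d' => av_comm _
        simp only [e6]
        rw [av_comm (fun (d' : V) (n : X) => av (fun d'' => av (fun e' : Fin m → V =>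
            (∏ j, ν n (e' j) - 1) * ((b' d' e' * M n d') * (b' d'' e' * M n d'')))))]
        congr 1
        funext n
        rw [av_comm]
        congr 1
        funext d'
        rw [av_comm]
      rw [e4]
      have hww : ∀ q : (V × V) × X, 0 ≤ M q.2 q.1.1 * M q.2 q.1.2 := fun q =>
        mul_nonneg (hPR.nonneg _ _) (hPR.nonneg _ _)
      have hcs := av_cs_weight (fun q : (V × V) × X => M q.2 q.1.1 * M q.2 q.1.2)
        (fun q : (V × V) × X => Ψ q.2 q.1.1 q.1.2) hww
      have hf1 : av (fun q : (V × V) × X => M q.2 q.1.1 * M q.2 q.1.2) ≤ 2 * C ^ 2 := by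
        rw [av_prod_type (fun (q : V × V) (n : X) => M n q.1 * M n q.2),
          av_prod_type (fun (d' d'' : V) => av (fun n => M n d' * M n d''))]
        have e6 : ∀ d', av (fun d'' => av (fun n => M n d' * M n d'')) =
          av (fun n => av (fun d'' => M n d' * M n d'')) := fun d' => av_comm _
        simp only [e6]
        rw [av_comm]
        calc av (fun n => av (fun d' => av (fun d'' => M n d' * M n d''))) =
            av (fun n => (av (fun d => M n d)) ^ 2) := by
              congr 1
              funext n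
              rw [pow_two, av_mul_av]
          _ ≤ av (fun n => C ^ 2 * (av (fun d => ν n d)) ^ 2) := by
              refine av_mono fun n => ?_
              rw [← mul_pow, ← av_mul_left]
              exact pow_le_pow_left₀ (av_nonneg fun d => hPR.nonneg n d)
                (av_mono fun d => hPR.le n d) 2
          _ = C ^ 2 * av (fun n => (av (fun d => ν n d)) ^ 2) := av_mul_left _ _
          _ ≤ C ^ 2 * 2 := mul_le_mul_of_nonneg_left hPR.nu_two (by positivity)
          _ = 2 * C ^ 2 := by ring
      have hf2 : av (fun q : (V × V) × X => M q.2 q.1.1 * M q.2 q.1.2 *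
          Ψ q.2 q.1.1 q.1.2 ^ 2) ≤ 16 * C ^ 2 * κp := by
        rw [av_prod_type (fun (q : V × V) (n : X) => M n q.1 * M n q.2 * Ψ n q.1 q.2 ^ 2),
          av_prod_type (fun (d' d'' : V) => av (fun n => M n d' * M n d'' * Ψ n d' d'' ^ 2))]
        have hps := hPR.pseudo (fun e d' d'' => b' d' e * b' d'' e / 4) (by
          intro e d' d''
          rw [abs_div, abs_mul]
          have h2 := hb'2 d' e
          have h3 := hb'2 d'' e
          have h4 : |b' d' e| * |b' d'' e| ≤ 2 * 2 :=
            mul_le_mul h2 h3 (abs_nonneg _) (by norm_num)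
          rw [abs_of_pos (by norm_num : (0:ℝ) < 4), div_le_one (by norm_num)]
          linarith)
        have e7 : ∀ n d' d'', Ψ n d' d'' = 4 * av (fun e' : Fin m → V =>
            b' d' e' * b' d'' e' / 4 * (∏ j, ν n (e' j) - 1)) := by
          intro n d' d''
          rw [← av_mul_left]
          show av (fun e' : Fin m → V => b' d' e' * b' d'' e' * (∏ j, ν n (e' j) - 1)) = _
          congr 1
          funext e'
          ring
        calc av (fun d' => av (fun d'' => av (fun n => M n d' * M n d'' * Ψ n d' d'' ^ 2))) ≤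
            av (fun d' => av (fun d'' => av (fun n => (16 * C ^ 2) * (ν n d' * ν n d'' *
              (av (fun e' : Fin m → V =>
                b' d' e' * b' d'' e' / 4 * (∏ j, ν n (e' j) - 1))) ^ 2)))) := by
              refine av_mono fun d' => av_mono fun d'' => av_mono fun n => ?_
              rw [e7]
              have h2 : M n d' * M n d'' ≤ (C * ν n d') * (C * ν n d'') :=
                mul_le_mul (hPR.le _ _) (hPR.le _ _) (hPR.nonneg _ _)
                  (mul_nonneg hC0 (hPR.nu_nonneg _ _))
              have h3 := mul_le_mul_of_nonneg_right h2 (sq_nonneg (4 * av (fun e' : Fin m → V =>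
                b' d' e' * b' d'' e' / 4 * (∏ j, ν n (e' j) - 1))))
              refine h3.trans (le_of_eq ?_)
              ring
          _ = 16 * C ^ 2 * av (fun d' => av (fun d'' => av (fun n => (ν n d' * ν n d'' *
              (av (fun e' : Fin m → V =>
                b' d' e' * b' d'' e' / 4 * (∏ j, ν n (e' j) - 1))) ^ 2)))) := by
              simp only [av_mul_left]
          _ ≤ 16 * C ^ 2 * κp := mul_le_mul_of_nonneg_left hps (by positivity)
      have hfin : (av (fun q : (V × V) × X => (M q.2 q.1.1 * M q.2 q.1.2) *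
          Ψ q.2 q.1.1 q.1.2)) ^ 2 ≤ (8 * C ^ 2 * √κp) ^ 2 := by
        refine hcs.trans ?_
        have h8 : 0 ≤ av (fun q : (V × V) × X => M q.2 q.1.1 * M q.2 q.1.2 *
          Ψ q.2 q.1.1 q.1.2 ^ 2) := av_nonneg fun q => mul_nonneg (hww q) (sq_nonneg _)
        calc _ ≤ (2 * C ^ 2) * (16 * C ^ 2 * κp) :=
              mul_le_mul hf1 hf2 h8 (by positivity)
          _ ≤ (8 * C ^ 2 * √κp) ^ 2 := by
              rw [mul_pow, Real.sq_sqrt hκp]
              have : 0 ≤ C ^ 2 * C ^ 2 * κp := by positivity
              nlinarith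
      exact (le_abs_self _).trans (abs_le_of_sq_le_sq hfin (by positivity))
    calc av (fun p => w p * Φ p ^ 2) ≤
        av (fun p => C ^ m * (Φ p ^ 2 + (∏ j, ν p.2 (p.1 j) - 1) * Φ p ^ 2)) := av_mono e1
      _ = C ^ m * (av (fun p => Φ p ^ 2) +
          av (fun p : (Fin m → V) × X => (∏ j, ν p.2 (p.1 j) - 1) * Φ p ^ 2)) := by
          rw [av_mul_left, av_add]
      _ ≤ C ^ m * (δ + 8 * C ^ 2 * √κp) :=
          mul_le_mul_of_nonneg_left (add_le_add e2 e3) (by positivity)
  have hnn : 0 ≤ av (fun p => w p * Φ p ^ 2) := av_nonneg fun p => mul_nonneg (hw0 p) (sq_nonneg _)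
  calc av w * av (fun p => w p * Φ p ^ 2) ≤ (2 * C ^ m) * (C ^ m * (δ + 8 * C ^ 2 * √κp)) :=
        mul_le_mul hA hBd hnn (by positivity)
    _ = 2 * C ^ (2 * m) * (δ + 8 * C ^ 2 * √κp) := by
        rw [two_mul m, pow_add]; ring

end StCloseAux

open StCloseAux in
/-- S1: if `M - T M` is small in the cut norm, for a symmetric contraction `T`, then tuple correlations
of `M` and of `T M` are close on average. -/
theorem close_op (m : ℕ) {X V : Type} [Fintype X] [Nonempty X] [Fintype V] [Nonempty V]
    [DecidableEq V] (T : (V → ℝ) → V → ℝ)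
    (hT1 : ∀ u v : V → ℝ, av (fun d => u d * T v d) = av (fun d => T u d * v d))
    (hT2 : ∀ u : V → ℝ, (∀ d, |u d| ≤ 1) → ∀ d, |T u d| ≤ 1)
    (M ν : X → V → ℝ) (C B κp κ Λ δ : ℝ) (hC : 1 ≤ C) (hδ : 0 ≤ δ) (hκp : 0 ≤ κp)
    (hPR : PR m M ν C B κp κ Λ)
    (hreg : ∀ v : V → ℝ, (∀ d, |v d| ≤ 1) →
        av (fun n => (av (fun d => v d * (M n d - T (M n) d))) ^ 2) ≤ δ) :
    av (fun e : Fin (m + 1) → V => |corr M e - corr (fun n => T (M n)) e|) ≤
      ((m:ℝ) + 1) * √(2 * C ^ (2 * m) * (δ + 8 * C ^ 2 * √κp)) := by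
  classical
  set η : ℝ := √(2 * C ^ (2 * m) * (δ + 8 * C ^ 2 * √κp)) with hη
  have hC0 : 0 < C := by linarith
  have hη0 : 0 ≤ η := Real.sqrt_nonneg _
  have hbase : ∀ (i : Fin (m+1)) (b : (Fin (m+1) → V) → ℝ), (∀ e, |b e| ≤ 1) →
      |A3aux.TT b (fun j n d => if j = i then M n d - T (M n) d else M n d)| ≤ η := by
    intro i b hb
    have h := TT_base T hT1 hT2 M ν C B κp κ Λ δ hC hδ hκp hPR hreg i b hb
    rw [hη]
    exact Real.abs_le_sqrt h
  -- the sign function
  set b : (Fin (m+1) → V) → ℝ := fun e =>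
    (if 0 ≤ corr M e - corr (fun n => T (M n)) e then 1 else -1) with hb
  have hb1 : ∀ e, |b e| ≤ 1 := by
    intro e
    rw [hb]
    simp only
    split_ifs <;> simp
  have h1 : av (fun e : Fin (m + 1) → V => |corr M e - corr (fun n => T (M n)) e|) =
      A3aux.TT b (fun _ => M) - A3aux.TT b (fun _ n => T (M n)) := by
    unfold A3aux.TT
    rw [av_comm (fun (n : X) (e : Fin (m+1) → V) => b e * ∏ j, M n (e j)),
      av_comm (fun (n : X) (e : Fin (m+1) → V) => b e * ∏ j, T (M n) (e j)), ← av_sub]
    congr 1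
    funext e
    rw [av_mul_left, av_mul_left, ← mul_sub]
    show _ = b e * (corr M e - corr (fun n => T (M n)) e)
    rw [hb]
    simp only
    split_ifs with h2
    · rw [abs_of_nonneg h2, one_mul]
    · rw [abs_of_neg (not_le.mp h2)]; ring
  rw [h1, TT_tele]
  have h2 : ∀ i : Fin (m+1), A3aux.TT b (fun j n d => if j = i then M n d - T (M n) d
        else if j < i then T (M n) d else M n d) ≤ η := by
    intro i
    have h3 := TT_bound T hT1 hT2 M η i (hbase i) (univ.filter (fun j => j < i)) (by simp) b hb1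
    simp only [Finset.mem_filter, Finset.mem_univ, true_and] at h3
    exact (abs_le.mp h3).2
  calc _ ≤ ∑ _i : Fin (m+1), η := Finset.sum_le_sum fun i _ => h2 i
    _ = ((m:ℝ) + 1) * η := by
      rw [Finset.sum_const, Finset.card_univ, Fintype.card_fin, nsmul_eq_mul]
      push_cast
      ring

end Pool.Agent.HLT
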