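import Mathlib
import Pool.Agent.HLT.StClose
import Pool.Agent.HLT.APBlock
import Pool.Agent.HLT.VerifyU
import Pool.Agent.HLT.PrimesClass
import Pool.Agent.HLT.ApKernel
import Pool.Agent.HLT.ApPair

set_option autoImplicit false

open Finset Filter

namespace Pool.Agent.HLT

open Pool.Agent.HL26 Pool.Agent.Maynard

namespace StBlockAux

/-! ### the operator `tav` -/

section tav

variable {Q : ℕ} [NeZero Q]

lemma sum_triple (P : Finset (ZMod Q)) (F : ZMod Q → ZMod Q → ZMod Q → ℝ) :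
    ∑ s, ∑ τ ∈ P, ∑ τ' ∈ P, F s τ τ' = ∑ τ ∈ P, ∑ τ' ∈ P, ∑ s, F s τ τ' := by
  rw [Finset.sum_comm]
  refine Finset.sum_congr rfl fun τ _ => ?_
  rw [Finset.sum_comm]

lemma tav_symm (P : Finset (ZMod Q)) (u v : ZMod Q → ℝ) :
    ∑ s, u s * tav P v s = ∑ s, tav P u s * v s := by
  unfold tav
  simp only [mul_div_assoc', div_mul_eq_mul_div]
  rw [← Finset.sum_div, ← Finset.sum_div]
  congr 1
  simp only [Finset.mul_sum, Finset.sum_mul]
  rw [sum_triple, sum_triple, Finset.sum_comm]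
  refine Finset.sum_congr rfl fun τ _ => Finset.sum_congr rfl fun τ' _ => ?_
  rw [← Equiv.sum_comp (Equiv.addRight (τ - τ'))]
  refine Finset.sum_congr rfl fun s _ => ?_
  simp only [Equiv.coe_addRight]
  have h1 : s + (τ - τ') + τ' - τ = s := by ring
  have h2 : s + (τ - τ') = s + τ - τ' := by ring
  rw [h1, h2]

lemma tav_abs_le (P : Finset (ZMod Q)) (u : ZMod Q → ℝ) (hu : ∀ s, |u s| ≤ 1) (s : ZMod Q) :
    |tav P u s| ≤ 1 := by
  unfold tav
  rw [abs_div, abs_of_nonneg (by positivity : (0:ℝ) ≤ (P.card : ℝ) ^ 2)]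
  apply div_le_one_of_le₀ _ (by positivity)
  calc |∑ τ ∈ P, ∑ τ' ∈ P, u (s + τ - τ')| ≤ ∑ τ ∈ P, |∑ τ' ∈ P, u (s + τ - τ')| :=
        Finset.abs_sum_le_sum_abs _ _
    _ ≤ ∑ τ ∈ P, ∑ τ' ∈ P, |u (s + τ - τ')| :=
        Finset.sum_le_sum fun τ _ => Finset.abs_sum_le_sum_abs _ _
    _ ≤ ∑ _τ ∈ P, ∑ _τ' ∈ P, (1:ℝ) :=
        Finset.sum_le_sum fun τ _ => Finset.sum_le_sum fun τ' _ => hu _
    _ = (P.card : ℝ) ^ 2 := by
        simp only [Finset.sum_const, nsmul_eq_mul, mul_one]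
        ring

lemma tav_smul (P : Finset (ZMod Q)) (c : ℝ) (u : ZMod Q → ℝ) (s : ZMod Q) :
    tav P (fun s => c * u s) s = c * tav P u s := by
  unfold tav
  simp only [← Finset.mul_sum, mul_div_assoc]

lemma tav_congr (P : Finset (ZMod Q)) {u v : ZMod Q → ℝ} (h : ∀ s, u s = v s) (s : ZMod Q) :
    tav P u s = tav P v s := by
  have : u = v := funext h
  rw [this]

lemma tav_zero_of (P : Finset (ZMod Q)) (u : ZMod Q → ℝ) (s : ZMod Q)
    (h : ∀ τ ∈ P, ∀ τ' ∈ P, u (s + τ - τ') = 0) : tav P u s = 0 := by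
  unfold tav
  rw [Finset.sum_eq_zero fun τ hτ => Finset.sum_eq_zero fun τ' hτ' => h τ hτ τ' hτ', zero_div]

end tav

/-! ### the quadratic form -/

section quad

variable {Q : ℕ} [NeZero Q]

/-- the defect of the almost period -/
noncomputable def DD (N Q : ℕ) [NeZero Q] (σ : ZMod Q) : ℝ :=
  ∑ s : ZMod Q, ∑ s' : ZMod Q, |gl N Q (s + σ) s' - gl N Q s s'|

lemma gl_comm (N : ℕ) (s s' : ZMod Q) : gl N Q s s' = gl N Q s' s := by
  unfold gl
  congr 1
  exact Finset.sum_congr rfl fun n _ => mul_comm _ _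

lemma DD_sub (N : ℕ) (τ τ' : ZMod Q) : DD N Q (τ - τ') ≤ DD N Q τ + DD N Q τ' := by
  have h1 : DD N Q (τ - τ') = ∑ s : ZMod Q, ∑ s' : ZMod Q, |gl N Q (s + τ) s' - gl N Q (s + τ') s'| := by
    unfold DD
    rw [← Equiv.sum_comp (Equiv.addRight τ')]
    refine Finset.sum_congr rfl fun s _ => Finset.sum_congr rfl fun s' _ => ?_
    simp only [Equiv.coe_addRight]
    have : s + τ' + (τ - τ') = s + τ := by ring
    rw [this]
  rw [h1]
  unfold DD
  rw [← Finset.sum_add_distrib]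
  refine Finset.sum_le_sum fun s _ => ?_
  rw [← Finset.sum_add_distrib]
  refine Finset.sum_le_sum fun s' _ => ?_
  have h2 : gl N Q (s + τ) s' - gl N Q (s + τ') s' =
      (gl N Q (s + τ) s' - gl N Q s s') - (gl N Q (s + τ') s' - gl N Q s s') := by ring
  rw [h2]
  exact abs_sub _ _

lemma quad_shift (N : ℕ) (β : ZMod Q → ℝ) (hβ : ∀ s, |β s| ≤ 1) (σ : ZMod Q) :
    (∑ n ∈ Finset.Ioc N (2 * N), (∑ s, β s * (lam N Q n s - lam N Q n (s + σ))) ^ 2) / N ≤
      2 * DD N Q σ := by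
  have h1 : (∑ n ∈ Finset.Ioc N (2 * N), (∑ s, β s * (lam N Q n s - lam N Q n (s + σ))) ^ 2) / N =
      ∑ s, ∑ s', β s * β s' * (gl N Q s s' - gl N Q (s + σ) s' - gl N Q s (s' + σ) +
        gl N Q (s + σ) (s' + σ)) := by
    have h2 : ∀ n, (∑ s, β s * (lam N Q n s - lam N Q n (s + σ))) ^ 2 =
        ∑ s, ∑ s', β s * β s' * (lam N Q n s * lam N Q n s' - lam N Q n (s + σ) * lam N Q n s' -
          lam N Q n s * lam N Q n (s' + σ) + lam N Q n (s + σ) * lam N Q n (s' + σ)) := by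
      intro n
      rw [pow_two, Finset.sum_mul_sum]
      refine Finset.sum_congr rfl fun s _ => Finset.sum_congr rfl fun s' _ => ?_
      ring
    simp only [h2]
    rw [Finset.sum_comm, Finset.sum_div]
    refine Finset.sum_congr rfl fun s _ => ?_
    rw [Finset.sum_comm, Finset.sum_div]
    refine Finset.sum_congr rfl fun s' _ => ?_
    rw [← Finset.mul_sum, Finset.sum_add_distrib, Finset.sum_sub_distrib, Finset.sum_sub_distrib]
    unfold gl
    ring
  rw [h1]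
  have h3 : ∀ s s', β s * β s' * (gl N Q s s' - gl N Q (s + σ) s' - gl N Q s (s' + σ) +
        gl N Q (s + σ) (s' + σ)) ≤ |gl N Q (s + σ) s' - gl N Q s s'| +
          |gl N Q (s + σ) (s' + σ) - gl N Q s (s' + σ)| := by
    intro s s'
    have h4 : |β s * β s'| ≤ 1 := by
      rw [abs_mul]
      exact mul_le_one₀ (hβ s) (abs_nonneg _) (hβ s')
    refine (le_abs_self _).trans ?_
    rw [abs_mul]
    calc |β s * β s'| * |gl N Q s s' - gl N Q (s + σ) s' - gl N Q s (s' + σ) +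
        gl N Q (s + σ) (s' + σ)| ≤ 1 * |gl N Q s s' - gl N Q (s + σ) s' - gl N Q s (s' + σ) +
        gl N Q (s + σ) (s' + σ)| := mul_le_mul_of_nonneg_right h4 (abs_nonneg _)
      _ = |(gl N Q (s + σ) (s' + σ) - gl N Q s (s' + σ)) - (gl N Q (s + σ) s' - gl N Q s s')| := by
          rw [one_mul]; congr 1; ring
      _ ≤ _ := by
          refine (abs_sub _ _).trans (le_of_eq (add_comm _ _))
  refine (Finset.sum_le_sum fun s _ => Finset.sum_le_sum fun s' _ => h3 s s').trans ?_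
  simp only [Finset.sum_add_distrib]
  have h5 : ∑ s : ZMod Q, ∑ s' : ZMod Q, |gl N Q (s + σ) (s' + σ) - gl N Q s (s' + σ)| = DD N Q σ := by
    unfold DD
    refine Finset.sum_congr rfl fun s _ => ?_
    exact Equiv.sum_comp (Equiv.addRight σ) (fun s' => |gl N Q (s + σ) s' - gl N Q s s'|)
  rw [h5]
  unfold DD
  linarith

lemma quad_tav (N : ℕ) (δ : ℝ) (P : Finset (ZMod Q)) (hP : P.Nonempty)
    (hper : ∀ τ ∈ P, IsPer N Q δ τ) (β : ZMod Q → ℝ) (hβ : ∀ s, |β s| ≤ 1) :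
    (∑ n ∈ Finset.Ioc N (2 * N), (∑ s, β s * (lam N Q n s - tav P (lam N Q n) s)) ^ 2) / N ≤
      4 * δ * (Q:ℝ) ^ 2 := by
  have hPc : (0:ℝ) < P.card := by exact_mod_cast hP.card_pos
  have h1 : ∀ n, (∑ s, β s * (lam N Q n s - tav P (lam N Q n) s)) ^ 2 ≤
      (∑ τ ∈ P, ∑ τ' ∈ P, (∑ s, β s * (lam N Q n s - lam N Q n (s + (τ - τ')))) ^ 2) /
        (P.card : ℝ) ^ 2 := by
    intro n
    have h2 : ∑ s, β s * (lam N Q n s - tav P (lam N Q n) s) =
        (∑ q ∈ P ×ˢ P, ∑ s, β s * (lam N Q n s - lam N Q n (s + (q.1 - q.2)))) /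
          (P.card : ℝ) ^ 2 := by
      rw [Finset.sum_product, ← sum_triple P (fun s τ τ' => β s * (lam N Q n s - lam N Q n (s + (τ - τ')))),
        Finset.sum_div]
      refine Finset.sum_congr rfl fun s _ => ?_
      unfold tav
      rw [eq_div_iff (by positivity)]
      simp only [← Finset.mul_sum, Finset.sum_sub_distrib, Finset.sum_const, nsmul_eq_mul]
      have h3 : ∀ τ τ' : ZMod Q, s + (τ - τ') = s + τ - τ' := fun τ τ' => by ring
      simp only [h3]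
      field_simp
    rw [h2, div_pow]
    have h4 := sq_sum_le_card_mul_sum_sq (s := P ×ˢ P)
      (f := fun q => ∑ s, β s * (lam N Q n s - lam N Q n (s + (q.1 - q.2))))
    rw [Finset.card_product] at h4
    rw [← Finset.sum_product (f := fun q : ZMod Q × ZMod Q =>
      (∑ s, β s * (lam N Q n s - lam N Q n (s + (q.1 - q.2)))) ^ 2)]
    rw [div_le_div_iff₀ (by positivity) (by positivity)]
    push_cast at h4
    have h5 : (0:ℝ) ≤ (P.card : ℝ) ^ 2 := by positivity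
    have := mul_le_mul_of_nonneg_right h4 h5
    nlinarith [this]
  have h6 : ∀ τ ∈ P, ∀ τ' ∈ P, (∑ n ∈ Finset.Ioc N (2 * N),
      (∑ s, β s * (lam N Q n s - lam N Q n (s + (τ - τ')))) ^ 2) / N ≤ 4 * δ * (Q:ℝ) ^ 2 := by
    intro τ hτ τ' hτ'
    refine (quad_shift N β hβ (τ - τ')).trans ?_
    have h7 := DD_sub N τ τ'
    have h8 : DD N Q τ ≤ δ * (Q:ℝ) ^ 2 := hper τ hτ
    have h9 : DD N Q τ' ≤ δ * (Q:ℝ) ^ 2 := hper τ' hτ'
    linarith
  calc (∑ n ∈ Finset.Ioc N (2 * N), (∑ s, β s * (lam N Q n s - tav P (lam N Q n) s)) ^ 2) / N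
      ≤ (∑ n ∈ Finset.Ioc N (2 * N), (∑ τ ∈ P, ∑ τ' ∈ P,
          (∑ s, β s * (lam N Q n s - lam N Q n (s + (τ - τ')))) ^ 2) / (P.card : ℝ) ^ 2) / N :=
        div_le_div_of_nonneg_right (Finset.sum_le_sum fun n _ => h1 n) (Nat.cast_nonneg _)
    _ = (∑ τ ∈ P, ∑ τ' ∈ P, (∑ n ∈ Finset.Ioc N (2 * N),
          (∑ s, β s * (lam N Q n s - lam N Q n (s + (τ - τ')))) ^ 2) / N) / (P.card : ℝ) ^ 2 := by
        rw [← Finset.sum_div, Finset.sum_comm]
        rw [div_right_comm]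
        congr 1
        rw [Finset.sum_div]
        refine Finset.sum_congr rfl fun τ _ => ?_
        rw [Finset.sum_comm, Finset.sum_div]
    _ ≤ (∑ _τ ∈ P, ∑ _τ' ∈ P, 4 * δ * (Q:ℝ) ^ 2) / (P.card : ℝ) ^ 2 :=
        div_le_div_of_nonneg_right (Finset.sum_le_sum fun τ hτ => Finset.sum_le_sum
          fun τ' hτ' => h6 τ hτ τ' hτ') (by positivity)
    _ = 4 * δ * (Q:ℝ) ^ 2 := by
        simp only [Finset.sum_const, nsmul_eq_mul]
        field_simp

end quad

/-! ### classes -/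

section classes

open G1aux

lemma card_VS_exact (w Q : ℕ) (hQ : Wp w ∣ Q) (hQ0 : 0 < Q) (ρ : Finset ℕ)
    (hρ : ∀ r ∈ ρ, r < Wp w) : (VS w (Q - 1) ρ).card = ρ.card * (Q / Wp w) := by
  have hW := G1aux.Wp_pos w
  rw [← Finset.card_range (Q / Wp w), ← Finset.card_product]
  symm
  refine Finset.card_nbij' (fun p => p.1 + Wp w * p.2) (fun d => (d % Wp w, d / Wp w)) ?_ ?_ ?_ ?_
  · rintro ⟨r, q⟩ h
    rw [Finset.mem_coe, Finset.mem_product, Finset.mem_range] at h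
    have h1 := hρ r h.1
    have h2 : Wp w * (Q / Wp w) = Q := Nat.mul_div_cancel' hQ
    have h3 : Wp w * (q + 1) ≤ Wp w * (Q / Wp w) := Nat.mul_le_mul_left _ h.2
    simp only [VS, Finset.coe_filter, Finset.mem_range, Set.mem_ofPred_eq]
    refine ⟨?_, ?_⟩
    · rw [Nat.mul_add] at h3
      omega
    · rw [Nat.add_mul_mod_self_left, Nat.mod_eq_of_lt h1]
      exact h.1
  · intro d h
    simp only [VS, Finset.coe_filter, Finset.mem_range, Set.mem_ofPred_eq] at h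
    rw [Finset.mem_coe, Finset.mem_product, Finset.mem_range]
    refine ⟨h.2, ?_⟩
    simp only
    rw [Nat.div_lt_iff_lt_mul hW, Nat.div_mul_cancel hQ]
    omega
  · rintro ⟨r, q⟩ h
    rw [Finset.mem_coe, Finset.mem_product, Finset.mem_range] at h
    have h1 := hρ r h.1
    simp only at h1 ⊢
    rw [Nat.add_mul_mod_self_left, Nat.mod_eq_of_lt h1, Nat.add_mul_div_left _ _ hW,
      Nat.div_eq_of_lt h1, zero_add]
  · intro d _
    simp only
    exact Nat.mod_add_div d (Wp w)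

lemma card_VS_rho (w Q a : ℕ) (hQ : Wp w ∣ Q) (hQ0 : 0 < Q) :
    ((VS w (Q - 1) (rho w a)).card : ℝ) = cW (Wp w) * Q := by
  have hW := G1aux.Wp_pos w
  rw [card_VS_exact w Q hQ hQ0 _ (fun r hr => (rho_mem w a r hr).1), Nat.cast_mul, rho_card',
    Nat.cast_div hQ (by exact_mod_cast hW.ne')]
  have h : (Wp w : ℝ) ≠ 0 := by exact_mod_cast hW.ne'
  field_simp

variable {Q : ℕ} [NeZero Q]

open Classical in
/-- extension by zero -/
noncomputable def ext (V : Finset ℕ) (u : V → ℝ) (s : ZMod Q) : ℝ :=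
  if h : s.val ∈ V then u ⟨s.val, h⟩ else 0

lemma ext_coe (V : Finset ℕ) (hV : ∀ d ∈ V, d < Q) (u : V → ℝ) (d : V) :
    ext V u ((d : ℕ) : ZMod Q) = u d := by
  have h1 : ((d : ℕ) : ZMod Q).val = d := ZMod.val_cast_of_lt (hV d d.2)
  unfold ext
  rw [dif_pos (by rw [h1]; exact d.2)]
  congr 1
  exact Subtype.ext h1

lemma sum_ext (V : Finset ℕ) (hV : ∀ d ∈ V, d < Q) (u : V → ℝ) (g : ZMod Q → ℝ) :
    ∑ d : V, u d * g ((d : ℕ) : ZMod Q) = ∑ s : ZMod Q, ext V u s * g s := by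
  classical
  have h1 : ∑ d : V, u d * g ((d : ℕ) : ZMod Q) =
      ∑ d : V, (fun s : ZMod Q => ext V u s * g s) ((d : ℕ) : ZMod Q) := by
    refine Finset.sum_congr rfl fun d _ => ?_
    simp only
    rw [ext_coe V hV]
  have hinj : Set.InjOn (fun d : V => ((d : ℕ) : ZMod Q)) ((univ : Finset V) : Set V) := by
    intro d _ d' _ h
    have h2 : ((d : ℕ) : ZMod Q).val = ((d' : ℕ) : ZMod Q).val := congrArg ZMod.val h
    rw [ZMod.val_cast_of_lt (hV d d.2), ZMod.val_cast_of_lt (hV d' d'.2)] at h2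
    exact Subtype.ext h2
  rw [h1, ← Finset.sum_image (f := fun s : ZMod Q => ext V u s * g s) hinj]
  refine Finset.sum_subset (Finset.subset_univ _) fun s _ hs => ?_
  have : ext V u s = 0 := by
    unfold ext
    rw [dif_neg]
    intro h
    apply hs
    rw [Finset.mem_image]
    exact ⟨⟨s.val, h⟩, mem_univ _, by simp⟩
  rw [this, zero_mul]

lemma abs_ext_le (V : Finset ℕ) (u : V → ℝ) (hu : ∀ d, |u d| ≤ 1) (s : ZMod Q) :
    |ext V u s| ≤ 1 := by
  unfold ext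
  split_ifs
  · exact hu _
  · simp

/-- the operator on functions on `V` -/
noncomputable def TV (P : Finset (ZMod Q)) (V : Finset ℕ) (u : V → ℝ) (d : V) : ℝ :=
  tav P (ext V u) ((d : ℕ) : ZMod Q)

lemma TV_symm (P : Finset (ZMod Q)) (V : Finset ℕ) (hV : ∀ d ∈ V, d < Q) (u v : V → ℝ) :
    av (fun d => u d * TV P V v d) = av (fun d => TV P V u d * v d) := by
  unfold av
  congr 1
  unfold TV
  rw [sum_ext V hV u (tav P (ext V v))]
  have h1 : ∑ d : V, tav P (ext V u) ((d : ℕ) : ZMod Q) * v d =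
      ∑ d : V, v d * tav P (ext V u) ((d : ℕ) : ZMod Q) :=
    Finset.sum_congr rfl fun d _ => mul_comm _ _
  rw [h1, sum_ext V hV v (tav P (ext V u)), tav_symm]
  exact Finset.sum_congr rfl fun d _ => mul_comm _ _

lemma TV_abs_le (P : Finset (ZMod Q)) (V : Finset ℕ) (u : V → ℝ) (hu : ∀ d, |u d| ≤ 1) (d : V) :
    |TV P V u d| ≤ 1 := tav_abs_le P _ (abs_ext_le V u hu) _

lemma ext_MM {N w a : ℕ} (hNW : Wp w ≤ N) (n : XS N w a) (s : ZMod Q) :
    ext (VS w (Q - 1) (rho w a)) (MM N w n) s = cW (Wp w) * lam N Q n s := by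
  have hs : s.val ≤ Q - 1 := by
    have := ZMod.val_lt s
    omega
  unfold ext
  by_cases h : s.val ∈ VS w (Q - 1) (rho w a)
  · rw [dif_pos h]
    unfold MM lam
    simp only
    split_ifs
    · rfl
    · rw [mul_zero]
  · rw [dif_neg h]
    unfold lam
    rw [if_neg, mul_zero]
    intro hp
    apply h
    rw [mem_VS_iff]
    have hn := n.2
    unfold XS at hn
    rw [Finset.mem_filter, Finset.mem_Ioc] at hn
    exact ⟨hs, coprime_of_prime hNW hn.1.1 hn.2 hp⟩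

lemma TV_MM {N w a : ℕ} (hNW : Wp w ≤ N) (P : Finset (ZMod Q)) (n : XS N w a)
    (d : VS w (Q - 1) (rho w a)) :
    TV P _ (MM N w n) d = cW (Wp w) * tav P (lam N Q n) ((d : ℕ) : ZMod Q) := by
  unfold TV
  rw [tav_congr P (ext_MM hNW n), tav_smul]

lemma VS_lt (w a : ℕ) : ∀ d ∈ VS w (Q - 1) (rho w a), d < Q := by
  intro d hd
  rw [mem_VS_iff] at hd
  have : 0 < Q := NeZero.pos Q
  omega

/-- the regularity hypothesis -/
lemma reg {N w a : ℕ} (hNW : Wp w ≤ N) (hN2 : 2 * Wp w ≤ N) (hQ : Wp w ∣ Q) (δ : ℝ) (hδ : 0 ≤ δ)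
    (P : Finset (ZMod Q)) (hP : P.Nonempty) (hper : ∀ τ ∈ P, IsPer N Q δ τ)
    (v : VS w (Q - 1) (rho w a) → ℝ) (hv : ∀ d, |v d| ≤ 1) :
    av (fun n : XS N w a => (av (fun d => v d * (MM N w n d - TV P _ (MM N w n) d))) ^ 2) ≤
      8 * Wp w * δ := by
  have hQ0 : 0 < Q := NeZero.pos Q
  have hQR : (0:ℝ) < Q := by exact_mod_cast hQ0
  have hW := G1aux.Wp_pos w
  have hWR : (0:ℝ) < Wp w := by exact_mod_cast hW
  have hφ : 0 < cW (Wp w) := cWW_pos w
  have hN0 : (0:ℝ) < N := by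
    have : 0 < N := by omega
    exact_mod_cast this
  have hX : (N:ℝ) / (2 * Wp w) ≤ ((XS N w a).card : ℝ) := by
    have h1 := (abs_le.1 (card_XS w N a)).1
    have h2 : (1:ℝ) ≤ (N:ℝ) / (2 * Wp w) := by
      rw [le_div_iff₀ (by positivity)]
      have : ((2 * Wp w : ℕ) : ℝ) ≤ N := by exact_mod_cast hN2
      push_cast at this
      linarith
    have h3 : (N:ℝ) / Wp w = 2 * ((N:ℝ) / (2 * Wp w)) := by field_simp
    linarith
  have hX0 : (0:ℝ) < ((XS N w a).card : ℝ) := lt_of_lt_of_le (by positivity) hX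
  set β : ZMod Q → ℝ := ext (VS w (Q - 1) (rho w a)) v with hβdef
  have hβ : ∀ s, |β s| ≤ 1 := abs_ext_le _ v hv
  have hin : ∀ n : XS N w a, av (fun d => v d * (MM N w n d - TV P _ (MM N w n) d)) =
      (∑ s, β s * (lam N Q n s - tav P (lam N Q n) s)) / Q := by
    intro n
    unfold av
    rw [Fintype.card_coe, card_VS_rho w Q a hQ hQ0]
    have h1 : ∀ d : VS w (Q - 1) (rho w a), v d * (MM N w n d - TV P _ (MM N w n) d) =
        v d * (fun s : ZMod Q => cW (Wp w) * (lam N Q n s - tav P (lam N Q n) s))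
          ((d : ℕ) : ZMod Q) := by
      intro d
      rw [TV_MM hNW]
      have h2 : MM N w n d = cW (Wp w) * lam N Q n ((d : ℕ) : ZMod Q) := by
        rw [← ext_MM hNW n, ext_coe _ (VS_lt w a)]
      rw [h2]
      ring
    rw [Finset.sum_congr rfl fun d _ => h1 d, sum_ext _ (VS_lt w a) v
      (fun s : ZMod Q => cW (Wp w) * (lam N Q n s - tav P (lam N Q n) s)), ← hβdef]
    have h3 : ∑ s, β s * (cW (Wp w) * (lam N Q n s - tav P (lam N Q n) s)) =
        cW (Wp w) * ∑ s, β s * (lam N Q n s - tav P (lam N Q n) s) := by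
      rw [Finset.mul_sum]
      exact Finset.sum_congr rfl fun s _ => by ring
    rw [h3]
    field_simp
  simp only [hin]
  unfold av
  rw [Fintype.card_coe, div_le_iff₀ hX0]
  have h4 := quad_tav N δ P hP hper β hβ
  rw [div_le_iff₀ hN0] at h4
  have h5 : ∑ n : XS N w a, ((∑ s, β s * (lam N Q n s - tav P (lam N Q n) s)) / Q) ^ 2 =
      (∑ n ∈ XS N w a, (∑ s, β s * (lam N Q n s - tav P (lam N Q n) s)) ^ 2) / (Q:ℝ) ^ 2 := by
    rw [Finset.sum_coe_sort (XS N w a)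
      (fun n => ((∑ s, β s * (lam N Q n s - tav P (lam N Q n) s)) / Q) ^ 2), Finset.sum_div]
    exact Finset.sum_congr rfl fun n _ => div_pow _ _ _
  rw [h5]
  have h6 : ∑ n ∈ XS N w a, (∑ s, β s * (lam N Q n s - tav P (lam N Q n) s)) ^ 2 ≤
      ∑ n ∈ Finset.Ioc N (2 * N), (∑ s, β s * (lam N Q n s - tav P (lam N Q n) s)) ^ 2 := by
    apply Finset.sum_le_sum_of_subset_of_nonneg
    · exact Finset.filter_subset _ _
    · intro n _ _
      positivity
  rw [div_le_iff₀ (by positivity)]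
  calc ∑ n ∈ XS N w a, (∑ s, β s * (lam N Q n s - tav P (lam N Q n) s)) ^ 2
      ≤ 4 * δ * (Q:ℝ) ^ 2 * N := h6.trans h4
    _ = 8 * Wp w * δ * (N / (2 * Wp w)) * (Q:ℝ) ^ 2 := by field_simp; ring
    _ ≤ 8 * Wp w * δ * ((XS N w a).card : ℝ) * (Q:ℝ) ^ 2 := by gcongr

/-- the sum over one class -/
lemma class_sum (k : ℕ) {N w a : ℕ} (hNW : Wp w ≤ N) (hQ : Wp w ∣ Q) (hX0 : 0 < (XS N w a).card)
    (P : Finset (ZMod Q)) (hPW : ∀ τ ∈ P, Wp w ∣ τ.val) (ε : ℝ)
    (hcl : av (fun e : Fin (k + 1) → VS w (Q - 1) (rho w a) =>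
      |corr (MM N w (S := XS N w a)) e -
        corr (fun n => TV P _ (MM N w (S := XS N w a) n)) e|) ≤ ε) :
    ∑ e : Fin (k + 1) → ZMod Q, |∑ n ∈ XS N w a, ∏ i, lam N Q n (e i) -
      ∑ n ∈ XS N w a, ∏ i, tav P (lam N Q n) (e i)| ≤ ε * (Q:ℝ) ^ (k + 1) * (XS N w a).card := by
  classical
  have hQ0 : 0 < Q := NeZero.pos Q
  have hQR : (0:ℝ) < Q := by exact_mod_cast hQ0
  have hW := G1aux.Wp_pos w
  have hφ : 0 < cW (Wp w) := cWW_pos w
  have hXR : (0:ℝ) < ((XS N w a).card : ℝ) := by exact_mod_cast hX0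
  set V := VS w (Q - 1) (rho w a) with hV
  have hcard : (V.card : ℝ) = cW (Wp w) * Q := card_VS_rho w Q a hQ hQ0
  let ι : (Fin (k + 1) → V) → (Fin (k + 1) → ZMod Q) := fun e i => ((e i : ℕ) : ZMod Q)
  have hι : Set.InjOn ι ((univ : Finset (Fin (k + 1) → V)) : Set (Fin (k + 1) → V)) := by
    intro e _ e' _ h
    funext i
    have h1 : ((e i : ℕ) : ZMod Q).val = ((e' i : ℕ) : ZMod Q).val :=
      congrArg ZMod.val (congrFun h i)
    rw [ZMod.val_cast_of_lt (VS_lt w a _ (e i).2), ZMod.val_cast_of_lt (VS_lt w a _ (e' i).2)] at h1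
    exact Subtype.ext h1
  -- outside `V` both products vanish
  have hmemV : ∀ n ∈ XS N w a, ∀ s : ZMod Q, s.val ∉ V → lam N Q n s = 0 := by
    intro n hn s hs
    have h1 := ext_MM (Q := Q) hNW (⟨n, hn⟩ : XS N w a) s
    unfold ext at h1
    rw [dif_neg hs] at h1
    exact (mul_eq_zero.1 h1.symm).resolve_left hφ.ne'
  have hmod : ∀ (s : ZMod Q) (τ : ZMod Q), Wp w ∣ τ.val → ((s + τ).val ∈ V ↔ s.val ∈ V) := by
    intro s τ hτ
    have h1 : (s + τ).val ≡ s.val [MOD Wp w] := by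
      rw [ZMod.val_add]
      have h2 : (s.val + τ.val) % Q ≡ s.val + τ.val [MOD Wp w] := (Nat.mod_modEq _ Q).of_dvd hQ
      have h3 : s.val + τ.val ≡ s.val + 0 [MOD Wp w] :=
        Nat.ModEq.add_left _ ((Nat.modEq_zero_iff_dvd).2 hτ)
      exact h2.trans h3
    rw [hV, mem_VS_iff, mem_VS_iff]
    have h4 : (s + τ).val ≤ Q - 1 := by have := ZMod.val_lt (s + τ); omega
    have h5 : s.val ≤ Q - 1 := by have := ZMod.val_lt s; omega
    have h6 : (a + (s + τ).val).Coprime (Wp w) ↔ (a + s.val).Coprime (Wp w) := by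
      unfold Nat.Coprime
      rw [(Nat.ModEq.add_left a h1).gcd_eq]
    rw [h6]
    exact ⟨fun h => ⟨h5, h.2⟩, fun h => ⟨h4, h.2⟩⟩
  have htavV : ∀ n ∈ XS N w a, ∀ s : ZMod Q, s.val ∉ V → tav P (lam N Q n) s = 0 := by
    intro n hn s hs
    apply tav_zero_of
    intro τ hτ τ' hτ'
    apply hmemV n hn
    intro h
    apply hs
    have h1 : s + τ - τ' + τ' = s + τ := by ring
    have h2 := (hmod (s + τ - τ') τ' (hPW τ' hτ')).2 h
    rw [h1] at h2
    exact (hmod s τ (hPW τ hτ)).1 h2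
  have hsub : ∑ e : Fin (k + 1) → ZMod Q, |∑ n ∈ XS N w a, ∏ i, lam N Q n (e i) -
      ∑ n ∈ XS N w a, ∏ i, tav P (lam N Q n) (e i)| =
      ∑ e : Fin (k + 1) → V, |∑ n ∈ XS N w a, ∏ i, lam N Q n (ι e i) -
      ∑ n ∈ XS N w a, ∏ i, tav P (lam N Q n) (ι e i)| := by
    rw [← Finset.sum_image (f := fun e : Fin (k + 1) → ZMod Q =>
      |∑ n ∈ XS N w a, ∏ i, lam N Q n (e i) - ∑ n ∈ XS N w a, ∏ i, tav P (lam N Q n) (e i)|) hι]
    symm
    refine Finset.sum_subset (Finset.subset_univ _) fun e _ he => ?_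
    have h1 : ∃ i, (e i).val ∉ V := by
      by_contra hcon
      push Not at hcon
      apply he
      rw [Finset.mem_image]
      refine ⟨fun i => ⟨(e i).val, hcon i⟩, mem_univ _, ?_⟩
      funext i
      simp [ι]
    obtain ⟨i, hi⟩ := h1
    rw [Finset.sum_eq_zero fun n hn => Finset.prod_eq_zero (mem_univ i) (hmemV n hn _ hi),
      Finset.sum_eq_zero fun n hn => Finset.prod_eq_zero (mem_univ i) (htavV n hn _ hi)]
    simp
  rw [hsub]
  have hterm : ∀ e : Fin (k + 1) → V, |∑ n ∈ XS N w a, ∏ i, lam N Q n (ι e i) -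
      ∑ n ∈ XS N w a, ∏ i, tav P (lam N Q n) (ι e i)| =
      ((XS N w a).card : ℝ) / (cW (Wp w)) ^ (k + 1) * |corr (MM N w (S := XS N w a)) e -
        corr (fun n => TV P _ (MM N w (S := XS N w a) n)) e| := by
    intro e
    have h1 : corr (MM N w (S := XS N w a)) e =
        (cW (Wp w)) ^ (k + 1) * (∑ n ∈ XS N w a, ∏ i, lam N Q n (ι e i)) / (XS N w a).card := by
      unfold corr av
      rw [Fintype.card_coe]
      congr 1
      rw [Finset.mul_sum, ← Finset.sum_coe_sort (XS N w a)]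
      refine Finset.sum_congr rfl fun n _ => ?_
      have h2 : ∀ i, MM N w n (e i) = cW (Wp w) * lam N Q n (ι e i) := by
        intro i
        rw [← ext_MM hNW n, ext_coe _ (VS_lt w a)]
      show ∏ i, MM N w n (e i) = _
      rw [Finset.prod_congr rfl fun i _ => h2 i, Finset.prod_mul_distrib, Finset.prod_const,
        Finset.card_univ, Fintype.card_fin]
    have h3 : corr (fun n => TV P _ (MM N w (S := XS N w a) n)) e =
        (cW (Wp w)) ^ (k + 1) * (∑ n ∈ XS N w a, ∏ i, tav P (lam N Q n) (ι e i)) /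
          (XS N w a).card := by
      unfold corr av
      rw [Fintype.card_coe]
      congr 1
      rw [Finset.mul_sum, ← Finset.sum_coe_sort (XS N w a)]
      refine Finset.sum_congr rfl fun n _ => ?_
      show ∏ i, TV P (VS w (Q - 1) (rho w a)) (MM N w n) (e i) = _
      rw [Finset.prod_congr rfl fun i _ => TV_MM hNW P n (e i), Finset.prod_mul_distrib,
        Finset.prod_const, Finset.card_univ, Fintype.card_fin]
    rw [h1, h3]
    rw [← sub_div, ← mul_sub, abs_div, abs_mul, abs_of_pos hXR, abs_of_pos (pow_pos hφ (k + 1))]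
    field_simp
  rw [Finset.sum_congr rfl fun e _ => hterm e, ← Finset.mul_sum]
  unfold av at hcl
  rw [Fintype.card_fun, Fintype.card_coe, Fintype.card_fin] at hcl
  have hVpos : (0:ℝ) < V.card := by rw [hcard]; positivity
  push_cast at hcl
  rw [div_le_iff₀ (by positivity), hcard, mul_pow] at hcl
  calc ((XS N w a).card : ℝ) / (cW (Wp w)) ^ (k + 1) * ∑ e : Fin (k + 1) → V,
        |corr (MM N w (S := XS N w a)) e - corr (fun n => TV P _ (MM N w (S := XS N w a) n)) e|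
      ≤ ((XS N w a).card : ℝ) / (cW (Wp w)) ^ (k + 1) *
        (ε * ((cW (Wp w)) ^ (k + 1) * (Q:ℝ) ^ (k + 1))) := by
        refine mul_le_mul_of_nonneg_left ?_ (by positivity)
        exact hcl
    _ = ε * (Q:ℝ) ^ (k + 1) * (XS N w a).card := by field_simp

end classes

end StBlockAux

open StBlockAux G1aux

/-- S2: for a set `P` of almost periods (multiples of `Wp w`), the correlations of the primes in
`(N, 2N]` are close on average to those of their averages over `P - P`. -/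
theorem block_op (k : ℕ) (hk : 1 ≤ k) (ε : ℝ) (hε : 0 < ε) : ∃ w0 : ℕ, ∀ w : ℕ, w0 ≤ w →
    ∃ δ : ℝ, 0 < δ ∧ ∃ K : ℝ, ∀ A : ℕ, ∀ᶠ N : ℕ in atTop, ∀ (Q : ℕ) [NeZero Q],
    K * Real.log N ≤ Q → (Q:ℝ) ≤ (Real.log N) ^ A → Wp w ∣ Q →
    ∀ P : Finset (ZMod Q), P.Nonempty → (∀ τ ∈ P, Wp w ∣ τ.val ∧ IsPer N Q δ τ) →
      ∑ e : Fin (k + 1) → ZMod Q,
        |(∑ n ∈ Finset.Ioc N (2 * N), ∏ i, lam N Q n (e i)) / N -
          (∑ n ∈ Finset.Ioc N (2 * N), ∏ i, tav P (lam N Q n) (e i)) / N| ≤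
      ε * (Q:ℝ) ^ (k + 1) := by
  have hk1 : (0:ℝ) < (k:ℝ) + 1 := by positivity
  set η : ℝ := ε / ((k:ℝ) + 1) with hη
  have hη0 : 0 < η := by positivity
  set cp : ℝ := (η ^ 2 / 32) ^ 2 with hcpdef
  have hcp : 0 < cp := by positivity
  have hsqcp : √cp = η ^ 2 / 32 := by
    rw [hcpdef, Real.sqrt_sq (by positivity)]
  obtain ⟨C, hC, hPR⟩ := nt_PR_u k hk cp hcp
  have hC0 : 0 < C := by linarith
  obtain ⟨w0, hw0⟩ := hPR 1 one_pos
  refine ⟨w0, fun w hw => ?_⟩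
  obtain ⟨K, hK⟩ := hw0 w hw
  have hW := G1aux.Wp_pos w
  have hWR : (0:ℝ) < Wp w := by exact_mod_cast hW
  set δ : ℝ := η ^ 2 / (4 * C ^ (2 * k)) / (8 * Wp w) with hδdef
  have hδ : 0 < δ := by positivity
  refine ⟨δ, hδ, |K| + 1, fun A => ?_⟩
  have hlogev : ∀ᶠ N : ℕ in atTop, (1 : ℝ) ≤ Real.log N :=
    (Real.tendsto_log_atTop.comp tendsto_natCast_atTop_atTop).eventually_ge_atTop _
  filter_upwards [hK A, eventually_ge_atTop (2 * Wp w), hlogev] with N hN hN2 hlog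
  intro Q _ hKQ hQA hWQ P hP hper
  have hQ0 : 0 < Q := NeZero.pos Q
  have hNW : Wp w ≤ N := by omega
  have hN0 : (0:ℝ) < N := by
    have : 0 < N := by omega
    exact_mod_cast this
  have hQ1 : ((Q - 1 : ℕ) : ℝ) = (Q:ℝ) - 1 := by
    rw [Nat.cast_sub hQ0]; simp
  have h1 : K * Real.log N ≤ ((Q - 1 : ℕ) : ℝ) := by
    rw [hQ1]
    have : K * Real.log N ≤ |K| * Real.log N :=
      mul_le_mul_of_nonneg_right (le_abs_self K) (by linarith)
    linarith
  have h2 : ((Q - 1 : ℕ) : ℝ) ≤ (Real.log N) ^ A := by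
    rw [hQ1]
    linarith
  have hclass : ∀ a : ℕ, ∑ e : Fin (k + 1) → ZMod Q, |∑ n ∈ XS N w a, ∏ i, lam N Q n (e i) -
      ∑ n ∈ XS N w a, ∏ i, tav P (lam N Q n) (e i)| ≤ ε * (Q:ℝ) ^ (k + 1) * (XS N w a).card := by
    intro a
    obtain ⟨hXne, hVne, ⟨ν, hPRν, -⟩, -, -⟩ := hN (Q - 1) h1 h2 a (rho w a) (rho_nonempty w a)
      (rho_mem w a)
    have : Nonempty (XS N w a) := hXne.to_subtype
    have : Nonempty (VS w (Q - 1) (rho w a)) := hVne.to_subtype
    apply class_sum k hNW hWQ hXne.card_pos P (fun τ hτ => (hper τ hτ).1) ε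
    have hδ1 : 0 ≤ 8 * (Wp w : ℝ) * δ := by positivity
    have hκp : 0 ≤ cp / C ^ (4 * k + 4) := by positivity
    have h3 := close_op k (TV P (VS w (Q - 1) (rho w a))) (TV_symm P _ (VS_lt w a)) (TV_abs_le P _)
      (MM N w (S := XS N w a)) ν C 10 (cp / C ^ (4 * k + 4)) 1 _ (8 * Wp w * δ) hC hδ1 hκp hPRν
      (fun v hv => reg hNW (by omega) hWQ δ hδ.le P hP (fun τ hτ => (hper τ hτ).2) v hv)
    refine h3.trans ?_
    have h4 : √(cp / C ^ (4 * k + 4)) = η ^ 2 / 32 / C ^ (2 * k + 2) := by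
      rw [Real.sqrt_div hcp.le, hsqcp]
      congr 1
      rw [show 4 * k + 4 = (2 * k + 2) * 2 by ring, pow_mul, Real.sqrt_sq (by positivity)]
    have h5 : 2 * C ^ (2 * k) * (8 * Wp w * δ + 8 * C ^ 2 * √(cp / C ^ (4 * k + 4))) = η ^ 2 := by
      rw [h4, hδdef]
      have hC2 : C ^ (2 * k + 2) = C ^ (2 * k) * C ^ 2 := by rw [pow_add]
      rw [hC2]
      field_simp
      norm_num
    rw [h5, Real.sqrt_sq hη0.le, hη]
    rw [mul_div_cancel₀ _ hk1.ne']
  have hsumN : ∑ a ∈ Finset.range (Wp w), ((XS N w a).card : ℝ) = N := by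
    rw [← Fin.sum_univ_eq_sum_range (fun a => ((XS N w a).card : ℝ)) (Wp w)]
    exact sum_XS N w
  calc ∑ e : Fin (k + 1) → ZMod Q,
        |(∑ n ∈ Finset.Ioc N (2 * N), ∏ i, lam N Q n (e i)) / N -
          (∑ n ∈ Finset.Ioc N (2 * N), ∏ i, tav P (lam N Q n) (e i)) / N|
      ≤ ∑ e : Fin (k + 1) → ZMod Q, (∑ a ∈ Finset.range (Wp w),
          |∑ n ∈ XS N w a, ∏ i, lam N Q n (e i) -
            ∑ n ∈ XS N w a, ∏ i, tav P (lam N Q n) (e i)|) / N := by
        refine Finset.sum_le_sum fun e _ => ?_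
        rw [← sub_div, abs_div, abs_of_pos hN0]
        refine div_le_div_of_nonneg_right ?_ hN0.le
        rw [ApKaux.sum_classes N w, ApKaux.sum_classes N w, ← Finset.sum_sub_distrib]
        exact Finset.abs_sum_le_sum_abs _ _
    _ = (∑ a ∈ Finset.range (Wp w), ∑ e : Fin (k + 1) → ZMod Q,
          |∑ n ∈ XS N w a, ∏ i, lam N Q n (e i) -
            ∑ n ∈ XS N w a, ∏ i, tav P (lam N Q n) (e i)|) / N := by
        rw [← Finset.sum_div, Finset.sum_comm]
    _ ≤ (∑ a ∈ Finset.range (Wp w), ε * (Q:ℝ) ^ (k + 1) * (XS N w a).card) / N :=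
        div_le_div_of_nonneg_right (Finset.sum_le_sum fun a _ => hclass a) hN0.le
    _ = ε * (Q:ℝ) ^ (k + 1) := by
        rw [← Finset.mul_sum, hsumN]
        field_simp

end Pool.Agent.HLT
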