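import Mathlib
import Pool.Agent.HLT.StDefs
import Pool.Agent.HLT.ApTrunc

set_option autoImplicit false

open Finset Filter

namespace Pool.Agent.HLT

namespace StFourierAux

/-- finite nets of a disc -/
theorem net (Y δ : ℝ) (hδ : 0 < δ) : ∃ N : Finset ℂ, (∀ z ∈ N, ‖z‖ ≤ Y) ∧
    ∀ z : ℂ, ‖z‖ ≤ Y → ∃ w ∈ N, ‖z - w‖ ≤ δ := by
  have hc : IsCompact (Metric.closedBall (0:ℂ) Y) := isCompact_closedBall _ _
  obtain ⟨t, ht, hf, hcov⟩ := hc.finite_cover_balls hδ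
  refine ⟨hf.toFinset, ?_, ?_⟩
  · intro z hz
    have := ht (hf.mem_toFinset.mp hz)
    simpa using this
  · intro z hz
    have h1 := hcov (show z ∈ Metric.closedBall (0:ℂ) Y by simpa using hz)
    simp only [Set.mem_iUnion] at h1
    obtain ⟨w, hw, hzw⟩ := h1
    refine ⟨w, hf.mem_toFinset.mpr hw, ?_⟩
    rw [← dist_eq_norm]
    exact le_of_lt hzw

variable {Q : ℕ} [NeZero Q]

/-- exponential sum over `P` -/
noncomputable def A (P : Finset (ZMod Q)) (ξ : ZMod Q) : ℂ := ∑ τ ∈ P, ZMod.stdAddChar (ξ * τ)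

/-- multiplier of `tav P` -/
noncomputable def K (P : Finset (ZMod Q)) (ξ : ZMod Q) : ℝ := ‖A P ξ‖ ^ 2 / (P.card : ℝ) ^ 2

theorem norm_std (x : ZMod Q) : ‖(ZMod.stdAddChar x : ℂ)‖ = 1 := by
  rw [ZMod.stdAddChar_apply]; exact Circle.norm_coe _

theorem A_norm (P : Finset (ZMod Q)) (ξ : ZMod Q) : ‖A P ξ‖ ≤ P.card := by
  unfold A
  calc ‖∑ τ ∈ P, (ZMod.stdAddChar (ξ * τ) : ℂ)‖ ≤ ∑ τ ∈ P, ‖(ZMod.stdAddChar (ξ * τ) : ℂ)‖ :=
        norm_sum_le _ _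
    _ = P.card := by simp

theorem K_nonneg (P : Finset (ZMod Q)) (ξ : ZMod Q) : 0 ≤ K P ξ := by
  unfold K; positivity

theorem K_le_one (P : Finset (ZMod Q)) (ξ : ZMod Q) : K P ξ ≤ 1 := by
  unfold K
  apply div_le_one_of_le₀ _ (by positivity)
  exact pow_le_pow_left₀ (norm_nonneg _) (A_norm P ξ) 2

theorem conj_A (P : Finset (ZMod Q)) (ξ : ZMod Q) :
    (starRingEnd ℂ) (A P ξ) = ∑ τ ∈ P, ZMod.stdAddChar (-(ξ * τ)) := by
  unfold A
  rw [map_sum]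
  exact Finset.sum_congr rfl fun τ _ => by rw [AddChar.map_neg_eq_conj]

theorem A_eq_fh (P : Finset (ZMod Q)) (ξ : ZMod Q) :
    ‖A P ξ‖ = Q * ‖fh (fun t => if t ∈ P then (1:ℂ) else 0) ξ‖ := by
  have hQ : (Q : ℂ) ≠ 0 := Nat.cast_ne_zero.mpr (NeZero.ne Q)
  have h1 : fh (fun t => if t ∈ P then (1:ℂ) else 0) ξ * (Q : ℂ) = (starRingEnd ℂ) (A P ξ) := by
    unfold fh
    rw [div_mul_cancel₀ _ hQ, conj_A]
    simp only [ite_mul, one_mul, zero_mul]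
    rw [← Finset.sum_filter]
    exact Finset.sum_congr (by ext x; simp) fun _ _ => rfl
  have h2 : ‖A P ξ‖ = ‖(starRingEnd ℂ) (A P ξ)‖ := (RCLike.norm_conj _).symm
  rw [h2, ← h1, norm_mul, Complex.norm_natCast, mul_comm]

theorem K_sum (P : Finset (ZMod Q)) (c : ℝ) (hc : 0 < c) (hP : c * (Q:ℝ) ≤ (P.card : ℝ)) :
    ∑ ξ, K P ξ ≤ 1 / c := by
  have hQ : (0:ℝ) < Q := Nat.cast_pos.mpr (NeZero.pos Q)
  have hP0 : (0:ℝ) < (P.card : ℝ) := lt_of_lt_of_le (by positivity) hP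
  have h1 := fh_parseval (fun t : ZMod Q => if t ∈ P then (1:ℂ) else 0)
  have h2 : ∑ t : ZMod Q, ‖(if t ∈ P then (1:ℂ) else 0)‖ ^ 2 = (P.card : ℝ) := by
    have h3 : ∀ t : ZMod Q, ‖(if t ∈ P then (1:ℂ) else 0)‖ ^ 2 = if t ∈ P then (1:ℝ) else 0 := by
      intro t; split_ifs <;> simp
    rw [Finset.sum_congr rfl fun t _ => h3 t]
    simp
  rw [h2] at h1
  have h4 : ∑ ξ, K P ξ = (Q:ℝ) ^ 2 / (P.card : ℝ) ^ 2 *
      ∑ ξ, ‖fh (fun t : ZMod Q => if t ∈ P then (1:ℂ) else 0) ξ‖ ^ 2 := by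
    rw [Finset.mul_sum]
    refine Finset.sum_congr rfl fun ξ _ => ?_
    unfold K
    rw [A_eq_fh]
    ring
  rw [h4, h1]
  have h5 : (Q:ℝ) ^ 2 / (P.card : ℝ) ^ 2 * ((P.card : ℝ) / Q) = Q / P.card := by
    field_simp
  rw [h5, div_le_div_iff₀ hP0 hc]
  linarith

/-- Fourier expansion of `tav` -/
theorem tav_four (P : Finset (ZMod Q)) (u : ZMod Q → ℝ) (s : ZMod Q) :
    ((tav P u s : ℝ) : ℂ) =
      ∑ ξ, fh (fun t => (u t : ℂ)) ξ * (K P ξ : ℂ) * ZMod.stdAddChar (ξ * s) := by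
  have h1 : ∀ t : ZMod Q, (u t : ℂ) = ∑ ξ, fh (fun t => (u t : ℂ)) ξ * ZMod.stdAddChar (ξ * t) :=
    fun t => fh_inv (fun t => (u t : ℂ)) t
  unfold tav
  push_cast
  have h2 : ∀ τ ∈ P, ∑ τ' ∈ P, (u (s + τ - τ') : ℂ) =
      ∑ ξ, fh (fun t => (u t : ℂ)) ξ * ZMod.stdAddChar (ξ * s) * ZMod.stdAddChar (ξ * τ) *
        (starRingEnd ℂ) (A P ξ) := by
    intro τ _
    rw [Finset.sum_congr rfl fun τ' _ => h1 (s + τ - τ'), Finset.sum_comm]
    refine Finset.sum_congr rfl fun ξ _ => ?_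
    rw [conj_A, Finset.mul_sum]
    refine Finset.sum_congr rfl fun τ' _ => ?_
    have h3 : ξ * (s + τ - τ') = ξ * s + ξ * τ + -(ξ * τ') := by ring
    rw [h3, AddChar.map_add_eq_mul, AddChar.map_add_eq_mul]
    ring
  rw [Finset.sum_congr rfl h2, Finset.sum_comm, Finset.sum_div]
  refine Finset.sum_congr rfl fun ξ _ => ?_
  rw [← Finset.sum_mul, ← Finset.mul_sum]
  have h4 : (∑ τ ∈ P, (ZMod.stdAddChar (ξ * τ) : ℂ)) = A P ξ := rfl
  rw [h4]
  have h5 : A P ξ * (starRingEnd ℂ) (A P ξ) = ((‖A P ξ‖ ^ 2 : ℝ) : ℂ) := by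
    rw [Complex.mul_conj, Complex.normSq_eq_norm_sq]
  have h6 : (K P ξ : ℂ) = ((‖A P ξ‖ ^ 2 : ℝ) : ℂ) / ((P.card : ℂ)) ^ 2 := by
    unfold K; push_cast; rfl
  rw [h6, ← h5]
  ring

/-- Parseval for trigonometric polynomials -/
theorem synth_sq (G : ZMod Q → ℂ) :
    (∑ s, ‖∑ ξ, G ξ * ZMod.stdAddChar (ξ * s)‖ ^ 2) / Q = ∑ ξ, ‖G ξ‖ ^ 2 := by
  have hQ : (0:ℝ) < Q := Nat.cast_pos.mpr (NeZero.pos Q)
  have h1 := fh_parseval G
  have h2 : ∑ s : ZMod Q, ‖fh G s‖ ^ 2 = ∑ s : ZMod Q, ‖fh G (-s)‖ ^ 2 :=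
    (Equiv.sum_comp (Equiv.neg (ZMod Q)) (fun s => ‖fh G s‖ ^ 2)).symm
  have h3 : ∀ s : ZMod Q, ‖fh G (-s)‖ ^ 2 =
      ‖∑ ξ, G ξ * ZMod.stdAddChar (ξ * s)‖ ^ 2 / (Q:ℝ) ^ 2 := by
    intro s
    unfold fh
    rw [norm_div, Complex.norm_natCast, div_pow]
    congr 3
    refine Finset.sum_congr rfl fun ξ _ => ?_
    congr 2
    ring
  rw [h2, Finset.sum_congr rfl fun s _ => h3 s, ← Finset.sum_div] at h1
  rw [div_eq_iff hQ.ne']
  rw [div_eq_div_iff (by positivity) hQ.ne'] at h1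
  have h4 : (∑ s, ‖∑ ξ, G ξ * ZMod.stdAddChar (ξ * s)‖ ^ 2) * (Q:ℝ) =
      ((∑ ξ, ‖G ξ‖ ^ 2) * Q) * Q := by rw [h1]; ring
  exact mul_right_cancel₀ hQ.ne' h4

theorem fh_le (u : ZMod Q → ℝ) (Y : ℝ) (hu : ∀ s, 0 ≤ u s) (hY : (∑ s, u s) / Q ≤ Y)
    (ξ : ZMod Q) : ‖fh (fun t => (u t : ℂ)) ξ‖ ≤ Y := by
  unfold fh
  rw [norm_div, Complex.norm_natCast]
  refine le_trans ?_ hY
  refine div_le_div_of_nonneg_right ?_ (Nat.cast_nonneg _)
  refine le_trans (norm_sum_le _ _) (Finset.sum_le_sum fun t _ => ?_)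
  rw [norm_mul, norm_std, mul_one, Complex.norm_real, Real.norm_of_nonneg (hu t)]

/-- Cauchy-Schwarz for averages -/
theorem av_le (g : ZMod Q → ℝ) (ε : ℝ) (hε : 0 ≤ ε)
    (h : (∑ s, g s ^ 2) / Q ≤ ε ^ 2) : (∑ s, g s) / Q ≤ ε := by
  have hQ : (0:ℝ) < Q := Nat.cast_pos.mpr (NeZero.pos Q)
  have h1 : (∑ s, g s) ^ 2 ≤ (Q:ℝ) * ∑ s, g s ^ 2 := by
    have := sq_sum_le_card_mul_sum_sq (s := (Finset.univ : Finset (ZMod Q))) (f := g)
    rwa [Finset.card_univ, ZMod.card] at this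
  have h2 : ((∑ s, g s) / Q) ^ 2 ≤ ε ^ 2 := by
    refine le_trans ?_ h
    rw [div_pow, div_le_div_iff₀ (by positivity) hQ]
    nlinarith
  exact le_of_sq_le_sq h2 hε

/-- truncation to the large spectrum -/
theorem trunc (P : Finset (ZMod Q)) (c Y η : ℝ) (hc : 0 < c) (hη : 0 < η) (hY : 0 < Y)
    (hP : c * (Q:ℝ) ≤ (P.card : ℝ)) (u : ZMod Q → ℝ) (hu : ∀ s, 0 ≤ u s)
    (huY : (∑ s, u s) / Q ≤ Y) (ε : ℝ) (hε : 0 < ε) (hηε : Y ^ 2 * η / c ≤ ε ^ 2) :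
    (∑ s, ‖((tav P u s : ℝ) : ℂ) - ∑ ξ ∈ Finset.univ.filter (fun ξ => η ≤ K P ξ),
      fh (fun t => (u t : ℂ)) ξ * (K P ξ : ℂ) * ZMod.stdAddChar (ξ * s)‖) / Q ≤ ε := by
  set G : ZMod Q → ℂ := fun ξ => if η ≤ K P ξ then 0 else fh (fun t => (u t : ℂ)) ξ * (K P ξ : ℂ)
    with hG
  have h1 : ∀ s : ZMod Q, ((tav P u s : ℝ) : ℂ) - ∑ ξ ∈ Finset.univ.filter (fun ξ => η ≤ K P ξ),
      fh (fun t => (u t : ℂ)) ξ * (K P ξ : ℂ) * ZMod.stdAddChar (ξ * s) =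
      ∑ ξ, G ξ * ZMod.stdAddChar (ξ * s) := by
    intro s
    rw [tav_four, Finset.sum_filter, ← Finset.sum_sub_distrib]
    refine Finset.sum_congr rfl fun ξ _ => ?_
    rw [hG]
    by_cases h : η ≤ K P ξ
    · simp [h]
    · simp [h]
  rw [Finset.sum_congr rfl fun s _ => by rw [h1 s]]
  refine av_le _ ε hε.le ?_
  rw [synth_sq]
  refine le_trans ?_ hηε
  have h2 : ∀ ξ : ZMod Q, ‖G ξ‖ ^ 2 ≤ Y ^ 2 * η * K P ξ := by
    intro ξ
    have hK := K_nonneg P ξ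
    rw [hG]
    by_cases h : η ≤ K P ξ
    · simp only [h, if_true, norm_zero]
      have h0 : (0:ℝ) ^ 2 = 0 := by norm_num
      rw [h0]
      exact mul_nonneg (mul_nonneg (sq_nonneg _) hη.le) hK
    · simp only [h, if_false]
      rw [norm_mul, mul_pow, Complex.norm_real, Real.norm_of_nonneg hK]
      have h3 := fh_le u Y hu huY ξ
      have h4 : ‖fh (fun t => (u t : ℂ)) ξ‖ ^ 2 ≤ Y ^ 2 := pow_le_pow_left₀ (norm_nonneg _) h3 2
      have h5 : K P ξ ^ 2 ≤ η * K P ξ := by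
        rw [pow_two]
        exact mul_le_mul_of_nonneg_right (not_le.mp h).le hK
      calc ‖fh (fun t => (u t : ℂ)) ξ‖ ^ 2 * K P ξ ^ 2 ≤ Y ^ 2 * (η * K P ξ) :=
            mul_le_mul h4 h5 (by positivity) (by positivity)
        _ = Y ^ 2 * η * K P ξ := by ring
  calc ∑ ξ, ‖G ξ‖ ^ 2 ≤ ∑ ξ, Y ^ 2 * η * K P ξ := Finset.sum_le_sum fun ξ _ => h2 ξ
    _ = Y ^ 2 * η * ∑ ξ, K P ξ := by rw [Finset.mul_sum]
    _ ≤ Y ^ 2 * η * (1 / c) := mul_le_mul_of_nonneg_left (K_sum P c hc hP) (by positivity)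
    _ = Y ^ 2 * η / c := by ring

theorem spec_card (P : Finset (ZMod Q)) (c η : ℝ) (hc : 0 < c) (hη : 0 < η)
    (hP : c * (Q:ℝ) ≤ (P.card : ℝ)) :
    ((Finset.univ.filter (fun ξ => η ≤ K P ξ)).card : ℝ) ≤ 1 / (c * η) := by
  have h1 : ((Finset.univ.filter (fun ξ => η ≤ K P ξ)).card : ℝ) * η ≤ 1 / c := by
    calc ((Finset.univ.filter (fun ξ => η ≤ K P ξ)).card : ℝ) * η
        = ∑ _ξ ∈ Finset.univ.filter (fun ξ => η ≤ K P ξ), η := by
          rw [Finset.sum_const, nsmul_eq_mul]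
      _ ≤ ∑ ξ ∈ Finset.univ.filter (fun ξ => η ≤ K P ξ), K P ξ :=
          Finset.sum_le_sum fun ξ hξ => (Finset.mem_filter.mp hξ).2
      _ ≤ ∑ ξ, K P ξ := Finset.sum_le_sum_of_subset_of_nonneg (Finset.filter_subset _ _)
          (fun ξ _ _ => K_nonneg P ξ)
      _ ≤ 1 / c := K_sum P c hc hP
  rw [le_div_iff₀ (by positivity)]
  have h2 := mul_le_mul_of_nonneg_left h1 hc.le
  have h3 : c * (1 / c) = 1 := by field_simp
  nlinarith

/-- `|a - max 0 b| ≤ |a - b|` for `a ≥ 0` -/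
theorem abs_sub_max (a b : ℝ) (ha : 0 ≤ a) : |a - max 0 b| ≤ |a - b| := by
  rcases le_total 0 b with h | h
  · rw [max_eq_right h]
  · rw [max_eq_left h, sub_zero, abs_of_nonneg ha, abs_of_nonneg (by linarith)]
    linarith

omit [NeZero Q] in
theorem tav_nonneg (P : Finset (ZMod Q)) (u : ZMod Q → ℝ) (hu : ∀ s, 0 ≤ u s) (s : ZMod Q) :
    0 ≤ tav P u s := by
  unfold tav
  exact div_nonneg (Finset.sum_nonneg fun _ _ => Finset.sum_nonneg fun _ _ => hu _) (by positivity)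

end StFourierAux

open StFourierAux

/-- S5: the averages over `P - P` of nonnegative functions of bounded mean are close to a bounded
number of nonnegative parts of trigonometric polynomials with a bounded number of frequencies. -/
theorem tav_net (c Y ε : ℝ) (hc : 0 < c) (hY : 0 < Y) (hε : 0 < ε) : ∃ R : ℕ, ∀ (Q : ℕ) [NeZero Q]
    (P : Finset (ZMod Q)), c * (Q:ℝ) ≤ (P.card : ℝ) →
    ∃ (ξ : Fin R → ZMod Q) (b : Fin R → Fin R → ℂ), (∀ j l, ‖b j l‖ ≤ R) ∧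
      ∀ u : ZMod Q → ℝ, (∀ s, 0 ≤ u s) → (∑ s, u s) / Q ≤ Y →
        ∃ j : Fin R, (∑ s, |tav P u s - tpz ξ (b j) s|) / Q ≤ ε := by
  -- constants
  set η : ℝ := c * (ε / 2) ^ 2 / Y ^ 2 with hη
  have hη0 : 0 < η := by positivity
  obtain ⟨M, hM⟩ := exists_nat_ge (1 / (c * η))
  have hδ0 : 0 < ε / (2 * (M + 1)) := by positivity
  obtain ⟨N, hN1, hN2⟩ := net Y (ε / (2 * (M + 1))) hδ0
  set F : Finset (Fin M → ℂ) := Fintype.piFinset (fun _ => N) with hF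
  obtain ⟨R1, hR1⟩ := exists_nat_ge Y
  refine ⟨M + F.card + R1 + 1, fun Q _ P hP => ?_⟩
  set R := M + F.card + R1 + 1 with hR
  have hQ : (0:ℝ) < Q := Nat.cast_pos.mpr (NeZero.pos Q)
  -- the spectrum
  set Ξ : Finset (ZMod Q) := Finset.univ.filter (fun ξ => η ≤ K P ξ) with hΞ
  have hcard : Ξ.card ≤ M := by
    have h1 := spec_card P c η hc hη0 hP
    exact_mod_cast le_trans h1 hM
  set e : Fin Ξ.card ≃ Ξ := Ξ.equivFin.symm with he
  set ξ : Fin R → ZMod Q := fun l => if h : l.1 < Ξ.card then (e ⟨l.1, h⟩ : ZMod Q) else 0 with hξ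
  set code : Fin R → (Fin M → ℂ) := fun j =>
    if h : j.1 < F.card then ((F.equivFin.symm ⟨j.1, h⟩ : F) : Fin M → ℂ) else 0 with hcode
  set b : Fin R → Fin R → ℂ := fun j l =>
    if h : l.1 < Ξ.card then code j ⟨l.1, lt_of_lt_of_le h hcard⟩ else 0 with hb
  have hcode1 : ∀ j i, ‖code j i‖ ≤ Y := by
    intro j i
    rw [hcode]
    by_cases h : j.1 < F.card
    · simp only [h, dif_pos]
      have h1 : ((F.equivFin.symm ⟨j.1, h⟩ : F) : Fin M → ℂ) ∈ Fintype.piFinset (fun _ => N) :=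
        (F.equivFin.symm ⟨j.1, h⟩).2
      exact hN1 _ (Fintype.mem_piFinset.mp h1 i)
    · simp only [h, dif_neg, not_false_iff, Pi.zero_apply, norm_zero]
      exact hY.le
  have hYR : Y ≤ (R:ℝ) := by
    refine le_trans hR1 ?_
    rw [hR]
    push_cast
    have h1 : (0:ℝ) ≤ M := Nat.cast_nonneg _
    have h2 : (0:ℝ) ≤ (F.card : ℝ) := Nat.cast_nonneg _
    linarith
  refine ⟨ξ, b, ?_, ?_⟩
  · intro j l
    rw [hb]
    by_cases h : l.1 < Ξ.card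
    · simp only [h, dif_pos]
      exact le_trans (hcode1 _ _) hYR
    · simp only [h, dif_neg, not_false_iff, norm_zero]
      exact Nat.cast_nonneg _
  · intro u hu huY
    -- the coefficients
    have hcoef : ∀ x : ZMod Q, ‖fh (fun t => (u t : ℂ)) x * (K P x : ℂ)‖ ≤ Y := by
      intro x
      rw [norm_mul, Complex.norm_real, Real.norm_of_nonneg (K_nonneg P x)]
      calc ‖fh (fun t => (u t : ℂ)) x‖ * K P x ≤ Y * 1 :=
            mul_le_mul (fh_le u Y hu huY x) (K_le_one P x) (K_nonneg P x) hY.le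
        _ = Y := mul_one Y
    choose w hw1 hw2 using hN2
    -- the rounded coefficients
    set f : Fin M → ℂ := fun i =>
      if h : i.1 < Ξ.card then
        w (fh (fun t => (u t : ℂ)) (e ⟨i.1, h⟩ : ZMod Q) * (K P (e ⟨i.1, h⟩ : ZMod Q) : ℂ))
          (hcoef _)
      else w 0 (by simpa using hY.le) with hf
    have hfF : f ∈ F := by
      rw [hF, Fintype.mem_piFinset]
      intro i
      rw [hf]
      by_cases h : i.1 < Ξ.card
      · simp only [h, dif_pos]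
        exact hw1 _ _
      · simp only [h, dif_neg, not_false_iff]
        exact hw1 _ _
    have hj0 : (F.equivFin ⟨f, hfF⟩).1 < R := by
      have := (F.equivFin ⟨f, hfF⟩).2
      omega
    refine ⟨⟨(F.equivFin ⟨f, hfF⟩).1, hj0⟩, ?_⟩
    set j : Fin R := ⟨(F.equivFin ⟨f, hfF⟩).1, hj0⟩ with hj
    have hcj : code j = f := by
      rw [hcode]
      have h1 : j.1 < F.card := (F.equivFin ⟨f, hfF⟩).2
      simp only [h1, dif_pos]
      have h2 : (⟨j.1, h1⟩ : Fin F.card) = F.equivFin ⟨f, hfF⟩ := Fin.ext rfl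
      rw [h2, Equiv.symm_apply_apply]
    have hΞR : Ξ.card ≤ R := by omega
    -- the sum over `Fin R` is a sum over the spectrum
    have hsum : ∀ s : ZMod Q, ∑ l, b j l * ZMod.stdAddChar (ξ l * s) =
        ∑ i : Fin Ξ.card, f ⟨i.1, lt_of_lt_of_le i.2 hcard⟩ *
          ZMod.stdAddChar ((e i : ZMod Q) * s) := by
      intro s
      symm
      refine Fintype.sum_of_injective (Fin.castLE hΞR) (Fin.castLE_injective hΞR) _ _ ?_ ?_
      · intro l hl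
        have h1 : ¬ l.1 < Ξ.card := by
          intro h
          exact hl ⟨⟨l.1, h⟩, Fin.ext rfl⟩
        rw [hb]
        simp only [h1, dif_neg, not_false_iff, zero_mul]
      · intro i
        have h1 : (Fin.castLE hΞR i).1 < Ξ.card := i.2
        rw [hb, hξ]
        simp only [h1, dif_pos, hcj]
        rfl
    have hsum2 : ∀ s : ZMod Q, ∑ x ∈ Ξ, fh (fun t => (u t : ℂ)) x * (K P x : ℂ) *
        ZMod.stdAddChar (x * s) = ∑ i : Fin Ξ.card, fh (fun t => (u t : ℂ)) (e i : ZMod Q) *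
          (K P (e i : ZMod Q) : ℂ) * ZMod.stdAddChar ((e i : ZMod Q) * s) := by
      intro s
      rw [← Finset.sum_coe_sort Ξ (fun x => fh (fun t => (u t : ℂ)) x * (K P x : ℂ) *
        ZMod.stdAddChar (x * s))]
      exact (Equiv.sum_comp e (fun x : Ξ => fh (fun t => (u t : ℂ)) (x : ZMod Q) *
        (K P (x : ZMod Q) : ℂ) * ZMod.stdAddChar ((x : ZMod Q) * s))).symm
    have hdiff : ∀ s : ZMod Q, ‖∑ x ∈ Ξ, fh (fun t => (u t : ℂ)) x * (K P x : ℂ) *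
        ZMod.stdAddChar (x * s) - ∑ l, b j l * ZMod.stdAddChar (ξ l * s)‖ ≤ ε / 2 := by
      intro s
      rw [hsum, hsum2, ← Finset.sum_sub_distrib]
      calc ‖∑ i : Fin Ξ.card, (fh (fun t => (u t : ℂ)) (e i : ZMod Q) *
          (K P (e i : ZMod Q) : ℂ) * ZMod.stdAddChar ((e i : ZMod Q) * s) -
          f ⟨i.1, lt_of_lt_of_le i.2 hcard⟩ * ZMod.stdAddChar ((e i : ZMod Q) * s))‖
          ≤ ∑ i : Fin Ξ.card, ‖fh (fun t => (u t : ℂ)) (e i : ZMod Q) *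
          (K P (e i : ZMod Q) : ℂ) * ZMod.stdAddChar ((e i : ZMod Q) * s) -
          f ⟨i.1, lt_of_lt_of_le i.2 hcard⟩ * ZMod.stdAddChar ((e i : ZMod Q) * s)‖ :=
            norm_sum_le _ _
        _ ≤ ∑ _i : Fin Ξ.card, ε / (2 * (M + 1)) := by
            refine Finset.sum_le_sum fun i _ => ?_
            rw [← sub_mul, norm_mul, norm_std, mul_one]
            rw [hf]
            have h1 : i.1 < Ξ.card := i.2
            simp only [h1, dif_pos]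
            exact hw2 _ _
        _ = Ξ.card * (ε / (2 * (M + 1))) := by
            rw [Finset.sum_const, Finset.card_univ, Fintype.card_fin, nsmul_eq_mul]
        _ ≤ (M + 1) * (ε / (2 * (M + 1))) := by
            refine mul_le_mul_of_nonneg_right ?_ hδ0.le
            have : (Ξ.card : ℝ) ≤ M := by exact_mod_cast hcard
            linarith
        _ = ε / 2 := by
            have : ((M:ℝ) + 1) ≠ 0 := by positivity
            field_simp
    have htr := trunc P c Y η hc hη0 hY hP u hu huY (ε / 2) (by positivity) (by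
      rw [hη]
      have hY' : Y ≠ 0 := hY.ne'
      have hc' : c ≠ 0 := hc.ne'
      have : Y ^ 2 * (c * (ε / 2) ^ 2 / Y ^ 2) / c = (ε / 2) ^ 2 := by field_simp
      rw [this])
    have hpt : ∀ s : ZMod Q, |tav P u s - tpz ξ (b j) s| ≤
        ‖((tav P u s : ℝ) : ℂ) - ∑ x ∈ Ξ, fh (fun t => (u t : ℂ)) x * (K P x : ℂ) *
          ZMod.stdAddChar (x * s)‖ + ε / 2 := by
      intro s
      unfold tpz
      refine le_trans (abs_sub_max _ _ (tav_nonneg P u hu s)) ?_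
      have h1 : tav P u s - (∑ l, b j l * ZMod.stdAddChar (ξ l * s)).re =
          (((tav P u s : ℝ) : ℂ) - ∑ l, b j l * ZMod.stdAddChar (ξ l * s)).re := by
        rw [Complex.sub_re, Complex.ofReal_re]
      rw [h1]
      refine le_trans (Complex.abs_re_le_norm _) ?_
      have h2 : ((tav P u s : ℝ) : ℂ) - ∑ l, b j l * ZMod.stdAddChar (ξ l * s) =
          (((tav P u s : ℝ) : ℂ) - ∑ x ∈ Ξ, fh (fun t => (u t : ℂ)) x * (K P x : ℂ) *
          ZMod.stdAddChar (x * s)) + (∑ x ∈ Ξ, fh (fun t => (u t : ℂ)) x * (K P x : ℂ) *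
          ZMod.stdAddChar (x * s) - ∑ l, b j l * ZMod.stdAddChar (ξ l * s)) := by ring
      rw [h2]
      refine le_trans (norm_add_le _ _) ?_
      exact add_le_add le_rfl (hdiff s)
    have hfin : (∑ s, |tav P u s - tpz ξ (b j) s|) / Q ≤
        (∑ s, ‖((tav P u s : ℝ) : ℂ) - ∑ x ∈ Ξ, fh (fun t => (u t : ℂ)) x * (K P x : ℂ) *
          ZMod.stdAddChar (x * s)‖) / Q + ε / 2 := by
      have h1 : (∑ s : ZMod Q, |tav P u s - tpz ξ (b j) s|) ≤
          (∑ s : ZMod Q, ‖((tav P u s : ℝ) : ℂ) - ∑ x ∈ Ξ, fh (fun t => (u t : ℂ)) x *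
          (K P x : ℂ) * ZMod.stdAddChar (x * s)‖) + Q * (ε / 2) := by
        refine le_trans (Finset.sum_le_sum fun s _ => hpt s) ?_
        rw [Finset.sum_add_distrib, Finset.sum_const, Finset.card_univ, ZMod.card, nsmul_eq_mul]
      calc (∑ s, |tav P u s - tpz ξ (b j) s|) / Q ≤ ((∑ s : ZMod Q, ‖((tav P u s : ℝ) : ℂ) -
          ∑ x ∈ Ξ, fh (fun t => (u t : ℂ)) x *
          (K P x : ℂ) * ZMod.stdAddChar (x * s)‖) + Q * (ε / 2)) / Q :=
            div_le_div_of_nonneg_right h1 hQ.le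
        _ = _ := by field_simp
    linarith

end Pool.Agent.HLT
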