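import Mathlib
import Pool.Agent.HLT.StDefs
import Pool.Agent.HLT.APBlock
import Pool.Agent.HLT.VerifyU
import Pool.Agent.HLT.PrimesClass

set_option autoImplicit false

open Finset Filter

namespace Pool.Agent.HLT

open Pool.Agent.HL26 Pool.Agent.Maynard

namespace StMomentAux

lemma Wp_pos (w : ℕ) : 0 < Wp w := Finset.prod_pos fun p hp => (PPy_prime w p hp).pos

lemma count_coprime (w a t : ℕ) :
    Nat.count (fun k => (a + k).Coprime (Wp w)) (Wp w * t) = (Wp w).totient * t := by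
  induction t with
  | zero => simp
  | succ t ih =>
    rw [Nat.mul_succ, Nat.mul_succ, Nat.count_add, ih]
    congr 1
    rw [← G1aux.rho_card w a, G1aux.rho, Nat.count_eq_card_filter_range]
    congr 1
    refine Finset.filter_congr fun r _ => ?_
    unfold Nat.Coprime
    have h : a + (Wp w * t + r) ≡ a + r [MOD Wp w] := by
      have : Wp w * t + r ≡ 0 + r [MOD Wp w] :=
        Nat.ModEq.add_right r ((Nat.modEq_zero_iff_dvd).2 (Dvd.intro t rfl))
      rw [zero_add] at this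
      exact Nat.ModEq.add_left a this
    rw [Nat.ModEq.gcd_eq h]

lemma card_VS_eq (w a Q : ℕ) (hQ : 0 < Q) (hWQ : Wp w ∣ Q) :
    ((VS w (Q - 1) (G1aux.rho w a)).card : ℝ) = cW (Wp w) * Q := by
  obtain ⟨t, rfl⟩ := hWQ
  have hW := Wp_pos w
  have h1 : VS w (Wp w * t - 1) (G1aux.rho w a) =
      (Finset.range (Wp w * t)).filter (fun k => (a + k).Coprime (Wp w)) := by
    ext e
    rw [G1aux.mem_VS_iff, Finset.mem_filter, Finset.mem_range]
    constructor
    · rintro ⟨h1, h2⟩; exact ⟨by omega, h2⟩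
    · rintro ⟨h1, h2⟩; exact ⟨by omega, h2⟩
  rw [h1, ← Nat.count_eq_card_filter_range, count_coprime]
  unfold cW
  have h : (Wp w : ℝ) ≠ 0 := by exact_mod_cast hW.ne'
  push_cast
  field_simp

/-- the sum over `ZMod Q` as a count -/
lemma sum_lam (N Q n : ℕ) [NeZero Q] : ∑ s, lam N Q n s =
    Real.log N * (((Finset.range Q).filter (fun d => (n + d).Prime)).card : ℝ) := by
  have h1 : ∑ s, lam N Q n s = ∑ d ∈ Finset.range Q, if (n + d).Prime then Real.log N else 0 := by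
    refine Finset.sum_bij (fun s _ => s.val) ?_ ?_ ?_ ?_
    · intro s _
      exact Finset.mem_range.2 (ZMod.val_lt s)
    · intro s _ s' _ h
      exact ZMod.val_injective Q h
    · intro d hd
      rw [Finset.mem_range] at hd
      exact ⟨(d : ZMod Q), Finset.mem_univ _, ZMod.val_cast_of_lt hd⟩
    · intro s _
      rfl
  rw [h1, ← Finset.sum_filter, Finset.sum_const, nsmul_eq_mul, mul_comm]

lemma avg_lam (N w Q a : ℕ) [NeZero Q] (hWN : Wp w ≤ N) (hWQ : Wp w ∣ Q)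
    (n : XS N w a) :
    (∑ s, lam N Q n s) / Q =
      av (fun d : VS w (Q - 1) (G1aux.rho w a) => MM N w n d) := by
  have hQ : 0 < Q := Nat.pos_of_ne_zero (NeZero.ne Q)
  have hQ' : (0:ℝ) < (Q:ℝ) := by exact_mod_cast hQ
  have hc : 0 < cW (Wp w) := G1aux.cWW_pos w
  have hn : N < (n:ℕ) ∧ (n:ℕ) ≡ a [MOD Wp w] := by
    have := n.2
    unfold XS at this
    rw [Finset.mem_filter, Finset.mem_Ioc] at this
    exact ⟨this.1.1, this.2⟩
  rw [sum_lam]
  unfold av
  rw [Fintype.card_coe, card_VS_eq w a Q hQ hWQ]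
  have h1 : ∑ d : VS w (Q - 1) (G1aux.rho w a), MM N w n d =
      (((Finset.range Q).filter (fun d => ((n:ℕ) + d).Prime)).card : ℝ) *
        (cW (Wp w) * Real.log N) := by
    unfold MM
    rw [Finset.sum_coe_sort (VS w (Q - 1) (G1aux.rho w a))
      (fun d : ℕ => if ((n:ℕ) + d).Prime then cW (Wp w) * Real.log N else 0),
      ← Finset.sum_filter, Finset.sum_const, nsmul_eq_mul]
    congr 2
    refine congrArg Finset.card ?_
    ext d
    rw [Finset.mem_filter, Finset.mem_filter, Finset.mem_range, G1aux.mem_VS_iff]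
    constructor
    · rintro ⟨⟨h1, -⟩, h3⟩; exact ⟨by omega, h3⟩
    · rintro ⟨h1, h3⟩
      exact ⟨⟨by omega, G1aux.coprime_of_prime hWN hn.1 hn.2 h3⟩, h3⟩
  rw [h1]
  field_simp

lemma sum_split (N w : ℕ) (f : ℕ → ℝ) :
    ∑ n ∈ Finset.Ioc N (2 * N), f n = ∑ a : Fin (Wp w), ∑ n ∈ XS N w (a : ℕ), f n := by
  have hW := Wp_pos w
  rw [← Finset.sum_fiberwise_of_maps_to (s := Finset.Ioc N (2 * N))
    (t := (Finset.univ : Finset (Fin (Wp w)))) (g := fun n => ⟨n % Wp w, Nat.mod_lt _ hW⟩)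
    (fun _ _ => Finset.mem_univ _)]
  refine Finset.sum_congr rfl fun a _ => ?_
  refine Finset.sum_congr ?_ fun _ _ => rfl
  unfold XS
  refine Finset.filter_congr fun n _ => ?_
  unfold Nat.ModEq
  rw [Fin.ext_iff, Nat.mod_eq_of_lt a.2]

end StMomentAux

open StMomentAux

/-- S3a: moments of the number of primes in windows of length `Q`. -/
theorem lam_moment (m : ℕ) (hm : 1 ≤ m) : ∃ C : ℝ, 1 ≤ C ∧ ∃ w0 : ℕ, ∀ w : ℕ, w0 ≤ w →
    ∃ K : ℝ, ∀ A : ℕ, ∀ᶠ N : ℕ in atTop, ∀ (Q : ℕ) [NeZero Q],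
    K * Real.log N ≤ Q → (Q:ℝ) ≤ (Real.log N) ^ A → Wp w ∣ Q →
    ∀ r : ℕ, 1 ≤ r → r ≤ 2 * m + 2 →
      (∑ n ∈ Finset.Ioc N (2 * N), ((∑ s, lam N Q n s) / Q) ^ r) / N ≤ C := by
  obtain ⟨C, hC, h⟩ := nt_PR_u m hm 1 one_pos
  obtain ⟨w0, hw0⟩ := h 1 one_pos
  have hCp : (1:ℝ) ≤ C ^ (2 * m + 2) := one_le_pow₀ hC
  refine ⟨2 * C ^ (2 * m + 2), by linarith, w0, fun w hw => ?_⟩
  obtain ⟨K, hK⟩ := hw0 w hw
  refine ⟨K + 1, fun A => ?_⟩
  have hlogN : Tendsto (fun N : ℕ => Real.log (N:ℝ)) atTop atTop :=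
    Real.tendsto_log_atTop.comp tendsto_natCast_atTop_atTop
  filter_upwards [hK A, eventually_ge_atTop (Wp w), eventually_ge_atTop 1,
    hlogN.eventually_ge_atTop 1] with N hN hWN hN1 hL1
  intro Q _ hQ1 hQ2 hWQ r hr1 hr2
  have hQ0 : 0 < Q := Nat.pos_of_ne_zero (NeZero.ne Q)
  have hQm : ((Q - 1 : ℕ) : ℝ) = (Q:ℝ) - 1 := by
    rw [Nat.cast_sub hQ0, Nat.cast_one]
  have hN0 : (0:ℝ) < (N:ℝ) := by exact_mod_cast hN1
  rw [div_le_iff₀ hN0, sum_split N w]
  have hclass : ∀ a : Fin (Wp w), ∑ n ∈ XS N w (a : ℕ), ((∑ s, lam N Q n s) / Q) ^ r ≤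
      ((XS N w (a : ℕ)).card : ℝ) * (2 * C ^ (2 * m + 2)) := by
    intro a
    obtain ⟨g1, g2, ⟨ν, g3, g3'⟩, -, -⟩ := hN (Q - 1) (by rw [hQm]; nlinarith)
      (by rw [hQm]; linarith) a (G1aux.rho w a) (G1aux.rho_nonempty w a) (G1aux.rho_mem w a)
    have hXc : (0:ℝ) < ((XS N w (a : ℕ)).card : ℝ) := by exact_mod_cast g1.card_pos
    have hVc : (0:ℝ) < ((VS w (Q - 1) (G1aux.rho w a)).card : ℝ) := by
      exact_mod_cast g2.card_pos
    have h2 := g3' r hr1 hr2
    have hXc' : (0:ℝ) < (Fintype.card (XS N w (a : ℕ)) : ℝ) := by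
      rw [Fintype.card_coe]; exact hXc
    unfold av at h2
    rw [div_le_iff₀ hXc'] at h2
    rw [Fintype.card_coe (XS N w (a : ℕ))] at h2
    have h3 : ∀ n : XS N w (a : ℕ), ((∑ s, lam N Q n s) / Q) ^ r ≤
        C ^ (2 * m + 2) *
          ((∑ d : VS w (Q - 1) (G1aux.rho w a), ν n d) /
            (Fintype.card (VS w (Q - 1) (G1aux.rho w a)) : ℝ)) ^ r := by
      intro n
      rw [avg_lam N w Q a hWN hWQ n]
      have hν0 : 0 ≤ (∑ d : VS w (Q - 1) (G1aux.rho w a), ν n d) /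
          (Fintype.card (VS w (Q - 1) (G1aux.rho w a)) : ℝ) :=
        div_nonneg (Finset.sum_nonneg fun d _ => g3.nu_nonneg n d) (Nat.cast_nonneg _)
      have h4 : av (fun d : VS w (Q - 1) (G1aux.rho w a) => MM N w n d) ≤
          C * ((∑ d : VS w (Q - 1) (G1aux.rho w a), ν n d) /
            (Fintype.card (VS w (Q - 1) (G1aux.rho w a)) : ℝ)) := by
        unfold av
        rw [← mul_div_assoc, Finset.mul_sum]
        exact div_le_div_of_nonneg_right (Finset.sum_le_sum fun d _ => g3.le n d)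
          (Nat.cast_nonneg _)
      have h5 : 0 ≤ av (fun d : VS w (Q - 1) (G1aux.rho w a) => MM N w n d) :=
        div_nonneg (Finset.sum_nonneg fun d _ => g3.nonneg n d) (Nat.cast_nonneg _)
      calc (av (fun d : VS w (Q - 1) (G1aux.rho w a) => MM N w n d)) ^ r
          ≤ (C * ((∑ d : VS w (Q - 1) (G1aux.rho w a), ν n d) /
            (Fintype.card (VS w (Q - 1) (G1aux.rho w a)) : ℝ))) ^ r := pow_le_pow_left₀ h5 h4 r
        _ = C ^ r * ((∑ d : VS w (Q - 1) (G1aux.rho w a), ν n d) /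
            (Fintype.card (VS w (Q - 1) (G1aux.rho w a)) : ℝ)) ^ r := mul_pow _ _ _
        _ ≤ _ := mul_le_mul_of_nonneg_right (pow_le_pow_right₀ hC hr2) (pow_nonneg hν0 r)
    rw [← Finset.sum_coe_sort (XS N w (a : ℕ)) (fun n : ℕ => ((∑ s, lam N Q n s) / (Q:ℝ)) ^ r)]
    calc ∑ n : XS N w (a : ℕ), ((∑ s, lam N Q n s) / (Q:ℝ)) ^ r
        ≤ ∑ n : XS N w (a : ℕ), C ^ (2 * m + 2) *
          ((∑ d : VS w (Q - 1) (G1aux.rho w a), ν n d) /
            (Fintype.card (VS w (Q - 1) (G1aux.rho w a)) : ℝ)) ^ r :=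
          Finset.sum_le_sum fun n _ => h3 n
      _ = C ^ (2 * m + 2) * ∑ n : XS N w (a : ℕ),
          ((∑ d : VS w (Q - 1) (G1aux.rho w a), ν n d) /
            (Fintype.card (VS w (Q - 1) (G1aux.rho w a)) : ℝ)) ^ r := by rw [Finset.mul_sum]
      _ ≤ C ^ (2 * m + 2) * (2 * ((XS N w (a : ℕ)).card : ℝ)) :=
          mul_le_mul_of_nonneg_left h2 (by linarith)
      _ = _ := by ring
  refine (Finset.sum_le_sum fun a _ => hclass a).trans (le_of_eq ?_)
  rw [← Finset.sum_mul, G1aux.sum_XS, mul_comm]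

namespace StMomentAux

lemma class_two (w : ℕ) (hw : 2 ≤ w) (κ : ℝ) (hκ : 0 < κ) (A : ℕ) : ∀ᶠ N : ℕ in atTop,
    ∀ (Q : ℕ) [NeZero Q], (Q:ℝ) ≤ (Real.log N) ^ A → ∀ c : ℕ, c.Coprime (Wp w) → ∀ s : ZMod Q,
      |(∑ n ∈ Finset.Ioc N (2 * N), if n + s.val ≡ c [MOD Wp w] then lam N Q n s else 0) / N -
        1 / ((Wp w).totient : ℝ)| ≤ κ := by
  have hlogN : Tendsto (fun N : ℕ => Real.log (N:ℝ)) atTop atTop :=
    Real.tendsto_log_atTop.comp tendsto_natCast_atTop_atTop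
  filter_upwards [primes_class w hw κ hκ A, eventually_ge_atTop 1,
    hlogN.eventually_ge_atTop 1] with N hN hN1 hL1
  intro Q _ hQ c hc s
  have hW := Wp_pos w
  have hφ : 0 < (Wp w).totient := Nat.totient_pos.2 hW
  have hφ' : (1:ℝ) ≤ ((Wp w).totient : ℝ) := by exact_mod_cast hφ
  have hφ0 : (0:ℝ) < ((Wp w).totient : ℝ) := by linarith
  have hW' : (0:ℝ) < (Wp w : ℝ) := by exact_mod_cast hW
  have hN0 : (0:ℝ) < (N:ℝ) := by exact_mod_cast hN1
  have hL0 : 0 < Real.log N := by linarith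
  set a := c + s.val * (Wp w - 1) with ha
  have has : a + s.val = c + s.val * Wp w := by
    rw [ha]
    obtain ⟨V, hV⟩ : ∃ V, Wp w = V + 1 := ⟨Wp w - 1, by omega⟩
    rw [hV, Nat.add_sub_cancel]
    ring
  have hasc : a + s.val ≡ c [MOD Wp w] := by
    rw [has]
    simp
  have hcop : (a + s.val).Coprime (Wp w) := by
    unfold Nat.Coprime at hc ⊢
    rw [Nat.ModEq.gcd_eq hasc, hc]
  have hd : ((s.val : ℕ) : ℝ) ≤ (Real.log N) ^ A := by
    have h1 : ((s.val : ℕ) : ℝ) ≤ (Q:ℝ) := by exact_mod_cast (ZMod.val_lt s).le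
    linarith
  have h := hN a s.val hd hcop
  have hsum : (∑ n ∈ Finset.Ioc N (2 * N), if n + s.val ≡ c [MOD Wp w] then lam N Q n s else 0) =
      Real.log N * (((XS N w a).filter (fun n => (n + s.val).Prime)).card : ℝ) := by
    unfold lam
    have h1 : ∀ n ∈ Finset.Ioc N (2 * N), (if n + s.val ≡ c [MOD Wp w] then
        (if (n + s.val).Prime then Real.log N else 0) else 0) =
        (if n ≡ a [MOD Wp w] ∧ (n + s.val).Prime then Real.log N else 0) := by
      intro n _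
      have h2 : (n + s.val ≡ c [MOD Wp w]) ↔ (n ≡ a [MOD Wp w]) := by
        constructor
        · intro h3
          exact Nat.ModEq.add_right_cancel' s.val (h3.trans hasc.symm)
        · intro h3
          exact (Nat.ModEq.add_right s.val h3).trans hasc
      by_cases h4 : n ≡ a [MOD Wp w]
      · rw [if_pos (h2.2 h4)]
        simp [h4]
      · rw [if_neg (fun h5 => h4 (h2.1 h5))]
        simp [h4]
    rw [Finset.sum_congr rfl h1, ← Finset.sum_filter, Finset.sum_const, nsmul_eq_mul, mul_comm]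
    congr 2
    unfold XS
    rw [Finset.filter_filter]
  rw [hsum]
  set P : ℝ := (((XS N w a).filter (fun n => (n + s.val).Prime)).card : ℝ) with hP
  have hT : ((N:ℝ) / Wp w) / (cW (Wp w) * Real.log N) = (N:ℝ) / ((Wp w).totient * Real.log N) := by
    unfold cW
    field_simp
  rw [hT] at h
  have e : Real.log N * P / N - 1 / ((Wp w).totient : ℝ) =
      Real.log N / N * (P - (N:ℝ) / ((Wp w).totient * Real.log N)) := by
    field_simp
  rw [e, abs_mul, abs_of_pos (div_pos hL0 hN0)]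
  calc Real.log N / N * |P - (N:ℝ) / ((Wp w).totient * Real.log N)|
      ≤ Real.log N / N * (κ * ((N:ℝ) / ((Wp w).totient * Real.log N))) :=
        mul_le_mul_of_nonneg_left h (div_pos hL0 hN0).le
    _ = κ / (Wp w).totient := by field_simp
    _ ≤ κ := div_le_self hκ.le hφ'

lemma Wp_small (w : ℕ) (hw : w < 2) : Wp w = 1 := by
  unfold Wp
  refine Finset.prod_eq_one fun p hp => ?_
  exfalso
  have h1 := PPy_prime w p hp
  have h2 : p ≤ w := by
    unfold PPy at hp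
    simp only [Finset.mem_filter, Finset.mem_range] at hp
    omega
  have := h1.two_le
  omega

lemma Wp_two : Wp 2 = 2 := by
  have h1 : PPy 2 = {2} := by
    ext p
    unfold PPy
    simp only [Finset.mem_filter, Finset.mem_range, Finset.mem_singleton]
    constructor
    · rintro ⟨h1, h2⟩
      have := h2.two_le
      omega
    · rintro rfl
      exact ⟨by omega, Nat.prime_two⟩
  unfold Wp
  rw [h1, Finset.prod_singleton]

end StMomentAux

/-- S3b: primes in residue classes (uniformly in the shift). -/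
theorem lam_class (w : ℕ) (κ : ℝ) (hκ : 0 < κ) (A : ℕ) : ∀ᶠ N : ℕ in atTop,
    ∀ (Q : ℕ) [NeZero Q], (Q:ℝ) ≤ (Real.log N) ^ A → ∀ c : ℕ, c.Coprime (Wp w) → ∀ s : ZMod Q,
      |(∑ n ∈ Finset.Ioc N (2 * N), if n + s.val ≡ c [MOD Wp w] then lam N Q n s else 0) / N -
        1 / ((Wp w).totient : ℝ)| ≤ κ := by
  rcases le_or_gt 2 w with hw | hw
  · exact class_two w hw κ hκ A
  · filter_upwards [class_two 2 le_rfl κ hκ A, eventually_ge_atTop 2] with N hN hN2
    intro Q _ hQ c _ s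
    have h := hN Q hQ 1 (Nat.coprime_one_left _) s
    rw [Wp_two] at h
    rw [Wp_small w hw]
    have h1 : ∑ n ∈ Finset.Ioc N (2 * N), (if n + s.val ≡ c [MOD 1] then lam N Q n s else 0) =
        ∑ n ∈ Finset.Ioc N (2 * N), (if n + s.val ≡ 1 [MOD 2] then lam N Q n s else 0) := by
      refine Finset.sum_congr rfl fun n hn => ?_
      rw [Finset.mem_Ioc] at hn
      rw [if_pos (Nat.modEq_one)]
      by_cases h2 : n + s.val ≡ 1 [MOD 2]
      · rw [if_pos h2]
      · rw [if_neg h2]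
        unfold lam
        rw [if_neg]
        intro h3
        apply h2
        rcases h3.eq_two_or_odd with h4 | h4
        · omega
        · exact h4
    rw [h1]
    simpa using h

end Pool.Agent.HLT
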