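import Mathlib
import Pool.Agent.HLT.StDefs
import Pool.Agent.HLT.APBlock
import Pool.Agent.HLT.ApShift
import Pool.Agent.HLT.ApKernel

set_option autoImplicit false

open Finset Filter

namespace Pool.Agent.HLT

open Pool.Agent.HL26 Pool.Agent.Maynard

namespace StPerAux

lemma rr2_nonneg (N s s' : ℕ) : 0 ≤ rr N ![s, s'] := by
  have : 0 ≤ (Real.log N) ^ 2 := sq_nonneg _
  unfold rr
  positivity

lemma rr2_diag (A : ℕ) : ∀ᶠ N : ℕ in atTop, ∀ s : ℕ, (s:ℝ) ≤ (Real.log N) ^ A →
    rr N ![s, s] ≤ 2 * Real.log N := by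
  have hw : 2 ≤ 2 := le_rfl
  have hW := ApKaux.XX_approx 2 hw (1 / 2) (by norm_num) A
  have hlogN : Tendsto (fun N : ℕ => Real.log (N:ℝ)) atTop atTop :=
    Real.tendsto_log_atTop.comp tendsto_natCast_atTop_atTop
  filter_upwards [hW, hlogN.eventually_ge_atTop 1, eventually_ge_atTop 2] with N hX hL hN2
  intro s hs
  have hN1 : 1 ≤ N := by omega
  have hN0 : (0:ℝ) < N := by exact_mod_cast hN1
  set L := Real.log (N:ℝ) with hLdef
  have hL0 : 0 < L := by linarith
  have x1 := hX s s hs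
  have hWp : 0 < Wp 2 := Finset.prod_pos fun p hp => (PPy_prime 2 p hp).pos
  have hWp' : (0:ℝ) < (Wp 2 : ℝ) := by exact_mod_cast hWp
  have hc0 : 0 < cW (Wp 2) := cW_pos hWp
  have hRc : ((ApKaux.RR 2 s s).card : ℝ) = (Wp 2 : ℝ) * cW (Wp 2) := by
    rw [ApKaux.card_RR_self]
    unfold cW
    field_simp
  have hTval : (Wp 2 : ℝ) * cW (Wp 2) * (((N:ℝ) / Wp 2) / (cW (Wp 2) * L)) = N / L := by
    field_simp
  rw [hRc, hTval] at x1
  have x2 := (abs_le.1 x1)
  have hXu : ApKaux.XX N 2 s s ≤ 3 / 2 * (N / L) := by linarith [x2.2]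
  have hrr : rr N ![s, s] = L ^ 2 * ApKaux.XX N 2 s s / N := by
    unfold rr ApKaux.XX
    have e1 : (Finset.Ioc N (2 * N)).filter (fun n => ∀ i : Fin 2, (n + ![s, s] i).Prime) =
        (Finset.Ioc N (2 * N)).filter (fun n => (n + s).Prime ∧ (n + s).Coprime (Wp 2)) := by
      refine Finset.filter_congr fun n hn => ?_
      rw [Fin.forall_fin_two]
      simp only [Matrix.cons_val_zero, Matrix.cons_val_one]
      constructor
      · rintro ⟨h1, _⟩
        have hn2 := (Finset.mem_Ioc.1 hn)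
        exact ⟨h1, ApKaux.prime_coprime 2 _ h1 (by omega)⟩
      · rintro ⟨h1, _⟩
        exact ⟨h1, h1⟩
    rw [e1]
    ring
  rw [hrr, div_le_iff₀ hN0]
  calc L ^ 2 * ApKaux.XX N 2 s s ≤ L ^ 2 * (3 / 2 * (N / L)) :=
        mul_le_mul_of_nonneg_left hXu (by positivity)
    _ = 3 / 2 * L * N := by field_simp
    _ ≤ 2 * L * N := by nlinarith

lemma rr2_le_diag (N s s' : ℕ) : rr N ![s, s'] ≤ rr N ![s, s] := by
  unfold rr
  have h : ((Finset.Ioc N (2 * N)).filter (fun n => ∀ i : Fin 2, (n + ![s, s'] i).Prime)).card ≤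
      ((Finset.Ioc N (2 * N)).filter (fun n => ∀ i : Fin 2, (n + ![s, s] i).Prime)).card := by
    apply Finset.card_le_card
    intro n hn
    rw [Finset.mem_filter, Fin.forall_fin_two] at hn ⊢
    exact ⟨hn.1, hn.2.1, hn.2.1⟩
  have h' : (((Finset.Ioc N (2 * N)).filter
      (fun n => ∀ i : Fin 2, (n + ![s, s'] i).Prime)).card : ℝ) ≤
      (((Finset.Ioc N (2 * N)).filter
        (fun n => ∀ i : Fin 2, (n + ![s, s] i).Prime)).card : ℝ) := by exact_mod_cast h
  have hL : 0 ≤ (Real.log N) ^ 2 := sq_nonneg _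
  gcongr

/-- sums over distances -/
lemma sum_dist_le (Q a : ℕ) (ha : a < Q) (f : ℕ → ℝ) (hf : ∀ h, 0 ≤ f h) :
    ∑ s ∈ (Finset.range Q).filter (fun s => s ≠ a), f (Nat.dist a s) ≤
      2 * ∑ h ∈ Finset.Icc 1 Q, f h := by
  classical
  have h1 : ∑ s ∈ (Finset.range Q).filter (fun s => s < a), f (Nat.dist a s) ≤
      ∑ h ∈ Finset.Icc 1 Q, f h := by
    have e : ∑ s ∈ (Finset.range Q).filter (fun s => s < a), f (Nat.dist a s) =
        ∑ h ∈ ((Finset.range Q).filter (fun s => s < a)).image (fun s => a - s), f h := by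
      rw [Finset.sum_image]
      · refine Finset.sum_congr rfl fun s hs => ?_
        have := (Finset.mem_filter.1 hs).2
        rw [Nat.dist_eq_sub_of_le_right this.le]
      · intro x hx y hy hxy
        have h1 := (Finset.mem_filter.1 hx).2
        have h2 := (Finset.mem_filter.1 hy).2
        simp only at hxy
        omega
    rw [e]
    refine Finset.sum_le_sum_of_subset_of_nonneg ?_ (fun h _ _ => hf h)
    intro h hh
    obtain ⟨s, hs, rfl⟩ := Finset.mem_image.1 hh
    have := (Finset.mem_filter.1 hs).2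
    exact Finset.mem_Icc.2 ⟨by omega, by omega⟩
  have h2 : ∑ s ∈ (Finset.range Q).filter (fun s => a < s), f (Nat.dist a s) ≤
      ∑ h ∈ Finset.Icc 1 Q, f h := by
    have e : ∑ s ∈ (Finset.range Q).filter (fun s => a < s), f (Nat.dist a s) =
        ∑ h ∈ ((Finset.range Q).filter (fun s => a < s)).image (fun s => s - a), f h := by
      rw [Finset.sum_image]
      · refine Finset.sum_congr rfl fun s hs => ?_
        have := (Finset.mem_filter.1 hs).2
        rw [Nat.dist_eq_sub_of_le this.le]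
      · intro x hx y hy hxy
        have h1 := (Finset.mem_filter.1 hx).2
        have h2 := (Finset.mem_filter.1 hy).2
        simp only at hxy
        omega
    rw [e]
    refine Finset.sum_le_sum_of_subset_of_nonneg ?_ (fun h _ _ => hf h)
    intro h hh
    obtain ⟨s, hs, rfl⟩ := Finset.mem_image.1 hh
    have h3 := (Finset.mem_filter.1 hs).2
    have h4 := Finset.mem_range.1 (Finset.mem_filter.1 hs).1
    exact Finset.mem_Icc.2 ⟨by omega, by omega⟩
  have h3 : (Finset.range Q).filter (fun s => s ≠ a) =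
      (Finset.range Q).filter (fun s => s < a) ∪ (Finset.range Q).filter (fun s => a < s) := by
    ext s
    simp only [Finset.mem_filter, Finset.mem_union, ne_eq]
    constructor
    · rintro ⟨h1, h2⟩
      rcases lt_or_gt_of_ne h2 with h | h
      · exact Or.inl ⟨h1, h⟩
      · exact Or.inr ⟨h1, h⟩
    · rintro (⟨h1, h2⟩ | ⟨h1, h2⟩)
      · exact ⟨h1, by omega⟩
      · exact ⟨h1, by omega⟩
  have hdisj : Disjoint ((Finset.range Q).filter (fun s => s < a))
      ((Finset.range Q).filter (fun s => a < s)) := by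
    rw [Finset.disjoint_left]
    intro s hs hs'
    have h1 := (Finset.mem_filter.1 hs).2
    have h2 := (Finset.mem_filter.1 hs').2
    omega
  rw [h3, Finset.sum_union hdisj]
  linarith

lemma row_le : ∃ C : ℝ, 0 < C ∧ ∀ A : ℕ, ∀ᶠ N : ℕ in atTop, ∀ Q a : ℕ, a < Q →
    (Q:ℝ) ≤ (Real.log N) ^ A →
      ∑ s ∈ Finset.range Q, rr N ![a, s] ≤ C * Q + 2 * Real.log N := by
  obtain ⟨C1, hC1, hr⟩ := ApKaux.rr_le_sing
  obtain ⟨C2, hC2, hs⟩ := ApKaux.sum_sing_sq
  refine ⟨2 * C1 * (1 + 2 * C2) + 2, by positivity, fun A => ?_⟩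
  filter_upwards [hr, ApKaux.rr_near A 1 one_pos, rr2_diag A] with N h1 h2 h3
  intro Q a ha hQ
  have ha' : (a:ℝ) ≤ (Real.log N) ^ A := by
    refine le_trans ?_ hQ
    exact_mod_cast ha.le
  have hQ1 : (1:ℝ) ≤ Q := by
    have : 1 ≤ Q := by omega
    exact_mod_cast this
  have hsplit : ∑ s ∈ Finset.range Q, rr N ![a, s] =
      ∑ s ∈ (Finset.range Q).filter (fun s => s ≠ a), rr N ![a, s] + rr N ![a, a] := by
    rw [← Finset.sum_filter_add_sum_filter_not (Finset.range Q) (fun s => s ≠ a)]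
    congr 1
    have : (Finset.range Q).filter (fun s => ¬ s ≠ a) = {a} := by
      ext s
      simp only [Finset.mem_filter, Finset.mem_range, not_not, Finset.mem_singleton]
      constructor
      · exact fun h => h.2
      · rintro rfl
        exact ⟨ha, rfl⟩
    rw [this, Finset.sum_singleton]
  have hoff : ∑ s ∈ (Finset.range Q).filter (fun s => s ≠ a), rr N ![a, s] ≤
      ∑ s ∈ (Finset.range Q).filter (fun s => s ≠ a),
        (fun h => C1 * (1 + singularSeries {0, h} ^ 2)) (Nat.dist a s) + 2 * Q := by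
    have hc : ∑ s ∈ (Finset.range Q).filter (fun s => s ≠ a), (2:ℝ) ≤ 2 * Q := by
      rw [Finset.sum_const, nsmul_eq_mul]
      have : ((Finset.range Q).filter (fun s => s ≠ a)).card ≤ Q := by
        refine (Finset.card_filter_le _ _).trans ?_
        rw [Finset.card_range]
      have : (((Finset.range Q).filter (fun s => s ≠ a)).card : ℝ) ≤ Q := by exact_mod_cast this
      linarith
    refine le_trans ?_ (add_le_add_right hc _)
    rw [← Finset.sum_add_distrib]
    refine Finset.sum_le_sum fun s hs' => ?_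
    have hsa := (Finset.mem_filter.1 hs').2
    have hsQ := Finset.mem_range.1 (Finset.mem_filter.1 hs').1
    have hs'' : (s:ℝ) ≤ (Real.log N) ^ A := by
      refine le_trans ?_ hQ
      exact_mod_cast hsQ.le
    have g1 := (abs_le.1 (h2 a s ha' hs'')).2
    have hd : 1 ≤ Nat.dist a s := Nat.dist_pos_of_ne (fun h => hsa h.symm)
    have g2 := h1 _ hd
    have g3 := singularSeries_nonneg ({0, Nat.dist a s} : Finset ℕ)
    have g4 : singularSeries {0, Nat.dist a s} ≤ 1 + singularSeries {0, Nat.dist a s} ^ 2 := by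
      nlinarith [sq_nonneg (singularSeries {0, Nat.dist a s} - 1)]
    have g5 : C1 * singularSeries {0, Nat.dist a s} ≤
        C1 * (1 + singularSeries {0, Nat.dist a s} ^ 2) := mul_le_mul_of_nonneg_left g4 hC1.le
    simp only
    linarith
  have hsum := sum_dist_le Q a ha (fun h => C1 * (1 + singularSeries {0, h} ^ 2))
    (fun _ => by positivity)
  have hsq := hs Q
  have htot : ∑ h ∈ Finset.Icc 1 Q, (fun h => C1 * (1 + singularSeries {0, h} ^ 2)) h ≤
      C1 * (Q + C2 * (Q + 1)) := by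
    simp only
    rw [← Finset.mul_sum, Finset.sum_add_distrib, Finset.sum_const, Nat.card_Icc, nsmul_eq_mul]
    have h8 : ((Q + 1 - 1 : ℕ) : ℝ) = Q := by simp
    rw [h8, mul_one]
    exact mul_le_mul_of_nonneg_left (by linarith) hC1.le
  have hdg := h3 a ha'
  rw [hsplit]
  have hC12 : 0 ≤ C1 * C2 := by positivity
  have : C1 * (Q + C2 * (Q + 1)) ≤ C1 * (1 + 2 * C2) * Q := by nlinarith
  nlinarith

lemma gl_eq (N Q : ℕ) (s s' : ZMod Q) : gl N Q s s' = rr N ![s.val, s'.val] := by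
  unfold gl rr lam
  congr 1
  have h1 : ∀ n, (if (n + s.val).Prime then Real.log N else 0) *
      (if (n + s'.val).Prime then Real.log N else 0) =
      if (∀ i : Fin 2, (n + ![s.val, s'.val] i).Prime) then (Real.log N) ^ 2 else 0 := by
    intro n
    by_cases h : (n + s.val).Prime
    · by_cases h' : (n + s'.val).Prime
      · rw [if_pos h, if_pos h', if_pos, sq]
        rw [Fin.forall_fin_two]
        exact ⟨h, h'⟩
      · rw [if_neg h', mul_zero, if_neg (fun hh => h' (hh 1))]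
    · rw [if_neg h, zero_mul, if_neg (fun hh => h (hh 0))]
  simp only [h1]
  rw [← Finset.sum_filter, Finset.sum_const, nsmul_eq_mul]

/-- the part of the model error in which the first entry is `y` -/
noncomputable def slab2 (H : ℕ) (F : (Fin 2 → ℕ) → ℝ) (y : ℕ) : ℝ :=
  ∑ s ∈ (Finset.range (H + 1)).filter (fun s => s ≠ y), F ![y, s]

lemma slab2_nonneg (H : ℕ) (F : (Fin 2 → ℕ) → ℝ) (hF : ∀ e, 0 ≤ F e) (y : ℕ) :
    0 ≤ slab2 H F y := Finset.sum_nonneg fun _ _ => hF _

open Classical in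
lemma sum_slab2_le (H : ℕ) (F : (Fin 2 → ℕ) → ℝ) (hF : ∀ e, 0 ≤ F e) :
    ∑ y ∈ Finset.range (H + 1), slab2 H F y ≤
      ∑ e ∈ (box 2 H).filter (fun e => Function.Injective e), F e := by
  unfold slab2
  rw [Finset.sum_sigma']
  have hinj : ∀ x ∈ (Finset.range (H + 1)).sigma
      (fun y => (Finset.range (H + 1)).filter (fun s => s ≠ y)),
      ∀ x' ∈ (Finset.range (H + 1)).sigma
      (fun y => (Finset.range (H + 1)).filter (fun s => s ≠ y)),
      (![x.1, x.2] : Fin 2 → ℕ) = ![x'.1, x'.2] → x = x' := by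
    rintro ⟨a, b⟩ _ ⟨c, d⟩ _ h
    have h0 := congrFun h 0
    have h1 := congrFun h 1
    simp only [Matrix.cons_val_zero, Matrix.cons_val_one] at h0 h1
    subst h0
    subst h1
    rfl
  rw [← Finset.sum_image (g := fun x : (Σ _ : ℕ, ℕ) => (![x.1, x.2] : Fin 2 → ℕ)) (f := F)
    (fun x hx x' hx' h => hinj x hx x' hx' h)]
  refine Finset.sum_le_sum_of_subset_of_nonneg ?_ (fun e _ _ => hF e)
  intro e he
  obtain ⟨⟨a, b⟩, hab, rfl⟩ := Finset.mem_image.1 he
  simp only [Finset.mem_sigma, Finset.mem_filter, Finset.mem_range] at hab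
  rw [Finset.mem_filter]
  refine ⟨?_, ?_⟩
  · unfold box
    rw [Fintype.mem_piFinset, Fin.forall_fin_two]
    simp only [Matrix.cons_val_zero, Matrix.cons_val_one, Finset.mem_range]
    exact ⟨hab.1, hab.2.1⟩
  · intro i j hij
    fin_cases i <;> fin_cases j
    · rfl
    · simp only [Fin.zero_eta, Matrix.cons_val_zero, Fin.mk_one, Matrix.cons_val_one] at hij
      exact absurd hij.symm hab.2.2
    · simp only [Fin.zero_eta, Matrix.cons_val_zero, Fin.mk_one, Matrix.cons_val_one] at hij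
      exact absurd hij hab.2.2
    · rfl

/-- comparison of two rows with the same colour -/
lemma rows_close {N Q J : ℕ} {χ : ℕ → Fin J} {g : (Fin 2 → Fin J) → ℝ} {y y' T : ℕ} {B E : ℝ}
    (hχ : χ y = χ y') (hE : 0 ≤ E)
    (hd : ∀ a b : ℕ, a = y ∨ a = y' → rr N ![a, b] ≤ E)
    (h1 : slab2 (3 * Q) (fun e => |rr N e - g (fun i => χ (e i))|) y ≤ B)
    (h2 : slab2 (3 * Q) (fun e => |rr N e - g (fun i => χ (e i))|) y' ≤ B)
    (hT : T ≤ 2 * Q + 1) :
    ∑ u ∈ Finset.Ico T (T + Q), |rr N ![y', u] - rr N ![y, u]| ≤ 2 * B + 2 * E := by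
  classical
  set F : (Fin 2 → ℕ) → ℝ := fun e => |rr N e - g (fun i => χ (e i))| with hF
  have hF0 : ∀ e, 0 ≤ F e := fun e => abs_nonneg _
  have hpt : ∀ u ∈ Finset.Ico T (T + Q), |rr N ![y', u] - rr N ![y, u]| ≤
      ((if u ≠ y' then F ![y', u] else 0) + (if u ≠ y then F ![y, u] else 0)) +
        ((if u = y' then E else 0) + (if u = y then E else 0)) := by
    intro u _
    have k1 : F ![y', u] = |rr N ![y', u] - g (fun i => χ (![y', u] i))| := rfl
    have k2 : F ![y, u] = |rr N ![y, u] - g (fun i => χ (![y, u] i))| := rfl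
    have k3 : (fun i => χ ((![y', u] : Fin 2 → ℕ) i)) = fun i => χ ((![y, u] : Fin 2 → ℕ) i) := by
      funext i
      fin_cases i
      · simp [hχ]
      · simp
    have e1 := hd y' u (Or.inr rfl)
    have e2 := hd y u (Or.inl rfl)
    have e3 := rr2_nonneg N y' u
    have e4 := rr2_nonneg N y u
    have hab : |rr N ![y', u] - rr N ![y, u]| ≤ E := by
      rw [abs_le]
      constructor <;> linarith
    have n1 : 0 ≤ (if u ≠ y' then F ![y', u] else 0) := by
      split_ifs
      · exact hF0 _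
      · exact le_rfl
    have n2 : 0 ≤ (if u ≠ y then F ![y, u] else 0) := by
      split_ifs
      · exact hF0 _
      · exact le_rfl
    by_cases hu' : u = y'
    · rw [if_pos hu']
      have : 0 ≤ (if u = y then E else 0) := by
        split_ifs
        · exact hE
        · exact le_rfl
      linarith
    · by_cases hu : u = y
      · rw [if_neg hu', if_pos hu]
        linarith
      · rw [if_neg hu', if_neg hu, if_pos hu', if_pos hu, k1, k2, k3]
        have := abs_sub_le (rr N ![y', u]) (g (fun i => χ ((![y, u] : Fin 2 → ℕ) i)))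
          (rr N ![y, u])
        rw [abs_sub_comm (g (fun i => χ ((![y, u] : Fin 2 → ℕ) i))) (rr N ![y, u])] at this
        linarith
  refine (Finset.sum_le_sum hpt).trans ?_
  rw [Finset.sum_add_distrib, Finset.sum_add_distrib, Finset.sum_add_distrib]
  have hsub : ∀ z, ∑ u ∈ Finset.Ico T (T + Q), (if u ≠ z then F ![z, u] else 0) ≤
      slab2 (3 * Q) F z := by
    intro z
    rw [← Finset.sum_filter]
    unfold slab2
    refine Finset.sum_le_sum_of_subset_of_nonneg ?_ (fun u _ _ => hF0 _)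
    intro u hu
    rw [Finset.mem_filter, Finset.mem_Ico] at hu
    rw [Finset.mem_filter, Finset.mem_range]
    exact ⟨by omega, hu.2⟩
  have hone : ∀ z, ∑ u ∈ Finset.Ico T (T + Q), (if u = z then E else 0) ≤ E := by
    intro z
    rw [Finset.sum_ite_eq']
    split_ifs
    · exact le_rfl
    · exact hE
  have a1 := hsub y'
  have a2 := hsub y
  have a3 := hone y'
  have a4 := hone y
  linarith

/-- the almost period -/
lemma isPer_of {N Q J : ℕ} [NeZero Q] {χ : ℕ → Fin J} {g : (Fin 2 → Fin J) → ℝ} {y τ : ℕ}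
    {κ B R E δ θ : ℝ} (hκ : 0 ≤ κ) (hE : 0 ≤ E) (hB : 0 ≤ B)
    (hy : Q ≤ y) (hyτ : y + τ < 2 * Q) (hτQ : τ < Q) (hτ : (τ:ℝ) ≤ θ * Q)
    (hχ : χ y = χ (y + τ))
    (hd : ∀ a b : ℕ, a = y ∨ a = y + τ → rr N ![a, b] ≤ E)
    (h1 : slab2 (3 * Q) (fun e => |rr N e - g (fun i => χ (e i))|) y ≤ B)
    (h2 : slab2 (3 * Q) (fun e => |rr N e - g (fun i => χ (e i))|) (y + τ) ≤ B)
    (hsh : ∀ (e : Fin 2 → ℕ) (t : ℕ), t ≤ 2 * Q → |rr N (fun i => e i + t) - rr N e| ≤ κ)
    (hrow : ∀ a < Q, ∑ s ∈ Finset.range Q, rr N ![a, s] ≤ R)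
    (htot : Q * (2 * κ * Q + (2 * B + 2 * E)) + θ * Q * (2 * R) ≤ δ * (Q:ℝ) ^ 2) :
    IsPer N Q δ (τ : ZMod Q) := by
  classical
  have hτv : ((τ : ZMod Q)).val = τ := ZMod.val_cast_of_lt hτQ
  have hR : 0 ≤ R := by
    have := hrow 0 (NeZero.pos Q)
    exact (Finset.sum_nonneg fun s _ => rr2_nonneg N 0 s).trans this
  -- rows
  have hsumval : ∀ f : ℕ → ℝ, ∑ s : ZMod Q, f s.val = ∑ s ∈ Finset.range Q, f s := by
    intro f
    refine Finset.sum_bij' (fun (s : ZMod Q) _ => s.val) (fun (n : ℕ) _ => (n : ZMod Q))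
      ?_ ?_ ?_ ?_ ?_
    · intro s _
      exact Finset.mem_range.2 (ZMod.val_lt s)
    · intro n _
      exact Finset.mem_univ _
    · intro s _
      exact ZMod.natCast_zmod_val s
    · intro n hn
      exact ZMod.val_cast_of_lt (Finset.mem_range.1 hn)
    · intro s _
      rfl
  have hgood : ∀ s : ZMod Q, s.val + τ < Q →
      ∑ s' : ZMod Q, |gl N Q (s + τ) s' - gl N Q s s'| ≤ 2 * κ * Q + (2 * B + 2 * E) := by
    intro s hs
    have hv : (s + (τ : ZMod Q)).val = s.val + τ := by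
      rw [ZMod.val_add, hτv, Nat.mod_eq_of_lt hs]
    have hsQ := ZMod.val_lt s
    obtain ⟨t, ht⟩ : ∃ t, t = y - s.val := ⟨_, rfl⟩
    have hst : s.val + t = y := by omega
    have hterm : ∀ s' : ZMod Q, |gl N Q (s + τ) s' - gl N Q s s'| ≤
        (fun u => |rr N ![y + τ, u + t] - rr N ![y, u + t]| + 2 * κ) s'.val := by
      intro s'
      rw [gl_eq, gl_eq, hv]
      have k1 := hsh ![s.val + τ, s'.val] t (by omega)
      have k2 := hsh ![s.val, s'.val] t (by omega)
      have e1 : (fun i => (![s.val + τ, s'.val] : Fin 2 → ℕ) i + t) = ![y + τ, s'.val + t] := by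
        funext i
        fin_cases i
        · simp only [Fin.zero_eta, Matrix.cons_val_zero]
          omega
        · simp
      have e2 : (fun i => (![s.val, s'.val] : Fin 2 → ℕ) i + t) = ![y, s'.val + t] := by
        funext i
        fin_cases i
        · simp only [Fin.zero_eta, Matrix.cons_val_zero]
          omega
        · simp
      rw [e1] at k1
      rw [e2] at k2
      simp only
      have j1 := abs_le.1 k1
      have j2 := abs_le.1 k2
      have j3 := abs_le.1 (le_refl |rr N ![y + τ, s'.val + t] - rr N ![y, s'.val + t]|)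
      rw [abs_le]
      constructor <;> linarith [j1.1, j1.2, j2.1, j2.2, j3.1, j3.2]
    refine (Finset.sum_le_sum fun s' _ => hterm s').trans ?_
    rw [hsumval (fun u => |rr N ![y + τ, u + t] - rr N ![y, u + t]| + 2 * κ),
      Finset.sum_add_distrib, Finset.sum_const, Finset.card_range, nsmul_eq_mul]
    have hshift : ∑ u ∈ Finset.range Q, |rr N ![y + τ, u + t] - rr N ![y, u + t]| =
        ∑ u ∈ Finset.Ico t (t + Q), |rr N ![y + τ, u] - rr N ![y, u]| := by
      rw [Finset.sum_Ico_eq_sum_range, Nat.add_sub_cancel_left]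
      refine Finset.sum_congr rfl fun u _ => ?_
      rw [add_comm u t]
    have hrc := rows_close (N := N) (Q := Q) (χ := χ) (g := g) (y := y) (y' := y + τ) (T := t)
      (B := B) (E := E) hχ hE hd h1 h2 (by omega)
    rw [hshift]
    linarith
  have hbad : ∀ s : ZMod Q, ∑ s' : ZMod Q, |gl N Q (s + τ) s' - gl N Q s s'| ≤ 2 * R := by
    intro s
    have k : ∀ s' : ZMod Q, |gl N Q (s + τ) s' - gl N Q s s'| ≤
        (fun u => rr N ![(s + (τ : ZMod Q)).val, u]) s'.val + (fun u => rr N ![s.val, u]) s'.val := by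
      intro s'
      rw [gl_eq, gl_eq]
      have e1 := rr2_nonneg N (s + (τ : ZMod Q)).val s'.val
      have e2 := rr2_nonneg N s.val s'.val
      simp only
      rw [abs_le]
      constructor <;> linarith
    refine (Finset.sum_le_sum fun s' _ => k s').trans ?_
    rw [Finset.sum_add_distrib, hsumval (fun u => rr N ![(s + (τ : ZMod Q)).val, u]),
      hsumval (fun u => rr N ![s.val, u])]
    have r1 := hrow _ (ZMod.val_lt (s + (τ : ZMod Q)))
    have r2 := hrow _ (ZMod.val_lt s)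
    linarith
  unfold IsPer
  have hsum : ∑ s : ZMod Q, ∑ s' : ZMod Q, |gl N Q (s + τ) s' - gl N Q s s'| ≤
      ∑ s : ZMod Q, (fun u => (2 * κ * Q + (2 * B + 2 * E)) +
        (if u ∈ Finset.Ico (Q - τ) Q then 2 * R else 0)) s.val := by
    refine Finset.sum_le_sum fun s _ => ?_
    simp only
    by_cases hs : s.val + τ < Q
    · refine (hgood s hs).trans ?_
      have : 0 ≤ (if s.val ∈ Finset.Ico (Q - τ) Q then 2 * R else 0) := by
        split_ifs
        · linarith
        · exact le_rfl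
      linarith
    · have hm : s.val ∈ Finset.Ico (Q - τ) Q := by
        have := ZMod.val_lt s
        rw [Finset.mem_Ico]
        omega
      rw [if_pos hm]
      have : 0 ≤ 2 * κ * Q + (2 * B + 2 * E) := by positivity
      linarith [hbad s]
  refine hsum.trans ?_
  rw [hsumval (fun u => (2 * κ * Q + (2 * B + 2 * E)) +
        (if u ∈ Finset.Ico (Q - τ) Q then 2 * R else 0)), Finset.sum_add_distrib, Finset.sum_const, Finset.card_range, nsmul_eq_mul,
    ← Finset.sum_filter, Finset.sum_const, nsmul_eq_mul]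
  have hcard : (((Finset.range Q).filter (fun u => u ∈ Finset.Ico (Q - τ) Q)).card : ℝ) ≤
      θ * Q := by
    refine le_trans ?_ hτ
    have : ((Finset.range Q).filter (fun u => u ∈ Finset.Ico (Q - τ) Q)).card ≤ τ := by
      have h3 : (Finset.range Q).filter (fun u => u ∈ Finset.Ico (Q - τ) Q) ⊆
          Finset.Ico (Q - τ) Q := fun u hu => (Finset.mem_filter.1 hu).2
      refine (Finset.card_le_card h3).trans ?_
      rw [Nat.card_Ico]
      omega
    exact_mod_cast this
  have h4 := mul_le_mul_of_nonneg_right hcard (by linarith : (0:ℝ) ≤ 2 * R)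
  linarith

end StPerAux

open StPerAux

/-- S4: a positive proportion of `ZMod Q` consists of almost periods divisible by `Wp w`. -/
theorem exists_per (w : ℕ) (δ : ℝ) (hδ : 0 < δ) : ∃ c : ℝ, 0 < c ∧ ∃ K : ℝ, ∀ A : ℕ,
    ∀ᶠ N : ℕ in atTop, ∀ (Q : ℕ) [NeZero Q], K * Real.log N ≤ Q → (Q:ℝ) ≤ (Real.log N) ^ A →
    Wp w ∣ Q → ∃ P : Finset (ZMod Q), c * (Q:ℝ) ≤ (P.card : ℝ) ∧
      ∀ τ ∈ P, Wp w ∣ τ.val ∧ IsPer N Q δ τ := by
  classical
  have hWp : 0 < Wp w := Finset.prod_pos fun p hp => (PPy_prime w p hp).pos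
  have hWpR : (0:ℝ) < Wp w := by exact_mod_cast hWp
  obtain ⟨C, hC, hrow⟩ := row_le
  obtain ⟨θ, hθ0, hθ1, hθ2⟩ : ∃ θ : ℝ, 0 < θ ∧ θ ≤ 1 / 2 ∧ θ * (2 * C) ≤ δ / 8 := by
    refine ⟨min (1 / 2) (δ / (16 * C)), lt_min (by norm_num) (by positivity), min_le_left _ _, ?_⟩
    calc min (1 / 2) (δ / (16 * C)) * (2 * C) ≤ δ / (16 * C) * (2 * C) :=
          mul_le_mul_of_nonneg_right (min_le_right _ _) (by positivity)
      _ = δ / 8 := by field_simp; ring
  obtain ⟨J, K0, hmodel⟩ := tuple_model_block 1 le_rfl (θ * (δ / 16) / 64) (by positivity)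
  have hlogN : Tendsto (fun N : ℕ => Real.log (N:ℝ)) atTop atTop :=
    Real.tendsto_log_atTop.comp tendsto_natCast_atTop_atTop
  refine ⟨θ / (2 * ((J:ℝ) * Wp w + 1)), by positivity, max K0 (max (64 / δ) (4 / θ)),
    fun A => ?_⟩
  filter_upwards [hmodel (A + 2), hrow (A + 2), rr2_diag (A + 2),
    rr_shift 2 (A + 2) (δ / 16) (by positivity), hlogN.eventually_ge_atTop 3]
    with N hN1 hN2 hN3 hN4 hL
  intro Q _ hKQ hQA hWQ
  have hQpos : 0 < Q := NeZero.pos Q
  have hQR : (1:ℝ) ≤ Q := by exact_mod_cast hQpos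
  set L := Real.log (N:ℝ) with hLdef
  have hL0 : 0 < L := by linarith
  have hK1 : K0 * L ≤ Q := (mul_le_mul_of_nonneg_right (le_max_left _ _) hL0.le).trans hKQ
  have hK2 : 64 / δ * L ≤ Q := (mul_le_mul_of_nonneg_right
    ((le_max_left _ _).trans (le_max_right _ _)) hL0.le).trans hKQ
  have hK3 : 4 / θ * L ≤ Q := (mul_le_mul_of_nonneg_right
    ((le_max_right _ _).trans (le_max_right _ _)) hL0.le).trans hKQ
  have hLQ : 64 * L ≤ δ * Q := by
    rw [div_mul_eq_mul_div, div_le_iff₀ hδ] at hK2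
    linarith
  have hθQ : 4 ≤ θ * Q := by
    rw [div_mul_eq_mul_div, div_le_iff₀ hθ0] at hK3
    nlinarith
  have hpowA : 3 * (Q:ℝ) ≤ L ^ (A + 2) := by
    have h9 : (9:ℝ) ≤ L ^ 2 := by nlinarith
    calc 3 * (Q:ℝ) ≤ 9 * L ^ A := by nlinarith
      _ ≤ L ^ 2 * L ^ A := mul_le_mul_of_nonneg_right h9 (by positivity)
      _ = L ^ (A + 2) := by ring
  have hpow : ∀ a : ℕ, a ≤ 3 * Q → (a:ℝ) ≤ L ^ (A + 2) := by
    intro a ha
    refine le_trans ?_ hpowA
    exact_mod_cast ha
  -- the model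
  obtain ⟨χ, g, -, hg⟩ := hN1 (3 * Q) (by push_cast; linarith) (by push_cast; linarith)
  have hg' : ∑ e ∈ (box 2 (3 * Q)).filter (fun e => Function.Injective e),
      (fun e => |rr N e - g (fun i => χ (e i))|) e ≤ θ * (δ / 16) / 64 * (3 * (Q:ℝ) + 1) ^ 2 := by
    refine le_trans (le_of_eq (Finset.sum_congr rfl fun e _ => ?_)) (hg.trans (le_of_eq ?_))
    · simp only
      congr 2
      unfold rr
      ring
    · push_cast
      ring
  have hslab := (sum_slab2_le (3 * Q) (fun e => |rr N e - g (fun i => χ (e i))|)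
    (fun e => abs_nonneg _)).trans hg'
  set sl : ℕ → ℝ := fun y => slab2 (3 * Q) (fun e => |rr N e - g (fun i => χ (e i))|) y with hsl
  have hsl0 : ∀ y, 0 ≤ sl y := fun y => slab2_nonneg _ _ (fun e => abs_nonneg _) y
  have hbadc : (((Finset.range (3 * Q + 1)).filter (fun y => δ / 16 * Q < sl y)).card : ℝ) ≤
      θ * Q / 4 := by
    have h1 : (((Finset.range (3 * Q + 1)).filter (fun y => δ / 16 * Q < sl y)).card : ℝ) *
        (δ / 16 * Q) ≤ θ * (δ / 16) / 64 * (3 * (Q:ℝ) + 1) ^ 2 := by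
      rw [← nsmul_eq_mul, ← Finset.sum_const]
      refine le_trans ?_ hslab
      calc ∑ _y ∈ (Finset.range (3 * Q + 1)).filter (fun y => δ / 16 * Q < sl y), (δ / 16 * (Q:ℝ))
          ≤ ∑ y ∈ (Finset.range (3 * Q + 1)).filter (fun y => δ / 16 * Q < sl y), sl y :=
            Finset.sum_le_sum fun y hy => (Finset.mem_filter.1 hy).2.le
        _ ≤ _ := Finset.sum_le_sum_of_subset_of_nonneg (Finset.filter_subset _ _)
            fun y _ _ => hsl0 y
    have h2 : θ * (δ / 16) / 64 * (3 * (Q:ℝ) + 1) ^ 2 ≤ θ * Q / 4 * (δ / 16 * Q) := by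
      have h3 : (3 * (Q:ℝ) + 1) ^ 2 ≤ 16 * (Q:ℝ) ^ 2 := by nlinarith
      calc θ * (δ / 16) / 64 * (3 * (Q:ℝ) + 1) ^ 2 ≤ θ * (δ / 16) / 64 * (16 * (Q:ℝ) ^ 2) :=
            mul_le_mul_of_nonneg_left h3 (by positivity)
        _ = θ * Q / 4 * (δ / 16 * Q) := by ring
    exact le_of_mul_le_mul_right (h1.trans h2) (by positivity)
  -- good starting points
  obtain ⟨l, hl⟩ : ∃ l : ℕ, l = ⌊θ * Q⌋₊ := ⟨_, rfl⟩
  have hl1 : (l:ℝ) ≤ θ * Q := by rw [hl]; exact Nat.floor_le (by positivity)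
  have hl2 : θ * Q - 1 < l := by rw [hl]; exact Nat.sub_one_lt_floor _
  have hlQ : l ≤ Q := by
    have : (l:ℝ) ≤ Q := by nlinarith
    exact_mod_cast this
  set Gd := (Finset.Ico Q (Q + l)).filter (fun y => ¬ δ / 16 * Q < sl y) with hGd
  have hGc : θ * Q / 2 ≤ (Gd.card : ℝ) := by
    have h1 := Finset.card_filter_add_card_filter_not (s := Finset.Ico Q (Q + l))
      (fun y => δ / 16 * (Q:ℝ) < sl y)
    have h2 : ((Finset.Ico Q (Q + l)).filter (fun y => δ / 16 * Q < sl y)).card ≤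
        ((Finset.range (3 * Q + 1)).filter (fun y => δ / 16 * Q < sl y)).card := by
      apply Finset.card_le_card
      apply Finset.filter_subset_filter
      intro z hz
      have := Finset.mem_Ico.1 hz
      exact Finset.mem_range.2 (by omega)
    rw [Nat.card_Ico, Nat.add_sub_cancel_left] at h1
    have h3 : (((Finset.Ico Q (Q + l)).filter (fun y => δ / 16 * (Q:ℝ) < sl y)).card : ℝ) ≤
        θ * Q / 4 := le_trans (by exact_mod_cast h2) hbadc
    have h4 : (((Finset.Ico Q (Q + l)).filter (fun y => δ / 16 * (Q:ℝ) < sl y)).card : ℝ) +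
        (Gd.card : ℝ) = l := by exact_mod_cast h1
    linarith
  have hJ : 0 < J := lt_of_le_of_lt (Nat.zero_le _) (χ 0).2
  -- classes
  let F : ℕ → Fin J × ℕ := fun y => (χ y, y % Wp w)
  let T : Finset (Fin J × ℕ) := Finset.univ ×ˢ Finset.range (Wp w)
  have hF : ∀ y ∈ Gd, F y ∈ T := by
    intro y hy
    simp only [F, T, Finset.mem_product, Finset.mem_range, Finset.mem_univ, true_and]
    exact Nat.mod_lt _ hWp
  have hT : (T.card : ℝ) = (J:ℝ) * Wp w := by
    simp only [T, Finset.card_product, Finset.card_range, Finset.card_univ, Fintype.card_fin]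
    push_cast
    ring
  have hTne : T.Nonempty := ⟨(⟨0, hJ⟩, 0), by simp [T, hWp]⟩
  obtain ⟨tc, htc, htc'⟩ := Finset.exists_le_card_fiber_of_nsmul_le_card_of_maps_to (s := Gd)
    (t := T) (f := F) (b := θ / (2 * ((J:ℝ) * Wp w + 1)) * (Q:ℝ)) hF hTne (by
      rw [nsmul_eq_mul, hT]
      refine le_trans ?_ hGc
      have h1 : (J:ℝ) * Wp w * (θ / (2 * ((J:ℝ) * Wp w + 1)) * (Q:ℝ)) =
          ((J:ℝ) * Wp w / ((J:ℝ) * Wp w + 1)) * (θ * Q / 2) := by
        field_simp
      rw [h1]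
      have h2 : (J:ℝ) * Wp w / ((J:ℝ) * Wp w + 1) ≤ 1 := by
        rw [div_le_one (by positivity)]
        linarith
      calc _ ≤ 1 * (θ * Q / 2) := mul_le_mul_of_nonneg_right h2 (by positivity)
        _ = θ * Q / 2 := one_mul _)
  set S := Gd.filter (fun y => F y = tc) with hS
  have hSc : (0:ℝ) < (S.card : ℝ) := lt_of_lt_of_le (by positivity) htc'
  have hSne : S.Nonempty := Finset.card_pos.1 (by exact_mod_cast hSc)
  obtain ⟨y, hyS, hymin⟩ : ∃ y ∈ S, ∀ z ∈ S, y ≤ z :=
    ⟨S.min' hSne, Finset.min'_mem _ _, fun z hz => Finset.min'_le _ _ hz⟩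
  have hSmem : ∀ z ∈ S, Q ≤ z ∧ z < Q + l ∧ sl z ≤ δ / 16 * Q ∧ χ z = χ y ∧
      z % Wp w = y % Wp w := by
    intro z hz
    have h1 := Finset.mem_filter.1 hz
    have h2 := Finset.mem_filter.1 hyS
    have h3 := Finset.mem_filter.1 h1.1
    have h4 := Finset.mem_Ico.1 h3.1
    have h5 : F z = F y := h1.2.trans h2.2.symm
    exact ⟨h4.1, h4.2, not_lt.1 h3.2, congrArg Prod.fst h5, congrArg Prod.snd h5⟩
  obtain ⟨y1, y2, y3, -, -⟩ := hSmem y hyS
  refine ⟨S.image (fun z => ((z - y : ℕ) : ZMod Q)), ?_, ?_⟩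
  · rw [Finset.card_image_of_injOn]
    · exact htc'
    · intro a ha b hb hab
      have h1 := hymin a ha
      have h2 := hymin b hb
      obtain ⟨a1, a2, -⟩ := hSmem a ha
      obtain ⟨b1, b2, -⟩ := hSmem b hb
      have h3 := congrArg ZMod.val hab
      simp only at h3
      rw [ZMod.val_cast_of_lt (by omega), ZMod.val_cast_of_lt (by omega)] at h3
      omega
  · intro τ hτ
    obtain ⟨z, hz, rfl⟩ := Finset.mem_image.1 hτ
    have h1 := hymin z hz
    obtain ⟨z1, z2, z3, z4, z5⟩ := hSmem z hz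
    have hzy : y + (z - y) = z := by omega
    have hlt : z - y < Q := by omega
    refine ⟨?_, ?_⟩
    · rw [ZMod.val_cast_of_lt hlt]
      exact (Nat.modEq_iff_dvd' h1).1 z5.symm
    · have hdg : ∀ a b : ℕ, a = y ∨ a = y + (z - y) → rr N ![a, b] ≤ 2 * L := by
        intro a b ha
        refine (rr2_le_diag N a b).trans (hN3 a (hpow a ?_))
        rcases ha with rfl | rfl <;> omega
      refine isPer_of (χ := χ) (g := g) (y := y) (κ := δ / 16) (B := δ / 16 * Q)
        (R := C * Q + 2 * L) (E := 2 * L) (θ := θ) (by positivity) (by positivity)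
        (by positivity) y1 (by omega) hlt ?_ (by rw [hzy]; exact z4.symm) hdg y3
        (by rw [hzy]; exact z3) ?_ ?_ ?_
      · refine le_trans ?_ hl1
        have : z - y ≤ l := by omega
        exact_mod_cast this
      · intro e t ht
        exact hN4 e t (hpow t (by omega))
      · intro a ha
        exact hN2 Q a ha (hpow Q (by omega))
      · have h2 : θ * (Q:ℝ) * (2 * (C * Q + 2 * L)) ≤ δ / 8 * Q ^ 2 + 2 * (L * Q) := by
          have e1 : θ * (Q:ℝ) * (2 * (C * Q + 2 * L)) =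
              (θ * (2 * C)) * Q ^ 2 + 4 * θ * (L * Q) := by ring
          rw [e1]
          have e2 : (θ * (2 * C)) * (Q:ℝ) ^ 2 ≤ δ / 8 * Q ^ 2 :=
            mul_le_mul_of_nonneg_right hθ2 (by positivity)
          have e3 : 4 * θ * (L * Q) ≤ 2 * (L * Q) :=
            mul_le_mul_of_nonneg_right (by linarith) (by positivity)
          linarith
        have h3 : (Q:ℝ) * (2 * (δ / 16) * Q + (2 * (δ / 16 * Q) + 2 * (2 * L))) =
            δ / 4 * Q ^ 2 + 4 * (L * Q) := by ring
        have h4 : 64 * (L * Q) ≤ δ * (Q:ℝ) ^ 2 := by nlinarith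
        have h5 : 0 ≤ δ * (Q:ℝ) ^ 2 := by positivity
        rw [h3]
        linarith

end Pool.Agent.HLT
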