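import Mathlib
import Pool.Agent.HLT.StBlock
import Pool.Agent.HLT.StMoment
import Pool.Agent.HLT.StPer
import Pool.Agent.HLT.StFourier

set_option autoImplicit false

open Finset Filter

namespace Pool.Agent.HLT

open Pool.Agent.HL26 Pool.Agent.Maynard

namespace StStructAux

lemma sum_tele {α : Type} [Fintype α] (f g : α → ℝ) (hf : ∀ x, 0 ≤ f x) (hg : ∀ x, 0 ≤ g x)
    (M : ℝ) (hfM : ∑ x, f x ≤ M) (hgM : ∑ x, g x ≤ M) (m : ℕ) :
    ∑ e : Fin (m + 1) → α, |∏ i, f (e i) - ∏ i, g (e i)| ≤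
      ((m:ℝ) + 1) * (∑ x, |f x - g x|) * M ^ m := by
  have hF0 : 0 ≤ ∑ x, f x := Finset.sum_nonneg (fun x _ => hf x)
  have hG0 : 0 ≤ ∑ x, g x := Finset.sum_nonneg (fun x _ => hg x)
  have hM0 : 0 ≤ M := hF0.trans hfM
  have hD0 : 0 ≤ ∑ x, |f x - g x| := Finset.sum_nonneg (fun x _ => abs_nonneg _)
  have hsucc : ∀ (n : ℕ) (F : (Fin (n + 1) → α) → ℝ),
      ∑ e : Fin (n + 1) → α, F e = ∑ x : α, ∑ e' : Fin n → α, F (Fin.cons x e') := by
    intro n F
    rw [← (Fin.consEquiv (fun _ : Fin (n + 1) => α)).sum_comp, Fintype.sum_prod_type]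
    rfl
  induction m with
  | zero =>
    rw [hsucc]
    simp
  | succ m ih =>
    rw [hsucc]
    have hpt : ∀ x : α, ∀ e' : Fin (m + 1) → α,
        |∏ i, f ((Fin.cons x e' : Fin (m + 1 + 1) → α) i) -
          ∏ i, g ((Fin.cons x e' : Fin (m + 1 + 1) → α) i)| ≤
        |f x - g x| * ∏ i, f (e' i) + g x * |∏ i, f (e' i) - ∏ i, g (e' i)| := by
      intro x e'
      rw [Fin.prod_univ_succ, Fin.prod_univ_succ (fun i => g ((Fin.cons x e' : Fin (m + 1 + 1) → α) i))]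
      simp only [Fin.cons_zero, Fin.cons_succ]
      have h1 : f x * ∏ i, f (e' i) - g x * ∏ i, g (e' i) =
          (f x - g x) * ∏ i, f (e' i) + g x * (∏ i, f (e' i) - ∏ i, g (e' i)) := by ring
      rw [h1]
      refine (abs_add_le _ _).trans (le_of_eq ?_)
      rw [abs_mul, abs_mul, abs_of_nonneg (hg x),
        abs_of_nonneg (Finset.prod_nonneg (fun i _ => hf (e' i)))]
    calc ∑ x : α, ∑ e' : Fin (m + 1) → α,
          |∏ i, f ((Fin.cons x e' : Fin (m + 1 + 1) → α) i) -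
          ∏ i, g ((Fin.cons x e' : Fin (m + 1 + 1) → α) i)|
        ≤ ∑ x : α, ∑ e' : Fin (m + 1) → α,
          (|f x - g x| * ∏ i, f (e' i) + g x * |∏ i, f (e' i) - ∏ i, g (e' i)|) :=
          Finset.sum_le_sum (fun x _ => Finset.sum_le_sum (fun e' _ => hpt x e'))
      _ = (∑ x, |f x - g x|) * (∑ x, f x) ^ (m + 1) +
          (∑ x, g x) * ∑ e' : Fin (m + 1) → α, |∏ i, f (e' i) - ∏ i, g (e' i)| := by
          simp only [Finset.sum_add_distrib, ← Finset.mul_sum]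
          rw [← Finset.sum_mul, ← Finset.sum_mul, Fintype.sum_pow]
      _ ≤ (∑ x, |f x - g x|) * M ^ (m + 1) +
          M * (((m:ℝ) + 1) * (∑ x, |f x - g x|) * M ^ m) := by
          gcongr
      _ = (((m + 1 : ℕ):ℝ) + 1) * (∑ x, |f x - g x|) * M ^ (m + 1) := by
          push_cast; ring

lemma val_mod {Q : ℕ} [NeZero Q] {W : ℕ} (hWQ : W ∣ Q) (s τ τ' : ZMod Q) (h : W ∣ τ.val)
    (h' : W ∣ τ'.val) : (s + τ - τ').val ≡ s.val [MOD W] := by
  rw [← ZMod.natCast_eq_natCast_iff]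
  have hc : ∀ x : ZMod Q, ((x.val : ℕ) : ZMod W) = ZMod.castHom hWQ (ZMod W) x := by
    intro x
    rw [ZMod.castHom_apply, ZMod.cast_eq_val]
  rw [hc, hc, map_sub, map_add, ← hc τ, ← hc τ', (ZMod.natCast_eq_zero_iff _ _).2 h,
    (ZMod.natCast_eq_zero_iff _ _).2 h']
  ring

lemma tav_nonneg {Q : ℕ} (P : Finset (ZMod Q)) (u : ZMod Q → ℝ) (hu : ∀ s, 0 ≤ u s)
    (s : ZMod Q) : 0 ≤ tav P u s := by
  unfold tav
  exact div_nonneg (Finset.sum_nonneg fun _ _ => Finset.sum_nonneg fun _ _ => hu _) (by positivity)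

lemma sum_tav {Q : ℕ} [NeZero Q] (P : Finset (ZMod Q)) (hP : P.Nonempty) (u : ZMod Q → ℝ) :
    ∑ s, tav P u s = ∑ s, u s := by
  unfold tav
  rw [← Finset.sum_div, Finset.sum_comm]
  have h1 : ∀ τ ∈ P, ∑ s : ZMod Q, ∑ τ' ∈ P, u (s + τ - τ') = (P.card : ℝ) * ∑ s, u s := by
    intro τ _
    rw [Finset.sum_comm]
    rw [Finset.sum_congr rfl (g := fun _ => ∑ s, u s)]
    · rw [Finset.sum_const, nsmul_eq_mul]
    · intro τ' _
      exact Fintype.sum_equiv (Equiv.addRight (τ - τ')) _ _ (fun s => by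
        simp only [Equiv.coe_addRight]; rw [add_sub_assoc])
  rw [Finset.sum_congr rfl h1, Finset.sum_const, nsmul_eq_mul]
  have hc : (P.card : ℝ) ≠ 0 := by
    have := hP.card_pos
    positivity
  field_simp

lemma lam_nonneg (N Q n : ℕ) (s : ZMod Q) (hN : 1 ≤ N) : 0 ≤ lam N Q n s := by
  unfold lam
  split_ifs
  · exact Real.log_nonneg (by exact_mod_cast hN)
  · exact le_rfl

lemma Wp_pos (w : ℕ) : 0 < Wp w := by
  unfold Wp
  exact Finset.prod_pos (fun p hp => by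
    unfold PPy at hp
    simp only [Finset.mem_filter] at hp
    exact hp.2.pos)


lemma tav_zero {N Q w n : ℕ} [NeZero Q] (hN : Wp w ≤ N) (hn : N < n) (hWQ : Wp w ∣ Q)
    (P : Finset (ZMod Q)) (hPW : ∀ τ ∈ P, Wp w ∣ τ.val) (s : ZMod Q)
    (hs : ¬ (n % Wp w + s.val).Coprime (Wp w)) : tav P (lam N Q n) s = 0 := by
  unfold tav
  have h0 : ∀ τ ∈ P, ∀ τ' ∈ P, lam N Q n (s + τ - τ') = 0 := by
    intro τ hτ τ' hτ'
    unfold lam
    rw [if_neg]
    intro hp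
    apply hs
    have h1 : (n % Wp w + s.val) ≡ n + (s + τ - τ').val [MOD Wp w] :=
      Nat.ModEq.add (Nat.mod_modEq n (Wp w)) (val_mod hWQ s τ τ' (hPW τ hτ) (hPW τ' hτ')).symm
    have h2 : (n + (s + τ - τ').val).Coprime (Wp w) := by
      rw [Nat.Prime.coprime_iff_not_dvd hp]
      intro hd
      have := Nat.le_of_dvd (Wp_pos w) hd
      omega
    rw [Nat.Coprime, Nat.ModEq.gcd_eq h1]
    exact h2
  rw [Finset.sum_eq_zero (fun τ hτ => Finset.sum_eq_zero (fun τ' hτ' => h0 τ hτ τ' hτ'))]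
  simp

lemma cls_tav {N Q w : ℕ} [NeZero Q] (hWQ : Wp w ∣ Q)
    (P : Finset (ZMod Q)) (hP : P.Nonempty) (hPW : ∀ τ ∈ P, Wp w ∣ τ.val) (c : ℕ) (κ φ : ℝ)
    (hcls : ∀ s : ZMod Q, |(∑ n ∈ Finset.Ioc N (2 * N),
      if n + s.val ≡ c [MOD Wp w] then lam N Q n s else 0) / N - φ| ≤ κ) (s : ZMod Q) :
    |(∑ n ∈ Finset.Ioc N (2 * N),
      if n + s.val ≡ c [MOD Wp w] then tav P (lam N Q n) s else 0) / N - φ| ≤ κ := by
  have hc : (0:ℝ) < (P.card : ℝ) := by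
    have := hP.card_pos
    exact_mod_cast this
  have h1 : (∑ n ∈ Finset.Ioc N (2 * N),
      if n + s.val ≡ c [MOD Wp w] then tav P (lam N Q n) s else 0) / N - φ =
      (∑ τ ∈ P, ∑ τ' ∈ P, ((∑ n ∈ Finset.Ioc N (2 * N),
        if n + (s + τ - τ').val ≡ c [MOD Wp w] then lam N Q n (s + τ - τ') else 0) / N - φ)) /
        (P.card : ℝ) ^ 2 := by
    have h2 : ∀ n : ℕ, (if n + s.val ≡ c [MOD Wp w] then tav P (lam N Q n) s else 0) =
        (∑ τ ∈ P, ∑ τ' ∈ P,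
          (if n + (s + τ - τ').val ≡ c [MOD Wp w] then lam N Q n (s + τ - τ') else 0)) /
          (P.card : ℝ) ^ 2 := by
      intro n
      have h3 : ∀ τ ∈ P, ∀ τ' ∈ P, (n + (s + τ - τ').val ≡ c [MOD Wp w] ↔
          n + s.val ≡ c [MOD Wp w]) := by
        intro τ hτ τ' hτ'
        have h4 := Nat.ModEq.add_left n (val_mod hWQ s τ τ' (hPW τ hτ) (hPW τ' hτ'))
        exact ⟨fun h => h4.symm.trans h, fun h => h4.trans h⟩
      rw [Finset.sum_congr rfl (fun τ hτ => Finset.sum_congr rfl (fun τ' hτ' => by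
        rw [if_congr (h3 τ hτ τ' hτ') rfl rfl]))]
      by_cases hh : n + s.val ≡ c [MOD Wp w]
      · simp only [hh, if_true]
        rfl
      · simp [hh]
    simp only [h2]
    rw [← Finset.sum_div, Finset.sum_comm]
    simp only [Finset.sum_sub_distrib, ← Finset.sum_div]
    rw [Finset.sum_const, Finset.sum_const, nsmul_eq_mul, nsmul_eq_mul]
    have h5 : ∑ n ∈ Finset.Ioc N (2 * N), ∑ τ ∈ P, ∑ τ' ∈ P,
          (if n + (s + τ - τ').val ≡ c [MOD Wp w] then lam N Q n (s + τ - τ') else 0) =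
        ∑ τ ∈ P, ∑ τ' ∈ P, ∑ n ∈ Finset.Ioc N (2 * N),
          (if n + (s + τ - τ').val ≡ c [MOD Wp w] then lam N Q n (s + τ - τ') else 0) := by
      rw [Finset.sum_comm]
      exact Finset.sum_congr rfl (fun τ _ => Finset.sum_comm)
    rw [← h5]
    rw [Finset.sum_comm]
    field_simp
  rw [h1, abs_div, abs_of_pos (by positivity : (0:ℝ) < (P.card : ℝ) ^ 2), div_le_iff₀ (by positivity)]
  refine (Finset.abs_sum_le_sum_abs _ _).trans ?_
  calc ∑ τ ∈ P, |∑ τ' ∈ P, ((∑ n ∈ Finset.Ioc N (2 * N),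
        if n + (s + τ - τ').val ≡ c [MOD Wp w] then lam N Q n (s + τ - τ') else 0) / N - φ)|
      ≤ ∑ τ ∈ P, ∑ τ' ∈ P, κ := Finset.sum_le_sum (fun τ _ =>
        (Finset.abs_sum_le_sum_abs _ _).trans (Finset.sum_le_sum (fun τ' _ => hcls _)))
    _ = κ * (P.card : ℝ) ^ 2 := by
        simp only [Finset.sum_const, nsmul_eq_mul]; ring

lemma sum_pad {A : Type} [AddCommMonoid A] {R0 R : ℕ} (h : R0 ≤ R) (f : Fin R0 → A) :
    ∑ l : Fin R, (if hl : l.val < R0 then f ⟨l.val, hl⟩ else 0) = ∑ l : Fin R0, f l := by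
  have h1 : ∑ l : Fin R, (if hl : l.val < R0 then f ⟨l.val, hl⟩ else 0) =
      ∑ i ∈ Finset.range R, (if hl : i < R0 then f ⟨i, hl⟩ else 0) :=
    Fin.sum_univ_eq_sum_range (fun i => if hl : i < R0 then f ⟨i, hl⟩ else 0) R
  have h2 : ∑ l : Fin R0, f l =
      ∑ i ∈ Finset.range R0, (if hl : i < R0 then f ⟨i, hl⟩ else 0) := by
    rw [← Fin.sum_univ_eq_sum_range (fun i => if hl : i < R0 then f ⟨i, hl⟩ else 0) R0]
    exact Finset.sum_congr rfl (fun l _ => by simp)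
  rw [h1, h2]
  symm
  apply Finset.sum_subset (Finset.range_mono h)
  intro i _ hi
  rw [dif_neg]
  simpa using hi

lemma sum_classes {R : ℕ} (S : Finset ℕ) (N : ℝ) (cl : ℕ → Fin R) (F : Fin R → ℝ) :
    ∑ j, (((S.filter (fun n => cl n = j)).card : ℝ) / N) * F j = (∑ n ∈ S, F (cl n)) / N := by
  have h1 : ∀ j : Fin R, (((S.filter (fun n => cl n = j)).card : ℝ) / N) * F j =
      (∑ n ∈ S.filter (fun n => cl n = j), F (cl n)) / N := by
    intro j
    rw [Finset.sum_congr rfl (g := fun _ => F j)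
      (fun n hn => by rw [(Finset.mem_filter.1 hn).2]), Finset.sum_const, nsmul_eq_mul]
    ring
  rw [Finset.sum_congr rfl (fun j _ => h1 j), ← Finset.sum_div]
  congr 1
  exact Finset.sum_fiberwise S cl (fun n => F (cl n))

lemma tpz_nonneg {Q R : ℕ} [NeZero Q] (ξ : Fin R → ZMod Q) (b : Fin R → ℂ) (s : ZMod Q) :
    0 ≤ tpz ξ b s := le_max_left _ _

lemma gz_nonneg {Q R : ℕ} [NeZero Q] (w a : ℕ) (ξ : Fin R → ZMod Q) (b : Fin R → ℂ)
    (s : ZMod Q) : 0 ≤ gz w a ξ b s := by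
  unfold gz
  split_ifs
  · exact tpz_nonneg _ _ _
  · exact le_rfl

lemma core (k w : ℕ) (C Y e4 κ : ℝ) (R0 N Q : ℕ) [NeZero Q] (hN : Wp w ≤ N)
    (hY : 0 < Y) (he4 : 0 ≤ e4) (hWQ : Wp w ∣ Q)
    (P : Finset (ZMod Q)) (hP : P.Nonempty) (hPW : ∀ τ ∈ P, Wp w ∣ τ.val)
    (hmom : ∀ r, 1 ≤ r → r ≤ k + 2 →
      (∑ n ∈ Finset.Ioc N (2 * N), ((∑ s, lam N Q n s) / Q) ^ r) / N ≤ C)
    (ξ0 : Fin R0 → ZMod Q) (b0 : Fin R0 → Fin R0 → ℂ) (hb0 : ∀ j l, ‖b0 j l‖ ≤ R0)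
    (hnet : ∀ u : ZMod Q → ℝ, (∀ s, 0 ≤ u s) → (∑ s, u s) / Q ≤ Y →
      ∃ j, (∑ s, |tav P u s - tpz ξ0 (b0 j) s|) / Q ≤ e4)
    (hcls : ∀ c : ℕ, c.Coprime (Wp w) → ∀ s : ZMod Q,
      |(∑ n ∈ Finset.Ioc N (2 * N), if n + s.val ≡ c [MOD Wp w] then lam N Q n s else 0) / N -
        1 / ((Wp w).totient : ℝ)| ≤ κ) :
    ∃ (ξ : Fin (Wp w * (R0 + 1)) → ZMod Q) (a : Fin (Wp w * (R0 + 1)) → ℕ)
      (p : Fin (Wp w * (R0 + 1)) → ℝ)
      (b : Fin (Wp w * (R0 + 1)) → Fin (Wp w * (R0 + 1)) → ℂ),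
      (∀ j, a j < Wp w) ∧ (∀ j, 0 ≤ p j) ∧ (∑ j, p j = 1) ∧
      (∀ j l, ‖b j l‖ ≤ ((Wp w * (R0 + 1) : ℕ) : ℝ)) ∧
      (∀ c : ℕ, c.Coprime (Wp w) →
        ∑ s : ZMod Q, |∑ j, p j * (if a j + s.val ≡ c [MOD Wp w] then gz w (a j) ξ (b j) s else 0) -
            1 / ((Wp w).totient : ℝ)| ≤ (e4 + C / Y + κ) * Q) ∧
      ∀ r : ℕ, 1 ≤ r → r ≤ k →
        ∑ e : Fin (r + 1) → ZMod Q,
          |(∑ n ∈ Finset.Ioc N (2 * N), ∏ i, tav P (lam N Q n) (e i)) / N -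
            ∑ j, p j * ∏ i, gz w (a j) ξ (b j) (e i)| ≤
        (((r:ℝ) + 1) * e4 * (Y + e4) ^ r + C / Y) * (Q:ℝ) ^ (r + 1) := by
  classical
  have hW := Wp_pos w
  set W := Wp w with hWdef
  have hN1 : 1 ≤ N := by omega
  have hNpos : (0:ℝ) < N := by exact_mod_cast hN1
  have hQpos : (0:ℝ) < Q := by
    have := NeZero.pos Q
    exact_mod_cast this
  have hl0 : ∀ n s, 0 ≤ lam N Q n s := fun n s => lam_nonneg N Q n s hN1
  -- classes
  have hch : ∀ n : ℕ, ∃ j : Fin (R0 + 1), (if (∑ s, lam N Q n s) / Q ≤ Y then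
      (∃ h : j.val < R0, (∑ s, |tav P (lam N Q n) s - tpz ξ0 (b0 ⟨j.val, h⟩) s|) / Q ≤ e4) else
      ¬ (j.val < R0)) := by
    intro n
    by_cases hn : (∑ s, lam N Q n s) / Q ≤ Y
    · obtain ⟨j, hj⟩ := hnet (lam N Q n) (hl0 n) hn
      refine ⟨j.castSucc, ?_⟩
      rw [if_pos hn]
      exact ⟨j.isLt, hj⟩
    · refine ⟨Fin.last R0, ?_⟩
      rw [if_neg hn]
      simp
  choose jj hjj using hch
  set E := (finProdFinEquiv : Fin W × Fin (R0 + 1) ≃ Fin (W * (R0 + 1))) with hE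
  have hR : R0 ≤ W * (R0 + 1) := by nlinarith
  set ξ : Fin (W * (R0 + 1)) → ZMod Q := fun l => if h : l.val < R0 then ξ0 ⟨l.val, h⟩ else 0
    with hξ
  set a : Fin (W * (R0 + 1)) → ℕ := fun j => (E.symm j).1.val with ha
  set b : Fin (W * (R0 + 1)) → Fin (W * (R0 + 1)) → ℂ := fun j l =>
    if h : (E.symm j).2.val < R0 then
      (if hl : l.val < R0 then b0 ⟨(E.symm j).2.val, h⟩ ⟨l.val, hl⟩ else 0) else 0 with hb
  set cl : ℕ → Fin (W * (R0 + 1)) := fun n => E (⟨n % W, Nat.mod_lt n hW⟩, jj n) with hcl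
  have hacl : ∀ n, a (cl n) = n % W := by
    intro n
    simp only [ha, hcl, Equiv.symm_apply_apply]
  have hcl2 : ∀ n, (E.symm (cl n)).2 = jj n := by
    intro n
    simp only [hcl, Equiv.symm_apply_apply]
  have htpz1 : ∀ n (h : (jj n).val < R0) s, tpz ξ (b (cl n)) s = tpz ξ0 (b0 ⟨(jj n).val, h⟩) s := by
    intro n h s
    unfold tpz
    have h1 : ∑ l, b (cl n) l * ZMod.stdAddChar (ξ l * s) =
        ∑ l : Fin (W * (R0 + 1)), (if hl : l.val < R0 then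
          (fun l : Fin R0 => b0 ⟨(jj n).val, h⟩ l * ZMod.stdAddChar (ξ0 l * s)) ⟨l.val, hl⟩
          else 0) := by
      refine Finset.sum_congr rfl (fun l _ => ?_)
      simp only [hb, hξ, hcl2]
      rw [dif_pos h]
      by_cases hl : l.val < R0
      · rw [dif_pos hl, dif_pos hl, dif_pos hl]
      · rw [dif_neg hl, dif_neg hl, zero_mul, dif_neg hl]
    rw [h1, sum_pad hR (fun l : Fin R0 => b0 ⟨(jj n).val, h⟩ l * ZMod.stdAddChar (ξ0 l * s))]
  have htpz0 : ∀ n (h : ¬ (jj n).val < R0) s, tpz ξ (b (cl n)) s = 0 := by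
    intro n h s
    unfold tpz
    have h1 : ∑ l, b (cl n) l * ZMod.stdAddChar (ξ l * s) = 0 := by
      refine Finset.sum_eq_zero (fun l _ => ?_)
      simp only [hb, hcl2]
      rw [dif_neg h, zero_mul]
    rw [h1]
    simp
  -- the mean and the distance
  set YY : ℕ → ℝ := fun n => (∑ s, lam N Q n s) / Q with hYY
  set G : ℕ → ZMod Q → ℝ := fun n s => gz w (n % W) ξ (b (cl n)) s with hG
  have hG0 : ∀ n s, 0 ≤ G n s := fun n s => gz_nonneg _ _ _ _ _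
  have hYY0 : ∀ n, 0 ≤ YY n := fun n => div_nonneg (Finset.sum_nonneg fun s _ => hl0 n s) hQpos.le
  have htav0 : ∀ n s, 0 ≤ tav P (lam N Q n) s := fun n s => tav_nonneg P _ (hl0 n) s
  have hsumtav : ∀ n, ∑ s, tav P (lam N Q n) s = YY n * Q := by
    intro n
    rw [sum_tav P hP]
    simp only [hYY]
    field_simp
  have hD1 : ∀ n ∈ Finset.Ioc N (2 * N), YY n ≤ Y →
      ∑ s, |tav P (lam N Q n) s - G n s| ≤ e4 * Q := by
    intro n hn hnY
    have h1 := hjj n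
    rw [if_pos hnY] at h1
    obtain ⟨h2, h3⟩ := h1
    rw [div_le_iff₀ hQpos] at h3
    refine le_trans (Finset.sum_le_sum (fun s _ => ?_)) h3
    simp only [hG]
    unfold gz
    by_cases hs : (n % W + s.val).Coprime (Wp w)
    · rw [if_pos hs, htpz1 n h2 s]
    · rw [if_neg hs, tav_zero hN (Finset.mem_Ioc.1 hn).1 hWQ P hPW s hs]
      simp
  have hD2 : ∀ n, ¬ YY n ≤ Y → ∀ s, G n s = 0 := by
    intro n hnY s
    have h1 := hjj n
    rw [if_neg hnY] at h1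
    simp only [hG]
    unfold gz
    rw [htpz0 n h1 s]
    simp
  have hcard : (((Finset.Ioc N (2 * N)).card : ℕ) : ℝ) = N := by
    rw [Nat.card_Ioc]
    congr 1
    omega
  have havg : (∑ n ∈ Finset.Ioc N (2 * N), ∑ s, |tav P (lam N Q n) s - G n s|) / N ≤
      (e4 + C / Y) * Q := by
    have h1 : ∀ n ∈ Finset.Ioc N (2 * N), ∑ s, |tav P (lam N Q n) s - G n s| ≤
        (e4 + (YY n) ^ 2 / Y) * Q := by
      intro n hn
      by_cases hnY : YY n ≤ Y
      · refine (hD1 n hn hnY).trans ?_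
        have : 0 ≤ (YY n) ^ 2 / Y := by positivity
        nlinarith
      · rw [Finset.sum_congr rfl (g := fun s => tav P (lam N Q n) s) (fun s _ => by
          rw [hD2 n hnY s, sub_zero, abs_of_nonneg (htav0 n s)]), hsumtav n]
        have h2 : YY n ≤ (YY n) ^ 2 / Y := by
          rw [le_div_iff₀ hY]
          push Not at hnY
          nlinarith [hYY0 n]
        have h3 : YY n ≤ e4 + (YY n) ^ 2 / Y := by linarith
        exact mul_le_mul_of_nonneg_right h3 hQpos.le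
    rw [div_le_iff₀ hNpos]
    refine (Finset.sum_le_sum h1).trans ?_
    rw [← Finset.sum_mul, Finset.sum_add_distrib, Finset.sum_const, nsmul_eq_mul, hcard,
      ← Finset.sum_div]
    have h4 := hmom 2 (by norm_num) (by omega)
    rw [div_le_iff₀ hNpos] at h4
    have h5 : (∑ n ∈ Finset.Ioc N (2 * N), YY n ^ 2) / Y ≤ C * N / Y :=
      div_le_div_of_nonneg_right h4 hY.le
    calc ((N:ℝ) * e4 + (∑ n ∈ Finset.Ioc N (2 * N), YY n ^ 2) / Y) * Q
        ≤ ((N:ℝ) * e4 + C * N / Y) * Q := by gcongr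
      _ = (e4 + C / Y) * Q * N := by ring
  refine ⟨ξ, a, fun j => (((Finset.Ioc N (2 * N)).filter (fun n => cl n = j)).card : ℝ) / N, b,
    fun j => (E.symm j).1.isLt, fun j => by positivity, ?_, ?_, ?_, ?_⟩
  · have h1 := sum_classes (Finset.Ioc N (2 * N)) (N:ℝ) cl (fun _ => 1)
    simp only [mul_one] at h1
    rw [h1, Finset.sum_const, nsmul_eq_mul, hcard, mul_one, div_self hNpos.ne']
  · intro j l
    simp only [hb]
    have h0 : (0:ℝ) ≤ ((W * (R0 + 1) : ℕ) : ℝ) := Nat.cast_nonneg _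
    split_ifs with h h'
    · refine (hb0 _ _).trans ?_
      exact_mod_cast hR
    · rw [norm_zero]; exact h0
    · rw [norm_zero]; exact h0
  · intro c hc
    have h1 : ∀ s : ZMod Q, ∑ j, (((Finset.Ioc N (2 * N)).filter (fun n => cl n = j)).card : ℝ) / N *
        (if a j + s.val ≡ c [MOD W] then gz w (a j) ξ (b j) s else 0) =
        (∑ n ∈ Finset.Ioc N (2 * N), (if n + s.val ≡ c [MOD W] then G n s else 0)) / N := by
      intro s
      rw [sum_classes (Finset.Ioc N (2 * N)) (N:ℝ) cl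
        (fun j => if a j + s.val ≡ c [MOD W] then gz w (a j) ξ (b j) s else 0)]
      congr 1
      refine Finset.sum_congr rfl (fun n _ => ?_)
      rw [hacl n]
      have h2 : (n % W + s.val ≡ c [MOD W]) ↔ (n + s.val ≡ c [MOD W]) := by
        have h3 := Nat.ModEq.add_right s.val (Nat.mod_modEq n W)
        exact ⟨fun h => h3.symm.trans h, fun h => h3.trans h⟩
      rw [if_congr h2 rfl rfl]
    have h2 : ∀ s : ZMod Q, |∑ j, (((Finset.Ioc N (2 * N)).filter (fun n => cl n = j)).card : ℝ) / N *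
        (if a j + s.val ≡ c [MOD W] then gz w (a j) ξ (b j) s else 0) - 1 / (W.totient : ℝ)| ≤
        (∑ n ∈ Finset.Ioc N (2 * N), |tav P (lam N Q n) s - G n s|) / N + κ := by
      intro s
      rw [h1 s]
      have h3 := cls_tav hWQ P hP hPW c κ _ (hcls c hc) s
      have h4 : (∑ n ∈ Finset.Ioc N (2 * N), (if n + s.val ≡ c [MOD W] then G n s else 0)) / N -
          1 / (W.totient : ℝ) =
          -((∑ n ∈ Finset.Ioc N (2 * N), (if n + s.val ≡ c [MOD W] then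
            (tav P (lam N Q n) s - G n s) else 0)) / N) +
          ((∑ n ∈ Finset.Ioc N (2 * N),
            if n + s.val ≡ c [MOD W] then tav P (lam N Q n) s else 0) / N -
            1 / (W.totient : ℝ)) := by
        have h5 : ∑ n ∈ Finset.Ioc N (2 * N), (if n + s.val ≡ c [MOD W] then
            (tav P (lam N Q n) s - G n s) else 0) =
            ∑ n ∈ Finset.Ioc N (2 * N), (if n + s.val ≡ c [MOD W] then tav P (lam N Q n) s else 0) -
            ∑ n ∈ Finset.Ioc N (2 * N), (if n + s.val ≡ c [MOD W] then G n s else 0) := by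
          rw [← Finset.sum_sub_distrib]
          refine Finset.sum_congr rfl (fun n _ => ?_)
          split_ifs <;> simp
        rw [h5]
        ring
      rw [h4]
      refine (abs_add_le _ _).trans (add_le_add ?_ h3)
      rw [abs_neg, abs_div, abs_of_pos hNpos]
      refine div_le_div_of_nonneg_right ?_ hNpos.le
      refine (Finset.abs_sum_le_sum_abs _ _).trans (Finset.sum_le_sum (fun n _ => ?_))
      split_ifs
      · exact le_rfl
      · simp
    refine (Finset.sum_le_sum (fun s _ => h2 s)).trans ?_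
    rw [Finset.sum_add_distrib, ← Finset.sum_div, Finset.sum_comm, Finset.sum_const, nsmul_eq_mul,
      Finset.card_univ, ZMod.card]
    linarith [havg]
  · intro r hr1 hrk
    have h1 : ∀ e : Fin (r + 1) → ZMod Q,
        ∑ j, (((Finset.Ioc N (2 * N)).filter (fun n => cl n = j)).card : ℝ) / N *
          ∏ i, gz w (a j) ξ (b j) (e i) =
        (∑ n ∈ Finset.Ioc N (2 * N), ∏ i, G n (e i)) / N := by
      intro e
      rw [sum_classes (Finset.Ioc N (2 * N)) (N:ℝ) cl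
        (fun j => ∏ i, gz w (a j) ξ (b j) (e i))]
      congr 1
      refine Finset.sum_congr rfl (fun n _ => ?_)
      rw [hacl n]
    have h2 : ∀ e : Fin (r + 1) → ZMod Q,
        |(∑ n ∈ Finset.Ioc N (2 * N), ∏ i, tav P (lam N Q n) (e i)) / N -
          ∑ j, (((Finset.Ioc N (2 * N)).filter (fun n => cl n = j)).card : ℝ) / N *
            ∏ i, gz w (a j) ξ (b j) (e i)| ≤
        (∑ n ∈ Finset.Ioc N (2 * N), |∏ i, tav P (lam N Q n) (e i) - ∏ i, G n (e i)|) / N := by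
      intro e
      rw [h1 e, ← sub_div, ← Finset.sum_sub_distrib, abs_div, abs_of_pos hNpos]
      exact div_le_div_of_nonneg_right (Finset.abs_sum_le_sum_abs _ _) hNpos.le
    refine (Finset.sum_le_sum (fun e _ => h2 e)).trans ?_
    rw [← Finset.sum_div, Finset.sum_comm, div_le_iff₀ hNpos]
    have h3 : ∀ n ∈ Finset.Ioc N (2 * N),
        ∑ e : Fin (r + 1) → ZMod Q, |∏ i, tav P (lam N Q n) (e i) - ∏ i, G n (e i)| ≤
        (((r:ℝ) + 1) * e4 * (Y + e4) ^ r + (YY n) ^ (r + 2) / Y) * (Q:ℝ) ^ (r + 1) := by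
      intro n hn
      by_cases hnY : YY n ≤ Y
      · have h4 := sum_tele (fun s => tav P (lam N Q n) s) (fun s => G n s) (htav0 n) (hG0 n)
          ((Y + e4) * Q) (by
            rw [hsumtav n]
            exact mul_le_mul_of_nonneg_right (by linarith) hQpos.le) (by
            have h5 : ∑ s, G n s ≤ ∑ s, tav P (lam N Q n) s + ∑ s, |tav P (lam N Q n) s - G n s| := by
              rw [← Finset.sum_add_distrib]
              refine Finset.sum_le_sum (fun s _ => ?_)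
              have := neg_abs_le (tav P (lam N Q n) s - G n s)
              linarith
            refine h5.trans ?_
            rw [hsumtav n]
            have := hD1 n hn hnY
            nlinarith) r
        refine h4.trans ?_
        have h6 := hD1 n hn hnY
        have h7 : 0 ≤ (YY n) ^ (r + 2) / Y := by
          have := hYY0 n
          positivity
        calc ((r:ℝ) + 1) * (∑ x, |tav P (lam N Q n) x - G n x|) * ((Y + e4) * Q) ^ r
            ≤ ((r:ℝ) + 1) * (e4 * Q) * ((Y + e4) * Q) ^ r := by gcongr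
          _ = (((r:ℝ) + 1) * e4 * (Y + e4) ^ r) * (Q:ℝ) ^ (r + 1) := by
              rw [mul_pow, pow_succ (Q:ℝ) r]; ring
          _ ≤ _ := by
              gcongr
              linarith
      · have h4 : ∀ e : Fin (r + 1) → ZMod Q, |∏ i, tav P (lam N Q n) (e i) - ∏ i, G n (e i)| =
            ∏ i, tav P (lam N Q n) (e i) := by
          intro e
          have h5 : ∏ i, G n (e i) = 0 := by
            rw [Fin.prod_univ_succ, hD2 n hnY, zero_mul]
          rw [h5, sub_zero, abs_of_nonneg (Finset.prod_nonneg (fun i _ => htav0 n _))]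
        rw [Finset.sum_congr rfl (fun e _ => h4 e), ← Fintype.sum_pow, hsumtav n, mul_pow]
        have h5 : YY n ^ (r + 1) ≤ YY n ^ (r + 2) / Y := by
          rw [le_div_iff₀ hY, pow_succ (YY n) (r + 1)]
          push Not at hnY
          exact mul_le_mul_of_nonneg_left hnY.le (pow_nonneg (hYY0 n) _)
        have h6 : 0 ≤ ((r:ℝ) + 1) * e4 * (Y + e4) ^ r := by positivity
        exact mul_le_mul_of_nonneg_right (by linarith) (by positivity)
    refine (Finset.sum_le_sum h3).trans ?_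
    rw [← Finset.sum_mul, Finset.sum_add_distrib, Finset.sum_const, nsmul_eq_mul, hcard,
      ← Finset.sum_div]
    have h4 := hmom (r + 2) (by omega) (by omega)
    rw [div_le_iff₀ hNpos] at h4
    have h5 : (∑ n ∈ Finset.Ioc N (2 * N), YY n ^ (r + 2)) / Y ≤ C * N / Y :=
      div_le_div_of_nonneg_right h4 hY.le
    calc ((N:ℝ) * (((r:ℝ) + 1) * e4 * (Y + e4) ^ r) +
          (∑ n ∈ Finset.Ioc N (2 * N), YY n ^ (r + 2)) / Y) * (Q:ℝ) ^ (r + 1)
        ≤ ((N:ℝ) * (((r:ℝ) + 1) * e4 * (Y + e4) ^ r) + C * N / Y) * (Q:ℝ) ^ (r + 1) := by gcongr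
      _ = (((r:ℝ) + 1) * e4 * (Y + e4) ^ r + C / Y) * (Q:ℝ) ^ (r + 1) * N := by ring

end StStructAux

/-- S6: structure formula for one block, on `ZMod Q`. -/
theorem block_struct (k : ℕ) (hk : 1 ≤ k) (ε : ℝ) (hε : 0 < ε) : ∃ w0 : ℕ, ∀ w : ℕ, w0 ≤ w →
    ∃ (R : ℕ) (K : ℝ), ∀ A : ℕ, ∀ᶠ N : ℕ in atTop, ∀ (Q : ℕ) [NeZero Q],
    K * Real.log N ≤ Q → (Q:ℝ) ≤ (Real.log N) ^ A → Wp w ∣ Q →
    ∃ (ξ : Fin R → ZMod Q) (a : Fin R → ℕ) (p : Fin R → ℝ) (b : Fin R → Fin R → ℂ),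
      (∀ j, a j < Wp w) ∧ (∀ j, 0 ≤ p j) ∧ (∑ j, p j = 1) ∧ (∀ j l, ‖b j l‖ ≤ R) ∧
      (∀ c : ℕ, c.Coprime (Wp w) →
        ∑ s : ZMod Q, |∑ j, p j * (if a j + s.val ≡ c [MOD Wp w] then gz w (a j) ξ (b j) s else 0) -
            1 / ((Wp w).totient : ℝ)| ≤ ε / (Wp w) * Q) ∧
      ∀ r : ℕ, 1 ≤ r → r ≤ k →
        ∑ e : Fin (r + 1) → ZMod Q,
          |(∑ n ∈ Finset.Ioc N (2 * N), ∏ i, lam N Q n (e i)) / N -
            ∑ j, p j * ∏ i, gz w (a j) ξ (b j) (e i)| ≤ ε * (Q:ℝ) ^ (r + 1) := by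
  classical
  -- thresholds from the inputs
  have hblk : ∀ r : ℕ, ∃ w0 : ℕ, ∀ w : ℕ, w0 ≤ w → ∃ δ : ℝ, 0 < δ ∧ ∃ K : ℝ, 1 ≤ r → r ≤ k →
      ∀ A : ℕ, ∀ᶠ N : ℕ in atTop, ∀ (Q : ℕ) [NeZero Q],
      K * Real.log N ≤ Q → (Q:ℝ) ≤ (Real.log N) ^ A → Wp w ∣ Q →
      ∀ P : Finset (ZMod Q), P.Nonempty → (∀ τ ∈ P, Wp w ∣ τ.val ∧ IsPer N Q δ τ) →
        ∑ e : Fin (r + 1) → ZMod Q,
          |(∑ n ∈ Finset.Ioc N (2 * N), ∏ i, lam N Q n (e i)) / N -
            (∑ n ∈ Finset.Ioc N (2 * N), ∏ i, tav P (lam N Q n) (e i)) / N| ≤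
        ε / 2 * (Q:ℝ) ^ (r + 1) := by
    intro r
    by_cases hr : 1 ≤ r
    · obtain ⟨w0, h⟩ := block_op r hr (ε / 2) (by positivity)
      refine ⟨w0, fun w hw => ?_⟩
      obtain ⟨δ, hδ, K, h⟩ := h w hw
      exact ⟨δ, hδ, K, fun _ _ => h⟩
    · exact ⟨0, fun w _ => ⟨1, one_pos, 0, fun h => absurd h hr⟩⟩
  choose w1 hw1 using hblk
  obtain ⟨C, hC1, w2, hmom⟩ := lam_moment k hk
  refine ⟨max w2 ((Finset.range (k + 1)).sup w1), fun w hw => ?_⟩
  have hww2 : w2 ≤ w := (le_max_left _ _).trans hw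
  have hww1 : ∀ r ∈ Finset.range (k + 1), w1 r ≤ w := fun r hr =>
    (Finset.le_sup hr).trans ((le_max_right _ _).trans hw)
  have hch : ∀ r : ℕ, ∃ (δ K : ℝ), 0 < δ ∧ (1 ≤ r → r ≤ k →
      ∀ A : ℕ, ∀ᶠ N : ℕ in atTop, ∀ (Q : ℕ) [NeZero Q],
      K * Real.log N ≤ Q → (Q:ℝ) ≤ (Real.log N) ^ A → Wp w ∣ Q →
      ∀ P : Finset (ZMod Q), P.Nonempty → (∀ τ ∈ P, Wp w ∣ τ.val ∧ IsPer N Q δ τ) →
        ∑ e : Fin (r + 1) → ZMod Q,
          |(∑ n ∈ Finset.Ioc N (2 * N), ∏ i, lam N Q n (e i)) / N -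
            (∑ n ∈ Finset.Ioc N (2 * N), ∏ i, tav P (lam N Q n) (e i)) / N| ≤
        ε / 2 * (Q:ℝ) ^ (r + 1)) := by
    intro r
    by_cases hr : r ∈ Finset.range (k + 1)
    · obtain ⟨δ, hδ, K, h⟩ := hw1 r w (hww1 r hr)
      exact ⟨δ, K, hδ, h⟩
    · exact ⟨1, 0, one_pos, fun _ h => absurd (Finset.mem_range.2 (by omega)) hr⟩
  choose δ K hδ hop using hch
  obtain ⟨Km, hmom⟩ := hmom w hww2
  -- the common almost period parameter
  have hne : (Finset.range (k + 1)).Nonempty := ⟨0, by simp⟩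
  set δ0 : ℝ := (Finset.range (k + 1)).inf' hne δ with hδ0
  have hδ0pos : 0 < δ0 := by
    rw [hδ0, Finset.lt_inf'_iff]
    exact fun r _ => hδ r
  have hδ0le : ∀ r, r ≤ k → δ0 ≤ δ r := fun r hr =>
    Finset.inf'_le δ (Finset.mem_range.2 (by omega))
  obtain ⟨c, hc, Kp, hper⟩ := exists_per w δ0 hδ0pos
  have hWpos : (0:ℝ) < (Wp w : ℝ) := by exact_mod_cast StStructAux.Wp_pos w
  have hW1 : (1:ℝ) ≤ (Wp w : ℝ) := by exact_mod_cast StStructAux.Wp_pos w
  -- Y and e4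
  set Y : ℝ := 8 * C * Wp w / ε with hYdef
  have hY : 0 < Y := by positivity
  have hCY : C / Y = ε / (8 * Wp w) := by
    rw [hYdef]; field_simp
  set e4 : ℝ := min 1 (ε / (8 * Wp w * (((k:ℝ) + 1) * (Y + 1) ^ k * 1 + 1))) with he4def
  have he4pos : 0 < e4 := by
    rw [he4def]
    apply lt_min one_pos
    positivity
  have he41 : e4 ≤ 1 := min_le_left _ _
  have he42 : e4 ≤ ε / (8 * Wp w * (((k:ℝ) + 1) * (Y + 1) ^ k * 1 + 1)) := min_le_right _ _
  have he43 : e4 ≤ ε / (8 * Wp w) := by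
    refine he42.trans (div_le_div_of_nonneg_left hε.le (by positivity) ?_)
    have : 0 ≤ ((k:ℝ) + 1) * (Y + 1) ^ k * 1 := by positivity
    nlinarith
  have he44 : ((k:ℝ) + 1) * (Y + 1) ^ k * e4 ≤ ε / 8 := by
    have h1 : ((k:ℝ) + 1) * (Y + 1) ^ k * e4 ≤ (((k:ℝ) + 1) * (Y + 1) ^ k * 1 + 1) *
        (ε / (8 * Wp w * (((k:ℝ) + 1) * (Y + 1) ^ k * 1 + 1))) := by
      gcongr
      linarith
    refine h1.trans ?_
    have h2 : (((k:ℝ) + 1) * (Y + 1) ^ k * 1 + 1) *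
        (ε / (8 * Wp w * (((k:ℝ) + 1) * (Y + 1) ^ k * 1 + 1))) = ε / (8 * Wp w) := by
      have : (0:ℝ) < ((k:ℝ) + 1) * (Y + 1) ^ k * 1 + 1 := by positivity
      field_simp
    rw [h2]
    apply div_le_div_of_nonneg_left hε.le (by norm_num)
    linarith
  obtain ⟨R0, hnet⟩ := tav_net c Y e4 hc hY he4pos
  set κ : ℝ := ε / (8 * Wp w) with hκ
  have hκpos : 0 < κ := by positivity
  refine ⟨Wp w * (R0 + 1), max (max Km Kp) ((Finset.range (k + 1)).sup' hne K), fun A => ?_⟩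
  have hopev : ∀ᶠ N : ℕ in atTop, ∀ r ∈ Finset.range (k + 1), (1 ≤ r → r ≤ k →
      ∀ (Q : ℕ) [NeZero Q],
      K r * Real.log N ≤ Q → (Q:ℝ) ≤ (Real.log N) ^ A → Wp w ∣ Q →
      ∀ P : Finset (ZMod Q), P.Nonempty → (∀ τ ∈ P, Wp w ∣ τ.val ∧ IsPer N Q (δ r) τ) →
        ∑ e : Fin (r + 1) → ZMod Q,
          |(∑ n ∈ Finset.Ioc N (2 * N), ∏ i, lam N Q n (e i)) / N -
            (∑ n ∈ Finset.Ioc N (2 * N), ∏ i, tav P (lam N Q n) (e i)) / N| ≤
        ε / 2 * (Q:ℝ) ^ (r + 1)) := by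
    rw [Filter.eventually_all_finset]
    intro r _
    by_cases hr : 1 ≤ r ∧ r ≤ k
    · filter_upwards [hop r hr.1 hr.2 A] with N hN
      exact fun _ _ => hN
    · refine Filter.Eventually.of_forall (fun N h1 h2 => absurd ⟨h1, h2⟩ hr)
  filter_upwards [hopev, hmom A, hper A, lam_class w κ hκpos A, Filter.eventually_ge_atTop (Wp w),
    Filter.eventually_ge_atTop 1] with N hN1 hN2 hN3 hN4 hN5 hN6
  intro Q _ hKQ hQA hWQ
  have hlog : 0 ≤ Real.log N := Real.log_nonneg (by exact_mod_cast hN6)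
  have hQpos : (0:ℝ) < Q := by
    have := NeZero.pos Q
    exact_mod_cast this
  have hKm : Km * Real.log N ≤ Q := (mul_le_mul_of_nonneg_right
    ((le_max_left _ _).trans (le_max_left _ _)) hlog).trans hKQ
  have hKp : Kp * Real.log N ≤ Q := (mul_le_mul_of_nonneg_right
    ((le_max_right _ _).trans (le_max_left _ _)) hlog).trans hKQ
  have hKr : ∀ r ∈ Finset.range (k + 1), K r * Real.log N ≤ Q := fun r hr =>
    (mul_le_mul_of_nonneg_right
    ((Finset.le_sup' K hr).trans (le_max_right _ _)) hlog).trans hKQ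
  obtain ⟨P, hPc, hP⟩ := hN3 Q hKp hQA hWQ
  have hPne : P.Nonempty := by
    rw [← Finset.card_pos]
    have : (0:ℝ) < (P.card : ℝ) := lt_of_lt_of_le (by positivity) hPc
    exact_mod_cast this
  obtain ⟨ξ0, b0, hb0, hnet⟩ := hnet Q P hPc
  obtain ⟨ξ, a, p, b, h1, h2, h3, h4, h5, h6⟩ := StStructAux.core k w C Y e4 κ R0 N Q hN5 hY
    he4pos.le hWQ P hPne (fun τ hτ => (hP τ hτ).1)
    (fun r hr1 hr2 => hN2 Q hKm hQA hWQ r hr1 (by omega)) ξ0 b0 hb0 hnet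
    (fun c hc s => hN4 Q hQA c hc s)
  refine ⟨ξ, a, p, b, h1, h2, h3, h4, fun c hc => (h5 c hc).trans ?_, fun r hr1 hr2 => ?_⟩
  · apply mul_le_mul_of_nonneg_right _ hQpos.le
    rw [hCY]
    have : ε / (8 * (Wp w : ℝ)) = ε / Wp w / 8 := by
      field_simp
    rw [hκ]
    have h0 : 0 ≤ ε / (Wp w : ℝ) := by positivity
    linarith
  · have h7 := hN1 r (Finset.mem_range.2 (by omega)) hr1 hr2 Q
      (hKr r (Finset.mem_range.2 (by omega))) hQA hWQ P hPne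
      (fun τ hτ => ⟨(hP τ hτ).1, (hP τ hτ).2.trans (by
        have := hδ0le r hr2
        gcongr)⟩)
    have h8 := h6 r hr1 hr2
    have h9 : ∑ e : Fin (r + 1) → ZMod Q,
          |(∑ n ∈ Finset.Ioc N (2 * N), ∏ i, lam N Q n (e i)) / N -
            ∑ j, p j * ∏ i, gz w (a j) ξ (b j) (e i)| ≤
        ε / 2 * (Q:ℝ) ^ (r + 1) +
        (((r:ℝ) + 1) * e4 * (Y + e4) ^ r + C / Y) * (Q:ℝ) ^ (r + 1) := by
      refine le_trans ?_ (add_le_add h7 h8)
      rw [← Finset.sum_add_distrib]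
      exact Finset.sum_le_sum (fun e _ => abs_sub_le _ _ _)
    refine h9.trans ?_
    rw [← add_mul]
    apply mul_le_mul_of_nonneg_right _ (by positivity)
    have h10 : ((r:ℝ) + 1) * e4 * (Y + e4) ^ r ≤ ε / 8 := by
      have h11 : (Y + e4) ^ r ≤ (Y + 1) ^ k := by
        calc (Y + e4) ^ r ≤ (Y + 1) ^ r := by gcongr
          _ ≤ (Y + 1) ^ k := pow_le_pow_right₀ (by linarith) hr2
      have h12 : (r:ℝ) ≤ k := by exact_mod_cast hr2
      calc ((r:ℝ) + 1) * e4 * (Y + e4) ^ r ≤ ((k:ℝ) + 1) * e4 * (Y + 1) ^ k := by gcongr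
        _ = ((k:ℝ) + 1) * (Y + 1) ^ k * e4 := by ring
        _ ≤ ε / 8 := he44
    have h13 : C / Y ≤ ε / 8 := by
      rw [hCY]
      apply div_le_div_of_nonneg_left hε.le (by norm_num)
      linarith
    linarith

end Pool.Agent.HLT
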