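import Mathlib
import Pool.Agent.HLT.StStruct
import Pool.Agent.HLT.ApShift

set_option autoImplicit false

open Finset Filter

namespace Pool.Agent.HLT

open Pool.Agent.HL26 Pool.Agent.Maynard

namespace StShiftAux

lemma Wpos (w : ℕ) : 0 < Wp w := Finset.prod_pos fun p hp => by
  have := (Finset.mem_filter.1 hp).2
  exact this.pos

lemma phi_pos (w : ℕ) : 0 < (Wp w).totient := Nat.totient_pos.2 (Wpos w)

/-- the twisted coefficients -/
noncomputable def bb {Q R : ℕ} (w a : ℕ) (ξ : Fin R → ZMod Q) (b : Fin R → ℂ) (l : Fin R) : ℂ :=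
  ((((Wp w).totient : ℝ) / (Wp w : ℝ) : ℝ) : ℂ) * b l *
    Complex.exp (((2 * Real.pi * (((ξ l).val : ℝ) / Q) * (-(a:ℝ)) : ℝ) : ℂ) * Complex.I)

lemma norm_bb_le {Q R : ℕ} (w a : ℕ) (ξ : Fin R → ZMod Q) (b : Fin R → ℂ) (l : Fin R) :
    ‖bb w a ξ b l‖ ≤ ‖b l‖ := by
  unfold bb
  rw [norm_mul, norm_mul, Complex.norm_exp_ofReal_mul_I, mul_one, Complex.norm_real,
    Real.norm_of_nonneg (by positivity)]
  have h1 : ((Wp w).totient : ℝ) / (Wp w : ℝ) ≤ 1 := by
    rw [div_le_one (by exact_mod_cast Wpos w)]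
    exact_mod_cast Nat.totient_le _
  exact mul_le_of_le_one_left (norm_nonneg _) h1

lemma re_exp (z : ℂ) (x : ℝ) :
    (z * Complex.exp ((x : ℂ) * Complex.I)).re = z.re * Real.cos x + -z.im * Real.sin x := by
  rw [Complex.mul_re, Complex.exp_ofReal_mul_I_re, Complex.exp_ofReal_mul_I_im]
  ring

lemma std_eq {Q : ℕ} [NeZero Q] (x s : ZMod Q) :
    (ZMod.stdAddChar (x * s) : ℂ) =
      Complex.exp (((2 * Real.pi * ((x.val : ℝ) / Q) * (s.val : ℝ) : ℝ) : ℂ) * Complex.I) := by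
  have h1 : x * s = (((x.val * s.val : ℕ) : ℤ) : ZMod Q) := by
    push_cast
    rw [ZMod.natCast_zmod_val, ZMod.natCast_zmod_val]
  rw [h1, ZMod.stdAddChar_coe]
  congr 1
  push_cast
  ring

/-- the structured function on `ZMod Q` as a function on `ℕ` -/
lemma gz_eq {Q R : ℕ} [NeZero Q] (w a : ℕ) (ξ : Fin R → ZMod Q) (b : Fin R → ℂ) (s : ZMod Q) :
    gz w a ξ b s = gw w (fun l => ((ξ l).val : ℝ) / Q) (fun l => (bb w a ξ b l).re)
      (fun l => -(bb w a ξ b l).im) (s.val + a) := by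
  have hW : (0:ℝ) < Wp w := by exact_mod_cast Wpos w
  have hphi : (0:ℝ) < (Wp w).totient := by exact_mod_cast phi_pos w
  unfold gz gw
  rw [add_comm a s.val]
  by_cases hc : (s.val + a).Coprime (Wp w)
  · rw [if_pos hc, if_pos hc]
    unfold tpz tp
    rw [mul_max_of_nonneg _ _ (by positivity), mul_zero]
    congr 1
    rw [Complex.re_sum, Finset.mul_sum]
    refine Finset.sum_congr rfl fun l _ => ?_
    have h1 : (bb w a ξ b l).re * Real.cos (2 * Real.pi * (((ξ l).val : ℝ) / Q) *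
          ((s.val + a : ℕ) : ℝ)) + -(bb w a ξ b l).im * Real.sin (2 * Real.pi *
          (((ξ l).val : ℝ) / Q) * ((s.val + a : ℕ) : ℝ)) =
        (bb w a ξ b l * Complex.exp (((2 * Real.pi * (((ξ l).val : ℝ) / Q) *
          ((s.val + a : ℕ) : ℝ) : ℝ) : ℂ) * Complex.I)).re := (re_exp _ _).symm
    rw [h1]
    have h2 : bb w a ξ b l * Complex.exp (((2 * Real.pi * (((ξ l).val : ℝ) / Q) *
          ((s.val + a : ℕ) : ℝ) : ℝ) : ℂ) * Complex.I) =
        ((((Wp w).totient : ℝ) / (Wp w : ℝ) : ℝ) : ℂ) * (b l *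
          (ZMod.stdAddChar (ξ l * s) : ℂ)) := by
      unfold bb
      rw [std_eq, mul_assoc, ← Complex.exp_add, mul_assoc]
      congr 3
      push_cast
      ring
    rw [h2, Complex.re_ofReal_mul]
    field_simp
  · rw [if_neg hc, if_neg hc]

lemma gw_nonneg {R : ℕ} (w : ℕ) (θ α β : Fin R → ℝ) (m : ℕ) : 0 ≤ gw w θ α β m := by
  unfold gw tp
  split_ifs
  · positivity
  · exact le_rfl

lemma gw_le {R : ℕ} (w : ℕ) (θ α β : Fin R → ℝ) (B : ℝ) (hB : 0 ≤ B)
    (h : ∀ l, |α l| ≤ B ∧ |β l| ≤ B) (m : ℕ) :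
    gw w θ α β m ≤ ((Wp w : ℝ) / ((Wp w).totient : ℝ)) * (R * (2 * B)) := by
  have hW : (0:ℝ) < Wp w := by exact_mod_cast Wpos w
  have hphi : (0:ℝ) < (Wp w).totient := by exact_mod_cast phi_pos w
  unfold gw tp
  split_ifs
  · apply mul_le_mul_of_nonneg_left _ (by positivity)
    apply max_le (by positivity)
    calc ∑ l, (α l * Real.cos (2 * Real.pi * θ l * m) + β l * Real.sin (2 * Real.pi * θ l * m))
        ≤ ∑ _l : Fin R, 2 * B := by
          refine Finset.sum_le_sum fun l _ => ?_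
          have h1 : α l * Real.cos (2 * Real.pi * θ l * m) ≤ B := by
            refine (le_abs_self _).trans ?_
            rw [abs_mul]
            exact (mul_le_of_le_one_right (abs_nonneg _) (Real.abs_cos_le_one _)).trans (h l).1
          have h2 : β l * Real.sin (2 * Real.pi * θ l * m) ≤ B := by
            refine (le_abs_self _).trans ?_
            rw [abs_mul]
            exact (mul_le_of_le_one_right (abs_nonneg _) (Real.abs_sin_le_one _)).trans (h l).2
          linarith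
      _ = R * (2 * B) := by simp
  · positivity

/-- the correlations of `lam` -/
lemma lam_prod {Q r : ℕ} (N : ℕ) (e : Fin r → ZMod Q) :
    (∑ n ∈ Finset.Ioc N (2 * N), ∏ i, lam N Q n (e i)) / N = rr N (fun i => (e i).val) := by
  have h1 : ∀ n ∈ Finset.Ioc N (2 * N), ∏ i, lam N Q n (e i) =
      if ∀ i, (n + (e i).val).Prime then (Real.log N) ^ r else 0 := by
    intro n _
    unfold lam
    by_cases h : ∀ i, (n + (e i).val).Prime
    · rw [if_pos h]
      rw [Finset.prod_congr rfl fun i _ => if_pos (h i)]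
      simp
    · rw [if_neg h]
      push Not at h
      obtain ⟨i, hi⟩ := h
      exact Finset.prod_eq_zero (Finset.mem_univ i) (if_neg hi)
  rw [Finset.sum_congr rfl h1, ← Finset.sum_filter, Finset.sum_const, nsmul_eq_mul]
  rfl

/-- shifting a sum over an interval -/
lemma shift_zero (F : ℕ → ℝ) (B : ℝ) (hF : ∀ m, 0 ≤ F m ∧ F m ≤ B) (H a : ℕ) :
    |∑ t ∈ Finset.range H, F (t + a) - ∑ t ∈ Finset.range H, F t| ≤ a * B := by
  induction a with
  | zero => simp
  | succ a ih =>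
    have h1 : ∑ t ∈ Finset.range H, F (t + (a + 1)) - ∑ t ∈ Finset.range H, F (t + a) =
        F (H + a) - F a := by
      have e1 := Finset.sum_range_succ (fun t => F (t + a)) H
      have e2 := Finset.sum_range_succ' (fun t => F (t + a)) H
      have e3 : ∑ t ∈ Finset.range H, F (t + 1 + a) = ∑ t ∈ Finset.range H, F (t + (a + 1)) :=
        Finset.sum_congr rfl fun t _ => by rw [add_assoc, add_comm 1 a]
      rw [e3] at e2
      simp only [zero_add] at e2
      linarith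
    have h2 : |F (H + a) - F a| ≤ B := by
      have := hF (H + a)
      have := hF a
      rw [abs_le]
      constructor <;> linarith
    have h3 : ∑ t ∈ Finset.range H, F (t + (a + 1)) - ∑ t ∈ Finset.range H, F t =
        (F (H + a) - F a) +
          (∑ t ∈ Finset.range H, F (t + a) - ∑ t ∈ Finset.range H, F t) := by
      rw [← h1]; ring
    rw [h3]
    refine (abs_add_le _ _).trans ?_
    push_cast
    linarith

lemma shift_sum (F : ℕ → ℝ) (B : ℝ) (hF : ∀ m, 0 ≤ F m ∧ F m ≤ B) (H a W : ℕ) (ha : a ≤ W) :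
    |∑ t ∈ Finset.range H, F (t + a) - ∑ m ∈ Finset.Icc 1 H, F m| ≤ (W + 1) * B := by
  have hB : 0 ≤ B := (hF 0).1.trans (hF 0).2
  have h1 := shift_zero F B hF H a
  have h2 := shift_zero F B hF H 1
  have h3 : ∑ m ∈ Finset.Icc 1 H, F m = ∑ t ∈ Finset.range H, F (t + 1) := by
    have e : Finset.Icc 1 H = Finset.Ico 1 (H + 1) := by
      ext m; simp only [Finset.mem_Icc, Finset.mem_Ico, Nat.lt_succ_iff]
    rw [e, Finset.sum_Ico_eq_sum_range]
    simp only [Nat.add_sub_cancel]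
    exact Finset.sum_congr rfl fun t _ => by rw [add_comm]
  rw [h3]
  have h4 : (a:ℝ) * B ≤ W * B := by
    apply mul_le_mul_of_nonneg_right _ hB
    exact_mod_cast ha
  rw [abs_le] at h1 h2 ⊢
  push_cast at h2
  constructor <;> nlinarith [h1.1, h1.2, h2.1, h2.2]

/-- the point of `ZMod Q` given by a difference tuple and a base point -/
def pt {r : ℕ} (Q : ℕ) (x : (Fin r → ℕ) × ℕ) : Fin (r + 1) → ZMod Q :=
  fun i => ((x.2 + (Fin.cons 0 x.1 : Fin (r + 1) → ℕ) i : ℕ) : ZMod Q)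

lemma pt_val {r : ℕ} {H Q : ℕ} [NeZero Q] (hQ : 2 * H ≤ Q) {D : Fin r → ℕ}
    (hD : D ∈ Fintype.piFinset (fun _ : Fin r => Finset.Icc 1 H)) {t : ℕ}
    (ht : t ∈ Finset.range H) (i : Fin (r + 1)) :
    (pt Q (D, t) i).val = t + (Fin.cons 0 D : Fin (r + 1) → ℕ) i := by
  unfold pt
  rw [ZMod.val_natCast, Nat.mod_eq_of_lt]
  have ht' := Finset.mem_range.1 ht
  rw [Fintype.mem_piFinset] at hD
  have h1 : (Fin.cons 0 D : Fin (r + 1) → ℕ) i ≤ H := by
    refine Fin.cases ?_ (fun j => ?_) i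
    · simp
    · simpa using (Finset.mem_Icc.1 (hD j)).2
  show t + (Fin.cons 0 D : Fin (r + 1) → ℕ) i < Q
  omega

lemma sum_pt_le {r : ℕ} {H Q : ℕ} [NeZero Q] (hQ : 2 * H ≤ Q)
    (G : (Fin (r + 1) → ZMod Q) → ℝ) (hG : ∀ e, 0 ≤ G e) :
    ∑ D ∈ Fintype.piFinset (fun _ : Fin r => Finset.Icc 1 H), ∑ t ∈ Finset.range H,
      G (pt Q (D, t)) ≤ ∑ e, G e := by
  rw [← Finset.sum_product' (f := fun D t => G (pt Q (D, t)))]
  have hinj : Set.InjOn (fun x : (Fin r → ℕ) × ℕ => pt Q x)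
      (Fintype.piFinset (fun _ : Fin r => Finset.Icc 1 H) ×ˢ Finset.range H :
        Finset ((Fin r → ℕ) × ℕ)) := by
    rintro ⟨D, t⟩ hx ⟨D', t'⟩ hx' he
    rw [Finset.mem_coe, Finset.mem_product] at hx hx'
    have h0 : ∀ i, t + (Fin.cons 0 D : Fin (r + 1) → ℕ) i =
        t' + (Fin.cons 0 D' : Fin (r + 1) → ℕ) i := by
      intro i
      rw [← pt_val hQ hx.1 hx.2 i, ← pt_val hQ hx'.1 hx'.2 i]
      have := congrFun he i
      exact congrArg ZMod.val this
    have h1 : t = t' := by simpa using h0 0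
    subst h1
    refine Prod.ext ?_ rfl
    funext j
    simpa using h0 j.succ
  rw [← Finset.sum_image (f := G) hinj]
  exact Finset.sum_le_sum_of_subset_of_nonneg (Finset.subset_univ _) fun e _ _ => hG e

lemma sum_cast_le {H Q : ℕ} [NeZero Q] (hQ : H ≤ Q) (G : ZMod Q → ℝ) (hG : ∀ s, 0 ≤ G s) :
    ∑ t ∈ Finset.range H, G ((t : ℕ) : ZMod Q) ≤ ∑ s, G s := by
  have hinj : Set.InjOn (fun t : ℕ => (t : ZMod Q)) (Finset.range H : Finset ℕ) := by
    intro t ht t' ht' he
    rw [Finset.mem_coe, Finset.mem_range] at ht ht'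
    have h1 := congrArg ZMod.val he
    simp only [ZMod.val_natCast] at h1
    rwa [Nat.mod_eq_of_lt (by omega), Nat.mod_eq_of_lt (by omega)] at h1
  rw [← Finset.sum_image (f := G) hinj]
  exact Finset.sum_le_sum_of_subset_of_nonneg (Finset.subset_univ _) fun e _ _ => hG e

lemma avg_t {J : ℕ} (p : Fin J → ℝ) (f : Fin J → ℕ → ℝ) (x : ℝ) {H : ℕ} (hH : 0 < H) :
    |x - ∑ j, p j * ((∑ t ∈ Finset.range H, f j t) / H)| ≤
      (∑ t ∈ Finset.range H, |x - ∑ j, p j * f j t|) / H := by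
  have hH0 : (0:ℝ) < H := by exact_mod_cast hH
  have h1 : x - ∑ j, p j * ((∑ t ∈ Finset.range H, f j t) / H) =
      (∑ t ∈ Finset.range H, (x - ∑ j, p j * f j t)) / H := by
    rw [Finset.sum_sub_distrib, Finset.sum_const, Finset.card_range, nsmul_eq_mul, sub_div,
      mul_div_cancel_left₀ _ hH0.ne', Finset.sum_comm, Finset.sum_div]
    congr 1
    refine Finset.sum_congr rfl fun j _ => ?_
    rw [← Finset.mul_sum, mul_div_assoc]
  rw [h1, abs_div, abs_of_pos hH0]
  exact div_le_div_of_nonneg_right (Finset.abs_sum_le_sum_abs _ _) hH0.le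

lemma avg_bound {J : ℕ} (p : Fin J → ℝ) (hp : ∀ j, 0 ≤ p j) (hp1 : ∑ j, p j = 1)
    (S S' : Fin J → ℝ) (x E C : ℝ) {H : ℝ} (hH : 0 < H)
    (h1 : |x - ∑ j, p j * (S' j / H)| ≤ E) (h2 : ∀ j, |S' j - S j| ≤ C) :
    |x - ∑ j, p j * (S j / H)| ≤ E + C / H := by
  have e : x - ∑ j, p j * (S j / H) = (x - ∑ j, p j * (S' j / H)) +
      ∑ j, p j * ((S' j - S j) / H) := by
    have : ∑ j, p j * ((S' j - S j) / H) = ∑ j, p j * (S' j / H) - ∑ j, p j * (S j / H) := by
      rw [← Finset.sum_sub_distrib]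
      refine Finset.sum_congr rfl fun j _ => ?_
      rw [sub_div]; ring
    rw [this]; ring
  rw [e]
  refine (abs_add_le _ _).trans (add_le_add h1 ?_)
  calc |∑ j, p j * ((S' j - S j) / H)| ≤ ∑ j, |p j * ((S' j - S j) / H)| :=
        Finset.abs_sum_le_sum_abs _ _
    _ ≤ ∑ j, p j * (C / H) := by
        refine Finset.sum_le_sum fun j _ => ?_
        rw [abs_mul, abs_of_nonneg (hp j), abs_div, abs_of_pos hH]
        have := hp j
        have := h2 j
        gcongr
    _ = C / H := by rw [← Finset.sum_mul, hp1, one_mul]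

end StShiftAux

open StShiftAux in
/-- S7: structure formula for one block, for tuples `(0, D)`. -/
theorem block_shift (k : ℕ) (hk : 1 ≤ k) (ε : ℝ) (hε : 0 < ε) : ∃ w0 : ℕ, ∀ w : ℕ, w0 ≤ w →
    ∃ (R : ℕ) (K : ℝ), ∀ A : ℕ, ∀ᶠ N : ℕ in atTop, ∀ H : ℕ,
    K * Real.log N ≤ H → (H:ℝ) ≤ (Real.log N) ^ A →
    ∃ (θ : Fin R → ℝ) (p : Fin R → ℝ) (α β : Fin R → Fin R → ℝ),
      (∀ j, 0 ≤ p j) ∧ (∑ j, p j = 1) ∧ (∀ j l, |α j l| ≤ R ∧ |β j l| ≤ R) ∧
      (∀ c : ℕ, c.Coprime (Wp w) →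
        |∑ j, p j * ((∑ m ∈ (Finset.Icc 1 H).filter (fun m => m ≡ c [MOD Wp w]),
          gw w θ (α j) (β j) m) / H) - 1 / ((Wp w).totient : ℝ)| ≤ ε / (Wp w)) ∧
      ∀ r : ℕ, 1 ≤ r → r ≤ k →
        ∑ D ∈ Fintype.piFinset (fun _ : Fin r => Finset.Icc 1 H),
          |rr N (Fin.cons 0 D : Fin (r + 1) → ℕ) -
            ∑ j, p j * ((∑ m ∈ Finset.Icc 1 H, ∏ i : Fin (r + 1),
              gw w θ (α j) (β j) (m + (Fin.cons 0 D : Fin (r + 1) → ℕ) i)) / H)| ≤
          ε * (H:ℝ) ^ r := by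
  set ε' : ℝ := ε / 4 ^ (k + 2) with hε'
  have hε'0 : 0 < ε' := by positivity
  obtain ⟨w0, h0⟩ := block_struct k hk ε' hε'0
  refine ⟨w0, fun w hw => ?_⟩
  obtain ⟨R, K, h1⟩ := h0 w hw
  refine ⟨R, max K 1, fun A => ?_⟩
  have hW : 0 < Wp w := Wpos w
  have hW0 : (0:ℝ) < Wp w := by exact_mod_cast hW
  have hW1 : (1:ℝ) ≤ Wp w := by exact_mod_cast hW
  set B : ℝ := max (((Wp w : ℝ) / ((Wp w).totient : ℝ)) * (R * (2 * R))) 1 with hB
  have hB1 : 1 ≤ B := le_max_right _ _
  set C0 : ℝ := (Wp w + 1) * B ^ (k + 1) with hC0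
  have hC00 : 0 < C0 := by positivity
  have e1 := h1 (A + 1)
  have e2 : ∀ᶠ N : ℕ in atTop, ∀ r ∈ Finset.range (k + 1), ∀ (e : Fin (r + 1) → ℕ) (t : ℕ),
      (t:ℝ) ≤ (Real.log N) ^ A → |rr N (fun i => e i + t) - rr N e| ≤ ε / 4 := by
    rw [Filter.eventually_all_finset]
    intro r _
    exact rr_shift (r + 1) A (ε / 4) (by positivity)
  have e3 : ∀ᶠ N : ℕ in atTop, max 3 (max (Wp w : ℝ) (C0 * 4 * Wp w / ε)) ≤ Real.log N :=
    (Real.tendsto_log_atTop.comp tendsto_natCast_atTop_atTop).eventually_ge_atTop _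
  filter_upwards [e1, e2, e3] with N hN1 hN2 hN3 H hKH hHA
  have hL3 : 3 ≤ Real.log N := (le_max_left _ _).trans hN3
  have hLW : (Wp w : ℝ) ≤ Real.log N := (le_max_left _ _).trans ((le_max_right _ _).trans hN3)
  have hLC : C0 * 4 * Wp w / ε ≤ Real.log N :=
    (le_max_right _ _).trans ((le_max_right _ _).trans hN3)
  have hL0 : 0 ≤ Real.log N := by linarith
  have hKH1 : K * Real.log N ≤ H := (mul_le_mul_of_nonneg_right (le_max_left _ _) hL0).trans hKH
  have hLH : Real.log N ≤ H := by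
    have := (mul_le_mul_of_nonneg_right (le_max_right K 1) hL0).trans hKH
    rwa [one_mul] at this
  have hH0 : (0:ℝ) < H := by linarith
  have hHpos : 0 < H := by exact_mod_cast hH0
  have hWH : Wp w ≤ H := by exact_mod_cast hLW.trans hLH
  have hCH : C0 / H ≤ ε / 4 / Wp w := by
    have h2 : C0 * 4 * Wp w / ε ≤ H := hLC.trans hLH
    rw [div_le_iff₀ hε] at h2
    rw [div_div, div_le_div_iff₀ hH0 (by positivity)]
    linarith
  have hCH' : C0 / H ≤ ε / 4 := hCH.trans (div_le_self (by positivity) hW1)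
  -- the modulus
  set Q : ℕ := Wp w * (2 * H / Wp w + 1) with hQ
  have hQ2 : 2 * H ≤ Q := (Nat.lt_mul_div_succ (2 * H) hW).le
  have hQ3 : Q ≤ 3 * H := by
    have : Wp w * (2 * H / Wp w) ≤ 2 * H := Nat.mul_div_le _ _
    rw [hQ, mul_add, mul_one]
    omega
  have : NeZero Q := ⟨by omega⟩
  have hQH : (Q:ℝ) ≤ 3 * H := by exact_mod_cast hQ3
  have hHQ : (H:ℝ) ≤ Q := by exact_mod_cast (by omega : H ≤ Q)
  have hQA : (Q:ℝ) ≤ (Real.log N) ^ (A + 1) := by
    rw [pow_succ]
    have : 0 ≤ (Real.log N) ^ A := by positivity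
    nlinarith
  obtain ⟨ξ, a, p, b, ha, hp, hp1, hb, hi, hii⟩ := hN1 Q (hKH1.trans hHQ) hQA (Dvd.intro _ rfl)
  set θ : Fin R → ℝ := fun l => ((ξ l).val : ℝ) / Q with hθ
  set α : Fin R → Fin R → ℝ := fun j l => (bb w (a j) ξ (b j) l).re with hα
  set β : Fin R → Fin R → ℝ := fun j l => -(bb w (a j) ξ (b j) l).im with hβ
  have hgz : ∀ j (s : ZMod Q), gz w (a j) ξ (b j) s = gw w θ (α j) (β j) (s.val + a j) :=
    fun j s => gz_eq w (a j) ξ (b j) s
  have hab : ∀ j l, |α j l| ≤ R ∧ |β j l| ≤ R := by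
    intro j l
    have h2 := (norm_bb_le w (a j) ξ (b j) l).trans (hb j l)
    refine ⟨(Complex.abs_re_le_norm _).trans h2, ?_⟩
    rw [hβ]
    simp only [abs_neg]
    exact (Complex.abs_im_le_norm _).trans h2
  have hgB : ∀ j m, gw w θ (α j) (β j) m ≤ B := fun j m =>
    (gw_le w θ (α j) (β j) R (Nat.cast_nonneg _) (hab j) m).trans (le_max_left _ _)
  refine ⟨θ, p, α, β, hp, hp1, hab, ?_, ?_⟩
  · -- the means
    intro c hc
    rw [abs_sub_comm]
    have hF : ∀ j m, 0 ≤ (if m ≡ c [MOD Wp w] then gw w θ (α j) (β j) m else 0) ∧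
        (if m ≡ c [MOD Wp w] then gw w θ (α j) (β j) m else 0) ≤ B := by
      intro j m
      split_ifs
      · exact ⟨gw_nonneg _ _ _ _ _, hgB j m⟩
      · exact ⟨le_rfl, by linarith⟩
    have h2 : |1 / ((Wp w).totient : ℝ) - ∑ j, p j * ((∑ t ∈ Finset.range H,
        (if t + a j ≡ c [MOD Wp w] then gw w θ (α j) (β j) (t + a j) else 0)) / H)| ≤
          ε / 4 / Wp w := by
      refine (avg_t p _ _ hHpos).trans ?_
      rw [div_le_iff₀ hH0]
      have h3 := sum_cast_le (H := H) (Q := Q) (by omega) (fun s => |∑ j, p j *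
        (if a j + s.val ≡ c [MOD Wp w] then gz w (a j) ξ (b j) s else 0) -
          1 / ((Wp w).totient : ℝ)|) (fun s => abs_nonneg _)
      have h4 : ∑ t ∈ Finset.range H, |1 / ((Wp w).totient : ℝ) - ∑ j, p j *
          (if t + a j ≡ c [MOD Wp w] then gw w θ (α j) (β j) (t + a j) else 0)| =
        ∑ t ∈ Finset.range H, |∑ j, p j *
          (if a j + ((t : ℕ) : ZMod Q).val ≡ c [MOD Wp w] then
            gz w (a j) ξ (b j) ((t : ℕ) : ZMod Q) else 0) - 1 / ((Wp w).totient : ℝ)| := by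
        refine Finset.sum_congr rfl fun t ht => ?_
        have ht' := Finset.mem_range.1 ht
        have h5 : ((t : ℕ) : ZMod Q).val = t := by
          rw [ZMod.val_natCast, Nat.mod_eq_of_lt (by omega)]
        rw [abs_sub_comm]
        congr 2
        refine Finset.sum_congr rfl fun j _ => ?_
        rw [hgz, h5, add_comm (a j) t]
      rw [h4]
      refine (h3.trans (hi c hc)).trans ?_
      calc ε' / Wp w * Q ≤ ε' / Wp w * (3 * H) := by gcongr
        _ = 3 * ε' / Wp w * H := by ring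
        _ ≤ ε / 4 / Wp w * H := by
          have h5 : 3 * ε' ≤ ε / 4 := by
            rw [hε', pow_add]
            have h6 : (1:ℝ) ≤ 4 ^ k := one_le_pow₀ (by norm_num)
            have h7 : ε / (4 ^ k * 4 ^ 2) ≤ ε / (1 * 4 ^ 2) := by gcongr
            linarith
          gcongr
    have h3 := avg_bound p hp hp1 (fun j => ∑ m ∈ Finset.Icc 1 H,
      (if m ≡ c [MOD Wp w] then gw w θ (α j) (β j) m else 0)) _ _ _ C0 hH0 h2 (fun j => by
        refine (shift_sum _ B (hF j) H (a j) (Wp w) (ha j).le).trans ?_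
        rw [hC0]
        have : B ≤ B ^ (k + 1) := le_self_pow₀ hB1 (by omega)
        gcongr)
    have h4 : ∀ j, ∑ m ∈ (Finset.Icc 1 H).filter (fun m => m ≡ c [MOD Wp w]),
        gw w θ (α j) (β j) m = ∑ m ∈ Finset.Icc 1 H,
          (if m ≡ c [MOD Wp w] then gw w θ (α j) (β j) m else 0) := fun j =>
      Finset.sum_filter _ _
    simp only [h4]
    refine h3.trans ?_
    have : ε / Wp w = 4 * (ε / 4 / Wp w) := by ring
    have h5 : 0 ≤ ε / 4 / Wp w := by positivity
    linarith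
  · -- the correlations
    intro r hr1 hrk
    set G : (Fin (r + 1) → ZMod Q) → ℝ := fun e =>
      |(∑ n ∈ Finset.Ioc N (2 * N), ∏ i, lam N Q n (e i)) / N -
            ∑ j, p j * ∏ i, gz w (a j) ξ (b j) (e i)| with hG
    have hpt : ∀ D ∈ Fintype.piFinset (fun _ : Fin r => Finset.Icc 1 H),
        |rr N (Fin.cons 0 D : Fin (r + 1) → ℕ) -
            ∑ j, p j * ((∑ m ∈ Finset.Icc 1 H, ∏ i : Fin (r + 1),
              gw w θ (α j) (β j) (m + (Fin.cons 0 D : Fin (r + 1) → ℕ) i)) / H)| ≤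
          (ε / 4 + (∑ t ∈ Finset.range H, G (pt Q (D, t))) / H) + C0 / H := by
      intro D hD
      refine avg_bound p hp hp1 _ (fun j => ∑ t ∈ Finset.range H, ∏ i : Fin (r + 1),
        gw w θ (α j) (β j) (t + a j + (Fin.cons 0 D : Fin (r + 1) → ℕ) i)) _ _ C0 hH0 ?_ ?_
      · refine (avg_t p _ _ hHpos).trans ?_
        rw [div_le_iff₀ hH0, add_mul, div_mul_cancel₀ _ hH0.ne']
        calc _ ≤ ∑ t ∈ Finset.range H, (ε / 4 + G (pt Q (D, t))) := by
              refine Finset.sum_le_sum fun t ht => ?_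
              have ht' := Finset.mem_range.1 ht
              have h5 : (∑ n ∈ Finset.Ioc N (2 * N), ∏ i, lam N Q n (pt Q (D, t) i)) / N =
                  rr N (fun i => (Fin.cons 0 D : Fin (r + 1) → ℕ) i + t) := by
                rw [lam_prod]
                congr 1
                funext i
                rw [pt_val hQ2 hD ht, add_comm]
              have h6 : ∑ j, p j * ∏ i, gz w (a j) ξ (b j) (pt Q (D, t) i) =
                  ∑ j, p j * ∏ i : Fin (r + 1),
                    gw w θ (α j) (β j) (t + a j + (Fin.cons 0 D : Fin (r + 1) → ℕ) i) := by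
                refine Finset.sum_congr rfl fun j _ => ?_
                congr 1
                refine Finset.prod_congr rfl fun i _ => ?_
                rw [hgz, pt_val hQ2 hD ht]
                congr 1
                ring
              have h7 := hN2 r (Finset.mem_range.2 (by omega))
                (Fin.cons 0 D : Fin (r + 1) → ℕ) t (le_trans (by exact_mod_cast ht'.le) hHA)
              simp only [hG]
              rw [h5, h6]
              set X := ∑ j, p j * ∏ i : Fin (r + 1),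
                    gw w θ (α j) (β j) (t + a j + (Fin.cons 0 D : Fin (r + 1) → ℕ) i)
              have h8 : rr N (Fin.cons 0 D : Fin (r + 1) → ℕ) - X =
                  (rr N (Fin.cons 0 D : Fin (r + 1) → ℕ) -
                    rr N (fun i => (Fin.cons 0 D : Fin (r + 1) → ℕ) i + t)) +
                  (rr N (fun i => (Fin.cons 0 D : Fin (r + 1) → ℕ) i + t) - X) := by ring
              rw [h8]
              refine (abs_add_le _ _).trans (add_le_add ?_ le_rfl)
              rw [abs_sub_comm]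
              exact h7
          _ = ε / 4 * H + ∑ t ∈ Finset.range H, G (pt Q (D, t)) := by
              rw [Finset.sum_add_distrib, Finset.sum_const, Finset.card_range, nsmul_eq_mul]
              ring
      · intro j
        have h5 := shift_sum (fun m => ∏ i : Fin (r + 1),
          gw w θ (α j) (β j) (m + (Fin.cons 0 D : Fin (r + 1) → ℕ) i)) (B ^ (r + 1))
          (fun m => ⟨Finset.prod_nonneg fun i _ => gw_nonneg _ _ _ _ _, by
            calc ∏ i : Fin (r + 1), gw w θ (α j) (β j)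
                  (m + (Fin.cons 0 D : Fin (r + 1) → ℕ) i) ≤ ∏ _i : Fin (r + 1), B :=
                  Finset.prod_le_prod (fun i _ => gw_nonneg _ _ _ _ _) (fun i _ => hgB j _)
              _ = B ^ (r + 1) := by simp⟩) H (a j) (Wp w) (ha j).le
        refine h5.trans ?_
        rw [hC0]
        have : B ^ (r + 1) ≤ B ^ (k + 1) := pow_le_pow_right₀ hB1 (by omega)
        gcongr
    refine (Finset.sum_le_sum hpt).trans ?_
    have hcard : ((Fintype.piFinset (fun _ : Fin r => Finset.Icc 1 H)).card : ℝ) =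
        (H:ℝ) ^ r := by
      rw [Fintype.card_piFinset]
      simp
    rw [Finset.sum_add_distrib, Finset.sum_add_distrib, Finset.sum_const, Finset.sum_const,
      nsmul_eq_mul, nsmul_eq_mul, hcard, ← Finset.sum_div]
    have h5 := (sum_pt_le hQ2 G (fun e => abs_nonneg _)).trans (hii r hr1 hrk)
    have h6 : (∑ D ∈ Fintype.piFinset (fun _ : Fin r => Finset.Icc 1 H),
        ∑ t ∈ Finset.range H, G (pt Q (D, t))) / H ≤ ε / 4 * (H:ℝ) ^ r := by
      rw [div_le_iff₀ hH0]
      refine h5.trans ?_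
      have h7 : (Q:ℝ) ^ (r + 1) ≤ (4 * H) ^ (r + 1) := by
        apply pow_le_pow_left₀ (Nat.cast_nonneg _)
        linarith
      calc ε' * (Q:ℝ) ^ (r + 1) ≤ ε' * (4 * H) ^ (r + 1) := by gcongr
        _ = ε' * 4 ^ (r + 1) * (H:ℝ) ^ (r + 1) := by rw [mul_pow]; ring
        _ ≤ ε / 4 * (H:ℝ) ^ (r + 1) := by
          have h8 : ε' * 4 ^ (r + 1) ≤ ε / 4 := by
            have h9 : (4:ℝ) ^ (r + 1) ≤ 4 ^ (k + 1) := pow_le_pow_right₀ (by norm_num) (by omega)
            calc ε' * 4 ^ (r + 1) ≤ ε' * 4 ^ (k + 1) := by gcongr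
              _ = ε / 4 := by
                rw [hε', pow_succ (4:ℝ) (k + 1)]
                field_simp
          gcongr
        _ = ε / 4 * (H:ℝ) ^ r * H := by rw [pow_succ]; ring
    have h7 : (H:ℝ) ^ r * (C0 / H) ≤ (H:ℝ) ^ r * (ε / 4) :=
      mul_le_mul_of_nonneg_left hCH' (by positivity)
    have h8 : 0 ≤ ε * (H:ℝ) ^ r := by positivity
    linarith

end Pool.Agent.HLT
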