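import Mathlib
import Pool.Agent.HLT.StShift
import Pool.Agent.HLT.APMoment

set_option autoImplicit false

open Finset Filter Topology

namespace Pool.Agent.HLT

open Pool.Agent.HL26 Pool.Agent.Maynard

namespace StFinalAux

lemma nat_eq (x : ℝ) (i : ℕ) : (⌊x⌋₊ / 2 ^ (i + 1) : ℕ) = ⌊(1 / 2 ^ (i + 1) : ℝ) * x⌋₊ := by
  have h := Nat.floor_div_natCast x (2 ^ (i + 1))
  rw [← h]
  congr 1
  push_cast
  ring

lemma tendsto_nat (i : ℕ) : Tendsto (fun x : ℝ => (⌊x⌋₊ / 2 ^ (i + 1) : ℕ)) atTop atTop := by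
  simp_rw [nat_eq]
  exact tendsto_nat_floor_atTop.comp (tendsto_id.const_mul_atTop (by positivity))

lemma tendsto_ratio (i : ℕ) : Tendsto (fun x : ℝ => ((⌊x⌋₊ / 2 ^ (i + 1) : ℕ) : ℝ) / x) atTop
    (𝓝 (1 / 2 ^ (i + 1))) := by
  simp_rw [nat_eq]
  exact tendsto_nat_floor_mul_div_atTop (by positivity)

lemma tendsto_logratio (i : ℕ) : Tendsto (fun x : ℝ => Real.log x /
    Real.log ((⌊x⌋₊ / 2 ^ (i + 1) : ℕ) : ℝ)) atTop (𝓝 1) := by
  have h1 : Tendsto (fun x : ℝ => Real.log (((⌊x⌋₊ / 2 ^ (i + 1) : ℕ) : ℝ) / x)) atTop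
      (𝓝 (Real.log (1 / 2 ^ (i + 1)))) :=
    (Real.continuousAt_log (by positivity)).tendsto.comp (tendsto_ratio i)
  have h2 : Tendsto (fun x : ℝ => Real.log (((⌊x⌋₊ / 2 ^ (i + 1) : ℕ) : ℝ) / x) / Real.log x) atTop
      (𝓝 0) := h1.div_atTop Real.tendsto_log_atTop
  have h3 : Tendsto (fun x : ℝ => (1 + Real.log (((⌊x⌋₊ / 2 ^ (i + 1) : ℕ) : ℝ) / x) /
      Real.log x)⁻¹) atTop (𝓝 ((1 + 0)⁻¹)) :=
    (tendsto_const_nhds.add h2).inv₀ (by norm_num)
  have h4 : ((1:ℝ) + 0)⁻¹ = 1 := by norm_num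
  rw [h4] at h3
  refine h3.congr' ?_
  filter_upwards [eventually_gt_atTop 1, (tendsto_nat i).eventually_ge_atTop 2] with x hx hN
  have hx0 : 0 < x := by linarith
  have hlog : 0 < Real.log x := Real.log_pos hx
  have hNr : (0:ℝ) < ((⌊x⌋₊ / 2 ^ (i + 1) : ℕ) : ℝ) := by
    exact_mod_cast (by omega : 0 < ⌊x⌋₊ / 2 ^ (i + 1))
  rw [Real.log_div hNr.ne' hx0.ne']
  have h5 : 1 + (Real.log ((⌊x⌋₊ / 2 ^ (i + 1) : ℕ) : ℝ) - Real.log x) / Real.log x =
      Real.log ((⌊x⌋₊ / 2 ^ (i + 1) : ℕ) : ℝ) / Real.log x := by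
    field_simp
    ring
  rw [h5, inv_div]

/-- the weights of the blocks -/
noncomputable def wt (r : ℕ) (x : ℝ) (i : ℕ) : ℝ := ((⌊x⌋₊ / 2 ^ (i + 1) : ℕ) : ℝ) / x *
          (Real.log x / Real.log ((⌊x⌋₊ / 2 ^ (i + 1) : ℕ) : ℝ)) ^ r

lemma tendsto_wt (r i : ℕ) : Tendsto (fun x => wt r x i) atTop (𝓝 (1 / 2 ^ (i + 1))) := by
  unfold wt
  have h := (tendsto_ratio i).mul ((tendsto_logratio i).pow r)
  simpa using h

lemma sum_half (I : ℕ) : ∑ i ∈ Finset.range I, (1:ℝ) / 2 ^ (i + 1) = 1 - 1 / 2 ^ I := by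
  induction I with
  | zero => simp
  | succ I ih =>
    rw [Finset.sum_range_succ, ih, pow_succ]
    field_simp
    ring

/-- for large `x` the weights of the blocks are close to `2 ^ (-i-1)` -/
lemma ev_wt (r I0 : ℕ) (κ : ℝ) (hκ : 0 < κ) : ∀ᶠ x : ℝ in atTop, ∀ i ∈ Finset.range I0,
    0 ≤ wt r x i ∧ wt r x i ≤ 1 ∧ |wt r x i - 1 / 2 ^ (i + 1)| ≤ κ := by
  rw [Filter.eventually_all_finset]
  intro i _
  have h6 : (1:ℝ) / 2 ^ (i + 1) < 1 := by
    rw [div_lt_one (by positivity)]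
    exact one_lt_pow₀ (by norm_num) (by omega)
  have h3 := (tendsto_iff_norm_sub_tendsto_zero.mp (tendsto_wt r i))
  filter_upwards [(tendsto_wt r i).eventually_le_const h6, eventually_ge_atTop 1,
    h3.eventually_le_const hκ] with x hx hx0 hx1
  refine ⟨?_, hx, hx1⟩
  unfold wt
  exact mul_nonneg (div_nonneg (Nat.cast_nonneg _) (by linarith)) (pow_nonneg
    (div_nonneg (Real.log_nonneg hx0) (Real.log_natCast_nonneg _)) _)

/-! ### gluing the structures of the blocks -/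

variable {R : ℕ}

/-- the frequencies of all blocks -/
noncomputable def gθ (I0 : ℕ) (θ : ℕ → Fin R → ℝ) : Fin (I0 * R + 1) → ℝ :=
  Fin.snoc (α := fun _ => ℝ)
    (fun q : Fin (I0 * R) => θ (finProdFinEquiv.symm q).1 (finProdFinEquiv.symm q).2) 0

/-- the weights of all blocks -/
noncomputable def gp (I0 : ℕ) (p : ℕ → Fin R → ℝ) : Fin (I0 * R + 1) → ℝ :=
  Fin.snoc (α := fun _ => ℝ)
    (fun q : Fin (I0 * R) => 1 / 2 ^ (((finProdFinEquiv.symm q).1 : ℕ) + 1) *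
      p (finProdFinEquiv.symm q).1 (finProdFinEquiv.symm q).2) (1 / 2 ^ I0)

/-- the coefficients of all blocks -/
noncomputable def gα (I0 : ℕ) (α : ℕ → Fin R → Fin R → ℝ) :
    Fin (I0 * R + 1) → Fin (I0 * R + 1) → ℝ :=
  Fin.snoc (α := fun _ => Fin (I0 * R + 1) → ℝ)
    (fun q : Fin (I0 * R) => Fin.snoc (α := fun _ => ℝ)
      (fun q' : Fin (I0 * R) => if (finProdFinEquiv.symm q').1 = (finProdFinEquiv.symm q).1 then
        α (finProdFinEquiv.symm q).1 (finProdFinEquiv.symm q).2 (finProdFinEquiv.symm q').2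
          else 0) 0) (fun _ => 0)

lemma tp_glue (I0 : ℕ) (θ : ℕ → Fin R → ℝ) (α β : ℕ → Fin R → Fin R → ℝ) (i : Fin I0) (j : Fin R)
    (m : ℕ) : tp (gθ I0 θ) (gα I0 α (Fin.castSucc (finProdFinEquiv (i, j))))
      (gα I0 β (Fin.castSucc (finProdFinEquiv (i, j)))) m = tp (θ i) (α i j) (β i j) m := by
  unfold tp
  congr 1
  rw [Fin.sum_univ_castSucc]
  unfold gθ gα
  simp only [Fin.snoc_castSucc, Fin.snoc_last, zero_mul, add_zero, Equiv.symm_apply_apply]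
  rw [← Equiv.sum_comp finProdFinEquiv, Fintype.sum_prod_type]
  simp only [Equiv.symm_apply_apply, ite_mul, zero_mul]
  rw [Finset.sum_eq_single i]
  · refine Finset.sum_congr rfl fun l _ => ?_
    simp
  · intro i' _ hi'
    refine Finset.sum_eq_zero fun l _ => ?_
    simp [hi']
  · intro h
    exact absurd (Finset.mem_univ i) h

lemma tp_glue_last (I0 : ℕ) (θ : ℕ → Fin R → ℝ) (α β : ℕ → Fin R → Fin R → ℝ)
    (m : ℕ) : tp (gθ I0 θ) (gα I0 α (Fin.last _)) (gα I0 β (Fin.last _)) m = 0 := by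
  unfold tp gα
  simp [Fin.snoc_last]

lemma gw_glue (w I0 : ℕ) (θ : ℕ → Fin R → ℝ) (α β : ℕ → Fin R → Fin R → ℝ) (i : Fin I0) (j : Fin R)
    (m : ℕ) : gw w (gθ I0 θ) (gα I0 α (Fin.castSucc (finProdFinEquiv (i, j))))
      (gα I0 β (Fin.castSucc (finProdFinEquiv (i, j)))) m = gw w (θ i) (α i j) (β i j) m := by
  unfold gw
  rw [tp_glue]

lemma gw_glue_last (w I0 : ℕ) (θ : ℕ → Fin R → ℝ) (α β : ℕ → Fin R → Fin R → ℝ)
    (m : ℕ) : gw w (gθ I0 θ) (gα I0 α (Fin.last _)) (gα I0 β (Fin.last _)) m = 0 := by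
  unfold gw
  rw [tp_glue_last, mul_zero, ite_self]

/-- the weighted sum over all blocks -/
lemma gp_sum (I0 : ℕ) (p : ℕ → Fin R → ℝ) (F : Fin (I0 * R + 1) → ℝ) :
    ∑ q, gp I0 p q * F q = (∑ i : Fin I0, 1 / 2 ^ ((i : ℕ) + 1) *
      ∑ j, p i j * F (Fin.castSucc (finProdFinEquiv (i, j)))) + 1 / 2 ^ I0 * F (Fin.last _) := by
  rw [Fin.sum_univ_castSucc]
  unfold gp
  simp only [Fin.snoc_castSucc, Fin.snoc_last]
  rw [← Equiv.sum_comp finProdFinEquiv, Fintype.sum_prod_type]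
  simp only [Equiv.symm_apply_apply]
  congr 1
  refine Finset.sum_congr rfl fun i _ => ?_
  rw [Finset.mul_sum]
  refine Finset.sum_congr rfl fun j _ => ?_
  ring

lemma gp_nonneg (I0 : ℕ) (p : ℕ → Fin R → ℝ) (hp : ∀ i < I0, ∀ j, 0 ≤ p i j)
    (q : Fin (I0 * R + 1)) : 0 ≤ gp I0 p q := by
  unfold gp
  refine Fin.lastCases ?_ (fun q => ?_) q
  · rw [Fin.snoc_last]
    positivity
  · rw [Fin.snoc_castSucc]
    exact mul_nonneg (by positivity) (hp _ (finProdFinEquiv.symm q).1.2 _)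

lemma gp_total (I0 : ℕ) (p : ℕ → Fin R → ℝ) (hp : ∀ i < I0, ∑ j, p i j = 1) :
    ∑ q, gp I0 p q = 1 := by
  have h := gp_sum I0 p (fun _ => 1)
  simp only [mul_one] at h
  rw [h]
  have h1 : ∑ i : Fin I0, (1:ℝ) / 2 ^ ((i : ℕ) + 1) * ∑ j, p i j =
      ∑ i ∈ Finset.range I0, (1:ℝ) / 2 ^ (i + 1) := by
    rw [Finset.sum_range]
    refine Finset.sum_congr rfl fun i _ => ?_
    rw [hp i i.2, mul_one]
  rw [h1, sum_half]
  ring

lemma gα_bound (I0 : ℕ) (α : ℕ → Fin R → Fin R → ℝ) (B : ℝ) (hB : 0 ≤ B)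
    (hα : ∀ i < I0, ∀ j l, |α i j l| ≤ B) (q q' : Fin (I0 * R + 1)) : |gα I0 α q q'| ≤ B := by
  unfold gα
  refine Fin.lastCases ?_ (fun q => ?_) q
  · rw [Fin.snoc_last, abs_zero]
    exact hB
  · rw [Fin.snoc_castSucc]
    refine Fin.lastCases ?_ (fun q' => ?_) q'
    · rw [Fin.snoc_last, abs_zero]
      exact hB
    · rw [Fin.snoc_castSucc]
      split_ifs
      · exact hα _ (finProdFinEquiv.symm q).1.2 _ _
      · rw [abs_zero]
        exact hB

/-! ### bounds for the model -/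

lemma tp_nonneg (θ α β : Fin R → ℝ) (m : ℕ) : 0 ≤ tp θ α β m := le_max_left _ _

lemma tp_le (θ α β : Fin R → ℝ) (B : ℝ) (hB : 0 ≤ B) (hα : ∀ l, |α l| ≤ B) (hβ : ∀ l, |β l| ≤ B)
    (m : ℕ) : tp θ α β m ≤ 2 * B * R := by
  unfold tp
  refine max_le (by positivity) ?_
  calc ∑ l, (α l * Real.cos (2 * Real.pi * θ l * m) + β l * Real.sin (2 * Real.pi * θ l * m)) ≤
      ∑ l : Fin R, 2 * B := by
        refine Finset.sum_le_sum fun l _ => ?_
        have h1 : α l * Real.cos (2 * Real.pi * θ l * m) ≤ B := by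
          refine (le_abs_self _).trans ?_
          rw [abs_mul]
          calc _ ≤ B * 1 := mul_le_mul (hα l) (Real.abs_cos_le_one _) (abs_nonneg _) hB
            _ = B := mul_one B
        have h2 : β l * Real.sin (2 * Real.pi * θ l * m) ≤ B := by
          refine (le_abs_self _).trans ?_
          rw [abs_mul]
          calc _ ≤ B * 1 := mul_le_mul (hβ l) (Real.abs_sin_le_one _) (abs_nonneg _) hB
            _ = B := mul_one B
        linarith
    _ = 2 * B * R := by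
        rw [Finset.sum_const, Finset.card_univ, Fintype.card_fin, nsmul_eq_mul]
        ring

lemma gw_nonneg (w : ℕ) (θ α β : Fin R → ℝ) (m : ℕ) : 0 ≤ gw w θ α β m := by
  unfold gw
  split_ifs
  · exact mul_nonneg (by positivity) (tp_nonneg _ _ _ _)
  · exact le_rfl

lemma gw_le (w : ℕ) (θ α β : Fin R → ℝ) (B : ℝ) (hB : 0 ≤ B) (hα : ∀ l, |α l| ≤ B)
    (hβ : ∀ l, |β l| ≤ B) (m : ℕ) :
    gw w θ α β m ≤ ((Wp w : ℝ) / ((Wp w).totient : ℝ)) * (2 * B * R) := by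
  unfold gw
  split_ifs
  · exact mul_le_mul_of_nonneg_left (tp_le θ α β B hB hα hβ m) (by positivity)
  · positivity

/-- the model for tuples -/
noncomputable def mdl (w : ℕ) (θ : Fin R → ℝ) (p : Fin R → ℝ) (α β : Fin R → Fin R → ℝ) (H : ℕ)
    {r : ℕ} (e : Fin r → ℕ) : ℝ :=
  ∑ j, p j * ((∑ m ∈ Finset.Icc 1 H, ∏ i, gw w θ (α j) (β j) (m + e i)) / H)

lemma mdl_nonneg (w : ℕ) (θ : Fin R → ℝ) (p : Fin R → ℝ) (α β : Fin R → Fin R → ℝ) (H : ℕ)
    {r : ℕ} (e : Fin r → ℕ) (hp : ∀ j, 0 ≤ p j) : 0 ≤ mdl w θ p α β H e := by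
  unfold mdl
  refine Finset.sum_nonneg fun j _ => mul_nonneg (hp j) (div_nonneg ?_ (Nat.cast_nonneg _))
  exact Finset.sum_nonneg fun m _ => Finset.prod_nonneg fun i _ => gw_nonneg _ _ _ _ _

lemma mdl_le (w : ℕ) (θ : Fin R → ℝ) (p : Fin R → ℝ) (α β : Fin R → Fin R → ℝ) (H : ℕ)
    {r : ℕ} (e : Fin r → ℕ) (hp : ∀ j, 0 ≤ p j) (hp1 : ∑ j, p j = 1) (B : ℝ) (hB : 0 ≤ B)
    (hα : ∀ j l, |α j l| ≤ B) (hβ : ∀ j l, |β j l| ≤ B) :
    mdl w θ p α β H e ≤ (((Wp w : ℝ) / ((Wp w).totient : ℝ)) * (2 * B * R)) ^ r := by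
  unfold mdl
  set G : ℝ := ((Wp w : ℝ) / ((Wp w).totient : ℝ)) * (2 * B * R) with hG
  have hG0 : 0 ≤ G := by positivity
  calc ∑ j, p j * ((∑ m ∈ Finset.Icc 1 H, ∏ i, gw w θ (α j) (β j) (m + e i)) / H) ≤
      ∑ j, p j * G ^ r := by
        refine Finset.sum_le_sum fun j _ => mul_le_mul_of_nonneg_left ?_ (hp j)
        have h1 : ∑ m ∈ Finset.Icc 1 H, ∏ i, gw w θ (α j) (β j) (m + e i) ≤ H * G ^ r := by
          calc _ ≤ ∑ m ∈ Finset.Icc 1 H, G ^ r := by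
                refine Finset.sum_le_sum fun m _ => ?_
                calc ∏ i, gw w θ (α j) (β j) (m + e i) ≤ ∏ i : Fin r, G :=
                      Finset.prod_le_prod (fun i _ => gw_nonneg _ _ _ _ _)
                        (fun i _ => gw_le w θ (α j) (β j) B hB (hα j) (hβ j) _)
                  _ = G ^ r := by
                      rw [Finset.prod_const, Finset.card_univ, Fintype.card_fin]
            _ = H * G ^ r := by
                rw [Finset.sum_const, Nat.card_Icc, nsmul_eq_mul]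
                simp
        rcases Nat.eq_zero_or_pos H with hH | hH
        · subst hH
          simp only [Nat.cast_zero, div_zero]
          positivity
        · have hHr : (0:ℝ) < H := by exact_mod_cast hH
          rw [div_le_iff₀ hHr]
          linarith
    _ = G ^ r := by rw [← Finset.sum_mul, hp1, one_mul]

lemma mdl_glue (w I0 : ℕ) (θ : ℕ → Fin R → ℝ) (p : ℕ → Fin R → ℝ) (α β : ℕ → Fin R → Fin R → ℝ)
    (H : ℕ) {r : ℕ} (e : Fin (r + 1) → ℕ) :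
    mdl w (gθ I0 θ) (gp I0 p) (gα I0 α) (gα I0 β) H e =
      ∑ i ∈ Finset.range I0, 1 / 2 ^ (i + 1) * mdl w (θ i) (p i) (α i) (β i) H e := by
  unfold mdl
  rw [gp_sum, Finset.sum_range]
  simp only [gw_glue, gw_glue_last]
  simp

/-! ### sets and increasing tuples -/

open Classical in
/-- an increasing enumeration of `D` -/
noncomputable def en (r : ℕ) (D : Finset ℕ) : Fin r → ℕ :=
  if h : D.card = r then D.orderEmbOfFin h else fun _ => 0

lemma en_inj (r : ℕ) (D : Finset ℕ) (h : D.card = r) : Function.Injective (en r D) := by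
  unfold en
  rw [dif_pos h]
  exact (D.orderEmbOfFin h).injective

lemma en_image (r : ℕ) (D : Finset ℕ) (h : D.card = r) :
    Finset.image (en r D) Finset.univ = D := by
  unfold en
  rw [dif_pos h]
  exact Finset.image_orderEmbOfFin_univ D h

lemma en_mem (r : ℕ) (D : Finset ℕ) (h : D.card = r) (i : Fin r) : en r D i ∈ D := by
  unfold en
  rw [dif_pos h]
  exact Finset.orderEmbOfFin_mem D h i

/-- sums over sets are at most sums over tuples -/
lemma sum_sets_le (r : ℕ) (A : Finset ℕ) (f : (Fin r → ℕ) → ℝ) (hf : ∀ e, 0 ≤ f e) :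
    ∑ D ∈ A.powersetCard r, f (en r D) ≤ ∑ e ∈ Fintype.piFinset (fun _ : Fin r => A), f e := by
  have hinj : Set.InjOn (en r) (A.powersetCard r : Set (Finset ℕ)) := by
    intro D hD D' hD' h
    rw [Finset.mem_coe, Finset.mem_powersetCard] at hD hD'
    rw [← en_image r D hD.2, ← en_image r D' hD'.2, h]
  rw [← Finset.sum_image (f := f) (g := en r) (fun D hD D' hD' h => hinj hD hD' h)]
  refine Finset.sum_le_sum_of_subset_of_nonneg ?_ (fun e _ _ => hf e)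
  intro e he
  rw [Finset.mem_image] at he
  obtain ⟨D, hD, rfl⟩ := he
  rw [Finset.mem_powersetCard] at hD
  rw [Fintype.mem_piFinset]
  intro i
  exact hD.1 (en_mem r D hD.2 i)

lemma cons_inj {r : ℕ} (e : Fin r → ℕ) (he : Function.Injective e) (h0 : ∀ i, e i ≠ 0) :
    Function.Injective (Fin.cons 0 e : Fin (r + 1) → ℕ) := by
  rw [Fin.cons_injective_iff]
  refine ⟨?_, he⟩
  rintro ⟨i, hi⟩
  exact h0 i hi

lemma cons_image {r : ℕ} (e : Fin r → ℕ) :
    Finset.image (Fin.cons 0 e : Fin (r + 1) → ℕ) Finset.univ =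
      insert 0 (Finset.image e Finset.univ) := by
  ext a
  simp only [Finset.mem_image, Finset.mem_univ, true_and, Finset.mem_insert, Fin.exists_fin_succ,
    Fin.cons_zero, Fin.cons_succ]
  constructor
  · rintro (h | h)
    · exact Or.inl h.symm
    · exact Or.inr h
  · rintro (h | h)
    · exact Or.inl h.symm
    · exact Or.inr h

lemma Wpos (w : ℕ) : 0 < Wp w := Finset.prod_pos fun p hp => (PPy_prime w p hp).pos

/-- number of sets of size `r` -/
lemma card_sets_le (r H : ℕ) : (((Finset.Icc 1 H).powersetCard r).card : ℝ) ≤ (H:ℝ) ^ r := by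
  have h := sum_sets_le r (Finset.Icc 1 H) (fun _ => 1) (fun _ => zero_le_one)
  rw [Finset.sum_const, Finset.sum_const, Fintype.card_piFinset, Finset.prod_const,
    Finset.card_univ, Fintype.card_fin, Nat.card_Icc, nsmul_eq_mul, nsmul_eq_mul, mul_one,
    mul_one, Nat.add_sub_cancel] at h
  exact_mod_cast h

/-- the mean of the singular series of `{0} ∪ D` -/
lemma sum_insert (k : ℕ) (hk : 1 ≤ k) : ∃ C : ℝ, 0 < C ∧ ∀ H : ℕ, 1 ≤ H →
    ∑ D ∈ (Finset.Icc 1 H).powersetCard k, singularSeries (insert 0 D) ≤ C * (H : ℝ) ^ k := by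
  obtain ⟨C, hC, h⟩ := APMomentAux.sum_insert_sq k hk
  refine ⟨C + 1, by positivity, fun H hH => ?_⟩
  calc ∑ D ∈ (Finset.Icc 1 H).powersetCard k, singularSeries (insert 0 D) ≤
      ∑ D ∈ (Finset.Icc 1 H).powersetCard k, ((singularSeries (insert 0 D)) ^ 2 + 1) := by
        refine Finset.sum_le_sum fun D _ => ?_
        nlinarith [sq_nonneg (singularSeries (insert 0 D) - 1), singularSeries_nonneg (insert 0 D)]
    _ ≤ C * (H:ℝ) ^ k + (H:ℝ) ^ k := by
        rw [Finset.sum_add_distrib]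
        refine add_le_add (h H hH) ?_
        rw [Finset.sum_const, nsmul_eq_mul, mul_one]
        exact card_sets_le k H
    _ = (C + 1) * (H:ℝ) ^ k := by ring

/-- uniform constants for `r ≤ k` -/
lemma exists_consts : ∃ (C1 C3 : ℕ → ℝ), (∀ r, 0 < C1 r) ∧ (∀ r, 0 < C3 r) ∧
    (∀ r, 1 ≤ r → ∀ (I0 : ℕ) (κ : ℝ), 0 < κ →
    ∀ᶠ x : ℝ in atTop, ∀ e : Fin (r + 1) → ℕ, Function.Injective e →
      |(tupleCount x (Finset.image e Finset.univ) : ℝ) * (Real.log x) ^ (r + 1) / x -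
        ∑ i ∈ Finset.range I0, wt (r + 1) x i * rr (⌊x⌋₊ / 2 ^ (i + 1)) e| ≤
        C1 r * singularSeries (Finset.image e Finset.univ) / 2 ^ I0 + κ) ∧
    (∀ r, 1 ≤ r → ∀ H : ℕ, 1 ≤ H →
    ∑ D ∈ (Finset.Icc 1 H).powersetCard r, singularSeries (insert 0 D) ≤ C3 r * (H : ℝ) ^ r) := by
  have h1 : ∀ r : ℕ, ∃ C : ℝ, 0 < C ∧ (1 ≤ r → ∀ (I0 : ℕ) (κ : ℝ), 0 < κ →
    ∀ᶠ x : ℝ in atTop, ∀ e : Fin (r + 1) → ℕ, Function.Injective e →
      |(tupleCount x (Finset.image e Finset.univ) : ℝ) * (Real.log x) ^ (r + 1) / x -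
        ∑ i ∈ Finset.range I0, wt (r + 1) x i * rr (⌊x⌋₊ / 2 ^ (i + 1)) e| ≤
        C * singularSeries (Finset.image e Finset.univ) / 2 ^ I0 + κ) := by
    intro r
    by_cases hr : 1 ≤ r
    · obtain ⟨C, hC, h⟩ := tupleCount_blocks (r + 1) (by omega)
      exact ⟨C, hC, fun _ => h⟩
    · exact ⟨1, one_pos, fun h => absurd h hr⟩
  have h2 : ∀ r : ℕ, ∃ C : ℝ, 0 < C ∧ (1 ≤ r → ∀ H : ℕ, 1 ≤ H →
    ∑ D ∈ (Finset.Icc 1 H).powersetCard r, singularSeries (insert 0 D) ≤ C * (H : ℝ) ^ r) := by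
    intro r
    by_cases hr : 1 ≤ r
    · obtain ⟨C, hC, h⟩ := sum_insert r hr
      exact ⟨C, hC, fun _ => h⟩
    · exact ⟨1, one_pos, fun h => absurd h hr⟩
  choose C1 hC1 h1 using h1
  choose C3 hC3 h2 using h2
  exact ⟨C1, C3, hC1, hC3, h1, h2⟩

/-- the error for one size `r`, on average over the sets -/
lemma total_error (w R I0 r : ℕ) (x : ℝ) (H : ℕ) (hH : 1 ≤ H)
    (C1 C3 κ κ' ε1 B : ℝ) (hC1 : 0 < C1) (hκ' : 0 ≤ κ') (hB : 0 ≤ B)
    (θ : ℕ → Fin R → ℝ) (p : ℕ → Fin R → ℝ) (α β : ℕ → Fin R → Fin R → ℝ)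
    (hp : ∀ i < I0, ∀ j, 0 ≤ p i j) (hp1 : ∀ i < I0, ∑ j, p i j = 1)
    (hα : ∀ i < I0, ∀ j l, |α i j l| ≤ R ∧ |β i j l| ≤ R)
    (hB1 : ((Wp w : ℝ) / ((Wp w).totient : ℝ)) * (2 * R * R) ≤ B)
    (hblocks : ∀ e : Fin (r + 1) → ℕ, Function.Injective e →
      |(tupleCount x (Finset.image e Finset.univ) : ℝ) * (Real.log x) ^ (r + 1) / x -
        ∑ i ∈ Finset.range I0, wt (r + 1) x i * rr (⌊x⌋₊ / 2 ^ (i + 1)) e| ≤
        C1 * singularSeries (Finset.image e Finset.univ) / 2 ^ I0 + κ)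
    (hsing : ∑ D ∈ (Finset.Icc 1 H).powersetCard r, singularSeries (insert 0 D) ≤
      C3 * (H : ℝ) ^ r)
    (hwt : ∀ i ∈ Finset.range I0, 0 ≤ wt (r + 1) x i ∧ wt (r + 1) x i ≤ 1 ∧
      |wt (r + 1) x i - 1 / 2 ^ (i + 1)| ≤ κ')
    (hκ : 0 ≤ κ)
    (hstr : ∀ i < I0, ∑ D ∈ Fintype.piFinset (fun _ : Fin r => Finset.Icc 1 H),
          |rr (⌊x⌋₊ / 2 ^ (i + 1)) (Fin.cons 0 D : Fin (r + 1) → ℕ) -
            mdl w (θ i) (p i) (α i) (β i) H (Fin.cons 0 D : Fin (r + 1) → ℕ)| ≤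
          ε1 * (H:ℝ) ^ r) :
    ∑ D ∈ (Finset.Icc 1 H).powersetCard r,
      |(tupleCount x (insert 0 D) : ℝ) * (Real.log x) ^ (r + 1) / x -
        mdl w (gθ I0 θ) (gp I0 p) (gα I0 α) (gα I0 β) H (Fin.cons 0 (en r D) : Fin (r + 1) → ℕ)| ≤
      (C1 * C3 / 2 ^ I0 + κ + I0 * ε1 + I0 * κ' * B ^ (r + 1)) * (H:ℝ) ^ r := by
  have hpt : ∀ D ∈ (Finset.Icc 1 H).powersetCard r,
      |(tupleCount x (insert 0 D) : ℝ) * (Real.log x) ^ (r + 1) / x -
        mdl w (gθ I0 θ) (gp I0 p) (gα I0 α) (gα I0 β) H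
          (Fin.cons 0 (en r D) : Fin (r + 1) → ℕ)| ≤
      (C1 / 2 ^ I0) * singularSeries (insert 0 D) + (κ + I0 * κ' * B ^ (r + 1)) +
      ∑ i ∈ Finset.range I0, |rr (⌊x⌋₊ / 2 ^ (i + 1)) (Fin.cons 0 (en r D) : Fin (r + 1) → ℕ) -
            mdl w (θ i) (p i) (α i) (β i) H (Fin.cons 0 (en r D) : Fin (r + 1) → ℕ)| := by
    intro D hD
    rw [Finset.mem_powersetCard] at hD
    set e : Fin (r + 1) → ℕ := Fin.cons 0 (en r D) with he
    have hinj : Function.Injective e := by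
      refine cons_inj _ (en_inj r D hD.2) fun i hi => ?_
      have h := hD.1 (en_mem r D hD.2 i)
      rw [hi, Finset.mem_Icc] at h
      omega
    have him : Finset.image e Finset.univ = insert 0 D := by
      rw [he, cons_image, en_image r D hD.2]
    have h1 := hblocks e hinj
    rw [him] at h1
    rw [mdl_glue]
    have h2 : (tupleCount x (insert 0 D) : ℝ) * (Real.log x) ^ (r + 1) / x -
        ∑ i ∈ Finset.range I0, 1 / 2 ^ (i + 1) * mdl w (θ i) (p i) (α i) (β i) H e =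
        ((tupleCount x (insert 0 D) : ℝ) * (Real.log x) ^ (r + 1) / x -
          ∑ i ∈ Finset.range I0, wt (r + 1) x i * rr (⌊x⌋₊ / 2 ^ (i + 1)) e) +
        ∑ i ∈ Finset.range I0, wt (r + 1) x i * (rr (⌊x⌋₊ / 2 ^ (i + 1)) e -
          mdl w (θ i) (p i) (α i) (β i) H e) +
        ∑ i ∈ Finset.range I0, (wt (r + 1) x i - 1 / 2 ^ (i + 1)) *
          mdl w (θ i) (p i) (α i) (β i) H e := by
      simp only [mul_sub, sub_mul, Finset.sum_sub_distrib]
      ring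
    rw [h2]
    have h3 : |∑ i ∈ Finset.range I0, wt (r + 1) x i * (rr (⌊x⌋₊ / 2 ^ (i + 1)) e -
          mdl w (θ i) (p i) (α i) (β i) H e)| ≤
        ∑ i ∈ Finset.range I0, |rr (⌊x⌋₊ / 2 ^ (i + 1)) e -
          mdl w (θ i) (p i) (α i) (β i) H e| := by
      refine (Finset.abs_sum_le_sum_abs _ _).trans (Finset.sum_le_sum fun i hi => ?_)
      rw [abs_mul, abs_of_nonneg (hwt i hi).1]
      calc _ ≤ 1 * |rr (⌊x⌋₊ / 2 ^ (i + 1)) e - mdl w (θ i) (p i) (α i) (β i) H e| :=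
            mul_le_mul_of_nonneg_right (hwt i hi).2.1 (abs_nonneg _)
        _ = _ := one_mul _
    have h4 : |∑ i ∈ Finset.range I0, (wt (r + 1) x i - 1 / 2 ^ (i + 1)) *
          mdl w (θ i) (p i) (α i) (β i) H e| ≤ I0 * κ' * B ^ (r + 1) := by
      refine (Finset.abs_sum_le_sum_abs _ _).trans ?_
      calc ∑ i ∈ Finset.range I0, |(wt (r + 1) x i - 1 / 2 ^ (i + 1)) *
          mdl w (θ i) (p i) (α i) (β i) H e| ≤ ∑ i ∈ Finset.range I0, κ' * B ^ (r + 1) := by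
            refine Finset.sum_le_sum fun i hi => ?_
            have hi' := Finset.mem_range.1 hi
            have hm0 := mdl_nonneg w (θ i) (p i) (α i) (β i) H e (hp i hi')
            rw [abs_mul, abs_of_nonneg hm0]
            refine mul_le_mul (hwt i hi).2.2 ?_ hm0 hκ'
            refine (mdl_le w (θ i) (p i) (α i) (β i) H e (hp i hi') (hp1 i hi') R
              (Nat.cast_nonneg _) (fun j l => (hα i hi' j l).1)
              (fun j l => (hα i hi' j l).2)).trans ?_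
            exact pow_le_pow_left₀ (by positivity) hB1 _
        _ = I0 * κ' * B ^ (r + 1) := by
            rw [Finset.sum_const, Finset.card_range, nsmul_eq_mul]
            ring
    have h5 : C1 * singularSeries (insert 0 D) / 2 ^ I0 =
        (C1 / 2 ^ I0) * singularSeries (insert 0 D) := by ring
    rw [h5] at h1
    have h6 := abs_add_three ((tupleCount x (insert 0 D) : ℝ) * (Real.log x) ^ (r + 1) / x -
          ∑ i ∈ Finset.range I0, wt (r + 1) x i * rr (⌊x⌋₊ / 2 ^ (i + 1)) e)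
        (∑ i ∈ Finset.range I0, wt (r + 1) x i * (rr (⌊x⌋₊ / 2 ^ (i + 1)) e -
          mdl w (θ i) (p i) (α i) (β i) H e))
        (∑ i ∈ Finset.range I0, (wt (r + 1) x i - 1 / 2 ^ (i + 1)) *
          mdl w (θ i) (p i) (α i) (β i) H e)
    linarith
  refine (Finset.sum_le_sum hpt).trans ?_
  rw [Finset.sum_add_distrib, Finset.sum_add_distrib, ← Finset.mul_sum, Finset.sum_comm,
    Finset.sum_const, nsmul_eq_mul]
  have hHr : (0:ℝ) ≤ (H:ℝ) ^ r := by positivity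
  have g1 : C1 / 2 ^ I0 * ∑ D ∈ (Finset.Icc 1 H).powersetCard r, singularSeries (insert 0 D) ≤
      C1 / 2 ^ I0 * (C3 * (H:ℝ) ^ r) := mul_le_mul_of_nonneg_left hsing (by positivity)
  have g2 : (((Finset.Icc 1 H).powersetCard r).card : ℝ) * (κ + I0 * κ' * B ^ (r + 1)) ≤
      (H:ℝ) ^ r * (κ + I0 * κ' * B ^ (r + 1)) :=
    mul_le_mul_of_nonneg_right (card_sets_le r H) (by positivity)
  have g3 : ∑ i ∈ Finset.range I0, ∑ D ∈ (Finset.Icc 1 H).powersetCard r,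
      |rr (⌊x⌋₊ / 2 ^ (i + 1)) (Fin.cons 0 (en r D) : Fin (r + 1) → ℕ) -
            mdl w (θ i) (p i) (α i) (β i) H (Fin.cons 0 (en r D) : Fin (r + 1) → ℕ)| ≤
      I0 * (ε1 * (H:ℝ) ^ r) := by
    calc _ ≤ ∑ i ∈ Finset.range I0, ε1 * (H:ℝ) ^ r := by
          refine Finset.sum_le_sum fun i hi => ?_
          refine le_trans ?_ (hstr i (Finset.mem_range.1 hi))
          exact sum_sets_le r (Finset.Icc 1 H) (fun D =>
            |rr (⌊x⌋₊ / 2 ^ (i + 1)) (Fin.cons 0 D : Fin (r + 1) → ℕ) -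
              mdl w (θ i) (p i) (α i) (β i) H (Fin.cons 0 D : Fin (r + 1) → ℕ)|)
            (fun _ => abs_nonneg _)
      _ = _ := by rw [Finset.sum_const, Finset.card_range, nsmul_eq_mul]
  calc _ ≤ C1 / 2 ^ I0 * (C3 * (H:ℝ) ^ r) + (H:ℝ) ^ r * (κ + I0 * κ' * B ^ (r + 1)) +
        I0 * (ε1 * (H:ℝ) ^ r) := add_le_add (add_le_add g1 g2) g3
    _ = _ := by ring

/-- the mean of the glued structure in residue classes -/
lemma class_mean (w R I0 : ℕ) (ε1 : ℝ) (hε1 : 0 ≤ ε1) (H c : ℕ) (hc : c.Coprime (Wp w))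
    (θ : ℕ → Fin R → ℝ) (p : ℕ → Fin R → ℝ) (α β : ℕ → Fin R → Fin R → ℝ)
    (h : ∀ i < I0, |∑ j, p i j * ((∑ m ∈ (Finset.Icc 1 H).filter (fun m => m ≡ c [MOD Wp w]),
          gw w (θ i) (α i j) (β i j) m) / H) - 1 / ((Wp w).totient : ℝ)| ≤ ε1 / (Wp w)) :
    |∑ q, gp I0 p q * (((Wp w : ℝ) * ∑ m ∈ (Finset.Icc 1 H).filter (fun m => m ≡ c [MOD Wp w]),
          tp (gθ I0 θ) (gα I0 α q) (gα I0 β q) m) / H) - 1| ≤ ε1 + 1 / 2 ^ I0 := by
  have hW := Wpos w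
  have hWr : (0:ℝ) < Wp w := by exact_mod_cast hW
  have hφ : 0 < (Wp w).totient := Nat.totient_pos.2 hW
  have hφr : (0:ℝ) < ((Wp w).totient : ℝ) := by exact_mod_cast hφ
  have hφW : ((Wp w).totient : ℝ) ≤ Wp w := by exact_mod_cast Nat.totient_le _
  rw [gp_sum]
  simp only [tp_glue, tp_glue_last, Finset.sum_const_zero, mul_zero, zero_div, add_zero]
  have h1 : ∀ i : Fin I0, |∑ j, p i j * (((Wp w : ℝ) * ∑ m ∈ (Finset.Icc 1 H).filter
      (fun m => m ≡ c [MOD Wp w]), tp (θ i) (α i j) (β i j) m) / H) - 1| ≤ ε1 := by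
    intro i
    have h2 := h i i.2
    have h3 : ∀ j, ∑ m ∈ (Finset.Icc 1 H).filter (fun m => m ≡ c [MOD Wp w]),
        gw w (θ i) (α i j) (β i j) m = (1 / ((Wp w).totient : ℝ)) *
          ((Wp w : ℝ) * ∑ m ∈ (Finset.Icc 1 H).filter (fun m => m ≡ c [MOD Wp w]),
            tp (θ i) (α i j) (β i j) m) := by
      intro j
      rw [Finset.mul_sum, Finset.mul_sum]
      refine Finset.sum_congr rfl fun m hm => ?_
      rw [Finset.mem_filter] at hm
      have hcop : m.Coprime (Wp w) := by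
        have h4 := hm.2.gcd_eq
        unfold Nat.Coprime at hc ⊢
        rw [h4, hc]
      unfold gw
      rw [if_pos hcop]
      ring
    simp only [h3] at h2
    have h4 : ∑ j, p i j * (1 / ((Wp w).totient : ℝ) * ((Wp w : ℝ) *
        ∑ m ∈ (Finset.Icc 1 H).filter (fun m => m ≡ c [MOD Wp w]),
          tp (θ i) (α i j) (β i j) m) / H) - 1 / ((Wp w).totient : ℝ) =
        (1 / ((Wp w).totient : ℝ)) * (∑ j, p i j * (((Wp w : ℝ) *
        ∑ m ∈ (Finset.Icc 1 H).filter (fun m => m ≡ c [MOD Wp w]),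
          tp (θ i) (α i j) (β i j) m) / H) - 1) := by
      rw [mul_sub, mul_one, Finset.mul_sum]
      congr 1
      refine Finset.sum_congr rfl fun j _ => ?_
      ring
    rw [h4, abs_mul, abs_of_pos (by positivity), one_div, inv_mul_le_iff₀ hφr] at h2
    refine h2.trans ?_
    calc ((Wp w).totient : ℝ) * (ε1 / (Wp w)) ≤ (Wp w : ℝ) * (ε1 / (Wp w)) :=
          mul_le_mul_of_nonneg_right hφW (by positivity)
      _ = ε1 := by field_simp
  have h5 : ∑ i : Fin I0, (1:ℝ) / 2 ^ ((i : ℕ) + 1) = 1 - 1 / 2 ^ I0 := by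
    rw [← sum_half, Finset.sum_range]
  have h6 : ∑ i : Fin I0, 1 / 2 ^ ((i : ℕ) + 1) * ∑ j, p i j * (((Wp w : ℝ) *
      ∑ m ∈ (Finset.Icc 1 H).filter (fun m => m ≡ c [MOD Wp w]),
        tp (θ i) (α i j) (β i j) m) / H) - 1 =
      ∑ i : Fin I0, 1 / 2 ^ ((i : ℕ) + 1) * (∑ j, p i j * (((Wp w : ℝ) *
      ∑ m ∈ (Finset.Icc 1 H).filter (fun m => m ≡ c [MOD Wp w]),
        tp (θ i) (α i j) (β i j) m) / H) - 1) + (-(1 / 2 ^ I0)) := by
    simp only [mul_sub, Finset.sum_sub_distrib, mul_one]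
    rw [h5]
    ring
  rw [h6]
  refine (abs_add_le _ _).trans (add_le_add ?_ ?_)
  · refine (Finset.abs_sum_le_sum_abs _ _).trans ?_
    calc _ ≤ ∑ i : Fin I0, 1 / 2 ^ ((i : ℕ) + 1) * ε1 := by
          refine Finset.sum_le_sum fun i _ => ?_
          rw [abs_mul, abs_of_pos (by positivity)]
          exact mul_le_mul_of_nonneg_left (h1 i) (by positivity)
      _ = (1 - 1 / 2 ^ I0) * ε1 := by rw [← Finset.sum_mul, h5]
      _ ≤ 1 * ε1 := by
          refine mul_le_mul_of_nonneg_right ?_ hε1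
          have : (0:ℝ) < 1 / 2 ^ I0 := by positivity
          linarith
      _ = ε1 := one_mul _
  · rw [abs_neg, abs_of_pos (by positivity)]

end StFinalAux

open StFinalAux

open Classical in
/-- S8: the structure formula. -/
theorem structure_formula (k : ℕ) (hk : 1 ≤ k) (ε : ℝ) (hε : 0 < ε) : ∃ (w R : ℕ) (K0 : ℝ),
    ∀ A : ℕ, ∃ X : ℝ, ∀ x : ℝ, X ≤ x → ∀ H : ℕ,
    K0 * Real.log x ≤ H → (H:ℝ) ≤ (Real.log x) ^ A →
    ∃ (θ : Fin R → ℝ) (p : Fin R → ℝ) (α β : Fin R → Fin R → ℝ),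
      (∀ j, 0 ≤ p j) ∧ (∑ j, p j = 1) ∧ (∀ j l, |α j l| ≤ R ∧ |β j l| ≤ R) ∧
      (∀ c : ℕ, c.Coprime (Wp w) →
        |∑ j, p j * (((Wp w : ℝ) * ∑ m ∈ (Finset.Icc 1 H).filter (fun m => m ≡ c [MOD Wp w]),
          tp θ (α j) (β j) m) / H) - 1| ≤ ε) ∧
      ∀ r : ℕ, 1 ≤ r → r ≤ k →
        ((((Finset.Icc 1 H).powersetCard r).filter (fun D =>
          ε < |(tupleCount x (insert 0 D) : ℝ) * (Real.log x) ^ (r + 1) / x -
            ∑ j, p j * ((∑ m ∈ Finset.Icc 1 H, ∏ d ∈ insert 0 D,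
              gw w θ (α j) (β j) (m + d)) / H)|)).card : ℝ) ≤ ε * (H:ℝ) ^ r := by
  obtain ⟨C1, C3, hC1, hC3, hblocks, hsing⟩ := exists_consts
  -- number of blocks
  set S : ℝ := ∑ r ∈ Finset.range (k + 1), C1 r * C3 r with hS
  have hS0 : 0 ≤ S := Finset.sum_nonneg fun r _ => (mul_pos (hC1 r) (hC3 r)).le
  have hSr : ∀ r, r ≤ k → C1 r * C3 r ≤ S := fun r hr =>
    Finset.single_le_sum (f := fun r => C1 r * C3 r)
      (fun r _ => (mul_pos (hC1 r) (hC3 r)).le) (Finset.mem_range.2 (by omega))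
  obtain ⟨I1, hI1⟩ : ∃ I1 : ℕ, (S + 1) / 2 ^ I1 ≤ min (ε ^ 2 / 4) (ε / 2) := by
    have h1 : Tendsto (fun n : ℕ => (S + 1) * (1 / 2 : ℝ) ^ n) atTop (𝓝 ((S + 1) * 0)) :=
      (tendsto_pow_atTop_nhds_zero_of_lt_one (by norm_num) (by norm_num)).const_mul _
    rw [mul_zero] at h1
    have h2 : (0:ℝ) < min (ε ^ 2 / 4) (ε / 2) := lt_min (by positivity) (by positivity)
    obtain ⟨n, hn⟩ := (h1.eventually_le_const h2).exists
    refine ⟨n, le_trans (le_of_eq ?_) hn⟩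
    rw [one_div, inv_pow, div_eq_mul_inv]
  set I0 : ℕ := I1 + 1 with hI0def
  have hI0pos : 1 ≤ I0 := by omega
  have hI0 : (S + 1) / 2 ^ I0 ≤ min (ε ^ 2 / 4) (ε / 2) := by
    refine le_trans ?_ hI1
    refine div_le_div_of_nonneg_left (by linarith) (by positivity) ?_
    exact pow_le_pow_right₀ (by norm_num) (by omega)
  have hI0a : ∀ r, r ≤ k → C1 r * C3 r / 2 ^ I0 ≤ ε ^ 2 / 4 := by
    intro r hr
    refine le_trans ?_ (hI0.trans (min_le_left _ _))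
    exact div_le_div_of_nonneg_right (by linarith [hSr r hr]) (by positivity)
  have hI0b : 1 / 2 ^ I0 ≤ ε / 2 := by
    refine le_trans ?_ (hI0.trans (min_le_right _ _))
    exact div_le_div_of_nonneg_right (by linarith) (by positivity)
  have hI0r : (0:ℝ) < I0 := by exact_mod_cast hI0pos
  -- the structure in blocks
  set ε1 : ℝ := min (ε ^ 2 / (4 * I0)) (ε / 2) with hε1def
  have hε1 : 0 < ε1 := lt_min (by positivity) (by positivity)
  have hε1a : I0 * ε1 ≤ ε ^ 2 / 4 := by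
    calc I0 * ε1 ≤ I0 * (ε ^ 2 / (4 * I0)) :=
          mul_le_mul_of_nonneg_left (min_le_left _ _) hI0r.le
      _ = ε ^ 2 / 4 := by field_simp
  have hε1b : ε1 ≤ ε / 2 := min_le_right _ _
  obtain ⟨w, hw⟩ := block_shift k hk ε1 hε1
  obtain ⟨R, K, hstr⟩ := hw w le_rfl
  have hW := Wpos w
  have hφ : 0 < (Wp w).totient := Nat.totient_pos.2 hW
  set B : ℝ := ((Wp w : ℝ) / ((Wp w).totient : ℝ)) * (2 * R * R) + 1 with hB
  have hB1 : 1 ≤ B := by
    have : 0 ≤ ((Wp w : ℝ) / ((Wp w).totient : ℝ)) * (2 * R * R) := by positivity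
    linarith
  set κ' : ℝ := ε ^ 2 / (4 * I0 * B ^ (k + 1)) with hκ'def
  have hBk : 0 < B ^ (k + 1) := by positivity
  have hκ' : 0 < κ' := by positivity
  have hκ'a : ∀ r, r ≤ k → I0 * κ' * B ^ (r + 1) ≤ ε ^ 2 / 4 := by
    intro r hr
    calc I0 * κ' * B ^ (r + 1) ≤ I0 * κ' * B ^ (k + 1) := by
          refine mul_le_mul_of_nonneg_left ?_ (by positivity)
          exact pow_le_pow_right₀ hB1 (by omega)
      _ = ε ^ 2 / 4 := by
          rw [hκ'def]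
          field_simp
  refine ⟨w, I0 * R + 1, max K 1, fun A => ?_⟩
  -- eventual conditions
  have hev : ∀ᶠ x : ℝ in atTop,
      (∀ r ∈ Finset.range (k + 1), 1 ≤ r → ∀ e : Fin (r + 1) → ℕ, Function.Injective e →
        |(tupleCount x (Finset.image e Finset.univ) : ℝ) * (Real.log x) ^ (r + 1) / x -
          ∑ i ∈ Finset.range I0, wt (r + 1) x i * rr (⌊x⌋₊ / 2 ^ (i + 1)) e| ≤
          C1 r * singularSeries (Finset.image e Finset.univ) / 2 ^ I0 + ε ^ 2 / 4) ∧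
      (∀ i ∈ Finset.range I0, ∀ H : ℕ,
        K * Real.log ((⌊x⌋₊ / 2 ^ (i + 1) : ℕ) : ℝ) ≤ H →
        (H:ℝ) ≤ (Real.log ((⌊x⌋₊ / 2 ^ (i + 1) : ℕ) : ℝ)) ^ (A + 1) →
        ∃ (θ : Fin R → ℝ) (p : Fin R → ℝ) (α β : Fin R → Fin R → ℝ),
          (∀ j, 0 ≤ p j) ∧ (∑ j, p j = 1) ∧ (∀ j l, |α j l| ≤ R ∧ |β j l| ≤ R) ∧
          (∀ c : ℕ, c.Coprime (Wp w) →
            |∑ j, p j * ((∑ m ∈ (Finset.Icc 1 H).filter (fun m => m ≡ c [MOD Wp w]),
              gw w θ (α j) (β j) m) / H) - 1 / ((Wp w).totient : ℝ)| ≤ ε1 / (Wp w)) ∧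
          ∀ r : ℕ, 1 ≤ r → r ≤ k →
            ∑ D ∈ Fintype.piFinset (fun _ : Fin r => Finset.Icc 1 H),
              |rr (⌊x⌋₊ / 2 ^ (i + 1)) (Fin.cons 0 D : Fin (r + 1) → ℕ) -
                mdl w θ p α β H (Fin.cons 0 D : Fin (r + 1) → ℕ)| ≤ ε1 * (H:ℝ) ^ r) ∧
      (∀ r ∈ Finset.range (k + 1), ∀ i ∈ Finset.range I0, 0 ≤ wt (r + 1) x i ∧
        wt (r + 1) x i ≤ 1 ∧ |wt (r + 1) x i - 1 / 2 ^ (i + 1)| ≤ κ') ∧
      (∀ i ∈ Finset.range I0, 2 ≤ ⌊x⌋₊ / 2 ^ (i + 1) ∧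
        Real.log x / Real.log ((⌊x⌋₊ / 2 ^ (i + 1) : ℕ) : ℝ) ≤ 2) ∧
      3 ≤ x ∧ 2 ^ (A + 1) ≤ Real.log x := by
    refine Eventually.and ?_ (Eventually.and ?_ (Eventually.and ?_ (Eventually.and ?_
      ((eventually_ge_atTop 3).and (Real.tendsto_log_atTop.eventually_ge_atTop _)))))
    · rw [Filter.eventually_all_finset]
      intro r _
      by_cases hr : 1 ≤ r
      · filter_upwards [hblocks r hr I0 (ε ^ 2 / 4) (by positivity)] with x hx _
        exact hx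
      · exact Eventually.of_forall fun x h => absurd h hr
    · rw [Filter.eventually_all_finset]
      intro i _
      exact (tendsto_nat i).eventually (hstr (A + 1))
    · rw [Filter.eventually_all_finset]
      intro r _
      exact ev_wt (r + 1) I0 κ' hκ'
    · rw [Filter.eventually_all_finset]
      intro i _
      exact ((tendsto_nat i).eventually_ge_atTop 2).and
        ((tendsto_logratio i).eventually_le_const (by norm_num))
  obtain ⟨X, hX⟩ := eventually_atTop.mp hev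
  refine ⟨X, fun x hx H hH1 hH2 => ?_⟩
  obtain ⟨e1, e2, e3, e4, e5, e6⟩ := hX x hx
  have hx0 : 0 < x := by linarith
  have hlog2 : (2:ℝ) ≤ Real.log x := by
    refine le_trans ?_ e6
    calc (2:ℝ) = 2 ^ 1 := by norm_num
      _ ≤ 2 ^ (A + 1) := pow_le_pow_right₀ (by norm_num) (by omega)
  have hlog0 : 0 < Real.log x := by linarith
  have hHr : (1:ℝ) ≤ H := by
    refine le_trans ?_ hH1
    nlinarith [le_max_right K (1:ℝ)]
  have hHpos : 1 ≤ H := by exact_mod_cast hHr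
  -- per-block data
  have hblock : ∀ i, i < I0 → ∃ (θ : Fin R → ℝ) (p : Fin R → ℝ) (α β : Fin R → Fin R → ℝ),
          (∀ j, 0 ≤ p j) ∧ (∑ j, p j = 1) ∧ (∀ j l, |α j l| ≤ R ∧ |β j l| ≤ R) ∧
          (∀ c : ℕ, c.Coprime (Wp w) →
            |∑ j, p j * ((∑ m ∈ (Finset.Icc 1 H).filter (fun m => m ≡ c [MOD Wp w]),
              gw w θ (α j) (β j) m) / H) - 1 / ((Wp w).totient : ℝ)| ≤ ε1 / (Wp w)) ∧
          ∀ r : ℕ, 1 ≤ r → r ≤ k →
            ∑ D ∈ Fintype.piFinset (fun _ : Fin r => Finset.Icc 1 H),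
              |rr (⌊x⌋₊ / 2 ^ (i + 1)) (Fin.cons 0 D : Fin (r + 1) → ℕ) -
                mdl w θ p α β H (Fin.cons 0 D : Fin (r + 1) → ℕ)| ≤ ε1 * (H:ℝ) ^ r := by
    intro i hi
    have hi' := Finset.mem_range.2 hi
    obtain ⟨hN2, hlr⟩ := e4 i hi'
    have hNr : (2:ℝ) ≤ ((⌊x⌋₊ / 2 ^ (i + 1) : ℕ) : ℝ) := by exact_mod_cast hN2
    have hlogN : 0 < Real.log ((⌊x⌋₊ / 2 ^ (i + 1) : ℕ) : ℝ) := Real.log_pos (by linarith)
    have hNx : ((⌊x⌋₊ / 2 ^ (i + 1) : ℕ) : ℝ) ≤ x := by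
      have h1 : ⌊x⌋₊ / 2 ^ (i + 1) ≤ ⌊x⌋₊ := Nat.div_le_self _ _
      calc ((⌊x⌋₊ / 2 ^ (i + 1) : ℕ) : ℝ) ≤ (⌊x⌋₊ : ℝ) := by exact_mod_cast h1
        _ ≤ x := Nat.floor_le hx0.le
    have hlogNx : Real.log ((⌊x⌋₊ / 2 ^ (i + 1) : ℕ) : ℝ) ≤ Real.log x :=
      Real.log_le_log (by linarith) hNx
    have hlogxN : Real.log x ≤ 2 * Real.log ((⌊x⌋₊ / 2 ^ (i + 1) : ℕ) : ℝ) := by
      rw [div_le_iff₀ hlogN] at hlr
      exact hlr
    refine e2 i hi' H ?_ ?_
    · calc K * Real.log ((⌊x⌋₊ / 2 ^ (i + 1) : ℕ) : ℝ) ≤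
            max K 1 * Real.log ((⌊x⌋₊ / 2 ^ (i + 1) : ℕ) : ℝ) :=
            mul_le_mul_of_nonneg_right (le_max_left _ _) hlogN.le
        _ ≤ max K 1 * Real.log x :=
            mul_le_mul_of_nonneg_left hlogNx (le_trans zero_le_one (le_max_right _ _))
        _ ≤ H := hH1
    · calc (H:ℝ) ≤ (Real.log x) ^ A := hH2
        _ ≤ (Real.log x / 2 ^ (A + 1)) * (Real.log x) ^ A := by
            have h1 : 1 ≤ Real.log x / 2 ^ (A + 1) := by
              rw [le_div_iff₀ (by positivity)]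
              linarith
            have h2 : 0 ≤ (Real.log x) ^ A := by positivity
            nlinarith
        _ = (Real.log x / 2) ^ (A + 1) := by
            rw [div_pow, pow_succ (Real.log x)]
            ring
        _ ≤ _ := by
            refine pow_le_pow_left₀ (by positivity) ?_ _
            linarith
  choose! θ p α β hp hp1 hα hcl hst using hblock
  refine ⟨gθ I0 θ, gp I0 p, gα I0 α, gα I0 β, gp_nonneg I0 p hp, gp_total I0 p hp1, ?_, ?_, ?_⟩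
  · have hRR : (R:ℝ) ≤ ((I0 * R + 1 : ℕ) : ℝ) := by
      have : R ≤ I0 * R + 1 := by nlinarith
      exact_mod_cast this
    intro j l
    exact ⟨(gα_bound I0 α R (Nat.cast_nonneg _) (fun i hi j l => (hα i hi j l).1) j l).trans hRR,
      (gα_bound I0 β R (Nat.cast_nonneg _) (fun i hi j l => (hα i hi j l).2) j l).trans hRR⟩
  · intro c hc
    refine (class_mean w R I0 ε1 hε1.le H c hc θ p α β (fun i hi => hcl i hi c hc)).trans ?_
    linarith
  · intro r hr1 hrk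
    have htot := total_error w R I0 r x H hHpos (C1 r) (C3 r) (ε ^ 2 / 4) κ' ε1 B (hC1 r)
      hκ'.le (by linarith) θ p α β hp hp1 hα (by linarith)
      (e1 r (Finset.mem_range.2 (by omega)) hr1) (hsing r hr1 H hHpos)
      (e3 r (Finset.mem_range.2 (by omega))) (by positivity) (fun i hi => hst i hi r hr1 hrk)
    have htot2 : ∑ D ∈ (Finset.Icc 1 H).powersetCard r,
      |(tupleCount x (insert 0 D) : ℝ) * (Real.log x) ^ (r + 1) / x -
        mdl w (gθ I0 θ) (gp I0 p) (gα I0 α) (gα I0 β) H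
          (Fin.cons 0 (en r D) : Fin (r + 1) → ℕ)| ≤ ε ^ 2 * (H:ℝ) ^ r := by
      refine htot.trans (mul_le_mul_of_nonneg_right ?_ (by positivity))
      have h1 := hI0a r hrk
      have h2 := hκ'a r hrk
      linarith
    have hmt : ∀ D ∈ (Finset.Icc 1 H).powersetCard r,
        ∑ j, gp I0 p j * ((∑ m ∈ Finset.Icc 1 H, ∏ d ∈ insert 0 D,
          gw w (gθ I0 θ) (gα I0 α j) (gα I0 β j) (m + d)) / H) =
        mdl w (gθ I0 θ) (gp I0 p) (gα I0 α) (gα I0 β) H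
          (Fin.cons 0 (en r D) : Fin (r + 1) → ℕ) := by
      intro D hD
      rw [Finset.mem_powersetCard] at hD
      have hinj : Function.Injective (Fin.cons 0 (en r D) : Fin (r + 1) → ℕ) := by
        refine cons_inj _ (en_inj r D hD.2) fun i hi => ?_
        have h := hD.1 (en_mem r D hD.2 i)
        rw [hi, Finset.mem_Icc] at h
        omega
      unfold mdl
      refine Finset.sum_congr rfl fun j _ => ?_
      congr 2
      refine Finset.sum_congr rfl fun m _ => ?_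
      rw [← en_image r D hD.2, ← cons_image, Finset.prod_image (fun a _ b _ h => hinj h),
        en_image r D hD.2]
    -- Markov
    have hmk : ε * ((((Finset.Icc 1 H).powersetCard r).filter (fun D =>
          ε < |(tupleCount x (insert 0 D) : ℝ) * (Real.log x) ^ (r + 1) / x -
            ∑ j, gp I0 p j * ((∑ m ∈ Finset.Icc 1 H, ∏ d ∈ insert 0 D,
              gw w (gθ I0 θ) (gα I0 α j) (gα I0 β j) (m + d)) / H)|)).card : ℝ) ≤
          ε ^ 2 * (H:ℝ) ^ r := by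
      refine le_trans ?_ htot2
      rw [mul_comm, ← nsmul_eq_mul, ← Finset.sum_const]
      refine le_trans (Finset.sum_le_sum fun D hD => ?_)
        (Finset.sum_le_sum_of_subset_of_nonneg (Finset.filter_subset _ _)
          (fun _ _ _ => abs_nonneg _))
      rw [Finset.mem_filter] at hD
      rw [← hmt D hD.1]
      exact hD.2.le
    have h8 : ε ^ 2 * (H:ℝ) ^ r = ε * (ε * (H:ℝ) ^ r) := by ring
    rw [h8] at hmk
    exact le_of_mul_le_mul_left hmk hε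

end Pool.Agent.HLT
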