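import Mathlib
import Pool.Agent.HLT.ApKernel
import Pool.Agent.HLT.RowMoment

set_option autoImplicit false

open Finset Filter

namespace Pool.Agent.HLT

open Pool.Agent.HL26 Pool.Agent.Maynard

/-- normalised indicator of the integers coprime to the primes in `(w, w2]` (on integers coprime to
`Wp w`) -/
noncomputable def om (w w2 m : ℕ) : ℝ := if m.Coprime (Wp w2) then cW (Wp w) / cW (Wp w2) else 0

namespace StOmAux

/-- primes in `(w, w2]` -/
def Pq (w w2 : ℕ) : Finset ℕ := (PPy w2).filter (fun p => w < p)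

lemma Pq_prime (w w2 : ℕ) : ∀ p ∈ Pq w w2, p.Prime :=
  fun p hp => PPy_prime w2 p (Finset.mem_filter.mp hp).1

lemma Pq_gt (w w2 : ℕ) : ∀ p ∈ Pq w w2, w < p := fun _ hp => (Finset.mem_filter.mp hp).2

lemma Wpos (w : ℕ) : 0 < Wp w := Finset.prod_pos fun p hp => (PPy_prime w p hp).pos

lemma Wq_pos (w w2 : ℕ) : 0 < ∏ p ∈ Pq w w2, p :=
  Finset.prod_pos fun p hp => (Pq_prime w w2 p hp).pos

lemma Wp_split (w w2 : ℕ) (h : w ≤ w2) : Wp w2 = Wp w * ∏ p ∈ Pq w w2, p := by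
  unfold Wp Pq
  rw [← Finset.prod_filter_not_mul_prod_filter (PPy w2) (fun p => w < p)]
  congr 1
  refine Finset.prod_congr ?_ fun _ _ => rfl
  ext p
  unfold PPy
  simp only [Finset.mem_filter, Finset.mem_range]
  constructor
  · rintro ⟨⟨_, h2⟩, h3⟩
    exact ⟨by omega, h2⟩
  · rintro ⟨h1, h2⟩
    exact ⟨⟨by omega, h2⟩, by omega⟩

lemma cop_q (w w2 : ℕ) : (Wp w).Coprime (∏ p ∈ Pq w w2, p) := by
  refine Nat.Coprime.prod_left fun p hp => Nat.Coprime.prod_right fun q hq => ?_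
  rw [Nat.coprime_primes (PPy_prime w p hp) (Pq_prime w w2 q hq)]
  have h1 := Pq_gt w w2 q hq
  have h2 : p < w + 1 := Finset.mem_range.mp (Finset.mem_filter.mp hp).1
  omega

/-- number of the `n` in the class with all `n + e` coprime to the primes in `(w, w2]` -/
lemma cnt_approx (N w w2 a : ℕ) (h : w ≤ w2) (E : Finset ℕ) :
    |((((XS N w a).filter (fun n => ∀ e ∈ E, (n + e).Coprime (∏ p ∈ Pq w w2, p))).card : ℕ) : ℝ) -
      ((∏ p ∈ Pq w w2, (p - nu E p) : ℕ) : ℝ) * ((N:ℝ) / Wp w2)| ≤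
      ((∏ p ∈ Pq w w2, (p - nu E p) : ℕ) : ℝ) := by
  classical
  have hne : NeZero (∏ p ∈ Pq w w2, p) := ⟨(Wq_pos w w2).ne'⟩
  have hcard := card_units_eq (Pq w w2) (Pq_prime w w2) E
  set Q := ∏ p ∈ Pq w w2, p with hQ
  set U : Finset (ZMod Q) := Finset.univ.filter (fun c : ZMod Q => ∀ e ∈ E, IsUnit (c + (e : ZMod Q)))
    with hU
  set R := ∏ p ∈ Pq w w2, (p - nu E p) with hR
  set S := (XS N w a).filter (fun n => ∀ e ∈ E, (n + e).Coprime Q) with hS
  have hmaps : Set.MapsTo (fun n : ℕ => (n : ZMod Q)) (S : Set ℕ) (U : Set (ZMod Q)) := by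
    intro n hn
    have hn2 := (Finset.mem_filter.1 (Finset.mem_coe.1 hn)).2
    rw [Finset.mem_coe, hU, Finset.mem_filter]
    refine ⟨Finset.mem_univ _, fun e he => ?_⟩
    have h4 : ((n:ℕ) : ZMod Q) + ((e:ℕ) : ZMod Q) = ((n + e : ℕ) : ZMod Q) := by push_cast; rfl
    rw [h4, ZMod.isUnit_iff_coprime]
    exact hn2 e he
  have hfib := Finset.card_eq_sum_card_fiberwise hmaps
  have hcls : ∀ c ∈ U, |(((S.filter (fun n : ℕ => (n : ZMod Q) = c)).card : ℕ) : ℝ) - (N:ℝ) / Wp w2| ≤ 1 := by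
    intro c hc
    have hc2 := (Finset.mem_filter.1 hc).2
    obtain ⟨b, hb1, hb2⟩ := Nat.chineseRemainder (cop_q w w2) a c.val
    have heq : S.filter (fun n : ℕ => (n : ZMod Q) = c) = XS N w2 b := by
      ext n
      rw [Finset.mem_filter, hS, Finset.mem_filter]
      unfold XS
      rw [Finset.mem_filter, Finset.mem_filter, Wp_split w w2 h,
        ← Nat.modEq_and_modEq_iff_modEq_mul (cop_q w w2)]
      have hval : ((c.val : ℕ) : ZMod Q) = c := ZMod.natCast_zmod_val c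
      constructor
      · rintro ⟨⟨⟨h1, h2⟩, h3⟩, h4⟩
        refine ⟨h1, h2.trans hb1.symm, ?_⟩
        refine Nat.ModEq.trans ?_ hb2.symm
        rw [← ZMod.natCast_eq_natCast_iff, hval]
        exact h4
      · rintro ⟨h1, h2, h3⟩
        have h4 : ((n : ℕ) : ZMod Q) = c := by
          rw [← hval, ZMod.natCast_eq_natCast_iff]
          exact h3.trans hb2
        refine ⟨⟨⟨h1, h2.trans hb1⟩, fun e he => ?_⟩, h4⟩
        rw [← ZMod.isUnit_iff_coprime, Nat.cast_add, h4]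
        exact hc2 e he
    rw [heq]
    exact card_XS w2 N b
  have hcardR : ((R : ℕ) : ℝ) = ∑ c ∈ U, (1:ℝ) := by
    rw [Finset.sum_const, nsmul_eq_mul, mul_one, ← hcard]
  rw [hfib, Nat.cast_sum]
  have e1 : ((R : ℕ) : ℝ) * ((N:ℝ) / Wp w2) = ∑ c ∈ U, (N:ℝ) / Wp w2 := by
    rw [hcardR, Finset.sum_mul]
    simp
  rw [e1, ← Finset.sum_sub_distrib]
  refine (Finset.abs_sum_le_sum_abs _ _).trans ?_
  rw [hcardR]
  exact Finset.sum_le_sum hcls

lemma av_coe (S : Finset ℕ) (g : ℕ → ℝ) :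
    av (fun n : S => g (n:ℕ)) = (∑ n ∈ S, g n) / (S.card : ℝ) := by
  unfold av
  rw [Fintype.card_coe, Finset.sum_coe_sort S g]

lemma om_eq (N w w2 a n d : ℕ) (h : w ≤ w2) (hn : n ∈ XS N w a) (had : (a + d).Coprime (Wp w)) :
    om w w2 (n + d) =
      if (n + d).Coprime (∏ p ∈ Pq w w2, p) then cW (Wp w) / cW (Wp w2) else 0 := by
  unfold om
  have h1 := (ApKaux.cop_iff N w a n d hn).2 had
  have h2 : (n + d).Coprime (Wp w2) ↔ (n + d).Coprime (∏ p ∈ Pq w w2, p) := by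
    rw [Wp_split w w2 h, Nat.coprime_mul_iff_right]
    exact ⟨fun h => h.2, fun h => ⟨h1, h⟩⟩
  simp only [h2]

lemma cc_eq (w w2 : ℕ) (h : w ≤ w2) : cW (Wp w) / cW (Wp w2) =
    ((∏ p ∈ Pq w w2, p : ℕ) : ℝ) / (Nat.totient (∏ p ∈ Pq w w2, p) : ℝ) := by
  rw [Wp_split w w2 h]
  unfold cW
  rw [Nat.totient_mul (cop_q w w2)]
  have h1 : (0:ℝ) < (Wp w : ℝ) := by exact_mod_cast Wpos w
  have h2 : (0:ℝ) < ((∏ p ∈ Pq w w2, p : ℕ) : ℝ) := by exact_mod_cast Wq_pos w w2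
  have h3 : (0:ℝ) < (Nat.totient (Wp w) : ℝ) := by exact_mod_cast Nat.totient_pos.2 (Wpos w)
  have h4 : (0:ℝ) < (Nat.totient (∏ p ∈ Pq w w2, p) : ℝ) := by
    exact_mod_cast Nat.totient_pos.2 (Wq_pos w w2)
  rw [Nat.cast_mul, Nat.cast_mul]
  field_simp

lemma one_le_cc (w w2 : ℕ) (h : w ≤ w2) : 1 ≤ cW (Wp w) / cW (Wp w2) := by
  rw [cc_eq w w2 h]
  have h4 : (0:ℝ) < (Nat.totient (∏ p ∈ Pq w w2, p) : ℝ) := by
    exact_mod_cast Nat.totient_pos.2 (Wq_pos w w2)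
  rw [le_div_iff₀ h4, one_mul]
  exact_mod_cast Nat.totient_le _

lemma av_prod (N w w2 a : ℕ) (h : w ≤ w2) (E : Finset ℕ)
    (hE : ∀ e ∈ E, (a + e).Coprime (Wp w)) (hN : 2 * Wp w ≤ N) (hk : E.card ≤ 2) :
    |(∑ n ∈ XS N w a, ∏ e ∈ E, om w w2 (n + e)) / ((XS N w a).card : ℝ) - SP (Pq w w2) E| ≤
      4 * (cW (Wp w) / cW (Wp w2)) ^ 2 * Wp w2 / N := by
  classical
  set c := cW (Wp w) / cW (Wp w2) with hc
  have hc1 : 1 ≤ c := one_le_cc w w2 h
  have hsum : ∑ n ∈ XS N w a, ∏ e ∈ E, om w w2 (n + e) = c ^ E.card *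
      ((((XS N w a).filter (fun n => ∀ e ∈ E, (n + e).Coprime (∏ p ∈ Pq w w2, p))).card : ℕ) : ℝ) := by
    rw [← Finset.sum_boole, Finset.mul_sum]
    refine Finset.sum_congr rfl fun n hn => ?_
    rw [Finset.prod_congr rfl fun e he => om_eq N w w2 a n e h hn (hE e he), Finset.prod_ite_zero,
      Finset.prod_const, ← hc]
    split_ifs <;> simp
  have hcnt := cnt_approx N w w2 a h E
  have hX := card_XS w N a
  have hSP := SP_eq (Pq w w2) (Pq_prime w w2) E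
  rw [← cc_eq w w2 h, ← hc] at hSP
  have hsplit := Wp_split w w2 h
  have hRQ : (∏ p ∈ Pq w w2, (p - nu E p) : ℕ) ≤ ∏ p ∈ Pq w w2, p :=
    Finset.prod_le_prod (fun _ _ => Nat.zero_le _) (fun p _ => Nat.sub_le _ _)
  have hQ0 := Wq_pos w w2
  set Q := ∏ p ∈ Pq w w2, p with hQ
  set R := ∏ p ∈ Pq w w2, (p - nu E p) with hR
  set cnt := ((XS N w a).filter (fun n => ∀ e ∈ E, (n + e).Coprime Q)).card with hcntd
  set X := ((XS N w a).card : ℝ) with hXd
  have hW0 : (0:ℝ) < (Wp w : ℝ) := by exact_mod_cast Wpos w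
  have hQ0' : (0:ℝ) < (Q : ℝ) := by exact_mod_cast hQ0
  have hN' : 2 * (Wp w : ℝ) ≤ N := by exact_mod_cast hN
  have hN0 : (0:ℝ) < N := by linarith
  have hRQ' : (R : ℝ) ≤ Q := by exact_mod_cast hRQ
  have hR0 : (0:ℝ) ≤ (R:ℝ) := Nat.cast_nonneg _
  have hNW : 2 ≤ (N:ℝ) / Wp w := by rw [le_div_iff₀ hW0]; exact hN'
  rw [abs_le] at hX
  have hXlo : (N:ℝ) / Wp w / 2 ≤ X := by linarith [hX.1]
  have hX0 : 0 < X := lt_of_lt_of_le (by positivity) hXlo
  have hW2 : (Wp w2 : ℝ) = Wp w * Q := by rw [hsplit]; push_cast; ring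
  have hkey : |(cnt : ℝ) - (R:ℝ) / Q * X| ≤ 2 * Q := by
    have e1 : (cnt : ℝ) - (R:ℝ) / Q * X = ((cnt : ℝ) - (R:ℝ) * ((N:ℝ) / Wp w2)) -
        (R:ℝ) / Q * (X - (N:ℝ) / Wp w) := by
      rw [hW2]
      field_simp
      ring
    rw [e1]
    have h1 : |(R:ℝ) / Q * (X - (N:ℝ) / Wp w)| ≤ Q := by
      rw [abs_mul, abs_of_nonneg (by positivity : (0:ℝ) ≤ (R:ℝ) / Q)]
      have h2 : (R:ℝ) / Q ≤ 1 := by rw [div_le_one hQ0']; exact hRQ'
      have h3 : |X - (N:ℝ) / Wp w| ≤ 1 := abs_le.2 hX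
      have h4 : (1:ℝ) ≤ Q := by exact_mod_cast hQ0
      calc (R:ℝ) / Q * |X - (N:ℝ) / Wp w| ≤ 1 * 1 :=
            mul_le_mul h2 h3 (abs_nonneg _) (by norm_num)
        _ ≤ Q := by linarith
    refine (abs_sub _ _).trans ?_
    linarith
  have e2 : c ^ E.card * (cnt : ℝ) / X - SP (Pq w w2) E =
      c ^ E.card / X * ((cnt : ℝ) - (R:ℝ) / Q * X) := by
    rw [hSP]
    field_simp
  rw [hsum, e2, abs_mul, abs_of_nonneg (by positivity : (0:ℝ) ≤ c ^ E.card / X)]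
  have hck : c ^ E.card ≤ c ^ 2 := pow_le_pow_right₀ hc1 hk
  calc c ^ E.card / X * |(cnt : ℝ) - (R:ℝ) / Q * X|
      ≤ c ^ 2 / ((N:ℝ) / Wp w / 2) * (2 * Q) := by
        refine mul_le_mul ?_ hkey (abs_nonneg _) (by positivity)
        exact div_le_div₀ (by positivity) hck (by positivity) hXlo
    _ = 4 * c ^ 2 * Wp w2 / N := by
        rw [hW2]
        field_simp
        ring

lemma SP_single (w w2 d : ℕ) : SP (Pq w w2) {d} = 1 := by
  unfold SP
  refine Finset.prod_eq_one fun p hp => ?_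
  have hpp := Pq_prime w w2 p hp
  have hnu : nu {d} p = 1 := by unfold nu; simp
  rw [hnu, Finset.card_singleton, pow_one, Nat.cast_one]
  exact inv_mul_cancel₀ (one_sub_inv_pos p hpp).ne'

lemma SP_pair_le_pp (w w2 d d' : ℕ) (hne : d ≠ d') :
    SP (Pq w w2) {d, d'} ≤ pp w (Nat.dist d d') := by
  classical
  rw [SP_eq_prod_loc]
  have hh : Nat.dist d d' ≠ 0 := fun h => hne (Nat.eq_of_dist_eq_zero h)
  have h1 : ∏ p ∈ Pq w w2, loc {d, d'} p ≤
      ∏ p ∈ Pq w w2, (if p ∣ Nat.dist d d' then (p:ℝ) / ((p:ℝ) - 1) else 1) := by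
    refine Finset.prod_le_prod (fun p hp => loc_nonneg _ p (Pq_prime w w2 p hp)) fun p hp => ?_
    have hpp := Pq_prime w w2 p hp
    split_ifs with hd
    · have h2 := loc_le {d, d'} ⟨d, by simp⟩ p hpp
      rw [Finset.card_pair hne] at h2
      refine h2.trans (le_of_eq ?_)
      have h3 : (1:ℝ) < p := by exact_mod_cast hpp.one_lt
      have h4 : (p:ℝ) - 1 ≠ 0 := by linarith
      have h5 : (p:ℝ) ≠ 0 := by linarith
      rw [show (2 - 1 : ℕ) = 1 from rfl, pow_one]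
      rw [one_sub_div h5, inv_div]
    · refine loc_le_one _ p hpp ?_
      by_contra hcon
      have hlt : nu {d, d'} p < ({d, d'} : Finset ℕ).card := lt_of_le_of_ne (nu_le_card _ _) hcon
      obtain ⟨e, he, e', he', hee, hdvd⟩ := exists_dvd_of_nu_lt _ p hlt
      rw [Finset.mem_insert, Finset.mem_singleton] at he he'
      apply hd
      rcases he with rfl | rfl <;> rcases he' with rfl | rfl
      · omega
      · rw [Nat.dist_eq_sub_of_le hee.le]; exact hdvd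
      · rw [Nat.dist_eq_sub_of_le_right hee.le]; exact hdvd
      · omega
  refine h1.trans ?_
  rw [← Finset.prod_filter]
  unfold pp
  have hsub : (Pq w w2).filter (fun p => p ∣ Nat.dist d d') ⊆
      (Nat.dist d d').primeFactors.filter (fun p => w < p) := by
    intro p hp
    rw [Finset.mem_filter] at hp ⊢
    exact ⟨Nat.mem_primeFactors.2 ⟨Pq_prime w w2 p hp.1, hp.2, hh⟩, Pq_gt w w2 p hp.1⟩
  have hone : ∀ p : ℕ, p.Prime → 1 ≤ (p:ℝ) / ((p:ℝ) - 1) := by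
    intro p hp
    have h2 : (1:ℝ) < p := by exact_mod_cast hp.one_lt
    rw [le_div_iff₀ (by linarith)]
    linarith
  rw [← Finset.prod_sdiff hsub]
  refine le_mul_of_one_le_left ?_ ?_
  · refine Finset.prod_nonneg fun p hp => ?_
    have := hone p (Pq_prime w w2 p (Finset.mem_filter.1 hp).1)
    linarith
  · refine Finset.one_le_prod fun p hp => ?_
    exact hone p (Nat.prime_of_mem_primeFactors
      (Finset.mem_filter.1 (Finset.mem_sdiff.1 hp).1).1)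

lemma SP_pair_ge (w w2 d d' : ℕ) (hw : 1 ≤ w) (hne : d ≠ d') :
    1 - 4 / (w:ℝ) ≤ SP (Pq w w2) {d, d'} := by
  have h1 := prod_tail_ge {d, d'} w hw (Pq w w2) (Pq_gt w w2) (Pq_prime w w2)
  rw [Finset.card_pair hne] at h1
  rw [SP_eq_prod_loc]
  refine le_trans (le_of_eq ?_) h1
  norm_num

lemma pair_bound (N w w2 a d d' : ℕ) (h : w ≤ w2) (hw : 1 ≤ w) (hN : 2 * Wp w ≤ N)
    (hd : (a + d).Coprime (Wp w)) (hd' : (a + d').Coprime (Wp w)) (hne : d ≠ d') :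
    |av (fun n : XS N w a => (om w w2 ((n:ℕ) + d) - 1) * (om w w2 ((n:ℕ) + d') - 1))| ≤
      (pp w (Nat.dist d d') - 1) + (4 / (w:ℝ) + 12 * (cW (Wp w) / cW (Wp w2)) ^ 2 * Wp w2 / N) := by
  classical
  rw [av_coe (XS N w a) (fun n => (om w w2 (n + d) - 1) * (om w w2 (n + d') - 1))]
  have h2 := av_prod N w w2 a h {d, d'} (by
    intro e he
    rw [Finset.mem_insert, Finset.mem_singleton] at he
    rcases he with rfl | rfl
    · exact hd
    · exact hd') hN (by rw [Finset.card_pair hne])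
  have h3 := av_prod N w w2 a h {d} (by
    intro e he
    rw [Finset.mem_singleton] at he
    rw [he]; exact hd) hN (by simp)
  have h4 := av_prod N w w2 a h {d'} (by
    intro e he
    rw [Finset.mem_singleton] at he
    rw [he]; exact hd') hN (by simp)
  rw [SP_single] at h3 h4
  simp only [Finset.prod_singleton] at h3 h4
  rw [Finset.sum_congr rfl fun n _ => Finset.prod_pair (f := fun e => om w w2 (n + e)) hne] at h2
  have hX := card_XS w N a
  have hW0 : (0:ℝ) < (Wp w : ℝ) := by exact_mod_cast Wpos w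
  have hN' : 2 * (Wp w : ℝ) ≤ N := by exact_mod_cast hN
  have hN0 : (0:ℝ) < N := by linarith
  have hNW : 2 ≤ (N:ℝ) / Wp w := by rw [le_div_iff₀ hW0]; exact hN'
  rw [abs_le] at hX
  set X := ((XS N w a).card : ℝ) with hXd
  have hX0 : 0 < X := by linarith [hX.1]
  set S2 := ∑ n ∈ XS N w a, om w w2 (n + d) * om w w2 (n + d') with hS2
  set S1 := ∑ n ∈ XS N w a, om w w2 (n + d) with hS1
  set S1' := ∑ n ∈ XS N w a, om w w2 (n + d') with hS1'
  have e1 : ∑ n ∈ XS N w a, (om w w2 (n + d) - 1) * (om w w2 (n + d') - 1) = S2 - S1 - S1' + X := by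
    rw [hS2, hS1, hS1', hXd, Finset.card_eq_sum_ones, Nat.cast_sum, ← Finset.sum_sub_distrib,
      ← Finset.sum_sub_distrib, ← Finset.sum_add_distrib]
    refine Finset.sum_congr rfl fun n _ => ?_
    push_cast
    ring
  have e2 : (S2 - S1 - S1' + X) / X = S2 / X - S1 / X - S1' / X + 1 := by
    field_simp
  have hlo := SP_pair_ge w w2 d d' hw hne
  have hup := SP_pair_le_pp w w2 d d' hne
  have hpp := one_le_pp w (Nat.dist d d')
  rw [e1, e2]
  set T := (cW (Wp w) / cW (Wp w2)) ^ 2 * Wp w2 / N with hT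
  have t1 : 4 * (cW (Wp w) / cW (Wp w2)) ^ 2 * Wp w2 / N = 4 * T := by rw [hT]; ring
  have t2 : 12 * (cW (Wp w) / cW (Wp w2)) ^ 2 * Wp w2 / N = 12 * T := by rw [hT]; ring
  rw [t1] at h2 h3 h4
  rw [t2]
  rw [abs_le] at h2 h3 h4 ⊢
  have hw4 : 0 ≤ 4 / (w:ℝ) := by positivity
  constructor <;> linarith [h2.1, h2.2, h3.1, h3.2, h4.1, h4.2]

lemma diag_bound (N w w2 a d : ℕ) (h : w ≤ w2) :
    |av (fun n : XS N w a => (om w w2 ((n:ℕ) + d) - 1) * (om w w2 ((n:ℕ) + d) - 1))| ≤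
      (cW (Wp w) / cW (Wp w2)) ^ 2 := by
  rw [av_coe (XS N w a) (fun n => (om w w2 (n + d) - 1) * (om w w2 (n + d) - 1))]
  have hc1 := one_le_cc w w2 h
  set c := cW (Wp w) / cW (Wp w2) with hc
  have hpt : ∀ n ∈ XS N w a, (om w w2 (n + d) - 1) * (om w w2 (n + d) - 1) ≤ c ^ 2 := by
    intro n _
    unfold om
    rw [← hc]
    split_ifs
    · nlinarith
    · nlinarith
  have hnn : 0 ≤ ∑ n ∈ XS N w a, (om w w2 (n + d) - 1) * (om w w2 (n + d) - 1) :=
    Finset.sum_nonneg fun n _ => mul_self_nonneg _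
  rw [abs_of_nonneg (div_nonneg hnn (Nat.cast_nonneg _))]
  refine div_le_of_le_mul₀ (Nat.cast_nonneg _) (by positivity) ?_
  refine (Finset.sum_le_sum hpt).trans ?_
  rw [Finset.sum_const, nsmul_eq_mul, mul_comm]

end StOmAux

open StOmAux in
/-- U0: `om` has small variance on average over pairs of shifts in a class. -/
theorem om_var (κ : ℝ) (hκ : 0 < κ) : ∃ w0 : ℕ, ∀ w : ℕ, w0 ≤ w → ∀ w2 : ℕ, w ≤ w2 →
    ∃ H0 : ℕ, ∀ᶠ N : ℕ in atTop, ∀ H : ℕ, H0 ≤ H →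
    ∀ (a : ℕ) (ρ : Finset ℕ), ρ.Nonempty → (∀ r ∈ ρ, r < Wp w ∧ (a + r).Coprime (Wp w)) →
      av (fun d : VS w H ρ => av (fun d' : VS w H ρ => |av (fun n : XS N w a =>
        (om w w2 ((n:ℕ) + (d:ℕ)) - 1) * (om w w2 ((n:ℕ) + (d':ℕ)) - 1))|)) ≤ κ := by
  obtain ⟨w1, hw1⟩ := row_moment 1 (κ / 4) (by positivity)
  obtain ⟨w3, hw3⟩ := exists_nat_ge (16 / κ)
  refine ⟨max 1 (max w1 w3), fun w hw w2 hw2 => ?_⟩
  have hw_1 : 1 ≤ w := le_trans (le_max_left _ _) hw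
  have hw_w1 : w1 ≤ w := le_trans (le_trans (le_max_left _ _) (le_max_right _ _)) hw
  have hw_w3 : w3 ≤ w := le_trans (le_trans (le_max_right _ _) (le_max_right _ _)) hw
  obtain ⟨H1, hH1⟩ := hw1 w hw_w1
  set c := cW (Wp w) / cW (Wp w2) with hc
  have hc1 : 1 ≤ c := one_le_cc w w2 hw2
  have hW0 : (0:ℝ) < (Wp w : ℝ) := by exact_mod_cast Wpos w
  have hwR : (0:ℝ) < (w:ℝ) := by exact_mod_cast hw_1
  have hw4 : 4 / (w:ℝ) ≤ κ / 4 := by
    have h1 : 16 / κ ≤ (w:ℝ) := hw3.trans (by exact_mod_cast hw_w3)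
    rw [div_le_iff₀ hκ] at h1
    rw [div_le_div_iff₀ hwR (by norm_num)]
    linarith
  obtain ⟨H2, hH2⟩ := exists_nat_ge (8 * c ^ 2 * Wp w / κ)
  refine ⟨max H1 (max H2 (2 * Wp w)), ?_⟩
  filter_upwards [eventually_ge_atTop (2 * Wp w), eventually_ge_atTop 1,
    (tendsto_natCast_atTop_atTop (R := ℝ)).eventually_ge_atTop (48 * c ^ 2 * Wp w2 / κ)]
    with N hN1 hN2 hN3
  intro H hH a ρ hρ hρW
  have hHH1 : H1 ≤ H := le_trans (le_max_left _ _) hH
  have hHH2 : H2 ≤ H := le_trans (le_trans (le_max_left _ _) (le_max_right _ _)) hH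
  have hHW : 2 * Wp w ≤ H := le_trans (le_trans (le_max_right _ _) (le_max_right _ _)) hH
  have hN0 : (0:ℝ) < N := by exact_mod_cast hN2
  have hε : 12 * c ^ 2 * Wp w2 / N ≤ κ / 4 := by
    rw [div_le_iff₀ hκ] at hN3
    rw [div_le_div_iff₀ hN0 (by norm_num)]
    linarith
  have hVlo := (card_VS w H ρ (fun r hr => (hρW r hr).1) hHW).1
  have hρ1 : (1:ℝ) ≤ (ρ.card : ℝ) := by exact_mod_cast hρ.card_pos
  have hcV : c ^ 2 ≤ κ / 4 * ((VS w H ρ).card : ℝ) := by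
    have h1 : 8 * c ^ 2 * Wp w / κ ≤ (H:ℝ) := hH2.trans (by exact_mod_cast hHH2)
    rw [div_le_iff₀ hκ] at h1
    have h2 : (H:ℝ) / (2 * Wp w) ≤ ((VS w H ρ).card : ℝ) := by
      refine le_trans ?_ hVlo
      exact le_mul_of_one_le_left (by positivity) hρ1
    have h3 : c ^ 2 ≤ κ / 4 * ((H:ℝ) / (2 * Wp w)) := by
      rw [← mul_div_assoc, le_div_iff₀ (by positivity)]
      linarith
    exact h3.trans (mul_le_mul_of_nonneg_left h2 (by positivity))
  have hcop : ∀ d ∈ VS w H ρ, (a + d).Coprime (Wp w) := by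
    intro d hd
    have h1 := (Finset.mem_filter.1 hd).2
    have h2 := (hρW _ h1).2
    have h3 : a + d % Wp w ≡ a + d [MOD Wp w] := (Nat.mod_modEq d (Wp w)).add_left a
    unfold Nat.Coprime at h2 ⊢
    rw [← h3.gcd_eq]
    exact h2
  have hVS : ∀ d ∈ VS w H ρ, d ≤ H := by
    intro d hd
    have := Finset.mem_range.1 (Finset.mem_filter.1 hd).1
    omega
  rw [av_coe (VS w H ρ) (fun d => av (fun d' : VS w H ρ => |av (fun n : XS N w a =>
        (om w w2 ((n:ℕ) + d) - 1) * (om w w2 ((n:ℕ) + (d':ℕ)) - 1))|))]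
  refine div_le_of_le_mul₀ (Nat.cast_nonneg _) hκ.le ?_
  have hrow : ∀ d ∈ VS w H ρ, av (fun d' : VS w H ρ => |av (fun n : XS N w a =>
        (om w w2 ((n:ℕ) + d) - 1) * (om w w2 ((n:ℕ) + (d':ℕ)) - 1))|) ≤ κ := by
    intro d hd
    rw [av_coe (VS w H ρ) (fun d' => |av (fun n : XS N w a =>
        (om w w2 ((n:ℕ) + d) - 1) * (om w w2 ((n:ℕ) + d') - 1))|)]
    refine div_le_of_le_mul₀ (Nat.cast_nonneg _) hκ.le ?_
    have hmom := hH1 H hHH1 ρ hρ (fun r hr => (hρW r hr).1) d (hVS d hd)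
    have hpt : ∀ d' ∈ VS w H ρ, |av (fun n : XS N w a =>
        (om w w2 ((n:ℕ) + d) - 1) * (om w w2 ((n:ℕ) + d') - 1))| ≤
        (if d' = d then c ^ 2 else 0) + (if d' = d then 0 else pp w (Nat.dist d d') ^ 1 - 1) +
          κ / 2 := by
      intro d' hd'
      by_cases hdd : d' = d
      · rw [if_pos hdd, if_pos hdd, hdd]
        have := diag_bound N w w2 a d hw2
        rw [← hc] at this
        linarith
      · rw [if_neg hdd, if_neg hdd, pow_one]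
        have := pair_bound N w w2 a d d' hw2 hw_1 hN1 (hcop d hd) (hcop d' hd') (Ne.symm hdd)
        rw [← hc] at this
        linarith
    refine (Finset.sum_le_sum hpt).trans ?_
    rw [Finset.sum_add_distrib, Finset.sum_add_distrib, Finset.sum_ite_eq', if_pos hd,
      Finset.sum_const, nsmul_eq_mul]
    linarith
  refine (Finset.sum_le_sum hrow).trans ?_
  rw [Finset.sum_const, nsmul_eq_mul, mul_comm]

end Pool.Agent.HLT
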