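import Mathlib
import Pool.Agent.HLT.StClose
import Pool.Agent.HLT.StOm
import Pool.Agent.HLT.APBlock
import Pool.Agent.HLT.VerifyU
import Pool.Agent.HLT.PrimesClass
import Pool.Agent.HLT.UpperBlock

set_option autoImplicit false

open Finset Filter

namespace Pool.Agent.HLT

open Pool.Agent.HL26 Pool.Agent.Maynard

namespace StHLBlockAux

open G1aux U7aux

section abstract_part

variable {X V : Type} [Fintype X] [Nonempty X] [Fintype V] [Nonempty V]

lemma pow_sub_one_le (k : ℕ) (y : ℝ) (hy : 0 ≤ y) :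
    |y ^ (k + 1) - 1| ≤ ((k:ℝ) + 1) * (|y - 1| * (1 + y) ^ k) := by
  induction k with
  | zero => simp
  | succ k ih =>
    have h1 : y ^ (k + 1 + 1) - 1 = y * (y ^ (k + 1) - 1) + (y - 1) := by ring
    rw [h1]
    have h2 : (1:ℝ) ≤ (1 + y) ^ (k + 1) := one_le_pow₀ (by linarith)
    calc |y * (y ^ (k + 1) - 1) + (y - 1)| ≤ |y * (y ^ (k + 1) - 1)| + |y - 1| := abs_add_le _ _
      _ = y * |y ^ (k + 1) - 1| + |y - 1| := by rw [abs_mul, abs_of_nonneg hy]
      _ ≤ y * (((k:ℝ) + 1) * (|y - 1| * (1 + y) ^ k)) + |y - 1| * (1 + y) ^ (k + 1) := by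
          have h3 := mul_le_mul_of_nonneg_left ih hy
          have h4 := mul_le_mul_of_nonneg_left h2 (abs_nonneg (y - 1))
          linarith
      _ ≤ (1 + y) * (((k:ℝ) + 1) * (|y - 1| * (1 + y) ^ k)) + |y - 1| * (1 + y) ^ (k + 1) := by
          have h5 : 0 ≤ ((k:ℝ) + 1) * (|y - 1| * (1 + y) ^ k) := by positivity
          nlinarith
      _ = (((k + 1 : ℕ) : ℝ) + 1) * (|y - 1| * (1 + y) ^ (k + 1)) := by
          push_cast
          ring

/-- one class, abstract form -/
lemma one_class [DecidableEq V] (k : ℕ) (hk : 1 ≤ k) (M ν : X → V → ℝ) (C κp κ Λ δ : ℝ)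
    (hC : 1 ≤ C) (hδ : 0 ≤ δ) (hκp : 0 ≤ κp) (hPR : PR k M ν C 10 κp κ Λ)
    (hmom : ∀ r : ℕ, 1 ≤ r → r ≤ 2 * k + 2 → av (fun n => (av (fun d => ν n d)) ^ r) ≤ 2)
    (hdev : ∀ v : V → ℝ, (∀ d, |v d| ≤ 2) →
      av (fun n => (av (fun d => v d * (M n d - 1))) ^ 2) ≤ δ) :
    av (fun e : Fin (k + 1) → V => |corr M e - 1|) ≤
      ((k:ℝ) + 1) * (√(2 * C ^ (2 * k) * (δ + 8 * C ^ 2 * √κp)) +
        √(δ * (3 * (2 * C) ^ (2 * k)))) := by
  have hC0 : 0 < C := by linarith
  have hk1 : (0:ℝ) < (k:ℝ) + 1 := by positivity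
  set T : (V → ℝ) → V → ℝ := fun u _ => av u with hT
  set y : X → ℝ := fun n => av (M n) with hy
  have hy0 : ∀ n, 0 ≤ y n := fun n => av_nonneg fun d => hPR.nonneg n d
  have hT1 : ∀ u v : V → ℝ, av (fun d => u d * T v d) = av (fun d => T u d * v d) := by
    intro u v
    simp only [hT]
    rw [av_mul_right, av_mul_left]
  have hT2 : ∀ u : V → ℝ, (∀ d, |u d| ≤ 1) → ∀ d, |T u d| ≤ 1 := by
    intro u hu d
    refine (abs_av_le u).trans ?_
    exact (av_mono hu).trans (le_of_eq (av_const 1))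
  have hreg : ∀ v : V → ℝ, (∀ d, |v d| ≤ 1) →
        av (fun n => (av (fun d => v d * (M n d - T (M n) d))) ^ 2) ≤ δ := by
    intro v hv
    have h1 : ∀ n, av (fun d => v d * (M n d - T (M n) d)) =
        av (fun d => (v d - av v) * (M n d - 1)) := by
      intro n
      have e1 : av (fun d => v d * (M n d - T (M n) d)) = av (fun d => v d * M n d) - av v * y n := by
        have : (fun d => v d * (M n d - T (M n) d)) = fun d => v d * M n d - v d * y n := by
          funext d; simp only [hT, hy]; ring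
        rw [this, av_sub, av_mul_right]
      have e2 : av (fun d => (v d - av v) * (M n d - 1)) = av (fun d => v d * M n d) - av v * y n := by
        have : (fun d => (v d - av v) * (M n d - 1)) =
            fun d => (v d * M n d - av v * M n d) - (v d - av v) := by
          funext d; ring
        rw [this, av_sub, av_sub, av_sub, av_mul_left, av_const]
        simp only [hy]
        ring
      rw [e1, e2]
    simp only [h1]
    apply hdev
    intro d
    have h2 : |av v| ≤ 1 := (abs_av_le v).trans ((av_mono hv).trans (le_of_eq (av_const 1)))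
    have := abs_sub (v d) (av v)
    linarith [hv d]
  have hclose := close_op k T hT1 hT2 M ν C 10 κp κ Λ δ hC hδ hκp hPR hreg
  have hcorrT : ∀ e : Fin (k + 1) → V, corr (fun n => T (M n)) e = av (fun n => y n ^ (k + 1)) := by
    intro e
    unfold corr
    congr 1
    funext n
    simp only [hT, hy, Finset.prod_const, Finset.card_univ, Fintype.card_fin]
  -- the mean value
  have hyone : av (fun n => (y n - 1) ^ 2) ≤ δ := by
    have h1 := hdev (fun _ => 1) (fun _ => by norm_num)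
    refine le_trans (le_of_eq ?_) h1
    congr 1
    funext n
    simp only [one_mul]
    rw [av_sub, av_const]
  have hymom : av (fun n => (1 + y n) ^ (2 * k)) ≤ 3 * (2 * C) ^ (2 * k) := by
    have h1 : ∀ n, (1 + y n) ^ (2 * k) ≤ 2 ^ (2 * k) + (2 * C) ^ (2 * k) *
        (av (fun d => ν n d)) ^ (2 * k) := by
      intro n
      have h2 : y n ≤ C * av (fun d => ν n d) := by
        simp only [hy]
        rw [← av_mul_left]
        exact av_mono fun d => hPR.le n d
      have h3 : (0:ℝ) ≤ av (fun d => ν n d) := av_nonneg fun d => hPR.nu_nonneg n d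
      rcases le_total (y n) 1 with h4 | h4
      · calc (1 + y n) ^ (2 * k) ≤ 2 ^ (2 * k) := pow_le_pow_left₀ (by linarith [hy0 n]) (by linarith) _
          _ ≤ _ := le_add_of_nonneg_right (by positivity)
      · calc (1 + y n) ^ (2 * k) ≤ (2 * C * av (fun d => ν n d)) ^ (2 * k) :=
              pow_le_pow_left₀ (by linarith [hy0 n]) (by linarith) _
          _ = (2 * C) ^ (2 * k) * (av (fun d => ν n d)) ^ (2 * k) := by rw [mul_pow]
          _ ≤ _ := le_add_of_nonneg_left (by positivity)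
    calc av (fun n => (1 + y n) ^ (2 * k)) ≤ av (fun n => 2 ^ (2 * k) + (2 * C) ^ (2 * k) *
        (av (fun d => ν n d)) ^ (2 * k)) := av_mono h1
      _ = 2 ^ (2 * k) + (2 * C) ^ (2 * k) * av (fun n => (av (fun d => ν n d)) ^ (2 * k)) := by
          rw [av_add, av_const, av_mul_left]
      _ ≤ (2 * C) ^ (2 * k) + (2 * C) ^ (2 * k) * 2 := by
          refine add_le_add ?_ (mul_le_mul_of_nonneg_left (hmom (2 * k) (by omega) (by omega))
            (by positivity))
          exact pow_le_pow_left₀ (by norm_num) (by linarith) _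
      _ = 3 * (2 * C) ^ (2 * k) := by ring
  have hmean : |av (fun n => y n ^ (k + 1)) - 1| ≤
      ((k:ℝ) + 1) * √(δ * (3 * (2 * C) ^ (2 * k))) := by
    have h1 : av (fun n => y n ^ (k + 1)) - 1 = av (fun n => y n ^ (k + 1) - 1) := by
      rw [av_sub, av_const]
    rw [h1]
    refine (abs_av_le _).trans ?_
    calc av (fun n => |y n ^ (k + 1) - 1|) ≤
        av (fun n => ((k:ℝ) + 1) * (|y n - 1| * (1 + y n) ^ k)) :=
          av_mono fun n => pow_sub_one_le k (y n) (hy0 n)
      _ = ((k:ℝ) + 1) * av (fun n => |y n - 1| * (1 + y n) ^ k) := av_mul_left _ _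
      _ ≤ ((k:ℝ) + 1) * √(δ * (3 * (2 * C) ^ (2 * k))) := by
          refine mul_le_mul_of_nonneg_left ?_ hk1.le
          apply Real.le_sqrt_of_sq_le
          refine (av_cs (fun n => |y n - 1|) (fun n => (1 + y n) ^ k)).trans ?_
          have e1 : av (fun n => |y n - 1| ^ 2) ≤ δ := by simpa only [sq_abs] using hyone
          have e2 : av (fun n => ((1 + y n) ^ k) ^ 2) ≤ 3 * (2 * C) ^ (2 * k) := by
            refine le_trans (le_of_eq ?_) hymom
            congr 1
            funext n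
            rw [← pow_mul, mul_comm]
          exact mul_le_mul e1 e2 (av_nonneg fun n => sq_nonneg _) hδ
  calc av (fun e : Fin (k + 1) → V => |corr M e - 1|) ≤
      av (fun e : Fin (k + 1) → V => |corr M e - corr (fun n => T (M n)) e| +
        |av (fun n => y n ^ (k + 1)) - 1|) := by
        refine av_mono fun e => ?_
        rw [← hcorrT e]
        exact abs_sub_le _ _ _
    _ = av (fun e : Fin (k + 1) → V => |corr M e - corr (fun n => T (M n)) e|) +
        |av (fun n => y n ^ (k + 1)) - 1| := by rw [av_add, av_const]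
    _ ≤ _ := by
        rw [mul_add]
        exact add_le_add hclose hmean

end abstract_part

/-- the deviation from `1` in one class -/
lemma class_dev {N w w2 a H : ℕ} (hNW : Wp w ≤ N) (hN2 : 2 * Wp w ≤ N) (hHW : 2 * Wp w ≤ H)
    (hww : w ≤ w2) (δ κ : ℝ) (hδ : 0 ≤ δ) (hXne : (XS N w a).Nonempty)
    (hVne : (VS w H (rho w a)).Nonempty)
    (hcut : ∀ v : ℕ → ℝ, (∀ s, |v s| ≤ 1) →
      (∑ n ∈ Finset.Ioc N (2 * N), (∑ s ∈ Finset.range (H + 1), v s * fp N w2 (n + s)) ^ 2) / N ≤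
        δ * ((H:ℝ) + 1) ^ 2)
    (hom : av (fun d : VS w H (rho w a) => av (fun d' : VS w H (rho w a) =>
        |av (fun n : XS N w a => (om w w2 ((n:ℕ) + (d:ℕ)) - 1) *
          (om w w2 ((n:ℕ) + (d':ℕ)) - 1))|)) ≤ κ)
    (v : VS w H (rho w a) → ℝ) (hv : ∀ d, |v d| ≤ 2) :
    av (fun n : XS N w a => (av (fun d : VS w H (rho w a) => v d * (MM N w n d - 1))) ^ 2) ≤
      256 * Wp w * δ + 8 * κ := by
  classical
  have hW := G1aux.Wp_pos w
  have hWR : (0:ℝ) < Wp w := by exact_mod_cast hW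
  have hφ : 0 < cW (Wp w) := cWW_pos w
  have hφ2 : 0 < cW (Wp w2) := cWW_pos w2
  have hN0 : (0:ℝ) < N := by
    have : 0 < N := by omega
    exact_mod_cast this
  have hH0 : (0:ℝ) < H := by
    have : 0 < H := by omega
    exact_mod_cast this
  have hX0 : (0:ℝ) < ((XS N w a).card : ℝ) := by exact_mod_cast hXne.card_pos
  have hV0 : (0:ℝ) < ((VS w H (rho w a)).card : ℝ) := by exact_mod_cast hVne.card_pos
  have hX : (N:ℝ) / (2 * Wp w) ≤ ((XS N w a).card : ℝ) := by
    have h1 := (abs_le.1 (card_XS w N a)).1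
    have h2 : (1:ℝ) ≤ (N:ℝ) / (2 * Wp w) := by
      rw [le_div_iff₀ (by positivity)]
      have : ((2 * Wp w : ℕ) : ℝ) ≤ N := by exact_mod_cast hN2
      push_cast at this
      linarith
    have h3 : (N:ℝ) / Wp w = 2 * ((N:ℝ) / (2 * Wp w)) := by field_simp
    linarith
  have hVc : cW (Wp w) * H / 2 ≤ ((VS w H (rho w a)).card : ℝ) := by
    refine le_trans (le_of_eq ?_)
      (card_VS w H (rho w a) (fun r hr => (rho_mem w a r hr).1) hHW).1
    rw [rho_card']
    field_simp
  have : Nonempty (XS N w a) := hXne.to_subtype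
  have : Nonempty (VS w H (rho w a)) := hVne.to_subtype
  -- the decomposition
  have hdec : ∀ (n : XS N w a) (d : VS w H (rho w a)), MM N w n d - 1 =
      cW (Wp w) * fp N w2 ((n:ℕ) + (d:ℕ)) + (om w w2 ((n:ℕ) + (d:ℕ)) - 1) := by
    intro n d
    unfold MM fp om
    by_cases h1 : ((n:ℕ) + (d:ℕ)).Prime <;> by_cases h2 : ((n:ℕ) + (d:ℕ)).Coprime (Wp w2)
    · rw [if_pos h1, if_pos h1, if_pos h2, if_pos h2]; field_simp; ring
    · rw [if_pos h1, if_pos h1, if_neg h2, if_neg h2]; ring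
    · rw [if_neg h1, if_neg h1, if_pos h2, if_pos h2]; field_simp; ring
    · rw [if_neg h1, if_neg h1, if_neg h2, if_neg h2]; ring
  have hsplit : ∀ n : XS N w a, (av (fun d : VS w H (rho w a) => v d * (MM N w n d - 1))) ^ 2 ≤
      2 * (av (fun d : VS w H (rho w a) => v d * (cW (Wp w) * fp N w2 ((n:ℕ) + (d:ℕ))))) ^ 2 +
      2 * (av (fun d : VS w H (rho w a) => v d * (om w w2 ((n:ℕ) + (d:ℕ)) - 1))) ^ 2 := by
    intro n
    have h1 : av (fun d : VS w H (rho w a) => v d * (MM N w n d - 1)) =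
        av (fun d : VS w H (rho w a) => v d * (cW (Wp w) * fp N w2 ((n:ℕ) + (d:ℕ)))) +
        av (fun d : VS w H (rho w a) => v d * (om w w2 ((n:ℕ) + (d:ℕ)) - 1)) := by
      rw [← av_add]
      congr 1
      funext d
      rw [hdec]
      ring
    rw [h1]
    nlinarith [sq_nonneg (av (fun d : VS w H (rho w a) => v d * (cW (Wp w) * fp N w2 ((n:ℕ) + (d:ℕ)))) -
        av (fun d : VS w H (rho w a) => v d * (om w w2 ((n:ℕ) + (d:ℕ)) - 1)))]
  -- the first part
  have hfirst : av (fun n : XS N w a => (av (fun d : VS w H (rho w a) =>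
      v d * (cW (Wp w) * fp N w2 ((n:ℕ) + (d:ℕ))))) ^ 2) ≤ 128 * Wp w * δ := by
    set v2 : ℕ → ℝ := fun s => if h : s ∈ VS w H (rho w a) then v ⟨s, h⟩ / 2 else 0 with hv2
    have hv2le : ∀ s, |v2 s| ≤ 1 := by
      intro s
      simp only [hv2]
      split_ifs with h
      · rw [abs_div, abs_two]
        linarith [hv ⟨s, h⟩]
      · simp
    have h1 := hcut v2 hv2le
    rw [div_le_iff₀ hN0] at h1
    have h2 : ∀ n : ℕ, ∑ s ∈ Finset.range (H + 1), v2 s * fp N w2 (n + s) =
        ∑ d : VS w H (rho w a), v d / 2 * fp N w2 (n + (d:ℕ)) := by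
      intro n
      rw [← Finset.sum_subset (s₁ := VS w H (rho w a)) (Finset.filter_subset _ _)]
      · rw [← Finset.sum_coe_sort (VS w H (rho w a))]
        refine Finset.sum_congr rfl fun d _ => ?_
        simp only [hv2]
        rw [dif_pos d.2]
      · intro s _ hs
        simp only [hv2]
        rw [dif_neg hs, zero_mul]
    have h3 : ∀ n : XS N w a, (av (fun d : VS w H (rho w a) =>
        v d * (cW (Wp w) * fp N w2 ((n:ℕ) + (d:ℕ))))) ^ 2 =
        (2 * cW (Wp w) / ((VS w H (rho w a)).card : ℝ)) ^ 2 *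
          (∑ s ∈ Finset.range (H + 1), v2 s * fp N w2 ((n:ℕ) + s)) ^ 2 := by
      intro n
      rw [h2, ← mul_pow]
      congr 1
      unfold av
      rw [Fintype.card_coe, Finset.mul_sum, Finset.sum_div]
      refine Finset.sum_congr rfl fun d _ => ?_
      ring
    simp only [h3]
    rw [av_mul_left]
    unfold av
    rw [Fintype.card_coe, Finset.sum_coe_sort (XS N w a)
      (fun n => (∑ s ∈ Finset.range (H + 1), v2 s * fp N w2 (n + s)) ^ 2)]
    have h4 : ∑ n ∈ XS N w a, (∑ s ∈ Finset.range (H + 1), v2 s * fp N w2 (n + s)) ^ 2 ≤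
        δ * ((H:ℝ) + 1) ^ 2 * N := by
      refine le_trans ?_ h1
      exact Finset.sum_le_sum_of_subset_of_nonneg (Finset.filter_subset _ _)
        (fun _ _ _ => sq_nonneg _)
    have h5 : (∑ n ∈ XS N w a, (∑ s ∈ Finset.range (H + 1), v2 s * fp N w2 (n + s)) ^ 2) /
        ((XS N w a).card : ℝ) ≤ 2 * Wp w * (δ * ((H:ℝ) + 1) ^ 2) := by
      rw [div_le_iff₀ hX0]
      refine h4.trans ?_
      calc δ * ((H:ℝ) + 1) ^ 2 * N = 2 * Wp w * (δ * ((H:ℝ) + 1) ^ 2) * (N / (2 * Wp w)) := by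
            field_simp
        _ ≤ _ := mul_le_mul_of_nonneg_left hX (by positivity)
    have h6 : (2 * cW (Wp w) / ((VS w H (rho w a)).card : ℝ)) ^ 2 ≤ (4 / (H:ℝ)) ^ 2 := by
      apply pow_le_pow_left₀ (by positivity)
      rw [div_le_div_iff₀ hV0 hH0]
      linarith
    have h7 : ((H:ℝ) + 1) ^ 2 ≤ 4 * (H:ℝ) ^ 2 := by
      have : (1:ℝ) ≤ H := by
        have : 1 ≤ H := by omega
        exact_mod_cast this
      nlinarith
    have h8 : 0 ≤ (∑ n ∈ XS N w a, (∑ s ∈ Finset.range (H + 1), v2 s * fp N w2 (n + s)) ^ 2) /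
        ((XS N w a).card : ℝ) := by positivity
    calc (2 * cW (Wp w) / ((VS w H (rho w a)).card : ℝ)) ^ 2 *
          ((∑ n ∈ XS N w a, (∑ s ∈ Finset.range (H + 1), v2 s * fp N w2 (n + s)) ^ 2) /
            ((XS N w a).card : ℝ))
        ≤ (4 / (H:ℝ)) ^ 2 * (2 * Wp w * (δ * ((H:ℝ) + 1) ^ 2)) :=
          mul_le_mul h6 h5 h8 (by positivity)
      _ ≤ (4 / (H:ℝ)) ^ 2 * (2 * Wp w * (δ * (4 * (H:ℝ) ^ 2))) := by gcongr
      _ = 128 * Wp w * δ := by field_simp; ring
  -- the second part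
  have hsecond : av (fun n : XS N w a => (av (fun d : VS w H (rho w a) =>
      v d * (om w w2 ((n:ℕ) + (d:ℕ)) - 1))) ^ 2) ≤ 4 * κ := by
    have h1 : av (fun n : XS N w a => (av (fun d : VS w H (rho w a) =>
      v d * (om w w2 ((n:ℕ) + (d:ℕ)) - 1))) ^ 2) =
        av (fun d : VS w H (rho w a) => av (fun d' : VS w H (rho w a) => v d * v d' *
          av (fun n : XS N w a => (om w w2 ((n:ℕ) + (d:ℕ)) - 1) *
            (om w w2 ((n:ℕ) + (d':ℕ)) - 1)))) := by
      have h2 : ∀ n : XS N w a, (av (fun d : VS w H (rho w a) =>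
          v d * (om w w2 ((n:ℕ) + (d:ℕ)) - 1))) ^ 2 =
          av (fun d : VS w H (rho w a) => av (fun d' : VS w H (rho w a) => v d * v d' *
            ((om w w2 ((n:ℕ) + (d:ℕ)) - 1) * (om w w2 ((n:ℕ) + (d':ℕ)) - 1)))) := by
        intro n
        rw [pow_two, av_mul_av]
        congr 1
        funext d
        congr 1
        funext d'
        ring
      simp only [h2]
      rw [av_comm]
      congr 1
      funext d
      rw [av_comm]
      congr 1
      funext d'
      rw [av_mul_left]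
    rw [h1]
    calc av (fun d : VS w H (rho w a) => av (fun d' : VS w H (rho w a) => v d * v d' *
          av (fun n : XS N w a => (om w w2 ((n:ℕ) + (d:ℕ)) - 1) *
            (om w w2 ((n:ℕ) + (d':ℕ)) - 1))))
        ≤ av (fun d : VS w H (rho w a) => av (fun d' : VS w H (rho w a) => 4 *
          |av (fun n : XS N w a => (om w w2 ((n:ℕ) + (d:ℕ)) - 1) *
            (om w w2 ((n:ℕ) + (d':ℕ)) - 1))|)) := by
          refine av_mono fun d => av_mono fun d' => ?_
          refine (le_abs_self _).trans ?_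
          rw [abs_mul, abs_mul]
          refine mul_le_mul_of_nonneg_right ?_ (abs_nonneg _)
          nlinarith [hv d, hv d', abs_nonneg (v d), abs_nonneg (v d')]
      _ = 4 * av (fun d : VS w H (rho w a) => av (fun d' : VS w H (rho w a) =>
          |av (fun n : XS N w a => (om w w2 ((n:ℕ) + (d:ℕ)) - 1) *
            (om w w2 ((n:ℕ) + (d':ℕ)) - 1))|)) := by
          simp only [av_mul_left]
      _ ≤ 4 * κ := mul_le_mul_of_nonneg_left hom (by norm_num)
  calc av (fun n : XS N w a => (av (fun d : VS w H (rho w a) => v d * (MM N w n d - 1))) ^ 2)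
      ≤ av (fun n : XS N w a =>
        2 * (av (fun d : VS w H (rho w a) => v d * (cW (Wp w) * fp N w2 ((n:ℕ) + (d:ℕ))))) ^ 2 +
        2 * (av (fun d : VS w H (rho w a) => v d * (om w w2 ((n:ℕ) + (d:ℕ)) - 1))) ^ 2) :=
        av_mono hsplit
    _ = 2 * av (fun n : XS N w a =>
        (av (fun d : VS w H (rho w a) => v d * (cW (Wp w) * fp N w2 ((n:ℕ) + (d:ℕ))))) ^ 2) +
        2 * av (fun n : XS N w a =>
        (av (fun d : VS w H (rho w a) => v d * (om w w2 ((n:ℕ) + (d:ℕ)) - 1))) ^ 2) := by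
        rw [av_add, av_mul_left, av_mul_left]
    _ ≤ 256 * Wp w * δ + 8 * κ := by linarith

end StHLBlockAux

open StHLBlockAux G1aux U7aux

open Classical in
/-- U1: if primes minus rough numbers is small in the cut norm, then tuples follow Hardy-Littlewood on
average. -/
theorem block_hl (k : ℕ) (hk : 1 ≤ k) (ε : ℝ) (hε : 0 < ε) : ∃ w0 : ℕ, ∀ w : ℕ, w0 ≤ w →
    ∃ δ : ℝ, 0 < δ ∧ ∀ w2 : ℕ, w ≤ w2 → ∃ K : ℝ, ∀ A : ℕ, ∀ᶠ N : ℕ in atTop, ∀ H : ℕ,
    K * Real.log N ≤ H → (H:ℝ) ≤ (Real.log N) ^ A →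
    (∀ v : ℕ → ℝ, (∀ s, |v s| ≤ 1) →
      (∑ n ∈ Finset.Ioc N (2 * N), (∑ s ∈ Finset.range (H + 1), v s * fp N w2 (n + s)) ^ 2) / N ≤
        δ * ((H:ℝ) + 1) ^ 2) →
    ∑ e ∈ (box (k + 1) H).filter (fun e => Function.Injective e),
      |rr N e - SP (PPy w) (Finset.univ.image e)| ≤ ε * ((H:ℝ) + 1) ^ (k + 1) := by
  have hk1 : (0:ℝ) < (k:ℝ) + 1 := by positivity
  set ε1 : ℝ := ε / 2 / 2 ^ (k + 1) with hε1
  have hε10 : 0 < ε1 := by positivity
  set η : ℝ := ε1 / ((k:ℝ) + 1) / 2 with hη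
  have hη0 : 0 < η := by positivity
  set cp : ℝ := (η ^ 2 / 32) ^ 2 with hcpdef
  have hcp : 0 < cp := by positivity
  have hsqcp : √cp = η ^ 2 / 32 := by
    rw [hcpdef, Real.sqrt_sq (by positivity)]
  obtain ⟨C, hC, hPR⟩ := nt_PR_u k hk cp hcp
  have hC0 : 0 < C := by linarith
  set δ1 : ℝ := η ^ 2 / (4 * (2 * C) ^ (2 * k)) with hδ1def
  have hδ1 : 0 < δ1 := by positivity
  obtain ⟨w1, hw1⟩ := hPR 1 one_pos
  obtain ⟨w2', hw2'⟩ := om_var (δ1 / 16) (by positivity)
  refine ⟨max w1 w2', fun w hw => ?_⟩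
  obtain ⟨K, hK⟩ := hw1 w ((le_max_left _ _).trans hw)
  have hom := hw2' w ((le_max_right _ _).trans hw)
  have hW := G1aux.Wp_pos w
  have hWR : (0:ℝ) < Wp w := by exact_mod_cast hW
  have hφ : 0 < cW (Wp w) := cWW_pos w
  set δ : ℝ := δ1 / (512 * Wp w) with hδdef
  have hδ : 0 < δ := by positivity
  refine ⟨δ, hδ, fun w2 hww => ?_⟩
  obtain ⟨H0, hH0⟩ := hom w2 hww
  refine ⟨max K 1, fun A => ?_⟩
  set W1 : ℝ := (cW (Wp w) ^ (k + 1))⁻¹ with hW1
  have hW10 : 0 < W1 := by positivity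
  have hlogev : ∀ᶠ N : ℕ in atTop, (2 * Wp w + H0 : ℝ) ≤ Real.log N :=
    (Real.tendsto_log_atTop.comp tendsto_natCast_atTop_atTop).eventually_ge_atTop _
  have hNev : ∀ᶠ N : ℕ in atTop, 2 * (Wp w * W1) / ε ≤ (N:ℝ) :=
    tendsto_natCast_atTop_atTop.eventually_ge_atTop _
  filter_upwards [hK A, hH0, eventually_ge_atTop 2, eventually_ge_atTop (2 * Wp w), hlogev, hNev]
    with N hN hN' hN2 hNW2 hlog hNbig H h1 h2 hcut
  have hNW : Wp w ≤ N := by omega
  have hH00 : (0:ℝ) ≤ H0 := Nat.cast_nonneg _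
  have hL : 0 < Real.log N := by linarith
  have hNR : (0:ℝ) < N := by positivity
  have h1K : K * Real.log N ≤ H := (mul_le_mul_of_nonneg_right (le_max_left _ _) hL.le).trans h1
  have h11 : Real.log N ≤ H := by
    have := (mul_le_mul_of_nonneg_right (le_max_right K 1) hL.le).trans h1
    linarith
  have hHW : 2 * Wp w ≤ H := by
    have : (2 * Wp w : ℝ) ≤ H := le_trans (by linarith) (hlog.trans h11)
    exact_mod_cast this
  have hHH0 : H0 ≤ H := by
    have : (H0 : ℝ) ≤ H := le_trans (by linarith) (hlog.trans h11)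
    exact_mod_cast this
  -- the bound in one class
  let DD : (a : ℕ) → (Fin (k + 1) → VS w H (rho w a)) → ℝ := fun a e =>
      |corr (MM N w (S := XS N w a)) e - 1|
  have hXne : ∀ a : ℕ, (XS N w a).Nonempty := fun a =>
    (hN H h1K h2 a (rho w a) (rho_nonempty w a) (rho_mem w a)).1
  have hVne : ∀ a : ℕ, (VS w H (rho w a)).Nonempty := fun a =>
    (hN H h1K h2 a (rho w a) (rho_nonempty w a) (rho_mem w a)).2.1
  have hcls0 : ∀ a : ℕ, av (DD a) ≤ ε1 := by
    intro a
    obtain ⟨hXne, hVne, ⟨ν, hPRν, hmom⟩, -, -⟩ :=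
      hN H h1K h2 a (rho w a) (rho_nonempty w a) (rho_mem w a)
    have : Nonempty (XS N w a) := hXne.to_subtype
    have : Nonempty (VS w H (rho w a)) := hVne.to_subtype
    have hκp : 0 ≤ cp / C ^ (4 * k + 4) := by positivity
    have hdev : ∀ v : VS w H (rho w a) → ℝ, (∀ d, |v d| ≤ 2) →
        av (fun n : XS N w a => (av (fun d : VS w H (rho w a) => v d * (MM N w n d - 1))) ^ 2) ≤
          δ1 := by
      intro v hv
      have h3 := class_dev (a := a) hNW hNW2 hHW hww δ (δ1 / 16) hδ.le hXne hVne hcut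
        (hN' H hHH0 a (rho w a) (rho_nonempty w a) (rho_mem w a)) v hv
      refine h3.trans (le_of_eq ?_)
      rw [hδdef]
      field_simp
      norm_num
    have h4 := one_class k hk (MM N w (S := XS N w a)) ν C (cp / C ^ (4 * k + 4)) 1 _ δ1 hC hδ1.le
      hκp hPRν hmom hdev
    refine h4.trans ?_
    have h5 : √(cp / C ^ (4 * k + 4)) = η ^ 2 / 32 / C ^ (2 * k + 2) := by
      rw [Real.sqrt_div hcp.le, hsqcp]
      congr 1
      rw [show 4 * k + 4 = (2 * k + 2) * 2 by ring, pow_mul, Real.sqrt_sq (by positivity)]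
    have h2C : C ^ (2 * k) ≤ (2 * C) ^ (2 * k) := pow_le_pow_left₀ hC0.le (by linarith) _
    have h6 : √(2 * C ^ (2 * k) * (δ1 + 8 * C ^ 2 * √(cp / C ^ (4 * k + 4)))) ≤ η := by
      rw [h5]
      apply Real.sqrt_le_iff.2
      refine ⟨hη0.le, ?_⟩
      have hC2 : C ^ (2 * k + 2) = C ^ (2 * k) * C ^ 2 := by rw [pow_add]
      have h7 : 2 * C ^ (2 * k) * (δ1 + 8 * C ^ 2 * (η ^ 2 / 32 / C ^ (2 * k + 2))) =
          2 * C ^ (2 * k) * δ1 + η ^ 2 / 2 := by
        rw [hC2]
        field_simp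
        ring
      rw [h7]
      have h8 : 2 * C ^ (2 * k) * δ1 ≤ η ^ 2 / 2 := by
        rw [hδ1def]
        calc 2 * C ^ (2 * k) * (η ^ 2 / (4 * (2 * C) ^ (2 * k)))
            ≤ 2 * (2 * C) ^ (2 * k) * (η ^ 2 / (4 * (2 * C) ^ (2 * k))) := by gcongr
          _ = η ^ 2 / 2 := by field_simp; norm_num
      linarith
    have h9 : √(δ1 * (3 * (2 * C) ^ (2 * k))) ≤ η := by
      apply Real.sqrt_le_iff.2
      refine ⟨hη0.le, ?_⟩
      rw [hδ1def]
      have h10 : η ^ 2 / (4 * (2 * C) ^ (2 * k)) * (3 * (2 * C) ^ (2 * k)) = 3 / 4 * η ^ 2 := by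
        field_simp
      rw [h10]
      nlinarith [sq_nonneg η]
    calc ((k:ℝ) + 1) * (√(2 * C ^ (2 * k) * (δ1 + 8 * C ^ 2 * √(cp / C ^ (4 * k + 4)))) +
          √(δ1 * (3 * (2 * C) ^ (2 * k)))) ≤ ((k:ℝ) + 1) * (η + η) := by gcongr
      _ = ε1 := by rw [hη]; field_simp; ring
  have hDD0 : ∀ a e, 0 ≤ DD a e := fun a e => abs_nonneg _
  have hext0 : ∀ (a : ℕ) (e : Fin (k + 1) → ℕ), 0 ≤ ext0 (VS w H (rho w a)) (DD a) e := by
    intro a e
    unfold ext0
    split_ifs
    · exact hDD0 _ _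
    · exact le_rfl
  -- pointwise bound
  have hpt : ∀ e ∈ (box (k + 1) H).filter (fun e => Function.Injective e),
      |rr N e - SP (PPy w) (Finset.univ.image e)| ≤
        ∑ a : Fin (Wp w), W1 * (((XS N w (a:ℕ)).card : ℝ) / N) *
          ext0 (VS w H (rho w a)) (DD a) e + Wp w * W1 / N := by
    intro e he
    rw [Finset.mem_filter] at he
    obtain ⟨he1, hinje⟩ := he
    have heH : ∀ i, e i ≤ H := by
      intro i
      have h3 := he1
      unfold box at h3
      rw [Fintype.mem_piFinset] at h3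
      have h4 := h3 i
      rw [Finset.mem_range] at h4
      omega
    have hSP : SP (PPy w) (Finset.univ.image e) = ∑ a : Fin (Wp w), W1 * (1 / (Wp w : ℝ)) *
        (if ∀ i, ((a:ℕ) + e i).Coprime (Wp w) then (1:ℝ) else 0) := by
      rw [← Finset.mul_sum, card_alive w (k + 1) e hinje, hW1]
      field_simp
    have hrr : rr N e = ∑ a : Fin (Wp w), (Real.log N) ^ (k + 1) / N *
        (((XS N w (a:ℕ)).filter (fun n => ∀ i, (n + e i).Prime)).card : ℝ) := by
      unfold rr
      rw [split_classes N w, ← Finset.mul_sum]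
      ring
    have hone : ∀ a : Fin (Wp w), |(Real.log N) ^ (k + 1) / N *
        (((XS N w (a:ℕ)).filter (fun n => ∀ i, (n + e i).Prime)).card : ℝ) -
        W1 * (1 / (Wp w : ℝ)) * (if ∀ i, ((a:ℕ) + e i).Coprime (Wp w) then (1:ℝ) else 0)| ≤
        W1 * (((XS N w (a:ℕ)).card : ℝ) / N) * ext0 (VS w H (rho w a)) (DD a) e + W1 / N := by
      intro a
      by_cases halive : ∀ i, ((a:ℕ) + e i).Coprime (Wp w)
      · rw [if_pos halive, mul_one]
        have hV : ∀ i, e i ∈ VS w H (rho w a) :=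
          fun i => (mem_VS_iff w H a (e i)).mpr ⟨heH i, halive i⟩
        have hX : (0:ℝ) < (XS N w (a:ℕ)).card := by exact_mod_cast (hXne a).card_pos
        have hcorr := corr_eq (N := N) (w := w) (S := XS N w (a:ℕ))
          (fun i => (⟨e i, hV i⟩ : VS w H (rho w a)))
        simp only at hcorr
        have e1 : (Real.log N) ^ (k + 1) / N *
            (((XS N w (a:ℕ)).filter (fun n => ∀ i, (n + e i).Prime)).card : ℝ) =
            W1 * (((XS N w (a:ℕ)).card : ℝ) / N) *
              corr (MM N w (S := XS N w (a:ℕ))) (fun i => (⟨e i, hV i⟩ : VS w H (rho w a))) := by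
          rw [hcorr, hW1, mul_pow]
          field_simp
        have e2 : ext0 (VS w H (rho w a)) (DD a) e =
            |corr (MM N w (S := XS N w (a:ℕ)))
              (fun i => (⟨e i, hV i⟩ : VS w H (rho w a))) - 1| := by
          unfold ext0
          rw [dif_pos hV]
        rw [e1, e2]
        set q := corr (MM N w (S := XS N w (a:ℕ)))
          (fun i => (⟨e i, hV i⟩ : VS w H (rho w a))) with hq
        have h6 : |((XS N w (a:ℕ)).card : ℝ) / N - 1 / (Wp w : ℝ)| ≤ 1 / N := by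
          have h7 := card_XS w N a
          have h8 : ((XS N w (a:ℕ)).card : ℝ) / N - 1 / (Wp w : ℝ) =
              (((XS N w (a:ℕ)).card : ℝ) - (N:ℝ) / Wp w) / N := by field_simp
          rw [h8, abs_div, abs_of_pos hNR]
          exact div_le_div_of_nonneg_right h7 hNR.le
        have h7 : 0 ≤ W1 * (((XS N w (a:ℕ)).card : ℝ) / N) := by positivity
        have h8 : W1 * (((XS N w (a:ℕ)).card : ℝ) / N) * q - W1 * (1 / (Wp w : ℝ)) =
            W1 * (((XS N w (a:ℕ)).card : ℝ) / N) * (q - 1) +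
              W1 * (((XS N w (a:ℕ)).card : ℝ) / N - 1 / (Wp w : ℝ)) := by ring
        rw [h8]
        refine (abs_add_le _ _).trans ?_
        rw [abs_mul (W1 * (((XS N w (a:ℕ)).card : ℝ) / N)), abs_of_nonneg h7, abs_mul W1,
          abs_of_pos hW10]
        have h9 := mul_le_mul_of_nonneg_left h6 hW10.le
        have h10 : W1 * (1 / (N:ℝ)) = W1 / N := by ring
        linarith
      · rw [if_neg halive, mul_zero, sub_zero]
        have hzero : ((XS N w (a:ℕ)).filter (fun n => ∀ i, (n + e i).Prime)) = ∅ := by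
          rw [Finset.filter_eq_empty_iff]
          intro n hn hall
          apply halive
          intro i
          unfold XS at hn
          rw [Finset.mem_filter, Finset.mem_Ioc] at hn
          exact coprime_of_prime hNW hn.1.1 hn.2 (hall i)
        rw [hzero]
        simp only [Finset.card_empty, Nat.cast_zero, mul_zero, abs_zero]
        have := mul_nonneg (show (0:ℝ) ≤ W1 * (((XS N w (a:ℕ)).card : ℝ) / N) by positivity)
          (hext0 a e)
        positivity
    rw [hrr, hSP, ← Finset.sum_sub_distrib]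
    refine (Finset.abs_sum_le_sum_abs _ _).trans ((Finset.sum_le_sum fun a _ => hone a).trans ?_)
    rw [Finset.sum_add_distrib, Finset.sum_const, Finset.card_univ, Fintype.card_fin, nsmul_eq_mul]
    refine le_of_eq ?_
    ring
  refine (Finset.sum_le_sum hpt).trans ?_
  rw [Finset.sum_add_distrib, Finset.sum_comm]
  have hbox : ((((box (k + 1) H).filter (fun e => Function.Injective e)).card : ℕ) : ℝ) ≤
      ((H:ℝ) + 1) ^ (k + 1) := by
    have h3 : ((box (k + 1) H).filter (fun e => Function.Injective e)).card ≤ (H + 1) ^ (k + 1) := by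
      refine (Finset.card_filter_le _ _).trans ?_
      unfold box
      simp
    exact_mod_cast h3
  have hcls : ∀ a : Fin (Wp w), ∑ e ∈ (box (k + 1) H).filter (fun e => Function.Injective e),
      W1 * (((XS N w (a:ℕ)).card : ℝ) / N) * ext0 (VS w H (rho w a)) (DD a) e ≤
      (((XS N w (a:ℕ)).card : ℝ) / N) * (ε / 2 * (H:ℝ) ^ (k + 1)) := by
    intro a
    rw [← Finset.mul_sum]
    have h3 := sum_ext0_le (VS w H (rho w a)) (DD a) (hDD0 a)
      ((box (k + 1) H).filter (fun e => Function.Injective e))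
    have h4 : ∑ e, DD a e ≤ ε1 * ((VS w H (rho w a)).card : ℝ) ^ (k + 1) := by
      have h5 := hcls0 a
      unfold av at h5
      rw [Fintype.card_fun, Fintype.card_coe, Fintype.card_fin, Nat.cast_pow] at h5
      have hVpos : (0:ℝ) < (VS w H (rho w a)).card := by exact_mod_cast (hVne a).card_pos
      rw [div_le_iff₀ (by positivity)] at h5
      exact h5
    have h6 : ((VS w H (rho w a)).card : ℝ) ≤ 2 * cW (Wp w) * H := by
      refine ((card_VS w H (rho w a) (fun r hr => (rho_mem w a r hr).1) hHW).2).trans (le_of_eq ?_)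
      rw [rho_card']
      field_simp
    have h7 : ((VS w H (rho w a)).card : ℝ) ^ (k + 1) ≤ (2 * cW (Wp w) * H) ^ (k + 1) :=
      pow_le_pow_left₀ (Nat.cast_nonneg _) h6 _
    calc W1 * (((XS N w (a:ℕ)).card : ℝ) / N) *
          ∑ e ∈ (box (k + 1) H).filter (fun e => Function.Injective e),
            ext0 (VS w H (rho w a)) (DD a) e
        ≤ W1 * (((XS N w (a:ℕ)).card : ℝ) / N) * (ε1 * (2 * cW (Wp w) * H) ^ (k + 1)) := by
          refine mul_le_mul_of_nonneg_left ?_ (by positivity)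
          exact h3.trans (h4.trans (mul_le_mul_of_nonneg_left h7 hε10.le))
      _ = (((XS N w (a:ℕ)).card : ℝ) / N) * (ε / 2 * (H:ℝ) ^ (k + 1)) := by
          rw [hW1, hε1, mul_pow, mul_pow]
          field_simp
  have hsum1 := Finset.sum_le_sum fun (a : Fin (Wp w)) (_ : a ∈ univ) => hcls a
  rw [← Finset.sum_mul, ← Finset.sum_div, sum_XS, div_self hNR.ne', one_mul] at hsum1
  have hH1 : (H:ℝ) ^ (k + 1) ≤ ((H:ℝ) + 1) ^ (k + 1) :=
    pow_le_pow_left₀ (Nat.cast_nonneg _) (by linarith) _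
  have hP0 : (0:ℝ) ≤ ((H:ℝ) + 1) ^ (k + 1) := by positivity
  have hsum2 : ∑ _e ∈ (box (k + 1) H).filter (fun e => Function.Injective e), Wp w * W1 / N ≤
      ε / 2 * ((H:ℝ) + 1) ^ (k + 1) := by
    rw [Finset.sum_const, nsmul_eq_mul]
    have h3 : Wp w * W1 / N ≤ ε / 2 := by
      rw [div_le_iff₀ hε] at hNbig
      rw [div_le_iff₀ hNR]
      linarith
    calc _ ≤ ((H:ℝ) + 1) ^ (k + 1) * (ε / 2) :=
          mul_le_mul hbox h3 (by positivity) hP0
      _ = _ := mul_comm _ _
  calc _ ≤ ε / 2 * (H:ℝ) ^ (k + 1) + ε / 2 * ((H:ℝ) + 1) ^ (k + 1) := add_le_add hsum1 hsum2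
    _ ≤ ε / 2 * ((H:ℝ) + 1) ^ (k + 1) + ε / 2 * ((H:ℝ) + 1) ^ (k + 1) := by gcongr
    _ = ε * ((H:ℝ) + 1) ^ (k + 1) := by ring

end Pool.Agent.HLT
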