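import Mathlib
import Pool.Agent.HLT.ApKernel

set_option autoImplicit false

open Finset Filter

namespace Pool.Agent.HLT

open Pool.Agent.HL26 Pool.Agent.Maynard

namespace StScaleAux

lemma sum_blocks (f : ℕ → ℝ) (B L : ℕ) :
    ∑ s ∈ Finset.range (B * L), f s = ∑ b ∈ Finset.range B, ∑ t ∈ Finset.range L, f (b * L + t) := by
  induction B with
  | zero => simp
  | succ B ih =>
    rw [Nat.succ_mul, Finset.sum_range_add, ih, Finset.sum_range_succ]

lemma abs_fp_le (N w m : ℕ) (hN : 1 ≤ N) : |fp N w m| ≤ Real.log N + 1 / cW (Wp w) := by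
  have h1 : 0 ≤ Real.log N := Real.log_nonneg (by exact_mod_cast hN)
  have h2 : 0 ≤ 1 / cW (Wp w) := div_nonneg zero_le_one (cW_nonneg _)
  unfold fp
  refine (abs_sub _ _).trans (add_le_add ?_ ?_)
  · split_ifs
    · rw [abs_of_nonneg h1]
    · simpa using h1
  · split_ifs
    · rw [abs_of_nonneg h2]
    · simpa using h2

/-- translation of the window -/
lemma shift_window (N c : ℕ) (g : ℕ → ℝ) (G : ℝ) (hg0 : ∀ n, 0 ≤ g n) (hg : ∀ n, g n ≤ G) :
    ∑ n ∈ Finset.Ioc N (2 * N), g (n + c) ≤ ∑ n ∈ Finset.Ioc N (2 * N), g n + c * G := by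
  have h1 : ∑ n ∈ Finset.Ioc N (2 * N), g (n + c) = ∑ n ∈ Finset.Ioc (N + c) (2 * N + c), g n := by
    rw [← Finset.map_add_right_Ioc, Finset.sum_map]
    rfl
  have h2 : Finset.Ioc (N + c) (2 * N + c) ⊆ Finset.Ioc N (2 * N) ∪ Finset.Ioc (2 * N) (2 * N + c) := by
    intro n hn
    rw [Finset.mem_Ioc] at hn
    rw [Finset.mem_union, Finset.mem_Ioc, Finset.mem_Ioc]
    omega
  rw [h1]
  calc ∑ n ∈ Finset.Ioc (N + c) (2 * N + c), g n
      ≤ ∑ n ∈ Finset.Ioc N (2 * N) ∪ Finset.Ioc (2 * N) (2 * N + c), g n :=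
        Finset.sum_le_sum_of_subset_of_nonneg h2 (fun n _ _ => hg0 n)
    _ ≤ ∑ n ∈ Finset.Ioc N (2 * N), g n + ∑ n ∈ Finset.Ioc (2 * N) (2 * N + c), g n := by
        have h3 := Finset.sum_union_inter (s₁ := Finset.Ioc N (2 * N))
          (s₂ := Finset.Ioc (2 * N) (2 * N + c)) (f := g)
        have h4 : 0 ≤ ∑ n ∈ Finset.Ioc N (2 * N) ∩ Finset.Ioc (2 * N) (2 * N + c), g n :=
          Finset.sum_nonneg fun n _ => hg0 n
        linarith
    _ ≤ ∑ n ∈ Finset.Ioc N (2 * N), g n + c * G := by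
        have h3 : ∑ n ∈ Finset.Ioc (2 * N) (2 * N + c), g n ≤
            ∑ _n ∈ Finset.Ioc (2 * N) (2 * N + c), G := Finset.sum_le_sum fun n _ => hg n
        rw [Finset.sum_const, Nat.card_Ioc, nsmul_eq_mul] at h3
        have h5 : 2 * N + c - 2 * N = c := by omega
        rw [h5] at h3
        linarith

end StScaleAux

open StScaleAux

/-- U2b: smallness in the cut norm passes from a scale `H1` to all larger scales `H2`. -/
theorem cut_scale (w : ℕ) (κ : ℝ) (hκ : 0 < κ) (A : ℕ) : ∀ᶠ N : ℕ in atTop, ∀ (δ : ℝ) (H1 H2 : ℕ),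
    0 ≤ δ → H1 ≤ H2 → (H2:ℝ) ≤ (Real.log N) ^ A →
    (∀ v : ℕ → ℝ, (∀ s, |v s| ≤ 1) →
      (∑ n ∈ Finset.Ioc N (2 * N), (∑ s ∈ Finset.range (H1 + 1), v s * fp N w (n + s)) ^ 2) / N ≤
        δ * ((H1:ℝ) + 1) ^ 2) →
    ∀ v : ℕ → ℝ, (∀ s, |v s| ≤ 1) →
      (∑ n ∈ Finset.Ioc N (2 * N), (∑ s ∈ Finset.range (H2 + 1), v s * fp N w (n + s)) ^ 2) / N ≤
        4 * (δ + κ) * ((H2:ℝ) + 1) ^ 2 := by
  set c0 : ℝ := 1 / cW (Wp w) with hc0
  have hc00 : 0 ≤ c0 := div_nonneg zero_le_one (cW_nonneg _)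
  -- the error term tends to zero
  have hsmall : ∀ᶠ N : ℕ in atTop, 4 * (Real.log N) ^ A * (Real.log N + c0) ^ 2 ≤ κ * N := by
    have h1 : ∀ᶠ y : ℝ in atTop, (Real.log y) ^ (A + 2) ≤ (κ / 16) * y := by
      have h := Real.isLittleO_pow_log_id_atTop (n := A + 2)
      have h2 := h.def (show (0:ℝ) < κ / 16 by positivity)
      filter_upwards [h2, eventually_ge_atTop (1:ℝ)] with x hx hx1
      simp only [id, Real.norm_eq_abs] at hx
      rw [abs_of_pos (show (0:ℝ) < x by linarith)] at hx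
      exact (le_abs_self _).trans hx
    have h2 := tendsto_natCast_atTop_atTop.eventually h1
    have h3 : ∀ᶠ N : ℕ in atTop, (c0 : ℝ) ≤ Real.log N :=
      (Real.tendsto_log_atTop.comp tendsto_natCast_atTop_atTop).eventually_ge_atTop _
    filter_upwards [h2, h3] with N h4 h5
    have h6 : 0 ≤ Real.log (N:ℝ) := hc00.trans h5
    calc 4 * (Real.log N) ^ A * (Real.log N + c0) ^ 2
        ≤ 4 * (Real.log N) ^ A * (Real.log N + Real.log N) ^ 2 := by gcongr
      _ = 16 * (Real.log N) ^ (A + 2) := by ring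
      _ ≤ 16 * (κ / 16 * N) := by
          refine mul_le_mul_of_nonneg_left ?_ (by norm_num)
          exact h4
      _ = κ * N := by ring
  have hlogev : ∀ᶠ N : ℕ in atTop, (1 : ℝ) ≤ Real.log N :=
    (Real.tendsto_log_atTop.comp tendsto_natCast_atTop_atTop).eventually_ge_atTop _
  filter_upwards [hsmall, hlogev, eventually_ge_atTop 1] with N hN hlog hN1
  intro δ H1 H2 hδ hH hHA hcut v hv
  have hN0 : (0:ℝ) < N := by exact_mod_cast hN1
  set L : ℕ := H1 + 1 with hL
  have hL0 : 0 < L := by omega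
  set B : ℕ := H2 / L + 1 with hB
  have hBL : H2 + 1 ≤ B * L := by
    have h1 := Nat.lt_div_mul_add hL0 (a := H2)
    rw [hB, Nat.add_mul, one_mul]
    omega
  have hBL2 : B * L ≤ 2 * (H2 + 1) := by
    have h1 := Nat.div_mul_le_self H2 L
    rw [hB, Nat.add_mul, one_mul]
    omega
  set M : ℝ := Real.log N + c0 with hM
  have hM0 : 0 ≤ M := by positivity
  have hfp : ∀ m, |fp N w m| ≤ M := fun m => abs_fp_le N w m hN1
  set v' : ℕ → ℝ := fun s => if s ≤ H2 then v s else 0 with hv'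
  have hv'1 : ∀ s, |v' s| ≤ 1 := by
    intro s
    simp only [hv']
    split_ifs
    · exact hv s
    · simp
  -- splitting
  have hsplit : ∀ n, ∑ s ∈ Finset.range (H2 + 1), v s * fp N w (n + s) =
      ∑ b ∈ Finset.range B, ∑ t ∈ Finset.range L, v' (b * L + t) * fp N w (n + b * L + t) := by
    intro n
    have h1 : ∑ s ∈ Finset.range (H2 + 1), v s * fp N w (n + s) =
        ∑ s ∈ Finset.range (B * L), v' s * fp N w (n + s) := by
      rw [← Finset.sum_subset (s₁ := Finset.range (H2 + 1)) (s₂ := Finset.range (B * L))]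
      · refine Finset.sum_congr rfl fun s hs => ?_
        rw [Finset.mem_range] at hs
        simp only [hv']
        rw [if_pos (by omega)]
      · intro s hs
        rw [Finset.mem_range] at hs ⊢
        omega
      · intro s _ hs
        rw [Finset.mem_range] at hs
        simp only [hv']
        rw [if_neg (by omega), zero_mul]
    rw [h1, sum_blocks]
    refine Finset.sum_congr rfl fun b _ => Finset.sum_congr rfl fun t _ => ?_
    rw [add_assoc]
  -- one block
  have hblock : ∀ b ∈ Finset.range B, ∑ n ∈ Finset.Ioc N (2 * N),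
      (∑ t ∈ Finset.range L, v' (b * L + t) * fp N w (n + b * L + t)) ^ 2 ≤
        (δ + κ) * (L:ℝ) ^ 2 * N := by
    intro b hb
    rw [Finset.mem_range] at hb
    set g : ℕ → ℝ := fun n => (∑ t ∈ Finset.range L, v' (b * L + t) * fp N w (n + t)) ^ 2 with hg
    have h1 := hcut (fun t => v' (b * L + t)) (fun t => hv'1 _)
    rw [div_le_iff₀ hN0] at h1
    have h2 : ∀ n, g n ≤ ((L:ℝ) * M) ^ 2 := by
      intro n
      simp only [hg]
      apply sq_le_sq'
      · have h3 : |∑ t ∈ Finset.range L, v' (b * L + t) * fp N w (n + t)| ≤ L * M := by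
          refine (Finset.abs_sum_le_sum_abs _ _).trans ?_
          calc ∑ t ∈ Finset.range L, |v' (b * L + t) * fp N w (n + t)|
              ≤ ∑ _t ∈ Finset.range L, M := by
                refine Finset.sum_le_sum fun t _ => ?_
                rw [abs_mul]
                calc |v' (b * L + t)| * |fp N w (n + t)| ≤ 1 * M :=
                      mul_le_mul (hv'1 _) (hfp _) (abs_nonneg _) zero_le_one
                  _ = M := one_mul _
            _ = L * M := by rw [Finset.sum_const, Finset.card_range, nsmul_eq_mul]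
        linarith [(abs_le.1 h3).1]
      · have h3 : |∑ t ∈ Finset.range L, v' (b * L + t) * fp N w (n + t)| ≤ L * M := by
          refine (Finset.abs_sum_le_sum_abs _ _).trans ?_
          calc ∑ t ∈ Finset.range L, |v' (b * L + t) * fp N w (n + t)|
              ≤ ∑ _t ∈ Finset.range L, M := by
                refine Finset.sum_le_sum fun t _ => ?_
                rw [abs_mul]
                calc |v' (b * L + t)| * |fp N w (n + t)| ≤ 1 * M :=
                      mul_le_mul (hv'1 _) (hfp _) (abs_nonneg _) zero_le_one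
                  _ = M := one_mul _
            _ = L * M := by rw [Finset.sum_const, Finset.card_range, nsmul_eq_mul]
        exact (abs_le.1 h3).2
    have h3 := shift_window N (b * L) g (((L:ℝ) * M) ^ 2) (fun n => sq_nonneg _) h2
    have h4 : ((b * L : ℕ) : ℝ) * ((L:ℝ) * M) ^ 2 ≤ κ * (L:ℝ) ^ 2 * N := by
      have h5 : b * L ≤ 2 * (H2 + 1) := by
        have h6 : b * L ≤ B * L := Nat.mul_le_mul_right _ hb.le
        omega
      have h6 : ((b * L : ℕ) : ℝ) ≤ 4 * (Real.log N) ^ A := by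
        have h7 : ((b * L : ℕ) : ℝ) ≤ 2 * ((H2:ℝ) + 1) := by exact_mod_cast h5
        have h8 : (1:ℝ) ≤ (Real.log N) ^ A := one_le_pow₀ hlog
        linarith
      calc ((b * L : ℕ) : ℝ) * ((L:ℝ) * M) ^ 2 ≤ 4 * (Real.log N) ^ A * ((L:ℝ) * M) ^ 2 :=
            mul_le_mul_of_nonneg_right h6 (sq_nonneg _)
        _ = (4 * (Real.log N) ^ A * M ^ 2) * (L:ℝ) ^ 2 := by ring
        _ ≤ (κ * N) * (L:ℝ) ^ 2 := mul_le_mul_of_nonneg_right hN (sq_nonneg _)
        _ = κ * (L:ℝ) ^ 2 * N := by ring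
    have h5 : ∑ n ∈ Finset.Ioc N (2 * N),
        (∑ t ∈ Finset.range L, v' (b * L + t) * fp N w (n + b * L + t)) ^ 2 =
        ∑ n ∈ Finset.Ioc N (2 * N), g (n + b * L) := rfl
    have h6 : ∑ n ∈ Finset.Ioc N (2 * N), g n ≤ δ * (L:ℝ) ^ 2 * N := by
      refine h1.trans (le_of_eq ?_)
      rw [hL]
      push_cast
      ring
    rw [h5]
    calc ∑ n ∈ Finset.Ioc N (2 * N), g (n + b * L) ≤ δ * (L:ℝ) ^ 2 * N + κ * (L:ℝ) ^ 2 * N := by
          linarith
      _ = (δ + κ) * (L:ℝ) ^ 2 * N := by ring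
  rw [div_le_iff₀ hN0]
  calc ∑ n ∈ Finset.Ioc N (2 * N), (∑ s ∈ Finset.range (H2 + 1), v s * fp N w (n + s)) ^ 2
      ≤ ∑ n ∈ Finset.Ioc N (2 * N), (B:ℝ) * ∑ b ∈ Finset.range B,
          (∑ t ∈ Finset.range L, v' (b * L + t) * fp N w (n + b * L + t)) ^ 2 := by
        refine Finset.sum_le_sum fun n _ => ?_
        rw [hsplit]
        have h1 := sq_sum_le_card_mul_sum_sq (s := Finset.range B)
          (f := fun b => ∑ t ∈ Finset.range L, v' (b * L + t) * fp N w (n + b * L + t))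
        rwa [Finset.card_range] at h1
    _ = (B:ℝ) * ∑ b ∈ Finset.range B, ∑ n ∈ Finset.Ioc N (2 * N),
          (∑ t ∈ Finset.range L, v' (b * L + t) * fp N w (n + b * L + t)) ^ 2 := by
        rw [← Finset.mul_sum, Finset.sum_comm]
    _ ≤ (B:ℝ) * ∑ _b ∈ Finset.range B, (δ + κ) * (L:ℝ) ^ 2 * N :=
        mul_le_mul_of_nonneg_left (Finset.sum_le_sum hblock) (Nat.cast_nonneg _)
    _ = (δ + κ) * ((B * L : ℕ) : ℝ) ^ 2 * N := by
        rw [Finset.sum_const, Finset.card_range, nsmul_eq_mul]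
        push_cast
        ring
    _ ≤ (δ + κ) * (2 * ((H2:ℝ) + 1)) ^ 2 * N := by
        have h1 : ((B * L : ℕ) : ℝ) ≤ 2 * ((H2:ℝ) + 1) := by exact_mod_cast hBL2
        gcongr
    _ = 4 * (δ + κ) * ((H2:ℝ) + 1) ^ 2 * N := by ring

end Pool.Agent.HLT
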