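import Mathlib
import Pool.Agent.HLT.ApFinal2
import Pool.Agent.HLT.APMoment

set_option autoImplicit false

open Finset Filter

namespace Pool.Agent.HLT

open Pool.Agent.HL26 Pool.Agent.Maynard

namespace StTransferAux

/-- splitting a double sum into diagonal and off-diagonal part -/
lemma sum_split (Q : ℕ) (F : ℕ → ℕ → ℝ) :
    ∑ s ∈ Finset.range Q, ∑ s' ∈ Finset.range Q, F s s' =
      ∑ s ∈ Finset.range Q, F s s + ∑ p ∈ (Finset.range Q).offDiag, F p.1 p.2 := by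
  rw [← Finset.sum_product' (Finset.range Q) (Finset.range Q) F,
    ← Finset.diag_union_offDiag, Finset.sum_union (Finset.disjoint_diag_offDiag _)]
  congr 1
  rw [Finset.sum_diag]

/-- summing over pairs by distance, with the distance at most `H` -/
lemma sum_dist' (H : ℕ) (k : ℕ → ℝ) (hk : ∀ h, 0 ≤ k h) (T : ℝ)
    (hT : ∑ h ∈ Finset.Icc 1 H, k h ≤ T) :
    ∑ p ∈ (Finset.range (H + 1)).offDiag, k (Nat.dist p.1 p.2) ≤ 2 * ((H:ℝ) + 1) * T := by
  have h1 := F5dH16.sum_dist (H + 1) (fun h => if h ≤ H then k h else 0) (by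
    intro h
    split_ifs
    · exact hk h
    · exact le_rfl)
  have h2 : ∑ h ∈ Finset.Icc 1 (H + 1), (if h ≤ H then k h else 0) = ∑ h ∈ Finset.Icc 1 H, k h := by
    rw [Finset.sum_Icc_succ_top (by omega)]
    rw [if_neg (by omega), add_zero]
    refine Finset.sum_congr rfl fun h hh => ?_
    rw [if_pos (Finset.mem_Icc.mp hh).2]
  have h3 : ∑ p ∈ (Finset.range (H + 1)).offDiag, k (Nat.dist p.1 p.2) =
      ∑ p ∈ (Finset.range (H + 1)).offDiag,
        (fun h => if h ≤ H then k h else 0) (Nat.dist p.1 p.2) := by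
    refine Finset.sum_congr rfl fun p hp => ?_
    rw [Finset.mem_offDiag, Finset.mem_range, Finset.mem_range] at hp
    have : Nat.dist p.1 p.2 ≤ H := by
      unfold Nat.dist
      omega
    simp only
    rw [if_pos this]
  rw [h3]
  refine h1.trans ?_
  rw [h2]
  push_cast
  exact mul_le_mul_of_nonneg_left hT (by positivity)

/-- the quadratic form of the kernel -/
lemma quad_eq (N w Q : ℕ) (v : ℕ → ℝ) :
    (∑ n ∈ Finset.Ioc N (2 * N), (∑ s ∈ Finset.range Q, v s * fp N w (n + s)) ^ 2) / (N:ℝ) =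
      ∑ s ∈ Finset.range Q, ∑ s' ∈ Finset.range Q, v s * v s' * KK N w s s' := by
  have h1 : ∀ n, (∑ s ∈ Finset.range Q, v s * fp N w (n + s)) ^ 2 =
      ∑ s ∈ Finset.range Q, ∑ s' ∈ Finset.range Q,
        v s * v s' * (fp N w (n + s) * fp N w (n + s')) := by
    intro n
    rw [sq, Finset.sum_mul_sum]
    refine Finset.sum_congr rfl fun s _ => Finset.sum_congr rfl fun s' _ => ?_
    ring
  simp_rw [h1]
  rw [Finset.sum_comm, Finset.sum_div]
  refine Finset.sum_congr rfl fun s _ => ?_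
  rw [Finset.sum_comm, Finset.sum_div]
  refine Finset.sum_congr rfl fun s' _ => ?_
  unfold KK
  rw [← Finset.mul_sum]
  ring

/-- the deterministic core -/
lemma core (H J w : ℕ) (W : ℕ → ℝ) (N : ℕ → ℕ) (g err : ℕ → ℝ) (D P B : ℝ)
    (hW : ∀ j ∈ Finset.range J, 0 ≤ W j)
    (hoff : ∀ s s' : ℕ, s ≤ H → s' ≤ H → s ≠ s' →
      |∑ j ∈ Finset.range J, W j * KK (N j) w s s' - g (Nat.dist s s')| ≤ err (Nat.dist s s'))
    (hdiag : ∀ s : ℕ, s ≤ H → |∑ j ∈ Finset.range J, W j * KK (N j) w s s| ≤ D)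
    (herr : ∀ d, 0 ≤ err d)
    (hP : ∑ d ∈ Finset.Icc 1 H, max (g d) 0 ≤ P)
    (hB : ∑ d ∈ Finset.Icc 1 H, err d ≤ B) :
    ∀ i ∈ Finset.range J, ∀ v : ℕ → ℝ, (∀ s, |v s| ≤ 1) →
      W i * ((∑ n ∈ Finset.Ioc (N i) (2 * N i),
        (∑ s ∈ Finset.range (H + 1), v s * fp (N i) w (n + s)) ^ 2) / (N i : ℝ)) ≤
        ((H:ℝ) + 1) * (2 * D + 4 * P + 4 * B) := by
  intro i hi v hv
  set E : ℕ → ℕ → ℝ := fun s s' => ∑ j ∈ Finset.range J, W j * KK (N j) w s s' with hE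
  set Qf : ℕ → (ℕ → ℝ) → ℝ := fun j u => (∑ n ∈ Finset.Ioc (N j) (2 * N j),
        (∑ s ∈ Finset.range (H + 1), u s * fp (N j) w (n + s)) ^ 2) / (N j : ℝ) with hQf
  have hQ0 : ∀ j u, 0 ≤ Qf j u := by
    intro j u
    rw [hQf]
    positivity
  have hQE : ∀ u : ℕ → ℝ, ∑ j ∈ Finset.range J, W j * Qf j u =
      ∑ s ∈ Finset.range (H + 1), ∑ s' ∈ Finset.range (H + 1), u s * u s' * E s s' := by
    intro u
    have h1 : ∀ j, W j * Qf j u = ∑ s ∈ Finset.range (H + 1), ∑ s' ∈ Finset.range (H + 1),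
        u s * u s' * (W j * KK (N j) w s s') := by
      intro j
      rw [hQf]
      simp only
      rw [quad_eq, Finset.mul_sum]
      refine Finset.sum_congr rfl fun s _ => ?_
      rw [Finset.mul_sum]
      refine Finset.sum_congr rfl fun s' _ => ?_
      ring
    simp_rw [h1]
    rw [Finset.sum_comm]
    refine Finset.sum_congr rfl fun s _ => ?_
    rw [Finset.sum_comm]
    refine Finset.sum_congr rfl fun s' _ => ?_
    rw [hE]
    simp only
    rw [Finset.mul_sum]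
  have hdsum : ∑ s ∈ Finset.range (H + 1), |E s s| ≤ ((H:ℝ) + 1) * D := by
    calc ∑ s ∈ Finset.range (H + 1), |E s s| ≤ ∑ _s ∈ Finset.range (H + 1), D := by
          refine Finset.sum_le_sum fun s hs => hdiag s ?_
          have := Finset.mem_range.mp hs
          omega
      _ = ((H:ℝ) + 1) * D := by
          rw [Finset.sum_const, Finset.card_range, nsmul_eq_mul]
          push_cast
          ring
  have hesum : ∑ p ∈ (Finset.range (H + 1)).offDiag, err (Nat.dist p.1 p.2) ≤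
      2 * ((H:ℝ) + 1) * B := sum_dist' H err herr B hB
  have hgsum : ∑ p ∈ (Finset.range (H + 1)).offDiag, max (g (Nat.dist p.1 p.2)) 0 ≤
      2 * ((H:ℝ) + 1) * P :=
    sum_dist' H (fun d => max (g d) 0) (fun d => le_max_right _ _) P hP
  have hoff' : ∀ p ∈ (Finset.range (H + 1)).offDiag,
      |E p.1 p.2 - g (Nat.dist p.1 p.2)| ≤ err (Nat.dist p.1 p.2) := by
    intro p hp
    rw [Finset.mem_offDiag, Finset.mem_range, Finset.mem_range] at hp
    exact hoff _ _ (by omega) (by omega) hp.2.2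
  -- positivity with u = 1
  have hpos : 0 ≤ ∑ s ∈ Finset.range (H + 1), ∑ s' ∈ Finset.range (H + 1), E s s' := by
    have h1 := hQE (fun _ => 1)
    simp only [one_mul] at h1
    rw [← h1]
    exact Finset.sum_nonneg fun j hj => mul_nonneg (hW j hj) (hQ0 _ _)
  rw [sum_split] at hpos
  have hd1 : ∑ s ∈ Finset.range (H + 1), E s s ≤ ((H:ℝ) + 1) * D :=
    (Finset.sum_le_sum fun s _ => le_abs_self _).trans hdsum
  have hE1 : ∑ p ∈ (Finset.range (H + 1)).offDiag, E p.1 p.2 ≤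
      ∑ p ∈ (Finset.range (H + 1)).offDiag, g (Nat.dist p.1 p.2) +
        ∑ p ∈ (Finset.range (H + 1)).offDiag, err (Nat.dist p.1 p.2) := by
    rw [← Finset.sum_add_distrib]
    refine Finset.sum_le_sum fun p hp => ?_
    have := (abs_le.mp (hoff' p hp)).2
    linarith
  have habs : ∑ p ∈ (Finset.range (H + 1)).offDiag, |g (Nat.dist p.1 p.2)| =
      2 * ∑ p ∈ (Finset.range (H + 1)).offDiag, max (g (Nat.dist p.1 p.2)) 0 -
        ∑ p ∈ (Finset.range (H + 1)).offDiag, g (Nat.dist p.1 p.2) := by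
    rw [Finset.mul_sum, ← Finset.sum_sub_distrib]
    refine Finset.sum_congr rfl fun p _ => ?_
    rcases le_total (g (Nat.dist p.1 p.2)) 0 with h | h
    · rw [abs_of_nonpos h, max_eq_right h]
      ring
    · rw [abs_of_nonneg h, max_eq_left h]
      ring
  -- the form at v
  have hone : W i * Qf i v ≤ ∑ j ∈ Finset.range J, W j * Qf j v :=
    Finset.single_le_sum (f := fun j => W j * Qf j v)
      (fun j hj => mul_nonneg (hW j hj) (hQ0 _ _)) hi
  have hvv : ∀ s s', |v s * v s'| ≤ 1 := by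
    intro s s'
    rw [abs_mul]
    calc |v s| * |v s'| ≤ 1 * 1 := mul_le_mul (hv s) (hv s') (abs_nonneg _) zero_le_one
      _ = 1 := one_mul 1
  have hvd : ∑ s ∈ Finset.range (H + 1), v s * v s * E s s ≤ ((H:ℝ) + 1) * D := by
    refine le_trans (Finset.sum_le_sum fun s _ => ?_) hdsum
    refine (le_abs_self _).trans ?_
    rw [abs_mul]
    calc |v s * v s| * |E s s| ≤ 1 * |E s s| :=
          mul_le_mul_of_nonneg_right (hvv s s) (abs_nonneg _)
      _ = |E s s| := one_mul _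
  have hvo : ∑ p ∈ (Finset.range (H + 1)).offDiag, v p.1 * v p.2 * E p.1 p.2 ≤
      ∑ p ∈ (Finset.range (H + 1)).offDiag, |g (Nat.dist p.1 p.2)| +
        ∑ p ∈ (Finset.range (H + 1)).offDiag, err (Nat.dist p.1 p.2) := by
    rw [← Finset.sum_add_distrib]
    refine Finset.sum_le_sum fun p hp => ?_
    have h1 : |E p.1 p.2| ≤ |g (Nat.dist p.1 p.2)| + err (Nat.dist p.1 p.2) := by
      have h2 := hoff' p hp
      have h3 : E p.1 p.2 = g (Nat.dist p.1 p.2) + (E p.1 p.2 - g (Nat.dist p.1 p.2)) := by ring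
      rw [h3]
      refine (abs_add_le _ _).trans ?_
      linarith
    refine (le_abs_self _).trans ?_
    rw [abs_mul]
    calc |v p.1 * v p.2| * |E p.1 p.2| ≤ 1 * |E p.1 p.2| :=
          mul_le_mul_of_nonneg_right (hvv _ _) (abs_nonneg _)
      _ = |E p.1 p.2| := one_mul _
      _ ≤ _ := h1
  have hfin := hQE v
  rw [sum_split (H + 1) (fun s s' => v s * v s' * E s s')] at hfin
  have hgoal : W i * ((∑ n ∈ Finset.Ioc (N i) (2 * N i),
        (∑ s ∈ Finset.range (H + 1), v s * fp (N i) w (n + s)) ^ 2) / (N i : ℝ)) = W i * Qf i v := rfl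
  rw [hgoal]
  have h9 : ((H:ℝ) + 1) * (2 * D + 4 * P + 4 * B) = ((H:ℝ) + 1) * D + ((H:ℝ) + 1) * D +
    2 * (2 * ((H:ℝ) + 1) * P) + 2 * ((H:ℝ) + 1) * B + 2 * ((H:ℝ) + 1) * B := by ring
  rw [h9]
  linarith

lemma inj_pair (d : ℕ) (hd : 1 ≤ d) : Function.Injective (![0, d] : Fin 2 → ℕ) := by
  intro a b hab
  fin_cases a <;> fin_cases b <;> simp at hab ⊢ <;> omega

/-- the positive part of `c - S` from a bound for the exceptional set and the second moment -/
lemma gplus (H : ℕ) (c S : ℕ → ℝ) (η C : ℝ) (hη : 0 < η) (hS : ∀ d, 0 ≤ S d)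
    [DecidablePred (fun d => η ^ 2 < c d - S d)]
    (hc2 : ∑ d ∈ Finset.Icc 1 H, c d ^ 2 ≤ C * H)
    (hbad : (((Finset.Icc 1 H).filter (fun d => η ^ 2 < c d - S d)).card : ℝ) ≤ η ^ 2 * H) :
    ∑ d ∈ Finset.Icc 1 H, max (c d - S d) 0 ≤ (η ^ 2 + η * (C + 1) / 2) * H := by
  have h1 : ∀ d ∈ Finset.Icc 1 H, max (c d - S d) 0 ≤
      η ^ 2 + η / 2 * c d ^ 2 + (if η ^ 2 < c d - S d then 1 / (2 * η) else 0) := by
    intro d _
    have hη2 : 0 < η ^ 2 := by positivity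
    have hcd : 0 ≤ η / 2 * c d ^ 2 := by positivity
    split_ifs with hb
    · rw [max_eq_left (by linarith)]
      have h2 : c d ≤ η / 2 * c d ^ 2 + 1 / (2 * η) := by
        have h3 : 0 ≤ (η * c d - 1) ^ 2 / (2 * η) := by positivity
        have h4 : (η * c d - 1) ^ 2 / (2 * η) = η / 2 * c d ^ 2 - c d + 1 / (2 * η) := by
          field_simp
          ring
        linarith
      have := hS d
      linarith
    · refine max_le ?_ ?_
      · push Not at hb
        linarith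
      · linarith
  refine (Finset.sum_le_sum h1).trans ?_
  rw [Finset.sum_add_distrib, Finset.sum_add_distrib, ← Finset.mul_sum, ← Finset.sum_filter]
  simp only [Finset.sum_const, nsmul_eq_mul, Nat.card_Icc, Nat.add_sub_cancel]
  have h5 : (((Finset.Icc 1 H).filter (fun d => η ^ 2 < c d - S d)).card : ℝ) * (1 / (2 * η)) ≤
      η ^ 2 * H * (1 / (2 * η)) := mul_le_mul_of_nonneg_right hbad (by positivity)
  have h6 : η ^ 2 * (H:ℝ) * (1 / (2 * η)) = η / 2 * H := by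
    field_simp
  have h7 : η / 2 * ∑ d ∈ Finset.Icc 1 H, c d ^ 2 ≤ η / 2 * (C * H) :=
    mul_le_mul_of_nonneg_left hc2 (by positivity)
  rw [h6] at h5
  have h8 : (η ^ 2 + η * (C + 1) / 2) * (H:ℝ) = H * η ^ 2 + η / 2 * (C * H) + η / 2 * H := by ring
  rw [h8]
  linarith

end StTransferAux

open StTransferAux F7aux

open Classical in
/-- U2: the Hardy-Littlewood UPPER bound for almost all pairs at `x` makes primes minus rough numbers
small in the cut norm in every dyadic block. -/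
theorem pair_transfer (δ : ℝ) (hδ : 0 < δ) (I0 : ℕ) : ∃ w0 : ℕ, ∀ w : ℕ, w0 ≤ w →
    ∃ δ0 : ℝ, 0 < δ0 ∧ ∃ K0 : ℝ, ∀ A : ℕ, ∃ X : ℝ, ∀ x : ℝ, X ≤ x → ∀ H : ℕ,
    K0 * Real.log x ≤ H → (H:ℝ) ≤ (Real.log x) ^ A →
    (((Finset.Icc 1 H).filter (fun d : ℕ =>
      δ0 < (tupleCount x {0, d} : ℝ) * (Real.log x) ^ 2 / x - singularSeries {0, d})).card : ℝ) ≤
        δ0 * H →
    ∀ i : ℕ, i < I0 → ∀ v : ℕ → ℝ, (∀ s, |v s| ≤ 1) →
      (∑ n ∈ Finset.Ioc (⌊x⌋₊ / 2 ^ (i + 1)) (2 * (⌊x⌋₊ / 2 ^ (i + 1))),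
        (∑ s ∈ Finset.range (H + 1), v s * fp (⌊x⌋₊ / 2 ^ (i + 1)) w (n + s)) ^ 2) /
          ((⌊x⌋₊ / 2 ^ (i + 1) : ℕ) : ℝ) ≤ δ * ((H:ℝ) + 1) ^ 2 := by
  obtain ⟨C1, hC1, hblocks⟩ := tupleCount_blocks 2 le_rfl
  obtain ⟨C2, hC2, hsing⟩ := sum_sing_pair
  obtain ⟨C3, hC3, hpt⟩ := APMomentAux.exists_pointwise 1
  set C : ℝ := 2 * C3 ^ 2 * C2 + 2 with hCdef
  have hC0 : 0 < C := by positivity
  set δ' : ℝ := δ / 2 ^ (I0 + 1) with hδ'def
  have hδ' : 0 < δ' := by positivity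
  -- the number of blocks
  obtain ⟨J0, hJI, hJ0⟩ : ∃ J0 : ℕ, I0 ≤ J0 ∧ (C1 + 2) * C2 / 2 ^ J0 ≤ δ' / 48 := by
    have h1 : Tendsto (fun n : ℕ => ((C1 + 2) * C2) * (1 / 2 : ℝ) ^ n) atTop
        (nhds (((C1 + 2) * C2) * 0)) :=
      (tendsto_pow_atTop_nhds_zero_of_lt_one (by norm_num) (by norm_num)).const_mul _
    rw [mul_zero] at h1
    have h2 : (0:ℝ) < δ' / 48 := by positivity
    obtain ⟨n, hn, hn2⟩ := ((h1.eventually_le_const h2).and (eventually_ge_atTop I0)).exists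
    refine ⟨n, hn2, le_trans (le_of_eq ?_) hn⟩
    rw [one_div, inv_pow, div_eq_mul_inv]
  obtain ⟨w0, hw0⟩ := ApNear_sing (δ' / 144) (by positivity)
  refine ⟨max w0 2, fun w hw => ?_⟩
  have hw2 : 2 ≤ w := (le_max_right _ _).trans hw
  obtain ⟨M0, hM0⟩ := hw0 w ((le_max_left _ _).trans hw)
  set η : ℝ := min 1 (δ' / (8 * (C + 3))) with hηdef
  have hη : 0 < η := lt_min one_pos (by positivity)
  have hη1 : η ≤ 1 := min_le_left _ _
  have hη2 : η * (8 * (C + 3)) ≤ δ' := by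
    have h1 : η ≤ δ' / (8 * (C + 3)) := min_le_right _ _
    rwa [le_div_iff₀ (by positivity)] at h1
  refine ⟨η ^ 2, by positivity, 48 / δ' + 1, fun A => ?_⟩
  have hev : ∀ᶠ x : ℝ in atTop,
      (∀ e : Fin 2 → ℕ, Function.Injective e →
        |(tupleCount x (Finset.image e Finset.univ) : ℝ) * (Real.log x) ^ 2 / x -
          ∑ i ∈ Finset.range J0, wt x i * rr (⌊x⌋₊ / 2 ^ (i + 1)) e| ≤
          C1 * singularSeries (Finset.image e Finset.univ) / 2 ^ J0 + δ' / 144) ∧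
      (∀ e : Fin (1 + 1) → ℕ, Function.Injective e →
        cx 1 x e ≤ C3 * singularSeries (Finset.univ.image e) + 1) ∧
      (∀ i ∈ Finset.range J0, ∀ s s' : ℕ, s ≠ s' →
        (s:ℝ) ≤ (Real.log ((⌊x⌋₊ / 2 ^ (i + 1) : ℕ) : ℝ)) ^ (A + 1) →
        (s':ℝ) ≤ (Real.log ((⌊x⌋₊ / 2 ^ (i + 1) : ℕ) : ℝ)) ^ (A + 1) →
        |KK (⌊x⌋₊ / 2 ^ (i + 1)) w s s' - (rr (⌊x⌋₊ / 2 ^ (i + 1)) ![0, Nat.dist s s'] -
          SP (PPy w) {0, Nat.dist s s'})| ≤ δ' / 144) ∧
      (∀ i ∈ Finset.range J0, ∀ s : ℕ,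
        (s:ℝ) ≤ (Real.log ((⌊x⌋₊ / 2 ^ (i + 1) : ℕ) : ℝ)) ^ (A + 1) →
        |KK (⌊x⌋₊ / 2 ^ (i + 1)) w s s| ≤ 3 * Real.log ((⌊x⌋₊ / 2 ^ (i + 1) : ℕ) : ℝ)) ∧
      ((∀ i ∈ Finset.range J0, 0 ≤ wt x i ∧ wt x i ≤ 1) ∧
        |∑ i ∈ Finset.range J0, wt x i - 1| ≤ 2 / 2 ^ J0 ∧ ∑ i ∈ Finset.range J0, wt x i ≤ 2) ∧
      (∀ i ∈ Finset.range J0, 2 ≤ ⌊x⌋₊ / 2 ^ (i + 1) ∧
        Real.log x / Real.log ((⌊x⌋₊ / 2 ^ (i + 1) : ℕ) : ℝ) ≤ 2) ∧
      (∀ i ∈ Finset.range J0, 1 / 2 ^ (i + 2) ≤ wt x i) ∧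
      3 ≤ x ∧ 1 ≤ Real.log x ∧ (2:ℝ) ^ (A + 1) ≤ Real.log x ∧ (M0:ℝ) ≤ Real.log x := by
    refine (hblocks J0 (δ' / 144) (by positivity)).and (hpt.and (Eventually.and ?_
      (Eventually.and ?_ ((ev_wt J0).and (Eventually.and ?_ (Eventually.and ?_
        ((eventually_ge_atTop 3).and ((Real.tendsto_log_atTop.eventually_ge_atTop _).and
          ((Real.tendsto_log_atTop.eventually_ge_atTop _).and
            (Real.tendsto_log_atTop.eventually_ge_atTop _))))))))))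
    · rw [Filter.eventually_all_finset]
      intro i _
      exact (tendsto_nat i).eventually (KK_approx w hw2 (δ' / 144) (by positivity) (A + 1))
    · rw [Filter.eventually_all_finset]
      intro i _
      exact (tendsto_nat i).eventually (KK_diag w hw2 (A + 1))
    · rw [Filter.eventually_all_finset]
      intro i _
      exact ((tendsto_nat i).eventually_ge_atTop 2).and
        ((tendsto_logratio i).eventually_le_const (by norm_num))
    · rw [Filter.eventually_all_finset]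
      intro i _
      refine (tendsto_wt i).eventually_const_le ?_
      refine one_div_lt_one_div_of_lt (by positivity) ?_
      exact pow_lt_pow_right₀ (by norm_num) (by omega)
  obtain ⟨X, hX⟩ := eventually_atTop.mp hev
  refine ⟨X, fun x hx H hH1 hH2 hbad i hi v hv => ?_⟩
  obtain ⟨e1, e2, e3, e4, ⟨e5, e6, e6'⟩, e7, e8, e9, e10, e11, e12⟩ := hX x hx
  have hx0 : 0 < x := by linarith
  have hlog0 : 0 < Real.log x := by linarith
  have hK1 : Real.log x ≤ H := by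
    refine le_trans ?_ hH1
    have : 0 < 48 / δ' := by positivity
    nlinarith
  have hHr : (1:ℝ) ≤ H := e10.trans hK1
  have hHpos : 1 ≤ H := by exact_mod_cast hHr
  have hMH : M0 ≤ H := by exact_mod_cast e12.trans hK1
  have hKl : 48 * Real.log x ≤ δ' * H := by
    have h1 : 48 / δ' * Real.log x ≤ H := by
      refine le_trans ?_ hH1
      nlinarith
    have h2 : δ' * (48 / δ' * Real.log x) ≤ δ' * H := mul_le_mul_of_nonneg_left h1 hδ'.le
    have h3 : δ' * (48 / δ' * Real.log x) = 48 * Real.log x := by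
      field_simp
    linarith
  -- the block sizes
  have hlogN : ∀ j ∈ Finset.range J0, 0 < Real.log ((⌊x⌋₊ / 2 ^ (j + 1) : ℕ) : ℝ) ∧
      Real.log ((⌊x⌋₊ / 2 ^ (j + 1) : ℕ) : ℝ) ≤ Real.log x ∧
      (H:ℝ) ≤ (Real.log ((⌊x⌋₊ / 2 ^ (j + 1) : ℕ) : ℝ)) ^ (A + 1) := by
    intro j hj
    obtain ⟨hN2, hlr⟩ := e7 j hj
    have hNr : (2:ℝ) ≤ ((⌊x⌋₊ / 2 ^ (j + 1) : ℕ) : ℝ) := by exact_mod_cast hN2
    have hl : 0 < Real.log ((⌊x⌋₊ / 2 ^ (j + 1) : ℕ) : ℝ) := Real.log_pos (by linarith)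
    have hNx : ((⌊x⌋₊ / 2 ^ (j + 1) : ℕ) : ℝ) ≤ x := by
      have h1 : ⌊x⌋₊ / 2 ^ (j + 1) ≤ ⌊x⌋₊ := Nat.div_le_self _ _
      calc ((⌊x⌋₊ / 2 ^ (j + 1) : ℕ) : ℝ) ≤ (⌊x⌋₊ : ℝ) := by exact_mod_cast h1
        _ ≤ x := Nat.floor_le hx0.le
    have hlogxN : Real.log x ≤ 2 * Real.log ((⌊x⌋₊ / 2 ^ (j + 1) : ℕ) : ℝ) := by
      rw [div_le_iff₀ hl] at hlr
      exact hlr
    refine ⟨hl, Real.log_le_log (by linarith) hNx, ?_⟩
    calc (H:ℝ) ≤ (Real.log x) ^ A := hH2
      _ = 1 * (Real.log x) ^ A := (one_mul _).symm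
      _ ≤ (Real.log x / 2 ^ (A + 1)) * (Real.log x) ^ A := by
          refine mul_le_mul_of_nonneg_right ?_ (by positivity)
          rw [le_div_iff₀ (by positivity), one_mul]
          exact e11
      _ = (Real.log x / 2) ^ (A + 1) := by
          rw [div_pow, pow_succ (Real.log x)]
          ring
      _ ≤ (Real.log ((⌊x⌋₊ / 2 ^ (j + 1) : ℕ) : ℝ)) ^ (A + 1) := by
          refine pow_le_pow_left₀ (by positivity) ?_ _
          linarith
  have hS0 : ∀ d : ℕ, 0 ≤ singularSeries {0, d} := fun d => singularSeries_nonneg _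
  set c : ℕ → ℝ := fun d => (tupleCount x {0, d} : ℝ) * (Real.log x) ^ 2 / x with hc
  have hc0 : ∀ d, 0 ≤ c d := by
    intro d
    rw [hc]
    positivity
  -- second moment
  have hc2 : ∑ d ∈ Finset.Icc 1 H, c d ^ 2 ≤ C * H := by
    have h1 : ∀ d ∈ Finset.Icc 1 H, c d ^ 2 ≤ 2 * C3 ^ 2 * singularSeries {0, d} ^ 2 + 2 := by
      intro d hd
      have hd1 := (Finset.mem_Icc.mp hd).1
      have h2 := e2 ![0, d] (inj_pair d hd1)
      rw [image_pair] at h2
      have h3 : cx 1 x ![0, d] = c d := by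
        unfold cx
        rw [image_pair, hc]
        ring
      rw [h3] at h2
      have h4 : c d ^ 2 ≤ (C3 * singularSeries {0, d} + 1) ^ 2 :=
        pow_le_pow_left₀ (hc0 d) h2 2
      nlinarith [sq_nonneg (C3 * singularSeries {0, d} - 1)]
    refine (Finset.sum_le_sum h1).trans ?_
    rw [Finset.sum_add_distrib, ← Finset.mul_sum]
    simp only [Finset.sum_const, nsmul_eq_mul, Nat.card_Icc, Nat.add_sub_cancel]
    have h5 : 2 * C3 ^ 2 * ∑ d ∈ Finset.Icc 1 H, singularSeries {0, d} ^ 2 ≤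
        2 * C3 ^ 2 * (C2 * H) := mul_le_mul_of_nonneg_left (hsing H hHpos).2 (by positivity)
    rw [hCdef]
    linarith
  have hP := gplus H c (fun d => singularSeries {0, d}) η C hη hS0 hc2 hbad
  -- the error function
  set err : ℕ → ℝ := fun d => (C1 + 2) * singularSeries {0, d} / 2 ^ J0 + 3 * (δ' / 144) +
    3 * |SP (PPy w) {0, d} - singularSeries {0, d}| with herr
  have herr0 : ∀ d, 0 ≤ err d := by
    intro d
    rw [herr]
    have := hS0 d
    positivity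
  have hB : ∑ d ∈ Finset.Icc 1 H, err d ≤ δ' / 16 * H := by
    rw [herr]
    simp only
    rw [Finset.sum_add_distrib, Finset.sum_add_distrib, ← Finset.sum_div, ← Finset.mul_sum]
    simp only [Finset.sum_const, nsmul_eq_mul, Nat.card_Icc, Nat.add_sub_cancel]
    have h1 : (C1 + 2) * (∑ d ∈ Finset.Icc 1 H, singularSeries {0, d}) / 2 ^ J0 ≤
        (C1 + 2) * (C2 * H) / 2 ^ J0 := by
      have := (hsing H hHpos).1
      gcongr
    have h2 : (C1 + 2) * (C2 * H) / 2 ^ J0 = (C1 + 2) * C2 / 2 ^ J0 * H := by ring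
    have h3 : (C1 + 2) * C2 / 2 ^ J0 * H ≤ δ' / 48 * H :=
      mul_le_mul_of_nonneg_right hJ0 (Nat.cast_nonneg _)
    have h4 := hM0 H hMH
    have h5 : ∑ d ∈ Finset.Icc 1 H, 3 * |SP (PPy w) {0, d} - singularSeries {0, d}| =
        3 * ∑ d ∈ Finset.Icc 1 H, |SP (PPy w) {0, d} - singularSeries {0, d}| :=
      (Finset.mul_sum _ _ _).symm
    rw [h5]
    linarith
  have hoff : ∀ s s' : ℕ, s ≤ H → s' ≤ H → s ≠ s' →
      |∑ j ∈ Finset.range J0, wt x j * KK (⌊x⌋₊ / 2 ^ (j + 1)) w s s' -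
        (c (Nat.dist s s') - singularSeries {0, Nat.dist s s'})| ≤ err (Nat.dist s s') := by
    intro s s' hs hs' hne
    set d := Nat.dist s s' with hd
    have hd1 : 1 ≤ d := by
      rw [hd]
      unfold Nat.dist
      omega
    have hsr : (s:ℝ) ≤ H := by exact_mod_cast hs
    have hsr' : (s':ℝ) ≤ H := by exact_mod_cast hs'
    have a1 : |∑ j ∈ Finset.range J0, wt x j * (KK (⌊x⌋₊ / 2 ^ (j + 1)) w s s' -
        (rr (⌊x⌋₊ / 2 ^ (j + 1)) ![0, d] - SP (PPy w) {0, d}))| ≤ 2 * (δ' / 144) := by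
      refine (Finset.abs_sum_le_sum_abs _ _).trans ?_
      calc _ ≤ ∑ j ∈ Finset.range J0, wt x j * (δ' / 144) := by
            refine Finset.sum_le_sum fun j hj => ?_
            rw [abs_mul, abs_of_nonneg (e5 j hj).1]
            refine mul_le_mul_of_nonneg_left ?_ (e5 j hj).1
            exact e3 j hj s s' hne (hsr.trans (hlogN j hj).2.2) (hsr'.trans (hlogN j hj).2.2)
        _ = (∑ j ∈ Finset.range J0, wt x j) * (δ' / 144) := (Finset.sum_mul _ _ _).symm
        _ ≤ 2 * (δ' / 144) := mul_le_mul_of_nonneg_right e6' (by positivity)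
    have a2 : |c d - ∑ j ∈ Finset.range J0, wt x j * rr (⌊x⌋₊ / 2 ^ (j + 1)) ![0, d]| ≤
        C1 * singularSeries {0, d} / 2 ^ J0 + δ' / 144 := by
      have b0 := e1 ![0, d] (inj_pair d hd1)
      rw [image_pair] at b0
      exact b0
    have a3 : |(∑ j ∈ Finset.range J0, wt x j - 1) * SP (PPy w) {0, d}| ≤
        2 / 2 ^ J0 * (singularSeries {0, d}) + 2 * |SP (PPy w) {0, d} - singularSeries {0, d}| := by
      rw [abs_mul]
      have b1 : |SP (PPy w) {0, d}| ≤ singularSeries {0, d} +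
          |SP (PPy w) {0, d} - singularSeries {0, d}| := by
        have b2 : SP (PPy w) {0, d} = singularSeries {0, d} +
          (SP (PPy w) {0, d} - singularSeries {0, d}) := by ring
        calc |SP (PPy w) {0, d}| = |singularSeries {0, d} +
          (SP (PPy w) {0, d} - singularSeries {0, d})| := by rw [← b2]
          _ ≤ |singularSeries {0, d}| + |SP (PPy w) {0, d} - singularSeries {0, d}| :=
            abs_add_le _ _
          _ = _ := by rw [abs_of_nonneg (hS0 d)]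
      have b3 : (2:ℝ) / 2 ^ J0 ≤ 2 := by
        rw [div_le_iff₀ (by positivity)]
        have : (1:ℝ) ≤ 2 ^ J0 := one_le_pow₀ (by norm_num)
        linarith
      calc _ ≤ 2 / 2 ^ J0 * (singularSeries {0, d} +
          |SP (PPy w) {0, d} - singularSeries {0, d}|) :=
            mul_le_mul e6 b1 (abs_nonneg _) (by positivity)
        _ = 2 / 2 ^ J0 * singularSeries {0, d} +
            2 / 2 ^ J0 * |SP (PPy w) {0, d} - singularSeries {0, d}| := by ring
        _ ≤ _ := by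
            have := mul_le_mul_of_nonneg_right b3
              (abs_nonneg (SP (PPy w) {0, d} - singularSeries {0, d}))
            linarith
    have a4 : ∑ j ∈ Finset.range J0, wt x j * KK (⌊x⌋₊ / 2 ^ (j + 1)) w s s' -
        (c d - singularSeries {0, d}) =
        ∑ j ∈ Finset.range J0, wt x j * (KK (⌊x⌋₊ / 2 ^ (j + 1)) w s s' -
        (rr (⌊x⌋₊ / 2 ^ (j + 1)) ![0, d] - SP (PPy w) {0, d})) +
        -(c d - ∑ j ∈ Finset.range J0, wt x j * rr (⌊x⌋₊ / 2 ^ (j + 1)) ![0, d]) +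
        -((∑ j ∈ Finset.range J0, wt x j - 1) * SP (PPy w) {0, d}) +
        -(SP (PPy w) {0, d} - singularSeries {0, d}) := by
      have b1 : ∑ j ∈ Finset.range J0, wt x j * (KK (⌊x⌋₊ / 2 ^ (j + 1)) w s s' -
        (rr (⌊x⌋₊ / 2 ^ (j + 1)) ![0, d] - SP (PPy w) {0, d})) =
        ∑ j ∈ Finset.range J0, wt x j * KK (⌊x⌋₊ / 2 ^ (j + 1)) w s s' -
        ∑ j ∈ Finset.range J0, wt x j * rr (⌊x⌋₊ / 2 ^ (j + 1)) ![0, d] +
        (∑ j ∈ Finset.range J0, wt x j) * SP (PPy w) {0, d} := by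
        rw [Finset.sum_mul, ← Finset.sum_sub_distrib, ← Finset.sum_add_distrib]
        refine Finset.sum_congr rfl fun j _ => ?_
        ring
      rw [b1]
      ring
    rw [a4]
    refine (abs_add_le _ _).trans ?_
    refine (add_le_add_left (abs_add_le _ _) _).trans ?_
    refine (add_le_add_left (add_le_add_left (abs_add_le _ _) _) _).trans ?_
    rw [abs_neg, abs_neg, abs_neg, herr]
    simp only
    have a5 : (C1 + 2) * singularSeries {0, d} / 2 ^ J0 =
      C1 * singularSeries {0, d} / 2 ^ J0 + 2 / 2 ^ J0 * singularSeries {0, d} := by ring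
    rw [a5]
    linarith
  have hdiag : ∀ s : ℕ, s ≤ H →
      |∑ j ∈ Finset.range J0, wt x j * KK (⌊x⌋₊ / 2 ^ (j + 1)) w s s| ≤ 6 * Real.log x := by
    intro s hs
    have hsr : (s:ℝ) ≤ H := by exact_mod_cast hs
    refine (Finset.abs_sum_le_sum_abs _ _).trans ?_
    calc _ ≤ ∑ j ∈ Finset.range J0, wt x j * (3 * Real.log x) := by
          refine Finset.sum_le_sum fun j hj => ?_
          rw [abs_mul, abs_of_nonneg (e5 j hj).1]
          refine mul_le_mul_of_nonneg_left ?_ (e5 j hj).1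
          refine (e4 j hj s (hsr.trans (hlogN j hj).2.2)).trans ?_
          have := (hlogN j hj).2.1
          linarith
      _ = (∑ j ∈ Finset.range J0, wt x j) * (3 * Real.log x) := (Finset.sum_mul _ _ _).symm
      _ ≤ 2 * (3 * Real.log x) := mul_le_mul_of_nonneg_right e6' (by positivity)
      _ = 6 * Real.log x := by ring
  have hiJ : i ∈ Finset.range J0 := Finset.mem_range.mpr (by omega)
  have hcore := core H J0 w (wt x) (fun j => ⌊x⌋₊ / 2 ^ (j + 1))
    (fun d => c d - singularSeries {0, d}) err (6 * Real.log x) _ _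
    (fun j hj => (e5 j hj).1) hoff hdiag herr0 hP hB i hiJ v hv
  set Qv : ℝ := (∑ n ∈ Finset.Ioc (⌊x⌋₊ / 2 ^ (i + 1)) (2 * (⌊x⌋₊ / 2 ^ (i + 1))),
        (∑ s ∈ Finset.range (H + 1), v s * fp (⌊x⌋₊ / 2 ^ (i + 1)) w (n + s)) ^ 2) /
          ((⌊x⌋₊ / 2 ^ (i + 1) : ℕ) : ℝ) with hQv
  have hQv0 : 0 ≤ Qv := by positivity
  have hw1 : 1 / 2 ^ (I0 + 1) ≤ wt x i := by
    refine le_trans ?_ (e8 i hiJ)
    refine one_div_le_one_div_of_le (by positivity) ?_
    exact pow_le_pow_right₀ (by norm_num) (by omega)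
  have hl : 1 / 2 ^ (I0 + 1) * Qv ≤ wt x i * Qv := mul_le_mul_of_nonneg_right hw1 hQv0
  have hr1 : 2 * (6 * Real.log x) + 4 * ((η ^ 2 + η * (C + 1) / 2) * H) +
      4 * (δ' / 16 * H) ≤ δ' * H := by
    have h1 : η ^ 2 ≤ η := by
      have h0 := mul_le_mul_of_nonneg_left hη1 hη.le
      rw [mul_one] at h0
      rw [sq]
      exact h0
    have h2 : η ^ 2 + η * (C + 1) / 2 ≤ δ' / 16 := by
      have h5 : η * (8 * (C + 3)) = 8 * (η * C) + 24 * η := by ring
      have h6 : η * (C + 1) / 2 = (η * C) / 2 + η / 2 := by ring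
      rw [h5] at hη2
      rw [h6]
      linarith only [h1, hη2]
    have h3 : (η ^ 2 + η * (C + 1) / 2) * (H:ℝ) ≤ δ' / 16 * H :=
      mul_le_mul_of_nonneg_right h2 (Nat.cast_nonneg _)
    have h4 : 0 ≤ δ' * (H:ℝ) := by positivity
    linarith only [h3, h4, hKl]
  have hr2 : ((H:ℝ) + 1) * (2 * (6 * Real.log x) + 4 * ((η ^ 2 + η * (C + 1) / 2) * H) +
      4 * (δ' / 16 * H)) ≤ ((H:ℝ) + 1) * (δ' * (H + 1)) := by
    refine mul_le_mul_of_nonneg_left (hr1.trans ?_) (by positivity)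
    have : δ' * (H:ℝ) ≤ δ' * (H + 1) := mul_le_mul_of_nonneg_left (by linarith) hδ'.le
    exact this
  have hfin : 1 / 2 ^ (I0 + 1) * Qv ≤ ((H:ℝ) + 1) * (δ' * (H + 1)) :=
    (hl.trans hcore).trans hr2
  have h2p : (0:ℝ) < 2 ^ (I0 + 1) := by positivity
  have h10 : ((H:ℝ) + 1) * (δ' * (H + 1)) = δ * ((H:ℝ) + 1) ^ 2 / 2 ^ (I0 + 1) := by
    rw [hδ'def]
    ring
  rw [h10, one_div, inv_mul_eq_div, div_le_div_iff_of_pos_right h2p] at hfin
  exact hfin

end Pool.Agent.HLT
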