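import Mathlib
import Pool.Agent.HLT.StHLBlock
import Pool.Agent.HLT.StTransfer
import Pool.Agent.HLT.StScale
import Pool.Agent.HLT.ApShift
import Pool.Agent.HLT.SingAvg
import Pool.Agent.HLT.Final6
import Pool.Agent.HL26.SieveC

set_option autoImplicit false

open Finset Filter Topology

namespace Pool.Agent.HLT

open Pool.Agent.HL26 Pool.Agent.Maynard

namespace StHLAux

/-- the truncated singular series is close to the singular series on average -/
lemma sing_avg (r : ℕ) (hr : 2 ≤ r) (η : ℝ) (hη : 0 < η) : ∃ w0 : ℕ, ∀ w : ℕ, w0 ≤ w →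
    ∃ H0 : ℕ, ∀ H : ℕ, H0 ≤ H →
      ∑ E ∈ (Finset.range (H + 1)).powersetCard r, |SP (PPy w) E - singularSeries E| ≤
        η * ((H:ℝ) + 1) ^ r := by
  obtain ⟨C, hC, hsq⟩ := sum_singularSeries_sq_le r hr
  obtain ⟨w1, hw1⟩ := sing_upper_avg r hr (η / 2) (by positivity)
  refine ⟨max (max w1 (2 * r ^ 2)) ⌈4 * (r:ℝ) ^ 2 * (1 + C) / η⌉₊, fun w hw => ?_⟩
  have hww1 : w1 ≤ w := (le_max_left _ _).trans ((le_max_left _ _).trans hw)
  have hw2 : 2 * r ^ 2 ≤ w := (le_max_right _ _).trans ((le_max_left _ _).trans hw)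
  have hwc : 4 * (r:ℝ) ^ 2 * (1 + C) / η ≤ w := by
    have h1 : (⌈4 * (r:ℝ) ^ 2 * (1 + C) / η⌉₊ : ℝ) ≤ w := by
      exact_mod_cast (le_max_right _ _).trans hw
    exact (Nat.le_ceil _).trans h1
  obtain ⟨H0, hH0⟩ := hw1 w hww1
  refine ⟨H0, fun H hH => ?_⟩
  have hr2 : 1 ≤ r ^ 2 := Nat.one_le_pow _ _ (by omega)
  have hwpos : 1 ≤ w := by omega
  have hw0 : (0:ℝ) < w := by exact_mod_cast hwpos
  have hw2r : 2 * (r:ℝ) ^ 2 ≤ w := by exact_mod_cast hw2
  have hpt : ∀ E ∈ (Finset.range (H + 1)).powersetCard r, |SP (PPy w) E - singularSeries E| ≤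
      max (singularSeries E - SP (PPy w) E) 0 +
        (2 * (r:ℝ) ^ 2 / w) * (1 + (singularSeries E) ^ 2) := by
    intro E hE
    have hcard := (Finset.mem_powersetCard.1 hE).2
    have h1 := singularSeries_ge E w hwpos
    rw [hcard] at h1
    have h2 : 0 ≤ SP (PPy w) E := SP_nonneg _ (PPy_prime w) _
    set S := singularSeries E with hS
    set T := SP (PPy w) E with hT
    have h4 : (r:ℝ) ^ 2 / w ≤ 1 / 2 := by
      rw [div_le_div_iff₀ hw0 (by norm_num)]
      linarith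
    have h7 : (0:ℝ) ≤ (r:ℝ) ^ 2 / w := by positivity
    have h5 : T ≤ 2 * S := by nlinarith
    have h6 : T - S ≤ ((r:ℝ) ^ 2 / w) * T := by linarith
    have h8 : T - S ≤ (2 * (r:ℝ) ^ 2 / w) * S := by
      calc T - S ≤ ((r:ℝ) ^ 2 / w) * T := h6
        _ ≤ ((r:ℝ) ^ 2 / w) * (2 * S) := mul_le_mul_of_nonneg_left h5 h7
        _ = (2 * (r:ℝ) ^ 2 / w) * S := by ring
    have h9 : S ≤ 1 + S ^ 2 := by nlinarith [sq_nonneg (S - 1), sq_nonneg S]
    have h10 : (0:ℝ) ≤ 2 * (r:ℝ) ^ 2 / w := by positivity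
    have h11 : (2 * (r:ℝ) ^ 2 / w) * S ≤ (2 * (r:ℝ) ^ 2 / w) * (1 + S ^ 2) :=
      mul_le_mul_of_nonneg_left h9 h10
    have h12 : 0 ≤ (2 * (r:ℝ) ^ 2 / w) * (1 + S ^ 2) := by positivity
    rw [abs_le]
    constructor
    · have := le_max_left (S - T) 0
      linarith
    · have := le_max_right (S - T) 0
      linarith
  refine (Finset.sum_le_sum hpt).trans ?_
  rw [Finset.sum_add_distrib, ← Finset.mul_sum]
  have hA := hH0 H hH
  have hA2 : η / 2 * (H:ℝ) ^ r ≤ η / 2 * ((H:ℝ) + 1) ^ r := by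
    apply mul_le_mul_of_nonneg_left _ (by positivity)
    exact pow_le_pow_left₀ (by positivity) (by linarith) _
  have hB : ∑ E ∈ (Finset.range (H + 1)).powersetCard r, (1 + (singularSeries E) ^ 2) ≤
      (1 + C) * ((H:ℝ) + 1) ^ r := by
    rw [Finset.sum_add_distrib]
    have h3 := hsq H
    have h4 : ∑ E ∈ (Finset.range (H + 1)).powersetCard r, (1:ℝ) ≤ ((H:ℝ) + 1) ^ r := by
      rw [Finset.sum_const, nsmul_eq_mul, mul_one, Finset.card_powersetCard, Finset.card_range]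
      have h5 : ((H + 1).choose r : ℝ) ≤ (((H + 1) ^ r : ℕ) : ℝ) := by
        exact_mod_cast Nat.choose_le_pow _ _
      push_cast at h5
      exact h5
    linarith
  have hD : (2 * (r:ℝ) ^ 2 / w) * ((1 + C) * ((H:ℝ) + 1) ^ r) ≤ η / 2 * ((H:ℝ) + 1) ^ r := by
    rw [← mul_assoc]
    apply mul_le_mul_of_nonneg_right _ (by positivity)
    rw [div_mul_eq_mul_div, div_le_div_iff₀ hw0 (by norm_num)]
    rw [div_le_iff₀ hη] at hwc
    linarith
  have hE : (2 * (r:ℝ) ^ 2 / w) * ∑ E ∈ (Finset.range (H + 1)).powersetCard r,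
      (1 + (singularSeries E) ^ 2) ≤ (2 * (r:ℝ) ^ 2 / w) * ((1 + C) * ((H:ℝ) + 1) ^ r) :=
    mul_le_mul_of_nonneg_left hB (by positivity)
  linarith

/-- the weights of the blocks -/
noncomputable def wr (r : ℕ) (x : ℝ) (i : ℕ) : ℝ := ((⌊x⌋₊ / 2 ^ (i + 1) : ℕ) : ℝ) / x *
          (Real.log x / Real.log ((⌊x⌋₊ / 2 ^ (i + 1) : ℕ) : ℝ)) ^ r

lemma tendsto_wr (r i : ℕ) : Tendsto (fun x => wr r x i) atTop (𝓝 (1 / 2 ^ (i + 1))) := by
  unfold wr
  have h := (F7aux.tendsto_ratio i).mul ((F7aux.tendsto_logratio i).pow r)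
  simpa using h

lemma ev_wr (r I0 : ℕ) : ∀ᶠ x : ℝ in atTop, (∀ i ∈ Finset.range I0, 0 ≤ wr r x i) ∧
    |∑ i ∈ Finset.range I0, wr r x i - 1| ≤ 2 / 2 ^ I0 ∧ ∑ i ∈ Finset.range I0, wr r x i ≤ 2 := by
  have hsum : ∀ I : ℕ, ∑ i ∈ Finset.range I, (1:ℝ) / 2 ^ (i + 1) = 1 - 1 / 2 ^ I := by
    intro I
    induction I with
    | zero => simp
    | succ I ih =>
      rw [Finset.sum_range_succ, ih, pow_succ]
      field_simp
      ring
  have h1 : Tendsto (fun x => ∑ i ∈ Finset.range I0, wr r x i) atTop (𝓝 (1 - 1 / 2 ^ I0)) := by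
    rw [← hsum I0]
    exact tendsto_finsetSum _ fun i _ => tendsto_wr r i
  have h2 : ∀ᶠ x in atTop, |∑ i ∈ Finset.range I0, wr r x i - (1 - 1 / 2 ^ I0)| ≤ 1 / 2 ^ I0 := by
    have h3 := (tendsto_iff_norm_sub_tendsto_zero.mp h1)
    have h4 : (0:ℝ) < 1 / 2 ^ I0 := by positivity
    filter_upwards [h3.eventually_le_const h4] with x hx
    exact hx
  have h5 : ∀ᶠ x : ℝ in atTop, ∀ i ∈ Finset.range I0, 0 ≤ wr r x i := by
    rw [Filter.eventually_all_finset]
    intro i _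
    filter_upwards [(tendsto_wr r i).eventually_const_le
      (show (0:ℝ) < 1 / 2 ^ (i + 1) by positivity)] with x hx
    exact hx
  filter_upwards [h2, h5] with x hx hx2
  refine ⟨hx2, ?_, ?_⟩
  · have h7 : ∑ i ∈ Finset.range I0, wr r x i - 1 =
        (∑ i ∈ Finset.range I0, wr r x i - (1 - 1 / 2 ^ I0)) + (-(1 / 2 ^ I0)) := by ring
    rw [h7]
    refine (abs_add_le _ _).trans ?_
    rw [abs_neg, abs_of_pos (by positivity : (0:ℝ) < 1 / 2 ^ I0)]
    calc _ ≤ (1:ℝ) / 2 ^ I0 + 1 / 2 ^ I0 := by linarith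
      _ = 2 / 2 ^ I0 := by ring
  · have h8 := (abs_le.mp hx).2
    have h9 : (0:ℝ) < 1 / 2 ^ I0 := by positivity
    linarith

/-- from the blocks to `[1, x]` -/
lemma tuples_close (k : ℕ) (hk : 1 ≤ k) (ε : ℝ) (hε : 0 < ε) : ∃ (I0 : ℕ) (w0 : ℕ), ∀ w : ℕ,
    w0 ≤ w → ∃ X : ℝ, ∀ x : ℝ, X ≤ x → ∀ H : ℕ, Real.log x ≤ H →
    (∀ i < I0, ∑ e ∈ (box (k + 1) H).filter (fun e => Function.Injective e),
      |rr (⌊x⌋₊ / 2 ^ (i + 1)) e - SP (PPy w) (Finset.univ.image e)| ≤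
        ε / 8 * ((H:ℝ) + 1) ^ (k + 1)) →
    ∑ e ∈ (box (k + 1) H).filter (fun e => Function.Injective e),
      |cx k x e - singularSeries (Finset.univ.image e)| ≤ ε * ((H:ℝ) + 1) ^ (k + 1) := by
  obtain ⟨C, hC, hsq⟩ := sum_singularSeries_sq_le (k + 1) (by omega)
  obtain ⟨Cb, hCb, hblocks⟩ := tupleCount_blocks (k + 1) (by omega)
  set R : ℝ := (((k + 1 : ℕ) : ℝ)) ^ (k + 1) with hR
  have hR0 : 0 < R := by positivity
  set Cs : ℝ := R * (1 + C) with hCs
  have hCs0 : 0 < Cs := by positivity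
  obtain ⟨I0, hI0⟩ : ∃ I0 : ℕ, (Cb + 2) * Cs / 2 ^ I0 ≤ ε / 4 := by
    have h1 : Tendsto (fun n : ℕ => (Cb + 2) * Cs * (1 / 2 : ℝ) ^ n) atTop
        (𝓝 ((Cb + 2) * Cs * 0)) :=
      (tendsto_pow_atTop_nhds_zero_of_lt_one (by norm_num) (by norm_num)).const_mul _
    rw [mul_zero] at h1
    have h2 : (0:ℝ) < ε / 4 := by positivity
    obtain ⟨n, hn⟩ := (h1.eventually_le_const h2).exists
    refine ⟨n, le_trans (le_of_eq ?_) hn⟩
    rw [one_div, inv_pow, div_eq_mul_inv]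
  obtain ⟨w0, hw0⟩ := sing_avg (k + 1) (by omega) (ε / (8 * R)) (by positivity)
  refine ⟨I0, w0, fun w hw => ?_⟩
  obtain ⟨H0, hH0⟩ := hw0 w hw
  obtain ⟨X, hX⟩ := eventually_atTop.mp ((hblocks I0 (ε / 4) (by positivity)).and
    ((ev_wr (k + 1) I0).and ((Real.tendsto_log_atTop.eventually_ge_atTop (H0:ℝ)).and
      (eventually_ge_atTop (1:ℝ)))))
  refine ⟨X, fun x hx H hH hyp => ?_⟩
  obtain ⟨e1, ⟨e2, e3, e4⟩, e5, e6⟩ := hX x hx
  have hHH0 : H0 ≤ H := by exact_mod_cast e5.trans hH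
  have hsing := hH0 H hHH0
  set B := (box (k + 1) H).filter (fun e => Function.Injective e) with hB
  have hBT : ∀ e ∈ B, Function.Injective e ∧ ∀ i, e i ∈ Finset.range (H + 1) := by
    intro e he
    rw [hB, Finset.mem_filter] at he
    exact ⟨he.2, fun i => Fintype.mem_piFinset.1 he.1 i⟩
  have hBcard : (B.card : ℝ) ≤ ((H:ℝ) + 1) ^ (k + 1) := by
    have h1 : B.card ≤ (H + 1) ^ (k + 1) := by
      refine (Finset.card_filter_le _ _).trans ?_
      rw [F6U.card_box]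
    exact_mod_cast h1
  have hS0 : ∀ E, 0 ≤ singularSeries E := fun E => singularSeries_nonneg E
  -- first moment of the singular series
  have hsum1 : ∑ e ∈ B, singularSeries (Finset.univ.image e) ≤ Cs * ((H:ℝ) + 1) ^ (k + 1) := by
    refine (APMomentAux.sum_image_le (k + 1) (Finset.range (H + 1)) singularSeries hS0 B
      hBT).trans ?_
    rw [← hR, hCs, mul_assoc]
    apply mul_le_mul_of_nonneg_left _ hR0.le
    have h1 : ∑ E ∈ (Finset.range (H + 1)).powersetCard (k + 1), singularSeries E ≤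
        ∑ E ∈ (Finset.range (H + 1)).powersetCard (k + 1), (1 + (singularSeries E) ^ 2) := by
      refine Finset.sum_le_sum fun E _ => ?_
      nlinarith [sq_nonneg (singularSeries E - 1), sq_nonneg (singularSeries E)]
    refine h1.trans ?_
    rw [Finset.sum_add_distrib]
    have h3 := hsq H
    have h4 : ∑ E ∈ (Finset.range (H + 1)).powersetCard (k + 1), (1:ℝ) ≤
        ((H:ℝ) + 1) ^ (k + 1) := by
      rw [Finset.sum_const, nsmul_eq_mul, mul_one, Finset.card_powersetCard, Finset.card_range]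
      have h5 : ((H + 1).choose (k + 1) : ℝ) ≤ (((H + 1) ^ (k + 1) : ℕ) : ℝ) := by
        exact_mod_cast Nat.choose_le_pow _ _
      push_cast at h5
      exact h5
    linarith
  -- truncation
  have hsum2 : ∑ e ∈ B, |SP (PPy w) (Finset.univ.image e) - singularSeries (Finset.univ.image e)| ≤
      ε / 8 * ((H:ℝ) + 1) ^ (k + 1) := by
    refine (APMomentAux.sum_image_le (k + 1) (Finset.range (H + 1))
      (fun E => |SP (PPy w) E - singularSeries E|) (fun E => abs_nonneg _) B hBT).trans ?_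
    rw [← hR]
    calc R * ∑ E ∈ (Finset.range (H + 1)).powersetCard (k + 1),
          |SP (PPy w) E - singularSeries E| ≤ R * (ε / (8 * R) * ((H:ℝ) + 1) ^ (k + 1)) :=
          mul_le_mul_of_nonneg_left hsing hR0.le
      _ = ε / 8 * ((H:ℝ) + 1) ^ (k + 1) := by field_simp
  -- pointwise
  have hpt : ∀ e ∈ B, |cx k x e - singularSeries (Finset.univ.image e)| ≤
      (Cb + 2) / 2 ^ I0 * singularSeries (Finset.univ.image e) + ε / 4 +
      ∑ i ∈ Finset.range I0, wr (k + 1) x i *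
        (|rr (⌊x⌋₊ / 2 ^ (i + 1)) e - SP (PPy w) (Finset.univ.image e)| +
          |SP (PPy w) (Finset.univ.image e) - singularSeries (Finset.univ.image e)|) := by
    intro e he
    have h1 := e1 e (hBT e he).1
    set S := singularSeries (Finset.univ.image e) with hS
    have hSe : 0 ≤ S := hS0 _
    have hcx : cx k x e = (tupleCount x (Finset.image e Finset.univ) : ℝ) *
        (Real.log x) ^ (k + 1) / x := by
      unfold cx
      ring
    have hwrdef : ∀ i, ((⌊x⌋₊ / 2 ^ (i + 1) : ℕ) : ℝ) / x *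
          (Real.log x / Real.log ((⌊x⌋₊ / 2 ^ (i + 1) : ℕ) : ℝ)) ^ (k + 1) = wr (k + 1) x i :=
      fun i => rfl
    simp only [hwrdef] at h1
    rw [← hcx] at h1
    have h2 : cx k x e - S = (cx k x e - ∑ i ∈ Finset.range I0, wr (k + 1) x i *
          rr (⌊x⌋₊ / 2 ^ (i + 1)) e) + (∑ i ∈ Finset.range I0, wr (k + 1) x i - 1) * S +
        ∑ i ∈ Finset.range I0, wr (k + 1) x i *
          ((rr (⌊x⌋₊ / 2 ^ (i + 1)) e - SP (PPy w) (Finset.univ.image e)) +
            (SP (PPy w) (Finset.univ.image e) - S)) := by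
      have h3 : ∑ i ∈ Finset.range I0, wr (k + 1) x i *
          ((rr (⌊x⌋₊ / 2 ^ (i + 1)) e - SP (PPy w) (Finset.univ.image e)) +
            (SP (PPy w) (Finset.univ.image e) - S)) =
          ∑ i ∈ Finset.range I0, wr (k + 1) x i * rr (⌊x⌋₊ / 2 ^ (i + 1)) e -
            (∑ i ∈ Finset.range I0, wr (k + 1) x i) * S := by
        rw [Finset.sum_mul, ← Finset.sum_sub_distrib]
        refine Finset.sum_congr rfl fun i _ => ?_
        ring
      rw [h3]
      ring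
    rw [h2]
    refine (abs_add_le _ _).trans (add_le_add ((abs_add_le _ _).trans ?_) ?_)
    · have h4 : |(∑ i ∈ Finset.range I0, wr (k + 1) x i - 1) * S| ≤ 2 / 2 ^ I0 * S := by
        rw [abs_mul, abs_of_nonneg hSe]
        exact mul_le_mul_of_nonneg_right e3 hSe
      calc _ ≤ (Cb * S / 2 ^ I0 + ε / 4) + 2 / 2 ^ I0 * S := add_le_add h1 h4
        _ = (Cb + 2) / 2 ^ I0 * S + ε / 4 := by ring
    · refine (Finset.abs_sum_le_sum_abs _ _).trans (Finset.sum_le_sum fun i hi => ?_)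
      rw [abs_mul, abs_of_nonneg (e2 i hi)]
      exact mul_le_mul_of_nonneg_left (abs_add_le _ _) (e2 i hi)
  refine (Finset.sum_le_sum hpt).trans ?_
  rw [Finset.sum_add_distrib, Finset.sum_add_distrib, ← Finset.mul_sum, Finset.sum_const,
    nsmul_eq_mul]
  have hP : (0:ℝ) ≤ ((H:ℝ) + 1) ^ (k + 1) := by positivity
  have t1 : (Cb + 2) / 2 ^ I0 * ∑ e ∈ B, singularSeries (Finset.univ.image e) ≤
      ε / 4 * ((H:ℝ) + 1) ^ (k + 1) := by
    calc _ ≤ (Cb + 2) / 2 ^ I0 * (Cs * ((H:ℝ) + 1) ^ (k + 1)) :=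
          mul_le_mul_of_nonneg_left hsum1 (by positivity)
      _ = ((Cb + 2) * Cs / 2 ^ I0) * ((H:ℝ) + 1) ^ (k + 1) := by ring
      _ ≤ _ := mul_le_mul_of_nonneg_right hI0 hP
  have t2 : (B.card : ℝ) * (ε / 4) ≤ ε / 4 * ((H:ℝ) + 1) ^ (k + 1) := by
    rw [mul_comm]
    exact mul_le_mul_of_nonneg_left hBcard (by positivity)
  have t3 : ∑ e ∈ B, ∑ i ∈ Finset.range I0, wr (k + 1) x i *
        (|rr (⌊x⌋₊ / 2 ^ (i + 1)) e - SP (PPy w) (Finset.univ.image e)| +
          |SP (PPy w) (Finset.univ.image e) - singularSeries (Finset.univ.image e)|) ≤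
      2 * (ε / 4 * ((H:ℝ) + 1) ^ (k + 1)) := by
    rw [Finset.sum_comm]
    calc _ ≤ ∑ i ∈ Finset.range I0, wr (k + 1) x i * (ε / 4 * ((H:ℝ) + 1) ^ (k + 1)) := by
          refine Finset.sum_le_sum fun i hi => ?_
          rw [← Finset.mul_sum]
          apply mul_le_mul_of_nonneg_left _ (e2 i hi)
          rw [Finset.sum_add_distrib]
          have h1 := hyp i (Finset.mem_range.mp hi)
          linarith
      _ = (∑ i ∈ Finset.range I0, wr (k + 1) x i) * (ε / 4 * ((H:ℝ) + 1) ^ (k + 1)) := by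
          rw [Finset.sum_mul]
      _ ≤ _ := mul_le_mul_of_nonneg_right e4 (by positivity)
  linarith

/-- for odd differences there is at most one pair -/
lemma odd_le (x : ℝ) (d : ℕ) (hd : ¬ Even d) : tupleCount x {0, d} ≤ 1 := by
  unfold tupleCount
  have h : (Finset.Icc 1 ⌊x⌋₊).filter (fun m => ∀ e ∈ ({0, d} : Finset ℕ), Nat.Prime (m + e)) ⊆
      {2} := by
    intro m hm
    rw [Finset.mem_filter, Finset.mem_Icc] at hm
    have h1 : (m + 0).Prime := hm.2 0 (by simp)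
    have h2 : (m + d).Prime := hm.2 d (by simp)
    rw [add_zero] at h1
    rw [Finset.mem_singleton]
    by_contra hne
    have hodd : Odd m := h1.odd_of_ne_two hne
    have hd' : Odd d := Nat.not_even_iff_odd.mp hd
    have heven : Even (m + d) := hodd.add_odd hd'
    have h3 : m + d = 2 := (h2.even_iff).mp heven
    have h4 : 2 ≤ m := h1.two_le
    have h5 : 0 < d := hd'.pos
    omega
  exact (Finset.card_le_card h).trans (by simp)

open Classical in
/-- the hypothesis on even differences gives the hypothesis of `pair_transfer` -/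
lemma transfer_hyp (δ0 : ℝ) (hδ0 : 0 < δ0) : ∃ δ : ℝ, 0 < δ ∧ ∃ X : ℝ, ∀ x : ℝ, X ≤ x →
    ∀ H : ℕ, 1 ≤ H →
    (((Finset.Icc 1 H).filter (fun d : ℕ => Even d ∧
      (1 + δ) * (singularSeries {0, d} * (x / (Real.log x) ^ 2)) <
        (tupleCount x {0, d} : ℝ))).card : ℝ) ≤ δ * H →
    (((Finset.Icc 1 H).filter (fun d : ℕ =>
      δ0 < (tupleCount x {0, d} : ℝ) * (Real.log x) ^ 2 / x - singularSeries {0, d})).card : ℝ) ≤
        δ0 * H := by
  obtain ⟨C2, hC2, hsing⟩ := sum_sing_pair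
  have hC2' : 0 < C2 := by linarith
  refine ⟨min (δ0 / 2) (δ0 ^ 2 / (2 * C2)), lt_min (by positivity) (by positivity), ?_⟩
  set δ : ℝ := min (δ0 / 2) (δ0 ^ 2 / (2 * C2)) with hδ
  have hδpos : 0 < δ := lt_min (by positivity) (by positivity)
  have hδ1 : δ ≤ δ0 / 2 := min_le_left _ _
  have hδ2 : δ ≤ δ0 ^ 2 / (2 * C2) := min_le_right _ _
  obtain ⟨X, hX⟩ := eventually_atTop.mp ((ApS_log_pow_small 2 δ0 hδ0).and
    (eventually_ge_atTop (2:ℝ)))
  refine ⟨X, fun x hx H hH hyp => ?_⟩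
  obtain ⟨e1, e2⟩ := hX x hx
  have hx0 : 0 < x := by linarith
  have hL0 : 0 < Real.log x := Real.log_pos (by linarith)
  have hS0 : ∀ E, 0 ≤ singularSeries E := fun E => singularSeries_nonneg E
  set G := (Finset.Icc 1 H).filter (fun d : ℕ => δ0 / δ ≤ singularSeries {0, d}) with hG
  have hsub : (Finset.Icc 1 H).filter (fun d : ℕ =>
      δ0 < (tupleCount x {0, d} : ℝ) * (Real.log x) ^ 2 / x - singularSeries {0, d}) ⊆
      (Finset.Icc 1 H).filter (fun d : ℕ => Even d ∧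
      (1 + δ) * (singularSeries {0, d} * (x / (Real.log x) ^ 2)) <
        (tupleCount x {0, d} : ℝ)) ∪ G := by
    intro d hd
    rw [Finset.mem_filter] at hd
    rw [Finset.mem_union, Finset.mem_filter, hG, Finset.mem_filter]
    by_cases hev : Even d
    · by_cases hbig : (1 + δ) * (singularSeries {0, d} * (x / (Real.log x) ^ 2)) <
        (tupleCount x {0, d} : ℝ)
      · exact Or.inl ⟨hd.1, hev, hbig⟩
      · right
        refine ⟨hd.1, ?_⟩
        push Not at hbig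
        have h1 : (tupleCount x {0, d} : ℝ) * (Real.log x) ^ 2 / x ≤
            (1 + δ) * singularSeries {0, d} := by
          rw [div_le_iff₀ hx0]
          have h2 := mul_le_mul_of_nonneg_right hbig (show (0:ℝ) ≤ (Real.log x) ^ 2 by positivity)
          refine h2.trans (le_of_eq ?_)
          field_simp
        have h2 : δ0 < δ * singularSeries {0, d} := by
          have h3 := hd.2
          linarith
        rw [div_le_iff₀ hδpos]
        linarith
    · exfalso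
      have h1 : (tupleCount x {0, d} : ℝ) ≤ 1 := by exact_mod_cast odd_le x d hev
      have h2 : (tupleCount x {0, d} : ℝ) * (Real.log x) ^ 2 / x ≤ (Real.log x) ^ 2 / x := by
        apply div_le_div_of_nonneg_right _ hx0.le
        have h3 : (0:ℝ) ≤ (Real.log x) ^ 2 := by positivity
        nlinarith
      have h3 := hd.2
      have h4 := hS0 {0, d}
      linarith
  have hcard := Finset.card_le_card hsub
  have hcard2 := hcard.trans (Finset.card_union_le _ _)
  have hGcard : (G.card : ℝ) ≤ δ0 / 2 * H := by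
    have h1 : (G.card : ℝ) * (δ0 / δ) ≤ C2 * H := by
      rw [← nsmul_eq_mul, ← Finset.sum_const]
      refine le_trans (Finset.sum_le_sum (g := fun d => singularSeries {0, d}) ?_) ?_
      · intro d hd
        rw [hG, Finset.mem_filter] at hd
        exact hd.2
      · refine le_trans (Finset.sum_le_sum_of_subset_of_nonneg (Finset.filter_subset _ _)
          (fun d _ _ => hS0 _)) (hsing H hH).1
    have h2 : (G.card : ℝ) ≤ C2 * H * (δ / δ0) := by
      have h3 : (G.card : ℝ) = (G.card : ℝ) * (δ0 / δ) * (δ / δ0) := by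
        field_simp
      rw [h3]
      exact mul_le_mul_of_nonneg_right h1 (by positivity)
    have h4 : C2 * (δ / δ0) ≤ δ0 / 2 := by
      rw [mul_div_assoc', div_le_div_iff₀ hδ0 (by norm_num)]
      rw [le_div_iff₀ (by positivity)] at hδ2
      nlinarith
    calc (G.card : ℝ) ≤ C2 * H * (δ / δ0) := h2
      _ = (C2 * (δ / δ0)) * H := by ring
      _ ≤ δ0 / 2 * H := mul_le_mul_of_nonneg_right h4 (Nat.cast_nonneg _)
  have hHr : (0:ℝ) ≤ H := Nat.cast_nonneg _
  have hfin : (((Finset.Icc 1 H).filter (fun d : ℕ =>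
      δ0 < (tupleCount x {0, d} : ℝ) * (Real.log x) ^ 2 / x - singularSeries {0, d})).card : ℝ) ≤
      (((Finset.Icc 1 H).filter (fun d : ℕ => Even d ∧
      (1 + δ) * (singularSeries {0, d} * (x / (Real.log x) ^ 2)) <
        (tupleCount x {0, d} : ℝ))).card : ℝ) + (G.card : ℝ) := by
    exact_mod_cast hcard2
  have h9 : δ * H ≤ δ0 / 2 * H := mul_le_mul_of_nonneg_right hδ1 hHr
  linarith

/-- shifting a set -/
lemma tupleCount_shift_ge (x : ℝ) (E : Finset ℕ) (t : ℕ) :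
    tupleCount x (E.image (fun d => t + d)) ≤ tupleCount x E + t := by
  unfold tupleCount
  have hsub : (Finset.Icc 1 ⌊x⌋₊).filter
      (fun m => ∀ e ∈ E.image (fun d => t + d), Nat.Prime (m + e)) ⊆
      ((Finset.Icc 1 ⌊x⌋₊).filter (fun m => ∀ e ∈ E, Nat.Prime (m + e))).image
        (fun m => m - t) ∪ Finset.Ioc (⌊x⌋₊ - t) ⌊x⌋₊ := by
    intro m hm
    simp only [Finset.mem_filter, Finset.mem_Icc, Finset.mem_union, Finset.mem_image,
      Finset.mem_Ioc] at hm ⊢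
    by_cases hmt : m + t ≤ ⌊x⌋₊
    · left
      refine ⟨m + t, ⟨⟨by omega, hmt⟩, ?_⟩, by omega⟩
      intro e he
      have h1 : m + t + e = m + (t + e) := by ring
      rw [h1]
      exact hm.2 (t + e) ⟨e, he, rfl⟩
    · right
      omega
  refine (Finset.card_le_card hsub).trans ((Finset.card_union_le _ _).trans ?_)
  have h1 := Finset.card_image_le (s := (Finset.Icc 1 ⌊x⌋₊).filter
    (fun m => ∀ e ∈ E, Nat.Prime (m + e))) (f := fun m => m - t)
  have h2 : (Finset.Ioc (⌊x⌋₊ - t) ⌊x⌋₊).card ≤ t := by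
    rw [Nat.card_Ioc]
    omega
  omega

/-- the number of sets with a large element -/
lemma card_large (k H m0 : ℕ) :
    (((Finset.Icc 1 H).powersetCard k).filter (fun D => ∃ a ∈ D, H - m0 < a)).card ≤
      m0 * H ^ (k - 1) := by
  classical
  have hsub : ((Finset.Icc 1 H).powersetCard k).filter (fun D => ∃ a ∈ D, H - m0 < a) ⊆
      ((Finset.Ioc (H - m0) H) ×ˢ ((Finset.Icc 1 H).powersetCard (k - 1))).image
        (fun q => insert q.1 q.2) := by
    intro D hD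
    rw [Finset.mem_filter, Finset.mem_powersetCard] at hD
    obtain ⟨⟨hD1, hD2⟩, a, ha, haH⟩ := hD
    rw [Finset.mem_image]
    refine ⟨(a, D.erase a), ?_, Finset.insert_erase ha⟩
    rw [Finset.mem_product, Finset.mem_Ioc, Finset.mem_powersetCard]
    have h1 := Finset.mem_Icc.mp (hD1 ha)
    refine ⟨⟨haH, h1.2⟩, (Finset.erase_subset _ _).trans hD1, ?_⟩
    rw [Finset.card_erase_of_mem ha, hD2]
  refine (Finset.card_le_card hsub).trans (Finset.card_image_le.trans ?_)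
  rw [Finset.card_product, Nat.card_Ioc, Finset.card_powersetCard, Nat.card_Icc]
  apply Nat.mul_le_mul
  · omega
  · rw [Nat.add_sub_cancel]
    exact Nat.choose_le_pow _ _

end StHLAux

open StHLAux

open Classical in
/-- U3 (T13), two scales: the Hardy-Littlewood upper bound with constant `1 + δ` for almost all even
differences up to `H1` implies the Hardy-Littlewood asymptotic for almost all admissible `k`-sets in
`[1, H2]`, for all `H2 ≥ H1`. -/
theorem pairs_imply_tuples (k : ℕ) (hk : 1 ≤ k) (ε : ℝ) (hε : 0 < ε) : ∃ δ : ℝ, 0 < δ ∧ ∃ K0 : ℝ,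
    ∀ A : ℕ, ∃ X : ℝ, ∀ x : ℝ, X ≤ x → ∀ H1 H2 : ℕ,
    K0 * Real.log x ≤ H1 → H1 ≤ H2 → (H2:ℝ) ≤ (Real.log x) ^ A →
    (((Finset.Icc 1 H1).filter (fun d : ℕ => Even d ∧
      (1 + δ) * (singularSeries {0, d} * (x / (Real.log x) ^ 2)) <
        (tupleCount x {0, d} : ℝ))).card : ℝ) ≤ δ * H1 →
    ((((Finset.Icc 1 H2).powersetCard k).filter (fun D =>
      (∀ p : ℕ, p.Prime → nu (insert 0 D) p < p) ∧
      ε * (singularSeries (insert 0 D) * (x / (Real.log x) ^ (k + 1))) <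
        |(tupleCount x (insert 0 D) : ℝ) -
          singularSeries (insert 0 D) * (x / (Real.log x) ^ (k + 1))|)).card : ℝ) ≤
      ε * (H2:ℝ) ^ k := by
  obtain ⟨c0, hc0, hlow⟩ := exists_singularSeries_lower (k + 1)
  set g : ℝ := ε * c0 / 2 with hg
  have hgpos : 0 < g := by positivity
  set η : ℝ := min (ε / 2) 1 with hη
  have hηpos : 0 < η := lt_min (by positivity) one_pos
  have hη1 : η ≤ 1 := min_le_right _ _
  have hηε : η ≤ ε / 2 := min_le_left _ _
  set ε₂ : ℝ := ε * η * g / (2 * 2 ^ (k + 1)) with hε₂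
  have hε₂pos : 0 < ε₂ := by positivity
  obtain ⟨I0, w1, hclose⟩ := tuples_close k hk ε₂ hε₂pos
  obtain ⟨w2, hblock⟩ := block_hl k hk (ε₂ / 8) (by positivity)
  set w : ℕ := max w1 w2 with hw
  obtain ⟨X₁, hclose⟩ := hclose w (le_max_left _ _)
  obtain ⟨δb, hδb, hblock⟩ := hblock w (le_max_right _ _)
  obtain ⟨w3, htrans⟩ := pair_transfer (δb / 16) (by positivity) I0
  set wt : ℕ := max w w3 with hwt
  obtain ⟨K1, hblock⟩ := hblock wt (le_max_left _ _)
  obtain ⟨δ0, hδ0, K2, htrans⟩ := htrans wt (le_max_right _ _)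
  obtain ⟨δ, hδ, X₂, hhyp⟩ := transfer_hyp δ0 hδ0
  refine ⟨δ, hδ, max (max K1 K2) 1, fun A => ?_⟩
  obtain ⟨X₃, htrans⟩ := htrans A
  have hev : ∀ᶠ x : ℝ in atTop,
      (∀ i ∈ Finset.range I0, ∀ H : ℕ,
        K1 * Real.log ((⌊x⌋₊ / 2 ^ (i + 1) : ℕ) : ℝ) ≤ H →
        (H:ℝ) ≤ (Real.log ((⌊x⌋₊ / 2 ^ (i + 1) : ℕ) : ℝ)) ^ (A + 1) →
        (∀ v : ℕ → ℝ, (∀ s, |v s| ≤ 1) →
          (∑ n ∈ Finset.Ioc (⌊x⌋₊ / 2 ^ (i + 1)) (2 * (⌊x⌋₊ / 2 ^ (i + 1))),
            (∑ s ∈ Finset.range (H + 1), v s * fp (⌊x⌋₊ / 2 ^ (i + 1)) wt (n + s)) ^ 2) /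
              ((⌊x⌋₊ / 2 ^ (i + 1) : ℕ) : ℝ) ≤ δb * ((H:ℝ) + 1) ^ 2) →
        ∑ e ∈ (box (k + 1) H).filter (fun e => Function.Injective e),
          |rr (⌊x⌋₊ / 2 ^ (i + 1)) e - SP (PPy w) (Finset.univ.image e)| ≤
            ε₂ / 8 * ((H:ℝ) + 1) ^ (k + 1)) ∧
      (∀ i ∈ Finset.range I0, ∀ (δ : ℝ) (H1 H2 : ℕ), 0 ≤ δ → H1 ≤ H2 →
        (H2:ℝ) ≤ (Real.log ((⌊x⌋₊ / 2 ^ (i + 1) : ℕ) : ℝ)) ^ (A + 1) →
        (∀ v : ℕ → ℝ, (∀ s, |v s| ≤ 1) →
          (∑ n ∈ Finset.Ioc (⌊x⌋₊ / 2 ^ (i + 1)) (2 * (⌊x⌋₊ / 2 ^ (i + 1))),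
            (∑ s ∈ Finset.range (H1 + 1), v s * fp (⌊x⌋₊ / 2 ^ (i + 1)) wt (n + s)) ^ 2) /
              ((⌊x⌋₊ / 2 ^ (i + 1) : ℕ) : ℝ) ≤ δ * ((H1:ℝ) + 1) ^ 2) →
        ∀ v : ℕ → ℝ, (∀ s, |v s| ≤ 1) →
          (∑ n ∈ Finset.Ioc (⌊x⌋₊ / 2 ^ (i + 1)) (2 * (⌊x⌋₊ / 2 ^ (i + 1))),
            (∑ s ∈ Finset.range (H2 + 1), v s * fp (⌊x⌋₊ / 2 ^ (i + 1)) wt (n + s)) ^ 2) /
              ((⌊x⌋₊ / 2 ^ (i + 1) : ℕ) : ℝ) ≤ 4 * (δ + δb / 16) * ((H2:ℝ) + 1) ^ 2) ∧
      (∀ i ∈ Finset.range I0, 2 ≤ ⌊x⌋₊ / 2 ^ (i + 1) ∧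
        Real.log x / Real.log ((⌊x⌋₊ / 2 ^ (i + 1) : ℕ) : ℝ) ≤ 2 ∧
        (2:ℝ) ^ A ≤ Real.log ((⌊x⌋₊ / 2 ^ (i + 1) : ℕ) : ℝ)) ∧
      (Real.log x) ^ (k + 1 + A) / x ≤ g ∧ 3 ≤ x ∧ 1 ≤ Real.log x := by
    refine Eventually.and ?_ (Eventually.and ?_ (Eventually.and ?_
      ((ApS_log_pow_small (k + 1 + A) g hgpos).and
      ((eventually_ge_atTop 3).and (Real.tendsto_log_atTop.eventually_ge_atTop _)))))
    · rw [Filter.eventually_all_finset]
      intro i _
      exact (F7aux.tendsto_nat i).eventually (hblock (A + 1))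
    · rw [Filter.eventually_all_finset]
      intro i _
      exact (F7aux.tendsto_nat i).eventually (cut_scale wt (δb / 16) (by positivity) (A + 1))
    · rw [Filter.eventually_all_finset]
      intro i _
      refine ((F7aux.tendsto_nat i).eventually_ge_atTop 2).and
        (((F7aux.tendsto_logratio i).eventually_le_const (by norm_num)).and ?_)
      exact (Real.tendsto_log_atTop.comp (tendsto_natCast_atTop_atTop.comp
        (F7aux.tendsto_nat i))).eventually_ge_atTop _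
  obtain ⟨X₄, hX₄⟩ := eventually_atTop.mp hev
  refine ⟨max (max X₁ X₂) (max X₃ X₄), fun x hx H1 H hH11 hH12 hH2 hyp => ?_⟩
  have hx1 : X₁ ≤ x := (le_max_left _ _).trans ((le_max_left _ _).trans hx)
  have hx2 : X₂ ≤ x := (le_max_right _ _).trans ((le_max_left _ _).trans hx)
  have hx3 : X₃ ≤ x := (le_max_left _ _).trans ((le_max_right _ _).trans hx)
  have hx4 : X₄ ≤ x := (le_max_right _ _).trans ((le_max_right _ _).trans hx)
  obtain ⟨e1, e1b, e2, e3, e4, e5⟩ := hX₄ x hx4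
  have hx0 : 0 < x := by linarith
  set L := Real.log x with hLdef
  have hLpos : 0 < L := by linarith
  have hK1 : K1 ≤ max (max K1 K2) 1 := (le_max_left _ _).trans (le_max_left _ _)
  have hK2 : K2 ≤ max (max K1 K2) 1 := (le_max_right _ _).trans (le_max_left _ _)
  have hK3 : 1 ≤ max (max K1 K2) 1 := le_max_right _ _
  have hH12R : (H1:ℝ) ≤ H := by exact_mod_cast hH12
  have hH1 : max (max K1 K2) 1 * L ≤ H := hH11.trans hH12R
  have hH1L : L ≤ H1 := by
    refine le_trans ?_ hH11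
    nlinarith
  have hHL : L ≤ H := hH1L.trans hH12R
  have hHr : (1:ℝ) ≤ H := e5.trans hHL
  have hHpos : 1 ≤ H := by exact_mod_cast hHr
  have hH1pos : 1 ≤ H1 := by exact_mod_cast e5.trans hH1L
  have hyp2 := hhyp x hx2 H1 hH1pos hyp
  have hcut := htrans x hx3 H1 (le_trans (mul_le_mul_of_nonneg_right hK2 hLpos.le) hH11)
    (hH12R.trans hH2) hyp2
  -- the blocks
  have hblk : ∀ i < I0, ∑ e ∈ (box (k + 1) H).filter (fun e => Function.Injective e),
      |rr (⌊x⌋₊ / 2 ^ (i + 1)) e - SP (PPy w) (Finset.univ.image e)| ≤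
        ε₂ / 8 * ((H:ℝ) + 1) ^ (k + 1) := by
    intro i hi
    have hi' : i ∈ Finset.range I0 := Finset.mem_range.mpr hi
    obtain ⟨f1, f2, f3⟩ := e2 i hi'
    have hNr : (2:ℝ) ≤ ((⌊x⌋₊ / 2 ^ (i + 1) : ℕ) : ℝ) := by exact_mod_cast f1
    have hlogN : 0 < Real.log ((⌊x⌋₊ / 2 ^ (i + 1) : ℕ) : ℝ) := Real.log_pos (by linarith)
    have hNx : ((⌊x⌋₊ / 2 ^ (i + 1) : ℕ) : ℝ) ≤ x := by
      have h1 : ⌊x⌋₊ / 2 ^ (i + 1) ≤ ⌊x⌋₊ := Nat.div_le_self _ _
      calc ((⌊x⌋₊ / 2 ^ (i + 1) : ℕ) : ℝ) ≤ (⌊x⌋₊ : ℝ) := by exact_mod_cast h1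
        _ ≤ x := Nat.floor_le hx0.le
    have hlogNx : Real.log ((⌊x⌋₊ / 2 ^ (i + 1) : ℕ) : ℝ) ≤ L :=
      Real.log_le_log (by linarith) hNx
    have hlogxN : L ≤ 2 * Real.log ((⌊x⌋₊ / 2 ^ (i + 1) : ℕ) : ℝ) := by
      rw [div_le_iff₀ hlogN] at f2
      exact f2
    have hHA : (H:ℝ) ≤ (Real.log ((⌊x⌋₊ / 2 ^ (i + 1) : ℕ) : ℝ)) ^ (A + 1) := by
      calc (H:ℝ) ≤ L ^ A := hH2
        _ ≤ (2 * Real.log ((⌊x⌋₊ / 2 ^ (i + 1) : ℕ) : ℝ)) ^ A :=
            pow_le_pow_left₀ hLpos.le hlogxN _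
        _ = 2 ^ A * (Real.log ((⌊x⌋₊ / 2 ^ (i + 1) : ℕ) : ℝ)) ^ A := by rw [mul_pow]
        _ ≤ Real.log ((⌊x⌋₊ / 2 ^ (i + 1) : ℕ) : ℝ) *
            (Real.log ((⌊x⌋₊ / 2 ^ (i + 1) : ℕ) : ℝ)) ^ A :=
            mul_le_mul_of_nonneg_right f3 (by positivity)
        _ = (Real.log ((⌊x⌋₊ / 2 ^ (i + 1) : ℕ) : ℝ)) ^ (A + 1) := (pow_succ' _ _).symm
    have hcut2 := e1b i hi' (δb / 16) H1 H (by positivity) hH12 hHA (fun v hv => hcut i hi v hv)
    refine e1 i hi' H ?_ hHA (fun v hv => (hcut2 v hv).trans ?_)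
    · calc K1 * Real.log ((⌊x⌋₊ / 2 ^ (i + 1) : ℕ) : ℝ) ≤
            max (max K1 K2) 1 * Real.log ((⌊x⌋₊ / 2 ^ (i + 1) : ℕ) : ℝ) :=
            mul_le_mul_of_nonneg_right hK1 hlogN.le
        _ ≤ max (max K1 K2) 1 * L :=
            mul_le_mul_of_nonneg_left hlogNx (le_trans zero_le_one hK3)
        _ ≤ H := hH1
    · refine mul_le_mul_of_nonneg_right ?_ (by positivity)
      linarith
  have htot := hclose x hx1 H hHL hblk
  -- the violating sets
  set V := ((Finset.Icc 1 H).powersetCard k).filter (fun D =>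
      (∀ p : ℕ, p.Prime → nu (insert 0 D) p < p) ∧
      ε * (singularSeries (insert 0 D) * (x / L ^ (k + 1))) <
        |(tupleCount x (insert 0 D) : ℝ) -
          singularSeries (insert 0 D) * (x / L ^ (k + 1))|) with hV
  set m0 : ℕ := ⌊η * H⌋₊ with hm0
  have hm0le : (m0:ℝ) ≤ η * H := Nat.floor_le (by positivity)
  have hm0lt : η * H < (m0:ℝ) + 1 := Nat.lt_floor_add_one _
  have hm0H : m0 ≤ H := by
    have h1 : (m0:ℝ) ≤ H := by nlinarith
    exact_mod_cast h1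
  set V1 := V.filter (fun D => ∃ a ∈ D, H - m0 < a) with hV1
  set V2 := V.filter (fun D => ¬ ∃ a ∈ D, H - m0 < a) with hV2
  have hVsplit : V.card = V1.card + V2.card :=
    (Finset.card_filter_add_card_filter_not (s := V) (fun D => ∃ a ∈ D, H - m0 < a)).symm
  have hV1card : (V1.card : ℝ) ≤ ε / 2 * (H:ℝ) ^ k := by
    have h1 : V1.card ≤ m0 * H ^ (k - 1) := by
      refine le_trans (Finset.card_le_card ?_) (card_large k H m0)
      intro D hD
      rw [hV1, Finset.mem_filter, hV, Finset.mem_filter] at hD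
      rw [Finset.mem_filter]
      exact ⟨hD.1.1, hD.2⟩
    have h2 : (V1.card : ℝ) ≤ (m0:ℝ) * (H:ℝ) ^ (k - 1) := by exact_mod_cast h1
    calc (V1.card : ℝ) ≤ (m0:ℝ) * (H:ℝ) ^ (k - 1) := h2
      _ ≤ (η * H) * (H:ℝ) ^ (k - 1) := mul_le_mul_of_nonneg_right hm0le (by positivity)
      _ = η * (H:ℝ) ^ k := by
          obtain ⟨j, rfl⟩ : ∃ j, k = j + 1 := ⟨k - 1, by omega⟩
          rw [Nat.add_sub_cancel, pow_succ]
          ring
      _ ≤ ε / 2 * (H:ℝ) ^ k := mul_le_mul_of_nonneg_right hηε (by positivity)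
  have hVmem : ∀ D ∈ V2, D.card = k ∧ 0 ∉ D ∧ (∀ d ∈ D, d + m0 ≤ H) := by
    intro D hD
    rw [hV2, Finset.mem_filter, hV, Finset.mem_filter, Finset.mem_powersetCard] at hD
    obtain ⟨⟨⟨hsub, hcard⟩, _⟩, hno⟩ := hD
    refine ⟨hcard, ?_, ?_⟩
    · intro h
      have := Finset.mem_Icc.mp (hsub h)
      omega
    · intro d hd
      have h1 : ¬ (H - m0 < d) := fun h => hno ⟨d, hd, h⟩
      omega
  set S := (box (k + 1) H).filter (fun e => Function.Injective e) with hS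
  have hmaps : ∀ q ∈ V2 ×ˢ Finset.range (m0 + 1), F6U.tup' k q ∈ S := by
    rintro ⟨D, t⟩ hq
    rw [Finset.mem_product] at hq
    obtain ⟨hD, ht⟩ := hq
    obtain ⟨hcard, h0, hle⟩ := hVmem D hD
    have htH : t ≤ m0 := by
      have := Finset.mem_range.mp ht
      omega
    rw [F6U.tup'_eq k D hcard]
    have himg := F6U.tup_image k D hcard t
    rw [hS, Finset.mem_filter]
    refine ⟨?_, F6U.tup_injective k D hcard t h0⟩
    unfold box
    rw [Fintype.mem_piFinset]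
    intro i
    have hi : F6U.tup k D hcard t i ∈ Finset.univ.image (F6U.tup k D hcard t) :=
      Finset.mem_image_of_mem _ (Finset.mem_univ i)
    rw [himg, Finset.mem_image] at hi
    obtain ⟨d, hd, hdi⟩ := hi
    rw [← hdi, Finset.mem_range]
    rcases Finset.mem_insert.mp hd with rfl | hd
    · omega
    · have := hle d hd
      omega
  have hinj : Set.InjOn (F6U.tup' k) ((V2 ×ˢ Finset.range (m0 + 1) : Finset (Finset ℕ × ℕ)) :
      Set (Finset ℕ × ℕ)) := by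
    rintro ⟨D, t⟩ hq ⟨D', t'⟩ hq' h
    rw [Finset.mem_coe, Finset.mem_product] at hq hq'
    obtain ⟨hcard, h0, _⟩ := hVmem D hq.1
    obtain ⟨hcard', h0', _⟩ := hVmem D' hq'.1
    exact F6U.tup'_inj k D D' t t' hcard hcard' h0 h0' h
  have hexc : ∀ q ∈ V2 ×ˢ Finset.range (m0 + 1), g ≤
      |cx k x (F6U.tup' k q) - singularSeries (Finset.univ.image (F6U.tup' k q))| := by
    rintro ⟨D, t⟩ hq
    rw [Finset.mem_product] at hq
    obtain ⟨hD, ht⟩ := hq
    obtain ⟨hcard, h0, hle⟩ := hVmem D hD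
    have htm : t ≤ m0 := by
      have := Finset.mem_range.mp ht
      simp only at this
      omega
    rw [F6U.tup'_eq k D hcard]
    have himg := F6U.tup_image k D hcard t
    unfold cx
    rw [himg, F6U.singularSeries_shift]
    rw [hV2, Finset.mem_filter, hV, Finset.mem_filter] at hD
    obtain ⟨⟨_, hadm, hviol⟩, _⟩ := hD
    have hSlow : c0 ≤ singularSeries (insert 0 D) := hlow _ (by
      rw [Finset.card_insert_of_notMem h0, hcard]) hadm
    set s := singularSeries (insert 0 D) with hs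
    set a : ℝ := (tupleCount x (insert 0 D) : ℝ) with ha
    set b : ℝ := (tupleCount x ((insert 0 D).image (fun d => t + d)) : ℝ) with hb
    have hab : |a - b| ≤ t := by
      have h1 : a ≤ b + t := by
        rw [ha, hb]
        exact_mod_cast F6U.tupleCount_shift x (insert 0 D) t
      have h2 : b ≤ a + t := by
        rw [ha, hb]
        exact_mod_cast tupleCount_shift_ge x (insert 0 D) t
      rw [abs_le]
      constructor <;> linarith
    have hcq0 : 0 < L ^ (k + 1) / x := by positivity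
    have h1 : ε * s < |L ^ (k + 1) / x * a - s| := by
      have h2 := mul_lt_mul_of_pos_left hviol hcq0
      rw [← abs_of_pos hcq0, ← abs_mul, abs_of_pos hcq0] at h2
      have h3 : L ^ (k + 1) / x * (ε * (s * (x / L ^ (k + 1)))) = ε * s := by
        have hL0 : L ≠ 0 := hLpos.ne'
        have hx0' : x ≠ 0 := hx0.ne'
        field_simp
      have h4 : L ^ (k + 1) / x * (a - s * (x / L ^ (k + 1))) = L ^ (k + 1) / x * a - s := by
        have hL0 : L ≠ 0 := hLpos.ne'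
        have hx0' : x ≠ 0 := hx0.ne'
        field_simp
      rwa [h3, h4] at h2
    have h5 : L ^ (k + 1) / x * |a - b| ≤ g := by
      have h6 : (t:ℝ) ≤ L ^ A := by
        have h7 : (t:ℝ) ≤ H := by exact_mod_cast htm.trans hm0H
        exact h7.trans hH2
      calc L ^ (k + 1) / x * |a - b| ≤ L ^ (k + 1) / x * L ^ A :=
            mul_le_mul_of_nonneg_left (hab.trans h6) hcq0.le
        _ = L ^ (k + 1 + A) / x := by rw [pow_add]; ring
        _ ≤ g := e3
    have h6 : |L ^ (k + 1) / x * a - s| ≤ |L ^ (k + 1) / x * b - s| +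
        L ^ (k + 1) / x * |a - b| := by
      have h7 : L ^ (k + 1) / x * a - s = (L ^ (k + 1) / x * b - s) +
          L ^ (k + 1) / x * (a - b) := by ring
      rw [h7]
      refine (abs_add_le _ _).trans ?_
      rw [abs_mul, abs_of_pos hcq0]
    have h8 : 2 * g ≤ ε * s := by
      have h9 : 2 * g = ε * c0 := by rw [hg]; ring
      rw [h9]
      exact mul_le_mul_of_nonneg_left hSlow hε.le
    linarith
  have hfin : (V2.card : ℝ) * ((m0:ℝ) + 1) * g ≤ ε₂ * ((H:ℝ) + 1) ^ (k + 1) := by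
    calc (V2.card : ℝ) * ((m0:ℝ) + 1) * g = ∑ q ∈ V2 ×ˢ Finset.range (m0 + 1), g := by
          rw [Finset.sum_const, Finset.card_product, Finset.card_range, nsmul_eq_mul]
          push_cast
          ring
      _ ≤ ∑ q ∈ V2 ×ˢ Finset.range (m0 + 1), |cx k x (F6U.tup' k q) -
            singularSeries (Finset.univ.image (F6U.tup' k q))| := Finset.sum_le_sum hexc
      _ = ∑ e ∈ (V2 ×ˢ Finset.range (m0 + 1)).image (F6U.tup' k), |cx k x e -
            singularSeries (Finset.univ.image e)| := by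
          rw [Finset.sum_image hinj]
      _ ≤ ∑ e ∈ S, |cx k x e - singularSeries (Finset.univ.image e)| := by
          apply Finset.sum_le_sum_of_subset_of_nonneg
          · intro e he
            obtain ⟨q, hq, rfl⟩ := Finset.mem_image.mp he
            exact hmaps q hq
          · intro e _ _
            exact abs_nonneg _
      _ ≤ _ := htot
  have hV2card : (V2.card : ℝ) ≤ ε / 2 * (H:ℝ) ^ k := by
    have h1 : (V2.card : ℝ) * ((η * H) * g) ≤ (ε / 2 * (H:ℝ) ^ k) * ((η * H) * g) := by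
      calc (V2.card : ℝ) * ((η * H) * g) ≤ (V2.card : ℝ) * (((m0:ℝ) + 1) * g) := by
            apply mul_le_mul_of_nonneg_left _ (Nat.cast_nonneg _)
            exact mul_le_mul_of_nonneg_right hm0lt.le hgpos.le
        _ = (V2.card : ℝ) * ((m0:ℝ) + 1) * g := by ring
        _ ≤ ε₂ * ((H:ℝ) + 1) ^ (k + 1) := hfin
        _ ≤ ε₂ * (2 * (H:ℝ)) ^ (k + 1) := by
            apply mul_le_mul_of_nonneg_left _ hε₂pos.le
            exact pow_le_pow_left₀ (by positivity) (by linarith) _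
        _ = (ε / 2 * (H:ℝ) ^ k) * ((η * H) * g) := by
            rw [hε₂, mul_pow, pow_succ (H:ℝ)]
            have h3 : (2:ℝ) ^ (k + 1) ≠ 0 := by positivity
            field_simp
    have h2 : 0 < (η * H) * g := by positivity
    exact le_of_mul_le_mul_right h1 h2
  rw [hVsplit]
  push_cast
  linarith

end Pool.Agent.HLT
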